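import Pool.Agent.Helper10.AL.St

/-!
Arc length of polynomials over compact windows, large degree: piece A10.
-/

set_option autoImplicit false

namespace Pool.Agent.Helper10.AL

open Polynomial Set Real MeasureTheory intervalIntegral

theorem a10_chain (c : ℝ → ℝ) (hc : Continuous c) (a b : ℝ) (v : ℕ → ℝ) (h0 : v 0 = c a)
    (hab : a < b) : ∀ N : ℕ, (∀ i < N, v (i + 1) < v i) → c b < v N →
    ∃ t : ℕ → ℝ, t 0 = a ∧ (∀ i < N, t i < t (i + 1)) ∧ (∀ i ≤ N, c (t i) = v i) ∧ t N < b := by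
  intro N
  induction N with
  | zero =>
    intro _ _
    refine ⟨fun _ => a, rfl, fun i hi => absurd hi (Nat.not_lt_zero i), fun i hi => ?_, hab⟩
    obtain rfl : i = 0 := by omega
    exact h0.symm
  | succ N ih =>
    intro hv hb
    have hN := hv N (Nat.lt_succ_self N)
    obtain ⟨t, ht0, ht1, ht2, ht3⟩ := ih (fun i hi => hv i (by omega)) (hb.trans hN)
    obtain ⟨x, hx, hxv⟩ : v (N + 1) ∈ c '' Ioo (t N) b :=
      intermediate_value_Ioo' ht3.le hc.continuousOn ⟨hb, by rw [ht2 N le_rfl]; exact hN⟩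
    refine ⟨fun i => if i ≤ N then t i else x, by simp [ht0], ?_, ?_, ?_⟩
    · intro i hi
      by_cases h : i + 1 ≤ N
      · have h1 : i ≤ N := by omega
        simp only [h, h1, if_true]
        exact ht1 i (by omega)
      · have h1 : i = N := by omega
        subst h1
        simp only [le_refl, if_true, h, if_false]
        exact hx.1
    · intro i hi
      by_cases h : i ≤ N
      · simp only [h, if_true]
        exact ht2 i h
      · have h1 : i = N + 1 := by omega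
        subst h1
        simp only [h, if_false]
        exact hxv
    · have h : ¬ (N + 1 ≤ N) := by omega
      simp only [h, if_false]
      exact hx.2

/-- the double angle form -/
theorem a10_double (A B τ : ℝ) :
    (A ^ 2 + B ^ 2 - 1) + (A ^ 2 - B ^ 2) * cos τ + (-(2 * A * B)) * sin τ =
      2 * (A * cos (τ / 2) - B * sin (τ / 2)) ^ 2 - 1 := by
  have h1 : cos τ = 2 * cos (τ / 2) ^ 2 - 1 := by
    rw [← cos_two_mul]; congr 1; ring
  have h2 : sin τ = 2 * sin (τ / 2) * cos (τ / 2) := by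
    rw [← sin_two_mul]; congr 1; ring
  have h3 := sin_sq_add_cos_sq (τ / 2)
  rw [h1, h2]
  linear_combination (-(2 * B ^ 2)) * h3

theorem a10_eval (n : ℕ) (g c β : ℝ) (hg : g = 2 * c ^ 2 - 1) (hc : c = cos β) :
    (Chebyshev.T ℝ (n : ℤ)).eval g = cos (2 * n * β) := by
  have h : g = cos (2 * β) := by rw [hg, hc, cos_two_mul]
  rw [h, Chebyshev.T_real_cos]
  congr 1
  push_cast
  ring

theorem a10 (hA1 : A1) (hA9 : A9) (hA10s : A10s) : A10 := by
  intro n f θ0 ψ l s hn hf hψ0 hψ1 hf0 hf1 hl hs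
  obtain ⟨hA1a, hA1b, hA1c⟩ := hA1
  have hn0 : (0 : ℝ) < n := by
    have : 0 < n := by omega
    exact_mod_cast this
  have hn2 : (2 : ℝ) ≤ n := by exact_mod_cast hn
  obtain ⟨hfT, hfb⟩ := hf
  obtain ⟨hl1, hl2⟩ := abs_le.1 hl
  rcases le_or_gt π (√(s ^ 2 + 2 * l * ψ * s + ψ ^ 2)) with hr | hr
  · rw [min_eq_right hr, cos_pi]
    exact (abs_le.1 (hfb _)).1
  rw [min_eq_left hr.le]
  rcases hs.eq_or_lt with hs0 | hs0
  · rw [← hs0]
    have h1 : √((0 : ℝ) ^ 2 + 2 * l * ψ * 0 + ψ ^ 2) = ψ := by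
      rw [show (0 : ℝ) ^ 2 + 2 * l * ψ * 0 + ψ ^ 2 = ψ ^ 2 by ring, sqrt_sq hψ0.le]
    rw [h1, zero_div, add_zero, hf0]
  -- main case
  have hnn : (s - ψ) ^ 2 ≤ s ^ 2 + 2 * l * ψ * s + ψ ^ 2 := by
    nlinarith [mul_pos hψ0 hs0]
  obtain ⟨r, hrdef⟩ : ∃ r : ℝ, r = √(s ^ 2 + 2 * l * ψ * s + ψ ^ 2) := ⟨_, rfl⟩
  rw [← hrdef] at hr ⊢
  have hr0 : 0 ≤ r := by rw [hrdef]; exact sqrt_nonneg _
  have hrsq : r ^ 2 = s ^ 2 + 2 * l * ψ * s + ψ ^ 2 := by
    rw [hrdef, sq_sqrt ((sq_nonneg _).trans hnn)]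
  have hs1 : s < π + ψ := by
    have h1 : (s - ψ) ^ 2 < π ^ 2 := by
      calc (s - ψ) ^ 2 ≤ r ^ 2 := by rw [hrsq]; exact hnn
        _ < π ^ 2 := by nlinarith [pi_pos]
    have h2 := abs_lt_of_sq_lt_sq h1 pi_pos.le
    have h3 := (abs_lt.1 h2).2
    linarith
  obtain ⟨x0, hx0⟩ : ∃ x0 : ℝ, x0 = ψ / (2 * n) := ⟨_, rfl⟩
  obtain ⟨y, hy⟩ : ∃ y : ℝ, y = s / (2 * n) := ⟨_, rfl⟩
  have hx0n : 2 * n * x0 = ψ := by rw [hx0]; field_simp
  have hyn : 2 * n * y = s := by rw [hy]; field_simp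
  have hx0p : 0 < x0 := by rw [hx0]; positivity
  have hyp : 0 < y := by rw [hy]; positivity
  have hx0lt : x0 < π / (2 * n) := by
    rw [hx0]; exact div_lt_div_of_pos_right hψ1 (by positivity)
  have hpin : π / (2 * n) ≤ π / 4 :=
    div_le_div_of_nonneg_left pi_pos.le (by norm_num) (by linarith)
  have hxy : x0 + y ≤ π := by
    have h1 : 2 * n * (x0 + y) = ψ + s := by rw [mul_add, hx0n, hyn]
    have h2 : 4 * (x0 + y) ≤ 2 * n * (x0 + y) :=
      mul_le_mul_of_nonneg_right (by linarith) (by linarith)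
    linarith
  obtain ⟨A, hA⟩ : ∃ A : ℝ, A = cos x0 := ⟨_, rfl⟩
  obtain ⟨B, hB⟩ : ∃ B : ℝ, B = l * sin x0 := ⟨_, rfl⟩
  -- the comparison sinusoid
  obtain ⟨c, hc⟩ : ∃ c : ℝ → ℝ, c = fun τ => A * cos (τ / 2) - B * sin (τ / 2) := ⟨_, rfl⟩
  obtain ⟨g, hg⟩ : ∃ g : ℝ → ℝ, g = fun τ => (A ^ 2 + B ^ 2 - 1) + (A ^ 2 - B ^ 2) * cos τ +
    (-(2 * A * B)) * sin τ := ⟨_, rfl⟩
  have hgc : ∀ τ, g τ = 2 * (c τ) ^ 2 - 1 := by
    intro τ
    rw [hg, hc]
    exact a10_double A B τ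
  have hcc : Continuous c := by rw [hc]; fun_prop
  have hc1 : ∀ τ, (c τ) ^ 2 ≤ 1 := by
    intro τ
    have h1 : A ^ 2 + B ^ 2 ≤ 1 := by
      have h2 : l ^ 2 ≤ 1 := by nlinarith
      have h3 := sin_sq_add_cos_sq x0
      rw [hA, hB]
      nlinarith [sq_nonneg (sin x0), mul_le_mul_of_nonneg_right h2 (sq_nonneg (sin x0))]
    have h4 := sin_sq_add_cos_sq (τ / 2)
    rw [hc]
    have h5 : (A * cos (τ / 2) - B * sin (τ / 2)) ^ 2 + (A * sin (τ / 2) + B * cos (τ / 2)) ^ 2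
        = A ^ 2 + B ^ 2 := by
      linear_combination (A ^ 2 + B ^ 2) * h4
    have h6 : 0 ≤ (A * sin (τ / 2) + B * cos (τ / 2)) ^ 2 := sq_nonneg _
    show (A * cos (τ / 2) - B * sin (τ / 2)) ^ 2 ≤ 1
    linarith
  have hcle : ∀ τ, c τ ≤ 1 := fun τ => by nlinarith [hc1 τ]
  have hcge : ∀ τ, -1 ≤ c τ := fun τ => by nlinarith [hc1 τ]
  obtain ⟨Q, hQ⟩ : ∃ Q : ℝ → ℝ, Q = fun θ => (Chebyshev.T ℝ (n : ℤ)).eval (g (θ - θ0)) :=
    ⟨_, rfl⟩
  have hQT : TP n Q := by
    have hdeg : (Chebyshev.T ℝ (n : ℤ)).natDegree ≤ n := by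
      rw [Chebyshev.natDegree_T]
      simp
    have h1 := hA1c n (A ^ 2 + B ^ 2 - 1) (A ^ 2 - B ^ 2) (-(2 * A * B))
      (Chebyshev.T ℝ (n : ℤ)) hdeg
    have h2 := (hA1a n _ h1).2.2.2.1 (-θ0)
    have h3 : Q = fun θ => (Chebyshev.T ℝ (n : ℤ)).eval ((A ^ 2 + B ^ 2 - 1) +
        (A ^ 2 - B ^ 2) * cos (θ + -θ0) + (-(2 * A * B)) * sin (θ + -θ0)) := by
      rw [hQ, hg]
      funext θ
      simp only [sub_eq_add_neg]
    rw [h3]
    exact h2
  have hDT : TP n (fun θ => Q θ - f θ) := (hA1b n Q f hQT hfT).2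
  have hc0 : c 0 = cos x0 := by rw [hc, hA]; simp
  have hQ0 : Q θ0 = cos ψ := by
    rw [hQ]
    show (Chebyshev.T ℝ (n : ℤ)).eval (g (θ0 - θ0)) = cos ψ
    rw [sub_self, a10_eval n (g 0) (c 0) x0 (hgc 0) hc0, hx0n]
  have hQd : HasDerivAt Q (-(n * (l * sin ψ))) θ0 := by
    have hgd : HasDerivAt g (-(2 * A * B)) 0 := by
      have h1 : HasDerivAt g ((A ^ 2 - B ^ 2) * (-sin 0) + (-(2 * A * B)) * cos 0) 0 := by
        rw [hg]
        have h2 := ((hasDerivAt_cos (0 : ℝ)).const_mul (A ^ 2 - B ^ 2)).const_add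
          (A ^ 2 + B ^ 2 - 1)
        have h3 := (hasDerivAt_sin (0 : ℝ)).const_mul (-(2 * A * B))
        exact h2.add h3
      simpa using h1
    have hsub : HasDerivAt (fun θ : ℝ => θ - θ0) 1 θ0 := (hasDerivAt_id θ0).sub_const θ0
    have hgd' : HasDerivAt g (-(2 * A * B)) (θ0 - θ0) := by rw [sub_self]; exact hgd
    have h4 : HasDerivAt (fun θ => g (θ - θ0)) (-(2 * A * B) * 1) θ0 :=
      HasDerivAt.comp θ0 hgd' hsub
    have h5 := (Polynomial.hasDerivAt (Chebyshev.T ℝ (n : ℤ)) (g (θ0 - θ0)))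
    have h6 : HasDerivAt Q ((Chebyshev.T ℝ (n : ℤ)).derivative.eval (g (θ0 - θ0)) *
        (-(2 * A * B) * 1)) θ0 := by
      rw [hQ]
      exact HasDerivAt.comp θ0 h5 h4
    have h7 : (Chebyshev.T ℝ (n : ℤ)).derivative.eval (g (θ0 - θ0)) * (-(2 * A * B) * 1) =
        -(n * (l * sin ψ)) := by
      have h8 : g (θ0 - θ0) = cos (2 * x0) := by
        rw [sub_self, hgc, hc0, cos_two_mul]
      have h9 := Chebyshev.U_real_cos (2 * x0) ((n : ℤ) - 1)
      have h10 : (((n : ℤ) - 1 : ℤ) : ℝ) + 1 = n := by push_cast; ring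
      have h11 : ((n : ℝ)) * (2 * x0) = ψ := by rw [← hx0n]; ring
      rw [h10, h11] at h9
      rw [Chebyshev.T_derivative_eq_U, h8, eval_mul, eval_intCast]
      have h12 : -(2 * A * B) * 1 = -(l * sin (2 * x0)) := by
        rw [hA, hB, sin_two_mul]; ring
      rw [h12]
      push_cast
      linear_combination (-(n * l)) * h9
    rw [← h7]
    exact h6
  have hfd : HasDerivAt f (-(n * (l * sin ψ))) θ0 := by
    have h1 : Differentiable ℝ f := ((hA1a n f hfT).1 1).differentiable (by norm_num)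
    rw [← hf1]
    exact (h1 θ0).hasDerivAt
  have hDd : deriv (fun θ => Q θ - f θ) θ0 = 0 := by
    have h1 := (hQd.sub hfd).deriv
    rw [sub_self] at h1
    exact h1
  -- the value of `c` at the comparison point
  have hcs : cos (r / (2 * n)) ≤ c (s / n) := by
    have h1 := hA10s x0 y l hx0p.le hyp.le hxy hl
    have h2 : √(x0 ^ 2 + y ^ 2 + 2 * l * x0 * y) = r / (2 * n) := by
      rw [show x0 ^ 2 + y ^ 2 + 2 * l * x0 * y = (r / (2 * n)) ^ 2 by
        rw [div_pow, hrsq, hx0, hy]; field_simp; ring]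
      exact sqrt_sq (by positivity)
    rw [h2] at h1
    have h3 : s / n / 2 = y := by rw [hy]; field_simp
    have h4 : c (s / n) = cos x0 * cos y - l * (sin x0 * sin y) := by
      rw [hc, hA, hB]
      show cos x0 * cos (s / n / 2) - l * sin x0 * sin (s / n / 2) = _
      rw [h3]; ring
    rw [h4]
    exact h1
  by_contra hcon
  rw [not_le] at hcon
  -- the value of `Q` at the comparison point
  have hQs : cos r ≤ Q (θ0 + s / n) := by
    have h1 : c (s / n) = cos (arccos (c (s / n))) := (cos_arccos (hcge _) (hcle _)).symm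
    have h2 : Q (θ0 + s / n) = cos (2 * n * arccos (c (s / n))) := by
      rw [hQ]
      show (Chebyshev.T ℝ (n : ℤ)).eval (g (θ0 + s / n - θ0)) = _
      rw [add_sub_cancel_left]
      exact a10_eval n (g (s / n)) (c (s / n)) _ (hgc _) h1
    have h3 : arccos (c (s / n)) ≤ r / (2 * n) := by
      have h4 : arccos (c (s / n)) ≤ arccos (cos (r / (2 * n))) := arccos_le_arccos hcs
      rw [arccos_cos (by positivity)] at h4
      · exact h4
      · rw [div_le_iff₀ (by positivity)]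
        nlinarith [pi_pos]
    have h5 : 2 * n * arccos (c (s / n)) ≤ r := by
      have := mul_le_mul_of_nonneg_left h3 (by positivity : (0 : ℝ) ≤ 2 * n)
      calc 2 * n * arccos (c (s / n)) ≤ 2 * n * (r / (2 * n)) := this
        _ = r := by field_simp
    rw [h2]
    exact cos_le_cos_of_nonneg_of_le_pi (by have := arccos_nonneg (c (s / n)); positivity) hr.le h5
  have hcpi : cos (π / (2 * n)) < c (s / n) := by
    refine lt_of_lt_of_le ?_ hcs
    apply cos_lt_cos_of_nonneg_of_le_pi (by positivity)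
    · linarith [pi_pos]
    · exact div_lt_div_of_pos_right hr (by positivity)
  have hsn : s / n < 2 * π := by
    rw [div_lt_iff₀ hn0]
    nlinarith [pi_pos]
  have hc2pi : c (2 * π) = -cos x0 := by
    rw [hc, hA]
    show cos x0 * cos (2 * π / 2) - B * sin (2 * π / 2) = _
    rw [mul_div_cancel_left₀ π (by norm_num : (2 : ℝ) ≠ 0), cos_pi, sin_pi]
    ring
  -- alternation points
  obtain ⟨v, hv⟩ : ∃ v : ℕ → ℝ, v = fun i : ℕ => if i = 0 then c (s / n) else
    cos ((i : ℝ) * (π / (2 * n))) := ⟨_, rfl⟩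
  have hv0 : v 0 = c (s / n) := by rw [hv]; simp
  have hvi : ∀ i, i ≠ 0 → v i = cos (i * (π / (2 * n))) := by
    intro i hi
    rw [hv]
    simp [hi]
  obtain ⟨δ, hδ⟩ : ∃ δ : ℝ, δ = π / (2 * n) := ⟨_, rfl⟩
  have hδ0 : 0 < δ := by rw [hδ]; positivity
  have hδn : 2 * n * δ = π := by rw [hδ]; field_simp
  rw [← hδ] at hcpi hx0lt hpin
  have hvi' : ∀ i, i ≠ 0 → v i = cos (i * δ) := by
    intro i hi
    rw [hvi i hi, hδ]
  have hstep : ∀ i < 2 * n - 1, v (i + 1) < v i := by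
    intro i hi
    rcases Nat.eq_zero_or_pos i with h | h
    · subst h
      rw [hv0, hvi' (0 + 1) (by norm_num)]
      have h1 : ((0 + 1 : ℕ) : ℝ) = 1 := by norm_num
      rw [h1, one_mul]
      exact hcpi
    · rw [hvi' i (by omega), hvi' (i + 1) (by omega)]
      have h1 : ((i + 1 : ℕ) : ℝ) ≤ 2 * n := by
        have : i + 1 ≤ 2 * n := by omega
        exact_mod_cast this
      apply cos_lt_cos_of_nonneg_of_le_pi
      · positivity
      · rw [← hδn]
        exact mul_le_mul_of_nonneg_right h1 hδ0.le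
      · push_cast
        nlinarith
  have hend : c (2 * π) < v (2 * n - 1) := by
    rw [hc2pi, hvi' (2 * n - 1) (by omega), ← cos_pi_sub]
    have h1 : ((2 * n - 1 : ℕ) : ℝ) = 2 * n - 1 := by
      rw [Nat.cast_sub (by omega)]
      push_cast
      ring
    rw [h1]
    apply cos_lt_cos_of_nonneg_of_le_pi
    · have : (1 : ℝ) ≤ 2 * n := by linarith
      nlinarith
    · linarith
    · have h2 : (2 * (n : ℝ) - 1) * δ = π - δ := by rw [← hδn]; ring
      rw [h2]
      linarith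
  obtain ⟨t, ht0, ht1, ht2, ht3⟩ := a10_chain c hcc (s / n) (2 * π) v hv0 hsn (2 * n - 1) hstep
    hend
  have hfin := hA9 n (fun θ => Q θ - f θ) θ0 (fun i => θ0 + t i) (by omega) hDT
    (by show Q θ0 - f θ0 = 0; rw [hQ0, hf0, sub_self]) hDd
    (by show θ0 < θ0 + t 0; rw [ht0]; have : 0 < s / n := by positivity
        linarith)
    (fun i hi => by show θ0 + t i < θ0 + t (i + 1); linarith [ht1 i (by omega)])
    (by show θ0 + t (2 * n - 1) < θ0 + 2 * π; linarith)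
    (by
      intro i hi
      show 0 ≤ (-1) ^ i * (Q (θ0 + t i) - f (θ0 + t i))
      rcases Nat.eq_zero_or_pos i with h | h
      · subst h
        rw [ht0, pow_zero, one_mul]
        linarith
      · have h1 : c (t i) = cos (i * δ) := by rw [ht2 i (by omega), hvi' i (by omega)]
        have h2 : Q (θ0 + t i) = (-1) ^ i := by
          rw [hQ]
          show (Chebyshev.T ℝ (n : ℤ)).eval (g (θ0 + t i - θ0)) = _
          rw [add_sub_cancel_left, a10_eval n (g (t i)) (c (t i)) _ (hgc _) h1]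
          rw [show 2 * (n : ℝ) * (i * δ) = i * (2 * n * δ) by ring, hδn, cos_nat_mul_pi]
        rw [h2]
        have h3 := abs_le.1 (hfb (θ0 + t i))
        rcases Nat.even_or_odd i with he | ho
        · rw [he.neg_one_pow]; linarith [h3.2]
        · rw [ho.neg_one_pow]; linarith [h3.1])
    (θ0 + s / n)
  have hfin' : Q (θ0 + s / n) - f (θ0 + s / n) = 0 := hfin
  linarith

end Pool.Agent.Helper10.AL
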