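import Pool.Agent.Helper10.AL.St

set_option autoImplicit false

namespace Pool.Agent.Helper10.AL

open Real

lemma a10s_sinc {a b : ℝ} (ha : 0 < a) (hab : a ≤ b) (hb : b ≤ π) :
    sin b / b ≤ sin a / a := by
  have hb0 : 0 < b := lt_of_lt_of_le ha hab
  have hc := strictConcaveOn_sin_Icc.concaveOn
  have h1 : a / b ≤ 1 := (div_le_one hb0).2 hab
  have m0 : (0 : ℝ) ∈ Set.Icc 0 π := ⟨le_refl _, pi_pos.le⟩
  have m1 : b ∈ Set.Icc 0 π := ⟨hb0.le, hb⟩
  have q1 : (0 : ℝ) ≤ 1 - a / b := by linarith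
  have q2 : (0 : ℝ) ≤ a / b := by positivity
  have h := hc.2 m0 m1 q1 q2 (by ring)
  simp only [smul_eq_mul, sin_zero, mul_zero, zero_add] at h
  rw [div_mul_cancel₀ _ hb0.ne'] at h
  rw [div_le_div_iff₀ hb0 ha]
  have h2 : a / b * sin b * b ≤ sin a * b := mul_le_mul_of_nonneg_right h hb0.le
  have h3 : a / b * sin b * b = sin b * a := by field_simp
  linarith

lemma a10s_deriv {t : ℝ} (ht : 0 < t) :
    HasDerivAt (fun t => cos (√t)) (-(sin (√t) / √t) / 2) t := by
  have h1 := (Real.hasDerivAt_sqrt ht.ne').cos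
  convert h1 using 1
  have : √t ≠ 0 := (Real.sqrt_pos.2 ht).ne'
  field_simp

lemma a10s_convex : ConvexOn ℝ (Set.Icc 0 (π ^ 2)) (fun t => cos (√t)) := by
  apply MonotoneOn.convexOn_of_deriv (convex_Icc _ _)
  · exact (continuous_cos.comp continuous_sqrt).continuousOn
  · intro t ht
    rw [interior_Icc] at ht
    exact (a10s_deriv ht.1).differentiableAt.differentiableWithinAt
  · intro s hs t ht hst
    rw [interior_Icc] at hs ht
    rw [(a10s_deriv hs.1).deriv, (a10s_deriv ht.1).deriv]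
    have h := a10s_sinc (Real.sqrt_pos.2 hs.1) (Real.sqrt_le_sqrt hst)
      (by rw [Real.sqrt_le_left pi_pos.le]; exact ht.2.le)
    linarith

/-- spherical against Euclidean law of cosines -/
theorem a10s : A10s := by
  intro x y l hx hy hxy hl
  have hl1 := (abs_le.1 hl).1
  have hl2 := (abs_le.1 hl).2
  have m1 : (x + y) ^ 2 ∈ Set.Icc 0 (π ^ 2) :=
    ⟨by positivity, by apply pow_le_pow_left₀ (by linarith) hxy⟩
  have m2 : (x - y) ^ 2 ∈ Set.Icc 0 (π ^ 2) := by
    refine ⟨by positivity, ?_⟩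
    rw [← sq_abs (x - y)]
    apply pow_le_pow_left₀ (abs_nonneg _)
    rw [abs_le]; constructor <;> linarith
  have q1 : (0 : ℝ) ≤ (1 + l) / 2 := by linarith
  have q2 : (0 : ℝ) ≤ (1 - l) / 2 := by linarith
  have hc := a10s_convex.2 m1 m2 q1 q2 (by ring)
  simp only [smul_eq_mul] at hc
  rw [Real.sqrt_sq (by linarith), Real.sqrt_sq_eq_abs, cos_abs, cos_add, cos_sub] at hc
  have e : (1 + l) / 2 * (x + y) ^ 2 + (1 - l) / 2 * (x - y) ^ 2 = x ^ 2 + y ^ 2 + 2 * l * x * y := by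
    ring
  rw [e] at hc
  linarith

end Pool.Agent.Helper10.AL
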