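import Pool.Agent.Helper10.AL.St
import Pool.Agent.Helper40.Arc.Final

set_option autoImplicit false

namespace Pool.Agent.Helper10.AL

open Polynomial Set Real MeasureTheory intervalIntegral
open Pool.Agent.Helper40.AS (arc Bdd Ext)

noncomputable section

theorem a2_diff (hA1 : A1) {n : ℕ} {f : ℝ → ℝ} (hf : TP n f) (θ : ℝ) :
    HasDerivAt f (deriv f θ) θ := by
  have h1 : ContDiff ℝ (1 : ℕ) f := (hA1.1 n f hf).1 1
  exact (h1.differentiable (by norm_num)).differentiableAt.hasDerivAt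

theorem a2_main (hA1 : A1) {n : ℕ} {f : ℝ → ℝ} (hn : 1 ≤ n) (hf : TB n f) (θ : ℝ) :
    (deriv f θ) ^ 2 + (n : ℝ) ^ 2 * (f θ) ^ 2 ≤ (n : ℝ) ^ 2 ∧
      (deriv (deriv f) θ) ^ 2 + (n : ℝ) ^ 2 * (deriv f θ) ^ 2 ≤ (n : ℝ) ^ 4 ∧
      |deriv f θ| ≤ n ∧ |deriv (deriv f) θ| ≤ (n : ℝ) ^ 2 := by
  have hn0 : (0 : ℝ) < n := by exact_mod_cast hn
  obtain ⟨hT, hb⟩ := hf
  have hT' : TP n (deriv f) := (hA1.1 n f hT).2.1
  have hd := fun θ => a2_diff hA1 hT θ
  have hd' := fun θ => a2_diff hA1 hT' θ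
  obtain ⟨F, hFd, hFe⟩ := hT
  obtain ⟨h1, h2⟩ := Helper40.Arc.bs_both hn hFd hFe hd hd' hb θ
  refine ⟨h1, h2, ?_, ?_⟩
  · refine abs_le_of_sq_le_sq ?_ hn0.le
    nlinarith [sq_nonneg ((n : ℝ) * f θ)]
  · refine abs_le_of_sq_le_sq ?_ (by positivity)
    nlinarith [sq_nonneg ((n : ℝ) * deriv f θ)]

theorem a2_tb (hA1 : A1) {n : ℕ} {f : ℝ → ℝ} (hn : 1 ≤ n) (hf : TB n f) :
    TB n (fun θ => deriv f θ / n) := by
  have hn0 : (0 : ℝ) < n := by exact_mod_cast hn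
  refine ⟨?_, fun θ => ?_⟩
  · have h1 := (hA1.1 n _ (hA1.1 n f hf.1).2.1).2.2.1 (1 / n)
    have e : (fun θ => deriv f θ / n) = fun θ => 1 / (n : ℝ) * deriv f θ := by
      funext θ
      ring
    rw [e]
    exact h1
  · rw [abs_div, abs_of_pos hn0, div_le_one hn0]
    exact (a2_main hA1 hn hf θ).2.2.1

theorem a2_poly (P : ℝ[X]) (θ : ℝ) : deriv (qq P) θ = -(sin θ * P.derivative.eval (cos θ)) ∧
    deriv (deriv (qq P)) θ =
      sin θ ^ 2 * P.derivative.derivative.eval (cos θ) - cos θ * P.derivative.eval (cos θ) := by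
  have hf : ∀ θ : ℝ, HasDerivAt (qq P) (-(sin θ * P.derivative.eval (cos θ))) θ := by
    intro θ
    have := (P.hasDerivAt (cos θ)).comp θ (hasDerivAt_cos θ)
    refine (this.congr_deriv ?_)
    ring
  have hf' : ∀ θ : ℝ, HasDerivAt (fun θ => -(sin θ * P.derivative.eval (cos θ)))
      (sin θ ^ 2 * P.derivative.derivative.eval (cos θ) -
        cos θ * P.derivative.eval (cos θ)) θ := by
    intro θ
    have h1 := (P.derivative.hasDerivAt (cos θ)).comp θ (hasDerivAt_cos θ)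
    have h2 := ((hasDerivAt_sin θ).mul h1).neg
    refine (h2.congr_deriv ?_)
    simp only [Function.comp_apply]
    ring
  have e : deriv (qq P) = fun θ => -(sin θ * P.derivative.eval (cos θ)) := by
    funext θ
    exact (hf θ).deriv
  rw [e]
  exact ⟨rfl, (hf' θ).deriv⟩

theorem a2 (hA1 : A1) : A2 := by
  refine ⟨?_, ?_, a2_poly⟩
  · intro n f hn hf
    have hn0 : (0 : ℝ) < n := by exact_mod_cast hn
    have hg := a2_tb hA1 hn hf
    refine ⟨hg, fun θ => ?_⟩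
    obtain ⟨h1, h2, h3, h4⟩ := a2_main hA1 hn hf θ
    refine ⟨h1, h2, h3, h4, ?_⟩
    have h5 := (a2_main hA1 hn hg θ).2.2.2
    have e1 : deriv (fun θ => deriv f θ / (n : ℝ)) = fun θ => deriv (deriv f) θ / n := by
      funext θ
      exact deriv_div_const _
    have e2 : deriv (fun θ => deriv (deriv f) θ / (n : ℝ)) θ = deriv (deriv (deriv f)) θ / n :=
      deriv_div_const _
    rw [e1, e2, abs_div, abs_of_pos hn0, div_le_iff₀ hn0] at h5
    calc |deriv (deriv (deriv f)) θ| ≤ (n : ℝ) ^ 2 * n := h5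
      _ = (n : ℝ) ^ 3 := by ring
  · intro n P hdeg hb
    refine ⟨⟨Helper40.Arc.FF n P, Helper40.Arc.FF_natDegree n P, fun θ => ?_⟩, fun θ => ?_⟩
    · exact Helper40.Arc.FF_eval hdeg θ
    · exact hb _ ⟨neg_one_le_cos θ, cos_le_one θ⟩

end

end Pool.Agent.Helper10.AL
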