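import Pool.Agent.Helper10.AL.St
import Pool.Agent.Helper40.Arc.Traj

/-!
The derivative of a bounded trigonometric polynomial near a critical point.
-/

set_option autoImplicit false

namespace Pool.Agent.Helper10.AL

open Polynomial Set Real MeasureTheory intervalIntegral

/-- trigonometric polynomials are smooth -/
theorem a3_contDiff {n : ℕ} {f : ℝ → ℝ} (h : TP n f) (k : ℕ) : ContDiff ℝ k f := by
  obtain ⟨F, -, hF⟩ := h
  have h1 : f = fun θ : ℝ => (Complex.exp (-(n * θ * Complex.I)) *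
      ∑ i ∈ Finset.range (F.natDegree + 1),
        F.coeff i * Complex.exp (θ * Complex.I) ^ i).re := by
    funext θ
    rw [← Polynomial.eval_eq_sum_range, hF θ, ← mul_assoc, ← Complex.exp_add]
    simp
  rw [h1]
  have h2 : ContDiff ℝ k (fun θ : ℝ => (θ : ℂ)) := Complex.ofRealCLM.contDiff
  have h3 : ContDiff ℝ k (fun θ : ℝ => Complex.exp (-(n * θ * Complex.I))) :=
    (((contDiff_const.mul h2).mul contDiff_const).neg).cexp
  have h4 : ContDiff ℝ k (fun θ : ℝ => Complex.exp (θ * Complex.I)) :=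
    (h2.mul contDiff_const).cexp
  have h5 : ContDiff ℝ k (fun θ : ℝ => ∑ i ∈ Finset.range (F.natDegree + 1),
      F.coeff i * Complex.exp (θ * Complex.I) ^ i) :=
    ContDiff.sum fun i _ => contDiff_const.mul (h4.pow i)
  exact Complex.reCLM.contDiff.comp (h3.mul h5)

theorem a3 (hA2 : A2) : A3 := by
  intro n f θ0 s hn hf h0 hs
  have hn0 : (0 : ℝ) < n := by exact_mod_cast hn
  have hc := a3_contDiff hf.1 2
  have hd1 : Differentiable ℝ f := hc.differentiable (by norm_num)
  have hc1 : ContDiff ℝ 1 (deriv f) := by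
    have h1 : ContDiff ℝ (1 + 1) f := by
      have h2 : ((2 : ℕ) : WithTop ℕ∞) = 1 + 1 := by norm_num
      rwa [h2] at hc
    exact (contDiff_succ_iff_deriv.1 h1).2.2
  have hd2 : Differentiable ℝ (deriv f) := hc1.differentiable (by norm_num)
  have hT : Pool.Agent.Helper40.Arc.Tr (fun t => f (t / n)) (fun t => deriv f (t / n) / n)
      (fun t => deriv (deriv f) (t / n) / n ^ 2) := by
    refine ⟨fun t => ?_, fun t => ?_, fun t => ?_, fun t => ?_⟩
    · have h1 := (hd1 (t / n)).hasDerivAt.comp t ((hasDerivAt_id t).div_const (n : ℝ))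
      simpa [Function.comp_def, div_eq_mul_inv] using h1
    · have h1 := ((hd2 (t / n)).hasDerivAt.comp t
        ((hasDerivAt_id t).div_const (n : ℝ))).div_const (n : ℝ)
      have e : deriv (deriv f) (t / n) / (n : ℝ) ^ 2 = deriv (deriv f) (t / n) * (1 / n) / n := by
        field_simp
      rw [e]
      exact h1
    · have h1 := ((hA2.1 n f hn hf).2 (t / n)).1
      rw [div_pow, ← mul_le_mul_iff_right₀ (pow_pos hn0 2)]
      have h2 : (n : ℝ) ^ 2 * (f (t / n) ^ 2 + deriv f (t / n) ^ 2 / n ^ 2) =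
        deriv f (t / n) ^ 2 + n ^ 2 * f (t / n) ^ 2 := by field_simp; ring
      rw [h2, mul_one]
      exact h1
    · have h1 := ((hA2.1 n f hn hf).2 (t / n)).2.1
      rw [div_pow, div_pow, ← mul_le_mul_iff_right₀ (pow_pos hn0 4)]
      have h2 : (n : ℝ) ^ 4 * (deriv f (t / n) ^ 2 / n ^ 2 +
          deriv (deriv f) (t / n) ^ 2 / (n ^ 2) ^ 2) =
        deriv (deriv f) (t / n) ^ 2 + n ^ 2 * deriv f (t / n) ^ 2 := by field_simp; ring
      rw [h2, mul_one]
      exact h1
  have hs0 : deriv f (n * θ0 / n) / n = 0 := by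
    rw [mul_div_cancel_left₀ _ hn0.ne', h0, zero_div]
  have hst : |(n * θ0 + s) - n * θ0| ≤ π / 2 := by
    rw [add_sub_cancel_left]
    exact hs
  have h1 := hT.bound (s := n * θ0) (t := n * θ0 + s) hs0 hst
  rw [add_sub_cancel_left, add_div, mul_div_cancel_left₀ _ hn0.ne', abs_div,
    abs_of_pos hn0, div_le_iff₀ hn0] at h1
  linarith

end Pool.Agent.Helper10.AL
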