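import Pool.Agent.Helper10.AL.St

/-!
Number of zeros of a trigonometric polynomial in a period.
-/

set_option autoImplicit false

namespace Pool.Agent.Helper10.AL

open Polynomial Set Real MeasureTheory intervalIntegral

/-- the exponential parametrisation of the circle is injective on a half open period -/
theorem a4_inj (u : ℝ) :
    Set.InjOn (fun θ : ℝ => Complex.exp (θ * Complex.I)) (Ico u (u + 2 * π)) := by
  intro x hx y hy hxy
  simp only at hxy
  rw [Complex.exp_eq_exp_iff_exists_int] at hxy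
  obtain ⟨n, hn⟩ := hxy
  have h1 : (x : ℂ) = y + n * (2 * π) := by
    have h2 : ((x : ℂ) - (y + n * (2 * π))) * Complex.I = 0 := by
      linear_combination hn
    rcases mul_eq_zero.1 h2 with h3 | h3
    · linear_combination h3
    · exact absurd h3 Complex.I_ne_zero
  have h4 : x = y + n * (2 * π) := by exact_mod_cast h1
  have hpi := Real.pi_pos
  have hn1 : (n : ℝ) < 1 := by
    by_contra h
    push Not at h
    nlinarith [hx.1, hx.2, hy.1, hy.2]
  have hn2 : (-1 : ℝ) < n := by
    by_contra h
    push Not at h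
    nlinarith [hx.1, hx.2, hy.1, hy.2]
  have hn3 : n = 0 := by
    have h5 : n < 1 := by exact_mod_cast hn1
    have h6 : -1 < n := by exact_mod_cast hn2
    omega
  rw [h4, hn3]
  simp

theorem a4 : A4 := by
  intro n f u hf hne
  obtain ⟨F, hF1, hF2⟩ := hf
  obtain ⟨θ1, hθ1⟩ := hne
  have hF0 : F ≠ 0 := by
    rintro rfl
    have h1 := hF2 θ1
    rw [eval_zero] at h1
    rcases mul_eq_zero.1 h1.symm with h2 | h2
    · exact Complex.exp_ne_zero _ h2
    · exact hθ1 (by exact_mod_cast h2)
  set S : Set ℝ := {θ | θ ∈ Ico u (u + 2 * π) ∧ f θ = 0} with hS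
  have hinj : Set.InjOn (fun θ : ℝ => Complex.exp (θ * Complex.I)) S :=
    (a4_inj u).mono fun θ hθ => hθ.1
  have hmaps : ∀ θ ∈ S, (fun θ : ℝ => Complex.exp (θ * Complex.I)) θ ∈
      ((F.roots.toFinset : Finset ℂ) : Set ℂ) := by
    intro θ hθ
    simp only [Finset.mem_coe, Multiset.mem_toFinset]
    rw [mem_roots hF0]
    show F.eval _ = 0
    rw [hF2 θ, hθ.2]
    simp
  have hfin : S.Finite :=
    Set.Finite.of_injOn hmaps hinj (F.roots.toFinset.finite_toSet)
  refine ⟨hfin, ?_⟩
  calc S.ncard ≤ ((F.roots.toFinset : Finset ℂ) : Set ℂ).ncard :=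
        Set.ncard_le_ncard_of_injOn _ hmaps hinj (F.roots.toFinset.finite_toSet)
    _ = F.roots.toFinset.card := Set.ncard_coe_finset _
    _ ≤ Multiset.card F.roots := Multiset.toFinset_card_le _
    _ ≤ F.natDegree := card_roots' F
    _ ≤ 2 * n := hF1

end Pool.Agent.Helper10.AL
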