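import Pool.Agent.Helper10.AL.St

/-! Piece A8: a polynomial of small degree with weakly alternating signs. -/

set_option autoImplicit false

namespace Pool.Agent.Helper10.AL

open Polynomial Set Real

theorem a8_mono (m : ℕ) (x : ℕ → ℝ) (h : ∀ i < m, x i < x (i + 1)) :
    ∀ i j : ℕ, i < j → j ≤ m → x i < x j := by
  intro i j hij hj
  induction j with
  | zero => omega
  | succ j ih =>
    rcases Nat.lt_succ_iff_lt_or_eq.mp hij with h1 | h1
    · exact (ih h1 (by omega)).trans (h j (by omega))
    · subst h1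
      exact h i (by omega)

theorem a8_sign (m : ℕ) (x : ℕ → ℝ) (h : ∀ i j : ℕ, i < j → j ≤ m → x i < x j) (i : ℕ)
    (hi : i ≤ m) :
    0 < (-1 : ℝ) ^ (m - i) * ∏ j ∈ (Finset.range (m + 1)).erase i, (x i - x j) := by
  have h1 : ∏ j ∈ (Finset.range (m + 1)).erase i, (x i - x j) =
      (∏ j ∈ (Finset.range (m + 1)).erase i, (if i < j then (-1 : ℝ) else 1)) *
        ∏ j ∈ (Finset.range (m + 1)).erase i, |x i - x j| := by
    rw [← Finset.prod_mul_distrib]
    refine Finset.prod_congr rfl fun j hj => ?_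
    rw [Finset.mem_erase, Finset.mem_range] at hj
    by_cases hij : i < j
    · rw [if_pos hij, abs_of_neg (by linarith [h i j hij (by omega)])]
      ring
    · rw [if_neg hij, abs_of_pos (by linarith [h j i (by omega) hi])]
      ring
  have h2 : (∏ j ∈ (Finset.range (m + 1)).erase i, (if i < j then (-1 : ℝ) else 1)) =
      (-1 : ℝ) ^ (m - i) := by
    rw [Finset.prod_ite, Finset.prod_const, Finset.prod_const_one, mul_one]
    congr 1
    have : (Finset.filter (fun j => i < j) ((Finset.range (m + 1)).erase i)) =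
        Finset.Ioc i m := by
      ext j
      simp only [Finset.mem_filter, Finset.mem_erase, Finset.mem_range, Finset.mem_Ioc]
      omega
    rw [this, Nat.card_Ioc]
  rw [h1, h2, ← mul_assoc, ← mul_pow]
  have h3 : ((-1 : ℝ) * -1) = 1 := by norm_num
  rw [h3, one_pow, one_mul]
  refine Finset.prod_pos fun j hj => ?_
  rw [Finset.mem_erase, Finset.mem_range] at hj
  rw [abs_pos, sub_ne_zero]
  rcases lt_or_gt_of_ne hj.1 with h4 | h4
  · exact (h j i h4 hi).ne'
  · exact (h i j h4 (by omega)).ne

theorem a8 : A8 := by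
  intro m p x hp hx hs
  have hmono := a8_mono m x hx
  have hinj : Set.InjOn x (Finset.range (m + 1)) := by
    intro i hi j hj hij
    rw [Finset.coe_range, Set.mem_Iio] at hi hj
    by_contra hne
    rcases lt_or_gt_of_ne hne with h1 | h1
    · exact (hmono i j h1 (by omega)).ne hij
    · exact (hmono j i h1 (by omega)).ne' hij
  have hcard : (Finset.range (m + 1)).card = m + 1 := Finset.card_range _
  have hdeg : p.degree < (Finset.range (m + 1)).card := by
    rw [hcard]
    refine lt_of_lt_of_le hp ?_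
    exact_mod_cast Nat.le_succ m
  have hc := Lagrange.coeff_eq_sum hinj hdeg
  rw [hcard, Nat.add_sub_cancel, coeff_eq_zero_of_degree_lt hp] at hc
  -- all terms have the same sign
  have hterm : ∀ i ∈ Finset.range (m + 1), 0 ≤ (-1 : ℝ) ^ m *
      ((p.eval (x i)) / ∏ j ∈ (Finset.range (m + 1)).erase i, (x i - x j)) := by
    intro i hi
    rw [Finset.mem_range] at hi
    have h1 := a8_sign m x hmono i (by omega)
    have h2 := hs i (by omega)
    set D := ∏ j ∈ (Finset.range (m + 1)).erase i, (x i - x j) with hD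
    have h3 : (-1 : ℝ) ^ m * (p.eval (x i) / D) =
        ((-1) ^ i * p.eval (x i)) / ((-1 : ℝ) ^ (m - i) * D) := by
      have h4 : (-1 : ℝ) ^ m = (-1) ^ i * (-1) ^ (m - i) := by
        rw [← pow_add]; congr 1; omega
      have h5 : ((-1 : ℝ) ^ (m - i)) * (-1) ^ (m - i) = 1 := by
        rw [← mul_pow]; norm_num
      have h6 : ((-1 : ℝ) ^ (m - i)) ≠ 0 := pow_ne_zero _ (by norm_num)
      have h7 : D ≠ 0 := by
        intro h0; rw [h0, mul_zero] at h1; exact lt_irrefl _ h1
      rw [h4]
      field_simp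
      rw [pow_two, h5, one_mul]
    rw [h3]
    exact div_nonneg h2 h1.le
  have hsum : ∑ i ∈ Finset.range (m + 1), (-1 : ℝ) ^ m *
      ((p.eval (x i)) / ∏ j ∈ (Finset.range (m + 1)).erase i, (x i - x j)) = 0 := by
    rw [← Finset.mul_sum, ← hc, mul_zero]
  have hz := (Finset.sum_eq_zero_iff_of_nonneg hterm).mp hsum
  refine Polynomial.eq_zero_of_degree_lt_of_eval_finset_eq_zero
    (s := (Finset.range (m + 1)).image x) ?_ ?_
  · rw [Finset.card_image_of_injOn hinj]
    exact hdeg
  · intro y hy
    obtain ⟨i, hi, rfl⟩ := Finset.mem_image.mp hy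
    have h1 := hz i hi
    rw [Finset.mem_range] at hi
    have h2 := a8_sign m x hmono i (by omega)
    have h7 : ∏ j ∈ (Finset.range (m + 1)).erase i, (x i - x j) ≠ 0 := by
      intro h0; rw [h0, mul_zero] at h2; exact lt_irrefl _ h2
    have h6 : ((-1 : ℝ) ^ m) ≠ 0 := pow_ne_zero _ (by norm_num)
    rcases mul_eq_zero.mp h1 with h3 | h3
    · exact absurd h3 h6
    · rcases div_eq_zero_iff.mp h3 with h4 | h4
      · exact h4
      · exact absurd h4 h7

end Pool.Agent.Helper10.AL
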