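import Pool.Agent.Helper10.AL.St

/-!
Arc length of polynomials, piece A9: a trigonometric polynomial with a double zero and `2 n`
alternating points vanishes.
-/

set_option autoImplicit false

namespace Pool.Agent.Helper10.AL

open Polynomial Set Real MeasureTheory intervalIntegral
open Pool.Agent.Helper40.AS (arc Bdd Ext)

noncomputable section

/-- `exp (i (π / 2 - arctan x))` -/
theorem a9_exp (x : ℝ) : ((x : ℂ) - Complex.I) * Complex.exp ((π - 2 * arctan x : ℝ) * Complex.I) =
    (x : ℂ) + Complex.I := by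
  have h1 : (0 : ℝ) < √(1 + x ^ 2) := Real.sqrt_pos.mpr (by positivity)
  have h2 : √(1 + x ^ 2) ^ 2 = 1 + x ^ 2 := Real.sq_sqrt (by positivity)
  have hc : Real.cos (π - 2 * arctan x) = (x ^ 2 - 1) / (1 + x ^ 2) := by
    rw [Real.cos_pi_sub, Real.cos_two_mul, Real.cos_arctan, div_pow, h2]
    field_simp
    ring
  have hs : Real.sin (π - 2 * arctan x) = 2 * x / (1 + x ^ 2) := by
    rw [Real.sin_pi_sub, Real.sin_two_mul, Real.cos_arctan, Real.sin_arctan]
    have : 2 * (x / √(1 + x ^ 2)) * (1 / √(1 + x ^ 2)) = 2 * x / (√(1 + x ^ 2) ^ 2) := by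
      field_simp
    rw [this, h2]
  have hpos : (1 : ℝ) + x ^ 2 ≠ 0 := by positivity
  have hposC : (1 : ℂ) + (x : ℂ) ^ 2 ≠ 0 := by exact_mod_cast hpos
  rw [Complex.exp_mul_I, ← Complex.ofReal_cos, ← Complex.ofReal_sin, hc, hs]
  push_cast
  field_simp
  linear_combination (-2 * (x : ℂ)) * Complex.I_sq

/-- the real polynomial attached to a trigonometric polynomial -/
theorem a9_poly (n : ℕ) (D : ℝ → ℝ) (θ0 : ℝ) (hD : TP n D) :
    ∃ p : ℝ[X], ∀ x : ℝ, p.eval x = (1 + x ^ 2) ^ n * D (θ0 + (π - 2 * arctan x)) := by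
  obtain ⟨F, hF, hFD⟩ := hD
  set c : ℂ := Complex.exp (θ0 * Complex.I) with hc
  have hc0 : c ≠ 0 := Complex.exp_ne_zero _
  set Q : ℂ[X] := ∑ k ∈ Finset.range (2 * n + 1), C (F.coeff k * c ^ k) *
    ((X + C Complex.I) ^ k * (X - C Complex.I) ^ (2 * n - k)) with hQ
  have key : ∀ x : ℝ, Q.eval (x : ℂ) =
      c ^ n * (((1 + x ^ 2) ^ n * D (θ0 + (π - 2 * arctan x)) : ℝ) : ℂ) := by
    intro x
    set w : ℂ := Complex.exp ((π - 2 * arctan x : ℝ) * Complex.I) with hw
    have hxw : ((x : ℂ) - Complex.I) * w = (x : ℂ) + Complex.I := a9_exp x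
    have h1 : Complex.exp ((θ0 + (π - 2 * arctan x) : ℝ) * Complex.I) = c * w := by
      rw [hc, hw, ← Complex.exp_add]
      congr 1
      push_cast
      ring
    have h2 : Complex.exp (n * (θ0 + (π - 2 * arctan x) : ℝ) * Complex.I) = (c * w) ^ n := by
      rw [← h1, ← Complex.exp_nat_mul]
      congr 1
      ring
    have h3 := hFD (θ0 + (π - 2 * arctan x))
    rw [h1, h2] at h3
    have h4 : Q.eval (x : ℂ) = ((x : ℂ) - Complex.I) ^ (2 * n) * F.eval (c * w) := by
      rw [hQ, eval_finset_sum, eval_eq_sum_range' (Nat.lt_succ_of_le hF), Finset.mul_sum]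
      refine Finset.sum_congr rfl fun k hk => ?_
      have hk' : k ≤ 2 * n := Nat.lt_succ_iff.mp (Finset.mem_range.mp hk)
      simp only [eval_mul, eval_C, eval_pow, eval_add, eval_sub, eval_X]
      rw [← hxw, mul_pow, mul_pow]
      have : ((x : ℂ) - Complex.I) ^ (2 * n) =
          ((x : ℂ) - Complex.I) ^ k * ((x : ℂ) - Complex.I) ^ (2 * n - k) := by
        rw [← pow_add]
        congr 1
        omega
      rw [this]
      ring
    have h5 : ((x : ℂ) - Complex.I) ^ (2 * n) * (c * w) ^ n = c ^ n * (1 + (x : ℂ) ^ 2) ^ n := by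
      have h6 : ((x : ℂ) - Complex.I) ^ 2 * w = 1 + (x : ℂ) ^ 2 := by
        have : ((x : ℂ) - Complex.I) ^ 2 * w =
            ((x : ℂ) - Complex.I) * (((x : ℂ) - Complex.I) * w) := by ring
        rw [this, hxw]
        linear_combination -Complex.I_sq
      rw [pow_mul, mul_pow, ← h6, mul_pow]
      ring
    rw [h4, h3, ← mul_assoc, h5]
    push_cast
    ring
  set P : ℂ[X] := C ((c ^ n)⁻¹) * Q with hP
  have keyP : ∀ x : ℝ, P.eval (x : ℂ) =
      (((1 + x ^ 2) ^ n * D (θ0 + (π - 2 * arctan x)) : ℝ) : ℂ) := by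
    intro x
    rw [hP, eval_mul, eval_C, key x, ← mul_assoc, inv_mul_cancel₀ (pow_ne_zero n hc0), one_mul]
  refine ⟨∑ j ∈ Finset.range (P.natDegree + 1), C (P.coeff j).re * X ^ j, fun x => ?_⟩
  have h7 := keyP x
  rw [eval_eq_sum_range] at h7
  have h8 := congrArg Complex.re h7
  rw [Complex.re_sum, Complex.ofReal_re] at h8
  rw [eval_finset_sum, ← h8]
  refine Finset.sum_congr rfl fun j _ => ?_
  rw [eval_mul, eval_C, eval_pow, eval_X, ← Complex.ofReal_pow, Complex.re_mul_ofReal]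

theorem a9_lim (n : ℕ) (D : ℝ → ℝ) (θ0 : ℝ) (hn : 1 ≤ n) (h0 : D θ0 = 0)
    (hd : HasDerivAt D 0 θ0) (p : ℝ[X])
    (hp : ∀ x : ℝ, p.eval x = (1 + x ^ 2) ^ n * D (θ0 + (π - 2 * arctan x))) :
    p.degree < ((2 * n - 1 : ℕ) : WithBot ℕ) := by
  have hX : (X ^ (2 * n - 1) : ℝ[X]).degree = ((2 * n - 1 : ℕ) : WithBot ℕ) := degree_X_pow _
  rw [← hX, ← Polynomial.div_tendsto_zero_iff_degree_lt _ _ (pow_ne_zero _ X_ne_zero)]
  -- the angle tends to zero
  have hω : Filter.Tendsto (fun x : ℝ => π - 2 * arctan x) Filter.atTop (nhds 0) := by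
    have h1 := (tendsto_arctan_atTop.mono_right nhdsWithin_le_nhds).const_mul 2
    have h2 := h1.const_sub π
    have h3 : π - 2 * (π / 2) = 0 := by ring
    rwa [h3] at h2
  have hlo : (fun h : ℝ => D (θ0 + h)) =o[nhds 0] fun h => h := by
    have := hasDerivAt_iff_isLittleO_nhds_zero.mp hd
    simpa [h0] using this
  have h1 := hlo.comp_tendsto hω
  -- the angle is at most `2 / x`
  have h2 : ∀ x : ℝ, 1 ≤ x → |π - 2 * arctan x| ≤ 2 / x := by
    intro x hx
    have hx0 : 0 < x := by linarith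
    have h3 : arctan x⁻¹ = π / 2 - arctan x := arctan_inv_of_pos hx0
    have h4 : π - 2 * arctan x = 2 * arctan x⁻¹ := by rw [h3]; ring
    have h5 : 0 < arctan x⁻¹ := by
      rw [← arctan_zero]
      exact arctan_strictMono (inv_pos.mpr hx0)
    have h6 : arctan x⁻¹ ≤ x⁻¹ := by
      have := Real.lt_tan h5 (arctan_lt_pi_div_two _)
      rw [tan_arctan] at this
      exact this.le
    rw [h4, abs_of_pos (by positivity), div_eq_mul_inv]
    linarith
  rw [Metric.tendsto_atTop]
  intro ε hε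
  have h7 := (Asymptotics.isLittleO_iff.mp h1) (show (0 : ℝ) < ε / (2 ^ n * 4) by positivity)
  obtain ⟨N, hN⟩ := Filter.eventually_atTop.mp h7
  refine ⟨max N 1, fun x hx => ?_⟩
  have hxN : N ≤ x := (le_max_left _ _).trans hx
  have hx1 : 1 ≤ x := (le_max_right _ _).trans hx
  have hx0 : 0 < x := by linarith
  have h8 := hN x hxN
  simp only [Function.comp, Real.norm_eq_abs] at h8
  rw [dist_zero_right, Real.norm_eq_abs, eval_pow, eval_X, hp x, abs_div, abs_mul,
    abs_of_pos (show (0 : ℝ) < (1 + x ^ 2) ^ n by positivity),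
    abs_of_pos (show (0 : ℝ) < x ^ (2 * n - 1) by positivity)]
  rw [div_lt_iff₀ (by positivity)]
  have h9 : (1 + x ^ 2) ^ n ≤ 2 ^ n * x ^ (2 * n) := by
    rw [pow_mul, ← mul_pow]
    exact pow_le_pow_left₀ (by positivity) (by nlinarith) n
  have h10 : |D (θ0 + (π - 2 * arctan x))| ≤ ε / (2 ^ n * 4) * (2 / x) :=
    h8.trans (mul_le_mul_of_nonneg_left (h2 x hx1) (by positivity))
  have h11 : x ^ (2 * n) = x ^ (2 * n - 1) * x := by
    rw [← pow_succ]
    congr 1
    omega
  calc (1 + x ^ 2) ^ n * |D (θ0 + (π - 2 * arctan x))|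
      ≤ (2 ^ n * x ^ (2 * n)) * (ε / (2 ^ n * 4) * (2 / x)) :=
        mul_le_mul h9 h10 (abs_nonneg _) (by positivity)
    _ = ε / 2 * x ^ (2 * n - 1) := by
        rw [h11]
        field_simp
        ring
    _ < ε * x ^ (2 * n - 1) := by
        have : 0 < x ^ (2 * n - 1) := by positivity
        nlinarith

theorem a9 (hA8 : A8) (hA1 : A1) : A9 := by
  intro n D θ0 t hn hTP h0 hd ht0 htm htl hsg
  obtain ⟨hsm, -, -, -, -, hper⟩ := hA1.1 n D hTP
  have hcont : Continuous D := (hsm 0).continuous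
  have hder : HasDerivAt D 0 θ0 := by
    have h1 : DifferentiableAt ℝ D θ0 := ((hsm 1).differentiable (by simp)).differentiableAt
    have := h1.hasDerivAt
    rwa [hd] at this
  obtain ⟨p, hp⟩ := a9_poly n D θ0 hTP
  have hdeg := a9_lim n D θ0 hn h0 hder p hp
  -- all the points lie in the open period
  have hlo : ∀ i, i < 2 * n → θ0 < t i := by
    intro i
    induction i with
    | zero => intro _; exact ht0
    | succ i ih => intro hi; exact (ih (by omega)).trans (htm i hi)
  have hmono : ∀ i j, i < j → j < 2 * n → t i < t j := by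
    intro i j hij
    induction j, hij using Nat.le_induction with
    | base => intro hj; exact htm i hj
    | succ j hj ih => intro hj'; exact (ih (by omega)).trans (htm j hj')
  have hhi : ∀ i, i < 2 * n → t i < θ0 + 2 * π := by
    intro i hi
    rcases Nat.lt_or_ge i (2 * n - 1) with h | h
    · exact (hmono i (2 * n - 1) h (by omega)).trans htl
    · have : i = 2 * n - 1 := by omega
      rw [this]; exact htl
  -- the value of the polynomial at the transformed points
  have hx : ∀ i, i < 2 * n → p.eval (tan ((θ0 + π - t i) / 2)) =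
      (1 + tan ((θ0 + π - t i) / 2) ^ 2) ^ n * D (t i) := by
    intro i hi
    rw [hp, arctan_tan (by linarith [hhi i hi]) (by linarith [hlo i hi])]
    congr 2
    ring
  have hpz : -p = 0 := by
    refine hA8 (2 * n - 1) (-p) (fun i => tan ((θ0 + π - t (2 * n - 1 - i)) / 2)) ?_ ?_ ?_
    · rwa [degree_neg]
    · intro i hi
      refine tan_lt_tan_of_lt_of_lt_pi_div_two ?_ ?_ ?_
      · linarith [hhi (2 * n - 1 - i) (by omega)]
      · linarith [hlo (2 * n - 1 - (i + 1)) (by omega)]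
      · linarith [hmono (2 * n - 1 - (i + 1)) (2 * n - 1 - i) (by omega) (by omega)]
    · intro i hi
      have h1 := hsg (2 * n - 1 - i) (by omega)
      rw [eval_neg, hx (2 * n - 1 - i) (by omega)]
      have h2 : ((-1 : ℝ)) ^ (2 * n - 1 - i) = -(-1) ^ i := by
        have h3 : ((-1 : ℝ)) ^ (2 * n - 1 - i) * (-1) ^ i = -1 := by
          rw [← pow_add]
          have h4 : 2 * n - 1 - i + i = 2 * (n - 1) + 1 := by omega
          rw [h4, pow_add, pow_mul]
          simp
        have h5 : ((-1 : ℝ)) ^ i * (-1) ^ i = 1 := by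
          rw [← mul_pow]
          simp
        calc ((-1 : ℝ)) ^ (2 * n - 1 - i) = (-1) ^ (2 * n - 1 - i) * ((-1) ^ i * (-1) ^ i) := by
              rw [h5, mul_one]
          _ = ((-1) ^ (2 * n - 1 - i) * (-1) ^ i) * (-1) ^ i := by ring
          _ = -(-1) ^ i := by rw [h3]; ring
      rw [h2] at h1
      have h6 : 0 ≤ (1 + tan ((θ0 + π - t (2 * n - 1 - i)) / 2) ^ 2) ^ n := by positivity
      nlinarith [mul_nonneg h6 h1]
  have hp0 : p = 0 := neg_eq_zero.mp hpz
  -- `D` vanishes on the open period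
  have hin : ∀ θ, θ0 < θ → θ < θ0 + 2 * π → D θ = 0 := by
    intro θ h1 h2
    have h3 := hp (tan ((θ0 + π - θ) / 2))
    rw [hp0, eval_zero, arctan_tan (by linarith) (by linarith)] at h3
    have h4 : θ0 + (π - 2 * ((θ0 + π - θ) / 2)) = θ := by ring
    rw [h4] at h3
    have h5 : (1 + tan ((θ0 + π - θ) / 2) ^ 2) ^ n ≠ 0 := by positivity
    exact (mul_eq_zero.mp h3.symm).resolve_left h5
  intro θ
  have hP : Function.Periodic D (2 * π) := hper
  obtain ⟨y, hy, hDy⟩ := hP.exists_mem_Ico (by positivity) θ θ0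
  rw [hDy]
  rcases eq_or_lt_of_le hy.1 with h | h
  · rw [← h, h0]
  · exact hin y h hy.2

end

end Pool.Agent.Helper10.AL
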