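import Pool.Agent.Helper10.AL.St

/-!
Arc length project, piece B0: the integral of `√(1 + N²) - N`.
-/

set_option autoImplicit false

namespace Pool.Agent.Helper10.AL

open Set Real MeasureTheory intervalIntegral

private noncomputable def b0_g (n : ℕ) (t : ℝ) : ℝ := √(1 + (n * sin t) ^ 2) - n * sin t

private theorem b0_cont (n : ℕ) : Continuous (b0_g n) := by
  unfold b0_g
  fun_prop

private theorem b0_le_one {N : ℝ} (h : 0 ≤ N) : √(1 + N ^ 2) - N ≤ 1 := by
  have h1 : √(1 + N ^ 2) ≤ 1 + N := by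
    rw [Real.sqrt_le_left (by linarith)]
    nlinarith
  linarith

private theorem b0_le_inv {N : ℝ} (h : 0 < N) : √(1 + N ^ 2) - N ≤ 1 / (2 * N) := by
  have h1 : √(1 + N ^ 2) ≤ N + 1 / (2 * N) := by
    rw [Real.sqrt_le_left (by positivity)]
    have h2 : (N + 1 / (2 * N)) ^ 2 = N ^ 2 + 1 + (1 / (2 * N)) ^ 2 := by
      field_simp
      ring
    rw [h2]
    have h3 := sq_nonneg (1 / (2 * N))
    linarith
  linarith

private theorem b0_symm (n : ℕ) (t : ℝ) : b0_g n (π - t) = b0_g n t := by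
  unfold b0_g
  rw [sin_pi_sub]

private theorem b0_half {n : ℕ} (hn : 1 ≤ n) :
    (∫ t in (0 : ℝ)..(π / 2), b0_g n t) ≤ 1 / n + π / (4 * n) * log (π / 2 * n) := by
  have hn0 : (0 : ℝ) < n := by exact_mod_cast hn
  have hn1 : (1 : ℝ) ≤ n := by exact_mod_cast hn
  have hpi := pi_gt_three
  have hc : 1 / (n : ℝ) ≤ π / 2 := by
    have : 1 / (n : ℝ) ≤ 1 := by
      rw [div_le_one hn0]
      exact hn1
    linarith
  have hpos : 0 < 1 / (n : ℝ) := by positivity
  have hi : ∀ a b : ℝ, IntervalIntegrable (b0_g n) volume a b :=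
    fun a b => (b0_cont n).intervalIntegrable a b
  rw [← integral_add_adjacent_intervals (hi 0 (1 / n)) (hi (1 / n) (π / 2))]
  refine add_le_add ?_ ?_
  · calc (∫ t in (0 : ℝ)..(1 / n), b0_g n t) ≤ ∫ _t in (0 : ℝ)..(1 / n), (1 : ℝ) := by
          refine integral_mono_on hpos.le (hi _ _) intervalIntegrable_const ?_
          intro t ht
          refine b0_le_one ?_
          have : 0 ≤ sin t := sin_nonneg_of_nonneg_of_le_pi ht.1 (by linarith [ht.2])
          positivity
      _ = 1 / n := by simp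
  · have h1 : (∫ t in (1 / (n : ℝ))..(π / 2), π / (4 * n) * t⁻¹) =
        π / (4 * n) * log (π / 2 * n) := by
      rw [intervalIntegral.integral_const_mul, integral_inv_of_pos hpos (by positivity)]
      congr 2
      field_simp
    rw [← h1]
    refine integral_mono_on hc (hi _ _) ?_ ?_
    · refine ContinuousOn.intervalIntegrable_of_Icc hc ?_
      refine continuousOn_const.mul (continuousOn_id.inv₀ ?_)
      intro t ht
      have : 0 < t := lt_of_lt_of_le hpos ht.1
      exact this.ne'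
    · intro t ht
      have ht0 : 0 < t := lt_of_lt_of_le hpos ht.1
      have h2 : 2 / π * t ≤ sin t := mul_le_sin ht0.le ht.2
      have h3 : 0 < 2 / π * t := by positivity
      have h4 : 0 < sin t := lt_of_lt_of_le h3 h2
      have h5 : 0 < (n : ℝ) * sin t := by positivity
      refine (b0_le_inv h5).trans ?_
      have h6 : (n : ℝ) * (2 / π * t) ≤ n * sin t := by gcongr
      calc 1 / (2 * ((n : ℝ) * sin t)) ≤ 1 / (2 * ((n : ℝ) * (2 / π * t))) := by gcongr
        _ = π / (4 * n) * t⁻¹ := by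
          field_simp
          norm_num

theorem b0 : B0 := by
  intro n hn
  have hn0 : (0 : ℝ) < n := by exact_mod_cast hn
  have hn1 : (1 : ℝ) ≤ n := by exact_mod_cast hn
  have hi : ∀ a b : ℝ, IntervalIntegrable (b0_g n) volume a b :=
    fun a b => (b0_cont n).intervalIntegrable a b
  have h1 : (∫ t in (0 : ℝ)..π, (√(1 + (n * sin t) ^ 2) - n * sin t)) =
      ∫ t in (0 : ℝ)..π, b0_g n t := rfl
  have h2 : (∫ t in (π / 2)..π, b0_g n t) = ∫ t in (0 : ℝ)..(π / 2), b0_g n t := by
    have h3 := intervalIntegral.integral_comp_sub_left (b0_g n) π (a := 0) (b := π / 2)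
    rw [sub_zero, show π - π / 2 = π / 2 by ring] at h3
    rw [← h3]
    exact intervalIntegral.integral_congr fun t _ => b0_symm n t
  have h4 := b0_half hn
  rw [h1, ← integral_add_adjacent_intervals (hi 0 (π / 2)) (hi (π / 2) π), h2]
  have hpi := pi_gt_three
  have hpi' := pi_lt_d2
  have h5 : log (π / 2 * n) ≤ (π / 2 - 1) + log n := by
    rw [log_mul (by positivity) hn0.ne']
    have := log_le_sub_one_of_pos (show 0 < π / 2 by positivity)
    linarith
  have h6 : 0 ≤ log n := log_nonneg hn1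
  have h7 : (∫ t in (0 : ℝ)..(π / 2), b0_g n t) ≤ 3 / 2 * (1 + log n) / n := by
    refine h4.trans ?_
    rw [show 1 / (n : ℝ) + π / (4 * n) * log (π / 2 * n) =
      (1 + π / 4 * log (π / 2 * n)) / n by field_simp]
    gcongr
    have h8 : π / 4 * log (π / 2 * n) ≤ π / 4 * ((π / 2 - 1) + log n) := by gcongr
    nlinarith
  calc 1 / (n : ℝ) * ((∫ t in (0 : ℝ)..(π / 2), b0_g n t) + ∫ t in (0 : ℝ)..(π / 2), b0_g n t)
      ≤ 1 / (n : ℝ) * (3 / 2 * (1 + log n) / n + 3 / 2 * (1 + log n) / n) := by gcongr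
    _ = 3 * (1 + Real.log n) / (n : ℝ) ^ 2 := by
      field_simp
      ring

end Pool.Agent.Helper10.AL
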