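import Pool.Agent.Helper10.AL.St

set_option autoImplicit false

namespace Pool.Agent.Helper10.AL

open Polynomial Set Real MeasureTheory intervalIntegral

/-- convexity of the square root -/
theorem b1_conv (l y : ℝ) (h0 : 0 ≤ l) (h1 : l ≤ 1) :
    √(1 + (l * y) ^ 2) ≤ (1 - l) + l * √(1 + y ^ 2) := by
  have hy : (0 : ℝ) ≤ 1 + y ^ 2 := by positivity
  set r := √(1 + y ^ 2) with hr
  have hr2 : r ^ 2 = 1 + y ^ 2 := by rw [hr]; exact Real.sq_sqrt hy
  have hr1 : 1 ≤ r := by
    rw [hr]; exact Real.one_le_sqrt.mpr (by nlinarith [sq_nonneg y])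
  apply Real.sqrt_le_iff.mpr
  constructor
  · nlinarith
  · have h2 : ((1 - l) + l * r) ^ 2 - (1 + (l * y) ^ 2) = 2 * (l * (1 - l)) * (r - 1) := by
      have : y ^ 2 = r ^ 2 - 1 := by rw [hr2]; ring
      rw [mul_pow, this]; ring
    have h3 : 0 ≤ 2 * (l * (1 - l)) * (r - 1) := by
      apply mul_nonneg
      · have := mul_nonneg h0 (sub_nonneg.mpr h1); linarith
      · linarith
    linarith

/-- the case of a derivative of sign `σ` -/
theorem b1_core (hB0 : B0) (n : ℕ) (f : ℝ → ℝ) (u v σ : ℝ) (hn : 1 ≤ n)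
    (hf : ∀ θ, DifferentiableAt ℝ f θ) (hfc : Continuous (deriv f))
    (hB : ∀ θ, (deriv f θ) ^ 2 + (n : ℝ) ^ 2 * (f θ) ^ 2 ≤ (n : ℝ) ^ 2)
    (huv : u < v) (hσ : σ = 1 ∨ σ = -1) (hs : ∀ θ ∈ Ioo u v, 0 < σ * deriv f θ) :
    |arccos (f v) - arccos (f u)| ≤ n * (v - u) ∧
    Va f u v = |f v - f u| ∧
    En f u v ≤ |f v - f u| + ((v - u) - |arccos (f v) - arccos (f u)| / n) +
      3 * (1 + Real.log n) / (n : ℝ) ^ 2 := by
  have hn0 : (0 : ℝ) < n := by exact_mod_cast hn
  have hσ2 : σ * σ = 1 := by rcases hσ with h | h <;> rw [h] <;> norm_num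
  have hσa : |σ| = 1 := by rcases hσ with h | h <;> rw [h] <;> norm_num
  have hfcont : Continuous f := continuous_iff_continuousAt.mpr fun θ => (hf θ).continuousAt
  have hb1 : ∀ θ, (f θ) ^ 2 ≤ 1 := by
    intro θ
    have h := hB θ
    have h2 : (n : ℝ) ^ 2 * (f θ) ^ 2 ≤ (n : ℝ) ^ 2 * 1 := by nlinarith [sq_nonneg (deriv f θ)]
    exact le_of_mul_le_mul_left h2 (by positivity)
  have hbl : ∀ θ ∈ Ioo u v, (f θ) ^ 2 < 1 := by
    intro θ hθ
    have h := hB θ
    have h3 : 0 < (deriv f θ) ^ 2 := by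
      have : deriv f θ ≠ 0 := by
        intro h0
        have := hs θ hθ
        rw [h0] at this; simp at this
      positivity
    have h2 : (n : ℝ) ^ 2 * (f θ) ^ 2 < (n : ℝ) ^ 2 * 1 := by nlinarith
    exact lt_of_mul_lt_mul_left h2 (by positivity)
  -- the angle
  set φ : ℝ → ℝ := fun θ => arccos (f θ) with hφ
  have hφc : Continuous φ := Real.continuous_arccos.comp hfcont
  have hr : ∀ θ ∈ Ioo u v, 0 < √(1 - f θ ^ 2) := by
    intro θ hθ
    exact Real.sqrt_pos.mpr (by have := hbl θ hθ; linarith)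
  have hφd : ∀ θ ∈ Ioo u v, HasDerivAt φ (-(deriv f θ / √(1 - f θ ^ 2))) θ := by
    intro θ hθ
    have h1 : f θ ≠ -1 := by
      intro h; have := hbl θ hθ; rw [h] at this; norm_num at this
    have h2 : f θ ≠ 1 := by
      intro h; have := hbl θ hθ; rw [h] at this; norm_num at this
    have h3 := (Real.hasDerivAt_arccos h1 h2).comp θ (hf θ).hasDerivAt
    have h4 : (-(1 / √(1 - f θ ^ 2)) * deriv f θ) = -(deriv f θ / √(1 - f θ ^ 2)) := by ring
    rw [h4] at h3
    exact h3
  -- size of the derivative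
  have hlam : ∀ θ ∈ Ioo u v, 0 < σ * deriv f θ / (n * √(1 - f θ ^ 2)) ∧
      σ * deriv f θ / (n * √(1 - f θ ^ 2)) ≤ 1 := by
    intro θ hθ
    have h1 := hr θ hθ
    have h2 := hs θ hθ
    constructor
    · positivity
    · rw [div_le_one (by positivity)]
      have h3 : (σ * deriv f θ) ^ 2 ≤ (n * √(1 - f θ ^ 2)) ^ 2 := by
        have h4 : √(1 - f θ ^ 2) ^ 2 = 1 - f θ ^ 2 :=
          Real.sq_sqrt (by have := hbl θ hθ; linarith)
        have h5 : σ ^ 2 = 1 := by rw [sq]; exact hσ2
        rw [mul_pow, mul_pow, h4, h5]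
        have := hB θ
        nlinarith
      exact (abs_le_of_sq_le_sq' h3 (by positivity)).2
  -- monotonicity of the angle
  have hmono : 0 ≤ -σ * φ v - -σ * φ u := by
    have h := intervalIntegral.integral_le_sub_of_hasDeriv_right_of_le (a := u) (b := v)
      (g := fun θ => -σ * φ θ) (g' := fun θ => -σ * (-(deriv f θ / √(1 - f θ ^ 2))))
      (φ := fun _ => (0 : ℝ)) huv.le ((continuous_const.mul hφc).continuousOn)
      (fun θ hθ => ((hφd θ hθ).const_mul (-σ)).hasDerivWithinAt)
      (by simp) (fun θ hθ => by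
        have h1 := hr θ hθ
        have h2 := hs θ hθ
        have : -σ * (-(deriv f θ / √(1 - f θ ^ 2))) = σ * deriv f θ / √(1 - f θ ^ 2) := by ring
        rw [this]; positivity)
    simpa using h
  have hup : -σ * φ v - -σ * φ u ≤ n * (v - u) := by
    have h := intervalIntegral.sub_le_integral_of_hasDeriv_right_of_le (a := u) (b := v)
      (g := fun θ => -σ * φ θ) (g' := fun θ => -σ * (-(deriv f θ / √(1 - f θ ^ 2))))
      (φ := fun _ => (n : ℝ)) huv.le ((continuous_const.mul hφc).continuousOn)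
      (fun θ hθ => ((hφd θ hθ).const_mul (-σ)).hasDerivWithinAt)
      (by
        apply Continuous.integrableOn_Icc
        exact continuous_const) (fun θ hθ => by
        have h1 := hr θ hθ
        have h2 := (hlam θ hθ).2
        rw [div_le_one (by positivity)] at h2
        have : -σ * (-(deriv f θ / √(1 - f θ ^ 2))) = σ * deriv f θ / √(1 - f θ ^ 2) := by ring
        rw [this, div_le_iff₀ h1]; exact h2)
    simp only [intervalIntegral.integral_const, smul_eq_mul] at h
    linarith
  have hphi : |φ v - φ u| = -σ * φ v - -σ * φ u := by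
    have h1 : -σ * φ v - -σ * φ u = -σ * (φ v - φ u) := by ring
    have h2 : |-σ * (φ v - φ u)| = |φ v - φ u| := by rw [abs_mul, abs_neg, hσa, one_mul]
    rw [← h2, ← h1]
    exact abs_of_nonneg hmono
  -- the variation
  have hfd : ∫ θ in u..v, σ * deriv f θ = σ * (f v - f u) := by
    rw [intervalIntegral.integral_const_mul]
    congr 1
    exact intervalIntegral.integral_deriv_eq_sub (fun θ _ => hf θ) (hfc.intervalIntegrable _ _)
  have hnn : 0 ≤ σ * (f v - f u) := by
    rw [← hfd]
    apply intervalIntegral.integral_nonneg_of_ae_restrict huv.le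
    have : ∀ᵐ θ ∂volume.restrict (Icc u v), θ ∈ Icc u v := ae_restrict_mem measurableSet_Icc
    have h0 : ∀ θ ∈ Icc u v, 0 ≤ σ * deriv f θ := by
      intro θ hθ
      have hcl : θ ∈ closure (Ioo u v) := by rw [closure_Ioo huv.ne]; exact hθ
      have hc : Continuous fun θ => σ * deriv f θ := continuous_const.mul hfc
      exact (isClosed_le continuous_const hc).closure_subset_iff.mpr
        (fun x hx => (hs x hx).le) hcl
    filter_upwards [this] with θ hθ
    exact h0 θ hθ
  have habsf : |f v - f u| = σ * (f v - f u) := by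
    have h2 : |σ * (f v - f u)| = |f v - f u| := by rw [abs_mul, hσa, one_mul]
    rw [← h2]; exact abs_of_nonneg hnn
  have hVa : Va f u v = |f v - f u| := by
    rw [habsf, ← hfd]
    unfold Va
    apply intervalIntegral.integral_congr_ae
    have : ∀ᵐ θ ∂volume, θ ≠ v := by
      simp [ae_iff, measure_singleton]
    filter_upwards [this] with θ hθv hθ
    rw [uIoc_of_le huv.le] at hθ
    have hmem : θ ∈ Ioo u v := ⟨hθ.1, lt_of_le_of_ne hθ.2 hθv⟩
    have h1 := hs θ hmem
    have h2 : |σ * deriv f θ| = |deriv f θ| := by rw [abs_mul, hσa, one_mul]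
    rw [← h2]; exact abs_of_pos h1
  refine ⟨by rw [hphi]; exact hup, hVa, ?_⟩
  -- the arc length
  set G : ℝ → ℝ := fun t => √(1 + (n * sin t) ^ 2) with hG
  have hGc : Continuous G := by rw [hG]; fun_prop
  set H : ℝ → ℝ := fun x => ∫ t in (0 : ℝ)..x, G t with hH
  have hHd : ∀ x, HasDerivAt H (G x) x := fun x =>
    intervalIntegral.integral_hasDerivAt_right (hGc.intervalIntegrable _ _)
      (hGc.stronglyMeasurableAtFilter _ _) hGc.continuousAt
  have hHc : Continuous H := continuous_iff_continuousAt.mpr fun x => (hHd x).continuousAt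
  set Ψ : ℝ → ℝ := fun θ => θ + -σ / n * (H (φ θ) - φ θ) with hΨ
  have hΨc : Continuous Ψ := by
    rw [hΨ]
    exact continuous_id.add (continuous_const.mul ((hHc.comp hφc).sub hφc))
  have hEn : En f u v ≤ Ψ v - Ψ u := by
    unfold En
    apply intervalIntegral.integral_le_sub_of_hasDeriv_right_of_le
      (g' := fun θ => 1 + -σ / n * (G (φ θ) * (-(deriv f θ / √(1 - f θ ^ 2))) -
        -(deriv f θ / √(1 - f θ ^ 2)))) huv.le hΨc.continuousOn
    · intro θ hθ
      have h1 := hφd θ hθ
      have h2 := (hHd (φ θ)).comp θ h1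
      exact ((hasDerivAt_id θ).add ((h2.sub h1).const_mul (-σ / n))).hasDerivWithinAt
    · apply Continuous.integrableOn_Icc
      fun_prop
    · intro θ hθ
      have h1 := hr θ hθ
      obtain ⟨hl0, hl1⟩ := hlam θ hθ
      set l := σ * deriv f θ / (n * √(1 - f θ ^ 2)) with hl
      have hsin : sin (φ θ) = √(1 - f θ ^ 2) := by
        rw [hφ]; exact Real.sin_arccos (f θ)
      have hd : l * (n * sin (φ θ)) = σ * deriv f θ := by
        rw [hsin, hl]; field_simp
      have h3 := b1_conv l (n * sin (φ θ)) hl0.le hl1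
      have h4 : (l * (n * sin (φ θ))) ^ 2 = (deriv f θ) ^ 2 := by
        rw [hd, mul_pow, sq σ, hσ2, one_mul]
      rw [h4] at h3
      have h5 : 1 + -σ / n * (G (φ θ) * (-(deriv f θ / √(1 - f θ ^ 2))) -
        -(deriv f θ / √(1 - f θ ^ 2))) = (1 - l) + l * √(1 + (n * sin (φ θ)) ^ 2) := by
        rw [hl, hG]
        field_simp
        ring
      rw [h5]
      exact h3
  -- estimate of the potential
  have hc0 : ∀ θ, φ θ ∈ Icc 0 π := fun θ => ⟨Real.arccos_nonneg _, Real.arccos_le_pi _⟩
  have hcos : ∀ θ, cos (φ θ) = f θ := fun θ => Real.cos_arccos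
    (by have := hb1 θ; nlinarith [sq_nonneg (f θ + 1)])
    (by have := hb1 θ; nlinarith [sq_nonneg (f θ - 1)])
  have hHsub : H (φ v) - H (φ u) = ∫ t in (φ u)..(φ v), G t :=
    intervalIntegral.integral_interval_sub_left (hGc.intervalIntegrable _ _)
      (hGc.intervalIntegrable _ _)
  have hsinc : Continuous fun t : ℝ => (n : ℝ) * sin t := by fun_prop
  have hsplit : ∫ t in (φ u)..(φ v), G t =
      (∫ t in (φ u)..(φ v), (n : ℝ) * sin t) + ∫ t in (φ u)..(φ v), (G t - n * sin t) := by
    have hGs : Continuous fun t : ℝ => G t - n * sin t := hGc.sub hsinc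
    rw [← intervalIntegral.integral_add (hsinc.intervalIntegrable _ _)
      (hGs.intervalIntegrable _ _)]
    apply intervalIntegral.integral_congr
    intro t _
    show G t = n * sin t + (G t - n * sin t)
    ring
  have hpart1 : ∫ t in (φ u)..(φ v), (n : ℝ) * sin t = n * (f u - f v) := by
    rw [intervalIntegral.integral_const_mul, integral_sin, hcos, hcos]
  have hGn : ∀ t, 0 ≤ G t - n * sin t := by
    intro t
    have : n * sin t ≤ G t := by
      rw [hG]
      apply Real.le_sqrt_of_sq_le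
      linarith
    linarith
  have hpart2 : |∫ t in (φ u)..(φ v), (G t - n * sin t)| ≤
      ∫ t in (0 : ℝ)..π, (G t - n * sin t) := by
    have h := intervalIntegral.abs_integral_mono_interval (a := φ u) (b := φ v) (c := 0) (d := π)
      (μ := volume) (f := fun t => G t - n * sin t)
      (by
        intro x hx
        rw [uIoc_of_le Real.pi_pos.le]
        rw [uIoc, mem_Ioc] at hx
        obtain ⟨h1, h2⟩ := hx
        constructor
        · exact lt_of_le_of_lt (le_min (hc0 u).1 (hc0 v).1) h1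
        · exact h2.trans (max_le (hc0 u).2 (hc0 v).2))
      (Filter.Eventually.of_forall fun t => hGn t)
      ((hGc.sub hsinc).intervalIntegrable _ _)
    refine h.trans (le_of_eq ?_)
    apply abs_of_nonneg
    exact intervalIntegral.integral_nonneg Real.pi_pos.le fun t _ => hGn t
  have hB0' : 1 / (n : ℝ) * (∫ t in (0 : ℝ)..π, (G t - n * sin t)) ≤
      3 * (1 + Real.log n) / (n : ℝ) ^ 2 := hB0 n hn
  have hfinal : -σ / n * (H (φ v) - H (φ u)) ≤ |f v - f u| +
      1 / (n : ℝ) * (∫ t in (0 : ℝ)..π, (G t - n * sin t)) := by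
    rw [hHsub, hsplit, hpart1]
    have h1 : -σ / n * (n * (f u - f v) + ∫ t in (φ u)..(φ v), (G t - n * sin t)) =
        σ * (f v - f u) + 1 / n * (-σ * ∫ t in (φ u)..(φ v), (G t - n * sin t)) := by
      field_simp
      ring
    rw [h1, habsf]
    have h2 : -σ * (∫ t in (φ u)..(φ v), (G t - n * sin t)) ≤
        ∫ t in (0 : ℝ)..π, (G t - n * sin t) := by
      refine le_trans (le_abs_self _) ?_
      rw [abs_mul, abs_neg, hσa, one_mul]
      exact hpart2
    have h3 : 1 / (n : ℝ) * (-σ * ∫ t in (φ u)..(φ v), (G t - n * sin t)) ≤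
        1 / (n : ℝ) * ∫ t in (0 : ℝ)..π, (G t - n * sin t) :=
      mul_le_mul_of_nonneg_left h2 (by positivity)
    linarith
  have hΨd : Ψ v - Ψ u = (v - u) + -σ / n * (H (φ v) - H (φ u)) - |φ v - φ u| / n := by
    rw [hphi, hΨ]
    field_simp
    ring
  have : |arccos (f v) - arccos (f u)| = |φ v - φ u| := rfl
  rw [this]
  rw [hΨd] at hEn
  linarith

theorem b1 (hA1 : A1) (hA2 : A2) (hB0 : B0) : B1 := by
  intro n f u v hn hf huv hne
  have hsm := (hA1.1 n f hf.1).1
  have hd1 : Differentiable ℝ f := (hsm 1).differentiable (by norm_num)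
  have hfc : Continuous (deriv f) := (hsm 1).continuous_deriv (by norm_num)
  have hB : ∀ θ, (deriv f θ) ^ 2 + (n : ℝ) ^ 2 * (f θ) ^ 2 ≤ (n : ℝ) ^ 2 := fun θ =>
    ((hA2.1 n f hn hf).2 θ).1
  rcases huv.eq_or_lt with h | h
  · subst h
    have hlog : 0 ≤ 3 * (1 + Real.log n) / (n : ℝ) ^ 2 := by
      have : 0 ≤ Real.log n := Real.log_natCast_nonneg n
      positivity
    refine ⟨by simp, by simp [Va], ?_⟩
    simpa [En] using hlog
  · -- constant sign
    have hsg : (∀ θ ∈ Ioo u v, 0 < deriv f θ) ∨ ∀ θ ∈ Ioo u v, deriv f θ < 0 := by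
      by_contra hcon
      rw [not_or] at hcon
      obtain ⟨hc1, hc2⟩ := hcon
      push Not at hc1 hc2
      obtain ⟨x, hx, hx1⟩ := hc1
      obtain ⟨y, hy, hy1⟩ := hc2
      have hpre : IsPreconnected (Ioo u v) := isPreconnected_Ioo
      obtain ⟨z, hz, hz0⟩ := hpre.intermediate_value hx hy hfc.continuousOn
        (show (0 : ℝ) ∈ Icc (deriv f x) (deriv f y) from ⟨hx1, hy1⟩)
      exact hne z hz hz0
    rcases hsg with hs | hs
    · exact b1_core hB0 n f u v 1 hn (fun θ => hd1 θ) hfc hB h (Or.inl rfl)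
        (fun θ hθ => by rw [one_mul]; exact hs θ hθ)
    · exact b1_core hB0 n f u v (-1) hn (fun θ => hd1 θ) hfc hB h (Or.inr rfl)
        (fun θ hθ => by have := hs θ hθ; linarith)

end Pool.Agent.Helper10.AL
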