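import Pool.Agent.Helper10.AL.St
/-! Arc length of polynomials, piece B2a: monotone stretches, additive oscillation constant. -/
set_option autoImplicit false
namespace Pool.Agent.Helper10.AL
open Polynomial Set Real MeasureTheory intervalIntegral

/-- tangent line inequality for the sine on `[0, π]` -/
theorem b2a_tangent {y y0 : ℝ} (hy0 : 0 ≤ y) (hy1 : y ≤ π) (h0 : 0 ≤ y0) (h1 : y0 ≤ π) :
    sin y ≤ sin y0 + cos y0 * (y - y0) := by
  rcases lt_trichotomy y y0 with h | h | h
  · obtain ⟨c, ⟨hc1, hc2⟩, hc⟩ := exists_hasDerivAt_eq_slope sin cos h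
      continuous_sin.continuousOn (fun x _ => hasDerivAt_sin x)
    have hpos : 0 < y0 - y := by linarith
    rw [eq_div_iff hpos.ne'] at hc
    have hcos : cos y0 ≤ cos c := cos_le_cos_of_nonneg_of_le_pi (by linarith) h1 hc2.le
    nlinarith
  · rw [h]
    simp
  · obtain ⟨c, ⟨hc1, hc2⟩, hc⟩ := exists_hasDerivAt_eq_slope sin cos h
      continuous_sin.continuousOn (fun x _ => hasDerivAt_sin x)
    have hpos : 0 < y - y0 := by linarith
    rw [eq_div_iff hpos.ne'] at hc
    have hcos : cos c ≤ cos y0 := cos_le_cos_of_nonneg_of_le_pi h0 (by linarith) hc1.le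
    nlinarith

/-- `2 sin (x / 2) ≤ 2 x / π + cs` -/
theorem b2a_sin {x : ℝ} (hx0 : 0 ≤ x) (hx1 : x ≤ π) : 2 * sin (x / 2) ≤ 2 / π * x + cs := by
  have hpi := pi_pos
  have h2pi : 2 / π ≤ 1 := by
    rw [div_le_one hpi]
    linarith [pi_gt_three]
  have h2pi0 : 0 ≤ 2 / π := by positivity
  have ht := b2a_tangent (y := x / 2) (y0 := arccos (2 / π)) (by linarith) (by linarith)
    (arccos_nonneg _) (arccos_le_pi _)
  rw [sin_arccos, cos_arccos (by linarith) h2pi] at ht
  have hsq : (2 / π) ^ 2 = 4 / π ^ 2 := by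
    rw [div_pow]
    norm_num
  rw [hsq] at ht
  unfold cs
  have e : 2 / π * (x / 2 - arccos (2 / π)) * 2 = 2 / π * x - 4 / π * arccos (2 / π) := by ring
  linarith

/-- the difference of two values of the cosine -/
theorem b2a_cos {a b : ℝ} (ha : a ∈ Icc (0 : ℝ) π) (hb : b ∈ Icc (0 : ℝ) π) :
    |cos a - cos b| ≤ 2 * sin (|a - b| / 2) := by
  have h1 : |cos a - cos b| = 2 * |sin ((a + b) / 2)| * |sin ((a - b) / 2)| := by
    rw [cos_sub_cos, abs_mul, abs_mul, abs_neg, abs_two]
  have h2 : |sin ((a - b) / 2)| = sin (|a - b| / 2) := by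
    have h3 : 0 ≤ sin (|a - b| / 2) := by
      apply sin_nonneg_of_nonneg_of_le_pi
      · positivity
      · have : |a - b| ≤ π := by
          rw [abs_le]
          constructor <;> linarith [ha.1, ha.2, hb.1, hb.2]
        linarith [pi_pos]
    rcases abs_cases (a - b) with ⟨h, _⟩ | ⟨h, _⟩
    · rw [h] at h3 ⊢
      exact abs_of_nonneg h3
    · rw [h] at h3 ⊢
      have e : -(a - b) / 2 = -((a - b) / 2) := by ring
      rw [e, sin_neg] at h3 ⊢
      rw [abs_of_nonpos (by linarith)]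
  have h4 : 0 ≤ sin (|a - b| / 2) := by
    rw [← h2]
    exact abs_nonneg _
  rw [h1, h2]
  have h5 := abs_sin_le_one ((a + b) / 2)
  nlinarith

theorem b2a (hB1 : B1) (hVF1 : VF1) : B2a := by
  have _ := hVF1
  intro n f u v hn hf huv hne
  have hn1 : 1 ≤ n := by omega
  obtain ⟨h1, _, h3⟩ := hB1 n f u v hn1 hf huv hne
  have hnR : (4 : ℝ) ≤ n := by exact_mod_cast hn
  have hpi := pi_pos
  set a := arccos (f v) with ha
  set b := arccos (f u) with hb
  have ha' : a ∈ Icc (0 : ℝ) π := ⟨arccos_nonneg _, arccos_le_pi _⟩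
  have hb' : b ∈ Icc (0 : ℝ) π := ⟨arccos_nonneg _, arccos_le_pi _⟩
  have hca : cos a = f v := cos_arccos (abs_le.1 (hf.2 v)).1 (abs_le.1 (hf.2 v)).2
  have hcb : cos b = f u := cos_arccos (abs_le.1 (hf.2 u)).1 (abs_le.1 (hf.2 u)).2
  have h4 := b2a_cos ha' hb'
  rw [hca, hcb] at h4
  have hx0 : 0 ≤ |a - b| := abs_nonneg _
  have hx1 : |a - b| ≤ π := by
    rw [abs_le]
    constructor <;> linarith [ha'.1, ha'.2, hb'.1, hb'.2]
  have h5 := b2a_sin hx0 hx1
  set x := |a - b| with hx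
  have h6 : (v - u) - x / n ≤ 2 / π * (n * (v - u) - x) := by
    have e : (v - u) - x / n = 1 / n * (n * (v - u) - x) := by
      field_simp
    rw [e]
    apply mul_le_mul_of_nonneg_right _ (by linarith)
    rw [div_le_div_iff₀ (by linarith) hpi]
    linarith [pi_le_four]
  have h7 : 3 * (1 + Real.log n) / (n : ℝ) ^ 2 ≤ kk n := by
    unfold kk
    have hlog : 0 ≤ Real.log n := Real.log_nonneg (by linarith)
    apply div_le_div_of_nonneg_right _ (by positivity)
    linarith
  have e2 : 2 / π * (n * (v - u) - x) = 2 / π * (n * (v - u)) - 2 / π * x := by ring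
  linarith

end Pool.Agent.Helper10.AL
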