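import Pool.Agent.Helper10.AL.St

/-! Piece B2b. -/

set_option autoImplicit false

namespace Pool.Agent.Helper10.AL

open Polynomial Set Real MeasureTheory intervalIntegral

theorem b2b_growth (hA1 : A1) (hA2 : A2) (hA3 : A3) (n : ℕ) (f : ℝ → ℝ) (u l : ℝ)
    (hn : 4 ≤ n) (hf : TB n f) (h0 : deriv f u = 0)
    (hl : l ≤ π) : ∀ s ∈ Icc 0 l, f (u + s / n) - f u ≤ 1 - cos s := by
  have hn1 : 1 ≤ n := by omega
  have hn0 : (0 : ℝ) < n := by exact_mod_cast hn1
  have hsm := (hA1.1 n f hf.1).1 1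
  have hdf : Differentiable ℝ f := hsm.differentiable (by simp)
  have key : ∀ ε : ℝ, 0 < ε → ∀ s ∈ Icc 0 l, f (u + s / n) - f u ≤ 1 - cos s + ε * s := by
    intro ε hε
    have hder : ∀ s : ℝ, HasDerivAt (fun s : ℝ => f (u + s / n) - f u)
        (deriv f (u + s / n) * (1 / n)) s := by
      intro s
      have h1 : HasDerivAt (fun s : ℝ => u + s / n) (1 / n) s := by
        have := ((hasDerivAt_id s).div_const (n : ℝ)).const_add u
        simpa using this
      exact ((hdf _).hasDerivAt.comp s h1).sub_const _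
    have hB : ∀ s : ℝ, HasDerivAt (fun s : ℝ => 1 - cos s + ε * s) (sin s + ε) s := by
      intro s
      have h1 := ((hasDerivAt_cos s).const_sub 1).fun_add ((hasDerivAt_id s).const_mul ε)
      simpa using h1
    refine image_le_of_deriv_right_lt_deriv_boundary
      (f := fun s : ℝ => f (u + s / n) - f u) (f' := fun s => deriv f (u + s / n) * (1 / n))
      (fun s _ => (hder s).continuousAt.continuousWithinAt)
      (fun s _ => (hder s).hasDerivWithinAt) (by simp) hB ?_
    intro s hs heq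
    have hs0 : 0 ≤ s := hs.1
    have hsπ : s ≤ π := (hs.2.le).trans hl
    have hkey : deriv f (u + s / n) * (1 / n) ≤ sin s := by
      rw [mul_one_div, div_le_iff₀ hn0]
      rcases le_total s (π / 2) with h | h
      · have := hA3 n f u s hn1 hf h0 (by rw [abs_of_nonneg hs0]; exact h)
        rw [abs_of_nonneg hs0] at this
        calc deriv f (u + s / n) ≤ |deriv f (u + s / n)| := le_abs_self _
          _ ≤ n * sin s := this
          _ = sin s * n := mul_comm _ _
      · have h1 := ((hA2.1 n f hn1 hf).2 (u + s / n)).1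
        have h2 : -cos s ≤ f (u + s / n) := by
          have h3 := (abs_le.1 (hf.2 u)).1
          have h4 : f (u + s / n) - f u = 1 - cos s + ε * s := heq
          have h5 : 0 ≤ ε * s := by positivity
          linarith
        have h3 : 0 ≤ -cos s := by
          have := cos_nonpos_of_pi_div_two_le_of_le h (by linarith [pi_pos])
          linarith
        have h4 : (deriv f (u + s / n)) ^ 2 ≤ (sin s * n) ^ 2 := by
          have h5 : cos s ^ 2 ≤ f (u + s / n) ^ 2 := by nlinarith
          have h6 := sin_sq_add_cos_sq s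
          have h7 : (sin s * n) ^ 2 = n ^ 2 - n ^ 2 * cos s ^ 2 := by
            have : sin s ^ 2 = 1 - cos s ^ 2 := by linarith
            rw [mul_pow, this]; ring
          have h8 : (n : ℝ) ^ 2 * cos s ^ 2 ≤ n ^ 2 * f (u + s / n) ^ 2 :=
            mul_le_mul_of_nonneg_left h5 (by positivity)
          linarith
        have h5 : 0 ≤ sin s * n := mul_nonneg (sin_nonneg_of_nonneg_of_le_pi hs0 hsπ) hn0.le
        exact (le_abs_self _).trans (abs_le_of_sq_le_sq h4 h5)
    linarith
  intro s hs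
  by_contra hcon
  rw [not_le] at hcon
  rcases hs.1.eq_or_lt with h | h
  · rw [← h] at hcon
    simp at hcon
  · have h1 := key ((f (u + s / n) - f u - (1 - cos s)) / (2 * s)) (by
      apply div_pos (by linarith) (by linarith)) s hs
    have h2 : (f (u + s / n) - f u - (1 - cos s)) / (2 * s) * s =
        (f (u + s / n) - f u - (1 - cos s)) / 2 := by
      field_simp
    rw [h2] at h1
    linarith

theorem b2b_core (hA1 : A1) (hA2 : A2) (hA3 : A3) (hB1 : B1) (hVF6 : VF6) (hVF5 : VF5)
    (n : ℕ) (f : ℝ → ℝ) (u v : ℝ) (hn : 4 ≤ n) (hf : TB n f) (huv : u ≤ v)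
    (hpos : ∀ θ ∈ Ioo u v, 0 < deriv f θ) (h0 : deriv f u = 0) :
    En f u v ≤ VC (n * (v - u)) + 8 / n + kk n := by
  have hn1 : 1 ≤ n := by omega
  have hn0 : (0 : ℝ) < n := by exact_mod_cast hn1
  have hb := (hB1 n f u v hn1 hf huv (fun θ hθ => (hpos θ hθ).ne')).2.2
  have hlog : 0 ≤ Real.log n := Real.log_nonneg (by exact_mod_cast hn1)
  have hl0 : 0 ≤ n * (v - u) := mul_nonneg hn0.le (by linarith)
  have harc : 0 ≤ |arccos (f v) - arccos (f u)| / n := by positivity
  have hvu : v - u = n * (v - u) / n := by field_simp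
  have hkk : kk n = 10 * (1 + Real.log n) / (n : ℝ) ^ 2 := rfl
  rcases le_total (n * (v - u)) π with hl | hl
  · have h1 := b2b_growth hA1 hA2 hA3 n f u (n * (v - u)) hn hf h0 hl (n * (v - u)) ⟨hl0, le_rfl⟩
    have h2 : u + n * (v - u) / n = v := by rw [← hvu]; ring
    rw [h2] at h1
    have hmono : f u ≤ f v := by
      have hdf : Differentiable ℝ f := ((hA1.1 n f hf.1).1 1).differentiable (by simp)
      rcases huv.eq_or_lt with h | h
      · rw [h]
      · have := (strictMonoOn_of_deriv_pos (convex_Icc u v) hdf.continuous.continuousOn (by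
          rw [interior_Icc]; exact hpos))
        exact (this.monotoneOn) ⟨le_rfl, huv⟩ ⟨huv, le_rfl⟩ huv
    rw [abs_of_nonneg (sub_nonneg.2 hmono)] at hb
    rw [← hVF6.2.2.2.1 _ hl0 hl] at h1
    have h3 : n * (v - u) / n ≤ 8 / n := by
      apply div_le_div_of_nonneg_right _ hn0.le
      linarith [pi_lt_four]
    have h4 : 3 * (1 + Real.log n) / (n : ℝ) ^ 2 ≤ kk n := by
      rw [hkk]
      apply div_le_div_of_nonneg_right _ (by positivity)
      nlinarith
    rw [← hvu] at h3
    linarith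
  · have h1 : |f v - f u| ≤ 2 := by
      have h2 := abs_le.1 (hf.2 u)
      have h3 := abs_le.1 (hf.2 v)
      rw [abs_le]
      constructor <;> linarith
    have h2 := (hVF5 n 0 (n * (v - u)) hn hl0).1
    rw [hVF6.2.2.2.2] at h2
    have hV0 : VC 0 = 0 := by simp [VC]
    rw [zero_add, hV0, sub_zero] at h2
    have hW : 2 + (n * (v - u) - π) / n ≤ Wt n (n * (v - u)) := by
      unfold Wt
      split_ifs with h
      · have h3 : n * (v - u) = π := le_antisymm h hl
        rw [h3]
        simp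
      · exact le_rfl
    have h3 : π / n ≤ 8 / n := by
      apply div_le_div_of_nonneg_right _ hn0.le
      linarith [pi_lt_four]
    have h4 : 3 * (1 + Real.log n) / (n : ℝ) ^ 2 + 2 / (n : ℝ) ^ 2 ≤ kk n := by
      rw [hkk, ← add_div]
      apply div_le_div_of_nonneg_right _ (by positivity)
      nlinarith
    have h5 : (n * (v - u) - π) / n = (v - u) - π / n := by
      rw [sub_div, ← hvu]
    linarith

theorem b2b_left (hA1 : A1) (hA2 : A2) (hA3 : A3) (hB1 : B1) (hVF6 : VF6) (hVF5 : VF5)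
    (n : ℕ) (f : ℝ → ℝ) (u v : ℝ) (hn : 4 ≤ n) (hf : TB n f) (huv : u ≤ v)
    (hne : ∀ θ ∈ Ioo u v, deriv f θ ≠ 0) (h0 : deriv f u = 0) :
    En f u v ≤ VC (n * (v - u)) + 8 / n + kk n := by
  have hc : Continuous (deriv f) := ((hA1.1 n f hf.1).1 1).continuous_deriv (by simp)
  have hsign : (∀ θ ∈ Ioo u v, 0 < deriv f θ) ∨ (∀ θ ∈ Ioo u v, deriv f θ < 0) := by
    by_contra hcon
    push Not at hcon
    obtain ⟨⟨x, hx, hx'⟩, ⟨y, hy, hy'⟩⟩ := hcon
    have hconn : (deriv f '' Ioo u v).OrdConnected :=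
      (isPreconnected_Ioo.image _ hc.continuousOn).ordConnected
    have := hconn.out ⟨x, hx, rfl⟩ ⟨y, hy, rfl⟩ ⟨hx', hy'⟩
    obtain ⟨z, hz, hz'⟩ := this
    exact hne z hz hz'
  rcases hsign with h | h
  · exact b2b_core hA1 hA2 hA3 hB1 hVF6 hVF5 n f u v hn hf huv h h0
  · have hf' : TB n (fun θ => (-1) * f θ) :=
      ⟨(hA1.1 n f hf.1).2.2.1 (-1), fun θ => by
        rw [abs_mul, abs_neg, abs_one, one_mul]; exact hf.2 θ⟩
    have hd : ∀ θ, deriv (fun θ => (-1) * f θ) θ = - deriv f θ := by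
      intro θ
      have : (fun θ => (-1) * f θ) = fun θ => - f θ := by funext θ; ring
      rw [this]
      exact deriv.fun_neg
    have h1 := b2b_core hA1 hA2 hA3 hB1 hVF6 hVF5 n (fun θ => (-1) * f θ) u v hn hf' huv
      (fun θ hθ => by rw [hd]; linarith [h θ hθ]) (by rw [hd, h0, neg_zero])
    have h2 : En (fun θ => (-1) * f θ) u v = En f u v := by
      unfold En
      congr 1
      funext θ
      rw [hd, neg_sq]
    rwa [h2] at h1

theorem b2b (hA1 : A1) (hA2 : A2) (hA3 : A3) (hB0 : B0) (hB1 : B1) (hVF6 : VF6) (hVF5 : VF5) :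
    B2b := by
  intro n f u v hn hf huv hne h0
  rcases h0 with h0 | h0
  · exact b2b_left hA1 hA2 hA3 hB1 hVF6 hVF5 n f u v hn hf huv hne h0
  · have hf' : TB n (fun θ => f (-θ)) := ⟨(hA1.1 n f hf.1).2.2.2.2.1, fun θ => hf.2 _⟩
    have hd : ∀ θ, deriv (fun θ => f (-θ)) θ = - deriv f (-θ) := fun θ => deriv_comp_neg f θ
    have h1 := b2b_left hA1 hA2 hA3 hB1 hVF6 hVF5 n (fun θ => f (-θ)) (-v) (-u) hn hf'
      (by linarith)
      (fun θ hθ => by
        rw [hd]
        exact neg_ne_zero.2 (hne (-θ) ⟨by linarith [hθ.2], by linarith [hθ.1]⟩))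
      (by rw [hd, neg_neg, h0, neg_zero])
    have h2 : En (fun θ => f (-θ)) (-v) (-u) = En f u v := by
      unfold En
      have : (fun θ => √(1 + (deriv (fun θ => f (-θ)) θ) ^ 2)) =
          fun θ => (fun t => √(1 + (deriv f t) ^ 2)) (-θ) := by
        funext θ
        rw [hd, neg_sq]
      rw [this, intervalIntegral.integral_comp_neg (fun t => √(1 + (deriv f t) ^ 2)), neg_neg,
        neg_neg]
    rw [h2] at h1
    have h3 : -u - -v = v - u := by ring
    rwa [h3] at h1

end Pool.Agent.Helper10.AL
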