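import Pool.Agent.Helper10.AL.St

/-!
Arc length of polynomials over compact windows, large degree: piece B3.
-/

set_option autoImplicit false

namespace Pool.Agent.Helper10.AL

open Polynomial Set Real MeasureTheory intervalIntegral
open Pool.Agent.Helper40.AS (arc Bdd Ext)

noncomputable section

/-- critical points inside a window -/
def b3_S (f : ℝ → ℝ) (u v : ℝ) : Set ℝ := {θ | θ ∈ Ioo u v ∧ deriv f θ = 0}

theorem b3_add (f : ℝ → ℝ) (hf : Continuous (deriv f)) (u c v : ℝ) :
    En f u v = En f u c + En f c v := by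
  have hc : Continuous (fun θ => √(1 + (deriv f θ) ^ 2)) := by fun_prop
  exact (intervalIntegral.integral_add_adjacent_intervals (hc.intervalIntegrable _ _)
    (hc.intervalIntegrable _ _)).symm

theorem b3_split (f : ℝ → ℝ) (u c v : ℝ) (hc : c ∈ b3_S f u v) (hfin : (b3_S f u v).Finite) :
    (b3_S f u c).Finite ∧ (b3_S f c v).Finite ∧
      (b3_S f u c).ncard + (b3_S f c v).ncard + 1 = (b3_S f u v).ncard := by
  obtain ⟨⟨h1, h2⟩, h3⟩ := hc
  have s1 : b3_S f u c ⊆ b3_S f u v := fun θ h => ⟨⟨h.1.1, h.1.2.trans h2⟩, h.2⟩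
  have s2 : b3_S f c v ⊆ b3_S f u v := fun θ h => ⟨⟨h1.trans h.1.1, h.1.2⟩, h.2⟩
  have f1 := hfin.subset s1
  have f2 := hfin.subset s2
  refine ⟨f1, f2, ?_⟩
  have hd : Disjoint (b3_S f u c) (b3_S f c v) := by
    rw [Set.disjoint_left]
    intro θ ha hb
    exact absurd (ha.1.2.trans hb.1.1) (lt_irrefl _)
  have hu : b3_S f u c ∪ b3_S f c v = b3_S f u v \ {c} := by
    ext θ
    constructor
    · rintro (h | h)
      · exact ⟨s1 h, fun h' => (ne_of_lt h.1.2) h'⟩
      · exact ⟨s2 h, fun h' => (ne_of_gt h.1.1) h'⟩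
    · rintro ⟨h, h'⟩
      rcases lt_trichotomy θ c with hl | hl | hl
      · exact Or.inl ⟨⟨h.1.1, hl⟩, h.2⟩
      · exact absurd hl h'
      · exact Or.inr ⟨⟨hl, h.1.2⟩, h.2⟩
  have h4 := Set.ncard_union_eq hd f1 f2
  rw [hu, Set.ncard_diff_singleton_of_mem (show c ∈ b3_S f u v from ⟨⟨h1, h2⟩, h3⟩)] at h4
  have h5 : 0 < (b3_S f u v).ncard := (Set.ncard_pos hfin).2 ⟨c, ⟨⟨h1, h2⟩, h3⟩⟩
  omega

theorem b3_main (hB2a : B2a) (hB2b : B2b) (hB2c : B2c) (hVF2 : VF2) (hVF5 : VF5)
    (n : ℕ) (f : ℝ → ℝ) (hn : 4 ≤ n) (hf : TB n f) (hcont : Continuous (deriv f)) :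
    ∀ (k : ℕ) (u v : ℝ), u ≤ v → (b3_S f u v).Finite → (b3_S f u v).ncard = k →
      En f u v ≤ 2 / π * (n * (v - u)) + cs + 16 / n + (k + 1) * kk n ∧
      (deriv f u = 0 → En f u v ≤ 2 / π * (n * (v - u)) + cs / 2 + 8 / n + (k + 1) * kk n) ∧
      (deriv f v = 0 → En f u v ≤ 2 / π * (n * (v - u)) + cs / 2 + 8 / n + (k + 1) * kk n) ∧
      (deriv f u = 0 → deriv f v = 0 →
        En f u v ≤ 2 / π * (n * (v - u)) + (k + 1) * kk n) := by
  have hn0 : (0 : ℝ) < n := by exact_mod_cast (by omega : 0 < n)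
  intro k
  induction k using Nat.strong_induction_on with
  | _ k ih =>
    intro u v huv hfin hk
    rcases Nat.eq_zero_or_pos k with h0 | hpos
    · subst h0
      have hemp : b3_S f u v = ∅ := (Set.ncard_eq_zero hfin).1 hk
      have hne : ∀ θ ∈ Ioo u v, deriv f θ ≠ 0 := by
        intro θ hθ h
        have : θ ∈ b3_S f u v := ⟨hθ, h⟩
        rw [hemp] at this
        exact this.elim
      have hl : 0 ≤ (n : ℝ) * (v - u) := mul_nonneg hn0.le (by linarith)
      have h8 : (0 : ℝ) ≤ 8 / n := by positivity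
      have hVC := (hVF2 (n * (v - u)) hl).1
      have hWt := (hVF5 n 0 (n * (v - u)) hn hl).2
      refine ⟨?_, ?_, ?_, ?_⟩
      · have := hB2a n f u v hn hf huv hne
        have h16 : (0 : ℝ) ≤ 16 / n := by positivity
        push_cast; linarith
      · intro h
        have := hB2b n f u v hn hf huv hne (Or.inl h)
        push_cast; linarith
      · intro h
        have := hB2b n f u v hn hf huv hne (Or.inr h)
        push_cast; linarith
      · intro h h'
        have := hB2c n f u v hn hf huv hne h h'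
        push_cast; linarith
    · have hne : (b3_S f u v).Nonempty := by
        rw [← Set.ncard_pos hfin]; omega
      obtain ⟨c, hc⟩ := hne
      obtain ⟨f1, f2, hsum⟩ := b3_split f u c v hc hfin
      have h1 : u ≤ c := hc.1.1.le
      have h2 : c ≤ v := hc.1.2.le
      have hcz : deriv f c = 0 := hc.2
      have ih1 := ih _ (by omega) u c h1 f1 rfl
      have ih2 := ih _ (by omega) c v h2 f2 rfl
      obtain ⟨-, a2, a3, a4⟩ := ih1
      obtain ⟨-, b2, b3, b4⟩ := ih2
      have hE := b3_add f hcont u c v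
      have hkr : ((b3_S f u c).ncard : ℝ) + ((b3_S f c v).ncard : ℝ) + 1 = (k : ℝ) := by
        rw [← hk]; exact_mod_cast hsum
      set k1 : ℝ := ((b3_S f u c).ncard : ℝ)
      set k2 : ℝ := ((b3_S f c v).ncard : ℝ)
      have hlin : 2 / π * (n * (v - u)) = 2 / π * (n * (c - u)) + 2 / π * (n * (v - c)) := by ring
      have hkk : ((k : ℝ) + 1) * kk n = (k1 + 1) * kk n + (k2 + 1) * kk n := by
        rw [← hkr]; ring
      have h16 : (16 : ℝ) / n = 8 / n + 8 / n := by ring
      rw [hlin, hkk, hE]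
      refine ⟨?_, ?_, ?_, ?_⟩
      · have e1 := a3 hcz
        have e2 := b2 hcz
        linarith
      · intro h
        have e1 := a4 h hcz
        have e2 := b2 hcz
        linarith
      · intro h
        have e1 := a3 hcz
        have e2 := b4 hcz h
        linarith
      · intro h h'
        have e1 := a4 h hcz
        have e2 := b4 hcz h'
        linarith

theorem b3 (hA1 : A1) (hA4 : A4) (hB2a : B2a) (hB2b : B2b) (hB2c : B2c) (hVF1 : VF1)
    (hVF2 : VF2) (hVF5 : VF5) : B3 := by
  intro n f u v hn hf huv hv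
  have hn4 : (4 : ℝ) ≤ n := by exact_mod_cast hn
  have hn0 : (0 : ℝ) < n := by linarith
  obtain ⟨hcd, hTPd, -⟩ := hA1.1 n f hf.1
  have hcont : Continuous (deriv f) := (hcd 1).continuous_deriv (by norm_num)
  have hlog : 0 ≤ Real.log n := Real.log_nonneg (by linarith)
  have hcs : 0 < cs := by have := hVF1.1; linarith
  have her : 0 ≤ er n := by unfold er; positivity
  by_cases hne : ∃ θ, deriv f θ ≠ 0
  · obtain ⟨hfin, hcard⟩ := hA4 n (deriv f) u hTPd hne
    have hsub : b3_S f u v ⊆ {θ | θ ∈ Ico u (u + 2 * π) ∧ deriv f θ = 0} :=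
      fun θ h => ⟨⟨h.1.1.le, h.1.2.trans_le hv⟩, h.2⟩
    have hfin' := hfin.subset hsub
    have hcard' : (b3_S f u v).ncard ≤ 2 * n := (Set.ncard_le_ncard hsub hfin).trans hcard
    obtain ⟨m1, m2, m3, m4⟩ := b3_main hB2a hB2b hB2c hVF2 hVF5 n f hn hf hcont
      (b3_S f u v).ncard u v huv hfin' rfl
    have hkr : ((b3_S f u v).ncard : ℝ) ≤ 2 * n := by exact_mod_cast hcard'
    have hkk : 0 ≤ kk n := by unfold kk; positivity
    have hk1 : (((b3_S f u v).ncard : ℝ) + 1) * kk n ≤ (2 * n + 1) * kk n :=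
      mul_le_mul_of_nonneg_right (by linarith) hkk
    have herr : (2 * (n : ℝ) + 1) * kk n + 16 / n ≤ er n := by
      unfold kk er
      have e1 : (2 * (n : ℝ) + 1) * (10 * (1 + Real.log n) / (n : ℝ) ^ 2) ≤
          25 * (1 + Real.log n) / n := by
        rw [mul_div_assoc', div_le_div_iff₀ (by positivity) hn0]
        have : (2 * (n : ℝ) + 1) * (10 * (1 + Real.log n)) * n ≤
            25 * (1 + Real.log n) * (n : ℝ) ^ 2 := by
          have hp : 0 ≤ (1 + Real.log n) * n := by positivity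
          nlinarith [mul_nonneg hp (by linarith : (0:ℝ) ≤ 5 * n - 10)]
        exact this
      have e2 : (16 : ℝ) / n ≤ 16 * (1 + Real.log n) / n := by
        refine div_le_div_of_nonneg_right ?_ hn0.le
        linarith
      have e3 : 25 * (1 + Real.log n) / n + 16 * (1 + Real.log n) / n =
          41 * (1 + Real.log n) / n := by ring
      have e4 : 41 * (1 + Real.log n) / n ≤ 60 * (1 + Real.log n) / n := by
        refine div_le_div_of_nonneg_right ?_ hn0.le
        linarith
      linarith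
    have h8 : (8 : ℝ) / n ≤ 16 / n := div_le_div_of_nonneg_right (by norm_num) hn0.le
    have h16 : (0 : ℝ) ≤ 16 / n := by positivity
    refine ⟨by linarith, fun h => ?_, fun h => ?_, fun h h' => ?_⟩
    · have := m2 h; linarith
    · have := m3 h; linarith
    · have := m4 h h'; linarith
  · have hz : ∀ θ, deriv f θ = 0 := by
      intro θ; by_contra h; exact hne ⟨θ, h⟩
    have hE : En f u v = v - u := by
      unfold En
      have : (fun θ => √(1 + (deriv f θ) ^ 2)) = fun _ => (1 : ℝ) := by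
        funext θ; rw [hz θ]; norm_num
      rw [this]; simp
    have hpi : π ≤ 4 := Real.pi_le_four
    have hlin : v - u ≤ 2 / π * (n * (v - u)) := by
      have h1 : 1 ≤ 2 / π * n := by
        rw [div_mul_eq_mul_div, le_div_iff₀ Real.pi_pos]; linarith
      nlinarith [mul_nonneg (sub_nonneg.2 h1) (sub_nonneg.2 huv)]
    rw [hE]
    refine ⟨by linarith, fun _ => by linarith, fun _ => by linarith, fun _ _ => by linarith⟩

end

end Pool.Agent.Helper10.AL
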