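import Pool.Agent.Helper10.AL.St

/-!
Arc length of polynomials over compact windows, large degree: piece B5.
-/

set_option autoImplicit false

namespace Pool.Agent.Helper10.AL

open Polynomial Set Real MeasureTheory intervalIntegral
open Pool.Agent.Helper40.AS (arc Bdd Ext)

noncomputable section

/-- critical points inside a window -/
def b5_S (f : ℝ → ℝ) (u v : ℝ) : Set ℝ := {θ | θ ∈ Ioo u v ∧ deriv f θ = 0}

theorem b5_add (f : ℝ → ℝ) (hf : Continuous (deriv f)) (u c v : ℝ) :
    En f u v = En f u c + En f c v := by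
  have hc : Continuous (fun θ => √(1 + (deriv f θ) ^ 2)) := by fun_prop
  exact (intervalIntegral.integral_add_adjacent_intervals (hc.intervalIntegrable _ _)
    (hc.intervalIntegrable _ _)).symm

theorem b5_split (f : ℝ → ℝ) (u c v : ℝ) (hc : c ∈ b5_S f u v) (hfin : (b5_S f u v).Finite) :
    (b5_S f u c).Finite ∧ (b5_S f c v).Finite ∧
      (b5_S f u c).ncard + (b5_S f c v).ncard + 1 = (b5_S f u v).ncard := by
  obtain ⟨⟨h1, h2⟩, h3⟩ := hc
  have s1 : b5_S f u c ⊆ b5_S f u v := fun θ h => ⟨⟨h.1.1, h.1.2.trans h2⟩, h.2⟩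
  have s2 : b5_S f c v ⊆ b5_S f u v := fun θ h => ⟨⟨h1.trans h.1.1, h.1.2⟩, h.2⟩
  have f1 := hfin.subset s1
  have f2 := hfin.subset s2
  refine ⟨f1, f2, ?_⟩
  have hd : Disjoint (b5_S f u c) (b5_S f c v) := by
    rw [Set.disjoint_left]
    intro θ ha hb
    exact absurd (ha.1.2.trans hb.1.1) (lt_irrefl _)
  have hu : b5_S f u c ∪ b5_S f c v = b5_S f u v \ {c} := by
    ext θ
    constructor
    · rintro (h | h)
      · exact ⟨s1 h, fun h' => (ne_of_lt h.1.2) h'⟩
      · exact ⟨s2 h, fun h' => (ne_of_gt h.1.1) h'⟩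
    · rintro ⟨h, h'⟩
      rcases lt_trichotomy θ c with hl | hl | hl
      · exact Or.inl ⟨⟨h.1.1, hl⟩, h.2⟩
      · exact absurd hl h'
      · exact Or.inr ⟨⟨hl, h.1.2⟩, h.2⟩
  have h4 := Set.ncard_union_eq hd f1 f2
  rw [hu, Set.ncard_diff_singleton_of_mem (show c ∈ b5_S f u v from ⟨⟨h1, h2⟩, h3⟩)] at h4
  have h5 : 0 < (b5_S f u v).ncard := (Set.ncard_pos hfin).2 ⟨c, ⟨⟨h1, h2⟩, h3⟩⟩
  omega

theorem b5_main (hB2b : B2b) (hB2c : B2c) (hVF5 : VF5) (hVF6 : VF6)
    (n : ℕ) (f : ℝ → ℝ) (hn : 4 ≤ n) (hf : TB n f) (hcont : Continuous (deriv f)) :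
    ∀ (k : ℕ) (u v : ℝ), u ≤ v → (b5_S f u v).Finite → (b5_S f u v).ncard = k →
      (deriv f u = 0 ∨ deriv f v = 0 →
        En f u v ≤ VC (n * (v - u)) + 8 / n + (k + 1) * (2 / (n : ℝ) ^ 2 + kk n)) ∧
      (deriv f u = 0 → deriv f v = 0 → ∀ y : ℝ,
        En f u v ≤ VC (y + n * (v - u)) - VC y + (k + 1) * (2 / (n : ℝ) ^ 2 + kk n)) := by
  have hn0 : (0 : ℝ) < n := by exact_mod_cast (by omega : 0 < n)
  intro k
  induction k using Nat.strong_induction_on with
  | _ k ih =>
    intro u v huv hfin hk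
    rcases Nat.eq_zero_or_pos k with h0 | hpos
    · subst h0
      have hemp : b5_S f u v = ∅ := (Set.ncard_eq_zero hfin).1 hk
      have hne : ∀ θ ∈ Ioo u v, deriv f θ ≠ 0 := by
        intro θ hθ h
        have : θ ∈ b5_S f u v := ⟨hθ, h⟩
        rw [hemp] at this
        exact this.elim
      have hl : 0 ≤ (n : ℝ) * (v - u) := mul_nonneg hn0.le (by linarith)
      have h2 : (0 : ℝ) ≤ 2 / (n : ℝ) ^ 2 := by positivity
      refine ⟨?_, ?_⟩
      · intro h
        have := hB2b n f u v hn hf huv hne h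
        push_cast; linarith
      · intro h h' y
        have := hB2c n f u v hn hf huv hne h h'
        have h5 := (hVF5 n y (n * (v - u)) hn hl).1
        rw [hVF6.2.2.2.2] at h5
        push_cast; linarith
    · have hne : (b5_S f u v).Nonempty := by
        rw [← Set.ncard_pos hfin]; omega
      obtain ⟨c, hc⟩ := hne
      obtain ⟨f1, f2, hsum⟩ := b5_split f u c v hc hfin
      have h1 : u ≤ c := hc.1.1.le
      have h2 : c ≤ v := hc.1.2.le
      have hcz : deriv f c = 0 := hc.2
      obtain ⟨a1, a2⟩ := ih _ (by omega) u c h1 f1 rfl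
      obtain ⟨b1, b2⟩ := ih _ (by omega) c v h2 f2 rfl
      have hE := b5_add f hcont u c v
      have hkr : ((b5_S f u c).ncard : ℝ) + ((b5_S f c v).ncard : ℝ) + 1 = (k : ℝ) := by
        rw [← hk]; exact_mod_cast hsum
      set k1 : ℝ := ((b5_S f u c).ncard : ℝ)
      set k2 : ℝ := ((b5_S f c v).ncard : ℝ)
      have hkk : ((k : ℝ) + 1) * (2 / (n : ℝ) ^ 2 + kk n) =
          (k1 + 1) * (2 / (n : ℝ) ^ 2 + kk n) + (k2 + 1) * (2 / (n : ℝ) ^ 2 + kk n) := by
        rw [← hkr]; ring
      rw [hkk, hE]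
      refine ⟨?_, ?_⟩
      · intro h
        rcases h with h | h
        · have e1 := a2 h hcz (n * (v - c))
          have e2 := b1 (Or.inl hcz)
          rw [show (n : ℝ) * (v - c) + n * (c - u) = n * (v - u) by ring] at e1
          linarith
        · have e1 := a1 (Or.inr hcz)
          have e2 := b2 hcz h (n * (c - u))
          rw [show (n : ℝ) * (c - u) + n * (v - c) = n * (v - u) by ring] at e2
          linarith
      · intro h h' y
        have e1 := a2 h hcz y
        have e2 := b2 hcz h' (y + n * (c - u))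
        rw [show y + (n : ℝ) * (c - u) + n * (v - c) = y + n * (v - u) by ring] at e2
        linarith

theorem b5 (hA1 : A1) (hA4 : A4) (hB2b : B2b) (hB2c : B2c) (hVF5 : VF5) (hVF6 : VF6) : B5 := by
  intro n f u v hn hf huv hv hcr
  have hn4 : (4 : ℝ) ≤ n := by exact_mod_cast hn
  have hn0 : (0 : ℝ) < n := by linarith
  obtain ⟨hcd, hTPd, -⟩ := hA1.1 n f hf.1
  have hcont : Continuous (deriv f) := (hcd 1).continuous_deriv (by norm_num)
  have hlog : 0 ≤ Real.log n := Real.log_nonneg (by linarith)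
  have her : 0 ≤ er n := by unfold er; positivity
  by_cases hne : ∃ θ, deriv f θ ≠ 0
  · obtain ⟨hfin, hcard⟩ := hA4 n (deriv f) u hTPd hne
    have hsub : b5_S f u v ⊆ {θ | θ ∈ Ico u (u + 2 * π) ∧ deriv f θ = 0} :=
      fun θ h => ⟨⟨h.1.1.le, h.1.2.trans_le hv⟩, h.2⟩
    have hfin' := hfin.subset hsub
    have hcard' : (b5_S f u v).ncard ≤ 2 * n := (Set.ncard_le_ncard hsub hfin).trans hcard
    have m1 := (b5_main hB2b hB2c hVF5 hVF6 n f hn hf hcont
      (b5_S f u v).ncard u v huv hfin' rfl).1 hcr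
    have hkr : ((b5_S f u v).ncard : ℝ) ≤ 2 * n := by exact_mod_cast hcard'
    have hkk : 0 ≤ 2 / (n : ℝ) ^ 2 + kk n := by unfold kk; positivity
    have hk1 : (((b5_S f u v).ncard : ℝ) + 1) * (2 / (n : ℝ) ^ 2 + kk n) ≤
        (2 * n + 1) * (2 / (n : ℝ) ^ 2 + kk n) :=
      mul_le_mul_of_nonneg_right (by linarith) hkk
    have herr : (2 * (n : ℝ) + 1) * (2 / (n : ℝ) ^ 2 + kk n) + 8 / n ≤ er n := by
      unfold kk er
      have e0 : (2 : ℝ) / (n : ℝ) ^ 2 + 10 * (1 + Real.log n) / (n : ℝ) ^ 2 ≤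
          12 * (1 + Real.log n) / (n : ℝ) ^ 2 := by
        rw [← add_div]
        refine div_le_div_of_nonneg_right ?_ (by positivity)
        linarith
      have e1 : (2 * (n : ℝ) + 1) * (12 * (1 + Real.log n) / (n : ℝ) ^ 2) ≤
          36 * (1 + Real.log n) / n := by
        rw [mul_div_assoc', div_le_div_iff₀ (by positivity) hn0]
        have : (2 * (n : ℝ) + 1) * (12 * (1 + Real.log n)) * n ≤
            36 * (1 + Real.log n) * (n : ℝ) ^ 2 := by
          have hp : 0 ≤ (1 + Real.log n) * n := by positivity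
          nlinarith [mul_nonneg hp (by linarith : (0:ℝ) ≤ 12 * n - 12)]
        exact this
      have e1' := mul_le_mul_of_nonneg_left e0 (by positivity : (0 : ℝ) ≤ 2 * (n : ℝ) + 1)
      have e2 : (8 : ℝ) / n ≤ 8 * (1 + Real.log n) / n := by
        refine div_le_div_of_nonneg_right ?_ hn0.le
        linarith
      have e3 : 36 * (1 + Real.log n) / n + 8 * (1 + Real.log n) / n =
          44 * (1 + Real.log n) / n := by ring
      have e4 : 44 * (1 + Real.log n) / n ≤ 60 * (1 + Real.log n) / n := by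
        refine div_le_div_of_nonneg_right ?_ hn0.le
        linarith
      linarith
    linarith
  · have hz : ∀ θ, deriv f θ = 0 := by
      intro θ; by_contra h; exact hne ⟨θ, h⟩
    have hE : En f u v = v - u := by
      unfold En
      have : (fun θ => √(1 + (deriv f θ) ^ 2)) = fun _ => (1 : ℝ) := by
        funext θ; rw [hz θ]; norm_num
      rw [this]; simp
    have hpi : π ≤ 4 := Real.pi_le_four
    have hl : 0 ≤ (n : ℝ) * (v - u) := mul_nonneg hn0.le (by linarith)
    have hVC0 : VC 0 = 0 := by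
      rw [hVF6.2.2.2.1 0 le_rfl Real.pi_pos.le, Real.cos_zero]; ring
    have hVCn : 0 ≤ VC (n * (v - u)) := by
      rw [← hVC0]; exact hVF6.1 hl
    rw [hE]
    by_cases hlp : (n : ℝ) * (v - u) ≤ π
    · have h1 : v - u ≤ 60 * (1 + Real.log n) / n := by
        rw [le_div_iff₀ hn0]
        nlinarith
      unfold er
      linarith
    · have h5 := (hVF5 n 0 (n * (v - u)) hn hl).1
      rw [hVF6.2.2.2.2, hVC0, zero_add] at h5
      unfold Wt at h5
      rw [if_neg hlp] at h5
      have h6 : (n * (v - u) - π) / (n : ℝ) = (v - u) - π / n := by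
        field_simp
      rw [h6] at h5
      have h7 : π / n ≤ 1 := by
        rw [div_le_one hn0]; linarith
      have h8 : 2 / (n : ℝ) ^ 2 ≤ 1 := by
        rw [div_le_one (by positivity)]; nlinarith
      linarith

end

end Pool.Agent.Helper10.AL
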