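import Pool.Agent.Helper10.AL.St

/-!
Arc length of a chain of full oscillations.
-/

set_option autoImplicit false

namespace Pool.Agent.Helper10.AL

open Polynomial Set Real MeasureTheory intervalIntegral

/-- a real trigonometric polynomial is smooth -/
theorem b6_smooth (n : ℕ) (f : ℝ → ℝ) (hf : TP n f) (k : ℕ) : ContDiff ℝ k f := by
  obtain ⟨F, -, hF⟩ := hf
  have h1 : f = fun θ : ℝ =>
      (F.eval (Complex.exp (θ * Complex.I)) * Complex.exp (-(n * θ * Complex.I))).re := by
    funext θ
    have h2 := hF θ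
    have h3 : Complex.exp (n * θ * Complex.I) * Complex.exp (-(n * θ * Complex.I)) = 1 := by
      rw [← Complex.exp_add, add_neg_cancel, Complex.exp_zero]
    rw [h2, mul_right_comm, h3, one_mul, Complex.ofReal_re]
  have h4 : ContDiff ℝ k (fun θ : ℝ => Complex.exp (θ * Complex.I)) := by
    have : ContDiff ℝ k (fun θ : ℝ => (θ : ℂ)) := Complex.ofRealCLM.contDiff
    exact (this.mul contDiff_const).cexp
  have h5 : ContDiff ℝ k (fun θ : ℝ => Complex.exp (-(n * θ * Complex.I))) := by
    have : ContDiff ℝ k (fun θ : ℝ => (θ : ℂ)) := Complex.ofRealCLM.contDiff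
    exact (((contDiff_const.mul this).mul contDiff_const).neg).cexp
  have h6 : ContDiff ℝ k (fun θ : ℝ => F.eval (Complex.exp (θ * Complex.I))) := by
    have h7 : ContDiff ℝ k (fun z : ℂ => F.eval z) := by
      have := (Polynomial.contDiff_aeval (𝕜 := ℂ) F k)
      simpa [Polynomial.coe_aeval_eq_eval] using this.restrict_scalars ℝ
    exact h7.comp h4
  rw [h1]
  exact Complex.reCLM.contDiff.comp (h6.mul h5)

theorem b6_cont (n : ℕ) (f : ℝ → ℝ) (hf : TP n f) : Continuous f ∧ Continuous (deriv f) := by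
  have h := b6_smooth n f hf 1
  exact ⟨h.continuous, h.continuous_deriv (by norm_num)⟩

/-- one full oscillation -/
theorem b6_step (hB1 : B1) (n : ℕ) (f : ℝ → ℝ) (u v : ℝ) (hn : 1 ≤ n) (hf : TB n f)
    (huv : u < v) (hu : |f u| = 1) (hv : |f v| = 1) (hd : ∀ θ ∈ Ioo u v, deriv f θ ≠ 0) :
    π ≤ n * (v - u) ∧ En f u v ≤ 2 + ((v - u) - π / n) + kk n := by
  obtain ⟨h1, -, h3⟩ := hB1 n f u v hn hf huv.le hd
  have hne : f u ≠ f v := by
    intro he
    obtain ⟨c, hc, hc0⟩ := exists_deriv_eq_zero huv (b6_cont n f hf.1).1.continuousOn he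
    exact hd c hc hc0
  have hkey : |f v - f u| = 2 ∧ |arccos (f v) - arccos (f u)| = π := by
    rcases (abs_eq zero_le_one).1 hu with h | h <;> rcases (abs_eq zero_le_one).1 hv with h' | h'
    · exact absurd (h.trans h'.symm) hne
    · rw [h, h', Real.arccos_one, Real.arccos_neg_one]
      constructor
      · norm_num
      · rw [sub_zero, abs_of_pos Real.pi_pos]
    · rw [h, h', Real.arccos_one, Real.arccos_neg_one]
      constructor
      · norm_num
      · rw [zero_sub, abs_neg, abs_of_pos Real.pi_pos]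
    · exact absurd (h.trans h'.symm) hne
  rw [hkey.1, hkey.2] at h3
  rw [hkey.2] at h1
  refine ⟨h1, h3.trans ?_⟩
  have h4 : 3 * (1 + Real.log n) / (n : ℝ) ^ 2 ≤ kk n := by
    unfold kk
    have h5 : 0 ≤ Real.log n := Real.log_natCast_nonneg n
    apply div_le_div_of_nonneg_right _ (by positivity)
    nlinarith
  linarith

theorem b6_add (n : ℕ) (f : ℝ → ℝ) (hf : TP n f) (a b c : ℝ) :
    En f a c = En f a b + En f b c := by
  unfold En
  have h : Continuous (fun θ => √(1 + (deriv f θ) ^ 2)) := by
    have := (b6_cont n f hf).2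
    fun_prop
  exact (integral_add_adjacent_intervals (h.intervalIntegrable a b)
    (h.intervalIntegrable b c)).symm

theorem b6 (hB1 : B1) (_hA2 : A2) : B6 := by
  intro n N f t hn hf
  induction N with
  | zero =>
    intro _ _ _
    simp [En]
  | succ N ih =>
    intro h1 h2 h3
    obtain ⟨i1, i2⟩ := ih (fun i hi => h1 i (by omega)) (fun i hi => h2 i (by omega))
      (fun i hi => h3 i (by omega))
    obtain ⟨j1, j2⟩ := b6_step hB1 n f (t N) (t (N + 1)) hn hf (h1 N (by omega))
      (h2 N (by omega)) (h2 (N + 1) le_rfl) (h3 N (by omega))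
    constructor
    · push_cast
      nlinarith
    · rw [b6_add n f hf.1 (t 0) (t N) (t (N + 1))]
      have h4 : ((N + 1 : ℕ) : ℝ) * π / n = N * π / n + π / n := by
        push_cast
        ring
      rw [h4]
      push_cast
      linarith

end Pool.Agent.Helper10.AL
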