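import Pool.Agent.Helper10.AL.St

/-!
Arc length near a slow point.
-/

set_option autoImplicit false

namespace Pool.Agent.Helper10.AL

open Polynomial Set Real MeasureTheory intervalIntegral

noncomputable section

lemma b7_sqrt (x : ℝ) : √(1 + x ^ 2) ≤ 1 + |x| := by
  rw [Real.sqrt_le_left (by positivity)]
  nlinarith [sq_abs x, abs_nonneg x]

lemma b7_cont {f : ℝ → ℝ} (hf : Continuous (deriv f)) :
    Continuous fun θ => √(1 + (deriv f θ) ^ 2) := by
  fun_prop

/-- the bound for one side -/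
lemma b7_side {n : ℕ} (hn : 1 ≤ n) {g G : ℝ → ℝ} {T : ℝ} (hT : 0 ≤ T) (hg : Continuous g)
    (hG : Continuous G) (hb : ∀ s, 0 ≤ s → |g (s / n)| ≤ n * G s) :
    (∫ θ in (0 : ℝ)..(T / n), √(1 + (g θ) ^ 2)) ≤ T / n + ∫ s in (0 : ℝ)..T, G s := by
  have hn0 : (0 : ℝ) < n := by exact_mod_cast hn
  have h1 : (∫ θ in (0 : ℝ)..(T / n), √(1 + (g θ) ^ 2)) =
      (n : ℝ)⁻¹ * ∫ s in (0 : ℝ)..T, √(1 + (g (s / n)) ^ 2) := by
    have := intervalIntegral.integral_comp_div (a := (0 : ℝ)) (b := T) (c := (n : ℝ))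
      (fun θ => √(1 + (g θ) ^ 2)) hn0.ne'
    rw [this, smul_eq_mul, zero_div]
    field_simp
  rw [h1]
  have h2 : (∫ s in (0 : ℝ)..T, √(1 + (g (s / n)) ^ 2)) ≤ ∫ s in (0 : ℝ)..T, (1 + n * G s) := by
    apply intervalIntegral.integral_mono_on hT
    · apply Continuous.intervalIntegrable
      fun_prop
    · apply Continuous.intervalIntegrable
      fun_prop
    · intro s hs
      have := hb s hs.1
      linarith [b7_sqrt (g (s / n))]
  have h3 : (∫ s in (0 : ℝ)..T, (1 + n * G s)) = T + n * ∫ s in (0 : ℝ)..T, G s := by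
    rw [intervalIntegral.integral_add (by apply Continuous.intervalIntegrable; fun_prop)
      (by apply Continuous.intervalIntegrable; fun_prop), intervalIntegral.integral_const_mul]
    simp
  rw [h3] at h2
  calc (n : ℝ)⁻¹ * ∫ s in (0 : ℝ)..T, √(1 + (g (s / n)) ^ 2)
      ≤ (n : ℝ)⁻¹ * (T + n * ∫ s in (0 : ℝ)..T, G s) :=
        mul_le_mul_of_nonneg_left h2 (by positivity)
    _ = T / n + ∫ s in (0 : ℝ)..T, G s := by
        field_simp

theorem b7 (hA1 : A1) (_hA2 : A2) (hA11 : A11) (hN0 : N0) : B7 := by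
  intro n f θ0 ψ μ T hn hf hψ hψ' hμ h1 h2 hT
  obtain ⟨hsm, -⟩ := hA1.1 n f hf.1
  have hc : Continuous (deriv f) := by
    have := (hsm 1).continuous_deriv (by norm_num)
    exact this
  have hG : Continuous (Gm μ ψ) := hN0.2.2 μ ψ
  have hb := fun s hs => hA11 n f θ0 ψ μ s hn hf hψ hψ' hμ h1 h2 hs
  constructor
  · have key := b7_side (n := n) (by omega) (g := fun θ => deriv f (θ0 + θ)) (G := Gm μ ψ) hT
      (by fun_prop) hG (fun s hs => (hb s hs).1)
    have e : En f θ0 (θ0 + T / n) = ∫ θ in (0 : ℝ)..(T / n), √(1 + (deriv f (θ0 + θ)) ^ 2) := by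
      have := intervalIntegral.integral_comp_add_left (a := (0 : ℝ)) (b := T / n)
        (fun θ => √(1 + (deriv f θ) ^ 2)) θ0
      rw [this, add_zero]
      rfl
    rw [e]
    exact key
  · have key := b7_side (n := n) (by omega) (g := fun θ => deriv f (θ0 - θ)) (G := Gm μ ψ) hT
      (by fun_prop) hG (fun s hs => (hb s hs).2)
    have e : En f (θ0 - T / n) θ0 = ∫ θ in (0 : ℝ)..(T / n), √(1 + (deriv f (θ0 - θ)) ^ 2) := by
      have := intervalIntegral.integral_comp_sub_left (a := (0 : ℝ)) (b := T / n)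
        (fun θ => √(1 + (deriv f θ) ^ 2)) θ0
      rw [this, sub_zero]
      rfl
    rw [e]
    exact key

end

end Pool.Agent.Helper10.AL
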