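import Pool.Agent.Helper10.AL.St

/-! Project AL, piece C1: from polynomials to trigonometric polynomials. -/

set_option autoImplicit false

namespace Pool.Agent.Helper10.AL

open Polynomial Set Real MeasureTheory intervalIntegral
open Pool.Agent.Helper40.AS

theorem c1_deriv (P : ℝ[X]) : deriv (qq P) = fun θ => -(sin θ * P.derivative.eval (cos θ)) := by
  funext θ
  exact (eval_cos_deriv P θ).deriv

theorem c1_subst (P : ℝ[X]) {a b : ℝ} (ha : -1 ≤ a) (hab : a ≤ b) (hb : b ≤ 1) :
    arc a b P = ∫ θ in (arccos b)..(arccos a), sin θ * √(1 + (P.derivative.eval (cos θ)) ^ 2) := by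
  set g : ℝ → ℝ := fun x => √(1 + (P.derivative.eval x) ^ 2) with hg
  have hgc : Continuous g := by
    rw [hg]
    fun_prop
  have h1 := intervalIntegral.integral_comp_mul_deriv (a := arccos b) (b := arccos a)
    (f := cos) (f' := fun θ => -sin θ) (g := g)
    (fun t _ => hasDerivAt_cos t) (by fun_prop) hgc
  rw [cos_arccos (ha.trans hab) hb, cos_arccos ha (hab.trans hb)] at h1
  have h2 : arc a b P = ∫ x in a..b, g x := rfl
  rw [h2, intervalIntegral.integral_symm, ← h1, ← intervalIntegral.integral_neg]
  refine intervalIntegral.integral_congr (fun t _ => ?_)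
  simp only [Function.comp_apply, hg]
  ring

theorem c1 : C1 := by
  intro P a b ha hab hb
  have hba : arccos b ≤ arccos a := arccos_le_arccos hab
  have hsin : ∀ θ ∈ Icc (arccos b) (arccos a), 0 ≤ sin θ := by
    intro θ hθ
    exact sin_nonneg_of_nonneg_of_le_pi ((arccos_nonneg b).trans hθ.1)
      (hθ.2.trans (arccos_le_pi a))
  rw [c1_subst P ha hab hb]
  unfold Va En
  rw [c1_deriv]
  constructor
  · refine integral_mono_on hba ?_ ?_ ?_
    · exact Continuous.intervalIntegrable (by fun_prop) _ _
    · exact Continuous.intervalIntegrable (by fun_prop) _ _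
    · intro θ hθ
      have hs := hsin θ hθ
      rw [abs_neg, abs_mul, abs_of_nonneg hs]
      refine mul_le_mul_of_nonneg_left ?_ hs
      exact Real.abs_le_sqrt (by linarith)
  · refine integral_mono_on hba ?_ ?_ ?_
    · exact Continuous.intervalIntegrable (by fun_prop) _ _
    · exact Continuous.intervalIntegrable (by fun_prop) _ _
    · intro θ hθ
      have hs := hsin θ hθ
      have h1 : sin θ * √(1 + (P.derivative.eval (cos θ)) ^ 2) =
          √(sin θ ^ 2 * (1 + (P.derivative.eval (cos θ)) ^ 2)) := by
        rw [sqrt_mul (sq_nonneg _), sqrt_sq hs]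
      rw [h1]
      refine Real.sqrt_le_sqrt ?_
      have h2 := sin_sq_le_one θ
      nlinarith

end Pool.Agent.Helper10.AL
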