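import Pool.Agent.Helper10.AL.St

/-!
Project AL, piece C2: the Chebyshev polynomial as a competitor for the arc length.
-/

set_option autoImplicit false

namespace Pool.Agent.Helper10.AL

open Polynomial Set Real MeasureTheory intervalIntegral
open Pool.Agent.Helper40.AS (arc Bdd Ext)

noncomputable section

theorem c2_qq (n : ℕ) : qq (Chebyshev.T ℝ n) = fun θ : ℝ => cos (n * θ) := by
  funext θ
  have h := Chebyshev.T_real_cos θ (n : ℤ)
  unfold qq
  rw [h, Int.cast_natCast]

theorem c2_deriv (n : ℕ) (θ : ℝ) :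
    deriv (qq (Chebyshev.T ℝ n)) θ = -(n * sin (n * θ)) := by
  rw [c2_qq]
  have h1 : HasDerivAt (fun θ : ℝ => (n : ℝ) * θ) n θ := by
    simpa using (hasDerivAt_id θ).const_mul (n : ℝ)
  have h2 := h1.cos
  rw [h2.deriv]
  ring

theorem c2_va (n : ℕ) (u v : ℝ) :
    Va (qq (Chebyshev.T ℝ n)) u v = ∫ s in (n * u)..(n * v), |sin s| := by
  unfold Va
  have h : ∀ θ : ℝ, |deriv (qq (Chebyshev.T ℝ n)) θ| = n * |sin (n * θ)| := by
    intro θ
    rw [c2_deriv, abs_neg, abs_mul, abs_of_nonneg (Nat.cast_nonneg n)]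
  simp only [h]
  rw [intervalIntegral.integral_const_mul]
  exact intervalIntegral.mul_integral_comp_mul_left (f := fun s : ℝ => |sin s|) (n : ℝ)

theorem c2 (hC1 : C1) : C2 := by
  intro n a b P _ ha hab hb hP
  have h1 : arc a b (Chebyshev.T ℝ n) ≤ arc a b P := by
    refine hP.max _ ?_ ?_
    · have h := Chebyshev.degree_T ℝ (n : ℤ)
      rw [h, Int.natAbs_natCast]
    · intro x hx
      exact Chebyshev.abs_eval_T_real_le_one (n : ℤ) (abs_le.2 hx)
  have h2 := (hC1 (Chebyshev.T ℝ n) a b ha hab hb).1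
  rw [c2_va] at h2
  exact h2.trans h1

end

end Pool.Agent.Helper10.AL
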