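import Pool.Agent.Helper10.AL.St2

/-!
Project AL, piece CA: complex inverse cosine near the real axis.
-/

set_option autoImplicit false

namespace Pool.Agent.Helper10.AL

open Polynomial Set Real MeasureTheory intervalIntegral

noncomputable section

theorem cA_norm (b : ℂ) : ‖Complex.sin b‖ ^ 2 = sin b.re ^ 2 + sinh b.im ^ 2 := by
  have h1 : Complex.sin b = ((sin b.re * cosh b.im : ℝ) : ℂ) +
      ((cos b.re * sinh b.im : ℝ) : ℂ) * Complex.I := by
    rw [Complex.sin_eq b]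
    push_cast
    ring
  rw [h1, Complex.sq_norm, Complex.normSq_add_mul_I]
  have h2 := Real.sin_sq_add_cos_sq b.re
  have h3 := Real.cosh_sq b.im
  calc (sin b.re * cosh b.im) ^ 2 + (cos b.re * sinh b.im) ^ 2
      = sin b.re ^ 2 * cosh b.im ^ 2 + cos b.re ^ 2 * sinh b.im ^ 2 := by ring
    _ = sin b.re ^ 2 * (sinh b.im ^ 2 + 1) + cos b.re ^ 2 * sinh b.im ^ 2 := by rw [h3]
    _ = sin b.re ^ 2 + (sin b.re ^ 2 + cos b.re ^ 2) * sinh b.im ^ 2 := by ring
    _ = sin b.re ^ 2 + sinh b.im ^ 2 := by rw [h2, one_mul]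

theorem cA_exists (z : ℂ) : ∃ w : ℂ, Complex.cos w = z ∧ 0 ≤ w.re ∧ w.re ≤ π := by
  obtain ⟨w0, hw0⟩ := Complex.cos_surjective z
  have h2pi : (0 : ℝ) < 2 * π := by positivity
  obtain ⟨k, hk, -⟩ := existsUnique_add_zsmul_mem_Ioc h2pi w0.re (-π)
  have hk1 : -π < w0.re + k * (2 * π) := by
    have := hk.1
    simpa [zsmul_eq_mul] using this
  have hk2 : w0.re + k * (2 * π) ≤ π := by
    have := hk.2
    rw [zsmul_eq_mul] at this
    linarith
  set w1 : ℂ := w0 + k * (2 * π) with hw1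
  have hc : Complex.cos w1 = z := by
    rw [hw1, Complex.cos_add_int_mul_two_pi, hw0]
  have hre : w1.re = w0.re + k * (2 * π) := by
    rw [hw1]
    simp
  rcases le_total 0 w1.re with h | h
  · exact ⟨w1, hc, h, by rw [hre]; exact hk2⟩
  · refine ⟨-w1, by rw [Complex.cos_neg, hc], ?_, ?_⟩
    · rw [Complex.neg_re]
      linarith
    · rw [Complex.neg_re, hre]
      linarith

theorem cA_lin (b : ℂ) (h1 : |b.re| ≤ π / 2) : ‖b‖ ≤ π / 2 * ‖Complex.sin b‖ := by
  have hpi : 0 < π := pi_pos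
  have hx : |b.re| ≤ π / 2 * |sin b.re| := by
    have h2 : 2 / π * |b.re| ≤ sin |b.re| := Real.mul_le_sin (abs_nonneg _) h1
    have h3 : sin |b.re| = |sin b.re| := by
      rcases le_total 0 b.re with h | h
      · rw [abs_of_nonneg h, abs_of_nonneg (sin_nonneg_of_nonneg_of_le_pi h (by
          rw [abs_of_nonneg h] at h1
          linarith))]
      · rw [abs_of_nonpos h, sin_neg, abs_of_nonpos]
        rw [abs_of_nonpos h] at h1
        exact sin_nonpos_of_nonpos_of_neg_pi_le h (by linarith)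
    rw [h3] at h2
    calc |b.re| = π / 2 * (2 / π * |b.re|) := by field_simp
      _ ≤ π / 2 * |sin b.re| := mul_le_mul_of_nonneg_left h2 (by positivity)
  have hy : |b.im| ≤ π / 2 * |sinh b.im| := by
    have h2 : |b.im| ≤ |sinh b.im| := by
      rcases le_total 0 b.im with h | h
      · rw [abs_of_nonneg h, abs_of_nonneg (Real.sinh_nonneg_iff.2 h)]
        exact Real.self_le_sinh_iff.2 h
      · rw [abs_of_nonpos h, abs_of_nonpos (Real.sinh_nonpos_iff.2 h)]
        have := Real.sinh_le_self_iff.2 h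
        linarith
    have h3 : 1 ≤ π / 2 := by linarith [Real.pi_gt_three]
    calc |b.im| ≤ |sinh b.im| := h2
      _ = 1 * |sinh b.im| := (one_mul _).symm
      _ ≤ π / 2 * |sinh b.im| := mul_le_mul_of_nonneg_right h3 (abs_nonneg _)
  have h4 : ‖b‖ ^ 2 ≤ (π / 2 * ‖Complex.sin b‖) ^ 2 := by
    rw [mul_pow, cA_norm, Complex.sq_norm, Complex.normSq_apply]
    have hx2 : b.re ^ 2 ≤ (π / 2) ^ 2 * sin b.re ^ 2 := by
      have := pow_le_pow_left₀ (abs_nonneg _) hx 2
      rw [mul_pow, sq_abs, sq_abs] at this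
      exact this
    have hy2 : b.im ^ 2 ≤ (π / 2) ^ 2 * sinh b.im ^ 2 := by
      have := pow_le_pow_left₀ (abs_nonneg _) hy 2
      rw [mul_pow, sq_abs, sq_abs] at this
      exact this
    nlinarith
  exact le_of_sq_le_sq₀ h4 (by positivity)
where
  le_of_sq_le_sq₀ {u v : ℝ} (h : u ^ 2 ≤ v ^ 2) (hv : 0 ≤ v) : u ≤ v :=
    abs_le_of_sq_le_sq' h hv |>.2

theorem cA : CA := by
  intro δ hδ hδ1 z
  obtain ⟨w, hw, h0, hπ⟩ := cA_exists z
  refine ⟨w, hw, h0, hπ, ?_⟩
  intro θ hθ hc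
  have hpi : 0 < π := pi_pos
  have hs : 0 < √δ := Real.sqrt_pos.2 hδ
  have hs2 : √δ ^ 2 = δ := Real.sq_sqrt hδ.le
  set u : ℂ := (w + θ) / 2 with hu
  set v : ℂ := (w - θ) / 2 with hv
  have hure : u.re = (w.re + θ) / 2 := by
    rw [hu]
    simp
  have hvre : v.re = (w.re - θ) / 2 := by
    rw [hv]
    simp
  have hzc : ‖z - ((cos θ : ℝ) : ℂ)‖ = 2 * ‖Complex.sin u‖ * ‖Complex.sin v‖ := by
    rw [← hw, Complex.ofReal_cos, Complex.cos_sub_cos, norm_mul, norm_mul, norm_neg, hu, hv]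
    norm_num
  have hsin : √δ / √2 ≤ sin u.re := by
    have hd : 0 ≤ √δ / √2 := by positivity
    have hd2 : (√δ / √2) ^ 2 = δ / 2 := by
      rw [div_pow, hs2, Real.sq_sqrt (by norm_num)]
    have hc1 : sin (θ / 2) ^ 2 = (1 - cos θ) / 2 := by
      have := Real.cos_sq (θ / 2)
      have h2 := Real.sin_sq_add_cos_sq (θ / 2)
      rw [show 2 * (θ / 2) = θ by ring] at this
      linarith
    have hc2 : cos (θ / 2) ^ 2 = (1 + cos θ) / 2 := by
      have := Real.cos_sq (θ / 2)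
      rw [show 2 * (θ / 2) = θ by ring] at this
      linarith
    have hA : √δ / √2 ≤ sin (θ / 2) := by
      have h3 : 0 ≤ sin (θ / 2) := sin_nonneg_of_nonneg_of_le_pi (by linarith [hθ.1])
        (by linarith [hθ.2])
      refine abs_le_of_sq_le_sq' ?_ h3 |>.2
      rw [hd2, hc1]
      linarith [hc.2]
    have hB : √δ / √2 ≤ cos (θ / 2) := by
      have h3 : 0 ≤ cos (θ / 2) := cos_nonneg_of_neg_pi_div_two_le_of_le
        (by linarith [hθ.1]) (by linarith [hθ.2])
      refine abs_le_of_sq_le_sq' ?_ h3 |>.2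
      rw [hd2, hc2]
      linarith [hc.1]
    rcases le_total u.re (π / 2) with h | h
    · refine hA.trans ?_
      refine Real.sin_le_sin_of_le_of_le_pi_div_two (by linarith [hθ.1]) h ?_
      rw [hure]
      linarith
    · refine hB.trans ?_
      rw [← Real.sin_pi_sub u.re, ← Real.sin_pi_div_two_sub]
      refine Real.sin_le_sin_of_le_of_le_pi_div_two (by linarith [hθ.2]) (by linarith) ?_
      rw [hure]
      linarith
  have hsu : √δ / √2 ≤ ‖Complex.sin u‖ := by
    refine hsin.trans ?_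
    refine abs_le_of_sq_le_sq' ?_ (norm_nonneg _) |>.2
    rw [cA_norm]
    nlinarith [sq_nonneg (sinh u.im)]
  have hsv : ‖v‖ ≤ π / 2 * ‖Complex.sin v‖ := by
    refine cA_lin v ?_
    rw [hvre, abs_le]
    constructor
    · linarith [hθ.2]
    · linarith [hθ.1]
  have hwt : ‖w - (θ : ℂ)‖ = 2 * ‖v‖ := by
    rw [hv, norm_div]
    norm_num
    ring
  rw [hwt, hzc]
  have h22 : √2 ^ 2 = 2 := Real.sq_sqrt (by norm_num)
  have h2p : 0 < √2 := by positivity
  have hk : π ≤ 3 * √2 := by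
    have h5 : (1.4 : ℝ) ≤ √2 := by
      refine Real.le_sqrt_of_sq_le ?_
      norm_num
    have := Real.pi_lt_d2
    linarith
  have h6 : π ≤ 3 / √δ * (2 * ‖Complex.sin u‖) := by
    calc π ≤ 3 * √2 := hk
      _ = 3 / √δ * (2 * (√δ / √2)) := by
          field_simp
          rw [h22]
      _ ≤ 3 / √δ * (2 * ‖Complex.sin u‖) := by
          refine mul_le_mul_of_nonneg_left ?_ (by positivity)
          linarith
  calc 2 * ‖v‖ ≤ 2 * (π / 2 * ‖Complex.sin v‖) := by linarith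
    _ = π * ‖Complex.sin v‖ := by ring
    _ ≤ (3 / √δ * (2 * ‖Complex.sin u‖)) * ‖Complex.sin v‖ :=
        mul_le_mul_of_nonneg_right h6 (norm_nonneg _)
    _ = 3 / √δ * (2 * ‖Complex.sin u‖ * ‖Complex.sin v‖) := by ring

end

end Pool.Agent.Helper10.AL
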