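import Pool.Agent.Helper10.AL.St2

/-!
Arc length of polynomials over compact windows, large degree: existence of chains.
-/

set_option autoImplicit false

namespace Pool.Agent.Helper10.AL

open Polynomial Set Real MeasureTheory intervalIntegral

/-- enumeration of a finite set of reals between its extreme points -/
theorem cH_enum (S : Finset ℝ) (u v : ℝ) (huv : u < v) (hu : u ∈ S) (hv : v ∈ S)
    (hS : ∀ x ∈ S, u ≤ x ∧ x ≤ v) :
    ∃ (N : ℕ) (t : ℕ → ℝ), 1 ≤ N ∧ t 0 = u ∧ t N = v ∧ (∀ i < N, t i < t (i + 1)) ∧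
      (∀ i ≤ N, t i ∈ S) ∧ ∀ i < N, ∀ θ ∈ Ioo (t i) (t (i + 1)), θ ∉ S := by
  have hc2 : 1 < S.card := Finset.one_lt_card.2 ⟨u, hu, v, hv, huv.ne⟩
  obtain ⟨N, hN⟩ : ∃ N, S.card = N + 1 := ⟨S.card - 1, by omega⟩
  have hN1 : 1 ≤ N := by omega
  let e := S.orderEmbOfFin hN
  have hmem : ∀ j, e j ∈ S := fun j => S.orderEmbOfFin_mem hN j
  have hrange : ∀ x ∈ S, ∃ j, e j = x := by
    intro x hx
    have h1 : x ∈ Set.range e := by
      rw [Finset.range_orderEmbOfFin]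
      exact hx
    exact h1
  let t : ℕ → ℝ := fun i => e ⟨min i N, by omega⟩
  have ht : ∀ i (hi : i ≤ N), t i = e ⟨i, by omega⟩ := by
    intro i hi
    have : min i N = i := by omega
    simp only [t, this]
  refine ⟨N, t, hN1, ?_, ?_, ?_, ?_, ?_⟩
  · rw [ht 0 (by omega)]
    obtain ⟨j, hj⟩ := hrange u hu
    apply le_antisymm
    · rw [← hj]
      exact e.monotone (Fin.zero_le j)
    · exact (hS _ (hmem _)).1
  · rw [ht N le_rfl]
    obtain ⟨j, hj⟩ := hrange v hv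
    apply le_antisymm
    · exact (hS _ (hmem _)).2
    · rw [← hj]
      refine e.monotone ?_
      rw [Fin.le_def]
      exact Nat.lt_succ_iff.1 j.2
  · intro i hi
    rw [ht i (by omega), ht (i + 1) (by omega)]
    apply e.strictMono
    rw [Fin.lt_def]
    exact Nat.lt_succ_self i
  · intro i hi
    rw [ht i hi]
    exact hmem _
  · intro i hi θ hθ hθS
    rw [ht i (by omega), ht (i + 1) (by omega)] at hθ
    obtain ⟨j, rfl⟩ := hrange θ hθS
    have h1 := e.strictMono.lt_iff_lt.1 hθ.1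
    have h2 := e.strictMono.lt_iff_lt.1 hθ.2
    rw [Fin.lt_def] at h1 h2
    simp only at h1 h2
    omega

/-- zeros of a nonzero trigonometric polynomial in a bounded interval -/
theorem cH_fin (hA4 : A4) (n : ℕ) (g : ℝ → ℝ) (hg : TP n g) (h0 : ∃ θ, g θ ≠ 0) (u v : ℝ) :
    {θ | θ ∈ Icc u v ∧ g θ = 0}.Finite := by
  have h2π : (0 : ℝ) < 2 * π := by positivity
  obtain ⟨M, hM⟩ := exists_nat_gt ((v - u) / (2 * π))
  have hsub : {θ | θ ∈ Icc u v ∧ g θ = 0} ⊆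
      ⋃ k ∈ Finset.range M, {θ | θ ∈ Ico (u + k * (2 * π)) (u + k * (2 * π) + 2 * π) ∧ g θ = 0} := by
    intro θ hθ
    obtain ⟨⟨h1, h2⟩, h3⟩ := hθ
    have hq : 0 ≤ (θ - u) / (2 * π) := div_nonneg (by linarith) h2π.le
    have hk1 := Nat.floor_le hq
    have hk2 := Nat.lt_floor_add_one ((θ - u) / (2 * π))
    rw [le_div_iff₀ h2π] at hk1
    rw [div_lt_iff₀ h2π] at hk2
    have hk3 : ⌊(θ - u) / (2 * π)⌋₊ < M := by
      rw [Nat.floor_lt hq]
      refine lt_of_le_of_lt ?_ hM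
      exact div_le_div_of_nonneg_right (by linarith) h2π.le
    simp only [Set.mem_iUnion]
    refine ⟨⌊(θ - u) / (2 * π)⌋₊, Finset.mem_range.2 hk3, ⟨?_, ?_⟩, h3⟩
    · linarith
    · nlinarith
  refine Set.Finite.subset ?_ hsub
  refine Set.Finite.biUnion (Finset.finite_toSet _) ?_
  intro k _
  exact (hA4 n g (u + k * (2 * π)) hg h0).1

theorem cH (hA1 : A1) (hA4 : A4) : CH := by
  intro n f u v _ hf h0 huv hu hv hcon
  have hfin := cH_fin hA4 n (deriv f) (hA1.1 n f hf.1).2.1 h0 u v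
  have hmemS : ∀ x, x ∈ hfin.toFinset ↔ x ∈ Icc u v ∧ deriv f x = 0 := by
    intro x
    rw [Set.Finite.mem_toFinset]
    rfl
  obtain ⟨N, t, hN, ht0, htN, hinc, hmem, hbet⟩ := cH_enum hfin.toFinset u v huv
    ((hmemS u).2 ⟨⟨le_rfl, huv.le⟩, hu⟩) ((hmemS v).2 ⟨⟨huv.le, le_rfl⟩, hv⟩)
    (fun x hx => ⟨((hmemS x).1 hx).1.1, ((hmemS x).1 hx).1.2⟩)
  refine ⟨N, t, hN, ht0, htN, hinc, ?_, ?_⟩
  · intro i hi
    have h1 := (hmemS _).1 (hmem i hi)
    exact hcon _ h1.1 h1.2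
  · intro i hi θ hθ h1
    refine hbet i hi θ hθ ((hmemS θ).2 ⟨⟨?_, ?_⟩, h1⟩)
    · exact ((hmemS _).1 (hmem i (by omega))).1.1.trans hθ.1.le
    · exact hθ.2.le.trans ((hmemS _).1 (hmem (i + 1) (by omega))).1.2

end Pool.Agent.Helper10.AL
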