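import Pool.Agent.Helper10.AL.St6

/-!
Arc length of polynomials over windows `[a, 1]`, piece U3: the chain of critical points of an
extremal polynomial is nearly perfect.
-/

set_option autoImplicit false

namespace Pool.Agent.Helper10.AL

open Polynomial Set Real MeasureTheory intervalIntegral
open Pool.Agent.Helper40.AS (arc Bdd Ext quad)

noncomputable section

/-! ### elementary inequalities -/

theorem u3_sin (X : ℝ) (h0 : 0 ≤ X) (h1 : X ≤ π / 2) :
    2 / π * X + 1 / 50 * (X * (π / 2 - X)) ≤ sin X := by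
  have hp1 : 3.14 < π := pi_gt_d2
  have hp2 : π < 3.15 := pi_lt_d2
  have h2pi : 2 / π ≤ 0.637 := by
    rw [div_le_iff₀ pi_pos]
    linarith
  have h2pi' : 0.634 ≤ 2 / π := by
    rw [le_div_iff₀ pi_pos]
    linarith
  rcases le_total X 1.4 with hX | hX
  · have h3 := sin_ge_sub_cube h0
    have h4 : 2 / π + 1 / 50 * (π / 2 - X) ≤ 1 - X ^ 2 / 6 := by nlinarith
    have h5 := mul_le_mul_of_nonneg_left h4 h0
    nlinarith
  · have h3 : 1 - (π / 2 - X) ^ 2 / 2 ≤ cos (π / 2 - X) := one_sub_sq_div_two_le_cos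
    rw [cos_pi_div_two_sub] at h3
    have h4 : 2 / π * X = 1 - 2 / π * (π / 2 - X) := by
      field_simp
      ring
    rw [h4]
    have hd : 0 ≤ π / 2 - X := by linarith
    have h5 : X / 50 + (π / 2 - X) / 2 ≤ 2 / π := by linarith
    have h6 := mul_le_mul_of_nonneg_left h5 hd
    nlinarith

theorem u3_cos (U : ℝ) (h0 : 0 ≤ U) (h1 : U ≤ π / 2) : cos U ≤ 1 - 4 / π ^ 2 * U ^ 2 := by
  have hx : (0 : ℝ) ∈ Icc 0 π := ⟨le_rfl, pi_pos.le⟩
  have hy : π / 4 ∈ Icc 0 π := ⟨by positivity, by linarith [pi_pos]⟩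
  have ha : 0 ≤ 1 - 2 / π * U := by
    have h2 : 2 / π * U ≤ 2 / π * (π / 2) := mul_le_mul_of_nonneg_left h1 (by positivity)
    have h3 : 2 / π * (π / 2) = 1 := by field_simp
    linarith
  have hb : 0 ≤ 2 / π * U := by positivity
  have hab : (1 - 2 / π * U) + 2 / π * U = 1 := by ring
  have hc := strictConcaveOn_sin_Icc.concaveOn.2 hx hy ha hb hab
  simp only [smul_eq_mul, mul_zero, sin_zero, zero_add, sin_pi_div_four] at hc
  have h2 : 2 / π * U * (π / 4) = U / 2 := by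
    field_simp
    ring
  rw [h2] at hc
  have h3 : 0 ≤ 2 / π * U * (√2 / 2) := by positivity
  have h4 := pow_le_pow_left₀ h3 hc 2
  have h5 : (2 / π * U * (√2 / 2)) ^ 2 = 2 / π ^ 2 * U ^ 2 := by
    have h6 : √2 ^ 2 = 2 := Real.sq_sqrt (by norm_num)
    calc (2 / π * U * (√2 / 2)) ^ 2 = 1 / π ^ 2 * U ^ 2 * √2 ^ 2 := by ring
      _ = _ := by rw [h6]; ring
  rw [h5] at h4
  have h6 : cos U = 1 - 2 * sin (U / 2) ^ 2 := by
    have := cos_two_mul (U / 2)
    rw [show 2 * (U / 2) = U by ring] at this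
    rw [this]
    have h7 := sin_sq_add_cos_sq (U / 2)
    linarith
  rw [h6]
  have h8 : 4 / π ^ 2 * U ^ 2 = 2 * (2 / π ^ 2 * U ^ 2) := by ring
  rw [h8]
  linarith

theorem u3_h (x : ℝ) (h0 : 0 ≤ x) (h1 : x ≤ π) :
    x ^ 2 * (π - x) / (50 * π) ≤ 1 - cos x - 2 * cos (√(π ^ 2 - x ^ 2) / 2) := by
  have hx2 : 0 ≤ π ^ 2 - x ^ 2 := by nlinarith
  have hs := u3_sin (x / 2) (by linarith) (by linarith)
  have hc := u3_cos (√(π ^ 2 - x ^ 2) / 2) (by positivity) (by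
    have : √(π ^ 2 - x ^ 2) ≤ π := by
      apply Real.sqrt_le_iff.2
      constructor
      · exact pi_pos.le
      · nlinarith
    linarith)
  have hsq : (√(π ^ 2 - x ^ 2) / 2) ^ 2 = (π ^ 2 - x ^ 2) / 4 := by
    rw [div_pow, Real.sq_sqrt hx2]
    norm_num
  rw [hsq] at hc
  have hc2 : 1 - 4 / π ^ 2 * ((π ^ 2 - x ^ 2) / 4) = x ^ 2 / π ^ 2 := by
    field_simp
    ring
  rw [hc2] at hc
  have hA : 0 ≤ 2 / π * (x / 2) := by positivity
  have hB : 0 ≤ 1 / 50 * (x / 2 * (π / 2 - x / 2)) := by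
    apply mul_nonneg (by norm_num)
    apply mul_nonneg (by linarith) (by linarith)
  have h4 := pow_le_pow_left₀ (add_nonneg hA hB) hs 2
  have h5 : cos x = 1 - 2 * sin (x / 2) ^ 2 := by
    have := cos_two_mul (x / 2)
    rw [show 2 * (x / 2) = x by ring] at this
    rw [this]
    have h7 := sin_sq_add_cos_sq (x / 2)
    linarith
  rw [h5]
  have h6 : x ^ 2 / π ^ 2 + 2 * (2 / π * (x / 2)) * (1 / 50 * (x / 2 * (π / 2 - x / 2))) ≤
      sin (x / 2) ^ 2 := by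
    have h7 : (2 / π * (x / 2)) ^ 2 = x ^ 2 / π ^ 2 := by ring
    nlinarith [sq_nonneg (1 / 50 * (x / 2 * (π / 2 - x / 2)))]
  have h8 : x ^ 2 * (π - x) / (50 * π) =
      2 * (2 * (2 / π * (x / 2)) * (1 / 50 * (x / 2 * (π / 2 - x / 2)))) := by
    field_simp
  rw [h8]
  linarith

theorem u3_cosq (x : ℝ) (h0 : 0 ≤ x) (h1 : x ≤ π) : x ^ 2 / 5 ≤ 1 - cos x := by
  have h := cos_le_one_sub_mul_cos_sq (x := x) (by rw [abs_of_nonneg h0]; exact h1)
  have h2 : 1 / 5 ≤ 2 / π ^ 2 := by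
    rw [div_le_div_iff₀ (by norm_num) (by positivity)]
    have := pi_lt_d2
    nlinarith [pi_pos]
  have h3 := mul_le_mul_of_nonneg_right h2 (sq_nonneg x)
  linarith

/-- the rate -/
theorem u3_lam (ε : ℝ) (hε : 0 < ε) : ∃ n0 : ℕ, 1 ≤ n0 ∧ ∀ n : ℕ, n0 ≤ n →
    (1 + Real.log n) / n ≤ ε := by
  obtain ⟨m, hm⟩ := exists_nat_gt (4 / ε ^ 2)
  refine ⟨m + 1, by omega, fun n hn => ?_⟩
  have hnm : (m : ℝ) + 1 ≤ n := by exact_mod_cast hn
  have hm0 : (0 : ℝ) ≤ m := Nat.cast_nonneg m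
  have hn0 : (0 : ℝ) < n := by linarith
  have hs : 0 < √(n : ℝ) := Real.sqrt_pos.2 hn0
  have h1 : Real.log n = 2 * Real.log (√(n : ℝ)) := by
    rw [Real.log_sqrt hn0.le]
    ring
  have h2 := Real.log_le_sub_one_of_pos hs
  have h3 : 4 ≤ ε ^ 2 * n := by
    have h4 : 4 / ε ^ 2 ≤ n := by linarith
    rw [div_le_iff₀ (by positivity)] at h4
    linarith
  have h5 : 2 ≤ ε * √(n : ℝ) := by
    have h6 : (2 : ℝ) ^ 2 ≤ (ε * √(n : ℝ)) ^ 2 := by
      rw [mul_pow, Real.sq_sqrt hn0.le]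
      linarith
    exact le_of_sq_le_sq h6 (by positivity)
  rw [div_le_iff₀ hn0]
  have h7 : √(n : ℝ) * √(n : ℝ) = n := Real.mul_self_sqrt hn0.le
  have h8 : 2 * √(n : ℝ) ≤ ε * √(n : ℝ) * √(n : ℝ) := mul_le_mul_of_nonneg_right h5 hs.le
  rw [mul_assoc, h7] at h8
  rw [h1]
  linarith

/-- the case analysis for the first critical point -/
theorem u3_case (hVF4 : VF4) (hVF6 : VF6) (g0 l gN x lam : ℝ) (hlam0 : 0 < lam)
    (hlam : lam ≤ 5 / 10 ^ 10) (hg0 : 1 / 1000 ≤ g0) (hl : 0 ≤ l) (hL : g0 + l ≤ 4)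
    (hx0 : 0 ≤ x) (hx1 : x ≤ π) (hsq : π ^ 2 ≤ g0 ^ 2 + x ^ 2)
    (hV : VC (gN + (g0 + l)) - VC gN ≤ 1 + cos x + 83 * lam) :
    x ^ 2 ≤ 5 * 10 ^ 7 * lam ∧ g0 + l ≤ π + 29 * √lam := by
  have hp1 : 3.14 < π := pi_gt_d2
  have hp2 : π < 3.15 := pi_lt_d2
  have hr0 : 0 < √lam := Real.sqrt_pos.2 hlam0
  have hrr : √lam ^ 2 = lam := Real.sq_sqrt hlam0.le
  obtain ⟨-, hper, -, -, hint⟩ := hVF6
  rcases le_total (g0 + l) π with hc | hc
  · have h1 := (hVF4 gN (g0 + l)).1 (by linarith) hc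
    rw [hint] at h1
    -- `x` is not close to `π`
    have h2 : 2 * (1 - cos (g0 / 2)) ≤ 1 + cos x + 83 * lam := by
      have h3 : cos ((g0 + l) / 2) ≤ cos (g0 / 2) :=
        cos_le_cos_of_nonneg_of_le_pi (by linarith) (by linarith) (by linarith)
      linarith
    have h3 : (1 / 2000 : ℝ) ^ 2 / 5 ≤ 1 - cos (g0 / 2) := by
      have h4 := u3_cosq (g0 / 2) (by linarith) (by linarith)
      have h5 : (1 / 2000 : ℝ) ^ 2 ≤ (g0 / 2) ^ 2 :=
        pow_le_pow_left₀ (by norm_num) (by linarith) 2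
      linarith
    have h4 : 1 + cos x ≤ (π - x) ^ 2 / 2 := by
      have h5 : 1 - (π - x) ^ 2 / 2 ≤ cos (π - x) := one_sub_sq_div_two_le_cos
      rw [cos_pi_sub] at h5
      linarith
    have h5 : (3 / 10 ^ 4 : ℝ) ^ 2 ≤ (π - x) ^ 2 := by
      norm_num at h3 hlam ⊢
      linarith
    have h6 : 3 / 10 ^ 4 ≤ π - x := le_of_sq_le_sq h5 (by linarith)
    have h7 := u3_h x hx0 hx1
    have h8 : √(π ^ 2 - x ^ 2) ≤ g0 := by
      apply Real.sqrt_le_iff.2
      constructor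
      · linarith
      · linarith
    have h9 : cos ((g0 + l) / 2) ≤ cos (√(π ^ 2 - x ^ 2) / 2) :=
      cos_le_cos_of_nonneg_of_le_pi (by positivity) (by linarith) (by linarith)
    have h10 : x ^ 2 * (π - x) / (50 * π) ≤ 83 * lam := by linarith
    rw [div_le_iff₀ (by positivity)] at h10
    have h11 : x ^ 2 * (3 / 10 ^ 4) ≤ x ^ 2 * (π - x) :=
      mul_le_mul_of_nonneg_left h6 (sq_nonneg x)
    have h12 : 83 * lam * (50 * π) ≤ 83 * lam * (50 * 3.15) :=
      mul_le_mul_of_nonneg_left (by linarith) (by linarith)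
    refine ⟨?_, by linarith⟩
    norm_num at h11 h12 ⊢
    linarith
  · have h1 := (hVF4 gN 0).2
    have h2 := (hVF4 (gN + π) (g0 + l - π)).1 (by linarith) (by linarith)
    rw [hint] at h1 h2
    rw [show gN + π + (g0 + l - π) = gN + (g0 + l) by ring] at h2
    have h3 : (1 - cos x) + 2 * (1 - cos ((g0 + l - π) / 2)) ≤ 83 * lam := by linarith
    have h4 := u3_cosq x hx0 hx1
    have h5 := u3_cosq ((g0 + l - π) / 2) (by linarith) (by linarith)
    have h6 : 0 ≤ ((g0 + l - π) / 2) ^ 2 := sq_nonneg _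
    have h7 : 0 ≤ x ^ 2 := sq_nonneg x
    refine ⟨by norm_num; linarith, ?_⟩
    have h8 : (g0 + l - π) ^ 2 ≤ (29 * √lam) ^ 2 := by
      rw [mul_pow, hrr]
      have h9 : (g0 + l - π) ^ 2 = 4 * ((g0 + l - π) / 2) ^ 2 := by ring
      rw [h9]
      norm_num
      linarith
    have h9 := le_of_sq_le_sq h8 (by positivity)
    linarith

/-! ### the chain -/

theorem u3_int (hA2 : A2) (P : ℝ[X]) (u v : ℝ) :
    IntervalIntegrable (fun θ => √(1 + (deriv (qq P) θ) ^ 2)) volume u v := by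
  have h1 : (fun θ => √(1 + (deriv (qq P) θ) ^ 2)) =
      fun θ => √(1 + (-(sin θ * P.derivative.eval (cos θ))) ^ 2) := by
    funext θ
    rw [(hA2.2.2 P θ).1]
  rw [h1]
  apply Continuous.intervalIntegrable
  have h2 : Continuous fun θ => P.derivative.eval (cos θ) :=
    P.derivative.continuous.comp continuous_cos
  fun_prop

theorem u3_add (hA2 : A2) (P : ℝ[X]) (u v w : ℝ) :
    En (qq P) u v + En (qq P) v w = En (qq P) u w :=
  integral_add_adjacent_intervals (u3_int hA2 P u v) (u3_int hA2 P v w)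

/-- contact points are critical -/
theorem u3_crit (hA2 : A2) {n : ℕ} {f : ℝ → ℝ} (hn : 1 ≤ n) (hf : TB n f) {θ : ℝ}
    (h : |f θ| = 1) : deriv f θ = 0 := by
  have h1 := ((hA2.1 n f hn hf).2 θ).1
  have h2 : f θ ^ 2 = 1 := by
    rw [← sq_abs, h]
    norm_num
  rw [h2] at h1
  have h3 : deriv f θ ^ 2 ≤ 0 := by linarith
  exact pow_eq_zero_iff (two_ne_zero) |>.mp (le_antisymm h3 (sq_nonneg _))

/-- the points of a chain are increasing -/
theorem u3_mono {f : ℝ → ℝ} {N : ℕ} {t : ℕ → ℝ} (h : Chain f N t) (i j : ℕ) (hij : i ≤ j)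
    (hj : j ≤ N) : t i ≤ t j := by
  induction j with
  | zero =>
    have : i = 0 := by omega
    rw [this]
  | succ j ih =>
    rcases Nat.lt_or_ge i (j + 1) with h1 | h1
    · exact (ih (by omega) (by omega)).trans (h.inc j (by omega)).le
    · have : i = j + 1 := by omega
      rw [this]

/-- the critical points between the ends of a chain are points of the chain -/
theorem u3_mem {f : ℝ → ℝ} {N : ℕ} {t : ℕ → ℝ} (h : Chain f N t) (θ : ℝ) (h0 : t 0 ≤ θ)
    (hd : deriv f θ = 0) : ∀ k ≤ N, θ ≤ t k → ∃ i ≤ k, t i = θ := by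
  intro k
  induction k with
  | zero =>
    intro _ h1
    exact ⟨0, le_rfl, le_antisymm h0 h1⟩
  | succ k ih =>
    intro hk h1
    rcases le_or_gt θ (t k) with h2 | h2
    · obtain ⟨i, hi, hi2⟩ := ih (by omega) h2
      exact ⟨i, by omega, hi2⟩
    · rcases eq_or_lt_of_le h1 with h3 | h3
      · exact ⟨k + 1, le_rfl, h3.symm⟩
      · exact absurd hd (h.mon k (by omega) θ ⟨h2, h3⟩)

/-- the chain of all critical points in the window -/
theorem u3_chain (hA1 : A1) (hA4 : A4) (hCH : CH) {n : ℕ} {f : ℝ → ℝ} {α : ℝ} (hn : 1 ≤ n)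
    (hf : TB n f) (hne : ∃ θ, deriv f θ ≠ 0) (hα : α ≤ π)
    (hcon : ∀ θ ∈ Ioo 0 α, deriv f θ = 0 → |f θ| = 1)
    (hgap : ∀ u v, 0 ≤ u → u ≤ v → v ≤ α → (∀ θ ∈ Ioo u v, deriv f θ ≠ 0) → n * (v - u) ≤ 6)
    (hlarge : 20 ≤ n * α) : ∃ (N : ℕ) (t : ℕ → ℝ), 1 ≤ N ∧ Chain f N t ∧ 0 < t 0 ∧ t N < α ∧
      (∀ θ ∈ Ioo 0 α, deriv f θ = 0 → ∃ i ≤ N, t i = θ) ∧
      (∀ θ ∈ Ioo 0 (t 0), deriv f θ ≠ 0) ∧ (∀ θ ∈ Ioo (t N) α, deriv f θ ≠ 0) := by
  have hn0 : (0 : ℝ) < n := by exact_mod_cast hn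
  have hα0 : 0 < α := by
    by_contra h
    have := mul_nonpos_of_nonneg_of_nonpos hn0.le (not_lt.1 h)
    linarith
  have hTP : TP n (deriv f) := (hA1.1 n f hf.1).2.1
  set S : Set ℝ := {θ | θ ∈ Ioo 0 α ∧ deriv f θ = 0} with hS
  have hfin : S.Finite := by
    apply (hA4 n (deriv f) 0 hTP hne).1.subset
    intro θ hθ
    exact ⟨⟨hθ.1.1.le, by linarith [hθ.1.2, pi_pos]⟩, hθ.2⟩
  have hex : ∀ u v, 0 ≤ u → u ≤ v → v ≤ α → 6 < n * (v - u) → ∃ θ ∈ S, u < θ ∧ θ < v := by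
    intro u v h1 h2 h3 h4
    by_contra hc
    push Not at hc
    have := hgap u v h1 h2 h3 (fun θ hθ hd => by
      have := hc θ ⟨⟨by linarith [hθ.1], by linarith [hθ.2]⟩, hd⟩ hθ.1
      linarith [hθ.2])
    linarith
  obtain ⟨θ1, hθ1, hθ1a, hθ1b⟩ := hex 0 (α / 2) le_rfl (by linarith) (by linarith) (by
    rw [show (n : ℝ) * (α / 2 - 0) = n * α / 2 by ring]
    linarith)
  obtain ⟨θ2, hθ2, hθ2a, hθ2b⟩ := hex (α / 2) α (by linarith) (by linarith) le_rfl (by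
    rw [show (n : ℝ) * (α - α / 2) = n * α / 2 by ring]
    linarith)
  obtain ⟨u, hu, humin⟩ := Set.exists_min_image S id hfin ⟨θ1, hθ1⟩
  obtain ⟨v, hv, hvmax⟩ := Set.exists_max_image S id hfin ⟨θ1, hθ1⟩
  simp only [id] at humin hvmax
  have huv : u < v := by
    have h1 := humin θ1 hθ1
    have h2 := hvmax θ2 hθ2
    linarith
  obtain ⟨N, t, hN, ht0, htN, hch⟩ := hCH n f u v hn hf hne huv hu.2 hv.2 (fun θ hθ hd =>
    hcon θ ⟨lt_of_lt_of_le hu.1.1 hθ.1, lt_of_le_of_lt hθ.2 hv.1.2⟩ hd)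
  refine ⟨N, t, hN, hch, by rw [ht0]; exact hu.1.1, by rw [htN]; exact hv.1.2, ?_, ?_, ?_⟩
  · intro θ hθ hd
    apply u3_mem hch θ _ hd N le_rfl
    · rw [htN]
      exact hvmax θ ⟨hθ, hd⟩
    · rw [ht0]
      exact humin θ ⟨hθ, hd⟩
  · intro θ hθ hd
    rw [ht0] at hθ
    have := humin θ ⟨⟨hθ.1, by linarith [hθ.2, hu.1.2]⟩, hd⟩
    linarith [hθ.2]
  · intro θ hθ hd
    rw [htN] at hθ
    have := hvmax θ ⟨⟨by linarith [hθ.1, hv.1.1], hθ.2⟩, hd⟩
    linarith [hθ.1]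

/-- the gaps of a chain with small lag -/
theorem u3_lag (hB6 : B6) {n N : ℕ} {f : ℝ → ℝ} {t : ℕ → ℝ} (hn : 1 ≤ n) (hf : TB n f)
    (hch : Chain f N t) (i : ℕ) (hi : i ≤ N) :
    (i : ℝ) * π ≤ n * (t i - t 0) ∧ n * (t i - t 0) ≤ i * π + (n * (t N - t 0) - N * π) := by
  have h1 := (hB6 n i f t hn hf (fun j hj => hch.inc j (by omega))
    (fun j hj => hch.con j (by omega)) (fun j hj => hch.mon j (by omega))).1
  have h2 := (hB6 n (N - i) f (fun j => t (i + j)) hn hf (fun j hj => by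
      have := hch.inc (i + j) (by omega)
      simpa [Nat.add_assoc] using this)
    (fun j hj => hch.con (i + j) (by omega)) (fun j hj => by
      have := hch.mon (i + j) (by omega)
      simpa [Nat.add_assoc] using this)).1
  simp only [Nat.add_zero] at h2
  rw [show i + (N - i) = N by omega, Nat.cast_sub hi] at h2
  refine ⟨h1, ?_⟩
  have h3 : (n : ℝ) * (t N - t 0) = n * (t N - t i) + n * (t i - t 0) := by ring
  have h4 : ((N : ℝ) - i) * π = N * π - i * π := by ring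
  rw [h4] at h2
  linarith

/-- the squares of the first gap and of the angle at the end point -/
theorem u3_first (hA1 : A1) (hA10 : A10) (hB1 : B1) {n : ℕ} {f : ℝ → ℝ}
    {t0 : ℝ} (hn : 2 ≤ n) (hf : TB n f) (hd0 : deriv f 0 = 0) (ht0 : 0 < t0)
    (hc : |f t0| = 1) (hmon : ∀ θ ∈ Ioo 0 t0, deriv f θ ≠ 0) :
    ∃ x : ℝ, 0 ≤ x ∧ x ≤ π ∧ |f t0 - f 0| = 1 + cos x ∧ |f 0| = |cos x| ∧
      π ^ 2 ≤ (n * t0) ^ 2 + x ^ 2 := by
  have hnR : (2 : ℝ) ≤ n := by exact_mod_cast hn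
  have hn0 : (0 : ℝ) < n := by linarith
  obtain ⟨σ, hσ, hσ2, hft⟩ : ∃ σ : ℝ, |σ| = 1 ∧ σ * σ = 1 ∧ f t0 = σ := by
    refine ⟨f t0, hc, ?_, rfl⟩
    rw [← abs_mul_abs_self, hc]
    norm_num
  have hf0 := abs_le.1 (hf.2 0)
  have hy : |-(σ * f 0)| ≤ 1 := by
    rw [abs_neg, abs_mul, hσ, one_mul]
    exact hf.2 0
  have hy2 := abs_le.1 hy
  have hcx : cos (arccos (-(σ * f 0))) = -(σ * f 0) := cos_arccos hy2.1 hy2.2
  refine ⟨arccos (-(σ * f 0)), arccos_nonneg _, arccos_le_pi _, ?_, ?_, ?_⟩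
  · rw [hcx, hft]
    have h1 : |σ - f 0| = |σ| * |σ - f 0| := by rw [hσ, one_mul]
    rw [h1, ← abs_mul]
    have h2 : σ * (σ - f 0) = 1 + -(σ * f 0) := by
      rw [mul_sub, hσ2]
      ring
    rw [h2]
    exact abs_of_nonneg (by linarith)
  · rw [hcx, abs_neg, abs_mul, hσ, one_mul]
  · rcases eq_or_lt_of_le hy2.1 with h1 | h1
    · rw [← h1, arccos_neg_one]
      nlinarith [sq_nonneg ((n : ℝ) * t0)]
    rcases eq_or_lt_of_le hy2.2 with h2 | h2
    · rw [h2, arccos_one]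
      have h3 := (hB1 n f 0 t0 (by omega) hf ht0.le hmon).1
      have h4 : f 0 = -σ := by
        have h5 : σ * (σ * f 0) = f 0 := by rw [← mul_assoc, hσ2, one_mul]
        have h6 : σ * f 0 = -1 := by linarith
        rw [← h5, h6]
        ring
      rw [hft, h4] at h3
      have h5 : |arccos σ - arccos (-σ)| = π := by
        rcases (abs_eq (by norm_num : (0 : ℝ) ≤ 1)).1 hσ with h6 | h6
        · rw [h6, arccos_one, arccos_neg_one, zero_sub, abs_neg, abs_of_pos pi_pos]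
        · rw [h6, neg_neg, arccos_one, arccos_neg_one, sub_zero, abs_of_pos pi_pos]
      rw [h5, sub_zero] at h3
      nlinarith [pi_pos]
    · set ψ := arccos (-(σ * f 0)) with hψ
      have hψ0 : 0 < ψ := arccos_pos.2 h2
      have hψ1 : ψ < π := by
        refine lt_of_le_of_ne (arccos_le_pi _) (fun h => ?_)
        rw [h, cos_pi] at hcx
        linarith
      have hTP := (hA1.1 n f hf.1).2.2.1 (-σ)
      have hTB : TB n (fun θ => -σ * f θ) := by
        refine ⟨hTP, fun θ => ?_⟩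
        rw [abs_mul, abs_neg, hσ, one_mul]
        exact hf.2 θ
      have hder : deriv (fun θ => -σ * f θ) 0 = -(n * (0 * sin ψ)) := by
        rw [deriv_const_mul_field, hd0]
        ring
      have h3 := hA10 n (fun θ => -σ * f θ) 0 ψ 0 (n * t0) hn hTB hψ0 hψ1 (by
          rw [hcx]
          ring) hder (by norm_num) (by positivity)
      have h4 : (0 : ℝ) + n * t0 / n = t0 := by
        field_simp
        ring
      rw [h4] at h3
      simp only [hft] at h3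
      have h5 : -σ * σ = -1 := by
        rw [neg_mul, hσ2]
      rw [h5] at h3
      have h6 : ((n : ℝ) * t0) ^ 2 + 2 * 0 * ψ * (n * t0) + ψ ^ 2 = (n * t0) ^ 2 + ψ ^ 2 := by ring
      rw [h6] at h3
      have h7 : min (√(((n : ℝ) * t0) ^ 2 + ψ ^ 2)) π = π := by
        by_contra hne
        have h8 : min (√(((n : ℝ) * t0) ^ 2 + ψ ^ 2)) π < π :=
          lt_of_le_of_ne (min_le_right _ _) hne
        have h9 : 0 ≤ min (√(((n : ℝ) * t0) ^ 2 + ψ ^ 2)) π :=
          le_min (Real.sqrt_nonneg _) pi_pos.le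
        have h10 := cos_lt_cos_of_nonneg_of_le_pi h9 le_rfl h8
        rw [cos_pi] at h10
        linarith
      have h8 : π ≤ √(((n : ℝ) * t0) ^ 2 + ψ ^ 2) := by
        rw [← h7]
        exact min_le_left _ _
      have h9 := pow_le_pow_left₀ pi_pos.le h8 2
      rw [Real.sq_sqrt (by positivity)] at h9
      exact h9

/-- the first gap is not small -/
theorem u3_gap (hA1 : A1) (hA2 : A2) {n : ℕ} {f : ℝ → ℝ} {t0 α : ℝ} (hn : 1 ≤ n) (hf : TB n f)
    (hd0 : deriv f 0 = 0) (ht0 : 0 < t0) (hα : t0 < α) (hdt : deriv f t0 = 0)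
    (hND : ND n f 0 α) : 1 / 1000 ≤ n * t0 := by
  have hn0 : (0 : ℝ) < n := by exact_mod_cast hn
  have h1 := hND 0 ⟨le_rfl, by linarith⟩ (by rw [hd0, abs_zero]; positivity)
  have hC2 : ContDiff ℝ 3 f := (hA1.1 n f hf.1).1 3
  have hd1 : Differentiable ℝ (deriv f) := by
    have := (hA1.1 n (deriv f) (hA1.1 n f hf.1).2.1).1 1
    exact this.differentiable (by norm_num)
  have hd2 : Differentiable ℝ (deriv (deriv f)) := by
    have := (hA1.1 n (deriv (deriv f))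
      (hA1.1 n (deriv f) (hA1.1 n f hf.1).2.1).2.1).1 1
    exact this.differentiable (by norm_num)
  obtain ⟨ξ, hξ, hξ2⟩ := exists_deriv_eq_zero ht0 hd1.continuous.continuousOn
    (by rw [hd0, hdt])
  have h2 := Convex.norm_image_sub_le_of_norm_deriv_le (f := deriv (deriv f)) (C := (n : ℝ) ^ 3)
    (s := univ) (x := ξ) (y := 0) (fun x _ => hd2 x) (fun x _ => by
      rw [Real.norm_eq_abs]
      exact ((hA2.1 n f hn hf).2 x).2.2.2.2) convex_univ (mem_univ _) (mem_univ _)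
  rw [hξ2, sub_zero, Real.norm_eq_abs, zero_sub, norm_neg, Real.norm_eq_abs,
    abs_of_pos hξ.1] at h2
  have h3 : (n : ℝ) ^ 2 / 1000 ≤ n ^ 3 * t0 :=
    h1.trans (h2.trans (mul_le_mul_of_nonneg_left hξ.2.le (by positivity)))
  have h4 : (n : ℝ) ^ 2 * (1 / 1000) ≤ n ^ 2 * (n * t0) := by
    calc (n : ℝ) ^ 2 * (1 / 1000) = n ^ 2 / 1000 := by ring
      _ ≤ n ^ 3 * t0 := h3
      _ = n ^ 2 * (n * t0) := by ring
  exact le_of_mul_le_mul_left h4 (by positivity)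

theorem u3_per (hVF6 : VF6) (y : ℝ) (N : ℕ) : VC (y + N * π) = VC y + 2 * N := by
  induction N with
  | zero => simp
  | succ N ih =>
    rw [Nat.cast_succ, show y + ((N : ℝ) + 1) * π = y + N * π + π by ring, hVF6.2.1, ih]
    ring

/-- the estimates for one polynomial -/
theorem u3_core (hA1 : A1) (hA2 : A2) (hA4 : A4) (hA10 : A10) (hB1 : B1) (hB5 : B5) (hB6 : B6)
    (hC1 : C1) (hC2 : C2) (hCH : CH) (hVF1 : VF1) (hVF3 : VF3) (hVF4 : VF4)
    (hVF6 : VF6) {n : ℕ} (hn : 1000 ≤ n) (hlam : (1 + Real.log n) / n ≤ 5 / 10 ^ 10)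
    {a : ℝ} {P : ℝ[X]} (ha1 : -1 ≤ a) (ha0 : a ≤ 0) (hE : Ext n a 1 P)
    (hgap : ∀ u v, 0 ≤ u → u ≤ v → v ≤ arccos a → (∀ θ ∈ Ioo u v, deriv (qq P) θ ≠ 0) →
      n * (v - u) ≤ 6)
    (hU1 : ND n (qq P) 0 (arccos a))
    (hU2 : ∀ θ ∈ Ioo 0 (arccos a), deriv (qq P) θ = 0 → |qq P θ| = 1) :
    ∃ (N : ℕ) (t : ℕ → ℝ), 1 ≤ N ∧ Chain (qq P) N t ∧ 0 < t 0 ∧ t N < arccos a ∧
    (∀ θ ∈ Ioo 0 (arccos a), deriv (qq P) θ = 0 → ∃ i ≤ N, t i = θ) ∧
    (∀ i ≤ N, |n * t i - ((i : ℝ) + 1) * π| ≤ 10 ^ 8 * √((1 + Real.log n) / n)) ∧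
    n * (arccos a - t N) ≤ π + 10 ^ 8 * √((1 + Real.log n) / n) ∧
    1 - 10 ^ 8 * ((1 + Real.log n) / n) ≤ |P.eval 1| := by
  have hp1 : 3.14 < π := pi_gt_d2
  have hp2 : π < 3.15 := pi_lt_d2
  have hnR : (1000 : ℝ) ≤ n := by exact_mod_cast hn
  have hn0 : (0 : ℝ) < n := by linarith
  have hn1 : 1 ≤ n := by omega
  have hdeg : P.natDegree ≤ n := natDegree_le_iff_degree_le.mpr hE.deg
  have hTB := hA2.2.1 n P hdeg hE.bdd
  have hα1 : arccos a ≤ π := arccos_le_pi a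
  have hα2 : π / 2 ≤ arccos a := by
    rw [← arccos_zero]
    exact arccos_le_arccos ha0
  have hinc : ∀ θ, deriv (qq P) θ = -(sin θ * P.derivative.eval (cos θ)) :=
    fun θ => (hA2.2.2 P θ).1
  have hne : ∃ θ, deriv (qq P) θ ≠ 0 := by
    by_contra hcon
    push Not at hcon
    have h1 := hU1 0 ⟨le_rfl, by linarith⟩ (by rw [hcon 0, abs_zero]; positivity)
    have h2 : deriv (qq P) = fun _ => 0 := funext hcon
    rw [h2, deriv_const, abs_zero] at h1
    have h3 : 0 < (n : ℝ) ^ 2 / 1000 := by positivity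
    linarith
  obtain ⟨N, t, hN, hch, ht0, htN, hall, hmon0, hmonN⟩ := u3_chain hA1 hA4 hCH hn1 hTB hne hα1 hU2
    hgap (by nlinarith)
  have hNR : (1 : ℝ) ≤ N := by exact_mod_cast hN
  have h0N : t 0 ≤ t N := u3_mono hch 0 N (by omega) le_rfl
  have hd00 : deriv (qq P) 0 = 0 := by
    rw [hinc, sin_zero]
    ring
  have hd0 : deriv (qq P) (t 0) = 0 := u3_crit hA2 hn1 hTB (hch.con 0 (Nat.zero_le _))
  have hdN : deriv (qq P) (t N) = 0 := u3_crit hA2 hn1 hTB (hch.con N le_rfl)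
  -- the rate
  have hlogn : 0 ≤ Real.log n := Real.log_nonneg (by linarith)
  set lam := (1 + Real.log n) / (n : ℝ) with hlamdef
  have hinv : 1 / (n : ℝ) ≤ lam := by
    rw [hlamdef]
    apply div_le_div_of_nonneg_right _ hn0.le
    linarith
  have hin : 0 < 1 / (n : ℝ) := by positivity
  have hin2 : 1 / (n : ℝ) ≤ 1 / 1000 := one_div_le_one_div_of_le (by norm_num) hnR
  have hlam0 : 0 < lam := by linarith
  have hr0 : 0 < √lam := Real.sqrt_pos.2 hlam0
  have hrr : √lam * √lam = lam := Real.mul_self_sqrt hlam0.le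
  have hlam1 : lam ≤ 1 := by
    norm_num at hlam
    linarith
  have hr1 : √lam ≤ 1 := by
    rw [← Real.sqrt_one]
    exact Real.sqrt_le_sqrt hlam1
  have hlr : lam ≤ √lam := by
    calc lam = √lam * √lam := hrr.symm
      _ ≤ √lam * 1 := mul_le_mul_of_nonneg_left hr1 hr0.le
      _ = √lam := by ring
  have h3lam : 3 * (1 + Real.log n) / (n : ℝ) ^ 2 ≤ 3 * lam := by
    have h1 : 3 * (1 + Real.log n) / (n : ℝ) ^ 2 = 3 * lam * (1 / n) := by
      rw [hlamdef]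
      field_simp
    rw [h1]
    calc 3 * lam * (1 / n) ≤ 3 * lam * 1 :=
        mul_le_mul_of_nonneg_left (by linarith) (by positivity)
      _ = 3 * lam := by ring
  have her : er n = 60 * lam := by
    unfold er
    rw [hlamdef]
    ring
  -- the gaps
  have hg0a := hgap 0 (t 0) le_rfl ht0.le (by linarith) hmon0
  have hgNa := hgap (t N) (arccos a) (by linarith) htN.le le_rfl hmonN
  have hg0b := u3_gap hA1 hA2 hn1 hTB hd00 ht0 (by linarith) hd0 hU1
  obtain ⟨x, hx0, hx1, hdiff, hq0, hsq⟩ := u3_first hA1 hA10 hB1 (by omega) hTB hd00 ht0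
    (hch.con 0 (Nat.zero_le _)) hmon0
  have hlagN := u3_lag hB6 hn1 hTB hch N le_rfl
  obtain ⟨hl1, hl2⟩ := hB6 n N (qq P) t hn1 hTB hch.inc hch.con hch.mon
  have hB1a := (hB1 n (qq P) 0 (t 0) hn1 hTB ht0.le hmon0).2.2
  have hB1b := (hB1 n (qq P) (t N) (arccos a) hn1 hTB htN.le hmonN).2.2
  have hB5b := hB5 n (qq P) (t N) (arccos a) (by omega) hTB htN.le (by linarith) (Or.inl hdN)
  have hup := (hC1 P a 1 ha1 (by linarith) le_rfl).2
  have hlow := hC2 n a 1 P hn1 ha1 (by linarith) le_rfl hE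
  rw [arccos_one] at hup hlow
  rw [mul_zero] at hlow
  have hlow2 : VC (n * arccos a) ≤ arc a 1 P := hlow
  have hadd1 := u3_add hA2 P 0 (t 0) (t N)
  have hadd2 := u3_add hA2 P 0 (t N) (arccos a)
  have hNn : (N : ℝ) ≤ n := by
    have h1 : (n : ℝ) * (t N - t 0) ≤ n * π := by
      apply mul_le_mul_of_nonneg_left _ hn0.le
      linarith
    exact le_of_mul_le_mul_right (hl1.trans h1) pi_pos
  have hkk : (N : ℝ) * kk n ≤ 10 * lam := by
    have h1 : kk n = 10 * lam / n := by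
      unfold kk
      rw [hlamdef]
      field_simp
    rw [h1]
    have h2 : (0 : ℝ) ≤ 10 * lam / n := by positivity
    calc (N : ℝ) * (10 * lam / n) ≤ n * (10 * lam / n) := mul_le_mul_of_nonneg_right hNn h2
      _ = 10 * lam := by field_simp
  set g0 := (n : ℝ) * t 0 with hg0
  set gN := (n : ℝ) * (arccos a - t N) with hgN
  set l := (n : ℝ) * (t N - t 0) - N * π with hl
  have hl0 : 0 ≤ l := by linarith
  have hgN0 : 0 ≤ gN := mul_nonneg hn0.le (by linarith)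
  have hlw : (t N - t 0) - N * π / n = l * (1 / n) := by
    rw [hl]
    field_simp
  rw [hlw] at hl2
  have hsum : (n : ℝ) * arccos a = gN + (g0 + l) + N * π := by
    rw [hg0, hgN, hl]
    ring
  rw [hsum, u3_per hVF6] at hlow2
  have ht06 : t 0 ≤ 6 * (1 / n) := by
    rw [mul_one_div, le_div_iff₀ hn0]
    rw [sub_zero] at hg0a
    linarith
  have htN6 : arccos a - t N ≤ 6 * (1 / n) := by
    rw [mul_one_div, le_div_iff₀ hn0]
    linarith
  have habs1 : 0 ≤ |arccos (qq P (t 0)) - arccos (qq P 0)| / n := by positivity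
  have habs2 : 0 ≤ |arccos (qq P (arccos a)) - arccos (qq P (t N))| / n := by positivity
  have hA : VC (gN + (g0 + l)) - VC gN ≤ 1 + cos x + l * (1 / n) + 79 * lam := by
    rw [her] at hB5b
    linarith
  have hcx : cos x ≤ 1 := cos_le_one x
  have hL4 : g0 + l ≤ 4 := by
    have h1 := hVF3 gN (g0 + l) (by linarith)
    rw [hVF6.2.2.2.2] at h1
    have h2 : 0.634 * (g0 + l) ≤ 2 / π * (g0 + l) := by
      apply mul_le_mul_of_nonneg_right _ (by linarith)
      rw [le_div_iff₀ pi_pos]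
      linarith
    have h3 : l * (1 / n) ≤ (g0 + l) * (1 / 1000) :=
      mul_le_mul (by linarith) hin2 hin.le (by linarith)
    have h4 := hVF1.2
    norm_num at hlam h4 h2
    linarith
  have hln : l * (1 / n) ≤ 4 * lam :=
    mul_le_mul (by linarith) hinv hin.le (by norm_num)
  obtain ⟨hxs, hLs⟩ := u3_case hVF4 hVF6 g0 l gN x lam hlam0 hlam hg0b hl0 hL4 hx0 hx1 hsq
    (by linarith)
  have hg0pi : π - 5 * 10 ^ 7 * lam ≤ g0 := by
    rcases le_total π g0 with h1 | h1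
    · have : 0 ≤ 5 * 10 ^ 7 * lam := by positivity
      linarith
    · have h2 : (π - g0) * 1 ≤ (π - g0) * (π + g0) :=
        mul_le_mul_of_nonneg_left (by linarith) (by linarith)
      have h3 : (π - g0) * (π + g0) = π ^ 2 - g0 ^ 2 := by ring
      rw [h3] at h2
      linarith
  refine ⟨N, t, hN, hch, ht0, htN, hall, ?_, ?_, ?_⟩
  · intro i hi
    obtain ⟨h1, h2⟩ := u3_lag hB6 hn1 hTB hch i hi
    rw [← hl] at h2
    have h3 : (n : ℝ) * t i = g0 + n * (t i - t 0) := by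
      rw [hg0]
      ring
    rw [abs_le, h3]
    norm_num at hg0pi ⊢
    constructor
    · linarith
    · linarith
  · rcases le_total gN π with h1 | h1
    · have : 0 ≤ 10 ^ 8 * √lam := by positivity
      linarith
    · have h2 : |qq P (arccos a) - qq P (t N)| ≤ 2 := by
        have h3 := abs_le.1 (hTB.2 (arccos a))
        have h4 := abs_le.1 (hTB.2 (t N))
        rw [abs_le]
        constructor
        · linarith
        · linarith
      have h3 : VC (gN + (g0 + l)) ≤ 4 + 32 * lam := by linarith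
      have h4 := hVF6.1 (show gN + π ≤ gN + (g0 + l) + 5 * 10 ^ 7 * lam by linarith)
      have h5 := hVF6.2.2.1 (gN + (g0 + l) + 5 * 10 ^ 7 * lam) (gN + (g0 + l))
      rw [show gN + (g0 + l) + 5 * 10 ^ 7 * lam - (gN + (g0 + l)) = 5 * 10 ^ 7 * lam by ring,
        abs_of_nonneg (by positivity : (0 : ℝ) ≤ 5 * 10 ^ 7 * lam)] at h5
      have h6 := (le_abs_self _).trans h5
      have h7 : VC (gN + π) = VC (gN - π) + 4 := by
        rw [show gN + π = (gN - π) + π + π by ring, hVF6.2.1, hVF6.2.1]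
        ring
      have h8 := hVF6.2.2.2.1 (gN - π) (by linarith) (by linarith)
      have h9 := u3_cosq (gN - π) (by linarith) (by linarith)
      have h10 : (gN - π) ^ 2 ≤ (10 ^ 8 * √lam) ^ 2 := by
        rw [mul_pow, Real.sq_sqrt hlam0.le]
        norm_num at h4 h6 ⊢
        linarith
      have h11 := le_of_sq_le_sq h10 (by positivity)
      linarith
  · have h1 : P.eval 1 = qq P 0 := by
      unfold qq
      rw [cos_zero]
    rw [h1, hq0]
    have h2 : 1 - x ^ 2 / 2 ≤ cos x := one_sub_sq_div_two_le_cos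
    have h3 := le_abs_self (cos x)
    norm_num at hxs ⊢
    linarith

/-- the chain of critical points is nearly perfect -/
theorem u3 (hA1 : A1) (hA2 : A2) (hA4 : A4) (hA10 : A10) (hB1 : B1) (hB5 : B5) (hB6 : B6)
    (hC1 : C1) (hC2 : C2) (hCH : CH) (hE2 : E2) (hU1 : U1) (hU2 : U2) (hVF1 : VF1)
    (_hVF2 : VF2) (hVF3 : VF3) (hVF4 : VF4) (hVF6 : VF6) : U3 := by
  obtain ⟨nE, hE2⟩ := hE2
  obtain ⟨n1, hU1⟩ := hU1
  obtain ⟨n2, hU2⟩ := hU2
  obtain ⟨n3, -, hl⟩ := u3_lam (5 / 10 ^ 10) (by norm_num)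
  refine ⟨10 ^ 8, by norm_num, nE + n1 + n2 + n3 + 1000, fun n hn a P ha1 ha0 hE => ?_⟩
  refine u3_core hA1 hA2 hA4 hA10 hB1 hB5 hB6 hC1 hC2 hCH hVF1 hVF3 hVF4 hVF6 (by omega)
    (hl n (by omega)) ha1 ha0 hE ?_ (hU1 n (by omega) a P ha1 ha0 hE)
    (fun θ hθ hd => hU2 n (by omega) a θ P ha1 ha0 hE hθ hd)
  intro u v hu huv hv hd
  exact hE2 n a 1 u v P (by omega) ha1 (by linarith) le_rfl hE (by rw [arccos_one]; exact hu) huv
    hv hd

end

end Pool.Agent.Helper10.AL
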