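import Pool.Agent.Helper10.AL.St7
import Pool.Agent.Helper10.AL.P.U3

/-!
Arc length of polynomials, piece CHe: the chain of all critical points in a large window.
-/

set_option autoImplicit false

namespace Pool.Agent.Helper10.AL

open Polynomial Set Real MeasureTheory intervalIntegral
open Pool.Agent.Helper40.AS (arc Bdd Ext quad)

noncomputable section

theorem cHe_chain (hA1 : A1) (hA4 : A4) (hCH : CH) {n : ℕ} {f : ℝ → ℝ} {β α : ℝ} (hn : 1 ≤ n)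
    (hf : TB n f) (hne : ∃ θ, deriv f θ ≠ 0) (hβ : 0 ≤ β) (hβα : β < α) (hα : α ≤ π)
    (hcon : ∀ θ ∈ Ioo β α, deriv f θ = 0 → |f θ| = 1)
    (hgap : ∀ u v, β ≤ u → u ≤ v → v ≤ α → (∀ θ ∈ Ioo u v, deriv f θ ≠ 0) → n * (v - u) ≤ 6)
    (hlarge : 20 ≤ n * (α - β)) : ∃ (N : ℕ) (t : ℕ → ℝ), 1 ≤ N ∧ Chain f N t ∧ β < t 0 ∧
      t N < α ∧ (∀ θ ∈ Ioo β α, deriv f θ = 0 → ∃ i ≤ N, t i = θ) ∧
      (∀ θ ∈ Ioo β (t 0), deriv f θ ≠ 0) ∧ (∀ θ ∈ Ioo (t N) α, deriv f θ ≠ 0) := by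
  have hn0 : (0 : ℝ) < n := by exact_mod_cast hn
  have hTP : TP n (deriv f) := (hA1.1 n f hf.1).2.1
  set S : Set ℝ := {θ | θ ∈ Ioo β α ∧ deriv f θ = 0} with hS
  have hfin : S.Finite := by
    apply (hA4 n (deriv f) 0 hTP hne).1.subset
    intro θ hθ
    exact ⟨⟨by linarith [hθ.1.1], by linarith [hθ.1.2, pi_pos]⟩, hθ.2⟩
  have hex : ∀ u v, β ≤ u → u ≤ v → v ≤ α → 6 < n * (v - u) → ∃ θ ∈ S, u < θ ∧ θ < v := by
    intro u v h1 h2 h3 h4
    by_contra hc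
    push Not at hc
    have := hgap u v h1 h2 h3 (fun θ hθ hd => by
      have := hc θ ⟨⟨by linarith [hθ.1], by linarith [hθ.2]⟩, hd⟩ hθ.1
      linarith [hθ.2])
    linarith
  obtain ⟨θ1, hθ1, hθ1a, hθ1b⟩ := hex β ((β + α) / 2) le_rfl (by linarith) (by linarith) (by
    rw [show (n : ℝ) * ((β + α) / 2 - β) = n * (α - β) / 2 by ring]
    linarith)
  obtain ⟨θ2, hθ2, hθ2a, hθ2b⟩ := hex ((β + α) / 2) α (by linarith) (by linarith) le_rfl (by
    rw [show (n : ℝ) * (α - (β + α) / 2) = n * (α - β) / 2 by ring]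
    linarith)
  obtain ⟨u, hu, humin⟩ := Set.exists_min_image S id hfin ⟨θ1, hθ1⟩
  obtain ⟨v, hv, hvmax⟩ := Set.exists_max_image S id hfin ⟨θ1, hθ1⟩
  simp only [id] at humin hvmax
  have huv : u < v := by
    have h1 := humin θ1 hθ1
    have h2 := hvmax θ2 hθ2
    linarith
  obtain ⟨N, t, hN, ht0, htN, hch⟩ := hCH n f u v hn hf hne huv hu.2 hv.2 (fun θ hθ hd =>
    hcon θ ⟨lt_of_lt_of_le hu.1.1 hθ.1, lt_of_le_of_lt hθ.2 hv.1.2⟩ hd)
  refine ⟨N, t, hN, hch, by rw [ht0]; exact hu.1.1, by rw [htN]; exact hv.1.2, ?_, ?_, ?_⟩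
  · intro θ hθ hd
    apply u3_mem hch θ _ hd N le_rfl
    · rw [htN]
      exact hvmax θ ⟨hθ, hd⟩
    · rw [ht0]
      exact humin θ ⟨hθ, hd⟩
  · intro θ hθ hd
    rw [ht0] at hθ
    have := humin θ ⟨⟨hθ.1, by linarith [hθ.2, hu.1.2]⟩, hd⟩
    linarith [hθ.2]
  · intro θ hθ hd
    rw [htN] at hθ
    have := hvmax θ ⟨⟨by linarith [hθ.1, hv.1.1], hθ.2⟩, hd⟩
    linarith [hθ.1]

/-- the chain of all critical points in the window -/
theorem cHe (hA1 : A1) (hA2 : A2) (hA4 : A4) (hCH : CH) (hE2 : E2) (hE6e : E6e) (hE8e : E8e) :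
    CHe := by
  obtain ⟨nE, hE2⟩ := hE2
  obtain ⟨R6, hR6, n6, hE6⟩ := hE6e
  obtain ⟨R8, hR8, n8, hE8⟩ := hE8e
  refine ⟨R6 + R8 + 30, by linarith, nE + n6 + n8 + 1, fun n hn a b P hW hE => ?_⟩
  obtain ⟨ha, hab, hb, hR⟩ := hW
  have hn1 : 1 ≤ n := by omega
  have hn0 : (0 : ℝ) < n := by exact_mod_cast hn1
  have hW6 : Wd n R6 a b := ⟨ha, hab, hb, by linarith⟩
  have hW8 : Wd n R8 a b := ⟨ha, hab, hb, by linarith⟩
  have hND := hE6 n (by omega) a b P hW6 hE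
  have hdeg : P.natDegree ≤ n := natDegree_le_iff_degree_le.mpr hE.deg
  have hTB := hA2.2.1 n P hdeg hE.bdd
  have hβα : arccos b < arccos a := by
    by_contra h
    have := mul_nonpos_of_nonneg_of_nonpos hn0.le (sub_nonpos.2 (not_lt.1 h))
    linarith
  have hne : ∃ θ, deriv (qq P) θ ≠ 0 := by
    by_contra hcon
    push Not at hcon
    have h1 := hND (arccos b) ⟨le_rfl, hβα.le⟩ (by rw [hcon (arccos b), abs_zero]; positivity)
    have h2 : deriv (qq P) = fun _ => 0 := funext hcon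
    rw [h2, deriv_const, abs_zero] at h1
    have h3 : 0 < (n : ℝ) ^ 2 / 1000 := by positivity
    linarith
  have hgap : ∀ u v, arccos b ≤ u → u ≤ v → v ≤ arccos a →
      (∀ θ ∈ Ioo u v, deriv (qq P) θ ≠ 0) → n * (v - u) ≤ 6 := fun u v hu huv hv hd =>
    hE2 n a b u v P (by omega) ha hab hb hE hu huv hv hd
  obtain ⟨N, t, hN, hch, ht0, htN, hall, hmon0, hmonN⟩ := cHe_chain hA1 hA4 hCH hn1 hTB hne
    (arccos_nonneg b) hβα (arccos_le_pi a)
    (fun θ hθ hd => hE8 n (by omega) a b θ P hW8 hE hθ hd) hgap (by linarith)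
  have h0N : t 0 ≤ t N := u3_mono hch 0 N (by omega) le_rfl
  refine ⟨N, t, hN, hch, ht0, htN, hall, ?_, ?_, ?_⟩
  · exact hgap _ _ le_rfl ht0.le (by linarith) hmon0
  · exact hgap _ _ (by linarith) htN.le le_rfl hmonN
  · intro i hi
    have h1 : t 0 ≤ t i := u3_mono hch 0 i (by omega) (by omega)
    have h2 : t (i + 1) ≤ t N := u3_mono hch (i + 1) N (by omega) le_rfl
    exact hgap _ _ (by linarith) (hch.inc i hi).le (by linarith) (hch.mon i hi)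

end

end Pool.Agent.Helper10.AL
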