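import Pool.Agent.Helper10.AL.St2

/-!
Project AL, piece CL1: comparison of the arc length with a Zolotarev polynomial.
-/

set_option autoImplicit false

namespace Pool.Agent.Helper10.AL

open Polynomial Set Real MeasureTheory intervalIntegral
open Pool.Agent.Helper40.AS (arc Bdd Ext)

noncomputable section

/-- the variation over an interval is at least the difference of the values -/
theorem cL1_ge {f : ℝ → ℝ} (hf : ContDiff ℝ 1 f) {u v : ℝ} (huv : u ≤ v) :
    |f v - f u| ≤ Va f u v := by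
  unfold Va
  have hc : Continuous (deriv f) := hf.continuous_deriv le_rfl
  have h1 : ∫ θ in u..v, deriv f θ = f v - f u := by
    refine integral_deriv_eq_sub (fun x _ => ?_) (hc.intervalIntegrable _ _)
    exact (hf.differentiable one_ne_zero) x
  rw [← h1]
  exact abs_integral_le_integral_abs huv

theorem cL1_add {f : ℝ → ℝ} (hf : ContDiff ℝ 1 f) (u v w : ℝ) :
    Va f u w = Va f u v + Va f v w := by
  unfold Va
  have hc : Continuous fun θ => |deriv f θ| := (hf.continuous_deriv le_rfl).abs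
  exact (integral_add_adjacent_intervals (hc.intervalIntegrable _ _)
    (hc.intervalIntegrable _ _)).symm

theorem cL1_chain {f : ℝ → ℝ} (hf : ContDiff ℝ 1 f) (s : ℕ → ℝ) : ∀ N : ℕ,
    (∀ i < N, s i ≤ s (i + 1)) → (∀ i ≤ N, f (s i) = (-1) ^ i) →
    2 * (N : ℝ) ≤ Va f (s 0) (s N) := by
  intro N
  induction N with
  | zero =>
    intro _ _
    have h := cL1_ge hf (le_refl (s 0))
    simp only [sub_self, abs_zero] at h
    simpa using h
  | succ N ih =>
    intro h1 h2
    have h3 := ih (fun i hi => h1 i (by omega)) (fun i hi => h2 i (by omega))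
    have h4 := cL1_ge hf (h1 N (by omega))
    rw [cL1_add hf (s 0) (s N) (s (N + 1))]
    have h5 : |f (s (N + 1)) - f (s N)| = 2 := by
      rw [h2 (N + 1) le_rfl, h2 N (by omega)]
      rcases neg_one_pow_eq_or ℝ N with h6 | h6
      · rw [pow_succ, h6]
        norm_num
      · rw [pow_succ, h6]
        norm_num
    rw [h5] at h4
    push_cast
    linarith

/-- consecutive contact points of a chain have opposite values -/
theorem cL1_alt {f : ℝ → ℝ} (hf : ContDiff ℝ 1 f) {N : ℕ} {t : ℕ → ℝ} (hC : Chain f N t)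
    (h0 : f (t 0) = 1) : ∀ i ≤ N, f (t i) = (-1) ^ i := by
  intro i
  induction i with
  | zero =>
    intro _
    simpa using h0
  | succ i ih =>
    intro hi
    have h1 := ih (by omega)
    have h2 := hC.con (i + 1) hi
    have h3 : f (t (i + 1)) ≠ f (t i) := by
      intro h4
      obtain ⟨c, hc, hc0⟩ := exists_deriv_eq_zero (hC.inc i (by omega))
        hf.continuous.continuousOn h4.symm
      exact hC.mon i (by omega) c hc hc0
    rw [h1] at h3
    rw [pow_succ]
    rcases neg_one_pow_eq_or ℝ i with h6 | h6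
    · rw [h6] at h3 ⊢
      rcases (abs_eq zero_le_one).1 h2 with h7 | h7
      · exact absurd h7 h3
      · rw [h7]
        norm_num
    · rw [h6] at h3 ⊢
      rcases (abs_eq zero_le_one).1 h2 with h7 | h7
      · rw [h7]
        norm_num
      · exact absurd h7 h3

/-- the contact set is finite -/
theorem cL1_fin {Z : ℝ[X]} {x0 : ℝ} (hZ : Z.eval x0 = 0) {u v : ℝ} (hu : 0 ≤ u) (hv : v ≤ π) :
    {θ | θ ∈ Icc u v ∧ |qq Z θ| = 1}.Finite := by
  have hne : Z ^ 2 - 1 ≠ 0 := by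
    intro h
    have h1 := congrArg (eval x0) h
    simp [hZ] at h1
  have hfin : {x | (Z ^ 2 - 1).eval x = 0}.Finite := by
    refine ((Z ^ 2 - 1).roots.toFinset.finite_toSet).subset ?_
    intro x hx
    simp only [Finset.mem_coe, Multiset.mem_toFinset]
    rw [mem_roots hne]
    exact hx
  refine Finite.of_finite_image (f := cos) (hfin.subset ?_) ?_
  · rintro _ ⟨θ, ⟨_, h2⟩, rfl⟩
    show (Z ^ 2 - 1).eval (cos θ) = 0
    unfold qq at h2
    have h3 : (Z.eval (cos θ)) ^ 2 = 1 := by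
      rw [← sq_abs, h2]
      norm_num
    simp [h3]
  · intro θ hθ τ hτ h
    exact injOn_cos ⟨hu.trans hθ.1.1, hθ.1.2.trans hv⟩ ⟨hu.trans hτ.1.1, hτ.1.2.trans hv⟩ h

theorem cL1_main (hA1 : A1) (hA2 : A2) (hC1 : C1) (hD1 : D1) (hD3 : D3) (hD3r : D3r) (hD4 : D4)
    (hVF6 : VF6) {δ K : ℝ} (hδ : 0 < δ) (hK : 0 < K) {n : ℕ} (hn2 : 2 ≤ n) (hnK : K ≤ n)
    (hD2 : ∀ x0 Z, Zol n x0 Z → ∀ x ∈ Icc (-1 + δ) (1 - δ),
      (n : ℝ) ^ 2 * (1 - Z.eval x ^ 2) - (1 - x ^ 2) * Z.derivative.eval x ^ 2 ≤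
        K * n * (1 - Z.eval x ^ 2))
    {a b : ℝ} {P : ℝ[X]} {N : ℕ} {t : ℕ → ℝ} (hM : Mid δ a b) (hE : Ext n a b P) (hN : 1 ≤ N)
    (ht0 : arccos b ≤ t 0) (htN : t N ≤ arccos a) (hC : Chain (qq P) N t)
    (h1 : qq P (t 0) = 1) :
    2 * N + VC ((n - K) * (arccos a - t N)) + VC ((n - K) * (t 0 - arccos b)) ≤ arc a b P := by
  obtain ⟨hM1, hM2, hM3⟩ := hM
  have hn1 : 1 ≤ n := by omega
  have hPn : P.natDegree ≤ n := natDegree_le_iff_degree_le.2 hE.deg
  have hTP := (hA2.2.1 n P hPn hE.bdd)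
  have hcP : ContDiff ℝ 1 (qq P) := (hA1.1 n (qq P) hTP.1).1 1
  have halt := cL1_alt hcP hC h1
  have hmono : ∀ i j, i ≤ j → j ≤ N → t i ≤ t j := by
    intro i j hij
    induction hij with
    | refl =>
      intro _
      exact le_rfl
    | step hij ih =>
      intro hj
      exact (ih (by omega)).trans (hC.inc _ (by omega)).le
  have hab : a < b := by linarith
  have ha1 : -1 ≤ a := by linarith
  have hb1 : b ≤ 1 := by linarith
  have hβ0 : 0 ≤ arccos b := arccos_nonneg b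
  have hαπ : arccos a ≤ π := arccos_le_pi a
  -- the zero
  have h01 : t 0 < t 1 := hC.inc 0 (by omega)
  obtain ⟨θ0, hθ0, hθ00⟩ : ∃ θ0 ∈ Ioo (t 0) (t 1), qq P θ0 = 0 := by
    have h2 : qq P (t 1) = -1 := by
      rw [halt 1 hN]
      norm_num
    have h3 := intermediate_value_Ioo' h01.le hcP.continuous.continuousOn
    have h4 : (0 : ℝ) ∈ Ioo (qq P (t 1)) (qq P (t 0)) := by
      rw [h1, h2]
      constructor <;> norm_num
    obtain ⟨θ, h5, h6⟩ := h3 h4
    exact ⟨θ, h5, h6⟩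
  have ht1N : t 1 ≤ t N := hmono 1 N hN le_rfl
  have ht00 : 0 ≤ t 0 := hβ0.trans ht0
  have htNπ : t N ≤ π := htN.trans hαπ
  have hθpos : 0 < θ0 := lt_of_le_of_lt ht00 hθ0.1
  have hθπ : θ0 < π := lt_of_lt_of_le (hθ0.2.trans_le ht1N) htNπ
  have hmem : ∀ i ≤ N, t i ∈ Icc (0 : ℝ) π := fun i hi =>
    ⟨ht00.trans (hmono 0 i (Nat.zero_le _) hi), (hmono i N hi le_rfl).trans htNπ⟩
  have hx0 : cos θ0 ∈ Ioo (-1 : ℝ) 1 := by
    constructor
    · rw [← cos_pi]
      exact strictAntiOn_cos ⟨hθpos.le, hθπ.le⟩ ⟨pi_pos.le, le_rfl⟩ hθπ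
    · rw [← cos_zero]
      exact strictAntiOn_cos ⟨le_rfl, pi_pos.le⟩ ⟨hθpos.le, hθπ.le⟩ hθpos
  obtain ⟨Z, hZ⟩ := hD1 n (cos θ0) hn1 hx0
  -- left side
  obtain ⟨T, hT0, hT1, hT2, hT3⟩ := hD3 n N (cos θ0) Z P
    (fun i => if i = 0 then cos θ0 else cos (t i)) hn2 hZ hPn hE.bdd hθ00 (by simp) (by
      intro i hi
      by_cases hi0 : i = 0
      · subst hi0
        simp only [zero_add, one_ne_zero, if_false, if_true]
        exact strictAntiOn_cos ⟨hθpos.le, hθπ.le⟩ (hmem 1 hN) hθ0.2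
      · simp only [hi0, if_false, Nat.succ_ne_zero]
        exact strictAntiOn_cos (hmem i hi.le) (hmem (i + 1) hi) (hC.inc i hi)) (by
      split_ifs
      · exact neg_one_le_cos _
      · exact neg_one_le_cos _) (by
      intro i hi hiN
      have hi0 : i ≠ 0 := by omega
      simp only [hi0, if_false]
      exact halt i hiN)
  -- right side
  obtain ⟨T', hT'0, hT'1, hT'2, hT'3⟩ := hD3r n 1 (cos θ0) Z P
    (fun i => if i = 0 then cos θ0 else cos (t 0)) hn2 hZ hPn hE.bdd hθ00 (by simp) (by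
      intro i hi
      have hi0 : i = 0 := by omega
      subst hi0
      simp only [zero_add, one_ne_zero, if_false, if_true]
      exact strictAntiOn_cos (hmem 0 (Nat.zero_le _)) ⟨hθpos.le, hθπ.le⟩ hθ0.1) (by
      simp only [one_ne_zero, if_false]
      exact cos_le_one _) (by
      intro i hi hi1
      have hi0 : i = 1 := by omega
      subst hi0
      simp only [one_ne_zero, if_false]
      have h2 : P.eval (cos (t 0)) = 1 := h1
      rw [h2]
      norm_num)
  have hT'a : cos θ0 < T' 1 := by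
    have h2 := hT'1 0 one_pos
    rw [hT'0] at h2
    exact h2
  have hT'b : T' 1 ≤ cos (t 0) := by
    have h2 := hT'2 1 le_rfl
    simpa using h2
  have hT'c : Z.eval (T' 1) = 1 := by
    rw [hT'3 1 le_rfl le_rfl]
    norm_num
  have hTle : ∀ i ≤ N, T i ≤ cos θ0 := by
    intro i
    induction i with
    | zero =>
      intro _
      rw [hT0]
    | succ i ih =>
      intro hi
      exact (hT1 i (by omega)).le.trans (ih (by omega))
  have hTge : ∀ i ≤ N, -1 ≤ T i := by
    intro i hi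
    refine le_trans ?_ (hT2 i hi)
    split_ifs
    · exact neg_one_le_cos _
    · exact neg_one_le_cos _
  have hT'd : T' 1 ≤ 1 := hT'b.trans (cos_le_one _)
  have hT'e : -1 ≤ T' 1 := (neg_one_le_cos _).trans hT'a.le
  -- the points for `Z`
  set s : ℕ → ℝ := fun i => if i = 0 then arccos (T' 1) else arccos (T i) with hs
  have hs0 : s 0 = arccos (T' 1) := by simp [hs]
  have hsi : ∀ i, 1 ≤ i → s i = arccos (T i) := by
    intro i hi
    have hi0 : i ≠ 0 := by omega
    simp [hs, hi0]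
  have hsinc : ∀ i < N, s i ≤ s (i + 1) := by
    intro i hi
    rw [hsi (i + 1) (by omega)]
    by_cases hi0 : i = 0
    · subst hi0
      rw [hs0]
      exact antitone_arccos ((hTle 1 hN).trans hT'a.le)
    · rw [hsi i (by omega)]
      exact antitone_arccos (hT1 i hi).le
  have hZcd : ∀ i ≤ N, qq Z (s i) = (-1) ^ i := by
    intro i hi
    unfold qq
    by_cases hi0 : i = 0
    · subst hi0
      rw [hs0, cos_arccos hT'e hT'd, hT'c, pow_zero]
    · rw [hsi i (by omega), cos_arccos (hTge i hi) ((hTle i hi).trans (cos_le_one _))]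
      exact hT3 i (by omega) hi
  have hTZ := hA2.2.1 n Z hZ.deg hZ.bdd
  have hcZ : ContDiff ℝ 1 (qq Z) := (hA1.1 n (qq Z) hTZ.1).1 1
  have hmid := cL1_chain hcZ s N hsinc hZcd
  have ht0s : t 0 ≤ s 0 := by
    rw [hs0, ← arccos_cos (hmem 0 (Nat.zero_le _)).1 (hmem 0 (Nat.zero_le _)).2]
    exact antitone_arccos hT'b
  have hsNt : s N ≤ t N := by
    rw [hsi N hN, ← arccos_cos (hmem N le_rfl).1 (hmem N le_rfl).2]
    refine antitone_arccos ?_
    have h2 := hT2 N le_rfl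
    have hN0 : N ≠ 0 := by omega
    simpa [hN0] using h2
  have hβs : arccos b ≤ s 0 := ht0.trans ht0s
  have hsα : s N ≤ arccos a := hsNt.trans htN
  have hs0N : s 0 ≤ s N := by
    have h2 : ∀ i ≤ N, s 0 ≤ s i := by
      intro i
      induction i with
      | zero =>
        intro _
        exact le_rfl
      | succ i ih =>
        intro hi
        exact (ih (by omega)).trans (hsinc i (by omega))
    exact h2 N le_rfl
  -- fast
  have hfast : ∀ θ ∈ Icc (arccos b) (arccos a), (n - K) * √(1 - qq Z θ ^ 2) ≤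
      |deriv (qq Z) θ| := by
    intro θ hθ
    have hθ0' : 0 ≤ θ := hβ0.trans hθ.1
    have hθπ' : θ ≤ π := hθ.2.trans hαπ
    have hx1 : a ≤ cos θ := by
      have h2 := antitoneOn_cos ⟨hθ0', hθπ'⟩ ⟨arccos_nonneg a, hαπ⟩ hθ.2
      rwa [cos_arccos ha1 (by linarith)] at h2
    have hx2 : cos θ ≤ b := by
      have h2 := antitoneOn_cos ⟨hβ0, arccos_le_pi b⟩ ⟨hθ0', hθπ'⟩ hθ.1
      rwa [cos_arccos (by linarith) hb1] at h2
    have h2 := hD2 (cos θ0) Z hZ (cos θ) ⟨by linarith, by linarith⟩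
    have h3 := (hA2.2.2 Z θ).1
    have h4 : |deriv (qq Z) θ| = √((1 - cos θ ^ 2) * Z.derivative.eval (cos θ) ^ 2) := by
      rw [h3, ← sin_sq, ← mul_pow, sqrt_sq_eq_abs, abs_neg]
    have h5 : 0 ≤ 1 - qq Z θ ^ 2 := by
      have h6 := hTZ.2 θ
      have h7 : qq Z θ ^ 2 ≤ 1 := by
        rw [← sq_abs]
        exact pow_le_one₀ (abs_nonneg _) h6
      linarith
    have hnK0 : 0 ≤ (n : ℝ) - K := by linarith
    rw [h4]
    have h6 : (n - K) * √(1 - qq Z θ ^ 2) = √((n - K) ^ 2 * (1 - qq Z θ ^ 2)) := by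
      rw [sqrt_mul (sq_nonneg _), sqrt_sq hnK0]
    rw [h6]
    refine sqrt_le_sqrt ?_
    have h7 : Z.eval (cos θ) = qq Z θ := rfl
    rw [h7] at h2
    have h8 : 0 ≤ (K * n - K ^ 2) * (1 - qq Z θ ^ 2) := by
      refine mul_nonneg ?_ h5
      nlinarith
    nlinarith
  have hnK0 : 0 ≤ (n : ℝ) - K := by linarith
  have hR := hD4 (qq Z) (s N) (arccos a) (n - K) hcZ hTZ.2 hnK0 hsα
    (fun θ hθ => hfast θ ⟨hβs.trans (hs0N.trans hθ.1), hθ.2⟩)
    (cL1_fin hZ.z0 (hβ0.trans (hβs.trans hs0N)) hαπ)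
    (Or.inl (by
      rw [hZcd N le_rfl, abs_pow, abs_neg, abs_one, one_pow]))
  have hL := hD4 (qq Z) (arccos b) (s 0) (n - K) hcZ hTZ.2 hnK0 hβs
    (fun θ hθ => hfast θ ⟨hθ.1, hθ.2.trans (hs0N.trans hsα)⟩)
    (cL1_fin hZ.z0 hβ0 (hs0N.trans (hsα.trans hαπ)))
    (Or.inr (by
      rw [hZcd 0 (Nat.zero_le _), abs_pow, abs_neg, abs_one, one_pow]))
  have hR2 : VC ((n - K) * (arccos a - t N)) ≤ VC ((n - K) * (arccos a - s N)) := by
    refine hVF6.1 (mul_le_mul_of_nonneg_left ?_ hnK0)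
    linarith
  have hL2 : VC ((n - K) * (t 0 - arccos b)) ≤ VC ((n - K) * (s 0 - arccos b)) := by
    refine hVF6.1 (mul_le_mul_of_nonneg_left ?_ hnK0)
    linarith
  have hmax := hE.max Z (natDegree_le_iff_degree_le.1 hZ.deg) hZ.bdd
  have hC1' := (hC1 Z a b ha1 hab.le hb1).1
  rw [cL1_add hcZ (arccos b) (s 0) (arccos a), cL1_add hcZ (s 0) (s N) (arccos a)] at hC1'
  linarith

theorem cL1 (hA1 : A1) (hA2 : A2) (hC1 : C1) (hD1 : D1) (hD2 : D2) (hD3 : D3) (hD3r : D3r)
    (hD4 : D4) (hVF6 : VF6) : CL1 := by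
  intro δ hδ hδ4
  obtain ⟨K, hK, n0, hn0⟩ := hD2 δ hδ hδ4
  refine ⟨K, hK, max (max n0 2) ⌈K⌉₊, ?_⟩
  intro n hn a b P N t hM hE hN ht0 htN hC
  have hn2 : 2 ≤ n := (le_max_right n0 2).trans ((le_max_left _ _).trans hn)
  have hnn0 : n0 ≤ n := (le_max_left n0 2).trans ((le_max_left _ _).trans hn)
  have hnK : K ≤ n := by
    have h1 : ⌈K⌉₊ ≤ n := (le_max_right _ _).trans hn
    exact (Nat.le_ceil K).trans (by exact_mod_cast h1)
  rcases (abs_eq zero_le_one).1 (hC.con 0 (Nat.zero_le _)) with h1 | h1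
  · exact cL1_main hA1 hA2 hC1 hD1 hD3 hD3r hD4 hVF6 hδ hK hn2 hnK (hn0 n hnn0) hM hE hN ht0 htN
      hC h1
  · have hq : ∀ θ, qq (-P) θ = -qq P θ := by
      intro θ
      unfold qq
      rw [eval_neg]
    have hqf : qq (-P) = fun θ => -qq P θ := funext hq
    have harc : ∀ Q : ℝ[X], arc a b (-Q) = arc a b Q := by
      intro Q
      unfold arc
      simp
    have hE' : Ext n a b (-P) := by
      refine ⟨?_, ?_, ?_⟩
      · rw [degree_neg]
        exact hE.deg
      · intro x hx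
        rw [eval_neg, abs_neg]
        exact hE.bdd x hx
      · intro Q hQ hQb
        rw [harc]
        exact hE.max Q hQ hQb
    have hC' : Chain (qq (-P)) N t := by
      refine ⟨hC.inc, ?_, ?_⟩
      · intro i hi
        rw [hq, abs_neg]
        exact hC.con i hi
      · intro i hi θ hθ h2
        rw [hqf] at h2
        rw [deriv.fun_neg] at h2
        exact hC.mon i hi θ hθ (neg_eq_zero.1 h2)
    have h2 := cL1_main hA1 hA2 hC1 hD1 hD3 hD3r hD4 hVF6 hδ hK hn2 hnK (hn0 n hnn0) hM hE' hN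
      ht0 htN hC' (by rw [hq, h1, neg_neg])
    rw [harc] at h2
    exact h2

end

end Pool.Agent.Helper10.AL
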