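import Pool.Agent.Helper10.AL.St

/-!
Project AL, piece D4: the variation of a fast function.
-/

set_option autoImplicit false

namespace Pool.Agent.Helper10.AL

open Polynomial Set Real MeasureTheory intervalIntegral

noncomputable section

/-- one monotone piece, starting at the value `1` -/
theorem d4_one {f : ℝ → ℝ} {u t ν : ℝ} (hf : ContDiff ℝ 1 f) (hb : ∀ θ, |f θ| ≤ 1) (hν : 0 < ν)
    (hut : u < t) (hu : f u = 1) (hlt : ∀ θ ∈ Ioo u t, |f θ| < 1)
    (hs : ∀ θ ∈ Icc u t, ν * √(1 - f θ ^ 2) ≤ |deriv f θ|) :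
    Va f u t = 1 - f t ∧ ν * (t - u) ≤ arccos (f t) := by
  have hfd : Differentiable ℝ f := hf.differentiable (by norm_num)
  have hfc : Continuous (deriv f) := hf.continuous_deriv (by norm_num)
  have hsq : ∀ θ ∈ Ioo u t, 0 < √(1 - f θ ^ 2) := by
    intro θ hθ
    apply Real.sqrt_pos.mpr
    have h1 := hlt θ hθ
    have h2 := abs_lt.mp h1
    nlinarith [h2.1, h2.2]
  have hne : ∀ θ ∈ Ioo u t, deriv f θ ≠ 0 := by
    intro θ hθ h0
    have h1 := hs θ (Ioo_subset_Icc_self hθ)
    rw [h0, abs_zero] at h1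
    have h2 := mul_pos hν (hsq θ hθ)
    linarith
  -- the derivative is negative
  have hneg : ∀ θ ∈ Ioo u t, deriv f θ < 0 := by
    by_contra hcon
    push Not at hcon
    obtain ⟨θ, hθ, hge⟩ := hcon
    have hpos : 0 < deriv f θ := lt_of_le_of_ne hge (Ne.symm (hne θ hθ))
    have hall : ∀ x ∈ Ioo u t, 0 < deriv f x := by
      intro x hx
      by_contra hx0
      push Not at hx0
      have hconn : IsPreconnected (Ioo u t) := isPreconnected_Ioo
      have h1 := hconn.intermediate_value hx hθ hfc.continuousOn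
      have h2 : (0 : ℝ) ∈ Icc (deriv f x) (deriv f θ) := ⟨hx0, hpos.le⟩
      obtain ⟨y, hy, hy0⟩ := h1 h2
      exact hne y hy hy0
    have hmono : StrictMonoOn f (Icc u t) := by
      apply strictMonoOn_of_deriv_pos (convex_Icc u t) hfd.continuous.continuousOn
      intro x hx
      rw [interior_Icc] at hx
      exact hall x hx
    have h3 := hmono (left_mem_Icc.mpr hut.le) (right_mem_Icc.mpr hut.le) hut
    have h4 := (abs_le.mp (hb t)).2
    linarith
  have hVa : Va f u t = 1 - f t := by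
    unfold Va
    have h1 : ∫ θ in u..t, |deriv f θ| = ∫ θ in u..t, -(deriv f θ) := by
      rw [intervalIntegral.integral_of_le hut.le, intervalIntegral.integral_of_le hut.le]
      rw [MeasureTheory.integral_Ioc_eq_integral_Ioo, MeasureTheory.integral_Ioc_eq_integral_Ioo]
      apply MeasureTheory.setIntegral_congr_fun measurableSet_Ioo
      intro θ hθ
      exact abs_of_neg (hneg θ hθ)
    rw [h1, intervalIntegral.integral_neg, intervalIntegral.integral_deriv_eq_sub]
    · rw [hu]; ring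
    · intro x _; exact hfd x
    · exact hfc.intervalIntegrable _ _
  refine ⟨hVa, ?_⟩
  have hder : ∀ x ∈ Ioo u t, HasDerivAt (fun θ => arccos (f θ))
      (-(1 / √(1 - f x ^ 2)) * deriv f x) x := by
    intro x hx
    have h1 := hlt x hx
    have h2 := abs_lt.mp h1
    exact (Real.hasDerivAt_arccos (ne_of_gt h2.1) (ne_of_lt h2.2)).comp x (hfd x).hasDerivAt
  have h5 : ν * (t - u) ≤ arccos (f t) - arccos (f u) := by
    apply Convex.mul_sub_le_image_sub_of_le_deriv (convex_Icc u t)
      ((Real.continuous_arccos.comp hfd.continuous).continuousOn)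
    · intro x hx
      rw [interior_Icc] at hx
      exact (hder x hx).differentiableAt.differentiableWithinAt
    · intro x hx
      rw [interior_Icc] at hx
      have hdx : deriv (arccos ∘ f) x = -(1 / √(1 - f x ^ 2)) * deriv f x := (hder x hx).deriv
      rw [hdx]
      have h6 := hs x (Ioo_subset_Icc_self hx)
      rw [abs_of_neg (hneg x hx)] at h6
      have h7 := hsq x hx
      rw [neg_mul, ← mul_neg, one_div, ← div_eq_inv_mul, le_div_iff₀ h7]
      exact h6
    · exact left_mem_Icc.mpr hut.le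
    · exact right_mem_Icc.mpr hut.le
    · exact hut.le
  rw [hu, arccos_one, sub_zero] at h5
  exact h5

theorem d4_neg {f : ℝ → ℝ} {u v : ℝ} : Va (fun θ => -f θ) u v = Va f u v := by
  unfold Va
  congr 1
  ext θ
  have : deriv (fun θ => -f θ) θ = - deriv f θ := by
    simp [deriv.fun_neg]
  rw [this, abs_neg]

/-- one monotone piece, starting at a contact point -/
theorem d4_piece {f : ℝ → ℝ} {u t ν : ℝ} (hf : ContDiff ℝ 1 f) (hb : ∀ θ, |f θ| ≤ 1) (hν : 0 < ν)
    (hut : u < t) (hu : |f u| = 1) (hlt : ∀ θ ∈ Ioo u t, |f θ| < 1)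
    (hs : ∀ θ ∈ Icc u t, ν * √(1 - f θ ^ 2) ≤ |deriv f θ|) :
    ∃ y, 0 ≤ y ∧ y ≤ π ∧ Va f u t = 1 - cos y ∧ ν * (t - u) ≤ y ∧ |cos y| = |f t| := by
  rcases eq_or_eq_neg_of_abs_eq hu with h1 | h1
  · obtain ⟨h2, h3⟩ := d4_one hf hb hν hut h1 hlt hs
    have h4 := abs_le.mp (hb t)
    have h5 := cos_arccos h4.1 h4.2
    exact ⟨arccos (f t), arccos_nonneg _, arccos_le_pi _, by rw [h5]; exact h2, h3, by rw [h5]⟩
  · have hf' : ContDiff ℝ 1 (fun θ => -f θ) := hf.neg
    have hd : ∀ θ, deriv (fun θ => -f θ) θ = - deriv f θ := by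
      intro θ; simp [deriv.fun_neg]
    obtain ⟨h2, h3⟩ := d4_one (f := fun θ => -f θ) hf' (fun θ => by rw [abs_neg]; exact hb θ) hν hut
      (by simp only [h1]; norm_num) (fun θ hθ => by rw [abs_neg]; exact hlt θ hθ)
      (fun θ hθ => by rw [hd, abs_neg, neg_sq]; exact hs θ hθ)
    rw [d4_neg] at h2
    have h4 := abs_le.mp (hb t)
    have h5 := cos_arccos (x := - f t) (by linarith [h4.2]) (by linarith [h4.1])
    exact ⟨arccos (-f t), arccos_nonneg _, arccos_le_pi _, by rw [h5]; exact h2, h3,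
      by rw [h5, abs_neg]⟩

theorem d4_left (hVF6 : VF6) {f : ℝ → ℝ} {v ν : ℝ} (hf : ContDiff ℝ 1 f) (hb : ∀ θ, |f θ| ≤ 1)
    (hν : 0 < ν) : ∀ (k : ℕ) (u : ℝ), u ≤ v →
    (∀ θ ∈ Icc u v, ν * √(1 - f θ ^ 2) ≤ |deriv f θ|) →
    {θ | θ ∈ Icc u v ∧ |f θ| = 1}.Finite → {θ | θ ∈ Icc u v ∧ |f θ| = 1}.ncard ≤ k →
    |f u| = 1 → VC (ν * (v - u)) ≤ Va f u v := by
  obtain ⟨hm, hper, -, hVC, -⟩ := hVF6
  have hfc : Continuous (deriv f) := hf.continuous_deriv (by norm_num)
  intro k
  induction k with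
  | zero =>
    intro u huv _ hfin hcard hu
    exfalso
    have h1 : {θ | θ ∈ Icc u v ∧ |f θ| = 1} = ∅ := (Set.ncard_eq_zero hfin).mp (by omega)
    have h2 : u ∈ {θ | θ ∈ Icc u v ∧ |f θ| = 1} := ⟨left_mem_Icc.mpr huv, hu⟩
    rw [h1] at h2
    exact h2
  | succ k ih =>
    intro u huv hs hfin hcard hu
    rcases huv.eq_or_lt with heq | huv'
    · rw [← heq, sub_self, mul_zero]
      unfold VC Va
      simp
    · by_cases hex : ∃ t ∈ Ioc u v, |f t| = 1
      · -- the next contact point
        have hfin2 : {θ | θ ∈ Ioc u v ∧ |f θ| = 1}.Finite :=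
          hfin.subset (fun θ hθ => ⟨Ioc_subset_Icc_self hθ.1, hθ.2⟩)
        obtain ⟨t0, ht0, hft0⟩ := hex
        obtain ⟨t, ht, hmin⟩ := hfin2.exists_minimalFor id _ ⟨t0, ht0, hft0⟩
        have hlt : ∀ θ ∈ Ioo u t, |f θ| < 1 := by
          intro θ hθ
          refine lt_of_le_of_ne (hb θ) (fun h1 => ?_)
          have h2 : θ ∈ {θ | θ ∈ Ioc u v ∧ |f θ| = 1} := ⟨⟨hθ.1, hθ.2.le.trans ht.1.2⟩, h1⟩
          have h3 := hmin h2 hθ.2.le
          simp only [id] at h3
          linarith [hθ.2]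
        obtain ⟨y, hy0, hyp, hVa, hyl, hcy⟩ := d4_piece hf hb hν ht.1.1 hu hlt
          (fun θ hθ => hs θ ⟨hθ.1, hθ.2.trans ht.1.2⟩)
        have hup : 0 < y := by
          have : 0 < ν * (t - u) := mul_pos hν (by linarith [ht.1.1])
          linarith
        have hypi : y = π := by
          rw [ht.2] at hcy
          by_contra hne
          have hlt' : y < π := lt_of_le_of_ne hyp hne
          have h1 : sin y > 0 := sin_pos_of_pos_of_lt_pi hup hlt'
          have h2 := sin_sq_add_cos_sq y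
          have h3 : cos y ^ 2 = 1 := by rw [← sq_abs, hcy]; norm_num
          nlinarith
        rw [hypi, cos_pi] at hVa
        have hsub : {θ | θ ∈ Icc t v ∧ |f θ| = 1} ⊆ {θ | θ ∈ Icc u v ∧ |f θ| = 1} \ {u} := by
          intro θ hθ
          refine ⟨⟨⟨ht.1.1.le.trans hθ.1.1, hθ.1.2⟩, hθ.2⟩, ?_⟩
          intro h1
          rw [mem_singleton_iff] at h1
          have h2 := hθ.1.1
          rw [h1] at h2
          linarith [ht.1.1]
        have hcard2 : {θ | θ ∈ Icc t v ∧ |f θ| = 1}.ncard ≤ k := by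
          have h1 := Set.ncard_le_ncard hsub (hfin.subset sdiff_subset)
          have h2 : u ∈ {θ | θ ∈ Icc u v ∧ |f θ| = 1} := ⟨left_mem_Icc.mpr huv, hu⟩
          have h3 := Set.ncard_sdiff_singleton_of_mem h2
          omega
        have h6 := ih t ht.1.2 (fun θ hθ => hs θ ⟨ht.1.1.le.trans hθ.1, hθ.2⟩)
          (hfin.subset (hsub.trans sdiff_subset)) hcard2 ht.2
        have h7 : Va f u v = Va f u t + Va f t v := by
          unfold Va
          rw [intervalIntegral.integral_add_adjacent_intervals]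
          · exact hfc.abs.intervalIntegrable _ _
          · exact hfc.abs.intervalIntegrable _ _
        rw [h7, hVa]
        have h8 : VC (ν * (v - u)) ≤ VC (ν * (v - t) + π) := by
          apply hm
          rw [hypi] at hyl
          linarith
        rw [hper] at h8
        linarith
      · push Not at hex
        obtain ⟨y, hy0, hyp, hVa, hyl, -⟩ := d4_piece hf hb hν huv' hu
          (fun θ hθ => lt_of_le_of_ne (hb θ) (hex θ (Ioo_subset_Ioc_self hθ))) hs
        rw [hVa, ← hVC y hy0 hyp]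
        exact hm hyl

theorem d4 (hVF6 : VF6) : D4 := by
  intro f u v ν hf hb hν huv hs hfin hc
  rcases hν.eq_or_lt with h0 | hν'
  · rw [← h0, zero_mul]
    have h1 : VC 0 = 0 := by unfold VC; simp
    rw [h1]
    unfold Va
    exact intervalIntegral.integral_nonneg huv (fun θ _ => abs_nonneg _)
  rcases hc with hu | hv
  · exact d4_left hVF6 hf hb hν' _ u huv hs hfin le_rfl hu
  · -- reflection
    have hfd : Differentiable ℝ f := hf.differentiable (by norm_num)
    have hg : ContDiff ℝ 1 (fun θ => f (-θ)) := hf.comp contDiff_neg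
    have hd : ∀ θ, deriv (fun θ => f (-θ)) θ = -deriv f (-θ) := fun θ => deriv_comp_neg f θ
    have h1 := d4_left hVF6 (f := fun θ => f (-θ)) (v := -u) hg (fun θ => hb _) hν' _ (-v)
      (by linarith)
      (fun θ hθ => by
        rw [hd, abs_neg]
        exact hs (-θ) ⟨by linarith [hθ.2], by linarith [hθ.1]⟩)
      (by
        have h2 : {θ | θ ∈ Icc (-v) (-u) ∧ |f (-θ)| = 1} ⊆
            (fun θ => -θ) '' {θ | θ ∈ Icc u v ∧ |f θ| = 1} := by
          intro θ hθ
          exact ⟨-θ, ⟨⟨by linarith [hθ.1.2], by linarith [hθ.1.1]⟩, hθ.2⟩, by simp⟩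
        exact (hfin.image _).subset h2) le_rfl
      (by simp only [neg_neg]; exact hv)
    have h3 : Va (fun θ => f (-θ)) (-v) (-u) = Va f u v := by
      unfold Va
      simp only [hd, abs_neg]
      rw [intervalIntegral.integral_comp_neg (fun θ => |deriv f θ|)]
      simp
    rw [h3] at h1
    have h4 : -u - -v = v - u := by ring
    rw [h4] at h1
    exact h1

end

end Pool.Agent.Helper10.AL
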