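import Pool.Agent.Helper10.AL.St2

/-!
Arc length of polynomials over compact windows, piece CL: lower bounds for the arc length of an
extremal polynomial at the two ends of the window, outside of a chain of contact points.
-/

set_option autoImplicit false

namespace Pool.Agent.Helper10.AL

open Polynomial Set Real MeasureTheory intervalIntegral
open Pool.Agent.Helper40.AS (arc Bdd Ext quad)

noncomputable section

/-- integrability of the length element -/
theorem cL_int (hA2 : A2) (P : ℝ[X]) (u v : ℝ) :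
    IntervalIntegrable (fun θ => √(1 + (deriv (qq P) θ) ^ 2)) volume u v := by
  have h1 : (fun θ => √(1 + (deriv (qq P) θ) ^ 2)) =
      fun θ => √(1 + (-(sin θ * P.derivative.eval (cos θ))) ^ 2) := by
    funext θ
    rw [(hA2.2.2 P θ).1]
  rw [h1]
  apply Continuous.intervalIntegrable
  have h2 : Continuous fun θ => P.derivative.eval (cos θ) :=
    P.derivative.continuous.comp continuous_cos
  fun_prop

theorem cL_add (hA2 : A2) (P : ℝ[X]) (u v w : ℝ) :
    En (qq P) u v + En (qq P) v w = En (qq P) u w :=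
  integral_add_adjacent_intervals (cL_int hA2 P u v) (cL_int hA2 P v w)

/-- contact points are critical -/
theorem cL_crit (hA2 : A2) {n : ℕ} {f : ℝ → ℝ} (hn : 1 ≤ n) (hf : TB n f) {θ : ℝ}
    (h : |f θ| = 1) : deriv f θ = 0 := by
  have h1 := ((hA2.1 n f hn hf).2 θ).1
  have h2 : f θ ^ 2 = 1 := by
    rw [← sq_abs, h]
    norm_num
  rw [h2] at h1
  have h3 : deriv f θ ^ 2 ≤ 0 := by linarith
  exact pow_eq_zero_iff (two_ne_zero) |>.mp (le_antisymm h3 (sq_nonneg _))

/-- the points of a chain are increasing -/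
theorem cL_mono {f : ℝ → ℝ} {N : ℕ} {t : ℕ → ℝ} (h : Chain f N t) : t 0 ≤ t N := by
  have h1 : ∀ i, i ≤ N → t 0 ≤ t i := by
    intro i
    induction i with
    | zero => intro _; exact le_refl _
    | succ i ih =>
      intro hi
      have := h.inc i (by omega)
      exact (ih (by omega)).trans this.le
  exact h1 N le_rfl

/-- the core computation -/
theorem cL_core (hA2 : A2) (hB3 : B3) (hB5 : B5) (hB6 : B6) (hC1 : C1) (hC2 : C2) (hVF1 : VF1)
    (hVF3 : VF3) (hVF6 : VF6) {K : ℝ} (hK : 0 < K) {n : ℕ} (hn4 : 4 ≤ n) {a b : ℝ} {P : ℝ[X]}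
    {N : ℕ} {t : ℕ → ℝ} (ha : -1 ≤ a) (hab : a < b) (hb : b ≤ 1) (hE : Ext n a b P)
    (ht0 : arccos b ≤ t 0) (htN : t N ≤ arccos a) (hch : Chain (qq P) N t)
    (hcl : 2 * N + VC ((n - K) * (arccos a - t N)) + VC ((n - K) * (t 0 - arccos b)) ≤
      arc a b P) :
    VC (n * (arccos a - t N)) -
      (K + 500) * (1 + n * (arccos a - t N) + n * (t 0 - arccos b)) * (1 + Real.log n) / n ≤
        En (qq P) (t N) (arccos a) ∧
    VC (n * (t 0 - arccos b)) -
      (K + 500) * (1 + n * (arccos a - t N) + n * (t 0 - arccos b)) * (1 + Real.log n) / n ≤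
        En (qq P) (arccos b) (t 0) := by
  have hnR : (4 : ℝ) ≤ n := by exact_mod_cast hn4
  have hnpos : (0 : ℝ) < n := by linarith
  have hdeg : P.natDegree ≤ n := natDegree_le_iff_degree_le.mpr hE.deg
  have hTB := hA2.2.1 n P hdeg hE.bdd
  have hpi : 3 < π := pi_gt_three
  have hpi4 : π < 3.15 := pi_lt_d2
  have hα1 : arccos a ≤ π := arccos_le_pi a
  have hβ0 : 0 ≤ arccos b := arccos_nonneg b
  have h0N : t 0 ≤ t N := cL_mono hch
  have hd0 : deriv (qq P) (t 0) = 0 := cL_crit hA2 (by omega) hTB (hch.con 0 (Nat.zero_le _))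
  have hdN : deriv (qq P) (t N) = 0 := cL_crit hA2 (by omega) hTB (hch.con N le_rfl)
  have hlag := hB6 n N (qq P) t (by omega) hTB hch.inc hch.con hch.mon
  have hC := (hC1 P a b ha hab.le hb).2
  have hlow := hC2 n a b P (by omega) ha hab.le hb hE
  have hV := hVF3 (n * arccos b) (n * (arccos a - arccos b)) (by
    apply mul_nonneg hnpos.le
    linarith)
  rw [show (n : ℝ) * arccos b + n * (arccos a - arccos b) = n * arccos a by ring] at hV
  have hs1 := cL_add hA2 P (arccos b) (t 0) (t N)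
  have hs2 := cL_add hA2 P (arccos b) (t N) (arccos a)
  have h5a := hB5 n (qq P) (arccos b) (t 0) hn4 hTB ht0 (by linarith) (Or.inr hd0)
  have h5b := hB5 n (qq P) (t N) (arccos a) hn4 hTB htN (by linarith) (Or.inl hdN)
  have h3a := (hB3 n (qq P) (arccos b) (t 0) hn4 hTB ht0 (by linarith)).2.2.1 hd0
  have h3b := (hB3 n (qq P) (t N) (arccos a) hn4 hTB htN (by linarith)).2.1 hdN
  have hcs := hVF1.2
  obtain ⟨-, -, hLip, -, -⟩ := hVF6
  -- names
  set x := (n : ℝ) * (arccos a - t N) with hx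
  set y := (n : ℝ) * (t 0 - arccos b) with hy
  have hx0 : 0 ≤ x := mul_nonneg hnpos.le (by linarith)
  have hy0 : 0 ≤ y := mul_nonneg hnpos.le (by linarith)
  obtain ⟨hl1, hl2⟩ := hlag
  have hlogn : 0 ≤ Real.log n := Real.log_nonneg (by linarith)
  have hlogn2 : Real.log n ≤ n - 1 := Real.log_le_sub_one_of_pos hnpos
  set L := (1 + Real.log n) / (n : ℝ) with hL
  have hL1 : L ≤ 1 := by
    rw [hL, div_le_one hnpos]
    linarith
  have hL0 : 1 / (n : ℝ) ≤ L := by
    rw [hL]
    apply div_le_div_of_nonneg_right _ hnpos.le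
    linarith
  have hin : 0 < 1 / (n : ℝ) := by positivity
  have hin4 : 1 / (n : ℝ) ≤ 1 / 4 := by
    apply one_div_le_one_div_of_le (by norm_num) hnR
  have her : er n = 60 * L := by
    unfold er
    rw [hL]
    ring
  have hNn : (N : ℝ) ≤ n := by
    have h1 : (n : ℝ) * (t N - t 0) ≤ n * π := by
      apply mul_le_mul_of_nonneg_left _ hnpos.le
      linarith
    have h2 : (N : ℝ) * π ≤ n * π := hl1.trans h1
    exact le_of_mul_le_mul_right h2 pi_pos
  have hkk : (N : ℝ) * kk n ≤ 10 * L := by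
    have h1 : kk n = 10 * L / n := by
      unfold kk
      rw [hL]
      field_simp
    rw [h1]
    have h2 : (0 : ℝ) ≤ 10 * L / n := by positivity
    calc (N : ℝ) * (10 * L / n) ≤ n * (10 * L / n) := mul_le_mul_of_nonneg_right hNn h2
      _ = 10 * L := by field_simp
  set g := (n : ℝ) * (t N - t 0) - N * π with hg
  have hg0 : 0 ≤ g := by linarith
  have hgn : (t N - t 0) - N * π / n = g * (1 / n) := by
    rw [hg]
    field_simp
  rw [hgn] at hl2
  have hsum : (n : ℝ) * (arccos a - arccos b) = x + y + g + N * π := by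
    rw [hx, hy, hg]
    ring
  rw [hsum] at hV
  -- bound of the lag
  have h2pi : 0.6 ≤ 2 / π := by
    rw [le_div_iff₀ pi_pos]
    linarith
  have hNpi : 2 / π * ((N : ℝ) * π) = 2 * N := by
    field_simp
  have hglag : g ≤ 400 := by
    have h1 : 2 / π * (x + y + g + N * π) = 2 / π * x + 2 / π * y + 2 / π * g + 2 * N := by
      rw [← hNpi]
      ring
    rw [h1] at hV
    have h2 : 2 / π * g ≤ 2 * cs + 2 * er n + g * (1 / n) + N * kk n := by linarith
    have h3 : 0.6 * g ≤ 2 / π * g := mul_le_mul_of_nonneg_right h2pi hg0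
    have h4 : g * (1 / n) ≤ g * (1 / 4) := mul_le_mul_of_nonneg_left hin4 hg0
    rw [her] at h2
    linarith
  have hg4 : g * (1 / n) ≤ 400 * L := by
    calc g * (1 / n) ≤ 400 * (1 / n) := mul_le_mul_of_nonneg_right hglag hin.le
      _ ≤ 400 * L := by linarith
  -- Lipschitz
  have hlipx : VC x - K * (x * (1 / n)) ≤ VC ((n - K) * (arccos a - t N)) := by
    have h1 := hLip x ((n - K) * (arccos a - t N))
    have h2 : x - (n - K) * (arccos a - t N) = K * (x * (1 / n)) := by
      rw [hx]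
      field_simp
      ring
    have h3 : (0 : ℝ) ≤ K * (x * (1 / n)) := mul_nonneg hK.le (mul_nonneg hx0 hin.le)
    rw [h2, abs_of_nonneg h3] at h1
    linarith [le_abs_self (VC x - VC ((n - K) * (arccos a - t N)))]
  have hlipy : VC y - K * (y * (1 / n)) ≤ VC ((n - K) * (t 0 - arccos b)) := by
    have h1 := hLip y ((n - K) * (t 0 - arccos b))
    have h2 : y - (n - K) * (t 0 - arccos b) = K * (y * (1 / n)) := by
      rw [hy]
      field_simp
      ring
    have h3 : (0 : ℝ) ≤ K * (y * (1 / n)) := mul_nonneg hK.le (mul_nonneg hy0 hin.le)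
    rw [h2, abs_of_nonneg h3] at h1
    linarith [le_abs_self (VC y - VC ((n - K) * (t 0 - arccos b)))]
  have hLpos : 0 ≤ L := by linarith
  have hxL : K * (x * (1 / n)) ≤ K * (x * L) :=
    mul_le_mul_of_nonneg_left (mul_le_mul_of_nonneg_left hL0 hx0) hK.le
  have hyL : K * (y * (1 / n)) ≤ K * (y * L) :=
    mul_le_mul_of_nonneg_left (mul_le_mul_of_nonneg_left hL0 hy0) hK.le
  have hexp : (K + 500) * (1 + x + y) * (1 + Real.log n) / n =
      K * L + K * (x * L) + K * (y * L) + 500 * L + 500 * (x * L) + 500 * (y * L) := by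
    rw [hL]
    ring
  have hKL : 0 ≤ K * L := mul_nonneg hK.le hLpos
  have hxL0 : 0 ≤ x * L := mul_nonneg hx0 hLpos
  have hyL0 : 0 ≤ y * L := mul_nonneg hy0 hLpos
  rw [hexp]
  rw [her] at h5a h5b
  constructor
  · linarith
  · linarith

/-- lower bounds for the arc length at the ends of the window -/
theorem cL (hA1 : A1) (hA2 : A2) (hB3 : B3) (hB5 : B5) (hB6 : B6) (hC1 : C1) (hC2 : C2)
    (hCL1 : CL1) (hVF1 : VF1) (hVF3 : VF3) (hVF6 : VF6) : CL := by
  intro δ hδ hδ4
  obtain ⟨K, hK, n1, hn1⟩ := hCL1 δ hδ hδ4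
  refine ⟨K + 500, by positivity, max n1 4, fun n hn a b P N t hM hE hN ht0 htN hch => ?_⟩
  have hnn : n1 ≤ n := le_trans (le_max_left _ _) hn
  have hn4 : 4 ≤ n := le_trans (le_max_right _ _) hn
  have hcl := hn1 n hnn a b P N t hM hE hN ht0 htN hch
  obtain ⟨hm1, hm2, hm3⟩ := hM
  exact cL_core hA2 hB3 hB5 hB6 hC1 hC2 hVF1 hVF3 hVF6 hK hn4 (by linarith) (by linarith)
    (by linarith) hE ht0 htN hch hcl

end

end Pool.Agent.Helper10.AL
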