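import Pool.Agent.Helper10.AL.St7
import Pool.Agent.Helper10.AL.P.CL

/-!
Arc length of polynomials over windows, large degree: piece NP1 (windows with one small gap: the
chain of critical points is nearly perfect).
-/

set_option autoImplicit false

namespace Pool.Agent.Helper10.AL

open Polynomial Set Real MeasureTheory intervalIntegral
open Pool.Agent.Helper40.AS (arc Bdd Ext quad)

theorem nP1_per (hVF6 : VF6) (x : ℝ) (k : ℤ) : VC (x + k * π) = VC x + 2 * k := by
  have h1 : ∀ (y : ℝ) (j : ℕ), VC (y + j * π) = VC y + 2 * j := by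
    intro y j
    induction j with
    | zero => simp
    | succ j ih =>
      rw [show y + ((j + 1 : ℕ) : ℝ) * π = (y + j * π) + π by push_cast; ring, hVF6.2.1, ih]
      push_cast
      ring
  rcases le_or_gt 0 k with hk | hk
  · obtain ⟨j, rfl⟩ := Int.eq_ofNat_of_zero_le hk
    simpa using h1 x j
  · obtain ⟨j, hj⟩ := Int.eq_ofNat_of_zero_le (show 0 ≤ -k by omega)
    have h2 := h1 (x + k * π) j
    have h3 : (k : ℝ) = -(j : ℝ) := by
      have : k = -(j : ℤ) := by omega
      rw [this]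
      push_cast
      ring
    rw [h3] at h2 ⊢
    rw [show x + -(j : ℝ) * π + j * π = x by ring] at h2
    linarith

theorem nP1_odd (x : ℝ) : VC (-x) = -VC x := by
  have h1 := intervalIntegral.integral_comp_neg (a := 0) (b := x) (fun s => |sin s|)
  simp only [sin_neg, abs_neg, neg_zero] at h1
  unfold VC
  rw [intervalIntegral.integral_symm, ← h1]

/-- the middle of an oscillation -/
theorem nP1_zero {f : ℝ → ℝ} {N : ℕ} {t : ℕ → ℝ} (hf : Continuous f) (hch : Chain f N t) {j : ℕ}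
    (hj : j < N) : ∃ θ, t j < θ ∧ θ < t (j + 1) ∧ f θ = 0 := by
  by_contra hcon
  push Not at hcon
  have h1 := hch.con j (by omega)
  have h2 := hch.con (j + 1) (by omega)
  have hlt := hch.inc j hj
  have hne : ∀ θ ∈ Icc (t j) (t (j + 1)), f θ ≠ 0 := by
    intro θ hθ h0
    rcases eq_or_lt_of_le hθ.1 with h3 | h3
    · rw [← h3] at h0
      rw [h0, abs_zero] at h1
      norm_num at h1
    · rcases eq_or_lt_of_le hθ.2 with h4 | h4
      · rw [h4] at h0
        rw [h0, abs_zero] at h2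
        norm_num at h2
      · exact hcon θ h3 h4 h0
  have hsame : f (t j) = f (t (j + 1)) := by
    rcases (abs_eq (by norm_num : (0 : ℝ) ≤ 1)).1 h1 with h3 | h3 <;>
      rcases (abs_eq (by norm_num : (0 : ℝ) ≤ 1)).1 h2 with h4 | h4
    · rw [h3, h4]
    · exfalso
      have h5 : (0 : ℝ) ∈ Icc (f (t (j + 1))) (f (t j)) := by
        rw [h3, h4]
        constructor <;> norm_num
      obtain ⟨θ, hθ, h6⟩ := intermediate_value_Icc' hlt.le hf.continuousOn h5
      exact hne θ hθ h6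
    · exfalso
      have h5 : (0 : ℝ) ∈ Icc (f (t j)) (f (t (j + 1))) := by
        rw [h3, h4]
        constructor <;> norm_num
      obtain ⟨θ, hθ, h6⟩ := intermediate_value_Icc hlt.le hf.continuousOn h5
      exact hne θ hθ h6
    · rw [h3, h4]
  obtain ⟨c, hc, h3⟩ := exists_deriv_eq_zero hlt hf.continuousOn hsame
  exact hch.mon j hj c hc h3

/-- lag of an initial and of a final part -/
theorem nP1_lag (hB6 : B6) {n N : ℕ} {f : ℝ → ℝ} {t : ℕ → ℝ} (hn : 1 ≤ n) (hf : TB n f)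
    (hch : Chain f N t) {i : ℕ} (hi : i ≤ N) :
    (i : ℝ) * π ≤ n * (t i - t 0) ∧ ((N - i : ℕ) : ℝ) * π ≤ n * (t N - t i) := by
  constructor
  · exact (hB6 n i f t hn hf (fun k hk => hch.inc k (by omega)) (fun k hk => hch.con k (by omega))
      (fun k hk => hch.mon k (by omega))).1
  · have h := (hB6 n (N - i) f (fun k => t (i + k)) hn hf
      (fun k hk => by
        have := hch.inc (i + k) (by omega)
        simpa [add_assoc] using this)
      (fun k hk => hch.con (i + k) (by omega))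
      (fun k hk θ hθ => hch.mon (i + k) (by omega) θ (by simpa [add_assoc] using hθ))).1
    have e : i + (N - i) = N := by omega
    simpa [e] using h

/-- one end of the window -/
theorem nP1_end (hVF6 : VF6) {ε ε' g E L : ℝ} (hε : 0 < ε) (hε1 : ε ≤ 1)
    (he3 : ε' ≤ (1 - cos ε) / 2) (hL : 133 * L < ε') (h1 : VC g - ε' ≤ E) (h2 : E ≤ 2 + 9 * L)
    (hL0 : 0 ≤ L) : g ≤ π + ε := by
  by_contra hcon
  push Not at hcon
  have h3 : VC (ε + π) ≤ VC g := hVF6.1 (by linarith)
  rw [hVF6.2.1, hVF6.2.2.2.1 ε hε.le (by linarith [pi_gt_three])] at h3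
  linarith

/-- one bracket -/
theorem nP1_br (hVF4 : VF4) (hVF6 : VF6) {ε ε' g x : ℝ} (hε : 0 < ε) (hε1 : ε ≤ 1)
    (hε' : 0 < ε') (hx : -ε' ≤ x) : -ε' ≤ VC (g + x) - VC g ∧
    (ε / 4 < x → 2 * (1 - cos (ε / 8)) ≤ VC (g + x) - VC g) := by
  constructor
  · rcases le_or_gt 0 x with h | h
    · have := hVF6.1 (show g ≤ g + x by linarith)
      linarith
    · have h1 := hVF6.2.2.1 (g + x) g
      rw [show g + x - g = x by ring, abs_of_neg h] at h1
      have h2 := neg_abs_le (VC (g + x) - VC g)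
      linarith
  · intro h
    have h1 := (hVF4 g (ε / 4)).1 (by linarith) (by linarith [pi_gt_three])
    rw [hVF6.2.2.2.2, show ε / 4 / 2 = ε / 8 by ring] at h1
    have h2 := hVF6.1 (show g + ε / 4 ≤ g + x by linarith)
    linarith

theorem nP1_core (hA2 : A2) (hB1 : B1) (hB5 : B5) (hB6 : B6) (hC1 : C1) (hC2 : C2) (hVF4 : VF4)
    (hVF6 : VF6) {ε ε' : ℝ} (hε : 0 < ε) (hε1 : ε ≤ 1) (hε' : 0 < ε') (he1 : ε' ≤ ε / 4)
    (he2 : ε' ≤ 1 - cos (ε / 8)) (he3 : ε' ≤ (1 - cos ε) / 2) {n : ℕ} (hn4 : 4 ≤ n)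
    (hL : 133 * ((1 + Real.log n) / n) < ε') {a b : ℝ} {P : ℝ[X]} {N : ℕ} {t : ℕ → ℝ}
    (ha : -1 ≤ a) (hab : a < b) (hb : b ≤ 1) (hE : Ext n a b P)
    (ht0 : arccos b < t 0) (htN : t N < arccos a) (hch : Chain (qq P) N t)
    (hcr : ∀ θ ∈ Ioo (arccos b) (arccos a), deriv (qq P) θ = 0 → ∃ i ≤ N, t i = θ)
    (hg0 : n * (t 0 - arccos b) ≤ 6) (hgN : n * (arccos a - t N) ≤ 6)
    (hf1 : VC (n * (arccos a - t N)) - ε' ≤ En (qq P) (t N) (arccos a))
    (hf2 : VC (n * (t 0 - arccos b)) - ε' ≤ En (qq P) (arccos b) (t 0))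
    (hf3 : n * (t N - t 0) - N * π ≤ 3) {m : ℤ} {x1 x2 : ℝ} (hx2e : n * t 0 = m * π - x2)
    (hx1e : n * t N = (m + N) * π + x1) (hx1 : -ε' ≤ x1) (hx2 : -ε' ≤ x2) :
    (∀ i ≤ N, |n * t i - ((m : ℝ) + i) * π| ≤ ε) ∧ n * (t 0 - arccos b) ≤ π + ε ∧
      n * (arccos a - t N) ≤ π + ε := by
  have hnR : (4 : ℝ) ≤ n := by exact_mod_cast hn4
  have hnpos : (0 : ℝ) < n := by linarith
  have hdeg : P.natDegree ≤ n := natDegree_le_iff_degree_le.mpr hE.deg
  have hTB := hA2.2.1 n P hdeg hE.bdd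
  have hpi : 3 < π := pi_gt_three
  have hpi4 : π < 3.15 := pi_lt_d2
  have hα1 : arccos a ≤ π := arccos_le_pi a
  have hβ0 : 0 ≤ arccos b := arccos_nonneg b
  have h0N : t 0 ≤ t N := cL_mono hch
  have hmono : ∀ i ≤ N, t 0 ≤ t i ∧ t i ≤ t N := by
    intro i hi
    have h := nP1_lag hB6 (by omega) hTB hch hi
    have hp0 : (0 : ℝ) < π := pi_pos
    constructor
    · have h1 : (0 : ℝ) ≤ n * (t i - t 0) := le_trans (by positivity) h.1
      have := nonneg_of_mul_nonneg_right h1 hnpos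
      linarith
    · have h1 : (0 : ℝ) ≤ n * (t N - t i) := le_trans (by positivity) h.2
      have := nonneg_of_mul_nonneg_right h1 hnpos
      linarith
  have hd0 : deriv (qq P) (t 0) = 0 := cL_crit hA2 (by omega) hTB (hch.con 0 (Nat.zero_le _))
  have hdN : deriv (qq P) (t N) = 0 := cL_crit hA2 (by omega) hTB (hch.con N le_rfl)
  have hlag := hB6 n N (qq P) t (by omega) hTB hch.inc hch.con hch.mon
  have hC := (hC1 P a b ha hab.le hb).2
  have hlow := hC2 n a b P (by omega) ha hab.le hb hE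
  have hs1 := cL_add hA2 P (arccos b) (t 0) (t N)
  have hs2 := cL_add hA2 P (arccos b) (t N) (arccos a)
  have h5a := hB5 n (qq P) (arccos b) (t 0) hn4 hTB ht0.le (by linarith) (Or.inr hd0)
  have h5b := hB5 n (qq P) (t N) (arccos a) hn4 hTB htN.le (by linarith) (Or.inl hdN)
  have hm0 : ∀ θ ∈ Ioo (arccos b) (t 0), deriv (qq P) θ ≠ 0 := by
    intro θ hθ h
    obtain ⟨i, hi, rfl⟩ := hcr θ ⟨hθ.1, by linarith [hθ.2]⟩ h
    exact absurd hθ.2 (not_lt.2 (hmono i hi).1)
  have hmN : ∀ θ ∈ Ioo (t N) (arccos a), deriv (qq P) θ ≠ 0 := by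
    intro θ hθ h
    obtain ⟨i, hi, rfl⟩ := hcr θ ⟨by linarith [hθ.1], hθ.2⟩ h
    exact absurd hθ.1 (not_lt.2 (hmono i hi).2)
  have h1a := hB1 n (qq P) (arccos b) (t 0) (by omega) hTB ht0.le hm0
  have h1b := hB1 n (qq P) (t N) (arccos a) (by omega) hTB htN.le hmN
  have hlogn : 0 ≤ Real.log n := Real.log_nonneg (by linarith)
  -- names
  set x := (n : ℝ) * (arccos a - t N) with hx
  set y := (n : ℝ) * (t 0 - arccos b) with hy
  set L := (1 + Real.log n) / (n : ℝ) with hLd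
  have hL0 : 1 / (n : ℝ) ≤ L := by
    rw [hLd]
    apply div_le_div_of_nonneg_right _ hnpos.le
    linarith
  have hin : 0 < 1 / (n : ℝ) := by positivity
  have hin4 : 1 / (n : ℝ) ≤ 1 / 4 := by
    apply one_div_le_one_div_of_le (by norm_num) hnR
  have hLpos : 0 < L := by linarith
  have her : er n = 60 * L := by
    unfold er
    rw [hLd]
    ring
  have hNn : (N : ℝ) ≤ n := by
    have h1 : (n : ℝ) * (t N - t 0) ≤ n * π := by
      apply mul_le_mul_of_nonneg_left _ hnpos.le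
      linarith
    have h2 : (N : ℝ) * π ≤ n * π := hlag.1.trans h1
    exact le_of_mul_le_mul_right h2 pi_pos
  have hkk : (N : ℝ) * kk n ≤ 10 * L := by
    have h1 : kk n = 10 * L / n := by
      unfold kk
      rw [hLd]
      field_simp
    rw [h1]
    have h2 : (0 : ℝ) ≤ 10 * L / n := by positivity
    calc (N : ℝ) * (10 * L / n) ≤ n * (10 * L / n) := mul_le_mul_of_nonneg_right hNn h2
      _ = 10 * L := by field_simp
  have h3L : 3 * (1 + Real.log n) / (n : ℝ) ^ 2 ≤ 3 * L := by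
    have h1 : 3 * (1 + Real.log n) / (n : ℝ) ^ 2 = 3 * L * (1 / n) := by
      rw [hLd]
      field_simp
    rw [h1]
    have h2 : 3 * L * (1 / n) ≤ 3 * L * 1 :=
      mul_le_mul_of_nonneg_left (by linarith) (by positivity)
    linarith
  -- the ends
  have hab2 : ∀ u v : ℝ, |qq P v - qq P u| ≤ 2 := by
    intro u v
    have h1 := abs_sub (qq P v) (qq P u)
    have h2 := hTB.2 u
    have h3 := hTB.2 v
    linarith
  have hEa : En (qq P) (arccos b) (t 0) ≤ 2 + 9 * L := by
    have h1 := h1a.2.2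
    have h2 := hab2 (arccos b) (t 0)
    have h3 : t 0 - arccos b ≤ 6 * (1 / n) := by
      rw [mul_one_div, le_div_iff₀ hnpos]
      linarith
    have h4 : 0 ≤ |arccos (qq P (t 0)) - arccos (qq P (arccos b))| / n := by positivity
    linarith
  have hEb : En (qq P) (t N) (arccos a) ≤ 2 + 9 * L := by
    have h1 := h1b.2.2
    have h2 := hab2 (t N) (arccos a)
    have h3 : arccos a - t N ≤ 6 * (1 / n) := by
      rw [mul_one_div, le_div_iff₀ hnpos]
      linarith
    have h4 : 0 ≤ |arccos (qq P (arccos a)) - arccos (qq P (t N))| / n := by positivity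
    linarith
  -- the lower bound
  have hV : (∫ s in (n * arccos b)..(n * arccos a), |sin s|) =
      2 * N + VC (x + x1) + VC (y + x2) := by
    have h1 : (n : ℝ) * arccos a = (n * arccos b) + (n * arccos a - n * arccos b) := by ring
    rw [h1, hVF6.2.2.2.2, ← h1]
    have h2 : (n : ℝ) * arccos a = (x + x1) + ((m + N : ℤ) : ℝ) * π := by
      push_cast
      have : (n : ℝ) * arccos a = x + n * t N := by
        rw [hx]
        ring
      rw [this, hx1e]
      ring
    have h3 : (n : ℝ) * arccos b = -(y + x2) + (m : ℝ) * π := by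
      have : (n : ℝ) * arccos b = n * t 0 - y := by
        rw [hy]
        ring
      rw [this, hx2e]
      ring
    rw [h2, h3, nP1_per hVF6, nP1_per hVF6, nP1_odd]
    push_cast
    ring
  rw [hV] at hlow
  have hupp : arc a b P ≤ 2 * N + VC x + VC y + 133 * L := by
    have h1 := hlag.2
    have h2 : (t N - t 0) - N * π / n ≤ 3 * (1 / n) := by
      have : (t N - t 0) - N * π / n = (n * (t N - t 0) - N * π) * (1 / n) := by
        field_simp
      rw [this]
      exact mul_le_mul_of_nonneg_right hf3 hin.le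
    rw [her] at h5a h5b
    linarith
  obtain ⟨hb1, hb2⟩ := nP1_br hVF4 hVF6 (g := x) hε hε1 hε' hx1
  obtain ⟨hb3, hb4⟩ := nP1_br hVF4 hVF6 (g := y) hε hε1 hε' hx2
  have hx1' : x1 ≤ ε / 4 := by
    by_contra hcon
    push Not at hcon
    have := hb2 hcon
    linarith
  have hx2' : x2 ≤ ε / 4 := by
    by_contra hcon
    push Not at hcon
    have := hb4 hcon
    linarith
  refine ⟨fun i hi => ?_, nP1_end hVF6 hε hε1 he3 hL hf2 hEa hLpos.le,
    nP1_end hVF6 hε hε1 he3 hL hf1 hEb hLpos.le⟩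
  obtain ⟨hl1, hl2⟩ := nP1_lag hB6 (by omega) hTB hch hi
  rw [Nat.cast_sub hi] at hl2
  rw [abs_le]
  constructor
  · have h1 : (n : ℝ) * (t i - t 0) = n * t i - n * t 0 := by ring
    rw [h1, hx2e] at hl1
    linarith
  · have h1 : (n : ℝ) * (t N - t i) = n * t N - n * t i := by ring
    rw [h1, hx1e] at hl2
    linarith

/-- a member of the chain near the middle of the window -/
theorem nP1_mid {N : ℕ} {t : ℕ → ℝ} {M : ℝ} (h0 : t 0 ≤ M) (hN : M < t N) :
    ∃ j < N, t j ≤ M ∧ M < t (j + 1) := by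
  by_contra hcon
  push Not at hcon
  have h1 : ∀ j ≤ N, t j ≤ M := by
    intro j
    induction j with
    | zero => intro _; exact h0
    | succ j ih => intro hj; exact hcon j (by omega) (ih (by omega))
  exact absurd hN (not_lt.2 (h1 N le_rfl))

theorem nP1 (_hA1 : A1) (hA2 : A2) (hB1 : B1) (hB5 : B5) (hB6 : B6) (hC1 : C1) (hC2 : C2)
    (hCHe : CHe) (hCLf : CLf) (_hVF1 : VF1) (_hVF2 : VF2) (_hVF3 : VF3) (hVF4 : VF4) (hVF6 : VF6)
    (hZC : ZC) (hZCr : ZCr) : NP1 := by
  intro ε0 hε0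
  set ε := min ε0 1 with hεd
  have hε : 0 < ε := lt_min hε0 one_pos
  have hε1 : ε ≤ 1 := min_le_right _ _
  have hεε : ε ≤ ε0 := min_le_left _ _
  have hpi : 3 < π := pi_gt_three
  have hc1 : 0 < 1 - cos (ε / 8) := by
    have := cos_lt_cos_of_nonneg_of_le_pi (le_refl 0) (show ε / 8 ≤ π by linarith)
      (show 0 < ε / 8 by linarith)
    rw [cos_zero] at this
    linarith
  have hc2 : 0 < 1 - cos ε := by
    have := cos_lt_cos_of_nonneg_of_le_pi (le_refl 0) (show ε ≤ π by linarith) hε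
    rw [cos_zero] at this
    linarith
  set ε' := min (ε / 4) (min (1 - cos (ε / 8)) ((1 - cos ε) / 2)) with hε'd
  have hε' : 0 < ε' := lt_min (by linarith) (lt_min hc1 (by linarith))
  have he1 : ε' ≤ ε / 4 := min_le_left _ _
  have he2 : ε' ≤ 1 - cos (ε / 8) := (min_le_right _ _).trans (min_le_left _ _)
  have he3 : ε' ≤ (1 - cos ε) / 2 := (min_le_right _ _).trans (min_le_right _ _)
  obtain ⟨R1, hR1, n1, H1⟩ := hCHe
  obtain ⟨R2, hR2, n2, H2⟩ := hCLf ε' 6 hε' (by norm_num)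
  obtain ⟨κ3, R3, hκ3, hR3, n3, H3⟩ := hZC ε' hε'
  obtain ⟨κ4, R4, hκ4, hR4, n4, H4⟩ := hZCr ε' hε'
  have hlim : ∃ n5 : ℕ, ∀ n ≥ n5, 133 * ((1 + Real.log n) / n) < ε' := by
    have h1 : Filter.Tendsto (fun x : ℝ => 133 * ((1 + Real.log x) / x)) Filter.atTop
        (nhds (133 * (0 + 0))) := by
      apply Filter.Tendsto.const_mul
      have h2 : Filter.Tendsto (fun x : ℝ => 1 / x) Filter.atTop (nhds 0) := by
        simpa using tendsto_inv_atTop_zero (𝕜 := ℝ)
      have h3 : Filter.Tendsto (fun x : ℝ => Real.log x / x) Filter.atTop (nhds 0) := by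
        have := Real.tendsto_pow_log_div_mul_add_atTop 1 0 1 one_ne_zero
        simpa using this
      refine (h2.add h3).congr ?_
      intro x
      ring
    rw [add_zero, mul_zero] at h1
    have h2 := (h1.comp tendsto_natCast_atTop_atTop).eventually (gt_mem_nhds hε')
    obtain ⟨n5, h5⟩ := Filter.eventually_atTop.1 h2
    exact ⟨n5, fun n hn => h5 n hn⟩
  obtain ⟨n5, H5⟩ := hlim
  set κ := min κ3 κ4 with hκd
  have hκ : 0 < κ := lt_min hκ3 hκ4
  have hk3 : κ ≤ κ3 := min_le_left _ _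
  have hk4 : κ ≤ κ4 := min_le_right _ _
  set R := R1 + R2 + 4 * R3 + 4 * R4 + 48 / κ + 48 with hRd
  have h48 : 0 < 48 / κ := by positivity
  have hR : 0 < R := by positivity
  refine ⟨κ / 8, R, by positivity, hR, n1 + n2 + n3 + n4 + n5 + 4,
    fun n hn a b P hW hE hgap => ?_⟩
  obtain ⟨ha, hab, hb, hRw⟩ := hW
  have hnR : (4 : ℝ) ≤ n := by exact_mod_cast (show 4 ≤ n by omega)
  have hnpos : (0 : ℝ) < n := by linarith
  have hW1 : Wd n R1 a b := ⟨ha, hab, hb, by linarith⟩
  have hW2 : Wd n R2 a b := ⟨ha, hab, hb, by linarith⟩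
  obtain ⟨N, t, hN, hch, ht0, htN, hcr, hg0, hgN, hst⟩ := H1 n (by omega) a b P hW1 hE
  obtain ⟨hf1, hf2, hf3⟩ := H2 n (by omega) a b P N t hW2 hE hN ht0.le htN.le hch hg0 hgN
  have hdeg : P.natDegree ≤ n := natDegree_le_iff_degree_le.mpr hE.deg
  have hTB := hA2.2.1 n P hdeg hE.bdd
  have hα1 : arccos a ≤ π := arccos_le_pi a
  have hβ0 : 0 ≤ arccos b := arccos_nonneg b
  have hcont : Continuous (qq P) := by
    unfold qq
    exact P.continuous.comp continuous_cos
  set w := arccos a - arccos b with hw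
  have hnw : R ≤ n * w := hRw
  have h6 : 6 / (n : ℝ) ≤ w / 8 := by
    rw [div_le_iff₀ hnpos]
    linarith
  have h6κ : 6 / (n : ℝ) ≤ κ * w / 8 := by
    rw [div_le_iff₀ hnpos]
    have h1 : 48 / κ ≤ n * w := by linarith
    rw [div_le_iff₀ hκ] at h1
    linarith
  have hw0 : 0 < w := by
    have : (0 : ℝ) < n * w := lt_of_lt_of_le hR hnw
    exact (mul_pos_iff_of_pos_left hnpos).1 this
  have hg0' : t 0 - arccos b ≤ 6 / n := by
    rw [le_div_iff₀ hnpos]
    linarith
  have hgN' : arccos a - t N ≤ 6 / n := by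
    rw [le_div_iff₀ hnpos]
    linarith
  obtain ⟨j, hj, hj1, hj2⟩ := nP1_mid (N := N) (t := t) (M := arccos b + w / 2)
    (by linarith) (by linarith)
  have hstj : t (j + 1) - t j ≤ 6 / n := by
    rw [le_div_iff₀ hnpos]
    linarith [hst j hj]
  obtain ⟨θ0, hθ1, hθ2, hθ0⟩ := nP1_zero hcont hch hj
  have hθa : w / 4 ≤ θ0 := by linarith
  have hθb : w / 4 ≤ π - θ0 := by linarith
  -- the lags of the two halves
  have hlagL : ((j : ℝ) + 1 / 2) * π ≤ n * (θ0 - t 0) := by
    have h1 := (nP1_lag hB6 (by omega) hTB hch hj.le).1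
    have h2 := (hB1 n (qq P) (t j) θ0 (by omega) hTB hθ1.le
      (fun θ hθ => hch.mon j hj θ ⟨hθ.1, by linarith [hθ.2]⟩)).1
    have h3 : |arccos (qq P θ0) - arccos (qq P (t j))| = π / 2 := by
      rw [hθ0, arccos_zero]
      rcases (abs_eq (by norm_num : (0 : ℝ) ≤ 1)).1 (hch.con j (by omega)) with h | h
      · rw [h, arccos_one, sub_zero, abs_of_pos (by positivity)]
      · rw [h, arccos_neg_one, show π / 2 - π = -(π / 2) by ring, abs_neg,
          abs_of_pos (by positivity)]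
    rw [h3] at h2
    have h4 : (n : ℝ) * (θ0 - t 0) = n * (θ0 - t j) + n * (t j - t 0) := by ring
    rw [h4]
    linarith
  have hlagR : ((N : ℝ) - j - 1 / 2) * π ≤ n * (t N - θ0) := by
    have h1 := (nP1_lag hB6 (by omega) hTB hch (show j + 1 ≤ N by omega)).2
    have h2 := (hB1 n (qq P) θ0 (t (j + 1)) (by omega) hTB hθ2.le
      (fun θ hθ => hch.mon j hj θ ⟨by linarith [hθ.1], hθ.2⟩)).1
    have h3 : |arccos (qq P (t (j + 1))) - arccos (qq P θ0)| = π / 2 := by
      rw [hθ0, arccos_zero]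
      rcases (abs_eq (by norm_num : (0 : ℝ) ≤ 1)).1 (hch.con (j + 1) (by omega)) with h | h
      · rw [h, arccos_one, zero_sub, abs_neg, abs_of_pos (by positivity)]
      · rw [h, arccos_neg_one, show π - π / 2 = π / 2 by ring,
          abs_of_pos (by positivity)]
    rw [h3] at h2
    rw [Nat.cast_sub (show j + 1 ≤ N by omega)] at h1
    push_cast at h1
    have h4 : (n : ℝ) * (t N - θ0) = n * (t N - t (j + 1)) + n * (t (j + 1) - θ0) := by ring
    rw [h4]
    linarith
  have key : ∃ (m : ℤ) (x1 x2 : ℝ), n * t 0 = m * π - x2 ∧ n * t N = (m + N) * π + x1 ∧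
      -ε' ≤ x1 ∧ -ε' ≤ x2 := by
    rcases hgap with hgap | hgap
    · obtain ⟨-, κ', m, e1, e2, e3⟩ := H3 n (by omega) P N j t θ0 hdeg hE.bdd hch hj
        (by linarith) (by linarith) hθ1 hθ2 hθ0
        (by
          have : (n : ℝ) * (w / 4) ≤ n * (π - θ0) := mul_le_mul_of_nonneg_left hθb hnpos.le
          linarith)
        (by
          have h1 : κ * (w / 4) ≤ κ3 * (π - θ0) :=
            mul_le_mul hk3 hθb (by linarith) hκ3.le
          linarith)
      rw [Nat.cast_sub hj.le] at e3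
      refine ⟨m - j - 1, n * (t N - θ0) - ((N : ℝ) - j - 1 / 2) * π - κ',
        κ' + (n * (θ0 - t 0) - ((j : ℝ) + 1 / 2) * π), ?_, ?_, by linarith, by linarith⟩
      · push_cast
        linarith
      · push_cast
        linarith
    · obtain ⟨-, κ', m, e1, e2, e3⟩ := H4 n (by omega) P N j t θ0 hdeg hE.bdd hch hj
        (by linarith) (by linarith) hθ1 hθ2 hθ0
        (by
          have : (n : ℝ) * (w / 4) ≤ n * θ0 := mul_le_mul_of_nonneg_left hθa hnpos.le
          linarith)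
        (by
          have h1 : κ * (w / 4) ≤ κ4 * θ0 :=
            mul_le_mul hk4 hθa (by linarith) hκ4.le
          linarith)
      refine ⟨m - j, n * (t N - θ0) - ((N : ℝ) - j - 1 / 2) * π + κ',
        -κ' + (n * (θ0 - t 0) - ((j : ℝ) + 1 / 2) * π), ?_, ?_, by linarith, by linarith⟩
      · push_cast
        linarith
      · push_cast
        linarith
  obtain ⟨m, x1, x2, k1, k2, k3, k4⟩ := key
  obtain ⟨r1, r2, r3⟩ := nP1_core hA2 hB1 hB5 hB6 hC1 hC2 hVF4 hVF6 hε hε1 hε' he1 he2 he3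
    (by omega) (H5 n (by omega)) ha hab hb hE ht0 htN hch hcr hg0 hgN hf1 hf2 hf3 k1 k2 k3 k4
  exact ⟨N, t, m, hN, hch, ht0, htN, hcr, fun i hi => (r1 i hi).trans hεε, by linarith,
    by linarith, by linarith, by linarith⟩

end Pool.Agent.Helper10.AL
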