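import Pool.Agent.Helper10.AL.St7

/-!
Arc length of polynomials over windows, large degree: piece ZCr (the mirror image of ZC).
-/

set_option autoImplicit false

namespace Pool.Agent.Helper10.AL

open Polynomial Set Real MeasureTheory intervalIntegral
open Pool.Agent.Helper40.AS (arc Bdd Ext quad)

theorem zCr_qq (P : ℝ[X]) (θ : ℝ) : qq (P.comp (-X)) θ = qq P (π - θ) := by
  unfold qq
  rw [eval_comp, eval_neg, eval_X, cos_pi_sub]

theorem zCr_dqq (P : ℝ[X]) (θ : ℝ) : deriv (qq (P.comp (-X))) θ = -deriv (qq P) (π - θ) := by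
  have h1 : qq (P.comp (-X)) = fun x => qq P (π - x) := funext (zCr_qq P)
  rw [h1, deriv_comp_const_sub]

theorem zCr (hZC : ZC) : ZCr := by
  intro ε hε
  obtain ⟨κ, R, hκ, hR, n0, h0⟩ := hZC ε hε
  refine ⟨κ, R, hκ, hR, n0, fun n hn P N j t θ0 hdeg hb hch hj ht0 htN h1 h2 hz hRn hk => ?_⟩
  have e1 : N - (N - 1 - j) = j + 1 := by omega
  have e2 : N - (N - 1 - j + 1) = j := by omega
  have key := h0 n hn (P.comp (-X)) N (N - 1 - j) (fun i => π - t (N - i)) (π - θ0)
    (by
      rw [natDegree_comp, natDegree_neg, natDegree_X, mul_one]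
      exact hdeg)
    (fun x hx => by
      rw [eval_comp, eval_neg, eval_X]
      exact hb (-x) ⟨by linarith [hx.2], by linarith [hx.1]⟩)
    { inc := fun i hi => by
        have e3 : N - i = N - 1 - i + 1 := by omega
        have e4 : N - (i + 1) = N - 1 - i := by omega
        have h3 := hch.inc (N - 1 - i) (by omega)
        rw [e3, e4]
        linarith
      con := fun i hi => by
        rw [zCr_qq, sub_sub_cancel]
        exact hch.con (N - i) (Nat.sub_le _ _)
      mon := fun i hi θ hθ => by
        have e3 : N - i = N - 1 - i + 1 := by omega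
        have e4 : N - (i + 1) = N - 1 - i := by omega
        rw [e3, e4] at hθ
        rw [zCr_dqq, neg_ne_zero]
        exact hch.mon (N - 1 - i) (by omega) (π - θ) ⟨by linarith [hθ.2], by linarith [hθ.1]⟩ }
    (by omega)
    (by
      simp only [Nat.sub_zero]
      linarith)
    (by
      simp only [Nat.sub_self]
      linarith)
    (by
      simp only [e1]
      linarith)
    (by
      simp only [e2]
      linarith)
    (by rw [zCr_qq, sub_sub_cancel, hz])
    (by rw [sub_sub_cancel]; exact hRn)
    (by
      simp only [Nat.sub_self]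
      rw [sub_sub_cancel, sub_sub_cancel]
      exact hk)
  simp only [e1, Nat.sub_self] at key
  push_cast at key
  obtain ⟨k1, κ', m, k2, k3, k4⟩ := key
  refine ⟨by linarith, κ', n - m, ?_, k3, by linarith⟩
  push_cast
  linarith

end Pool.Agent.Helper10.AL
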