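import Pool.Agent.Helper10.AL.St7
import Pool.Agent.Helper10.AL.P.B0
import Pool.Agent.Helper10.AL.P.B1
import Pool.Agent.Helper10.AL.P.B6
import Pool.Agent.Helper10.AL.P.C2
import Pool.Agent.Helper10.AL.P.D4
import Pool.Agent.Helper10.AL.P.CL1
import Pool.Agent.Helper10.AL.P.NP1
import Pool.Agent.Helper10.AL.P.ZCr

/-!
Arc length of polynomials over all windows, piece CLe: lower bound for the largest arc length in
terms of a chain of contact points.
-/

set_option autoImplicit false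

namespace Pool.Agent.Helper10.AL

open Polynomial Set Real MeasureTheory intervalIntegral
open Pool.Agent.Helper40.AS (arc Bdd Ext)

noncomputable section

/-- values of a chain -/
theorem cLe_alt {f : ℝ → ℝ} (hf : ContDiff ℝ 1 f) {N : ℕ} {t : ℕ → ℝ} (hC : Chain f N t) :
    ∀ i ≤ N, f (t i) = f (t 0) * (-1) ^ i := by
  rcases (abs_eq zero_le_one).1 (hC.con 0 (Nat.zero_le _)) with h0 | h0
  · intro i hi
    rw [h0, one_mul]
    exact cL1_alt hf hC h0 i hi
  · intro i hi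
    have hC' : Chain (fun θ => -f θ) N t := by
      refine ⟨hC.inc, ?_, ?_⟩
      · intro i hi
        rw [abs_neg]
        exact hC.con i hi
      · intro i hi θ hθ h2
        rw [deriv.fun_neg] at h2
        exact hC.mon i hi θ hθ (neg_eq_zero.1 h2)
    have h1 := cL1_alt hf.neg hC' (by show -f (t 0) = 1; rw [h0, neg_neg]) i hi
    have h2 : -f (t i) = (-1) ^ i := h1
    rw [h0]
    linarith

/-- variation over a chain of opposite values -/
theorem cLe_chain {f : ℝ → ℝ} (hf : ContDiff ℝ 1 f) (s : ℕ → ℝ) : ∀ N : ℕ,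
    (∀ i < N, s i ≤ s (i + 1)) → (∀ i < N, |f (s (i + 1)) - f (s i)| = 2) →
    2 * (N : ℝ) ≤ Va f (s 0) (s N) := by
  intro N
  induction N with
  | zero =>
    intro _ _
    have h := cL1_ge hf (le_refl (s 0))
    simp only [sub_self, abs_zero] at h
    simpa using h
  | succ N ih =>
    intro h1 h2
    have h3 := ih (fun i hi => h1 i (by omega)) (fun i hi => h2 i (by omega))
    have h4 := cL1_ge hf (h1 N (by omega))
    rw [cL1_add hf (s 0) (s N) (s (N + 1))]
    rw [h2 N (by omega)] at h4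
    push_cast
    linarith

/-- reflection of the alternation property -/
theorem cLe_refl {n : ℕ} {Z : ℝ[X]} (h : Alt n Z) : Alt n (Z.comp (-X)) := by
  obtain ⟨x, h1, h2, h3⟩ := h
  have hv : ∀ i : Fin n, (Z.comp (-X)).eval (-x (Fin.rev i)) = Z.eval (x (Fin.rev i)) := by
    intro i
    rw [eval_comp, eval_neg, eval_X, neg_neg]
  have hp : ∀ i : Fin n, (-1 : ℝ) ^ ((Fin.rev i : Fin n) : ℕ) = (-1) ^ (n - 1) * (-1) ^ (i : ℕ) := by
    intro i
    have hi := i.2
    have e : (Fin.rev i : ℕ) = n - 1 - i := by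
      rw [Fin.val_rev]
      omega
    rw [e]
    have e1 : (-1 : ℝ) ^ (n - 1) = (-1) ^ (n - 1 - i) * (-1) ^ (i : ℕ) := by
      rw [← pow_add]
      congr 1
      omega
    have e2 : ((-1 : ℝ) ^ (i : ℕ)) * (-1) ^ (i : ℕ) = 1 := by
      rw [← mul_pow]; norm_num
    rw [e1]
    linear_combination (-((-1 : ℝ) ^ (n - 1 - i))) * e2
  refine ⟨fun i => -x (Fin.rev i), ?_, ?_, ?_⟩
  · intro i j hij
    have := h1 (Fin.rev_lt_rev.2 hij)
    show -x (Fin.rev i) < -x (Fin.rev j)
    linarith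
  · intro i
    have := h2 (Fin.rev i)
    constructor
    · have := this.2
      show -1 ≤ -x (Fin.rev i)
      linarith
    · have := this.1
      show -x (Fin.rev i) ≤ 1
      linarith
  · rcases h3 with h3 | h3 <;> rcases neg_one_pow_eq_or ℝ (n - 1) with h4 | h4
    · left
      intro i
      rw [hv, h3, hp, h4, one_mul]
    · right
      intro i
      rw [hv, h3, hp, h4]
      ring
    · right
      intro i
      rw [hv, h3, hp, h4, one_mul]
    · left
      intro i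
      rw [hv, h3, hp, h4]
      ring

/-- the alternation points of a Zolotarev polynomial -/
theorem cLe_zol {n : ℕ} {x0 : ℝ} {Z : ℝ[X]} (h : Zol n x0 Z) : Alt n Z := by
  obtain ⟨x, σ, hσ, h1, h2, h3⟩ := h.alt
  have hm : ∀ i j, i < j → j < n → x i < x j := by
    intro i j hij
    induction hij with
    | refl => intro hj; exact h1 i hj
    | @step m hm ih => intro hj; exact (ih (by omega)).trans (h1 m hj)
  refine ⟨fun i => x i, ?_, fun i => h2 i i.2, ?_⟩
  · intro i j hij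
    exact hm i j hij j.2
  · rcases hσ with h | h
    · left
      intro i
      rw [h3 i i.2, h, one_mul]
    · right
      intro i
      rw [h3 i i.2, h]
      ring

/-- the speed of a polynomial with parameters -/
theorem cLe_par (hL3 : L3) (hP2 : P2) {n : ℕ} (hn : 3 ≤ n) {c s p : ℝ} {Z : ℝ[X]}
    (hdeg : Z.natDegree ≤ n) (hb : Bdd Z) (hAlt : Alt n Z) (hPar : Par n c s p Z) {ζ θ : ℝ}
    (hζ : 0 < ζ) (hθ : ζ ≤ θ) (hθπ : θ < π) :
    (n - π / ζ) * √(1 - qq Z θ ^ 2) ≤ |deriv (qq Z) θ| := by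
  have hθ0 : 0 < θ := lt_of_lt_of_le hζ hθ
  obtain ⟨h1, h2, h3, h4, h5, h6⟩ := hP2 n c s p Z hn hdeg hb hAlt hPar
  obtain ⟨κ, hκ, hκ4, hL⟩ := hL3 1 one_pos
  have hl := (hL n c s p 0 0 (by omega) hPar.hc hPar.hs hPar.hp hPar.hps h2 le_rfl (by simp)
    pi_pos.le).2.2.1 θ ⟨hθ0, hθπ.le⟩
  have hom : n - π / ζ ≤ om n c s p θ := by
    have h7 : n - om n c s p θ ≤ π / θ := (le_div_iff₀ hθ0).2 hl
    have h8 : π / θ ≤ π / ζ := div_le_div_of_nonneg_left pi_pos.le hζ hθ
    linarith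
  rw [h5 θ hθ0 hθπ, h1 θ hθ0 hθπ.le]
  have hm := hPar.hm
  have e : 1 - (Z.eval (-1) * cos (∫ t in θ..π, om n c s p t)) ^ 2 =
      sin (∫ t in θ..π, om n c s p t) ^ 2 := by
    rw [mul_pow, ← sq_abs (Z.eval (-1)), hm]
    have := sin_sq_add_cos_sq (∫ t in θ..π, om n c s p t)
    linarith
  rw [e, sqrt_sq_eq_abs]
  exact mul_le_mul_of_nonneg_right hom (abs_nonneg _)

/-- the speed of a polynomial with `n` alternation points -/
theorem cLe_fast (hL3 : L3) (hP1 : P1) (hP2 : P2) {n : ℕ} (hn : 3 ≤ n) {Z : ℝ[X]}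
    (hdeg : Z.natDegree ≤ n) (hb : Bdd Z) (hAlt : Alt n Z) {ζ θ : ℝ} (hζ : 0 < ζ) (hζπ : ζ ≤ π)
    (h1 : ζ ≤ θ) (h2 : θ ≤ π - ζ) : (n - π / ζ) * √(1 - qq Z θ ^ 2) ≤ |deriv (qq Z) θ| := by
  have hz1 : 1 ≤ π / ζ := by
    rw [le_div_iff₀ hζ, one_mul]
    exact hζπ
  rcases hP1 n Z hn hdeg hb hAlt with h | ⟨c, s, p, h | h⟩
  · obtain ⟨m, rfl⟩ : ∃ m, n = m + 1 := ⟨n - 1, by omega⟩
    have e : (((m + 1 : ℕ) : ℤ) - 1) = (m : ℤ) := by
      push_cast
      ring
    rw [e] at h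
    have hT : ((m + 1 : ℕ) - π / ζ) * √(1 - qq (Chebyshev.T ℝ m) θ ^ 2) ≤
        |deriv (qq (Chebyshev.T ℝ m)) θ| := by
      rw [c2_deriv, c2_qq, abs_neg, abs_mul, abs_of_nonneg (Nat.cast_nonneg m)]
      have e1 : 1 - cos ((m : ℝ) * θ) ^ 2 = sin (m * θ) ^ 2 := by
        have := sin_sq_add_cos_sq ((m : ℝ) * θ)
        linarith
      show ((m + 1 : ℕ) - π / ζ) * √(1 - cos ((m : ℝ) * θ) ^ 2) ≤ _
      rw [e1, sqrt_sq_eq_abs]
      refine mul_le_mul_of_nonneg_right ?_ (abs_nonneg _)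
      push_cast
      linarith
    rcases h with h | h
    · rw [h]
      exact hT
    · have hq : qq Z = fun θ => -qq (Chebyshev.T ℝ m) θ := by
        funext τ
        rw [h]
        unfold qq
        rw [eval_neg]
      rw [hq, deriv.fun_neg, abs_neg, neg_sq]
      exact hT
  · exact cLe_par hL3 hP2 hn hdeg hb hAlt h hζ h1 (by linarith)
  · have hdeg' : (Z.comp (-X)).natDegree ≤ n := by
      rw [natDegree_comp, natDegree_neg, natDegree_X, mul_one]
      exact hdeg
    have hb' : Bdd (Z.comp (-X)) := fun x hx => by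
      rw [eval_comp, eval_neg, eval_X]
      exact hb (-x) ⟨by linarith [hx.2], by linarith [hx.1]⟩
    have := cLe_par hL3 hP2 hn hdeg' hb' (cLe_refl hAlt) h hζ (θ := π - θ) (by linarith)
      (by linarith)
    rw [zCr_qq, zCr_dqq, abs_neg, sub_sub_cancel] at this
    exact this

/-- the comparison with a Zolotarev polynomial -/
theorem cLe_zolo (hA1 : A1) (hA2 : A2) (hC1 : C1) (hD1 : D1) (hD3 : D3) (hD3r : D3r) (hD4 : D4)
    (hL3 : L3) (hP1 : P1) (hP2 : P2) (hVF6 : VF6) {n : ℕ} (hn : 3 ≤ n) {a b : ℝ} {P : ℝ[X]}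
    {N j : ℕ} {t : ℕ → ℝ} {θ0 ζ : ℝ} (ha : -1 ≤ a) (hab : a < b) (hb : b ≤ 1)
    (hE : Ext n a b P) (hj : j < N) (ht0 : arccos b ≤ t 0) (htN : t N ≤ arccos a)
    (hC : Chain (qq P) N t) (h1 : qq P (t j) = 1) (hθ1 : t j < θ0) (hθ2 : θ0 < t (j + 1))
    (hθ00 : qq P θ0 = 0) (hζ : 0 < ζ) (hζπ : ζ ≤ π) (hβ : ζ ≤ arccos b)
    (hα : arccos a ≤ π - ζ) (hnζ : π / ζ ≤ n) :
    2 * N + VC ((n - π / ζ) * (arccos a - t N)) + VC ((n - π / ζ) * (t 0 - arccos b)) ≤
      arc a b P := by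
  have hn1 : 1 ≤ n := by omega
  have hn2 : 2 ≤ n := by omega
  have hPn : P.natDegree ≤ n := natDegree_le_iff_degree_le.2 hE.deg
  have hTP := (hA2.2.1 n P hPn hE.bdd)
  have hcP : ContDiff ℝ 1 (qq P) := (hA1.1 n (qq P) hTP.1).1 1
  have halt0 := cLe_alt hcP hC
  have hmono : ∀ i k, i ≤ k → k ≤ N → t i ≤ t k := by
    intro i k hik
    induction hik with
    | refl =>
      intro _
      exact le_rfl
    | step hik ih =>
      intro hj
      exact (ih (by omega)).trans (hC.inc _ (by omega)).le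
  have hσ : qq P (t 0) = (-1) ^ j := by
    have h2 := halt0 j hj.le
    rw [h1] at h2
    have e2 : ((-1 : ℝ) ^ j) * (-1) ^ j = 1 := by
      rw [← mul_pow]; norm_num
    have h3 : qq P (t 0) * ((-1 : ℝ) ^ j * (-1) ^ j) = 1 * (-1) ^ j := by
      rw [← mul_assoc, ← h2]
    rw [e2, mul_one, one_mul] at h3
    exact h3
  have halt : ∀ i ≤ N, qq P (t i) = (-1) ^ j * (-1) ^ i := by
    intro i hi
    rw [halt0 i hi, hσ]
  have hβ0 : 0 ≤ arccos b := arccos_nonneg b
  have hαπ : arccos a ≤ π := arccos_le_pi a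
  have ht00 : 0 ≤ t 0 := hβ0.trans ht0
  have htNπ : t N ≤ π := htN.trans hαπ
  have hmem : ∀ i ≤ N, t i ∈ Icc (0 : ℝ) π := fun i hi =>
    ⟨ht00.trans (hmono 0 i (Nat.zero_le _) hi), (hmono i N hi le_rfl).trans htNπ⟩
  have hθpos : 0 < θ0 := lt_of_le_of_lt (hmem j hj.le).1 hθ1
  have hθπ : θ0 < π := lt_of_lt_of_le hθ2 (hmem (j + 1) hj).2
  have hx0 : cos θ0 ∈ Ioo (-1 : ℝ) 1 := by
    constructor
    · rw [← cos_pi]
      exact strictAntiOn_cos ⟨hθpos.le, hθπ.le⟩ ⟨pi_pos.le, le_rfl⟩ hθπ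
    · rw [← cos_zero]
      exact strictAntiOn_cos ⟨le_rfl, pi_pos.le⟩ ⟨hθpos.le, hθπ.le⟩ hθpos
  obtain ⟨Z, hZ⟩ := hD1 n (cos θ0) hn1 hx0
  -- left side
  obtain ⟨T, hT0, hT1, hT2, hT3⟩ := hD3 n (N - j) (cos θ0) Z P
    (fun i => if i = 0 then cos θ0 else cos (t (j + i))) hn2 hZ hPn hE.bdd hθ00 (by simp) (by
      intro i hi
      by_cases hi0 : i = 0
      · subst hi0
        simp only [zero_add, one_ne_zero, if_false, if_true]
        exact strictAntiOn_cos ⟨hθpos.le, hθπ.le⟩ (hmem (j + 1) hj) hθ2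
      · simp only [hi0, if_false, Nat.succ_ne_zero]
        exact strictAntiOn_cos (hmem (j + i) (by omega)) (hmem (j + (i + 1)) (by omega))
          (hC.inc (j + i) (by omega))) (by
      split_ifs
      · exact neg_one_le_cos _
      · exact neg_one_le_cos _) (by
      intro i hi hiN
      have hi0 : i ≠ 0 := by omega
      simp only [hi0, if_false]
      have h2 := halt (j + i) (by omega)
      have e2 : ((-1 : ℝ) ^ j) * (-1) ^ (j + i) = (-1) ^ i := by
        rw [pow_add, ← mul_assoc, ← mul_pow]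
        norm_num
      rw [e2] at h2
      exact h2)
  -- right side
  obtain ⟨T', hT'0, hT'1, hT'2, hT'3⟩ := hD3r n (j + 1) (cos θ0) Z P
    (fun i => if i = 0 then cos θ0 else cos (t (j + 1 - i))) hn2 hZ hPn hE.bdd hθ00 (by simp) (by
      intro i hi
      by_cases hi0 : i = 0
      · subst hi0
        simp only [zero_add, one_ne_zero, if_false, if_true, Nat.add_sub_cancel]
        exact strictAntiOn_cos (hmem j hj.le) ⟨hθpos.le, hθπ.le⟩ hθ1
      · simp only [hi0, if_false, Nat.succ_ne_zero]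
        refine strictAntiOn_cos (hmem (j + 1 - (i + 1)) (by omega)) (hmem (j + 1 - i) (by omega)) ?_
        have h2 := hC.inc (j + 1 - (i + 1)) (by omega)
        have e : j + 1 - (i + 1) + 1 = j + 1 - i := by omega
        rwa [e] at h2) (by
      simp only [Nat.succ_ne_zero, if_false]
      exact cos_le_one _) (by
      intro i hi hi1
      have hi0 : i ≠ 0 := by omega
      simp only [hi0, if_false]
      have h2 := halt (j + 1 - i) (by omega)
      have e2 : ((-1 : ℝ) ^ j) * (-1) ^ (j + 1 - i) = -(-1) ^ i := by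
        have e3 : (-1 : ℝ) ^ (j + 1) = (-1) ^ (j + 1 - i) * (-1) ^ i := by
          rw [← pow_add]
          congr 1
          omega
        have e4 : ((-1 : ℝ) ^ i) * (-1) ^ i = 1 := by
          rw [← mul_pow]; norm_num
        have e5 : ((-1 : ℝ) ^ j) * (-1) ^ j = 1 := by
          rw [← mul_pow]; norm_num
        rw [pow_succ] at e3
        linear_combination (-((-1 : ℝ) ^ j * (-1) ^ i)) * e3 - (-1 : ℝ) ^ i * e5 -
          ((-1 : ℝ) ^ j * (-1) ^ (j + 1 - i)) * e4
      rw [e2] at h2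
      exact h2)
  have hTle : ∀ i ≤ N - j, T i ≤ cos θ0 := by
    intro i
    induction i with
    | zero =>
      intro _
      rw [hT0]
    | succ i ih =>
      intro hi
      exact (hT1 i (by omega)).le.trans (ih (by omega))
  have hTge : ∀ i ≤ N - j, -1 ≤ T i := by
    intro i hi
    refine le_trans ?_ (hT2 i hi)
    split_ifs
    · exact neg_one_le_cos _
    · exact neg_one_le_cos _
  have hT'ge : ∀ i ≤ j + 1, cos θ0 ≤ T' i := by
    intro i
    induction i with
    | zero =>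
      intro _
      rw [hT'0]
    | succ i ih =>
      intro hi
      exact (ih (by omega)).trans (hT'1 i (by omega)).le
  have hT'le : ∀ i ≤ j + 1, T' i ≤ 1 := by
    intro i hi
    refine le_trans (hT'2 i hi) ?_
    split_ifs
    · exact cos_le_one _
    · exact cos_le_one _
  -- the points for `Z`
  set s : ℕ → ℝ := fun i => if i ≤ j then arccos (T' (j + 1 - i)) else arccos (T (i - j)) with hs
  have hs1 : ∀ i ≤ j, s i = arccos (T' (j + 1 - i)) := by
    intro i hi
    simp [hs, hi]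
  have hs2 : ∀ i, j < i → s i = arccos (T (i - j)) := by
    intro i hi
    have hi0 : ¬ i ≤ j := by omega
    simp [hs, hi0]
  have hsinc : ∀ i < N, s i ≤ s (i + 1) := by
    intro i hi
    rcases lt_trichotomy i j with h | h | h
    · rw [hs1 i h.le, hs1 (i + 1) h]
      refine antitone_arccos ?_
      have h2 := hT'1 (j + 1 - (i + 1)) (by omega)
      have e : j + 1 - (i + 1) + 1 = j + 1 - i := by omega
      rw [e] at h2
      exact h2.le
    · rw [hs1 i h.le, hs2 (i + 1) (by omega)]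
      refine antitone_arccos ?_
      exact (hTle (i + 1 - j) (by omega)).trans (hT'ge (j + 1 - i) (by omega))
    · rw [hs2 i h, hs2 (i + 1) (by omega)]
      refine antitone_arccos ?_
      have h2 := hT1 (i - j) (by omega)
      have e : i - j + 1 = i + 1 - j := by omega
      rw [e] at h2
      exact h2.le
  have hZcd : ∀ i ≤ N, qq Z (s i) = (-1) ^ j * (-1) ^ i := by
    intro i hi
    unfold qq
    rcases le_or_gt i j with h | h
    · rw [hs1 i h, cos_arccos ((neg_one_le_cos _).trans (hT'ge _ (by omega)))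
        (hT'le _ (by omega)), hT'3 _ (by omega) (by omega)]
      have e : j + 1 - i = (j - i) + 1 := by omega
      have e3 : (-1 : ℝ) ^ j = (-1) ^ (j - i) * (-1) ^ i := by
        rw [← pow_add]
        congr 1
        omega
      have e4 : ((-1 : ℝ) ^ i) * (-1) ^ i = 1 := by
        rw [← mul_pow]; norm_num
      rw [e, pow_succ, e3]
      linear_combination (-((-1 : ℝ) ^ (j - i))) * e4
    · rw [hs2 i h, cos_arccos (hTge _ (by omega))
        ((hTle _ (by omega)).trans (cos_le_one _)), hT3 _ (by omega) (by omega)]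
      have e3 : (-1 : ℝ) ^ i = (-1) ^ (i - j) * (-1) ^ j := by
        rw [← pow_add]
        congr 1
        omega
      have e4 : ((-1 : ℝ) ^ j) * (-1) ^ j = 1 := by
        rw [← mul_pow]; norm_num
      rw [e3]
      linear_combination (-((-1 : ℝ) ^ (i - j))) * e4
  have hTZ := hA2.2.1 n Z hZ.deg hZ.bdd
  have hcZ : ContDiff ℝ 1 (qq Z) := (hA1.1 n (qq Z) hTZ.1).1 1
  have habs : ∀ i ≤ N, |qq Z (s i)| = 1 := by
    intro i hi
    rw [hZcd i hi, abs_mul, abs_pow, abs_pow, abs_neg, abs_one, one_pow, one_pow, one_mul]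
  have hmid := cLe_chain hcZ s N hsinc (by
    intro i hi
    rw [hZcd i hi.le, hZcd (i + 1) hi, pow_succ]
    rcases neg_one_pow_eq_or ℝ j with h6 | h6 <;> rcases neg_one_pow_eq_or ℝ i with h7 | h7 <;>
      rw [h6, h7] <;> norm_num)
  have ht0s : t 0 ≤ s 0 := by
    rw [hs1 0 (Nat.zero_le _), ← arccos_cos (hmem 0 (Nat.zero_le _)).1 (hmem 0 (Nat.zero_le _)).2]
    refine antitone_arccos ?_
    have h2 := hT'2 (j + 1) le_rfl
    simpa using h2
  have hsNt : s N ≤ t N := by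
    rw [hs2 N hj, ← arccos_cos (hmem N le_rfl).1 (hmem N le_rfl).2]
    refine antitone_arccos ?_
    have h2 := hT2 (N - j) le_rfl
    have hN0 : N - j ≠ 0 := by omega
    have e : j + (N - j) = N := by omega
    simpa [hN0, e] using h2
  have hβs : arccos b ≤ s 0 := ht0.trans ht0s
  have hsα : s N ≤ arccos a := hsNt.trans htN
  have hs0N : s 0 ≤ s N := by
    have h2 : ∀ i ≤ N, s 0 ≤ s i := by
      intro i
      induction i with
      | zero =>
        intro _
        exact le_rfl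
      | succ i ih =>
        intro hi
        exact (ih (by omega)).trans (hsinc i (by omega))
    exact h2 N le_rfl
  have hfast : ∀ θ ∈ Icc (arccos b) (arccos a), (n - π / ζ) * √(1 - qq Z θ ^ 2) ≤
      |deriv (qq Z) θ| := fun θ hθ =>
    cLe_fast hL3 hP1 hP2 hn hZ.deg hZ.bdd (cLe_zol hZ) hζ hζπ (hβ.trans hθ.1) (hθ.2.trans hα)
  have hnK0 : 0 ≤ (n : ℝ) - π / ζ := by linarith
  have hR := hD4 (qq Z) (s N) (arccos a) (n - π / ζ) hcZ hTZ.2 hnK0 hsα
    (fun θ hθ => hfast θ ⟨hβs.trans (hs0N.trans hθ.1), hθ.2⟩)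
    (cL1_fin hZ.z0 (hβ0.trans (hβs.trans hs0N)) hαπ)
    (Or.inl (habs N le_rfl))
  have hL := hD4 (qq Z) (arccos b) (s 0) (n - π / ζ) hcZ hTZ.2 hnK0 hβs
    (fun θ hθ => hfast θ ⟨hθ.1, hθ.2.trans (hs0N.trans hsα)⟩)
    (cL1_fin hZ.z0 hβ0 (hs0N.trans (hsα.trans hαπ)))
    (Or.inr (habs 0 (Nat.zero_le _)))
  have hR2 : VC ((n - π / ζ) * (arccos a - t N)) ≤ VC ((n - π / ζ) * (arccos a - s N)) := by
    refine hVF6.1 (mul_le_mul_of_nonneg_left ?_ hnK0)
    linarith
  have hL2 : VC ((n - π / ζ) * (t 0 - arccos b)) ≤ VC ((n - π / ζ) * (s 0 - arccos b)) := by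
    refine hVF6.1 (mul_le_mul_of_nonneg_left ?_ hnK0)
    linarith
  have hmax := hE.max Z (natDegree_le_iff_degree_le.1 hZ.deg) hZ.bdd
  have hC1' := (hC1 Z a b ha hab.le hb).1
  rw [cL1_add hcZ (arccos b) (s 0) (arccos a), cL1_add hcZ (s 0) (s N) (arccos a)] at hC1'
  linarith

/-- removal of the normalisation -/
theorem cLe_zolo' (hA1 : A1) (hA2 : A2) (hC1 : C1) (hD1 : D1) (hD3 : D3) (hD3r : D3r)
    (hD4 : D4) (hL3 : L3) (hP1 : P1) (hP2 : P2) (hVF6 : VF6) {n : ℕ} (hn : 3 ≤ n) {a b : ℝ}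
    {P : ℝ[X]} {N j : ℕ} {t : ℕ → ℝ} {θ0 ζ : ℝ} (ha : -1 ≤ a) (hab : a < b) (hb : b ≤ 1)
    (hE : Ext n a b P) (hj : j < N) (ht0 : arccos b ≤ t 0) (htN : t N ≤ arccos a)
    (hC : Chain (qq P) N t) (hθ1 : t j < θ0) (hθ2 : θ0 < t (j + 1))
    (hθ00 : qq P θ0 = 0) (hζ : 0 < ζ) (hζπ : ζ ≤ π) (hβ : ζ ≤ arccos b)
    (hα : arccos a ≤ π - ζ) (hnζ : π / ζ ≤ n) :
    2 * N + VC ((n - π / ζ) * (arccos a - t N)) + VC ((n - π / ζ) * (t 0 - arccos b)) ≤
      arc a b P := by
  rcases (abs_eq zero_le_one).1 (hC.con j hj.le) with h1 | h1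
  · exact cLe_zolo hA1 hA2 hC1 hD1 hD3 hD3r hD4 hL3 hP1 hP2 hVF6 hn ha hab hb hE hj ht0 htN hC h1
      hθ1 hθ2 hθ00 hζ hζπ hβ hα hnζ
  · have hq : ∀ θ, qq (-P) θ = -qq P θ := by
      intro θ
      unfold qq
      rw [eval_neg]
    have hqf : qq (-P) = fun θ => -qq P θ := funext hq
    have harc : ∀ Q : ℝ[X], arc a b (-Q) = arc a b Q := by
      intro Q
      unfold arc
      simp
    have hE' : Ext n a b (-P) := by
      refine ⟨?_, ?_, ?_⟩
      · rw [degree_neg]
        exact hE.deg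
      · intro x hx
        rw [eval_neg, abs_neg]
        exact hE.bdd x hx
      · intro Q hQ hQb
        rw [harc]
        exact hE.max Q hQ hQb
    have hC' : Chain (qq (-P)) N t := by
      refine ⟨hC.inc, ?_, ?_⟩
      · intro i hi
        rw [hq, abs_neg]
        exact hC.con i hi
      · intro i hi θ hθ h2
        rw [hqf] at h2
        rw [deriv.fun_neg] at h2
        exact hC.mon i hi θ hθ (neg_eq_zero.1 h2)
    have h2 := cLe_zolo hA1 hA2 hC1 hD1 hD3 hD3r hD4 hL3 hP1 hP2 hVF6 hn ha hab hb hE' hj ht0 htN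
      hC' (by rw [hq, h1, neg_neg]) hθ1 hθ2 (by rw [hq, hθ00, neg_zero]) hζ hζπ hβ hα hnζ
    rw [harc] at h2
    exact h2

/-- lower bound from the Chebyshev polynomial -/
theorem cLe_cheb (hC2 : C2) (hVF6 : VF6) {ε' : ℝ} {n : ℕ} (hn : 1 ≤ n) {a b : ℝ} {P : ℝ[X]}
    {N : ℕ} {t : ℕ → ℝ} (ha : -1 ≤ a) (hab : a < b) (hb : b ≤ 1) (hE : Ext n a b P) {m : ℤ}
    {x1 x2 : ℝ} (hε' : 0 ≤ ε') (hx2e : n * t 0 = m * π - x2) (hx1e : n * t N = (m + N) * π + x1)
    (hx1 : -ε' ≤ x1) (hx2 : -ε' ≤ x2) :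
    2 * N + VC (n * (arccos a - t N)) + VC (n * (t 0 - arccos b)) - 2 * ε' ≤ arc a b P := by
  have hlow := hC2 n a b P hn ha hab.le hb hE
  have hbr : ∀ g x : ℝ, -ε' ≤ x → VC g - ε' ≤ VC (g + x) := by
    intro g x hx
    have h1 : VC (g - ε') ≤ VC (g + x) := hVF6.1 (by linarith)
    have h2 := hVF6.2.2.1 (g - ε') g
    rw [show g - ε' - g = -ε' by ring, abs_neg, abs_of_nonneg hε'] at h2
    have h3 := neg_abs_le (VC (g - ε') - VC g)
    linarith
  set x := (n : ℝ) * (arccos a - t N) with hx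
  set y := (n : ℝ) * (t 0 - arccos b) with hy
  have hV : (∫ s in (n * arccos b)..(n * arccos a), |sin s|) =
      2 * N + VC (x + x1) + VC (y + x2) := by
    have h1 : (n : ℝ) * arccos a = (n * arccos b) + (n * arccos a - n * arccos b) := by ring
    rw [h1, hVF6.2.2.2.2, ← h1]
    have h2 : (n : ℝ) * arccos a = (x + x1) + ((m + N : ℤ) : ℝ) * π := by
      push_cast
      have : (n : ℝ) * arccos a = x + n * t N := by
        rw [hx]
        ring
      rw [this, hx1e]
      ring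
    have h3 : (n : ℝ) * arccos b = -(y + x2) + (m : ℝ) * π := by
      have : (n : ℝ) * arccos b = n * t 0 - y := by
        rw [hy]
        ring
      rw [this, hx2e]
      ring
    rw [h2, h3, nP1_per hVF6, nP1_per hVF6, nP1_odd]
    push_cast
    ring
  rw [hV] at hlow
  have h4 := hbr x x1 hx1
  have h5 := hbr y x2 hx2
  linarith

theorem cLe (hA1 : A1) (hA2 : A2) (hC1 : C1) (hC2 : C2) (hD0 : D0) (hD1 : D1) (hD3 : D3)
    (hD3r : D3r) (hE2 : E2) (hL3 : L3) (hP1 : P1) (hP1z : P1z) (hP2 : P2) (hVF6 : VF6)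
    (hZC : ZC) (hZCr : ZCr) : CLe := by
  have hB1 : B1 := b1 hA1 hA2 b0
  have hB6 : B6 := b6 hB1 hA2
  have hD4 : D4 := d4 hVF6
  intro ε C hε hC
  obtain ⟨n2, H2⟩ := hE2
  obtain ⟨κ3, R3, hκ3, hR3, n3, H3⟩ := hZC (ε / 4) (by linarith)
  obtain ⟨κ4, R4, hκ4, hR4, n4, H4⟩ := hZCr (ε / 4) (by linarith)
  have hpi : 3 < π := pi_gt_three
  have hp0 : 0 < π := pi_pos
  set κ := min (min κ3 κ4) 1 with hκd
  have hκ : 0 < κ := lt_min (lt_min hκ3 hκ4) one_pos
  have hk3 : κ ≤ κ3 := (min_le_left _ _).trans (min_le_left _ _)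
  have hk4 : κ ≤ κ4 := (min_le_left _ _).trans (min_le_right _ _)
  have hk1 : κ ≤ 1 := min_le_right _ _
  set R := 4 * R3 + 4 * R4 + 48 + 2 * C + 8 * C / κ + 8 * π / κ + 16 * π * C / (κ * ε) with hRd
  have q1 : 0 < 8 * C / κ := by positivity
  have q2 : 0 < 8 * π / κ := by positivity
  have q3 : 0 < 16 * π * C / (κ * ε) := by positivity
  have hR : 0 < R := by positivity
  refine ⟨R, hR, n2 + n3 + n4 + 4, fun n hn a b P N t hW hE hN ht0 htN hch hg0 hgN => ?_⟩
  obtain ⟨ha, hab, hb, hRw⟩ := hW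
  have hnR : (4 : ℝ) ≤ n := by exact_mod_cast (show 4 ≤ n by omega)
  have hnpos : (0 : ℝ) < n := by linarith
  have hdeg : P.natDegree ≤ n := natDegree_le_iff_degree_le.mpr hE.deg
  have hTB := hA2.2.1 n P hdeg hE.bdd
  have hα1 : arccos a ≤ π := arccos_le_pi a
  have hβ0 : 0 ≤ arccos b := arccos_nonneg b
  have hcont : Continuous (qq P) := by
    unfold qq
    exact P.continuous.comp continuous_cos
  set w := arccos a - arccos b with hw
  have hnw : R ≤ n * w := hRw
  have hw0 : 0 < w := by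
    have : (0 : ℝ) < n * w := lt_of_lt_of_le hR hnw
    exact (mul_pos_iff_of_pos_left hnpos).1 this
  have h6 : 6 / (n : ℝ) ≤ w / 8 := by
    rw [div_le_iff₀ hnpos]
    linarith
  have hCw : C / n < w / 2 := by
    rw [div_lt_iff₀ hnpos]
    linarith
  have hCκ : C / n ≤ κ * w / 8 := by
    rw [div_le_iff₀ hnpos]
    have h1 : 8 * C / κ ≤ n * w := by linarith
    rw [div_le_iff₀ hκ] at h1
    linarith
  have hg0' : t 0 - arccos b ≤ C / n := by
    rw [le_div_iff₀ hnpos]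
    linarith
  have hgN' : arccos a - t N ≤ C / n := by
    rw [le_div_iff₀ hnpos]
    linarith
  obtain ⟨j, hj, hj1, hj2⟩ := nP1_mid (N := N) (t := t) (M := arccos b + w / 2)
    (by linarith) (by linarith)
  have hmono : ∀ i ≤ N, t 0 ≤ t i ∧ t i ≤ t N := by
    intro i hi
    have h := nP1_lag hB6 (by omega) hTB hch hi
    constructor
    · have h1 : (0 : ℝ) ≤ n * (t i - t 0) := le_trans (by positivity) h.1
      have := nonneg_of_mul_nonneg_right h1 hnpos
      linarith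
    · have h1 : (0 : ℝ) ≤ n * (t N - t i) := le_trans (by positivity) h.2
      have := nonneg_of_mul_nonneg_right h1 hnpos
      linarith
  have hstj : t (j + 1) - t j ≤ 6 / n := by
    rw [le_div_iff₀ hnpos]
    have := H2 n a b (t j) (t (j + 1)) P (by omega) ha hab hb hE
      (ht0.trans (hmono j hj.le).1) (hch.inc j hj).le ((hmono (j + 1) hj).2.trans htN)
      (hch.mon j hj)
    linarith
  obtain ⟨θ0, hθ1, hθ2, hθ0⟩ := nP1_zero hcont hch hj
  have hθa : w / 4 ≤ θ0 := by linarith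
  have hθb : w / 4 ≤ π - θ0 := by linarith
  -- the lags of the two halves
  have hlagL : ((j : ℝ) + 1 / 2) * π ≤ n * (θ0 - t 0) := by
    have h1 := (nP1_lag hB6 (by omega) hTB hch hj.le).1
    have h2 := (hB1 n (qq P) (t j) θ0 (by omega) hTB hθ1.le
      (fun θ hθ => hch.mon j hj θ ⟨hθ.1, by linarith [hθ.2]⟩)).1
    have h3 : |arccos (qq P θ0) - arccos (qq P (t j))| = π / 2 := by
      rw [hθ0, arccos_zero]
      rcases (abs_eq (by norm_num : (0 : ℝ) ≤ 1)).1 (hch.con j (by omega)) with h | h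
      · rw [h, arccos_one, sub_zero, abs_of_pos (by positivity)]
      · rw [h, arccos_neg_one, show π / 2 - π = -(π / 2) by ring, abs_neg,
          abs_of_pos (by positivity)]
    rw [h3] at h2
    have h4 : (n : ℝ) * (θ0 - t 0) = n * (θ0 - t j) + n * (t j - t 0) := by ring
    rw [h4]
    linarith
  have hlagR : ((N : ℝ) - j - 1 / 2) * π ≤ n * (t N - θ0) := by
    have h1 := (nP1_lag hB6 (by omega) hTB hch (show j + 1 ≤ N by omega)).2
    have h2 := (hB1 n (qq P) θ0 (t (j + 1)) (by omega) hTB hθ2.le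
      (fun θ hθ => hch.mon j hj θ ⟨by linarith [hθ.1], hθ.2⟩)).1
    have h3 : |arccos (qq P (t (j + 1))) - arccos (qq P θ0)| = π / 2 := by
      rw [hθ0, arccos_zero]
      rcases (abs_eq (by norm_num : (0 : ℝ) ≤ 1)).1 (hch.con (j + 1) (by omega)) with h | h
      · rw [h, arccos_one, zero_sub, abs_neg, abs_of_pos (by positivity)]
      · rw [h, arccos_neg_one, show π - π / 2 = π / 2 by ring,
          abs_of_pos (by positivity)]
    rw [h3] at h2
    rw [Nat.cast_sub (show j + 1 ≤ N by omega)] at h1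
    push_cast at h1
    have h4 : (n : ℝ) * (t N - θ0) = n * (t N - t (j + 1)) + n * (t (j + 1) - θ0) := by ring
    rw [h4]
    linarith
  by_cases hI : π - t N ≤ κ3 * (π - θ0)
  · obtain ⟨-, κ', m, e1, e2, e3⟩ := H3 n (by omega) P N j t θ0 hdeg hE.bdd hch hj
      (by linarith) (by linarith) hθ1 hθ2 hθ0
      (by
        have : (n : ℝ) * (w / 4) ≤ n * (π - θ0) := mul_le_mul_of_nonneg_left hθb hnpos.le
        linarith) hI
    rw [Nat.cast_sub hj.le] at e3
    have := cLe_cheb hC2 hVF6 (ε' := ε / 4) (n := n) (by omega) (N := N) (t := t) ha hab hb hE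
      (m := m - j - 1) (x1 := n * (t N - θ0) - ((N : ℝ) - j - 1 / 2) * π - κ')
      (x2 := κ' + (n * (θ0 - t 0) - ((j : ℝ) + 1 / 2) * π)) (by linarith)
      (by push_cast; linarith) (by push_cast; linarith) (by linarith) (by linarith)
    linarith
  by_cases hII : t 0 ≤ κ4 * θ0
  · obtain ⟨-, κ', m, e1, e2, e3⟩ := H4 n (by omega) P N j t θ0 hdeg hE.bdd hch hj
      (by linarith) (by linarith) hθ1 hθ2 hθ0
      (by
        have : (n : ℝ) * (w / 4) ≤ n * θ0 := mul_le_mul_of_nonneg_left hθa hnpos.le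
        linarith) hII
    have := cLe_cheb hC2 hVF6 (ε' := ε / 4) (n := n) (by omega) (N := N) (t := t) ha hab hb hE
      (m := m - j) (x1 := n * (t N - θ0) - ((N : ℝ) - j - 1 / 2) * π + κ')
      (x2 := -κ' + (n * (θ0 - t 0) - ((j : ℝ) + 1 / 2) * π)) (by linarith)
      (by push_cast; linarith) (by push_cast; linarith) (by linarith) (by linarith)
    linarith
  push Not at hI hII
  have hwπ : w ≤ π := by linarith
  have g1 : κ * (w / 4) ≤ κ3 * (π - θ0) := mul_le_mul hk3 hθb (by linarith) hκ3.le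
  have g2 : κ * (w / 4) ≤ κ4 * θ0 := mul_le_mul hk4 hθa (by linarith) hκ4.le
  set ζ := κ * w / 8 with hζd
  have hζ : 0 < ζ := by positivity
  have hζπ : ζ ≤ π := by
    have : κ * w ≤ 1 * w := mul_le_mul_of_nonneg_right hk1 hw0.le
    linarith
  have hnζ : π / ζ ≤ n := by
    rw [div_le_iff₀ hζ]
    have h1 : 8 * π / κ ≤ n * w := by linarith
    rw [div_le_iff₀ hκ] at h1
    rw [hζd]
    linarith
  have key := cLe_zolo' hA1 hA2 hC1 hD1 hD3 hD3r hD4 hL3 hP1 hP2 hVF6 (n := n) (by omega) ha hab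
    hb hE hj ht0 htN hch hθ1 hθ2 hθ0 hζ hζπ (by linarith) (by linarith) hnζ
  have hbr : ∀ g : ℝ, 0 ≤ g → n * g ≤ C → VC (n * g) - ε / 2 ≤ VC ((n - π / ζ) * g) := by
    intro g hg hgC
    have h1 : π / ζ * g ≤ ε / 2 := by
      have h2 : g ≤ C / n := by
        rw [le_div_iff₀ hnpos]
        linarith
      have h3 : π / ζ * g ≤ π / ζ * (C / n) := mul_le_mul_of_nonneg_left h2 (by positivity)
      refine h3.trans ?_
      have h4 : 16 * π * C / (κ * ε) ≤ n * w := by linarith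
      rw [div_le_iff₀ (by positivity)] at h4
      rw [div_mul_div_comm, div_le_iff₀ (by positivity)]
      rw [hζd]
      linarith
    have h5 := hVF6.2.2.1 ((n - π / ζ) * g) (n * g)
    have h6 : (n - π / ζ) * g - n * g = -(π / ζ * g) := by ring
    have h7 : 0 ≤ π / ζ * g := by positivity
    rw [h6, abs_neg, abs_of_nonneg h7] at h5
    have h8 := neg_abs_le (VC ((n - π / ζ) * g) - VC (n * g))
    linarith
  have k1 := hbr (arccos a - t N) (by linarith) hgN
  have k2 := hbr (t 0 - arccos b) (by linarith) hg0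
  linarith

end

end Pool.Agent.Helper10.AL
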