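import Pool.Agent.Helper10.AL.St

/-!
Existence of Zolotarev polynomials.
-/

set_option autoImplicit false

namespace Pool.Agent.Helper10.AL

open Polynomial Set Real MeasureTheory intervalIntegral
open Pool.Agent.Helper40.AS (arc Bdd Ext)

/-- a small perturbation which pushes the contact points inwards stays bounded by `1` -/
theorem d1_perturb (Z h : ℝ[X]) (hb : Bdd Z)
    (hh : ∀ x ∈ Icc (-1 : ℝ) 1, |Z.eval x| = 1 → Z.eval x * h.eval x < 0) :
    ∃ ε : ℝ, 0 < ε ∧ Bdd (Z + C ε * h) := by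
  classical
  -- bound for `h`
  obtain ⟨H, hH0, hH⟩ : ∃ H : ℝ, 0 < H ∧ ∀ x ∈ Icc (-1 : ℝ) 1, |h.eval x| ≤ H := by
    obtain ⟨M, hM⟩ := isCompact_Icc.exists_bound_of_continuousOn
      (f := fun x : ℝ => h.eval x) (s := Icc (-1 : ℝ) 1) h.continuous.continuousOn
    refine ⟨max M 1, lt_of_lt_of_le one_pos (le_max_right _ _), fun x hx => ?_⟩
    exact le_trans (by simpa using hM x hx) (le_max_left _ _)
  -- the compact set where the perturbation does not help
  let K : Set ℝ := Icc (-1 : ℝ) 1 ∩ {x | 0 ≤ Z.eval x * h.eval x}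
  have hKc : IsCompact K := by
    refine isCompact_Icc.inter_right ?_
    exact isClosed_le continuous_const (Z.continuous.mul h.continuous)
  obtain ⟨m, hm1, hm⟩ : ∃ m : ℝ, m < 1 ∧ ∀ x ∈ K, |Z.eval x| ≤ m := by
    rcases K.eq_empty_or_nonempty with hK | hK
    · exact ⟨0, one_pos, fun x hx => by simp [hK] at hx⟩
    · obtain ⟨y, hy, hmax⟩ := hKc.exists_isMaxOn hK
        (f := fun x : ℝ => |Z.eval x|) (Z.continuous.abs.continuousOn)
      refine ⟨|Z.eval y|, ?_, fun x hx => hmax hx⟩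
      have h1 := hb y hy.1
      rcases lt_or_eq_of_le h1 with h2 | h2
      · exact h2
      · have h3 := hh y hy.1 h2
        have h4 : 0 ≤ Z.eval y * h.eval y := hy.2
        linarith
  have hm1' : 0 < 1 - m := by linarith
  set ε : ℝ := min ((1 - m) / H) (1 / H) with hε
  have hε0 : 0 < ε := lt_min (by positivity) (by positivity)
  have hεH1 : ε * H ≤ 1 - m := by
    have := min_le_left ((1 - m) / H) (1 / H)
    calc ε * H ≤ (1 - m) / H * H := mul_le_mul_of_nonneg_right this hH0.le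
      _ = 1 - m := by field_simp
  have hεH2 : ε * H ≤ 1 := by
    have := min_le_right ((1 - m) / H) (1 / H)
    calc ε * H ≤ 1 / H * H := mul_le_mul_of_nonneg_right this hH0.le
      _ = 1 := by field_simp
  refine ⟨ε, hε0, fun x hx => ?_⟩
  have hev : (Z + C ε * h).eval x = Z.eval x + ε * h.eval x := by simp
  rw [hev]
  have hhx := hH x hx
  have hεh : |ε * h.eval x| ≤ ε * H := by
    rw [abs_mul, abs_of_pos hε0]
    exact mul_le_mul_of_nonneg_left hhx hε0.le
  by_cases hxK : 0 ≤ Z.eval x * h.eval x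
  · have h1 := hm x ⟨hx, hxK⟩
    calc |Z.eval x + ε * h.eval x| ≤ |Z.eval x| + |ε * h.eval x| := abs_add_le _ _
      _ ≤ m + (1 - m) := by linarith
      _ = 1 := by ring
  · push Not at hxK
    have h1 := hb x hx
    rw [abs_le] at h1 hεh ⊢
    rcases lt_or_ge (Z.eval x) 0 with h2 | h2
    · have h3 : 0 ≤ h.eval x := by
        by_contra h4
        push Not at h4
        nlinarith [mul_pos_of_neg_of_neg h2 h4]
      have h4 : 0 ≤ ε * h.eval x := mul_nonneg hε0.le h3
      constructor <;> linarith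
    · have h3 : h.eval x ≤ 0 := by
        by_contra h4
        push Not at h4
        nlinarith [mul_nonneg h2 h4.le]
      have h4 : ε * h.eval x ≤ 0 := mul_nonpos_of_nonneg_of_nonpos hε0.le h3
      constructor <;> linarith

theorem d1 (hD1a : D1a) (hD1b : D1b) : D1 := by
  intro n x0 hn hx
  obtain ⟨Z, hdeg, hb, hz, hz', hmax⟩ := hD1a n x0 hn hx
  by_contra hcon
  have hna : ¬ ∃ (x : ℕ → ℝ) (σ : ℝ), (σ = 1 ∨ σ = -1) ∧ (∀ i, i + 1 < n → x i < x (i + 1)) ∧
      (∀ i < n, x i ∈ Icc (-1 : ℝ) 1) ∧ ∀ i < n, Z.eval (x i) = σ * (-1) ^ i :=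
    fun h1 => hcon ⟨Z, ⟨hx, hdeg, hb, hz, hz', h1⟩⟩
  obtain ⟨h, hhdeg, hh0, hh1, hh⟩ := hD1b n x0 Z hn hx hdeg hb hz hz' hna
  obtain ⟨ε, hε, hbε⟩ := d1_perturb Z h hb hh
  have h2 : (Z + C ε * h).natDegree ≤ n := by
    refine (natDegree_add_le _ _).trans (max_le hdeg ?_)
    exact (natDegree_C_mul_le _ _).trans hhdeg
  have h3 : (Z + C ε * h).eval x0 = 0 := by simp [hz, hh0]
  have h4 := hmax (Z + C ε * h) h2 hbε h3
  have h5 : (Z + C ε * h).derivative.eval x0 = Z.derivative.eval x0 + ε * h.derivative.eval x0 := by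
    simp
  rw [h5] at h4
  have h6 : 0 < ε * h.derivative.eval x0 := mul_pos hε hh1
  linarith

end Pool.Agent.Helper10.AL
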