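import Pool.Agent.Helper10.AL.St

/-!
Existence of the polynomial of degree at most `n`, bounded by one on the interval,
vanishing at a given point and with the largest derivative there.
-/

set_option autoImplicit false

namespace Pool.Agent.Helper10.AL

open Polynomial Set Real

noncomputable section

/-- the nodes used for the interpolation -/
def d1a_node (n : ℕ) (i : Fin (n + 1)) : ℝ := (i : ℝ) / ((n : ℝ) + 1)

theorem d1a_node_mem (n : ℕ) (i : Fin (n + 1)) : d1a_node n i ∈ Icc (-1 : ℝ) 1 := by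
  have h0 : (0 : ℝ) < (n : ℝ) + 1 := by positivity
  have hi : ((i : ℕ) : ℝ) ≤ (n : ℝ) := by
    have := i.isLt
    exact_mod_cast Nat.lt_succ_iff.mp this
  have h1 : (0 : ℝ) ≤ d1a_node n i := by unfold d1a_node; positivity
  have h2 : d1a_node n i ≤ 1 := by
    unfold d1a_node
    rw [div_le_one h0]
    linarith
  exact ⟨by linarith, h2⟩

theorem d1a_node_inj (n : ℕ) : Function.Injective (d1a_node n) := by
  intro i j h
  have h0 : ((n : ℝ) + 1) ≠ 0 := by positivity
  unfold d1a_node at h
  have h' : ((i : ℕ) : ℝ) = ((j : ℕ) : ℝ) := by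
    field_simp at h
    exact h
  exact Fin.ext (by exact_mod_cast h')

/-- the polynomial with given values at the nodes -/
def d1a_pol (n : ℕ) (v : Fin (n + 1) → ℝ) : ℝ[X] :=
  Lagrange.interpolate Finset.univ (d1a_node n) v

theorem d1a_eval_node (n : ℕ) (v : Fin (n + 1) → ℝ) (i : Fin (n + 1)) :
    (d1a_pol n v).eval (d1a_node n i) = v i := by
  unfold d1a_pol
  exact Lagrange.eval_interpolate_at_node v ((d1a_node_inj n).injOn) (Finset.mem_univ i)

theorem d1a_natDegree (n : ℕ) (v : Fin (n + 1) → ℝ) : (d1a_pol n v).natDegree ≤ n := by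
  have h := Lagrange.degree_interpolate_lt (s := Finset.univ) v ((d1a_node_inj n).injOn)
  have h2 : (d1a_pol n v).degree < ((n + 1 : ℕ) : WithBot ℕ) := by
    have h3 : (Finset.univ : Finset (Fin (n + 1))).card = n + 1 := by simp
    rw [h3] at h
    exact h
  by_cases h0 : d1a_pol n v = 0
  · rw [h0]; simp
  · exact Nat.lt_succ_iff.mp ((Polynomial.natDegree_lt_iff_degree_lt h0).mpr h2)

theorem d1a_surj (n : ℕ) (P : ℝ[X]) (hP : P.natDegree ≤ n) :
    P = d1a_pol n (fun i => P.eval (d1a_node n i)) := by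
  unfold d1a_pol
  refine Lagrange.eq_interpolate ((d1a_node_inj n).injOn) ?_
  have h3 : (Finset.univ : Finset (Fin (n + 1))).card = n + 1 := by simp
  rw [h3]
  refine lt_of_le_of_lt Polynomial.degree_le_natDegree ?_
  exact_mod_cast Nat.lt_succ_iff.mpr hP

theorem d1a_cont (n : ℕ) (x : ℝ) : Continuous fun v => (d1a_pol n v).eval x := by
  unfold d1a_pol
  simp only [Lagrange.interpolate_apply, Polynomial.eval_finsetSum, Polynomial.eval_mul,
    Polynomial.eval_C]
  fun_prop

theorem d1a_cont' (n : ℕ) (x : ℝ) : Continuous fun v => (d1a_pol n v).derivative.eval x := by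
  unfold d1a_pol
  simp only [Lagrange.interpolate_apply, Polynomial.derivative_sum, Polynomial.derivative_mul,
    Polynomial.derivative_C, zero_mul, zero_add, Polynomial.eval_finsetSum, Polynomial.eval_mul,
    Polynomial.eval_C]
  fun_prop

theorem d1a_compact (n : ℕ) (x0 : ℝ) :
    IsCompact {v : Fin (n + 1) → ℝ | (∀ x ∈ Icc (-1 : ℝ) 1, |(d1a_pol n v).eval x| ≤ 1) ∧
      (d1a_pol n v).eval x0 = 0} := by
  have hbox : IsCompact (Set.pi Set.univ fun _ : Fin (n + 1) => Icc (-1 : ℝ) 1) :=
    isCompact_univ_pi fun _ => isCompact_Icc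
  refine hbox.of_isClosed_subset ?_ ?_
  · have h1 : IsClosed {v : Fin (n + 1) → ℝ | ∀ x ∈ Icc (-1 : ℝ) 1, |(d1a_pol n v).eval x| ≤ 1} := by
      simp only [Set.ofPred_forall]
      exact isClosed_iInter fun x => isClosed_iInter fun _ =>
        isClosed_le (d1a_cont n x).abs continuous_const
    exact h1.inter (isClosed_eq (d1a_cont n x0) continuous_const)
  · intro v hv i _
    have h := hv.1 (d1a_node n i) (d1a_node_mem n i)
    rw [d1a_eval_node] at h
    exact abs_le.mp h

theorem d1a : D1a := by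
  intro n x0 hn hx0
  have hne : {v : Fin (n + 1) → ℝ | (∀ x ∈ Icc (-1 : ℝ) 1, |(d1a_pol n v).eval x| ≤ 1) ∧
      (d1a_pol n v).eval x0 = 0}.Nonempty := by
    refine ⟨0, ?_⟩
    have h0 : d1a_pol n 0 = 0 := by unfold d1a_pol; exact map_zero _
    simp only [Set.mem_ofPred_eq, h0]
    simp
  obtain ⟨w, hw, hmax⟩ := (d1a_compact n x0).exists_isMaxOn hne (d1a_cont' n x0).continuousOn
  have key : ∀ Q : ℝ[X], Q.natDegree ≤ n → Pool.Agent.Helper40.AS.Bdd Q → Q.eval x0 = 0 →
      Q.derivative.eval x0 ≤ (d1a_pol n w).derivative.eval x0 := by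
    intro Q hQ hB hQ0
    have hs := d1a_surj n Q hQ
    have hmem : (fun i => Q.eval (d1a_node n i)) ∈ {v : Fin (n + 1) → ℝ |
        (∀ x ∈ Icc (-1 : ℝ) 1, |(d1a_pol n v).eval x| ≤ 1) ∧ (d1a_pol n v).eval x0 = 0} := by
      refine ⟨?_, ?_⟩
      · intro x hx
        rw [← hs]
        exact hB x hx
      · rw [← hs]
        exact hQ0
    have h := hmax hmem
    simp only [Set.mem_ofPred_eq] at h
    rw [← hs] at h
    exact h
  refine ⟨d1a_pol n w, d1a_natDegree n w, hw.1, hw.2, ?_, key⟩
  have hc := key (C (1 / 2 : ℝ) * (X - C x0)) ?_ ?_ ?_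
  · have h1 : (C (1 / 2 : ℝ) * (X - C x0)).derivative.eval x0 = 1 / 2 := by
      simp
    rw [h1] at hc
    linarith
  · refine le_trans (Polynomial.natDegree_C_mul_le _ _) ?_
    rw [Polynomial.natDegree_X_sub_C]
    exact hn
  · intro x hx
    simp only [Polynomial.eval_mul, Polynomial.eval_C, Polynomial.eval_sub, Polynomial.eval_X]
    rw [abs_le]
    constructor <;> nlinarith [hx.1, hx.2, hx0.1, hx0.2]
  · simp

end

end Pool.Agent.Helper10.AL
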