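import Pool.Agent.Helper10.AL.St

/-!
A polynomial with prescribed signs on the contact set.
-/

set_option autoImplicit false

namespace Pool.Agent.Helper10.AL

open Polynomial Set Real
open Pool.Agent.Helper40.AS (Bdd)

/-- an alternation of length `L` in `S` for the sign function `t` -/
def d1b_Alt (S : Finset ℝ) (t : ℝ → ℝ) (L : ℕ) : Prop :=
  ∃ x : ℕ → ℝ, (∀ i < L, x i ∈ S) ∧
    ∀ i, i + 1 < L → x i < x (i + 1) ∧ t (x (i + 1)) = -t (x i)

theorem d1b_cons {S : Finset ℝ} {t : ℝ → ℝ} {L : ℕ} {x : ℕ → ℝ} (h1 : ∀ i < L, x i ∈ S)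
    (h2 : ∀ i, i + 1 < L → x i < x (i + 1) ∧ t (x (i + 1)) = -t (x i)) {y : ℝ} (hy : y ∈ S)
    (hyx : y < x 0) (ht : t (x 0) = -t y) : d1b_Alt S t (L + 1) := by
  refine ⟨fun i => Nat.casesOn i y x, ?_, ?_⟩
  · intro i hi
    cases i with
    | zero => exact hy
    | succ i => exact h1 i (by omega)
  · intro i hi
    cases i with
    | zero => exact ⟨hyx, ht⟩
    | succ i => exact h2 i (by omega)

theorem d1b_signs (S : Finset ℝ) : ∀ (c : ℕ) (t : ℝ → ℝ), (∀ s ∈ S, t s = 1 ∨ t s = -1) →
    ¬ d1b_Alt S t (c + 2) → ∃ q : ℝ[X], q.natDegree ≤ c ∧ ∀ s ∈ S, 0 < t s * q.eval s := by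
  classical
  intro c
  induction c with
  | zero =>
    intro t ht hno
    rcases S.eq_empty_or_nonempty with rfl | hne
    · exact ⟨1, by simp, fun s hs => absurd hs (Finset.notMem_empty s)⟩
    obtain ⟨m, hm, hmin⟩ := S.exists_min_image id hne
    refine ⟨C (t m), by simp, fun s hs => ?_⟩
    have hts : t s = t m := by
      by_contra hne'
      apply hno
      have hms : m < s := lt_of_le_of_ne (hmin s hs) fun h => hne' (by rw [h])
      have h1 : t s = -t m := by
        rcases ht s hs with h | h <;> rcases ht m hm with h' | h'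
        · exact absurd (h.trans h'.symm) hne'
        · rw [h, h']; norm_num
        · rw [h, h']
        · exact absurd (h.trans h'.symm) hne'
      refine d1b_cons (x := fun _ => s) (L := 1) (fun _ _ => hs) (fun i hi => by omega) hm hms h1
    rw [eval_C, hts]
    rcases ht m hm with h | h <;> rw [h] <;> norm_num
  | succ c ih =>
    intro t ht hno
    rcases S.eq_empty_or_nonempty with rfl | hne
    · exact ⟨1, by simp, fun s hs => absurd hs (Finset.notMem_empty s)⟩
    obtain ⟨m, hm, hmin⟩ := S.exists_min_image id hne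
    by_cases hall : ∀ s ∈ S, t s = t m
    · refine ⟨C (t m), by simp, fun s hs => ?_⟩
      rw [eval_C, hall s hs]
      rcases ht m hm with h | h <;> rw [h] <;> norm_num
    push Not at hall
    have hne2 : (S.filter fun s => t s ≠ t m).Nonempty := by
      obtain ⟨s, hs, hs'⟩ := hall
      exact ⟨s, Finset.mem_filter.2 ⟨hs, hs'⟩⟩
    obtain ⟨z, hz, hzmin⟩ := (S.filter fun s => t s ≠ t m).exists_min_image id hne2
    obtain ⟨hzS, hzt⟩ := Finset.mem_filter.1 hz
    have hopp : ∀ s ∈ S, t s ≠ t m → t s = -t m := by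
      intro s hs hne'
      rcases ht s hs with h | h <;> rcases ht m hm with h' | h'
      · exact absurd (h.trans h'.symm) hne'
      · rw [h, h']; norm_num
      · rw [h, h']
      · exact absurd (h.trans h'.symm) hne'
    have htz : t z = -t m := hopp z hzS hzt
    have htm0 : t m ≠ 0 := by
      rcases ht m hm with h | h <;> rw [h] <;> norm_num
    have hbelow : ∀ s ∈ S, s < z → t s = t m := by
      intro s hs hsz
      by_contra hne'
      have := hzmin s (Finset.mem_filter.2 ⟨hs, hne'⟩)
      simp only [id] at this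
      linarith
    have hmz : m < z := lt_of_le_of_ne (hmin z hzS) fun h => hzt (by rw [h])
    obtain ⟨w, hw, hwmax⟩ := (S.filter fun s => s < z).exists_max_image id
      ⟨m, Finset.mem_filter.2 ⟨hm, hmz⟩⟩
    obtain ⟨hwS, hwz⟩ := Finset.mem_filter.1 hw
    -- the modified signs
    set t' : ℝ → ℝ := fun s => if s < z then -t s else t s with ht'
    have ht'1 : ∀ s, s < z → t' s = -t s := fun s hs => by rw [ht']; simp [hs]
    have ht'2 : ∀ s, z ≤ s → t' s = t s := fun s hs => by rw [ht']; simp [not_lt.2 hs]
    obtain ⟨q, hq, hq'⟩ := ih t' (by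
      intro s hs
      rcases lt_or_ge s z with h | h
      · rw [ht'1 s h]
        rcases ht s hs with h' | h' <;> rw [h'] <;> norm_num
      · rw [ht'2 s h]
        exact ht s hs) (by
      rintro ⟨x, hx1, hx2⟩
      apply hno
      -- the first step
      have hx01 := hx2 0 (by omega)
      have hx1z : z ≤ x 1 := by
        by_contra h
        rw [not_le] at h
        have h0 : x 0 < z := lt_trans hx01.1 h
        have h3 := hx01.2
        rw [zero_add, ht'1 _ h, ht'1 _ h0, hbelow _ (hx1 1 (by omega)) h,
          hbelow _ (hx1 0 (by omega)) h0] at h3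
        apply htm0
        linarith
      have hxi : ∀ i, 1 ≤ i → i < c + 2 → z ≤ x i := by
        intro i
        induction i with
        | zero => intro h; omega
        | succ i ihi =>
          intro _ hi
          rcases Nat.eq_zero_or_pos i with rfl | hpos
          · exact hx1z
          · exact (ihi hpos (by omega)).trans (hx2 i (by omega)).1.le
      set x' : ℕ → ℝ := fun i => if i = 0 then max (x 0) z else x i with hx'
      have hx'0 : x' 0 = max (x 0) z := by rw [hx']; simp
      have hx'i : ∀ i, 1 ≤ i → x' i = x i := fun i hi => by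
        rw [hx']; simp [Nat.one_le_iff_ne_zero.1 hi]
      have htx0 : t (x' 0) = t' (x 0) ∧ x' 0 ∈ S := by
        rcases lt_or_ge (x 0) z with h | h
        · rw [hx'0, max_eq_right h.le, ht'1 _ h, hbelow _ (hx1 0 (by omega)) h]
          exact ⟨htz, hzS⟩
        · rw [hx'0, max_eq_left h, ht'2 _ h]
          exact ⟨rfl, hx1 0 (by omega)⟩
      have hS' : ∀ i < c + 2, x' i ∈ S := by
        intro i hi
        rcases Nat.eq_zero_or_pos i with rfl | hpos
        · exact htx0.2
        · rw [hx'i i hpos]
          exact hx1 i hi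
      have hstep : ∀ i, i + 1 < c + 2 → x' i < x' (i + 1) ∧ t (x' (i + 1)) = -t (x' i) := by
        intro i hi
        rcases Nat.eq_zero_or_pos i with rfl | hpos
        · have h4 : t (x' (0 + 1)) = -t (x' 0) := by
            rw [zero_add, hx'i 1 le_rfl, htx0.1, ← ht'2 _ hx1z]
            exact hx01.2
          refine ⟨?_, h4⟩
          rw [hx'0, zero_add, hx'i 1 le_rfl]
          refine max_lt hx01.1 (lt_of_le_of_ne hx1z fun h => ?_)
          rw [zero_add, hx'i 1 le_rfl, ← h, hx'0] at h4
          rcases le_total (x 0) z with h5 | h5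
          · rw [max_eq_right h5, htz] at h4
            apply htm0
            linarith
          · have := hx01.1
            rw [zero_add, ← h] at this
            linarith
        · rw [hx'i i hpos, hx'i (i + 1) (by omega)]
          refine ⟨(hx2 i hi).1, ?_⟩
          rw [← ht'2 _ (hxi i hpos (by omega)), ← ht'2 _ (hxi (i + 1) (by omega) hi)]
          exact (hx2 i hi).2
      have hzx0 : z ≤ x' 0 := by rw [hx'0]; exact le_max_right _ _
      by_cases h6 : t (x' 0) = t m
      · have h7 : z < x' 0 := lt_of_le_of_ne hzx0 fun h => by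
          rw [← h, htz] at h6
          apply htm0
          linarith
        exact d1b_cons hS' hstep hzS h7 (by rw [h6, htz, neg_neg])
      · exact d1b_cons hS' hstep hm (hmz.trans_le hzx0) (hopp _ (hS' 0 (by omega)) h6))
    refine ⟨(X - C ((w + z) / 2)) * q, ?_, ?_⟩
    · refine (natDegree_mul_le).trans ?_
      have : (X - C ((w + z) / 2) : ℝ[X]).natDegree = 1 := natDegree_X_sub_C _
      omega
    · intro s hs
      rw [eval_mul, eval_sub, eval_X, eval_C]
      have h1 := hq' s hs
      rcases lt_or_ge s z with h | h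
      · rw [ht'1 s h] at h1
        have h2 : s ≤ w := hwmax s (Finset.mem_filter.2 ⟨hs, h⟩)
        have h3 : s - (w + z) / 2 < 0 := by linarith
        nlinarith
      · rw [ht'2 s h] at h1
        have h3 : 0 < s - (w + z) / 2 := by linarith
        have : t s * ((s - (w + z) / 2) * q.eval s) = (s - (w + z) / 2) * (t s * q.eval s) := by
          ring
        rw [this]
        exact mul_pos h3 h1

theorem d1b : D1b := by
  classical
  intro n x0 Z hn hx0 hdeg hZb hZ0 hZ1 hno
  -- the contact set
  have hp : (Z ^ 2 - 1 : ℝ[X]) ≠ 0 := by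
    intro h
    have h1 : (Z ^ 2 - 1 : ℝ[X]).eval x0 = 0 := by rw [h, eval_zero]
    rw [eval_sub, eval_pow, hZ0, eval_one] at h1
    norm_num at h1
  set K : Finset ℝ := (Z ^ 2 - 1 : ℝ[X]).roots.toFinset.filter fun x => x ∈ Icc (-1 : ℝ) 1 with hK
  have hKmem : ∀ x, x ∈ K ↔ x ∈ Icc (-1 : ℝ) 1 ∧ |Z.eval x| = 1 := by
    intro x
    rw [hK, Finset.mem_filter, Multiset.mem_toFinset, mem_roots hp, IsRoot.def, eval_sub, eval_pow,
      eval_one, and_comm]
    refine and_congr_right fun _ => ?_
    constructor
    · intro h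
      have h1 : |Z.eval x| ^ 2 = 1 := by rw [sq_abs]; linarith
      have h2 := abs_nonneg (Z.eval x)
      nlinarith
    · intro h
      have h1 : |Z.eval x| ^ 2 = 1 := by rw [h]; norm_num
      rw [sq_abs] at h1
      linarith
  have hKx0 : ∀ x ∈ K, x ≠ x0 := by
    rintro x hx rfl
    have := ((hKmem x).1 hx).2
    rw [hZ0] at this
    norm_num at this
  have hKZ : ∀ x ∈ K, Z.eval x = 1 ∨ Z.eval x = -1 := by
    intro x hx
    exact (abs_eq zero_le_one).1 ((hKmem x).1 hx).2
  set S : Finset ℝ := insert x0 K with hS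
  set t : ℝ → ℝ := fun x => if x = x0 then 1 else if x0 < x then -Z.eval x else Z.eval x with ht
  have ht0 : t x0 = 1 := by rw [ht]; simp
  have ht1 : ∀ x, x0 < x → t x = -Z.eval x := fun x hx => by
    rw [ht]; simp [hx, ne_of_gt hx]
  have ht2 : ∀ x, x < x0 → t x = Z.eval x := fun x hx => by
    rw [ht]; simp [not_lt.2 hx.le, ne_of_lt hx]
  have htS : ∀ s ∈ S, t s = 1 ∨ t s = -1 := by
    intro s hs
    rcases Finset.mem_insert.1 hs with rfl | hs
    · exact Or.inl ht0
    rcases lt_or_gt_of_ne (hKx0 s hs) with h | h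
    · rw [ht2 s h]; exact hKZ s hs
    · rw [ht1 s h]
      rcases hKZ s hs with h' | h' <;> rw [h'] <;> norm_num
  obtain ⟨c, rfl⟩ : ∃ c, n = c + 1 := ⟨n - 1, by omega⟩
  obtain ⟨q, hq, hq'⟩ := d1b_signs S c t htS (by
    rintro ⟨x, hx1, hx2⟩
    apply hno
    -- the first index to the right
    have hex : ∃ i, x0 ≤ x i ∨ i = c + 2 := ⟨c + 2, Or.inr rfl⟩
    obtain ⟨j, hj, hjmin⟩ : ∃ j, (x0 ≤ x j ∨ j = c + 2) ∧ ∀ i < j, ¬ (x0 ≤ x i ∨ i = c + 2) :=
      ⟨Nat.find hex, Nat.find_spec hex, fun i hi => Nat.find_min hex hi⟩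
    have hleft : ∀ i < j, x i < x0 := fun i hi => by
      have := hjmin i hi
      push Not at this
      exact this.1
    have hright : ∀ i, j ≤ i → i < c + 2 → x0 ≤ x i := by
      intro i
      induction i with
      | zero =>
        intro h h'
        rcases hj with h1 | h1
        · have : j = 0 := by omega
          rw [this] at h1
          exact h1
        · omega
      | succ i ih =>
        intro h h'
        rcases Nat.lt_or_ge i j with h2 | h2
        · have : j = i + 1 := by omega
          rw [this] at hj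
          rcases hj with h1 | h1
          · exact h1
          · omega
        · exact (ih h2 (by omega)).trans (hx2 i h').1.le
    have hright' : ∀ i, j ≤ i → i + 1 < c + 2 → x0 < x (i + 1) := fun i h h' =>
      lt_of_le_of_lt (hright i h (by omega)) (hx2 i h').1
    set y : ℕ → ℝ := fun i => if i < j then x i else x (i + 1) with hy
    have hy1 : ∀ i, i < j → y i = x i := fun i hi => by rw [hy]; simp [hi]
    have hy2 : ∀ i, j ≤ i → y i = x (i + 1) := fun i hi => by rw [hy]; simp [not_lt.2 hi]
    have hyK : ∀ i < c + 1, y i ∈ K := by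
      intro i hi
      rcases Nat.lt_or_ge i j with h | h
      · rw [hy1 i h]
        rcases Finset.mem_insert.1 (hx1 i (by omega)) with h' | h'
        · exact absurd h' (ne_of_lt (hleft i h))
        · exact h'
      · rw [hy2 i h]
        rcases Finset.mem_insert.1 (hx1 (i + 1) (by omega)) with h' | h'
        · exact absurd h' (ne_of_gt (hright' i h (by omega)))
        · exact h'
    have hystep : ∀ i, i + 1 < c + 1 → y i < y (i + 1) ∧
        Z.eval (y (i + 1)) = -Z.eval (y i) := by
      intro i hi
      rcases Nat.lt_or_ge (i + 1) j with h | h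
      · rw [hy1 i (by omega), hy1 (i + 1) h, ← ht2 _ (hleft i (by omega)), ← ht2 _ (hleft _ h)]
        exact hx2 i (by omega)
      · rcases Nat.lt_or_ge i j with h3 | h3
        · have hj' : j = i + 1 := by omega
          rw [hy1 i h3, hy2 (i + 1) h]
          have h4 := hx2 i (by omega)
          have h5 := hx2 (i + 1) (by omega)
          refine ⟨h4.1.trans h5.1, ?_⟩
          have h6 := ht1 _ (hright' (i + 1) h (by omega))
          have h7 := ht2 _ (hleft i h3)
          linarith [h4.2, h5.2]
        · rw [hy2 i h3, hy2 (i + 1) h]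
          have h5 := hx2 (i + 1) (by omega)
          refine ⟨h5.1, ?_⟩
          have h6 := ht1 _ (hright' (i + 1) h (by omega))
          have h7 := ht1 _ (hright' i h3 (by omega))
          linarith [h5.2]
    refine ⟨y, Z.eval (y 0), hKZ _ (hyK 0 (by omega)), fun i hi => (hystep i hi).1,
      fun i hi => ((hKmem _).1 (hyK i hi)).1, ?_⟩
    intro i
    induction i with
    | zero => intro _; rw [pow_zero, mul_one]
    | succ i ih =>
      intro hi
      rw [(hystep i hi).2, ih (by omega), pow_succ]
      ring)
  have hS0 : x0 ∈ S := Finset.mem_insert_self _ _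
  have hq0 := hq' x0 hS0
  rw [ht0, one_mul] at hq0
  refine ⟨(X - C x0) * q, ?_, ?_, ?_, ?_⟩
  · refine (natDegree_mul_le).trans ?_
    have : (X - C x0 : ℝ[X]).natDegree = 1 := natDegree_X_sub_C _
    omega
  · rw [eval_mul, eval_sub, eval_X, eval_C, sub_self, zero_mul]
  · rw [derivative_mul, derivative_sub, derivative_X, derivative_C, sub_zero, one_mul, eval_add,
      eval_mul, eval_sub, eval_X, eval_C, sub_self, zero_mul, add_zero]
    exact hq0
  · intro x hx hxZ
    have hxK : x ∈ K := (hKmem x).2 ⟨hx, hxZ⟩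
    have h1 := hq' x (Finset.mem_insert_of_mem hxK)
    rw [eval_mul, eval_sub, eval_X, eval_C]
    rcases lt_or_gt_of_ne (hKx0 x hxK) with h | h
    · rw [ht2 x h] at h1
      have h2 : x - x0 < 0 := by linarith
      have h3 : Z.eval x * ((x - x0) * q.eval x) = (x - x0) * (Z.eval x * q.eval x) := by ring
      rw [h3]
      exact mul_neg_of_neg_of_pos h2 h1
    · rw [ht1 x h] at h1
      have h2 : 0 < x - x0 := by linarith
      have h3 : Z.eval x * ((x - x0) * q.eval x) = -((x - x0) * (-Z.eval x * q.eval x)) := by ring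
      rw [h3]
      have := mul_pos h2 h1
      linarith

end Pool.Agent.Helper10.AL
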