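import Pool.Agent.Helper10.AL.St

/-!
Project AL, piece D2a: the structure of polynomials with `n` alternation points.
-/

set_option autoImplicit false

namespace Pool.Agent.Helper10.AL

open Polynomial Set Real MeasureTheory intervalIntegral
open Pool.Agent.Helper40.AS (Bdd contact_int)

noncomputable section

/-- the difference in the Bernstein-Szego inequality -/
def d2a_D (n : ℕ) (Z : ℝ[X]) : ℝ[X] :=
  C ((n : ℝ) ^ 2) * (1 - Z ^ 2) - (1 - X ^ 2) * Z.derivative ^ 2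

theorem d2a_eval (n : ℕ) (Z : ℝ[X]) (x : ℝ) : (d2a_D n Z).eval x =
    (n : ℝ) ^ 2 * (1 - Z.eval x ^ 2) - (1 - x ^ 2) * Z.derivative.eval x ^ 2 := by
  simp [d2a_D]

theorem d2a_deg {n : ℕ} {Z : ℝ[X]} (hn : 1 ≤ n) (hZ : Z.natDegree ≤ n) :
    (d2a_D n Z).natDegree ≤ 2 * n - 1 := by
  have hd : Z.derivative.natDegree ≤ n - 1 := (natDegree_derivative_le Z).trans (by omega)
  have hE : (X * Z.derivative).natDegree ≤ n := by
    refine natDegree_mul_le.trans ?_
    rw [natDegree_X]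
    omega
  have hEc : (X * Z.derivative).coeff n = n * Z.coeff n := by
    obtain ⟨m, rfl⟩ : ∃ m, n = m + 1 := ⟨n - 1, by omega⟩
    rw [coeff_X_mul, coeff_derivative]
    push_cast
    ring
  have heq : d2a_D n Z = C ((n : ℝ) ^ 2) - C ((n : ℝ) ^ 2) * (Z * Z)
      - Z.derivative * Z.derivative + (X * Z.derivative) * (X * Z.derivative) := by
    unfold d2a_D
    ring
  rw [natDegree_le_iff_coeff_eq_zero]
  intro N hN
  have hN2 : 2 * n ≤ N := by omega
  rw [heq, coeff_add, coeff_sub, coeff_sub, coeff_C_mul]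
  have h1 : (C ((n : ℝ) ^ 2) : ℝ[X]).coeff N = 0 := by
    rw [coeff_C, if_neg (by omega)]
  have h2 : (Z.derivative * Z.derivative).coeff N = 0 := by
    apply coeff_eq_zero_of_natDegree_lt
    refine lt_of_le_of_lt natDegree_mul_le ?_
    omega
  rw [h1, h2]
  rcases hN2.eq_or_lt with h3 | h3
  · have h4 : N = n + n := by omega
    rw [h4, coeff_mul_add_eq_of_natDegree_le hZ hZ, coeff_mul_add_eq_of_natDegree_le hE hE, hEc]
    ring
  · have h4 : (Z * Z).coeff N = 0 := by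
      apply coeff_eq_zero_of_natDegree_lt
      refine lt_of_le_of_lt natDegree_mul_le ?_
      omega
    have h5 : ((X * Z.derivative) * (X * Z.derivative)).coeff N = 0 := by
      apply coeff_eq_zero_of_natDegree_lt
      refine lt_of_le_of_lt natDegree_mul_le ?_
      omega
    rw [h4, h5]
    ring

theorem d2a_nonneg {n : ℕ} {Z : ℝ[X]} (hn : 1 ≤ n) (hZ : Z.natDegree ≤ n) (hb : Bdd Z) {x : ℝ}
    (hx : x ∈ Icc (-1 : ℝ) 1) : 0 ≤ (d2a_D n Z).eval x := by
  have hf' : ∀ θ : ℝ, HasDerivAt (fun θ => -(sin θ * Z.derivative.eval (cos θ)))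
      (sin θ ^ 2 * Z.derivative.derivative.eval (cos θ) -
        cos θ * Z.derivative.eval (cos θ)) θ := by
    intro θ
    have h1 := (Z.derivative.hasDerivAt (cos θ)).comp θ (hasDerivAt_cos θ)
    have h2 := ((hasDerivAt_sin θ).mul h1).neg
    refine (h2.congr_deriv ?_)
    simp only [Function.comp_apply]
    ring
  have hbs := Pool.Agent.Helper40.Arc.bs_both hn (Pool.Agent.Helper40.Arc.FF_natDegree n Z)
    (fun θ => Pool.Agent.Helper40.Arc.FF_eval hZ θ)
    (Pool.Agent.Helper40.AS.eval_cos_deriv Z) hf'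
    (fun θ => hb _ ⟨neg_one_le_cos θ, cos_le_one θ⟩) (arccos x)
  have h1 := hbs.1
  rw [cos_arccos hx.1 hx.2] at h1
  have h2 : sin (arccos x) ^ 2 = 1 - x ^ 2 := by
    have h3 := sin_sq_add_cos_sq (arccos x)
    rw [cos_arccos hx.1 hx.2] at h3
    linarith
  rw [d2a_eval]
  have h4 : (-(sin (arccos x) * Z.derivative.eval x)) ^ 2 =
      sin (arccos x) ^ 2 * Z.derivative.eval x ^ 2 := by ring
  rw [h4, h2] at h1
  linarith

/-- a double root -/
theorem d2a_double {p : ℝ[X]} {a : ℝ} (h0 : p.eval a = 0) (h1 : p.derivative.eval a = 0) :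
    (X - C a) ^ 2 ∣ p := by
  obtain ⟨q, hq⟩ := dvd_iff_isRoot.mpr h0
  have h2 : p.derivative = q + (X - C a) * q.derivative := by
    rw [hq, derivative_mul]
    simp
  have h3 : q.eval a = 0 := by
    rw [h2] at h1
    simpa using h1
  obtain ⟨s, hs⟩ := dvd_iff_isRoot.mpr h3
  exact ⟨s, by rw [hq, hs]; ring⟩

theorem d2a_prod {n : ℕ} {Z : ℝ[X]} (hb : Bdd Z) {s : Finset ℕ} {x : ℕ → ℝ}
    (hinj : Set.InjOn x s) (hs : ∀ i ∈ s, x i ∈ Ioo (-1 : ℝ) 1 ∧ |Z.eval (x i)| = 1) :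
    (∏ i ∈ s, (X - C (x i))) ∣ Z.derivative ∧
    (∏ i ∈ s, (X - C (x i))) ^ 2 ∣ d2a_D n Z := by
  have hcop : ∀ i ∈ s, ∀ j ∈ s, i ≠ j → IsCoprime (X - C (x i)) (X - C (x j)) := by
    intro i hi j hj hij
    apply isCoprime_X_sub_C_of_isUnit_sub
    rw [isUnit_iff_ne_zero]
    intro h
    exact hij (hinj hi hj (sub_eq_zero.mp h))
  constructor
  · apply Finset.prod_dvd_of_coprime
    · intro i hi j hj hij
      exact hcop i hi j hj hij
    · intro i hi
      rw [dvd_iff_isRoot]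
      exact contact_int hb (hs i hi).1 (hs i hi).2
  · rw [← Finset.prod_pow]
    apply Finset.prod_dvd_of_coprime
    · intro i hi j hj hij
      exact (hcop i hi j hj hij).pow
    · intro i hi
      have h1 := contact_int hb (hs i hi).1 (hs i hi).2
      have h2 : Z.eval (x i) ^ 2 = 1 := by rw [← sq_abs, (hs i hi).2]; norm_num
      apply d2a_double
      · rw [d2a_eval, h1, h2]; ring
      · unfold d2a_D
        simp only [derivative_sub, derivative_mul, derivative_C, zero_mul, zero_add,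
          derivative_one, derivative_pow, eval_sub, eval_mul, eval_C, eval_add, eval_one,
          eval_pow, eval_X, derivative_X, eval_zero, h1]
        simp

/-- the quotients and their degrees -/
theorem d2a_quot {n : ℕ} {Z : ℝ[X]} (hn : 1 ≤ n) (hZ : Z.natDegree ≤ n) (hb : Bdd Z)
    (hZ0 : Z.derivative ≠ 0) {s : Finset ℕ}
    {x : ℕ → ℝ} (hinj : Set.InjOn x s)
    (hs : ∀ i ∈ s, x i ∈ Ioo (-1 : ℝ) 1 ∧ |Z.eval (x i)| = 1) :
    ∃ L Q : ℝ[X], Z.derivative = (∏ i ∈ s, (X - C (x i))) * L ∧ L ≠ 0 ∧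
      L.natDegree + s.card ≤ n - 1 ∧ d2a_D n Z = (∏ i ∈ s, (X - C (x i))) ^ 2 * Q ∧
      (Q = 0 ∨ Q.natDegree + 2 * s.card ≤ 2 * n - 1) := by
  obtain ⟨⟨L, hL⟩, ⟨Q, hQ⟩⟩ := d2a_prod (n := n) hb hinj hs
  have hmon : (∏ i ∈ s, (X - C (x i))).Monic := monic_prod_of_monic _ _ fun i _ => monic_X_sub_C _
  have hdeg : (∏ i ∈ s, (X - C (x i))).natDegree = s.card := by
    rw [natDegree_prod_of_monic _ _ fun i _ => monic_X_sub_C _]
    simp
  have hL0 : L ≠ 0 := by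
    rintro rfl
    exact hZ0 (by rw [hL, mul_zero])
  refine ⟨L, Q, hL, hL0, ?_, hQ, ?_⟩
  · have h1 := natDegree_derivative_le Z
    rw [hL, natDegree_mul hmon.ne_zero hL0, hdeg] at h1
    omega
  · by_cases hQ0 : Q = 0
    · exact Or.inl hQ0
    · right
      have h1 := d2a_deg hn hZ
      rw [hQ, natDegree_mul (pow_ne_zero _ hmon.ne_zero) hQ0, natDegree_pow, hdeg] at h1
      omega

theorem d2a_sign {G Q : ℝ[X]} (hG : G ≠ 0) (h : ∀ x ∈ Ioo (-1 : ℝ) 1, 0 ≤ G.eval x ^ 2 * Q.eval x)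
    {x : ℝ} (hx : x ∈ Icc (-1 : ℝ) 1) : 0 ≤ Q.eval x := by
  by_contra hneg
  push Not at hneg
  have hopen : IsOpen {y : ℝ | Q.eval y < 0} := isOpen_lt Q.continuous continuous_const
  have hcl : x ∈ closure (Ioo (-1 : ℝ) 1) := by
    rw [closure_Ioo (by norm_num)]
    exact hx
  obtain ⟨y, hy1, hy2⟩ := mem_closure_iff.mp hcl _ hopen hneg
  have hU : ({y : ℝ | Q.eval y < 0} ∩ Ioo (-1 : ℝ) 1) ∈ nhds y :=
    (hopen.inter isOpen_Ioo).mem_nhds ⟨hy1, hy2⟩
  have hinf := infinite_of_mem_nhds y hU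
  apply hG
  apply eq_zero_of_infinite_isRoot
  refine hinf.mono ?_
  intro z hz
  have h1 := h z hz.2
  have h2 : Q.eval z < 0 := hz.1
  have h3 : G.eval z ^ 2 ≤ 0 := by
    by_contra h4
    push Not at h4
    nlinarith
  have h4 : G.eval z = 0 := by nlinarith [sq_nonneg (G.eval z)]
  exact h4

/-- Harnack inequality for linear functions -/
theorem d2a_harnack {Q : ℝ[X]} (hQ : Q.natDegree ≤ 1) (h : ∀ x ∈ Icc (-1 : ℝ) 1, 0 ≤ Q.eval x)
    {δ x y : ℝ} (hδ : 0 < δ) (hx : x ∈ Icc (-1 + δ) (1 - δ)) (hy : y ∈ Icc (-1 + δ) (1 - δ)) :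
    δ * Q.eval x ≤ 2 * Q.eval y := by
  have hQe : ∀ z, Q.eval z = Q.coeff 1 * z + Q.coeff 0 := by
    intro z
    conv_lhs => rw [eq_X_add_C_of_natDegree_le_one hQ]
    simp
  have h1 := h 1 ⟨by norm_num, le_rfl⟩
  have h2 := h (-1) ⟨le_rfl, by norm_num⟩
  rw [hQe] at h1 h2 ⊢
  rw [hQe]
  set a := Q.coeff 1
  set b := Q.coeff 0
  have e1 : 2 * (a * y + b) = (1 + y) * (a * 1 + b) + (1 - y) * (a * -1 + b) := by ring
  have e2 : 2 * (a * x + b) = (1 + x) * (a * 1 + b) + (1 - x) * (a * -1 + b) := by ring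
  have h3 : δ * (a * 1 + b) ≤ (1 + y) * (a * 1 + b) :=
    mul_le_mul_of_nonneg_right (by linarith [hy.1]) h1
  have h4 : δ * (a * -1 + b) ≤ (1 - y) * (a * -1 + b) :=
    mul_le_mul_of_nonneg_right (by linarith [hy.2]) h2
  have h5 : (1 + x) * (a * 1 + b) ≤ 2 * (a * 1 + b) :=
    mul_le_mul_of_nonneg_right (by linarith [hx.2]) h1
  have h6 : (1 - x) * (a * -1 + b) ≤ 2 * (a * -1 + b) :=
    mul_le_mul_of_nonneg_right (by linarith [hx.1]) h2
  have h7 : 2 * (a * x + b) ≤ 2 * ((a * 1 + b) + (a * -1 + b)) := by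
    rw [e2]; linarith
  have h8 : δ * (2 * (a * x + b)) ≤ δ * (2 * ((a * 1 + b) + (a * -1 + b))) :=
    mul_le_mul_of_nonneg_left h7 hδ.le
  nlinarith

theorem d2a_asm {n : ℕ} {Z : ℝ[X]} {B W G : ℝ → ℝ} (hB : Continuous B) (hW : Continuous W)
    (hB0 : ∀ x ∈ Icc (-1 : ℝ) 1, 0 ≤ B x) (hW0 : ∀ x ∈ Ioo (-1 : ℝ) 1, 0 < W x)
    (hD : ∀ x, (d2a_D n Z).eval x = B x * G x)
    (hZ : ∀ x, (1 - x ^ 2) * Z.derivative.eval x ^ 2 = W x * G x)
    (hHB : ∀ δ : ℝ, 0 < δ → δ ≤ 1 → ∀ x ∈ Icc (-1 + δ) (1 - δ), ∀ y ∈ Icc (-1 + δ) (1 - δ),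
      δ * B x ≤ 2 * B y)
    (hHW : ∀ δ : ℝ, 0 < δ → δ ≤ 1 → ∀ x ∈ Icc (-1 + δ) (1 - δ), ∀ y ∈ Icc (-1 + δ) (1 - δ),
      δ ^ 2 * W y ≤ 4 * W x) :
    ∃ r : ℝ → ℝ, ContinuousOn r (Ioo (-1 : ℝ) 1) ∧ (∀ x ∈ Ioo (-1 : ℝ) 1, 0 ≤ r x ∧
    (n : ℝ) ^ 2 * (1 - Z.eval x ^ 2) = (1 + r x) * ((1 - x ^ 2) * Z.derivative.eval x ^ 2)) ∧
    ∀ δ : ℝ, 0 < δ → δ ≤ 1 → ∀ x ∈ Icc (-1 + δ) (1 - δ), ∀ y ∈ Icc (-1 + δ) (1 - δ),
      r x ≤ 100 / δ ^ 3 * r y := by
  refine ⟨fun x => B x / W x, ?_, ?_, ?_⟩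
  · exact hB.continuousOn.div hW.continuousOn fun x hx => (hW0 x hx).ne'
  · intro x hx
    have h1 := hW0 x hx
    have h2 := hB0 x (Ioo_subset_Icc_self hx)
    refine ⟨by positivity, ?_⟩
    have h3 := hD x
    rw [d2a_eval, hZ x] at h3
    rw [hZ x]
    have h4 : (1 + B x / W x) * (W x * G x) = W x * G x + B x * G x := by
      field_simp
    rw [h4]
    linarith
  · intro δ hδ hδ1 x hx y hy
    have hx' : x ∈ Ioo (-1 : ℝ) 1 := ⟨by linarith [hx.1], by linarith [hx.2]⟩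
    have hy' : y ∈ Ioo (-1 : ℝ) 1 := ⟨by linarith [hy.1], by linarith [hy.2]⟩
    have h1 := hHB δ hδ hδ1 x hx y hy
    have h2 := hHW δ hδ hδ1 x hx y hy
    have hWx := hW0 x hx'
    have hWy := hW0 y hy'
    have hBx := hB0 x (Ioo_subset_Icc_self hx')
    have hBy := hB0 y (Ioo_subset_Icc_self hy')
    show B x / W x ≤ 100 / δ ^ 3 * (B y / W y)
    rw [div_mul_div_comm, div_le_div_iff₀ hWx (by positivity)]
    have h3 : (δ * B x) * (δ ^ 2 * W y) ≤ (2 * B y) * (4 * W x) :=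
      mul_le_mul h1 h2 (by positivity) (by positivity)
    have h4 : B x * (δ ^ 3 * W y) = (δ * B x) * (δ ^ 2 * W y) := by ring
    rw [h4]
    refine h3.trans ?_
    have h5 : 0 ≤ B y * W x := by positivity
    nlinarith

theorem d2a_sq_lb {δ x : ℝ} (hδ : 0 < δ) (hx : x ∈ Icc (-1 + δ) (1 - δ)) : δ ≤ 1 - x ^ 2 := by
  nlinarith [hx.1, hx.2, mul_nonneg (sub_nonneg.mpr hx.1) (sub_nonneg.mpr hx.2)]

/-- `n - 1` interior alternation points -/
theorem d2a_caseB {n : ℕ} {Z : ℝ[X]} (hn : 3 ≤ n) (hZ : Z.natDegree ≤ n) (hb : Bdd Z)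
    (hZ0 : Z.derivative ≠ 0) {s : Finset ℕ}
    {x : ℕ → ℝ} (hinj : Set.InjOn x s)
    (hs : ∀ i ∈ s, x i ∈ Ioo (-1 : ℝ) 1 ∧ |Z.eval (x i)| = 1) (hcard : s.card = n - 1) :
    ∃ r : ℝ → ℝ, ContinuousOn r (Ioo (-1 : ℝ) 1) ∧ (∀ x ∈ Ioo (-1 : ℝ) 1, 0 ≤ r x ∧
    (n : ℝ) ^ 2 * (1 - Z.eval x ^ 2) = (1 + r x) * ((1 - x ^ 2) * Z.derivative.eval x ^ 2)) ∧
    ∀ δ : ℝ, 0 < δ → δ ≤ 1 → ∀ x ∈ Icc (-1 + δ) (1 - δ), ∀ y ∈ Icc (-1 + δ) (1 - δ),
      r x ≤ 100 / δ ^ 3 * r y := by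
  obtain ⟨L, Q, hL, hL0, hLd, hQ, hQd⟩ := d2a_quot (by omega) hZ hb hZ0 hinj hs
  set G := ∏ i ∈ s, (X - C (x i)) with hG
  have hG0 : G ≠ 0 := by
    intro h0
    exact hZ0 (by rw [hL, h0, zero_mul])
  have hQ1 : Q.natDegree ≤ 1 := by
    rcases hQd with h | h
    · rw [h]; simp
    · omega
  have hLc : L = C (L.coeff 0) := eq_C_of_natDegree_eq_zero (by omega)
  have hl : L.coeff 0 ≠ 0 := by
    intro h0
    rw [h0, C_0] at hLc
    exact hL0 hLc
  have hLe : ∀ z, L.eval z = L.coeff 0 := by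
    intro z
    conv_lhs => rw [hLc]
    simp
  have hQ0 : ∀ z ∈ Icc (-1 : ℝ) 1, 0 ≤ Q.eval z := by
    intro z hz
    apply d2a_sign hG0 _ hz
    intro w hw
    have h1 := d2a_nonneg (by omega) hZ hb (Ioo_subset_Icc_self hw)
    rw [hQ, eval_mul, eval_pow] at h1
    exact h1
  have hl2 : 0 < L.coeff 0 ^ 2 := by positivity
  apply d2a_asm (B := fun z => Q.eval z) (W := fun z => (1 - z ^ 2) * L.coeff 0 ^ 2)
    (G := fun z => G.eval z ^ 2) Q.continuous (by fun_prop) hQ0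
  · intro z hz
    have h1 : 0 < 1 - z ^ 2 := by nlinarith [hz.1, hz.2]
    positivity
  · intro z
    rw [hQ, eval_mul, eval_pow]
    ring
  · intro z
    rw [hL, eval_mul, hLe]
    ring
  · intro δ hδ hδ1 x hx y hy
    exact d2a_harnack hQ1 hQ0 hδ hx hy
  · intro δ hδ hδ1 x hx y hy
    have h1 := d2a_sq_lb hδ hx
    have h2 : δ ^ 2 * (1 - y ^ 2) ≤ 4 * (1 - x ^ 2) := by
      nlinarith [sq_nonneg y, mul_nonneg (sq_nonneg δ) (sq_nonneg y)]
    have h3 := mul_le_mul_of_nonneg_right h2 hl2.le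
    linarith

theorem d2a_const {L : ℝ[X]} (h : ∀ c ∈ Ioo (-1 : ℝ) 1, L.eval c ≠ 0) (h0 : 0 < L.eval 0) :
    ∀ x ∈ Icc (-1 : ℝ) 1, 0 ≤ L.eval x := by
  intro x hx
  apply d2a_sign (G := 1) one_ne_zero _ hx
  intro z hz
  simp only [eval_one, one_pow, one_mul]
  by_contra hneg
  push Not at hneg
  have h1 := (isPreconnected_Ioo (a := (-1 : ℝ)) (b := 1)).intermediate_value hz
    (show (0 : ℝ) ∈ Ioo (-1 : ℝ) 1 by constructor <;> norm_num) L.continuous.continuousOn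
  have h2 : (0 : ℝ) ∈ Icc (L.eval z) (L.eval 0) := ⟨hneg.le, h0.le⟩
  obtain ⟨y, hy, hy0⟩ := h1 h2
  exact h y hy hy0

theorem d2a_const_sq {L : ℝ[X]} (hL : L.natDegree ≤ 1) (h : ∀ c ∈ Ioo (-1 : ℝ) 1, L.eval c ≠ 0)
    {δ x y : ℝ} (hδ : 0 < δ) (hx : x ∈ Icc (-1 + δ) (1 - δ)) (hy : y ∈ Icc (-1 + δ) (1 - δ)) :
    δ ^ 2 * L.eval y ^ 2 ≤ 4 * L.eval x ^ 2 := by
  have hy' : y ∈ Icc (-1 : ℝ) 1 := ⟨by linarith [hy.1], by linarith [hy.2]⟩
  have hx' : x ∈ Icc (-1 : ℝ) 1 := ⟨by linarith [hx.1], by linarith [hx.2]⟩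
  have h00 : (0 : ℝ) ∈ Ioo (-1 : ℝ) 1 := by constructor <;> norm_num
  have key : ∀ M : ℝ[X], M.natDegree ≤ 1 → (∀ c ∈ Ioo (-1 : ℝ) 1, M.eval c ≠ 0) →
      0 < M.eval 0 → δ ^ 2 * M.eval y ^ 2 ≤ 4 * M.eval x ^ 2 := by
    intro M hM hMn hM0
    have h1 := d2a_const hMn hM0
    have h2 := d2a_harnack hM h1 hδ hy hx
    have h3 := h1 y hy'
    have h4 : (δ * M.eval y) ^ 2 ≤ (2 * M.eval x) ^ 2 :=
      pow_le_pow_left₀ (by positivity) h2 2
    nlinarith
  rcases lt_or_gt_of_ne (h 0 h00) with h1 | h1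
  · have h2 := key (-L) (by rw [natDegree_neg]; exact hL)
      (fun c hc => by rw [eval_neg]; exact neg_ne_zero.mpr (h c hc)) (by rw [eval_neg]; linarith)
    rw [eval_neg, eval_neg, neg_sq, neg_sq] at h2
    exact h2
  · exact key L hL h h1

theorem d2a_mvt (Z : ℝ[X]) {a b : ℝ} (hab : a < b) :
    ∃ c ∈ Ioo a b, Z.derivative.eval c * (b - a) = Z.eval b - Z.eval a := by
  obtain ⟨c, hc, h⟩ := exists_hasDerivAt_eq_slope (fun x => Z.eval x)
    (fun x => Z.derivative.eval x) hab Z.continuous.continuousOn (fun x _ => Z.hasDerivAt x)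
  refine ⟨c, hc, ?_⟩
  rw [h]
  field_simp [sub_ne_zero.mpr hab.ne']

theorem d2a_mono {n : ℕ} {x : ℕ → ℝ} (hx : ∀ i, i + 1 < n → x i < x (i + 1)) :
    ∀ i j, i < j → j < n → x i < x j := by
  intro i j
  induction j with
  | zero => intro h _; omega
  | succ j ih =>
    intro h1 h2
    rcases Nat.lt_succ_iff_lt_or_eq.mp h1 with h3 | h3
    · exact (ih h3 (by omega)).trans (hx j h2)
    · rw [h3]; exact hx j h2

/-- the linear factor has no zero -/
theorem d2a_noroot {n : ℕ} {Z L : ℝ[X]} (hn : 3 ≤ n) (hb : Bdd Z) {x : ℕ → ℝ} {σ : ℝ}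
    (hσ : σ = 1 ∨ σ = -1) (hx : ∀ i, i + 1 < n → x i < x (i + 1))
    (hv : ∀ i < n, Z.eval (x i) = σ * (-1) ^ i) (h0 : x 0 = -1) (h1 : x (n - 1) = 1)
    (hL : Z.derivative = (∏ i ∈ Finset.Ico 1 (n - 1), (X - C (x i))) * L)
    (hLd : L.natDegree ≤ 1) {c : ℝ} (hc : c ∈ Ioo (-1 : ℝ) 1) : L.eval c ≠ 0 := by
  intro hc0
  have hm := d2a_mono hx
  set G := ∏ i ∈ Finset.Ico 1 (n - 1), (X - C (x i)) with hG
  have hσ2 : σ * σ = 1 := by rcases hσ with h | h <;> rw [h] <;> norm_num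
  set e : ℝ := (-1) ^ (n - 2) with he
  have he2 : e * e = 1 := by
    rw [he, ← pow_add, ← two_mul, pow_mul]
    norm_num
  have hGe : ∀ y, G.eval y = ∏ i ∈ Finset.Ico 1 (n - 1), (y - x i) := by
    intro y
    rw [hG, eval_prod]
    simp
  have hP1 : ∀ y, y < x 1 → 0 < e * G.eval y := by
    intro y hy
    rw [hGe]
    have h2 : ∏ i ∈ Finset.Ico 1 (n - 1), (y - x i) =
        e * ∏ i ∈ Finset.Ico 1 (n - 1), (x i - y) := by
      have h3 : ∀ i ∈ Finset.Ico 1 (n - 1), y - x i = (-1) * (x i - y) := by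
        intro i _; ring
      rw [Finset.prod_congr rfl h3, Finset.prod_mul_distrib, Finset.prod_const, Nat.card_Ico]
      have h4 : n - 1 - 1 = n - 2 := by omega
      rw [h4]
    rw [h2, ← mul_assoc, he2, one_mul]
    apply Finset.prod_pos
    intro i hi
    rw [Finset.mem_Ico] at hi
    rcases hi.1.eq_or_lt with h3 | h3
    · rw [← h3]; linarith
    · have := hm 1 i h3 (by omega)
      linarith
  have hP2 : ∀ y, x (n - 2) < y → 0 < G.eval y := by
    intro y hy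
    rw [hGe]
    apply Finset.prod_pos
    intro i hi
    rw [Finset.mem_Ico] at hi
    rcases (show i ≤ n - 2 by omega).eq_or_lt with h3 | h3
    · rw [h3]; linarith
    · have := hm i (n - 2) h3 (by omega)
      linarith
  have hLe : ∀ z, L.eval z = L.coeff 1 * (z - c) := by
    intro z
    have h2 : ∀ z, L.eval z = L.coeff 1 * z + L.coeff 0 := by
      intro z
      conv_lhs => rw [eq_X_add_C_of_natDegree_le_one hLd]
      simp
    rw [h2] at hc0 ⊢
    linarith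
  have hZe : ∀ z, Z.derivative.eval z = G.eval z * L.eval z := by
    intro z; rw [hL, eval_mul]
  set l := L.coeff 1 with hl
  -- the two points
  have hv0 : Z.eval (-1) = σ := by
    have := hv 0 (by omega)
    rw [h0, pow_zero, mul_one] at this
    exact this
  have hv1 : Z.eval (x 1) = -σ := by
    have := hv 1 (by omega)
    rw [pow_one] at this
    linarith
  have hvn : Z.eval 1 = -(σ * e) := by
    have h2 := hv (n - 1) (by omega)
    have h3 : n - 1 = (n - 2) + 1 := by omega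
    rw [h1, h3, pow_succ] at h2
    linarith
  have hvm : Z.eval (x (n - 2)) = σ * e := hv (n - 2) (by omega)
  have hx01 : (-1 : ℝ) < x 1 := by
    have := hm 0 1 (by omega) (by omega)
    linarith
  have hxn : x (n - 2) < 1 := by
    have := hm (n - 2) (n - 1) (by omega) (by omega)
    linarith
  have hx1n : x 1 ≤ x (n - 2) := by
    rcases (show 1 ≤ n - 2 by omega).eq_or_lt with h3 | h3
    · rw [← h3]
    · exact (hm 1 (n - 2) h3 (by omega)).le
  obtain ⟨y0, hy0, hy0e⟩ := d2a_mvt Z hx01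
  obtain ⟨y1, hy1, hy1e⟩ := d2a_mvt Z hxn
  rw [hv0, hv1, hZe, hLe] at hy0e
  rw [hvn, hvm, hZe, hLe] at hy1e
  have hG0 := hP1 y0 hy0.2
  have hG1 := hP2 y1 hy1.1
  -- signs
  have s0 : σ * e * l * (y0 - c) < 0 := by
    have h2 : σ * (G.eval y0 * (l * (y0 - c)) * (x 1 - -1)) = -2 := by
      rw [hy0e]
      linear_combination (-2) * hσ2
    have h3 : (σ * e * l * (y0 - c)) * ((e * G.eval y0) * (x 1 - -1)) = -2 := by
      linear_combination h2 + (σ * l * (y0 - c) * G.eval y0 * (x 1 - -1)) * he2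
    by_contra h4
    push Not at h4
    have h5 : 0 ≤ (σ * e * l * (y0 - c)) * ((e * G.eval y0) * (x 1 - -1)) :=
      mul_nonneg h4 (mul_nonneg hG0.le (by linarith))
    linarith
  have s1 : σ * e * l * (y1 - c) < 0 := by
    have h2 : (σ * e) * (G.eval y1 * (l * (y1 - c)) * (1 - x (n - 2))) = -2 := by
      rw [hy1e]
      linear_combination (-2 * (σ * σ)) * he2 + (-2) * hσ2
    have h3 : (σ * e * l * (y1 - c)) * (G.eval y1 * (1 - x (n - 2))) = -2 := by
      linear_combination h2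
    by_contra h4
    push Not at h4
    have h5 : 0 ≤ (σ * e * l * (y1 - c)) * (G.eval y1 * (1 - x (n - 2))) :=
      mul_nonneg h4 (mul_nonneg hG1.le (by linarith))
    linarith
  have hbc := abs_le.mp (hb c (Ioo_subset_Icc_self hc))
  rcases le_or_gt c y0 with hcy | hcy
  · have hl1 : σ * e * l < 0 := by
      by_contra h4
      push Not at h4
      have : 0 ≤ σ * e * l * (y0 - c) := mul_nonneg h4 (by linarith)
      linarith
    obtain ⟨w, hw, hwe⟩ := d2a_mvt Z hc.1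
    rw [hv0, hZe, hLe] at hwe
    have hGw := hP1 w (by linarith [hw.2, hy0.2])
    have h2 : σ * (Z.eval c - σ) = (σ * e * l * (w - c)) * ((e * G.eval w) * (c - -1)) := by
      rw [← hwe]
      linear_combination (-(σ * l * (w - c) * G.eval w * (c - -1))) * he2
    have h3 : 0 < (σ * e * l * (w - c)) * ((e * G.eval w) * (c - -1)) := by
      apply mul_pos (mul_pos_of_neg_of_neg hl1 (by linarith [hw.2]))
      exact mul_pos hGw (by linarith [hc.1])
    rw [← h2] at h3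
    rcases hσ with h | h <;> rw [h] at h3 <;> linarith [hbc.1, hbc.2]
  · have hl1 : 0 < σ * e * l := by
      by_contra h4
      push Not at h4
      have : 0 ≤ σ * e * l * (y0 - c) := mul_nonneg_of_nonpos_of_nonpos h4 (by linarith)
      linarith
    have hcy1 : y1 < c := by
      by_contra h4
      push Not at h4
      have : 0 ≤ σ * e * l * (y1 - c) := mul_nonneg hl1.le (by linarith)
      linarith
    obtain ⟨w, hw, hwe⟩ := d2a_mvt Z hc.2
    rw [hvn, hZe, hLe] at hwe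
    have hGw := hP2 w (by linarith [hw.1, hy1.1])
    have h2 : (σ * e) * (-(σ * e) - Z.eval c) =
        (σ * e * l * (w - c)) * (G.eval w * (1 - c)) := by
      rw [← hwe]
      ring
    have h3 : 0 < (σ * e * l * (w - c)) * (G.eval w * (1 - c)) := by
      apply mul_pos (mul_pos hl1 (by linarith [hw.1]))
      exact mul_pos hGw (by linarith [hc.2])
    have h4 : σ * e = 1 ∨ σ * e = -1 := by
      have : (σ * e - 1) * (σ * e + 1) = 0 := by
        linear_combination (σ * σ) * he2 + hσ2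
      rcases mul_eq_zero.mp this with h | h
      · left; linarith
      · right; linarith
    rw [← h2] at h3
    rcases h4 with h | h <;> rw [h] at h3 <;> linarith [hbc.1, hbc.2]

/-- both end points are alternation points -/
theorem d2a_caseA {n : ℕ} {Z : ℝ[X]} (hn : 3 ≤ n) (hZ : Z.natDegree ≤ n) (hb : Bdd Z)
    (hZ0 : Z.derivative ≠ 0) {x : ℕ → ℝ} {σ : ℝ}
    (hσ : σ = 1 ∨ σ = -1) (hx : ∀ i, i + 1 < n → x i < x (i + 1))
    (hv : ∀ i < n, Z.eval (x i) = σ * (-1) ^ i) (h0 : x 0 = -1) (h1 : x (n - 1) = 1) :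
    ∃ r : ℝ → ℝ, ContinuousOn r (Ioo (-1 : ℝ) 1) ∧ (∀ x ∈ Ioo (-1 : ℝ) 1, 0 ≤ r x ∧
    (n : ℝ) ^ 2 * (1 - Z.eval x ^ 2) = (1 + r x) * ((1 - x ^ 2) * Z.derivative.eval x ^ 2)) ∧
    ∀ δ : ℝ, 0 < δ → δ ≤ 1 → ∀ x ∈ Icc (-1 + δ) (1 - δ), ∀ y ∈ Icc (-1 + δ) (1 - δ),
      r x ≤ 100 / δ ^ 3 * r y := by
  have hm := d2a_mono hx
  have hsg : ∀ i, |σ * (-1 : ℝ) ^ i| = 1 := by
    intro i
    rw [abs_mul, abs_pow, abs_neg, abs_one, one_pow, mul_one]
    rcases hσ with h | h <;> rw [h] <;> norm_num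
  have hinj : Set.InjOn x (Finset.Ico 1 (n - 1)) := by
    intro i hi j hj hij
    simp only [Finset.coe_Ico, mem_Ico] at hi hj
    rcases lt_trichotomy i j with h | h | h
    · exact absurd hij (hm i j h (by omega)).ne
    · exact h
    · exact absurd hij (hm j i h (by omega)).ne'
  have hs : ∀ i ∈ Finset.Ico 1 (n - 1), x i ∈ Ioo (-1 : ℝ) 1 ∧ |Z.eval (x i)| = 1 := by
    intro i hi
    rw [Finset.mem_Ico] at hi
    refine ⟨⟨?_, ?_⟩, ?_⟩
    · rw [← h0]; exact hm 0 i (by omega) (by omega)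
    · rw [← h1]; exact hm i (n - 1) (by omega) (by omega)
    · rw [hv i (by omega)]; exact hsg i
  obtain ⟨L, Q, hL, hL0, hLd, hQ, hQd⟩ := d2a_quot (by omega) hZ hb hZ0 hinj hs
  rw [Nat.card_Ico] at hLd hQd
  have hLd1 : L.natDegree ≤ 1 := by omega
  have hnr : ∀ c ∈ Ioo (-1 : ℝ) 1, L.eval c ≠ 0 := fun c hc =>
    d2a_noroot hn hb hσ hx hv h0 h1 hL hLd1 hc
  set G := ∏ i ∈ Finset.Ico 1 (n - 1), (X - C (x i)) with hG
  have hG0 : G ≠ 0 := by
    intro h0
    exact hZ0 (by rw [hL, h0, zero_mul])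
  have hGe : ∀ y, (∀ i ∈ Finset.Ico 1 (n - 1), x i ≠ y) → G.eval y ≠ 0 := by
    intro y hy
    rw [hG, eval_prod]
    apply Finset.prod_ne_zero_iff.mpr
    intro i hi
    simp only [eval_sub, eval_X, eval_C]
    intro h
    exact hy i hi (by linarith)
  have hQ1 : Q.eval 1 = 0 := by
    have h2 : (d2a_D n Z).eval 1 = 0 := by
      rw [d2a_eval]
      have h3 : Z.eval 1 ^ 2 = 1 := by
        have h4 := hv (n - 1) (by omega)
        rw [h1] at h4
        rw [← sq_abs, h4, hsg]; norm_num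
      rw [h3]; ring
    rw [hQ, eval_mul, eval_pow] at h2
    rcases mul_eq_zero.mp h2 with h3 | h3
    · exact absurd (pow_eq_zero_iff (by norm_num) |>.mp h3)
        (hGe 1 fun i hi => (hs i hi).1.2.ne)
    · exact h3
  have hQ2 : Q.eval (-1) = 0 := by
    have h2 : (d2a_D n Z).eval (-1) = 0 := by
      rw [d2a_eval]
      have h3 : Z.eval (-1) ^ 2 = 1 := by
        have h4 := hv 0 (by omega)
        rw [h0] at h4
        rw [← sq_abs, h4, hsg]; norm_num
      rw [h3]; ring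
    rw [hQ, eval_mul, eval_pow] at h2
    rcases mul_eq_zero.mp h2 with h3 | h3
    · exact absurd (pow_eq_zero_iff (by norm_num) |>.mp h3)
        (hGe (-1) fun i hi => (hs i hi).1.1.ne')
    · exact h3
  have hBex : ∃ B : ℝ[X], Q = (1 - X ^ 2) * B ∧ B.natDegree ≤ 1 := by
    obtain ⟨q, hq⟩ := dvd_iff_isRoot.mpr hQ1
    have h2 : q.eval (-1) = 0 := by
      rw [hq, eval_mul] at hQ2
      rcases mul_eq_zero.mp hQ2 with h3 | h3
      · simp at h3; norm_num at h3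
      · exact h3
    obtain ⟨b, hbq⟩ := dvd_iff_isRoot.mpr h2
    refine ⟨-b, ?_, ?_⟩
    · rw [hq, hbq]
      simp only [C_neg, map_one]
      ring
    · rw [natDegree_neg]
      by_cases hb0 : b = 0
      · rw [hb0]; simp
      · have hq0 : Q = ((X - C 1) * (X - C (-1))) * b := by rw [hq, hbq]; ring
        have hQ0 : Q ≠ 0 := by
          rw [hq0]
          exact mul_ne_zero (mul_ne_zero (X_sub_C_ne_zero _) (X_sub_C_ne_zero _)) hb0
        have h3 : Q.natDegree = 2 + b.natDegree := by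
          rw [hq0, natDegree_mul (mul_ne_zero (X_sub_C_ne_zero _) (X_sub_C_ne_zero _)) hb0,
            natDegree_mul (X_sub_C_ne_zero _) (X_sub_C_ne_zero _), natDegree_X_sub_C,
            natDegree_X_sub_C]
        rcases hQd with h | h
        · exact absurd h hQ0
        · omega
  obtain ⟨B, hB, hB1⟩ := hBex
  have hB0 : ∀ z ∈ Icc (-1 : ℝ) 1, 0 ≤ B.eval z := by
    intro z hz
    apply d2a_sign hG0 _ hz
    intro w hw
    have h2 := d2a_nonneg (by omega) hZ hb (Ioo_subset_Icc_self hw)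
    rw [hQ, hB, eval_mul, eval_pow, eval_mul] at h2
    simp only [eval_sub, eval_one, eval_pow, eval_X] at h2
    have h3 : 0 < 1 - w ^ 2 := by nlinarith [hw.1, hw.2]
    by_contra h4
    push Not at h4
    have h5 : G.eval w ^ 2 * ((1 - w ^ 2) * B.eval w) =
      (1 - w ^ 2) * (G.eval w ^ 2 * B.eval w) := by ring
    rw [h5] at h2
    have := mul_neg_of_pos_of_neg h3 h4
    linarith
  apply d2a_asm (B := fun z => B.eval z) (W := fun z => L.eval z ^ 2)
    (G := fun z => G.eval z ^ 2 * (1 - z ^ 2)) B.continuous (L.continuous.pow 2) hB0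
  · intro z hz
    have := hnr z hz
    positivity
  · intro z
    rw [hQ, hB, eval_mul, eval_pow, eval_mul]
    simp only [eval_sub, eval_one, eval_pow, eval_X]
    ring
  · intro z
    rw [hL, eval_mul]
    ring
  · intro δ hδ hδ1 x hx y hy
    exact d2a_harnack hB1 hB0 hδ hx hy
  · intro δ hδ hδ1 x hx y hy
    exact d2a_const_sq hLd1 hnr hδ hx hy

theorem d2a : D2a := by
  intro n x0 Z hn hZ
  obtain ⟨x, σ, hσ, hx, hxm, hxv⟩ := hZ.alt
  have hm := d2a_mono hx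
  have hZ0 : Z.derivative ≠ 0 := by
    intro h
    have := hZ.z1
    rw [h] at this
    simp at this
  have hsg : ∀ i, |σ * (-1 : ℝ) ^ i| = 1 := by
    intro i
    rw [abs_mul, abs_pow, abs_neg, abs_one, one_pow, mul_one]
    rcases hσ with h | h <;> rw [h] <;> norm_num
  have hinj : ∀ s : Finset ℕ, (∀ i ∈ s, i < n) → Set.InjOn x s := by
    intro s hs i hi j hj hij
    have hi' := hs i hi
    have hj' := hs j hj
    rcases lt_trichotomy i j with h | h | h
    · exact absurd hij (hm i j h hj').ne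
    · exact h
    · exact absurd hij (hm j i h hi').ne'
  rcases (hxm 0 (by omega)).1.eq_or_lt with h0 | h0
  · rcases (hxm (n - 1) (by omega)).2.eq_or_lt with h1 | h1
    · exact d2a_caseA hn hZ.deg hZ.bdd hZ0 hσ hx hxv h0.symm h1
    · apply d2a_caseB hn hZ.deg hZ.bdd hZ0 (s := Finset.Ico 1 n) (x := x)
      · exact hinj _ fun i hi => (Finset.mem_Ico.mp hi).2
      · intro i hi
        rw [Finset.mem_Ico] at hi
        refine ⟨⟨?_, ?_⟩, ?_⟩
        · rw [h0]; exact hm 0 i (by omega) (by omega)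
        · rcases (show i ≤ n - 1 by omega).eq_or_lt with h3 | h3
          · rw [h3]; exact h1
          · exact (hm i (n - 1) h3 (by omega)).trans h1
        · rw [hxv i (by omega)]; exact hsg i
      · rw [Nat.card_Ico]
  · apply d2a_caseB hn hZ.deg hZ.bdd hZ0 (s := Finset.range (n - 1)) (x := x)
    · exact hinj _ fun i hi => by have := Finset.mem_range.mp hi; omega
    · intro i hi
      rw [Finset.mem_range] at hi
      refine ⟨⟨?_, ?_⟩, ?_⟩
      · rcases Nat.eq_zero_or_pos i with h3 | h3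
        · rw [h3]; exact h0
        · exact h0.trans (hm 0 i h3 (by omega))
      · exact lt_of_lt_of_le (hm i (n - 1) (by omega) (by omega)) (hxm (n - 1) (by omega)).2
      · rw [hxv i (by omega)]; exact hsg i
    · rw [Finset.card_range]

end

end Pool.Agent.Helper10.AL
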