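import Pool.Agent.Helper10.AL.St

/-!
Project AL, piece D2b: the total phase of a polynomial with `n` alternation points.
-/

set_option autoImplicit false

namespace Pool.Agent.Helper10.AL

open Polynomial Set Real MeasureTheory intervalIntegral

noncomputable section

theorem d2b_der (Z : ℝ[X]) (θ : ℝ) :
    HasDerivAt (fun θ => Z.eval (cos θ)) (-(sin θ * Z.derivative.eval (cos θ))) θ := by
  have h1 : HasDerivAt (fun x => Z.eval x) (Z.derivative.eval (cos θ)) (cos θ) :=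
    Z.hasDerivAt (cos θ)
  have h2 := h1.comp θ (hasDerivAt_cos θ)
  have h3 : -(sin θ * Z.derivative.eval (cos θ)) = Z.derivative.eval (cos θ) * -sin θ := by ring
  rw [h3]
  exact h2

/-- the phase inequality for one piece, damped version -/
theorem d2b_damp {n : ℕ} {Z : ℝ[X]} {r : ℝ → ℝ} (hb : Pool.Agent.Helper40.AS.Bdd Z)
    (hr : ∀ x ∈ Ioo (-1 : ℝ) 1, 0 ≤ r x ∧
      (n : ℝ) ^ 2 * (1 - Z.eval x ^ 2) = (1 + r x) * ((1 - x ^ 2) * Z.derivative.eval x ^ 2))
    (hint : IntegrableOn (fun θ => n / √(1 + r (cos θ))) (Icc 0 π))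
    {u v ρ σ : ℝ} (hσ : |σ| = 1) (hu : 0 ≤ u) (huv : u ≤ v) (hv : v ≤ π) (hρ0 : 0 ≤ ρ)
    (hρ : ρ < 1) :
    arccos (ρ * σ * Z.eval (cos v)) - arccos (ρ * σ * Z.eval (cos u)) ≤
      ∫ θ in u..v, n / √(1 + r (cos θ)) := by
  have hlt : ∀ θ, |ρ * σ * Z.eval (cos θ)| < 1 := by
    intro θ
    have h1 : |Z.eval (cos θ)| ≤ 1 := hb (cos θ) ⟨neg_one_le_cos θ, cos_le_one θ⟩
    rw [abs_mul, abs_mul, hσ, abs_of_nonneg hρ0, mul_one]
    have h2 : ρ * |Z.eval (cos θ)| ≤ ρ * 1 := mul_le_mul_of_nonneg_left h1 hρ0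
    linarith
  have hder : ∀ θ, HasDerivAt (fun θ => arccos (ρ * σ * Z.eval (cos θ)))
      (-(1 / √(1 - (ρ * σ * Z.eval (cos θ)) ^ 2)) *
        (ρ * σ * -(sin θ * Z.derivative.eval (cos θ)))) θ := by
    intro θ
    have h1 := abs_lt.mp (hlt θ)
    have h2 := Real.hasDerivAt_arccos (ne_of_gt h1.1) (ne_of_lt h1.2)
    exact HasDerivAt.comp (h₂ := arccos) θ h2 ((d2b_der Z θ).const_mul (ρ * σ))
  apply intervalIntegral.sub_le_integral_of_hasDeriv_right_of_le huv
    (g := fun θ => arccos (ρ * σ * Z.eval (cos θ)))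
    (g' := fun θ => -(1 / √(1 - (ρ * σ * Z.eval (cos θ)) ^ 2)) *
        (ρ * σ * -(sin θ * Z.derivative.eval (cos θ))))
  · intro θ _
    exact (hder θ).continuousAt.continuousWithinAt
  · intro θ _
    exact (hder θ).hasDerivWithinAt
  · exact hint.mono_set (Icc_subset_Icc hu hv)
  · intro θ hθ
    have hθ1 : θ ∈ Ioo 0 π := ⟨lt_of_le_of_lt hu hθ.1, lt_of_lt_of_le hθ.2 hv⟩
    have hs : 0 < sin θ := sin_pos_of_pos_of_lt_pi hθ1.1 hθ1.2
    have hc2 := sin_sq_add_cos_sq θ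
    have hx : cos θ ∈ Ioo (-1 : ℝ) 1 := by
      constructor <;> nlinarith
    obtain ⟨hr0, hr1⟩ := hr (cos θ) hx
    have hZ : |Z.eval (cos θ)| ≤ 1 := hb (cos θ) ⟨neg_one_le_cos θ, cos_le_one θ⟩
    have hq : 0 < √(1 - (ρ * σ * Z.eval (cos θ)) ^ 2) := by
      apply Real.sqrt_pos.mpr
      have h1 := abs_lt.mp (hlt θ)
      nlinarith [h1.1, h1.2]
    have hR : 0 < √(1 + r (cos θ)) := Real.sqrt_pos.mpr (by linarith)
    -- the main estimate
    have key : |ρ * σ * -(sin θ * Z.derivative.eval (cos θ))| * √(1 + r (cos θ)) ≤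
        n * √(1 - (ρ * σ * Z.eval (cos θ)) ^ 2) := by
      apply le_of_sq_le_sq _ (by positivity)
      rw [mul_pow, mul_pow, sq_abs, Real.sq_sqrt (by linarith), Real.sq_sqrt]
      · have hσ2 : σ ^ 2 = 1 := by rw [← sq_abs, hσ]; norm_num
        have hρ2 : ρ ^ 2 ≤ 1 := by nlinarith
        have h3 : (ρ * σ * -(sin θ * Z.derivative.eval (cos θ))) ^ 2 * (1 + r (cos θ)) =
            ρ ^ 2 * ((1 + r (cos θ)) * ((1 - cos θ ^ 2) * Z.derivative.eval (cos θ) ^ 2)) := by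
          have h4 : 1 - cos θ ^ 2 = sin θ ^ 2 := by linarith
          rw [h4]
          have h5 : (ρ * σ * -(sin θ * Z.derivative.eval (cos θ))) ^ 2 =
            σ ^ 2 * (ρ ^ 2 * (sin θ ^ 2 * Z.derivative.eval (cos θ) ^ 2)) := by ring
          rw [h5, hσ2]
          ring
        rw [h3, ← hr1]
        have h6 : (ρ * σ * Z.eval (cos θ)) ^ 2 = ρ ^ 2 * Z.eval (cos θ) ^ 2 := by
          have h5 : (ρ * σ * Z.eval (cos θ)) ^ 2 = σ ^ 2 * (ρ ^ 2 * Z.eval (cos θ) ^ 2) := by ring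
          rw [h5, hσ2, one_mul]
        rw [h6]
        have h7 : (0 : ℝ) ≤ (n : ℝ) ^ 2 := by positivity
        nlinarith [mul_nonneg h7 (sub_nonneg.mpr hρ2)]
      · have h1 := abs_lt.mp (hlt θ)
        nlinarith [h1.1, h1.2]
    have h8 : -(1 / √(1 - (ρ * σ * Z.eval (cos θ)) ^ 2)) *
        (ρ * σ * -(sin θ * Z.derivative.eval (cos θ))) ≤
        |ρ * σ * -(sin θ * Z.derivative.eval (cos θ))| /
          √(1 - (ρ * σ * Z.eval (cos θ)) ^ 2) := by
      rw [neg_mul, ← mul_neg, one_div, ← div_eq_inv_mul]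
      exact div_le_div_of_nonneg_right (neg_le_abs _) hq.le
    refine h8.trans ?_
    rw [div_le_div_iff₀ hq hR]
    exact key

/-- the phase inequality for one piece -/
theorem d2b_piece {n : ℕ} {Z : ℝ[X]} {r : ℝ → ℝ} (hb : Pool.Agent.Helper40.AS.Bdd Z)
    (hr : ∀ x ∈ Ioo (-1 : ℝ) 1, 0 ≤ r x ∧
      (n : ℝ) ^ 2 * (1 - Z.eval x ^ 2) = (1 + r x) * ((1 - x ^ 2) * Z.derivative.eval x ^ 2))
    (hint : IntegrableOn (fun θ => n / √(1 + r (cos θ))) (Icc 0 π))
    {u v σ : ℝ} (hσ : |σ| = 1) (hu : 0 ≤ u) (huv : u ≤ v) (hv : v ≤ π)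
    (h1 : Z.eval (cos u) = σ) (h2 : Z.eval (cos v) = -σ) :
    π ≤ ∫ θ in u..v, n / √(1 + r (cos θ)) := by
  have hσ2 : σ ^ 2 = 1 := by rw [← sq_abs, hσ]; norm_num
  have key : ∀ ρ ∈ Iio (1 : ℝ), 0 ≤ ρ → arccos (-ρ) - arccos ρ ≤
      ∫ θ in u..v, n / √(1 + r (cos θ)) := by
    intro ρ hρ hρ0
    have h3 := d2b_damp hb hr hint hσ hu huv hv hρ0 hρ
    rw [h1, h2] at h3
    have h4 : ρ * σ * -σ = -ρ := by
      have : ρ * σ * -σ = -(ρ * σ ^ 2) := by ring
      rw [this, hσ2, mul_one]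
    have h5 : ρ * σ * σ = ρ := by
      have : ρ * σ * σ = ρ * σ ^ 2 := by ring
      rw [this, hσ2, mul_one]
    rw [h4, h5] at h3
    exact h3
  have hc : Continuous fun ρ : ℝ => arccos (-ρ) - arccos ρ :=
    (Real.continuous_arccos.comp continuous_neg).sub Real.continuous_arccos
  have h6 : (fun ρ : ℝ => arccos (-ρ) - arccos ρ) 1 = π := by
    simp
  rw [← h6]
  have h7 : Filter.Tendsto (fun ρ : ℝ => arccos (-ρ) - arccos ρ) (nhdsWithin 1 (Iio 1))
      (nhds ((fun ρ : ℝ => arccos (-ρ) - arccos ρ) 1)) :=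
    (hc.tendsto 1).mono_left nhdsWithin_le_nhds
  refine le_of_tendsto h7 ?_
  have h8 : Ioo (0 : ℝ) 1 ∈ nhdsWithin (1 : ℝ) (Iio 1) := Ioo_mem_nhdsLT (by norm_num)
  filter_upwards [h8] with ρ hρ
  exact key ρ hρ.2 hρ.1.le

theorem d2b : D2b := by
  intro n x0 Z r hn hZ hrc hr
  obtain ⟨x, σ, hσ, hx, hxm, hxv⟩ := hZ.alt
  have hnn : ∀ θ ∈ Ioo 0 π, 0 ≤ n / √(1 + r (cos θ)) ∧ n / √(1 + r (cos θ)) ≤ n := by
    intro θ hθ
    have hs : 0 < sin θ := sin_pos_of_pos_of_lt_pi hθ.1 hθ.2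
    have hc2 := sin_sq_add_cos_sq θ
    have hx : cos θ ∈ Ioo (-1 : ℝ) 1 := by
      constructor <;> nlinarith
    obtain ⟨hr0, -⟩ := hr (cos θ) hx
    have h1 : 1 ≤ √(1 + r (cos θ)) := by
      rw [Real.one_le_sqrt]; linarith
    refine ⟨by positivity, ?_⟩
    apply div_le_self (by positivity) h1
  have hint0 : IntegrableOn (fun θ => n / √(1 + r (cos θ))) (Ioo 0 π) := by
    have hcont : ContinuousOn (fun θ => n / √(1 + r (cos θ))) (Ioo 0 π) := by
      have hmaps : MapsTo cos (Ioo 0 π) (Ioo (-1 : ℝ) 1) := by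
        intro θ hθ
        have hs : 0 < sin θ := sin_pos_of_pos_of_lt_pi hθ.1 hθ.2
        have hc2 := sin_sq_add_cos_sq θ
        constructor <;> nlinarith
      have h1 : ContinuousOn (fun θ => r (cos θ)) (Ioo 0 π) :=
        hrc.comp continuous_cos.continuousOn hmaps
      apply ContinuousOn.div continuousOn_const
      · exact (continuousOn_const.add h1).sqrt
      · intro θ hθ
        have h2 := (hr (cos θ) (hmaps hθ)).1
        exact (Real.sqrt_pos.mpr (by linarith)).ne'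
    apply MeasureTheory.IntegrableOn.of_bound (C := (n : ℝ)) (by simp)
      (hcont.aestronglyMeasurable measurableSet_Ioo)
    rw [ae_restrict_iff' measurableSet_Ioo]
    filter_upwards with θ hθ
    rw [Real.norm_eq_abs, abs_of_nonneg (hnn θ hθ).1]
    exact (hnn θ hθ).2
  have hint : IntegrableOn (fun θ => n / √(1 + r (cos θ))) (Icc 0 π) :=
    by
    rw [integrableOn_Icc_iff_integrableOn_Ioo]
    exact hint0
  have hii : ∀ u v : ℝ, 0 ≤ u → u ≤ v → v ≤ π →
      IntervalIntegrable (fun θ => n / √(1 + r (cos θ))) volume u v := by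
    intro u v hu huv hv
    rw [intervalIntegrable_iff_integrableOn_Icc_of_le huv]
    exact hint.mono_set (Icc_subset_Icc hu hv)
  have hnonneg : ∀ u v : ℝ, 0 ≤ u → u ≤ v → v ≤ π →
      0 ≤ ∫ θ in u..v, n / √(1 + r (cos θ)) := by
    intro u v hu huv hv
    rw [intervalIntegral.integral_of_le huv, MeasureTheory.integral_Ioc_eq_integral_Ioo]
    apply MeasureTheory.setIntegral_nonneg measurableSet_Ioo
    intro θ hθ
    exact (hnn θ ⟨lt_of_le_of_lt hu hθ.1, lt_of_lt_of_le hθ.2 hv⟩).1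
  have hmono : ∀ k, k + 1 < n → arccos (x (k + 1)) ≤ arccos (x k) := by
    intro k hk
    exact Real.arccos_le_arccos (hx k hk).le
  have hstep : ∀ k : ℕ, k < n → arccos (x k) ≤ arccos (x 0) ∧ (k : ℝ) * π ≤
      ∫ θ in arccos (x k)..arccos (x 0), n / √(1 + r (cos θ)) := by
    intro k
    induction k with
    | zero =>
      intro _
      refine ⟨le_rfl, ?_⟩
      simp
    | succ k ih =>
      intro hk
      obtain ⟨h1, h2⟩ := ih (by omega)
      have h3 := hmono k hk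
      refine ⟨h3.trans h1, ?_⟩
      have hxk := hxm k (by omega)
      have hxk1 := hxm (k + 1) hk
      have hσ1 : |σ * (-1) ^ k * -1| = 1 := by
        rw [abs_mul, abs_mul, abs_pow]
        rcases hσ with h | h <;> simp [h]
      have h4 := d2b_piece hZ.bdd hr hint (u := arccos (x (k + 1))) (v := arccos (x k)) hσ1
        (arccos_nonneg _) h3 (arccos_le_pi _)
        (by rw [cos_arccos hxk1.1 hxk1.2, hxv (k + 1) hk, pow_succ]; ring)
        (by rw [cos_arccos hxk.1 hxk.2, hxv k (by omega)]; ring)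
      rw [← intervalIntegral.integral_add_adjacent_intervals
        (hii _ _ (arccos_nonneg _) h3 (arccos_le_pi _))
        (hii _ _ (arccos_nonneg _) h1 (arccos_le_pi _))]
      push_cast
      linarith
  obtain ⟨h1, h2⟩ := hstep (n - 1) (by omega)
  have h3 : ((n - 1 : ℕ) : ℝ) = (n : ℝ) - 1 := by
    rw [Nat.cast_sub (by omega)]; simp
  rw [h3] at h2
  have h4 : ∫ θ in (0 : ℝ)..π, n / √(1 + r (cos θ)) =
      (∫ θ in (0 : ℝ)..arccos (x (n - 1)), n / √(1 + r (cos θ))) +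
      (∫ θ in arccos (x (n - 1))..arccos (x 0), n / √(1 + r (cos θ))) +
      (∫ θ in arccos (x 0)..π, n / √(1 + r (cos θ))) := by
    rw [intervalIntegral.integral_add_adjacent_intervals
        (hii _ _ le_rfl (arccos_nonneg _) (arccos_le_pi _))
        (hii _ _ (arccos_nonneg _) h1 (arccos_le_pi _)),
      intervalIntegral.integral_add_adjacent_intervals
        (hii _ _ le_rfl (arccos_nonneg _) (arccos_le_pi _))
        (hii _ _ (arccos_nonneg _) (arccos_le_pi _) le_rfl)]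
  rw [h4]
  have h5 := hnonneg _ _ le_rfl (arccos_nonneg (x (n - 1))) (arccos_le_pi _)
  have h6 := hnonneg _ _ (arccos_nonneg (x 0)) (arccos_le_pi _) le_rfl
  linarith

end

end Pool.Agent.Helper10.AL
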