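import Pool.Agent.Helper10.AL.St

/-!
The Zolotarev polynomial oscillates at least as fast as any other polynomial, to the left of its
zero.
-/

set_option autoImplicit false

namespace Pool.Agent.Helper10.AL

open Polynomial Set Real MeasureTheory intervalIntegral
open Pool.Agent.Helper40.AS (arc Bdd Ext)

noncomputable section

/-- `n + 1` points with weakly alternating signs: some `TL`, then some `z`, then the `TR`. -/
theorem d3_core (hA8 : A8) {n a b i : ℕ} (hab : a + b = n) (hi1 : 1 ≤ i) (hi2 : i ≤ a + 1)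
    (D : ℝ[X]) (hd : D.degree < (n : WithBot ℕ)) (TL z TR : ℕ → ℝ)
    (hTL : ∀ m < a, TL (m + 1) < TL m) (hz : ∀ m, 1 ≤ m → m + 1 ≤ i → z (m + 1) < z m)
    (hTR : ∀ m, 1 ≤ m → m < b → TR m < TR (m + 1)) (h1 : i ≤ a → TL i < z i)
    (h2 : 1 ≤ b → z 1 < TR 1)
    (sL : ∀ m, 1 ≤ m → m ≤ a → 0 ≤ (-1) ^ (m + 1) * D.eval (TL m))
    (sz : ∀ m, 1 ≤ m → m ≤ i → 0 ≤ (-1) ^ m * D.eval (z m))
    (sR : ∀ m, 1 ≤ m → m ≤ b → 0 ≤ (-1) ^ (m + 1) * D.eval (TR m)) : D = 0 := by
  set x : ℕ → ℝ := fun k => if k < a + 1 - i then TL (a - k) else if k < a + 1 then z (a + 1 - k)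
    else TR (k - a) with hx
  have hx1 : ∀ k, k < a + 1 - i → x k = TL (a - k) := fun k hk => by
    simp only [hx, if_pos hk]
  have hx2 : ∀ k, a + 1 - i ≤ k → k < a + 1 → x k = z (a + 1 - k) := fun k hk hk' => by
    simp only [hx, if_neg (not_lt.2 hk), if_pos hk']
  have hx3 : ∀ k, a + 1 ≤ k → x k = TR (k - a) := fun k hk => by
    have : ¬ k < a + 1 - i := by omega
    simp only [hx, if_neg this, if_neg (not_lt.2 hk)]
  have hD : C ((-1 : ℝ) ^ (a + 1)) * D = 0 := by
    refine hA8 n _ x ?_ ?_ ?_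
    · rw [degree_C_mul (pow_ne_zero _ (by norm_num))]
      exact hd
    · intro k hk
      rcases lt_trichotomy (k + 1) (a + 1 - i) with h | h | h
      · rw [hx1 k (by omega), hx1 (k + 1) h]
        have := hTL (a - (k + 1)) (by omega)
        rwa [show a - (k + 1) + 1 = a - k by omega] at this
      · rw [hx1 k (by omega), hx2 (k + 1) (by omega) (by omega),
          show a - k = i by omega, show a + 1 - (k + 1) = i by omega]
        exact h1 (by omega)
      · rcases lt_trichotomy k a with h' | h' | h'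
        · rw [hx2 k (by omega) (by omega), hx2 (k + 1) (by omega) (by omega)]
          have := hz (a + 1 - (k + 1)) (by omega) (by omega)
          rwa [show a + 1 - (k + 1) + 1 = a + 1 - k by omega] at this
        · rw [hx2 k (by omega) (by omega), hx3 (k + 1) (by omega),
            show a + 1 - k = 1 by omega, show k + 1 - a = 1 by omega]
          exact h2 (by omega)
        · rw [hx3 k (by omega), hx3 (k + 1) (by omega), show k + 1 - a = (k - a) + 1 by omega]
          exact hTR (k - a) (by omega) (by omega)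
    · intro k hk
      have key : ∀ (y : ℝ) (e : ℕ), (k + (a + 1)) % 2 = e % 2 → 0 ≤ (-1) ^ e * D.eval y →
          0 ≤ (-1) ^ k * (C ((-1 : ℝ) ^ (a + 1)) * D).eval y := by
        intro y e he h
        rw [eval_mul, eval_C, ← mul_assoc, ← pow_add]
        rw [neg_one_pow_eq_pow_mod_two] at h ⊢
        rwa [he]
      rcases lt_or_ge k (a + 1 - i) with h | h
      · rw [hx1 k h]
        exact key _ (a - k + 1) (by omega) (sL (a - k) (by omega) (by omega))
      · rcases lt_or_ge k (a + 1) with h' | h'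
        · rw [hx2 k h h']
          exact key _ (a + 1 - k) (by omega) (sz (a + 1 - k) (by omega) (by omega))
        · rw [hx3 k h']
          exact key _ (k - a + 1) (by omega) (sR (k - a) (by omega) (by omega))
  rcases mul_eq_zero.1 hD with h | h
  · exfalso
    rw [C_eq_zero] at h
    exact pow_ne_zero _ (by norm_num) h
  · exact h

/-- the quotient of a difference of two polynomials with a common zero -/
theorem d3_quot {n : ℕ} {x0 : ℝ} {Z P : ℝ[X]} (hZ : Z.natDegree ≤ n)
    (hP : P.natDegree ≤ n) (hZ0 : Z.eval x0 = 0) (hP0 : P.eval x0 = 0) :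
    ∃ D : ℝ[X], D.degree < (n : WithBot ℕ) ∧ Z - P = (X - C x0) * D := by
  have hroot : (Z - P).IsRoot x0 := by
    rw [IsRoot.def, eval_sub, hZ0, hP0, sub_zero]
  obtain ⟨D, hD⟩ := dvd_iff_isRoot.2 hroot
  refine ⟨D, ?_, hD⟩
  by_cases h0 : D = 0
  · rw [h0, degree_zero]
    exact WithBot.bot_lt_coe _
  · have h1 : (Z - P).natDegree ≤ n := (natDegree_sub_le _ _).trans (max_le hZ hP)
    rw [hD, natDegree_mul (X_sub_C_ne_zero x0) h0, natDegree_X_sub_C] at h1
    rw [degree_eq_natDegree h0]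
    exact_mod_cast (by omega : D.natDegree < n)

theorem d3_least {Q : ℕ → Prop} (h : ∃ i, Q i) : ∃ i, Q i ∧ ∀ k < i, ¬ Q k := by
  classical
  exact ⟨Nat.find h, Nat.find_spec h, fun k hk => Nat.find_min h hk⟩

theorem d3_anti {j : ℕ} {z : ℕ → ℝ} (hz : ∀ i < j, z (i + 1) < z i) :
    ∀ i k, i ≤ k → k ≤ j → z k ≤ z i := by
  intro i k hik
  induction k, hik using Nat.le_induction with
  | base => exact fun _ => le_rfl
  | succ k _ ih => exact fun hk => (hz k (by omega)).le.trans (ih (by omega))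

theorem d3_lt {j : ℕ} {z : ℕ → ℝ} (hz : ∀ i < j, z (i + 1) < z i) {m : ℕ} (h1 : 1 ≤ m)
    (h2 : m ≤ j) : z m < z 0 :=
  lt_of_le_of_lt (d3_anti hz 1 m h1 h2) (hz 0 (by omega))

theorem d3_mono {j : ℕ} {z : ℕ → ℝ} (hz : ∀ i < j, z i < z (i + 1)) :
    ∀ i k, i ≤ k → k ≤ j → z i ≤ z k := by
  intro i k hik
  induction k, hik using Nat.le_induction with
  | base => exact fun _ => le_rfl
  | succ k _ ih => exact fun hk => (ih (by omega)).trans (hz k (by omega)).le

theorem d3_gt {j : ℕ} {z : ℕ → ℝ} (hz : ∀ i < j, z i < z (i + 1)) {m : ℕ} (h1 : 1 ≤ m)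
    (h2 : m ≤ j) : z 0 < z m :=
  lt_of_lt_of_le (hz 0 (by omega)) (d3_mono hz 1 m h1 h2)

/-- sign of the quotient at a point where the difference has a known sign -/
theorem d3_sign_left {x0 y : ℝ} {Z P D : ℝ[X]} (hD : Z - P = (X - C x0) * D) (hy : y < x0)
    {s : ℝ} (h : 0 ≤ s * (Z.eval y - P.eval y)) : 0 ≤ -s * D.eval y := by
  have h1 : Z.eval y - P.eval y = (y - x0) * D.eval y := by
    rw [← eval_sub, hD, eval_mul, eval_sub, eval_X, eval_C]
  rw [h1] at h
  have h2 : 0 ≤ (x0 - y) * (-s * D.eval y) := by linarith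
  exact nonneg_of_mul_nonneg_right h2 (by linarith)

theorem d3_sign_right {x0 y : ℝ} {Z P D : ℝ[X]} (hD : Z - P = (X - C x0) * D) (hy : x0 < y)
    {s : ℝ} (h : 0 ≤ s * (Z.eval y - P.eval y)) : 0 ≤ s * D.eval y := by
  have h1 : Z.eval y - P.eval y = (y - x0) * D.eval y := by
    rw [← eval_sub, hD, eval_mul, eval_sub, eval_X, eval_C]
  rw [h1] at h
  have h2 : 0 ≤ (y - x0) * (s * D.eval y) := by linarith
  exact nonneg_of_mul_nonneg_right h2 (by linarith)

/-- `0 ≤ s (Z y - P y)` when `Z y = s = ±1` -/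
theorem d3_abs {m : ℕ} {u v : ℝ} (hu : u = (-1) ^ m) (hv : |v| ≤ 1) :
    0 ≤ (-1) ^ m * (u - v) := by
  rw [hu, mul_sub, ← pow_add, ← two_mul, pow_mul, neg_one_sq, one_pow]
  have h1 : |(-1 : ℝ) ^ m * v| ≤ 1 := by
    rw [abs_mul, abs_neg_one_pow, one_mul]
    exact hv
  linarith [le_abs_self ((-1 : ℝ) ^ m * v)]

theorem d3 (hD0 : D0) (hA8 : A8) : D3 := by
  intro n j x0 Z P z hn hZ hPd hPb hP0 hz0 hz hzj hPz
  by_cases hZP : Z = P
  · exact ⟨z, hz0, hz, fun i _ => le_rfl, fun i h1 h2 => by rw [hZP]; exact hPz i h1 h2⟩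
  obtain ⟨jL, jR, TL, TR, hsum, hTL0, hTR0, hTL, hTR, hTLj, hTRj, hZL, hZR⟩ := hD0 n x0 Z hn hZ
  by_cases hbad : ∃ i, i ≤ j ∧ (jL < i ∨ TL i < z i)
  · exfalso
    apply hZP
    obtain ⟨i, ⟨hij, hi⟩, hmin'⟩ := d3_least hbad
    have hmin : ∀ k < i, k ≤ jL := by
      intro k hk
      by_contra h0
      exact hmin' k hk ⟨by omega, Or.inl (by omega)⟩
    have hi1 : 1 ≤ i := by
      by_contra h0
      have h00 : i = 0 := by omega
      rw [h00, hTL0, hz0] at hi
      rcases hi with h | h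
      · omega
      · exact lt_irrefl _ h
    have hi2 : i ≤ jL + 1 := by
      have := hmin (i - 1) (by omega)
      omega
    obtain ⟨D, hDd, hD⟩ := d3_quot hZ.deg hPd hZ.z0 hP0
    have hx0 := hZ.hx
    have hTLx : ∀ m, 1 ≤ m → m ≤ jL → TL m < x0 ∧ TL m ∈ Icc (-1 : ℝ) 1 := by
      intro m h1 h2
      have h3 := d3_lt hTL h1 h2
      rw [hTL0] at h3
      exact ⟨h3, hTLj.trans (d3_anti hTL m jL h2 le_rfl), by linarith [hx0.2]⟩
    have hzx : ∀ m, 1 ≤ m → m ≤ j → z m < x0 ∧ z m ∈ Icc (-1 : ℝ) 1 := by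
      intro m h1 h2
      have h3 := d3_lt hz h1 h2
      rw [hz0] at h3
      exact ⟨h3, hzj.trans (d3_anti hz m j h2 le_rfl), by linarith [hx0.2]⟩
    have hTRx : ∀ m, 1 ≤ m → m ≤ jR → x0 < TR m ∧ TR m ∈ Icc (-1 : ℝ) 1 := by
      intro m h1 h2
      have h3 := d3_gt hTR h1 h2
      rw [hTR0] at h3
      exact ⟨h3, by linarith [hx0.1], (d3_mono hTR m jR h2 le_rfl).trans hTRj⟩
    have hD0' : D = 0 := by
      refine d3_core hA8 hsum hi1 hi2 D hDd TL z TR hTL (fun m _ h2 => hz m (by omega))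
        (fun m _ h2 => hTR m h2) (fun h => ?_) (fun h => ?_) ?_ ?_ ?_
      · rcases hi with h' | h'
        · omega
        · exact h'
      · exact (hzx 1 le_rfl (by omega)).1.trans (hTRx 1 le_rfl h).1
      · intro m h1 h2
        have h3 := d3_sign_left hD (hTLx m h1 h2).1
          (d3_abs (hZL m h1 h2) (hPb _ (hTLx m h1 h2).2))
        rw [pow_succ]
        linarith
      · intro m h1 h2
        have h4 := hzx m h1 (by omega)
        have h3 := d3_sign_left (s := -(-1) ^ m) hD h4.1 (by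
          have := d3_abs (hPz m h1 (by omega)) (hZ.bdd _ h4.2)
          linarith)
        linarith
      · intro m h1 h2
        have h4 := hTRx m h1 h2
        have h3 := d3_sign_right hD h4.1
          (d3_abs (m := m + 1) (u := Z.eval (TR m)) (by rw [hZR m h1 h2, pow_succ]; ring)
            (hPb _ h4.2))
        exact h3
    rw [← sub_eq_zero, hD, hD0', mul_zero]
  · push Not at hbad
    exact ⟨TL, hTL0, fun i hi => hTL i (by have := (hbad (i + 1) (by omega)).1; omega),
      fun i hi => (hbad i hi).2, fun i h1 h2 => hZL i h1 (hbad i h2).1⟩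

end

end Pool.Agent.Helper10.AL
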