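import Pool.Agent.Helper10.AL.P.D3

/-!
The Zolotarev polynomial oscillates at least as fast as any other polynomial, to the right of its
zero.
-/

set_option autoImplicit false

namespace Pool.Agent.Helper10.AL

open Polynomial Set Real MeasureTheory intervalIntegral
open Pool.Agent.Helper40.AS (arc Bdd Ext)

noncomputable section

theorem d3r_degree {n : ℕ} {D : ℝ[X]} (hD : D.degree < (n : WithBot ℕ)) :
    (D.comp (-X)).degree < (n : WithBot ℕ) := by
  refine lt_of_le_of_lt ?_ hD
  by_cases h0 : D.comp (-X) = 0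
  · rw [h0, degree_zero]
    exact bot_le
  · have hD0 : D ≠ 0 := fun h => h0 (by rw [h, zero_comp])
    rw [degree_eq_natDegree h0, degree_eq_natDegree hD0]
    have := natDegree_comp_le (p := D) (q := -X)
    rw [natDegree_neg, natDegree_X, mul_one] at this
    exact_mod_cast this

theorem d3r_eval (D : ℝ[X]) (y : ℝ) : (D.comp (-X)).eval (-y) = D.eval y := by
  rw [eval_comp, eval_neg, eval_X, neg_neg]

theorem d3r_comp (D : ℝ[X]) (h : D.comp (-X) = 0) : D = 0 := by
  have h1 : (D.comp (-X)).comp (-X) = D := by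
    rw [comp_assoc, neg_comp, X_comp, neg_neg, comp_X]
  rw [← h1, h, zero_comp]

theorem d3r (_hD3 : D3) (hD0 : D0) (hA8 : A8) : D3r := by
  intro n j x0 Z P z hn hZ hPd hPb hP0 hz0 hz hzj hPz
  by_cases hZP : Z = P
  · exact ⟨z, hz0, hz, fun i _ => le_rfl, fun i h1 h2 => by rw [hZP]; exact hPz i h1 h2⟩
  obtain ⟨jL, jR, TL, TR, hsum, hTL0, hTR0, hTL, hTR, hTLj, hTRj, hZL, hZR⟩ := hD0 n x0 Z hn hZ
  by_cases hbad : ∃ i, i ≤ j ∧ (jR < i ∨ z i < TR i)
  · exfalso
    apply hZP
    obtain ⟨i, ⟨hij, hi⟩, hmin'⟩ := d3_least hbad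
    have hmin : ∀ k < i, k ≤ jR := by
      intro k hk
      by_contra h0
      exact hmin' k hk ⟨by omega, Or.inl (by omega)⟩
    have hi1 : 1 ≤ i := by
      by_contra h0
      have h00 : i = 0 := by omega
      rw [h00, hTR0, hz0] at hi
      rcases hi with h | h
      · omega
      · exact lt_irrefl _ h
    have hi2 : i ≤ jR + 1 := by
      have := hmin (i - 1) (by omega)
      omega
    obtain ⟨D, hDd, hD⟩ := d3_quot hZ.deg hPd hZ.z0 hP0
    have hx0 := hZ.hx
    have hTLx : ∀ m, 1 ≤ m → m ≤ jL → TL m < x0 ∧ TL m ∈ Icc (-1 : ℝ) 1 := by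
      intro m h1 h2
      have h3 := d3_lt hTL h1 h2
      rw [hTL0] at h3
      exact ⟨h3, hTLj.trans (d3_anti hTL m jL h2 le_rfl), by linarith [hx0.2]⟩
    have hzx : ∀ m, 1 ≤ m → m ≤ j → x0 < z m ∧ z m ∈ Icc (-1 : ℝ) 1 := by
      intro m h1 h2
      have h3 := d3_gt hz h1 h2
      rw [hz0] at h3
      exact ⟨h3, by linarith [hx0.1], (d3_mono hz m j h2 le_rfl).trans hzj⟩
    have hTRx : ∀ m, 1 ≤ m → m ≤ jR → x0 < TR m ∧ TR m ∈ Icc (-1 : ℝ) 1 := by
      intro m h1 h2
      have h3 := d3_gt hTR h1 h2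
      rw [hTR0] at h3
      exact ⟨h3, by linarith [hx0.1], (d3_mono hTR m jR h2 le_rfl).trans hTRj⟩
    have hD0' : D = 0 := by
      apply d3r_comp
      refine d3_core hA8 (a := jR) (b := jL) (by omega) hi1 hi2 (D.comp (-X)) (d3r_degree hDd)
        (fun m => -TR m) (fun m => -z m) (fun m => -TL m) (fun m hm => ?_) (fun m _ h2 => ?_)
        (fun m _ h2 => ?_) (fun h => ?_) (fun h => ?_) ?_ ?_ ?_
      · exact neg_lt_neg (hTR m hm)
      · exact neg_lt_neg (hz m (by omega))
      · exact neg_lt_neg (hTL m h2)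
      · rcases hi with h' | h'
        · omega
        · exact neg_lt_neg h'
      · exact neg_lt_neg ((hTLx 1 le_rfl h).1.trans (hzx 1 le_rfl (by omega)).1)
      · intro m h1 h2
        rw [d3r_eval]
        have h4 := hTRx m h1 h2
        exact d3_sign_right hD h4.1
          (d3_abs (m := m + 1) (u := Z.eval (TR m)) (by rw [hZR m h1 h2, pow_succ]; ring)
            (hPb _ h4.2))
      · intro m h1 h2
        rw [d3r_eval]
        have h4 := hzx m h1 (by omega)
        refine d3_sign_right hD h4.1 ?_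
        have := d3_abs (m := m + 1) (u := P.eval (z m)) (v := Z.eval (z m))
          (by rw [hPz m h1 (by omega), pow_succ]; ring) (hZ.bdd _ h4.2)
        rw [pow_succ] at this
        linarith
      · intro m h1 h2
        rw [d3r_eval]
        have h3 := d3_sign_left hD (hTLx m h1 h2).1
          (d3_abs (hZL m h1 h2) (hPb _ (hTLx m h1 h2).2))
        rw [pow_succ]
        linarith
    rw [← sub_eq_zero, hD, hD0', mul_zero]
  · push Not at hbad
    exact ⟨TR, hTR0, fun i hi => hTR i (by have := (hbad (i + 1) (by omega)).1; omega),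
      fun i hi => (hbad i hi).2, fun i h1 h2 => hZR i h1 (hbad i h2).1⟩

end

end Pool.Agent.Helper10.AL
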