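import Pool.Agent.Helper10.AL.St2

/-!
Arc length of polynomials over compact windows, piece E1: non-degeneracy in the middle of the
window.
-/

set_option autoImplicit false

namespace Pool.Agent.Helper10.AL

open Polynomial Set Real MeasureTheory intervalIntegral Filter
open Pool.Agent.Helper40.AS (arc Bdd Ext quad)

noncomputable section

theorem e1_small : ∃ n0 : ℕ, ∀ n : ℕ, n0 ≤ n → 2 * er n + 3.2 / (n : ℝ) < 0.003 := by
  have h1 : Tendsto (fun x : ℝ => Real.log x / x) atTop (nhds 0) :=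
    Real.isLittleO_log_id_atTop.tendsto_div_nhds_zero
  have h2 : Tendsto (fun n : ℕ => Real.log (n : ℝ) / (n : ℝ)) atTop (nhds 0) :=
    h1.comp tendsto_natCast_atTop_atTop
  have h3 : Tendsto (fun n : ℕ => (1 : ℝ) / (n : ℝ)) atTop (nhds 0) :=
    tendsto_one_div_atTop_nhds_zero_nat
  have h4 : Tendsto (fun n : ℕ => 2 * er n + 3.2 / (n : ℝ)) atTop (nhds 0) := by
    have h5 : Tendsto (fun n : ℕ => 120 * (1 / (n : ℝ) + Real.log (n : ℝ) / (n : ℝ)) +
        3.2 * (1 / (n : ℝ))) atTop (nhds (120 * (0 + 0) + 3.2 * 0)) :=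
      ((h3.add h2).const_mul 120).add (h3.const_mul 3.2)
    rw [show (120 * (0 + 0) + 3.2 * 0 : ℝ) = 0 by norm_num] at h5
    refine h5.congr fun n => ?_
    unfold er
    ring
  have h6 := h4.eventually (gt_mem_nhds (show (0 : ℝ) < 0.003 by norm_num))
  obtain ⟨n0, hn0⟩ := eventually_atTop.mp h6
  exact ⟨n0, fun n hn => hn0 n hn⟩

/-- integrability of the length element -/
theorem e1_int (hA2 : A2) (P : ℝ[X]) (u v : ℝ) :
    IntervalIntegrable (fun θ => √(1 + (deriv (qq P) θ) ^ 2)) volume u v := by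
  have h1 : (fun θ => √(1 + (deriv (qq P) θ) ^ 2)) =
      fun θ => √(1 + (-(sin θ * P.derivative.eval (cos θ))) ^ 2) := by
    funext θ
    rw [(hA2.2.2 P θ).1]
  rw [h1]
  apply Continuous.intervalIntegrable
  have h2 : Continuous fun θ => P.derivative.eval (cos θ) := P.derivative.continuous.comp continuous_cos
  fun_prop

theorem e1_add (hA2 : A2) (P : ℝ[X]) (u v w : ℝ) :
    En (qq P) u v + En (qq P) v w = En (qq P) u w :=
  integral_add_adjacent_intervals (e1_int hA2 P u v) (e1_int hA2 P v w)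

/-- the numbers `ψ` and `μ` -/
theorem e1_psi : ∃ ψ μ : ℝ, π / 2 ≤ ψ ∧ ψ ≤ π / 2 + 0.0011 ∧ ψ < π ∧ 0 ≤ μ ∧ μ ≤ 0.0011 ∧
    -cos ψ = 0.001 ∧ μ * sin ψ = 0.001 := by
  set x := arcsin 0.001 with hx
  have hx0 : 0 ≤ x := arcsin_nonneg.mpr (by norm_num)
  have hsx : sin x = 0.001 := sin_arcsin (by norm_num) (by norm_num)
  have hpi : 3 < π := pi_gt_three
  have hx1 : x ≤ 0.0011 := by
    have h1 : (0.001 : ℝ) ≤ sin 0.0011 := by
      have := sin_gt_sub_cube (x := 0.0011) (by norm_num)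
      refine le_trans ?_ this.le
      norm_num
    calc x ≤ arcsin (sin 0.0011) := arcsin_le_arcsin h1
      _ = 0.0011 := arcsin_sin (by linarith) (by linarith)
  have hc : 0.99 ≤ cos x := by
    have h1 := one_sub_sq_div_two_le_cos (x := x)
    nlinarith
  refine ⟨π / 2 + x, 0.001 / cos x, by linarith, by linarith, by linarith, by positivity, ?_, ?_, ?_⟩
  · rw [div_le_iff₀ (by linarith)]
    nlinarith
  · rw [add_comm, cos_add_pi_div_two, neg_neg, hsx]
  · rw [add_comm, sin_add_pi_div_two]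
    field_simp

theorem e1 (hA2 : A2) (hB3 : B3) (hB7 : B7) (hC1 : C1) (hC2 : C2) (hN1 : N1) (hVF1 : VF1)
    (hVF3 : VF3) : E1 := by
  obtain ⟨n0, hn0⟩ := e1_small
  refine ⟨max n0 4, fun n a b P hn ha hab hb hE => ?_⟩
  have hnn : n0 ≤ n := le_trans (le_max_left _ _) hn
  have hn4 : 4 ≤ n := le_trans (le_max_right _ _) hn
  have hnR : (4 : ℝ) ≤ n := by exact_mod_cast hn4
  have hnpos : (0 : ℝ) < n := by linarith
  intro θ hθ hd
  by_contra hdd
  rw [not_le] at hdd
  obtain ⟨ψ, μ, hψ0, hψ1, hψ2, hμ0, hμ1, hcos, hsin⟩ := e1_psi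
  have hdeg : P.natDegree ≤ n := natDegree_le_iff_degree_le.mpr hE.deg
  have hTB := hA2.2.1 n P hdeg hE.bdd
  set α := arccos a with hα
  set β := arccos b with hβ
  have hα1 : α ≤ π := arccos_le_pi a
  have hβ0 : 0 ≤ β := arccos_nonneg b
  have hpi : 3 < π := pi_gt_three
  obtain ⟨hθ1, hθ2⟩ := hθ
  have hT : (0 : ℝ) < 1.6 / n := by positivity
  -- the middle
  have h7 := hB7 n (qq P) θ ψ μ 1.6 (by omega) hTB hψ0 hψ2 hμ0
    (by rw [hcos]; linarith) (by rw [hsin]; linarith) (by norm_num)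
  have hN := (hN1 μ ψ hμ0 hμ1 hψ0 hψ1).1
  -- the outer windows
  have hL := (hB3 n (qq P) β (θ - 1.6 / n) hn4 hTB (by linarith) (by linarith)).1
  have hR := (hB3 n (qq P) (θ + 1.6 / n) α hn4 hTB (by linarith) (by linarith)).1
  -- total
  have hC := (hC1 P a b ha hab.le hb).2
  have hlow := hC2 n a b P (by omega) ha hab.le hb hE
  have hV := hVF3 (n * β) (n * (α - β)) (by
    apply mul_nonneg hnpos.le
    linarith)
  rw [show (n : ℝ) * β + n * (α - β) = n * α by ring] at hV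
  have hs1 := e1_add hA2 P β (θ - 1.6 / n) θ
  have hs2 := e1_add hA2 P β θ (θ + 1.6 / n)
  have hs3 := e1_add hA2 P β (θ + 1.6 / n) α
  have hsm := hn0 n hnn
  have hcs := hVF1.2
  have e1' : (n : ℝ) * (θ - 1.6 / n - β) = n * (θ - β) - 1.6 := by
    field_simp
    ring
  have e2' : (n : ℝ) * (α - (θ + 1.6 / n)) = n * (α - θ) - 1.6 := by
    field_simp
    ring
  rw [e1'] at hL
  rw [e2'] at hR
  have hπ : (2.037 : ℝ) ≤ 2 / π * 3.2 := by
    have := pi_lt_d4
    have hp : 0 < π := pi_pos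
    rw [div_mul_eq_mul_div, le_div_iff₀ hp]
    nlinarith
  have hmain : 2 / π * (n * (α - β)) - cs ≤
      2 / π * (n * (θ - β) - 1.6) + cs + er n + (2 / π * (n * (α - θ) - 1.6) + cs + er n) +
        2 * (1.6 / n + 0.385) := by
    linarith [h7.1, h7.2]
  have e3 : 2 / π * (n * (θ - β) - 1.6) + 2 / π * (n * (α - θ) - 1.6) =
      2 / π * (n * (α - β)) - 2 / π * 3.2 := by ring
  have e4 : 2 * (1.6 / (n : ℝ)) = 3.2 / n := by ring
  linarith

end

end Pool.Agent.Helper10.AL
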