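import Pool.Agent.Helper10.AL.St2

/-! Piece E2. -/

set_option autoImplicit false

namespace Pool.Agent.Helper10.AL

open Polynomial Set Real MeasureTheory intervalIntegral
open Pool.Agent.Helper40.AS (arc Bdd Ext quad)

theorem e2_cont (hA2 : A2) (P : ℝ[X]) : Continuous (fun θ => √(1 + (deriv (qq P) θ) ^ 2)) := by
  have h : deriv (qq P) = fun θ => -(sin θ * P.derivative.eval (cos θ)) :=
    funext fun θ => (hA2.2.2 P θ).1
  rw [h]
  have h1 : Continuous (fun θ : ℝ => P.derivative.eval (cos θ)) :=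
    P.derivative.continuous.comp continuous_cos
  fun_prop

theorem e2_split (hA2 : A2) (P : ℝ[X]) (u v w : ℝ) :
    En (qq P) u w = En (qq P) u v + En (qq P) v w :=
  (integral_add_adjacent_intervals ((e2_cont hA2 P).intervalIntegrable _ _)
    ((e2_cont hA2 P).intervalIntegrable _ _)).symm

theorem e2_small (n : ℕ) (hn : 10 ^ 6 ≤ n) :
    2 * er n + 6 / n + 3 * (1 + Real.log n) / (n : ℝ) ^ 2 ≤ 0.3 := by
  have hn1 : ((10 : ℝ) ^ 6) ≤ n := by exact_mod_cast hn
  have hn0 : (0 : ℝ) < n := by linarith [show (0 : ℝ) < 10 ^ 6 by norm_num]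
  set s := √(n : ℝ) with hs
  have hs2 : s ^ 2 = n := Real.sq_sqrt hn0.le
  have hs3 : (1000 : ℝ) ≤ s := by
    rw [hs]
    apply Real.le_sqrt_of_sq_le
    nlinarith
  have hs0 : 0 < s := by linarith
  have hlog : 1 + Real.log n ≤ 2 * s := by
    have h1 : Real.log n = 2 * Real.log s := by
      rw [← hs2, Real.log_pow]; norm_num
    have h2 := Real.log_le_sub_one_of_pos hs0
    linarith
  have h1 : 2 * er n ≤ 240 / s := by
    unfold er
    rw [← hs2, ← mul_div_assoc, div_le_div_iff₀ (by positivity) hs0]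
    rw [hs2]
    have : 2 * (60 * (1 + Real.log n)) * s ≤ 2 * (60 * (2 * s)) * s := by gcongr
    nlinarith
  have h2 : 6 / (n : ℝ) ≤ 6 / s := by
    rw [← hs2]
    apply div_le_div_of_nonneg_left (by norm_num) hs0
    nlinarith
  have h3 : 3 * (1 + Real.log n) / (n : ℝ) ^ 2 ≤ 6 / s := by
    rw [div_le_div_iff₀ (by positivity) hs0]
    have h4 : 3 * (1 + Real.log n) * s ≤ 3 * (2 * s) * s := by gcongr
    have h5 : 3 * (2 * s) * s = 6 * n := by rw [← hs2]; ring
    have h6 : 6 * (n : ℝ) ≤ 6 * n ^ 2 := by nlinarith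
    linarith
  have h7 : 240 / s ≤ 0.24 := by
    rw [div_le_iff₀ hs0]; linarith
  have h8 : 6 / s ≤ 0.006 := by
    rw [div_le_iff₀ hs0]; linarith
  linarith

theorem e2 (hA2 : A2) (hB1 : B1) (hB3 : B3) (hC1 : C1) (hC2 : C2) (hVF1 : VF1)
    (hVF3 : VF3) : E2 := by
  refine ⟨10 ^ 6, ?_⟩
  intro n a b u v P hn ha hab hb hE hu huv hv hder
  by_contra hcon
  push Not at hcon
  have hn1 : ((10 : ℝ) ^ 6) ≤ n := by exact_mod_cast hn
  have hn0 : (0 : ℝ) < n := by linarith [show (0 : ℝ) < 10 ^ 6 by norm_num]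
  have hn1' : 1 ≤ n := by omega
  have hn4 : 4 ≤ n := by omega
  have hTB : TB n (qq P) := hA2.2.1 n P (natDegree_le_of_degree_le hE.deg) hE.bdd
  set v' := u + 6 / (n : ℝ) with hv'
  have h60 : 0 < 6 / (n : ℝ) := by positivity
  have hlen : n * (v' - u) = 6 := by
    rw [hv', add_sub_cancel_left]; field_simp
  have hv'v : v' < v := by
    by_contra h
    push Not at h
    have : n * (v - u) ≤ n * (v' - u) := by gcongr
    linarith
  have hα : 0 ≤ arccos b := arccos_nonneg b
  have hβ : arccos a ≤ π := arccos_le_pi a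
  have hpi := pi_pos
  have e1 := (hB3 n (qq P) (arccos b) u hn4 hTB hu (by linarith)).1
  have e2 := (hB3 n (qq P) v' (arccos a) hn4 hTB (by linarith) (by linarith)).1
  have e3 := (hB1 n (qq P) u v' hn1' hTB (by linarith)
    (fun θ hθ => hder θ ⟨hθ.1, hθ.2.trans hv'v⟩)).2.2
  have e4 : |qq P v' - qq P u| ≤ 2 := by
    have h1 := hTB.2 v'
    have h2 := hTB.2 u
    rw [abs_le] at *
    constructor <;> linarith
  have e5 : 0 ≤ |arccos (qq P v') - arccos (qq P u)| / n := by positivity
  have e6 := (hC1 P a b ha hab.le hb).2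
  have e7 := hC2 n a b P hn1' ha hab.le hb hE
  have e8 := hVF3 (n * arccos b) (n * (arccos a - arccos b))
    (mul_nonneg hn0.le (by linarith))
  rw [show n * arccos b + n * (arccos a - arccos b) = n * arccos a by ring] at e8
  have e9 : En (qq P) (arccos b) (arccos a) = En (qq P) (arccos b) u + En (qq P) u v' +
      En (qq P) v' (arccos a) := by
    rw [← e2_split hA2, ← e2_split hA2]
  have e10 := e2_small n hn
  have e11 := hVF1.2
  have e12 : 2 / π * (n * (u - arccos b)) + 2 / π * (n * (arccos a - v')) =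
      2 / π * (n * (arccos a - arccos b)) - 12 / π := by
    have : n * (u - arccos b) + n * (arccos a - v') = n * (arccos a - arccos b) - 6 := by
      have := hlen
      linarith
    rw [← mul_add, this]
    ring
  have e13 : 3.8 ≤ 12 / π := by
    rw [le_div_iff₀ hpi]
    have := pi_lt_d2
    nlinarith
  have e14 : v' - u = 6 / n := by rw [hv']; ring
  linarith

end Pool.Agent.Helper10.AL
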