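import Pool.Agent.Helper10.AL.St4

/-!
Arc length of polynomials over windows of arbitrary length, large degree: piece E3L.
-/

set_option autoImplicit false

namespace Pool.Agent.Helper10.AL

open Polynomial Set Real MeasureTheory intervalIntegral
open Pool.Agent.Helper40.AS (arc Bdd Ext)

/-- difference quotient of the cosine against the sine at the end points -/
theorem e3L_cot (x y : ℝ) (h0 : 0 ≤ x) (hxy : x < y) (hπ : y ≤ π) (hd : y - x < π) :
    (y - x) * sin x ≤ 2 * (cos x - cos y) ∧ (y - x) * sin y ≤ 2 * (cos x - cos y) := by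
  obtain ⟨s, d, hx, hy⟩ : ∃ s d : ℝ, x = s - d ∧ y = s + d :=
    ⟨(x + y) / 2, (y - x) / 2, by ring, by ring⟩
  have hd0 : 0 < d := by linarith
  have hd1 : d < π / 2 := by linarith
  have hs0 : 0 ≤ s := by linarith
  have hsπ : s ≤ π := by linarith
  have hss : 0 ≤ sin s := sin_nonneg_of_nonneg_of_le_pi hs0 hsπ
  have hcd : 0 < cos d := cos_pos_of_mem_Ioo ⟨by linarith, hd1⟩
  have hdd : d * cos d ≤ sin d := by
    have h1 := (Real.lt_tan hd0 hd1).le
    rw [tan_eq_sin_div_cos, le_div_iff₀ hcd] at h1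
    exact h1
  have h1 : 0 ≤ sin x := sin_nonneg_of_nonneg_of_le_pi h0 (by linarith)
  have h2 : 0 ≤ sin y := sin_nonneg_of_nonneg_of_le_pi (by linarith) hπ
  have h3 : sin x + sin y = 2 * (sin s * cos d) := by
    rw [hx, hy, sin_sub, sin_add]; ring
  have h4 : cos x - cos y = 2 * (sin s * sin d) := by
    rw [hx, hy, cos_sub, cos_add]; ring
  have h5 : y - x = 2 * d := by rw [hx, hy]; ring
  have h6 : sin s * (d * cos d) ≤ sin s * sin d := mul_le_mul_of_nonneg_left hdd hss
  rw [h4, h5]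
  have h7 : 2 * d * sin x ≤ 2 * d * (2 * (sin s * cos d)) :=
    mul_le_mul_of_nonneg_left (by linarith) (by linarith)
  have h8 : 2 * d * sin y ≤ 2 * d * (2 * (sin s * cos d)) :=
    mul_le_mul_of_nonneg_left (by linarith) (by linarith)
  have h9 : 2 * d * (2 * (sin s * cos d)) = 4 * (sin s * (d * cos d)) := by ring
  constructor <;> linarith

/-- logarithm against the square root -/
theorem e3L_log (x : ℝ) (hx : 0 < x) : 1 + Real.log x ≤ 2 * √x := by
  have h1 : Real.log (√x) ≤ √x - 1 := Real.log_le_sub_one_of_pos (Real.sqrt_pos.mpr hx)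
  have h2 : Real.log (√x) = Real.log x / 2 := Real.log_sqrt hx.le
  rw [h2] at h1
  have h3 : 0 ≤ √x := Real.sqrt_nonneg x
  linarith

theorem e3L (hA2 : A2) (hE1 : E1) (hK3u : K3u) : E3L := by
  obtain ⟨K, hK, hK3'⟩ := hK3u
  obtain ⟨n2, hE1'⟩ := hE1
  have hRpos : 0 < 8000 + 12800 * K := by positivity
  refine ⟨8000 + 12800 * K, hRpos, max n2 (max 2 (⌈(8000 * K) ^ 2⌉₊)), ?_⟩
  intro n hn a b θ P ha1 hab' hb1 hE hθ1 hθ2 hq
  have hn2 : n2 ≤ n := (le_max_left _ _).trans hn
  have hn3 : 2 ≤ n := (le_max_left _ _).trans ((le_max_right _ _).trans hn)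
  have hn4 : ⌈(8000 * K) ^ 2⌉₊ ≤ n := (le_max_right _ _).trans ((le_max_right _ _).trans hn)
  by_contra hne
  set R : ℝ := 8000 + 12800 * K with hRdef
  have hnR : (2 : ℝ) ≤ n := by exact_mod_cast hn3
  have hnpos : (0 : ℝ) < n := by linarith
  have hR8 : 8000 ≤ R := by rw [hRdef]; linarith
  have hRK : 12800 * K ≤ R := by rw [hRdef]; linarith
  have hca : cos (arccos a) = a := cos_arccos ha1 (by linarith)
  have hcb : cos (arccos b) = b := cos_arccos (by linarith) hb1
  have hRn : 0 < R / n := by positivity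
  have hb0 : 0 ≤ arccos b := arccos_nonneg b
  have haπ : arccos a ≤ π := arccos_le_pi a
  have hθ0 : 0 < θ := by linarith
  have hθπ : θ < π := by linarith
  -- Bernstein
  have hTB : TB n (qq P) := hA2.2.1 n P (Polynomial.natDegree_le_iff_degree_le.mpr hE.deg) hE.bdd
  have hdn : ∀ t, |deriv (qq P) t| ≤ n :=
    fun t => ((hA2.1 n (qq P) (by omega) hTB).2 t).2.2.1
  have hND := hE1' n a b P hn2 ha1 hab' hb1 hE
  have h16 : (1.6 : ℝ) / n ≤ R / n := by gcongr; linarith
  have hθI : θ ∈ Icc (arccos b + 1.6 / n) (arccos a - 1.6 / n) :=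
    ⟨by linarith, by linarith⟩
  have hlow : (n : ℝ) ^ 2 / 1000 ≤ |deriv (deriv (qq P)) θ| := by
    apply hND θ hθI
    rw [hq, abs_zero]
    positivity
  have hup := hK3' n a b θ 1.6 P hn3 ha1 hab' hb1 hE ⟨by linarith, by linarith⟩ hq hne
    (by norm_num) (by norm_num) hND
  -- the boundary terms
  have hterm : ∀ s q d l : ℝ, 0 ≤ s → |q| ≤ n → R / n ≤ l → l * s ≤ 2 * d →
      s * |q| / d ≤ (n : ℝ) ^ 2 / 4000 := by
    intro s q d l hs0 hq hl hd
    have hl0 : 0 < l := lt_of_lt_of_le hRn hl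
    rcases hs0.eq_or_lt with h | h
    · rw [← h, zero_mul, zero_div]
      positivity
    have hd' : 0 < d := by
      have := mul_pos hl0 h
      linarith
    rw [div_le_iff₀ hd']
    have h1 : s * |q| ≤ s * n := mul_le_mul_of_nonneg_left hq hs0
    have h2 : (8000 : ℝ) / n ≤ l := by
      refine le_trans ?_ hl
      gcongr
    have h3 : (8000 : ℝ) / n * s ≤ 2 * d := (mul_le_mul_of_nonneg_right h2 hs0).trans hd
    have h4 : (n : ℝ) ^ 2 / 8000 * (8000 / n * s) ≤ (n : ℝ) ^ 2 / 8000 * (2 * d) :=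
      mul_le_mul_of_nonneg_left h3 (by positivity)
    have h5 : (n : ℝ) ^ 2 / 8000 * (8000 / n * s) = s * n := by
      field_simp
    linarith
  have hta := (e3L_cot θ (arccos a) hθ0.le (by linarith) haπ (by linarith)).2
  have htb := (e3L_cot (arccos b) θ hb0 (by linarith) hθπ.le (by linarith)).1
  rw [hca] at hta
  rw [hcb] at htb
  have ht1 := hterm (sin (arccos a)) (deriv (qq P) (arccos a)) (cos θ - a) (arccos a - θ)
    (sin_nonneg_of_nonneg_of_le_pi (arccos_nonneg a) haπ) (hdn _) (by linarith) hta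
  have ht2 := hterm (sin (arccos b)) (deriv (qq P) (arccos b)) (b - cos θ) (θ - arccos b)
    (sin_nonneg_of_nonneg_of_le_pi hb0 (arccos_le_pi b)) (hdn _) (by linarith) htb
  -- the logarithmic term
  have ht3 : K * n * (1 + Real.log n) ≤ (n : ℝ) ^ 2 / 4000 := by
    have h1 := e3L_log n hnpos
    have h2 : 8000 * K ≤ √(n : ℝ) := by
      apply Real.le_sqrt_of_sq_le
      exact (Nat.le_ceil _).trans (by exact_mod_cast hn4)
    have h3 : √(n : ℝ) * √(n : ℝ) = n := Real.mul_self_sqrt hnpos.le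
    have h4 : 0 ≤ √(n : ℝ) := Real.sqrt_nonneg _
    have h5 : K * n * (1 + Real.log n) ≤ K * n * (2 * √(n : ℝ)) :=
      mul_le_mul_of_nonneg_left h1 (by positivity)
    have h6 : 8000 * K * √(n : ℝ) ≤ n := by
      calc 8000 * K * √(n : ℝ) ≤ √(n : ℝ) * √(n : ℝ) := mul_le_mul_of_nonneg_right h2 h4
        _ = n := h3
    nlinarith
  -- the tail term
  have ht4 : K * 1.6 * (n : ℝ) ^ 2 *
      (1 / (1 + n * (arccos a - θ)) + 1 / (1 + n * (θ - arccos b))) ≤ (n : ℝ) ^ 2 / 4000 := by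
    have hx : ∀ x : ℝ, R / n ≤ x → 1 / (1 + n * x) ≤ 1 / R := by
      intro x hx
      apply one_div_le_one_div_of_le hRpos
      rw [div_le_iff₀ hnpos] at hx
      linarith
    have h1 := hx (arccos a - θ) (by linarith)
    have h2 := hx (θ - arccos b) (by linarith)
    have h3 : K * 1.6 * (n : ℝ) ^ 2 *
        (1 / (1 + n * (arccos a - θ)) + 1 / (1 + n * (θ - arccos b))) ≤
        K * 1.6 * (n : ℝ) ^ 2 * (1 / R + 1 / R) :=
      mul_le_mul_of_nonneg_left (by linarith) (by positivity)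
    refine h3.trans ?_
    have h4 : K * (1 / R) ≤ 1 / 12800 := by
      rw [mul_one_div, div_le_div_iff₀ hRpos (by norm_num)]
      linarith
    have h5 : K * 1.6 * (n : ℝ) ^ 2 * (1 / R + 1 / R) = 3.2 * (n : ℝ) ^ 2 * (K * (1 / R)) := by
      ring
    rw [h5]
    have h6 : 3.2 * (n : ℝ) ^ 2 * (K * (1 / R)) ≤ 3.2 * (n : ℝ) ^ 2 * (1 / 12800) :=
      mul_le_mul_of_nonneg_left h4 (by positivity)
    refine h6.trans (le_of_eq ?_)
    ring
  have hn2pos : 0 < (n : ℝ) ^ 2 := by positivity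
  linarith

end Pool.Agent.Helper10.AL
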