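import Pool.Agent.Helper10.AL.St7

/-!
Arc length project, piece E6e: non-degeneracy on the whole window, windows of angular length at
least `R / n`.
-/

set_option autoImplicit false

namespace Pool.Agent.Helper10.AL

open Polynomial Set Real MeasureTheory intervalIntegral
open Pool.Agent.Helper40.AS (arc Bdd Ext quad)

private theorem e6e_small (C : ℝ) (hC : 0 ≤ C) :
    ∃ n1 : ℕ, ∀ n : ℕ, n1 ≤ n → C * (1 + Real.log n) / n + 3.2 / n < 0.2 := by
  refine ⟨⌈(20 * (C + 4)) ^ 2⌉₊ + 1, fun n hn => ?_⟩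
  have h1 : (20 * (C + 4)) ^ 2 ≤ (n : ℝ) := by
    refine (Nat.le_ceil _).trans ?_
    exact_mod_cast (Nat.le_succ _).trans hn
  have hn0 : (0 : ℝ) < n := lt_of_lt_of_le (by positivity) h1
  have h2 : 20 * (C + 4) ≤ √(n : ℝ) := Real.le_sqrt_of_sq_le h1
  have hs0 : 0 < √(n : ℝ) := Real.sqrt_pos.2 hn0
  have hss : √(n : ℝ) * √(n : ℝ) = n := Real.mul_self_sqrt hn0.le
  have h3 : 1 + Real.log n ≤ 2 * √(n : ℝ) := by
    have h4 : Real.log (√(n : ℝ)) ≤ √(n : ℝ) - 1 := Real.log_le_sub_one_of_pos hs0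
    rw [Real.log_sqrt hn0.le] at h4
    linarith
  have h5 : C * (1 + Real.log n) / n ≤ 0.1 := by
    rw [div_le_iff₀ hn0]
    calc C * (1 + Real.log n) ≤ C * (2 * √(n : ℝ)) := by gcongr
      _ ≤ (1 / 10 * √(n : ℝ)) * √(n : ℝ) := by
        have : 2 * C ≤ 1 / 10 * √(n : ℝ) := by linarith
        nlinarith
      _ = 0.1 * n := by rw [mul_assoc, hss]; norm_num
  have h6 : 3.2 / (n : ℝ) < 0.1 := by
    rw [div_lt_iff₀ hn0]
    nlinarith
  linarith

theorem e6e (hA1 : A1) (hA2 : A2) (hCH : CH) (hCLf : CLf) (hE1 : E1) (hE2 : E2) (hE3L : E3L)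
    (hLS : LS) (hN1 : N1) (hVF1 : VF1) (hVF2 : VF2) : E6e := by
  obtain ⟨n4, hE1⟩ := hE1
  obtain ⟨n5, hE2⟩ := hE2
  obtain ⟨R0, hR0, n6, hE3⟩ := hE3L
  obtain ⟨R, hRR, hR4⟩ : ∃ R : ℝ, R0 ≤ R ∧ 4 ≤ R := ⟨max R0 4, le_max_left _ _, le_max_right _ _⟩
  obtain ⟨R', hR', n3, hCL⟩ := hCLf (1 / 10000) (R + 20) (by norm_num) (by linarith)
  obtain ⟨n7, hsm⟩ := e6e_small 120 (by norm_num)
  refine ⟨max R' (100 * (R + 9)), lt_of_lt_of_le hR' (le_max_left _ _),
    n3 + n4 + n5 + n6 + n7 + 4, ?_⟩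
  intro n hn a b P hW hE
  obtain ⟨ha, hab, hb, hW4⟩ := hW
  have hW : Wd n R' a b := ⟨ha, hab, hb, (le_max_left _ _).trans hW4⟩
  have hlong : 100 * (R + 9) ≤ n * (arccos a - arccos b) := (le_max_right _ _).trans hW4
  have hn3 : n ≥ n3 := by omega
  have hn4 : n4 ≤ n := by omega
  have hn5 : n5 ≤ n := by omega
  have hn6 : n ≥ n6 := by omega
  have hn7 : n7 ≤ n := by omega
  have hn9 : 4 ≤ n := by omega
  have hn1 : 1 ≤ n := by omega
  have hn0 : (0 : ℝ) < n := by exact_mod_cast hn1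
  have hTB : TB n (qq P) := hA2.2.1 n P (natDegree_le_of_degree_le hE.deg) hE.bdd
  have hlen : 100 * (R + 9) / n ≤ arccos a - arccos b := by
    rw [div_le_iff₀ hn0]
    linarith
  have hβ0 : 0 ≤ arccos b := arccos_nonneg b
  have hαπ : arccos a ≤ π := arccos_le_pi a
  have hpi := pi_pos
  -- fractions
  have hf : ∀ x : ℝ, x / n = x * (1 / n) := fun x => by ring
  have hinv : 0 < 1 / (n : ℝ) := by positivity
  obtain ⟨ν, hν⟩ : ∃ ν : ℝ, ν = 1 / (n : ℝ) := ⟨_, rfl⟩
  have hνn : (n : ℝ) * ν = 1 := by rw [hν]; field_simp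
  have hν0 : 0 < ν := by rw [hν]; exact hinv
  have hlen' : 100 * (R + 9) * ν ≤ arccos a - arccos b := by
    rw [hν, ← hf]; exact hlen
  have hRν : 0 ≤ R * ν := by positivity
  have hgap : ∀ u v : ℝ, arccos b ≤ u → v ≤ arccos a → v - u = 7 * ν →
      ∃ θ ∈ Ioo u v, deriv (qq P) θ = 0 := by
    intro u v hu hv huv
    by_contra hno
    push Not at hno
    have h1 := hE2 n a b u v P hn5 ha hab hb hE hu (by nlinarith) hv hno
    rw [huv] at h1
    nlinarith
  obtain ⟨v, hv, hv0⟩ := hgap (arccos a - (R + 9) * ν) (arccos a - (R + 2) * ν) (by nlinarith)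
    (by nlinarith) (by ring)
  obtain ⟨u, hu, hu0⟩ := hgap (arccos b + (R + 2) * ν) (arccos b + (R + 9) * ν) (by nlinarith)
    (by nlinarith) (by ring)
  have huv : u < v := by
    have := hv.1
    have := hu.2
    nlinarith
  have hcon : ∀ θ ∈ Icc u v, deriv (qq P) θ = 0 → |qq P θ| = 1 := by
    intro θ hθ h0
    refine hE3 n hn6 a b θ P ha hab hb hE ?_ ?_ h0
    · rw [hf, ← hν]
      have := hu.1
      have := hθ.1
      nlinarith
    · rw [hf, ← hν]
      have := hv.2
      have := hθ.2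
      nlinarith
  have hne : ∃ θ, deriv (qq P) θ ≠ 0 := by
    by_contra hno
    push Not at hno
    have h1 := hE1 n a b P hn4 ha hab hb hE
    have h2 := h1 ((arccos a + arccos b) / 2) (by
      rw [hf, ← hν]
      constructor <;> nlinarith) (by
      rw [hno, abs_zero]
      positivity)
    have h3 : deriv (deriv (qq P)) ((arccos a + arccos b) / 2) = 0 := by
      have : deriv (qq P) = fun _ => 0 := funext hno
      rw [this]
      simp
    rw [h3, abs_zero] at h2
    have : 0 < (n : ℝ) ^ 2 / 1000 := by positivity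
    linarith
  obtain ⟨N, t, hN, ht0, htN, hch⟩ := hCH n (qq P) u v hn1 hTB hne huv hu0 hv0 hcon
  -- numbers
  have hlog : 0 ≤ Real.log n := Real.log_nonneg (by exact_mod_cast hn1)
  have hx1 : n * (arccos a - v) ≤ R + 9 := by
    have h1 := hv.1
    have h2 : arccos a - v ≤ (R + 9) * ν := by linarith
    calc (n : ℝ) * (arccos a - v) ≤ n * ((R + 9) * ν) := by gcongr
      _ = (R + 9) * (n * ν) := by ring
      _ = R + 9 := by rw [hνn, mul_one]
  have hx2 : n * (u - arccos b) ≤ R + 9 := by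
    have h1 := hu.2
    have h2 : u - arccos b ≤ (R + 9) * ν := by linarith
    calc (n : ℝ) * (u - arccos b) ≤ n * ((R + 9) * ν) := by gcongr
      _ = (R + 9) * (n * ν) := by ring
      _ = R + 9 := by rw [hνn, mul_one]
  have hav : 0 ≤ arccos a - v := by have := hv.2; nlinarith
  have hub : 0 ≤ u - arccos b := by have := hu.1; nlinarith
  have hCL' := hCL n hn3 a b P N t hW hE hN (by rw [ht0]; linarith) (by rw [htN]; linarith) hch
    (by rw [ht0]; linarith) (by rw [htN]; linarith)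
  rw [ht0, htN] at hCL'
  have hsm' : 2 * er n + 3.2 / n < 0.2 := by
    have h1 := hsm n hn7
    have h2 : (120 : ℝ) * (1 + Real.log n) / n = 2 * er n := by
      unfold er
      ring
    rw [h2] at h1
    exact h1
  -- the slow point
  intro θ0 hθ0 hs1
  by_contra hs2
  push Not at hs2
  have hpi1 := pi_gt_d4
  have hpi2 := pi_lt_d4
  have hcosψ : -cos (π / 2 + 0.0011) = sin 0.0011 := by
    rw [add_comm, cos_add_pi_div_two, neg_neg]
  have hsinψ : sin (π / 2 + 0.0011) = cos 0.0011 := by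
    rw [add_comm, sin_add_pi_div_two]
  have hsin : (0.001 : ℝ) ≤ sin 0.0011 := by
    have := sin_gt_sub_cube (x := 0.0011) (by norm_num)
    norm_num at this ⊢
    linarith
  have hcos : (0.999 : ℝ) ≤ cos 0.0011 := by
    have := one_sub_sq_div_two_le_cos (x := 0.0011)
    norm_num at this ⊢
    linarith
  obtain ⟨hn1a, hn1b⟩ := hN1 0.0011 (π / 2 + 0.0011) (by norm_num) (by norm_num)
    (by linarith) le_rfl
  have hLdef : (∫ s in (0 : ℝ)..1.6, Gm 0.0011 (π / 2 + 0.0011) s) ≤ 2 / π * 1.6 - 0.633 := by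
    refine hn1a.trans ?_
    have h1 : 1.018 / 1.6 ≤ 2 / π := by
      rw [div_le_div_iff₀ (by norm_num) hpi]
      norm_num
      linarith
    norm_num at h1 ⊢
    linarith
  obtain ⟨hLS1, hLS2⟩ := hLS n (qq P) θ0 (π / 2 + 0.0011) 0.0011 1.6 0.633 hn9 hTB
    (by linarith) (by linarith) (by norm_num)
    (by
      rw [hcosψ]
      refine hs1.trans ?_
      rw [div_eq_mul_one_div]
      have : (1 : ℝ) / 1000 ≤ sin 0.0011 := by norm_num at hsin ⊢; linarith
      gcongr)
    (by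
      rw [hsinψ]
      refine hs2.le.trans ?_
      rw [div_eq_mul_one_div]
      have : (1 : ℝ) / 1000 ≤ 0.0011 * cos 0.0011 := by norm_num at hcos ⊢; linarith
      gcongr)
    (by norm_num) hLdef hn1b (by linarith [hVF1.2])
  have hcs := hVF1.2
  by_cases hc1 : θ0 ≤ arccos a - 1.6 / n
  · by_cases hc2 : arccos b + 1.6 / n ≤ θ0
    · have := hE1 n a b P hn4 ha hab hb hE θ0 ⟨hc2, hc1⟩ hs1
      linarith
    · -- near the left end
      push Not at hc2
      rw [hf, ← hν] at hc2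
      have h1 := hLS2 u (arccos b) hu0 (by
        rw [hf, ← hν]
        have := hu.1
        nlinarith) hθ0.1 (by
        have := hv.2
        nlinarith)
      have h2 := hCL'.2.1
      have h3 := (hVF2 (n * (u - arccos b)) (by positivity)).2
      have h4 : 2 * 1.6 / (n : ℝ) = 3.2 / n := by norm_num
      rw [h4] at h1
      norm_num at h1 hsm' ⊢
      norm_num at hcs
      linarith
  · -- near the right end
    push Not at hc1
    rw [hf, ← hν] at hc1
    have h1 := hLS1 v (arccos a) hv0 (by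
      rw [hf, ← hν]
      have := hv.2
      nlinarith) hθ0.2 (by
      have := hu.1
      nlinarith)
    have h2 := hCL'.1
    have h3 := (hVF2 (n * (arccos a - v)) (by positivity)).2
    have h4 : 2 * 1.6 / (n : ℝ) = 3.2 / n := by norm_num
    rw [h4] at h1
    norm_num at h1 hsm' ⊢
    norm_num at hcs
    linarith

end Pool.Agent.Helper10.AL
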