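import Pool.Agent.Helper10.AL.St2

/-!
All real critical points in the window are contact points.
-/

set_option autoImplicit false

namespace Pool.Agent.Helper10.AL

open Polynomial Set Real MeasureTheory intervalIntegral
open Pool.Agent.Helper40.AS (arc Bdd Ext ext_refl)

theorem e8_right (hA1 : A1) (hA2 : A2) (hA4 : A4) {δ R : ℝ} {n : ℕ}
    (hE3 : ∀ (a b θ : ℝ) (P : ℝ[X]), Mid δ a b → Ext n a b P → arccos b + R / n ≤ θ →
      θ ≤ arccos a - R / n → deriv (qq P) θ = 0 → |qq P θ| = 1)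
    (hE8a : ∀ (a b θc : ℝ) (P : ℝ[X]), Mid δ a b → Ext n a b P → arccos a - R / n < θc →
      θc < arccos a → deriv (qq P) θc = 0 →
      (∀ θ, arccos b + R / n ≤ θ → θ < θc → deriv (qq P) θ = 0 → |qq P θ| = 1) →
      |qq P θc| = 1) (a b : ℝ) (P : ℝ[X]) (hR : 0 ≤ R) (hM : Mid δ a b) (hP : Ext n a b P)
    (hnc : ∃ θ, deriv (qq P) θ ≠ 0) :
    ∀ θ, arccos b + R / n ≤ θ → θ < arccos a → deriv (qq P) θ = 0 → |qq P θ| = 1 := by
  by_contra hcon
  push Not at hcon
  obtain ⟨θ1, h1, h2, h3, h4⟩ := hcon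
  have hTB : TB n (qq P) := hA2.2.1 n P (natDegree_le_iff_degree_le.2 hP.deg) hP.bdd
  have hTP : TP n (deriv (qq P)) := (hA1.1 n (qq P) hTB.1).2.1
  have hfin := (hA4 n (deriv (qq P)) 0 hTP hnc).1
  have hRn : 0 ≤ R / n := by positivity
  have hfin2 : {θ | arccos b + R / n ≤ θ ∧ θ < arccos a ∧ deriv (qq P) θ = 0 ∧
      |qq P θ| ≠ 1}.Finite := by
    refine hfin.subset ?_
    rintro θ ⟨g1, g2, g3, -⟩
    have g4 := arccos_nonneg b
    have g5 := arccos_le_pi a
    have g6 := pi_pos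
    refine ⟨⟨by linarith, by linarith⟩, g3⟩
  obtain ⟨θc, ⟨k1, k2, k3, k4⟩, hmin⟩ := Set.exists_min_image _ id hfin2 ⟨θ1, h1, h2, h3, h4⟩
  refine k4 (hE8a a b θc P hM hP ?_ k2 k3 ?_)
  · by_contra hle
    exact k4 (hE3 a b θc P hM hP k1 (not_lt.1 hle) k3)
  · intro θ m1 m2 m3
    by_contra m4
    have := hmin θ ⟨m1, m2.trans k2, m3, m4⟩
    simp only [id] at this
    linarith

theorem e8_qq (P : ℝ[X]) (θ : ℝ) : qq (P.comp (-X)) θ = qq P (π - θ) := by
  unfold qq
  rw [eval_comp, eval_neg, eval_X, cos_pi_sub]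

theorem e8_dqq (P : ℝ[X]) (θ : ℝ) : deriv (qq (P.comp (-X))) θ = -deriv (qq P) (π - θ) := by
  have h1 : qq (P.comp (-X)) = fun x => qq P (π - x) := funext (e8_qq P)
  rw [h1, deriv_comp_const_sub]

theorem e8_gap {δ a b : ℝ} (hδ : 0 < δ) (hM : Mid δ a b) : δ ≤ arccos a - arccos b := by
  obtain ⟨h1, h2, h3⟩ := hM
  have e1 : cos (arccos a) = a := cos_arccos (by linarith) (by linarith)
  have e2 : cos (arccos b) = b := cos_arccos (by linarith) (by linarith)
  have h4 : |cos (arccos b) - cos (arccos a)| ≤ |arccos b - arccos a| :=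
    Real.abs_cos_sub_cos_le _ _
  have h5 : arccos b ≤ arccos a := arccos_le_arccos (by linarith)
  rw [e1, e2, abs_of_nonneg (by linarith), abs_of_nonpos (by linarith)] at h4
  linarith

theorem e8 (hA1 : A1) (hA2 : A2) (hA4 : A4) (hE3 : E3) (hE8a : E8a) : E8 := by
  intro δ hδ hδ4
  obtain ⟨R, hR, n1, hn1⟩ := hE3 δ hδ hδ4
  obtain ⟨n2, hn2⟩ := hE8a δ R hδ hδ4 hR
  obtain ⟨n3, hn3⟩ := exists_nat_gt (2 * R / δ)
  refine ⟨max (max n1 n2) (max n3 1), fun n hn a b θ P hM hP hθ hd => ?_⟩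
  have hna : n1 ≤ n := (le_max_left _ _).trans ((le_max_left _ _).trans hn)
  have hnb : n2 ≤ n := (le_max_right _ _).trans ((le_max_left _ _).trans hn)
  have hnc : n3 ≤ n := (le_max_left _ _).trans ((le_max_right _ _).trans hn)
  have hnd : 1 ≤ n := (le_max_right _ _).trans ((le_max_right _ _).trans hn)
  have hnpos : (0 : ℝ) < n := by exact_mod_cast hnd
  have hgap := e8_gap hδ hM
  have h2R : 2 * (R / n) < δ := by
    have h1 : 2 * R / δ < n := hn3.trans_le (by exact_mod_cast hnc)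
    rw [div_lt_iff₀ hδ] at h1
    have h2 : 2 * (R / n) = 2 * R / n := by ring
    rw [h2, div_lt_iff₀ hnpos]
    linarith
  have E3' := fun a b θ P => hn1 n hna a b θ P
  have E8' := fun a b θ P => hn2 n hnb a b θ P
  by_cases hconst : ∀ x, deriv (qq P) x = 0
  · have h1 : |qq P ((arccos a + arccos b) / 2)| = 1 :=
      E3' a b _ P hM hP (by linarith) (by linarith) (hconst _)
    have hdiff : Differentiable ℝ (qq P) := by
      unfold qq
      exact P.differentiable.comp differentiable_cos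
    rw [is_const_of_deriv_eq_zero hdiff hconst θ ((arccos a + arccos b) / 2)]
    exact h1
  push Not at hconst
  by_contra hne
  have c1 : θ < arccos b + R / n := by
    by_contra hle
    exact hne (e8_right hA1 hA2 hA4 E3' E8' a b P hR.le hM hP hconst θ (not_lt.1 hle) hθ.2 hd)
  have hM' : Mid δ (-b) (-a) := ⟨by linarith [hM.2.2], by linarith [hM.2.1], by linarith [hM.1]⟩
  have c2 : π - θ < arccos (-a) + R / n := by
    by_contra hle
    have hx : deriv (qq (P.comp (-X))) (π - θ) = 0 := by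
      rw [e8_dqq, sub_sub_cancel, hd, neg_zero]
    have hy := e8_right hA1 hA2 hA4 E3' E8' (-b) (-a) (P.comp (-X)) hR.le hM' (ext_refl hP)
      (by
        obtain ⟨x, hx⟩ := hconst
        refine ⟨π - x, ?_⟩
        rw [e8_dqq, sub_sub_cancel]
        exact neg_ne_zero.2 hx) (π - θ) (not_lt.1 hle)
      (by
        rw [arccos_neg]
        linarith [hθ.1]) hx
    rw [e8_qq, sub_sub_cancel] at hy
    exact hne hy
  rw [arccos_neg] at c2
  linarith

end Pool.Agent.Helper10.AL
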