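import Pool.Agent.Helper10.AL.St2

/-!
Arc length of polynomials over compact windows, large degree: the first exceptional critical
point near the end of the window.
-/

set_option autoImplicit false

namespace Pool.Agent.Helper10.AL

open Polynomial Set Real MeasureTheory intervalIntegral
open Pool.Agent.Helper40.AS (arc Bdd Ext quad)

/-- logarithms are small -/
theorem e8a_log (C ε : ℝ) (hε : 0 < ε) :
    ∃ n0 : ℕ, ∀ n : ℕ, n0 ≤ n → C * (1 + Real.log n) ≤ ε * (n : ℝ) := by
  set D : ℝ := |C| + 1 with hD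
  have hD0 : 0 < D := by positivity
  have h1 := (Real.isLittleO_log_id_atTop.def (c := ε / (2 * D)) (by positivity))
  rw [Filter.eventually_atTop] at h1
  obtain ⟨x0, hx0⟩ := h1
  obtain ⟨n1, hn1⟩ := exists_nat_ge x0
  obtain ⟨n2, hn2⟩ := exists_nat_ge (2 * D / ε)
  refine ⟨max (max n1 n2) 1, fun n hn => ?_⟩
  have a1 : n1 ≤ n := le_trans (le_trans (le_max_left _ _) (le_max_left _ _)) hn
  have a2 : n2 ≤ n := le_trans (le_trans (le_max_right _ _) (le_max_left _ _)) hn
  have a3 : 1 ≤ n := le_trans (le_max_right _ _) hn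
  have b1 : (n1 : ℝ) ≤ n := by exact_mod_cast a1
  have b2 : (n2 : ℝ) ≤ n := by exact_mod_cast a2
  have b3 : (1 : ℝ) ≤ n := by exact_mod_cast a3
  have h2 := hx0 n (le_trans hn1 b1)
  simp only [id, Real.norm_eq_abs] at h2
  rw [abs_of_nonneg (Real.log_nonneg b3), abs_of_nonneg (by linarith : (0 : ℝ) ≤ n)] at h2
  have h3 : 2 * D ≤ ε * n := by
    have := le_trans hn2 b2
    rw [div_le_iff₀ hε] at this
    linarith
  have h4 : D * Real.log n ≤ ε / 2 * n := by
    calc D * Real.log n ≤ D * (ε / (2 * D) * n) := mul_le_mul_of_nonneg_left h2 hD0.le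
      _ = ε / 2 * n := by field_simp
  have h5 : C ≤ D := by
    rw [hD]
    linarith [le_abs_self C]
  have h6 : 0 ≤ 1 + Real.log n := by linarith [Real.log_nonneg b3]
  calc C * (1 + Real.log n) ≤ D * (1 + Real.log n) := mul_le_mul_of_nonneg_right h5 h6
    _ ≤ ε * n := by nlinarith

/-- elementary facts on the right end point -/
theorem e8a_cos {δ a b θ : ℝ} (hδ : 0 < δ) (hM : Mid δ a b) (h2 : θ < arccos a) :
    δ ≤ sin (arccos a) ∧ ∃ s : ℝ, sin (arccos a) - (arccos a - θ) ≤ s ∧ s ≤ 1 ∧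
      cos θ - a = (arccos a - θ) * s := by
  obtain ⟨ha, hab, hb⟩ := hM
  have hc : cos (arccos a) = a := cos_arccos (by linarith) (by linarith)
  refine ⟨?_, ?_⟩
  · rw [sin_arccos]
    apply Real.le_sqrt_of_sq_le
    nlinarith
  · obtain ⟨ξ, hξ, hξ2⟩ := exists_hasDerivAt_eq_slope cos (fun x => -sin x) h2
      continuous_cos.continuousOn (fun x _ => hasDerivAt_cos x)
    have hpos : 0 < arccos a - θ := by linarith
    rw [eq_div_iff hpos.ne', hc] at hξ2
    refine ⟨sin ξ, ?_, sin_le_one ξ, by linarith⟩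
    have h3 := abs_sin_sub_sin_le (arccos a) ξ
    rw [abs_of_pos (by linarith [hξ.2] : (0 : ℝ) < arccos a - ξ)] at h3
    have h4 := le_abs_self (sin (arccos a) - sin ξ)
    linarith [hξ.1]

/-- the second derivative at an exceptional critical point near the right end -/
theorem e8a_kappa (hA2 : A2) (hA11 : A11) (hE6 : E6) (hK3 : K3) (hN3 : N3) :
    ∀ δ R : ℝ, 0 < δ → δ ≤ 1 / 4 → 0 < R → ∃ n0 : ℕ, ∀ n ≥ n0,
    ∀ (a b θc : ℝ) (P : ℝ[X]), Mid δ a b → Ext n a b P → arccos a - R / n < θc →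
    θc < arccos a → deriv (qq P) θc = 0 → |qq P θc| ≠ 1 →
    |deriv (deriv (qq P)) θc| ≤ 0.265 * (n : ℝ) ^ 2 ∧ deriv (deriv (qq P)) θc ≠ 0 := by
  intro δ R hδ hδ4 hR
  obtain ⟨K, hK, n1, h1⟩ := hK3 δ hδ hδ4
  obtain ⟨n3, h3⟩ := hE6 δ hδ hδ4
  obtain ⟨n5, h5⟩ := e8a_log (200 * (K + 4 * R / δ + 2 / δ)) 1 one_pos
  obtain ⟨n7, h7⟩ := exists_nat_ge (2 * R / δ + 2)
  refine ⟨max (max n1 n3) (max n5 (max n7 2)), ?_⟩
  intro n hn a b θc P hM hE hθ1 hθ2 hd hne
  have k1 : n1 ≤ n := by omega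
  have k3 : n3 ≤ n := by omega
  have k5 : n5 ≤ n := by omega
  have k7 : n7 ≤ n := by omega
  have k2 : 2 ≤ n := by omega
  have hn2 : (2 : ℝ) ≤ n := by exact_mod_cast k2
  have hn7 : 2 * R / δ + 2 ≤ n := le_trans h7 (by exact_mod_cast k7)
  have hn0 : (0 : ℝ) < n := by linarith
  have hlog : 0 ≤ Real.log n := Real.log_nonneg (by linarith)
  have hnR : 2 * R / n ≤ δ := by
    rw [div_le_iff₀ hn0]
    have := hn7
    have h8 : 2 * R / δ ≤ n := by linarith
    rw [div_le_iff₀ hδ] at h8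
    linarith
  have hMM := hM
  obtain ⟨ha, hab, hb⟩ := hMM
  set α := arccos a with hα
  set β := arccos b with hβ
  have hca : cos α = a := cos_arccos (by linarith) (by linarith)
  have hcb : cos β = b := cos_arccos (by linarith) (by linarith)
  have hRn : R / n ≤ δ / 2 := by
    have : R / n = (2 * R / n) / 2 := by ring
    rw [this]
    linarith
  have hβα : δ ≤ α - β := by
    have h9 := abs_cos_sub_cos_le β α
    rw [hca, hcb, abs_sub_comm β α] at h9
    have h10 := le_abs_self (b - a)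
    have h11 : β ≤ α := by
      rw [hα, hβ]
      exact Real.arccos_le_arccos (by linarith)
    rw [abs_of_nonneg (by linarith : 0 ≤ α - β)] at h9
    linarith
  have hβθ : β < θc := by linarith
  obtain ⟨hsin, s, hs1, hs2, hs3⟩ := e8a_cos hδ hM hθ2
  rw [← hα] at hsin hs1 hs3
  have hND := h3 n k3 a b P hM hE
  have hnat : P.natDegree ≤ n := natDegree_le_iff_degree_le.2 hE.deg
  have hTB : TB n (qq P) := hA2.2.1 n P hnat hE.bdd
  have hB := (hA2.1 n (qq P) (by omega) hTB).2
  set κ : ℝ := |deriv (deriv (qq P)) θc| / (n : ℝ) ^ 2 with hκ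
  have hκn : |deriv (deriv (qq P)) θc| = (n : ℝ) ^ 2 * κ := by
    rw [hκ]
    field_simp
  have hκ0 : 0 ≤ κ := by positivity
  have hκ1 : κ ≤ 1 := by
    rw [hκ, div_le_one (by positivity)]
    exact (hB θc).2.2.2.1
  have hθI : θc ∈ Icc β α := ⟨hβθ.le, hθ2.le⟩
  have hsec := hND θc hθI (by rw [hd, abs_zero]; positivity)
  refine ⟨?_, ?_⟩
  swap
  · intro h0
    rw [h0, abs_zero] at hsec
    have : 0 < (n : ℝ) ^ 2 / 1000 := by positivity
    linarith
  by_contra hcon
  push Not at hcon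
  have hκ2 : 0.265 ≤ κ := by
    rw [hκ, le_div_iff₀ (by positivity)]
    exact hcon.le
  -- the first order condition
  have hND0 : ND n (qq P) (β + 0 / n) (α - 0 / n) := by
    rw [zero_div, add_zero, sub_zero]
    exact hND
  have hk := h1 n k1 a b θc 0 P hM hE ⟨hβθ, hθ2⟩ hd hne le_rfl (by norm_num) hND0
  rw [← hα, ← hβ] at hk
  simp only [mul_zero, zero_mul, add_zero] at hk
  -- the derivative at the right end
  have hh : 0 < α - θc := by linarith
  have hhR : α - θc ≤ R / n := by linarith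
  have hτ : 0 < n * (α - θc) := by positivity
  have hder : |deriv (qq P) α| ≤ n * Gm κ (π / 2) (n * (α - θc)) := by
    have h8 := (hA11 n (qq P) θc (π / 2) κ (n * (α - θc)) k2 hTB le_rfl (by linarith [pi_pos])
      hκ0 (by rw [hd, abs_zero, cos_pi_div_two, neg_zero, mul_zero])
      (by rw [sin_pi_div_two, mul_one, hκn]) hτ.le).1
    have h9 : θc + n * (α - θc) / n = α := by
      field_simp
      ring
    rwa [h9] at h8
  have hG := hN3 κ (n * (α - θc)) hκ2 hκ1 hτ
  have hder2 : |deriv (qq P) α| ≤ n * ((2 * κ - 0.01) * (n * (α - θc))) :=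
    hder.trans (mul_le_mul_of_nonneg_left hG hn0.le)
  have hs0 : 0 < s := by linarith
  have hε : sin α ≤ (1 + 2 * R / (n * δ)) * s := by
    have e1 : 2 * R / (n * δ) ≤ 1 := by
      rw [div_le_one (by positivity)]
      rw [div_le_iff₀ hn0] at hnR
      linarith
    have e2 : 2 * (R / n) ≤ 2 * R / (n * δ) * sin α := by
      have : 2 * R / (n * δ) * sin α = 2 * (R / n) * (sin α / δ) := by
        field_simp
      rw [this]
      have e3 : 1 ≤ sin α / δ := by
        rw [le_div_iff₀ hδ]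
        linarith
      have e4 : 0 ≤ 2 * (R / n) := by positivity
      nlinarith
    have e5 : 0 ≤ 2 * R / (n * δ) := by positivity
    have e6 : sin α - R / n ≤ s := by linarith
    have e7 : 0 ≤ R / n := by positivity
    nlinarith
  have hD0 : 0 < cos θc - a := by
    rw [hs3]
    positivity
  have hterm1 : sin α * |deriv (qq P) α| / (cos θc - a) ≤
      (n : ℝ) ^ 2 * (2 * κ - 0.01) * (1 + 2 * R / (n * δ)) := by
    rw [div_le_iff₀ hD0, hs3]
    have e1 : sin α * |deriv (qq P) α| ≤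
        sin α * (n * ((2 * κ - 0.01) * (n * (α - θc)))) :=
      mul_le_mul_of_nonneg_left hder2 (by linarith)
    have e2 : 0 ≤ n * ((2 * κ - 0.01) * (n * (α - θc))) := by
      have : 0 ≤ 2 * κ - 0.01 := by linarith
      positivity
    have e3 := mul_le_mul_of_nonneg_right hε e2
    calc _ ≤ _ := e1
      _ ≤ _ := e3
      _ = _ := by ring
  have hterm2 : sin β * |deriv (qq P) β| / (b - cos θc) ≤ 2 * n / δ := by
    have e1 : δ / 2 ≤ b - cos θc := by
      have : (α - θc) * s ≤ δ / 2 := by nlinarith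
      linarith
    have e2 : sin β * |deriv (qq P) β| ≤ n := by
      have := (hB β).2.2.1
      have e3 := sin_le_one β
      have e4 := abs_nonneg (deriv (qq P) β)
      nlinarith
    rw [div_le_iff₀ (by linarith)]
    have e5 : (n : ℝ) = 2 * n / δ * (δ / 2) := by field_simp
    calc _ ≤ (n : ℝ) := e2
      _ = 2 * n / δ * (δ / 2) := e5
      _ ≤ _ := mul_le_mul_of_nonneg_left e1 (by positivity)
  rw [hκn] at hk
  have hfin := h5 n k5
  have e8 : (n : ℝ) ^ 2 * (2 * κ - 0.01) * (1 + 2 * R / (n * δ)) ≤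
      (n : ℝ) ^ 2 * (2 * κ - 0.01) + 4 * R / δ * n := by
    have e9 : (n : ℝ) ^ 2 * (2 * κ - 0.01) * (1 + 2 * R / (n * δ)) =
        (n : ℝ) ^ 2 * (2 * κ - 0.01) + (2 * κ - 0.01) * (2 * R / δ * n) := by
      field_simp
    rw [e9]
    have e10 : 0 ≤ 2 * R / δ * n := by positivity
    have e11 : 4 * R / δ * n = 2 * (2 * R / δ * n) := by ring
    rw [e11]
    have := mul_le_mul_of_nonneg_right (by linarith : 2 * κ - 0.01 ≤ 2) e10
    linarith
  have e12 : 0.01 * (n : ℝ) ^ 2 ≤ n * ((K + 4 * R / δ + 2 / δ) * (1 + Real.log n)) := by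
    have e13 : 4 * R / δ * n ≤ n * (4 * R / δ * (1 + Real.log n)) := by
      have : 0 ≤ 4 * R / δ * n := by positivity
      nlinarith
    have e14 : 2 * n / δ ≤ n * (2 / δ * (1 + Real.log n)) := by
      have : 0 ≤ 2 * n / δ := by positivity
      have h9 : n * (2 / δ * (1 + Real.log n)) = 2 * n / δ * (1 + Real.log n) := by ring
      rw [h9]
      nlinarith
    nlinarith
  have e15 : n * ((K + 4 * R / δ + 2 / δ) * (1 + Real.log n)) ≤ n * (n / 200) :=
    mul_le_mul_of_nonneg_left (by linarith) hn0.le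
  nlinarith [mul_pos hn0 hn0]

/-- critical points in intervals -/
theorem e8a_crit {n : ℕ} {a b u v : ℝ} {P : ℝ[X]} (hn : 0 < n)
    (h : ∀ u v : ℝ, arccos b ≤ u → u ≤ v → v ≤ arccos a →
      (∀ θ ∈ Ioo u v, deriv (qq P) θ ≠ 0) → n * (v - u) ≤ 6)
    (h1 : arccos b ≤ u) (h2 : v ≤ arccos a) (h3 : v = u + 7 / n) :
    ∃ θ ∈ Ioo u v, deriv (qq P) θ = 0 := by
  by_contra hcon
  push Not at hcon
  have hn0 : (0 : ℝ) < n := by exact_mod_cast hn
  have h7 : (0 : ℝ) < 7 / n := by positivity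
  have h4 := h u v h1 (by linarith) h2 hcon
  rw [h3, add_sub_cancel_left, mul_div_cancel₀ _ hn0.ne'] at h4
  norm_num at h4

theorem e8a (hA1 : A1) (hA2 : A2) (hA11 : A11) (hCH : CH) (hCL : CL) (hE2 : E2) (hE6 : E6)
    (hK3 : K3) (hLS : LS) (hN0 : N0) (hN2 : N2) (hN3 : N3) (hVF1 : VF1) (hVF2 : VF2) :
    E8a := by
  intro δ R hδ hδ4 hR
  obtain ⟨n1, h1⟩ := e8a_kappa hA2 hA11 hE6 hK3 hN3 δ R hδ hδ4 hR
  obtain ⟨K, hK, n2, h2⟩ := hCL δ hδ hδ4
  obtain ⟨n4, h4⟩ := hE2
  obtain ⟨n6, h6⟩ := e8a_log (K * (2 * R + 17.5) + 130) 0.007 (by norm_num)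
  obtain ⟨n7, h7⟩ := exists_nat_ge ((2 * R + 20) / δ)
  refine ⟨max (max n1 n2) (max n4 (max n6 (max n7 4))), ?_⟩
  intro n hn a b θc P hM hE hθ1 hθ2 hd hcont
  have k1 : n1 ≤ n := by omega
  have k2 : n2 ≤ n := by omega
  have k4 : n4 ≤ n := by omega
  have k6 : n6 ≤ n := by omega
  have k7 : n7 ≤ n := by omega
  have k44 : 4 ≤ n := by omega
  have hn2 : (4 : ℝ) ≤ n := by exact_mod_cast k44
  have hn7 : (2 * R + 20) / δ ≤ n := le_trans h7 (by exact_mod_cast k7)
  have hn0 : (0 : ℝ) < n := by linarith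
  have hlog : 0 ≤ Real.log n := Real.log_nonneg (by linarith)
  by_contra hne
  obtain ⟨hκ, hκ0⟩ := h1 n k1 a b θc P hM hE hθ1 hθ2 hd hne
  have hMM := hM
  obtain ⟨ha, hab, hb⟩ := hMM
  have hα1 : (2 * R + 20) / n ≤ arccos a - arccos b := by
    have h9 := abs_cos_sub_cos_le (arccos b) (arccos a)
    rw [cos_arccos (by linarith) (by linarith), cos_arccos (by linarith) (by linarith),
      abs_sub_comm (arccos b) (arccos a)] at h9
    have h10 := le_abs_self (b - a)
    have h11 : arccos b ≤ arccos a := Real.arccos_le_arccos (by linarith)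
    rw [abs_of_nonneg (by linarith : 0 ≤ arccos a - arccos b)] at h9
    rw [div_le_iff₀ hδ] at hn7
    rw [div_le_iff₀ hn0]
    nlinarith
  have hαπ : arccos a ≤ π := arccos_le_pi a
  have hβ0 : 0 ≤ arccos b := arccos_nonneg b
  set α := arccos a with hα
  set β := arccos b with hβ
  have hsplit : (2 * R + 20) / n = 2 * (R / n) + 20 / n := by ring
  rw [hsplit] at hα1
  have hRn : 0 < R / n := by positivity
  have h1n : (0 : ℝ) < 1 / n := by positivity
  have e7 : (7 : ℝ) / n = 7 * (1 / n) := by ring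
  have e20 : (20 : ℝ) / n = 20 * (1 / n) := by ring
  have e126 : (1.26 : ℝ) / n = 1.26 * (1 / n) := by ring
  have hnat : P.natDegree ≤ n := natDegree_le_iff_degree_le.2 hE.deg
  have hTB : TB n (qq P) := hA2.2.1 n P hnat hE.bdd
  have hEE : ∀ u v : ℝ, arccos b ≤ u → u ≤ v → v ≤ arccos a →
      (∀ θ ∈ Ioo u v, deriv (qq P) θ ≠ 0) → n * (v - u) ≤ 6 :=
    fun u v => h4 n a b u v P k4 (by linarith) (by linarith) (by linarith) hE
  -- critical points
  obtain ⟨u, hu, hu0⟩ := e8a_crit (n := n) (P := P) (by omega) hEE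
    (u := β + R / n) (v := β + R / n + 7 / n) (by linarith)
    (by rw [← hα]; linarith) rfl
  obtain ⟨v, hv, hv0⟩ := e8a_crit (n := n) (P := P) (by omega) hEE
    (u := θc - 1.26 / n - 7 / n) (v := θc - 1.26 / n) (by rw [← hβ]; linarith)
    (by rw [← hα]; linarith) (by ring)
  have huv : u < v := by linarith [hu.2, hv.1]
  have hne' : ∃ θ, deriv (qq P) θ ≠ 0 := by
    by_contra hcon
    push Not at hcon
    apply hκ0
    have : deriv (qq P) = fun _ => 0 := funext hcon
    rw [this]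
    simp
  have hcon' : ∀ θ ∈ Icc u v, deriv (qq P) θ = 0 → |qq P θ| = 1 := by
    intro θ hθ hθ0
    exact hcont θ (by linarith [hu.1, hθ.1]) (by linarith [hv.2, hθ.2]) hθ0
  obtain ⟨N, t, hN, ht0, htN, hch⟩ := hCH n (qq P) u v (by omega) hTB hne' huv hu0 hv0 hcon'
  have hlow := (h2 n k2 a b P N t hM hE hN (by rw [ht0]; linarith [hu.1])
    (by rw [htN]; linarith [hv.2]) hch).1
  rw [htN, ht0] at hlow
  rw [← hα, ← hβ] at hlow
  -- loss of arc length
  have hcs := hVF1.2
  have hpi1 := Real.pi_gt_d2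
  have hpi2 := Real.pi_lt_d2
  have hL : cs ≤ 2 / π * 1.26 - 0.3711 := by
    have : 0.8 ≤ 2 / π * 1.26 := by
      rw [div_mul_eq_mul_div, le_div_iff₀ pi_pos]
      linarith
    linarith
  have hls := (hLS n (qq P) θc (π / 2) 0.265 1.26 (2 / π * 1.26 - 0.3711) k44 hTB le_rfl
    (by linarith [pi_pos]) (by norm_num)
    (by rw [hd, abs_zero, cos_pi_div_two, neg_zero, mul_zero])
    (by rw [sin_pi_div_two, mul_one]; linarith) (by norm_num) (by linarith [hN2.1]) hN2.2 hL).1
    v α hv0 (by linarith [hv.2]) hθ2.le (by linarith [hv.1, pi_pos])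
  have hnv : 0 ≤ n * (α - v) := by
    have : 0 ≤ α - v := by linarith [hv.2]
    positivity
  have hvf := (hVF2 (n * (α - v)) hnv).2
  have hb1 : n * (α - v) ≤ R + 8.26 + 1 := by
    have : α - v ≤ R / n + 8.26 * (1 / n) := by linarith [hv.1]
    calc n * (α - v) ≤ n * (R / n + 8.26 * (1 / n)) := mul_le_mul_of_nonneg_left this hn0.le
      _ = R + 8.26 := by field_simp
      _ ≤ _ := by linarith
  have hb2 : n * (u - β) ≤ R + 7 := by
    have : u - β ≤ R / n + 7 * (1 / n) := by linarith [hu.2]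
    calc n * (u - β) ≤ n * (R / n + 7 * (1 / n)) := mul_le_mul_of_nonneg_left this hn0.le
      _ = R + 7 := by field_simp
  have hb3 : K * (1 + n * (α - v) + n * (u - β)) * (1 + Real.log n) / n ≤
      K * (2 * R + 17.5) * (1 + Real.log n) / n := by
    apply div_le_div_of_nonneg_right _ hn0.le
    apply mul_le_mul_of_nonneg_right _ (by linarith)
    apply mul_le_mul_of_nonneg_left _ hK.le
    linarith
  have hLc : 0.0077 < 2 / π * 1.26 - 0.3711 - cs := by
    have : 0.8 ≤ 2 / π * 1.26 := by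
      rw [div_mul_eq_mul_div, le_div_iff₀ pi_pos]
      linarith
    linarith
  have hfin := h6 n k6
  have hfin2 : (K * (2 * R + 17.5) + 130) * (1 + Real.log n) / n ≤ 0.007 := by
    rw [div_le_iff₀ hn0]
    exact hfin
  have her : er n = 60 * (1 + Real.log n) / n := rfl
  have hq1 : 2 * 1.26 / (n : ℝ) ≤ 10 * (1 + Real.log n) / n := by
    apply div_le_div_of_nonneg_right _ hn0.le
    nlinarith
  have hq2 : (K * (2 * R + 17.5) + 130) * (1 + Real.log n) / n =
      K * (2 * R + 17.5) * (1 + Real.log n) / n + 10 * (1 + Real.log n) / n +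
        2 * (60 * (1 + Real.log n) / n) := by ring
  rw [her] at hls
  linarith

end Pool.Agent.Helper10.AL
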