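import Pool.Agent.Helper10.AL.St3

/-!
Arc length of polynomials over windows `[a, 1]`, large degree: piece O8.
-/

set_option autoImplicit false

namespace Pool.Agent.Helper10.AL

open Polynomial Set Real MeasureTheory intervalIntegral
open Pool.Agent.Helper40.AS (arc Bdd Ext)

/-- logarithm against the square root -/
theorem o8_log (x : ℝ) (hx : 0 < x) : 1 + Real.log x ≤ 2 * √x := by
  have h1 : Real.log (√x) ≤ √x - 1 := Real.log_le_sub_one_of_pos (Real.sqrt_pos.mpr hx)
  have h2 : Real.log (√x) = Real.log x / 2 := Real.log_sqrt hx.le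
  rw [h2] at h1
  have h3 : 0 ≤ √x := Real.sqrt_nonneg x
  linarith

theorem o8_small (ε : ℝ) (hε : 0 < ε) : ∃ N : ℕ, ∀ n ≥ N, 1 ≤ n → 1 + Real.log n ≤ ε * n := by
  refine ⟨⌈(2 / ε) ^ 2⌉₊, fun n hn hn1 => ?_⟩
  have hnR : (1 : ℝ) ≤ n := by exact_mod_cast hn1
  have h1 : (2 / ε) ^ 2 ≤ n := (Nat.le_ceil _).trans (by exact_mod_cast hn)
  have h2 : 2 / ε ≤ √n := Real.le_sqrt_of_sq_le h1
  have h3 : 2 ≤ √n * ε := by rwa [div_le_iff₀ hε] at h2
  have h4 := o8_log n (by linarith)
  have h5 : √n * √n = n := Real.mul_self_sqrt (by linarith)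
  have h6 : 0 ≤ √(n : ℝ) := Real.sqrt_nonneg _
  nlinarith

/-- the cotangent -/
theorem o8_cot (x : ℝ) (h0 : 0 < x) (hπ : x < π) : x * cos x ≤ sin x := by
  rcases le_or_gt (cos x) 0 with h | h
  · have h1 : 0 < sin x := sin_pos_of_pos_of_lt_pi h0 hπ
    nlinarith
  · have h2 : x < π / 2 := by
      by_contra hc
      push Not at hc
      have := cos_nonpos_of_pi_div_two_le_of_le hc (by linarith)
      linarith
    have h3 : x ≤ tan x := le_tan h0.le h2
    rw [tan_eq_sin_div_cos, le_div_iff₀ h] at h3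
    exact h3

/-- the weight in the first order condition -/
theorem o8_ratio (θ α : ℝ) (h0 : 0 < θ) (h1 : θ < α) (hπ : α ≤ π) :
    sin α ≤ (1 / (α - θ) + 1 / (α + θ)) * (cos θ - cos α) := by
  set x := (α + θ) / 2 with hx
  set y := (α - θ) / 2 with hy
  have hα : α = x + y := by rw [hx, hy]; ring
  have hθ : θ = x - y := by rw [hx, hy]; ring
  have hx0 : 0 < x := by rw [hx]; linarith
  have hy0 : 0 < y := by rw [hy]; linarith
  have hxπ : x < π := by rw [hx]; linarith
  have hyπ : y < π := by rw [hy]; linarith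
  have e1 : α - θ = 2 * y := by rw [hy]; ring
  have e2 : α + θ = 2 * x := by rw [hx]; ring
  rw [e1, e2]
  have e3 : cos θ - cos α = 2 * (sin x * sin y) := by
    rw [hα, hθ, cos_sub, cos_add]; ring
  have e4 : sin α = sin x * cos y + cos x * sin y := by rw [hα, sin_add]
  rw [e3, e4]
  have sx : 0 ≤ sin x := (sin_pos_of_pos_of_lt_pi hx0 hxπ).le
  have sy : 0 ≤ sin y := (sin_pos_of_pos_of_lt_pi hy0 hyπ).le
  have cx : cos x ≤ sin x / x := by
    rw [le_div_iff₀ hx0]
    linarith [o8_cot x hx0 hxπ]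
  have cy : cos y ≤ sin y / y := by
    rw [le_div_iff₀ hy0]
    linarith [o8_cot y hy0 hyπ]
  have e5 : (1 / (2 * y) + 1 / (2 * x)) * (2 * (sin x * sin y)) =
      sin x * (sin y / y) + (sin x / x) * sin y := by
    field_simp
  rw [e5]
  have f1 := mul_le_mul_of_nonneg_left cy sx
  have f2 := mul_le_mul_of_nonneg_right cx sy
  linarith

theorem o8 (hA1 : A1) (hA2 : A2) (hA11 : A11) (hC1 : C1) (hC2 : C2) (hK3u : K3u) (hLS : LS)
    (hN0 : N0) (hN2 : N2) (hN3 : N3) (hO1 : O1) (hVF1 : VF1) (hVF2 : VF2) : O8 := by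
  intro δ hδ hδ4
  obtain ⟨K, hK, hK3⟩ := hK3u
  obtain ⟨n1, hO⟩ := hO1 δ hδ hδ4
  set α0 : ℝ := arccos (1 - δ) with hα0
  have hα0p : 0 < α0 := by
    rw [hα0, arccos_pos]
    linarith
  set C : ℝ := 1 / α0 + K with hC
  have hCp : 0 < C := by positivity
  set ε : ℝ := min (min (0.001 / C) (α0 / 4002)) (1 / 123000) with hε
  have hεp : 0 < ε := by
    rw [hε]
    refine lt_min (lt_min ?_ ?_) ?_ <;> positivity
  have hε1 : ε * C ≤ 0.001 := by
    have : ε ≤ 0.001 / C := (min_le_left _ _).trans (min_le_left _ _)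
    rwa [le_div_iff₀ hCp] at this
  have hε2 : 4002 * ε ≤ α0 := by
    have : ε ≤ α0 / 4002 := (min_le_left _ _).trans (min_le_right _ _)
    rw [le_div_iff₀ (by norm_num)] at this
    linarith
  have hε3 : 123000 * ε ≤ 1 := by
    have : ε ≤ 1 / 123000 := min_le_right _ _
    rw [le_div_iff₀ (by norm_num)] at this
    linarith
  obtain ⟨n2, hn2⟩ := o8_small ε hεp
  refine ⟨max (max n1 n2) 4, ?_⟩
  intro n hn a θ P ha1 ha2 hE hθ hq
  have hnn1 : n1 ≤ n := (le_max_left _ _).trans ((le_max_left _ _).trans hn)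
  have hnn2 : n2 ≤ n := (le_max_right _ _).trans ((le_max_left _ _).trans hn)
  have hn4 : 4 ≤ n := (le_max_right _ _).trans hn
  have hnR : (4 : ℝ) ≤ n := by exact_mod_cast hn4
  have hnp : (0 : ℝ) < n := by linarith
  have hl := hn2 n hnn2 (by omega)
  set l : ℝ := 1 + Real.log n with hldef
  have hl1 : 1 ≤ l := by
    have : 0 ≤ Real.log n := Real.log_nonneg (by linarith)
    rw [hldef]
    linarith
  by_contra hne
  have ham : -1 ≤ a := by linarith
  have ha1' : a < 1 := by linarith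
  set α : ℝ := arccos a with hα
  have hαα0 : α0 ≤ α := by
    rw [hα, hα0]
    exact antitone_arccos ha2
  have hαπ : α ≤ π := arccos_le_pi a
  have hcα : cos α = a := cos_arccos ham ha1'.le
  obtain ⟨hθ0, hθα⟩ := hθ
  have hαθ : 0 < α - θ := by linarith
  have hTB : TB n (qq P) := hA2.2.1 n P (Polynomial.natDegree_le_iff_degree_le.mpr hE.deg) hE.bdd
  have hBern := (hA2.1 n (qq P) (by omega) hTB).2
  have hND := hO n hnn1 a P ha1 ha2 hE
  set B : ℝ := |deriv (deriv (qq P)) θ| with hB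
  set A : ℝ := |deriv (qq P) α| with hA
  have hA0 : 0 ≤ A := abs_nonneg _
  have hB0 : 0 ≤ B := abs_nonneg _
  have hAn : A ≤ n := (hBern α).2.2.1
  have hBn : B ≤ (n : ℝ) ^ 2 := (hBern θ).2.2.2.1
  -- first order condition
  have hF : 2 * B ≤ sin α * A / (cos θ - a) + K * n * l := by
    have h := hK3 n a 1 θ 0 P (by omega) ham ha1' le_rfl hE
      (by rw [arccos_one]; exact ⟨hθ0, hθα⟩) hq hne le_rfl (by norm_num)
      (by rw [arccos_one, zero_div, add_zero, sub_zero]; exact hND)
    rw [arccos_one, sin_zero, zero_mul, zero_div, add_zero, mul_zero, zero_mul, zero_mul,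
      add_zero] at h
    exact h
  have hcos : a < cos θ := by
    rw [← hcα]
    exact cos_lt_cos_of_nonneg_of_le_pi hθ0.le hαπ hθα
  have hcp : 0 < cos θ - a := by linarith
  have hR : sin α / (cos θ - a) ≤ 1 / (α - θ) + 1 / α0 := by
    have h := o8_ratio θ α hθ0 hθα hαπ
    rw [hcα] at h
    rw [div_le_iff₀ hcp]
    refine h.trans (mul_le_mul_of_nonneg_right ?_ hcp.le)
    have : 1 / (α + θ) ≤ 1 / α0 := one_div_le_one_div_of_le hα0p (by linarith)
    linarith
  have hF2 : 2 * B ≤ 1 / (α - θ) * A + 0.001 * (n : ℝ) ^ 2 := by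
    have e : sin α * A / (cos θ - a) = sin α / (cos θ - a) * A := by ring
    rw [e] at hF
    have h1 := mul_le_mul_of_nonneg_right hR hA0
    have h2 : 1 / α0 * A ≤ 1 / α0 * n * l := by
      have : 0 < 1 / α0 := by positivity
      have h3 : A ≤ n * l := by nlinarith
      nlinarith
    have h4 : 1 / α0 * n * l + K * n * l ≤ 0.001 * (n : ℝ) ^ 2 := by
      have e2 : 1 / α0 * n * l + K * n * l = C * n * l := by rw [hC]; ring
      rw [e2]
      have h5 : C * n * l ≤ C * n * (ε * n) := by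
        apply mul_le_mul_of_nonneg_left hl
        positivity
      have h6 : C * n * (ε * n) = (ε * C) * (n : ℝ) ^ 2 := by ring
      rw [h6] at h5
      have h7 := mul_le_mul_of_nonneg_right hε1 (sq_nonneg (n : ℝ))
      linarith
    nlinarith
  rcases le_or_gt 4000 (n * (α - θ)) with hτ | hτ
  · -- far away: degenerate point
    have h1 : 1 / (α - θ) ≤ n / 4000 := by
      rw [div_le_div_iff₀ hαθ (by norm_num)]
      linarith
    have h2 : 1 / (α - θ) * A ≤ n / 4000 * n := by
      refine mul_le_mul h1 hAn hA0 ?_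
      positivity
    have h3 := hND θ ⟨hθ0.le, hθα.le⟩ (by rw [hq, abs_zero]; positivity)
    nlinarith
  · have hτ0 : 0 < n * (α - θ) := by positivity
    have hκ : B < 0.265 * (n : ℝ) ^ 2 := by
      by_contra hc
      push Not at hc
      set κ : ℝ := B / (n : ℝ) ^ 2 with hκd
      have hn2p : (0 : ℝ) < (n : ℝ) ^ 2 := by positivity
      have hκ1 : κ ≤ 1 := by
        rw [hκd, div_le_one hn2p]
        exact hBn
      have hκ2 : 0.265 ≤ κ := by
        rw [hκd, le_div_iff₀ hn2p]
        exact hc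
      have hκB : B = (n : ℝ) ^ 2 * κ := by
        rw [hκd]
        field_simp
      have h1 := (hA11 n (qq P) θ (π / 2) κ (n * (α - θ)) (by omega) hTB le_rfl
        (by linarith [pi_pos]) (by linarith) (by rw [hq, abs_zero, cos_pi_div_two]; simp)
        (by rw [sin_pi_div_two, mul_one, ← hκB]) hτ0.le).1
      have e1 : θ + n * (α - θ) / n = α := by
        field_simp
        ring
      rw [e1] at h1
      have h2 := hN3 κ (n * (α - θ)) hκ2 hκ1 hτ0
      have h3 : A ≤ n * ((2 * κ - 0.01) * (n * (α - θ))) :=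
        h1.trans (mul_le_mul_of_nonneg_left h2 hnp.le)
      have h4 : 1 / (α - θ) * A ≤ (2 * κ - 0.01) * (n : ℝ) ^ 2 := by
        rw [one_div, inv_mul_le_iff₀ hαθ]
        linarith
      rw [hκB] at hF2
      nlinarith
    -- loss of arc length
    have hinv : 1 ≤ ε * n := hl1.trans hl
    have hθn : 0 + 1.26 / n ≤ θ := by
      rw [zero_add, div_le_iff₀ hnp]
      have h1 : 4002 * (ε * n) ≤ α0 * n := by
        have := mul_le_mul_of_nonneg_right hε2 hnp.le
        linarith
      nlinarith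
    set L : ℝ := 2 / π * 1.26 - 0.3711 with hL
    have hLb : 0.431 ≤ L := by
      have hp : π < 3.1416 := pi_lt_d4
      have h1 : (0.8021 : ℝ) ≤ 2 / π * 1.26 := by
        rw [div_mul_eq_mul_div, le_div_iff₀ pi_pos]
        linarith
      rw [hL]
      linarith
    have h1 := (hLS n (qq P) θ (π / 2) 0.265 1.26 L hn4 hTB le_rfl (by linarith [pi_pos])
      (by norm_num) (by rw [hq, abs_zero, cos_pi_div_two]; simp)
      (by rw [sin_pi_div_two, mul_one]; linarith) (by norm_num)
      (by rw [hL]; linarith [hN2.1]) hN2.2 (by linarith [hVF1.2])).1 0 α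
      (by rw [(hA2.2.2 P 0).1, sin_zero, zero_mul, neg_zero]) hθn hθα.le
      (by linarith [pi_pos])
    have h2 := hC2 n a 1 P (by omega) ham ha1'.le le_rfl hE
    rw [arccos_one, mul_zero] at h2
    have h3 := (hC1 P a 1 ham ha1'.le le_rfl).2
    rw [arccos_one] at h3
    have h4 := (hVF2 (n * α) (mul_nonneg hnp.le (hα0p.le.trans hαα0))).2
    unfold VC at h4
    have h5 : er n ≤ 60 * ε := by
      unfold er
      rw [← hldef, div_le_iff₀ hnp]
      linarith
    have h6 : 2 * 1.26 / (n : ℝ) ≤ 2.52 * ε := by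
      rw [div_le_iff₀ hnp]
      linarith
    have h7 : 2 / π * (n * (α - 0)) = 2 / π * (n * α) := by rw [sub_zero]
    rw [h7] at h1
    have h8 := hVF1.2
    linarith

end Pool.Agent.Helper10.AL
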