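import Pool.Agent.Helper10.AL.St7
import Pool.Agent.Helper10.AL.P.E8a
import Pool.Agent.Helper10.AL.P.E8
import Pool.Agent.Helper10.AL.P.O8

/-!
Piece E8e: all real critical points in a window of angular length at least `R / n` are contact
points.
-/

set_option autoImplicit false

namespace Pool.Agent.Helper10.AL

open Polynomial Set Real MeasureTheory intervalIntegral
open Pool.Agent.Helper40.AS (arc Bdd Ext quad ext_refl)

/-- the weight at the other end -/
theorem e8e_ratio (θ β : ℝ) (h0 : 0 ≤ β) (h1 : β < θ) (hπ : θ < π) :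
    sin β ≤ 2 / (θ - β) * (cos β - cos θ) := by
  have h := o8_ratio (π - θ) (π - β) (by linarith) (by linarith) (by linarith)
  rw [sin_pi_sub, cos_pi_sub, cos_pi_sub] at h
  have e1 : π - β - (π - θ) = θ - β := by ring
  have e2 : -cos θ - -cos β = cos β - cos θ := by ring
  rw [e1, e2] at h
  have hpos : 0 < θ - β := by linarith
  have e3 : 1 / (π - β + (π - θ)) ≤ 1 / (θ - β) :=
    one_div_le_one_div_of_le hpos (by linarith)
  have e4 : 0 ≤ cos β - cos θ := by
    have := cos_lt_cos_of_nonneg_of_le_pi h0 hπ.le h1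
    linarith
  refine h.trans (mul_le_mul_of_nonneg_right ?_ e4)
  have e5 : 2 / (θ - β) = 1 / (θ - β) + 1 / (θ - β) := by ring
  rw [e5]
  linarith

theorem e8e_wd {n : ℕ} {R R' a b : ℝ} (h : Wd n R a b) (hR : R' ≤ R) : Wd n R' a b :=
  ⟨h.1, h.2.1, h.2.2.1, hR.trans h.2.2.2⟩

/-- the second derivative at an exceptional critical point near the right end -/
theorem e8e_kappa (hA2 : A2) (hA11 : A11) (hK3u : K3u) (hN3 : N3) (R : ℝ) (hR : 0 < R) :
    ∃ n0 : ℕ, ∀ n ≥ n0, ∀ (a b θc : ℝ) (P : ℝ[X]), Wd n (2 * R + 3000) a b → Ext n a b P →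
    ND n (qq P) (arccos b) (arccos a) → arccos a - R / n < θc →
    θc < arccos a → deriv (qq P) θc = 0 → |qq P θc| ≠ 1 →
    |deriv (deriv (qq P)) θc| ≤ 0.265 * (n : ℝ) ^ 2 ∧ deriv (deriv (qq P)) θc ≠ 0 := by
  obtain ⟨K, hK, h1⟩ := hK3u
  obtain ⟨n5, h5⟩ := e8a_log K 0.005 (by norm_num)
  refine ⟨max n5 2, ?_⟩
  intro n hn a b θc P hM hE hND hθ1 hθ2 hd hne
  have k5 : n5 ≤ n := by omega
  have k2 : 2 ≤ n := by omega
  have hn2 : (2 : ℝ) ≤ n := by exact_mod_cast k2
  have hn0 : (0 : ℝ) < n := by linarith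
  have hlog : 0 ≤ Real.log n := Real.log_nonneg (by linarith)
  obtain ⟨ha, hab, hb, hL⟩ := hM
  set α := arccos a with hα
  set β := arccos b with hβ
  have hca : cos α = a := cos_arccos (by linarith) (by linarith)
  have hcb : cos β = b := cos_arccos (by linarith) (by linarith)
  have hαπ : α ≤ π := arccos_le_pi a
  have hβ0 : 0 ≤ β := arccos_nonneg b
  have hRn0 : n * (R / n) = R := by field_simp
  have hαθ : n * (α - θc) ≤ R := by
    have : n * (α - θc) ≤ n * (R / n) := mul_le_mul_of_nonneg_left (by linarith) hn0.le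
    linarith
  have hθβ : 3000 ≤ n * (θc - β) := by
    have : n * (θc - β) = n * (α - β) - n * (α - θc) := by ring
    linarith
  have hβθ : β < θc := by
    by_contra hcon
    push Not at hcon
    have : n * (θc - β) ≤ 0 := mul_nonpos_of_nonneg_of_nonpos hn0.le (by linarith)
    linarith
  have hnat : P.natDegree ≤ n := natDegree_le_iff_degree_le.2 hE.deg
  have hTB : TB n (qq P) := hA2.2.1 n P hnat hE.bdd
  have hB := (hA2.1 n (qq P) (by omega) hTB).2
  set κ : ℝ := |deriv (deriv (qq P)) θc| / (n : ℝ) ^ 2 with hκ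
  have hκn : |deriv (deriv (qq P)) θc| = (n : ℝ) ^ 2 * κ := by
    rw [hκ]
    field_simp
  have hκ0 : 0 ≤ κ := by positivity
  have hκ1 : κ ≤ 1 := by
    rw [hκ, div_le_one (by positivity)]
    exact (hB θc).2.2.2.1
  have hθI : θc ∈ Icc β α := ⟨hβθ.le, hθ2.le⟩
  have hsec := hND θc hθI (by rw [hd, abs_zero]; positivity)
  refine ⟨?_, ?_⟩
  swap
  · intro h0
    rw [h0, abs_zero] at hsec
    have : 0 < (n : ℝ) ^ 2 / 1000 := by positivity
    linarith
  by_contra hcon
  push Not at hcon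
  have hκ2 : 0.265 ≤ κ := by
    rw [hκ, le_div_iff₀ (by positivity)]
    exact hcon.le
  -- the first order condition
  have hND0 : ND n (qq P) (β + 0 / n) (α - 0 / n) := by
    rw [zero_div, add_zero, sub_zero]
    exact hND
  have hk := h1 n a b θc 0 P k2 ha hab hb hE ⟨hβθ, hθ2⟩ hd hne le_rfl
    (by norm_num) hND0
  rw [← hα, ← hβ] at hk
  simp only [mul_zero, zero_mul, add_zero] at hk
  -- the derivative at the right end
  have hh : 0 < α - θc := by linarith
  have hτ : 0 < n * (α - θc) := by positivity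
  have hder : |deriv (qq P) α| ≤ n * Gm κ (π / 2) (n * (α - θc)) := by
    have h8 := (hA11 n (qq P) θc (π / 2) κ (n * (α - θc)) k2 hTB le_rfl (by linarith [pi_pos])
      hκ0 (by rw [hd, abs_zero, cos_pi_div_two, neg_zero, mul_zero])
      (by rw [sin_pi_div_two, mul_one, hκn]) hτ.le).1
    have h9 : θc + n * (α - θc) / n = α := by
      field_simp
      ring
    rwa [h9] at h8
  have hG := hN3 κ (n * (α - θc)) hκ2 hκ1 hτ
  have hder2 : |deriv (qq P) α| ≤ n * ((2 * κ - 0.01) * (n * (α - θc))) :=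
    hder.trans (mul_le_mul_of_nonneg_left hG hn0.le)
  have hdern : |deriv (qq P) α| ≤ n := (hB α).2.2.1
  have hθ0 : 0 < θc := by linarith
  have hθπ : θc < π := by linarith
  have hD0 : 0 < cos θc - a := by
    have := cos_lt_cos_of_nonneg_of_le_pi hθ0.le hαπ hθ2
    rw [hca] at this
    linarith
  have hD1 : 0 < b - cos θc := by
    have := cos_lt_cos_of_nonneg_of_le_pi hβ0 hθπ.le hβθ
    rw [hcb] at this
    linarith
  have hterm1 : sin α * |deriv (qq P) α| / (cos θc - a) ≤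
      (n : ℝ) ^ 2 * (2 * κ - 0.01) + 0.001 * (n : ℝ) ^ 2 := by
    rw [div_le_iff₀ hD0]
    have e1 := o8_ratio θc α hθ0 hθ2 hαπ
    rw [hca] at e1
    have e2 := mul_le_mul_of_nonneg_right e1 (abs_nonneg (deriv (qq P) α))
    have e3 : 1 / (α - θc) * |deriv (qq P) α| ≤ (n : ℝ) ^ 2 * (2 * κ - 0.01) := by
      rw [one_div, inv_mul_le_iff₀ hh]
      linarith
    have e4 : 1 / (α + θc) * |deriv (qq P) α| ≤ 0.001 * (n : ℝ) ^ 2 := by
      have e5 : 1 / (α + θc) ≤ n / 3000 := by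
        rw [div_le_div_iff₀ (by linarith) (by norm_num)]
        have : n * (θc - β) ≤ n * (α + θc) := mul_le_mul_of_nonneg_left (by linarith) hn0.le
        linarith
      calc 1 / (α + θc) * |deriv (qq P) α| ≤ n / 3000 * n :=
            mul_le_mul e5 hdern (abs_nonneg _) (by positivity)
        _ ≤ 0.001 * (n : ℝ) ^ 2 := by nlinarith [sq_nonneg (n : ℝ)]
    calc sin α * |deriv (qq P) α| ≤ (1 / (α - θc) + 1 / (α + θc)) * (cos θc - a) *
          |deriv (qq P) α| := e2
      _ = (1 / (α - θc) * |deriv (qq P) α| + 1 / (α + θc) * |deriv (qq P) α|) *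
          (cos θc - a) := by ring
      _ ≤ _ := mul_le_mul_of_nonneg_right (by linarith) hD0.le
  have hterm2 : sin β * |deriv (qq P) β| / (b - cos θc) ≤ 0.001 * (n : ℝ) ^ 2 := by
    rw [div_le_iff₀ hD1]
    have e1 := e8e_ratio θc β hβ0 hβθ hθπ
    rw [hcb] at e1
    have e2 := mul_le_mul_of_nonneg_right e1 (abs_nonneg (deriv (qq P) β))
    have e3 : 2 / (θc - β) * |deriv (qq P) β| ≤ 0.001 * (n : ℝ) ^ 2 := by
      have e5 : 2 / (θc - β) ≤ n / 1500 := by
        rw [div_le_div_iff₀ (by linarith) (by norm_num)]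
        linarith
      calc 2 / (θc - β) * |deriv (qq P) β| ≤ n / 1500 * n :=
            mul_le_mul e5 (hB β).2.2.1 (abs_nonneg _) (by positivity)
        _ ≤ 0.001 * (n : ℝ) ^ 2 := by nlinarith [sq_nonneg (n : ℝ)]
    calc sin β * |deriv (qq P) β| ≤ 2 / (θc - β) * (b - cos θc) * |deriv (qq P) β| := e2
      _ = 2 / (θc - β) * |deriv (qq P) β| * (b - cos θc) := by ring
      _ ≤ _ := mul_le_mul_of_nonneg_right e3 hD1.le
  rw [hκn] at hk
  have hfin := h5 n k5
  have e1 : K * n * (1 + Real.log n) ≤ 0.005 * (n : ℝ) ^ 2 := by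
    have := mul_le_mul_of_nonneg_left hfin hn0.le
    nlinarith
  have hn2p : 0 < (n : ℝ) ^ 2 := by positivity
  nlinarith

/-- the first exceptional critical point near the right end -/
theorem e8e_a (hA2 : A2) (hA11 : A11) (hCH : CH) (hCLf : CLf) (hE2 : E2) (hE6e : E6e)
    (hK3u : K3u) (hLS : LS) (hN2 : N2) (hN3 : N3) (hVF1 : VF1) (hVF2 : VF2) (R : ℝ)
    (hR : 0 < R) :
    ∃ L : ℝ, 0 < L ∧ 2 * R + 3000 ≤ L ∧ ∃ n0 : ℕ, ∀ n ≥ n0,
    ∀ (a b θc : ℝ) (P : ℝ[X]), Wd n L a b → Ext n a b P → arccos a - R / n < θc →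
    θc < arccos a → deriv (qq P) θc = 0 →
    (∀ θ, arccos b + R / n ≤ θ → θ < θc → deriv (qq P) θ = 0 → |qq P θ| = 1) →
    |qq P θc| = 1 := by
  obtain ⟨n1, h1⟩ := e8e_kappa hA2 hA11 hK3u hN3 R hR
  obtain ⟨R2, hR2, n2, h2⟩ := hCLf (1 / 10000) (R + 10) (by norm_num) (by linarith)
  obtain ⟨R3, hR3, n3, h3⟩ := hE6e
  obtain ⟨n4, h4⟩ := hE2
  obtain ⟨n6, h6⟩ := e8a_log 130 0.007 (by norm_num)
  refine ⟨2 * R + 3000 + R2 + R3, by positivity, by linarith, max (max n1 n2) (max (max n3 n4)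
    (max n6 4)), ?_⟩
  intro n hn a b θc P hM hE hθ1 hθ2 hd hcont
  have k1 : n1 ≤ n := by omega
  have k2 : n2 ≤ n := by omega
  have k3 : n3 ≤ n := by omega
  have k4 : n4 ≤ n := by omega
  have k6 : n6 ≤ n := by omega
  have k44 : 4 ≤ n := by omega
  have hn2 : (4 : ℝ) ≤ n := by exact_mod_cast k44
  have hn0 : (0 : ℝ) < n := by linarith
  have hlog : 0 ≤ Real.log n := Real.log_nonneg (by linarith)
  by_contra hne
  have hND := h3 n k3 a b P (e8e_wd hM (by linarith)) hE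
  obtain ⟨hκ, hκ0⟩ := h1 n k1 a b θc P (e8e_wd hM (by linarith)) hE hND hθ1 hθ2 hd hne
  have hM2 : Wd n R2 a b := e8e_wd hM (by linarith)
  obtain ⟨ha, hab, hb, hL⟩ := hM
  have hα1 : (2 * R + 20) / n ≤ arccos a - arccos b := by
    rw [div_le_iff₀ hn0]
    linarith
  have hαπ : arccos a ≤ π := arccos_le_pi a
  have hβ0 : 0 ≤ arccos b := arccos_nonneg b
  set α := arccos a with hα
  set β := arccos b with hβ
  have hsplit : (2 * R + 20) / n = 2 * (R / n) + 20 / n := by ring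
  rw [hsplit] at hα1
  have hRn : 0 < R / n := by positivity
  have h1n : (0 : ℝ) < 1 / n := by positivity
  have e7 : (7 : ℝ) / n = 7 * (1 / n) := by ring
  have e20 : (20 : ℝ) / n = 20 * (1 / n) := by ring
  have e126 : (1.26 : ℝ) / n = 1.26 * (1 / n) := by ring
  have hnat : P.natDegree ≤ n := natDegree_le_iff_degree_le.2 hE.deg
  have hTB : TB n (qq P) := hA2.2.1 n P hnat hE.bdd
  have hEE : ∀ u v : ℝ, arccos b ≤ u → u ≤ v → v ≤ arccos a →
      (∀ θ ∈ Ioo u v, deriv (qq P) θ ≠ 0) → n * (v - u) ≤ 6 :=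
    fun u v => h4 n a b u v P k4 ha hab hb hE
  -- critical points
  obtain ⟨u, hu, hu0⟩ := e8a_crit (n := n) (P := P) (by omega) hEE
    (u := β + R / n) (v := β + R / n + 7 / n) (by linarith)
    (by rw [← hα]; linarith) rfl
  obtain ⟨v, hv, hv0⟩ := e8a_crit (n := n) (P := P) (by omega) hEE
    (u := θc - 1.26 / n - 7 / n) (v := θc - 1.26 / n) (by rw [← hβ]; linarith)
    (by rw [← hα]; linarith) (by ring)
  have huv : u < v := by linarith [hu.2, hv.1]
  have hne' : ∃ θ, deriv (qq P) θ ≠ 0 := by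
    by_contra hcon
    push Not at hcon
    apply hκ0
    have : deriv (qq P) = fun _ => 0 := funext hcon
    rw [this]
    simp
  have hcon' : ∀ θ ∈ Icc u v, deriv (qq P) θ = 0 → |qq P θ| = 1 := by
    intro θ hθ hθ0
    exact hcont θ (by linarith [hu.1, hθ.1]) (by linarith [hv.2, hθ.2]) hθ0
  obtain ⟨N, t, hN, ht0, htN, hch⟩ := hCH n (qq P) u v (by omega) hTB hne' huv hu0 hv0 hcon'
  have hnv : 0 ≤ n * (α - v) := by
    have : 0 ≤ α - v := by linarith [hv.2]
    positivity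
  have hb1 : n * (α - v) ≤ R + 10 := by
    have : α - v ≤ R / n + 8.26 * (1 / n) := by linarith [hv.1]
    calc n * (α - v) ≤ n * (R / n + 8.26 * (1 / n)) := mul_le_mul_of_nonneg_left this hn0.le
      _ = R + 8.26 := by field_simp
      _ ≤ _ := by linarith
  have hb2 : n * (u - β) ≤ R + 10 := by
    have : u - β ≤ R / n + 7 * (1 / n) := by linarith [hu.2]
    calc n * (u - β) ≤ n * (R / n + 7 * (1 / n)) := mul_le_mul_of_nonneg_left this hn0.le
      _ = R + 7 := by field_simp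
      _ ≤ _ := by linarith
  have hlow := (h2 n k2 a b P N t hM2 hE hN (by rw [ht0]; linarith [hu.1])
    (by rw [htN]; linarith [hv.2]) hch (by rw [ht0]; exact hb2) (by rw [htN]; exact hb1)).1
  rw [htN] at hlow
  rw [← hα] at hlow
  -- loss of arc length
  have hcs := hVF1.2
  have hpi1 := Real.pi_gt_d2
  have hpi2 := Real.pi_lt_d2
  have hL' : cs ≤ 2 / π * 1.26 - 0.3711 := by
    have : 0.8 ≤ 2 / π * 1.26 := by
      rw [div_mul_eq_mul_div, le_div_iff₀ pi_pos]
      linarith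
    linarith
  have hls := (hLS n (qq P) θc (π / 2) 0.265 1.26 (2 / π * 1.26 - 0.3711) k44 hTB le_rfl
    (by linarith [pi_pos]) (by norm_num)
    (by rw [hd, abs_zero, cos_pi_div_two, neg_zero, mul_zero])
    (by rw [sin_pi_div_two, mul_one]; linarith) (by norm_num) (by linarith [hN2.1]) hN2.2 hL').1
    v α hv0 (by linarith [hv.2]) hθ2.le (by linarith [hv.1, pi_pos])
  have hvf := (hVF2 (n * (α - v)) hnv).2
  have hLc : 0.0077 < 2 / π * 1.26 - 0.3711 - cs := by
    have : 0.8 ≤ 2 / π * 1.26 := by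
      rw [div_mul_eq_mul_div, le_div_iff₀ pi_pos]
      linarith
    linarith
  have hfin := h6 n k6
  have hfin2 : 130 * (1 + Real.log n) / n ≤ 0.007 := by
    rw [div_le_iff₀ hn0]
    exact hfin
  have her : er n = 60 * (1 + Real.log n) / n := rfl
  have hq1 : 2 * 1.26 / (n : ℝ) ≤ 10 * (1 + Real.log n) / n := by
    apply div_le_div_of_nonneg_right _ hn0.le
    nlinarith
  have hq2 : 130 * (1 + Real.log n) / n = 10 * (1 + Real.log n) / n +
        2 * (60 * (1 + Real.log n) / n) := by ring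
  rw [her] at hls
  linarith

/-- all critical points except those near the left end -/
theorem e8e_right (hA1 : A1) (hA2 : A2) (hA4 : A4) {R L : ℝ} {n : ℕ}
    (hE3 : ∀ (a b θ : ℝ) (P : ℝ[X]), -1 ≤ a → a < b → b ≤ 1 → Ext n a b P →
      arccos b + R / n ≤ θ → θ ≤ arccos a - R / n → deriv (qq P) θ = 0 → |qq P θ| = 1)
    (hE8a : ∀ (a b θc : ℝ) (P : ℝ[X]), Wd n L a b → Ext n a b P → arccos a - R / n < θc →
      θc < arccos a → deriv (qq P) θc = 0 →
      (∀ θ, arccos b + R / n ≤ θ → θ < θc → deriv (qq P) θ = 0 → |qq P θ| = 1) →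
      |qq P θc| = 1) (a b : ℝ) (P : ℝ[X]) (hR : 0 ≤ R) (hM : Wd n L a b)
    (hP : Ext n a b P)
    (hnc : ∃ θ, deriv (qq P) θ ≠ 0) :
    ∀ θ, arccos b + R / n ≤ θ → θ < arccos a → deriv (qq P) θ = 0 → |qq P θ| = 1 := by
  by_contra hcon
  push Not at hcon
  obtain ⟨θ1, h1, h2, h3, h4⟩ := hcon
  have hTB : TB n (qq P) := hA2.2.1 n P (natDegree_le_iff_degree_le.2 hP.deg) hP.bdd
  have hTP : TP n (deriv (qq P)) := (hA1.1 n (qq P) hTB.1).2.1
  have hfin := (hA4 n (deriv (qq P)) 0 hTP hnc).1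
  have hRn : 0 ≤ R / n := by positivity
  have hfin2 : {θ | arccos b + R / n ≤ θ ∧ θ < arccos a ∧ deriv (qq P) θ = 0 ∧
      |qq P θ| ≠ 1}.Finite := by
    refine hfin.subset ?_
    rintro θ ⟨g1, g2, g3, -⟩
    have g4 := arccos_nonneg b
    have g5 := arccos_le_pi a
    have g6 := pi_pos
    refine ⟨⟨by linarith, by linarith⟩, g3⟩
  obtain ⟨θc, ⟨k1, k2, k3, k4⟩, hmin⟩ := Set.exists_min_image _ id hfin2 ⟨θ1, h1, h2, h3, h4⟩
  refine k4 (hE8a a b θc P hM hP ?_ k2 k3 ?_)
  · by_contra hle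
    exact k4 (hE3 a b θc P hM.1 hM.2.1 hM.2.2.1 hP k1 (not_lt.1 hle) k3)
  · intro θ m1 m2 m3
    by_contra m4
    have := hmin θ ⟨m1, m2.trans k2, m3, m4⟩
    simp only [id] at this
    linarith

theorem e8e (hA1 : A1) (hA2 : A2) (hA4 : A4) (hA11 : A11) (hCH : CH) (hCLf : CLf) (hE2 : E2)
    (hE3L : E3L) (hE6e : E6e) (hK3u : K3u) (hLS : LS) (_hN0 : N0) (hN2 : N2) (hN3 : N3)
    (hVF1 : VF1) (hVF2 : VF2) : E8e := by
  obtain ⟨R, hR, n1, hn1⟩ := hE3L
  obtain ⟨L, hL0, hLR, n2, hn2⟩ := e8e_a hA2 hA11 hCH hCLf hE2 hE6e hK3u hLS hN2 hN3 hVF1 hVF2 R hR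
  refine ⟨L, hL0, max n1 (max n2 1), fun n hn a b θ P hM hP hθ hd => ?_⟩
  have hna : n1 ≤ n := by omega
  have hnb : n2 ≤ n := by omega
  have hnd : 1 ≤ n := by omega
  have hnpos : (0 : ℝ) < n := by exact_mod_cast hnd
  have hMM := hM
  obtain ⟨hM1, hM2, hM3, hM4⟩ := hMM
  have h2R : 2 * (R / n) < arccos a - arccos b := by
    have h2 : 2 * (R / n) = 2 * R / n := by ring
    rw [h2, div_lt_iff₀ hnpos]
    linarith
  have E3' := fun a b θ P => hn1 n hna a b θ P
  have E8' := fun a b θ P => hn2 n hnb a b θ P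
  by_cases hconst : ∀ x, deriv (qq P) x = 0
  · have h1 : |qq P ((arccos a + arccos b) / 2)| = 1 :=
      E3' a b _ P hM1 hM2 hM3 hP (by linarith) (by linarith) (hconst _)
    have hdiff : Differentiable ℝ (qq P) := by
      unfold qq
      exact P.differentiable.comp differentiable_cos
    rw [is_const_of_deriv_eq_zero hdiff hconst θ ((arccos a + arccos b) / 2)]
    exact h1
  push Not at hconst
  by_contra hne
  have c1 : θ < arccos b + R / n := by
    by_contra hle
    exact hne (e8e_right hA1 hA2 hA4 E3' E8' a b P hR.le hM hP hconst θ (not_lt.1 hle)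
      hθ.2 hd)
  have hM' : Wd n L (-b) (-a) := by
    refine ⟨by linarith, by linarith, by linarith, ?_⟩
    rw [arccos_neg, arccos_neg]
    have : π - arccos b - (π - arccos a) = arccos a - arccos b := by ring
    rw [this]
    exact hM4
  have c2 : π - θ < arccos (-a) + R / n := by
    by_contra hle
    have hx : deriv (qq (P.comp (-X))) (π - θ) = 0 := by
      rw [e8_dqq, sub_sub_cancel, hd, neg_zero]
    have hy := e8e_right hA1 hA2 hA4 E3' E8' (-b) (-a) (P.comp (-X)) hR.le hM' (ext_refl hP)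
      (by
        obtain ⟨x, hx⟩ := hconst
        refine ⟨π - x, ?_⟩
        rw [e8_dqq, sub_sub_cancel]
        exact neg_ne_zero.2 hx) (π - θ) (not_lt.1 hle)
      (by
        rw [arccos_neg]
        linarith [hθ.1]) hx
    rw [e8_qq, sub_sub_cancel] at hy
    exact hne hy
  rw [arccos_neg] at c2
  linarith

end Pool.Agent.Helper10.AL
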