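import Pool.Agent.Helper10.AL.St4

/-!
Arc length of polynomials, all windows in a compact interval: localisation of the non-real
critical points.
-/

set_option autoImplicit false

namespace Pool.Agent.Helper10.AL

open Polynomial Set Real MeasureTheory intervalIntegral
open Pool.Agent.Helper40.AS (arc Bdd Ext quad)

noncomputable section

/-- the distance of `x` to `u + i v` -/
def g2L_r (u v x : ℝ) : ℝ := √((x - u) ^ 2 + v ^ 2)

theorem g2L_pos {u v : ℝ} (hv : 0 < v) (x : ℝ) : 0 < g2L_r u v x :=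
  Real.sqrt_pos.2 (by positivity)

theorem g2L_sq (u v x : ℝ) : g2L_r u v x ^ 2 = (x - u) ^ 2 + v ^ 2 :=
  Real.sq_sqrt (by positivity)

theorem g2L_ge1 (u v x : ℝ) : |x - u| ≤ g2L_r u v x := by
  rw [g2L_r, ← Real.sqrt_sq_eq_abs]
  exact Real.sqrt_le_sqrt (by nlinarith [sq_nonneg v])

theorem g2L_ge2 {u v : ℝ} (_hv : 0 < v) (x : ℝ) : v ≤ g2L_r u v x := by
  apply Real.le_sqrt_of_sq_le
  nlinarith [sq_nonneg (x - u)]

theorem g2L_norm (z : ℂ) (x : ℝ) : ‖z - (x : ℂ)‖ = g2L_r z.re z.im x := by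
  rw [Complex.norm_def, Complex.normSq_apply, g2L_r]
  congr 1
  simp only [Complex.sub_re, Complex.sub_im, Complex.ofReal_re, Complex.ofReal_im]
  ring

theorem g2L_cont (u v : ℝ) : Continuous (g2L_r u v) := by
  unfold g2L_r
  fun_prop

theorem g2L_lip (u v x y : ℝ) : g2L_r u v x ≤ g2L_r u v y + |x - y| := by
  have h1 := g2L_norm ⟨u, v⟩ x
  have h2 := g2L_norm ⟨u, v⟩ y
  have h3 : ‖((y : ℂ) - (x : ℂ))‖ = |x - y| := by
    rw [← Complex.ofReal_sub, Complex.norm_real, Real.norm_eq_abs, abs_sub_comm]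
  have h4 := norm_add_le ((⟨u, v⟩ : ℂ) - (y : ℂ)) ((y : ℂ) - (x : ℂ))
  rw [sub_add_sub_cancel, h1, h2, h3] at h4
  exact h4

theorem g2L_inv_cont {u v : ℝ} (hv : 0 < v) : Continuous fun x => (g2L_r u v x)⁻¹ :=
  (g2L_cont u v).inv₀ fun x => (g2L_pos hv x).ne'

theorem g2L_der {u v : ℝ} (hv : 0 < v) (x : ℝ) :
    HasDerivAt (g2L_r u v) ((x - u) / g2L_r u v x) x := by
  have h1 : HasDerivAt (fun x : ℝ => (x - u) ^ 2 + v ^ 2) (2 * (x - u)) x := by
    have h2 := (((hasDerivAt_id x).sub_const u).pow 2).add_const (v ^ 2)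
    simpa using h2
  have h3 := h1.sqrt (by positivity : (x - u) ^ 2 + v ^ 2 ≠ 0)
  have h4 : 2 * (x - u) / (2 * √((x - u) ^ 2 + v ^ 2)) = (x - u) / g2L_r u v x := by
    rw [g2L_r, mul_div_mul_left _ _ (by norm_num)]
  rw [h4] at h3
  exact h3

/-- the third inverse power -/
theorem g2L_I3 {a b p s : ℝ} (hs : 0 < s) :
    ∫ x in a..b, (g2L_r p s x)⁻¹ ^ 3 ≤ 2 / s ^ 2 := by
  have hd : ∀ x, HasDerivAt (fun x => (x - p) / (s ^ 2 * g2L_r p s x))
      ((g2L_r p s x)⁻¹ ^ 3) x := by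
    intro x
    have hr := g2L_pos (u := p) hs x
    have h1 := ((hasDerivAt_id x).sub_const p).div ((g2L_der (u := p) hs x).const_mul (s ^ 2))
      (by positivity)
    have hsq := g2L_sq p s x
    have h2 : (g2L_r p s x)⁻¹ ^ 3 = (1 * (s ^ 2 * g2L_r p s x) -
        (id x - p) * (s ^ 2 * ((x - p) / g2L_r p s x))) / (s ^ 2 * g2L_r p s x) ^ 2 := by
      simp only [id]
      rw [inv_pow, eq_div_iff (by positivity)]
      field_simp
      rw [hsq]
      ring
    rw [h2]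
    exact h1
  rw [intervalIntegral.integral_eq_sub_of_hasDerivAt (fun x _ => hd x)
    (((g2L_inv_cont hs).pow 3).intervalIntegrable _ _)]
  have hb : ∀ x, |(x - p) / (s ^ 2 * g2L_r p s x)| ≤ 1 / s ^ 2 := by
    intro x
    have hr := g2L_pos (u := p) hs x
    rw [abs_div, abs_of_pos (by positivity : 0 < s ^ 2 * g2L_r p s x), div_le_div_iff₀
      (by positivity) (by positivity)]
    have := g2L_ge1 p s x
    nlinarith [sq_nonneg s]
  have h1 := abs_le.1 (hb a)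
  have h2 := abs_le.1 (hb b)
  have h3 : 2 / s ^ 2 = 1 / s ^ 2 + 1 / s ^ 2 := by ring
  rw [h3]
  linarith [h1.1, h2.2]

theorem g2L_arsinh {y : ℝ} (hy : 0 ≤ y) : Real.arsinh y ≤ Real.log (1 + 2 * y) := by
  rw [Real.arsinh]
  have h1 : √(1 + y ^ 2) ≤ 1 + y := by
    rw [Real.sqrt_le_left (by linarith)]
    nlinarith
  apply Real.log_le_log
  · positivity
  · linarith

/-- the first inverse power -/
theorem g2L_I1 {a b u v B : ℝ} (hv : 0 < v) (hB : 0 ≤ B) (ha : u - a ≤ B) (hb : b - u ≤ B) :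
    ∫ x in a..b, (g2L_r u v x)⁻¹ ≤ 2 * Real.log (1 + 2 * B / v) := by
  have hd : ∀ x, HasDerivAt (fun x => Real.arsinh ((x - u) / v)) ((g2L_r u v x)⁻¹) x := by
    intro x
    have h1 : HasDerivAt (fun x : ℝ => (x - u) / v) (1 / v) x :=
      ((hasDerivAt_id x).sub_const u).div_const v
    have h2 := (Real.hasDerivAt_arsinh ((x - u) / v)).comp x h1
    have h3 : g2L_r u v x = √(1 + ((x - u) / v) ^ 2) * v := by
      have h4 : (x - u) ^ 2 + v ^ 2 = (1 + ((x - u) / v) ^ 2) * v ^ 2 := by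
        field_simp
        ring
      rw [g2L_r, h4, Real.sqrt_mul (by positivity), Real.sqrt_sq hv.le]
    have h5 : (g2L_r u v x)⁻¹ = (√(1 + ((x - u) / v) ^ 2))⁻¹ * (1 / v) := by
      rw [h3, mul_inv, one_div]
    rw [h5]
    exact h2
  rw [intervalIntegral.integral_eq_sub_of_hasDerivAt (fun x _ => hd x)
    ((g2L_inv_cont hv).intervalIntegrable _ _)]
  have h1 : Real.arsinh ((b - u) / v) ≤ Real.log (1 + 2 * B / v) := by
    calc _ ≤ Real.arsinh (B / v) := by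
          rw [Real.arsinh_le_arsinh]
          exact div_le_div_of_nonneg_right hb hv.le
      _ ≤ Real.log (1 + 2 * (B / v)) := g2L_arsinh (by positivity)
      _ = _ := by rw [mul_div_assoc]
  have h2 : -Real.arsinh ((a - u) / v) ≤ Real.log (1 + 2 * B / v) := by
    rw [← Real.arsinh_neg]
    calc _ ≤ Real.arsinh (B / v) := by
          rw [Real.arsinh_le_arsinh, ← neg_div]
          exact div_le_div_of_nonneg_right (by linarith) hv.le
      _ ≤ Real.log (1 + 2 * (B / v)) := g2L_arsinh (by positivity)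
      _ = _ := by rw [mul_div_assoc]
  linarith

/-- the weights -/
def g2L_w (u v p q r x : ℝ) : ℝ :=
  p * (g2L_r u v x)⁻¹ + q * (g2L_r u v x)⁻¹ ^ 2 + r * (g2L_r u v x)⁻¹ ^ 3

theorem g2L_w_cont {u v : ℝ} (hv : 0 < v) (p q r : ℝ) : Continuous (g2L_w u v p q r) := by
  have h := g2L_inv_cont (u := u) hv
  unfold g2L_w
  exact ((continuous_const.mul h).add (continuous_const.mul (h.pow 2))).add
    (continuous_const.mul (h.pow 3))

theorem g2L_w_nonneg {u v : ℝ} (hv : 0 < v) {p q r : ℝ} (hp : 0 ≤ p) (hq : 0 ≤ q) (hr : 0 ≤ r)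
    (x : ℝ) : 0 ≤ g2L_w u v p q r x := by
  have h := g2L_pos (u := u) hv x
  unfold g2L_w
  positivity

theorem g2L_w_slow {u v c ν x y : ℝ} (hv : 0 < v) (hc : 0 < c) {p q r : ℝ} (hp : 0 ≤ p)
    (hq : 0 ≤ q) (hr : 0 ≤ r) (hν : 0 < ν) (hx : c / ν ≤ g2L_r u v x) (hxy : |x - y| ≤ 1 / ν) :
    g2L_w u v p q r x ≤ (1 + 1 / c) ^ 3 * g2L_w u v p q r y := by
  have h1 := g2L_pos (u := u) hv x
  have h2 := g2L_pos (u := u) hv y
  have h3 := g2L_lip u v y x
  rw [abs_sub_comm] at h3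
  have h4 : g2L_r u v y ≤ (1 + 1 / c) * g2L_r u v x := by
    have : 1 / ν ≤ 1 / c * g2L_r u v x := by
      have h5 : 1 / ν = 1 / c * (c / ν) := by field_simp
      rw [h5]
      exact mul_le_mul_of_nonneg_left hx (by positivity)
    linarith
  set A : ℝ := 1 + 1 / c with hA
  have hA1 : 1 ≤ A := by
    have : 0 < 1 / c := by positivity
    linarith
  have hA0 : 0 < A := by linarith
  set s := (g2L_r u v x)⁻¹ with hs
  set t := (g2L_r u v y)⁻¹ with ht
  have hs0 : 0 < s := by positivity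
  have ht0 : 0 < t := by positivity
  have hst : s ≤ A * t := by
    rw [hs, ht, ← div_eq_mul_inv, le_div_iff₀ h2, inv_mul_le_iff₀ h1]
    linarith
  have e1 : s ≤ A ^ 3 * t := by
    have : A ≤ A ^ 3 := by
      calc A = A ^ 1 := (pow_one A).symm
        _ ≤ A ^ 3 := pow_le_pow_right₀ hA1 (by norm_num)
    nlinarith
  have e2 : s ^ 2 ≤ A ^ 3 * t ^ 2 := by
    have h6 : s ^ 2 ≤ (A * t) ^ 2 := pow_le_pow_left₀ hs0.le hst 2
    have h7 : A ^ 2 ≤ A ^ 3 := pow_le_pow_right₀ hA1 (by norm_num)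
    have h8 : A ^ 2 * t ^ 2 ≤ A ^ 3 * t ^ 2 := mul_le_mul_of_nonneg_right h7 (by positivity)
    rw [mul_pow] at h6
    linarith
  have e3 : s ^ 3 ≤ A ^ 3 * t ^ 3 := by
    have h6 : s ^ 3 ≤ (A * t) ^ 3 := pow_le_pow_left₀ hs0.le hst 3
    rw [mul_pow] at h6
    exact h6
  unfold g2L_w
  rw [← hs, ← ht]
  have f1 := mul_le_mul_of_nonneg_left e1 hp
  have f2 := mul_le_mul_of_nonneg_left e2 hq
  have f3 := mul_le_mul_of_nonneg_left e3 hr
  linarith

theorem g2L_mono {a b : ℝ} {P : ℝ[X]} (hab : a ≤ b) {f w : ℝ → ℝ} (hf : Continuous f)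
    (hw : Continuous w) (h : ∀ x ∈ Icc a b, f x ≤ w x) :
    (∫ x in a..b, f x / √(1 + P.derivative.eval x ^ 2)) ≤
      ∫ x in a..b, w x / √(1 + P.derivative.eval x ^ 2) := by
  have hc : Continuous fun x : ℝ => √(1 + P.derivative.eval x ^ 2) := by fun_prop
  have hp : ∀ x : ℝ, 0 < √(1 + P.derivative.eval x ^ 2) := fun x =>
    Real.sqrt_pos.2 (by positivity)
  refine intervalIntegral.integral_mono_on hab
    ((hf.div hc fun x => (hp x).ne').intervalIntegrable _ _)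
    ((hw.div hc fun x => (hp x).ne').intervalIntegrable _ _) ?_
  intro x hx
  exact div_le_div_of_nonneg_right (h x hx) (hp x).le

/-- an end point can not be close to the critical point -/
theorem g2L_end {a b u v δ ε e p s : ℝ} {P : ℝ[X]} {F : ℝ → ℝ} (hab : a < b) (hv : 0 < v)
    (hF : Continuous F) (hε0 : 0 ≤ ε)
    (hW : ∀ p q r : ℝ, 0 ≤ p → 0 ≤ q → 0 ≤ r →
      (∫ x in a..b, g2L_w u v p q r x / √(1 + P.derivative.eval x ^ 2)) ≤
        ε * ∫ x in a..b, g2L_w u v p q r x)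
    (hFw : ∀ x ∈ Icc a b, F x ≤ g2L_w u v 0 5 (2 * (b - a)) x) (hs : 0 < s)
    (hps : ∀ x ∈ Icc a b, g2L_r p s x ≤ g2L_r u v x) (he : g2L_r u v e ^ 2 ≤ 2 * s ^ 2)
    (hδ : 0 < δ) (hE : δ * (b - a) / g2L_r u v e ^ 2 ≤
      ∫ x in a..b, F x / √(1 + P.derivative.eval x ^ 2)) (hε : 18 * ε < δ) : False := by
  have hh : 0 < b - a := by linarith
  have h1 := g2L_mono (P := P) hab.le hF (g2L_w_cont hv 0 5 (2 * (b - a))) hFw
  have h2 := hW 0 5 (2 * (b - a)) le_rfl (by norm_num) (by linarith)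
  have hr0 : 0 < g2L_r u v e := g2L_pos hv e
  have hb : ∀ x ∈ Icc a b, g2L_w u v 0 5 (2 * (b - a)) x ≤
      5 / s ^ 2 + 2 * (b - a) * (g2L_r p s x)⁻¹ ^ 3 := by
    intro x hx
    have h3 := hps x hx
    have h4 := g2L_pos (u := p) hs x
    have h5 := g2L_ge2 (u := p) hs x
    have h6 : (g2L_r u v x)⁻¹ ≤ (g2L_r p s x)⁻¹ := inv_anti₀ h4 h3
    have h7 : (g2L_r u v x)⁻¹ ≤ s⁻¹ := inv_anti₀ hs (h5.trans h3)
    have h8 : 0 < (g2L_r u v x)⁻¹ := inv_pos.2 (g2L_pos hv x)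
    have h9 := pow_le_pow_left₀ h8.le h6 3
    have h10 := pow_le_pow_left₀ h8.le h7 2
    unfold g2L_w
    have h11 : 5 / s ^ 2 = 5 * s⁻¹ ^ 2 := by
      rw [inv_pow]
      rfl
    rw [h11, zero_mul, zero_add]
    have h12 := mul_le_mul_of_nonneg_left h9 (by linarith : (0 : ℝ) ≤ 2 * (b - a))
    linarith
  have hc3 : Continuous fun x => (g2L_r p s x)⁻¹ ^ 3 := (g2L_inv_cont hs).pow 3
  have h3 : ∫ x in a..b, g2L_w u v 0 5 (2 * (b - a)) x ≤
      ∫ x in a..b, (5 / s ^ 2 + 2 * (b - a) * (g2L_r p s x)⁻¹ ^ 3) :=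
    intervalIntegral.integral_mono_on hab.le
      ((g2L_w_cont hv 0 5 (2 * (b - a))).intervalIntegrable _ _)
      ((continuous_const.add (continuous_const.mul hc3)).intervalIntegrable _ _) hb
  have h33 : (∫ x in a..b, (5 / s ^ 2 + 2 * (b - a) * (g2L_r p s x)⁻¹ ^ 3)) =
      (b - a) * (5 / s ^ 2) + 2 * (b - a) * ∫ x in a..b, (g2L_r p s x)⁻¹ ^ 3 := by
    have i1 : IntervalIntegrable (fun _ : ℝ => 5 / s ^ 2) volume a b :=
      continuous_const.intervalIntegrable _ _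
    have i2 : IntervalIntegrable (fun x : ℝ => 2 * (b - a) * (g2L_r p s x)⁻¹ ^ 3) volume a b :=
      (continuous_const.mul hc3).intervalIntegrable _ _
    rw [intervalIntegral.integral_add i1 i2, intervalIntegral.integral_const,
      intervalIntegral.integral_const_mul, smul_eq_mul]
  rw [h33] at h3
  have h4 := g2L_I3 (a := a) (b := b) (p := p) hs
  have h5 := mul_le_mul_of_nonneg_left h4 (by linarith : (0 : ℝ) ≤ 2 * (b - a))
  have h6 : ∫ x in a..b, g2L_w u v 0 5 (2 * (b - a)) x ≤ 9 * (b - a) / s ^ 2 := by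
    have : 9 * (b - a) / s ^ 2 = (b - a) * (5 / s ^ 2) + 2 * (b - a) * (2 / s ^ 2) := by ring
    rw [this]
    linarith
  have h7 : δ * (b - a) / (2 * s ^ 2) ≤ δ * (b - a) / g2L_r u v e ^ 2 :=
    div_le_div_of_nonneg_left (by positivity) (by positivity) he
  have h8 := mul_le_mul_of_nonneg_left h6 hε0
  have h9 : δ * (b - a) / (2 * s ^ 2) ≤ ε * (9 * (b - a) / s ^ 2) := by linarith
  have h10 : ε * (9 * (b - a) / s ^ 2) = 18 * ε * (b - a) / (2 * s ^ 2) := by
    field_simp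
    ring
  rw [h10, div_le_div_iff_of_pos_right (by positivity)] at h9
  nlinarith

theorem g2L_pt {d m y ρ h : ℝ} (hρ : 0 < ρ) (hd : |d| ≤ 5) (hm : |m| ≤ h) (hy : |y| ≤ ρ) :
    |(d * ρ ^ 2 - m * (2 * y)) / (ρ ^ 2) ^ 2| ≤ 5 * ρ⁻¹ ^ 2 + 2 * h * ρ⁻¹ ^ 3 := by
  have h1 : 5 * ρ⁻¹ ^ 2 + 2 * h * ρ⁻¹ ^ 3 = (5 * ρ ^ 2 + 2 * h * ρ) / (ρ ^ 2) ^ 2 := by
    field_simp
  rw [h1, abs_div, abs_of_pos (by positivity : 0 < (ρ ^ 2) ^ 2)]
  apply div_le_div_of_nonneg_right _ (by positivity)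
  have h2 : |d * ρ ^ 2| ≤ 5 * ρ ^ 2 := by
    rw [abs_mul, abs_of_pos (by positivity : 0 < ρ ^ 2)]
    exact mul_le_mul_of_nonneg_right hd (by positivity)
  have h3 : |m * (2 * y)| ≤ 2 * h * ρ := by
    rw [abs_mul, abs_mul, abs_of_pos (by norm_num : (0 : ℝ) < 2)]
    have h4 : |m| * |y| ≤ h * ρ :=
      mul_le_mul hm hy (abs_nonneg y) ((abs_nonneg m).trans hm)
    linarith
  calc |d * ρ ^ 2 - m * (2 * y)| ≤ |d * ρ ^ 2| + |m * (2 * y)| := abs_sub _ _
    _ ≤ _ := add_le_add h2 h3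

theorem g2L_pt2 {x y v ρ : ℝ} (hρ : 0 < ρ) (hx : |x| ≤ 1) (hv : 0 < v) (hvρ : v ≤ ρ)
    (hy : |y| ≤ ρ) (hsq : ρ ^ 2 = y ^ 2 + v ^ 2) :
    ((-(2 * x) * y + (1 - x ^ 2)) * ρ ^ 2 - ((1 - x ^ 2) * y) * (2 * y)) / (ρ ^ 2) ^ 2 ≤
      2 * ρ⁻¹ + v * ρ⁻¹ ^ 3 := by
  have h1 : 2 * ρ⁻¹ + v * ρ⁻¹ ^ 3 = (2 * ρ * ρ ^ 2 + v * ρ) / (ρ ^ 2) ^ 2 := by
    field_simp
  rw [h1]
  apply div_le_div_of_nonneg_right _ (by positivity)
  have h2 : -(2 * x) * y ≤ 2 * ρ := by
    have h3 : |x| * |y| ≤ 1 * ρ := mul_le_mul hx hy (abs_nonneg y) (by norm_num)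
    have h4 := neg_abs_le (x * y)
    rw [abs_mul] at h4
    linarith
  have h5 : (-(2 * x) * y) * ρ ^ 2 ≤ 2 * ρ * ρ ^ 2 :=
    mul_le_mul_of_nonneg_right h2 (by positivity)
  have h6 : (1 - x ^ 2) * (v ^ 2 - y ^ 2) ≤ v * ρ := by
    have h7 : x ^ 2 ≤ 1 := by
      rw [← sq_abs]
      have := abs_nonneg x
      nlinarith
    have h8 : v ^ 2 ≤ v * ρ := by nlinarith
    have h9 : (1 - x ^ 2) * v ^ 2 ≤ 1 * v ^ 2 :=
      mul_le_mul_of_nonneg_right (by linarith [sq_nonneg x]) (sq_nonneg v)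
    have h10 : 0 ≤ (1 - x ^ 2) * y ^ 2 := mul_nonneg (by linarith) (sq_nonneg y)
    linarith
  have h11 : (1 - x ^ 2) * ρ ^ 2 - ((1 - x ^ 2) * y) * (2 * y) =
      (1 - x ^ 2) * (v ^ 2 - y ^ 2) := by
    rw [hsq]
    ring
  linarith

/-- the integrand of the identity -/
def g2L_F (u v : ℝ) (l : ℝ[X]) (x : ℝ) : ℝ :=
  (((1 - X ^ 2) * l).derivative.eval x * (quad u v).eval x -
    ((1 - x ^ 2) * l.eval x) * (quad u v).derivative.eval x) / (quad u v).eval x ^ 2

theorem g2L_F_cont {u v : ℝ} (hv : 0 < v) (l : ℝ[X]) : Continuous (g2L_F u v l) := by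
  unfold g2L_F
  refine Continuous.div ?_ ((Polynomial.continuous _).pow 2) ?_
  · refine ((Polynomial.continuous _).mul (Polynomial.continuous _)).sub ?_
    refine (Continuous.mul ?_ (Polynomial.continuous _)).mul (Polynomial.continuous _)
    fun_prop
  · intro x
    rw [Pool.Agent.Helper40.AS.quad_eval]
    positivity

theorem g2L_quad (u v x : ℝ) : (quad u v).eval x = g2L_r u v x ^ 2 := by
  rw [g2L_sq, Pool.Agent.Helper40.AS.quad_eval]

theorem g2L_d1 (c x : ℝ) : ((1 - X ^ 2 : ℝ[X]) * (X - C c)).derivative.eval x =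
    -(2 * x) * (x - c) + (1 - x ^ 2) := by
  simp only [derivative_mul, derivative_sub, derivative_one, derivative_X_pow, derivative_X,
    derivative_C, eval_add, eval_mul, eval_sub, eval_one, eval_X, eval_C, eval_pow, eval_zero,
    Nat.cast_ofNat, Nat.add_one_sub_one, pow_one]
  ring

theorem g2L_d2 (c x : ℝ) : ((1 - X ^ 2 : ℝ[X]) * (C c - X)).derivative.eval x =
    -(-(2 * x) * (x - c) + (1 - x ^ 2)) := by
  have h : (1 - X ^ 2 : ℝ[X]) * (C c - X) = -((1 - X ^ 2) * (X - C c)) := by ring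
  rw [h, derivative_neg, eval_neg, g2L_d1]

/-- the identity -/
theorem g2L_id (hG0 : G0) {n : ℕ} {a b : ℝ} {P : ℝ[X]} {z : ℂ} (hn : 1 ≤ n) (ha : -1 ≤ a)
    (hab : a < b) (hb : b ≤ 1) (hE : Ext n a b P) (hz : aeval z P.derivative = 0)
    (hz0 : 0 < z.im) (l : ℝ[X]) (hl : l.natDegree ≤ 1) :
    ((1 - b ^ 2) * l.eval b / g2L_r z.re z.im b ^ 2) * √(1 + P.derivative.eval b ^ 2) -
      ((1 - a ^ 2) * l.eval a / g2L_r z.re z.im a ^ 2) * √(1 + P.derivative.eval a ^ 2) =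
    ∫ x in a..b, g2L_F z.re z.im l x / √(1 + P.derivative.eval x ^ 2) := by
  obtain ⟨R, hR⟩ := Pool.Agent.Helper40.AS.quad_dvd hz hz0.ne'
  have hpos : ∀ x : ℝ, 0 < (quad z.re z.im).eval x := by
    intro x
    rw [Pool.Agent.Helper40.AS.quad_eval]
    positivity
  have hnat : P.natDegree ≤ n := natDegree_le_iff_degree_le.2 hE.deg
  have h := hG0 n a b P (quad z.re z.im) R l hn ha hab hb hE hR ?_ ?_ ?_
  · rw [g2L_quad, g2L_quad] at h
    exact h
  · intro x hx hx1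
    have h1 := Pool.Agent.Helper40.AS.contact_int hE.bdd hx hx1
    rw [hR, eval_mul] at h1
    rcases mul_eq_zero.1 h1 with h2 | h2
    · exact absurd h2 (hpos x).ne'
    · exact h2
  · rw [Pool.Agent.Helper40.AS.quad_deg]
    omega
  · intro x _
    exact (hpos x).ne'

theorem g2L_rclose {u v p s x : ℝ} (_hv : 0 < v) (h : (x - p) ^ 2 + s ^ 2 ≤ (x - u) ^ 2 + v ^ 2) :
    g2L_r p s x ≤ g2L_r u v x := by
  unfold g2L_r
  exact Real.sqrt_le_sqrt h

theorem g2L_right (hG0 : G0) {n : ℕ} {a b δ ε : ℝ} {P : ℝ[X]} {z : ℂ} (hn : 1 ≤ n)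
    (ha : -1 ≤ a) (hab : a < b) (hb : b ≤ 1) (hE : Ext n a b P)
    (hz : aeval z P.derivative = 0) (hz0 : 0 < z.im) (hδ : 0 < δ) (hδb : δ ≤ 1 - b ^ 2)
    (hε0 : 0 ≤ ε) (hε : 18 * ε < δ)
    (hW : ∀ p q r : ℝ, 0 ≤ p → 0 ≤ q → 0 ≤ r →
      (∫ x in a..b, g2L_w z.re z.im p q r x / √(1 + P.derivative.eval x ^ 2)) ≤
        ε * ∫ x in a..b, g2L_w z.re z.im p q r x) : z.im < b - z.re := by
  by_contra hcon
  push Not at hcon
  have hh : 0 < b - a := by linarith
  have hid := g2L_id hG0 hn ha hab hb hE hz hz0 (X - C a) (natDegree_X_sub_C_le a)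
  have hrb := g2L_pos (u := z.re) hz0 b
  have hrbs := g2L_sq z.re z.im b
  have hΦ : 1 ≤ √(1 + P.derivative.eval b ^ 2) := by
    rw [Real.one_le_sqrt]
    nlinarith [sq_nonneg (P.derivative.eval b)]
  have hE1 : δ * (b - a) / g2L_r z.re z.im b ^ 2 ≤
      ∫ x in a..b, g2L_F z.re z.im (X - C a) x / √(1 + P.derivative.eval x ^ 2) := by
    rw [← hid]
    simp only [eval_sub, eval_X, eval_C, sub_self, mul_zero, zero_div, zero_mul, sub_zero]
    have h1 : δ * (b - a) / g2L_r z.re z.im b ^ 2 ≤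
        (1 - b ^ 2) * (b - a) / g2L_r z.re z.im b ^ 2 :=
      div_le_div_of_nonneg_right (mul_le_mul_of_nonneg_right hδb hh.le) (by positivity)
    have h2 : 0 < δ * (b - a) / g2L_r z.re z.im b ^ 2 := by positivity
    exact h1.trans (le_mul_of_one_le_right (h2.le.trans h1) hΦ)
  have hFw : ∀ x ∈ Icc a b, g2L_F z.re z.im (X - C a) x ≤
      g2L_w z.re z.im 0 5 (2 * (b - a)) x := by
    intro x hx
    have hx1 : |x| ≤ 1 := abs_le.2 ⟨by linarith [hx.1], by linarith [hx.2]⟩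
    have hx2 : x ^ 2 ≤ 1 := by
      rw [← sq_abs]
      nlinarith [abs_nonneg x]
    have hxa : 0 ≤ x - a := by linarith [hx.1]
    have hxb : x - a ≤ b - a := by linarith [hx.2]
    have hr := g2L_pos (u := z.re) hz0 x
    have h1 := g2L_pt (d := -(2 * x) * (x - a) + (1 - x ^ 2)) (m := (1 - x ^ 2) * (x - a))
      (y := x - z.re) (h := b - a) hr (by
        have h2 := abs_le.1 hx1
        rw [abs_le]
        constructor <;> nlinarith) (by
        rw [abs_of_nonneg (mul_nonneg (by linarith) hxa)]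
        nlinarith [sq_nonneg x]) (g2L_ge1 _ _ _)
    unfold g2L_F g2L_w
    rw [g2L_d1, g2L_quad, Pool.Agent.Helper40.AS.quad_der]
    simp only [eval_sub, eval_X, eval_C]
    refine (le_abs_self _).trans (h1.trans (le_of_eq ?_))
    ring
  rcases le_or_gt b z.re with h | h
  · refine g2L_end (p := b) (s := g2L_r z.re z.im b) (e := b) hab hz0 (g2L_F_cont hz0 _) hε0 hW
      hFw hrb ?_ ?_ hδ hE1 hε
    · intro x hx
      apply g2L_rclose hz0
      rw [hrbs]
      nlinarith [mul_nonneg (by linarith [hx.2] : 0 ≤ b - x) (by linarith : 0 ≤ z.re - b)]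
    · nlinarith [sq_nonneg (g2L_r z.re z.im b)]
  · refine g2L_end (p := z.re) (s := z.im) (e := b) hab hz0 (g2L_F_cont hz0 _) hε0 hW
      hFw hz0 (fun x _ => le_rfl) ?_ hδ hE1 hε
    rw [hrbs]
    nlinarith

theorem g2L_left (hG0 : G0) {n : ℕ} {a b δ ε : ℝ} {P : ℝ[X]} {z : ℂ} (hn : 1 ≤ n)
    (ha : -1 ≤ a) (hab : a < b) (hb : b ≤ 1) (hE : Ext n a b P)
    (hz : aeval z P.derivative = 0) (hz0 : 0 < z.im) (hδ : 0 < δ) (hδa : δ ≤ 1 - a ^ 2)
    (hε0 : 0 ≤ ε) (hε : 18 * ε < δ)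
    (hW : ∀ p q r : ℝ, 0 ≤ p → 0 ≤ q → 0 ≤ r →
      (∫ x in a..b, g2L_w z.re z.im p q r x / √(1 + P.derivative.eval x ^ 2)) ≤
        ε * ∫ x in a..b, g2L_w z.re z.im p q r x) : z.im < z.re - a := by
  by_contra hcon
  push Not at hcon
  have hh : 0 < b - a := by linarith
  have hid := g2L_id hG0 hn ha hab hb hE hz hz0 (X - C b) (natDegree_X_sub_C_le b)
  have hra := g2L_pos (u := z.re) hz0 a
  have hras := g2L_sq z.re z.im a
  have hΦ : 1 ≤ √(1 + P.derivative.eval a ^ 2) := by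
    rw [Real.one_le_sqrt]
    nlinarith [sq_nonneg (P.derivative.eval a)]
  have hE1 : δ * (b - a) / g2L_r z.re z.im a ^ 2 ≤
      ∫ x in a..b, g2L_F z.re z.im (X - C b) x / √(1 + P.derivative.eval x ^ 2) := by
    rw [← hid]
    simp only [eval_sub, eval_X, eval_C, sub_self, mul_zero, zero_div, zero_mul, zero_sub]
    have h1 : δ * (b - a) / g2L_r z.re z.im a ^ 2 ≤
        (1 - a ^ 2) * (b - a) / g2L_r z.re z.im a ^ 2 :=
      div_le_div_of_nonneg_right (mul_le_mul_of_nonneg_right hδa hh.le) (by positivity)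
    have h2 : 0 < δ * (b - a) / g2L_r z.re z.im a ^ 2 := by positivity
    have h3 : -((1 - a ^ 2) * (a - b) / g2L_r z.re z.im a ^ 2 *
        √(1 + P.derivative.eval a ^ 2)) = (1 - a ^ 2) * (b - a) / g2L_r z.re z.im a ^ 2 *
        √(1 + P.derivative.eval a ^ 2) := by ring
    rw [h3]
    exact h1.trans (le_mul_of_one_le_right (h2.le.trans h1) hΦ)
  have hFw : ∀ x ∈ Icc a b, g2L_F z.re z.im (X - C b) x ≤
      g2L_w z.re z.im 0 5 (2 * (b - a)) x := by
    intro x hx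
    have hx1 : |x| ≤ 1 := abs_le.2 ⟨by linarith [hx.1], by linarith [hx.2]⟩
    have hx2 : x ^ 2 ≤ 1 := by
      rw [← sq_abs]
      nlinarith [abs_nonneg x]
    have hxa : x - b ≤ 0 := by linarith [hx.2]
    have hxb : b - x ≤ b - a := by linarith [hx.1]
    have hr := g2L_pos (u := z.re) hz0 x
    have h1 := g2L_pt (d := -(2 * x) * (x - b) + (1 - x ^ 2)) (m := (1 - x ^ 2) * (x - b))
      (y := x - z.re) (h := b - a) hr (by
        have h2 := abs_le.1 hx1
        rw [abs_le]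
        constructor <;> nlinarith) (by
        rw [abs_mul, abs_of_nonneg (by linarith : 0 ≤ 1 - x ^ 2), abs_of_nonpos hxa]
        nlinarith [sq_nonneg x]) (g2L_ge1 _ _ _)
    unfold g2L_F g2L_w
    rw [g2L_d1, g2L_quad, Pool.Agent.Helper40.AS.quad_der]
    simp only [eval_sub, eval_X, eval_C]
    refine (le_abs_self _).trans (h1.trans (le_of_eq ?_))
    ring
  rcases le_or_gt z.re a with h | h
  · refine g2L_end (p := a) (s := g2L_r z.re z.im a) (e := a) hab hz0 (g2L_F_cont hz0 _) hε0 hW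
      hFw hra ?_ ?_ hδ hE1 hε
    · intro x hx
      apply g2L_rclose hz0
      rw [hras]
      nlinarith [mul_nonneg (by linarith [hx.1] : 0 ≤ x - a) (by linarith : 0 ≤ a - z.re)]
    · nlinarith [sq_nonneg (g2L_r z.re z.im a)]
  · refine g2L_end (p := z.re) (s := z.im) (e := a) hab hz0 (g2L_F_cont hz0 _) hε0 hW
      hFw hz0 (fun x _ => le_rfl) ?_ hδ hE1 hε
    rw [hras]
    nlinarith

/-- the estimate in the middle of the window -/
theorem g2L_mid (hG0 : G0) {n : ℕ} {a b δ ε : ℝ} {P : ℝ[X]} {z : ℂ} (hn : 1 ≤ n)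
    (ha : -1 ≤ a) (hab : a < b) (hb : b ≤ 1) (hE : Ext n a b P)
    (hz : aeval z P.derivative = 0) (hz0 : 0 < z.im) (hδ : 0 < δ) (hδa : δ ≤ 1 - a ^ 2)
    (hδb : δ ≤ 1 - b ^ 2) (hε0 : 0 ≤ ε)
    (hW : ∀ p q r : ℝ, 0 ≤ p → 0 ≤ q → 0 ≤ r →
      (∫ x in a..b, g2L_w z.re z.im p q r x / √(1 + P.derivative.eval x ^ 2)) ≤
        ε * ∫ x in a..b, g2L_w z.re z.im p q r x)
    (hr1 : z.im < b - z.re) (hr2 : z.im < z.re - a) :
    δ * √(1 + P.derivative.eval b ^ 2) ≤
      2 * (b - z.re) * (ε * (4 * Real.log (1 + 4 / z.im) + 2 / z.im)) ∧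
    δ * √(1 + P.derivative.eval a ^ 2) ≤
      2 * (z.re - a) * (ε * (4 * Real.log (1 + 4 / z.im) + 2 / z.im)) := by
  have hh : 0 < b - a := by linarith
  have hid := g2L_id hG0 hn ha hab hb hE hz hz0 (X - C z.re) (natDegree_X_sub_C_le z.re)
  simp only [eval_sub, eval_X, eval_C] at hid
  have hra := g2L_pos (u := z.re) hz0 a
  have hras := g2L_sq z.re z.im a
  have hrb := g2L_pos (u := z.re) hz0 b
  have hrbs := g2L_sq z.re z.im b
  have hFw : ∀ x ∈ Icc a b, g2L_F z.re z.im (X - C z.re) x ≤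
      g2L_w z.re z.im 2 0 z.im x := by
    intro x hx
    have hx1 : |x| ≤ 1 := abs_le.2 ⟨by linarith [hx.1], by linarith [hx.2]⟩
    have h1 := g2L_pt2 (x := x) (y := x - z.re) (v := z.im) (g2L_pos (u := z.re) hz0 x) hx1 hz0
      (g2L_ge2 hz0 x) (g2L_ge1 _ _ _) (g2L_sq _ _ _)
    unfold g2L_F g2L_w
    rw [g2L_d1, g2L_quad, Pool.Agent.Helper40.AS.quad_der]
    simp only [eval_sub, eval_X, eval_C]
    refine h1.trans (le_of_eq ?_)
    ring
  have h1 := g2L_mono (P := P) hab.le (g2L_F_cont hz0 _) (g2L_w_cont hz0 2 0 z.im) hFw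
  have h2 := hW 2 0 z.im (by norm_num) le_rfl hz0.le
  have h3 : ∫ x in a..b, g2L_w z.re z.im 2 0 z.im x ≤
      4 * Real.log (1 + 4 / z.im) + 2 / z.im := by
    have e1 : (∫ x in a..b, g2L_w z.re z.im 2 0 z.im x) =
        2 * (∫ x in a..b, (g2L_r z.re z.im x)⁻¹) +
          z.im * ∫ x in a..b, (g2L_r z.re z.im x)⁻¹ ^ 3 := by
      have i1 : IntervalIntegrable (fun x : ℝ => 2 * (g2L_r z.re z.im x)⁻¹) volume a b :=
        (continuous_const.mul (g2L_inv_cont hz0)).intervalIntegrable _ _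
      have i2 : IntervalIntegrable (fun x : ℝ => z.im * (g2L_r z.re z.im x)⁻¹ ^ 3)
          volume a b :=
        (continuous_const.mul ((g2L_inv_cont hz0).pow 3)).intervalIntegrable _ _
      rw [← intervalIntegral.integral_const_mul, ← intervalIntegral.integral_const_mul,
        ← intervalIntegral.integral_add i1 i2]
      apply intervalIntegral.integral_congr
      intro x _
      simp only [g2L_w]
      ring
    have e2 := g2L_I1 (a := a) (b := b) (u := z.re) (B := 2) hz0 (by norm_num)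
      (by linarith) (by linarith)
    have e3 := g2L_I3 (a := a) (b := b) (p := z.re) hz0
    have e4 : z.im * (2 / z.im ^ 2) = 2 / z.im := by field_simp
    have e5 := mul_le_mul_of_nonneg_left e3 hz0.le
    rw [e1]
    have e6 : (2 : ℝ) * 2 = 4 := by norm_num
    rw [e6] at e2
    linarith
  have h4 := mul_le_mul_of_nonneg_left h3 hε0
  set T : ℝ := ε * (4 * Real.log (1 + 4 / z.im) + 2 / z.im) with hT
  set Φb := √(1 + P.derivative.eval b ^ 2) with hΦb
  set Φa := √(1 + P.derivative.eval a ^ 2) with hΦa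
  have hΦb0 : 0 ≤ Φb := Real.sqrt_nonneg _
  have hΦa0 : 0 ≤ Φa := Real.sqrt_nonneg _
  have k1 : 0 < b - z.re := by linarith
  have k2 : 0 < z.re - a := by linarith
  have q1 : δ * Φb / (2 * (b - z.re)) ≤
      (1 - b ^ 2) * (b - z.re) / g2L_r z.re z.im b ^ 2 * Φb := by
    have e1 : g2L_r z.re z.im b ^ 2 ≤ 2 * (b - z.re) ^ 2 := by
      rw [hrbs]
      nlinarith
    have e2 : δ / (2 * (b - z.re)) ≤ (1 - b ^ 2) * (b - z.re) / g2L_r z.re z.im b ^ 2 := by
      rw [div_le_div_iff₀ (by positivity) (by positivity)]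
      calc δ * g2L_r z.re z.im b ^ 2 ≤ δ * (2 * (b - z.re) ^ 2) :=
            mul_le_mul_of_nonneg_left e1 hδ.le
        _ ≤ (1 - b ^ 2) * (2 * (b - z.re) ^ 2) :=
            mul_le_mul_of_nonneg_right hδb (by positivity)
        _ = _ := by ring
    calc δ * Φb / (2 * (b - z.re)) = δ / (2 * (b - z.re)) * Φb := by ring
      _ ≤ _ := mul_le_mul_of_nonneg_right e2 hΦb0
  have q2 : δ * Φa / (2 * (z.re - a)) ≤
      -((1 - a ^ 2) * (a - z.re) / g2L_r z.re z.im a ^ 2 * Φa) := by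
    have e1 : g2L_r z.re z.im a ^ 2 ≤ 2 * (z.re - a) ^ 2 := by
      rw [hras]
      nlinarith
    have e2 : δ / (2 * (z.re - a)) ≤ (1 - a ^ 2) * (z.re - a) / g2L_r z.re z.im a ^ 2 := by
      rw [div_le_div_iff₀ (by positivity) (by positivity)]
      calc δ * g2L_r z.re z.im a ^ 2 ≤ δ * (2 * (z.re - a) ^ 2) :=
            mul_le_mul_of_nonneg_left e1 hδ.le
        _ ≤ (1 - a ^ 2) * (2 * (z.re - a) ^ 2) :=
            mul_le_mul_of_nonneg_right hδa (by positivity)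
        _ = _ := by ring
    calc δ * Φa / (2 * (z.re - a)) = δ / (2 * (z.re - a)) * Φa := by ring
      _ ≤ (1 - a ^ 2) * (z.re - a) / g2L_r z.re z.im a ^ 2 * Φa :=
          mul_le_mul_of_nonneg_right e2 hΦa0
      _ = _ := by ring
  have q3 : 0 ≤ δ * Φb / (2 * (b - z.re)) := by positivity
  have q4 : 0 ≤ δ * Φa / (2 * (z.re - a)) := by positivity
  constructor
  · have e1 : δ * Φb / (2 * (b - z.re)) ≤ T := by linarith
    rw [div_le_iff₀ (by positivity)] at e1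
    linarith
  · have e1 : δ * Φa / (2 * (z.re - a)) ≤ T := by linarith
    rw [div_le_iff₀ (by positivity)] at e1
    linarith

/-- logarithms are small -/
theorem g2L_log (C ε : ℝ) (hε : 0 < ε) :
    ∃ n0 : ℕ, ∀ n : ℕ, n0 ≤ n → C * (1 + Real.log n) ^ 2 ≤ ε * (n : ℝ) := by
  have hC : 0 < |C| + 1 := by positivity
  have h1 := (Real.isLittleO_pow_log_id_atTop (n := 2)).def
    (c := ε / (4 * (|C| + 1))) (by positivity)
  rw [Filter.eventually_atTop] at h1
  obtain ⟨x0, hx0⟩ := h1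
  obtain ⟨n1, hn1⟩ := exists_nat_ge x0
  refine ⟨max n1 3, fun n hn => ?_⟩
  have a1 : n1 ≤ n := by omega
  have a3 : 3 ≤ n := by omega
  have b1 : (n1 : ℝ) ≤ n := by exact_mod_cast a1
  have b3 : (3 : ℝ) ≤ n := by exact_mod_cast a3
  have hl : 1 ≤ Real.log n := by
    rw [Real.le_log_iff_exp_le (by linarith)]
    linarith [Real.exp_one_lt_d9]
  have h2 := hx0 n (le_trans hn1 b1)
  simp only [id, Real.norm_eq_abs] at h2
  rw [abs_of_nonneg (by positivity : 0 ≤ Real.log n ^ 2),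
    abs_of_nonneg (by linarith : (0 : ℝ) ≤ n)] at h2
  have h3 : (1 + Real.log n) ^ 2 ≤ 4 * Real.log n ^ 2 := by nlinarith
  calc C * (1 + Real.log n) ^ 2 ≤ (|C| + 1) * (1 + Real.log n) ^ 2 := by
        apply mul_le_mul_of_nonneg_right _ (by positivity)
        linarith [le_abs_self C]
    _ ≤ (|C| + 1) * (4 * Real.log n ^ 2) := mul_le_mul_of_nonneg_left h3 hC.le
    _ ≤ (|C| + 1) * (4 * (ε / (4 * (|C| + 1)) * n)) := by
        apply mul_le_mul_of_nonneg_left _ hC.le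
        linarith
    _ = ε * n := by field_simp

theorem g2L (hA2 : A2) (hE6L : E6L) (hG0 : G0) (hG1u : G1u) (hG2aL : G2aL) : G2L := by
  intro δ hδ hδ4
  obtain ⟨c, hc, hcu⟩ := hG1u
  obtain ⟨K, hK, n1, h1⟩ := hG2aL δ hδ hδ4
  obtain ⟨n2, h2⟩ := hE6L δ hδ hδ4
  have hc0 : 0 < c * δ := by positivity
  set c0 : ℝ := c * δ with hc0def
  set A : ℝ := (1 + 1 / c0) ^ 3 with hA
  have hA1 : 1 ≤ A := by
    apply one_le_pow₀
    have : 0 < 1 / c0 := by positivity
    linarith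
  have hA0 : 0 < A := by linarith
  set C1 : ℝ := 4 * (1 + Real.log (1 + 4 / c0)) with hC1
  have hlc : 0 ≤ Real.log (1 + 4 / c0) := by
    apply Real.log_nonneg
    have : 0 < 4 / c0 := by positivity
    linarith
  have hC10 : 0 < C1 := by positivity
  set C2 : ℝ := 1 + 2 * (K * A) / c0 with hC2
  have hC20 : 0 < C2 := by positivity
  obtain ⟨n3, h3⟩ := g2L_log (K * A * (C1 + 20)) (δ / 8) (by positivity)
  set K' : ℝ := 16 * (K * A) / δ + 4 * C2 / δ with hK'
  have hK'0 : 0 < K' := by positivity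
  refine ⟨K', hK'0, max (max n1 n2) (max n3 1), ?_⟩
  intro n hn a b P z hM hE hz hz0
  have k1 : n1 ≤ n := by omega
  have k2 : n2 ≤ n := by omega
  have k3 : n3 ≤ n := by omega
  have k4 : 1 ≤ n := by omega
  have hn1 : (1 : ℝ) ≤ n := by exact_mod_cast k4
  have hn0 : (0 : ℝ) < n := by linarith
  have hlog : 0 ≤ Real.log n := Real.log_nonneg hn1
  obtain ⟨ha, hab, hb⟩ := hM
  have hnat : P.natDegree ≤ n := natDegree_le_iff_degree_le.2 hE.deg
  have hND := h2 n k2 a b P ⟨ha, hab, hb⟩ hE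
  set Ln : ℝ := 1 + Real.log n with hLn
  have hLn1 : 1 ≤ Ln := by linarith
  have hLn0 : 0 < Ln := by linarith
  set ε : ℝ := K * A * Ln / n with hε
  have hε0 : 0 ≤ ε := by positivity
  have hδa : δ ≤ 1 - a ^ 2 := by nlinarith
  have hδb : δ ≤ 1 - b ^ 2 := by nlinarith
  -- distances
  have hdist : ∀ x ∈ Icc a b, c0 / n ≤ g2L_r z.re z.im x := by
    intro x hx
    have hx1 : -1 ≤ x := by linarith [hx.1]
    have hx2 : x ≤ 1 := by linarith [hx.2]
    have h4 := hcu n a b P k4 (by linarith) hab (by linarith) hnat hE.bdd hND z hz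
      (Or.inl hz0.ne') (arccos x) ⟨arccos_le_arccos hx.2, arccos_le_arccos hx.1⟩
    rw [cos_arccos hx1 hx2, g2L_norm] at h4
    refine le_trans ?_ h4
    apply div_le_div_of_nonneg_right _ hn0.le
    rw [hc0def]
    apply mul_le_mul_of_nonneg_left _ hc.le
    have h5 : δ ≤ sin (arccos x) := by
      rw [sin_arccos]
      apply Real.le_sqrt_of_sq_le
      nlinarith [hx.1, hx.2]
    have h6 : 0 ≤ 1 / (n : ℝ) := by positivity
    linarith
  have hW : ∀ p q r : ℝ, 0 ≤ p → 0 ≤ q → 0 ≤ r →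
      (∫ x in a..b, g2L_w z.re z.im p q r x / √(1 + P.derivative.eval x ^ 2)) ≤
        ε * ∫ x in a..b, g2L_w z.re z.im p q r x := by
    intro p q r hp hq hr
    refine h1 n k1 a b A P (g2L_w z.re z.im p q r) ⟨ha, hab, hb⟩ hE
      (g2L_w_cont hz0 p q r).continuousOn (fun x _ => g2L_w_nonneg hz0 hp hq hr x) hA1 ?_
    intro x hx y _ hxy
    exact g2L_w_slow hz0 hc0 hp hq hr hn0 (hdist x hx) hxy
  -- smallness
  have hsm := h3 n k3
  have hL2 : Ln ≤ Ln ^ 2 := by nlinarith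
  have hsm1 : ε * (C1 * Ln) + 20 * ε ≤ δ / 8 := by
    have e1 : ε * (C1 * Ln) + 20 * ε = K * A * (C1 * Ln ^ 2 + 20 * Ln) / n := by
      rw [hε]
      field_simp
    rw [e1, div_le_iff₀ hn0]
    have e2 : K * A * (C1 * Ln ^ 2 + 20 * Ln) ≤ K * A * ((C1 + 20) * Ln ^ 2) := by
      apply mul_le_mul_of_nonneg_left _ (by positivity)
      linarith
    linarith
  have hεs : 18 * ε < δ := by
    have : 0 ≤ ε * (C1 * Ln) := by positivity
    linarith
  have hR := g2L_right hG0 k4 (by linarith) hab (by linarith) hE hz hz0 hδ hδb hε0 hεs hW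
  have hL := g2L_left hG0 k4 (by linarith) hab (by linarith) hE hz hz0 hδ hδa hε0 hεs hW
  obtain ⟨hm1, hm2⟩ := g2L_mid hG0 k4 (by linarith) hab (by linarith) hE hz hz0 hδ hδa hδb hε0
    hW hR hL
  -- the size of the imaginary part
  have hv := hdist z.re ⟨by linarith, by linarith⟩
  have hvr : g2L_r z.re z.im z.re = z.im := by
    rw [g2L_r, sub_self, zero_pow two_ne_zero, zero_add, Real.sqrt_sq hz0.le]
  rw [hvr] at hv
  have hiv : 1 / z.im ≤ n / c0 := by
    rw [div_le_div_iff₀ hz0 hc0]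
    rw [div_le_iff₀ hn0] at hv
    linarith
  have hlogv : 4 * Real.log (1 + 4 / z.im) ≤ C1 * Ln := by
    have e1 : 1 + 4 / z.im ≤ (1 + 4 / c0) * n := by
      have e2 : 4 / z.im ≤ 4 / c0 * n := by
        calc 4 / z.im = 4 * (1 / z.im) := by ring
          _ ≤ 4 * (n / c0) := by linarith
          _ = _ := by ring
      have e3 : (1 + 4 / c0) * n = n + 4 / c0 * n := by ring
      linarith
    have e4 : Real.log (1 + 4 / z.im) ≤ Real.log (1 + 4 / c0) + Real.log n := by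
      rw [← Real.log_mul (by positivity) (by positivity)]
      exact Real.log_le_log (by positivity) e1
    have e5 : Real.log (1 + 4 / c0) ≤ Real.log (1 + 4 / c0) * Ln :=
      le_mul_of_one_le_right hlc hLn1
    have e6 : C1 * Ln = 4 * Ln + 4 * (Real.log (1 + 4 / c0) * Ln) := by
      rw [hC1]
      ring
    linarith
  have hT1 : ε * (4 * Real.log (1 + 4 / z.im) + 2 / z.im) ≤ δ / 8 + 2 * ε / z.im := by
    have e1 := mul_le_mul_of_nonneg_left hlogv hε0
    have e2 : ε * (4 * Real.log (1 + 4 / z.im) + 2 / z.im) =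
        ε * (4 * Real.log (1 + 4 / z.im)) + 2 * ε / z.im := by ring
    linarith
  have hT2 : 2 * ε / z.im ≤ 2 * (K * A) / c0 * Ln := by
    calc 2 * ε / z.im = 2 * ε * (1 / z.im) := by ring
      _ ≤ 2 * ε * (n / c0) := mul_le_mul_of_nonneg_left hiv (by positivity)
      _ = 2 * (K * A) / c0 * Ln := by
          rw [hε]
          field_simp
  have hT3 : ε * (4 * Real.log (1 + 4 / z.im) + 2 / z.im) ≤ C2 * Ln := by
    have : C2 * Ln = Ln + 2 * (K * A) / c0 * Ln := by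
      rw [hC2]
      ring
    linarith
  set T : ℝ := ε * (4 * Real.log (1 + 4 / z.im) + 2 / z.im) with hT
  have hT0 : 0 ≤ T := by
    have : 0 ≤ Real.log (1 + 4 / z.im) := by
      apply Real.log_nonneg
      have : 0 < 4 / z.im := by positivity
      linarith
    positivity
  have hb1 : b - z.re ≤ 2 := by linarith
  have ha1 : z.re - a ≤ 2 := by linarith
  have hΦb : 1 ≤ √(1 + P.derivative.eval b ^ 2) := by
    rw [Real.one_le_sqrt]
    nlinarith [sq_nonneg (P.derivative.eval b)]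
  have hΦb2 : |P.derivative.eval b| ≤ √(1 + P.derivative.eval b ^ 2) := by
    rw [← Real.sqrt_sq_eq_abs]
    exact Real.sqrt_le_sqrt (by linarith)
  have hΦa : 1 ≤ √(1 + P.derivative.eval a ^ 2) := by
    rw [Real.one_le_sqrt]
    nlinarith [sq_nonneg (P.derivative.eval a)]
  have hΦa2 : |P.derivative.eval a| ≤ √(1 + P.derivative.eval a ^ 2) := by
    rw [← Real.sqrt_sq_eq_abs]
    exact Real.sqrt_le_sqrt (by linarith)
  set Φb := √(1 + P.derivative.eval b ^ 2) with hΦbdef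
  set Φa := √(1 + P.derivative.eval a ^ 2) with hΦadef
  -- lower bound for `T`
  have hTδ : δ ≤ 4 * T := by
    have e1 : δ * 1 ≤ δ * Φb := mul_le_mul_of_nonneg_left hΦb hδ.le
    have e2 : 2 * (b - z.re) * T ≤ 4 * T := mul_le_mul_of_nonneg_right (by linarith) hT0
    linarith
  have hv2 : z.im ≤ 16 * (K * A) / δ * Ln / n := by
    have e1 : δ / 8 ≤ 2 * ε / z.im := by linarith
    rw [le_div_iff₀ hz0] at e1
    have e2 : 16 * (K * A) / δ * Ln / n = 16 * ε / δ := by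
      rw [hε]
      ring
    rw [e2, le_div_iff₀ hδ]
    linarith
  have hC2L : 0 < C2 * Ln := by positivity
  have gb : δ ≤ 2 * (b - z.re) * (C2 * Ln) := by
    have e1 : δ * 1 ≤ δ * Φb := mul_le_mul_of_nonneg_left hΦb hδ.le
    have e2 : 2 * (b - z.re) * T ≤ 2 * (b - z.re) * (C2 * Ln) :=
      mul_le_mul_of_nonneg_left hT3 (by linarith)
    linarith
  have ga : δ ≤ 2 * (z.re - a) * (C2 * Ln) := by
    have e1 : δ * 1 ≤ δ * Φa := mul_le_mul_of_nonneg_left hΦa hδ.le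
    have e2 : 2 * (z.re - a) * T ≤ 2 * (z.re - a) * (C2 * Ln) :=
      mul_le_mul_of_nonneg_left hT3 (by linarith)
    linarith
  have gK : 4 * C2 / δ * Ln ≤ K' * Ln := by
    apply mul_le_mul_of_nonneg_right _ hLn0.le
    have : 0 ≤ 16 * (K * A) / δ := by positivity
    linarith
  have gK2 : 1 / (K' * Ln) ≤ δ / (2 * (C2 * Ln)) := by
    rw [div_le_div_iff₀ (by positivity) (by positivity)]
    have e1 : 4 * C2 / δ * Ln * δ ≤ K' * Ln * δ := mul_le_mul_of_nonneg_right gK hδ.le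
    have e2 : 4 * C2 / δ * Ln * δ = 4 * (C2 * Ln) := by field_simp
    linarith
  refine ⟨?_, ?_, ?_, ?_, ?_⟩
  · have e1 : 16 * (K * A) / δ * Ln / n ≤ K' * Ln / n := by
      apply div_le_div_of_nonneg_right _ hn0.le
      apply mul_le_mul_of_nonneg_right _ hLn0.le
      have : 0 ≤ 4 * C2 / δ := by positivity
      linarith
    exact hv2.trans e1
  · have e1 : δ / (2 * (C2 * Ln)) ≤ z.re - a := by
      rw [div_le_iff₀ (by positivity)]
      linarith
    linarith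
  · have e1 : δ / (2 * (C2 * Ln)) ≤ b - z.re := by
      rw [div_le_iff₀ (by positivity)]
      linarith
    linarith
  · have e1 : Φa ≤ 4 * C2 / δ * Ln := by
      have e2 : 2 * (z.re - a) * T ≤ 4 * (C2 * Ln) := by
        calc 2 * (z.re - a) * T ≤ 4 * T := mul_le_mul_of_nonneg_right (by linarith) hT0
          _ ≤ 4 * (C2 * Ln) := by linarith
      have e3 : 4 * C2 / δ * Ln = 4 * (C2 * Ln) / δ := by ring
      rw [e3, le_div_iff₀ hδ]
      linarith
    linarith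
  · have e1 : Φb ≤ 4 * C2 / δ * Ln := by
      have e2 : 2 * (b - z.re) * T ≤ 4 * (C2 * Ln) := by
        calc 2 * (b - z.re) * T ≤ 4 * T := mul_le_mul_of_nonneg_right (by linarith) hT0
          _ ≤ 4 * (C2 * Ln) := by linarith
      have e3 : 4 * C2 / δ * Ln = 4 * (C2 * Ln) / δ := by ring
      rw [e3, le_div_iff₀ hδ]
      linarith
    linarith

end

end Pool.Agent.Helper10.AL
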