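import Pool.Agent.Helper10.AL.St3

/-!
Arc length of polynomials over windows with an end point of `[-1,1]`, large degree: piece G2o
(localisation of the non-real critical points).
-/

set_option autoImplicit false

namespace Pool.Agent.Helper10.AL

open Polynomial Set Real MeasureTheory intervalIntegral
open Pool.Agent.Helper40.AS (arc Bdd Ext quad)

theorem g2o_sin {α θ : ℝ} (h0 : 0 ≤ θ) (h1 : θ ≤ α) (h2 : α ≤ π) (hα : 0 < α) :
    θ / α * sin α ≤ sin θ := by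
  have hc := strictConcaveOn_sin_Icc.concaveOn
  have ht0 : 0 ≤ θ / α := by positivity
  have ht1 : θ / α ≤ 1 := (div_le_one hα).2 h1
  have h := hc.2 (show (0 : ℝ) ∈ Icc 0 π from ⟨le_rfl, pi_pos.le⟩)
    (show α ∈ Icc (0 : ℝ) π from ⟨hα.le, h2⟩) (show (0 : ℝ) ≤ 1 - θ / α by linarith) ht0
    (by ring)
  simp only [smul_eq_mul, mul_zero, sin_zero, zero_add] at h
  rwa [div_mul_cancel₀ _ hα.ne'] at h

theorem g2o_cos {n : ℕ} (hn : 1 ≤ n) {x y : ℝ} (hx : 0 ≤ sin x) (hxy : |x - y| ≤ 1 / n) :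
    |cos y - cos x| ≤ (sin x + 1 / n) / n := by
  have hn0 : (0 : ℝ) < n := by exact_mod_cast hn
  set h := y - x with hh
  have e1 : cos y = cos x * cos h - sin x * sin h := by
    rw [← cos_add]
    congr 1
    rw [hh]
    ring
  have hh1 : |h| ≤ 1 / n := by rwa [hh, abs_sub_comm]
  have h2 : |sin h| ≤ |h| := abs_sin_le_abs
  have h3 : 1 - cos h ≤ h ^ 2 / 2 := by linarith [one_sub_sq_div_two_le_cos (x := h)]
  have h4 : 0 ≤ 1 - cos h := by linarith [cos_le_one h]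
  have e2 : cos y - cos x = -(cos x * (1 - cos h)) - sin x * sin h := by
    rw [e1]
    ring
  have h5 : h ^ 2 ≤ (1 / (n : ℝ)) ^ 2 := by
    rw [← sq_abs h]
    exact pow_le_pow_left₀ (abs_nonneg _) hh1 2
  have h6 : |cos x * (1 - cos h)| ≤ h ^ 2 / 2 := by
    rw [abs_mul, abs_of_nonneg h4]
    calc |cos x| * (1 - cos h) ≤ 1 * (1 - cos h) :=
          mul_le_mul_of_nonneg_right (abs_cos_le_one x) h4
      _ ≤ h ^ 2 / 2 := by linarith
  have h7 : |sin x * sin h| ≤ sin x * (1 / n) := by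
    rw [abs_mul, abs_of_nonneg hx]
    exact mul_le_mul_of_nonneg_left (h2.trans hh1) hx
  have h8 : |cos y - cos x| ≤ |cos x * (1 - cos h)| + |sin x * sin h| := by
    rw [e2]
    refine (abs_sub _ _).trans ?_
    rw [abs_neg]
  have h9 : (sin x + 1 / n) / n = sin x * (1 / n) + (1 / (n : ℝ)) ^ 2 := by
    field_simp
  rw [h9]
  have h10 : (0 : ℝ) ≤ (1 / (n : ℝ)) ^ 2 := by positivity
  linarith

theorem g2o_norm (z : ℂ) (x : ℝ) : ‖z - (x : ℂ)‖ = √((x - z.re) ^ 2 + z.im ^ 2) := by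
  rw [Complex.norm_def, Complex.normSq_apply]
  congr 1
  simp
  ring

/-- the weight concentrated near `0` -/
theorem g2o_near (n : ℕ) (hn : 1 ≤ n) {α B : ℝ} (hα : 0 < α) (hB : 0 ≤ B) :
    (∫ θ in (0 : ℝ)..α, 4 * (n * B) / (1 + n * θ) ^ 2) ≤ 4 * B := by
  have hn0 : (0 : ℝ) < n := by exact_mod_cast hn
  have h1 : ∀ θ ∈ uIcc 0 α, HasDerivAt (fun θ : ℝ => -(4 * B) * (1 + n * θ)⁻¹)
      (4 * (n * B) / (1 + n * θ) ^ 2) θ := by
    intro θ hθ
    rw [uIcc_of_le hα.le] at hθ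
    have h2 : (0 : ℝ) < 1 + n * θ := by
      have := mul_nonneg hn0.le hθ.1
      linarith
    have h3 : HasDerivAt (fun θ : ℝ => 1 + (n : ℝ) * θ) (n : ℝ) θ := by
      simpa using ((hasDerivAt_id θ).const_mul (n : ℝ)).const_add 1
    have h4 := (h3.inv h2.ne').const_mul (-(4 * B))
    refine h4.congr_deriv ?_
    ring
  have h2 : ContinuousOn (fun θ : ℝ => 4 * (n * B) / (1 + n * θ) ^ 2) (uIcc 0 α) := by
    refine ContinuousOn.div (by fun_prop) (by fun_prop) ?_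
    intro θ hθ
    rw [uIcc_of_le hα.le] at hθ
    have h2 : (0 : ℝ) < 1 + n * θ := by
      have := mul_nonneg hn0.le hθ.1
      linarith
    positivity
  rw [integral_eq_sub_of_hasDerivAt h1 h2.intervalIntegrable]
  have h3 : (0 : ℝ) < 1 + n * α := by
    have := mul_pos hn0 hα
    linarith
  have h4 : 0 ≤ 4 * B * (1 + n * α)⁻¹ := by positivity
  simp only [mul_zero, add_zero, inv_one, mul_one]
  linarith

theorem g2o_arsinh {n : ℕ} (hn : 1 ≤ n) {c y : ℝ} (hc : 0 < c) (hy0 : 0 ≤ y)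
    (hy : y ≤ 2 * n ^ 2 / c) : arsinh y ≤ (2 + 4 / c) * (1 + Real.log n) := by
  have hn0 : (1 : ℝ) ≤ n := by exact_mod_cast hn
  have hn1 : (0 : ℝ) < n := by linarith
  have hL : 0 ≤ Real.log n := Real.log_nonneg hn0
  have h1 : √(1 + y ^ 2) ≤ 1 + y := by
    rw [Real.sqrt_le_left (by linarith)]
    nlinarith
  have h2 : y + √(1 + y ^ 2) ≤ n ^ 2 * (1 + 4 / c) := by
    have h3 : (1 : ℝ) ≤ n ^ 2 := by nlinarith
    have h4 : n ^ 2 * (1 + 4 / c) = n ^ 2 + 2 * (2 * n ^ 2 / c) := by ring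
    rw [h4]
    linarith
  have h5 : 0 < y + √(1 + y ^ 2) := by
    have : 0 < √(1 + y ^ 2) := Real.sqrt_pos.2 (by positivity)
    linarith
  have h6 : arsinh y ≤ Real.log (n ^ 2 * (1 + 4 / c)) := by
    unfold Real.arsinh
    exact Real.log_le_log h5 h2
  have h7 : Real.log (n ^ 2 * (1 + 4 / c)) = 2 * Real.log n + Real.log (1 + 4 / c) := by
    rw [Real.log_mul (by positivity) (by positivity), Real.log_pow]
    push_cast
    ring
  have h8 : Real.log (1 + 4 / c) ≤ 4 / c := by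
    have := Real.log_le_sub_one_of_pos (show 0 < 1 + 4 / c by positivity)
    linarith
  have h9 : 0 ≤ 4 / c * Real.log n := by positivity
  nlinarith

theorem g2o_I1 (n : ℕ) (hn : 1 ≤ n) (α c M u v : ℝ) (hα : 0 < α) (hαπ : α ≤ π) (hc : 0 < c)
    (hM : 0 ≤ M) (hv : 0 < v)
    (hs : ∀ θ ∈ Icc 0 α, 1 / (n : ℝ) ≤ θ → sin θ + 1 / n ≤ M * sin θ)
    (hr : ∀ θ ∈ Icc 0 α, c * (sin θ + 1 / n) / n ≤ √((cos θ - u) ^ 2 + v ^ 2)) :
    (∫ θ in (0 : ℝ)..α, (sin θ + 1 / n) / √((cos θ - u) ^ 2 + v ^ 2)) ≤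
      2 * M * (2 + 4 / c) * (1 + Real.log n) + 4 / c := by
  have hn0 : (1 : ℝ) ≤ n := by exact_mod_cast hn
  have hn1 : (0 : ℝ) < n := by linarith
  have hL : 0 ≤ Real.log n := Real.log_nonneg hn0
  set a := cos α with ha
  have ha1 : a ≤ 1 := cos_le_one α
  have ha2 : -1 ≤ a := neg_one_le_cos α
  set xs := max a (min u 1) with hxs
  have hxs1 : a ≤ xs := le_max_left _ _
  have hxs2 : xs ≤ 1 := max_le ha1 (min_le_right _ _)
  set d := √((xs - u) ^ 2 + v ^ 2) with hd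
  have hd2 : d ^ 2 = (xs - u) ^ 2 + v ^ 2 := Real.sq_sqrt (by positivity)
  have hd0 : 0 < d := Real.sqrt_pos.2 (by positivity)
  -- comparison
  have hcmp : ∀ x, a ≤ x → x ≤ 1 → (x - xs) ^ 2 + d ^ 2 ≤ (x - u) ^ 2 + v ^ 2 := by
    intro x hx1 hx2
    rw [hd2]
    have : 0 ≤ (x - xs) * (xs - u) := by
      rcases le_total u a with h | h
      · have h1 : xs = a := by
          rw [hxs, min_eq_left (by linarith)]
          exact max_eq_left h
        rw [h1]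
        exact mul_nonneg (by linarith) (by linarith)
      · rcases le_total u 1 with h' | h'
        · have h1 : xs = u := by
            rw [hxs, min_eq_left h']
            exact max_eq_right h
          rw [h1]
          simp
        · have h1 : xs = 1 := by
            rw [hxs, min_eq_right h']
            exact max_eq_right ha1
          rw [h1]
          exact mul_nonneg_of_nonpos_of_nonpos (by linarith) (by linarith)
    nlinarith
  -- lower bound for d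
  have hdl : c / n ^ 2 ≤ d := by
    have h1 : arccos xs ∈ Icc 0 α := by
      refine ⟨arccos_nonneg _, ?_⟩
      rw [← arccos_cos hα.le hαπ]
      exact arccos_le_arccos hxs1
    have h2 := hr _ h1
    have h3 : cos (arccos xs) = xs := cos_arccos (by linarith) hxs2
    rw [h3, sin_arccos] at h2
    refine le_trans ?_ h2
    have h4 : c / n ^ 2 = c * (0 + 1 / n) / n := by
      field_simp
      ring
    rw [h4]
    gcongr
    exact Real.sqrt_nonneg _
  -- sin is nonnegative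
  have hsin : ∀ θ ∈ Icc 0 α, 0 ≤ sin θ := fun θ hθ =>
    sin_nonneg_of_nonneg_of_le_pi hθ.1 (hθ.2.trans hαπ)
  have hrp : ∀ θ, 0 < √((cos θ - u) ^ 2 + v ^ 2) := fun θ => Real.sqrt_pos.2 (by positivity)
  have hrd : ∀ θ, 0 < √((cos θ - xs) ^ 2 + d ^ 2) := fun θ => Real.sqrt_pos.2 (by positivity)
  -- pointwise bound
  have hpt : ∀ θ ∈ Icc 0 α, (sin θ + 1 / n) / √((cos θ - u) ^ 2 + v ^ 2) ≤
      M * (sin θ / √((cos θ - xs) ^ 2 + d ^ 2)) + 4 * (n * (1 / c)) / (1 + n * θ) ^ 2 := by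
    intro θ hθ
    have hsθ := hsin θ hθ
    rcases le_total θ (1 / n) with h | h
    · have h1 : (sin θ + 1 / n) / √((cos θ - u) ^ 2 + v ^ 2) ≤ n * (1 / c) := by
        rw [div_le_iff₀ (hrp θ)]
        have h2 := hr θ hθ
        calc sin θ + 1 / n = n * (1 / c) * (c * (sin θ + 1 / n) / n) := by field_simp
          _ ≤ n * (1 / c) * √((cos θ - u) ^ 2 + v ^ 2) :=
            mul_le_mul_of_nonneg_left h2 (by positivity)
      have h3 : (n : ℝ) * θ ≤ 1 := by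
        calc (n : ℝ) * θ ≤ n * (1 / n) := mul_le_mul_of_nonneg_left h hn1.le
          _ = 1 := by field_simp
      have h4 : 0 ≤ (n : ℝ) * θ := mul_nonneg hn1.le hθ.1
      have h5 : n * (1 / c) ≤ 4 * (n * (1 / c)) / (1 + n * θ) ^ 2 := by
        rw [le_div_iff₀ (by positivity)]
        have h6 : (1 + (n : ℝ) * θ) ^ 2 ≤ 4 := by nlinarith
        have h7 : 0 ≤ n * (1 / c) := by positivity
        nlinarith
      have h8 : 0 ≤ M * (sin θ / √((cos θ - xs) ^ 2 + d ^ 2)) :=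
        mul_nonneg hM (div_nonneg hsθ (hrd θ).le)
      linarith
    · have h1 := hs θ hθ h
      have h2 : √((cos θ - xs) ^ 2 + d ^ 2) ≤ √((cos θ - u) ^ 2 + v ^ 2) := by
        refine Real.sqrt_le_sqrt (hcmp _ ?_ (cos_le_one _))
        exact cos_le_cos_of_nonneg_of_le_pi hθ.1 hαπ hθ.2
      have h3 : (sin θ + 1 / n) / √((cos θ - u) ^ 2 + v ^ 2) ≤
          M * (sin θ / √((cos θ - xs) ^ 2 + d ^ 2)) := by
        rw [← mul_div_assoc]
        exact div_le_div₀ (mul_nonneg hM hsθ) h1 (hrd θ) h2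
      have h4 : 0 ≤ 4 * (n * (1 / c)) / (1 + n * θ) ^ 2 := by positivity
      linarith
  -- integrals
  have hc1 : Continuous fun θ => (sin θ + 1 / n) / √((cos θ - u) ^ 2 + v ^ 2) :=
    Continuous.div (by fun_prop) (by fun_prop) fun θ => (hrp θ).ne'
  have hc2 : Continuous fun θ => sin θ / √((cos θ - xs) ^ 2 + d ^ 2) :=
    Continuous.div (by fun_prop) (by fun_prop) fun θ => (hrd θ).ne'
  have hc3 : ContinuousOn (fun θ : ℝ => 4 * (n * (1 / c)) / (1 + n * θ) ^ 2) (uIcc 0 α) := by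
    refine ContinuousOn.div (by fun_prop) (by fun_prop) ?_
    intro θ hθ
    rw [uIcc_of_le hα.le] at hθ
    have h2 : (0 : ℝ) < 1 + n * θ := by
      have := mul_nonneg hn1.le hθ.1
      linarith
    positivity
  have hi3 : IntervalIntegrable (fun θ : ℝ => 4 * (n * (1 / c)) / (1 + n * θ) ^ 2) volume 0 α :=
    hc3.intervalIntegrable
  have hmono := integral_mono_on hα.le (hc1.intervalIntegrable 0 α)
    (((hc2.intervalIntegrable 0 α).const_mul M).add hi3) hpt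
  rw [integral_add ((hc2.intervalIntegrable 0 α).const_mul M) hi3,
    intervalIntegral.integral_const_mul] at hmono
  have hnear := g2o_near n hn hα (show 0 ≤ 1 / c by positivity)
  have hder : ∀ θ ∈ uIcc 0 α, HasDerivAt (fun θ : ℝ => -arsinh ((cos θ - xs) / d))
      (sin θ / √((cos θ - xs) ^ 2 + d ^ 2)) θ := by
    intro θ _
    have h1 : HasDerivAt (fun θ : ℝ => (cos θ - xs) / d) (-sin θ / d) θ :=
      ((hasDerivAt_cos θ).sub_const xs).div_const d
    have h2 := (h1.arsinh).neg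
    refine h2.congr_deriv ?_
    have h3 : √((cos θ - xs) ^ 2 + d ^ 2) = d * √(1 + ((cos θ - xs) / d) ^ 2) := by
      rw [← Real.sqrt_sq hd0.le, ← Real.sqrt_mul (by positivity), Real.sqrt_sq hd0.le]
      congr 1
      field_simp
      ring
    rw [h3]
    have h4 : 0 < √(1 + ((cos θ - xs) / d) ^ 2) := Real.sqrt_pos.2 (by positivity)
    rw [smul_eq_mul]
    field_simp
  have hint := integral_eq_sub_of_hasDerivAt hder (hc2.intervalIntegrable 0 α)
  rw [hint, cos_zero, ← ha] at hmono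
  have hy1 : arsinh ((1 - xs) / d) ≤ (2 + 4 / c) * (1 + Real.log n) := by
    refine g2o_arsinh hn hc (div_nonneg (by linarith) hd0.le) ?_
    rw [div_le_div_iff₀ hd0 hc]
    have h1 : c ≤ n ^ 2 * d := by
      rw [div_le_iff₀ (by positivity)] at hdl
      linarith
    nlinarith
  have hy2 : -arsinh ((a - xs) / d) ≤ (2 + 4 / c) * (1 + Real.log n) := by
    rw [← arsinh_neg, ← neg_div]
    refine g2o_arsinh hn hc (div_nonneg (by linarith) hd0.le) ?_
    rw [div_le_div_iff₀ hd0 hc]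
    have h1 : c ≤ n ^ 2 * d := by
      rw [div_le_iff₀ (by positivity)] at hdl
      linarith
    nlinarith
  have h10 : M * (-arsinh ((a - xs) / d) - -arsinh ((1 - xs) / d)) ≤
      M * (2 * ((2 + 4 / c) * (1 + Real.log n))) :=
    mul_le_mul_of_nonneg_left (by linarith) hM
  have h11 : 4 * (1 / c) = 4 / c := by ring
  rw [h11] at hnear
  have h12 : M * (2 * ((2 + 4 / c) * (1 + Real.log n))) =
    2 * M * (2 + 4 / c) * (1 + Real.log n) := by ring
  linarith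

theorem g2o_I2 (n : ℕ) (hn : 1 ≤ n) (α c M u v : ℝ) (hα : 0 < α) (hαπ : α ≤ π) (hc : 0 < c)
    (hM : 0 ≤ M) (hv : 0 < v)
    (hs : ∀ θ ∈ Icc 0 α, 1 / (n : ℝ) ≤ θ → sin θ + 1 / n ≤ M * sin θ)
    (hr : ∀ θ ∈ Icc 0 α, c * (sin θ + 1 / n) / n ≤ √((cos θ - u) ^ 2 + v ^ 2)) :
    (∫ θ in (0 : ℝ)..α, (sin θ + 1 / n) ^ 3 * v / √((cos θ - u) ^ 2 + v ^ 2) ^ 3) ≤
      M ^ 3 * (4 * (max (1 - u) 0 / v) + 2 * π) + 8 / c ^ 2 := by
  have hn0 : (1 : ℝ) ≤ n := by exact_mod_cast hn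
  have hn1 : (0 : ℝ) < n := by linarith
  have hsin : ∀ θ ∈ Icc 0 α, 0 ≤ sin θ := fun θ hθ =>
    sin_nonneg_of_nonneg_of_le_pi hθ.1 (hθ.2.trans hαπ)
  have hrp : ∀ θ, 0 < √((cos θ - u) ^ 2 + v ^ 2) := fun θ => Real.sqrt_pos.2 (by positivity)
  have hrs : ∀ θ, √((cos θ - u) ^ 2 + v ^ 2) ^ 2 = (cos θ - u) ^ 2 + v ^ 2 := fun θ =>
    Real.sq_sqrt (by positivity)
  set w := max (1 - u) 0 with hw
  have hw0 : 0 ≤ w := le_max_right _ _
  have hw1 : 1 - u ≤ w := le_max_left _ _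
  have hpt : ∀ θ ∈ Icc 0 α, (sin θ + 1 / n) ^ 3 * v / √((cos θ - u) ^ 2 + v ^ 2) ^ 3 ≤
      (M ^ 3 * (2 * w * v) * (sin θ / √((cos θ - u) ^ 2 + v ^ 2) ^ 3) +
        M ^ 3 * 2 * (v * sin θ / ((cos θ - u) ^ 2 + v ^ 2))) +
        4 * (n * (2 / c ^ 2)) / (1 + n * θ) ^ 2 := by
    intro θ hθ
    have hsθ := hsin θ hθ
    set r := √((cos θ - u) ^ 2 + v ^ 2) with hrdef
    have hr0 : 0 < r := hrp θ
    have hr2 : r ^ 2 = (cos θ - u) ^ 2 + v ^ 2 := hrs θ
    have hvr : v ≤ r := by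
      rw [hrdef]
      refine Real.le_sqrt_of_sq_le ?_
      nlinarith [sq_nonneg (cos θ - u)]
    have hcr : |cos θ - u| ≤ r := by
      rw [hrdef]
      refine Real.le_sqrt_of_sq_le ?_
      rw [sq_abs]
      nlinarith [sq_nonneg v]
    rw [← hr2]
    rcases le_total θ (1 / n) with h | h
    · have h2 := hr θ hθ
      rw [← hrdef] at h2
      have h0 : 0 < sin θ + 1 / n := by positivity
      have hsn : sin θ + 1 / n ≤ 2 / n := by
        have := (sin_le hθ.1).trans h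
        have e : (2 : ℝ) / n = 1 / n + 1 / n := by ring
        linarith
      have h1 : (sin θ + 1 / n) ^ 3 * v / r ^ 3 ≤ n * (2 / c ^ 2) := by
        rw [div_le_iff₀ (by positivity)]
        have k1 : (c * (sin θ + 1 / n) / n) ^ 2 ≤ r ^ 2 :=
          pow_le_pow_left₀ (by positivity) h2 2
        have k2 : (sin θ + 1 / n) ^ 2 ≤ n ^ 2 / c ^ 2 * r ^ 2 := by
          calc (sin θ + 1 / n) ^ 2 = n ^ 2 / c ^ 2 * (c * (sin θ + 1 / n) / n) ^ 2 := by
                field_simp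
            _ ≤ n ^ 2 / c ^ 2 * r ^ 2 := mul_le_mul_of_nonneg_left k1 (by positivity)
        calc (sin θ + 1 / n) ^ 3 * v = (sin θ + 1 / n) * (sin θ + 1 / n) ^ 2 * v := by ring
          _ ≤ (2 / n) * (n ^ 2 / c ^ 2 * r ^ 2) * r := by
            refine mul_le_mul (mul_le_mul hsn k2 (by positivity) (by positivity)) hvr hv.le
              (by positivity)
          _ = n * (2 / c ^ 2) * r ^ 3 := by
            field_simp
      have h3 : (n : ℝ) * θ ≤ 1 := by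
        calc (n : ℝ) * θ ≤ n * (1 / n) := mul_le_mul_of_nonneg_left h hn1.le
          _ = 1 := by field_simp
      have h4 : 0 ≤ (n : ℝ) * θ := mul_nonneg hn1.le hθ.1
      have h5 : n * (2 / c ^ 2) ≤ 4 * (n * (2 / c ^ 2)) / (1 + n * θ) ^ 2 := by
        rw [le_div_iff₀ (by positivity)]
        have h6 : (1 + (n : ℝ) * θ) ^ 2 ≤ 4 := by nlinarith
        have h7 : 0 ≤ n * (2 / c ^ 2) := by positivity
        nlinarith
      have h8 : 0 ≤ M ^ 3 * (2 * w * v) * (sin θ / r ^ 3) := by positivity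
      have h9 : 0 ≤ M ^ 3 * 2 * (v * sin θ / r ^ 2) := by positivity
      linarith
    · have h1 := hs θ hθ h
      have h0 : 0 < sin θ + 1 / n := by positivity
      have h2 : (sin θ + 1 / n) ^ 3 ≤ (M * sin θ) ^ 3 := pow_le_pow_left₀ h0.le h1 3
      have h3 : sin θ ^ 2 ≤ 2 * (w + r) := by
        have e1 : sin θ ^ 2 = 1 - cos θ ^ 2 := by
          have := sin_sq_add_cos_sq θ
          linarith
        have e2 := neg_abs_le (cos θ - u)
        have e3 := cos_le_one θ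
        have e4 := neg_one_le_cos θ
        rw [e1]
        nlinarith
      have h4 : (sin θ + 1 / n) ^ 3 * v / r ^ 3 ≤
          M ^ 3 * (2 * w * v) * (sin θ / r ^ 3) + M ^ 3 * 2 * (v * sin θ / r ^ 2) := by
        have e : M ^ 3 * (2 * w * v) * (sin θ / r ^ 3) + M ^ 3 * 2 * (v * sin θ / r ^ 2) =
            (M ^ 3 * sin θ * v * (2 * (w + r))) / r ^ 3 := by
          field_simp
        rw [e]
        refine div_le_div_of_nonneg_right ?_ (by positivity)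
        calc (sin θ + 1 / n) ^ 3 * v ≤ (M * sin θ) ^ 3 * v := mul_le_mul_of_nonneg_right h2 hv.le
          _ = (M ^ 3 * sin θ * v) * sin θ ^ 2 := by ring
          _ ≤ (M ^ 3 * sin θ * v) * (2 * (w + r)) :=
            mul_le_mul_of_nonneg_left h3 (by positivity)
      have h5 : 0 ≤ 4 * (n * (2 / c ^ 2)) / (1 + n * θ) ^ 2 := by positivity
      linarith
  have hc1 : Continuous fun θ => (sin θ + 1 / n) ^ 3 * v / √((cos θ - u) ^ 2 + v ^ 2) ^ 3 :=
    Continuous.div (by fun_prop) (by fun_prop) fun θ => (pow_pos (hrp θ) 3).ne'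
  have hc2 : Continuous fun θ => sin θ / √((cos θ - u) ^ 2 + v ^ 2) ^ 3 :=
    Continuous.div (by fun_prop) (by fun_prop) fun θ => (pow_pos (hrp θ) 3).ne'
  have hc4 : Continuous fun θ => v * sin θ / ((cos θ - u) ^ 2 + v ^ 2) :=
    Continuous.div (by fun_prop) (by fun_prop) fun θ => by positivity
  have hc3 : ContinuousOn (fun θ : ℝ => 4 * (n * (2 / c ^ 2)) / (1 + n * θ) ^ 2)
      (uIcc 0 α) := by
    refine ContinuousOn.div (by fun_prop) (by fun_prop) ?_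
    intro θ hθ
    rw [uIcc_of_le hα.le] at hθ
    have h2 : (0 : ℝ) < 1 + n * θ := by
      have := mul_nonneg hn1.le hθ.1
      linarith
    positivity
  have hi3 : IntervalIntegrable (fun θ : ℝ => 4 * (n * (2 / c ^ 2)) / (1 + n * θ) ^ 2)
    volume 0 α := hc3.intervalIntegrable
  have hi2 := (hc2.intervalIntegrable (μ := volume) 0 α).const_mul (M ^ 3 * (2 * w * v))
  have hi4 := (hc4.intervalIntegrable (μ := volume) 0 α).const_mul (M ^ 3 * 2)
  have hmono := integral_mono_on hα.le (hc1.intervalIntegrable 0 α)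
    ((hi2.add hi4).add hi3) hpt
  rw [integral_add (hi2.add hi4) hi3, integral_add hi2 hi4,
    intervalIntegral.integral_const_mul, intervalIntegral.integral_const_mul] at hmono
  have hnear := g2o_near n hn hα (show 0 ≤ 2 / c ^ 2 by positivity)
  have hder2 : ∀ θ ∈ uIcc 0 α, HasDerivAt
      (fun θ : ℝ => -((cos θ - u) / (v ^ 2 * √((cos θ - u) ^ 2 + v ^ 2))))
      (sin θ / √((cos θ - u) ^ 2 + v ^ 2) ^ 3) θ := by
    intro θ _
    have h1 : HasDerivAt (fun θ : ℝ => cos θ - u) (-sin θ) θ :=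
      (hasDerivAt_cos θ).sub_const u
    have h2 : HasDerivAt (fun θ : ℝ => (cos θ - u) ^ 2 + v ^ 2)
        (2 * (cos θ - u) * (-sin θ)) θ := by
      have := (h1.pow 2).add_const (v ^ 2)
      refine this.congr_deriv ?_
      norm_num
    have h3 := (h2.sqrt (by positivity)).const_mul (v ^ 2)
    have h4 := (h1.div h3 (by have := hrp θ; positivity)).neg
    refine h4.congr_deriv ?_
    set r := √((cos θ - u) ^ 2 + v ^ 2) with hrdef
    have hr0 : 0 < r := hrp θ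
    have hr2 : r ^ 2 = (cos θ - u) ^ 2 + v ^ 2 := hrs θ
    have e : v ^ 2 = r ^ 2 - (cos θ - u) ^ 2 := by linarith
    have hv2 : v ^ 2 ≠ 0 := by positivity
    field_simp
    linear_combination sin θ * hr2
  have hder4 : ∀ θ ∈ uIcc 0 α, HasDerivAt (fun θ : ℝ => -arctan ((cos θ - u) / v))
      (v * sin θ / ((cos θ - u) ^ 2 + v ^ 2)) θ := by
    intro θ _
    have h1 : HasDerivAt (fun θ : ℝ => (cos θ - u) / v) (-sin θ / v) θ :=
      ((hasDerivAt_cos θ).sub_const u).div_const v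
    refine (h1.arctan).neg.congr_deriv ?_
    have h5 : (cos θ - u) ^ 2 + v ^ 2 ≠ 0 := by positivity
    have h6 : 1 + ((cos θ - u) / v) ^ 2 ≠ 0 := by positivity
    field_simp
    ring
  rw [integral_eq_sub_of_hasDerivAt hder2 (hc2.intervalIntegrable 0 α),
    integral_eq_sub_of_hasDerivAt hder4 (hc4.intervalIntegrable 0 α)] at hmono
  have hbd : ∀ θ, |(cos θ - u) / (v ^ 2 * √((cos θ - u) ^ 2 + v ^ 2))| ≤ 1 / v ^ 2 := by
    intro θ
    have hr0 := hrp θ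
    rw [abs_div, abs_of_pos (show 0 < v ^ 2 * √((cos θ - u) ^ 2 + v ^ 2) by positivity),
      div_le_div_iff₀ (by positivity) (by positivity)]
    have hcr : |cos θ - u| ≤ √((cos θ - u) ^ 2 + v ^ 2) := by
      refine Real.le_sqrt_of_sq_le ?_
      rw [sq_abs]
      nlinarith [sq_nonneg v]
    nlinarith [sq_nonneg v]
  have h1 := abs_le.1 (hbd 0)
  have h2 := abs_le.1 (hbd α)
  have h3 : M ^ 3 * (2 * w * v) * (-((cos α - u) / (v ^ 2 * √((cos α - u) ^ 2 + v ^ 2))) -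
      -((cos 0 - u) / (v ^ 2 * √((cos 0 - u) ^ 2 + v ^ 2)))) ≤
      M ^ 3 * (2 * w * v) * (2 / v ^ 2) := by
    refine mul_le_mul_of_nonneg_left ?_ (by positivity)
    have e : 2 / v ^ 2 = 1 / v ^ 2 + 1 / v ^ 2 := by ring
    rw [e]
    linarith [h1.2, h2.1]
  have h4 : M ^ 3 * 2 * (-arctan ((cos α - u) / v) - -arctan ((cos 0 - u) / v)) ≤
      M ^ 3 * 2 * π := by
    refine mul_le_mul_of_nonneg_left ?_ (by positivity)
    have e1 := neg_pi_div_two_lt_arctan ((cos α - u) / v)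
    have e2 := arctan_lt_pi_div_two ((cos 0 - u) / v)
    linarith
  have h5 : M ^ 3 * (2 * w * v) * (2 / v ^ 2) = M ^ 3 * (4 * (w / v)) := by
    field_simp
    ring
  have h6 : 4 * (2 / c ^ 2) = 8 / c ^ 2 := by ring
  rw [h6] at hnear
  have h7 : M ^ 3 * (4 * (w / v) + 2 * π) = M ^ 3 * (4 * (w / v)) + M ^ 3 * 2 * π := by ring
  rw [h7]
  linarith

theorem g2o_sq {P : ℝ[X]} {θ : ℝ} (hθ : 0 ≤ sin θ)
    (hd : deriv (qq P) θ = -(sin θ * P.derivative.eval (cos θ))) :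
    sin θ ^ 2 / √(sin θ ^ 2 + deriv (qq P) θ ^ 2) =
      sin θ / √(1 + P.derivative.eval (cos θ) ^ 2) := by
  have h1 : sin θ ^ 2 + deriv (qq P) θ ^ 2 =
      sin θ ^ 2 * (1 + P.derivative.eval (cos θ) ^ 2) := by
    rw [hd]
    ring
  rw [h1, Real.sqrt_mul (sq_nonneg _), Real.sqrt_sq hθ]
  rcases hθ.eq_or_lt with h | h
  · rw [← h]
    simp
  · rw [pow_two, mul_div_mul_left _ _ h.ne']

/-- the weighted estimate for windows `[a, 1]` -/
theorem g2o_est (hA2 : A2) (hG0u : G0u) (hG2au : G2au) : ∃ K : ℝ, 0 < K ∧ ∀ (n : ℕ) (a A : ℝ)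
    (P : ℝ[X]) (F w : ℝ → ℝ), 2 ≤ n → -1 ≤ a → a < 1 → 1 / (n : ℝ) ≤ arccos a →
    P.natDegree ≤ n → Bdd P → ND n (qq P) 0 (arccos a) → ContinuousOn F (Icc a 1) →
    ContinuousOn w (Icc 0 (arccos a)) → (∀ θ ∈ Icc 0 (arccos a), 0 ≤ w θ) →
    (∀ θ ∈ Icc 0 (arccos a), F (cos θ) ≤ w θ) → 1 ≤ A →
    (∀ x ∈ Icc 0 (arccos a), ∀ y ∈ Icc 0 (arccos a), |x - y| ≤ 1 / n → w x ≤ A * w y) →
    (∫ x in a..1, F x / √(1 + P.derivative.eval x ^ 2)) ≤
      K * A * (1 + Real.log n) / n * ∫ θ in (0 : ℝ)..(arccos a), w θ * (sin θ + 1 / n) := by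
  obtain ⟨K, hK, hK2⟩ := hG2au
  refine ⟨K, hK, ?_⟩
  intro n a A P F w hn ha ha1 hna hP hB hND hF hw hw0 hFw hA hAw
  have h1 := hK2 n a 1 A P w hn ha ha1 le_rfl (by rw [arccos_one]; linarith) hP hB
    (by rw [arccos_one]; exact hND) (by rw [arccos_one]; exact hw)
    (by rw [arccos_one]; exact hw0) hA (by rw [arccos_one]; exact hAw)
  have h2 := hG0u a 1 P F ha ha1.le le_rfl hF
  rw [arccos_one] at h1 h2
  rw [h2]
  refine le_trans ?_ h1
  have hα : 0 ≤ arccos a := arccos_nonneg a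
  have hsin : ∀ θ ∈ Icc 0 (arccos a), 0 ≤ sin θ := fun θ hθ =>
    sin_nonneg_of_nonneg_of_le_pi hθ.1 (hθ.2.trans (arccos_le_pi a))
  have hd : ∀ θ, deriv (qq P) θ = -(sin θ * P.derivative.eval (cos θ)) := fun θ =>
    (hA2.2.2 P θ).1
  have hg : ∀ θ ∈ Icc 0 (arccos a), sin θ ^ 2 / √(sin θ ^ 2 + deriv (qq P) θ ^ 2) =
      sin θ / √(1 + P.derivative.eval (cos θ) ^ 2) := fun θ hθ => g2o_sq (hsin θ hθ) (hd θ)
  have hsp : ∀ θ : ℝ, 0 < √(1 + P.derivative.eval (cos θ) ^ 2) := fun θ =>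
    Real.sqrt_pos.2 (by positivity)
  have hgc : Continuous fun θ : ℝ => sin θ / √(1 + P.derivative.eval (cos θ) ^ 2) :=
    Continuous.div (by fun_prop) (by fun_prop) fun θ => (hsp θ).ne'
  have e1 : (∫ θ in (0 : ℝ)..(arccos a), F (cos θ) *
      (sin θ ^ 2 / √(sin θ ^ 2 + deriv (qq P) θ ^ 2))) =
      ∫ θ in (0 : ℝ)..(arccos a), F (cos θ) *
        (sin θ / √(1 + P.derivative.eval (cos θ) ^ 2)) := by
    refine integral_congr fun θ hθ => ?_
    rw [uIcc_of_le hα] at hθ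
    rw [hg θ hθ]
  have e2 : (∫ θ in (0 : ℝ)..(arccos a), w θ *
      (sin θ ^ 2 / √(sin θ ^ 2 + deriv (qq P) θ ^ 2))) =
      ∫ θ in (0 : ℝ)..(arccos a), w θ *
        (sin θ / √(1 + P.derivative.eval (cos θ) ^ 2)) := by
    refine integral_congr fun θ hθ => ?_
    rw [uIcc_of_le hα] at hθ
    rw [hg θ hθ]
  rw [e1, e2]
  have hmaps : ∀ θ ∈ Icc 0 (arccos a), cos θ ∈ Icc a 1 := by
    intro θ hθ
    refine ⟨?_, cos_le_one θ⟩
    rw [← cos_arccos ha ha1.le]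
    exact cos_le_cos_of_nonneg_of_le_pi hθ.1 (arccos_le_pi a) hθ.2
  have hFc : ContinuousOn (fun θ => F (cos θ)) (Icc 0 (arccos a)) :=
    hF.comp continuous_cos.continuousOn hmaps
  have i1 : IntervalIntegrable (fun θ => F (cos θ) *
      (sin θ / √(1 + P.derivative.eval (cos θ) ^ 2))) volume 0 (arccos a) := by
    refine ContinuousOn.intervalIntegrable ?_
    rw [uIcc_of_le hα]
    exact hFc.mul hgc.continuousOn
  have i2 : IntervalIntegrable (fun θ => w θ *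
      (sin θ / √(1 + P.derivative.eval (cos θ) ^ 2))) volume 0 (arccos a) := by
    refine ContinuousOn.intervalIntegrable ?_
    rw [uIcc_of_le hα]
    exact hw.mul hgc.continuousOn
  refine integral_mono_on hα i1 i2 fun θ hθ => ?_
  exact mul_le_mul_of_nonneg_right (hFw θ hθ) (div_nonneg (hsin θ hθ) (hsp θ).le)

theorem g2o_tend (K : ℝ) :
    Filter.Tendsto (fun n : ℕ => K * (1 + Real.log n) ^ 2 / n) Filter.atTop (nhds 0) := by
  have h1 : Filter.Tendsto (fun n : ℕ => Real.log n / n) Filter.atTop (nhds 0) := by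
    have h := Real.isLittleO_log_id_atTop.tendsto_div_nhds_zero
    exact h.comp tendsto_natCast_atTop_atTop
  have h4 : Filter.Tendsto (fun n : ℕ => Real.log n ^ 2 / n) Filter.atTop (nhds 0) := by
    have h := (isLittleO_pow_log_id_atTop (n := 2)).tendsto_div_nhds_zero
    exact h.comp tendsto_natCast_atTop_atTop
  have h2 : Filter.Tendsto (fun n : ℕ => (1 : ℝ) / n) Filter.atTop (nhds 0) :=
    tendsto_one_div_atTop_nhds_zero_nat
  have h3 := ((h4.add (h1.const_mul 2)).add h2).const_mul K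
  rw [add_zero, mul_zero, add_zero, mul_zero] at h3
  refine h3.congr fun n => ?_
  ring

theorem g2o_set {δ a : ℝ} (hδ : 0 < δ) (hδ4 : δ ≤ 1 / 4) (ha : -1 + δ ≤ a) (ha' : a ≤ 1 - δ) :
    δ ≤ 1 - a ^ 2 ∧ √δ ≤ sin (arccos a) ∧ 0 < arccos a := by
  have h1 : δ ≤ 1 - a ^ 2 := by
    nlinarith [mul_nonneg (show 0 ≤ 1 - a - δ by linarith) (show 0 ≤ 1 + a - δ by linarith)]
  refine ⟨h1, ?_, ?_⟩
  · rw [sin_arccos]
    exact Real.sqrt_le_sqrt h1
  · rw [arccos_pos]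
    linarith

theorem g2o_M {δ a : ℝ} {n : ℕ} (hδ : 0 < δ) (hδ4 : δ ≤ 1 / 4) (ha : -1 + δ ≤ a)
    (ha' : a ≤ 1 - δ) : ∀ θ ∈ Icc 0 (arccos a), 1 / (n : ℝ) ≤ θ →
    sin θ + 1 / n ≤ (1 + π / √δ) * sin θ := by
  intro θ hθ h
  obtain ⟨h1, h2, h3⟩ := g2o_set hδ hδ4 ha ha'
  have h4 := g2o_sin hθ.1 hθ.2 (arccos_le_pi a) h3
  have hd : 0 < √δ := Real.sqrt_pos.2 hδ
  have h5 : θ ≤ π / √δ * sin θ := by
    have e1 : θ / π * √δ ≤ sin θ := by
      refine le_trans ?_ h4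
      refine mul_le_mul ?_ h2 hd.le (div_nonneg hθ.1 h3.le)
      exact div_le_div_of_nonneg_left hθ.1 h3 (arccos_le_pi a)
    calc θ = π / √δ * (θ / π * √δ) := by
          field_simp
      _ ≤ π / √δ * sin θ := mul_le_mul_of_nonneg_left e1 (by positivity)
  linarith

theorem g2o_slow {n : ℕ} (hn : 1 ≤ n) (z : ℂ) {c x y : ℝ} (hc : 0 < c) (hy : 0 ≤ sin y)
    (hxy : |x - y| ≤ 1 / n)
    (hr : c * (sin y + 1 / n) / n ≤ √((cos y - z.re) ^ 2 + z.im ^ 2)) :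
    √((cos x - z.re) ^ 2 + z.im ^ 2) ≤ (1 + 1 / c) * √((cos y - z.re) ^ 2 + z.im ^ 2) := by
  have hn0 : (0 : ℝ) < n := by exact_mod_cast hn
  have h1 := g2o_cos hn hy (by rwa [abs_sub_comm] at hxy)
  rw [← g2o_norm, ← g2o_norm]
  rw [← g2o_norm] at hr
  have h2 : ‖z - ((cos x : ℝ) : ℂ)‖ ≤ ‖z - ((cos y : ℝ) : ℂ)‖ + |cos x - cos y| := by
    have e : z - ((cos x : ℝ) : ℂ) = (z - ((cos y : ℝ) : ℂ)) - ((cos x - cos y : ℝ) : ℂ) := by
      push_cast
      ring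
    rw [e]
    refine (norm_sub_le _ _).trans ?_
    rw [Complex.norm_real, Real.norm_eq_abs]
  have h3 : (sin y + 1 / n) / n ≤ 1 / c * ‖z - ((cos y : ℝ) : ℂ)‖ := by
    calc (sin y + 1 / n) / n = 1 / c * (c * (sin y + 1 / n) / n) := by field_simp
      _ ≤ _ := mul_le_mul_of_nonneg_left hr (by positivity)
  linarith

/-- the common part of the two estimates -/
theorem g2o_id (hG0 : G0) {n : ℕ} {a : ℝ} {P l : ℝ[X]} {z : ℂ} (hn : 1 ≤ n) (ha : -1 ≤ a)
    (ha1 : a < 1) (hE : Ext n a 1 P) (hz : aeval z P.derivative = 0) (hv : 0 < z.im)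
    (hl : l.natDegree ≤ 1) :
    -(((1 - a ^ 2) * l.eval a / ((a - z.re) ^ 2 + z.im ^ 2)) *
      √(1 + P.derivative.eval a ^ 2)) =
    ∫ x in a..1, ((((1 - X ^ 2) * l).derivative.eval x * ((x - z.re) ^ 2 + z.im ^ 2) -
      ((1 - x ^ 2) * l.eval x) * (2 * (x - z.re))) / ((x - z.re) ^ 2 + z.im ^ 2) ^ 2) /
        √(1 + P.derivative.eval x ^ 2) := by
  obtain ⟨R, hR⟩ := Pool.Agent.Helper40.AS.quad_dvd hz hv.ne'
  have hpos : ∀ x : ℝ, 0 < (quad z.re z.im).eval x := by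
    intro x
    rw [Pool.Agent.Helper40.AS.quad_eval]
    positivity
  have hPn : P.natDegree ≤ n := natDegree_le_of_degree_le hE.deg
  have h := hG0 n a 1 P (quad z.re z.im) R l hn ha ha1 le_rfl hE hR (by
    intro x hx hx1
    have h1 := Pool.Agent.Helper40.AS.contact_int hE.bdd hx hx1
    rw [hR, eval_mul] at h1
    exact (mul_eq_zero.1 h1).resolve_left (hpos x).ne') (by
    rw [Pool.Agent.Helper40.AS.quad_deg]
    omega) (fun x _ => (hpos x).ne')
  simp only [Pool.Agent.Helper40.AS.quad_eval, Pool.Agent.Helper40.AS.quad_der] at h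
  rw [← h]
  simp

theorem g2o_fA {x u v r : ℝ} (hx1 : -1 ≤ x) (hx2 : x ≤ 1) (hr : 0 < r)
    (hrq : r ^ 2 = (x - u) ^ 2 + v ^ 2) :
    -(((((1 - X ^ 2) * (1 - X) : ℝ[X])).derivative.eval x * ((x - u) ^ 2 + v ^ 2) -
      ((1 - x ^ 2) * (1 - X : ℝ[X]).eval x) * (2 * (x - u))) / ((x - u) ^ 2 + v ^ 2) ^ 2) ≤
      1 / r ^ 2 * (8 + 4 / r) := by
  have hxr : |x - u| ≤ r := by
    refine abs_le_of_sq_le_sq ?_ hr.le
    rw [hrq]
    nlinarith [sq_nonneg v]
  have hxr' := (le_abs_self (x - u)).trans hxr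
  have e1 : ((((1 - X ^ 2) * (1 - X) : ℝ[X])).derivative.eval x) =
      -((1 - x) * (1 + 3 * x)) := by
    simp only [derivative_mul, derivative_sub, derivative_one, derivative_X_pow,
      derivative_X, eval_add, eval_mul, eval_sub, eval_one, eval_pow, eval_X, eval_zero]
    push_cast
    simp
    ring
  have e2 : (1 - X : ℝ[X]).eval x = 1 - x := by simp
  rw [← hrq, e1, e2]
  have e3 : -((-((1 - x) * (1 + 3 * x)) * r ^ 2 - (1 - x ^ 2) * (1 - x) *
      (2 * (x - u))) / (r ^ 2) ^ 2) =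
      ((1 - x) * (1 + 3 * x) * r ^ 2 + (1 - x ^ 2) * (1 - x) *
      (2 * (x - u))) / (r ^ 2 * r ^ 2) := by
    rw [← neg_div]
    congr 1 <;> ring
  rw [e3]
  have h1 : (1 - x) * (1 + 3 * x) ≤ 8 := by nlinarith
  have h2 : (1 - x ^ 2) * (1 - x) * (2 * (x - u)) ≤ 4 * r := by
    have k1 : 0 ≤ 1 - x ^ 2 := by nlinarith
    have k2 : 0 ≤ 1 - x := by linarith
    have k3 : (1 - x ^ 2) * (1 - x) ≤ 2 := by nlinarith [sq_nonneg x]
    have k4 : 0 ≤ (1 - x ^ 2) * (1 - x) := mul_nonneg k1 k2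
    calc (1 - x ^ 2) * (1 - x) * (2 * (x - u)) ≤ (1 - x ^ 2) * (1 - x) * (2 * r) :=
          mul_le_mul_of_nonneg_left (by linarith) k4
      _ ≤ 2 * (2 * r) := mul_le_mul_of_nonneg_right k3 (by positivity)
      _ = 4 * r := by ring
  have h3 : (1 - x) * (1 + 3 * x) * r ^ 2 ≤ 8 * r ^ 2 :=
    mul_le_mul_of_nonneg_right h1 (by positivity)
  have h4 : (8 * r ^ 2 + 4 * r) / (r ^ 2 * r ^ 2) = 1 / r ^ 2 * (8 + 4 / r) := by
    field_simp
  calc ((1 - x) * (1 + 3 * x) * r ^ 2 + (1 - x ^ 2) * (1 - x) *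
        (2 * (x - u))) / (r ^ 2 * r ^ 2) ≤ (8 * r ^ 2 + 4 * r) / (r ^ 2 * r ^ 2) :=
        div_le_div_of_nonneg_right (by linarith) (by positivity)
    _ = 1 / r ^ 2 * (8 + 4 / r) := h4

theorem g2o_fB {x u v r : ℝ} (hx1 : -1 ≤ x) (hx2 : x ≤ 1) (hv : 0 < v) (hr : 0 < r)
    (hrq : r ^ 2 = (x - u) ^ 2 + v ^ 2) :
    ((((1 - X ^ 2) * (X - C u) : ℝ[X])).derivative.eval x * ((x - u) ^ 2 + v ^ 2) -
      ((1 - x ^ 2) * (X - C u : ℝ[X]).eval x) * (2 * (x - u))) / ((x - u) ^ 2 + v ^ 2) ^ 2 ≤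
      2 / r + (1 - x ^ 2) * v / r ^ 3 := by
  have hxr : |x - u| ≤ r := by
    refine abs_le_of_sq_le_sq ?_ hr.le
    rw [hrq]
    nlinarith [sq_nonneg v]
  have hvr : v ≤ r := by
    refine le_of_sq_le_sq ?_ hr.le
    rw [hrq]
    nlinarith [sq_nonneg (x - u)]
  have e1 : ((((1 - X ^ 2) * (X - C u) : ℝ[X])).derivative.eval x) =
      -(2 * x * (x - u)) + (1 - x ^ 2) := by
    simp only [derivative_mul, derivative_sub, derivative_one, derivative_X_pow, derivative_C,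
      derivative_X, eval_add, eval_mul, eval_sub, eval_one, eval_pow, eval_X, eval_zero, eval_C]
    push_cast
    simp
  have e2 : (X - C u : ℝ[X]).eval x = x - u := by simp
  rw [← hrq, e1, e2]
  have h1 : -(2 * x * (x - u)) ≤ 2 * r := by
    have k1 : -(x * (x - u)) ≤ |x * (x - u)| := neg_le_abs _
    have k2 : |x| ≤ 1 := abs_le.2 ⟨hx1, hx2⟩
    have k3 : |x * (x - u)| ≤ 1 * r := by
      rw [abs_mul]
      exact mul_le_mul k2 hxr (abs_nonneg _) (by norm_num)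
    linarith
  have k1 : 0 ≤ 1 - x ^ 2 := by nlinarith
  have h2 : (1 - x ^ 2) * (v ^ 2 - (x - u) ^ 2) ≤ (1 - x ^ 2) * (v * r) := by
    refine mul_le_mul_of_nonneg_left ?_ k1
    nlinarith [sq_nonneg (x - u)]
  have h3 : -(2 * x * (x - u)) * r ^ 2 ≤ 2 * r * r ^ 2 :=
    mul_le_mul_of_nonneg_right h1 (by positivity)
  have h4 : 2 / r + (1 - x ^ 2) * v / r ^ 3 =
      (2 * r * r ^ 2 + (1 - x ^ 2) * (v * r)) / (r ^ 2) ^ 2 := by
    field_simp
  rw [h4]
  refine div_le_div_of_nonneg_right ?_ (by positivity)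
  have h5 : (-(2 * x * (x - u)) + (1 - x ^ 2)) * r ^ 2 - (1 - x ^ 2) * (x - u) * (2 * (x - u)) =
      -(2 * x * (x - u)) * r ^ 2 + (1 - x ^ 2) * (v ^ 2 - (x - u) ^ 2) := by
    rw [hrq]
    ring
  rw [h5]
  linarith

/-- the common setting -/
structure G2oS (n : ℕ) (δ c a : ℝ) (P : ℝ[X]) (z : ℂ) : Prop where
  hn : 2 ≤ n
  hδ : 0 < δ
  hδ4 : δ ≤ 1 / 4
  hc : 0 < c
  ha : -1 + δ ≤ a
  ha' : a ≤ 1 - δ
  hE : Ext n a 1 P
  hND : ND n (qq P) 0 (arccos a)
  hz : aeval z P.derivative = 0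
  hv : 0 < z.im
  hnα : 1 / (n : ℝ) ≤ arccos a
  hr : ∀ θ ∈ Icc 0 (arccos a), c * (sin θ + 1 / n) / n ≤ √((cos θ - z.re) ^ 2 + z.im ^ 2)

theorem g2o_mk {n : ℕ} {δ c a : ℝ} {P : ℝ[X]} {z : ℂ} (hn : 2 ≤ n) (hδ : 0 < δ)
    (hδ4 : δ ≤ 1 / 4) (hc : 0 < c) (hnδ : 1 / δ ≤ n)
    (hG1 : ∀ (n : ℕ) (a b : ℝ) (P : ℝ[X]), 1 ≤ n → -1 ≤ a → a < b → b ≤ 1 → P.natDegree ≤ n →
      Bdd P → ND n (qq P) (arccos b) (arccos a) →
      ∀ z : ℂ, aeval z P.derivative = 0 → (z.im ≠ 0 ∨ 1 < |z.re|) →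
      ∀ θ ∈ Icc (arccos b) (arccos a), c * (sin θ + 1 / n) / n ≤ ‖z - ((cos θ : ℝ) : ℂ)‖)
    (ha : -1 + δ ≤ a) (ha' : a ≤ 1 - δ) (hE : Ext n a 1 P)
    (hND : ND n (qq P) 0 (arccos a)) (hz : aeval z P.derivative = 0) (hv : 0 < z.im) :
    G2oS n δ c a P z := by
  have hnp : (0 : ℝ) < n := by exact_mod_cast (by omega : 0 < n)
  obtain ⟨hs1, hs2, hα⟩ := g2o_set hδ hδ4 ha ha'
  have hnα : 1 / (n : ℝ) ≤ arccos a := by
    have h1 : sin (arccos a) ≤ arccos a := sin_le hα.le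
    have h2 : δ ≤ √δ := by
      refine Real.le_sqrt_of_sq_le ?_
      nlinarith
    have h3 : 1 / (n : ℝ) ≤ δ := by
      rw [div_le_iff₀ hnp]
      rw [div_le_iff₀ hδ] at hnδ
      linarith
    linarith
  refine ⟨hn, hδ, hδ4, hc, ha, ha', hE, hND, hz, hv, hnα, ?_⟩
  intro θ hθ
  have h1 := hG1 n a 1 P (by omega) (by linarith) (by linarith) le_rfl
    (natDegree_le_of_degree_le hE.deg) hE.bdd
    (by rw [arccos_one]; exact hND) z hz (Or.inl hv.ne') θ (by rw [arccos_one]; exact hθ)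
  rwa [g2o_norm] at h1

theorem g2o_sn {a θ : ℝ} (hθ : θ ∈ Icc 0 (arccos a)) : 0 ≤ sin θ :=
  sin_nonneg_of_nonneg_of_le_pi hθ.1 (hθ.2.trans (arccos_le_pi a))

theorem g2o_cs {a θ : ℝ} (ha : -1 ≤ a) (ha1 : a ≤ 1) (hθ : θ ∈ Icc 0 (arccos a)) :
    cos θ ∈ Icc a 1 := by
  refine ⟨?_, cos_le_one θ⟩
  have h1 := cos_le_cos_of_nonneg_of_le_pi hθ.1 (arccos_le_pi a) hθ.2
  rwa [cos_arccos ha ha1] at h1

theorem g2o_rp {v : ℝ} (hv : 0 < v) (u θ : ℝ) : 0 < √((cos θ - u) ^ 2 + v ^ 2) :=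
  Real.sqrt_pos.2 (by positivity)

theorem g2o_J0 (n : ℕ) (hn : 1 ≤ n) (α : ℝ) (hα : 0 ≤ α) (hαπ : α ≤ π) :
    (∫ θ in (0 : ℝ)..α, (sin θ + 1 / (n : ℝ))) ≤ 2 * π := by
  have hn0 : (1 : ℝ) ≤ n := by exact_mod_cast hn
  have h1 : (∫ θ in (0 : ℝ)..α, (sin θ + 1 / (n : ℝ))) ≤ ∫ θ in (0 : ℝ)..α, (2 : ℝ) := by
    refine integral_mono_on hα (Continuous.intervalIntegrable (by fun_prop) _ _)
      (Continuous.intervalIntegrable (by fun_prop) _ _) fun θ _ => ?_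
    have h2 : 1 / (n : ℝ) ≤ 1 := by
      rw [div_le_one (by linarith)]
      exact hn0
    linarith [sin_le_one θ]
  rw [intervalIntegral.integral_const, smul_eq_mul] at h1
  linarith

theorem g2o_IA {n : ℕ} {δ c a : ℝ} {P : ℝ[X]} {z : ℂ} (S : G2oS n δ c a P z) :
    (∫ θ in (0 : ℝ)..(arccos a), (8 + 4 / √((cos θ - z.re) ^ 2 + z.im ^ 2)) *
      (sin θ + 1 / n)) ≤ (16 * π + 4 * (2 * (1 + π / √δ) * (2 + 4 / c) + 4 / c)) *
        (1 + Real.log n) := by
  have hn1 : 1 ≤ n := by have := S.hn; omega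
  have hn0 : (1 : ℝ) ≤ n := by exact_mod_cast hn1
  have hL : 0 ≤ Real.log n := Real.log_nonneg hn0
  have hδ := S.hδ
  have hc := S.hc
  have hv := S.hv
  have hsd : 0 < √δ := Real.sqrt_pos.2 hδ
  obtain ⟨hs1, hs2, hα⟩ := g2o_set hδ S.hδ4 S.ha S.ha'
  have h1 := g2o_I1 n hn1 (arccos a) c (1 + π / √δ) z.re z.im hα (arccos_le_pi a) hc
    (by positivity) hv (g2o_M hδ S.hδ4 S.ha S.ha') S.hr
  have h2 := g2o_J0 n hn1 (arccos a) hα.le (arccos_le_pi a)
  have hc1 : Continuous fun θ => (sin θ + 1 / n) / √((cos θ - z.re) ^ 2 + z.im ^ 2) :=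
    Continuous.div (by fun_prop) (by fun_prop) fun θ => (g2o_rp hv _ θ).ne'
  have hc2 : Continuous fun θ : ℝ => (sin θ + 1 / (n : ℝ)) := by fun_prop
  have e : (∫ θ in (0 : ℝ)..(arccos a), (8 + 4 / √((cos θ - z.re) ^ 2 + z.im ^ 2)) *
      (sin θ + 1 / n)) = 8 * (∫ θ in (0 : ℝ)..(arccos a), (sin θ + 1 / (n : ℝ))) +
      4 * ∫ θ in (0 : ℝ)..(arccos a), (sin θ + 1 / n) / √((cos θ - z.re) ^ 2 + z.im ^ 2) := by
    rw [← intervalIntegral.integral_const_mul, ← intervalIntegral.integral_const_mul,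
      ← integral_add ((hc2.intervalIntegrable _ _).const_mul 8)
        ((hc1.intervalIntegrable _ _).const_mul 4)]
    refine integral_congr fun θ _ => ?_
    ring
  rw [e]
  have h3 : 0 ≤ 4 / c * Real.log n := by positivity
  have h4 : 0 ≤ π * Real.log n := mul_nonneg pi_pos.le hL
  nlinarith

theorem g2o_A (hA2 : A2) (hG0 : G0) (hG0u : G0u) (hG1u : G1u) (hG2au : G2au) (δ : ℝ)
    (hδ : 0 < δ) (hδ4 : δ ≤ 1 / 4) : ∃ n0 : ℕ, ∀ n ≥ n0, ∀ (a : ℝ) (P : ℝ[X]) (z : ℂ),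
    -1 + δ ≤ a → a ≤ 1 - δ → Ext n a 1 P → ND n (qq P) 0 (arccos a) →
    aeval z P.derivative = 0 → 0 < z.im →
    ∃ x ∈ Icc a 1, 9 * ((x - z.re) ^ 2 + z.im ^ 2) < (a - z.re) ^ 2 + z.im ^ 2 := by
  obtain ⟨K, hK, hest⟩ := g2o_est hA2 hG0u hG2au
  obtain ⟨c, hc, hG1⟩ := hG1u
  have hsd : 0 < √δ := Real.sqrt_pos.2 hδ
  set C1 : ℝ := 16 * π + 4 * (2 * (1 + π / √δ) * (2 + 4 / c) + 4 / c) with hC1
  have hC1p : 0 < C1 := by positivity
  obtain ⟨n2, hn2⟩ := Filter.eventually_atTop.1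
    ((g2o_tend (K * (1 + 1 / c) * 9 * C1)).eventually
      (gt_mem_nhds (show (0 : ℝ) < δ ^ 2 by positivity)))
  obtain ⟨n1, hn1⟩ := exists_nat_ge (1 / δ)
  refine ⟨max 2 (max n1 n2), ?_⟩
  intro n hn a P z ha ha' hE hND hz hv
  have hn2' : 2 ≤ n := le_trans (le_max_left _ _) hn
  have hnn1 : n1 ≤ n := le_trans (le_trans (le_max_left _ _) (le_max_right _ _)) hn
  have hnn2 : n2 ≤ n := le_trans (le_trans (le_max_right _ _) (le_max_right _ _)) hn
  have hsmall := hn2 n hnn2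
  have hn0 : (1 : ℝ) ≤ n := by exact_mod_cast (by omega : 1 ≤ n)
  have hnp : (0 : ℝ) < n := by linarith
  have hL : 0 ≤ Real.log n := Real.log_nonneg hn0
  have S : G2oS n δ c a P z := g2o_mk hn2' hδ hδ4 hc
    (hn1.trans (by exact_mod_cast hnn1)) hG1 ha ha' hE hND hz hv
  obtain ⟨hs1, hs2, hα⟩ := g2o_set hδ hδ4 ha ha'
  by_contra hcon
  push Not at hcon
  set Da : ℝ := (a - z.re) ^ 2 + z.im ^ 2 with hDa
  have hDap : 0 < Da := by positivity
  have hid := g2o_id hG0 (l := 1 - X) (by omega) (by linarith) (by linarith) hE hz hv (by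
    compute_degree)
  set f : ℝ → ℝ := fun x => ((((1 - X ^ 2) * (1 - X) : ℝ[X])).derivative.eval x *
    ((x - z.re) ^ 2 + z.im ^ 2) - ((1 - x ^ 2) * (1 - X : ℝ[X]).eval x) * (2 * (x - z.re))) /
    ((x - z.re) ^ 2 + z.im ^ 2) ^ 2 with hf
  have hfc : Continuous f := by
    rw [hf]
    refine Continuous.div (by fun_prop) (by fun_prop) fun x => ?_
    positivity
  have hw1 : ∀ θ ∈ Icc 0 (arccos a), -f (cos θ) ≤
      9 / Da * (8 + 4 / √((cos θ - z.re) ^ 2 + z.im ^ 2)) := by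
    intro θ hθ
    have hx := g2o_cs (by linarith) (by linarith) hθ
    have hcx := hcon _ hx
    have hrp := g2o_rp hv z.re θ
    have hrq : √((cos θ - z.re) ^ 2 + z.im ^ 2) ^ 2 = (cos θ - z.re) ^ 2 + z.im ^ 2 :=
      Real.sq_sqrt (by positivity)
    have h1 := g2o_fA (neg_one_le_cos θ) hx.2 hrp hrq
    refine h1.trans ?_
    refine mul_le_mul_of_nonneg_right ?_ (by positivity)
    rw [hrq, div_le_div_iff₀ (by positivity) hDap]
    linarith
  have hw2 : ∀ x ∈ Icc 0 (arccos a), ∀ y ∈ Icc 0 (arccos a), |x - y| ≤ 1 / (n : ℝ) →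
      9 / Da * (8 + 4 / √((cos x - z.re) ^ 2 + z.im ^ 2)) ≤
      (1 + 1 / c) * (9 / Da * (8 + 4 / √((cos y - z.re) ^ 2 + z.im ^ 2))) := by
    intro x hx y hy hxy
    have h1 := g2o_slow (by omega) z hc (g2o_sn hx) (by rwa [abs_sub_comm] at hxy)
      (S.hr x hx)
    set r1 := √((cos x - z.re) ^ 2 + z.im ^ 2) with hr1
    set r2 := √((cos y - z.re) ^ 2 + z.im ^ 2) with hr2
    have hp1 : 0 < r1 := g2o_rp hv z.re x
    have hp2 : 0 < r2 := g2o_rp hv z.re y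
    have hcc : 0 < 1 / c := by positivity
    have h2 : 4 / r1 ≤ (1 + 1 / c) * (4 / r2) := by
      rw [← mul_div_assoc, div_le_div_iff₀ hp1 hp2]
      nlinarith
    have h3 : 8 + 4 / r1 ≤ (1 + 1 / c) * (8 + 4 / r2) := by nlinarith
    calc 9 / Da * (8 + 4 / r1) ≤ 9 / Da * ((1 + 1 / c) * (8 + 4 / r2)) :=
          mul_le_mul_of_nonneg_left h3 (by positivity)
      _ = (1 + 1 / c) * (9 / Da * (8 + 4 / r2)) := by ring
  have hcw : Continuous fun θ : ℝ => 9 / Da * (8 + 4 / √((cos θ - z.re) ^ 2 + z.im ^ 2)) :=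
    continuous_const.mul (continuous_const.add
      (continuous_const.div (by fun_prop) fun θ => (g2o_rp hv _ θ).ne'))
  have hest1 := hest n a (1 + 1 / c) P (fun x => -f x)
    (fun θ => 9 / Da * (8 + 4 / √((cos θ - z.re) ^ 2 + z.im ^ 2))) hn2' (by linarith)
    (by linarith) S.hnα (natDegree_le_of_degree_le hE.deg) hE.bdd hND hfc.neg.continuousOn
    hcw.continuousOn (fun θ _ => by
      have := g2o_rp hv z.re θ
      positivity) hw1 (by
      have : 0 < 1 / c := by positivity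
      linarith) hw2
  have hI := g2o_IA S
  rw [← hC1] at hI
  have e1 : (∫ θ in (0 : ℝ)..(arccos a), 9 / Da *
      (8 + 4 / √((cos θ - z.re) ^ 2 + z.im ^ 2)) * (sin θ + 1 / n)) = 9 / Da *
      ∫ θ in (0 : ℝ)..(arccos a), (8 + 4 / √((cos θ - z.re) ^ 2 + z.im ^ 2)) *
      (sin θ + 1 / n) := by
    rw [← intervalIntegral.integral_const_mul]
    refine integral_congr fun θ _ => ?_
    ring
  have e2 : (∫ x in a..1, -f x / √(1 + P.derivative.eval x ^ 2)) =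
      (1 - a ^ 2) * (1 - a) / Da * √(1 + P.derivative.eval a ^ 2) := by
    have e3 : (∫ x in a..1, -f x / √(1 + P.derivative.eval x ^ 2)) =
        -∫ x in a..1, f x / √(1 + P.derivative.eval x ^ 2) := by
      rw [← intervalIntegral.integral_neg]
      refine integral_congr fun x _ => ?_
      ring
    have e4 : (1 - X : ℝ[X]).eval a = 1 - a := by simp
    rw [e3, ← hid, e4, neg_neg]
  rw [e1, e2] at hest1
  have h1 : δ ^ 2 / Da ≤ (1 - a ^ 2) * (1 - a) / Da * √(1 + P.derivative.eval a ^ 2) := by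
    have k1 : 1 ≤ √(1 + P.derivative.eval a ^ 2) := by
      rw [Real.one_le_sqrt]
      nlinarith [sq_nonneg (P.derivative.eval a)]
    have k2 : δ ^ 2 ≤ (1 - a ^ 2) * (1 - a) := by
      rw [pow_two]
      exact mul_le_mul hs1 (by linarith) hδ.le (by linarith)
    calc δ ^ 2 / Da ≤ (1 - a ^ 2) * (1 - a) / Da := div_le_div_of_nonneg_right k2 hDap.le
      _ = (1 - a ^ 2) * (1 - a) / Da * 1 := by ring
      _ ≤ _ := mul_le_mul_of_nonneg_left k1 (div_nonneg (le_trans (by positivity) k2) hDap.le)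
  have h2 : K * (1 + 1 / c) * (1 + Real.log n) / n * (9 / Da *
      ∫ θ in (0 : ℝ)..(arccos a), (8 + 4 / √((cos θ - z.re) ^ 2 + z.im ^ 2)) *
      (sin θ + 1 / n)) ≤ K * (1 + 1 / c) * (1 + Real.log n) / n * (9 / Da *
      (C1 * (1 + Real.log n))) := by
    refine mul_le_mul_of_nonneg_left (mul_le_mul_of_nonneg_left hI (by positivity)) ?_
    positivity
  have h3 : K * (1 + 1 / c) * (1 + Real.log n) / n * (9 / Da *
      (C1 * (1 + Real.log n))) = (K * (1 + 1 / c) * 9 * C1 * (1 + Real.log n) ^ 2 / n) / Da := by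
    ring
  have h4 : δ ^ 2 / Da ≤ (K * (1 + 1 / c) * 9 * C1 * (1 + Real.log n) ^ 2 / n) / Da := by
    rw [← h3]
    exact (h1.trans hest1).trans h2
  rw [div_le_div_iff_of_pos_right hDap] at h4
  linarith

theorem g2o_IB {n : ℕ} {δ c a : ℝ} {P : ℝ[X]} {z : ℂ} (S : G2oS n δ c a P z) :
    (∫ θ in (0 : ℝ)..(arccos a), (2 / √((cos θ - z.re) ^ 2 + z.im ^ 2) +
      (sin θ + 1 / n) ^ 2 * z.im / √((cos θ - z.re) ^ 2 + z.im ^ 2) ^ 3) *
      (sin θ + 1 / n)) ≤ (2 * (2 * (1 + π / √δ) * (2 + 4 / c) + 4 / c) +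
        (1 + π / √δ) ^ 3 * (4 + 2 * π) + 8 / c ^ 2) *
        ((1 + Real.log n) + max (1 - z.re) 0 / z.im) := by
  have hn1 : 1 ≤ n := by have := S.hn; omega
  have hn0 : (1 : ℝ) ≤ n := by exact_mod_cast hn1
  have hL : 0 ≤ Real.log n := Real.log_nonneg hn0
  have hδ := S.hδ
  have hc := S.hc
  have hv := S.hv
  have hsd : 0 < √δ := Real.sqrt_pos.2 hδ
  obtain ⟨hs1, hs2, hα⟩ := g2o_set hδ S.hδ4 S.ha S.ha'
  set M : ℝ := 1 + π / √δ with hM
  have hM0 : 0 < M := by positivity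
  have h1 := g2o_I1 n hn1 (arccos a) c M z.re z.im hα (arccos_le_pi a) hc
    hM0.le hv (g2o_M hδ S.hδ4 S.ha S.ha') S.hr
  have h2 := g2o_I2 n hn1 (arccos a) c M z.re z.im hα (arccos_le_pi a) hc
    hM0.le hv (g2o_M hδ S.hδ4 S.ha S.ha') S.hr
  have hc1 : Continuous fun θ => (sin θ + 1 / n) / √((cos θ - z.re) ^ 2 + z.im ^ 2) :=
    Continuous.div (by fun_prop) (by fun_prop) fun θ => (g2o_rp hv _ θ).ne'
  have hc2 : Continuous fun θ => (sin θ + 1 / n) ^ 3 * z.im /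
      √((cos θ - z.re) ^ 2 + z.im ^ 2) ^ 3 :=
    Continuous.div (by fun_prop) (by fun_prop) fun θ => (pow_pos (g2o_rp hv _ θ) 3).ne'
  have e : (∫ θ in (0 : ℝ)..(arccos a), (2 / √((cos θ - z.re) ^ 2 + z.im ^ 2) +
      (sin θ + 1 / n) ^ 2 * z.im / √((cos θ - z.re) ^ 2 + z.im ^ 2) ^ 3) *
      (sin θ + 1 / n)) =
      2 * (∫ θ in (0 : ℝ)..(arccos a), (sin θ + 1 / n) / √((cos θ - z.re) ^ 2 + z.im ^ 2)) +
      ∫ θ in (0 : ℝ)..(arccos a), (sin θ + 1 / n) ^ 3 * z.im /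
        √((cos θ - z.re) ^ 2 + z.im ^ 2) ^ 3 := by
    rw [← intervalIntegral.integral_const_mul,
      ← integral_add ((hc1.intervalIntegrable _ _).const_mul 2) (hc2.intervalIntegrable _ _)]
    refine integral_congr fun θ _ => ?_
    ring
  rw [e]
  set W : ℝ := max (1 - z.re) 0 / z.im with hW
  have hW0 : 0 ≤ W := div_nonneg (le_max_right _ _) hv.le
  set E1 : ℝ := 2 * M * (2 + 4 / c) with hE1
  have hE1p : 0 < E1 := by positivity
  have hE2p : 0 < 4 / c := by positivity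
  have hE3p : 0 < 8 / c ^ 2 := by positivity
  set N : ℝ := M ^ 3 with hN
  have hNp : 0 < N := by positivity
  have k1 : 0 ≤ 4 / c * Real.log n := by positivity
  have k2 : 0 ≤ π * N * Real.log n := by positivity
  have k3 : 0 ≤ 8 / c ^ 2 * Real.log n := by positivity
  have k4 : 0 ≤ E1 * W := by positivity
  have k5 : 0 ≤ 4 / c * W := by positivity
  have k7 : 0 ≤ π * N * W := by positivity
  have k8 : 0 ≤ 8 / c ^ 2 * W := by positivity
  have k9 : 0 ≤ N * Real.log n := by positivity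
  have key : (2 * (E1 + 4 / c) + N * (4 + 2 * π) + 8 / c ^ 2) * (1 + Real.log n + W) =
      2 * (E1 * (1 + Real.log n) + 4 / c) + (N * (4 * W + 2 * π) + 8 / c ^ 2) +
      (2 * (E1 * W) + 2 * (4 / c * Real.log n) + 2 * (4 / c * W) + 4 * N +
        4 * (N * Real.log n) + 2 * (π * N * Real.log n) + 2 * (π * N * W) +
        8 / c ^ 2 * Real.log n + 8 / c ^ 2 * W) := by ring
  rw [key]
  linarith

theorem g2o_conseq {x a u v : ℝ} (hx1 : a ≤ x) (hx2 : x ≤ 1) (ha : -1 ≤ a) (hv : 0 < v)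
    (h : 9 * ((x - u) ^ 2 + v ^ 2) < (a - u) ^ 2 + v ^ 2) : a < u ∧ u < 2 ∧ v < u - a := by
  have h1 : a < u := by
    by_contra h'
    push Not at h'
    nlinarith [mul_nonneg (show 0 ≤ x - a by linarith) (show 0 ≤ a - u by linarith)]
  refine ⟨h1, ?_, ?_⟩
  · by_contra h'
    push Not at h'
    nlinarith [mul_nonneg (show 0 ≤ 1 - x by linarith) (show 0 ≤ u - 2 by linarith)]
  · by_contra h'
    push Not at h'
    nlinarith [sq_nonneg (x - u)]

theorem g2o_B (hA2 : A2) (hG0 : G0) (hG0u : G0u) (hG1u : G1u) (hG2au : G2au) (δ : ℝ)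
    (hδ : 0 < δ) (hδ4 : δ ≤ 1 / 4) : ∃ c K : ℝ, 0 < c ∧ 0 < K ∧ ∃ n0 : ℕ, ∀ n ≥ n0,
    ∀ (a : ℝ) (P : ℝ[X]) (z : ℂ),
    -1 + δ ≤ a → a ≤ 1 - δ → Ext n a 1 P → ND n (qq P) 0 (arccos a) →
    aeval z P.derivative = 0 → 0 < z.im → G2oS n δ c a P z ∧ (z.im ≤ z.re - a →
    δ * √(1 + P.derivative.eval a ^ 2) ≤ 2 * (z.re - a) * (K * (1 + Real.log n) / n *
      ((1 + Real.log n) + max (1 - z.re) 0 / z.im))) := by
  obtain ⟨K, hK, hest⟩ := g2o_est hA2 hG0u hG2au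
  obtain ⟨c, hc, hG1⟩ := hG1u
  have hsd : 0 < √δ := Real.sqrt_pos.2 hδ
  set C1 : ℝ := 2 * (2 * (1 + π / √δ) * (2 + 4 / c) + 4 / c) +
        (1 + π / √δ) ^ 3 * (4 + 2 * π) + 8 / c ^ 2 with hC1
  have hC1p : 0 < C1 := by positivity
  obtain ⟨n1, hn1⟩ := exists_nat_ge (1 / δ)
  refine ⟨c, K * (4 * (1 + 1 / c) ^ 3) * C1, hc, by positivity, max 2 n1, ?_⟩
  intro n hn a P z ha ha' hE hND hz hv
  have hn2' : 2 ≤ n := le_trans (le_max_left _ _) hn
  have hnn1 : n1 ≤ n := le_trans (le_max_right _ _) hn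
  have hn0 : (1 : ℝ) ≤ n := by exact_mod_cast (by omega : 1 ≤ n)
  have hnp : (0 : ℝ) < n := by linarith
  have hL : 0 ≤ Real.log n := Real.log_nonneg hn0
  have S : G2oS n δ c a P z := g2o_mk hn2' hδ hδ4 hc
    (hn1.trans (by exact_mod_cast hnn1)) hG1 ha ha' hE hND hz hv
  refine ⟨S, fun hvu => ?_⟩
  obtain ⟨hs1, hs2, hα⟩ := g2o_set hδ hδ4 ha ha'
  set Da : ℝ := (a - z.re) ^ 2 + z.im ^ 2 with hDa
  have hDap : 0 < Da := by positivity
  have hid := g2o_id hG0 (l := X - C z.re) (by omega) (by linarith) (by linarith) hE hz hv (by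
    rw [natDegree_X_sub_C])
  set f : ℝ → ℝ := fun x => ((((1 - X ^ 2) * (X - C z.re) : ℝ[X])).derivative.eval x *
    ((x - z.re) ^ 2 + z.im ^ 2) - ((1 - x ^ 2) * (X - C z.re : ℝ[X]).eval x) *
      (2 * (x - z.re))) / ((x - z.re) ^ 2 + z.im ^ 2) ^ 2 with hf
  have hfc : Continuous f := by
    rw [hf]
    refine Continuous.div (by fun_prop) (by fun_prop) fun x => ?_
    positivity
  have hw1 : ∀ θ ∈ Icc 0 (arccos a), f (cos θ) ≤
      2 / √((cos θ - z.re) ^ 2 + z.im ^ 2) +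
      (sin θ + 1 / n) ^ 2 * z.im / √((cos θ - z.re) ^ 2 + z.im ^ 2) ^ 3 := by
    intro θ hθ
    have hrp := g2o_rp hv z.re θ
    have hrq : √((cos θ - z.re) ^ 2 + z.im ^ 2) ^ 2 = (cos θ - z.re) ^ 2 + z.im ^ 2 :=
      Real.sq_sqrt (by positivity)
    have h1 := g2o_fB (neg_one_le_cos θ) (cos_le_one θ) hv hrp hrq
    refine h1.trans ?_
    have hsn := g2o_sn hθ
    have h2 : 1 - cos θ ^ 2 ≤ (sin θ + 1 / n) ^ 2 := by
      have e1 : 1 - cos θ ^ 2 = sin θ ^ 2 := by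
        have := sin_sq_add_cos_sq θ
        linarith
      rw [e1]
      refine pow_le_pow_left₀ hsn ?_ 2
      have : (0 : ℝ) < 1 / n := by positivity
      linarith
    have h3 : (1 - cos θ ^ 2) * z.im / √((cos θ - z.re) ^ 2 + z.im ^ 2) ^ 3 ≤
        (sin θ + 1 / n) ^ 2 * z.im / √((cos θ - z.re) ^ 2 + z.im ^ 2) ^ 3 :=
      div_le_div_of_nonneg_right (mul_le_mul_of_nonneg_right h2 hv.le) (by positivity)
    linarith
  have hw2 : ∀ x ∈ Icc 0 (arccos a), ∀ y ∈ Icc 0 (arccos a), |x - y| ≤ 1 / (n : ℝ) →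
      2 / √((cos x - z.re) ^ 2 + z.im ^ 2) +
      (sin x + 1 / n) ^ 2 * z.im / √((cos x - z.re) ^ 2 + z.im ^ 2) ^ 3 ≤
      (4 * (1 + 1 / c) ^ 3) * (2 / √((cos y - z.re) ^ 2 + z.im ^ 2) +
      (sin y + 1 / n) ^ 2 * z.im / √((cos y - z.re) ^ 2 + z.im ^ 2) ^ 3) := by
    intro x hx y hy hxy
    have h1 := g2o_slow (by omega) z hc (g2o_sn hx) (by rwa [abs_sub_comm] at hxy)
      (S.hr x hx)
    set r1 := √((cos x - z.re) ^ 2 + z.im ^ 2) with hr1
    set r2 := √((cos y - z.re) ^ 2 + z.im ^ 2) with hr2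
    have hp1 : 0 < r1 := g2o_rp hv z.re x
    have hp2 : 0 < r2 := g2o_rp hv z.re y
    have hcc : 0 < 1 / c := by positivity
    set B : ℝ := 1 + 1 / c with hB
    have hB1 : 1 ≤ B := by linarith
    have hB3 : B ≤ 4 * B ^ 3 := by
      have h21 : B ≤ B ^ 3 := le_self_pow₀ hB1 (by norm_num)
      have h22 : 0 ≤ B ^ 3 := by positivity
      linarith
    have h2 : 2 / r1 ≤ (4 * B ^ 3) * (2 / r2) := by
      have h21 : 2 / r1 ≤ B * (2 / r2) := by
        rw [← mul_div_assoc, div_le_div_iff₀ hp1 hp2]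
        linarith
      exact h21.trans (mul_le_mul_of_nonneg_right hB3 (by positivity))
    have hsx := g2o_sn hx
    have hsy := g2o_sn hy
    have h1n : (0 : ℝ) < 1 / n := by positivity
    have hss : sin x + 1 / n ≤ 2 * (sin y + 1 / n) := by
      have h3 : |sin x - sin y| ≤ |x - y| := by
        have := Real.abs_sin_sub_sin_le x y
        simpa using this
      have h4 := (le_abs_self _).trans (h3.trans hxy)
      linarith
    have h5 : (sin x + 1 / n) ^ 2 ≤ 4 * (sin y + 1 / n) ^ 2 := by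
      calc (sin x + 1 / n) ^ 2 ≤ (2 * (sin y + 1 / n)) ^ 2 :=
            pow_le_pow_left₀ (by positivity) hss 2
        _ = 4 * (sin y + 1 / n) ^ 2 := by ring
    have h6 : r2 ^ 3 ≤ (B * r1) ^ 3 := pow_le_pow_left₀ hp2.le h1 3
    have h7 : (sin x + 1 / n) ^ 2 * z.im / r1 ^ 3 ≤
        (4 * B ^ 3) * ((sin y + 1 / n) ^ 2 * z.im / r2 ^ 3) := by
      rw [← mul_div_assoc, div_le_div_iff₀ (by positivity) (by positivity)]
      calc (sin x + 1 / n) ^ 2 * z.im * r2 ^ 3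
          ≤ (4 * (sin y + 1 / n) ^ 2) * z.im * (B * r1) ^ 3 := by
            refine mul_le_mul (mul_le_mul_of_nonneg_right h5 hv.le) h6 (by positivity)
              (by positivity)
        _ = 4 * B ^ 3 * ((sin y + 1 / n) ^ 2 * z.im) * r1 ^ 3 := by ring
    rw [mul_add]
    exact add_le_add h2 h7
  have hcw : Continuous fun θ : ℝ => 2 / √((cos θ - z.re) ^ 2 + z.im ^ 2) +
      (sin θ + 1 / n) ^ 2 * z.im / √((cos θ - z.re) ^ 2 + z.im ^ 2) ^ 3 :=
    (continuous_const.div (by fun_prop) fun θ => (g2o_rp hv _ θ).ne').add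
      (Continuous.div (by fun_prop) (by fun_prop) fun θ => (pow_pos (g2o_rp hv _ θ) 3).ne')
  have hest1 := hest n a (4 * (1 + 1 / c) ^ 3) P f
    (fun θ => 2 / √((cos θ - z.re) ^ 2 + z.im ^ 2) +
      (sin θ + 1 / n) ^ 2 * z.im / √((cos θ - z.re) ^ 2 + z.im ^ 2) ^ 3) hn2' (by linarith)
    (by linarith) S.hnα (natDegree_le_of_degree_le hE.deg) hE.bdd hND hfc.continuousOn
    hcw.continuousOn (fun θ hθ => by
      have := g2o_rp hv z.re θ
      positivity) hw1 (by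
      have h1 : 0 < 1 / c := by positivity
      have h2 := one_le_pow₀ (show 1 ≤ 1 + 1 / c by linarith) (n := 3)
      linarith) hw2
  have hI := g2o_IB S
  rw [← hC1] at hI
  rw [← hid] at hest1
  have e4 : (X - C z.re : ℝ[X]).eval a = a - z.re := by simp
  rw [e4] at hest1
  set Φ : ℝ := √(1 + P.derivative.eval a ^ 2) with hΦ
  have hΦ0 : 0 < Φ := Real.sqrt_pos.2 (by positivity)
  set U : ℝ := z.re - a with hU
  have hU0 : 0 < U := by linarith
  have h1 : -((1 - a ^ 2) * (a - z.re) / Da * Φ) = (1 - a ^ 2) * U / Da * Φ := by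
    rw [hU]
    ring
  rw [h1] at hest1
  have hDaU : Da ≤ 2 * U ^ 2 := by
    have e5 : (a - z.re) ^ 2 = U ^ 2 := by rw [hU]; ring
    rw [hDa, e5]
    have : z.im ^ 2 ≤ U ^ 2 := pow_le_pow_left₀ hv.le hvu 2
    linarith
  have h2 : δ * Φ / (2 * U) ≤ (1 - a ^ 2) * U / Da * Φ := by
    have h3 : δ / (2 * U) ≤ (1 - a ^ 2) * U / Da := by
      rw [div_le_div_iff₀ (by positivity) hDap]
      calc δ * Da ≤ (1 - a ^ 2) * (2 * U ^ 2) := mul_le_mul hs1 hDaU hDap.le (by linarith)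
        _ = (1 - a ^ 2) * U * (2 * U) := by ring
    calc δ * Φ / (2 * U) = δ / (2 * U) * Φ := by ring
      _ ≤ _ := mul_le_mul_of_nonneg_right h3 hΦ0.le
  have h4 : K * (4 * (1 + 1 / c) ^ 3) * (1 + Real.log n) / n *
      (∫ θ in (0 : ℝ)..(arccos a), (2 / √((cos θ - z.re) ^ 2 + z.im ^ 2) +
      (sin θ + 1 / n) ^ 2 * z.im / √((cos θ - z.re) ^ 2 + z.im ^ 2) ^ 3) *
      (sin θ + 1 / n)) ≤ K * (4 * (1 + 1 / c) ^ 3) * (1 + Real.log n) / n *
      (C1 * ((1 + Real.log n) + max (1 - z.re) 0 / z.im)) :=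
    mul_le_mul_of_nonneg_left hI (by positivity)
  have h5 := (h2.trans hest1).trans h4
  rw [div_le_iff₀ (by positivity)] at h5
  calc δ * Φ ≤ _ := h5
    _ = _ := by ring

theorem g2o (hA1 : A1) (hA2 : A2) (hG0 : G0) (hG0u : G0u) (hG1u : G1u) (hG2au : G2au) :
    G2o := by
  intro δ hδ hδ4
  obtain ⟨c, C3, hc, hC3, n1, hB⟩ := g2o_B hA2 hG0 hG0u hG1u hG2au δ hδ hδ4
  obtain ⟨n2, hA⟩ := g2o_A hA2 hG0 hG0u hG1u hG2au δ hδ hδ4
  obtain ⟨n3, hn3⟩ := Filter.eventually_atTop.1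
    ((g2o_tend (6 * C3)).eventually
      (gt_mem_nhds (show (0 : ℝ) < δ / 2 by positivity)))
  have hsd : 0 < √δ := Real.sqrt_pos.2 hδ
  set K1 : ℝ := 24 * C3 / δ with hK1
  set K3 : ℝ := 144 * C3 ^ 2 / (c ^ 2 * δ ^ 3) with hK3
  set K4 : ℝ := 2 * C3 * (1 + 2 / (c * √δ)) / δ with hK4
  have hK1p : 0 < K1 := by positivity
  have hK3p : 0 < K3 := by positivity
  have hK4p : 0 < K4 := by positivity
  refine ⟨K1 + K3 + 2 * K4, by positivity, max 2 (max n1 (max n2 n3)), ?_⟩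
  intro n hn a P z ha ha' hE hND hz hv
  have hn2' : 2 ≤ n := le_trans (le_max_left _ _) hn
  have hnn := le_trans (le_max_right _ _) hn
  have hnn1 : n1 ≤ n := le_trans (le_max_left _ _) hnn
  have hnn' := le_trans (le_max_right _ _) hnn
  have hnn2 : n2 ≤ n := le_trans (le_max_left _ _) hnn'
  have hnn3 : n3 ≤ n := le_trans (le_max_right _ _) hnn'
  have hn0 : (1 : ℝ) ≤ n := by exact_mod_cast (by omega : 1 ≤ n)
  have hnp : (0 : ℝ) < n := by linarith
  have hL : 0 ≤ Real.log n := Real.log_nonneg hn0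
  have hsm := hn3 n hnn3
  obtain ⟨x, hx, hAx⟩ := hA n hnn2 a P z ha ha' hE hND hz hv
  obtain ⟨S, hB'⟩ := hB n hnn1 a P z ha ha' hE hND hz hv
  obtain ⟨hs1, hs2, hα⟩ := g2o_set hδ hδ4 ha ha'
  -- consequences of step A
  obtain ⟨hua, hu2, hvu⟩ := g2o_conseq hx.1 hx.2 (by linarith) hv hAx
  have hB2 := hB' hvu.le
  set u := z.re with hu
  set v := z.im with hvv
  set Φ : ℝ := √(1 + P.derivative.eval a ^ 2) with hΦ
  have hΦ1 : 1 ≤ Φ := by
    rw [hΦ, Real.one_le_sqrt]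
    linarith [sq_nonneg (P.derivative.eval a)]
  have hPΦ : |P.derivative.eval a| ≤ Φ := by
    rw [hΦ]
    refine Real.le_sqrt_of_sq_le ?_
    rw [sq_abs]
    linarith
  set Ln : ℝ := 1 + Real.log n with hLn
  have hLn1 : 1 ≤ Ln := by linarith
  have hU3 : u - a ≤ 3 := by linarith
  have hU0 : 0 < u - a := by linarith
  set W : ℝ := max (1 - u) 0 with hW
  have hW0 : 0 ≤ W := le_max_right _ _
  -- the upper bound for v
  have h1 : δ / 2 ≤ 6 * C3 * Ln / n * (W / v) := by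
    have k1 : 2 * (u - a) * (C3 * Ln / n * (Ln + W / v)) ≤
        6 * (C3 * Ln / n * (Ln + W / v)) :=
      mul_le_mul_of_nonneg_right (by linarith) (by positivity)
    have k2 : δ ≤ δ * Φ := le_mul_of_one_le_right hδ.le hΦ1
    have k3 : 6 * (C3 * Ln / n * (Ln + W / v)) =
      6 * C3 * Ln ^ 2 / n + 6 * C3 * Ln / n * (W / v) := by ring
    linarith
  have hu1 : u < 1 := by
    by_contra h
    push Not at h
    have : W = 0 := max_eq_right (by linarith)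
    rw [this] at h1
    simp only [zero_div, mul_zero] at h1
    linarith
  have hWe : W = 1 - u := max_eq_left (by linarith)
  rw [hWe] at h1 hB2
  have h2 : v ≤ 12 * C3 / δ * (Ln / n) * (1 - u) := by
    rw [← mul_div_assoc, le_div_iff₀ hv] at h1
    have k1 : 12 * C3 / δ * (Ln / n) * (1 - u) = (6 * C3 * Ln / n * (1 - u)) * (2 / δ) := by
      field_simp
      ring
    rw [k1]
    calc v = δ / 2 * v * (2 / δ) := by field_simp
      _ ≤ _ := mul_le_mul_of_nonneg_right h1 (by positivity)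
  have hg1 : v ≤ K1 * Ln / n := by
    refine h2.trans ?_
    have k1 : 1 - u ≤ 2 := by linarith
    calc 12 * C3 / δ * (Ln / n) * (1 - u) ≤ 12 * C3 / δ * (Ln / n) * 2 :=
          mul_le_mul_of_nonneg_left k1 (by positivity)
      _ = K1 * Ln / n := by rw [hK1]; ring
  -- the lower bound for v
  have h3 : c * √δ * √(1 - u) / n ≤ v := by
    have k1 : arccos u ∈ Icc 0 (arccos a) := ⟨arccos_nonneg _, arccos_le_arccos hua.le⟩
    have k2 := S.hr _ k1
    rw [cos_arccos (by linarith) hu1.le, sin_arccos, sub_self] at k2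
    have k3 : √(0 ^ 2 + v ^ 2) = v := by
      rw [zero_pow two_ne_zero, zero_add]
      exact Real.sqrt_sq hv.le
    rw [k3] at k2
    refine le_trans ?_ k2
    have k4 : √δ * √(1 - u) ≤ √(1 - u ^ 2) := by
      rw [← Real.sqrt_mul hδ.le]
      refine Real.sqrt_le_sqrt ?_
      have k6 := mul_nonneg (show 0 ≤ 1 + u - δ by linarith) (show 0 ≤ 1 - u by linarith)
      have k7 : (1 + u - δ) * (1 - u) = 1 - u ^ 2 - δ * (1 - u) := by ring
      linarith
    have k5 : c * √δ * √(1 - u) / n = c * (√δ * √(1 - u)) / n := by ring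
    rw [k5]
    refine div_le_div_of_nonneg_right (mul_le_mul_of_nonneg_left ?_ hc.le) hnp.le
    have : (0 : ℝ) < 1 / n := by positivity
    linarith
  set q : ℝ := √(1 - u) with hq
  have hq0 : 0 < q := Real.sqrt_pos.2 (by linarith)
  have hq2 : q ^ 2 = 1 - u := Real.sq_sqrt (by linarith)
  rw [← hq2] at h2 hB2
  have h4 : c * √δ * δ ≤ 12 * C3 * Ln * q := by
    have k1 := h3.trans h2
    rw [div_le_iff₀ hnp] at k1
    have k2 : 12 * C3 / δ * (Ln / n) * q ^ 2 * n = (12 * C3 * Ln * q) * (q / δ) := by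
      field_simp
    rw [k2] at k1
    have k3 : c * √δ * q = (c * √δ * δ) * (q / δ) := by field_simp
    rw [k3] at k1
    exact le_of_mul_le_mul_right k1 (by positivity)
  have hg3 : 1 / (K3 * Ln ^ 2) ≤ 1 - u := by
    rw [← hq2, div_le_iff₀ (by positivity)]
    have k1 : (c * √δ * δ) ^ 2 ≤ (12 * C3 * Ln * q) ^ 2 :=
      pow_le_pow_left₀ (by positivity) h4 2
    have k2 : (c * √δ * δ) ^ 2 = c ^ 2 * δ ^ 3 := by
      have : √δ ^ 2 = δ := Real.sq_sqrt hδ.le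
      calc (c * √δ * δ) ^ 2 = c ^ 2 * √δ ^ 2 * δ ^ 2 := by ring
        _ = c ^ 2 * δ ^ 3 := by rw [this]; ring
    have k3 : q ^ 2 * (K3 * Ln ^ 2) = (12 * C3 * Ln * q) ^ 2 / (c ^ 2 * δ ^ 3) := by
      rw [hK3]
      ring
    rw [k3, le_div_iff₀ (by positivity), one_mul, ← k2]
    exact k1
  have hLnn : Ln / n ≤ 1 := by
    rw [div_le_one hnp, hLn]
    have := Real.log_le_sub_one_of_pos hnp
    linarith
  have h5 : q ^ 2 / v ≤ 2 * n / (c * √δ) := by
    rw [div_le_div_iff₀ hv (by positivity)]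
    rw [div_le_iff₀ hnp] at h3
    have k1 : q ≤ 2 := by
      rw [hq]
      refine (Real.sqrt_le_left (by norm_num)).2 ?_
      linarith
    calc q ^ 2 * (c * √δ) = q * (c * √δ * q) := by ring
      _ ≤ q * (v * n) := mul_le_mul_of_nonneg_left h3 hq0.le
      _ ≤ 2 * (v * n) := mul_le_mul_of_nonneg_right k1 (by positivity)
      _ = 2 * n * v := by ring
  have h6 : Φ ≤ K4 * Ln * (u - a) := by
    have k1 : C3 * Ln / n * (Ln + q ^ 2 / v) ≤ C3 * Ln * (1 + 2 / (c * √δ)) := by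
      calc C3 * Ln / n * (Ln + q ^ 2 / v) ≤ C3 * Ln / n * (Ln + 2 * n / (c * √δ)) :=
            mul_le_mul_of_nonneg_left (by linarith) (by positivity)
        _ = C3 * Ln * (Ln / n + 2 / (c * √δ)) := by
            field_simp
        _ ≤ C3 * Ln * (1 + 2 / (c * √δ)) :=
            mul_le_mul_of_nonneg_left (by linarith) (by positivity)
    have k2 : δ * Φ ≤ 2 * (u - a) * (C3 * Ln * (1 + 2 / (c * √δ))) :=
      hB2.trans (mul_le_mul_of_nonneg_left k1 (by linarith))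
    have k3 : K4 * Ln * (u - a) = 2 * (u - a) * (C3 * Ln * (1 + 2 / (c * √δ))) / δ := by
      rw [hK4]
      ring
    rw [k3, le_div_iff₀ hδ]
    linarith
  have hKs1 : K1 ≤ K1 + K3 + 2 * K4 := by linarith
  have hKs3 : K3 ≤ K1 + K3 + 2 * K4 := by linarith
  have hKs4 : 2 * K4 ≤ K1 + K3 + 2 * K4 := by linarith
  have hKs5 : K4 ≤ K1 + K3 + 2 * K4 := by linarith
  set KK : ℝ := K1 + K3 + 2 * K4 with hKK
  have hKKp : 0 < KK := by positivity
  refine ⟨?_, ?_, ?_, ?_⟩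
  · refine hg1.trans ?_
    exact div_le_div_of_nonneg_right (mul_le_mul_of_nonneg_right hKs1 (by linarith)) hnp.le
  · have k1 : 1 / (KK * Ln) ≤ u - a := by
      rw [div_le_iff₀ (by positivity)]
      have k2 : K4 * Ln * (u - a) ≤ KK * Ln * (u - a) :=
        mul_le_mul_of_nonneg_right (mul_le_mul_of_nonneg_right hKs5 (by linarith)) hU0.le
      have k3 : (u - a) * (KK * Ln) = KK * Ln * (u - a) := by ring
      linarith
    linarith
  · have k1 : 1 / (KK * Ln ^ 2) ≤ 1 / (K3 * Ln ^ 2) :=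
      one_div_le_one_div_of_le (by positivity)
        (mul_le_mul_of_nonneg_right hKs3 (by positivity))
    linarith
  · refine hPΦ.trans (h6.trans ?_)
    calc K4 * Ln * (u - a) ≤ K4 * Ln * 2 :=
          mul_le_mul_of_nonneg_left (by linarith) (by positivity)
      _ = (2 * K4) * Ln := by ring
      _ ≤ KK * Ln := mul_le_mul_of_nonneg_right hKs4 (by linarith)

end Pool.Agent.Helper10.AL
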