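import Pool.Agent.Helper10.AL.St7
import Pool.Agent.Helper10.AL.P.G2L
import Pool.Agent.Helper10.AL.P.G2o

/-!
Arc length of polynomials over windows, large degree: the first order condition at the non-real
critical points, large right gap.
-/

set_option autoImplicit false

namespace Pool.Agent.Helper10.AL

open Polynomial Set Real MeasureTheory intervalIntegral
open Pool.Agent.Helper40.AS (arc Bdd Ext quad)

noncomputable section

/-! ### geometry of the window -/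

theorem fR_C1 {η : ℝ} (hη : 0 < η) : 1 ≤ π / 2 * (1 + 1 / η) := by
  have h1 : 0 < 1 / η := by positivity
  have h2 := pi_gt_three
  nlinarith

theorem fR_le {x : ℝ} (h0 : 0 ≤ x) (h1 : x ≤ π / 2) : x ≤ π / 2 * sin x := by
  have h2 := mul_le_sin h0 h1
  have h3 : x = π / 2 * (2 / π * x) := by
    field_simp
  calc x = π / 2 * (2 / π * x) := h3
    _ ≤ π / 2 * sin x := mul_le_mul_of_nonneg_left h2 (by positivity)

theorem fR_geo1 {η α β θ : ℝ} (hη : 0 < η) (hβ0 : 0 ≤ β) (hα : α ≤ π)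
    (h : η * (α - β) ≤ β) (hθ : θ ∈ Icc β α) : sin θ ≤ π / 2 * (1 + 1 / η) * sin β := by
  have hC := fR_C1 hη
  have hS : 0 ≤ sin β := sin_nonneg_of_nonneg_of_le_pi hβ0 ((hθ.1.trans hθ.2).trans hα)
  rcases le_total β (π / 2) with h1 | h1
  · have h2 := fR_le hβ0 h1
    have h3 : α ≤ (1 + 1 / η) * β := by
      have h4 : α - β ≤ β / η := by
        rw [le_div_iff₀ hη]
        linarith
      have h5 : (1 + 1 / η) * β = β + β / η := by ring
      linarith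
    calc sin θ ≤ θ := sin_le (hβ0.trans hθ.1)
      _ ≤ α := hθ.2
      _ ≤ (1 + 1 / η) * β := h3
      _ ≤ (1 + 1 / η) * (π / 2 * sin β) := mul_le_mul_of_nonneg_left h2 (by positivity)
      _ = _ := by ring
  · have h2 : sin θ ≤ sin β := by
      rw [← sin_pi_sub θ, ← sin_pi_sub β]
      apply sin_le_sin_of_le_of_le_pi_div_two
      · linarith [hθ.2, pi_pos]
      · linarith
      · linarith [hθ.1]
    exact h2.trans (le_mul_of_one_le_left hS hC)

theorem fR_geo2 {η α β : ℝ} (hη : 0 < η) (hβ0 : 0 ≤ β) (hβα : β ≤ α) (hα : α ≤ π)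
    (h : η * (α - β) ≤ β) : α - β ≤ π / 2 * (1 + 1 / η) * sin β := by
  have hS : 0 ≤ sin β := sin_nonneg_of_nonneg_of_le_pi hβ0 (hβα.trans hα)
  have h0 : 0 < 1 / η := by positivity
  rcases le_total β (π / 2) with h1 | h1
  · have h2 := fR_le hβ0 h1
    have h4 : α - β ≤ β / η := by
      rw [le_div_iff₀ hη]
      linarith
    calc α - β ≤ β / η := h4
      _ = 1 / η * β := by ring
      _ ≤ 1 / η * (π / 2 * sin β) := mul_le_mul_of_nonneg_left h2 h0.le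
      _ ≤ (1 + 1 / η) * (π / 2 * sin β) := by
        apply mul_le_mul_of_nonneg_right _ (by positivity)
        linarith
      _ = _ := by ring
  · have h2 := fR_le (x := π - β) (by linarith) (by linarith)
    rw [sin_pi_sub] at h2
    calc α - β ≤ π - β := by linarith
      _ ≤ π / 2 * sin β := h2
      _ = 1 * (π / 2 * sin β) := by ring
      _ ≤ (1 + 1 / η) * (π / 2 * sin β) := by
        apply mul_le_mul_of_nonneg_right _ (by positivity)
        linarith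
      _ = _ := by ring

theorem fR_diff (α β : ℝ) :
    cos β - cos α = 2 * (sin ((α + β) / 2) * sin ((α - β) / 2)) := by
  rw [cos_sub_cos]
  have h1 : (β + α) / 2 = (α + β) / 2 := by ring
  have h2 : (β - α) / 2 = -((α - β) / 2) := by ring
  rw [h1, h2, sin_neg]
  ring

theorem fR_geo3 {C α β : ℝ} (hC : 0 ≤ C) (hβ0 : 0 ≤ β) (hβα : β ≤ α) (hα : α ≤ π)
    (h1 : ∀ θ ∈ Icc β α, sin θ ≤ C * sin β) (h2 : α - β ≤ C * sin β) :
    cos β - cos α ≤ C ^ 2 * sin β ^ 2 := by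
  have hS : 0 ≤ sin β := sin_nonneg_of_nonneg_of_le_pi hβ0 (hβα.trans hα)
  rw [fR_diff]
  have h3 := h1 ((α + β) / 2) ⟨by linarith, by linarith⟩
  have h4 : sin ((α - β) / 2) ≤ (α - β) / 2 := sin_le (by linarith)
  have h5 : 0 ≤ sin ((α - β) / 2) :=
    sin_nonneg_of_nonneg_of_le_pi (by linarith) (by linarith)
  have h6 : sin ((α + β) / 2) * sin ((α - β) / 2) ≤ (C * sin β) * (C * sin β / 2) := by
    apply mul_le_mul h3 (by linarith) h5 (by positivity)
  linarith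

theorem fR_geo4 {α β : ℝ} (hβ0 : 0 ≤ β) (hβα : β ≤ α) (hα : α ≤ π) :
    (α - β) * sin β ≤ 4 * (cos β - cos α) := by
  have hS : 0 ≤ sin β := sin_nonneg_of_nonneg_of_le_pi hβ0 (hβα.trans hα)
  have hSa : 0 ≤ sin α := sin_nonneg_of_nonneg_of_le_pi (hβ0.trans hβα) hα
  rw [fR_diff]
  have h1 : 0 ≤ sin ((α + β) / 2) :=
    sin_nonneg_of_nonneg_of_le_pi (by linarith) (by linarith)
  have h2 : (α - β) / 2 ≤ π / 2 * sin ((α - β) / 2) := fR_le (by linarith) (by linarith)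
  have h3 : sin α + sin β = 2 * (sin ((α + β) / 2) * cos ((α - β) / 2)) := by
    rw [sin_add_sin]
    ring
  have h4 : sin ((α + β) / 2) * cos ((α - β) / 2) ≤ sin ((α + β) / 2) * 1 :=
    mul_le_mul_of_nonneg_left (cos_le_one _) h1
  have h5 : sin β / 2 ≤ sin ((α + β) / 2) := by linarith
  have h6 : 0 ≤ sin ((α - β) / 2) :=
    sin_nonneg_of_nonneg_of_le_pi (by linarith) (by linarith)
  have h7 : (α - β) / 2 ≤ 2 * sin ((α - β) / 2) := by
    have := pi_le_four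
    nlinarith
  calc (α - β) * sin β = 4 * ((sin β / 2) * ((α - β) / 2)) := by ring
    _ ≤ 4 * (sin ((α + β) / 2) * (2 * sin ((α - β) / 2))) := by
        apply mul_le_mul_of_nonneg_left _ (by norm_num)
        exact mul_le_mul h5 h7 (by linarith) h1
    _ = _ := by ring

theorem fR_exc {n : ℕ} {α β θ : ℝ} (hn : 1 ≤ n) (hβ0 : 0 ≤ β) (hα : α ≤ π)
    (hS : 1 / (n : ℝ) ≤ sin β) (hθ : θ ∈ Icc β α) (h : sin θ < 1 / (n : ℝ)) :
    1 ≤ 7 / n * (n / (1 + n * (π - θ)) ^ 2) := by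
  have hn0 : (0 : ℝ) < n := by exact_mod_cast hn
  have h1 : π / 2 < θ := by
    by_contra hcon
    push Not at hcon
    have h2 : sin β ≤ sin θ := by
      apply sin_le_sin_of_le_of_le_pi_div_two
      · linarith [pi_pos]
      · exact hcon
      · exact hθ.1
    linarith
  have h2 := fR_le (x := π - θ) (by linarith [hθ.2]) (by linarith)
  rw [sin_pi_sub] at h2
  have h3 : π - θ ≤ 1.6 * (1 / n) := by
    have := pi_lt_d2
    have h4 : (0 : ℝ) < 1 / n := by positivity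
    have h5 : 0 ≤ sin θ := sin_nonneg_of_nonneg_of_le_pi (hβ0.trans hθ.1) (hθ.2.trans hα)
    nlinarith
  have h4 : n * (π - θ) ≤ 1.6 := by
    calc n * (π - θ) ≤ n * (1.6 * (1 / n)) := mul_le_mul_of_nonneg_left h3 hn0.le
      _ = 1.6 := by field_simp
  have h5 : 0 ≤ n * (π - θ) := mul_nonneg hn0.le (by linarith [hθ.2])
  have h6 : 7 / n * (n / (1 + n * (π - θ)) ^ 2) = 7 / (1 + n * (π - θ)) ^ 2 := by
    field_simp
  rw [h6, le_div_iff₀ (by positivity)]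
  nlinarith

/-- the weight concentrated near `π` -/
theorem fR_near {n : ℕ} {α β : ℝ} (hβα : β ≤ α) (hα : α ≤ π) :
    IntervalIntegrable (fun θ : ℝ => (n : ℝ) / (1 + n * (π - θ)) ^ 2) volume β α ∧
    (∫ θ in β..α, (n : ℝ) / (1 + n * (π - θ)) ^ 2) ≤ 1 := by
  have hn0 : (0 : ℝ) ≤ n := Nat.cast_nonneg n
  have hp : ∀ θ ∈ uIcc β α, (0 : ℝ) < 1 + n * (π - θ) := by
    intro θ hθ
    rw [uIcc_of_le hβα] at hθ
    have := mul_nonneg hn0 (show 0 ≤ π - θ by linarith [hθ.2])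
    linarith
  have h1 : ∀ θ ∈ uIcc β α, HasDerivAt (fun θ : ℝ => (1 + n * (π - θ))⁻¹)
      ((n : ℝ) / (1 + n * (π - θ)) ^ 2) θ := by
    intro θ hθ
    have h2 := hp θ hθ
    have h3 : HasDerivAt (fun θ : ℝ => 1 + (n : ℝ) * (π - θ)) (-(n : ℝ)) θ := by
      simpa using (((hasDerivAt_id θ).const_sub π).const_mul (n : ℝ)).const_add 1
    have h4 := h3.inv h2.ne'
    refine h4.congr_deriv ?_
    ring
  have h2 : ContinuousOn (fun θ : ℝ => (n : ℝ) / (1 + n * (π - θ)) ^ 2) (uIcc β α) := by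
    refine ContinuousOn.div (by fun_prop) (by fun_prop) ?_
    intro θ hθ
    have h2 := hp θ hθ
    positivity
  refine ⟨h2.intervalIntegrable, ?_⟩
  rw [integral_eq_sub_of_hasDerivAt h1 h2.intervalIntegrable]
  have h3 := hp β left_mem_uIcc
  have h4 := hp α right_mem_uIcc
  have h5 : 0 ≤ (1 + n * (π - β))⁻¹ := by positivity
  have h6 : (1 + n * (π - α))⁻¹ ≤ 1 := by
    apply inv_le_one_of_one_le₀
    have := mul_nonneg hn0 (show 0 ≤ π - α by linarith)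
    linarith
  linarith

/-- change of variables -/
theorem fR_sub {g : ℝ → ℝ} (hg : Continuous g) (α β : ℝ) :
    (∫ θ in β..α, g (cos θ) * sin θ) = ∫ x in (cos α)..(cos β), g x := by
  have h := intervalIntegral.integral_comp_mul_deriv (a := β) (b := α) (f := cos)
    (f' := fun θ => -sin θ) (g := g) (fun x _ => hasDerivAt_cos x) (by fun_prop) hg
  rw [intervalIntegral.integral_symm (cos β) (cos α), ← h, ← intervalIntegral.integral_neg]
  apply intervalIntegral.integral_congr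
  intro θ _
  simp only [Function.comp]
  ring

/-! ### weights -/

/-- the weights -/
def fR_w (n : ℕ) (u v p q s t θ : ℝ) : ℝ :=
  p * (g2L_r u v (cos θ))⁻¹ + q * (g2L_r u v (cos θ))⁻¹ ^ 2 + s * (g2L_r u v (cos θ))⁻¹ ^ 3 +
    t * ((sin θ + 1 / n) ^ 2 * (g2L_r u v (cos θ))⁻¹ ^ 3)

theorem fR_rc {u v : ℝ} (hv : 0 < v) : Continuous fun θ => (g2L_r u v (cos θ))⁻¹ :=
  (g2L_inv_cont hv).comp continuous_cos

theorem fR_w_cont (n : ℕ) {u v : ℝ} (hv : 0 < v) (p q s t : ℝ) :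
    Continuous (fR_w n u v p q s t) := by
  have h := fR_rc (u := u) hv
  unfold fR_w
  exact (((continuous_const.mul h).add (continuous_const.mul (h.pow 2))).add
    (continuous_const.mul (h.pow 3))).add (continuous_const.mul
      (((continuous_sin.add continuous_const).pow 2).mul (h.pow 3)))

theorem fR_w_nonneg (n : ℕ) {u v : ℝ} (hv : 0 < v) {p q s t : ℝ} (hp : 0 ≤ p) (hq : 0 ≤ q)
    (hs : 0 ≤ s) (ht : 0 ≤ t) (θ : ℝ) : 0 ≤ fR_w n u v p q s t θ := by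
  have h := g2L_pos (u := u) hv (cos θ)
  unfold fR_w
  positivity

theorem fR_w_slow {n : ℕ} (hn : 1 ≤ n) {z : ℂ} {c x y : ℝ} (hv : 0 < z.im) (hc : 0 < c)
    {p q s t : ℝ} (hp : 0 ≤ p) (hq : 0 ≤ q) (hs : 0 ≤ s) (ht : 0 ≤ t) (hx : 0 ≤ sin x)
    (hy : 0 ≤ sin y) (hxy : |x - y| ≤ 1 / n)
    (hr : c * (sin x + 1 / n) / n ≤ g2L_r z.re z.im (cos x)) :
    fR_w n z.re z.im p q s t x ≤ 4 * (1 + 1 / c) ^ 3 * fR_w n z.re z.im p q s t y := by
  have hn0 : (0 : ℝ) < n := by exact_mod_cast hn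
  have h1 := g2L_pos (u := z.re) hv (cos x)
  have h2 := g2L_pos (u := z.re) hv (cos y)
  have h4 : g2L_r z.re z.im (cos y) ≤ (1 + 1 / c) * g2L_r z.re z.im (cos x) :=
    g2o_slow hn z hc hx (by rwa [abs_sub_comm] at hxy) hr
  set A : ℝ := 1 + 1 / c with hA
  have hA1 : 1 ≤ A := by
    have : 0 < 1 / c := by positivity
    linarith
  have hA0 : 0 < A := by linarith
  set ρ := (g2L_r z.re z.im (cos x))⁻¹ with hρ
  set ρ' := (g2L_r z.re z.im (cos y))⁻¹ with hρ'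
  have hs0 : 0 < ρ := by positivity
  have ht0 : 0 < ρ' := by positivity
  have hst : ρ ≤ A * ρ' := by
    rw [hρ, hρ', ← div_eq_mul_inv, le_div_iff₀ h2, inv_mul_le_iff₀ h1]
    linarith
  have hA3 : 1 ≤ A ^ 3 := one_le_pow₀ hA1
  have e1 : ρ ≤ A ^ 3 * ρ' := by
    have : A ≤ A ^ 3 := by
      calc A = A ^ 1 := (pow_one A).symm
        _ ≤ A ^ 3 := pow_le_pow_right₀ hA1 (by norm_num)
    nlinarith
  have e2 : ρ ^ 2 ≤ A ^ 3 * ρ' ^ 2 := by
    have h6 : ρ ^ 2 ≤ (A * ρ') ^ 2 := pow_le_pow_left₀ hs0.le hst 2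
    have h7 : A ^ 2 ≤ A ^ 3 := pow_le_pow_right₀ hA1 (by norm_num)
    have h8 : A ^ 2 * ρ' ^ 2 ≤ A ^ 3 * ρ' ^ 2 := mul_le_mul_of_nonneg_right h7 (by positivity)
    rw [mul_pow] at h6
    linarith
  have e3 : ρ ^ 3 ≤ A ^ 3 * ρ' ^ 3 := by
    have h6 : ρ ^ 3 ≤ (A * ρ') ^ 3 := pow_le_pow_left₀ hs0.le hst 3
    rw [mul_pow] at h6
    exact h6
  have e4 : sin x + 1 / n ≤ 2 * (sin y + 1 / n) := by
    have h5 : sin x ≤ sin y + |x - y| := by
      have h6 : |sin x - sin y| ≤ |x - y| := by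
        have := Real.lipschitzWith_sin.dist_le_mul x y
        simpa [Real.dist_eq] using this
      linarith [le_abs_self (sin x - sin y)]
    linarith
  have e5 : (sin x + 1 / n) ^ 2 ≤ 4 * (sin y + 1 / n) ^ 2 := by
    have h5 : (sin x + 1 / n) ^ 2 ≤ (2 * (sin y + 1 / n)) ^ 2 :=
      pow_le_pow_left₀ (by positivity) e4 2
    linarith
  have e6 : (sin x + 1 / n) ^ 2 * ρ ^ 3 ≤ 4 * A ^ 3 * ((sin y + 1 / n) ^ 2 * ρ' ^ 3) := by
    calc (sin x + 1 / n) ^ 2 * ρ ^ 3 ≤ (4 * (sin y + 1 / n) ^ 2) * (A ^ 3 * ρ' ^ 3) :=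
          mul_le_mul e5 e3 (by positivity) (by positivity)
      _ = _ := by ring
  unfold fR_w
  rw [← hρ, ← hρ']
  have f1 := mul_le_mul_of_nonneg_left e1 hp
  have f2 := mul_le_mul_of_nonneg_left e2 hq
  have f3 := mul_le_mul_of_nonneg_left e3 hs
  have f4 := mul_le_mul_of_nonneg_left e6 ht
  have g1 : 0 ≤ p * (A ^ 3 * ρ') := by positivity
  have g2 : 0 ≤ q * (A ^ 3 * ρ' ^ 2) := by positivity
  have g3 : 0 ≤ s * (A ^ 3 * ρ' ^ 3) := by positivity
  linarith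

theorem fR_deriv (P : ℝ[X]) (θ : ℝ) :
    deriv (qq P) θ = -(sin θ * P.derivative.eval (cos θ)) := by
  have h : HasDerivAt (qq P) (P.derivative.eval (cos θ) * (-sin θ)) θ :=
    (P.hasDerivAt (cos θ)).comp θ (hasDerivAt_cos θ)
  rw [h.deriv]
  ring

/-- the common setting -/
structure FRS (n : ℕ) (C c a b : ℝ) (P : ℝ[X]) (z : ℂ) : Prop where
  hn : 2 ≤ n
  hC : 1 ≤ C
  hc : 0 < c
  ha : -1 ≤ a
  hab : a < b
  hb : b ≤ 1
  hE : Ext n a b P
  hND : ND n (qq P) (arccos b) (arccos a)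
  hz : aeval z P.derivative = 0
  hv : 0 < z.im
  hS : 1 / (n : ℝ) ≤ sin (arccos b)
  hβ : arccos b + 1 / n ≤ arccos a
  hg1 : ∀ θ ∈ Icc (arccos b) (arccos a), sin θ ≤ C * sin (arccos b)
  hg2 : arccos a - arccos b ≤ C * sin (arccos b)
  hr : ∀ θ ∈ Icc (arccos b) (arccos a), c * (sin θ + 1 / n) / n ≤ g2L_r z.re z.im (cos θ)

/-- the weighted estimate -/
theorem fR_est (hG0u : G0u) (hG2av : G2av) : ∃ K : ℝ, 0 < K ∧ ∀ (n : ℕ) (C c a b : ℝ)
    (P : ℝ[X]) (z : ℂ), FRS n C c a b P z → ∀ (F : ℝ → ℝ) (p q s t : ℝ), Continuous F →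
    0 ≤ p → 0 ≤ q → 0 ≤ s → 0 ≤ t →
    (∀ θ ∈ Icc (arccos b) (arccos a), F (cos θ) ≤ fR_w n z.re z.im p q s t θ) →
    (∫ x in a..b, F x / √(1 + P.derivative.eval x ^ 2)) ≤
      K * (4 * (1 + 1 / c) ^ 3) * (1 + Real.log n) / n *
        ∫ θ in (arccos b)..(arccos a), fR_w n z.re z.im p q s t θ * (sin θ + 1 / n) ^ 2 := by
  obtain ⟨K, hK, hK2⟩ := hG2av
  refine ⟨K, hK, ?_⟩
  intro n C c a b P z S F p q s t hF hp hq hs ht hFw
  have hn1 : 1 ≤ n := by have := S.hn; omega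
  have hn0 : (0 : ℝ) < n := by exact_mod_cast hn1
  have hc := S.hc
  have hα : arccos b ≤ arccos a := by
    have := S.hβ
    have h0 : (0 : ℝ) < 1 / n := by positivity
    linarith
  have hβ0 := arccos_nonneg b
  have hαπ := arccos_le_pi a
  have hsin : ∀ θ ∈ Icc (arccos b) (arccos a), 0 ≤ sin θ := fun θ hθ =>
    sin_nonneg_of_nonneg_of_le_pi (hβ0.trans hθ.1) (hθ.2.trans hαπ)
  have hA1 : 1 ≤ 4 * (1 + 1 / c) ^ 3 := by
    have h0 : 0 < 1 / c := by positivity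
    have h1 : 1 ≤ (1 + 1 / c) ^ 3 := one_le_pow₀ (by linarith)
    linarith
  have hwc := fR_w_cont n (u := z.re) S.hv p q s t
  have h1 := hK2 n a b (4 * (1 + 1 / c) ^ 3) P (fR_w n z.re z.im p q s t) S.hn S.ha S.hab S.hb
    S.hβ (natDegree_le_of_degree_le S.hE.deg) S.hE.bdd S.hND hwc.continuousOn
    (fun θ _ => fR_w_nonneg n S.hv hp hq hs ht θ) hA1
    (fun x hx y hy hxy => fR_w_slow hn1 S.hv hc hp hq hs ht (hsin x hx) (hsin y hy) hxy
      (S.hr x hx))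
  have h2 := hG0u a b P F S.ha S.hab.le S.hb hF.continuousOn
  rw [h2]
  refine le_trans ?_ h1
  have hg : ∀ θ ∈ Icc (arccos b) (arccos a), sin θ ^ 2 / √(sin θ ^ 2 + deriv (qq P) θ ^ 2) =
      sin θ / √(1 + P.derivative.eval (cos θ) ^ 2) := fun θ hθ =>
    g2o_sq (hsin θ hθ) (fR_deriv P θ)
  have hsp : ∀ θ : ℝ, 0 < √(1 + P.derivative.eval (cos θ) ^ 2) := fun θ =>
    Real.sqrt_pos.2 (by positivity)
  have hgc : Continuous fun θ : ℝ => sin θ / √(1 + P.derivative.eval (cos θ) ^ 2) :=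
    Continuous.div (by fun_prop) (by fun_prop) fun θ => (hsp θ).ne'
  have e1 : (∫ θ in (arccos b)..(arccos a), F (cos θ) *
      (sin θ ^ 2 / √(sin θ ^ 2 + deriv (qq P) θ ^ 2))) =
      ∫ θ in (arccos b)..(arccos a), F (cos θ) *
        (sin θ / √(1 + P.derivative.eval (cos θ) ^ 2)) := by
    refine integral_congr fun θ hθ => ?_
    rw [uIcc_of_le hα] at hθ
    rw [hg θ hθ]
  have e2 : (∫ θ in (arccos b)..(arccos a), fR_w n z.re z.im p q s t θ *
      (sin θ ^ 2 / √(sin θ ^ 2 + deriv (qq P) θ ^ 2))) =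
      ∫ θ in (arccos b)..(arccos a), fR_w n z.re z.im p q s t θ *
        (sin θ / √(1 + P.derivative.eval (cos θ) ^ 2)) := by
    refine integral_congr fun θ hθ => ?_
    rw [uIcc_of_le hα] at hθ
    rw [hg θ hθ]
  rw [e1, e2]
  refine integral_mono_on hα (((hF.comp continuous_cos).mul hgc).intervalIntegrable _ _)
    ((hwc.mul hgc).intervalIntegrable _ _) fun θ hθ => ?_
  exact mul_le_mul_of_nonneg_right (hFw θ hθ) (div_nonneg (hsin θ hθ) (hsp θ).le)

theorem fR_sn {n : ℕ} {C c a b : ℝ} {P : ℝ[X]} {z : ℂ} (_S : FRS n C c a b P z) {θ : ℝ}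
    (hθ : θ ∈ Icc (arccos b) (arccos a)) : 0 ≤ sin θ :=
  sin_nonneg_of_nonneg_of_le_pi ((arccos_nonneg b).trans hθ.1) (hθ.2.trans (arccos_le_pi a))

theorem fR_cs {n : ℕ} {C c a b : ℝ} {P : ℝ[X]} {z : ℂ} (S : FRS n C c a b P z) {θ : ℝ}
    (hθ : θ ∈ Icc (arccos b) (arccos a)) : cos θ ∈ Icc a b := by
  have hab := S.hab
  have ha := S.ha
  have hb := S.hb
  constructor
  · rw [← cos_arccos ha (by linarith)]
    exact cos_le_cos_of_nonneg_of_le_pi ((arccos_nonneg b).trans hθ.1) (arccos_le_pi a) hθ.2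
  · rw [← cos_arccos (show -1 ≤ b by linarith) hb]
    exact cos_le_cos_of_nonneg_of_le_pi (arccos_nonneg b) (hθ.2.trans (arccos_le_pi a)) hθ.1

theorem fR_rx {n : ℕ} {C c a b : ℝ} {P : ℝ[X]} {z : ℂ} (S : FRS n C c a b P z) {x : ℝ}
    (hx : x ∈ Icc a b) : c * (√(1 - x ^ 2) + 1 / n) / n ≤ g2L_r z.re z.im x := by
  have h := S.hr (arccos x) ⟨arccos_le_arccos hx.2, arccos_le_arccos hx.1⟩
  rw [cos_arccos (S.ha.trans hx.1) (hx.2.trans S.hb), sin_arccos] at h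
  exact h

theorem fR_sx {n : ℕ} {C c a b : ℝ} {P : ℝ[X]} {z : ℂ} (S : FRS n C c a b P z) {x : ℝ}
    (hx : x ∈ Icc a b) : 1 - x ^ 2 ≤ C ^ 2 * (1 - b ^ 2) := by
  have ha := S.ha
  have hab := S.hab
  have hb := S.hb
  have h := S.hg1 (arccos x) ⟨arccos_le_arccos hx.2, arccos_le_arccos hx.1⟩
  rw [sin_arccos, sin_arccos] at h
  have h1 : 0 ≤ 1 - x ^ 2 := by nlinarith [hx.1, hx.2]
  have h2 : 0 ≤ 1 - b ^ 2 := by nlinarith
  have h3 := pow_le_pow_left₀ (Real.sqrt_nonneg _) h 2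
  rw [mul_pow, Real.sq_sqrt h1, Real.sq_sqrt h2] at h3
  exact h3

theorem fR_h {n : ℕ} {C c a b : ℝ} {P : ℝ[X]} {z : ℂ} (S : FRS n C c a b P z) :
    b - a ≤ C ^ 2 * sin (arccos b) ^ 2 ∧ 1 / (n : ℝ) ^ 2 ≤ 4 * (b - a) ∧
      sin (arccos b) ^ 2 = 1 - b ^ 2 := by
  have ha := S.ha
  have hab := S.hab
  have hb := S.hb
  have hn1 : 1 ≤ n := by have := S.hn; omega
  have hn0 : (0 : ℝ) < n := by exact_mod_cast hn1
  have h0 : (0 : ℝ) < 1 / n := by positivity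
  have hβ := S.hβ
  have hα : arccos b ≤ arccos a := by linarith
  have h1 := fR_geo3 (by linarith [S.hC]) (arccos_nonneg b) hα (arccos_le_pi a) S.hg1 S.hg2
  have h2 := fR_geo4 (arccos_nonneg b) hα (arccos_le_pi a)
  rw [cos_arccos (by linarith) hb, cos_arccos ha (by linarith)] at h1 h2
  refine ⟨h1, ?_, ?_⟩
  · refine le_trans ?_ h2
    calc 1 / (n : ℝ) ^ 2 = 1 / n * (1 / n) := by ring
      _ ≤ (arccos a - arccos b) * sin (arccos b) :=
        mul_le_mul (by linarith) S.hS h0.le (by linarith)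
  · rw [sin_arccos, Real.sq_sqrt]
    nlinarith

/-! ### the first test function -/

theorem fR_sig {n : ℕ} {C c a b : ℝ} {P : ℝ[X]} {z : ℂ} (S : FRS n C c a b P z) {θ : ℝ}
    (hθ : θ ∈ Icc (arccos b) (arccos a)) : sin θ + 1 / n ≤ (C + 1) * sin (arccos b) := by
  have h1 := S.hg1 θ hθ
  have h2 := S.hS
  linarith

theorem fR_one_pt {n : ℕ} {C c a b : ℝ} {P : ℝ[X]} {z : ℂ} (S : FRS n C c a b P z) {k q s : ℝ}
    (hk : 0 < k) (hq : 0 ≤ q) (hs : 0 ≤ s)
    (hst : ∀ x ∈ Icc a b, k * g2L_r b (g2L_r z.re z.im b) x ≤ g2L_r z.re z.im x) {θ : ℝ}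
    (hθ : θ ∈ Icc (arccos b) (arccos a)) :
    fR_w n z.re z.im 0 q s 0 θ * (sin θ + 1 / n) ^ 2 ≤
      2 * ((C + 1) * sin (arccos b)) * (q / (k * g2L_r z.re z.im b) ^ 2 * sin θ +
        s / k ^ 3 * ((g2L_r b (g2L_r z.re z.im b) (cos θ))⁻¹ ^ 3 * sin θ)) +
      28 / (n : ℝ) ^ 3 * (q / (k * g2L_r z.re z.im b) ^ 2 + s / (k * g2L_r z.re z.im b) ^ 3) *
        (n / (1 + n * (π - θ)) ^ 2) := by
  have hn1 : 1 ≤ n := by have := S.hn; omega
  have hn0 : (0 : ℝ) < n := by exact_mod_cast hn1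
  have hsn := fR_sn S hθ
  have hx := fR_cs S hθ
  set rb := g2L_r z.re z.im b with hrb
  have hrb0 : 0 < rb := g2L_pos S.hv b
  have h1 : 0 < g2L_r z.re z.im (cos θ) := g2L_pos S.hv _
  have h2 : 0 < g2L_r b rb (cos θ) := g2L_pos hrb0 _
  have h3 := hst _ hx
  have h4 : rb ≤ g2L_r b rb (cos θ) := g2L_ge2 hrb0 _
  set ρ := (g2L_r z.re z.im (cos θ))⁻¹ with hρ
  set ρ' := (g2L_r b rb (cos θ))⁻¹ with hρ'
  have hρ0 : 0 < ρ := by positivity
  have hρ'0 : 0 < ρ' := by positivity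
  have h5 : ρ ≤ ρ' / k := by
    rw [hρ, hρ', le_div_iff₀ hk, mul_comm, ← div_eq_mul_inv, div_le_iff₀ h1,
      inv_mul_eq_div, le_div_iff₀ h2]
    exact h3
  have h6 : ρ ≤ (k * rb)⁻¹ := by
    refine h5.trans ?_
    rw [hρ', mul_inv, div_eq_mul_inv, mul_comm]
    exact mul_le_mul_of_nonneg_left (inv_anti₀ hrb0 h4) (by positivity)
  have h7 : ρ ^ 2 ≤ 1 / (k * rb) ^ 2 := by
    exact (pow_le_pow_left₀ hρ0.le h6 2).trans_eq (by rw [inv_pow, one_div])
  have h8 : ρ ^ 3 ≤ 1 / (k * rb) ^ 3 := by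
    exact (pow_le_pow_left₀ hρ0.le h6 3).trans_eq (by rw [inv_pow, one_div])
  have h9 : ρ ^ 3 ≤ ρ' ^ 3 / k ^ 3 := by
    have := pow_le_pow_left₀ hρ0.le h5 3
    rwa [div_pow] at this
  have hw : fR_w n z.re z.im 0 q s 0 θ = q * ρ ^ 2 + s * ρ ^ 3 := by
    unfold fR_w
    rw [← hρ]
    ring
  rw [hw]
  have hsb : 0 < sin (arccos b) := by
    have := S.hS
    have h0 : (0 : ℝ) < 1 / n := by positivity
    linarith
  have hC := S.hC
  have hE0 : 0 ≤ (n : ℝ) / (1 + n * (π - θ)) ^ 2 := by positivity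
  rcases le_or_gt (1 / (n : ℝ)) (sin θ) with h | h
  · have k1 : (sin θ + 1 / n) ^ 2 ≤ 2 * ((C + 1) * sin (arccos b)) * sin θ := by
      have e1 := fR_sig S hθ
      have e2 : sin θ + 1 / n ≤ 2 * sin θ := by linarith
      have e3 : 0 ≤ sin θ + 1 / n := by positivity
      calc (sin θ + 1 / n) ^ 2 = (sin θ + 1 / n) * (sin θ + 1 / n) := by ring
        _ ≤ ((C + 1) * sin (arccos b)) * (2 * sin θ) := mul_le_mul e1 e2 e3 (by positivity)
        _ = _ := by ring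
    have k2 : q * ρ ^ 2 + s * ρ ^ 3 ≤ q / (k * rb) ^ 2 + s / k ^ 3 * ρ' ^ 3 := by
      have e1 := mul_le_mul_of_nonneg_left h7 hq
      have e2 := mul_le_mul_of_nonneg_left h9 hs
      have e3 : q * (1 / (k * rb) ^ 2) = q / (k * rb) ^ 2 := by ring
      have e4 : s * (ρ' ^ 3 / k ^ 3) = s / k ^ 3 * ρ' ^ 3 := by ring
      linarith
    have k3 : (q * ρ ^ 2 + s * ρ ^ 3) * (sin θ + 1 / n) ^ 2 ≤
        (q / (k * rb) ^ 2 + s / k ^ 3 * ρ' ^ 3) *
          (2 * ((C + 1) * sin (arccos b)) * sin θ) :=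
      mul_le_mul k2 k1 (by positivity) (by positivity)
    have k4 : 0 ≤ 28 / (n : ℝ) ^ 3 * (q / (k * rb) ^ 2 + s / (k * rb) ^ 3) *
        (n / (1 + n * (π - θ)) ^ 2) := by positivity
    calc _ ≤ _ := k3
      _ = 2 * ((C + 1) * sin (arccos b)) * (q / (k * rb) ^ 2 * sin θ +
        s / k ^ 3 * (ρ' ^ 3 * sin θ)) := by ring
      _ ≤ _ := by linarith
  · have k1 := fR_exc hn1 (arccos_nonneg b) (arccos_le_pi a) S.hS hθ h
    have k2 : (sin θ + 1 / n) ^ 2 ≤ 4 / n ^ 2 := by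
      have e1 : sin θ + 1 / n ≤ 2 / n := by
        have : (2 : ℝ) / n = 1 / n + 1 / n := by ring
        linarith
      have e2 := pow_le_pow_left₀ (by positivity) e1 2
      have e3 : (2 / (n : ℝ)) ^ 2 = 4 / n ^ 2 := by ring
      linarith
    have k3 : q * ρ ^ 2 + s * ρ ^ 3 ≤ q / (k * rb) ^ 2 + s / (k * rb) ^ 3 := by
      have e1 := mul_le_mul_of_nonneg_left h7 hq
      have e2 := mul_le_mul_of_nonneg_left h8 hs
      have e3 : q * (1 / (k * rb) ^ 2) = q / (k * rb) ^ 2 := by ring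
      have e4 : s * (1 / (k * rb) ^ 3) = s / (k * rb) ^ 3 := by ring
      linarith
    have k4 : (q * ρ ^ 2 + s * ρ ^ 3) * (sin θ + 1 / n) ^ 2 ≤
        (q / (k * rb) ^ 2 + s / (k * rb) ^ 3) * (4 / n ^ 2) :=
      mul_le_mul k3 k2 (by positivity) (by positivity)
    have k5 : (q / (k * rb) ^ 2 + s / (k * rb) ^ 3) * (4 / n ^ 2) ≤
        (q / (k * rb) ^ 2 + s / (k * rb) ^ 3) * (4 / n ^ 2) *
          (7 / n * (n / (1 + n * (π - θ)) ^ 2)) :=
      le_mul_of_one_le_right (by positivity) k1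
    have k6 : 0 ≤ 2 * ((C + 1) * sin (arccos b)) * (q / (k * rb) ^ 2 * sin θ +
        s / k ^ 3 * (ρ' ^ 3 * sin θ)) := by positivity
    calc _ ≤ _ := k4.trans k5
      _ = 28 / (n : ℝ) ^ 3 * (q / (k * rb) ^ 2 + s / (k * rb) ^ 3) *
        (n / (1 + n * (π - θ)) ^ 2) := by
          field_simp
          ring
      _ ≤ _ := by linarith

theorem fR_one_int {n : ℕ} {C c a b : ℝ} {P : ℝ[X]} {z : ℂ} (S : FRS n C c a b P z) {k q s : ℝ}
    (hk : 0 < k) (hq : 0 ≤ q) (hs : 0 ≤ s)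
    (hst : ∀ x ∈ Icc a b, k * g2L_r b (g2L_r z.re z.im b) x ≤ g2L_r z.re z.im x) :
    (∫ θ in (arccos b)..(arccos a), fR_w n z.re z.im 0 q s 0 θ * (sin θ + 1 / n) ^ 2) ≤
      2 * ((C + 1) * sin (arccos b)) * (q / (k * g2L_r z.re z.im b) ^ 2 * (b - a) +
        s / k ^ 3 * (2 / g2L_r z.re z.im b ^ 2)) +
      28 / (n : ℝ) ^ 3 * (q / (k * g2L_r z.re z.im b) ^ 2 +
        s / (k * g2L_r z.re z.im b) ^ 3) := by
  have hn1 : 1 ≤ n := by have := S.hn; omega
  have hn0 : (0 : ℝ) < n := by exact_mod_cast hn1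
  have h0 : (0 : ℝ) < 1 / n := by positivity
  have hα : arccos b ≤ arccos a := by linarith [S.hβ]
  have hC := S.hC
  have hsb : 0 < sin (arccos b) := by linarith [S.hS]
  have hab := S.hab
  have ha := S.ha
  have hb := S.hb
  set rb := g2L_r z.re z.im b with hrb
  have hrb0 : 0 < rb := g2L_pos S.hv b
  obtain ⟨hE1, hE2⟩ := fR_near (n := n) hα (arccos_le_pi a)
  have hc1 : Continuous fun θ => fR_w n z.re z.im 0 q s 0 θ * (sin θ + 1 / (n : ℝ)) ^ 2 :=
    (fR_w_cont n S.hv 0 q s 0).mul (by fun_prop)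
  have hc2 : Continuous fun θ : ℝ => sin θ := continuous_sin
  have hc3 : Continuous fun θ : ℝ => (g2L_r b rb (cos θ))⁻¹ ^ 3 * sin θ :=
    ((fR_rc hrb0).pow 3).mul continuous_sin
  have i2 := (hc2.intervalIntegrable (μ := volume) (arccos b) (arccos a)).const_mul
    (q / (k * rb) ^ 2)
  have i3 := (hc3.intervalIntegrable (μ := volume) (arccos b) (arccos a)).const_mul
    (s / k ^ 3)
  have i4 := (i2.add i3).const_mul (2 * ((C + 1) * sin (arccos b)))
  have i5 := hE1.const_mul (28 / (n : ℝ) ^ 3 * (q / (k * rb) ^ 2 + s / (k * rb) ^ 3))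
  have hmono := integral_mono_on hα (hc1.intervalIntegrable _ _) (i4.add i5)
    fun θ hθ => fR_one_pt S hk hq hs hst hθ
  rw [integral_add i4 i5, intervalIntegral.integral_const_mul, integral_add i2 i3,
    intervalIntegral.integral_const_mul, intervalIntegral.integral_const_mul,
    intervalIntegral.integral_const_mul] at hmono
  have e1 : (∫ θ in (arccos b)..(arccos a), sin θ) = b - a := by
    rw [integral_sin, cos_arccos (by linarith) hb, cos_arccos ha (by linarith)]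
  have e2 : (∫ θ in (arccos b)..(arccos a), (g2L_r b rb (cos θ))⁻¹ ^ 3 * sin θ) ≤
      2 / rb ^ 2 := by
    have := fR_sub (g := fun x => (g2L_r b rb x)⁻¹ ^ 3) ((g2L_inv_cont hrb0).pow 3)
      (arccos a) (arccos b)
    rw [this]
    exact g2L_I3 hrb0
  rw [e1] at hmono
  have e3 : s / k ^ 3 * (∫ θ in (arccos b)..(arccos a), (g2L_r b rb (cos θ))⁻¹ ^ 3 * sin θ) ≤
      s / k ^ 3 * (2 / rb ^ 2) := mul_le_mul_of_nonneg_left e2 (by positivity)
  have e4 : 28 / (n : ℝ) ^ 3 * (q / (k * rb) ^ 2 + s / (k * rb) ^ 3) *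
      (∫ θ in (arccos b)..(arccos a), (n : ℝ) / (1 + n * (π - θ)) ^ 2) ≤
      28 / (n : ℝ) ^ 3 * (q / (k * rb) ^ 2 + s / (k * rb) ^ 3) :=
    mul_le_of_le_one_right (by positivity) hE2
  have e5 : 2 * ((C + 1) * sin (arccos b)) * (q / (k * rb) ^ 2 * (b - a) +
      s / k ^ 3 * (∫ θ in (arccos b)..(arccos a), (g2L_r b rb (cos θ))⁻¹ ^ 3 * sin θ)) ≤
      2 * ((C + 1) * sin (arccos b)) * (q / (k * rb) ^ 2 * (b - a) +
      s / k ^ 3 * (2 / rb ^ 2)) :=
    mul_le_mul_of_nonneg_left (by linarith) (by positivity)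
  linarith

theorem fR_ptw {d m y ρ d0 m0 : ℝ} (hρ : 0 < ρ) (hd : |d| ≤ d0) (hm : |m| ≤ m0)
    (hy : |y| ≤ ρ) :
    (d * ρ ^ 2 - m * (2 * y)) / (ρ ^ 2) ^ 2 ≤ d0 * ρ⁻¹ ^ 2 + 2 * m0 * ρ⁻¹ ^ 3 := by
  have h1 : d0 * ρ⁻¹ ^ 2 + 2 * m0 * ρ⁻¹ ^ 3 = (d0 * ρ ^ 2 + 2 * m0 * ρ) / (ρ ^ 2) ^ 2 := by
    field_simp
  rw [h1]
  apply div_le_div_of_nonneg_right _ (by positivity)
  have h2 : d * ρ ^ 2 ≤ d0 * ρ ^ 2 :=
    mul_le_mul_of_nonneg_right ((le_abs_self d).trans hd) (by positivity)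
  have h3 : |m * (2 * y)| ≤ 2 * m0 * ρ := by
    rw [abs_mul, abs_mul, abs_of_pos (by norm_num : (0 : ℝ) < 2)]
    have h4 : |m| * |y| ≤ m0 * ρ :=
      mul_le_mul hm hy (abs_nonneg y) ((abs_nonneg m).trans hm)
    linarith
  have h5 := neg_abs_le (m * (2 * y))
  linarith

/-- the first test function -/
theorem fR_one (hG0 : G0) (hG0u : G0u) (hG2av : G2av) (C c k : ℝ) (hk : 0 < k) :
    ∃ n0 : ℕ, ∀ n ≥ n0, ∀ (a b : ℝ) (P : ℝ[X]) (z : ℂ), FRS n C c a b P z →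
    (∀ x ∈ Icc a b, k * g2L_r b (g2L_r z.re z.im b) x ≤ g2L_r z.re z.im x) → False := by
  obtain ⟨K, hK, hest⟩ := fR_est hG0u hG2av
  set C' : ℝ := 2 * (C + 1) * (3 * C ^ 2 / k ^ 2 + 4 * C ^ 2 / k ^ 3) +
    28 * (12 * C ^ 2 / k ^ 2 + 2 * C ^ 2 / (k ^ 3 * c)) with hC'
  obtain ⟨n3, h3⟩ := g2L_log (K * (4 * (1 + 1 / c) ^ 3) * C') (1 / 2) (by norm_num)
  refine ⟨n3, ?_⟩
  intro n hn a b P z S hst
  have hn1 : 1 ≤ n := by have := S.hn; omega
  have hn0 : (0 : ℝ) < n := by exact_mod_cast hn1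
  have hn1' : (1 : ℝ) ≤ n := by exact_mod_cast hn1
  have hC := S.hC
  have hc := S.hc
  have hab := S.hab
  have ha := S.ha
  have hb := S.hb
  have hh : 0 < b - a := by linarith
  have hC'0 : 0 < C' := by positivity
  obtain ⟨g1, g2, g3⟩ := fR_h S
  set sb := sin (arccos b) with hsbdef
  set h := b - a with hhdef
  set rb := g2L_r z.re z.im b with hrb
  have hrb0 : 0 < rb := g2L_pos S.hv b
  have h00 : (0 : ℝ) < 1 / n := by positivity
  have hsb : 0 < sb := lt_of_lt_of_le h00 S.hS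
  have hsb1 : sb ≤ 1 := sin_le_one _
  have hid := g2L_id hG0 hn1 ha hab hb S.hE S.hz S.hv (X - Polynomial.C a)
    (natDegree_X_sub_C_le a)
  simp only [eval_sub, eval_X, eval_C, sub_self, mul_zero, zero_div, zero_mul, sub_zero] at hid
  rw [← hrb, ← hhdef, ← g3] at hid
  have hFw : ∀ θ ∈ Icc (arccos b) (arccos a), g2L_F z.re z.im (X - Polynomial.C a) (cos θ) ≤
      fR_w n z.re z.im 0 (3 * (C ^ 2 * sb ^ 2)) (2 * (C ^ 2 * sb ^ 2 * h)) 0 θ := by
    intro θ hθ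
    have hx := fR_cs S hθ
    set x := cos θ with hxdef
    have hx1 : |x| ≤ 1 := abs_le.2 ⟨by linarith [hx.1], by linarith [hx.2]⟩
    have hsx := fR_sx S hx
    rw [← g3] at hsx
    have hxa : 0 ≤ x - a := by linarith [hx.1]
    have hxb : x - a ≤ h := by linarith [hx.2]
    have hx2 : 0 ≤ 1 - x ^ 2 := by nlinarith [hx.1, hx.2]
    have hr := g2L_pos (u := z.re) S.hv x
    have h1 := fR_ptw (d := -(2 * x) * (x - a) + (1 - x ^ 2)) (m := (1 - x ^ 2) * (x - a))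
      (y := x - z.re) (d0 := 3 * (C ^ 2 * sb ^ 2)) (m0 := C ^ 2 * sb ^ 2 * h) hr (by
        have h2 : |-(2 * x) * (x - a)| ≤ 2 * h := by
          rw [abs_mul, abs_neg, abs_mul, abs_two, abs_of_nonneg hxa]
          have := mul_le_mul hx1 hxb hxa (by norm_num)
          linarith
        have h3 : |1 - x ^ 2| ≤ C ^ 2 * sb ^ 2 := by
          rw [abs_of_nonneg hx2]
          exact hsx
        refine (abs_add_le _ _).trans ?_
        linarith) (by
        rw [abs_of_nonneg (mul_nonneg hx2 hxa)]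
        exact mul_le_mul hsx hxb hxa (by positivity)) (g2L_ge1 _ _ _)
    unfold g2L_F fR_w
    rw [g2L_d1, g2L_quad, Pool.Agent.Helper40.AS.quad_der]
    simp only [eval_sub, eval_X, eval_C]
    refine h1.trans (le_of_eq ?_)
    ring
  have h1 := hest n C c a b P z S (g2L_F z.re z.im (X - Polynomial.C a)) 0
    (3 * (C ^ 2 * sb ^ 2)) (2 * (C ^ 2 * sb ^ 2 * h)) 0 (g2L_F_cont S.hv _) le_rfl
    (by positivity) (by positivity) le_rfl hFw
  rw [← hid] at h1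
  have h2 := fR_one_int S (q := 3 * (C ^ 2 * sb ^ 2)) (s := 2 * (C ^ 2 * sb ^ 2 * h)) hk
    (by positivity) (by positivity) hst
  rw [← hsbdef, ← hhdef, ← hrb] at h2
  have hrbc : c / (n : ℝ) ^ 2 ≤ rb := by
    have e1 := fR_rx S (x := b) ⟨hab.le, le_rfl⟩
    refine le_trans ?_ e1
    have e2 : c / (n : ℝ) ^ 2 = c * (0 + 1 / n) / n := by
      field_simp
      ring
    rw [e2]
    gcongr
    exact Real.sqrt_nonneg _
  set G : ℝ := sb ^ 2 * h / rb ^ 2 with hG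
  have hG0' : 0 < G := by positivity
  have hT : (∫ θ in (arccos b)..(arccos a), fR_w n z.re z.im 0 (3 * (C ^ 2 * sb ^ 2))
      (2 * (C ^ 2 * sb ^ 2 * h)) 0 θ * (sin θ + 1 / n) ^ 2) ≤ C' * G := by
    refine h2.trans ?_
    have e1 : 2 * ((C + 1) * sb) * (3 * (C ^ 2 * sb ^ 2) / (k * rb) ^ 2 * h +
        2 * (C ^ 2 * sb ^ 2 * h) / k ^ 3 * (2 / rb ^ 2)) =
        sb * (2 * (C + 1) * (3 * C ^ 2 / k ^ 2 + 4 * C ^ 2 / k ^ 3) * G) := by
      rw [hG]
      field_simp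
      ring
    have e2 : sb * (2 * (C + 1) * (3 * C ^ 2 / k ^ 2 + 4 * C ^ 2 / k ^ 3) * G) ≤
        2 * (C + 1) * (3 * C ^ 2 / k ^ 2 + 4 * C ^ 2 / k ^ 3) * G :=
      mul_le_of_le_one_left (by positivity) hsb1
    have e3 : 28 / (n : ℝ) ^ 3 * (3 * (C ^ 2 * sb ^ 2) / (k * rb) ^ 2 +
        2 * (C ^ 2 * sb ^ 2 * h) / (k * rb) ^ 3) =
        28 * (3 * C ^ 2 / k ^ 2 * sb ^ 2 / rb ^ 2 * (1 / n ^ 3) +
          2 * C ^ 2 / k ^ 3 * G * (1 / (n ^ 3 * rb))) := by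
      rw [hG]
      field_simp
    have e4 : 1 / (n : ℝ) ^ 3 ≤ 4 * h := by
      refine le_trans ?_ g2
      apply one_div_le_one_div_of_le (by positivity)
      exact pow_le_pow_right₀ hn1' (by norm_num)
    have e5 : 1 / ((n : ℝ) ^ 3 * rb) ≤ 1 / c := by
      apply one_div_le_one_div_of_le hc
      rw [div_le_iff₀ (by positivity)] at hrbc
      have e6 : (n : ℝ) ^ 2 ≤ n ^ 3 := pow_le_pow_right₀ hn1' (by norm_num)
      have e7 := mul_le_mul_of_nonneg_right e6 hrb0.le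
      linarith
    have e6 : 3 * C ^ 2 / k ^ 2 * sb ^ 2 / rb ^ 2 * (1 / (n : ℝ) ^ 3) ≤
        12 * C ^ 2 / k ^ 2 * G := by
      calc 3 * C ^ 2 / k ^ 2 * sb ^ 2 / rb ^ 2 * (1 / (n : ℝ) ^ 3) ≤
          3 * C ^ 2 / k ^ 2 * sb ^ 2 / rb ^ 2 * (4 * h) :=
            mul_le_mul_of_nonneg_left e4 (by positivity)
        _ = 12 * C ^ 2 / k ^ 2 * G := by
          rw [hG]
          ring
    have e7 : 2 * C ^ 2 / k ^ 3 * G * (1 / ((n : ℝ) ^ 3 * rb)) ≤
        2 * C ^ 2 / (k ^ 3 * c) * G := by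
      calc 2 * C ^ 2 / k ^ 3 * G * (1 / ((n : ℝ) ^ 3 * rb)) ≤
          2 * C ^ 2 / k ^ 3 * G * (1 / c) := mul_le_mul_of_nonneg_left e5 (by positivity)
        _ = 2 * C ^ 2 / (k ^ 3 * c) * G := by
          field_simp
    have e8 : C' * G = 2 * (C + 1) * (3 * C ^ 2 / k ^ 2 + 4 * C ^ 2 / k ^ 3) * G +
        28 * (12 * C ^ 2 / k ^ 2 * G + 2 * C ^ 2 / (k ^ 3 * c) * G) := by
      rw [hC']
      ring
    linarith
  have hΦ : 1 ≤ √(1 + P.derivative.eval b ^ 2) := by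
    rw [Real.one_le_sqrt]
    nlinarith [sq_nonneg (P.derivative.eval b)]
  have hlog : 0 ≤ Real.log n := Real.log_nonneg hn1'
  have h4 : G ≤ K * (4 * (1 + 1 / c) ^ 3) * (1 + Real.log n) / n * (C' * G) := by
    calc G ≤ G * √(1 + P.derivative.eval b ^ 2) := le_mul_of_one_le_right hG0'.le hΦ
      _ ≤ _ := h1
      _ ≤ _ := mul_le_mul_of_nonneg_left hT (by positivity)
  have h5 : K * (4 * (1 + 1 / c) ^ 3) * (1 + Real.log n) / n * (C' * G) ≤ 1 / 2 * G := by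
    have e1 : K * (4 * (1 + 1 / c) ^ 3) * (1 + Real.log n) / n * (C' * G) =
        (K * (4 * (1 + 1 / c) ^ 3) * C' * (1 + Real.log n)) / n * G := by ring
    rw [e1]
    apply mul_le_mul_of_nonneg_right _ hG0'.le
    rw [div_le_iff₀ hn0]
    refine le_trans ?_ (h3 n hn)
    apply mul_le_mul_of_nonneg_left _ (by positivity)
    nlinarith
  linarith


/-! ### the second test function -/

theorem fR_cube {s su y M : ℝ} (hs : 0 ≤ s) (hsu : 0 ≤ su) (hy : 0 ≤ y) (hM : s ≤ M)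
    (h : s ^ 2 ≤ su ^ 2 + 2 * y) : s ^ 3 ≤ 3 * su ^ 3 + 4 * M * y := by
  have hM0 : 0 ≤ M := hs.trans hM
  rcases le_total (2 * y) (su ^ 2) with h1 | h1
  · have h2 : s ≤ 3 / 2 * su := by
      apply le_of_sq_le_sq _ (by positivity)
      nlinarith [sq_nonneg su]
    have h3 : s ^ 3 ≤ 3 * su ^ 3 := by
      calc s ^ 3 = s * s ^ 2 := by ring
        _ ≤ (3 / 2 * su) * (2 * su ^ 2) :=
          mul_le_mul h2 (by linarith) (by positivity) (by positivity)
        _ = 3 * su ^ 3 := by ring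
    have h4 : 0 ≤ 4 * M * y := by positivity
    linarith
  · have h3 : s ^ 3 ≤ 4 * M * y := by
      calc s ^ 3 = s * s ^ 2 := by ring
        _ ≤ M * (4 * y) := mul_le_mul hM (by linarith) (by positivity) hM0
        _ = 4 * M * y := by ring
    have h4 : 0 ≤ 3 * su ^ 3 := by positivity
    linarith

theorem fR_two_pt {n : ℕ} {C c a b : ℝ} {P : ℝ[X]} {z : ℂ} (S : FRS n C c a b P z)
    (hu : z.re ∈ Icc a b) {θ : ℝ} (hθ : θ ∈ Icc (arccos b) (arccos a)) :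
    fR_w n z.re z.im 2 0 0 z.im θ * (sin θ + 1 / n) ^ 2 ≤
      72 * (C * sin (arccos b)) * ((g2L_r z.re z.im (cos θ))⁻¹ * sin θ) +
      48 * (√(1 - z.re ^ 2) ^ 3 * z.im) * ((g2L_r z.re z.im (cos θ))⁻¹ ^ 3 * sin θ) +
      28 * (1 / c + 1 / c ^ 2) / n * (n / (1 + n * (π - θ)) ^ 2) := by
  have hn1 : 1 ≤ n := by have := S.hn; omega
  have hn0 : (0 : ℝ) < n := by exact_mod_cast hn1
  have hsn := fR_sn S hθ
  have hx := fR_cs S hθ
  have hv := S.hv
  have hc := S.hc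
  have hC := S.hC
  have ha := S.ha
  have hb := S.hb
  have hg := S.hg1 θ hθ
  have hr := S.hr θ hθ
  have h1 : 0 < g2L_r z.re z.im (cos θ) := g2L_pos S.hv _
  have hge1 := g2L_ge1 z.re z.im (cos θ)
  have hge2 := g2L_ge2 (u := z.re) S.hv (cos θ)
  set r := g2L_r z.re z.im (cos θ) with hrdef
  set ρ := r⁻¹ with hρ
  have hρ0 : 0 < ρ := by positivity
  set su := √(1 - z.re ^ 2) with hsu
  have hu2 : 0 ≤ 1 - z.re ^ 2 := by nlinarith [hu.1, hu.2]
  have hsu0 : 0 ≤ su := Real.sqrt_nonneg _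
  have hsu2 : su ^ 2 = 1 - z.re ^ 2 := Real.sq_sqrt hu2
  have hsb : 0 < sin (arccos b) := by
    have := S.hS
    have h0 : (0 : ℝ) < 1 / n := by positivity
    linarith
  set sb := sin (arccos b) with hsbdef
  have hw : fR_w n z.re z.im 2 0 0 z.im θ * (sin θ + 1 / n) ^ 2 =
      2 * ρ * (sin θ + 1 / n) ^ 2 + z.im * ρ ^ 3 * (sin θ + 1 / n) ^ 4 := by
    unfold fR_w
    rw [← hrdef, ← hρ]
    ring
  rw [hw]
  have hvρ : z.im * ρ ≤ 1 := by
    rw [hρ, ← div_eq_mul_inv]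
    exact (div_le_one h1).2 hge2
  have hE0 : 0 ≤ (n : ℝ) / (1 + n * (π - θ)) ^ 2 := by positivity
  have hσ0 : 0 < sin θ + 1 / n := by positivity
  rcases le_or_gt (1 / (n : ℝ)) (sin θ) with h | h
  · have e2 : sin θ + 1 / n ≤ 2 * sin θ := by linarith
    have e3 : (sin θ + 1 / n) ^ 2 ≤ (2 * sin θ) ^ 2 := pow_le_pow_left₀ hσ0.le e2 2
    have e4 : (sin θ + 1 / n) ^ 4 ≤ (2 * sin θ) ^ 4 := pow_le_pow_left₀ hσ0.le e2 4
    have k1 : 2 * ρ * (sin θ + 1 / n) ^ 2 ≤ 8 * (C * sb) * (ρ * sin θ) := by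
      calc 2 * ρ * (sin θ + 1 / n) ^ 2 ≤ 2 * ρ * (2 * sin θ) ^ 2 :=
            mul_le_mul_of_nonneg_left e3 (by positivity)
        _ = 8 * sin θ * (ρ * sin θ) := by ring
        _ ≤ 8 * (C * sb) * (ρ * sin θ) := by
          apply mul_le_mul_of_nonneg_right _ (by positivity)
          linarith
    have k2 : sin θ ^ 3 ≤ 3 * su ^ 3 + 4 * (C * sb) * |cos θ - z.re| := by
      apply fR_cube hsn hsu0 (abs_nonneg _) hg
      have e5 : sin θ ^ 2 = 1 - cos θ ^ 2 := by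
        have := sin_sq_add_cos_sq θ
        linarith
      rw [e5, hsu2]
      have e6 : z.re ^ 2 - cos θ ^ 2 ≤ 2 * |cos θ - z.re| := by
        have e7 : z.re ^ 2 - cos θ ^ 2 = -((cos θ - z.re) * (cos θ + z.re)) := by ring
        have e8 : |cos θ + z.re| ≤ 2 := by
          rw [abs_le]
          constructor <;> linarith [hx.1, hx.2, hu.1, hu.2]
        rw [e7]
        calc -((cos θ - z.re) * (cos θ + z.re)) ≤ |(cos θ - z.re) * (cos θ + z.re)| :=
              neg_le_abs _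
          _ = |cos θ - z.re| * |cos θ + z.re| := abs_mul _ _
          _ ≤ |cos θ - z.re| * 2 := mul_le_mul_of_nonneg_left e8 (abs_nonneg _)
          _ = _ := by ring
      linarith
    have k3 : z.im * ρ ^ 3 * sin θ ^ 3 ≤ 3 * su ^ 3 * z.im * ρ ^ 3 + 4 * (C * sb) * ρ := by
      have e5 : |cos θ - z.re| * ρ ≤ 1 := by
        rw [hρ, ← div_eq_mul_inv]
        exact (div_le_one h1).2 hge1
      have e6 : z.im * ρ ^ 3 * |cos θ - z.re| ≤ ρ := by
        calc z.im * ρ ^ 3 * |cos θ - z.re| = (z.im * ρ) * (|cos θ - z.re| * ρ) * ρ := by ring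
          _ ≤ 1 * 1 * ρ := by
            apply mul_le_mul_of_nonneg_right _ hρ0.le
            exact mul_le_mul hvρ e5 (by positivity) (by norm_num)
          _ = ρ := by ring
      calc z.im * ρ ^ 3 * sin θ ^ 3 ≤
          z.im * ρ ^ 3 * (3 * su ^ 3 + 4 * (C * sb) * |cos θ - z.re|) :=
            mul_le_mul_of_nonneg_left k2 (by positivity)
        _ = 3 * su ^ 3 * z.im * ρ ^ 3 + 4 * (C * sb) * (z.im * ρ ^ 3 * |cos θ - z.re|) := by
            ring
        _ ≤ _ := by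
            have := mul_le_mul_of_nonneg_left e6 (show 0 ≤ 4 * (C * sb) by positivity)
            linarith
    have k4 : z.im * ρ ^ 3 * (sin θ + 1 / n) ^ 4 ≤
        48 * (su ^ 3 * z.im) * (ρ ^ 3 * sin θ) + 64 * (C * sb) * (ρ * sin θ) := by
      calc z.im * ρ ^ 3 * (sin θ + 1 / n) ^ 4 ≤ z.im * ρ ^ 3 * (2 * sin θ) ^ 4 :=
            mul_le_mul_of_nonneg_left e4 (by positivity)
        _ = 16 * sin θ * (z.im * ρ ^ 3 * sin θ ^ 3) := by ring
        _ ≤ 16 * sin θ * (3 * su ^ 3 * z.im * ρ ^ 3 + 4 * (C * sb) * ρ) :=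
            mul_le_mul_of_nonneg_left k3 (by positivity)
        _ = _ := by ring
    have k5 : 0 ≤ 28 * (1 / c + 1 / c ^ 2) / n * (n / (1 + n * (π - θ)) ^ 2) := by positivity
    linarith
  · have k1 := fR_exc hn1 (arccos_nonneg b) (arccos_le_pi a) S.hS hθ h
    have e1 : sin θ + 1 / n ≤ 2 / n := by
      have : (2 : ℝ) / n = 1 / n + 1 / n := by ring
      linarith
    have e2 : ρ * (sin θ + 1 / n) ≤ n / c := by
      rw [hρ, inv_mul_eq_div, div_le_div_iff₀ h1 hc]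
      rw [div_le_iff₀ hn0] at hr
      linarith
    have k2 : 2 * ρ * (sin θ + 1 / n) ^ 2 ≤ 4 / c := by
      calc 2 * ρ * (sin θ + 1 / n) ^ 2 = 2 * ((ρ * (sin θ + 1 / n)) * (sin θ + 1 / n)) := by
            ring
        _ ≤ 2 * ((n / c) * (2 / n)) := by
            apply mul_le_mul_of_nonneg_left _ (by norm_num)
            exact mul_le_mul e2 e1 hσ0.le (by positivity)
        _ = 4 / c := by
            field_simp
            ring
    have k3 : z.im * ρ ^ 3 * (sin θ + 1 / n) ^ 4 ≤ 4 / c ^ 2 := by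
      have e3 : (ρ * (sin θ + 1 / n)) ^ 2 ≤ (n / c) ^ 2 :=
        pow_le_pow_left₀ (by positivity) e2 2
      have e4 : (sin θ + 1 / n) ^ 2 ≤ (2 / n) ^ 2 := pow_le_pow_left₀ hσ0.le e1 2
      calc z.im * ρ ^ 3 * (sin θ + 1 / n) ^ 4 =
          (z.im * ρ) * ((ρ * (sin θ + 1 / n)) ^ 2 * (sin θ + 1 / n) ^ 2) := by ring
        _ ≤ 1 * ((n / c) ^ 2 * (2 / n) ^ 2) := by
            refine mul_le_mul hvρ ?_ (by positivity) (by norm_num)
            exact mul_le_mul e3 e4 (by positivity) (by positivity)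
        _ = 4 / c ^ 2 := by
            field_simp
            ring
    have k4 : 4 / c + 4 / c ^ 2 ≤
        (4 / c + 4 / c ^ 2) * (7 / n * (n / (1 + n * (π - θ)) ^ 2)) :=
      le_mul_of_one_le_right (by positivity) k1
    have k5 : (4 / c + 4 / c ^ 2) * (7 / n * (n / (1 + n * (π - θ)) ^ 2)) =
        28 * (1 / c + 1 / c ^ 2) / n * (n / (1 + n * (π - θ)) ^ 2) := by
      ring
    have k6 : 0 ≤ 72 * (C * sb) * (ρ * sin θ) + 48 * (su ^ 3 * z.im) * (ρ ^ 3 * sin θ) := by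
      have := hv.le
      positivity
    linarith

theorem fR_two_int {n : ℕ} {C c a b : ℝ} {P : ℝ[X]} {z : ℂ} (S : FRS n C c a b P z)
    (hu : z.re ∈ Icc a b) :
    (∫ θ in (arccos b)..(arccos a), fR_w n z.re z.im 2 0 0 z.im θ * (sin θ + 1 / n) ^ 2) ≤
      (144 * C * (2 + 4 / c) + 28 * (1 / c + 1 / c ^ 2)) *
        (sin (arccos b) * (1 + Real.log n)) + 96 * (√(1 - z.re ^ 2) ^ 3 / z.im) := by
  have hn1 : 1 ≤ n := by have := S.hn; omega
  have hn0 : (0 : ℝ) < n := by exact_mod_cast hn1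
  have hn1' : (1 : ℝ) ≤ n := by exact_mod_cast hn1
  have h0 : (0 : ℝ) < 1 / n := by positivity
  have hα : arccos b ≤ arccos a := by linarith [S.hβ]
  have hC := S.hC
  have hc := S.hc
  have hv := S.hv
  have hS := S.hS
  have hsb : 0 < sin (arccos b) := by linarith
  have hab := S.hab
  have ha := S.ha
  have hb := S.hb
  have hlog : 0 ≤ Real.log n := Real.log_nonneg hn1'
  obtain ⟨hE1, hE2⟩ := fR_near (n := n) hα (arccos_le_pi a)
  set sb := sin (arccos b) with hsbdef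
  set su := √(1 - z.re ^ 2) with hsu
  have hsu0 : 0 ≤ su := Real.sqrt_nonneg _
  have hc1 : Continuous fun θ => fR_w n z.re z.im 2 0 0 z.im θ * (sin θ + 1 / (n : ℝ)) ^ 2 :=
    (fR_w_cont n S.hv 2 0 0 z.im).mul (by fun_prop)
  have hc2 : Continuous fun θ : ℝ => (g2L_r z.re z.im (cos θ))⁻¹ * sin θ :=
    (fR_rc hv).mul continuous_sin
  have hc3 : Continuous fun θ : ℝ => (g2L_r z.re z.im (cos θ))⁻¹ ^ 3 * sin θ :=
    ((fR_rc hv).pow 3).mul continuous_sin
  have i2 := (hc2.intervalIntegrable (μ := volume) (arccos b) (arccos a)).const_mul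
    (72 * (C * sb))
  have i3 := (hc3.intervalIntegrable (μ := volume) (arccos b) (arccos a)).const_mul
    (48 * (su ^ 3 * z.im))
  have i5 := hE1.const_mul (28 * (1 / c + 1 / c ^ 2) / (n : ℝ))
  have hmono := integral_mono_on hα (hc1.intervalIntegrable _ _) ((i2.add i3).add i5)
    fun θ hθ => fR_two_pt S hu hθ
  rw [integral_add (i2.add i3) i5, integral_add i2 i3, intervalIntegral.integral_const_mul,
    intervalIntegral.integral_const_mul, intervalIntegral.integral_const_mul] at hmono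
  have e0 := fR_sub (g := fun x => (g2L_r z.re z.im x)⁻¹) (g2L_inv_cont hv)
      (arccos a) (arccos b)
  have e0' := fR_sub (g := fun x => (g2L_r z.re z.im x)⁻¹ ^ 3) ((g2L_inv_cont hv).pow 3)
      (arccos a) (arccos b)
  rw [e0, e0'] at hmono
  have hvc : c / (n : ℝ) ^ 2 ≤ z.im := by
    have e1 := fR_rx S hu
    have e3 : g2L_r z.re z.im z.re = z.im := by
      rw [g2L_r, sub_self, zero_pow two_ne_zero, zero_add, Real.sqrt_sq hv.le]
    rw [e3] at e1
    refine le_trans ?_ e1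
    have e2 : c / (n : ℝ) ^ 2 = c * (0 + 1 / n) / n := by
      field_simp
      ring
    rw [e2]
    gcongr
  have e1 : (∫ x in (cos (arccos a))..(cos (arccos b)), (g2L_r z.re z.im x)⁻¹) ≤
      2 * ((2 + 4 / c) * (1 + Real.log n)) := by
    rw [cos_arccos (by linarith : -1 ≤ b) hb, cos_arccos ha (by linarith)]
    have k1 := g2L_I1 (a := a) (b := b) (u := z.re) (B := 2) hv (by norm_num)
      (by linarith [hu.2]) (by linarith [hu.1])
    refine k1.trans ?_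
    apply mul_le_mul_of_nonneg_left _ (by norm_num)
    have k2 : 1 + 2 * 2 / z.im ≤ n ^ 2 * (1 + 4 / c) := by
      have k3 : (1 : ℝ) ≤ n ^ 2 := one_le_pow₀ hn1'
      have k4 : 2 * 2 / z.im ≤ n ^ 2 * (4 / c) := by
        rw [div_le_iff₀ hv]
        rw [div_le_iff₀ (by positivity)] at hvc
        have k5 : n ^ 2 * (4 / c) * z.im = 4 * (z.im * n ^ 2) / c := by ring
        rw [k5, le_div_iff₀ hc]
        linarith
      have k5 : (n : ℝ) ^ 2 * (1 + 4 / c) = n ^ 2 + n ^ 2 * (4 / c) := by ring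
      linarith
    have k6 : Real.log (1 + 2 * 2 / z.im) ≤ Real.log (n ^ 2 * (1 + 4 / c)) :=
      Real.log_le_log (by positivity) k2
    have k7 : Real.log (n ^ 2 * (1 + 4 / c)) = 2 * Real.log n + Real.log (1 + 4 / c) := by
      rw [Real.log_mul (by positivity) (by positivity), Real.log_pow]
      push_cast
      ring
    have k8 : Real.log (1 + 4 / c) ≤ 4 / c := by
      have := Real.log_le_sub_one_of_pos (show 0 < 1 + 4 / c by positivity)
      linarith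
    have k9 : 0 ≤ 4 / c * Real.log n := by positivity
    nlinarith
  have e2 : (∫ x in (cos (arccos a))..(cos (arccos b)), (g2L_r z.re z.im x)⁻¹ ^ 3) ≤
      2 / z.im ^ 2 := g2L_I3 hv
  have e3 := mul_le_mul_of_nonneg_left e1 (show 0 ≤ 72 * (C * sb) by positivity)
  have e4 := mul_le_mul_of_nonneg_left e2 (show 0 ≤ 48 * (su ^ 3 * z.im) by positivity)
  have e5 : 28 * (1 / c + 1 / c ^ 2) / (n : ℝ) *
      (∫ θ in (arccos b)..(arccos a), (n : ℝ) / (1 + n * (π - θ)) ^ 2) ≤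
      28 * (1 / c + 1 / c ^ 2) * (sb * (1 + Real.log n)) := by
    calc _ ≤ 28 * (1 / c + 1 / c ^ 2) / (n : ℝ) := mul_le_of_le_one_right (by positivity) hE2
      _ = 28 * (1 / c + 1 / c ^ 2) * (1 / n) := by ring
      _ ≤ 28 * (1 / c + 1 / c ^ 2) * (sb * (1 + Real.log n)) := by
        apply mul_le_mul_of_nonneg_left _ (by positivity)
        nlinarith
  have e6 : 48 * (su ^ 3 * z.im) * (2 / z.im ^ 2) = 96 * (su ^ 3 / z.im) := by
    field_simp
    ring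
  rw [e6] at e4
  linarith

/-- the main inequality -/
theorem fR_two_main (hG0 : G0) {n : ℕ} {C c a b A' : ℝ} {P : ℝ[X]} {z : ℂ}
    (S : FRS n C c a b P z) (hA'0 : 0 < A')
    (hest : ∀ (F : ℝ → ℝ) (p q s t : ℝ), Continuous F →
      0 ≤ p → 0 ≤ q → 0 ≤ s → 0 ≤ t →
      (∀ θ ∈ Icc (arccos b) (arccos a), F (cos θ) ≤ fR_w n z.re z.im p q s t θ) →
      (∫ x in a..b, F x / √(1 + P.derivative.eval x ^ 2)) ≤
        A' * (1 + Real.log n) / n *
        ∫ θ in (arccos b)..(arccos a), fR_w n z.re z.im p q s t θ * (sin θ + 1 / n) ^ 2)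
    (hau : a < z.re) (hvb : z.im < b - z.re) :
    sin (arccos b) ^ 2 * √(1 + P.derivative.eval b ^ 2) / (2 * (b - z.re)) ≤
      A' * (1 + Real.log n) / n * ((144 * C * (2 + 4 / c) + 28 * (1 / c + 1 / c ^ 2)) *
        (sin (arccos b) * (1 + Real.log n)) + 96 * (√(1 - z.re ^ 2) ^ 3 / z.im)) := by
  have hn1 : 1 ≤ n := by have := S.hn; omega
  have hn0 : (0 : ℝ) < n := by exact_mod_cast hn1
  have hn1' : (1 : ℝ) ≤ n := by exact_mod_cast hn1
  have hlog : 0 ≤ Real.log n := Real.log_nonneg hn1'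
  have hv := S.hv
  have hab := S.hab
  have ha := S.ha
  have hb := S.hb
  have h00 : (0 : ℝ) < 1 / n := by positivity
  have hub : z.re < b := by linarith
  have hint := fR_two_int S ⟨hau.le, hub.le⟩
  have g3 := (fR_h S).2.2
  have hid := g2L_id hG0 hn1 ha hab hb S.hE S.hz hv (X - Polynomial.C z.re)
    (natDegree_X_sub_C_le z.re)
  simp only [eval_sub, eval_X, eval_C] at hid
  rw [← g3] at hid
  set sb := sin (arccos b) with hsbdef
  have hFw : ∀ θ ∈ Icc (arccos b) (arccos a),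
      g2L_F z.re z.im (X - Polynomial.C z.re) (cos θ) ≤ fR_w n z.re z.im 2 0 0 z.im θ := by
    intro θ hθ
    have hsn := fR_sn S hθ
    have hr := g2L_pos (u := z.re) hv (cos θ)
    have k1 := g2o_fB (u := z.re) (neg_one_le_cos θ) (cos_le_one θ) hv hr (g2L_sq _ _ _)
    unfold g2L_F fR_w
    rw [Pool.Agent.Helper40.AS.quad_eval, Pool.Agent.Helper40.AS.quad_der]
    refine k1.trans ?_
    set r := g2L_r z.re z.im (cos θ) with hrdef
    have k2 : 1 - cos θ ^ 2 ≤ (sin θ + 1 / n) ^ 2 := by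
      have k3 : 1 - cos θ ^ 2 = sin θ ^ 2 := by
        have := sin_sq_add_cos_sq θ
        linarith
      rw [k3]
      exact pow_le_pow_left₀ hsn (by linarith) 2
    have k3 : (1 - cos θ ^ 2) * z.im / r ^ 3 ≤ (sin θ + 1 / n) ^ 2 * z.im / r ^ 3 :=
      div_le_div_of_nonneg_right (mul_le_mul_of_nonneg_right k2 hv.le) (by positivity)
    have k4 : 2 * r⁻¹ + 0 * r⁻¹ ^ 2 + 0 * r⁻¹ ^ 3 + z.im * ((sin θ + 1 / n) ^ 2 * r⁻¹ ^ 3) =
        2 / r + (sin θ + 1 / n) ^ 2 * z.im / r ^ 3 := by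
      rw [inv_pow, inv_pow]
      ring
    rw [k4]
    linarith
  have h3 := hest (g2L_F z.re z.im (X - Polynomial.C z.re)) 2 0 0 z.im
    (g2L_F_cont hv _) (by norm_num) le_rfl le_rfl hv.le hFw
  rw [← hid] at h3
  set Φb := √(1 + P.derivative.eval b ^ 2) with hΦb
  have hΦb0 : 0 ≤ Φb := Real.sqrt_nonneg _
  have k2 : 0 < b - z.re := by linarith
  have q1 : sb ^ 2 * Φb / (2 * (b - z.re)) ≤
      sb ^ 2 * (b - z.re) / g2L_r z.re z.im b ^ 2 * Φb := by
    have hrb := g2L_pos (u := z.re) hv b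
    have f1 : g2L_r z.re z.im b ^ 2 ≤ 2 * (b - z.re) ^ 2 := by
      rw [g2L_sq]
      have := pow_le_pow_left₀ hv.le hvb.le 2
      linarith
    have f2 : 1 / (2 * (b - z.re)) ≤ (b - z.re) / g2L_r z.re z.im b ^ 2 := by
      rw [div_le_div_iff₀ (by positivity) (by positivity)]
      linarith
    calc sb ^ 2 * Φb / (2 * (b - z.re)) = sb ^ 2 * Φb * (1 / (2 * (b - z.re))) := by ring
      _ ≤ sb ^ 2 * Φb * ((b - z.re) / g2L_r z.re z.im b ^ 2) :=
        mul_le_mul_of_nonneg_left f2 (by positivity)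
      _ = _ := by ring
  have q2 : 0 ≤ -((1 - a ^ 2) * (a - z.re) / g2L_r z.re z.im a ^ 2 *
      √(1 + P.derivative.eval a ^ 2)) := by
    have f1 : 0 ≤ 1 - a ^ 2 := by nlinarith
    have f2 : 0 ≤ (1 - a ^ 2) * (z.re - a) / g2L_r z.re z.im a ^ 2 *
      √(1 + P.derivative.eval a ^ 2) :=
      mul_nonneg (div_nonneg (mul_nonneg f1 (by linarith)) (sq_nonneg _)) (Real.sqrt_nonneg _)
    have f3 : -((1 - a ^ 2) * (a - z.re) / g2L_r z.re z.im a ^ 2 *
      √(1 + P.derivative.eval a ^ 2)) = (1 - a ^ 2) * (z.re - a) / g2L_r z.re z.im a ^ 2 *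
      √(1 + P.derivative.eval a ^ 2) := by ring
    rw [f3]
    exact f2
  have f1 := mul_le_mul_of_nonneg_left hint
    (show 0 ≤ A' * (1 + Real.log n) / n by positivity)
  linarith

/-- the size of the imaginary part -/
theorem fR_fin1 {C c A' C2 L N sb su v w Φ : ℝ} (hC : 1 ≤ C) (hA : 0 < A')
    (hC2 : 0 < C2) (hL : 1 ≤ L) (hN : 0 < N) (hsb : 0 < sb) (hsb1 : sb ≤ 1) (hsu : 0 < su)
    (hv : 0 < v) (hw : 0 < w) (hΦ : 1 ≤ Φ) (hwb : w ≤ C ^ 2 * sb ^ 2)
    (hvr : c * su / N ≤ v) (hm : sb ^ 2 * Φ / (2 * w) ≤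
      A' * L / N * (C2 * (sb * L) + 96 * (su ^ 3 / v)))
    (h1 : A' * C2 * L ^ 2 ≤ 1 / (4 * C ^ 2) * N) :
    v ≤ 384 * C ^ 2 * A' * L / N * su ^ 3 ∧ c ≤ 384 * C ^ 2 * A' * L * su ^ 2 := by
  have hL0 : 0 < L := by linarith
  have q4 : 1 / (2 * C ^ 2) ≤ sb ^ 2 * Φ / (2 * w) := by
    rw [div_le_div_iff₀ (by positivity) (by positivity)]
    have f2 : C ^ 2 * sb ^ 2 ≤ C ^ 2 * sb ^ 2 * Φ := le_mul_of_one_le_right (by positivity) hΦ
    linarith
  have q5 : A' * L / N * (C2 * (sb * L)) ≤ 1 / (4 * C ^ 2) := by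
    have f1 : A' * L / N * (C2 * (sb * L)) = A' * C2 * L ^ 2 * sb / N := by ring
    rw [f1, div_le_iff₀ hN]
    calc A' * C2 * L ^ 2 * sb ≤ A' * C2 * L ^ 2 := mul_le_of_le_one_right (by positivity) hsb1
      _ ≤ _ := h1
  have q6 : v ≤ 384 * C ^ 2 * A' * L / N * su ^ 3 := by
    have f1 : 1 / (2 * C ^ 2) = 1 / (4 * C ^ 2) + 1 / (4 * C ^ 2) := by
      field_simp
      norm_num
    have f2 : 1 / (4 * C ^ 2) ≤ A' * L / N * (96 * (su ^ 3 / v)) := by
      have f3 : A' * L / N * (C2 * (sb * L) + 96 * (su ^ 3 / v)) =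
          A' * L / N * (C2 * (sb * L)) + A' * L / N * (96 * (su ^ 3 / v)) := by ring
      linarith
    have f4 : A' * L / N * (96 * (su ^ 3 / v)) = (A' * L / N * 96 * su ^ 3) / v := by
      ring
    rw [f4, div_le_div_iff₀ (by positivity) hv] at f2
    calc v = 1 * v := by ring
      _ ≤ A' * L / N * 96 * su ^ 3 * (4 * C ^ 2) := f2
      _ = _ := by ring
  refine ⟨q6, ?_⟩
  have f1 : c * su / N ≤ 384 * C ^ 2 * A' * L / N * su ^ 3 := hvr.trans q6
  have f2 : c * su / N = c * (su / N) := by ring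
  have f3 : 384 * C ^ 2 * A' * L / N * su ^ 3 = 384 * C ^ 2 * A' * L * su ^ 2 * (su / N) := by
    ring
  rw [f2, f3] at f1
  exact le_of_mul_le_mul_right f1 (by positivity)

/-- the second round -/
theorem fR_fin2 {C c A' C2 L N sb su v w Φ : ℝ} (hC : 1 ≤ C) (hc : 0 < c) (hA : 0 < A')
    (hC2 : 0 < C2) (hL : 1 ≤ L) (hN : 0 < N) (hsb : 0 < sb) (hsb1 : sb ≤ 1) (hsu : 0 < su)
    (hv : 0 < v) (hw : 0 < w) (hsub : su ^ 2 ≤ C ^ 2 * sb ^ 2)
    (hvr : c * su / N ≤ v) (hm : sb ^ 2 * Φ / (2 * w) ≤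
      A' * L / N * (C2 * (sb * L) + 96 * (su ^ 3 / v)))
    (h2 : 1 * L ^ 2 ≤ c / (384 * C ^ 4 * A') * N) (hq : c ≤ 384 * C ^ 2 * A' * L * su ^ 2) :
    Φ ≤ 2 * A' * (C2 + 96 * C ^ 2 / c) * L * w := by
  have hL0 : 0 < L := by linarith
  have hC0 : 0 < C := by linarith
  have q9 : L / N ≤ sb ^ 2 := by
    have f1 : c / (384 * C ^ 2 * A' * L) ≤ C ^ 2 * sb ^ 2 := by
      rw [div_le_iff₀ (by positivity)]
      have := mul_le_mul_of_nonneg_left hsub (show 0 ≤ 384 * C ^ 2 * A' * L by positivity)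
      linarith
    have f2 : L / N ≤ c / (384 * C ^ 4 * A') / L := by
      rw [div_le_div_iff₀ hN hL0]
      linarith
    have f3 : c / (384 * C ^ 4 * A') / L = c / (384 * C ^ 2 * A' * L) / C ^ 2 := by
      field_simp
    rw [f3] at f2
    refine f2.trans ?_
    rw [div_le_iff₀ (by positivity)]
    linarith
  have q10 : su ^ 3 / v ≤ N * (C ^ 2 * sb ^ 2) / c := by
    rw [div_le_div_iff₀ hv hc]
    rw [div_le_iff₀ hN] at hvr
    calc su ^ 3 * c = su ^ 2 * (c * su) := by ring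
      _ ≤ (C ^ 2 * sb ^ 2) * (v * N) :=
        mul_le_mul hsub hvr (by positivity) (by positivity)
      _ = _ := by ring
  have f1 : A' * L / N * (C2 * (sb * L)) ≤ A' * L * C2 * sb ^ 2 := by
    calc A' * L / N * (C2 * (sb * L)) = A' * L * C2 * (sb * (L / N)) := by ring
      _ ≤ A' * L * C2 * (1 * sb ^ 2) := by
        apply mul_le_mul_of_nonneg_left _ (by positivity)
        exact mul_le_mul hsb1 q9 (by positivity) (by norm_num)
      _ = _ := by ring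
  have f2 : A' * L / N * (96 * (su ^ 3 / v)) ≤ A' * L * (96 * C ^ 2 / c) * sb ^ 2 := by
    calc A' * L / N * (96 * (su ^ 3 / v)) ≤
        A' * L / N * (96 * (N * (C ^ 2 * sb ^ 2) / c)) := by
          apply mul_le_mul_of_nonneg_left _ (by positivity)
          exact mul_le_mul_of_nonneg_left q10 (by norm_num)
      _ = _ := by
          field_simp
  have f3 : A' * L / N * (C2 * (sb * L) + 96 * (su ^ 3 / v)) ≤
      A' * (C2 + 96 * C ^ 2 / c) * L * sb ^ 2 := by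
    have f4 : A' * (C2 + 96 * C ^ 2 / c) * L * sb ^ 2 = A' * L * C2 * sb ^ 2 +
        A' * L * (96 * C ^ 2 / c) * sb ^ 2 := by ring
    have f5 : A' * L / N * (C2 * (sb * L) + 96 * (su ^ 3 / v)) =
        A' * L / N * (C2 * (sb * L)) + A' * L / N * (96 * (su ^ 3 / v)) := by ring
    rw [f4, f5]
    exact add_le_add f1 f2
  have f4 := hm.trans f3
  rw [div_le_iff₀ (by positivity)] at f4
  have f5 : A' * (C2 + 96 * C ^ 2 / c) * L * sb ^ 2 * (2 * w) =
      sb ^ 2 * (2 * A' * (C2 + 96 * C ^ 2 / c) * L * w) := by ring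
  rw [f5] at f4
  exact le_of_mul_le_mul_left f4 (by positivity)

/-- the second test function -/
theorem fR_two (hG0 : G0) (hG0u : G0u) (hG2av : G2av) (C c : ℝ) (hC : 1 ≤ C) (hc : 0 < c) :
    ∃ K : ℝ, 0 < K ∧ ∃ n0 : ℕ, ∀ n ≥ n0, ∀ (a b : ℝ) (P : ℝ[X]) (z : ℂ), FRS n C c a b P z →
    a < z.re → z.im < b - z.re →
    z.re ≤ b - 1 / (K * (1 + Real.log n)) ∧ z.im ≤ K * (1 + Real.log n) / n ∧
    1 / (K * (1 + Real.log n)) ≤ 1 - z.re ^ 2 ∧
    |P.derivative.eval b| ≤ K * (1 + Real.log n) := by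
  obtain ⟨K, hK, hest⟩ := fR_est hG0u hG2av
  set A' : ℝ := K * (4 * (1 + 1 / c) ^ 3) with hA'
  have hA'0 : 0 < A' := by positivity
  set C2 : ℝ := 144 * C * (2 + 4 / c) + 28 * (1 / c + 1 / c ^ 2) with hC2
  have hC20 : 0 < C2 := by positivity
  set K1 : ℝ := 384 * C ^ 2 * A' with hK1
  have hK10 : 0 < K1 := by positivity
  set K2 : ℝ := 2 * A' * (C2 + 96 * C ^ 2 / c) with hK2
  have hK20 : 0 < K2 := by positivity
  obtain ⟨n1, h1⟩ := g2L_log (A' * C2) (1 / (4 * C ^ 2)) (by positivity)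
  obtain ⟨n2, h2⟩ := g2L_log 1 (c / (384 * C ^ 4 * A')) (by positivity)
  refine ⟨K1 + K1 / c + 2 * K2, by positivity, max n1 n2, ?_⟩
  intro n hn a b P z S hau hvb
  have hn1 : 1 ≤ n := by have := S.hn; omega
  have hn0 : (0 : ℝ) < n := by exact_mod_cast hn1
  have hn1' : (1 : ℝ) ≤ n := by exact_mod_cast hn1
  have hlog : 0 ≤ Real.log n := Real.log_nonneg hn1'
  have hv := S.hv
  have hab := S.hab
  have ha := S.ha
  have hb := S.hb
  have hub : z.re < b := by linarith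
  have hu : z.re ∈ Icc a b := ⟨hau.le, hub.le⟩
  have h1 := h1 n (le_trans (le_max_left _ _) hn)
  have h2 := h2 n (le_trans (le_max_right _ _) hn)
  obtain ⟨g1, g2, g3⟩ := fR_h S
  have hsux := fR_sx S hu
  have hrx := fR_rx S hu
  have e0 : g2L_r z.re z.im z.re = z.im := by
    rw [g2L_r, sub_self, zero_pow two_ne_zero, zero_add, Real.sqrt_sq hv.le]
  rw [e0] at hrx
  have h00 : (0 : ℝ) < 1 / n := by positivity
  have hsb : 0 < sin (arccos b) := lt_of_lt_of_le h00 S.hS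
  have hsb1 : sin (arccos b) ≤ 1 := sin_le_one _
  have hm := fR_two_main hG0 (A' := A') S hA'0 (hest n C c a b P z S) hau hvb
  rw [← hC2] at hm
  rw [← g3] at hsux
  have hΦ : 1 ≤ √(1 + P.derivative.eval b ^ 2) := by
    rw [Real.one_le_sqrt]
    nlinarith [sq_nonneg (P.derivative.eval b)]
  have hΦ2 : |P.derivative.eval b| ≤ √(1 + P.derivative.eval b ^ 2) := by
    rw [← Real.sqrt_sq_eq_abs]
    exact Real.sqrt_le_sqrt (by linarith)
  have hu2 : 0 < 1 - z.re ^ 2 := by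
    have f1 : 0 < 1 - z.re := by linarith
    have f2 : 0 < 1 + z.re := by linarith
    have f3 := mul_pos f1 f2
    have f4 : (1 - z.re) * (1 + z.re) = 1 - z.re ^ 2 := by ring
    rwa [f4] at f3
  have hsu0 : 0 < √(1 - z.re ^ 2) := Real.sqrt_pos.2 hu2
  have hsu2 : √(1 - z.re ^ 2) ^ 2 = 1 - z.re ^ 2 := Real.sq_sqrt hu2.le
  have hsu1 : √(1 - z.re ^ 2) ≤ 1 := by
    rw [Real.sqrt_le_one]
    linarith [sq_nonneg z.re]
  rw [← hsu2] at hsux
  have k2 : 0 < b - z.re := by linarith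
  have hL1 : 1 ≤ 1 + Real.log n := by linarith
  have hL0 : 0 < 1 + Real.log n := by linarith
  have q7 : c * √(1 - z.re ^ 2) / n ≤ z.im := by
    refine le_trans ?_ hrx
    gcongr
    linarith
  obtain ⟨q6, q8⟩ := fR_fin1 hC hA'0 hC20 hL1 hn0 hsb hsb1 hsu0 hv k2 hΦ (by linarith) q7
    hm h1
  have q12 := fR_fin2 hC hc hA'0 hC20 hL1 hn0 hsb hsb1 hsu0 hv k2 hsux q7 hm h2 q8
  rw [← hK1] at q6 q8
  rw [← hK2] at q12
  set sb := sin (arccos b) with hsbdef
  set su := √(1 - z.re ^ 2) with hsu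
  set L := 1 + Real.log n with hL
  set Φb := √(1 + P.derivative.eval b ^ 2) with hΦb
  have hK1c : 0 < K1 / c := by positivity
  have hKs : K2 ≤ K1 + K1 / c + 2 * K2 := by linarith
  have hKs1 : K1 ≤ K1 + K1 / c + 2 * K2 := by linarith
  have hKs2 : K1 / c ≤ K1 + K1 / c + 2 * K2 := by linarith
  have hKs3 : 2 * K2 ≤ K1 + K1 / c + 2 * K2 := by linarith
  set K3 : ℝ := K1 + K1 / c + 2 * K2 with hK3
  have hK30 : 0 < K3 := by linarith
  refine ⟨?_, ?_, ?_, ?_⟩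
  · have f1 : 1 / (K3 * L) ≤ b - z.re := by
      rw [div_le_iff₀ (by positivity)]
      have f2 : K2 * L * (b - z.re) ≤ K3 * L * (b - z.re) := by
        apply mul_le_mul_of_nonneg_right _ k2.le
        exact mul_le_mul_of_nonneg_right hKs hL0.le
      linarith
    linarith
  · calc z.im ≤ K1 * L / n * su ^ 3 := q6
      _ ≤ K1 * L / n := mul_le_of_le_one_right (by positivity) (pow_le_one₀ hsu0.le hsu1)
      _ ≤ K3 * L / n := by gcongr
  · rw [← hsu2, div_le_iff₀ (by positivity)]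
    have f1 : 1 ≤ K1 / c * L * su ^ 2 := by
      have f2 : K1 / c * L * su ^ 2 = K1 * L * su ^ 2 / c := by ring
      rw [f2, le_div_iff₀ hc]
      linarith
    have f3 : K1 / c * L * su ^ 2 ≤ K3 * L * su ^ 2 := by gcongr
    linarith
  · have f1 : K2 * L * (b - z.re) ≤ K2 * L * 2 := by
      apply mul_le_mul_of_nonneg_left _ (by positivity)
      linarith
    have f2 : 2 * K2 * L ≤ K3 * L := mul_le_mul_of_nonneg_right hKs3 hL0.le
    linarith

/-! ### the three configurations excluded by the first test function -/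

theorem fR_star {c0 k a b : ℝ} {z : ℂ} (hc0 : 0 < c0) (hk : 0 < k) (hk1 : k ≤ 1 / 2)
    (hk2 : k * (1 + 2 / c0) ≤ 1) (hv : 0 < z.im)
    (h : b ≤ z.re ∨ (z.re ≤ a ∧ c0 * (b - a) < ‖z - (a : ℂ)‖) ∨
      (a < z.re ∧ z.re < b ∧ b - z.re ≤ z.im)) :
    ∀ x ∈ Icc a b, k * g2L_r b (g2L_r z.re z.im b) x ≤ g2L_r z.re z.im x := by
  intro x hx
  have hrb := g2L_pos (u := z.re) hv b
  have hrx := g2L_pos (u := z.re) hv x
  have hrb2 := g2L_sq z.re z.im b
  have hrx2 := g2L_sq z.re z.im x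
  have hrr := g2L_pos (u := b) hrb x
  have hrr2 := g2L_sq b (g2L_r z.re z.im b) x
  have key : ∀ y : ℝ, 0 < y → k * y ≤ 1 →
      g2L_r b (g2L_r z.re z.im b) x ≤ y * g2L_r z.re z.im x →
      k * g2L_r b (g2L_r z.re z.im b) x ≤ g2L_r z.re z.im x := by
    intro y _ hy2 h3
    calc k * g2L_r b (g2L_r z.re z.im b) x ≤ k * (y * g2L_r z.re z.im x) :=
          mul_le_mul_of_nonneg_left h3 hk.le
      _ = (k * y) * g2L_r z.re z.im x := by ring
      _ ≤ 1 * g2L_r z.re z.im x := mul_le_mul_of_nonneg_right hy2 hrx.le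
      _ = _ := one_mul _
  rcases h with h | ⟨h1, h2⟩ | ⟨h1, h2, h3⟩
  · apply key 1 one_pos (by linarith)
    rw [one_mul]
    apply le_of_sq_le_sq _ hrx.le
    rw [hrr2, hrx2, hrb2]
    nlinarith [mul_nonneg (sub_nonneg.2 hx.2) (sub_nonneg.2 h)]
  · apply key (1 + 2 / c0) (by positivity) hk2
    rw [g2L_norm] at h2
    have e1 : g2L_r z.re z.im a ≤ g2L_r z.re z.im x := by
      apply le_of_sq_le_sq _ hrx.le
      rw [hrx2, g2L_sq]
      nlinarith [mul_nonneg (sub_nonneg.2 hx.1) (sub_nonneg.2 h1), hx.1]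
    have e2 : b - a ≤ 1 / c0 * g2L_r z.re z.im x := by
      rw [one_div, inv_mul_eq_div, le_div_iff₀ hc0]
      linarith
    have e3 := g2L_lip z.re z.im b x
    rw [abs_of_nonneg (sub_nonneg.2 hx.2)] at e3
    have e4 : g2L_r b (g2L_r z.re z.im b) x ≤ (b - x) + g2L_r z.re z.im b := by
      apply le_of_sq_le_sq _ (by linarith [hx.2])
      rw [hrr2]
      nlinarith [mul_nonneg (sub_nonneg.2 hx.2) hrb.le]
    have e5 : (1 + 2 / c0) * g2L_r z.re z.im x =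
        g2L_r z.re z.im x + 2 * (1 / c0 * g2L_r z.re z.im x) := by ring
    rw [e5]
    linarith [hx.1]
  · apply key 2 two_pos (by linarith)
    apply le_of_sq_le_sq _ (by positivity)
    rw [hrr2, mul_pow, hrx2, hrb2]
    have e1 : (b - z.re) ^ 2 ≤ z.im ^ 2 := pow_le_pow_left₀ (by linarith) h3 2
    nlinarith [sq_nonneg ((x - z.re) + (b - z.re))]

theorem fR (hG0 : G0) (hG0u : G0u) (hG1u : G1u) (hG2av : G2av) : FR := by
  intro η c0 hη hc0
  obtain ⟨c, hc, hG1⟩ := hG1u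
  have hC := fR_C1 hη
  set C : ℝ := π / 2 * (1 + 1 / η) with hCdef
  have hC0 : 0 < C := by linarith
  set k : ℝ := 1 / (2 + 2 / c0) with hkdef
  have hk : 0 < k := by positivity
  have hk1 : k ≤ 1 / 2 := by
    rw [hkdef]
    apply one_div_le_one_div_of_le (by norm_num)
    have : 0 < 2 / c0 := by positivity
    linarith
  have hk2 : k * (1 + 2 / c0) ≤ 1 := by
    rw [hkdef, one_div, inv_mul_eq_div, div_le_one (by positivity)]
    linarith
  obtain ⟨n1, h1⟩ := fR_one hG0 hG0u hG2av C c k hk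
  obtain ⟨K, hK, n2, h2⟩ := fR_two hG0 hG0u hG2av C c hC hc
  refine ⟨K, C, hK, hC0, max (max n1 n2) 2, ?_⟩
  intro n hn a b P z hW hηβ hE hND hz hv
  obtain ⟨ha, hab, hb, hR⟩ := hW
  have hnn1 : n1 ≤ n := by omega
  have hnn2 : n2 ≤ n := by omega
  have hn2 : 2 ≤ n := by omega
  have hn1 : 1 ≤ n := by omega
  have hn0 : (0 : ℝ) < n := by exact_mod_cast hn1
  have hβ0 := arccos_nonneg b
  have hαπ := arccos_le_pi a
  have hβα : arccos b ≤ arccos a := arccos_le_arccos hab.le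
  have hg1 : ∀ θ ∈ Icc (arccos b) (arccos a), sin θ ≤ C * sin (arccos b) :=
    fun θ hθ => fR_geo1 hη hβ0 hαπ hηβ hθ
  have hg2 : arccos a - arccos b ≤ C * sin (arccos b) := fR_geo2 hη hβ0 hβα hαπ hηβ
  have hS : 1 / (n : ℝ) ≤ sin (arccos b) := by
    rw [div_le_iff₀ hn0]
    have e1 : C ≤ C * (sin (arccos b) * n) := by
      calc C ≤ n * (arccos a - arccos b) := hR
        _ ≤ n * (C * sin (arccos b)) := mul_le_mul_of_nonneg_left hg2 hn0.le
        _ = _ := by ring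
    have e2 : C * 1 ≤ C * (sin (arccos b) * n) := by linarith
    exact le_of_mul_le_mul_left e2 hC0
  have hβ : arccos b + 1 / n ≤ arccos a := by
    have e1 : 1 / (n : ℝ) ≤ arccos a - arccos b := by
      rw [div_le_iff₀ hn0]
      linarith
    linarith
  have S : FRS n C c a b P z := by
    refine ⟨hn2, hC, hc, ha, hab, hb, hE, hND, hz, hv, hS, hβ, hg1, hg2, ?_⟩
    intro θ hθ
    have e1 := hG1 n a b P hn1 ha hab hb (natDegree_le_of_degree_le hE.deg) hE.bdd hND z hz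
      (Or.inl hv.ne') θ hθ
    rwa [g2L_norm] at e1
  have hstar := fR_star (a := a) (b := b) (z := z) hc0 hk hk1 hk2 hv
  rcases le_or_gt z.re a with h3 | h3
  · left
    refine ⟨h3, ?_⟩
    by_contra hcon
    push Not at hcon
    exact h1 n hnn1 a b P z S (hstar (Or.inr (Or.inl ⟨h3, hcon⟩)))
  · right
    rcases le_or_gt b z.re with h4 | h4
    · exact (h1 n hnn1 a b P z S (hstar (Or.inl h4))).elim
    · rcases le_or_gt (b - z.re) z.im with h5 | h5
      · exact (h1 n hnn1 a b P z S (hstar (Or.inr (Or.inr ⟨h3, h4, h5⟩)))).elim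
      · exact ⟨h3, h2 n hnn2 a b P z S h3 h5⟩

end

end Pool.Agent.Helper10.AL
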