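import Pool.Agent.Helper10.AL.St7
import Pool.Agent.Helper10.AL.P.G2L
import Pool.Agent.Helper10.AL.P.G2o
import Pool.Agent.Helper10.AL.P.FR

/-!
Arc length of polynomials over windows, large degree: the first order condition at the non-real
critical points near a small left gap.
-/

set_option autoImplicit false

namespace Pool.Agent.Helper10.AL

open Polynomial Set Real MeasureTheory intervalIntegral
open Pool.Agent.Helper40.AS (arc Bdd Ext quad)

noncomputable section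

/-! ### the weighted estimate -/

/-- the weighted estimate -/
def fL_Est (K : ℝ) : Prop := ∀ (n : ℕ) (a b A : ℝ) (P : ℝ[X]) (F w : ℝ → ℝ), 2 ≤ n → -1 ≤ a →
  a < b → b ≤ 1 → arccos b + 1 / n ≤ arccos a → P.natDegree ≤ n → Bdd P →
  ND n (qq P) (arccos b) (arccos a) → Continuous F → Continuous w →
  (∀ θ ∈ Icc (arccos b) (arccos a), 0 ≤ w θ) →
  (∀ θ ∈ Icc (arccos b) (arccos a), F (cos θ) ≤ w θ) → 1 ≤ A →
  (∀ x ∈ Icc (arccos b) (arccos a), ∀ y ∈ Icc (arccos b) (arccos a), |x - y| ≤ 1 / n →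
    w x ≤ A * w y) →
  (∫ x in a..b, F x / √(1 + P.derivative.eval x ^ 2)) ≤
    K * A * (1 + Real.log n) / n * ∫ θ in (arccos b)..(arccos a), w θ * (sin θ + 1 / n) ^ 2

theorem fL_est (hG0u : G0u) (hG2av : G2av) : ∃ K : ℝ, 0 < K ∧ fL_Est K := by
  obtain ⟨K, hK, hK2⟩ := hG2av
  refine ⟨K, hK, ?_⟩
  intro n a b A P F w hn ha hab hb hβ hP hB hND hF hw hw0 hFw hA hAw
  have hn1 : 1 ≤ n := by omega
  have hn0 : (0 : ℝ) < n := by exact_mod_cast hn1
  have hα : arccos b ≤ arccos a := arccos_le_arccos hab.le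
  have hβ0 := arccos_nonneg b
  have hαπ := arccos_le_pi a
  have hsin : ∀ θ ∈ Icc (arccos b) (arccos a), 0 ≤ sin θ := fun θ hθ =>
    sin_nonneg_of_nonneg_of_le_pi (hβ0.trans hθ.1) (hθ.2.trans hαπ)
  have h1 := hK2 n a b A P w hn ha hab hb hβ hP hB hND hw.continuousOn hw0 hA hAw
  have h2 := hG0u a b P F ha hab.le hb hF.continuousOn
  rw [h2]
  refine le_trans ?_ h1
  have hg : ∀ θ ∈ Icc (arccos b) (arccos a), sin θ ^ 2 / √(sin θ ^ 2 + deriv (qq P) θ ^ 2) =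
      sin θ / √(1 + P.derivative.eval (cos θ) ^ 2) := fun θ hθ =>
    g2o_sq (hsin θ hθ) (fR_deriv P θ)
  have hsp : ∀ θ : ℝ, 0 < √(1 + P.derivative.eval (cos θ) ^ 2) := fun θ =>
    Real.sqrt_pos.2 (by positivity)
  have hgc : Continuous fun θ : ℝ => sin θ / √(1 + P.derivative.eval (cos θ) ^ 2) :=
    Continuous.div (by fun_prop) (by fun_prop) fun θ => (hsp θ).ne'
  have e1 : (∫ θ in (arccos b)..(arccos a), F (cos θ) *
      (sin θ ^ 2 / √(sin θ ^ 2 + deriv (qq P) θ ^ 2))) =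
      ∫ θ in (arccos b)..(arccos a), F (cos θ) *
        (sin θ / √(1 + P.derivative.eval (cos θ) ^ 2)) := by
    refine integral_congr fun θ hθ => ?_
    rw [uIcc_of_le hα] at hθ
    rw [hg θ hθ]
  have e2 : (∫ θ in (arccos b)..(arccos a), w θ *
      (sin θ ^ 2 / √(sin θ ^ 2 + deriv (qq P) θ ^ 2))) =
      ∫ θ in (arccos b)..(arccos a), w θ *
        (sin θ / √(1 + P.derivative.eval (cos θ) ^ 2)) := by
    refine integral_congr fun θ hθ => ?_
    rw [uIcc_of_le hα] at hθ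
    rw [hg θ hθ]
  rw [e1, e2]
  refine integral_mono_on hα (((hF.comp continuous_cos).mul hgc).intervalIntegrable _ _)
    ((hw.mul hgc).intervalIntegrable _ _) fun θ hθ => ?_
  exact mul_le_mul_of_nonneg_right (hFw θ hθ) (div_nonneg (hsin θ hθ) (hsp θ).le)

/-! ### the setting -/

/-- the setting of this file -/
structure FLS (n : ℕ) (C c κ a b : ℝ) (P : ℝ[X]) (z : ℂ) : Prop where
  hn : 2 ≤ n
  hC : 1 ≤ C
  hc : 0 < c
  hκ : 0 < κ
  ha : -1 < a
  hb : b ≤ 1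
  hCa : C * (1 + a) ≤ 1 / 4
  hCb : 8 * (C * (1 + a)) ≤ 1 + b
  hns : κ / n ≤ √(1 + a)
  hβ : arccos b + 1 / n ≤ arccos a
  hE : Ext n a b P
  hND : ND n (qq P) (arccos b) (arccos a)
  hz : aeval z P.derivative = 0
  hv : 0 < z.im
  hzC : ‖z + 1‖ ≤ C * (1 + a)
  hr : ∀ θ ∈ Icc (arccos b) (arccos a), c * (sin θ + 1 / n) / n ≤ g2L_r z.re z.im (cos θ)

section

variable {n : ℕ} {C c κ a b : ℝ} {P : ℝ[X]} {z : ℂ}

theorem FLS.ha1 (S : FLS n C c κ a b P z) : a ≤ -(3 / 4) := by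
  have h1 := S.hC
  have h2 := S.hCa
  have h3 := S.ha
  nlinarith

theorem FLS.hCs (S : FLS n C c κ a b P z) : 1 + a ≤ C * (1 + a) :=
  le_mul_of_one_le_left (by linarith [S.ha]) S.hC

theorem FLS.hab (S : FLS n C c κ a b P z) : a < b := by
  have h1 := S.hCs
  have h2 := S.hCb
  have h3 := S.ha
  linarith

theorem FLS.hu (S : FLS n C c κ a b P z) : |1 + z.re| ≤ C * (1 + a) := by
  have h1 := Complex.abs_re_le_norm (z + 1)
  rw [Complex.add_re, Complex.one_re, add_comm] at h1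
  exact h1.trans S.hzC

theorem FLS.hv1 (S : FLS n C c κ a b P z) : z.im ≤ C * (1 + a) := by
  have h1 := Complex.abs_im_le_norm (z + 1)
  rw [Complex.add_im, Complex.one_im, add_zero] at h1
  exact (le_abs_self _).trans (h1.trans S.hzC)

theorem FLS.hub (S : FLS n C c κ a b P z) : z.re < b := by
  have h1 := (abs_le.1 S.hu).2
  have h2 := S.hCb
  have h3 := S.hCs
  have h4 := S.ha
  linarith

theorem FLS.hd (S : FLS n C c κ a b P z) : g2L_r z.re z.im a ≤ 2 * C * (1 + a) := by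
  have hs0 : 0 < 1 + a := by linarith [S.ha]
  rw [← g2L_norm]
  have h2 : z - (a : ℂ) = (z + 1) - ((1 + a : ℝ) : ℂ) := by
    push_cast
    ring
  rw [h2]
  refine (norm_sub_le _ _).trans ?_
  rw [Complex.norm_real, Real.norm_eq_abs, abs_of_pos hs0]
  have h3 := S.hzC
  have h4 := S.hCs
  linarith

theorem FLS.hh (S : FLS n C c κ a b P z) : g2L_r z.re z.im a ≤ b - a := by
  have h1 := S.hd
  have h2 := S.hCb
  have h3 := S.hCs
  have h4 := S.ha
  linarith

theorem FLS.sn (_S : FLS n C c κ a b P z) {θ : ℝ} (hθ : θ ∈ Icc (arccos b) (arccos a)) :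
    0 ≤ sin θ :=
  sin_nonneg_of_nonneg_of_le_pi ((arccos_nonneg b).trans hθ.1) (hθ.2.trans (arccos_le_pi a))

theorem FLS.cs (S : FLS n C c κ a b P z) {θ : ℝ} (hθ : θ ∈ Icc (arccos b) (arccos a)) :
    cos θ ∈ Icc a b := by
  have hab := S.hab
  have ha := S.ha
  have hb := S.hb
  constructor
  · rw [← cos_arccos ha.le (by linarith)]
    exact cos_le_cos_of_nonneg_of_le_pi ((arccos_nonneg b).trans hθ.1) (arccos_le_pi a) hθ.2
  · rw [← cos_arccos (show -1 ≤ b by linarith) hb]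
    exact cos_le_cos_of_nonneg_of_le_pi (arccos_nonneg b) (hθ.2.trans (arccos_le_pi a)) hθ.1

/-- distance of points near `1` -/
theorem FLS.far (S : FLS n C c κ a b P z) {θ : ℝ} (h0 : 0 ≤ θ) (h1 : θ ≤ 1 / n) :
    1 ≤ cos θ - a ∧ 1 ≤ cos θ - z.re := by
  have hn : (2 : ℝ) ≤ n := by exact_mod_cast S.hn
  have h2 : 1 / (n : ℝ) ≤ 1 / 2 := one_div_le_one_div_of_le (by norm_num) hn
  have h3 : 1 - θ ^ 2 / 2 ≤ cos θ := one_sub_sq_div_two_le_cos
  have h4 := S.ha1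
  have h5 := (le_abs_self _).trans S.hu
  have h6 := S.hCa
  constructor <;> nlinarith

theorem FLS.M (S : FLS n C c κ a b P z) {θ : ℝ} (hθ : θ ∈ Icc (arccos b) (arccos a))
    (h : 1 / (n : ℝ) ≤ θ) : sin θ + 1 / n ≤ (3 + 1 / κ) * sin θ := by
  have hn0 : (0 : ℝ) < n := by exact_mod_cast (by have := S.hn; omega : 0 < n)
  have hκ := S.hκ
  have hsn := S.sn hθ
  have ha := S.ha
  have ha1 := S.ha1
  have e1 : (3 + 1 / κ) * sin θ = 3 * sin θ + sin θ / κ := by ring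
  rw [e1]
  rcases le_total θ (π / 2) with h1 | h1
  · have h2 : 2 / π * θ ≤ sin θ := mul_le_sin ((arccos_nonneg b).trans hθ.1) h1
    have h3 : 1 / 2 * θ ≤ 2 / π * θ := by
      refine mul_le_mul_of_nonneg_right ?_ ((arccos_nonneg b).trans hθ.1)
      rw [div_le_div_iff₀ (by norm_num) pi_pos]
      linarith [pi_le_four]
    have h4 : 0 ≤ sin θ / κ := by positivity
    linarith
  · have h2 : sin (arccos a) ≤ sin θ := by
      rw [← sin_pi_sub θ, ← sin_pi_sub (arccos a)]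
      refine sin_le_sin_of_le_of_le_pi_div_two ?_ ?_ ?_
      · linarith [arccos_le_pi a, pi_pos]
      · linarith
      · linarith [hθ.2]
    have h3 : √(1 + a) ≤ sin (arccos a) := by
      rw [sin_arccos]
      refine Real.sqrt_le_sqrt ?_
      nlinarith
    have h4 := S.hns
    have h5 : 1 / (n : ℝ) ≤ sin θ / κ := by
      rw [div_le_div_iff₀ hn0 hκ]
      rw [div_le_iff₀ hn0] at h4
      have h6 := mul_le_mul_of_nonneg_right (h3.trans h2) hn0.le
      linarith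
    linarith

theorem FLS.slow (S : FLS n C c κ a b P z) {x y : ℝ} (hx : x ∈ Icc (arccos b) (arccos a))
    (hxy : |x - y| ≤ 1 / n) : 1 + cos y ≤ (1 + (3 / 2 + 1 / κ) / κ) * (1 + cos x) := by
  have hn1 : 1 ≤ n := by have := S.hn; omega
  have hn0 : (0 : ℝ) < n := by exact_mod_cast hn1
  have hκ := S.hκ
  have hsx := S.sn hx
  have h1 := g2o_cos hn1 hsx hxy
  have h2 := (le_abs_self _).trans h1
  have h3 := S.hns
  have hcx := S.cs hx
  set q := √(1 + cos x) with hq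
  have hq0 : 0 ≤ q := Real.sqrt_nonneg _
  have hq2 : q ^ 2 = 1 + cos x := Real.sq_sqrt (by linarith [neg_one_le_cos x])
  have h4 : √(1 + a) ≤ q := Real.sqrt_le_sqrt (by linarith [hcx.1])
  have h5 : 1 / (n : ℝ) ≤ q / κ := by
    rw [div_le_div_iff₀ hn0 hκ]
    have h6 := h3.trans h4
    rw [div_le_iff₀ hn0] at h6
    linarith
  have h6 : sin x ≤ 3 / 2 * q := by
    refine abs_le_of_sq_le_sq' ?_ (by positivity) |>.2
    have e1 : sin x ^ 2 = (1 - cos x) * (1 + cos x) := by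
      have := sin_sq_add_cos_sq x
      linarith
    rw [e1, mul_pow, hq2]
    refine mul_le_mul_of_nonneg_right ?_ (by linarith [neg_one_le_cos x])
    linarith [neg_one_le_cos x]
  have h7 : (sin x + 1 / n) / n ≤ (3 / 2 * q + q / κ) * (q / κ) := by
    have e : (sin x + 1 / n) / n = (sin x + 1 / n) * (1 / n) := by ring
    rw [e]
    refine mul_le_mul (by linarith) h5 (by positivity) (by positivity)
  have h8 : (3 / 2 * q + q / κ) * (q / κ) = (3 / 2 + 1 / κ) / κ * (1 + cos x) := by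
    rw [← hq2]
    ring
  have h9 : (1 + (3 / 2 + 1 / κ) / κ) * (1 + cos x) =
      (1 + cos x) + (3 / 2 + 1 / κ) / κ * (1 + cos x) := by ring
  rw [h9]
  linarith

/-! ### the first test function -/

theorem fL_I3 {a b d : ℝ} (hd : 0 < d) (ha : 0 ≤ 1 + a) :
    (∫ x in a..b, (1 + x) * (g2L_r a d x)⁻¹ ^ 3) ≤ 2 * (1 + a) / d ^ 2 + 1 / d := by
  have hc3 : Continuous fun x => (g2L_r a d x)⁻¹ ^ 3 := (g2L_inv_cont hd).pow 3
  have hc4 : Continuous fun x => (x - a) * (g2L_r a d x)⁻¹ ^ 3 :=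
    (continuous_id.sub continuous_const).mul hc3
  have hder : ∀ x, HasDerivAt (fun x => -(g2L_r a d x)⁻¹)
      ((x - a) * (g2L_r a d x)⁻¹ ^ 3) x := by
    intro x
    have hr := g2L_pos (u := a) hd x
    have h1 := ((g2L_der (u := a) hd x).inv hr.ne').neg
    refine h1.congr_deriv ?_
    field_simp
  have e1 : (∫ x in a..b, (1 + x) * (g2L_r a d x)⁻¹ ^ 3) =
      ∫ x in a..b, ((1 + a) * (g2L_r a d x)⁻¹ ^ 3 + (x - a) * (g2L_r a d x)⁻¹ ^ 3) := by
    refine integral_congr fun x _ => ?_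
    ring
  rw [e1, integral_add ((hc3.intervalIntegrable _ _).const_mul _) (hc4.intervalIntegrable _ _),
    intervalIntegral.integral_const_mul,
    integral_eq_sub_of_hasDerivAt (fun x _ => hder x) (hc4.intervalIntegrable _ _)]
  have h1 : (1 + a) * (∫ x in a..b, (g2L_r a d x)⁻¹ ^ 3) ≤ (1 + a) * (2 / d ^ 2) :=
    mul_le_mul_of_nonneg_left (g2L_I3 hd) ha
  have h2 : 0 < (g2L_r a d b)⁻¹ := inv_pos.2 (g2L_pos hd b)
  have h3 : (g2L_r a d a)⁻¹ = 1 / d := by
    rw [g2L_r, sub_self, zero_pow two_ne_zero, zero_add, Real.sqrt_sq hd.le, one_div]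
  have h4 : (1 + a) * (2 / d ^ 2) = 2 * (1 + a) / d ^ 2 := by ring
  rw [h3]
  linarith

theorem fL_one_pt (S : FLS n C c κ a b P z)
    (hst : ∀ x ∈ Icc a b, g2L_r a (g2L_r z.re z.im a) x ≤ 2 * g2L_r z.re z.im x) {θ : ℝ}
    (hθ : θ ∈ Icc (arccos b) (arccos a)) :
    ((1 + cos θ) * fR_w n z.re z.im 0 6 (4 * (b - a)) 0 θ) * (sin θ + 1 / n) ^ 2 ≤
      640 * (b - a) + 160 * (3 + 1 / κ) * (b - a) *
        (((1 + cos θ) * (g2L_r a (g2L_r z.re z.im a) (cos θ))⁻¹ ^ 3) * sin θ) := by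
  have hn2 := S.hn
  have hn0 : (2 : ℝ) ≤ n := by exact_mod_cast hn2
  have hsn := S.sn hθ
  have hx := S.cs hθ
  have hκ := S.hκ
  have hab := S.hab
  have hv := S.hv
  have hh := S.hh
  have hh0 : 0 < b - a := by linarith
  have h3 := hst _ hx
  set d := g2L_r z.re z.im a with hd
  have hd0 : 0 < d := g2L_pos hv a
  have h1 : 0 < g2L_r z.re z.im (cos θ) := g2L_pos hv _
  have h2 : 0 < g2L_r a d (cos θ) := g2L_pos hd0 _
  have h4 : g2L_r a d (cos θ) ≤ 2 * (b - a) := by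
    have e1 := g2L_sq a d (cos θ)
    apply le_of_sq_le_sq _ (by positivity)
    rw [e1]
    have e2 : (cos θ - a) ^ 2 ≤ (b - a) ^ 2 :=
      pow_le_pow_left₀ (by linarith [hx.1]) (by linarith [hx.2]) 2
    have e3 : d ^ 2 ≤ (b - a) ^ 2 := pow_le_pow_left₀ hd0.le hh 2
    have e4 : 0 ≤ (b - a) ^ 2 := sq_nonneg _
    have e5 : (2 * (b - a)) ^ 2 = 4 * (b - a) ^ 2 := by ring
    rw [e5]
    linarith
  have hge := g2L_ge1 a d (cos θ)
  set r := g2L_r z.re z.im (cos θ) with hrdef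
  set R := g2L_r a d (cos θ) with hR
  set ρ := r⁻¹ with hρ
  set ρ' := R⁻¹ with hρ'
  have hρ0 : 0 < ρ := by positivity
  have hρ'0 : 0 < ρ' := by positivity
  have hRR : R * ρ' = 1 := mul_inv_cancel₀ h2.ne'
  have h5 : ρ ≤ 2 * ρ' := by
    rw [hρ, hρ', inv_le_iff_one_le_mul₀ h1]
    have e1 : r⁻¹ * r = 1 := inv_mul_cancel₀ h1.ne'
    calc (1 : ℝ) = R * R⁻¹ := hRR.symm
      _ ≤ (2 * r) * R⁻¹ := mul_le_mul_of_nonneg_right h3 hρ'0.le
      _ = 2 * R⁻¹ * r := by ring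
  have h6 : ρ' ^ 2 ≤ 2 * (b - a) * ρ' ^ 3 := by
    calc ρ' ^ 2 = (R * ρ') * ρ' ^ 2 := by rw [hRR, one_mul]
      _ = R * ρ' ^ 3 := by ring
      _ ≤ 2 * (b - a) * ρ' ^ 3 := mul_le_mul_of_nonneg_right h4 (by positivity)
  have h7 : fR_w n z.re z.im 0 6 (4 * (b - a)) 0 θ ≤ 80 * (b - a) * ρ' ^ 3 := by
    have hw : fR_w n z.re z.im 0 6 (4 * (b - a)) 0 θ = 6 * ρ ^ 2 + 4 * (b - a) * ρ ^ 3 := by
      unfold fR_w
      rw [← hrdef, ← hρ]
      ring
    rw [hw]
    have e1 : ρ ^ 2 ≤ (2 * ρ') ^ 2 := pow_le_pow_left₀ hρ0.le h5 2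
    have e2 : ρ ^ 3 ≤ (2 * ρ') ^ 3 := pow_le_pow_left₀ hρ0.le h5 3
    have e3 : 4 * (b - a) * ρ ^ 3 ≤ 4 * (b - a) * (2 * ρ') ^ 3 :=
      mul_le_mul_of_nonneg_left e2 (by positivity)
    have e4 : (2 * ρ') ^ 2 = 4 * ρ' ^ 2 := by ring
    have e5 : 4 * (b - a) * (2 * ρ') ^ 3 = 32 * (b - a) * ρ' ^ 3 := by ring
    have e6 : 80 * (b - a) * ρ' ^ 3 = 24 * (2 * (b - a) * ρ' ^ 3) + 32 * (b - a) * ρ' ^ 3 := by
      ring
    rw [e6]
    linarith
  have hw0 : 0 ≤ fR_w n z.re z.im 0 6 (4 * (b - a)) 0 θ :=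
    fR_w_nonneg n hv le_rfl (by norm_num) (by linarith) le_rfl θ
  have hc0 : 0 ≤ 1 + cos θ := by linarith [neg_one_le_cos θ]
  have h1n : 1 / (n : ℝ) ≤ 1 / 2 := one_div_le_one_div_of_le (by norm_num) hn0
  have hn' : (0 : ℝ) < 1 / n := by positivity
  set t := sin θ + 1 / (n : ℝ) with ht
  have ht0 : 0 ≤ t := by positivity
  have ht2 : t ≤ 2 := by linarith [sin_le_one θ]
  rcases le_total θ (1 / n) with h | h
  · have k1 := (S.far ((arccos_nonneg b).trans hθ.1) h).1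
    have k2 : 1 ≤ R := k1.trans ((le_abs_self _).trans hge)
    have k3 : ρ' ≤ 1 := by
      rw [hρ']
      exact inv_le_one_of_one_le₀ k2
    have k4 : ρ' ^ 3 ≤ 1 := pow_le_one₀ hρ'0.le k3
    have k5 : t ^ 2 ≤ 4 := (pow_le_pow_left₀ ht0 ht2 2).trans_eq (by norm_num)
    have k6 : fR_w n z.re z.im 0 6 (4 * (b - a)) 0 θ ≤ 80 * (b - a) :=
      h7.trans (mul_le_of_le_one_right (by positivity) k4)
    have k7 : (1 + cos θ) * fR_w n z.re z.im 0 6 (4 * (b - a)) 0 θ ≤ 2 * (80 * (b - a)) :=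
      mul_le_mul (by linarith [cos_le_one θ]) k6 hw0 (by norm_num)
    have k8 : ((1 + cos θ) * fR_w n z.re z.im 0 6 (4 * (b - a)) 0 θ) * t ^ 2 ≤
        2 * (80 * (b - a)) * 4 := mul_le_mul k7 k5 (by positivity) (by positivity)
    have k9 : 0 ≤ 160 * (3 + 1 / κ) * (b - a) * (((1 + cos θ) * ρ' ^ 3) * sin θ) := by
      positivity
    linarith
  · have k1 := S.M hθ h
    have k2 : t ^ 2 ≤ 2 * ((3 + 1 / κ) * sin θ) := by
      calc t ^ 2 = t * t := by ring
        _ ≤ 2 * ((3 + 1 / κ) * sin θ) := mul_le_mul ht2 k1 ht0 (by norm_num)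
    have k3 : (1 + cos θ) * fR_w n z.re z.im 0 6 (4 * (b - a)) 0 θ ≤
        (1 + cos θ) * (80 * (b - a) * ρ' ^ 3) := mul_le_mul_of_nonneg_left h7 hc0
    have k4 : ((1 + cos θ) * fR_w n z.re z.im 0 6 (4 * (b - a)) 0 θ) * t ^ 2 ≤
        ((1 + cos θ) * (80 * (b - a) * ρ' ^ 3)) * (2 * ((3 + 1 / κ) * sin θ)) :=
      mul_le_mul k3 k2 (by positivity) (by positivity)
    have k5 : ((1 + cos θ) * (80 * (b - a) * ρ' ^ 3)) * (2 * ((3 + 1 / κ) * sin θ)) =
        160 * (3 + 1 / κ) * (b - a) * (((1 + cos θ) * ρ' ^ 3) * sin θ) := by ring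
    linarith

theorem fL_one_int (S : FLS n C c κ a b P z)
    (hst : ∀ x ∈ Icc a b, g2L_r a (g2L_r z.re z.im a) x ≤ 2 * g2L_r z.re z.im x) :
    (∫ θ in (arccos b)..(arccos a), ((1 + cos θ) * fR_w n z.re z.im 0 6 (4 * (b - a)) 0 θ) *
      (sin θ + 1 / n) ^ 2) ≤ 640 * (b - a) * π + 160 * (3 + 1 / κ) * (b - a) *
        (2 * (1 + a) / g2L_r z.re z.im a ^ 2 + 1 / g2L_r z.re z.im a) := by
  have hab := S.hab
  have ha := S.ha
  have hb := S.hb
  have hκ := S.hκ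
  have hα : arccos b ≤ arccos a := arccos_le_arccos hab.le
  have hd0 : 0 < g2L_r z.re z.im a := g2L_pos S.hv a
  have hc1 : Continuous fun θ => ((1 + cos θ) * fR_w n z.re z.im 0 6 (4 * (b - a)) 0 θ) *
      (sin θ + 1 / (n : ℝ)) ^ 2 :=
    ((continuous_const.add continuous_cos).mul (fR_w_cont n S.hv _ _ _ _)).mul (by fun_prop)
  have hc2 : Continuous fun θ : ℝ =>
      ((1 + cos θ) * (g2L_r a (g2L_r z.re z.im a) (cos θ))⁻¹ ^ 3) * sin θ :=
    ((continuous_const.add continuous_cos).mul ((fR_rc hd0).pow 3)).mul continuous_sin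
  have i1 : IntervalIntegrable (fun _ : ℝ => 640 * (b - a)) volume (arccos b) (arccos a) :=
    continuous_const.intervalIntegrable _ _
  have i2 := (hc2.intervalIntegrable (μ := volume) (arccos b) (arccos a)).const_mul
    (160 * (3 + 1 / κ) * (b - a))
  have hmono := integral_mono_on hα (hc1.intervalIntegrable _ _) (i1.add i2)
    fun θ hθ => fL_one_pt S hst hθ
  refine hmono.trans ?_
  have e0 := fR_sub (g := fun x => (1 + x) * (g2L_r a (g2L_r z.re z.im a) x)⁻¹ ^ 3)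
    ((continuous_const.add continuous_id).mul ((g2L_inv_cont hd0).pow 3))
    (arccos a) (arccos b)
  have e00 : (∫ _ in (arccos b)..(arccos a), 640 * (b - a)) =
      (arccos a - arccos b) * (640 * (b - a)) := by
    rw [intervalIntegral.integral_const, smul_eq_mul]
  rw [integral_add i1 i2, e00, intervalIntegral.integral_const_mul]
  rw [e0, cos_arccos (by linarith : -1 ≤ b) hb, cos_arccos ha.le (by linarith)]
  have e1 := fL_I3 (a := a) (b := b) hd0 (by linarith)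
  have e2 : (arccos a - arccos b) * (640 * (b - a)) ≤ 640 * (b - a) * π := by
    have e3 : arccos a - arccos b ≤ π := by linarith [arccos_le_pi a, arccos_nonneg b]
    calc (arccos a - arccos b) * (640 * (b - a)) ≤ π * (640 * (b - a)) :=
          mul_le_mul_of_nonneg_right e3 (by linarith)
      _ = _ := by ring
  have e3 : 160 * (3 + 1 / κ) * (b - a) *
      (∫ x in a..b, (1 + x) * (g2L_r a (g2L_r z.re z.im a) x)⁻¹ ^ 3) ≤
      160 * (3 + 1 / κ) * (b - a) *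
        (2 * (1 + a) / g2L_r z.re z.im a ^ 2 + 1 / g2L_r z.re z.im a) := by
    refine mul_le_mul_of_nonneg_left e1 ?_
    have : 0 < b - a := by linarith
    positivity
  linarith

theorem fL_FA {x u v r a b : ℝ} (ha : -1 ≤ a) (hb : b ≤ 1) (hx : x ∈ Icc a b) (hr : 0 < r)
    (hrq : r ^ 2 = (x - u) ^ 2 + v ^ 2) :
    ((-(2 * x) * (x - b) + (1 - x ^ 2)) * r ^ 2 - ((1 - x ^ 2) * (x - b)) * (2 * (x - u))) /
      (r ^ 2) ^ 2 ≤ (1 + x) * (6 * r⁻¹ ^ 2 + 4 * (b - a) * r⁻¹ ^ 3) := by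
  have hx1 : 0 ≤ 1 + x := by linarith [hx.1]
  have hx2 : 0 ≤ 1 - x := by linarith [hx.2]
  have hxb : 0 ≤ b - x := by linarith [hx.2]
  have hba : b - x ≤ b - a := by linarith [hx.1]
  have hxr : |x - u| ≤ r := by
    refine abs_le_of_sq_le_sq ?_ hr.le
    rw [hrq]
    nlinarith [sq_nonneg v]
  have hxr' := (le_abs_self (x - u)).trans hxr
  have e1 : (1 + x) * (6 * r⁻¹ ^ 2 + 4 * (b - a) * r⁻¹ ^ 3) =
      ((1 + x) * 6 * r ^ 2 + (1 + x) * (4 * (b - a)) * r) / (r ^ 2) ^ 2 := by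
    field_simp
  rw [e1]
  refine div_le_div_of_nonneg_right ?_ (by positivity)
  have h1 : -(2 * x) * (x - b) + (1 - x ^ 2) ≤ (1 + x) * 6 := by
    have k1 : -(2 * x) * (x - b) ≤ (1 + x) * 4 := by
      have k2 : -(2 * x) * (x - b) = 2 * x * (b - x) := by ring
      rw [k2]
      rcases le_total x 0 with h | h
      · have : 2 * x * (b - x) ≤ 0 := mul_nonpos_of_nonpos_of_nonneg (by linarith) hxb
        linarith
      · have : 2 * x * (b - x) ≤ 2 * x * 2 :=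
          mul_le_mul_of_nonneg_left (by linarith) (by linarith)
        linarith
    have k3 : 1 - x ^ 2 ≤ (1 + x) * 2 := by
      have : (1 + x) * (1 - x) ≤ (1 + x) * 2 := mul_le_mul_of_nonneg_left (by linarith) hx1
      have e : (1 + x) * (1 - x) = 1 - x ^ 2 := by ring
      linarith
    linarith
  have h2 : (-(2 * x) * (x - b) + (1 - x ^ 2)) * r ^ 2 ≤ (1 + x) * 6 * r ^ 2 :=
    mul_le_mul_of_nonneg_right h1 (by positivity)
  have h3 : -((1 - x ^ 2) * (x - b) * (2 * (x - u))) ≤ (1 + x) * (4 * (b - a)) * r := by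
    have e : -((1 - x ^ 2) * (x - b) * (2 * (x - u))) =
        ((1 + x) * ((1 - x) * (b - x))) * (2 * (x - u)) := by ring
    rw [e]
    have k1 : (1 - x) * (b - x) ≤ 2 * (b - a) :=
      mul_le_mul (by linarith) hba hxb (by norm_num)
    have k2 : 0 ≤ (1 + x) * ((1 - x) * (b - x)) := by positivity
    have k3 : (1 + x) * ((1 - x) * (b - x)) ≤ (1 + x) * (2 * (b - a)) :=
      mul_le_mul_of_nonneg_left k1 hx1
    calc ((1 + x) * ((1 - x) * (b - x))) * (2 * (x - u)) ≤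
          ((1 + x) * ((1 - x) * (b - x))) * (2 * r) :=
          mul_le_mul_of_nonneg_left (by linarith) k2
      _ ≤ ((1 + x) * (2 * (b - a))) * (2 * r) :=
          mul_le_mul_of_nonneg_right k3 (by positivity)
      _ = _ := by ring
  linarith

theorem fL_one (hG0 : G0) {K C c κ : ℝ} (hK : 0 < K) (hest : fL_Est K) (hC : 1 ≤ C)
    (hc : 0 < c) (hκ : 0 < κ) : ∃ n0 : ℕ, ∀ n ≥ n0, ∀ (a b : ℝ) (P : ℝ[X]) (z : ℂ),
    FLS n C c κ a b P z →
    (∀ x ∈ Icc a b, g2L_r a (g2L_r z.re z.im a) x ≤ 2 * g2L_r z.re z.im x) → False := by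
  set A0 : ℝ := 1 + (3 / 2 + 1 / κ) / κ with hA0
  set A : ℝ := A0 * (4 * (1 + 1 / c) ^ 3) with hA
  have hA01 : 1 ≤ A0 := by
    have : 0 < (3 / 2 + 1 / κ) / κ := by positivity
    linarith
  have hA1 : 1 ≤ 4 * (1 + 1 / c) ^ 3 := by
    have h0 : 0 < 1 / c := by positivity
    have h1 : 1 ≤ (1 + 1 / c) ^ 3 := one_le_pow₀ (by linarith)
    linarith
  have hAA : 1 ≤ A := by
    calc (1 : ℝ) = 1 * 1 := by norm_num
      _ ≤ A0 * (4 * (1 + 1 / c) ^ 3) := mul_le_mul hA01 hA1 (by norm_num) (by linarith)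
  set K7 : ℝ := 640 * π * C ^ 2 + 160 * (3 + 1 / κ) * (2 + 2 * C) with hK7
  have hK7p : 0 < K7 := by positivity
  obtain ⟨n2, hn2⟩ := g2L_log (K * A * K7) (1 / 2) (by norm_num)
  refine ⟨n2, ?_⟩
  intro n hn a b P z S hst
  have hsmall := hn2 n hn
  have hn2' := S.hn
  have hn1 : 1 ≤ n := by omega
  have hn0 : (1 : ℝ) ≤ n := by exact_mod_cast hn1
  have hnp : (0 : ℝ) < n := by linarith
  have hL : 0 ≤ Real.log n := Real.log_nonneg hn0
  have ha := S.ha
  have ha1 := S.ha1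
  have hv := S.hv
  have hab := S.hab
  have hb := S.hb
  have hs0 : 0 < 1 + a := by linarith
  have hh0 : 0 < b - a := by linarith
  have hid := g2L_id hG0 hn1 ha.le hab hb S.hE S.hz hv (X - Polynomial.C b)
    (natDegree_X_sub_C_le b)
  simp only [eval_sub, eval_X, eval_C, sub_self, mul_zero, zero_div, zero_mul, zero_sub] at hid
  have hsn : ∀ θ ∈ Icc (arccos b) (arccos a), 0 ≤ sin θ := fun θ hθ => S.sn hθ
  have hest1 := hest n a b A P (g2L_F z.re z.im (X - Polynomial.C b))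
    (fun θ => (1 + cos θ) * fR_w n z.re z.im 0 6 (4 * (b - a)) 0 θ) hn2' ha.le hab hb S.hβ
    (natDegree_le_of_degree_le S.hE.deg) S.hE.bdd S.hND (g2L_F_cont hv _)
    ((continuous_const.add continuous_cos).mul (fR_w_cont n hv _ _ _ _))
    (fun θ _ => mul_nonneg (by linarith [neg_one_le_cos θ])
      (fR_w_nonneg n hv le_rfl (by norm_num) (by linarith) le_rfl θ))
    (by
      intro θ hθ
      have hx := S.cs hθ
      have h1 := fL_FA (u := z.re) (v := z.im) ha.le hb hx (g2L_pos hv (cos θ))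
        (g2L_sq z.re z.im (cos θ))
      unfold g2L_F fR_w
      rw [g2L_d1, g2L_quad, Pool.Agent.Helper40.AS.quad_der]
      simp only [eval_sub, eval_X, eval_C]
      refine h1.trans (le_of_eq ?_)
      ring) hAA
    (by
      intro x hx y hy hxy
      have h1 := S.slow hy (by rwa [abs_sub_comm] at hxy)
      have h2 := fR_w_slow hn1 (p := 0) (q := 6) (s := 4 * (b - a)) (t := 0) hv hc le_rfl
        (by norm_num) (by linarith) le_rfl (S.sn hx) (S.sn hy) hxy (S.hr x hx)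
      have h3 := fR_w_nonneg n (u := z.re) hv (p := 0) (q := 6) (s := 4 * (b - a)) (t := 0)
        le_rfl (by norm_num) (by linarith) le_rfl x
      have h4 : 0 ≤ 1 + cos y := by linarith [neg_one_le_cos y]
      calc (1 + cos x) * fR_w n z.re z.im 0 6 (4 * (b - a)) 0 x ≤
            (A0 * (1 + cos y)) * (4 * (1 + 1 / c) ^ 3 *
              fR_w n z.re z.im 0 6 (4 * (b - a)) 0 y) :=
            mul_le_mul h1 h2 h3 (by positivity)
        _ = A * ((1 + cos y) * fR_w n z.re z.im 0 6 (4 * (b - a)) 0 y) := by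
            rw [hA]
            ring)
  rw [← hid] at hest1
  have hJ := fL_one_int S hst
  have hdd := S.hd
  set d := g2L_r z.re z.im a with hd
  have hd0 : 0 < d := g2L_pos hv a
  set G : ℝ := (b - a) * ((1 + a) / d ^ 2) with hG
  have hG0' : 0 < G := by positivity
  have hJ2 : 640 * (b - a) * π + 160 * (3 + 1 / κ) * (b - a) *
      (2 * (1 + a) / d ^ 2 + 1 / d) ≤ K7 * G := by
    have k1 : 1 / d ≤ 2 * C * ((1 + a) / d ^ 2) := by
      rw [← mul_div_assoc, div_le_div_iff₀ hd0 (by positivity)]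
      have k0 := mul_le_mul_of_nonneg_right hdd hd0.le
      calc 1 * d ^ 2 = d * d := by ring
        _ ≤ 2 * C * (1 + a) * d := k0
    have k2 : 1 ≤ C ^ 2 * ((1 + a) / d ^ 2) := by
      rw [← mul_div_assoc, le_div_iff₀ (by positivity), one_mul]
      calc d ^ 2 ≤ (2 * C * (1 + a)) ^ 2 := pow_le_pow_left₀ hd0.le hdd 2
        _ = C ^ 2 * (1 + a) * (4 * (1 + a)) := by ring
        _ ≤ C ^ 2 * (1 + a) * 1 := mul_le_mul_of_nonneg_left (by linarith) (by positivity)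
        _ = C ^ 2 * (1 + a) := by ring
    have k3 : 640 * (b - a) * π * 1 ≤ 640 * (b - a) * π * (C ^ 2 * ((1 + a) / d ^ 2)) :=
      mul_le_mul_of_nonneg_left k2 (by positivity)
    have k4 : 160 * (3 + 1 / κ) * (b - a) * (2 * (1 + a) / d ^ 2 + 1 / d) ≤
        160 * (3 + 1 / κ) * (b - a) *
          (2 * (1 + a) / d ^ 2 + 2 * C * ((1 + a) / d ^ 2)) :=
      mul_le_mul_of_nonneg_left (by linarith) (by positivity)
    have k5 : K7 * G = 640 * (b - a) * π * (C ^ 2 * ((1 + a) / d ^ 2)) +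
        160 * (3 + 1 / κ) * (b - a) * (2 * (1 + a) / d ^ 2 + 2 * C * ((1 + a) / d ^ 2)) := by
      rw [hK7, hG]
      ring
    linarith
  have h1 : G ≤ -((1 - a ^ 2) * (a - b) / d ^ 2 * √(1 + P.derivative.eval a ^ 2)) := by
    have k1 : 1 ≤ √(1 + P.derivative.eval a ^ 2) := by
      rw [Real.one_le_sqrt]
      linarith [sq_nonneg (P.derivative.eval a)]
    have k2 : 1 + a ≤ 1 - a ^ 2 := by
      have e : (1 + a) * (1 - a) = 1 - a ^ 2 := by ring
      rw [← e]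
      exact le_mul_of_one_le_right hs0.le (by linarith)
    have k3 : G ≤ (1 - a ^ 2) * (b - a) / d ^ 2 := by
      rw [hG]
      have e : (b - a) * ((1 + a) / d ^ 2) = ((1 + a) * (b - a)) / d ^ 2 := by ring
      rw [e]
      exact div_le_div_of_nonneg_right (mul_le_mul_of_nonneg_right k2 hh0.le) (by positivity)
    have e2 : -((1 - a ^ 2) * (a - b) / d ^ 2 * √(1 + P.derivative.eval a ^ 2)) =
        (1 - a ^ 2) * (b - a) / d ^ 2 * √(1 + P.derivative.eval a ^ 2) := by ring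
    rw [e2]
    exact k3.trans (le_mul_of_one_le_right (hG0'.le.trans k3) k1)
  have h2 := (h1.trans hest1).trans (mul_le_mul_of_nonneg_left (hJ.trans hJ2)
    (show 0 ≤ K * A * (1 + Real.log n) / n by positivity))
  have h3 : K * A * (1 + Real.log n) / n * (K7 * G) ≤ 1 / 2 * G := by
    have e1 : K * A * (1 + Real.log n) / n * (K7 * G) =
        (K * A * K7 * (1 + Real.log n)) / n * G := by ring
    rw [e1]
    apply mul_le_mul_of_nonneg_right _ hG0'.le
    rw [div_le_iff₀ hnp]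
    refine le_trans ?_ hsmall
    apply mul_le_mul_of_nonneg_left _ (by positivity)
    exact le_self_pow₀ (by linarith) two_ne_zero
  linarith

/-! ### the second test function -/

theorem fL_pt {n : ℕ} {M θ u v T r : ℝ} (hn0 : (2 : ℝ) ≤ n) (hsθ : 0 ≤ sin θ)
    (hv : 0 < v) (hv1 : v ≤ 1) (hT : 0 ≤ T) (hTu : T ^ 2 = 1 + u) (hr0 : 0 < r)
    (hvr : v ≤ r) (hcr : cos θ - u ≤ r) (hM : 0 ≤ M)
    (hs : 1 / (n : ℝ) ≤ θ → sin θ + 1 / n ≤ M * sin θ)
    (hfar : θ ≤ 1 / (n : ℝ) → 1 ≤ cos θ - u) :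
    (2 * r⁻¹ + v * ((sin θ + 1 / n) ^ 2 * r⁻¹ ^ 3)) * (sin θ + 1 / n) ^ 2 ≤
      (4 * M + 14 * M ^ 4) * (r⁻¹ * sin θ) +
        (14 * M ^ 4 * (T ^ 3 * v) * (r⁻¹ ^ 3 * sin θ) + 24) := by
  have hn1 : (0 : ℝ) < n := by linarith
  have h1n : 1 / (n : ℝ) ≤ 1 / 2 := one_div_le_one_div_of_le (by norm_num) hn0
  have hn' : (0 : ℝ) < 1 / n := by positivity
  set t := sin θ + 1 / (n : ℝ) with ht
  have ht0 : 0 ≤ t := by positivity
  have ht2 : t ≤ 2 := by linarith [sin_le_one θ]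
  set ρ := r⁻¹ with hρ
  have hρ0 : 0 < ρ := by positivity
  have hρr : ρ * r = 1 := inv_mul_cancel₀ hr0.ne'
  have e0 : (2 * ρ + v * (t ^ 2 * ρ ^ 3)) * t ^ 2 = 2 * ρ * t ^ 2 + v * ρ ^ 3 * t ^ 4 := by
    ring
  rw [e0]
  rcases le_total θ (1 / n) with h | h
  · have h3 := hfar h
    have h4 : 1 ≤ r := h3.trans hcr
    have h5 : ρ ≤ 1 := by
      rw [hρ]
      exact inv_le_one_of_one_le₀ h4
    have h6 : ρ ^ 3 ≤ 1 := pow_le_one₀ hρ0.le h5
    have h7 : t ^ 2 ≤ 4 := (pow_le_pow_left₀ ht0 ht2 2).trans_eq (by norm_num)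
    have h8 : t ^ 4 ≤ 16 := (pow_le_pow_left₀ ht0 ht2 4).trans_eq (by norm_num)
    have h9 : 2 * ρ * t ^ 2 ≤ 2 * 1 * 4 :=
      mul_le_mul (by linarith) h7 (by positivity) (by norm_num)
    have h10 : v * ρ ^ 3 ≤ 1 * 1 := mul_le_mul hv1 h6 (by positivity) (by norm_num)
    have h11 : v * ρ ^ 3 * t ^ 4 ≤ 1 * 1 * 16 :=
      mul_le_mul h10 h8 (by positivity) (by norm_num)
    have h12 : 0 ≤ (4 * M + 14 * M ^ 4) * (ρ * sin θ) := by positivity
    have h13 : 0 ≤ 14 * M ^ 4 * (T ^ 3 * v) * (ρ ^ 3 * sin θ) := by positivity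
    linarith
  · have h3 : t ≤ M * sin θ := hs h
    set q := √r with hq
    have hq0 : 0 < q := Real.sqrt_pos.2 hr0
    have hq2 : q ^ 2 = r := Real.sq_sqrt hr0.le
    have h4 : sin θ ≤ 3 / 2 * (T + q) := by
      refine abs_le_of_sq_le_sq' ?_ (by positivity) |>.2
      have e1 : sin θ ^ 2 = (1 - cos θ) * (1 + cos θ) := by
        have := sin_sq_add_cos_sq θ
        linarith
      have e2 : 1 + cos θ ≤ T ^ 2 + q ^ 2 := by
        rw [hTu, hq2]
        linarith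
      have e3 : (1 - cos θ) * (1 + cos θ) ≤ 2 * (T ^ 2 + q ^ 2) :=
        mul_le_mul (by linarith [neg_one_le_cos θ]) e2 (by linarith [neg_one_le_cos θ])
          (by norm_num)
      rw [e1]
      have e4 : (3 / 2 * (T + q)) ^ 2 =
          9 / 4 * (T ^ 2 + q ^ 2) + 9 / 2 * (T * q) := by ring
      rw [e4]
      linarith [mul_nonneg hT hq0.le, sq_nonneg T, sq_nonneg q]
    have h5 : sin θ ^ 3 ≤ 14 * (T ^ 3 + q ^ 3) := by
      have k1 : sin θ ^ 3 ≤ (3 / 2 * (T + q)) ^ 3 := pow_le_pow_left₀ hsθ h4 3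
      have k2 : (T + q) ^ 3 ≤ 4 * (T ^ 3 + q ^ 3) := by
        have k5 := mul_nonneg (add_nonneg hT hq0.le) (sq_nonneg (T - q))
        have k6 : 4 * (T ^ 3 + q ^ 3) - (T + q) ^ 3 = 3 * ((T + q) * (T - q) ^ 2) := by
          ring
        linarith
      have k3 : (3 / 2 * (T + q)) ^ 3 = 27 / 8 * (T + q) ^ 3 := by ring
      have k4 : 0 ≤ T ^ 3 + q ^ 3 := by positivity
      linarith
    have h6 : t ^ 4 ≤ M ^ 4 * (sin θ * (14 * (T ^ 3 + q ^ 3))) := by
      calc t ^ 4 ≤ (M * sin θ) ^ 4 := pow_le_pow_left₀ ht0 h3 4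
        _ = M ^ 4 * (sin θ * sin θ ^ 3) := by ring
        _ ≤ _ := mul_le_mul_of_nonneg_left (mul_le_mul_of_nonneg_left h5 hsθ)
          (by positivity)
    have h7 : v * ρ ^ 3 * q ^ 3 ≤ ρ := by
      have hvq : v ≤ q := by
        rw [hq]
        refine Real.le_sqrt_of_sq_le ?_
        calc v ^ 2 = v * v := by ring
          _ ≤ v * 1 := mul_le_mul_of_nonneg_left hv1 hv.le
          _ ≤ r := by linarith
      calc v * ρ ^ 3 * q ^ 3 = ρ ^ 3 * q ^ 3 * v := by ring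
        _ ≤ ρ ^ 3 * q ^ 3 * q := mul_le_mul_of_nonneg_left hvq (by positivity)
        _ = ρ * ρ ^ 2 * (q ^ 2) ^ 2 := by ring
        _ = ρ * (ρ * r) ^ 2 := by
          rw [hq2]
          ring
        _ = ρ := by
          rw [hρr]
          ring
    have h8 : v * ρ ^ 3 * t ^ 4 ≤
        v * ρ ^ 3 * (M ^ 4 * (sin θ * (14 * (T ^ 3 + q ^ 3)))) :=
      mul_le_mul_of_nonneg_left h6 (by positivity)
    have h9 : v * ρ ^ 3 * (M ^ 4 * (sin θ * (14 * (T ^ 3 + q ^ 3)))) =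
        14 * M ^ 4 * (T ^ 3 * v) * (ρ ^ 3 * sin θ) +
          14 * M ^ 4 * sin θ * (v * ρ ^ 3 * q ^ 3) := by ring
    have h10 : 14 * M ^ 4 * sin θ * (v * ρ ^ 3 * q ^ 3) ≤ 14 * M ^ 4 * sin θ * ρ :=
      mul_le_mul_of_nonneg_left h7 (by positivity)
    have h11 : t ^ 2 ≤ 2 * (M * sin θ) := by
      calc t ^ 2 = t * t := by ring
        _ ≤ 2 * (M * sin θ) := mul_le_mul ht2 h3 ht0 (by norm_num)
    have h12 : 2 * ρ * t ^ 2 ≤ 2 * ρ * (2 * (M * sin θ)) :=
      mul_le_mul_of_nonneg_left h11 (by positivity)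
    have h13 : (4 * M + 14 * M ^ 4) * (ρ * sin θ) =
        2 * ρ * (2 * (M * sin θ)) + 14 * M ^ 4 * sin θ * ρ := by ring
    rw [h13]
    linarith

theorem fL_two_int (S : FLS n C c κ a b P z) (hu : a < z.re) :
    (∫ θ in (arccos b)..(arccos a), fR_w n z.re z.im 2 0 0 z.im θ * (sin θ + 1 / n) ^ 2) ≤
      (2 * (4 * (3 + 1 / κ) + 14 * (3 + 1 / κ) ^ 4) * (2 + 4 / c) + 24 * π) *
        (1 + Real.log n) + 28 * (3 + 1 / κ) ^ 4 * (√(1 + z.re) ^ 3 / z.im) := by
  have hn2 := S.hn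
  have hn1 : 1 ≤ n := by omega
  have hn0 : (0 : ℝ) < n := by exact_mod_cast hn1
  have hn1' : (1 : ℝ) ≤ n := by exact_mod_cast hn1
  have hn2' : (2 : ℝ) ≤ n := by exact_mod_cast hn2
  have h0 : (0 : ℝ) < 1 / n := by positivity
  have hab := S.hab
  have ha := S.ha
  have ha1 := S.ha1
  have hb := S.hb
  have hκ := S.hκ
  have hc := S.hc
  have hv := S.hv
  have hub := S.hub
  have hα : arccos b ≤ arccos a := arccos_le_arccos hab.le
  have hlog : 0 ≤ Real.log n := Real.log_nonneg hn1'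
  have hv1 : z.im ≤ 1 := by linarith [S.hv1, S.hCa]
  set M : ℝ := 3 + 1 / κ with hM
  have hM0 : 0 < M := by positivity
  set T := √(1 + z.re) with hT
  have hT0 : 0 ≤ T := Real.sqrt_nonneg _
  have hTu : T ^ 2 = 1 + z.re := Real.sq_sqrt (by linarith)
  have hpt : ∀ θ ∈ Icc (arccos b) (arccos a),
      fR_w n z.re z.im 2 0 0 z.im θ * (sin θ + 1 / n) ^ 2 ≤
      (4 * M + 14 * M ^ 4) * ((g2L_r z.re z.im (cos θ))⁻¹ * sin θ) +
        (14 * M ^ 4 * (T ^ 3 * z.im) * ((g2L_r z.re z.im (cos θ))⁻¹ ^ 3 * sin θ) + 24) := by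
    intro θ hθ
    have h1 := fL_pt (n := n) (M := M) (θ := θ) (u := z.re) (v := z.im) (T := T)
      (r := g2L_r z.re z.im (cos θ)) hn2' (S.sn hθ) hv hv1 hT0 hTu (g2L_pos hv _)
      (g2L_ge2 hv _) ((le_abs_self _).trans (g2L_ge1 _ _ _)) hM0.le (S.M hθ)
      (fun h => (S.far ((arccos_nonneg b).trans hθ.1) h).2)
    have h2 : fR_w n z.re z.im 2 0 0 z.im θ = 2 * (g2L_r z.re z.im (cos θ))⁻¹ +
        z.im * ((sin θ + 1 / n) ^ 2 * (g2L_r z.re z.im (cos θ))⁻¹ ^ 3) := by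
      unfold fR_w
      ring
    rw [h2]
    exact h1
  have hc1 : Continuous fun θ => fR_w n z.re z.im 2 0 0 z.im θ * (sin θ + 1 / (n : ℝ)) ^ 2 :=
    (fR_w_cont n S.hv 2 0 0 z.im).mul (by fun_prop)
  have hc2 : Continuous fun θ : ℝ => (g2L_r z.re z.im (cos θ))⁻¹ * sin θ :=
    (fR_rc hv).mul continuous_sin
  have hc3 : Continuous fun θ : ℝ => (g2L_r z.re z.im (cos θ))⁻¹ ^ 3 * sin θ :=
    ((fR_rc hv).pow 3).mul continuous_sin
  have i2 := (hc2.intervalIntegrable (μ := volume) (arccos b) (arccos a)).const_mul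
    (4 * M + 14 * M ^ 4)
  have i3 := (hc3.intervalIntegrable (μ := volume) (arccos b) (arccos a)).const_mul
    (14 * M ^ 4 * (T ^ 3 * z.im))
  have i5 : IntervalIntegrable (fun _ : ℝ => (24 : ℝ)) volume (arccos b) (arccos a) :=
    continuous_const.intervalIntegrable _ _
  have hmono := integral_mono_on hα (hc1.intervalIntegrable _ _) (i2.add (i3.add i5)) hpt
  have e00 : (∫ _ in (arccos b)..(arccos a), (24 : ℝ)) = (arccos a - arccos b) * 24 := by
    rw [intervalIntegral.integral_const, smul_eq_mul]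
  rw [integral_add i2 (i3.add i5), integral_add i3 i5, e00,
    intervalIntegral.integral_const_mul, intervalIntegral.integral_const_mul] at hmono
  have e0 := fR_sub (g := fun x => (g2L_r z.re z.im x)⁻¹) (g2L_inv_cont hv)
      (arccos a) (arccos b)
  have e0' := fR_sub (g := fun x => (g2L_r z.re z.im x)⁻¹ ^ 3) ((g2L_inv_cont hv).pow 3)
      (arccos a) (arccos b)
  rw [e0, e0'] at hmono
  have hvc : c / (n : ℝ) ^ 2 ≤ z.im := by
    have k0 : arccos z.re ∈ Icc (arccos b) (arccos a) :=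
      ⟨arccos_le_arccos hub.le, arccos_le_arccos hu.le⟩
    have e1 := S.hr _ k0
    rw [cos_arccos (by linarith) (by linarith)] at e1
    have e3 : g2L_r z.re z.im z.re = z.im := by
      rw [g2L_r, sub_self, zero_pow two_ne_zero, zero_add, Real.sqrt_sq hv.le]
    rw [e3] at e1
    refine le_trans ?_ e1
    have e2 : c / (n : ℝ) ^ 2 = c * (0 + 1 / n) / n := by
      field_simp
      ring
    rw [e2]
    gcongr
    exact S.sn k0
  have e1 : (∫ x in (cos (arccos a))..(cos (arccos b)), (g2L_r z.re z.im x)⁻¹) ≤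
      2 * ((2 + 4 / c) * (1 + Real.log n)) := by
    rw [cos_arccos (by linarith : -1 ≤ b) hb, cos_arccos ha.le (by linarith)]
    have k1 := g2L_I1 (a := a) (b := b) (u := z.re) (B := 2) hv (by norm_num)
      (by linarith) (by linarith)
    refine k1.trans ?_
    apply mul_le_mul_of_nonneg_left _ (by norm_num)
    have k2 : 1 + 2 * 2 / z.im ≤ n ^ 2 * (1 + 4 / c) := by
      have k3 : (1 : ℝ) ≤ n ^ 2 := one_le_pow₀ hn1'
      have k4 : 2 * 2 / z.im ≤ n ^ 2 * (4 / c) := by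
        rw [div_le_iff₀ hv]
        rw [div_le_iff₀ (by positivity)] at hvc
        have k5 : n ^ 2 * (4 / c) * z.im = 4 * (z.im * n ^ 2) / c := by ring
        rw [k5, le_div_iff₀ hc]
        linarith
      have k5 : (n : ℝ) ^ 2 * (1 + 4 / c) = n ^ 2 + n ^ 2 * (4 / c) := by ring
      linarith
    have k6 : Real.log (1 + 2 * 2 / z.im) ≤ Real.log (n ^ 2 * (1 + 4 / c)) :=
      Real.log_le_log (by positivity) k2
    have k7 : Real.log (n ^ 2 * (1 + 4 / c)) = 2 * Real.log n + Real.log (1 + 4 / c) := by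
      rw [Real.log_mul (by positivity) (by positivity), Real.log_pow]
      push_cast
      ring
    have k8 : Real.log (1 + 4 / c) ≤ 4 / c := by
      have := Real.log_le_sub_one_of_pos (show 0 < 1 + 4 / c by positivity)
      linarith
    have k9 : 0 ≤ 4 / c * Real.log n := by positivity
    have k10 : (2 + 4 / c) * (1 + Real.log n) =
        2 + 2 * Real.log n + 4 / c + 4 / c * Real.log n := by ring
    rw [k10]
    linarith
  have e2 : (∫ x in (cos (arccos a))..(cos (arccos b)), (g2L_r z.re z.im x)⁻¹ ^ 3) ≤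
      2 / z.im ^ 2 := g2L_I3 hv
  have e3 := mul_le_mul_of_nonneg_left e1 (show 0 ≤ 4 * M + 14 * M ^ 4 by positivity)
  have e4 := mul_le_mul_of_nonneg_left e2 (show 0 ≤ 14 * M ^ 4 * (T ^ 3 * z.im) by
    have := hv.le
    positivity)
  have e5 : (arccos a - arccos b) * 24 ≤ 24 * π * (1 + Real.log n) := by
    have e6 : arccos a - arccos b ≤ π := by linarith [arccos_le_pi a, arccos_nonneg b]
    have e7 : 0 ≤ 24 * π * Real.log n := by positivity
    linarith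
  have e6 : 14 * M ^ 4 * (T ^ 3 * z.im) * (2 / z.im ^ 2) = 28 * M ^ 4 * (T ^ 3 / z.im) := by
    field_simp
    ring
  rw [e6] at e4
  have e8 : (2 * (4 * M + 14 * M ^ 4) * (2 + 4 / c) + 24 * π) * (1 + Real.log n) =
      (4 * M + 14 * M ^ 4) * (2 * ((2 + 4 / c) * (1 + Real.log n))) +
        24 * π * (1 + Real.log n) := by ring
  rw [e8]
  linarith

/-- the main inequality -/
theorem fL_two (hG0 : G0) {K : ℝ} (hK : 0 < K) (hest : fL_Est K) (S : FLS n C c κ a b P z)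
    (hua : a < z.re) (hvu : z.im ≤ z.re - a) :
    (1 + a) * √(1 + P.derivative.eval a ^ 2) ≤ 2 * (z.re - a) *
      (K * (4 * (1 + 1 / c) ^ 3) * (1 + Real.log n) / n *
        ((2 * (4 * (3 + 1 / κ) + 14 * (3 + 1 / κ) ^ 4) * (2 + 4 / c) + 24 * π) *
          (1 + Real.log n) + 28 * (3 + 1 / κ) ^ 4 * (√(1 + z.re) ^ 3 / z.im))) := by
  have hn1 : 1 ≤ n := by have := S.hn; omega
  have hn0 : (0 : ℝ) < n := by exact_mod_cast hn1
  have hn1' : (1 : ℝ) ≤ n := by exact_mod_cast hn1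
  have hlog : 0 ≤ Real.log n := Real.log_nonneg hn1'
  have hv := S.hv
  have hc := S.hc
  have hab := S.hab
  have ha := S.ha
  have ha1 := S.ha1
  have hb := S.hb
  have hub := S.hub
  have h00 : (0 : ℝ) < 1 / n := by positivity
  have hs0 : 0 < 1 + a := by linarith
  have hint := fL_two_int S hua
  have hid := g2L_id hG0 hn1 ha.le hab hb S.hE S.hz hv (X - Polynomial.C z.re)
    (natDegree_X_sub_C_le z.re)
  simp only [eval_sub, eval_X, eval_C] at hid
  have hA1 : 1 ≤ 4 * (1 + 1 / c) ^ 3 := by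
    have h0 : 0 < 1 / c := by positivity
    have h1 : 1 ≤ (1 + 1 / c) ^ 3 := one_le_pow₀ (by linarith)
    linarith
  have hFw : ∀ θ ∈ Icc (arccos b) (arccos a),
      g2L_F z.re z.im (X - Polynomial.C z.re) (cos θ) ≤ fR_w n z.re z.im 2 0 0 z.im θ := by
    intro θ hθ
    have hsn := S.sn hθ
    have hr := g2L_pos (u := z.re) hv (cos θ)
    have k1 := g2o_fB (u := z.re) (neg_one_le_cos θ) (cos_le_one θ) hv hr (g2L_sq _ _ _)
    unfold g2L_F fR_w
    rw [Pool.Agent.Helper40.AS.quad_eval, Pool.Agent.Helper40.AS.quad_der]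
    refine k1.trans ?_
    set r := g2L_r z.re z.im (cos θ) with hrdef
    have k2 : 1 - cos θ ^ 2 ≤ (sin θ + 1 / n) ^ 2 := by
      have k3 : 1 - cos θ ^ 2 = sin θ ^ 2 := by
        have := sin_sq_add_cos_sq θ
        linarith
      rw [k3]
      exact pow_le_pow_left₀ hsn (by linarith) 2
    have k3 : (1 - cos θ ^ 2) * z.im / r ^ 3 ≤ (sin θ + 1 / n) ^ 2 * z.im / r ^ 3 :=
      div_le_div_of_nonneg_right (mul_le_mul_of_nonneg_right k2 hv.le) (by positivity)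
    have k4 : 2 * r⁻¹ + 0 * r⁻¹ ^ 2 + 0 * r⁻¹ ^ 3 + z.im * ((sin θ + 1 / n) ^ 2 * r⁻¹ ^ 3) =
        2 / r + (sin θ + 1 / n) ^ 2 * z.im / r ^ 3 := by
      rw [inv_pow, inv_pow]
      ring
    rw [k4]
    linarith
  have h3 := hest n a b (4 * (1 + 1 / c) ^ 3) P (g2L_F z.re z.im (X - Polynomial.C z.re))
    (fR_w n z.re z.im 2 0 0 z.im) S.hn ha.le hab hb S.hβ
    (natDegree_le_of_degree_le S.hE.deg) S.hE.bdd S.hND (g2L_F_cont hv _)
    (fR_w_cont n hv _ _ _ _)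
    (fun θ _ => fR_w_nonneg n hv (by norm_num) le_rfl le_rfl hv.le θ) hFw hA1
    (fun x hx y hy hxy => fR_w_slow hn1 hv hc (by norm_num) le_rfl le_rfl hv.le (S.sn hx)
      (S.sn hy) hxy (S.hr x hx))
  rw [← hid] at h3
  have f1 := mul_le_mul_of_nonneg_left hint
    (show 0 ≤ K * (4 * (1 + 1 / c) ^ 3) * (1 + Real.log n) / n by positivity)
  set Φ := √(1 + P.derivative.eval a ^ 2) with hΦ
  have hΦ0 : 0 ≤ Φ := Real.sqrt_nonneg _
  have k2 : 0 < z.re - a := by linarith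
  have q2 : 0 ≤ (1 - b ^ 2) * (b - z.re) / g2L_r z.re z.im b ^ 2 *
      √(1 + P.derivative.eval b ^ 2) := by
    have f1 : 0 ≤ 1 - b ^ 2 := by
      have f2 := mul_nonneg (show 0 ≤ 1 - b by linarith) (show 0 ≤ 1 + b by linarith)
      have f3 : (1 - b) * (1 + b) = 1 - b ^ 2 := by ring
      linarith
    exact mul_nonneg (div_nonneg (mul_nonneg f1 (by linarith)) (sq_nonneg _))
      (Real.sqrt_nonneg _)
  have q1 : (1 + a) * Φ / (2 * (z.re - a)) ≤
      -((1 - a ^ 2) * (a - z.re) / g2L_r z.re z.im a ^ 2 * Φ) := by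
    have hra := g2L_pos (u := z.re) hv a
    have g1 : g2L_r z.re z.im a ^ 2 ≤ 2 * (z.re - a) ^ 2 := by
      rw [g2L_sq]
      have := pow_le_pow_left₀ hv.le hvu 2
      have e : (a - z.re) ^ 2 = (z.re - a) ^ 2 := by ring
      linarith
    have g2 : (1 + a) / (2 * (z.re - a)) ≤ (1 - a ^ 2) * (z.re - a) / g2L_r z.re z.im a ^ 2 := by
      rw [div_le_div_iff₀ (by positivity) (by positivity)]
      have k6 : 1 + a ≤ 1 - a ^ 2 := by
        have e : (1 + a) * (1 - a) = 1 - a ^ 2 := by ring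
        rw [← e]
        exact le_mul_of_one_le_right hs0.le (by linarith)
      calc (1 + a) * g2L_r z.re z.im a ^ 2 ≤ (1 - a ^ 2) * (2 * (z.re - a) ^ 2) :=
            mul_le_mul k6 g1 (by positivity) (by linarith)
        _ = (1 - a ^ 2) * (z.re - a) * (2 * (z.re - a)) := by ring
    calc (1 + a) * Φ / (2 * (z.re - a)) = (1 + a) / (2 * (z.re - a)) * Φ := by ring
      _ ≤ (1 - a ^ 2) * (z.re - a) / g2L_r z.re z.im a ^ 2 * Φ :=
        mul_le_mul_of_nonneg_right g2 hΦ0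
      _ = _ := by ring
  have q3 : (1 + a) * Φ / (2 * (z.re - a)) ≤ K * (4 * (1 + 1 / c) ^ 3) * (1 + Real.log n) / n *
      ((2 * (4 * (3 + 1 / κ) + 14 * (3 + 1 / κ) ^ 4) * (2 + 4 / c) + 24 * π) *
          (1 + Real.log n) + 28 * (3 + 1 / κ) ^ 4 * (√(1 + z.re) ^ 3 / z.im)) := by
    linarith
  rw [div_le_iff₀ (by positivity)] at q3
  calc (1 + a) * Φ ≤ _ := q3
    _ = _ := by ring

/-- the conclusion from the main inequality -/
theorem fL_fin {C c A' E E' L N τ T v U Φ : ℝ} (hC : 1 ≤ C) (hc : 0 < c) (hA : 0 < A')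
    (hE : 0 < E) (hE' : 0 < E') (hL : 1 ≤ L) (hN : 0 < N) (hτ : 0 < τ) (hτ1 : τ ≤ 1)
    (hT : 0 ≤ T) (hTτ : T ≤ C * τ) (hv : 0 < v) (hU : 0 < U) (hUC : U ≤ C * τ ^ 2)
    (hΦ : 1 ≤ Φ) (hm : τ ^ 2 * Φ ≤ 2 * U * (A' * L / N * (E * L + E' * (T ^ 3 / v))))
    (hvr : c * τ / N ≤ v)
    (hsm : (1 + 4 * C * (A' * (E + E' * C ^ 3))) * L ^ 2 ≤ 1 * N) :
    v ≤ 4 * C * (A' * (E + E' * C ^ 3)) * L / N ∧
    c ≤ 4 * C * (A' * (E + E' * C ^ 3)) * L * τ ^ 2 ∧
    1 ≤ 2 * (A' * (E + E' * C ^ 3)) * (4 * C * (A' * (E + E' * C ^ 3)) + 1) / c * L * U := by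
  have hL0 : 0 < L := by linarith
  have hC0 : 0 < C := by linarith
  set K4 : ℝ := A' * (E + E' * C ^ 3) with hK4
  have hK4p : 0 < K4 := by positivity
  set K1 : ℝ := 4 * C * K4 with hK1
  have hK1p : 0 < K1 := by positivity
  have hT3 : T ^ 3 ≤ C ^ 3 * τ ^ 3 := by
    rw [← mul_pow]
    exact pow_le_pow_left₀ hT hTτ 3
  set W : ℝ := τ ^ 3 / v with hW
  have hW0 : 0 < W := by positivity
  have hB2 : τ ^ 2 * Φ ≤ 2 * U * (K4 * (L / N) * (L + W)) := by
    refine hm.trans (mul_le_mul_of_nonneg_left ?_ (by positivity))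
    have h1 : T ^ 3 / v ≤ C ^ 3 * W := by
      rw [hW, ← mul_div_assoc]
      exact div_le_div_of_nonneg_right hT3 hv.le
    have h2 : E * L + E' * (T ^ 3 / v) ≤ (E + E' * C ^ 3) * (L + W) := by
      have k1 : 0 ≤ E * W := by positivity
      have k2 : 0 ≤ E' * C ^ 3 * L := by positivity
      have k4 : E' * (T ^ 3 / v) ≤ E' * (C ^ 3 * W) := mul_le_mul_of_nonneg_left h1 hE'.le
      have k3 : (E + E' * C ^ 3) * (L + W) =
          E * L + E * W + E' * C ^ 3 * L + E' * (C ^ 3 * W) := by ring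
      rw [k3]
      linarith
    calc A' * L / N * (E * L + E' * (T ^ 3 / v)) ≤
          A' * L / N * ((E + E' * C ^ 3) * (L + W)) :=
          mul_le_mul_of_nonneg_left h2 (by positivity)
      _ = K4 * (L / N) * (L + W) := by
          rw [hK4]
          ring
  have hsm0 : L ^ 2 / N + K1 * (L ^ 2 / N) ≤ 1 := by
    have e : L ^ 2 / N + K1 * (L ^ 2 / N) = (1 + K1) * L ^ 2 / N := by ring
    rw [e, div_le_iff₀ hN]
    exact hsm
  have hsm1 : L ^ 2 / N ≤ 1 := by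
    have h2 : 0 ≤ K1 * (L ^ 2 / N) := by positivity
    linarith
  have hsm2 : K1 * (L ^ 2 / N) ≤ 1 := by
    have h2 : 0 ≤ L ^ 2 / N := by positivity
    linarith
  have hv1 : v ≤ K1 * (L / N) * τ ^ 3 := by
    have h1 : τ ^ 2 * Φ ≤ 2 * (C * τ ^ 2) * (K4 * (L / N) * (L + W)) :=
      hB2.trans (mul_le_mul_of_nonneg_right (by linarith) (by positivity))
    have h2 : τ ^ 2 * 1 ≤ τ ^ 2 * (2 * C * (K4 * (L / N) * (L + W))) := by
      calc τ ^ 2 * 1 ≤ τ ^ 2 * Φ := mul_le_mul_of_nonneg_left hΦ (by positivity)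
        _ ≤ _ := h1
        _ = _ := by ring
    have h3 : 1 ≤ 2 * C * (K4 * (L / N) * (L + W)) :=
      le_of_mul_le_mul_left h2 (by positivity)
    have h4 : 2 * C * (K4 * (L / N) * (L + W)) =
        1 / 2 * (K1 * (L ^ 2 / N)) + 1 / 2 * (K1 * (L / N) * W) := by
      rw [hK1]
      ring
    rw [h4] at h3
    have h5 : 1 ≤ K1 * (L / N) * W := by linarith
    rw [hW, ← mul_div_assoc, le_div_iff₀ hv, one_mul] at h5
    exact h5
  have hv2 : v ≤ K1 * L / N := by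
    refine hv1.trans ?_
    have h1 : τ ^ 3 ≤ 1 := pow_le_one₀ hτ.le hτ1
    calc K1 * (L / N) * τ ^ 3 ≤ K1 * (L / N) * 1 :=
          mul_le_mul_of_nonneg_left h1 (by positivity)
      _ = K1 * L / N := by ring
  have hcτ : c ≤ K1 * L * τ ^ 2 := by
    have h1 := hvr.trans hv1
    rw [div_le_iff₀ hN] at h1
    have h2 : K1 * (L / N) * τ ^ 3 * N = (K1 * L * τ ^ 2) * τ := by
      field_simp
    rw [h2] at h1
    exact le_of_mul_le_mul_right h1 hτ
  refine ⟨hv2, hcτ, ?_⟩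
  have hWn : W ≤ N * τ ^ 2 / c := by
    rw [hW, div_le_div_iff₀ hv hc]
    rw [div_le_iff₀ hN] at hvr
    calc τ ^ 3 * c = τ ^ 2 * (c * τ) := by ring
      _ ≤ τ ^ 2 * (v * N) := mul_le_mul_of_nonneg_left hvr (by positivity)
      _ = N * τ ^ 2 * v := by ring
  have h1 : (L / N) * (L + W) ≤ (K1 + 1) / c * L * τ ^ 2 := by
    have k1 : (L / N) * (L + W) ≤ (L / N) * (L + N * τ ^ 2 / c) :=
      mul_le_mul_of_nonneg_left (by linarith) (by positivity)
    have k2 : (L / N) * (L + N * τ ^ 2 / c) = L ^ 2 / N + 1 / c * L * τ ^ 2 := by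
      field_simp
    have k3 : 1 ≤ K1 / c * L * τ ^ 2 := by
      have : K1 / c * L * τ ^ 2 = (K1 * L * τ ^ 2) / c := by ring
      rw [this, le_div_iff₀ hc, one_mul]
      exact hcτ
    have k4 : (K1 + 1) / c * L * τ ^ 2 = K1 / c * L * τ ^ 2 + 1 / c * L * τ ^ 2 := by
      ring
    linarith
  have h2 : τ ^ 2 * 1 ≤ τ ^ 2 * (2 * K4 * (K1 + 1) / c * L * U) := by
    calc τ ^ 2 * 1 ≤ τ ^ 2 * Φ := mul_le_mul_of_nonneg_left hΦ (by positivity)
      _ ≤ _ := hB2
      _ = 2 * U * K4 * ((L / N) * (L + W)) := by ring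
      _ ≤ 2 * U * K4 * ((K1 + 1) / c * L * τ ^ 2) :=
          mul_le_mul_of_nonneg_left h1 (by positivity)
      _ = τ ^ 2 * (2 * K4 * (K1 + 1) / c * L * U) := by ring
  exact le_of_mul_le_mul_left h2 (by positivity)

theorem fL_conseq {x a u v : ℝ} (hx1 : a ≤ x)
    (h : 4 * ((x - u) ^ 2 + v ^ 2) < (x - a) ^ 2 + ((a - u) ^ 2 + v ^ 2)) :
    a < u ∧ v < u - a := by
  have h1 : a < u := by
    by_contra h'
    push Not at h'
    nlinarith [mul_nonneg (show 0 ≤ x - a by linarith) (show 0 ≤ a - u by linarith),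
      sq_nonneg (x - u), sq_nonneg v]
  refine ⟨h1, ?_⟩
  by_contra h'
  push Not at h'
  have h2 : (u - a) ^ 2 ≤ v ^ 2 := pow_le_pow_left₀ (by linarith) h' 2
  nlinarith [sq_nonneg ((x - u) - (u - a)), sq_nonneg (x - u)]

end

/-! ### the window -/

/-- the geometry of the window -/
theorem fL_geo {n : ℕ} {C c η a b : ℝ} (hC : 1 ≤ C) (hc : 0 < c) (hn : 1 ≤ n)
    (hη : η = 1 / (10 * C)) (ha : -1 ≤ a) (hab : a < b) (hb : b ≤ 1)
    (hζ : π - arccos a ≤ η * (arccos a - arccos b)) (hcn : c ≤ n * (π - arccos a)) :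
    -1 < a ∧ C * (1 + a) ≤ 1 / 4 ∧ 8 * (C * (1 + a)) ≤ 1 + b ∧ c / 3 / n ≤ √(1 + a) := by
  have hn0 : (0 : ℝ) < n := by exact_mod_cast hn
  have hC0 : 0 < C := by linarith
  have hη0 : 0 < η := by
    rw [hη]
    positivity
  have hηC : η * C = 1 / 10 := by
    rw [hη]
    field_simp
  have hη1 : η ≤ 1 / 10 := by
    rw [← hηC]
    exact le_mul_of_one_le_right hη0.le hC
  set ζ := π - arccos a with hζd
  set γ := π - arccos b with hγd
  have hαπ := arccos_le_pi a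
  have hβ0 := arccos_nonneg b
  have hζ0 : 0 < ζ := by
    by_contra hcon
    push Not at hcon
    have : (n : ℝ) * ζ ≤ 0 := mul_nonpos_of_nonneg_of_nonpos hn0.le hcon
    linarith
  have hζγ : ζ ≤ η * γ := by
    refine hζ.trans (mul_le_mul_of_nonneg_left ?_ hη0.le)
    linarith
  have hγπ : γ ≤ π := by linarith
  have hγ0 : 0 < γ := by
    by_contra hcon
    push Not at hcon
    have : η * γ ≤ 0 := mul_nonpos_of_nonneg_of_nonpos hη0.le hcon
    linarith
  have hζπ : ζ ≤ π := by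
    have : η * γ ≤ 1 * γ := mul_le_mul_of_nonneg_right (by linarith) hγ0.le
    linarith
  have hπ4 := pi_lt_d2
  have hπ3 := pi_gt_three
  have ea : 1 + a = 1 - cos ζ := by
    rw [hζd, cos_pi_sub, cos_arccos ha (by linarith)]
    ring
  have eb : 1 + b = 1 - cos γ := by
    rw [hγd, cos_pi_sub, cos_arccos (by linarith) hb]
    ring
  have q1 : 1 - cos ζ ≤ ζ ^ 2 / 2 := by
    have := one_sub_sq_div_two_le_cos (x := ζ)
    linarith
  have hq : ∀ x : ℝ, 0 ≤ x → x ≤ π → x ^ 2 / 5 ≤ 1 - cos x := by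
    intro x hx0 hx1
    have h1 := Real.cos_le_one_sub_mul_cos_sq (x := x) (by rw [abs_of_nonneg hx0]; exact hx1)
    have h2 : x ^ 2 / 5 ≤ 2 / π ^ 2 * x ^ 2 := by
      have h3 : (1 : ℝ) / 5 ≤ 2 / π ^ 2 := by
        rw [div_le_div_iff₀ (by norm_num) (by positivity)]
        have h4 : π ^ 2 ≤ 3.15 ^ 2 := pow_le_pow_left₀ pi_pos.le hπ4.le 2
        have h5 : (3.15 : ℝ) ^ 2 ≤ 10 := by norm_num
        linarith
      calc x ^ 2 / 5 = 1 / 5 * x ^ 2 := by ring
        _ ≤ 2 / π ^ 2 * x ^ 2 := mul_le_mul_of_nonneg_right h3 (sq_nonneg x)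
    linarith
  have q2 := hq ζ hζ0.le hζπ
  have q3 := hq γ hγ0.le hγπ
  have ha0 : 0 < 1 + a := by
    rw [ea]
    have : 0 < ζ ^ 2 / 5 := by positivity
    linarith
  have q4 : ζ ^ 2 ≤ η ^ 2 * γ ^ 2 := by
    rw [← mul_pow]
    exact pow_le_pow_left₀ hζ0.le hζγ 2
  have q5 : C * ζ ^ 2 ≤ 1 / 100 * γ ^ 2 := by
    calc C * ζ ^ 2 ≤ C * (η ^ 2 * γ ^ 2) := mul_le_mul_of_nonneg_left q4 hC0.le
      _ = (η * C) * η * γ ^ 2 := by ring
      _ ≤ (1 / 10) * (1 / 10) * γ ^ 2 := by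
        rw [hηC]
        exact mul_le_mul_of_nonneg_right (by linarith) (sq_nonneg γ)
      _ = 1 / 100 * γ ^ 2 := by ring
  have q6 : C * (1 + a) ≤ 1 / 200 * γ ^ 2 := by
    rw [ea]
    have := mul_le_mul_of_nonneg_left q1 hC0.le
    linarith
  refine ⟨by linarith, ?_, ?_, ?_⟩
  · have h4 : γ ^ 2 ≤ 3.15 ^ 2 := pow_le_pow_left₀ hγ0.le (by linarith) 2
    have h5 : (3.15 : ℝ) ^ 2 ≤ 10 := by norm_num
    linarith
  · rw [eb]
    linarith
  · refine Real.le_sqrt_of_sq_le ?_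
    rw [ea]
    refine le_trans ?_ q2
    have h1 : c / n ≤ ζ := by
      rw [div_le_iff₀ hn0]
      linarith
    have h2 : (c / n) ^ 2 ≤ ζ ^ 2 := pow_le_pow_left₀ (by positivity) h1 2
    have h3 : (c / 3 / n) ^ 2 = (c / n) ^ 2 / 9 := by ring
    rw [h3]
    have h4 : 0 ≤ (c / (n : ℝ)) ^ 2 := sq_nonneg _
    linarith

theorem fL (hG0 : G0) (hG0u : G0u) (hG1u : G1u) (hG2av : G2av) : FL := by
  intro C1 c1 hC1 hc1
  set C : ℝ := max C1 1 with hCdef
  have hC : 1 ≤ C := le_max_right _ _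
  have hC1C : C1 ≤ C := le_max_left _ _
  have hC0 : 0 < C := by linarith
  obtain ⟨K, hK, hest⟩ := fL_est hG0u hG2av
  obtain ⟨c, hc, hG1⟩ := hG1u
  set κ : ℝ := c1 / 3 with hκdef
  have hκ : 0 < κ := by positivity
  obtain ⟨nA, hA⟩ := fL_one hG0 hK hest hC hc hκ
  set A' : ℝ := K * (4 * (1 + 1 / c) ^ 3) with hA'
  have hA'0 : 0 < A' := by positivity
  set E : ℝ := 2 * (4 * (3 + 1 / κ) + 14 * (3 + 1 / κ) ^ 4) * (2 + 4 / c) + 24 * π with hE1
  have hE0 : 0 < E := by positivity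
  set E' : ℝ := 28 * (3 + 1 / κ) ^ 4 with hE2
  have hE'0 : 0 < E' := by positivity
  set K4 : ℝ := A' * (E + E' * C ^ 3) with hK4
  have hK4p : 0 < K4 := by positivity
  set K1 : ℝ := 4 * C * K4 with hK1
  have hK1p : 0 < K1 := by positivity
  set K2 : ℝ := 2 * K4 * (K1 + 1) / c with hK2
  have hK2p : 0 < K2 := by positivity
  obtain ⟨n3, h3⟩ := g2L_log (1 + K1) 1 one_pos
  refine ⟨1 / (10 * C), K1 + K2 + K1 / c, 1, by positivity, by positivity, one_pos,
    max 2 (max nA n3), ?_⟩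
  intro n hn a b P z hW hζ hcn hE hND hz hv hzC
  obtain ⟨ha, hab, hb, hR⟩ := hW
  have hn2 : 2 ≤ n := le_trans (le_max_left _ _) hn
  have hnn := le_trans (le_max_right _ _) hn
  have hnA : nA ≤ n := le_trans (le_max_left _ _) hnn
  have hn3 : n3 ≤ n := le_trans (le_max_right _ _) hnn
  have hn1 : 1 ≤ n := by omega
  have hn0 : (1 : ℝ) ≤ n := by exact_mod_cast hn1
  have hnp : (0 : ℝ) < n := by linarith
  have hL : 0 ≤ Real.log n := Real.log_nonneg hn0
  obtain ⟨g1, g2, g3, g4⟩ := fL_geo hC hc1 hn1 rfl ha hab hb hζ hcn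
  have hs0 : 0 < 1 + a := by linarith
  have hβ : arccos b + 1 / n ≤ arccos a := by
    have e1 : 1 / (n : ℝ) ≤ arccos a - arccos b := by
      rw [div_le_iff₀ hnp]
      linarith
    linarith
  have S : FLS n C c κ a b P z := by
    refine ⟨hn2, hC, hc, hκ, g1, hb, g2, g3, g4, hβ, hE, hND, hz, hv,
      hzC.trans (mul_le_mul_of_nonneg_right hC1C hs0.le), ?_⟩
    intro θ hθ
    have e1 := hG1 n a b P hn1 ha hab hb (natDegree_le_of_degree_le hE.deg) hE.bdd hND z hz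
      (Or.inl hv.ne') θ hθ
    rwa [g2L_norm] at e1
  have hx : ∃ x ∈ Icc a b, 2 * g2L_r z.re z.im x < g2L_r a (g2L_r z.re z.im a) x := by
    by_contra hcon
    push Not at hcon
    exact hA n hnA a b P z S hcon
  obtain ⟨x, hx, hxr⟩ := hx
  have hx2 : 4 * ((x - z.re) ^ 2 + z.im ^ 2) < (x - a) ^ 2 + ((a - z.re) ^ 2 + z.im ^ 2) := by
    have e1 := g2L_sq z.re z.im x
    have e2 := g2L_sq a (g2L_r z.re z.im a) x
    have e3 := g2L_sq z.re z.im a
    have e4 := pow_lt_pow_left₀ hxr (mul_nonneg zero_le_two (g2L_pos hv x).le) two_ne_zero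
    rw [e2, e3, mul_pow, e1] at e4
    linarith
  obtain ⟨hua, hvu⟩ := fL_conseq hx.1 hx2
  have hB := fL_two hG0 hK hest S hua hvu.le
  have hu := (abs_le.1 S.hu)
  have hub := S.hub
  rw [← hE1, ← hE2, ← hA'] at hB
  have ha1 := S.ha1
  have hΦ1 : 1 ≤ √(1 + P.derivative.eval a ^ 2) := by
    rw [Real.one_le_sqrt]
    linarith [sq_nonneg (P.derivative.eval a)]
  have hτ0 : 0 < √(1 + a) := Real.sqrt_pos.2 hs0
  have hτ2 : √(1 + a) ^ 2 = 1 + a := Real.sq_sqrt hs0.le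
  have hτ1 : √(1 + a) ≤ 1 := by
    refine (Real.sqrt_le_left (by norm_num)).2 ?_
    linarith
  have hTτ : √(1 + z.re) ≤ C * √(1 + a) := by
    refine (Real.sqrt_le_left (by positivity)).2 ?_
    have h1 : (C * √(1 + a)) ^ 2 = C * (C * (1 + a)) := by
      rw [mul_pow, hτ2]
      ring
    rw [h1]
    have h2 : 0 ≤ C * (1 + a) := by positivity
    exact hu.2.trans (le_mul_of_one_le_left h2 hC)
  have hvr : c * √(1 + a) / n ≤ z.im := by
    have k1 : arccos z.re ∈ Icc (arccos b) (arccos a) :=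
      ⟨arccos_le_arccos hub.le, arccos_le_arccos hua.le⟩
    have k2 := S.hr _ k1
    rw [cos_arccos (by linarith) (by linarith), sin_arccos] at k2
    have k3 : g2L_r z.re z.im z.re = z.im := by
      rw [g2L_r, sub_self, zero_pow two_ne_zero, zero_add, Real.sqrt_sq hv.le]
    rw [k3] at k2
    refine le_trans ?_ k2
    have k4 : √(1 + a) ≤ √(1 - z.re ^ 2) := by
      refine Real.sqrt_le_sqrt ?_
      have k5 : z.re ≤ 0 := by linarith [hu.2]
      have k6 := mul_nonneg (show 0 ≤ -z.re by linarith) (show 0 ≤ 1 + z.re by linarith)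
      have k7 : -z.re * (1 + z.re) = -z.re - z.re ^ 2 := by ring
      rw [k7] at k6
      linarith
    refine div_le_div_of_nonneg_right (mul_le_mul_of_nonneg_left ?_ hc.le) hnp.le
    have : (0 : ℝ) < 1 / n := by positivity
    linarith
  rw [← hτ2] at hB
  obtain ⟨r1, r2, r3⟩ := fL_fin (U := z.re - a) hC hc hA'0 hE0 hE'0
    (show 1 ≤ 1 + Real.log n by linarith) hnp hτ0 hτ1 (Real.sqrt_nonneg _) hTτ hv
    (by linarith) (by rw [hτ2]; linarith [hu.2]) hΦ1 hB hvr (h3 n hn3)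
  rw [← hK4, ← hK1] at r1 r2 r3
  rw [← hK2] at r3
  rw [hτ2] at r2
  set L := 1 + Real.log n with hLdef
  have hL1 : 1 ≤ L := by linarith
  have hL0 : 0 < L := by linarith
  have hK1c : 0 < K1 / c := by positivity
  refine ⟨?_, ?_, ?_⟩
  · refine r1.trans (div_le_div_of_nonneg_right (mul_le_mul_of_nonneg_right ?_ hL0.le) hnp.le)
    linarith
  · have f1 : 1 / ((K1 + K2 + K1 / c) * L) ≤ z.re - a := by
      rw [div_le_iff₀ (by positivity)]
      have f2 : K2 * L * (z.re - a) ≤ (K1 + K2 + K1 / c) * L * (z.re - a) := by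
        apply mul_le_mul_of_nonneg_right _ (by linarith)
        exact mul_le_mul_of_nonneg_right (by linarith) hL0.le
      linarith
    linarith
  · rw [div_le_iff₀ (by positivity)]
    have f1 : 1 ≤ K1 / c * L * (1 + a) := by
      have f2 : K1 / c * L * (1 + a) = K1 * L * (1 + a) / c := by ring
      rw [f2, le_div_iff₀ hc]
      linarith
    have f3 : K1 / c * L * (1 + a) ≤ (K1 + K2 + K1 / c) * L * (1 + a) := by
      apply mul_le_mul_of_nonneg_right _ hs0.le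
      exact mul_le_mul_of_nonneg_right (by linarith) hL0.le
    linarith

end

end Pool.Agent.Helper10.AL
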