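import Pool.Agent.Helper10.AL.St3

/-! Project AL, piece G0u: change of variables. -/

set_option autoImplicit false

namespace Pool.Agent.Helper10.AL

open Polynomial Set Real MeasureTheory intervalIntegral
open Pool.Agent.Helper40.AS (arc Bdd Ext quad)

private theorem g0u_pt (c s D : ℝ) (hs : 0 ≤ s) :
    c / √(1 + D ^ 2) * s = c * (s ^ 2 / √(s ^ 2 + (-(s * D)) ^ 2)) := by
  have h0 : 0 < √(1 + D ^ 2) := Real.sqrt_pos.2 (by positivity)
  have h1 : √(s ^ 2 + (-(s * D)) ^ 2) = s * √(1 + D ^ 2) := by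
    rw [show s ^ 2 + (-(s * D)) ^ 2 = s ^ 2 * (1 + D ^ 2) by ring, sqrt_mul (sq_nonneg _),
      sqrt_sq hs]
  rw [h1]
  rcases hs.eq_or_lt with h | h
  · rw [← h]; simp
  · field_simp

theorem g0u : G0u := by
  intro a b P F ha hab hb hF
  set Fe : ℝ → ℝ := IccExtend hab (domRestrict (Icc a b) F) with hFe
  have hFec : Continuous Fe := by
    rw [hFe]
    exact (continuousOn_iff_continuous_domRestrict.1 hF).Icc_extend'
  have hFeq : ∀ x ∈ Icc a b, Fe x = F x := by
    intro x hx
    rw [hFe, IccExtend_of_mem hab _ hx]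
    rfl
  have hs0 : ∀ x : ℝ, √(1 + P.derivative.eval x ^ 2) ≠ 0 := fun x =>
    (Real.sqrt_pos.2 (by positivity)).ne'
  set g : ℝ → ℝ := fun x => Fe x / √(1 + P.derivative.eval x ^ 2) with hg
  have hgc : Continuous g := by
    rw [hg]
    exact hFec.div (by fun_prop) hs0
  have h1 := intervalIntegral.integral_comp_mul_deriv (a := arccos b) (b := arccos a)
    (f := cos) (f' := fun θ => -sin θ) (g := g)
    (fun t _ => hasDerivAt_cos t) (by fun_prop) hgc
  rw [cos_arccos (ha.trans hab) hb, cos_arccos ha (hab.trans hb)] at h1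
  have h2 : (∫ x in a..b, F x / √(1 + P.derivative.eval x ^ 2)) = ∫ x in a..b, g x := by
    refine intervalIntegral.integral_congr fun x hx => ?_
    rw [uIcc_of_le hab] at hx
    simp only [hg]
    rw [hFeq x hx]
  rw [h2, intervalIntegral.integral_symm, ← h1, ← intervalIntegral.integral_neg]
  refine intervalIntegral.integral_congr (fun t ht => ?_)
  have hba : arccos b ≤ arccos a := arccos_le_arccos hab
  rw [uIcc_of_le hba] at ht
  have ht0 : 0 ≤ t := (arccos_nonneg b).trans ht.1
  have htp : t ≤ π := ht.2.trans (arccos_le_pi a)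
  have hcos : cos t ∈ Icc a b := by
    constructor
    · have := cos_le_cos_of_nonneg_of_le_pi ht0 (arccos_le_pi a) ht.2
      rwa [cos_arccos ha (hab.trans hb)] at this
    · have := cos_le_cos_of_nonneg_of_le_pi (arccos_nonneg b) htp ht.1
      rwa [cos_arccos (ha.trans hab) hb] at this
  have hd : deriv (qq P) t = -(sin t * P.derivative.eval (cos t)) := by
    have h3 : HasDerivAt (qq P) (P.derivative.eval (cos t) * -sin t) t :=
      (P.hasDerivAt (cos t)).comp t (hasDerivAt_cos t)
    rw [h3.deriv]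
    ring
  simp only [Function.comp_apply, hg]
  rw [hd, hFeq _ hcos, ← g0u_pt (F (cos t)) (sin t) (P.derivative.eval (cos t))
    (sin_nonneg_of_nonneg_of_le_pi ht0 htp)]
  ring

end Pool.Agent.Helper10.AL
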