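import Pool.Agent.Helper10.AL.St2

/-!
Arc length of polynomials over compact windows: non-real critical points are not close to a
window on which the polynomial is non-degenerate.
-/

set_option autoImplicit false

namespace Pool.Agent.Helper10.AL

open Polynomial Set Real MeasureTheory intervalIntegral
open Pool.Agent.Helper40.AS (arc Bdd Ext quad)

noncomputable section

/-- the derivative of the trigonometric form, in the complex plane -/
def g1_h (P : ℝ[X]) (w : ℂ) : ℂ := -(Complex.sin w * aeval (Complex.cos w) P.derivative)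

theorem g1_diff (P : ℝ[X]) : Differentiable ℂ (g1_h P) := by
  have h1 : Differentiable ℂ (fun z : ℂ => aeval z P.derivative) := by
    have : (fun z : ℂ => aeval z P.derivative) =
        fun z : ℂ => (P.derivative.map (algebraMap ℝ ℂ)).eval z := by
      funext z
      rw [eval_map_algebraMap]
    rw [this]
    exact (P.derivative.map (algebraMap ℝ ℂ)).differentiable
  have h2 : Differentiable ℂ (fun w : ℂ => aeval (Complex.cos w) P.derivative) :=
    h1.comp Complex.differentiable_cos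
  exact (Complex.differentiable_sin.mul h2).neg

/-- first Cauchy estimate -/
theorem g1_b1 (hH : H4d) (n : ℕ) (P : ℝ[X]) (hn : 1 ≤ n) (hd : P.natDegree ≤ n) (hP : Bdd P)
    (w : ℂ) (hw : |w.im| ≤ 1 / n) : ‖deriv (g1_h P) w‖ ≤ (n : ℝ) ^ 2 * Real.exp 2 := by
  have hn0 : (0 : ℝ) < n := by exact_mod_cast hn
  have h1 : ‖deriv (g1_h P) w‖ ≤ (n * Real.exp 2) / (1 / n) := by
    refine Complex.norm_deriv_le_of_forall_mem_sphere_norm_le (by positivity)
      (g1_diff P).diffContOnCl ?_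
    intro z hz
    rw [g1_h, norm_neg]
    refine (hH n P hn hd hP z).trans ?_
    have h2 : |z.im| ≤ 2 / n := by
      have h3 : |(z - w).im| ≤ 1 / n := by
        have := Complex.abs_im_le_norm (z - w)
        rw [mem_sphere_iff_norm.1 hz] at this
        exact this
      have h4 : z.im = (z - w).im + w.im := by simp
      rw [h4]
      calc |(z - w).im + w.im| ≤ |(z - w).im| + |w.im| := abs_add_le _ _
        _ ≤ 1 / n + 1 / n := add_le_add h3 hw
        _ = 2 / n := by ring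
    have h5 : n * |z.im| ≤ 2 := by
      calc n * |z.im| ≤ n * (2 / n) := by gcongr
        _ = 2 := by field_simp
    gcongr
  calc ‖deriv (g1_h P) w‖ ≤ (n * Real.exp 2) / (1 / n) := h1
    _ = (n : ℝ) ^ 2 * Real.exp 2 := by field_simp

/-- second Cauchy estimate -/
theorem g1_b2 (hH : H4d) (n : ℕ) (P : ℝ[X]) (hn : 1 ≤ n) (hd : P.natDegree ≤ n) (hP : Bdd P)
    (w : ℂ) (hw : |w.im| ≤ 1 / (2 * n)) :
    ‖deriv (deriv (g1_h P)) w‖ ≤ 2 * (n : ℝ) ^ 3 * Real.exp 2 := by
  have hn0 : (0 : ℝ) < n := by exact_mod_cast hn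
  have hdd : Differentiable ℂ (deriv (g1_h P)) :=
    (g1_diff P).contDiff (n := 2) |>.differentiable_deriv_two
  have h1 : ‖deriv (deriv (g1_h P)) w‖ ≤ ((n : ℝ) ^ 2 * Real.exp 2) / (1 / (2 * n)) := by
    refine Complex.norm_deriv_le_of_forall_mem_sphere_norm_le (by positivity)
      hdd.diffContOnCl ?_
    intro z hz
    apply g1_b1 hH n P hn hd hP
    have h3 : |(z - w).im| ≤ 1 / (2 * n) := by
      have := Complex.abs_im_le_norm (z - w)
      rw [mem_sphere_iff_norm.1 hz] at this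
      exact this
    have h4 : z.im = (z - w).im + w.im := by simp
    rw [h4]
    calc |(z - w).im + w.im| ≤ |(z - w).im| + |w.im| := abs_add_le _ _
      _ ≤ 1 / (2 * n) + 1 / (2 * n) := add_le_add h3 hw
      _ = 1 / n := by field_simp; norm_num
  calc ‖deriv (deriv (g1_h P)) w‖ ≤ ((n : ℝ) ^ 2 * Real.exp 2) / (1 / (2 * n)) := h1
    _ = 2 * (n : ℝ) ^ 3 * Real.exp 2 := by field_simp

theorem g1_exp2 : Real.exp 2 ≤ 7.5 := by
  have h1 : Real.exp 1 < 2.7182818286 := Real.exp_one_lt_d9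
  have h2 : Real.exp 2 = Real.exp 1 * Real.exp 1 := by
    rw [← Real.exp_add]; norm_num
  rw [h2]
  have h3 : 0 < Real.exp 1 := Real.exp_pos 1
  nlinarith

/-- second order estimate on a vertical segment -/
theorem g1_taylor (hH : H4d) (n : ℕ) (P : ℝ[X]) (hn : 1 ≤ n) (hd : P.natDegree ≤ n)
    (hP : Bdd P) (θ y : ℝ) (hy : |y| ≤ 1 / (2 * n)) :
    ‖g1_h P (θ + y * Complex.I) - g1_h P θ - y * Complex.I * deriv (g1_h P) θ‖ ≤
      15 * (n : ℝ) ^ 3 * y ^ 2 := by
  have hn0 : (0 : ℝ) < n := by exact_mod_cast hn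
  have hdd : Differentiable ℂ (deriv (g1_h P)) :=
    (g1_diff P).contDiff (n := 2) |>.differentiable_deriv_two
  set S : Set ℂ := Metric.closedBall (θ : ℂ) |y| with hS
  have hconv : Convex ℝ S := convex_closedBall _ _
  have h0 : (θ : ℂ) ∈ S := Metric.mem_closedBall_self (abs_nonneg y)
  have h1 : (θ + y * Complex.I : ℂ) ∈ S := by
    rw [hS, mem_closedBall_iff_norm]
    simp
  have him : ∀ ζ ∈ S, |ζ.im| ≤ 1 / (2 * n) := by
    intro ζ hζ
    rw [hS, mem_closedBall_iff_norm] at hζ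
    have h2 := Complex.abs_im_le_norm (ζ - θ)
    simp only [Complex.sub_im, Complex.ofReal_im, sub_zero] at h2
    linarith
  have hb2 : ∀ ζ ∈ S, ‖deriv (deriv (g1_h P)) ζ‖ ≤ 15 * (n : ℝ) ^ 3 := by
    intro ζ hζ
    refine (g1_b2 hH n P hn hd hP ζ (him ζ hζ)).trans ?_
    have := g1_exp2
    have h3 : (0 : ℝ) ≤ (n : ℝ) ^ 3 := by positivity
    nlinarith
  have hd1 : ∀ ζ ∈ S, ‖deriv (g1_h P) ζ - deriv (g1_h P) θ‖ ≤ 15 * (n : ℝ) ^ 3 * |y| := by
    intro ζ hζ
    have h3 := hconv.norm_image_sub_le_of_norm_deriv_le (f := deriv (g1_h P))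
      (fun x _ => hdd x) hb2 h0 hζ
    refine h3.trans ?_
    rw [hS, mem_closedBall_iff_norm] at hζ
    gcongr
  -- the auxiliary function
  set φ : ℂ → ℂ := fun ζ => g1_h P ζ - ζ * deriv (g1_h P) θ with hφ
  have hφd : ∀ ζ : ℂ, HasDerivAt φ (deriv (g1_h P) ζ - deriv (g1_h P) θ) ζ := by
    intro ζ
    have h4 := ((g1_diff P) ζ).hasDerivAt
    have h5 := (hasDerivAt_id ζ).mul_const (deriv (g1_h P) θ)
    have h6 := h4.sub h5
    rw [one_mul] at h6
    exact h6
  have h7 := hconv.norm_image_sub_le_of_norm_deriv_le (f := φ)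
    (fun x _ => (hφd x).differentiableAt) (C := 15 * (n : ℝ) ^ 3 * |y|)
    (fun ζ hζ => by rw [(hφd ζ).deriv]; exact hd1 ζ hζ) h0 h1
  have h8 : φ (θ + y * Complex.I) - φ θ =
      g1_h P (θ + y * Complex.I) - g1_h P θ - y * Complex.I * deriv (g1_h P) θ := by
    simp only [hφ]
    ring
  rw [h8] at h7
  refine h7.trans (le_of_eq ?_)
  have h9 : ‖(θ + y * Complex.I : ℂ) - θ‖ = |y| := by simp
  rw [h9, mul_assoc, abs_mul_abs_self]
  ring

theorem g1_real (hA2 : A2) (P : ℝ[X]) (θ : ℝ) :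
    g1_h P θ = ((deriv (qq P) θ : ℝ) : ℂ) := by
  rw [(hA2.2.2 P θ).1, g1_h]
  have h4 : aeval (Complex.cos (θ : ℂ)) P.derivative =
      ((P.derivative.eval (cos θ) : ℝ) : ℂ) := by
    rw [← Complex.ofReal_cos]
    have := Polynomial.aeval_algebraMap_apply ℂ (cos θ) P.derivative
    simpa using this
  rw [h4]
  push_cast
  ring

theorem g1_real2 (hA2 : A2) (P : ℝ[X]) (θ : ℝ) (hdif : DifferentiableAt ℝ (deriv (qq P)) θ) :
    deriv (g1_h P) θ = ((deriv (deriv (qq P)) θ : ℝ) : ℂ) := by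
  have h1 : HasDerivAt (fun y : ℝ => g1_h P (y : ℂ)) (deriv (g1_h P) θ) θ :=
    ((g1_diff P) (θ : ℂ)).hasDerivAt.comp_ofReal
  have h2 : (fun y : ℝ => g1_h P (y : ℂ)) = fun y : ℝ => ((deriv (qq P) y : ℝ) : ℂ) := by
    funext y
    exact g1_real hA2 P y
  rw [h2] at h1
  have h3 : HasDerivAt (fun y : ℝ => ((deriv (qq P) y : ℝ) : ℂ))
      ((deriv (deriv (qq P)) θ : ℝ) : ℂ) θ := hdif.hasDerivAt.ofReal_comp
  exact h1.unique h3

theorem g1 (hA1 : A1) (hA2 : A2) (hCA : CA) (hH4d : H4d) : G1 := by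
  intro δ hδ hδ4
  have hs : 0 < √δ := Real.sqrt_pos.2 hδ
  refine ⟨√δ / 60000, by positivity, ?_⟩
  intro n a b P hn hM hd hP hND z hz him x hx
  by_contra hlt
  push Not at hlt
  have hn0 : (0 : ℝ) < n := by exact_mod_cast hn
  have hTB : TB n (qq P) := hA2.2.1 n P hd hP
  obtain ⟨hM1, hM2, hM3⟩ := hM
  have hx1 : -1 ≤ x := by linarith [hx.1]
  have hx2 : x ≤ 1 := by linarith [hx.2]
  obtain ⟨w, hw, -, -, hw3⟩ := hCA δ hδ (by linarith) z
  have hw4 := hw3 (arccos x) ⟨arccos_nonneg x, arccos_le_pi x⟩ (by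
    rw [cos_arccos hx1 hx2]
    exact ⟨by linarith [hx.1], by linarith [hx.2]⟩)
  rw [cos_arccos hx1 hx2] at hw4
  -- the distance in the plane of the angles
  have hw5 : ‖w - (arccos x : ℂ)‖ ≤ 1 / (20000 * n) := by
    refine hw4.trans ?_
    have h1 : 3 / √δ * ‖z - (x : ℂ)‖ ≤ 3 / √δ * (√δ / 60000 / n) := by gcongr
    refine h1.trans (le_of_eq ?_)
    field_simp
    norm_num
  set θ : ℝ := w.re with hθ
  set y : ℝ := w.im with hy
  have hwe : w = (θ : ℂ) + y * Complex.I := (Complex.re_add_im w).symm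
  have hy1 : |y| ≤ 1 / (20000 * n) := by
    have := Complex.abs_im_le_norm (w - (arccos x : ℂ))
    simp only [Complex.sub_im, Complex.ofReal_im, sub_zero] at this
    exact this.trans hw5
  have hθ1 : |θ - arccos x| ≤ 1 / (20000 * n) := by
    have := Complex.abs_re_le_norm (w - (arccos x : ℂ))
    simp only [Complex.sub_re, Complex.ofReal_re] at this
    exact this.trans hw5
  have hy0 : y ≠ 0 := by
    intro h0
    apply him
    rw [← hw, hwe, h0]
    simp only [Complex.ofReal_zero, zero_mul, add_zero]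
    rw [← Complex.ofReal_cos]
    exact Complex.ofReal_im _
  have hzero : g1_h P (θ + y * Complex.I) = 0 := by
    rw [← hwe, g1_h, hw, hz]
    simp
  have hy2 : |y| ≤ 1 / (2 * n) := by
    refine hy1.trans ?_
    apply one_div_le_one_div_of_le (by positivity)
    nlinarith
  have hT := g1_taylor hH4d n P hn hd hP θ y hy2
  obtain ⟨hA11, -, -⟩ := hA1
  obtain ⟨hsm, hTP1, -, -, -, -⟩ := hA11 n (qq P) hTB.1
  have hc3 : ContDiff ℝ 3 (qq P) := by exact_mod_cast hsm 3
  have hc2 : ContDiff ℝ 2 (deriv (qq P)) := by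
    have : ContDiff ℝ (2 + 1) (qq P) := by
      convert hc3 using 1
      norm_num
    exact (contDiff_succ_iff_deriv.1 this).2.2
  have hc1 : ContDiff ℝ 1 (deriv (deriv (qq P))) := by
    have : ContDiff ℝ (1 + 1) (deriv (qq P)) := by
      convert hc2 using 1
      norm_num
    exact (contDiff_succ_iff_deriv.1 this).2.2
  have hdf1 : Differentiable ℝ (deriv (qq P)) := hc2.differentiable (by norm_num)
  have hdf2 : Differentiable ℝ (deriv (deriv (qq P))) := hc1.differentiable (by norm_num)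
  rw [hzero, g1_real hA2, g1_real2 hA2 P θ (hdf1 θ)] at hT
  set p : ℝ := deriv (qq P) θ with hp
  set q : ℝ := deriv (deriv (qq P)) θ with hq
  -- real and imaginary part
  have hre : |p| ≤ 15 * (n : ℝ) ^ 3 * y ^ 2 := by
    have h1 := Complex.abs_re_le_norm ((0 : ℂ) - p - y * Complex.I * q)
    have h2 : ((0 : ℂ) - p - y * Complex.I * q).re = -p := by simp
    rw [h2, abs_neg] at h1
    exact h1.trans hT
  have himq : |y| * |q| ≤ 15 * (n : ℝ) ^ 3 * y ^ 2 := by
    have h1 := Complex.abs_im_le_norm ((0 : ℂ) - p - y * Complex.I * q)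
    have h2 : ((0 : ℂ) - p - y * Complex.I * q).im = -(y * q) := by simp
    rw [h2, abs_neg, abs_mul] at h1
    exact h1.trans hT
  have hyp : 0 < |y| := abs_pos.2 hy0
  have hq1 : |q| ≤ 15 * (n : ℝ) ^ 3 * |y| := by
    have h1 : y ^ 2 = |y| * |y| := by rw [abs_mul_abs_self]; ring
    rw [h1] at himq
    have h2 : |y| * |q| ≤ |y| * (15 * (n : ℝ) ^ 3 * |y|) := by linarith
    exact le_of_mul_le_mul_left h2 hyp
  have hq2 : |q| ≤ 15 / 20000 * (n : ℝ) ^ 2 := by
    refine hq1.trans ?_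
    calc 15 * (n : ℝ) ^ 3 * |y| ≤ 15 * (n : ℝ) ^ 3 * (1 / (20000 * n)) := by gcongr
      _ = 15 / 20000 * (n : ℝ) ^ 2 := by field_simp
  have hp2 : |p| ≤ 1 / 20000 * n := by
    have h1 : y ^ 2 = |y| * |y| := by rw [abs_mul_abs_self]; ring
    rw [h1] at hre
    calc |p| ≤ 15 * (n : ℝ) ^ 3 * (|y| * |y|) := hre
      _ ≤ 15 * (n : ℝ) ^ 3 * ((1 / (20000 * n)) * (1 / (20000 * n))) := by gcongr
      _ = 15 / 20000 ^ 2 * n := by field_simp
      _ ≤ 1 / 20000 * n := by
        apply mul_le_mul_of_nonneg_right _ hn0.le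
        norm_num
  -- move to the window
  have hB := fun t => (hA2.1 n (qq P) hn hTB).2 t
  have hm1 : |deriv (qq P) (arccos x) - p| ≤ (n : ℝ) ^ 2 * |arccos x - θ| := by
    have := convex_univ.norm_image_sub_le_of_norm_deriv_le (f := deriv (qq P))
      (C := (n : ℝ) ^ 2) (fun t _ => hdf1 t) (fun t _ => (hB t).2.2.2.1) (mem_univ θ)
      (mem_univ (arccos x))
    simpa [Real.norm_eq_abs] using this
  have hm2 : |deriv (deriv (qq P)) (arccos x) - q| ≤ (n : ℝ) ^ 3 * |arccos x - θ| := by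
    have := convex_univ.norm_image_sub_le_of_norm_deriv_le (f := deriv (deriv (qq P)))
      (C := (n : ℝ) ^ 3) (fun t _ => hdf2 t) (fun t _ => (hB t).2.2.2.2) (mem_univ θ)
      (mem_univ (arccos x))
    simpa [Real.norm_eq_abs] using this
  have hθ2 : |arccos x - θ| ≤ 1 / (20000 * n) := by rwa [abs_sub_comm]
  have hm3 : |deriv (qq P) (arccos x) - p| ≤ 1 / 20000 * n := by
    refine hm1.trans ?_
    calc (n : ℝ) ^ 2 * |arccos x - θ| ≤ (n : ℝ) ^ 2 * (1 / (20000 * n)) := by gcongr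
      _ = 1 / 20000 * (n : ℝ) := by field_simp
  have hm4 : |deriv (deriv (qq P)) (arccos x) - q| ≤ 1 / 20000 * (n : ℝ) ^ 2 := by
    refine hm2.trans ?_
    calc (n : ℝ) ^ 3 * |arccos x - θ| ≤ (n : ℝ) ^ 3 * (1 / (20000 * n)) := by gcongr
      _ = 1 / 20000 * (n : ℝ) ^ 2 := by field_simp
  have hfin := hND (arccos x) ⟨arccos_le_arccos hx.2, arccos_le_arccos hx.1⟩ (by
    have h1 : |deriv (qq P) (arccos x)| ≤ |deriv (qq P) (arccos x) - p| + |p| := by
      have := abs_add_le (deriv (qq P) (arccos x) - p) p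
      simpa using this
    linarith)
  have h2 : |deriv (deriv (qq P)) (arccos x)| ≤
      |deriv (deriv (qq P)) (arccos x) - q| + |q| := by
    have := abs_add_le (deriv (deriv (qq P)) (arccos x) - q) q
    simpa using this
  have h3 : (0 : ℝ) < (n : ℝ) ^ 2 := by positivity
  linarith

end

end Pool.Agent.Helper10.AL
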