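import Pool.Agent.Helper10.AL.St3
import Pool.Agent.Helper10.AL.P.G1

/-!
Arc length of polynomials over windows: critical points off the interval are not close to a
window on which the polynomial is non-degenerate, uniform version.
-/

set_option autoImplicit false

namespace Pool.Agent.Helper10.AL

open Polynomial Set Real MeasureTheory intervalIntegral
open Pool.Agent.Helper40.AS (arc Bdd Ext quad)

noncomputable section

/-- lower bound for the complex sine -/
theorem g1u_sin (ζ : ℂ) (h : |ζ.re| ≤ π / 2) : 2 / π * ‖ζ‖ ≤ ‖Complex.sin ζ‖ := by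
  have hpi := Real.pi_pos
  have hpi3 := Real.pi_gt_three
  have h1 : ‖Complex.sin ζ‖ ^ 2 = sin ζ.re ^ 2 + sinh ζ.im ^ 2 := by
    rw [Complex.sin_eq ζ, Complex.sq_norm, Complex.normSq_apply]
    simp only [← Complex.ofReal_sin, ← Complex.ofReal_cos, ← Complex.ofReal_sinh,
      ← Complex.ofReal_cosh]
    simp only [Complex.add_re, Complex.add_im, Complex.mul_re, Complex.mul_im,
      Complex.ofReal_re, Complex.ofReal_im, Complex.I_re, Complex.I_im, mul_zero, mul_one,
      zero_mul, sub_zero, add_zero, zero_add, sub_self]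
    have h2 := Real.sin_sq_add_cos_sq ζ.re
    have h3 := Real.cosh_sq ζ.im
    have h4 : cos ζ.re ^ 2 = 1 - sin ζ.re ^ 2 := by linarith
    calc sin ζ.re * cosh ζ.im * (sin ζ.re * cosh ζ.im) +
          cos ζ.re * sinh ζ.im * (cos ζ.re * sinh ζ.im)
        = sin ζ.re ^ 2 * cosh ζ.im ^ 2 + cos ζ.re ^ 2 * sinh ζ.im ^ 2 := by ring
      _ = sin ζ.re ^ 2 + sinh ζ.im ^ 2 := by
        rw [h3, h4]; ring
  have h2 : (2 / π * |ζ.re|) ^ 2 ≤ sin ζ.re ^ 2 := by
    have h3 : 2 / π * |ζ.re| ≤ sin |ζ.re| := Real.mul_le_sin (abs_nonneg _) h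
    have h4 : sin |ζ.re| ^ 2 = sin ζ.re ^ 2 := by
      rcases abs_choice ζ.re with h5 | h5 <;> rw [h5]
      rw [Real.sin_neg]; ring
    rw [← h4]
    exact pow_le_pow_left₀ (by positivity) h3 2
  have h3 : ζ.im ^ 2 ≤ sinh ζ.im ^ 2 := by
    have h5 : |ζ.im| ≤ sinh |ζ.im| := Real.self_le_sinh_iff.2 (abs_nonneg _)
    have h6 : sinh |ζ.im| ^ 2 = sinh ζ.im ^ 2 := by
      rcases abs_choice ζ.im with h7 | h7 <;> rw [h7]
      rw [Real.sinh_neg]; ring
    rw [← h6, ← sq_abs]
    exact pow_le_pow_left₀ (abs_nonneg _) h5 2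
  have h4 : (2 / π * ‖ζ‖) ^ 2 ≤ ‖Complex.sin ζ‖ ^ 2 := by
    rw [h1, mul_pow, Complex.sq_norm, Complex.normSq_apply]
    have h5 : (2 / π) ^ 2 ≤ 1 := by
      rw [div_pow, div_le_one (by positivity)]
      nlinarith
    have h6 : (2 / π * |ζ.re|) ^ 2 = (2 / π) ^ 2 * (ζ.re * ζ.re) := by
      rw [mul_pow, sq_abs]; ring
    have h7 : (2 / π) ^ 2 * (ζ.im * ζ.im) ≤ ζ.im ^ 2 := by
      have h8 : 0 ≤ ζ.im * ζ.im := mul_self_nonneg _
      nlinarith
    rw [h6] at h2
    linarith
  exact (pow_le_pow_iff_left₀ (by positivity) (norm_nonneg _) two_ne_zero).1 h4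

/-- the angle of a critical point off the interval is not close to the window -/
theorem g1u_core (hA1 : A1) (hA2 : A2) (hH4d : H4d) (n : ℕ) (P : ℝ[X]) (hn : 1 ≤ n)
    (hd : P.natDegree ≤ n) (hP : Bdd P) (w : ℂ) (t0 : ℝ) (hy0 : w.im ≠ 0) (hz : g1_h P w = 0)
    (hND : |deriv (qq P) t0| ≤ (n : ℝ) / 1000 →
      (n : ℝ) ^ 2 / 1000 ≤ |deriv (deriv (qq P)) t0|) :
    1 / (20000 * n) ≤ ‖w - (t0 : ℂ)‖ := by
  by_contra hlt
  push Not at hlt
  have hn0 : (0 : ℝ) < n := by exact_mod_cast hn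
  have hTB : TB n (qq P) := hA2.2.1 n P hd hP
  have hw5 : ‖w - (t0 : ℂ)‖ ≤ 1 / (20000 * n) := hlt.le
  set θ : ℝ := w.re with hθ
  set y : ℝ := w.im with hy
  have hwe : w = (θ : ℂ) + y * Complex.I := (Complex.re_add_im w).symm
  have hy1 : |y| ≤ 1 / (20000 * n) := by
    have := Complex.abs_im_le_norm (w - (t0 : ℂ))
    simp only [Complex.sub_im, Complex.ofReal_im, sub_zero] at this
    exact this.trans hw5
  have hθ1 : |θ - t0| ≤ 1 / (20000 * n) := by
    have := Complex.abs_re_le_norm (w - (t0 : ℂ))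
    simp only [Complex.sub_re, Complex.ofReal_re] at this
    exact this.trans hw5
  have hzero : g1_h P (θ + y * Complex.I) = 0 := by
    rw [← hwe, hz]
  have hy2 : |y| ≤ 1 / (2 * n) := by
    refine hy1.trans ?_
    apply one_div_le_one_div_of_le (by positivity)
    nlinarith
  have hT := g1_taylor hH4d n P hn hd hP θ y hy2
  obtain ⟨hA11, -, -⟩ := hA1
  obtain ⟨hsm, hTP1, -, -, -, -⟩ := hA11 n (qq P) hTB.1
  have hc3 : ContDiff ℝ 3 (qq P) := by exact_mod_cast hsm 3
  have hc2 : ContDiff ℝ 2 (deriv (qq P)) := by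
    have : ContDiff ℝ (2 + 1) (qq P) := by
      convert hc3 using 1
      norm_num
    exact (contDiff_succ_iff_deriv.1 this).2.2
  have hc1 : ContDiff ℝ 1 (deriv (deriv (qq P))) := by
    have : ContDiff ℝ (1 + 1) (deriv (qq P)) := by
      convert hc2 using 1
      norm_num
    exact (contDiff_succ_iff_deriv.1 this).2.2
  have hdf1 : Differentiable ℝ (deriv (qq P)) := hc2.differentiable (by norm_num)
  have hdf2 : Differentiable ℝ (deriv (deriv (qq P))) := hc1.differentiable (by norm_num)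
  rw [hzero, g1_real hA2, g1_real2 hA2 P θ (hdf1 θ)] at hT
  set p : ℝ := deriv (qq P) θ with hp
  set q : ℝ := deriv (deriv (qq P)) θ with hq
  -- real and imaginary part
  have hre : |p| ≤ 15 * (n : ℝ) ^ 3 * y ^ 2 := by
    have h1 := Complex.abs_re_le_norm ((0 : ℂ) - p - y * Complex.I * q)
    have h2 : ((0 : ℂ) - p - y * Complex.I * q).re = -p := by simp
    rw [h2, abs_neg] at h1
    exact h1.trans hT
  have himq : |y| * |q| ≤ 15 * (n : ℝ) ^ 3 * y ^ 2 := by
    have h1 := Complex.abs_im_le_norm ((0 : ℂ) - p - y * Complex.I * q)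
    have h2 : ((0 : ℂ) - p - y * Complex.I * q).im = -(y * q) := by simp
    rw [h2, abs_neg, abs_mul] at h1
    exact h1.trans hT
  have hyp : 0 < |y| := abs_pos.2 hy0
  have hq1 : |q| ≤ 15 * (n : ℝ) ^ 3 * |y| := by
    have h1 : y ^ 2 = |y| * |y| := by rw [abs_mul_abs_self]; ring
    rw [h1] at himq
    have h2 : |y| * |q| ≤ |y| * (15 * (n : ℝ) ^ 3 * |y|) := by linarith
    exact le_of_mul_le_mul_left h2 hyp
  have hq2 : |q| ≤ 15 / 20000 * (n : ℝ) ^ 2 := by
    refine hq1.trans ?_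
    calc 15 * (n : ℝ) ^ 3 * |y| ≤ 15 * (n : ℝ) ^ 3 * (1 / (20000 * n)) := by gcongr
      _ = 15 / 20000 * (n : ℝ) ^ 2 := by field_simp
  have hp2 : |p| ≤ 1 / 20000 * n := by
    have h1 : y ^ 2 = |y| * |y| := by rw [abs_mul_abs_self]; ring
    rw [h1] at hre
    calc |p| ≤ 15 * (n : ℝ) ^ 3 * (|y| * |y|) := hre
      _ ≤ 15 * (n : ℝ) ^ 3 * ((1 / (20000 * n)) * (1 / (20000 * n))) := by gcongr
      _ = 15 / 20000 ^ 2 * n := by field_simp
      _ ≤ 1 / 20000 * n := by
        apply mul_le_mul_of_nonneg_right _ hn0.le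
        norm_num
  -- move to the window
  have hB := fun t => (hA2.1 n (qq P) hn hTB).2 t
  have hm1 : |deriv (qq P) (t0) - p| ≤ (n : ℝ) ^ 2 * |t0 - θ| := by
    have := convex_univ.norm_image_sub_le_of_norm_deriv_le (f := deriv (qq P))
      (C := (n : ℝ) ^ 2) (fun t _ => hdf1 t) (fun t _ => (hB t).2.2.2.1) (mem_univ θ)
      (mem_univ (t0))
    simpa [Real.norm_eq_abs] using this
  have hm2 : |deriv (deriv (qq P)) (t0) - q| ≤ (n : ℝ) ^ 3 * |t0 - θ| := by
    have := convex_univ.norm_image_sub_le_of_norm_deriv_le (f := deriv (deriv (qq P)))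
      (C := (n : ℝ) ^ 3) (fun t _ => hdf2 t) (fun t _ => (hB t).2.2.2.2) (mem_univ θ)
      (mem_univ (t0))
    simpa [Real.norm_eq_abs] using this
  have hθ2 : |t0 - θ| ≤ 1 / (20000 * n) := by rwa [abs_sub_comm]
  have hm3 : |deriv (qq P) (t0) - p| ≤ 1 / 20000 * n := by
    refine hm1.trans ?_
    calc (n : ℝ) ^ 2 * |t0 - θ| ≤ (n : ℝ) ^ 2 * (1 / (20000 * n)) := by gcongr
      _ = 1 / 20000 * (n : ℝ) := by field_simp
  have hm4 : |deriv (deriv (qq P)) (t0) - q| ≤ 1 / 20000 * (n : ℝ) ^ 2 := by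
    refine hm2.trans ?_
    calc (n : ℝ) ^ 3 * |t0 - θ| ≤ (n : ℝ) ^ 3 * (1 / (20000 * n)) := by gcongr
      _ = 1 / 20000 * (n : ℝ) ^ 2 := by field_simp
  have hfin := hND (by
    have h1 : |deriv (qq P) t0| ≤ |deriv (qq P) t0 - p| + |p| := by
      have := abs_add_le (deriv (qq P) t0 - p) p
      simpa using this
    linarith)
  have h2 : |deriv (deriv (qq P)) t0| ≤
      |deriv (deriv (qq P)) t0 - q| + |q| := by
    have := abs_add_le (deriv (deriv (qq P)) t0 - q) q
    simpa using this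
  have h3 : (0 : ℝ) < (n : ℝ) ^ 2 := by positivity
  linarith

theorem g1u (hA1 : A1) (hA2 : A2) (hCA : CA) (hH4d : H4d) : G1u := by
  have hpi := Real.pi_pos
  refine ⟨(1 / 20000) ^ 2 / π ^ 2, by positivity, ?_⟩
  intro n a b P hn ha hab hb hd hP hND z hz hoff θ hθ
  have hn0 : (0 : ℝ) < n := by exact_mod_cast hn
  obtain ⟨w, hw, hw1, hw2, -⟩ := hCA 1 one_pos le_rfl z
  have hθ0 : 0 ≤ θ := (arccos_nonneg b).trans hθ.1
  have hθπ : θ ≤ π := hθ.2.trans (arccos_le_pi a)
  have hy0 : w.im ≠ 0 := by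
    intro h0
    have hwe : w = ((w.re : ℝ) : ℂ) := by
      apply Complex.ext
      · simp
      · simp [h0]
    have hz1 : z = ((cos w.re : ℝ) : ℂ) := by
      rw [← hw, hwe, ← Complex.ofReal_cos, Complex.ofReal_re]
    rcases hoff with h | h
    · apply h
      rw [hz1]
      exact Complex.ofReal_im _
    · rw [hz1, Complex.ofReal_re] at h
      exact absurd (Real.abs_cos_le_one w.re) (not_le.2 h)
  have hzero : g1_h P w = 0 := by
    rw [g1_h, hw, hz]
    simp
  have hc := g1u_core hA1 hA2 hH4d n P hn hd hP w θ hy0 hzero (hND θ hθ)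
  -- the two factors
  have he : z - ((cos θ : ℝ) : ℂ) =
      -2 * Complex.sin ((w + θ) / 2) * Complex.sin ((w - θ) / 2) := by
    rw [← hw, Complex.ofReal_cos, Complex.cos_sub_cos]
  have h1 : 1 / (20000 * n) / π ≤ ‖Complex.sin ((w - θ) / 2)‖ := by
    have h2 := g1u_sin ((w - θ) / 2) (by
      have : ((w - θ) / 2).re = (w.re - θ) / 2 := by simp
      rw [this, abs_le]
      constructor <;> linarith)
    have h3 : ‖(w - θ) / 2‖ = ‖w - (θ : ℂ)‖ / 2 := by
      rw [norm_div]; norm_num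
    rw [h3] at h2
    refine le_trans ?_ h2
    calc 1 / (20000 * n) / π ≤ ‖w - (θ : ℂ)‖ / π := by gcongr
      _ = 2 / π * (‖w - (θ : ℂ)‖ / 2) := by ring
  have key : ∀ v : ℂ, |v.re| ≤ π / 2 → sin θ ≤ 2 * v.re → |w.re - θ| ≤ 2 * v.re →
      w.im ^ 2 = (2 * v.im) ^ 2 → (sin θ + 1 / (20000 * n)) / 2 / π ≤ ‖Complex.sin v‖ := by
    intro v hv1 hv2 hv3 hv4
    have h2 := g1u_sin v hv1
    have h3 : sin θ ≤ 2 * ‖v‖ := hv2.trans (by
      have := Complex.re_le_norm v
      linarith)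
    have h4 : ‖w - (θ : ℂ)‖ ≤ 2 * ‖v‖ := by
      have h5 : ‖w - (θ : ℂ)‖ ^ 2 ≤ (2 * ‖v‖) ^ 2 := by
        rw [mul_pow, Complex.sq_norm, Complex.sq_norm, Complex.normSq_apply,
          Complex.normSq_apply]
        simp only [Complex.sub_re, Complex.sub_im, Complex.ofReal_re, Complex.ofReal_im,
          sub_zero]
        have h6 : (w.re - θ) * (w.re - θ) ≤ (2 * v.re) * (2 * v.re) := by
          rw [← abs_mul_abs_self (w.re - θ)]
          exact mul_self_le_mul_self (abs_nonneg _) hv3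
        nlinarith
      exact (pow_le_pow_iff_left₀ (norm_nonneg _) (by positivity) two_ne_zero).1 h5
    refine le_trans ?_ h2
    calc (sin θ + 1 / (20000 * n)) / 2 / π ≤ (2 * ‖v‖ + 2 * ‖v‖) / 2 / π := by
          gcongr
          exact hc.trans h4
      _ = 2 / π * ‖v‖ := by ring
  have hs0 : 0 ≤ sin θ := sin_nonneg_of_nonneg_of_le_pi hθ0 hθπ
  have h2 : (sin θ + 1 / (20000 * n)) / 2 / π ≤ ‖Complex.sin ((w + θ) / 2)‖ := by
    rcases le_total ((w.re + θ) / 2) (π / 2) with h | h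
    · apply key
      · have : ((w + θ) / 2).re = (w.re + θ) / 2 := by simp
        rw [this, abs_of_nonneg (by linarith)]
        exact h
      · have : ((w + θ) / 2).re = (w.re + θ) / 2 := by simp
        rw [this]
        have := Real.sin_le hθ0
        linarith
      · have : ((w + θ) / 2).re = (w.re + θ) / 2 := by simp
        rw [this, abs_le]
        constructor <;> linarith
      · have : ((w + θ) / 2).im = w.im / 2 := by simp
        rw [this]
        ring
    · have h3 : Complex.sin ((w + θ) / 2) = Complex.sin (π - (w + θ) / 2) := by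
        rw [Complex.sin_pi_sub]
      rw [h3]
      apply key
      · have : ((π : ℂ) - (w + θ) / 2).re = π - (w.re + θ) / 2 := by simp
        rw [this, abs_of_nonneg (by linarith)]
        linarith
      · have : ((π : ℂ) - (w + θ) / 2).re = π - (w.re + θ) / 2 := by simp
        rw [this]
        have h4 := Real.sin_le (show 0 ≤ π - θ by linarith)
        rw [Real.sin_pi_sub] at h4
        linarith
      · have : ((π : ℂ) - (w + θ) / 2).re = π - (w.re + θ) / 2 := by simp
        rw [this, abs_le]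
        constructor <;> linarith
      · have : ((π : ℂ) - (w + θ) / 2).im = -(w.im / 2) := by simp
        rw [this]
        ring
  rw [he, norm_mul, norm_mul]
  have h3 : ‖(-2 : ℂ)‖ = 2 := by norm_num
  rw [h3]
  calc (1 / 20000) ^ 2 / π ^ 2 * (sin θ + 1 / n) / n
      ≤ 2 * ((sin θ + 1 / (20000 * n)) / 2 / π) * (1 / (20000 * n) / π) := by
        have h4 : (1 / 20000 : ℝ) * (sin θ + 1 / n) ≤ sin θ + 1 / (20000 * n) := by
          have : (1 / 20000 : ℝ) * (sin θ + 1 / n) = 1 / 20000 * sin θ + 1 / (20000 * n) := by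
            field_simp
          rw [this]
          linarith
        have h5 : (1 / 20000 : ℝ) ^ 2 / π ^ 2 * (sin θ + 1 / n) / n =
            (1 / 20000 * (sin θ + 1 / n)) * (1 / (20000 * n) / π ^ 2) := by
          field_simp
        have h6 : 2 * ((sin θ + 1 / (20000 * n)) / 2 / π) * (1 / (20000 * n) / π) =
            (sin θ + 1 / (20000 * n)) * (1 / (20000 * n) / π ^ 2) := by
          field_simp
        rw [h5, h6]
        exact mul_le_mul_of_nonneg_right h4 (by positivity)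
    _ ≤ 2 * ‖Complex.sin ((w + θ) / 2)‖ * ‖Complex.sin ((w - θ) / 2)‖ := by
        gcongr

end

end Pool.Agent.Helper10.AL
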