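import Pool.Agent.Helper10.AL.St

/-!
Arc length of polynomials over compact windows: short cells without degenerate points.
-/

set_option autoImplicit false

namespace Pool.Agent.Helper10.AL

open Polynomial Set Real MeasureTheory intervalIntegral

/-- sum over equal cells -/
theorem m1_cells (F : ℝ → ℝ) (hF : Continuous F) (u h C : ℝ) (N : ℕ)
    (hc : ∀ k < N, (∫ θ in (u + k * h)..(u + (k + 1 : ℕ) * h), F θ) ≤ C) :
    (∫ θ in u..(u + N * h), F θ) ≤ N * C := by
  induction N with
  | zero => simp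
  | succ N ih =>
    have h1 := ih fun k hk => hc k (by omega)
    have h2 := hc N (by omega)
    rw [← intervalIntegral.integral_add_adjacent_intervals
      (hF.intervalIntegrable u (u + N * h)) (hF.intervalIntegrable (u + N * h) _)]
    push_cast at h2 ⊢
    linarith

/-- substitution on a cell on which the derivative is at least `c` -/
theorem m1_subst (g g' F F' : ℝ → ℝ) (x y c : ℝ) (hg : ∀ θ, HasDerivAt g (g' θ) θ)
    (hg' : Continuous g') (hF : ∀ t, HasDerivAt F (F' t) t) (hF' : Continuous F')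
    (hF0 : ∀ t, 0 ≤ F' t) (hxy : x ≤ y) (hc : 0 < c) (h : ∀ θ ∈ Icc x y, c ≤ g' θ) :
    (∫ θ in x..y, F' (g θ)) ≤ (F (g y) - F (g x)) / c := by
  have hgc : Continuous g := continuous_iff_continuousAt.2 fun θ => (hg θ).continuousAt
  have h1 : (∫ θ in x..y, F' (g θ)) ≤ ∫ θ in x..y, (F' (g θ) * g' θ) / c := by
    apply intervalIntegral.integral_mono_on hxy
    · exact (hF'.comp hgc).intervalIntegrable _ _
    · exact (((hF'.comp hgc).mul hg').div_const c).intervalIntegrable _ _
    · intro θ hθ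
      rw [le_div_iff₀ hc]
      exact mul_le_mul_of_nonneg_left (h θ hθ) (hF0 _)
  have h2 : (∫ θ in x..y, (F' (g θ) * g' θ) / c) = (F (g y) - F (g x)) / c := by
    rw [intervalIntegral.integral_div]
    congr 1
    exact intervalIntegral.integral_eq_sub_of_hasDerivAt (f := fun θ => F (g θ))
      (fun θ _ => (hF (g θ)).comp θ (hg θ)) (((hF'.comp hgc).mul hg').intervalIntegrable _ _)
  exact h1.trans h2.le

theorem m1_arsinh (n : ℕ) (hn : 1 ≤ n) : arsinh n ≤ 2 * (1 + Real.log n) := by
  have hn0 : (1 : ℝ) ≤ n := by exact_mod_cast hn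
  have h1 : √(1 + (n : ℝ) ^ 2) ≤ 2 * n := by
    rw [Real.sqrt_le_left (by positivity)]
    nlinarith
  have h2 : arsinh n ≤ Real.log (3 * n) := by
    rw [Real.arsinh]
    apply Real.log_le_log
    · positivity
    · linarith
  rw [Real.log_mul (by norm_num) (by positivity)] at h2
  have h3 : Real.log 3 ≤ 2 := by
    have := Real.log_le_sub_one_of_pos (show (0 : ℝ) < 3 by norm_num)
    linarith
  have h4 : 0 ≤ Real.log n := Real.log_nonneg hn0
  linarith

/-- monotone cells -/
theorem m1_mono (n : ℕ) (g g' : ℝ → ℝ) (x y : ℝ) (hn : 1 ≤ n)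
    (hg : ∀ θ, HasDerivAt g (g' θ) θ) (hg' : Continuous g') (hgn : ∀ θ, |g θ| ≤ n)
    (hxy : x ≤ y) (h : ∀ θ ∈ Icc x y, (n : ℝ) ^ 2 / 1000 ≤ g' θ) :
    (∫ θ in x..y, 1 / (1 + (g θ) ^ 2)) ≤ 4000 / (n : ℝ) ^ 2 ∧
    (∫ θ in x..y, 1 / √(1 + (g θ) ^ 2)) ≤ 4000 * (1 + Real.log n) / (n : ℝ) ^ 2 := by
  have hn0 : (1 : ℝ) ≤ n := by exact_mod_cast hn
  have hc : (0 : ℝ) < (n : ℝ) ^ 2 / 1000 := by positivity
  constructor
  · have h1 := m1_subst g g' arctan (fun t => 1 / (1 + t ^ 2)) x y ((n : ℝ) ^ 2 / 1000) hg hg'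
      Real.hasDerivAt_arctan (continuous_const.div (by fun_prop) fun t => by positivity)
      (fun t => by positivity) hxy hc h
    refine h1.trans ?_
    rw [div_le_div_iff₀ hc (by positivity)]
    have h2 : arctan (g y) - arctan (g x) ≤ 4 := by
      have := Real.arctan_lt_pi_div_two (g y)
      have := Real.neg_pi_div_two_lt_arctan (g x)
      have := Real.pi_lt_four
      linarith
    have h3 : (0 : ℝ) ≤ (n : ℝ) ^ 2 := by positivity
    nlinarith
  · have h1 := m1_subst g g' arsinh (fun t => (√(1 + t ^ 2))⁻¹) x y ((n : ℝ) ^ 2 / 1000) hg hg'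
      Real.hasDerivAt_arsinh (Continuous.inv₀ (by fun_prop) fun t => by positivity)
      (fun t => by positivity) hxy hc h
    have h1' : (∫ θ in x..y, 1 / √(1 + (g θ) ^ 2)) ≤
        (arsinh (g y) - arsinh (g x)) / ((n : ℝ) ^ 2 / 1000) := by
      simpa only [one_div] using h1
    refine h1'.trans ?_
    rw [div_le_div_iff₀ hc (by positivity)]
    have h2 : arsinh (g y) - arsinh (g x) ≤ 4 * (1 + Real.log n) := by
      have e1 : arsinh (g y) ≤ arsinh n := Real.arsinh_le_arsinh.2 (abs_le.1 (hgn y)).2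
      have e2 : -arsinh n ≤ arsinh (g x) := by
        rw [← Real.arsinh_neg]
        exact Real.arsinh_le_arsinh.2 (abs_le.1 (hgn x)).1
      have e3 := m1_arsinh n hn
      linarith
    have h3 : (0 : ℝ) ≤ (n : ℝ) ^ 2 := by positivity
    nlinarith

/-- cells of length at most `1 / (2000 n)` -/
theorem m1_cell (n : ℕ) (f : ℝ → ℝ) (x y : ℝ) (hn : 1 ≤ n) (hf : ContDiff ℝ 3 f)
    (h1 : ∀ θ, |deriv f θ| ≤ n) (h2 : ∀ θ, |deriv (deriv f) θ| ≤ (n : ℝ) ^ 2) (hxy : x ≤ y)
    (hl : y - x ≤ 1 / (2000 * n)) (hND : ND n f x y) :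
    (∫ θ in x..y, 1 / (1 + (deriv f θ) ^ 2)) ≤ 4000 / (n : ℝ) ^ 2 ∧
    (∫ θ in x..y, 1 / √(1 + (deriv f θ) ^ 2)) ≤ 4000 * (1 + Real.log n) / (n : ℝ) ^ 2 := by
  have hn0 : (1 : ℝ) ≤ n := by exact_mod_cast hn
  have hlog : 0 ≤ Real.log n := Real.log_nonneg hn0
  have hf1 : ContDiff ℝ 2 (deriv f) := (contDiff_succ_iff_deriv.1 (by exact_mod_cast hf)).2.2
  have hf2 : ContDiff ℝ 1 (deriv (deriv f)) :=
    (contDiff_succ_iff_deriv.1 (by exact_mod_cast hf1)).2.2
  have hc1 : Continuous (deriv f) := hf1.continuous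
  have hc2 : Continuous (deriv (deriv f)) := hf2.continuous
  have hd1 : ∀ θ, HasDerivAt (deriv f) (deriv (deriv f) θ) θ := fun θ =>
    ((hf1.differentiable (by norm_num)) θ).hasDerivAt
  by_cases hA : ∀ θ ∈ Icc x y, (n : ℝ) / 2000 ≤ |deriv f θ|
  · have hsq : ∀ θ ∈ Icc x y, ((n : ℝ) / 2000) ^ 2 ≤ 1 + (deriv f θ) ^ 2 := by
      intro θ hθ
      have := hA θ hθ
      have h3 : ((n : ℝ) / 2000) ^ 2 ≤ |deriv f θ| ^ 2 := by
        apply pow_le_pow_left₀ (by positivity) this
      rw [sq_abs] at h3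
      linarith
    constructor
    · have h3 : (∫ θ in x..y, 1 / (1 + (deriv f θ) ^ 2)) ≤ ∫ θ in x..y, 4000000 / (n : ℝ) ^ 2 := by
        apply intervalIntegral.integral_mono_on hxy
        · exact (continuous_const.div (by fun_prop) fun t => by positivity).intervalIntegrable _ _
        · exact continuous_const.intervalIntegrable _ _
        · intro θ hθ
          have := hsq θ hθ
          rw [div_le_div_iff₀ (by positivity) (by positivity)]
          nlinarith
      rw [intervalIntegral.integral_const, smul_eq_mul] at h3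
      refine h3.trans ?_
      have h4 : (y - x) * (4000000 / (n : ℝ) ^ 2) ≤ 1 / (2000 * n) * (4000000 / (n : ℝ) ^ 2) :=
        mul_le_mul_of_nonneg_right hl (by positivity)
      refine h4.trans ?_
      have h5 : 1 / (2000 * (n : ℝ)) * (4000000 / (n : ℝ) ^ 2) = 2000 / (n : ℝ) ^ 2 * (1 / n) := by
        field_simp
        norm_num
      rw [h5]
      have h6 : 1 / (n : ℝ) ≤ 1 := by rw [div_le_one (by positivity)]; exact hn0
      calc 2000 / (n : ℝ) ^ 2 * (1 / n) ≤ 2000 / (n : ℝ) ^ 2 * 1 :=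
            mul_le_mul_of_nonneg_left h6 (by positivity)
        _ ≤ 4000 / (n : ℝ) ^ 2 := by
            rw [mul_one]
            apply div_le_div_of_nonneg_right _ (by positivity)
            norm_num
    · have h3 : (∫ θ in x..y, 1 / √(1 + (deriv f θ) ^ 2)) ≤ ∫ θ in x..y, 2000 / (n : ℝ) := by
        apply intervalIntegral.integral_mono_on hxy
        · exact (continuous_const.div (by fun_prop) fun t => by positivity).intervalIntegrable _ _
        · exact continuous_const.intervalIntegrable _ _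
        · intro θ hθ
          have h4 : (n : ℝ) / 2000 ≤ √(1 + (deriv f θ) ^ 2) :=
            Real.le_sqrt_of_sq_le (hsq θ hθ)
          have h5 : 0 < √(1 + (deriv f θ) ^ 2) := by positivity
          rw [div_le_div_iff₀ h5 (by positivity)]
          nlinarith
      rw [intervalIntegral.integral_const, smul_eq_mul] at h3
      refine h3.trans ?_
      have h4 : (y - x) * (2000 / (n : ℝ)) ≤ 1 / (2000 * n) * (2000 / (n : ℝ)) :=
        mul_le_mul_of_nonneg_right hl (by positivity)
      refine h4.trans ?_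
      have h5 : 1 / (2000 * (n : ℝ)) * (2000 / (n : ℝ)) = 1 / (n : ℝ) ^ 2 := by
        field_simp
      rw [h5]
      apply div_le_div_of_nonneg_right _ (by positivity)
      nlinarith
  · obtain ⟨z, hz⟩ := not_forall.1 hA
    obtain ⟨hz, hzn⟩ := Classical.not_imp.1 hz
    have hzn := not_le.1 hzn
    have hB : ∀ θ ∈ Icc x y, |deriv f θ| ≤ (n : ℝ) / 1000 := by
      intro θ hθ
      have h3 : |deriv f θ - deriv f z| ≤ (n : ℝ) ^ 2 * |θ - z| := by
        have := Convex.norm_image_sub_le_of_norm_deriv_le (f := deriv f) (C := (n : ℝ) ^ 2)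
          (s := univ) (x := z) (y := θ) (fun t _ => (hd1 t).differentiableAt)
          (fun t _ => h2 t) convex_univ (mem_univ _) (mem_univ _)
        simpa only [Real.norm_eq_abs] using this
      have h4 : |θ - z| ≤ 1 / (2000 * n) := by
        rw [abs_le]
        constructor <;> linarith [hθ.1, hθ.2, hz.1, hz.2]
      have h5 : (n : ℝ) ^ 2 * |θ - z| ≤ (n : ℝ) / 2000 := by
        calc (n : ℝ) ^ 2 * |θ - z| ≤ (n : ℝ) ^ 2 * (1 / (2000 * n)) :=
              mul_le_mul_of_nonneg_left h4 (by positivity)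
          _ = (n : ℝ) / 2000 := by field_simp
      have h6 : |deriv f θ| ≤ |deriv f z| + |deriv f θ - deriv f z| := by
        have := abs_add_le (deriv f z) (deriv f θ - deriv f z)
        simpa using this
      linarith
    have hC : ∀ θ ∈ Icc x y, (n : ℝ) ^ 2 / 1000 ≤ |deriv (deriv f) θ| := fun θ hθ =>
      hND θ hθ (hB θ hθ)
    have hpos : (0 : ℝ) < (n : ℝ) ^ 2 / 1000 := by positivity
    have hD : (∀ θ ∈ Icc x y, (n : ℝ) ^ 2 / 1000 ≤ deriv (deriv f) θ) ∨
        (∀ θ ∈ Icc x y, (n : ℝ) ^ 2 / 1000 ≤ -deriv (deriv f) θ) := by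
      by_contra hcon
      obtain ⟨ha, hb⟩ := not_or.1 hcon
      obtain ⟨a, ha⟩ := not_forall.1 ha
      obtain ⟨ha, ha'⟩ := Classical.not_imp.1 ha
      obtain ⟨b, hb⟩ := not_forall.1 hb
      obtain ⟨hb, hb'⟩ := Classical.not_imp.1 hb
      have ha0 : deriv (deriv f) a < 0 := by
        rcases le_abs.1 (hC a ha) with h | h
        · exact absurd h ha'
        · linarith
      have hb0 : 0 < deriv (deriv f) b := by
        rcases le_abs.1 (hC b hb) with h | h
        · linarith
        · exact absurd h hb'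
      have h0 : (0 : ℝ) ∈ uIcc (deriv (deriv f) a) (deriv (deriv f) b) := by
        rw [uIcc_of_le (by linarith)]
        exact ⟨ha0.le, hb0.le⟩
      obtain ⟨w, hw, hw0⟩ := intermediate_value_uIcc (hc2.continuousOn (s := uIcc a b)) h0
      have hwI : w ∈ Icc x y := by
        have : uIcc a b ⊆ Icc x y := by
          intro t ht
          rcases le_total a b with hab | hab
          · rw [uIcc_of_le hab] at ht
            exact ⟨ha.1.trans ht.1, ht.2.trans hb.2⟩
          · rw [uIcc_of_ge hab] at ht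
            exact ⟨hb.1.trans ht.1, ht.2.trans ha.2⟩
        exact this hw
      have := hC w hwI
      rw [hw0, abs_zero] at this
      linarith
    rcases hD with hD | hD
    · exact m1_mono n (deriv f) (deriv (deriv f)) x y hn hd1 hc2 h1 hxy hD
    · have := m1_mono n (fun θ => -deriv f θ) (fun θ => -deriv (deriv f) θ) x y hn
        (fun θ => (hd1 θ).neg) hc2.neg (fun θ => by rw [abs_neg]; exact h1 θ) hxy hD
      simpa only [neg_sq] using this

theorem m1 (hA1 : A1) (hA2 : A2) : M1 := by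
  refine ⟨2000 * 4000, by norm_num, ?_⟩
  intro n f u v hn hf huv hl hND
  have hn1 : 1 ≤ n := by omega
  have hn0 : (1 : ℝ) ≤ n := by exact_mod_cast hn1
  have hC : ContDiff ℝ 3 f := (hA1.1 n f hf.1).1 3
  have hb := hA2.1 n f hn1 hf
  have hc1 : Continuous (deriv f) := by
    have h3 : ContDiff ℝ 2 (deriv f) := (contDiff_succ_iff_deriv.1 (by exact_mod_cast hC)).2.2
    exact h3.continuous
  set h := (v - u) / 2000 with hh
  have hh0 : 0 ≤ h := by rw [hh]; linarith
  have hhl : h ≤ 1 / (2000 * n) := by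
    have : (1 : ℝ) / (2000 * n) = 1 / n / 2000 := by field_simp
    rw [hh, this]
    linarith
  have hv : v = u + (2000 : ℕ) * h := by
    rw [hh]
    push_cast
    ring
  have hcell : ∀ k : ℕ, k < 2000 →
      (∫ θ in (u + (k : ℝ) * h)..(u + (k + 1 : ℕ) * h), 1 / (1 + (deriv f θ) ^ 2)) ≤
        4000 / (n : ℝ) ^ 2 ∧
      (∫ θ in (u + (k : ℝ) * h)..(u + (k + 1 : ℕ) * h), 1 / √(1 + (deriv f θ) ^ 2)) ≤
        4000 * (1 + Real.log n) / (n : ℝ) ^ 2 := by
    intro k hk
    have hk1 : ((k + 1 : ℕ) : ℝ) = k + 1 := by push_cast; ring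
    have hk2 : ((k + 1 : ℕ) : ℝ) ≤ (2000 : ℕ) := by exact_mod_cast hk
    have hk0 : (0 : ℝ) ≤ k := by positivity
    apply m1_cell n f _ _ hn1 hC (fun θ => (hb.2 θ).2.2.1) (fun θ => (hb.2 θ).2.2.2.1)
    · rw [hk1]; nlinarith
    · rw [hk1]; linarith
    · intro θ hθ
      apply hND θ
      refine ⟨?_, ?_⟩
      · have := hθ.1
        nlinarith
      · refine hθ.2.trans ?_
        rw [hv]
        have := mul_le_mul_of_nonneg_right hk2 hh0
        linarith
  constructor
  · have h1 := m1_cells (fun θ => 1 / (1 + (deriv f θ) ^ 2))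
      (continuous_const.div (by fun_prop) fun t => by positivity) u h (4000 / (n : ℝ) ^ 2) 2000
      fun k hk => (hcell k hk).1
    rw [← hv] at h1
    refine h1.trans (le_of_eq ?_)
    push_cast
    ring
  · have h1 := m1_cells (fun θ => 1 / √(1 + (deriv f θ) ^ 2))
      (continuous_const.div (by fun_prop) fun t => by positivity) u h
      (4000 * (1 + Real.log n) / (n : ℝ) ^ 2) 2000 fun k hk => (hcell k hk).2
    rw [← hv] at h1
    refine h1.trans (le_of_eq ?_)
    push_cast
    ring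

end Pool.Agent.Helper10.AL
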