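import Pool.Agent.Helper10.AL.St6
import Pool.Agent.Helper10.AL.P.M1

/-!
Arc length of polynomials over windows with an end point of the interval: piece G2av.
-/

set_option autoImplicit false

namespace Pool.Agent.Helper10.AL

open Polynomial Set Real MeasureTheory intervalIntegral
open Pool.Agent.Helper40.AS (arc Bdd Ext)

/-- monotonicity of the kernel in the first variable -/
theorem g2av_pt (s m p : ℝ) (hs0 : 0 ≤ s) (hsm : s ≤ m) (hm : 0 < m) :
    s ^ 2 / √(s ^ 2 + p ^ 2) ≤ m ^ 2 * (1 / √(m ^ 2 + p ^ 2)) := by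
  rcases hs0.eq_or_lt with h | h
  · rw [← h]
    have : (0 : ℝ) ≤ m ^ 2 * (1 / √(m ^ 2 + p ^ 2)) := by positivity
    simpa using this
  · have h1 : 0 < s ^ 2 + p ^ 2 := by positivity
    have h2 : 0 < m ^ 2 + p ^ 2 := by positivity
    have h3 : 0 < √(s ^ 2 + p ^ 2) := Real.sqrt_pos.mpr h1
    have h4 : 0 < √(m ^ 2 + p ^ 2) := Real.sqrt_pos.mpr h2
    have hsq : s ^ 2 ≤ m ^ 2 := by nlinarith
    have h5 : s * √(m ^ 2 + p ^ 2) ≤ m * √(s ^ 2 + p ^ 2) := by
      have e1 : s * √(m ^ 2 + p ^ 2) = √(s ^ 2 * (m ^ 2 + p ^ 2)) := by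
        rw [Real.sqrt_mul (by positivity), Real.sqrt_sq hs0]
      have e2 : m * √(s ^ 2 + p ^ 2) = √(m ^ 2 * (s ^ 2 + p ^ 2)) := by
        rw [Real.sqrt_mul (by positivity), Real.sqrt_sq hm.le]
      rw [e1, e2]
      apply Real.sqrt_le_sqrt
      nlinarith [mul_nonneg (sub_nonneg.mpr hsq) (sq_nonneg p)]
    rw [mul_one_div, div_le_div_iff₀ h3 h4]
    have h6 : s * (s * √(m ^ 2 + p ^ 2)) ≤ s * (m * √(s ^ 2 + p ^ 2)) :=
      mul_le_mul_of_nonneg_left h5 hs0
    have h7 : s * (m * √(s ^ 2 + p ^ 2)) ≤ m * (m * √(s ^ 2 + p ^ 2)) :=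
      mul_le_mul_of_nonneg_right hsm (by positivity)
    nlinarith

theorem g2av_arsinh (n : ℕ) (hn : 1 ≤ n) (t : ℝ) (ht : |t| ≤ n) :
    |arsinh (n * t)| ≤ 4 * (1 + Real.log n) := by
  have hn0 : (1 : ℝ) ≤ n := by exact_mod_cast hn
  have hlog : 0 ≤ Real.log n := Real.log_nonneg hn0
  have h1 : arsinh ((n ^ 2 : ℕ) : ℝ) ≤ 2 * (1 + Real.log ((n ^ 2 : ℕ) : ℝ)) :=
    m1_arsinh (n ^ 2) (Nat.one_le_pow _ _ hn)
  have h2 : Real.log ((n ^ 2 : ℕ) : ℝ) = 2 * Real.log n := by
    push_cast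
    rw [Real.log_pow]
    norm_num
  rw [h2] at h1
  have h3 := abs_le.1 ht
  have h4 : (n : ℝ) * t ≤ ((n ^ 2 : ℕ) : ℝ) := by
    push_cast
    nlinarith [h3.2]
  have h5 : -((n ^ 2 : ℕ) : ℝ) ≤ (n : ℝ) * t := by
    push_cast
    nlinarith [h3.1]
  have h6 := Real.arsinh_le_arsinh.2 h4
  have h7 := Real.arsinh_le_arsinh.2 h5
  rw [Real.arsinh_neg] at h7
  rw [abs_le]
  constructor <;> linarith

/-- monotone cells -/
theorem g2av_mono (n : ℕ) (g g' : ℝ → ℝ) (x y : ℝ) (hn : 1 ≤ n)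
    (hg : ∀ θ, HasDerivAt g (g' θ) θ) (hg' : Continuous g') (hgn : ∀ θ, |g θ| ≤ n)
    (hxy : x ≤ y) (h : ∀ θ ∈ Icc x y, (n : ℝ) ^ 2 / 1000 ≤ g' θ) :
    (∫ θ in x..y, n * (√(1 + (n * g θ) ^ 2))⁻¹) ≤ 8000 * (1 + Real.log n) / (n : ℝ) ^ 2 := by
  have hn0 : (1 : ℝ) ≤ n := by exact_mod_cast hn
  have hc : (0 : ℝ) < (n : ℝ) ^ 2 / 1000 := by positivity
  have h1 := m1_subst g g' (fun t => arsinh (n * t)) (fun t => n * (√(1 + (n * t) ^ 2))⁻¹) x y
    ((n : ℝ) ^ 2 / 1000) hg hg'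
    (fun t => by
      have := (Real.hasDerivAt_arsinh ((n : ℝ) * t)).comp t ((hasDerivAt_id t).const_mul (n : ℝ))
      simp only [mul_one] at this
      rw [mul_comm] at this
      exact this)
    (continuous_const.mul (Continuous.inv₀ (by fun_prop) fun t => by positivity))
    (fun t => by positivity) hxy hc h
  refine h1.trans ?_
  rw [div_le_div_iff₀ hc (by positivity)]
  have h2 : arsinh (n * g y) - arsinh (n * g x) ≤ 8 * (1 + Real.log n) := by
    have e1 := (abs_le.1 (g2av_arsinh n hn (g y) (hgn y))).2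
    have e2 := (abs_le.1 (g2av_arsinh n hn (g x) (hgn x))).1
    linarith
  have h3 : (0 : ℝ) ≤ (n : ℝ) ^ 2 := by positivity
  nlinarith

/-- cells of length at most `1 / (2000 n)` -/
theorem g2av_cell (n : ℕ) (f : ℝ → ℝ) (x y : ℝ) (hn : 1 ≤ n) (hf : ContDiff ℝ 3 f)
    (h1 : ∀ θ, |deriv f θ| ≤ n) (h2 : ∀ θ, |deriv (deriv f) θ| ≤ (n : ℝ) ^ 2) (hxy : x ≤ y)
    (hl : y - x ≤ 1 / (2000 * n)) (hND : ND n f x y) :
    (∫ θ in x..y, n * (√(1 + (n * deriv f θ) ^ 2))⁻¹) ≤
      8000 * (1 + Real.log n) / (n : ℝ) ^ 2 := by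
  have hn0 : (1 : ℝ) ≤ n := by exact_mod_cast hn
  have hlog : 0 ≤ Real.log n := Real.log_nonneg hn0
  have hf1 : ContDiff ℝ 2 (deriv f) := (contDiff_succ_iff_deriv.1 (by exact_mod_cast hf)).2.2
  have hf2 : ContDiff ℝ 1 (deriv (deriv f)) :=
    (contDiff_succ_iff_deriv.1 (by exact_mod_cast hf1)).2.2
  have hc1 : Continuous (deriv f) := hf1.continuous
  have hc2 : Continuous (deriv (deriv f)) := hf2.continuous
  have hd1 : ∀ θ, HasDerivAt (deriv f) (deriv (deriv f) θ) θ := fun θ =>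
    ((hf1.differentiable (by norm_num)) θ).hasDerivAt
  have hcF : Continuous fun θ => n * (√(1 + (n * deriv f θ) ^ 2))⁻¹ :=
    continuous_const.mul (Continuous.inv₀ (by fun_prop) fun t => by positivity)
  by_cases hA : ∀ θ ∈ Icc x y, (n : ℝ) / 2000 ≤ |deriv f θ|
  · have h3 : (∫ θ in x..y, n * (√(1 + (n * deriv f θ) ^ 2))⁻¹) ≤ ∫ θ in x..y, 2000 / (n : ℝ) := by
      apply intervalIntegral.integral_mono_on hxy
      · exact hcF.intervalIntegrable _ _
      · exact continuous_const.intervalIntegrable _ _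
      · intro θ hθ
        have h5 := hA θ hθ
        have h4 : (n : ℝ) * (n / 2000) ≤ √(1 + (n * deriv f θ) ^ 2) := by
          apply Real.le_sqrt_of_sq_le
          have e1 : ((n : ℝ) * (n / 2000)) ^ 2 ≤ (n * |deriv f θ|) ^ 2 := by
            apply pow_le_pow_left₀ (by positivity)
            exact mul_le_mul_of_nonneg_left h5 (by positivity)
          rw [mul_pow _ |deriv f θ|, sq_abs, ← mul_pow] at e1
          linarith
        have h6 : 0 < √(1 + (n * deriv f θ) ^ 2) := by positivity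
        rw [← div_eq_mul_inv, div_le_div_iff₀ h6 (by positivity)]
        nlinarith
    rw [intervalIntegral.integral_const, smul_eq_mul] at h3
    refine h3.trans ?_
    have h4 : (y - x) * (2000 / (n : ℝ)) ≤ 1 / (2000 * n) * (2000 / (n : ℝ)) :=
      mul_le_mul_of_nonneg_right hl (by positivity)
    refine h4.trans ?_
    have h5 : 1 / (2000 * (n : ℝ)) * (2000 / (n : ℝ)) = 1 / (n : ℝ) ^ 2 := by
      field_simp
    rw [h5]
    apply div_le_div_of_nonneg_right _ (by positivity)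
    nlinarith
  · obtain ⟨z, hz⟩ := not_forall.1 hA
    obtain ⟨hz, hzn⟩ := Classical.not_imp.1 hz
    have hzn := not_le.1 hzn
    have hB : ∀ θ ∈ Icc x y, |deriv f θ| ≤ (n : ℝ) / 1000 := by
      intro θ hθ
      have h3 : |deriv f θ - deriv f z| ≤ (n : ℝ) ^ 2 * |θ - z| := by
        have := Convex.norm_image_sub_le_of_norm_deriv_le (f := deriv f) (C := (n : ℝ) ^ 2)
          (s := univ) (x := z) (y := θ) (fun t _ => (hd1 t).differentiableAt)
          (fun t _ => h2 t) convex_univ (mem_univ _) (mem_univ _)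
        simpa only [Real.norm_eq_abs] using this
      have h4 : |θ - z| ≤ 1 / (2000 * n) := by
        rw [abs_le]
        constructor <;> linarith [hθ.1, hθ.2, hz.1, hz.2]
      have h5 : (n : ℝ) ^ 2 * |θ - z| ≤ (n : ℝ) / 2000 := by
        calc (n : ℝ) ^ 2 * |θ - z| ≤ (n : ℝ) ^ 2 * (1 / (2000 * n)) :=
              mul_le_mul_of_nonneg_left h4 (by positivity)
          _ = (n : ℝ) / 2000 := by field_simp
      have h6 : |deriv f θ| ≤ |deriv f z| + |deriv f θ - deriv f z| := by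
        have := abs_add_le (deriv f z) (deriv f θ - deriv f z)
        simpa using this
      linarith
    have hC : ∀ θ ∈ Icc x y, (n : ℝ) ^ 2 / 1000 ≤ |deriv (deriv f) θ| := fun θ hθ =>
      hND θ hθ (hB θ hθ)
    have hpos : (0 : ℝ) < (n : ℝ) ^ 2 / 1000 := by positivity
    have hD : (∀ θ ∈ Icc x y, (n : ℝ) ^ 2 / 1000 ≤ deriv (deriv f) θ) ∨
        (∀ θ ∈ Icc x y, (n : ℝ) ^ 2 / 1000 ≤ -deriv (deriv f) θ) := by
      by_contra hcon
      obtain ⟨ha, hb⟩ := not_or.1 hcon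
      obtain ⟨a, ha⟩ := not_forall.1 ha
      obtain ⟨ha, ha'⟩ := Classical.not_imp.1 ha
      obtain ⟨b, hb⟩ := not_forall.1 hb
      obtain ⟨hb, hb'⟩ := Classical.not_imp.1 hb
      have ha0 : deriv (deriv f) a < 0 := by
        rcases le_abs.1 (hC a ha) with h | h
        · exact absurd h ha'
        · linarith
      have hb0 : 0 < deriv (deriv f) b := by
        rcases le_abs.1 (hC b hb) with h | h
        · linarith
        · exact absurd h hb'
      have h0 : (0 : ℝ) ∈ uIcc (deriv (deriv f) a) (deriv (deriv f) b) := by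
        rw [uIcc_of_le (by linarith)]
        exact ⟨ha0.le, hb0.le⟩
      obtain ⟨w, hw, hw0⟩ := intermediate_value_uIcc (hc2.continuousOn (s := uIcc a b)) h0
      have hwI : w ∈ Icc x y := by
        have : uIcc a b ⊆ Icc x y := by
          intro t ht
          rcases le_total a b with hab | hab
          · rw [uIcc_of_le hab] at ht
            exact ⟨ha.1.trans ht.1, ht.2.trans hb.2⟩
          · rw [uIcc_of_ge hab] at ht
            exact ⟨hb.1.trans ht.1, ht.2.trans ha.2⟩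
        exact this hw
      have := hC w hwI
      rw [hw0, abs_zero] at this
      linarith
    rcases hD with hD | hD
    · exact g2av_mono n (deriv f) (deriv (deriv f)) x y hn hd1 hc2 h1 hxy hD
    · have := g2av_mono n (fun θ => -deriv f θ) (fun θ => -deriv (deriv f) θ) x y hn
        (fun θ => (hd1 θ).neg) hc2.neg (fun θ => by rw [abs_neg]; exact h1 θ) hxy hD
      simpa only [mul_neg, neg_sq] using this

/-- windows of length at most `1 / n` -/
theorem g2av_win (hA1 : A1) (hA2 : A2) (n : ℕ) (f : ℝ → ℝ) (u v : ℝ) (hn : 2 ≤ n)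
    (hf : TB n f) (huv : u ≤ v) (hl : v - u ≤ 1 / n) (hND : ND n f u v) :
    (∫ θ in u..v, n * (√(1 + (n * deriv f θ) ^ 2))⁻¹) ≤
      2000 * 8000 * (1 + Real.log n) / (n : ℝ) ^ 2 := by
  have hn1 : 1 ≤ n := by omega
  have hn0 : (1 : ℝ) ≤ n := by exact_mod_cast hn1
  have hC : ContDiff ℝ 3 f := (hA1.1 n f hf.1).1 3
  have hb := hA2.1 n f hn1 hf
  have hc1 : Continuous (deriv f) := by
    have h3 : ContDiff ℝ 2 (deriv f) := (contDiff_succ_iff_deriv.1 (by exact_mod_cast hC)).2.2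
    exact h3.continuous
  set h := (v - u) / 2000 with hh
  have hh0 : 0 ≤ h := by rw [hh]; linarith
  have hhl : h ≤ 1 / (2000 * n) := by
    have : (1 : ℝ) / (2000 * n) = 1 / n / 2000 := by field_simp
    rw [hh, this]
    linarith
  have hv : v = u + (2000 : ℕ) * h := by
    rw [hh]
    push_cast
    ring
  have hcell : ∀ k : ℕ, k < 2000 →
      (∫ θ in (u + (k : ℝ) * h)..(u + (k + 1 : ℕ) * h),
        n * (√(1 + (n * deriv f θ) ^ 2))⁻¹) ≤ 8000 * (1 + Real.log n) / (n : ℝ) ^ 2 := by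
    intro k hk
    have hk1 : ((k + 1 : ℕ) : ℝ) = k + 1 := by push_cast; ring
    have hk2 : ((k + 1 : ℕ) : ℝ) ≤ (2000 : ℕ) := by exact_mod_cast hk
    have hk0 : (0 : ℝ) ≤ k := by positivity
    apply g2av_cell n f _ _ hn1 hC (fun θ => (hb.2 θ).2.2.1) (fun θ => (hb.2 θ).2.2.2.1)
    · rw [hk1]; nlinarith
    · rw [hk1]; linarith
    · intro θ hθ
      apply hND θ
      refine ⟨?_, ?_⟩
      · have := hθ.1
        nlinarith
      · refine hθ.2.trans ?_
        rw [hv]
        have := mul_le_mul_of_nonneg_right hk2 hh0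
        linarith
  have h1 := m1_cells (fun θ => n * (√(1 + (n * deriv f θ) ^ 2))⁻¹)
    (continuous_const.mul (Continuous.inv₀ (by fun_prop) fun t => by positivity)) u h
    (8000 * (1 + Real.log n) / (n : ℝ) ^ 2) 2000 fun k hk => hcell k hk
  rw [← hv] at h1
  refine h1.trans (le_of_eq ?_)
  push_cast
  ring

theorem g2av (hA1 : A1) (hA2 : A2) (hM3 : M3) : G2av := by
  refine ⟨8 * (2000 * 8000), by norm_num, ?_⟩
  intro n a b A P w hn ha hab hb hlen hdeg hbdd hND hwc hw0 hA hwA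
  have hn1 : 1 ≤ n := by omega
  have hnR : (1 : ℝ) ≤ n := by exact_mod_cast hn1
  have hnpos : (0 : ℝ) < n := by linarith
  have hTB : TB n (qq P) := hA2.2.1 n P hdeg hbdd
  have hc1 : Continuous (deriv (qq P)) := by
    have h := (hA1.1 n (qq P) hTB.1).1 1
    exact h.continuous_deriv (by norm_num)
  have hinv : (0 : ℝ) < 1 / n := by positivity
  have hm : ∀ θ : ℝ, 0 < |sin θ| + 1 / n := fun θ => by positivity
  have hpos : ∀ θ : ℝ, 0 < (|sin θ| + 1 / n) ^ 2 + (deriv (qq P) θ) ^ 2 := fun θ => by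
    have := hm θ
    positivity
  have hg : Continuous fun θ => 1 / √((|sin θ| + 1 / n) ^ 2 + (deriv (qq P) θ) ^ 2) := by
    apply continuous_const.div
    · exact (((continuous_sin.abs.add continuous_const).pow 2).add (hc1.pow 2)).sqrt
    · intro θ
      exact (Real.sqrt_pos.mpr (hpos _)).ne'
  have hg0 : ∀ θ, 0 ≤ 1 / √((|sin θ| + 1 / n) ^ 2 + (deriv (qq P) θ) ^ 2) := fun θ => by
    positivity
  have hgle : ∀ θ, 1 / √((|sin θ| + 1 / n) ^ 2 + (deriv (qq P) θ) ^ 2) ≤
      n * (√(1 + (n * deriv (qq P) θ) ^ 2))⁻¹ := by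
    intro θ
    have h1 : 0 < √(1 + (n * deriv (qq P) θ) ^ 2) := by positivity
    have h2 : 0 < √((|sin θ| + 1 / n) ^ 2 + (deriv (qq P) θ) ^ 2) := Real.sqrt_pos.mpr (hpos θ)
    rw [← div_eq_mul_inv, div_le_div_iff₀ h2 h1, one_mul]
    rw [Real.sqrt_le_left (by positivity)]
    rw [mul_pow (n : ℝ) (√_), Real.sq_sqrt (hpos θ).le]
    have h3 : 1 ≤ (n : ℝ) ^ 2 * (|sin θ| + 1 / n) ^ 2 := by
      rw [← mul_pow]
      have : 1 ≤ (n : ℝ) * (|sin θ| + 1 / n) := by
        rw [mul_add, mul_one_div_cancel hnpos.ne']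
        have := mul_nonneg hnpos.le (abs_nonneg (sin θ))
        linarith
      exact one_le_pow₀ this
    nlinarith
  have hβ0 : 0 ≤ arccos b := arccos_nonneg b
  have hαπ : arccos a ≤ π := arccos_le_pi a
  have hβα : arccos b ≤ arccos a := by linarith
  have hsin : ∀ θ ∈ Icc (arccos b) (arccos a), 0 ≤ sin θ := fun θ hθ =>
    sin_nonneg_of_nonneg_of_le_pi (hβ0.trans hθ.1) (hθ.2.trans hαπ)
  have hlog : 0 ≤ Real.log n := Real.log_nonneg hnR
  have hWc : ContinuousOn (fun θ => w θ * (sin θ + 1 / n) ^ 2) (Icc (arccos b) (arccos a)) :=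
    hwc.mul ((continuous_sin.add continuous_const).pow 2).continuousOn
  have hW0 : ∀ θ ∈ Icc (arccos b) (arccos a), 0 ≤ w θ * (sin θ + 1 / n) ^ 2 := fun θ hθ =>
    mul_nonneg (hw0 θ hθ) (sq_nonneg _)
  have hmain := hM3 n (fun θ => 1 / √((|sin θ| + 1 / n) ^ 2 + (deriv (qq P) θ) ^ 2))
    (fun θ => w θ * (sin θ + 1 / n) ^ 2) (arccos b) (arccos a) (4 * A)
    (2000 * 8000 * (1 + Real.log n) / (n : ℝ) ^ 2) hn1 hg hWc hg0 hW0 hlen (by positivity)
    (by linarith)
    (by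
      intro x y hx hxy hy hyx
      refine le_trans ?_ (g2av_win hA1 hA2 n (qq P) x y hn hTB hxy hyx
        (fun θ hθ => hND θ ⟨hx.trans hθ.1, hθ.2.trans hy⟩))
      apply intervalIntegral.integral_mono_on hxy (hg.intervalIntegrable _ _)
      · exact (continuous_const.mul (Continuous.inv₀ (by fun_prop)
          fun t => by positivity)).intervalIntegrable _ _
      · intro θ _
        exact hgle θ)
    (by
      intro x hx y hy hxy
      have h1 : sin x ≤ sin y + 1 / n := by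
        have h := abs_sin_sub_sin_le x y
        have h' := (abs_le.mp h).2
        linarith
      have h2 : sin x + 1 / n ≤ 2 * (sin y + 1 / n) := by
        have := hsin y hy
        linarith
      have h3 := hwA x hx y hy hxy
      have h4 : 0 ≤ sin x + 1 / n := add_nonneg (hsin x hx) hinv.le
      have h5 : 0 ≤ A * w y := mul_nonneg (by linarith) (hw0 y hy)
      have h6 : (sin x + 1 / n) ^ 2 ≤ (2 * (sin y + 1 / n)) ^ 2 :=
        pow_le_pow_left₀ h4 h2 2
      calc w x * (sin x + 1 / n) ^ 2 ≤ (A * w y) * (2 * (sin y + 1 / n)) ^ 2 :=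
            mul_le_mul h3 h6 (sq_nonneg _) h5
        _ = 4 * A * (w y * (sin y + 1 / n) ^ 2) := by ring)
  have hR : 2 * (n : ℝ) * (4 * A) * (2000 * 8000 * (1 + Real.log n) / (n : ℝ) ^ 2) *
      (∫ θ in (arccos b)..(arccos a), w θ * (sin θ + 1 / n) ^ 2) =
      8 * (2000 * 8000) * A * (1 + Real.log n) / n *
        ∫ θ in (arccos b)..(arccos a), w θ * (sin θ + 1 / n) ^ 2 := by
    have : 2 * (n : ℝ) * (4 * A) * (2000 * 8000 * (1 + Real.log n) / (n : ℝ) ^ 2) =
        8 * (2000 * 8000) * A * (1 + Real.log n) / n := by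
      field_simp
      ring
    rw [this]
  rw [hR] at hmain
  refine le_trans ?_ hmain
  by_cases hint : IntervalIntegrable
      (fun θ => w θ * (sin θ ^ 2 / √(sin θ ^ 2 + deriv (qq P) θ ^ 2))) volume
      (arccos b) (arccos a)
  · apply intervalIntegral.integral_mono_on hβα hint
    · apply ContinuousOn.intervalIntegrable
      rw [uIcc_of_le hβα]
      exact hWc.mul hg.continuousOn
    · intro θ hθ
      have h0 := hsin θ hθ
      have h1 := g2av_pt (sin θ) (sin θ + 1 / n) (deriv (qq P) θ) h0 (by linarith) (by positivity)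
      rw [abs_of_nonneg h0]
      calc w θ * (sin θ ^ 2 / √(sin θ ^ 2 + deriv (qq P) θ ^ 2))
          ≤ w θ * ((sin θ + 1 / n) ^ 2 * (1 / √((sin θ + 1 / n) ^ 2 + deriv (qq P) θ ^ 2))) :=
            mul_le_mul_of_nonneg_left h1 (hw0 θ hθ)
        _ = w θ * (sin θ + 1 / n) ^ 2 * (1 / √((sin θ + 1 / n) ^ 2 + deriv (qq P) θ ^ 2)) := by
            ring
  · rw [intervalIntegral.integral_undef hint]
    apply intervalIntegral.integral_nonneg hβα
    intro θ hθ
    exact mul_nonneg (hW0 θ hθ) (hg0 θ)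

end Pool.Agent.Helper10.AL
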