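import Pool.Agent.Helper10.AL.St8

/-!
Arc length of polynomials over short windows away from the end points: piece G3c (real critical
points outside the interval and the degree).
-/

set_option autoImplicit false

namespace Pool.Agent.Helper10.AL

open Polynomial Set Real MeasureTheory intervalIntegral
open Pool.Agent.Helper40.AS (arc Bdd Ext quad)

theorem g3c_tend (K : ℝ) :
    Filter.Tendsto (fun n : ℕ => K * (1 + Real.log n) / n) Filter.atTop (nhds 0) := by
  have h1 : Filter.Tendsto (fun n : ℕ => Real.log n / n) Filter.atTop (nhds 0) := by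
    have h := Real.isLittleO_log_id_atTop.tendsto_div_nhds_zero
    exact h.comp tendsto_natCast_atTop_atTop
  have h2 : Filter.Tendsto (fun n : ℕ => (1 : ℝ) / n) Filter.atTop (nhds 0) :=
    tendsto_one_div_atTop_nhds_zero_nat
  have h3 := (h1.add h2).const_mul K
  rw [add_zero, mul_zero] at h3
  refine h3.congr fun n => ?_
  ring

theorem g3c_sin {x y : ℝ} (h : y ≤ x) : |sin x - sin y| ≤ x - y := by
  have h1 := Real.abs_sin_sub_sin_le x y
  rwa [abs_of_nonneg (by linarith : 0 ≤ x - y)] at h1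

/-- geometry of the window -/
theorem g3c_geo {n : ℕ} {R K a b : ℝ} (hn : 1 ≤ n) (hK : 0 < K) (hR : 4 * K ≤ R)
    (hW : Wc n R K a b) :
    0 < sin (arccos b) ∧ b - a ≤ 5 / 16 * sin (arccos b) ^ 2 ∧
    ∀ x ∈ Icc a b, sin (arccos b) ^ 2 / 4 ≤ 1 - |x| ∧
      1 - x ^ 2 ≤ 25 / 16 * sin (arccos b) ^ 2 := by
  obtain ⟨ha, hab, hb, hKn, hRa, hRb⟩ := hW
  have hn0 : (0 : ℝ) < n := by exact_mod_cast hn
  set S : ℝ := sin (arccos b) with hS
  have hRp : 0 < R := by linarith
  have hSp : 0 < S := by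
    by_contra hc
    push Not at hc
    have := mul_nonpos_of_nonneg_of_nonpos hn0.le hc
    linarith
  have hd : arccos a - arccos b ≤ K / n := by
    rw [le_div_iff₀ hn0]; linarith
  have hKS : K / n ≤ S / 4 := by
    rw [div_le_iff₀ hn0]
    linarith
  have hsx : ∀ t ∈ Icc (arccos b) (arccos a), 3 / 4 * S ≤ sin t ∧ sin t ≤ 5 / 4 * S := by
    intro t ht
    have h1 := g3c_sin ht.1
    have h2 : t - arccos b ≤ S / 4 := by linarith [ht.2]
    have h3 := abs_le.1 (h1.trans h2)
    rw [← hS] at h3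
    constructor <;> linarith [h3.1, h3.2]
  have hlt : arccos b < arccos a := Real.strictAntiOn_arccos ⟨ha, by linarith⟩
      ⟨by linarith, hb⟩ hab
  refine ⟨hSp, ?_, ?_⟩
  · have hca : cos (arccos a) = a := Real.cos_arccos ha (by linarith)
    have hcb : cos (arccos b) = b := Real.cos_arccos (by linarith) hb
    have e1 : b - a = -2 * sin ((arccos b + arccos a) / 2) * sin ((arccos b - arccos a) / 2) := by
      rw [← Real.cos_sub_cos, hca, hcb]
    have e2 : sin ((arccos b - arccos a) / 2) = - sin ((arccos a - arccos b) / 2) := by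
      rw [← Real.sin_neg]; congr 1; ring
    have h1 := (hsx ((arccos b + arccos a) / 2) ⟨by linarith, by linarith⟩)
    have h2 : sin ((arccos a - arccos b) / 2) ≤ (arccos a - arccos b) / 2 :=
      Real.sin_le (by linarith)
    have h3 : sin ((arccos a - arccos b) / 2) ≤ S / 8 := by linarith
    rw [e1, e2]
    have h4 : 0 ≤ sin ((arccos b + arccos a) / 2) := by linarith [h1.1]
    have h5 : sin ((arccos b + arccos a) / 2) * sin ((arccos a - arccos b) / 2) ≤
        (5 / 4 * S) * (S / 8) :=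
      mul_le_mul h1.2 h3 (Real.sin_nonneg_of_nonneg_of_le_pi (by linarith)
        (by linarith [Real.arccos_le_pi a, Real.arccos_nonneg b, Real.pi_pos])) (by positivity)
    nlinarith
  · intro x hx
    have hx1 : x ≤ 1 := by linarith [hx.2]
    have hx0 : -1 ≤ x := by linarith [hx.1]
    have ht : arccos x ∈ Icc (arccos b) (arccos a) :=
      ⟨Real.antitone_arccos hx.2, Real.antitone_arccos hx.1⟩
    obtain ⟨h1, h2⟩ := hsx _ ht
    have h3 : sin (arccos x) ^ 2 = 1 - x ^ 2 := by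
      rw [Real.sin_arccos, Real.sq_sqrt]
      nlinarith
    have h4 : 9 / 16 * S ^ 2 ≤ 1 - x ^ 2 := by
      rw [← h3]; nlinarith
    have h5 : 1 - x ^ 2 ≤ 25 / 16 * S ^ 2 := by
      rw [← h3]; nlinarith
    refine ⟨?_, h5⟩
    have hax : |x| ≤ 1 := abs_le.2 ⟨hx0, hx1⟩
    have h6 : 1 - x ^ 2 ≤ 2 * (1 - |x|) := by
      have : x ^ 2 = |x| ^ 2 := (sq_abs x).symm
      rw [this]
      nlinarith [abs_nonneg x]
    nlinarith

/-- the bound for the derivative at a point -/
theorem g3c_pt {S h x t N D D' Db : ℝ} (hx : |x| < 1) (ht0 : 0 ≤ t) (hth : t ≤ h)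
    (hh : h ≤ 5 / 16 * S ^ 2) (hg2 : 1 - x ^ 2 ≤ 25 / 16 * S ^ 2)
    (hN : N = (1 - x ^ 2) - 2 * x * t) (h1 : (1 - |x|) * |D'| ≤ 2 * |D|) (h2 : |Db| ≤ 9 * |D|) :
    |N * D - ((1 - x ^ 2) * t) * D'| * |Db| ≤ 45 * S ^ 2 * |D| ^ 2 := by
  have hS2 : 0 ≤ S ^ 2 := sq_nonneg S
  have hax := abs_nonneg x
  have hsq : x ^ 2 = |x| ^ 2 := (sq_abs x).symm
  have hx20 : 0 ≤ 1 - x ^ 2 := by
    rw [hsq]; nlinarith
  have h3 : |N| ≤ 3 * S ^ 2 := by
    rw [hN]
    refine (abs_sub _ _).trans ?_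
    rw [abs_of_nonneg hx20]
    have e2 : |2 * x * t| ≤ 2 * (5 / 16 * S ^ 2) := by
      rw [abs_mul, abs_mul, abs_of_nonneg ht0, abs_two]
      have : |x| * t ≤ 1 * (5 / 16 * S ^ 2) :=
        mul_le_mul hx.le (by linarith) ht0 (by norm_num)
      linarith
    linarith
  have h4 : |((1 - x ^ 2) * t) * D'| ≤ 2 * S ^ 2 * |D| := by
    rw [abs_mul, abs_of_nonneg (mul_nonneg hx20 ht0)]
    have h5 : 1 - x ^ 2 ≤ 2 * (1 - |x|) := by
      rw [hsq]
      nlinarith
    have h6 : (1 - x ^ 2) * |D'| ≤ 4 * |D| := by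
      calc (1 - x ^ 2) * |D'| ≤ 2 * (1 - |x|) * |D'| :=
            mul_le_mul_of_nonneg_right h5 (abs_nonneg _)
        _ = 2 * ((1 - |x|) * |D'|) := by ring
        _ ≤ 2 * (2 * |D|) := by linarith
        _ = 4 * |D| := by ring
    calc (1 - x ^ 2) * t * |D'| = t * ((1 - x ^ 2) * |D'|) := by ring
      _ ≤ (5 / 16 * S ^ 2) * (4 * |D|) :=
          mul_le_mul (by linarith) h6 (mul_nonneg hx20 (abs_nonneg _)) (by positivity)
      _ = 5 / 4 * (S ^ 2 * |D|) := by ring
      _ ≤ 2 * (S ^ 2 * |D|) := by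
          have : 0 ≤ S ^ 2 * |D| := mul_nonneg hS2 (abs_nonneg _)
          linarith
      _ = 2 * S ^ 2 * |D| := by ring
  have h6 : |N * D - ((1 - x ^ 2) * t) * D'| ≤ 5 * S ^ 2 * |D| := by
    refine (abs_sub _ _).trans ?_
    rw [abs_mul]
    have h7 := mul_le_mul h3 le_rfl (abs_nonneg D) (by positivity)
    linarith
  calc |N * D - ((1 - x ^ 2) * t) * D'| * |Db|
      ≤ (5 * S ^ 2 * |D|) * (9 * |D|) :=
        mul_le_mul h6 h2 (abs_nonneg _) (by positivity)
    _ = 45 * S ^ 2 * |D| ^ 2 := by ring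

theorem g3c_key (hG0 : G0) (hG2ac : G2ac) (K : ℝ) (hK : 0 < K) :
    ∃ R : ℝ, 0 < R ∧ 4 * K ≤ R ∧ ∃ n0 : ℕ, 1 ≤ n0 ∧ ∀ n ≥ n0, ∀ (a b : ℝ) (P D : ℝ[X]),
      Wc n R K a b → Ext n a b P →
      D ∣ P.derivative →
      (∀ x ∈ Ioo (-1 : ℝ) 1, D.eval x ≠ 0) →
      (∀ x ∈ Icc a b, (1 - |x|) * |D.derivative.eval x| ≤ 2 * |D.eval x| ∧
        |D.eval b| ≤ 9 * |D.eval x|) →
      P.natDegree + 2 ≤ D.natDegree + n → False := by
  obtain ⟨K', R', hK', hR', n1, hn1⟩ := hG2ac K hK
  obtain ⟨n2, hn2⟩ := Filter.eventually_atTop.1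
    ((g3c_tend (K' * 45)).eventually (gt_mem_nhds (show (0 : ℝ) < 1 by norm_num)))
  refine ⟨max R' (4 * K), lt_of_lt_of_le hR' (le_max_left _ _), le_max_right _ _,
    max 1 (max n1 n2), le_max_left _ _, ?_⟩
  intro n hn a b P D hW hE hDd hD0 hDb hdeg
  have hn1' : 1 ≤ n := le_trans (le_max_left _ _) hn
  have hnn1 : n1 ≤ n := le_trans (le_trans (le_max_left _ _) (le_max_right _ _)) hn
  have hnn2 : n2 ≤ n := le_trans (le_trans (le_max_right _ _) (le_max_right _ _)) hn
  have hsmall := hn2 n hnn2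
  have hnR : (1 : ℝ) ≤ n := by exact_mod_cast hn1'
  have hn0 : (0 : ℝ) < n := by linarith
  obtain ⟨hSp, hh, hgeo⟩ := g3c_geo hn1' hK (le_max_right _ _) hW
  have hW' : Wc n R' K a b := by
    obtain ⟨h1, h2, h3, h4, h5, h6⟩ := hW
    exact ⟨h1, h2, h3, h4, le_trans (le_max_left _ _) h5, le_trans (le_max_left _ _) h6⟩
  obtain ⟨hMa, hab, hMb, -, -, -⟩ := hW
  set S : ℝ := sin (arccos b) with hS
  have hxin : ∀ x ∈ Icc a b, x ∈ Ioo (-1 : ℝ) 1 := by
    intro x hx
    have h1 := (hgeo x hx).1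
    have h2 : |x| < 1 := by
      have : 0 < S ^ 2 / 4 := by positivity
      linarith
    exact abs_lt.1 h2
  have hDx : ∀ x ∈ Icc a b, D.eval x ≠ 0 := fun x hx => hD0 x (hxin x hx)
  obtain ⟨R, hR⟩ := hDd
  have hid := hG0 n a b P D R (X - C a) hn1' hMa hab hMb hE hR (by
    intro x hx hx1
    have h1 := Pool.Agent.Helper40.AS.contact_int hE.bdd hx hx1
    rw [hR, eval_mul] at h1
    exact (mul_eq_zero.1 h1).resolve_left (hD0 x hx)) (by
    rw [natDegree_X_sub_C]
    omega) hDx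
  have hbD : (0 : ℝ) < |D.eval b| := abs_pos.2 (hDx b ⟨hab.le, le_rfl⟩)
  set w : ℝ := 45 * S ^ 2 / |D.eval b| with hw
  have hwp : 0 < w := by positivity
  -- the bound for the derivative
  set g : ℝ → ℝ := fun x => (((((1 - X ^ 2) * (X - C a)).derivative.eval x * D.eval x -
    ((1 - x ^ 2) * (X - C a).eval x) * D.derivative.eval x) / D.eval x ^ 2) /
      √(1 + P.derivative.eval x ^ 2)) with hg
  have hgb : ∀ x ∈ Icc a b, |g x| ≤ w / √(1 + P.derivative.eval x ^ 2) := by
    intro x hx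
    have hs : 0 < √(1 + P.derivative.eval x ^ 2) := Real.sqrt_pos.2 (by positivity)
    rw [hg]
    simp only
    rw [abs_div, abs_of_pos hs]
    refine div_le_div_of_nonneg_right ?_ hs.le
    have hDp : 0 < |D.eval x| := abs_pos.2 (hDx x hx)
    obtain ⟨h1, h2⟩ := hDb x hx
    have hx1 := hx.1
    have hx2 := hx.2
    have hxx := hxin x hx
    obtain ⟨hg1, hg2⟩ := hgeo x hx
    have hax : |x| < 1 := abs_lt.2 hxx
    have e : ((1 - X ^ 2) * (X - C a)).derivative.eval x = (1 - x ^ 2) - 2 * x * (x - a) := by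
      simp only [derivative_mul, derivative_sub, derivative_one, derivative_X_pow, derivative_X,
        derivative_C, eval_add, eval_mul, eval_sub, eval_one, eval_pow, eval_X, eval_C,
        eval_zero]
      push_cast
      ring
    have e' : (X - C a : ℝ[X]).eval x = x - a := by
      simp only [eval_sub, eval_X, eval_C]
    rw [abs_div, abs_pow, hw, div_le_div_iff₀ (by positivity) hbD, e']
    exact g3c_pt hax (by linarith) (by linarith) hh hg2 e h1 h2
  have hcs : Continuous fun x => √(1 + P.derivative.eval x ^ 2) := by fun_prop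
  have hspos : ∀ x, √(1 + P.derivative.eval x ^ 2) ≠ 0 := fun x =>
    (Real.sqrt_pos.2 (by positivity)).ne'
  have hgc : ContinuousOn g (Icc a b) := by
    rw [hg]
    refine ContinuousOn.div (ContinuousOn.div ?_ ?_ ?_) hcs.continuousOn fun x _ => hspos x
    · fun_prop
    · fun_prop
    · intro x hx
      exact pow_ne_zero _ (hDx x hx)
  have h1 : |∫ x in a..b, g x| ≤ ∫ x in a..b, w / √(1 + P.derivative.eval x ^ 2) := by
    refine (abs_integral_le_integral_abs hab.le).trans ?_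
    refine integral_mono_on hab.le ?_ ?_ hgb
    · exact (ContinuousOn.intervalIntegrable (by rw [uIcc_of_le hab.le]; exact hgc.abs))
    · exact (Continuous.div continuous_const hcs hspos).intervalIntegrable _ _
  have h2 := hn1 n hnn1 a b 1 P (fun _ => w) hW' hE continuousOn_const
    (fun x _ => hwp.le) le_rfl (fun x _ y _ _ => by rw [one_mul])
  rw [intervalIntegral.integral_const, smul_eq_mul, mul_one, ← hS] at h2
  have h3 : |((1 - b ^ 2) * (X - C a).eval b / D.eval b) * √(1 + P.derivative.eval b ^ 2)| ≤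
      K' * (1 + Real.log n) * S / n * ((b - a) * w) := by
    have h4 : ((1 - b ^ 2) * (X - C a).eval b / D.eval b) * √(1 + P.derivative.eval b ^ 2) =
        ∫ x in a..b, g x := by
      rw [← hid]
      simp
    rw [h4]
    exact h1.trans h2
  have hsb : 1 ≤ √(1 + P.derivative.eval b ^ 2) := by
    rw [Real.one_le_sqrt]
    nlinarith [sq_nonneg (P.derivative.eval b)]
  have hb2 : 1 - b ^ 2 = S ^ 2 := by
    rw [hS, Real.sin_arccos, Real.sq_sqrt]
    nlinarith [(hxin b ⟨hab.le, le_rfl⟩).1, (hxin b ⟨hab.le, le_rfl⟩).2]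
  have hSS : 0 < S ^ 2 := by positivity
  have h5 : S ^ 2 * (b - a) / |D.eval b| ≤
      |((1 - b ^ 2) * (X - C a).eval b / D.eval b) * √(1 + P.derivative.eval b ^ 2)| := by
    simp only [eval_sub, eval_X, eval_C]
    rw [hb2, abs_mul, abs_div, abs_of_nonneg (show (0 : ℝ) ≤ √(1 + P.derivative.eval b ^ 2) by
      positivity), abs_of_nonneg (show (0 : ℝ) ≤ S ^ 2 * (b - a) from
      mul_nonneg hSS.le (by linarith))]
    exact le_mul_of_one_le_right (div_nonneg (mul_nonneg hSS.le (by linarith))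
      hbD.le) hsb
  have h6 := h5.trans h3
  rw [hw] at h6
  have h7 : 1 * (S ^ 2 * (b - a) / |D.eval b|) ≤
      (K' * 45 * (1 + Real.log n) / n * S) * (S ^ 2 * (b - a) / |D.eval b|) := by
    calc 1 * (S ^ 2 * (b - a) / |D.eval b|) = S ^ 2 * (b - a) / |D.eval b| := by ring
      _ ≤ _ := h6
      _ = _ := by ring
  have h8 := le_of_mul_le_mul_right h7 (div_pos (mul_pos hSS (by linarith)) hbD)
  have h9 : S ≤ 1 := by rw [hS]; exact Real.sin_le_one _
  have h10 : 0 ≤ K' * 45 * (1 + Real.log n) / n := by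
    have : 0 ≤ Real.log n := Real.log_nonneg hnR
    positivity
  nlinarith

theorem g3c_lin {S a b x y : ℝ} (hh : b - a ≤ 5 / 16 * S ^ 2) (hx : x ∈ Icc a b)
    (hxS : S ^ 2 / 4 ≤ 1 - |x|) (hy : 1 ≤ |y|) :
    1 - |x| ≤ |x - y| ∧ |b - y| ≤ 3 * |x - y| := by
  have h1 : 1 - |x| ≤ |x - y| := by
    have : |y| ≤ |x - y| + |x| := by
      have h := abs_sub_abs_le_abs_sub y x
      rw [abs_sub_comm] at h
      linarith
    linarith
  refine ⟨h1, ?_⟩
  have h2 : |b - y| ≤ |b - x| + |x - y| := by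
    have := abs_add_le (b - x) (x - y)
    rwa [sub_add_sub_cancel] at this
  have h3 : |b - x| ≤ 5 / 16 * S ^ 2 := by
    rw [abs_of_nonneg (by linarith [hx.2])]
    linarith [hx.1, hx.2]
  linarith [sq_nonneg S]

theorem g3c (hG0 : G0) (hG1u : G1u) (hG2ac : G2ac) (hS3e : S3e) : G3c := by
  intro K hK
  obtain ⟨R, hR, hKR, n0, hn0, hkey⟩ := g3c_key hG0 hG2ac K hK
  refine ⟨R, hR, n0, fun n hn a b P hW hE => ?_⟩
  have hPn : P.natDegree ≤ n := natDegree_le_of_degree_le hE.deg
  obtain ⟨hSp, hh, hgeo⟩ := g3c_geo (le_trans hn0 hn) hK hKR hW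
  have hne : ∀ y : ℝ, 1 ≤ |y| → ∀ x ∈ Ioo (-1 : ℝ) 1, x - y ≠ 0 := by
    intro y hy x hx h
    have : x = y := by linarith
    subst this
    rcases le_abs'.1 hy with h | h
    · linarith [hx.1]
    · linarith [hx.2]
  refine ⟨?_, ?_, ?_⟩
  · intro y1 y2 hy1 hy2 hdv
    refine hkey n hn a b P ((X - C y1) * (X - C y2)) hW hE hdv ?_ ?_ ?_
    · intro x hx
      simp only [eval_mul, eval_sub, eval_X, eval_C]
      exact mul_ne_zero (hne y1 hy1 x hx) (hne y2 hy2 x hx)
    · intro x hx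
      have hx0 := (hgeo x hx).1
      obtain ⟨h1, h2⟩ := g3c_lin hh hx hx0 hy1
      obtain ⟨h3, h4⟩ := g3c_lin hh hx hx0 hy2
      have hxp : 0 ≤ 1 - |x| := le_trans (by positivity) hx0
      constructor
      · simp only [derivative_mul, derivative_sub, derivative_X, derivative_C, eval_add,
          eval_mul, eval_sub, eval_X, eval_C, eval_one, eval_zero, sub_zero, one_mul, mul_one]
        rw [abs_mul]
        have h5 : |x - y2 + (x - y1)| ≤ |x - y2| + |x - y1| := abs_add_le _ _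
        have h6 : (1 - |x|) * |x - y2| ≤ |x - y1| * |x - y2| :=
          mul_le_mul_of_nonneg_right h1 (abs_nonneg _)
        have h7 : (1 - |x|) * |x - y1| ≤ |x - y2| * |x - y1| :=
          mul_le_mul_of_nonneg_right h3 (abs_nonneg _)
        have h8 : (1 - |x|) * |x - y2 + (x - y1)| ≤ (1 - |x|) * (|x - y2| + |x - y1|) :=
          mul_le_mul_of_nonneg_left h5 hxp
        nlinarith
      · simp only [eval_mul, eval_sub, eval_X, eval_C]
        rw [abs_mul, abs_mul]
        calc |b - y1| * |b - y2| ≤ (3 * |x - y1|) * (3 * |x - y2|) :=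
              mul_le_mul h2 h4 (abs_nonneg _) (by positivity)
          _ = 9 * (|x - y1| * |x - y2|) := by ring
    · rw [natDegree_mul (X_sub_C_ne_zero _) (X_sub_C_ne_zero _), natDegree_X_sub_C,
        natDegree_X_sub_C]
      omega
  · intro hdeg y hy hr
    refine hkey n hn a b P (X - C y) hW hE (dvd_iff_isRoot.2 hr) ?_ ?_ ?_
    · intro x hx
      simp only [eval_sub, eval_X, eval_C]
      exact hne y hy x hx
    · intro x hx
      have hx0 := (hgeo x hx).1
      obtain ⟨h1, h2⟩ := g3c_lin hh hx hx0 hy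
      constructor
      · simp only [derivative_sub, derivative_X, derivative_C, eval_sub, eval_X, eval_C,
          eval_one, eval_zero, sub_zero, abs_one]
        linarith [abs_nonneg (x - y)]
      · simp only [eval_sub, eval_X, eval_C]
        linarith [abs_nonneg (x - y)]
    · rw [natDegree_X_sub_C]
      omega
  · by_contra hdeg
    push Not at hdeg
    refine hkey n hn a b P 1 hW hE (one_dvd _) ?_ ?_ ?_
    · intro x hx
      simp
    · intro x hx
      constructor
      · simp only [derivative_one, eval_zero, abs_zero, eval_one, abs_one, mul_one, mul_zero]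
        norm_num
      · simp only [eval_one, abs_one, mul_one]
        norm_num
    · rw [natDegree_one]
      omega

end Pool.Agent.Helper10.AL
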