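import Pool.Agent.Helper10.AL.St

/-!
Arc length of polynomials over compact windows, piece A1: closure properties of the class of real
trigonometric polynomials.
-/

set_option autoImplicit false

namespace Pool.Agent.Helper10.AL

open Polynomial Set Real MeasureTheory intervalIntegral

noncomputable section

/-- the function from its complex polynomial -/
theorem a1_re {n : ℕ} {f : ℝ → ℝ} {F : ℂ[X]}
    (hF : ∀ θ : ℝ, F.eval (Complex.exp (θ * Complex.I)) =
      Complex.exp (n * θ * Complex.I) * (f θ : ℂ)) (θ : ℝ) :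
    f θ = (Complex.exp (-(n * θ * Complex.I)) * F.eval (Complex.exp (θ * Complex.I))).re := by
  rw [hF, ← mul_assoc, ← Complex.exp_add]
  rw [show -((n : ℂ) * θ * Complex.I) + n * θ * Complex.I = 0 by ring, Complex.exp_zero, one_mul,
    Complex.ofReal_re]

theorem a1_smooth {n : ℕ} {f : ℝ → ℝ} (h : TP n f) (k : ℕ) : ContDiff ℝ k f := by
  obtain ⟨F, -, hF⟩ := h
  have h1 : f = fun θ : ℝ =>
      (Complex.exp (-(n * θ * Complex.I)) * F.eval (Complex.exp (θ * Complex.I))).re :=
    funext fun θ => a1_re hF θ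
  rw [h1]
  have h2 : ContDiff ℝ k (fun θ : ℝ => (θ : ℂ)) := Complex.ofRealCLM.contDiff
  have h3 : ContDiff ℝ k (fun θ : ℝ => Complex.exp (-(n * θ * Complex.I))) :=
    ((contDiff_const.mul h2).mul contDiff_const).neg.cexp
  have h4 : ContDiff ℝ k (fun θ : ℝ => Complex.exp (θ * Complex.I)) :=
    (h2.mul contDiff_const).cexp
  have h5 : ContDiff ℝ k (fun z : ℂ => F.eval z) := by
    have h6 : ContDiff ℂ k (fun z : ℂ => F.eval z) := by
      have := F.contDiff_aeval (𝕜 := ℂ) (n := k)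
      simpa [Polynomial.coe_aeval_eq_eval] using this
    exact h6.restrict_scalars ℝ
  exact Complex.reCLM.contDiff.comp (h3.mul (h5.comp h4))

theorem a1_deriv {n : ℕ} {f : ℝ → ℝ} (h : TP n f) : TP n (deriv f) := by
  have hs := a1_smooth h 1
  obtain ⟨F, hdeg, hF⟩ := h
  have hd : ∀ θ, HasDerivAt f (deriv f θ) θ := fun θ =>
    ((hs.differentiable (by norm_num)) θ).hasDerivAt
  refine ⟨C Complex.I * (X * F.derivative - C (n : ℂ) * F), ?_, fun θ => ?_⟩
  · refine (natDegree_C_mul_le _ _).trans ((natDegree_sub_le _ _).trans (max_le ?_ ?_))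
    · rcases Nat.eq_zero_or_pos F.natDegree with h0 | h0
      · have : F.derivative = 0 := by
          rw [eq_C_of_natDegree_eq_zero h0, derivative_C]
        rw [this, mul_zero, natDegree_zero]
        exact Nat.zero_le _
      · refine natDegree_mul_le.trans ?_
        rw [natDegree_X]
        have := natDegree_derivative_le F
        omega
    · exact (natDegree_C_mul_le _ _).trans hdeg
  · have h2 := Pool.Agent.Helper40.Arc.deriv_rel hF hd θ
    rw [eval_mul, eval_C, eval_sub, eval_mul, eval_X, eval_mul, eval_C, h2, hF]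
    have : Complex.I * Complex.I = -1 := Complex.I_mul_I
    linear_combination (-(Complex.exp (n * θ * Complex.I)) * ((deriv f θ : ℝ) : ℂ)) * this

theorem a1_const {n : ℕ} {f : ℝ → ℝ} (h : TP n f) (c : ℝ) : TP n (fun θ => c * f θ) := by
  obtain ⟨F, hdeg, hF⟩ := h
  refine ⟨C (c : ℂ) * F, (natDegree_C_mul_le _ _).trans hdeg, fun θ => ?_⟩
  rw [eval_mul, eval_C, hF]
  push_cast
  ring

theorem a1_shift {n : ℕ} {f : ℝ → ℝ} (h : TP n f) (c : ℝ) : TP n (fun θ => f (θ + c)) := by
  obtain ⟨F, hdeg, hF⟩ := h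
  refine ⟨C (Complex.exp (-(n * c * Complex.I))) * F.comp (C (Complex.exp (c * Complex.I)) * X),
    ?_, fun θ => ?_⟩
  · refine (natDegree_C_mul_le _ _).trans (natDegree_comp_le.trans ?_)
    have h1 : (C (Complex.exp (c * Complex.I)) * X : ℂ[X]).natDegree ≤ 1 :=
      (natDegree_C_mul_le _ _).trans natDegree_X_le
    calc F.natDegree * (C (Complex.exp (c * Complex.I)) * X : ℂ[X]).natDegree
        ≤ F.natDegree * 1 := Nat.mul_le_mul_left _ h1
      _ ≤ 2 * n := by rw [mul_one]; exact hdeg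
  · rw [eval_mul, eval_C, eval_comp, eval_mul, eval_C, eval_X, ← Complex.exp_add]
    have h1 := hF (θ + c)
    rw [show (c : ℂ) * Complex.I + θ * Complex.I = ((θ + c : ℝ) : ℂ) * Complex.I by
      push_cast; ring, h1, ← mul_assoc, ← Complex.exp_add]
    congr 2
    push_cast
    ring

theorem a1_neg {n : ℕ} {f : ℝ → ℝ} (h : TP n f) : TP n (fun θ => f (-θ)) := by
  obtain ⟨F, hdeg, hF⟩ := h
  refine ⟨F.map (starRingEnd ℂ), (natDegree_map_le).trans hdeg, fun θ => ?_⟩
  have h1 : Complex.exp (θ * Complex.I) = starRingEnd ℂ (Complex.exp ((-θ : ℝ) * Complex.I)) := by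
    rw [← Complex.exp_conj]
    congr 1
    simp
  have h2 := hF (-θ)
  rw [h1, eval_map, eval₂_at_apply, h2, map_mul, ← Complex.exp_conj, Complex.conj_ofReal]
  congr 2
  simp

theorem a1_periodic {n : ℕ} {f : ℝ → ℝ} (h : TP n f) (θ : ℝ) : f (θ + 2 * π) = f θ := by
  obtain ⟨F, -, hF⟩ := h
  have h1 := hF (θ + 2 * π)
  have h2 : Complex.exp (((θ + 2 * π : ℝ) : ℂ) * Complex.I) = Complex.exp (θ * Complex.I) := by
    rw [show ((θ + 2 * π : ℝ) : ℂ) * Complex.I = θ * Complex.I + 2 * π * Complex.I by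
      push_cast; ring]
    exact Complex.exp_periodic _
  have h3 : Complex.exp (n * ((θ + 2 * π : ℝ) : ℂ) * Complex.I) =
      Complex.exp (n * θ * Complex.I) := by
    rw [show (n : ℂ) * ((θ + 2 * π : ℝ) : ℂ) * Complex.I =
      n * (((θ + 2 * π : ℝ) : ℂ) * Complex.I) by ring, Complex.exp_nat_mul, h2,
      ← Complex.exp_nat_mul]
    congr 1
    ring
  rw [h2, h3, hF θ] at h1
  have h4 := mul_left_cancel₀ (Complex.exp_ne_zero _) h1
  exact_mod_cast h4.symm

theorem a1_add {n : ℕ} {f g : ℝ → ℝ} (hf : TP n f) (hg : TP n g) :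
    TP n (fun θ => f θ + g θ) := by
  obtain ⟨F, hdF, hF⟩ := hf
  obtain ⟨G, hdG, hG⟩ := hg
  refine ⟨F + G, (natDegree_add_le _ _).trans (max_le hdF hdG), fun θ => ?_⟩
  rw [eval_add, hF, hG]
  push_cast
  ring

theorem a1_comp (n : ℕ) (a b c : ℝ) (p : ℝ[X]) (hp : p.natDegree ≤ n) :
    TP n (fun θ => p.eval (a + b * cos θ + c * sin θ)) := by
  set Q : ℂ[X] := C ((b : ℂ) / 2 - c / 2 * Complex.I) * X ^ 2 + C (a : ℂ) * X +
    C ((b : ℂ) / 2 + c / 2 * Complex.I) with hQ
  refine ⟨∑ k ∈ Finset.range (n + 1), C (p.coeff k : ℂ) * (X ^ (n - k) * Q ^ k), ?_, fun θ => ?_⟩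
  · refine natDegree_sum_le_of_forall_le _ _ (fun k hk => ?_)
    have hkn : k ≤ n := Nat.lt_succ_iff.1 (Finset.mem_range.1 hk)
    have h1 : Q.natDegree ≤ 2 := by
      rw [hQ]
      compute_degree
    have h2 : (Q ^ k).natDegree ≤ k * 2 := natDegree_pow_le_of_le k h1
    refine (natDegree_C_mul_le _ _).trans ?_
    refine natDegree_mul_le.trans ?_
    rw [natDegree_X_pow]
    omega
  · set z : ℂ := Complex.exp (θ * Complex.I) with hz
    have hz0 : z ≠ 0 := Complex.exp_ne_zero _
    have h2 : Complex.exp (-(θ : ℂ) * Complex.I) = z⁻¹ := by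
      rw [hz, ← Complex.exp_neg]; congr 1; ring
    have hzz : z * z⁻¹ = 1 := mul_inv_cancel₀ hz0
    have hI : Complex.I * Complex.I = -1 := Complex.I_mul_I
    have h1 : Q.eval z = z * (a + b * Complex.cos θ + c * Complex.sin θ) := by
      rw [Complex.cos, Complex.sin, ← hz, h2, hQ]
      simp only [eval_add, eval_mul, eval_C, eval_X, eval_pow]
      linear_combination (-(b : ℂ) / 2 - c / 2 * Complex.I) * hzz
    have h3 : Complex.exp (n * θ * Complex.I) = z ^ n := by
      rw [hz, ← Complex.exp_nat_mul]; congr 1; ring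
    show _ = _ * ((p.eval (a + b * cos θ + c * sin θ) : ℝ) : ℂ)
    rw [h3, p.eval_eq_sum_range' (Nat.lt_succ_of_le hp), eval_finset_sum]
    push_cast
    rw [Finset.mul_sum]
    refine Finset.sum_congr rfl (fun k hk => ?_)
    have hkn : k ≤ n := Nat.lt_succ_iff.1 (Finset.mem_range.1 hk)
    simp only [eval_mul, eval_C, eval_pow, eval_X]
    rw [h1, mul_pow]
    have h4 : z ^ n = z ^ (n - k) * z ^ k := by rw [← pow_add]; congr 1; omega
    rw [h4]
    ring

theorem a1 : A1 := by
  refine ⟨fun n f h => ⟨a1_smooth h, a1_deriv h, a1_const h, a1_shift h, a1_neg h,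
    a1_periodic h⟩, fun n f g hf hg => ⟨a1_add hf hg, ?_⟩, a1_comp⟩
  have h1 := a1_add hf (a1_const hg (-1))
  have h2 : (fun θ => f θ + -1 * g θ) = fun θ => f θ - g θ := by
    funext θ
    ring
  rw [h2] at h1
  exact h1

end

end Pool.Agent.Helper10.AL
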