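import Pool.Agent.Helper10.AL.St7
import Pool.Agent.Helper10.AL.P.A1
import Pool.Agent.Helper10.AL.P.A2

/-!
Arc length of polynomials, large degree: piece G3r (real critical points outside the interval and
the degree, windows with a large right gap).
-/

set_option autoImplicit false

namespace Pool.Agent.Helper10.AL

open Polynomial Set Real MeasureTheory intervalIntegral
open Pool.Agent.Helper40.AS (arc Bdd Ext quad)

noncomputable section

theorem g3r_tend (K : ℝ) :
    Filter.Tendsto (fun n : ℕ => K * (1 + Real.log n) / n) Filter.atTop (nhds 0) := by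
  have h1 : Filter.Tendsto (fun n : ℕ => Real.log n / n) Filter.atTop (nhds 0) := by
    have h := Real.isLittleO_log_id_atTop.tendsto_div_nhds_zero
    exact h.comp tendsto_natCast_atTop_atTop
  have h2 : Filter.Tendsto (fun n : ℕ => (1 : ℝ) / n) Filter.atTop (nhds 0) :=
    tendsto_one_div_atTop_nhds_zero_nat
  have h4 := (h1.add h2).const_mul K
  rw [add_zero, mul_zero] at h4
  refine h4.congr fun n => ?_
  ring

/-! ### distance of the outer critical points to the window -/

/-- a critical point at `-1` -/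
theorem g3r_root (hA1 : A1) (hA2 : A2) {n : ℕ} {a b : ℝ} {P : ℝ[X]} (hn : 1 ≤ n)
    (hPn : P.natDegree ≤ n) (hB : Bdd P) (hab : arccos b ≤ arccos a)
    (hND : ND n (qq P) (arccos b) (arccos a)) (h0 : P.derivative.eval (-1) = 0) :
    1 / (1000 * (n : ℝ)) ≤ π - arccos a := by
  by_contra hlt
  push Not at hlt
  have hn0 : (0 : ℝ) < n := by exact_mod_cast hn
  have hTB := hA2.2.1 n P hPn hB
  have hαπ : arccos a ≤ π := arccos_le_pi a
  have hd1 : Differentiable ℝ (deriv (qq P)) := by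
    have := (hA1.1 n (deriv (qq P)) (hA1.1 n _ hTB.1).2.1).1 1
    exact this.differentiable (by norm_num)
  have hd2 : Differentiable ℝ (deriv (deriv (qq P))) := by
    have := (hA1.1 n (deriv (deriv (qq P)))
      (hA1.1 n (deriv (qq P)) (hA1.1 n _ hTB.1).2.1).2.1).1 1
    exact this.differentiable (by norm_num)
  have hq1 : deriv (qq P) π = 0 := by
    rw [(hA2.2.2 P π).1, sin_pi]
    ring
  have hq2 : deriv (deriv (qq P)) π = 0 := by
    rw [(hA2.2.2 P π).2, sin_pi, cos_pi, h0]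
    ring
  have h1 := Convex.norm_image_sub_le_of_norm_deriv_le (f := deriv (qq P)) (C := (n : ℝ) ^ 2)
    (s := univ) (x := π) (y := arccos a) (fun x _ => hd1 x) (fun x _ => by
      rw [Real.norm_eq_abs]
      exact ((hA2.1 n _ hn hTB).2 x).2.2.2.1) convex_univ (mem_univ _) (mem_univ _)
  have h2 := Convex.norm_image_sub_le_of_norm_deriv_le (f := deriv (deriv (qq P)))
    (C := (n : ℝ) ^ 3)
    (s := univ) (x := π) (y := arccos a) (fun x _ => hd2 x) (fun x _ => by
      rw [Real.norm_eq_abs]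
      exact ((hA2.1 n _ hn hTB).2 x).2.2.2.2) convex_univ (mem_univ _) (mem_univ _)
  rw [hq1, sub_zero, Real.norm_eq_abs, Real.norm_eq_abs, abs_sub_comm,
    abs_of_nonneg (sub_nonneg.2 hαπ)] at h1
  rw [hq2, sub_zero, Real.norm_eq_abs, Real.norm_eq_abs, abs_sub_comm,
    abs_of_nonneg (sub_nonneg.2 hαπ)] at h2
  have h3 : (n : ℝ) ^ 2 * (π - arccos a) ≤ n / 1000 := by
    calc (n : ℝ) ^ 2 * (π - arccos a) ≤ n ^ 2 * (1 / (1000 * n)) :=
        mul_le_mul_of_nonneg_left hlt.le (by positivity)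
      _ = n / 1000 := by field_simp
  have h4 : (n : ℝ) ^ 3 * (π - arccos a) < n ^ 2 / 1000 := by
    calc (n : ℝ) ^ 3 * (π - arccos a) < n ^ 3 * (1 / (1000 * n)) :=
        mul_lt_mul_of_pos_left hlt (by positivity)
      _ = n ^ 2 / 1000 := by field_simp
  have h5 := hND (arccos a) ⟨hab, le_rfl⟩ (h1.trans h3)
  linarith

theorem g3r_dist (hA1 : A1) (hA2 : A2) (hG1u : G1u) : ∃ c : ℝ, 0 < c ∧ c ≤ 1 ∧
    ∀ (n : ℕ) (a b : ℝ) (P : ℝ[X]), 1 ≤ n → -1 ≤ a → a < b → b ≤ 1 → P.natDegree ≤ n → Bdd P →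
      ND n (qq P) (arccos b) (arccos a) → ∀ y : ℝ, y ≤ -1 → P.derivative.eval y = 0 →
      ∀ θ ∈ Icc (arccos b) (arccos a), c * (sin θ + 1 / n) / n ≤ cos θ - y := by
  obtain ⟨c, hc, hG1⟩ := hG1u
  refine ⟨min c (1 / 10 ^ 7), lt_min hc (by norm_num), (min_le_right _ _).trans (by norm_num), ?_⟩
  intro n a b P hn ha hab hb hPn hB hND y hy hr θ hθ
  have hn0 : (0 : ℝ) < n := by exact_mod_cast hn
  have hθ0 : 0 ≤ θ := (arccos_nonneg b).trans hθ.1
  have hθπ : θ ≤ π := hθ.2.trans (arccos_le_pi a)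
  have hs0 : 0 ≤ sin θ := sin_nonneg_of_nonneg_of_le_pi hθ0 hθπ
  have hβα : arccos b ≤ arccos a := arccos_le_arccos hab.le
  rcases eq_or_lt_of_le hy with h1 | h1
  · subst h1
    have h2 := g3r_root hA1 hA2 hn hPn hB hβα hND hr
    have h3 : 1 / (1000 * (n : ℝ)) ≤ π - θ := by linarith [hθ.2]
    have h4 : 1 / (n : ℝ) ≤ 1000 * (π - θ) := by
      rw [div_le_iff₀ (by positivity)] at h3
      rw [div_le_iff₀ hn0]
      linarith
    have h5 : sin θ ≤ π - θ := by
      rw [← sin_pi_sub]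
      exact sin_le (by linarith)
    have h6 : 2 / π ^ 2 * (π - θ) ^ 2 ≤ 1 + cos θ := by
      have := cos_le_one_sub_mul_cos_sq (x := π - θ) (by
        rw [abs_of_nonneg (by linarith)]
        linarith)
      rw [cos_pi_sub] at this
      linarith
    have h7 : 1 / 5 ≤ 2 / π ^ 2 := by
      rw [div_le_div_iff₀ (by norm_num) (by positivity)]
      have := pi_lt_d2
      nlinarith [pi_pos]
    have h8 : 1 / 5 * (π - θ) ^ 2 ≤ 2 / π ^ 2 * (π - θ) ^ 2 :=
      mul_le_mul_of_nonneg_right h7 (sq_nonneg _)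
    have h9 : (sin θ + 1 / n) * (1 / (n : ℝ)) ≤ (1001 * (π - θ)) * (1000 * (π - θ)) :=
      mul_le_mul (by linarith) h4 (by positivity) (by linarith)
    have h10 : min c (1 / 10 ^ 7) * (sin θ + 1 / n) / n ≤
        1 / 10 ^ 7 * ((sin θ + 1 / n) * (1 / (n : ℝ))) := by
      rw [mul_one_div, ← mul_div_assoc]
      apply div_le_div_of_nonneg_right _ hn0.le
      exact mul_le_mul_of_nonneg_right (min_le_right _ _) (by positivity)
    have h11 : 0 ≤ (π - θ) ^ 2 := sq_nonneg _
    norm_num at h9 h10 ⊢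
    nlinarith
  · have h2 := hG1 n a b P hn ha hab hb hPn hB hND (y : ℂ) (by
        have h2 := Polynomial.aeval_algebraMap_apply ℂ y P.derivative
        rw [Complex.coe_algebraMap] at h2
        rw [h2, Polynomial.aeval_def, Polynomial.eval₂_eq_eval_map]
        simp [hr]) (Or.inr (by
        rw [Complex.ofReal_re, abs_of_neg (by linarith)]
        linarith)) θ hθ
    rw [← Complex.ofReal_sub, Complex.norm_real, Real.norm_eq_abs, abs_sub_comm,
      abs_of_nonneg (by linarith [neg_one_le_cos θ])] at h2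
    refine le_trans ?_ h2
    apply div_le_div_of_nonneg_right _ hn0.le
    exact mul_le_mul_of_nonneg_right (min_le_left _ _) (by positivity)

/-! ### geometry of the window -/

/-- elementary facts about the window -/
theorem g3r_win {η R : ℝ} (hη : 0 < η) (hR : 2 + 2 / η ≤ R) {n : ℕ} {a b : ℝ} (hn : 1 ≤ n)
    (hW : Wd n R a b) (hgap : η * (arccos a - arccos b) ≤ arccos b) :
    1 / (n : ℝ) ≤ arccos a - arccos b ∧ 0 < arccos b ∧ arccos b < π ∧
    1 / (n : ℝ) ≤ sin (arccos b) ∧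
    (∀ θ ∈ Icc (arccos b) (arccos a), sin θ ≤ 2 * (1 + 1 / η) * sin (arccos b)) ∧
    b - a ≤ (2 * (1 + 1 / η)) ^ 2 * sin (arccos b) ^ 2 ∧
    (arccos a - arccos b) / n ≤ 5 * (b - a) := by
  obtain ⟨ha, hab, hb, hRn⟩ := hW
  have hn1 : (1 : ℝ) ≤ n := by exact_mod_cast hn
  have hn0 : (0 : ℝ) < n := by linarith
  have hp1 : 3.14 < π := pi_gt_d2
  have hp2 : π < 3.15 := pi_lt_d2
  have hηi : 0 < 1 / η := by positivity
  have hR2 : 2 + 2 * (1 / η) ≤ R := by
    have : 2 / η = 2 * (1 / η) := by ring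
    linarith
  set α := arccos a with hα
  set β := arccos b with hβ
  have hαπ : α ≤ π := arccos_le_pi a
  have hβα : β < α := arccos_lt_arccos ha hab hb
  set d := α - β with hd
  have hd0 : 0 < d := sub_pos.2 hβα
  have hβ0 : 0 < β := lt_of_lt_of_le (mul_pos hη hd0) hgap
  have hβπ : β < π := by linarith
  have hca : cos α = a := cos_arccos ha (by linarith)
  have hcb : cos β = b := cos_arccos (by linarith) hb
  have hdβ : d ≤ 1 / η * β := by
    have h1 := mul_le_mul_of_nonneg_left hgap hηi.le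
    have h2 : 1 / η * (η * d) = d := by field_simp
    linarith
  have hninv : 1 / (n : ℝ) ≤ d / R := by
    rw [div_le_div_iff₀ hn0 (by linarith)]
    linarith
  have hR0 : 0 < R := by linarith
  have hdR : d / R ≤ d / 2 := div_le_div_of_nonneg_left hd0.le (by norm_num) (by linarith)
  have hsβ : 0 < sin β := sin_pos_of_pos_of_lt_pi hβ0 hβπ
  -- the sine of the left end
  have hsin : β ≤ 2 * sin β ∨ (π - β ≤ 2 * sin β ∧ π / 2 ≤ β) := by
    rcases le_total β (π / 2) with h | h
    · left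
      have h1 := mul_le_sin hβ0.le h
      have h2 : 1 / 2 * β ≤ 2 / π * β := by
        apply mul_le_mul_of_nonneg_right _ hβ0.le
        rw [div_le_div_iff₀ (by norm_num) pi_pos]
        linarith
      linarith
    · right
      have h1 := mul_le_sin (x := π - β) (by linarith) (by linarith)
      rw [sin_pi_sub] at h1
      have h2 : 1 / 2 * (π - β) ≤ 2 / π * (π - β) := by
        apply mul_le_mul_of_nonneg_right _ (by linarith)
        rw [div_le_div_iff₀ (by norm_num) pi_pos]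
        linarith
      exact ⟨by linarith, h⟩
  have hdS : d ≤ 2 * (1 + 1 / η) * sin β := by
    rcases hsin with h | ⟨h, -⟩
    · have h1 : 1 / η * β ≤ 1 / η * (2 * sin β) := mul_le_mul_of_nonneg_left h hηi.le
      have h2 : 2 * (1 + 1 / η) * sin β = 2 * sin β + 1 / η * (2 * sin β) := by ring
      rw [h2]
      linarith
    · have h1 : 0 ≤ 1 / η * (2 * sin β) := by positivity
      have h2 : 2 * (1 + 1 / η) * sin β = 2 * sin β + 1 / η * (2 * sin β) := by ring
      rw [h2]
      linarith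
  have hnS : 1 / (n : ℝ) ≤ sin β := by
    have h1 : d / R ≤ sin β := by
      rw [div_le_iff₀ hR0]
      calc d ≤ 2 * (1 + 1 / η) * sin β := hdS
        _ = sin β * (2 + 2 * (1 / η)) := by ring
        _ ≤ sin β * R := mul_le_mul_of_nonneg_left hR2 hsβ.le
    exact hninv.trans h1
  have hsup : ∀ θ ∈ Icc β α, sin θ ≤ 2 * (1 + 1 / η) * sin β := by
    intro θ hθ
    rcases hsin with h | ⟨h, h'⟩
    · have h1 : sin θ ≤ θ := sin_le (by linarith [hθ.1])
      have h2 : θ ≤ β + d := by linarith [hθ.2]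
      have h3 : 1 / η * β ≤ 1 / η * (2 * sin β) := mul_le_mul_of_nonneg_left h hηi.le
      have h4 : 2 * (1 + 1 / η) * sin β = 2 * sin β + 1 / η * (2 * sin β) := by ring
      rw [h4]
      linarith
    · have h1 : sin θ ≤ sin β := by
        rw [← sin_pi_sub θ, ← sin_pi_sub β]
        exact sin_le_sin_of_le_of_le_pi_div_two (by linarith [hθ.2]) (by linarith)
          (by linarith [hθ.1])
      have h2 : 0 ≤ (1 + 2 * (1 / η)) * sin β := by positivity
      have h4 : 2 * (1 + 1 / η) * sin β = sin β + (1 + 2 * (1 / η)) * sin β := by ring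
      rw [h4]
      linarith
  have hh : b - a = 2 * sin (d / 2) * sin ((α + β) / 2) := by
    rw [← hca, ← hcb, cos_sub_cos]
    have h1 : sin ((β - α) / 2) = -sin (d / 2) := by
      rw [← sin_neg]
      congr 1
      rw [hd]
      ring
    rw [h1, show (β + α) / 2 = (α + β) / 2 by ring]
    ring
  have hsd0 : 0 ≤ sin (d / 2) := sin_nonneg_of_nonneg_of_le_pi (by linarith) (by linarith)
  have hsm0 : 0 ≤ sin ((α + β) / 2) :=
    sin_nonneg_of_nonneg_of_le_pi (by linarith) (by linarith)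
  refine ⟨by linarith, hβ0, hβπ, hnS, hsup, ?_, ?_⟩
  · rw [hh]
    have h1 : sin (d / 2) ≤ d / 2 := sin_le (by linarith)
    have h2 := hsup ((α + β) / 2) ⟨by linarith, by linarith⟩
    calc 2 * sin (d / 2) * sin ((α + β) / 2) ≤ d * (2 * (1 + 1 / η) * sin β) :=
          mul_le_mul (by linarith) h2 hsm0 hd0.le
      _ ≤ (2 * (1 + 1 / η) * sin β) * (2 * (1 + 1 / η) * sin β) :=
          mul_le_mul_of_nonneg_right hdS (by positivity)
      _ = (2 * (1 + 1 / η)) ^ 2 * sin β ^ 2 := by ring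
  · have h1 : 2 / π * (d / 2) ≤ sin (d / 2) := mul_le_sin (by linarith) (by linarith)
    have h2 : sin (d / 2) ≤ sin ((α + β) / 2) := by
      rcases le_total ((α + β) / 2) (π / 2) with h | h
      · exact sin_le_sin_of_le_of_le_pi_div_two (by linarith) h (by linarith)
      · rw [← sin_pi_sub ((α + β) / 2)]
        exact sin_le_sin_of_le_of_le_pi_div_two (by linarith) (by linarith) (by linarith)
    have h3 : d / 4 ≤ 2 / π * (d / 2) := by
      have h4 : 1 / 2 ≤ 2 / π := by
        rw [div_le_div_iff₀ (by norm_num) pi_pos]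
        linarith
      have h5 := mul_le_mul_of_nonneg_right h4 (by linarith : 0 ≤ d / 2)
      linarith
    have h4 : 2 * (d / 4) * (d / 4) ≤ 2 * sin (d / 2) * sin ((α + β) / 2) :=
      mul_le_mul (by linarith) (by linarith) (by linarith) (by linarith)
    rw [← hh] at h4
    have h5 : d / n = d * (1 / n) := by ring
    have h6 : d * (1 / (n : ℝ)) ≤ d * (d / 2) :=
      mul_le_mul_of_nonneg_left (hninv.trans hdR) hd0.le
    rw [h5]
    nlinarith

/-! ### the identity -/

/-- the density in the angle is continuous -/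
theorem g3r_s (hA2 : A2) (P : ℝ[X]) :
    Continuous fun θ => sin θ ^ 2 / √(sin θ ^ 2 + deriv (qq P) θ ^ 2) := by
  have h1 : (fun θ => sin θ ^ 2 / √(sin θ ^ 2 + deriv (qq P) θ ^ 2)) =
      fun θ => |sin θ| / √(1 + P.derivative.eval (cos θ) ^ 2) := by
    funext θ
    rw [(hA2.2.2 P θ).1]
    have h2 : sin θ ^ 2 + (-(sin θ * P.derivative.eval (cos θ))) ^ 2 =
        sin θ ^ 2 * (1 + P.derivative.eval (cos θ) ^ 2) := by ring
    rw [h2, Real.sqrt_mul (sq_nonneg _), Real.sqrt_sq_eq_abs]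
    have hs : 0 < √(1 + P.derivative.eval (cos θ) ^ 2) := Real.sqrt_pos.2 (by positivity)
    by_cases h0 : sin θ = 0
    · rw [h0]; simp
    · have h3 : 0 < |sin θ| := abs_pos.2 h0
      rw [div_eq_div_iff (by positivity) hs.ne', ← sq_abs]
      ring
  rw [h1]
  refine Continuous.div (by fun_prop) (by fun_prop) fun θ => ?_
  exact (Real.sqrt_pos.2 (by positivity)).ne'

/-- the numerator of the integrand -/
def g3r_G (a : ℝ) (D : ℝ[X]) (x : ℝ) : ℝ :=
  (((1 - X ^ 2) * (X - C a) : ℝ[X]).derivative.eval x * D.eval x -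
    ((1 - x ^ 2) * (X - C a : ℝ[X]).eval x) * D.derivative.eval x) / D.eval x ^ 2

theorem g3r_G_eq (a b : ℝ) (D : ℝ[X]) (x : ℝ) (hx : D.eval x ≠ 0) :
    D.eval b * g3r_G a D x = (D.eval b / D.eval x) *
      ((-2 * x * (x - a) + (1 - x ^ 2)) -
        (1 - x ^ 2) * (x - a) * (D.derivative.eval x / D.eval x)) := by
  unfold g3r_G
  have e1 : ((1 - X ^ 2) * (X - C a) : ℝ[X]).derivative.eval x =
      -2 * x * (x - a) + (1 - x ^ 2) := by
    simp only [derivative_mul, derivative_sub, derivative_one, derivative_X_pow, derivative_X,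
      derivative_C, eval_add, eval_mul, eval_sub, eval_one, eval_pow, eval_X, eval_C,
      eval_zero]
    push_cast
    ring
  have e2 : (X - C a : ℝ[X]).eval x = x - a := by simp
  rw [e1, e2]
  field_simp

theorem g3r_A {K : ℝ} (hA2 : A2) (hG0 : G0) (hG0u : G0u)
    (hG2 : ∀ (n : ℕ) (a b A : ℝ) (P : ℝ[X]) (w : ℝ → ℝ), 2 ≤ n →
      -1 ≤ a → a < b → b ≤ 1 → arccos b + 1 / n ≤ arccos a → P.natDegree ≤ n → Bdd P →
      ND n (qq P) (arccos b) (arccos a) → ContinuousOn w (Icc (arccos b) (arccos a)) →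
      (∀ θ ∈ Icc (arccos b) (arccos a), 0 ≤ w θ) → 1 ≤ A →
      (∀ x ∈ Icc (arccos b) (arccos a), ∀ y ∈ Icc (arccos b) (arccos a), |x - y| ≤ 1 / n →
        w x ≤ A * w y) →
      (∫ θ in (arccos b)..(arccos a), w θ * (sin θ ^ 2 / √(sin θ ^ 2 + deriv (qq P) θ ^ 2))) ≤
        K * A * (1 + Real.log n) / n *
          ∫ θ in (arccos b)..(arccos a), w θ * (sin θ + 1 / n) ^ 2)
    {n : ℕ} {a b A : ℝ} {P D : ℝ[X]} {W : ℝ → ℝ} (hn : 2 ≤ n) (ha : -1 ≤ a) (hab : a < b)
    (hb : b ≤ 1) (hlen : arccos b + 1 / n ≤ arccos a) (hE : Ext n a b P)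
    (hND : ND n (qq P) (arccos b) (arccos a)) (hDd : D ∣ P.derivative)
    (hD0 : ∀ x ∈ Ioo (-1 : ℝ) 1, D.eval x ≠ 0) (hD1 : ∀ x ∈ Icc a b, D.eval x ≠ 0)
    (hdeg : P.natDegree + 2 ≤ D.natDegree + n) (hWc : ContinuousOn W (Icc a b))
    (hW0 : ∀ x ∈ Icc a b, 0 ≤ W x) (hA : 1 ≤ A)
    (hWA : ∀ x ∈ Icc (arccos b) (arccos a), ∀ y ∈ Icc (arccos b) (arccos a), |x - y| ≤ 1 / n →
      W (cos x) ≤ A * W (cos y))
    (hWG : ∀ x ∈ Icc a b, D.eval b * g3r_G a D x ≤ W x) :
    (1 - b ^ 2) * (b - a) ≤ K * A * (1 + Real.log n) / n *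
      ∫ θ in (arccos b)..(arccos a), W (cos θ) * (sin θ + 1 / n) ^ 2 := by
  obtain ⟨R, hR⟩ := hDd
  have hPn : P.natDegree ≤ n := natDegree_le_of_degree_le hE.deg
  have hid := hG0 n a b P D R (X - C a) (by omega) ha hab hb hE hR (by
    intro x hx hx1
    have h1 := Pool.Agent.Helper40.AS.contact_int hE.bdd hx hx1
    rw [hR, eval_mul] at h1
    exact (mul_eq_zero.1 h1).resolve_left (hD0 x hx)) (by
    rw [natDegree_X_sub_C]
    omega) hD1
  have hsq : ∀ x : ℝ, 0 < √(1 + P.derivative.eval x ^ 2) := fun x =>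
    Real.sqrt_pos.2 (by positivity)
  have hcs : Continuous fun x => √(1 + P.derivative.eval x ^ 2) := by fun_prop
  have hbb : b ∈ Icc a b := ⟨hab.le, le_rfl⟩
  have hid2 : ((1 - b ^ 2) * (b - a)) * √(1 + P.derivative.eval b ^ 2) =
      ∫ x in a..b, (D.eval b * g3r_G a D x) / √(1 + P.derivative.eval x ^ 2) := by
    have h1 : (∫ x in a..b, (D.eval b * g3r_G a D x) / √(1 + P.derivative.eval x ^ 2)) =
        D.eval b * ∫ x in a..b, g3r_G a D x / √(1 + P.derivative.eval x ^ 2) := by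
      rw [← intervalIntegral.integral_const_mul]
      congr 1
      funext x
      ring
    have h2 : (∫ x in a..b, g3r_G a D x / √(1 + P.derivative.eval x ^ 2)) =
        ∫ x in a..b, ((((1 - X ^ 2) * (X - C a) : ℝ[X]).derivative.eval x * D.eval x -
          ((1 - x ^ 2) * (X - C a : ℝ[X]).eval x) * D.derivative.eval x) / D.eval x ^ 2) /
            √(1 + P.derivative.eval x ^ 2) := rfl
    rw [h1, h2, ← hid]
    have hDb := hD1 b hbb
    simp only [eval_sub, eval_X, eval_C, sub_self, mul_zero, zero_div, zero_mul, sub_zero]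
    field_simp
  have hm1 : 0 ≤ (1 - b ^ 2) * (b - a) := by
    apply mul_nonneg _ (by linarith)
    nlinarith
  have h1 : (1 - b ^ 2) * (b - a) ≤
      ((1 - b ^ 2) * (b - a)) * √(1 + P.derivative.eval b ^ 2) := by
    apply le_mul_of_one_le_right hm1
    rw [Real.one_le_sqrt]
    nlinarith [sq_nonneg (P.derivative.eval b)]
  have hGc : ContinuousOn (fun x => D.eval b * g3r_G a D x) (Icc a b) := by
    unfold g3r_G
    refine ContinuousOn.mul continuousOn_const (ContinuousOn.div ?_ ?_ ?_)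
    · fun_prop
    · fun_prop
    · intro x hx
      exact pow_ne_zero _ (hD1 x hx)
  have h2 : (∫ x in a..b, (D.eval b * g3r_G a D x) / √(1 + P.derivative.eval x ^ 2)) ≤
      ∫ x in a..b, W x / √(1 + P.derivative.eval x ^ 2) := by
    refine integral_mono_on hab.le ?_ ?_ ?_
    · refine ContinuousOn.intervalIntegrable ?_
      rw [uIcc_of_le hab.le]
      exact hGc.div hcs.continuousOn fun x _ => (hsq x).ne'
    · refine ContinuousOn.intervalIntegrable ?_
      rw [uIcc_of_le hab.le]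
      exact hWc.div hcs.continuousOn fun x _ => (hsq x).ne'
    · intro x hx
      exact div_le_div_of_nonneg_right (hWG x hx) (hsq x).le
  have h3 := hG0u a b P W ha hab.le hb hWc
  have hmem : ∀ θ ∈ Icc (arccos b) (arccos a), cos θ ∈ Icc a b := by
    intro θ hθ
    have hθ0 : 0 ≤ θ := (arccos_nonneg b).trans hθ.1
    have hθπ : θ ≤ π := hθ.2.trans (arccos_le_pi a)
    constructor
    · have := cos_le_cos_of_nonneg_of_le_pi hθ0 (arccos_le_pi a) hθ.2
      rwa [cos_arccos ha (by linarith)] at this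
    · have := cos_le_cos_of_nonneg_of_le_pi (arccos_nonneg b) hθπ hθ.1
      rwa [cos_arccos (by linarith) hb] at this
  have h4 := hG2 n a b A P (fun θ => W (cos θ)) hn ha hab hb hlen hPn hE.bdd hND
    (hWc.comp continuous_cos.continuousOn (fun θ hθ => hmem θ hθ))
    (fun θ hθ => hW0 _ (hmem θ hθ)) hA hWA
  rw [← hid2] at h2
  rw [h3] at h2
  exact (h1.trans h2).trans h4

/-- elementary facts about the factors -/
theorem g3r_fac {a b x y : ℝ} (ha : -1 ≤ a) (hab : a < b) (hb : b < 1) (hx : x ∈ Icc a b)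
    (hy : 1 ≤ y ∨ (y ≤ -1 ∧ y < a)) :
    x - y ≠ 0 ∧ 0 < (b - y) / (x - y) ∧
      -((1 - x ^ 2) * (x - a) * (1 / (x - y))) ≤ 2 * (x - a) := by
  obtain ⟨hx1, hx2⟩ := hx
  have h1x : 0 < 1 - x := by linarith
  have h1x' : 0 ≤ 1 + x := by linarith
  have hxa : 0 ≤ x - a := by linarith
  rcases hy with h | ⟨h, h'⟩
  · have h1 : x - y < 0 := by linarith
    have h2 : b - y < 0 := by linarith
    refine ⟨h1.ne, div_pos_of_neg_of_neg h2 h1, ?_⟩
    have h3 : -((1 - x ^ 2) * (x - a) * (1 / (x - y))) =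
        (x - a) * ((1 + x) * ((1 - x) / (y - x))) := by
      have h4 : x - y ≠ 0 := h1.ne
      have h5 : y - x ≠ 0 := by
        intro h6
        apply h4
        linarith
      have h6 : 1 / (x - y) = -(1 / (y - x)) := by
        rw [← neg_sub y x, one_div, one_div, inv_neg]
      rw [h6]
      ring
    rw [h3, mul_comm 2 (x - a)]
    apply mul_le_mul_of_nonneg_left _ hxa
    have h4 : (1 - x) / (y - x) ≤ 1 := by
      rw [div_le_one (by linarith)]
      linarith
    calc (1 + x) * ((1 - x) / (y - x)) ≤ (1 + x) * 1 := mul_le_mul_of_nonneg_left h4 h1x'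
      _ ≤ 2 := by linarith
  · have h1 : 0 < x - y := by linarith
    refine ⟨h1.ne', div_pos (by linarith) h1, ?_⟩
    have h2 : 0 ≤ (1 - x ^ 2) * (x - a) * (1 / (x - y)) := by
      have h3 : 0 ≤ 1 - x ^ 2 := by nlinarith
      positivity
    linarith

/-- harmless factors -/
theorem g3r_H {a b x y : ℝ} (hab : a < b) (hb : b < 1) (hx : x ∈ Icc a b)
    (hy : 1 ≤ y ∨ (y ≤ -1 ∧ b - a ≤ a - y)) : (b - y) / (x - y) ≤ 2 := by
  obtain ⟨hx1, hx2⟩ := hx
  rcases hy with h | ⟨h, h'⟩
  · have h3 : (b - y) / (x - y) = (y - b) / (y - x) := by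
      rw [← neg_div_neg_eq]
      congr 1 <;> ring
    rw [h3, div_le_iff₀ (by linarith)]
    linarith
  · rw [div_le_iff₀ (by linarith)]
    linarith

/-- other factors -/
theorem g3r_B {a b x y : ℝ} (ha : -1 ≤ a) (hab : a < b) (hb : b < 1) (hx : x ∈ Icc a b)
    (hy : y ≤ -1) (hya : y < a) (hy2 : a - y ≤ b - a) :
    (b - y) / (x - y) * (6 * (x - a) + (1 - x ^ 2)) ≤ 16 * (b - a) := by
  obtain ⟨hx1, hx2⟩ := hx
  have h1 : 0 < x - y := by linarith
  have h2 : 6 * (x - a) + (1 - x ^ 2) ≤ 8 * (x - y) := by nlinarith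
  have h3 : 0 ≤ (b - y) / (x - y) := div_nonneg (by linarith) h1.le
  calc (b - y) / (x - y) * (6 * (x - a) + (1 - x ^ 2))
      ≤ (b - y) / (x - y) * (8 * (x - y)) := mul_le_mul_of_nonneg_left h2 h3
    _ = 8 * (b - y) := by field_simp
    _ ≤ 16 * (b - a) := by linarith

/-! ### the weighted integrals -/

theorem g3r_I1 {a b C w0 : ℝ} {n : ℕ} (ha : -1 ≤ a) (hab : a < b) (hb : b ≤ 1)
    (hw0 : 0 ≤ w0)
    (hσ : ∀ θ ∈ Icc (arccos b) (arccos a), 0 ≤ sin θ + 1 / (n : ℝ) ∧ sin θ + 1 / (n : ℝ) ≤ C)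
    (h5 : (arccos a - arccos b) / n ≤ 5 * (b - a)) (hC : 0 ≤ C) :
    (∫ θ in (arccos b)..(arccos a), w0 * (sin θ + 1 / n) ^ 2) ≤ w0 * (C * (6 * (b - a))) := by
  have hβα : arccos b ≤ arccos a := arccos_le_arccos hab.le
  rw [intervalIntegral.integral_const_mul]
  apply mul_le_mul_of_nonneg_left _ hw0
  have h1 : (∫ θ in (arccos b)..(arccos a), (sin θ + 1 / (n : ℝ)) ^ 2) ≤
      ∫ θ in (arccos b)..(arccos a), C * (sin θ + 1 / (n : ℝ)) := by
    refine integral_mono_on hβα ?_ ?_ ?_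
    · exact Continuous.intervalIntegrable (by fun_prop) _ _
    · exact Continuous.intervalIntegrable (by fun_prop) _ _
    · intro θ hθ
      obtain ⟨h2, h3⟩ := hσ θ hθ
      rw [sq]
      exact mul_le_mul_of_nonneg_right h3 h2
  refine h1.trans ?_
  rw [intervalIntegral.integral_const_mul]
  apply mul_le_mul_of_nonneg_left _ hC
  rw [intervalIntegral.integral_add (Continuous.intervalIntegrable (by fun_prop) _ _)
    (Continuous.intervalIntegrable (by fun_prop) _ _), integral_sin, cos_arccos (by linarith) hb,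
    cos_arccos ha (by linarith), intervalIntegral.integral_const, smul_eq_mul]
  have h2 : (arccos a - arccos b) * (1 / (n : ℝ)) = (arccos a - arccos b) / n := by ring
  rw [h2]
  linarith

theorem g3r_I2 {a b M : ℝ} {n : ℕ} {W : ℝ → ℝ} (hab : a < b)
    (hc : ContinuousOn (fun θ => W (cos θ)) (Icc (arccos b) (arccos a)))
    (hM : ∀ θ ∈ Icc (arccos b) (arccos a), W (cos θ) * (sin θ + 1 / (n : ℝ)) ^ 2 ≤ M)
    (hM0 : 0 ≤ M) :
    (∫ θ in (arccos b)..(arccos a), W (cos θ) * (sin θ + 1 / n) ^ 2) ≤ M * 4 := by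
  have hβα : arccos b ≤ arccos a := arccos_le_arccos hab.le
  have h1 : (∫ θ in (arccos b)..(arccos a), W (cos θ) * (sin θ + 1 / (n : ℝ)) ^ 2) ≤
      ∫ _ in (arccos b)..(arccos a), M := by
    refine integral_mono_on hβα ?_ ?_ hM
    · refine ContinuousOn.intervalIntegrable ?_
      rw [uIcc_of_le hβα]
      exact hc.mul (by fun_prop)
    · exact Continuous.intervalIntegrable (by fun_prop) _ _
  refine h1.trans ?_
  rw [intervalIntegral.integral_const, smul_eq_mul, mul_comm]
  apply mul_le_mul_of_nonneg_left _ hM0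
  have h2 : arccos a ≤ π := arccos_le_pi a
  have h3 : 0 ≤ arccos b := arccos_nonneg b
  have h4 := pi_lt_four
  linarith

/-- the cosine varies slowly -/
theorem g3r_cos {θ θ' e : ℝ} (h0 : 0 ≤ θ) (hπ : θ ≤ π) (h : |θ - θ'| ≤ e) :
    cos θ' - cos θ ≤ e * (sin θ + e) := by
  have he : 0 ≤ e := (abs_nonneg _).trans h
  have hs : 0 ≤ sin θ := sin_nonneg_of_nonneg_of_le_pi h0 hπ
  rw [cos_sub_cos]
  have h1 : |sin ((θ' - θ) / 2)| ≤ e / 2 := by
    have h2 : |sin ((θ' - θ) / 2)| ≤ |(θ' - θ) / 2| := abs_sin_le_abs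
    rw [abs_div, abs_of_pos (by norm_num : (0 : ℝ) < 2), abs_sub_comm] at h2
    linarith
  have h3 : |sin ((θ' + θ) / 2)| ≤ sin θ + e := by
    have h4 : sin ((θ' + θ) / 2) = sin θ * cos ((θ' - θ) / 2) + cos θ * sin ((θ' - θ) / 2) := by
      rw [← sin_add]
      congr 1
      ring
    rw [h4]
    have h5 : |sin θ * cos ((θ' - θ) / 2)| ≤ sin θ := by
      rw [abs_mul, abs_of_nonneg hs]
      calc sin θ * |cos ((θ' - θ) / 2)| ≤ sin θ * 1 :=
            mul_le_mul_of_nonneg_left (abs_cos_le_one _) hs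
        _ = sin θ := mul_one _
    have h6 : |cos θ * sin ((θ' - θ) / 2)| ≤ e / 2 := by
      rw [abs_mul]
      calc |cos θ| * |sin ((θ' - θ) / 2)| ≤ 1 * (e / 2) :=
            mul_le_mul (abs_cos_le_one _) h1 (abs_nonneg _) zero_le_one
        _ = e / 2 := one_mul _
    have h7 := abs_add_le (sin θ * cos ((θ' - θ) / 2)) (cos θ * sin ((θ' - θ) / 2))
    linarith
  have h4 : -2 * sin ((θ' + θ) / 2) * sin ((θ' - θ) / 2) ≤
      2 * (|sin ((θ' + θ) / 2)| * |sin ((θ' - θ) / 2)|) := by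
    rw [← abs_mul]
    have := neg_abs_le (sin ((θ' + θ) / 2) * sin ((θ' - θ) / 2))
    linarith
  have h5 : |sin ((θ' + θ) / 2)| * |sin ((θ' - θ) / 2)| ≤ (sin θ + e) * (e / 2) :=
    mul_le_mul h3 h1 (abs_nonneg _) (by linarith)
  linarith

theorem g3r_key (hA1 : A1) (hA2 : A2) (hG0 : G0) (hG0u : G0u) (hG1u : G1u) (hG2av : G2av)
    (η : ℝ) (hη : 0 < η) : ∃ n0 : ℕ, 2 ≤ n0 ∧ ∀ n ≥ n0, ∀ (a b : ℝ) (P D : ℝ[X]),
      Wd n (2 + 2 / η) a b → η * (arccos a - arccos b) ≤ arccos b → Ext n a b P →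
      ND n (qq P) (arccos b) (arccos a) → D ∣ P.derivative →
      (∀ x ∈ Ioo (-1 : ℝ) 1, D.eval x ≠ 0) → (∀ x ∈ Icc a b, D.eval x ≠ 0) →
      P.natDegree + 2 ≤ D.natDegree + n →
      ((∀ x ∈ Icc a b, D.eval b * g3r_G a D x ≤ 4 * (6 * (x - a) + (1 - x ^ 2))) ∨
        (∀ x ∈ Icc a b, D.eval b * g3r_G a D x ≤ 32 * (b - a)) ∨
        (∃ y, y ≤ -1 ∧ P.derivative.eval y = 0 ∧ ∀ x ∈ Icc a b,
          D.eval b * g3r_G a D x ≤ 32 * (b - a) ^ 2 / (x - y))) → False := by
  obtain ⟨c, hc, hc1, hdist⟩ := g3r_dist hA1 hA2 hG1u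
  obtain ⟨K, hK, hG2⟩ := hG2av
  set C : ℝ := 2 * (1 + 1 / η) with hC
  have hηi : 0 < 1 / η := by positivity
  have hC0 : 0 < C := by positivity
  have hci : 0 < 1 / c := by positivity
  set Q1 : ℝ := K * (168 * C ^ 2 * (C + 1)) with hQ1
  set Q2 : ℝ := K * (128 * (C + 1) ^ 2) with hQ2
  set Q3 : ℝ := K * (1 + 1 / c) * (128 * (4 + 2 * (1 / c)) * C ^ 2) with hQ3
  have hQ1p : 0 < Q1 := by positivity
  have hQ2p : 0 < Q2 := by positivity
  have hQ3p : 0 < Q3 := by positivity
  obtain ⟨n2, hn2⟩ := Filter.eventually_atTop.1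
    ((g3r_tend (Q1 + Q2 + Q3)).eventually (gt_mem_nhds (show (0 : ℝ) < 1 by norm_num)))
  refine ⟨max 2 n2, le_max_left _ _, ?_⟩
  intro n hn a b P D hWd hgap hE hND hDd hD0 hD1 hdeg hcase
  have hn2' : 2 ≤ n := le_trans (le_max_left _ _) hn
  have hsmall := hn2 n (le_trans (le_max_right _ _) hn)
  have hn1' : 1 ≤ n := by omega
  have hnR : (1 : ℝ) ≤ n := by exact_mod_cast hn1'
  have hn0 : (0 : ℝ) < n := by linarith
  obtain ⟨hlen, hβ0, hβπ, hnS, hsup, hhS, h5⟩ := g3r_win hη le_rfl hn1' hWd hgap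
  obtain ⟨ha, hab, hb, -⟩ := hWd
  have hPn : P.natDegree ≤ n := natDegree_le_of_degree_le hE.deg
  have hS2 : sin (arccos b) ^ 2 = 1 - b ^ 2 := by
    rw [sin_sq, cos_arccos (by linarith) hb]
  set S := sin (arccos b) with hS
  have hS0 : 0 < S := sin_pos_of_pos_of_lt_pi hβ0 hβπ
  have hS1 : S ≤ 1 := sin_le_one _
  have hh0 : 0 < b - a := sub_pos.2 hab
  have hlogn : 0 ≤ Real.log n := Real.log_nonneg hnR
  set lam := (1 + Real.log n) / (n : ℝ) with hlam
  have hlam0 : 0 < lam := by positivity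
  have hsmall2 : (Q1 + Q2 + Q3) * lam < 1 := by
    rw [hlam, ← mul_div_assoc]
    exact hsmall
  have hσ : ∀ θ ∈ Icc (arccos b) (arccos a), 0 ≤ sin θ + 1 / (n : ℝ) ∧
      sin θ + 1 / (n : ℝ) ≤ (C + 1) * S := by
    intro θ hθ
    have hθ0 : 0 ≤ θ := (arccos_nonneg b).trans hθ.1
    have hθπ : θ ≤ π := hθ.2.trans (arccos_le_pi a)
    have hs0 : 0 ≤ sin θ := sin_nonneg_of_nonneg_of_le_pi hθ0 hθπ
    refine ⟨by positivity, ?_⟩
    have := hsup θ hθ
    rw [add_mul, one_mul]
    linarith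
  have hx2 : ∀ x ∈ Icc a b, 1 - x ^ 2 ≤ C ^ 2 * S ^ 2 := by
    intro x hx
    have h1 : cos (arccos x) = x := cos_arccos (by linarith [hx.1]) (by linarith [hx.2])
    have h2 := hsup (arccos x) ⟨arccos_le_arccos hx.2, arccos_le_arccos hx.1⟩
    have h3 : 0 ≤ sin (arccos x) :=
      sin_nonneg_of_nonneg_of_le_pi (arccos_nonneg x) (arccos_le_pi x)
    have h4 := pow_le_pow_left₀ h3 h2 2
    rw [sin_sq, h1, mul_pow] at h4
    exact h4
  have hA := fun (A : ℝ) (W : ℝ → ℝ) => g3r_A (A := A) (W := W) hA2 hG0 hG0u hG2 hn2' ha hab hb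
    (by linarith) hE hND hDd hD0 hD1 hdeg
  rcases hcase with hcase | hcase | ⟨y, hy1, hyr, hcase⟩
  · set w0 := 28 * C ^ 2 * S ^ 2 with hw0
    have hw0p : 0 < w0 := by positivity
    have h1 := hA 1 (fun _ => w0) continuousOn_const (fun _ _ => hw0p.le) le_rfl
      (fun _ _ _ _ _ => by linarith) (fun x hx => by
        refine (hcase x hx).trans ?_
        have h2 := hx2 x hx
        have h3 : x - a ≤ C ^ 2 * S ^ 2 := by linarith [hx.2]
        rw [hw0]
        linarith)
    have h2 := g3r_I1 (n := n) (C := C + 1) (w0 := w0) ha hab hb hw0p.le (fun θ hθ => by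
      obtain ⟨h3, h4⟩ := hσ θ hθ
      refine ⟨h3, h4.trans ?_⟩
      calc (C + 1) * S ≤ (C + 1) * 1 := mul_le_mul_of_nonneg_left hS1 (by linarith)
        _ = C + 1 := mul_one _) h5 (by linarith)
    have h3 : K * 1 * (1 + Real.log n) / n = K * lam := by
      rw [hlam]
      ring
    rw [h3] at h1
    have h4 := h1.trans (mul_le_mul_of_nonneg_left h2 (by positivity : 0 ≤ K * lam))
    rw [← hS2] at h4
    have h6 : K * lam * (w0 * ((C + 1) * (6 * (b - a)))) = (Q1 * lam) * (S ^ 2 * (b - a)) := by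
      rw [hw0, hQ1]
      ring
    rw [h6] at h4
    have h7 : 0 < S ^ 2 * (b - a) := by positivity
    have h8 : 1 ≤ Q1 * lam := by
      by_contra hlt
      push Not at hlt
      have := mul_lt_mul_of_pos_right hlt h7
      linarith
    have h9 : 0 < (Q2 + Q3) * lam := by positivity
    nlinarith
  · set w0 := 32 * (b - a) with hw0
    have hw0p : 0 < w0 := by positivity
    have h1 := hA 1 (fun _ => w0) continuousOn_const (fun _ _ => hw0p.le) le_rfl
      (fun _ _ _ _ _ => by linarith) hcase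
    have h2 := g3r_I2 (n := n) (M := w0 * ((C + 1) * S) ^ 2) (W := fun _ => w0) hab
      continuousOn_const (fun θ hθ => by
        obtain ⟨h3, h4⟩ := hσ θ hθ
        exact mul_le_mul_of_nonneg_left (pow_le_pow_left₀ h3 h4 2) hw0p.le) (by positivity)
    have h3 : K * 1 * (1 + Real.log n) / n = K * lam := by
      rw [hlam]
      ring
    rw [h3] at h1
    have h4 := h1.trans (mul_le_mul_of_nonneg_left h2 (by positivity : 0 ≤ K * lam))
    rw [← hS2] at h4
    have h6 : K * lam * (w0 * ((C + 1) * S) ^ 2 * 4) = (Q2 * lam) * (S ^ 2 * (b - a)) := by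
      rw [hw0, hQ2]
      ring
    rw [h6] at h4
    have h7 : 0 < S ^ 2 * (b - a) := by positivity
    have h8 : 1 ≤ Q2 * lam := by
      by_contra hlt
      push Not at hlt
      have := mul_lt_mul_of_pos_right hlt h7
      linarith
    have h9 : 0 < (Q1 + Q3) * lam := by positivity
    nlinarith
  · have hd := hdist n a b P hn1' ha hab hb hPn hE.bdd hND y hy1 hyr
    have hpos : ∀ θ ∈ Icc (arccos b) (arccos a), 0 < cos θ - y := by
      intro θ hθ
      have h1 := hd θ hθ
      have h2 := (hσ θ hθ).1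
      have hθ0 : 0 ≤ θ := (arccos_nonneg b).trans hθ.1
      have hθπ : θ ≤ π := hθ.2.trans (arccos_le_pi a)
      have hs0 : 0 ≤ sin θ := sin_nonneg_of_nonneg_of_le_pi hθ0 hθπ
      have h3 : 0 < c * (sin θ + 1 / n) / (n : ℝ) := by positivity
      linarith
    have hposx : ∀ x ∈ Icc a b, 0 < x - y := by
      intro x hx
      have h1 : cos (arccos x) = x := cos_arccos (by linarith [hx.1]) (by linarith [hx.2])
      have h2 := hpos (arccos x) ⟨arccos_le_arccos hx.2, arccos_le_arccos hx.1⟩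
      rwa [h1] at h2
    have hmem : ∀ θ ∈ Icc (arccos b) (arccos a), cos θ ∈ Icc a b := by
      intro θ hθ
      have hθ0 : 0 ≤ θ := (arccos_nonneg b).trans hθ.1
      have hθπ : θ ≤ π := hθ.2.trans (arccos_le_pi a)
      constructor
      · have := cos_le_cos_of_nonneg_of_le_pi hθ0 (arccos_le_pi a) hθ.2
        rwa [cos_arccos ha (by linarith)] at this
      · have := cos_le_cos_of_nonneg_of_le_pi (arccos_nonneg b) hθπ hθ.1
        rwa [cos_arccos (by linarith) hb] at this
    have hWc : ContinuousOn (fun x => 32 * (b - a) ^ 2 / (x - y)) (Icc a b) := by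
      refine ContinuousOn.div continuousOn_const (by fun_prop) ?_
      intro x hx
      exact (hposx x hx).ne'
    have h1 := hA (1 + 1 / c) (fun x => 32 * (b - a) ^ 2 / (x - y)) hWc
      (fun x hx => div_nonneg (by positivity) (hposx x hx).le) (by linarith)
      (fun s hs t ht hst => by
        have hs1 := hpos s hs
        have ht1 := hpos t ht
        have hs0 : 0 ≤ s := (arccos_nonneg b).trans hs.1
        have hsπ : s ≤ π := hs.2.trans (arccos_le_pi a)
        have h2 := g3r_cos hs0 hsπ hst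
        have h3 := hd s hs
        have h4 : 1 / (n : ℝ) * (sin s + 1 / n) ≤ 1 / c * (cos s - y) := by
          have h6 := mul_le_mul_of_nonneg_left h3 hci.le
          have h7 : 1 / c * (c * (sin s + 1 / n) / n) = 1 / (n : ℝ) * (sin s + 1 / n) := by
            field_simp
          rw [h7] at h6
          exact h6
        have h6 : cos t - y ≤ (1 + 1 / c) * (cos s - y) := by
          rw [add_mul, one_mul]
          linarith
        show 32 * (b - a) ^ 2 / (cos s - y) ≤ (1 + 1 / c) * (32 * (b - a) ^ 2 / (cos t - y))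
        rw [← mul_div_assoc, div_le_div_iff₀ hs1 ht1]
        have h7 := mul_le_mul_of_nonneg_left h6 (by positivity : 0 ≤ 32 * (b - a) ^ 2)
        linarith) hcase
    have h2 := g3r_I2 (n := n) (M := 32 * (b - a) ^ 2 * (4 + 2 * (1 / c)))
      (W := fun x => 32 * (b - a) ^ 2 / (x - y)) hab
      (hWc.comp continuous_cos.continuousOn (fun θ hθ => hmem θ hθ)) (fun θ hθ => by
        have hp := hpos θ hθ
        have h3 := hd θ hθ
        have hθ0 : 0 ≤ θ := (arccos_nonneg b).trans hθ.1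
        have hθπ : θ ≤ π := hθ.2.trans (arccos_le_pi a)
        have hs0 : 0 ≤ sin θ := sin_nonneg_of_nonneg_of_le_pi hθ0 hθπ
        have h4 : (sin θ + 1 / (n : ℝ)) ^ 2 ≤ (4 + 2 * (1 / c)) * (cos θ - y) := by
          have e1 : (sin θ + 1 / (n : ℝ)) ^ 2 ≤ 2 * sin θ ^ 2 + 2 * (1 / (n : ℝ)) ^ 2 := by
            nlinarith [sq_nonneg (sin θ - 1 / (n : ℝ))]
          have e2 : sin θ ^ 2 ≤ 2 * (cos θ - y) := by
            rw [sin_sq]
            have e3 := neg_one_le_cos θ
            have e4 := cos_le_one θ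
            nlinarith
          have e5 : (1 / (n : ℝ)) ^ 2 ≤ 1 / c * (cos θ - y) := by
            have h6 := mul_le_mul_of_nonneg_left h3 hci.le
            have h7 : 1 / c * (c * (sin θ + 1 / n) / n) = 1 / (n : ℝ) * (sin θ + 1 / n) := by
              field_simp
            rw [h7] at h6
            have h8 : 0 ≤ 1 / (n : ℝ) * sin θ := by positivity
            nlinarith
          linarith
        show 32 * (b - a) ^ 2 / (cos θ - y) * (sin θ + 1 / (n : ℝ)) ^ 2 ≤ _
        rw [div_mul_eq_mul_div, div_le_iff₀ hp]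
        have h6 := mul_le_mul_of_nonneg_left h4 (by positivity : 0 ≤ 32 * (b - a) ^ 2)
        linarith) (by positivity)
    have h3 : K * (1 + 1 / c) * (1 + Real.log n) / n = K * (1 + 1 / c) * lam := by
      rw [hlam]
      ring
    rw [h3] at h1
    have h4 := h1.trans (mul_le_mul_of_nonneg_left h2 (by positivity : 0 ≤ K * (1 + 1 / c) * lam))
    rw [← hS2] at h4
    have h6 : K * (1 + 1 / c) * lam * (32 * (b - a) ^ 2 * (4 + 2 * (1 / c)) * 4) =
        (K * (1 + 1 / c) * (128 * (4 + 2 * (1 / c))) * lam) * (b - a) * (b - a) := by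
      ring
    rw [h6] at h4
    have h7 : S ^ 2 ≤ (K * (1 + 1 / c) * (128 * (4 + 2 * (1 / c))) * lam) * (b - a) :=
      le_of_mul_le_mul_right h4 hh0
    have h8 : (K * (1 + 1 / c) * (128 * (4 + 2 * (1 / c))) * lam) * (b - a) ≤
        (K * (1 + 1 / c) * (128 * (4 + 2 * (1 / c))) * lam) * (C ^ 2 * S ^ 2) :=
      mul_le_mul_of_nonneg_left hhS (by positivity)
    have h9 : (K * (1 + 1 / c) * (128 * (4 + 2 * (1 / c))) * lam) * (C ^ 2 * S ^ 2) =
        (Q3 * lam) * S ^ 2 := by
      rw [hQ3]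
      ring
    have h10 : 0 < S ^ 2 := by positivity
    have h11 : 1 ≤ Q3 * lam := by
      by_contra hlt
      push Not at hlt
      have := mul_lt_mul_of_pos_right hlt h10
      linarith
    have h12 : 0 < (Q1 + Q2) * lam := by positivity
    nlinarith

/-! ### the three cases -/

theorem g3r_two {a b x y1 y2 : ℝ} (ha : -1 ≤ a) (hab : a < b) (hb : b < 1) (hx : x ∈ Icc a b)
    (hy1 : 1 ≤ y1 ∨ (y1 ≤ -1 ∧ y1 < a)) (hy2 : 1 ≤ y2 ∨ (y2 ≤ -1 ∧ y2 < a)) :
    ((X - C y1) * (X - C y2) : ℝ[X]).eval b * g3r_G a ((X - C y1) * (X - C y2)) x ≤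
      (b - y1) / (x - y1) * ((b - y2) / (x - y2) * (6 * (x - a) + (1 - x ^ 2))) := by
  obtain ⟨a1, a2, a3⟩ := g3r_fac ha hab hb hx hy1
  obtain ⟨b1, b2, b3⟩ := g3r_fac ha hab hb hx hy2
  have hDx : ((X - C y1) * (X - C y2) : ℝ[X]).eval x ≠ 0 := by
    simp only [eval_mul, eval_sub, eval_X, eval_C]
    exact mul_ne_zero a1 b1
  rw [g3r_G_eq a b _ x hDx]
  simp only [derivative_mul, derivative_sub, derivative_X, derivative_C, eval_add,
    eval_mul, eval_sub, eval_X, eval_C, eval_one, eval_zero, sub_zero, one_mul, mul_one]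
  have hq : (b - y1) * (b - y2) / ((x - y1) * (x - y2)) =
      (b - y1) / (x - y1) * ((b - y2) / (x - y2)) := by
    field_simp
  have h1 : (x - y2 + (x - y1)) / ((x - y1) * (x - y2)) = 1 / (x - y1) + 1 / (x - y2) := by
    field_simp
  rw [hq, h1, mul_assoc]
  apply mul_le_mul_of_nonneg_left _ a2.le
  apply mul_le_mul_of_nonneg_left _ b2.le
  have hxa : 0 ≤ x - a := by linarith [hx.1]
  have h2 : -2 * x * (x - a) ≤ 2 * (x - a) := by nlinarith [hx.1]
  have h3 : (1 - x ^ 2) * (x - a) * (1 / (x - y1) + 1 / (x - y2)) =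
      (1 - x ^ 2) * (x - a) * (1 / (x - y1)) + (1 - x ^ 2) * (x - a) * (1 / (x - y2)) := by ring
  rw [h3]
  linarith

theorem g3r_one {a b x y1 : ℝ} (ha : -1 ≤ a) (hab : a < b) (hb : b < 1) (hx : x ∈ Icc a b)
    (hy1 : 1 ≤ y1 ∨ (y1 ≤ -1 ∧ y1 < a)) :
    (X - C y1 : ℝ[X]).eval b * g3r_G a (X - C y1) x ≤
      (b - y1) / (x - y1) * (6 * (x - a) + (1 - x ^ 2)) := by
  obtain ⟨a1, a2, a3⟩ := g3r_fac ha hab hb hx hy1
  have hDx : (X - C y1 : ℝ[X]).eval x ≠ 0 := by
    simp only [eval_sub, eval_X, eval_C]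
    exact a1
  rw [g3r_G_eq a b _ x hDx]
  simp only [derivative_sub, derivative_X, derivative_C,
    eval_sub, eval_X, eval_C, eval_one, sub_zero]
  apply mul_le_mul_of_nonneg_left _ a2.le
  have hxa : 0 ≤ x - a := by linarith [hx.1]
  have h2 : -2 * x * (x - a) ≤ 2 * (x - a) := by nlinarith [hx.1]
  linarith

theorem g3r_zero {a b x : ℝ} (ha : -1 ≤ a) (hx : x ∈ Icc a b) :
    (1 : ℝ[X]).eval b * g3r_G a 1 x ≤ 6 * (x - a) + (1 - x ^ 2) := by
  rw [g3r_G_eq a b _ x (by simp)]
  simp only [derivative_one, eval_one, eval_zero, div_one, one_mul, zero_div, mul_zero, sub_zero]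
  have hxa : 0 ≤ x - a := by linarith [hx.1]
  have h2 : -2 * x * (x - a) ≤ 2 * (x - a) := by nlinarith [hx.1]
  linarith

/-- real critical points outside the interval and the degree, large right gap -/
theorem g3r (hG0 : G0) (hG0u : G0u) (hG1u : G1u) (hG2av : G2av) : G3r := by
  intro η hη
  obtain ⟨n0, hn0, hkey⟩ := g3r_key a1 (a2 a1) hG0 hG0u hG1u hG2av η hη
  obtain ⟨c, hc, -, hdist⟩ := g3r_dist a1 (a2 a1) hG1u
  refine ⟨2 + 2 / η, by positivity, n0, fun n hn a b P hWd hgap hE hND => ?_⟩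
  have hn2 : 2 ≤ n := hn0.trans hn
  have hn1 : 1 ≤ n := by omega
  have hnp : (0 : ℝ) < n := by exact_mod_cast hn1
  have hPn : P.natDegree ≤ n := natDegree_le_of_degree_le hE.deg
  obtain ⟨-, hβ0, -⟩ := g3r_win hη le_rfl hn1 hWd hgap
  have ha := hWd.1
  have hab := hWd.2.1
  have hb := hWd.2.2.1
  have hb1 : b < 1 := arccos_pos.1 hβ0
  have hβα : arccos b ≤ arccos a := arccos_le_arccos hab.le
  have hroot : ∀ y : ℝ, 1 ≤ |y| → P.derivative.eval y = 0 → 1 ≤ y ∨ (y ≤ -1 ∧ y < a) := by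
    intro y hy hr
    rcases le_abs'.1 hy with h | h
    · right
      refine ⟨h, ?_⟩
      have h1 := hdist n a b P hn1 ha hab hb hPn hE.bdd hND y h hr (arccos a) ⟨hβα, le_rfl⟩
      rw [cos_arccos ha (by linarith)] at h1
      have h2 : 0 ≤ sin (arccos a) :=
        sin_nonneg_of_nonneg_of_le_pi (arccos_nonneg a) (arccos_le_pi a)
      have h3 : 0 < c * (sin (arccos a) + 1 / n) / (n : ℝ) := by positivity
      linarith
    · exact Or.inl h
  -- harmless or not
  have hHB : ∀ y : ℝ, (1 ≤ y ∨ (y ≤ -1 ∧ y < a)) →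
      (1 ≤ y ∨ (y ≤ -1 ∧ b - a ≤ a - y)) ∨ (y ≤ -1 ∧ y < a ∧ a - y ≤ b - a) := by
    intro y hy
    rcases hy with h | ⟨h, h'⟩
    · exact Or.inl (Or.inl h)
    · rcases le_total (b - a) (a - y) with h1 | h1
      · exact Or.inl (Or.inr ⟨h, h1⟩)
      · exact Or.inr ⟨h, h', h1⟩
  have hne : ∀ y : ℝ, 1 ≤ |y| → ∀ x ∈ Ioo (-1 : ℝ) 1, x - y ≠ 0 := by
    intro y hy x hx h
    have : x = y := by linarith
    subst this
    rcases le_abs'.1 hy with h | h
    · linarith [hx.1]
    · linarith [hx.2]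
  have hEn : ∀ x ∈ Icc a b, 0 ≤ 6 * (x - a) + (1 - x ^ 2) := by
    intro x hx
    have h1 : 0 ≤ x - a := by linarith [hx.1]
    have h2 : 0 ≤ 1 - x ^ 2 := by nlinarith [hx.1, hx.2]
    positivity
  refine ⟨?_, ?_, ?_⟩
  · intro y1 y2 hy1 hy2 hdv
    have hr1 : P.derivative.eval y1 = 0 := by
      obtain ⟨Q, hQ⟩ := hdv
      rw [hQ]
      simp
    have hr2 : P.derivative.eval y2 = 0 := by
      obtain ⟨Q, hQ⟩ := hdv
      rw [hQ]
      simp
    have ht1 := hroot y1 hy1 hr1
    have ht2 := hroot y2 hy2 hr2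
    refine hkey n hn a b P ((X - C y1) * (X - C y2)) hWd hgap hE hND hdv ?_ ?_ ?_ ?_
    · intro x hx
      simp only [eval_mul, eval_sub, eval_X, eval_C]
      exact mul_ne_zero (hne y1 hy1 x hx) (hne y2 hy2 x hx)
    · intro x hx
      simp only [eval_mul, eval_sub, eval_X, eval_C]
      exact mul_ne_zero (g3r_fac ha hab hb1 hx ht1).1 (g3r_fac ha hab hb1 hx ht2).1
    · rw [natDegree_mul (X_sub_C_ne_zero _) (X_sub_C_ne_zero _), natDegree_X_sub_C,
        natDegree_X_sub_C]
      omega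
    · rcases hHB y1 ht1 with h1 | ⟨h1, h1', h1''⟩
      · rcases hHB y2 ht2 with h2 | ⟨h2, h2', h2''⟩
        · left
          intro x hx
          refine (g3r_two ha hab hb1 hx ht1 ht2).trans ?_
          have e1 := g3r_H hab hb1 hx h1
          have e2 := g3r_H hab hb1 hx h2
          have e3 := (g3r_fac ha hab hb1 hx ht1).2.1
          have e4 := (g3r_fac ha hab hb1 hx ht2).2.1
          have e5 : (b - y2) / (x - y2) * (6 * (x - a) + (1 - x ^ 2)) ≤
              2 * (6 * (x - a) + (1 - x ^ 2)) := mul_le_mul_of_nonneg_right e2 (hEn x hx)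
          have e6 := mul_le_mul e1 e5 (mul_nonneg e4.le (hEn x hx)) (by norm_num)
          linarith
        · right; left
          intro x hx
          refine (g3r_two ha hab hb1 hx ht1 ht2).trans ?_
          have e1 := g3r_H hab hb1 hx h1
          have e4 := (g3r_fac ha hab hb1 hx ht2).2.1
          have e5 := g3r_B ha hab hb1 hx h2 h2' h2''
          have e6 := mul_le_mul e1 e5 (mul_nonneg e4.le (hEn x hx)) (by norm_num)
          linarith
      · rcases hHB y2 ht2 with h2 | ⟨h2, h2', h2''⟩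
        · right; left
          intro x hx
          refine (g3r_two ha hab hb1 hx ht1 ht2).trans ?_
          have e2 := g3r_H hab hb1 hx h2
          have e3 := (g3r_fac ha hab hb1 hx ht1).2.1
          have e5 := g3r_B ha hab hb1 hx h1 h1' h1''
          have e6 := mul_le_mul e2 e5 (mul_nonneg e3.le (hEn x hx)) (by norm_num)
          have e7 : (b - y1) / (x - y1) * ((b - y2) / (x - y2) *
              (6 * (x - a) + (1 - x ^ 2))) = (b - y2) / (x - y2) * ((b - y1) / (x - y1) *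
              (6 * (x - a) + (1 - x ^ 2))) := by ring
          rw [e7]
          linarith
        · right; right
          refine ⟨y2, h2, hr2, fun x hx => ?_⟩
          refine (g3r_two ha hab hb1 hx ht1 ht2).trans ?_
          have e4 := (g3r_fac ha hab hb1 hx ht2).2.1
          have e5 := g3r_B ha hab hb1 hx h1 h1' h1''
          have e7 : (b - y1) / (x - y1) * ((b - y2) / (x - y2) *
              (6 * (x - a) + (1 - x ^ 2))) = (b - y2) / (x - y2) * ((b - y1) / (x - y1) *
              (6 * (x - a) + (1 - x ^ 2))) := by ring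
          rw [e7]
          have e8 := mul_le_mul_of_nonneg_left e5 e4.le
          refine e8.trans ?_
          have hxy : 0 < x - y2 := by linarith [hx.1]
          rw [div_mul_eq_mul_div]
          apply div_le_div_of_nonneg_right _ hxy.le
          have hh : 0 < b - a := sub_pos.2 hab
          nlinarith
  · intro hdeg y hy hr
    have ht := hroot y hy hr
    refine hkey n hn a b P (X - C y) hWd hgap hE hND (dvd_iff_isRoot.2 hr) ?_ ?_ ?_ ?_
    · intro x hx
      simp only [eval_sub, eval_X, eval_C]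
      exact hne y hy x hx
    · intro x hx
      simp only [eval_sub, eval_X, eval_C]
      exact (g3r_fac ha hab hb1 hx ht).1
    · rw [natDegree_X_sub_C]
      omega
    · rcases hHB y ht with h1 | ⟨h1, h1', h1''⟩
      · left
        intro x hx
        refine (g3r_one ha hab hb1 hx ht).trans ?_
        have e2 := g3r_H hab hb1 hx h1
        have e5 := mul_le_mul_of_nonneg_right e2 (hEn x hx)
        have e6 := hEn x hx
        linarith
      · right; left
        intro x hx
        refine (g3r_one ha hab hb1 hx ht).trans ?_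
        have e5 := g3r_B ha hab hb1 hx h1 h1' h1''
        linarith
  · by_contra hdeg
    push Not at hdeg
    refine hkey n hn a b P 1 hWd hgap hE hND (one_dvd _) (fun x _ => by simp)
      (fun x _ => by simp) ?_ ?_
    · rw [natDegree_one]
      omega
    · left
      intro x hx
      have e5 := g3r_zero (b := b) ha hx
      have e6 := hEn x hx
      linarith

end

end Pool.Agent.Helper10.AL
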