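import Pool.Agent.Helper10.AL.St3

/-!
Arc length of polynomials over windows `[a, 1]`, large degree: piece G3o (real critical points
outside the interval and the degree).
-/

set_option autoImplicit false

namespace Pool.Agent.Helper10.AL

open Polynomial Set Real MeasureTheory intervalIntegral
open Pool.Agent.Helper40.AS (arc Bdd Ext quad)

theorem g3o_tend (K : ℝ) :
    Filter.Tendsto (fun n : ℕ => K * (1 + Real.log n) ^ 2 / n) Filter.atTop (nhds 0) := by
  have h1 : Filter.Tendsto (fun n : ℕ => Real.log n ^ 2 / n) Filter.atTop (nhds 0) := by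
    have h := (Real.isLittleO_pow_log_id_atTop (n := 2)).tendsto_div_nhds_zero
    exact h.comp tendsto_natCast_atTop_atTop
  have h2 : Filter.Tendsto (fun n : ℕ => Real.log n / n) Filter.atTop (nhds 0) := by
    have h := Real.isLittleO_log_id_atTop.tendsto_div_nhds_zero
    exact h.comp tendsto_natCast_atTop_atTop
  have h3 : Filter.Tendsto (fun n : ℕ => (1 : ℝ) / n) Filter.atTop (nhds 0) :=
    tendsto_one_div_atTop_nhds_zero_nat
  have h4 := ((h1.add (h2.const_mul 2)).add h3).const_mul K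
  rw [mul_zero, add_zero, add_zero, mul_zero] at h4
  refine h4.congr fun n => ?_
  ring

/-- the weight in the angle -/
theorem g3o_w {c : ℝ} (hc : 0 < c) (hc1 : c ≤ 1) {n : ℕ} (hn : 1 ≤ n) {θ : ℝ} (h0 : 0 ≤ θ)
    (hπ : θ ≤ π) :
    1 / (1 - cos θ + c / (n : ℝ) ^ 2) ≤ π ^ 2 / c / (θ + 1 / n) ^ 2 := by
  have hnR : (1 : ℝ) ≤ n := by exact_mod_cast hn
  have hn0 : (0 : ℝ) < n := by linarith
  have h1 : 2 / π ^ 2 * θ ^ 2 ≤ 1 - cos θ := by
    have := Real.cos_le_one_sub_mul_cos_sq (x := θ) (by rw [abs_of_nonneg h0]; exact hπ)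
    linarith
  have hπ0 := Real.pi_pos
  have hπ3 := Real.pi_gt_three
  have hcn : 0 < c / (n : ℝ) ^ 2 := by positivity
  have h2 : 0 ≤ 1 - cos θ := by linarith [Real.cos_le_one θ]
  have hθn : 0 < θ + 1 / (n : ℝ) := by positivity
  rw [div_div, div_le_div_iff₀ (by linarith) (by positivity)]
  have h3 : (θ + 1 / (n : ℝ)) ^ 2 ≤ 2 * θ ^ 2 + 2 / (n : ℝ) ^ 2 := by
    have e : 2 * θ ^ 2 + 2 / (n : ℝ) ^ 2 - (θ + 1 / (n : ℝ)) ^ 2 = (θ - 1 / (n : ℝ)) ^ 2 := by
      field_simp
      ring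
    nlinarith [sq_nonneg (θ - 1 / (n : ℝ))]
  have h4 : π ^ 2 * (2 / π ^ 2 * θ ^ 2) = 2 * θ ^ 2 := by
    field_simp
  have h5 : 2 * θ ^ 2 ≤ π ^ 2 * (1 - cos θ) := by
    rw [← h4]
    exact mul_le_mul_of_nonneg_left h1 (by positivity)
  have h6 : c * (2 / (n : ℝ) ^ 2) ≤ π ^ 2 * (c / (n : ℝ) ^ 2) := by
    have e : c * (2 / (n : ℝ) ^ 2) = 2 * (c / (n : ℝ) ^ 2) := by ring
    rw [e]
    exact mul_le_mul_of_nonneg_right (by nlinarith) hcn.le
  have h7 : c * (2 * θ ^ 2) ≤ 2 * θ ^ 2 := by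
    have : 0 ≤ 2 * θ ^ 2 := by positivity
    nlinarith
  have h8 : c * (θ + 1 / (n : ℝ)) ^ 2 ≤ c * (2 * θ ^ 2 + 2 / (n : ℝ) ^ 2) :=
    mul_le_mul_of_nonneg_left h3 hc.le
  nlinarith

/-- the factors of `D` -/
theorem g3o_fac {δ a e y x : ℝ} (hδ : 0 < δ) (ha : -1 + δ ≤ a) (hx : x ∈ Icc a 1) (he : 0 < e)
    (he1 : e ≤ 1) (hy : 1 ≤ |y|) (hy1 : 0 < y → e ≤ y - 1) :
    x - y ≠ 0 ∧ 0 < (a - y) / (x - y) ∧ (a - y) / (x - y) ≤ 9 / (1 - x + e) ∧
      1 / (x - y) ≤ 1 / δ := by
  obtain ⟨hx1, hx2⟩ := hx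
  have hxe : 0 < 1 - x + e := by linarith
  rcases le_abs'.1 hy with h | h
  · have h1 : 0 < x - y := by linarith
    have h2 : 0 < a - y := by linarith
    refine ⟨h1.ne', div_pos h2 h1, ?_, ?_⟩
    · rw [div_le_div_iff₀ h1 hxe]
      have h3 : a - y ≤ x - y := by linarith
      have h4 : 1 - x + e ≤ 9 := by linarith
      nlinarith
    · rw [div_le_div_iff₀ h1 hδ]
      linarith
  · have h0 := hy1 (by linarith)
    have h1 : x - y < 0 := by linarith
    have h2 : a - y < 0 := by linarith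
    refine ⟨h1.ne, div_pos_of_neg_of_neg h2 h1, ?_, ?_⟩
    · have h3 : (a - y) / (x - y) = (y - a) / (y - x) := by
        rw [← neg_div_neg_eq]
        congr 1 <;> ring
      rw [h3, div_le_div_iff₀ (by linarith) hxe]
      -- u = 1 - x, E = y - 1
      have h4 : y - a ≤ 2 + (y - 1) := by linarith
      have h5 : 0 ≤ 1 - x := by linarith
      have h6 : (y - a) * (1 - x + e) ≤ (2 + (y - 1)) * (1 - x + e) :=
        mul_le_mul_of_nonneg_right h4 hxe.le
      have h7 : (y - 1) * (1 - x) ≤ (y - 1) * 2 :=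
        mul_le_mul_of_nonneg_left (by linarith) (by linarith)
      have h8 : (y - 1) * e ≤ (y - 1) * 1 :=
        mul_le_mul_of_nonneg_left he1 (by linarith)
      nlinarith
    · exact le_trans (div_nonpos_of_nonneg_of_nonpos zero_le_one h1.le) (by positivity)

/-- the density in the angle is continuous -/
theorem g3o_s (hA2 : A2) (P : ℝ[X]) :
    Continuous fun θ => sin θ ^ 2 / √(sin θ ^ 2 + deriv (qq P) θ ^ 2) := by
  have h1 : (fun θ => sin θ ^ 2 / √(sin θ ^ 2 + deriv (qq P) θ ^ 2)) =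
      fun θ => |sin θ| / √(1 + P.derivative.eval (cos θ) ^ 2) := by
    funext θ
    rw [(hA2.2.2 P θ).1]
    have h2 : sin θ ^ 2 + (-(sin θ * P.derivative.eval (cos θ))) ^ 2 =
        sin θ ^ 2 * (1 + P.derivative.eval (cos θ) ^ 2) := by ring
    rw [h2, Real.sqrt_mul (sq_nonneg _), Real.sqrt_sq_eq_abs]
    have hs : 0 < √(1 + P.derivative.eval (cos θ) ^ 2) := Real.sqrt_pos.2 (by positivity)
    by_cases h0 : sin θ = 0
    · rw [h0]; simp
    · have h3 : 0 < |sin θ| := abs_pos.2 h0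
      rw [div_eq_div_iff (by positivity) hs.ne', ← sq_abs]
      ring
  rw [h1]
  refine Continuous.div (by fun_prop) (by fun_prop) fun θ => ?_
  exact (Real.sqrt_pos.2 (by positivity)).ne'

theorem g3o_key (hA2 : A2) (hG0 : G0) (hG0u : G0u) (hG2au : G2au) (δ c : ℝ) (hδ : 0 < δ)
    (hδ4 : δ ≤ 1 / 4) (hc : 0 < c) (hc1 : c ≤ 1) :
    ∃ n0 : ℕ, 2 ≤ n0 ∧ ∀ n ≥ n0, ∀ (a : ℝ) (P D : ℝ[X]), -1 + δ ≤ a → a ≤ 1 - δ → Ext n a 1 P →
      ND n (qq P) 0 (arccos a) → D ∣ P.derivative →
      (∀ x ∈ Ioo (-1 : ℝ) 1, D.eval x ≠ 0) →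
      (∀ x ∈ Icc a 1, D.eval x ≠ 0 ∧ 0 < D.eval a / D.eval x ∧
        D.derivative.eval x / D.eval x ≤ 2 / δ ∧
        (1 - x) * (D.eval a / D.eval x) ≤ 81 / (1 - x + c / (n : ℝ) ^ 2)) →
      P.natDegree + 2 ≤ D.natDegree + n → False := by
  obtain ⟨K, hK, hG2⟩ := hG2au
  set C0 : ℝ := (4 + 2 / δ) * 81 with hC0
  have hC0p : 0 < C0 := by positivity
  set C1 : ℝ := C0 * (π ^ 2 / c) with hC1
  have hC1p : 0 < C1 := by positivity
  obtain ⟨n2, hn2⟩ := Filter.eventually_atTop.1
    ((g3o_tend (K * 16 * C1)).eventually (gt_mem_nhds (show (0 : ℝ) < δ ^ 3 by positivity)))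
  refine ⟨max 2 (max ⌈1 / δ⌉₊ n2), le_max_left _ _, ?_⟩
  intro n hn a P D ha1 ha2 hE hND hDd hD0 hDb hdeg
  have hn2' : 2 ≤ n := le_trans (le_max_left _ _) hn
  have hn1' : 1 ≤ n := by omega
  have hnδ : 1 / δ ≤ n := Nat.ceil_le.1 (le_trans (le_trans (le_max_left _ _) (le_max_right _ _)) hn)
  have hnn2 : n2 ≤ n := le_trans (le_trans (le_max_right _ _) (le_max_right _ _)) hn
  have hsmall := hn2 n hnn2
  have hnR : (1 : ℝ) ≤ n := by exact_mod_cast hn1'
  have hn0 : (0 : ℝ) < n := by linarith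
  have hnδ2 : 1 / (n : ℝ) ≤ δ := by
    rw [div_le_iff₀ hn0]
    rw [div_le_iff₀ hδ] at hnδ
    linarith
  have hab : a < 1 := by linarith
  have ham : -1 ≤ a := by linarith
  obtain ⟨R, hR⟩ := hDd
  have hPn : P.natDegree ≤ n := natDegree_le_of_degree_le hE.deg
  have hid := hG0 n a 1 P D R (1 - X) hn1' ham hab le_rfl hE hR (by
    intro x hx hx1
    have h1 := Pool.Agent.Helper40.AS.contact_int hE.bdd hx hx1
    rw [hR, eval_mul] at h1
    exact (mul_eq_zero.1 h1).resolve_left (hD0 x hx)) (by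
    have h1 : (1 - X : ℝ[X]).natDegree = 1 := by
      rw [← neg_sub, natDegree_neg]
      exact natDegree_X_sub_C 1
    rw [h1]
    omega) (fun x hx => (hDb x hx).1)
  -- the integrand
  set g : ℝ → ℝ := fun x => (((((1 - X ^ 2) * (1 - X) : ℝ[X]).derivative.eval x * D.eval x -
    ((1 - x ^ 2) * (1 - X : ℝ[X]).eval x) * D.derivative.eval x) / D.eval x ^ 2) /
      √(1 + P.derivative.eval x ^ 2)) with hg
  set e : ℝ := c / (n : ℝ) ^ 2 with he
  have hep : 0 < e := by positivity
  have hDa : D.eval a ≠ 0 := (hDb a ⟨le_rfl, hab.le⟩).1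
  have hsq : ∀ x : ℝ, 0 < √(1 + P.derivative.eval x ^ 2) := fun x =>
    Real.sqrt_pos.2 (by positivity)
  have hcs : Continuous fun x => √(1 + P.derivative.eval x ^ 2) := by fun_prop
  -- the bound for the integrand
  have hgb : ∀ x ∈ Icc a 1, -D.eval a * g x ≤ (C0 / (1 - x + e)) / √(1 + P.derivative.eval x ^ 2) := by
    intro x hx
    obtain ⟨hx0, hxp, hxd, hxw⟩ := hDb x hx
    have hxe : 0 < 1 - x + e := by linarith [hx.2]
    rw [hg]
    simp only
    rw [← mul_div_assoc]
    refine div_le_div_of_nonneg_right ?_ (hsq x).le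
    have e1 : ((1 - X ^ 2) * (1 - X) : ℝ[X]).derivative.eval x = -((1 - x) * (1 + 3 * x)) := by
      simp only [derivative_mul, derivative_sub, derivative_one, derivative_X_pow, derivative_X,
        eval_add, eval_mul, eval_sub, eval_one, eval_pow, eval_X, eval_C,
        eval_zero]
      push_cast
      ring
    have e2 : (1 - X : ℝ[X]).eval x = 1 - x := by simp
    rw [e1, e2]
    have e3 : -D.eval a * ((-((1 - x) * (1 + 3 * x)) * D.eval x -
        (1 - x ^ 2) * (1 - x) * D.derivative.eval x) / D.eval x ^ 2) =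
        (D.eval a / D.eval x) * ((1 - x) * ((1 + 3 * x) +
          (1 - x ^ 2) * (D.derivative.eval x / D.eval x))) := by
      field_simp
      ring
    rw [e3]
    have hx1 : -1 < x := by linarith [hx.1]
    have hx2 := hx.2
    have h1 : 0 ≤ 1 - x ^ 2 := by nlinarith
    have h2 : 1 - x ^ 2 ≤ 1 := by nlinarith [sq_nonneg x]
    have h3 : (1 - x ^ 2) * (D.derivative.eval x / D.eval x) ≤ 2 / δ := by
      have h4 : (1 - x ^ 2) * (D.derivative.eval x / D.eval x) ≤ (1 - x ^ 2) * (2 / δ) :=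
        mul_le_mul_of_nonneg_left hxd h1
      have h5 : (1 - x ^ 2) * (2 / δ) ≤ 1 * (2 / δ) :=
        mul_le_mul_of_nonneg_right h2 (by positivity)
      linarith
    have h4 : (D.eval a / D.eval x) * ((1 - x) * ((1 + 3 * x) +
          (1 - x ^ 2) * (D.derivative.eval x / D.eval x))) ≤
        (D.eval a / D.eval x) * ((1 - x) * (4 + 2 / δ)) := by
      refine mul_le_mul_of_nonneg_left ?_ hxp.le
      refine mul_le_mul_of_nonneg_left ?_ (by linarith)
      linarith
    refine h4.trans ?_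
    calc (D.eval a / D.eval x) * ((1 - x) * (4 + 2 / δ))
        = (4 + 2 / δ) * ((1 - x) * (D.eval a / D.eval x)) := by ring
      _ ≤ (4 + 2 / δ) * (81 / (1 - x + e)) := mul_le_mul_of_nonneg_left hxw (by positivity)
      _ = C0 / (1 - x + e) := by rw [hC0]; ring
  have hgc : ContinuousOn g (Icc a 1) := by
    rw [hg]
    refine ContinuousOn.div (ContinuousOn.div ?_ ?_ ?_) hcs.continuousOn fun x _ => (hsq x).ne'
    · fun_prop
    · fun_prop
    · intro x hx
      exact pow_ne_zero _ (hDb x hx).1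
  have hFc : ContinuousOn (fun x => C0 / (1 - x + e)) (Icc a 1) := by
    refine ContinuousOn.div continuousOn_const (by fun_prop) ?_
    intro x hx
    have : 0 < 1 - x + e := by linarith [hx.2]
    exact this.ne'
  have h1 : (∫ x in a..1, -D.eval a * g x) ≤
      ∫ x in a..1, (C0 / (1 - x + e)) / √(1 + P.derivative.eval x ^ 2) := by
    refine integral_mono_on hab.le ?_ ?_ hgb
    · refine ContinuousOn.intervalIntegrable ?_
      rw [uIcc_of_le hab.le]
      exact continuousOn_const.mul hgc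
    · refine ContinuousOn.intervalIntegrable ?_
      rw [uIcc_of_le hab.le]
      exact hFc.div hcs.continuousOn fun x _ => (hsq x).ne'
  rw [intervalIntegral.integral_const_mul, ← hid] at h1
  have h2 : δ ^ 3 ≤ -D.eval a * (((1 - 1 ^ 2) * (1 - X : ℝ[X]).eval 1 / D.eval 1) *
      √(1 + P.derivative.eval 1 ^ 2) -
      ((1 - a ^ 2) * (1 - X : ℝ[X]).eval a / D.eval a) * √(1 + P.derivative.eval a ^ 2)) := by
    have e1 : -D.eval a * (((1 - 1 ^ 2) * (1 - X : ℝ[X]).eval 1 / D.eval 1) *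
      √(1 + P.derivative.eval 1 ^ 2) -
      ((1 - a ^ 2) * (1 - X : ℝ[X]).eval a / D.eval a) * √(1 + P.derivative.eval a ^ 2)) =
        ((1 - a) * (1 + a) * (1 - a)) * √(1 + P.derivative.eval a ^ 2) := by
      simp only [eval_sub, eval_one, eval_X]
      field_simp
      ring
    rw [e1]
    have h3 : 1 ≤ √(1 + P.derivative.eval a ^ 2) := by
      rw [Real.one_le_sqrt]
      nlinarith [sq_nonneg (P.derivative.eval a)]
    have h4 : δ * δ ≤ (1 - a) * (1 + a) :=
      mul_le_mul (by linarith) (by linarith) hδ.le (by linarith)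
    have h5 : δ * δ * δ ≤ (1 - a) * (1 + a) * (1 - a) :=
      mul_le_mul h4 (by linarith) hδ.le (by nlinarith)
    have h6 : 0 ≤ (1 - a) * (1 + a) * (1 - a) := le_trans (by positivity) h5
    calc δ ^ 3 = δ * δ * δ := by ring
      _ ≤ (1 - a) * (1 + a) * (1 - a) := h5
      _ ≤ ((1 - a) * (1 + a) * (1 - a)) * √(1 + P.derivative.eval a ^ 2) :=
        le_mul_of_one_le_right h6 h3
  have h3 := h2.trans h1
  -- change of variables
  have harc1 : arccos 1 = 0 := Real.arccos_one
  have hα0 : 0 ≤ arccos a := Real.arccos_nonneg a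
  have hαπ : arccos a ≤ π := Real.arccos_le_pi a
  have h4 := hG0u a 1 P (fun x => C0 / (1 - x + e)) ham hab.le le_rfl hFc
  rw [harc1] at h4
  rw [h4] at h3
  set w : ℝ → ℝ := fun θ => C1 / (θ + 1 / n) ^ 2 with hw
  have hpos : ∀ θ : ℝ, 0 ≤ θ → 0 < θ + 1 / (n : ℝ) := fun θ hθ => by positivity
  have hwc : ContinuousOn w (Icc 0 (arccos a)) := by
    rw [hw]
    refine ContinuousOn.div continuousOn_const (by fun_prop) ?_
    intro θ hθ
    exact pow_ne_zero _ (hpos θ hθ.1).ne'
  have hsc := g3o_s hA2 P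
  have hs0 : ∀ θ, 0 ≤ sin θ ^ 2 / √(sin θ ^ 2 + deriv (qq P) θ ^ 2) := fun θ => by positivity
  have h5 : (∫ θ in (0 : ℝ)..(arccos a), C0 / (1 - cos θ + e) *
      (sin θ ^ 2 / √(sin θ ^ 2 + deriv (qq P) θ ^ 2))) ≤
      ∫ θ in (0 : ℝ)..(arccos a), w θ * (sin θ ^ 2 / √(sin θ ^ 2 + deriv (qq P) θ ^ 2)) := by
    refine integral_mono_on hα0 ?_ ?_ ?_
    · refine Continuous.intervalIntegrable (Continuous.mul ?_ hsc) _ _
      refine Continuous.div continuous_const (by fun_prop) fun θ => ?_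
      have : 0 < 1 - cos θ + e := by linarith [Real.cos_le_one θ]
      exact this.ne'
    · refine ContinuousOn.intervalIntegrable ?_
      rw [uIcc_of_le hα0]
      exact hwc.mul hsc.continuousOn
    · intro θ hθ
      refine mul_le_mul_of_nonneg_right ?_ (hs0 θ)
      have h6 := g3o_w hc hc1 hn1' hθ.1 (hθ.2.trans hαπ)
      rw [← he] at h6
      calc C0 / (1 - cos θ + e) = C0 * (1 / (1 - cos θ + e)) := by ring
        _ ≤ C0 * (π ^ 2 / c / (θ + 1 / n) ^ 2) := mul_le_mul_of_nonneg_left h6 hC0p.le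
        _ = w θ := by rw [hw, hC1]; ring
  have hαn : 1 / (n : ℝ) ≤ arccos a := by
    by_contra hlt
    push Not at hlt
    have h6 : cos (1 / (n : ℝ)) ≤ cos (arccos a) := by
      refine Real.cos_le_cos_of_nonneg_of_le_pi hα0 ?_ hlt.le
      have : 1 / (n : ℝ) ≤ 1 := by rw [div_le_one hn0]; exact hnR
      linarith [Real.pi_gt_three]
    rw [Real.cos_arccos ham hab.le] at h6
    have h7 := Real.one_sub_sq_div_two_le_cos (x := 1 / (n : ℝ))
    have h8 : (1 / (n : ℝ)) ^ 2 ≤ δ * δ := by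
      rw [sq]
      exact mul_le_mul hnδ2 hnδ2 (by positivity) hδ.le
    nlinarith
  have h6 := hG2 n a 1 4 P w hn2' ham hab le_rfl (by rw [harc1, zero_add]; exact hαn) hPn hE.bdd
    (by rw [harc1]; exact hND) (by rw [harc1]; exact hwc)
    (by
      intro θ hθ
      rw [harc1] at hθ
      exact div_nonneg hC1p.le (sq_nonneg _)) (by norm_num)
    (by
      intro x hx y hy hxy
      rw [harc1] at hx hy
      have hx0 := hpos x hx.1
      have hy0 := hpos y hy.1
      rw [hw]
      simp only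
      rw [← mul_div_assoc, div_le_div_iff₀ (by positivity) (by positivity)]
      have h7 : y + 1 / (n : ℝ) ≤ 2 * (x + 1 / n) := by
        have h8 := (abs_le.1 hxy).1
        have h9 := hx.1
        linarith
      have h8 : (y + 1 / (n : ℝ)) ^ 2 ≤ (2 * (x + 1 / n)) ^ 2 :=
        pow_le_pow_left₀ hy0.le h7 2
      calc C1 * (y + 1 / (n : ℝ)) ^ 2 ≤ C1 * (2 * (x + 1 / n)) ^ 2 :=
            mul_le_mul_of_nonneg_left h8 hC1p.le
        _ = 4 * C1 * (x + 1 / n) ^ 2 := by ring)
  rw [harc1] at h6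
  -- the weighted integral
  have h7 : (∫ θ in (0 : ℝ)..(arccos a), w θ * (sin θ + 1 / n)) ≤
      C1 * (4 * (1 + Real.log n)) := by
    have h8 : (∫ θ in (0 : ℝ)..(arccos a), w θ * (sin θ + 1 / n)) ≤
        ∫ θ in (0 : ℝ)..(arccos a), C1 * (θ + 1 / n)⁻¹ := by
      refine integral_mono_on hα0 ?_ ?_ ?_
      · refine ContinuousOn.intervalIntegrable ?_
        rw [uIcc_of_le hα0]
        exact hwc.mul (by fun_prop)
      · refine ContinuousOn.intervalIntegrable ?_
        rw [uIcc_of_le hα0]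
        refine continuousOn_const.mul (ContinuousOn.inv₀ (by fun_prop) ?_)
        intro θ hθ
        exact (hpos θ hθ.1).ne'
      · intro θ hθ
        have h9 := hpos θ hθ.1
        have h10 : sin θ ≤ θ := Real.sin_le hθ.1
        calc w θ * (sin θ + 1 / n) ≤ w θ * (θ + 1 / n) := by
              refine mul_le_mul_of_nonneg_left (by linarith) ?_
              exact div_nonneg hC1p.le (sq_nonneg _)
          _ = C1 * (θ + 1 / n)⁻¹ := by
              rw [hw]
              simp only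
              field_simp
    refine h8.trans ?_
    rw [intervalIntegral.integral_const_mul]
    refine mul_le_mul_of_nonneg_left ?_ hC1p.le
    have h9 : (∫ θ in (0 : ℝ)..(arccos a), (θ + 1 / (n : ℝ))⁻¹) =
        Real.log ((arccos a + 1 / n) / (0 + 1 / n)) := by
      rw [intervalIntegral.integral_comp_add_right (fun x : ℝ => x⁻¹) (1 / (n : ℝ))]
      exact integral_inv_of_pos (by positivity) (by positivity)
    rw [h9]
    have h10 : (arccos a + 1 / n) / (0 + 1 / (n : ℝ)) ≤ 5 * n := by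
      rw [zero_add, div_le_iff₀ (by positivity)]
      have h11 : 5 * (n : ℝ) * (1 / n) = 5 := by field_simp
      rw [h11]
      have h12 : 1 / (n : ℝ) ≤ 1 := by rw [div_le_one hn0]; exact hnR
      linarith [Real.pi_lt_four]
    have h11 : Real.log ((arccos a + 1 / n) / (0 + 1 / (n : ℝ))) ≤ Real.log (5 * n) :=
      Real.log_le_log (by positivity) h10
    have h12 : Real.log (5 * n) = Real.log 5 + Real.log n :=
      Real.log_mul (by norm_num) hn0.ne'
    have h13 : Real.log 5 ≤ 5 - 1 := Real.log_le_sub_one_of_pos (by norm_num)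
    have h14 : 0 ≤ Real.log n := Real.log_nonneg hnR
    linarith
  have hL : 0 ≤ Real.log n := Real.log_nonneg hnR
  have h8 : K * 4 * (1 + Real.log n) / n * (∫ θ in (0 : ℝ)..(arccos a), w θ * (sin θ + 1 / n)) ≤
      K * 4 * (1 + Real.log n) / n * (C1 * (4 * (1 + Real.log n))) :=
    mul_le_mul_of_nonneg_left h7 (by positivity)
  have h9 : K * 4 * (1 + Real.log n) / n * (C1 * (4 * (1 + Real.log n))) =
      K * 16 * C1 * (1 + Real.log n) ^ 2 / n := by ring
  have h10 := ((h3.trans h5).trans h6).trans h8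
  rw [h9] at h10
  exact absurd hsmall (not_lt.2 h10)

theorem g3o (hA1 : A1) (hA2 : A2) (hG0 : G0) (hG0u : G0u) (hG1u : G1u) (hG2au : G2au) : G3o := by
  obtain ⟨c, hc, hG1⟩ := hG1u
  set c' : ℝ := min c 1 with hc'
  have hcp : 0 < c' := lt_min hc one_pos
  have hc1 : c' ≤ 1 := min_le_right _ _
  have hcc : c' ≤ c := min_le_left _ _
  intro δ hδ hδ4
  obtain ⟨n0, hn0, hkey⟩ := g3o_key hA2 hG0 hG0u hG2au δ c' hδ hδ4 hcp hc1
  refine ⟨n0, fun n hn a P ha1 ha2 hE hND => ?_⟩
  have hn2 : 2 ≤ n := hn0.trans hn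
  have hnR : (1 : ℝ) ≤ n := by exact_mod_cast (by omega : 1 ≤ n)
  have hnp : (0 : ℝ) < n := by linarith
  have hPn : P.natDegree ≤ n := natDegree_le_of_degree_le hE.deg
  have hα0 : 0 ≤ arccos a := Real.arccos_nonneg a
  have hd0 : 0 ≤ 2 / δ := by positivity
  set e : ℝ := c' / (n : ℝ) ^ 2 with he
  have hep : 0 < e := by positivity
  have he1 : e ≤ 1 := by
    rw [he, div_le_one (by positivity)]
    have : (1 : ℝ) ≤ (n : ℝ) ^ 2 := one_le_pow₀ hnR
    linarith
  -- the derivative at the end point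
  have hP1 : P.derivative.eval 1 ≠ 0 := by
    intro h0
    have h1 := hND 0 ⟨le_rfl, hα0⟩
    obtain ⟨h2, h3⟩ := hA2.2.2 P 0
    rw [h2, h3] at h1
    simp only [Real.sin_zero, Real.cos_zero, h0] at h1
    have h4 := h1 (by
      rw [mul_zero, neg_zero, abs_zero]
      positivity)
    simp only [mul_zero, sub_zero] at h4
    rw [zero_pow (by norm_num), zero_mul, abs_zero] at h4
    have h5 : (0 : ℝ) < (n : ℝ) ^ 2 / 1000 := by positivity
    linarith
  -- real critical points to the right of the interval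
  have hy1 : ∀ y : ℝ, 1 ≤ |y| → P.derivative.eval y = 0 → 0 < y → e ≤ y - 1 := by
    intro y hy hr hy0
    have hy' : 1 ≤ y := by rwa [abs_of_pos hy0] at hy
    have hy2 : 1 < y := by
      refine lt_of_le_of_ne hy' ?_
      rintro rfl
      exact hP1 hr
    have h1 := hG1 n a 1 P (by omega) (by linarith) (by linarith) le_rfl hPn hE.bdd
      (by rw [Real.arccos_one]; exact hND) (y : ℂ) (by
        have h2 := Polynomial.aeval_algebraMap_apply ℂ y P.derivative
        rw [Complex.coe_algebraMap] at h2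
        rw [h2, Polynomial.aeval_def, Polynomial.eval₂_eq_eval_map]
        simp [hr]) (Or.inr (by
        rw [Complex.ofReal_re, abs_of_pos hy0]
        exact hy2)) 0 ⟨by rw [Real.arccos_one], hα0⟩
    rw [Real.sin_zero, Real.cos_zero, zero_add, ← Complex.ofReal_sub, Complex.norm_real,
      Real.norm_eq_abs, abs_of_nonneg (by linarith)] at h1
    refine le_trans ?_ h1
    have h2 : c * (1 / (n : ℝ)) / n = c / (n : ℝ) ^ 2 := by
      field_simp
    rw [h2, he]
    exact div_le_div_of_nonneg_right hcc (by positivity)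
  have hne : ∀ y : ℝ, 1 ≤ |y| → ∀ x ∈ Ioo (-1 : ℝ) 1, x - y ≠ 0 := by
    intro y hy x hx h
    have : x = y := by linarith
    subst this
    rcases le_abs'.1 hy with h | h
    · linarith [hx.1]
    · linarith [hx.2]
  refine ⟨?_, ?_, ?_⟩
  · intro y1 y2 hy1' hy2' hdv
    have hr1 : P.derivative.eval y1 = 0 := by
      obtain ⟨Q, hQ⟩ := hdv
      rw [hQ]
      simp
    have hr2 : P.derivative.eval y2 = 0 := by
      obtain ⟨Q, hQ⟩ := hdv
      rw [hQ]
      simp
    refine hkey n hn a P ((X - C y1) * (X - C y2)) ha1 ha2 hE hND hdv ?_ ?_ ?_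
    · intro x hx
      simp only [eval_mul, eval_sub, eval_X, eval_C]
      exact mul_ne_zero (hne y1 hy1' x hx) (hne y2 hy2' x hx)
    · intro x hx
      obtain ⟨a1, a2, a3, a4⟩ := g3o_fac hδ ha1 hx hep he1 hy1' (hy1 y1 hy1' hr1)
      obtain ⟨b1, b2, b3, b4⟩ := g3o_fac hδ ha1 hx hep he1 hy2' (hy1 y2 hy2' hr2)
      have hxe : 0 < 1 - x + e := by linarith [hx.2]
      simp only [derivative_mul, derivative_sub, derivative_X, derivative_C, eval_add,
          eval_mul, eval_sub, eval_X, eval_C, eval_one, eval_zero, sub_zero, one_mul, mul_one]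
      have hq : (a - y1) * (a - y2) / ((x - y1) * (x - y2)) =
          ((a - y1) / (x - y1)) * ((a - y2) / (x - y2)) := by
        field_simp
      refine ⟨mul_ne_zero a1 b1, ?_, ?_, ?_⟩
      · rw [hq]
        exact mul_pos a2 b2
      · have h1 : (x - y2 + (x - y1)) / ((x - y1) * (x - y2)) =
            1 / (x - y1) + 1 / (x - y2) := by
          field_simp
        rw [h1]
        have h2 : 2 / δ = 1 / δ + 1 / δ := by ring
        linarith
      · rw [hq]
        have h1 : ((a - y1) / (x - y1)) * ((a - y2) / (x - y2)) ≤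
            (9 / (1 - x + e)) * (9 / (1 - x + e)) :=
          mul_le_mul a3 b3 b2.le (by positivity)
        have hx2 : 0 ≤ 1 - x := by linarith [hx.2]
        calc (1 - x) * (((a - y1) / (x - y1)) * ((a - y2) / (x - y2)))
            ≤ (1 - x) * ((9 / (1 - x + e)) * (9 / (1 - x + e))) :=
              mul_le_mul_of_nonneg_left h1 hx2
          _ ≤ (1 - x + e) * ((9 / (1 - x + e)) * (9 / (1 - x + e))) :=
              mul_le_mul_of_nonneg_right (by linarith) (by positivity)
          _ = 81 / (1 - x + e) := by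
              field_simp
              ring
    · rw [natDegree_mul (X_sub_C_ne_zero _) (X_sub_C_ne_zero _), natDegree_X_sub_C,
        natDegree_X_sub_C]
      omega
  · intro hdeg y hy hr
    refine hkey n hn a P (X - C y) ha1 ha2 hE hND (dvd_iff_isRoot.2 hr) ?_ ?_ ?_
    · intro x hx
      simp only [eval_sub, eval_X, eval_C]
      exact hne y hy x hx
    · intro x hx
      obtain ⟨a1, a2, a3, a4⟩ := g3o_fac hδ ha1 hx hep he1 hy (hy1 y hy hr)
      have hxe : 0 < 1 - x + e := by linarith [hx.2]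
      simp only [derivative_sub, derivative_X, derivative_C, eval_sub, eval_X, eval_C,
          eval_one, eval_zero, sub_zero]
      refine ⟨a1, a2, ?_, ?_⟩
      · have h2 : 2 / δ = 1 / δ + 1 / δ := by ring
        have h3 : 0 < 1 / δ := by positivity
        linarith
      · have hx2 : 0 ≤ 1 - x := by linarith [hx.2]
        have hx3 : 1 - x ≤ 2 := by linarith [hx.1]
        calc (1 - x) * ((a - y) / (x - y)) ≤ (1 - x) * (9 / (1 - x + e)) :=
              mul_le_mul_of_nonneg_left a3 hx2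
          _ ≤ 9 * (9 / (1 - x + e)) :=
              mul_le_mul_of_nonneg_right (by linarith) (by positivity)
          _ = 81 / (1 - x + e) := by ring
    · rw [natDegree_X_sub_C]
      omega
  · by_contra hdeg
    push Not at hdeg
    refine hkey n hn a P 1 ha1 ha2 hE hND (one_dvd _) ?_ ?_ ?_
    · intro x hx
      simp
    · intro x hx
      have hxe : 0 < 1 - x + e := by linarith [hx.2]
      simp only [derivative_one, eval_zero, eval_one]
      refine ⟨one_ne_zero, by norm_num, by rw [zero_div]; exact hd0, ?_⟩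
      have hx2 : 0 ≤ 1 - x := by linarith [hx.2]
      have hx3 : 1 - x ≤ 2 := by linarith [hx.1]
      rw [le_div_iff₀ hxe]
      nlinarith
    · rw [natDegree_one]
      omega

end Pool.Agent.Helper10.AL
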