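import Pool.Agent.Helper10.AL.St7
import Pool.Agent.Helper10.AL.P.G3o

/-!
Arc length of polynomials over windows, large degree: piece G3s (real critical points outside the
interval and the degree, two small gaps).
-/

set_option autoImplicit false

namespace Pool.Agent.Helper10.AL

open Polynomial Set Real MeasureTheory intervalIntegral
open Pool.Agent.Helper40.AS (arc Bdd Ext quad)

theorem g3s_exp {d x : ℝ} (hd0 : 0 ≤ d) (hd : d ≤ 1 / 2) (h : 1 - Real.exp (-(2 * x)) ≤ d) :
    x ≤ d := by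
  have h1 : Real.exp (-(2 * d)) ≤ 1 - d := by
    have h2 : 1 + 2 * d ≤ Real.exp (2 * d) := by linarith [Real.add_one_le_exp (2 * d)]
    rw [Real.exp_neg]
    have h3 : (Real.exp (2 * d))⁻¹ ≤ (1 + 2 * d)⁻¹ := inv_anti₀ (by linarith) h2
    refine h3.trans ?_
    rw [inv_le_comm₀ (by linarith) (by linarith), inv_le_iff_one_le_mul₀ (by linarith)]
    nlinarith
  have h2 : Real.exp (-(2 * d)) ≤ Real.exp (-(2 * x)) := by linarith
  have h3 := Real.exp_le_exp.1 h2
  linarith

/-- the second derivative at `0` -/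
theorem g3s_q (hA2 : A2) {n : ℕ} {P : ℝ[X]} {β σ ε : ℝ} (hn : 1 ≤ n) (hdeg : P.natDegree ≤ n)
    (hb : Bdd P) (hσ : σ = 1 ∨ σ = -1) (hβ : 0 ≤ β) (hnβ : n * β ≤ 1 / 4) (hε : ε ≤ 1 / 10)
    (h : |deriv (deriv (qq P)) β / (n : ℝ) ^ 2 + σ * cos (n * β)| ≤ ε) :
    (n : ℝ) ^ 2 / 3 ≤ |deriv (deriv (qq P)) 0| := by
  have hnR : (1 : ℝ) ≤ n := by exact_mod_cast hn
  have hn0 : (0 : ℝ) < n := by linarith
  have hTB : TB n (qq P) := hA2.2.1 n P hdeg hb
  have hthird := (hA2.1 n (qq P) hn hTB).2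
  have hq2 : deriv (deriv (qq P)) = fun θ => sin θ ^ 2 * P.derivative.derivative.eval (cos θ) -
      cos θ * P.derivative.eval (cos θ) := funext fun θ => (hA2.2.2 P θ).2
  have hdiff : Differentiable ℝ (deriv (deriv (qq P))) := by
    rw [hq2]
    have h1 : Differentiable ℝ fun θ => P.derivative.derivative.eval (cos θ) :=
      P.derivative.derivative.differentiable.comp Real.differentiable_cos
    have h2 : Differentiable ℝ fun θ => P.derivative.eval (cos θ) :=
      P.derivative.differentiable.comp Real.differentiable_cos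
    exact ((Real.differentiable_sin.pow 2).mul h1).sub (Real.differentiable_cos.mul h2)
  have h1 := Convex.norm_image_sub_le_of_norm_deriv_le (f := deriv (deriv (qq P)))
    (s := Set.univ) (C := (n : ℝ) ^ 3) (x := β) (y := 0) (fun x _ => hdiff x)
    (fun x _ => (hthird x).2.2.2.2) convex_univ (mem_univ _) (mem_univ _)
  rw [Real.norm_eq_abs, Real.norm_eq_abs, zero_sub, abs_neg, abs_of_nonneg hβ] at h1
  have h2 : (n : ℝ) ^ 3 * β ≤ (n : ℝ) ^ 2 * (1 / 4) := by
    have e : (n : ℝ) ^ 3 * β = (n : ℝ) ^ 2 * (n * β) := by ring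
    rw [e]
    exact mul_le_mul_of_nonneg_left hnβ (by positivity)
  have h3 : 1 - 1 / 32 ≤ cos (n * β) := by
    have h4 := Real.one_sub_sq_div_two_le_cos (x := n * β)
    have h5 : 0 ≤ n * β := by positivity
    nlinarith
  have h4 : (n : ℝ) ^ 2 * (1 - 1 / 32 - 1 / 10) ≤ |deriv (deriv (qq P)) β| := by
    have h5 : |σ * cos (n * β)| ≤ |deriv (deriv (qq P)) β / (n : ℝ) ^ 2| + ε := by
      have e : σ * cos (n * β) = (deriv (deriv (qq P)) β / (n : ℝ) ^ 2 + σ * cos (n * β)) -
          deriv (deriv (qq P)) β / (n : ℝ) ^ 2 := by ring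
      rw [e]
      refine (abs_sub _ _).trans ?_
      linarith
    have h6 : |σ * cos (n * β)| = cos (n * β) := by
      rcases hσ with rfl | rfl
      · rw [one_mul, abs_of_nonneg (by linarith)]
      · rw [neg_one_mul, abs_neg, abs_of_nonneg (by linarith)]
    rw [h6, abs_div, abs_of_pos (show (0 : ℝ) < (n : ℝ) ^ 2 by positivity)] at h5
    have h7 : 1 - 1 / 32 - 1 / 10 ≤ |deriv (deriv (qq P)) β| / (n : ℝ) ^ 2 := by linarith
    rw [le_div_iff₀ (by positivity)] at h7
    linarith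
  have h5 : |deriv (deriv (qq P)) β| ≤ |deriv (deriv (qq P)) 0| +
      |deriv (deriv (qq P)) 0 - deriv (deriv (qq P)) β| := by
    have e : deriv (deriv (qq P)) β = deriv (deriv (qq P)) 0 -
        (deriv (deriv (qq P)) 0 - deriv (deriv (qq P)) β) := by ring
    calc |deriv (deriv (qq P)) β| = |deriv (deriv (qq P)) 0 -
        (deriv (deriv (qq P)) 0 - deriv (deriv (qq P)) β)| := by rw [← e]
      _ ≤ _ := abs_sub _ _
  have h6 : 0 < (n : ℝ) ^ 2 := by positivity
  nlinarith

/-- `cosh` near `0` -/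
theorem g3s_cosh {x : ℝ} (h0 : 0 ≤ x) (h1 : x ≤ 1) : Real.cosh x - 1 ≤ x ^ 2 := by
  have h2 := Real.cosh_le_exp_half_sq x
  have h3 : Real.exp (x ^ 2 / 2) ≤ 1 + x ^ 2 := by
    have h4 : 1 - x ^ 2 / 2 ≤ Real.exp (-(x ^ 2 / 2)) := by
      have := Real.add_one_le_exp (-(x ^ 2 / 2))
      linarith
    have h5 : Real.exp (x ^ 2 / 2) * Real.exp (-(x ^ 2 / 2)) = 1 := by
      rw [← Real.exp_add]
      simp
    have h6 := Real.exp_pos (x ^ 2 / 2)
    have h7 : x ^ 2 ≤ 1 := by nlinarith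
    have h8 : Real.exp (x ^ 2 / 2) * (1 - x ^ 2 / 2) ≤ 1 :=
      (mul_le_mul_of_nonneg_left h4 h6.le).trans h5.le
    by_contra h9
    push Not at h9
    have h10 : (1 + x ^ 2) * (1 - x ^ 2 / 2) < Real.exp (x ^ 2 / 2) * (1 - x ^ 2 / 2) :=
      mul_lt_mul_of_pos_right h9 (by linarith)
    nlinarith [sq_nonneg x]
  linarith

theorem g3s_aeval {P : ℝ[X]} {y : ℝ} (h : P.derivative.eval y = 0) :
    aeval (y : ℂ) P.derivative = 0 := by
  have h2 := Polynomial.aeval_algebraMap_apply ℂ y P.derivative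
  rw [Complex.coe_algebraMap] at h2
  rw [h2, Polynomial.aeval_def, Polynomial.eval₂_eq_eval_map]
  simp [h]

/-- critical points to the right of the interval, the basic estimate -/
theorem g3s_R0 {C C1 δ ε : ℝ} (hC : 0 < C) (hδ0 : 0 < δ) (hδ : δ ≤ 1 / 2) (hC1 : 2 ≤ C1)
    (hCC : C / C1 ≤ δ / 4) (hε0 : 0 ≤ ε) (hε : ε ≤ δ / 16) (hU5w : U5w)
    (hHm : ∀ w : ℂ, 0 ≤ w.re → w.re ≤ π → 0 < w.im →
      (∀ α : ℝ, 0 ≤ α → α ≤ π → 2 * (π - α) ≤ ‖w - (π : ℂ)‖ →
        (∫ θ in α..(2 * π - α), pk (Complex.exp (w * Complex.I)) θ) ≤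
          C * (π - α) * min 1 w.im / min 1 ‖w - (π : ℂ)‖ ^ 2) ∧
      (∀ β : ℝ, 0 ≤ β → β ≤ π → 2 * β ≤ ‖w‖ →
        (∫ θ in (-β)..β, pk (Complex.exp (w * Complex.I)) θ) ≤
          C * β * min 1 w.im / min 1 ‖w‖ ^ 2))
    {n : ℕ} {P : ℝ[X]} {σ β α : ℝ} (hn : 1 ≤ n) (hdeg : P.natDegree ≤ n) (hb : Bdd P)
    (hσ : σ = 1 ∨ σ = -1) (hβ : 0 ≤ β) (hβα : β ≤ α) (hα : α ≤ π)
    (hcl : ∀ θ ∈ Icc β α, |qq P θ - σ * cos (n * θ)| ≤ ε ∧
      |deriv (qq P) θ / n + σ * sin (n * θ)| ≤ ε)
    (hg1 : C * β ≤ δ / 4) (hg2 : C * (π - α) ≤ δ / 4) (hg3 : π - α ≤ 1) {η : ℝ} (hη : 0 < η)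
    (hηβ : C1 * β ≤ η) (hy : P.derivative.eval (Real.cosh η) = 0) : n * η ≤ δ := by
  have hπ := Real.pi_gt_three
  set w : ℂ := (η : ℂ) * Complex.I with hw
  have hre : w.re = 0 := by rw [hw]; simp
  have him : w.im = η := by rw [hw]; simp
  have hnw : ‖w‖ = η := by
    rw [hw, norm_mul, Complex.norm_I, mul_one, Complex.norm_real, Real.norm_eq_abs,
      abs_of_pos hη]
  have hnp : 3 ≤ ‖w - (π : ℂ)‖ := by
    have h1 := Complex.abs_re_le_norm (w - (π : ℂ))
    rw [Complex.sub_re, hre, Complex.ofReal_re, zero_sub, abs_neg,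
      abs_of_pos Real.pi_pos] at h1
    linarith
  have hcos : Complex.cos w = ((Real.cosh η : ℝ) : ℂ) := by
    rw [hw, Complex.cos_mul_I, Complex.ofReal_cosh]
  have h1 := (hU5w n P σ β α ε hn hdeg hb hσ hβ hβα hα hε0 hcl).1 w (by rw [him]; exact hη)
    (by rw [hcos]; exact g3s_aeval hy)
  obtain ⟨h2, h3⟩ := hHm w (by rw [hre]) (by rw [hre]; linarith) (by rw [him]; exact hη)
  have h4 := h2 α (hβ.trans hβα) hα (by linarith)
  have h5 := h3 β hβ (hβα.trans hα) (by rw [hnw]; nlinarith)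
  rw [hnw, him] at h5
  rw [him, min_eq_left (show (1 : ℝ) ≤ ‖w - (π : ℂ)‖ by linarith)] at h4
  have h6 : C * (π - α) * min 1 η / 1 ^ 2 ≤ δ / 4 := by
    have h7 : min 1 η ≤ 1 := min_le_left _ _
    have h8 : 0 ≤ C * (π - α) := mul_nonneg hC.le (by linarith)
    rw [one_pow, div_one]
    nlinarith
  have h7 : C * β * min 1 η / min 1 η ^ 2 ≤ δ / 4 := by
    rcases le_total η 1 with h | h
    · rw [min_eq_right h]
      have e : C * β * η / η ^ 2 = C * β / η := by field_simp
      rw [e, div_le_iff₀ hη]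
      have h8 : β ≤ η / C1 := by
        rw [le_div_iff₀ (by linarith)]
        linarith
      calc C * β ≤ C * (η / C1) := mul_le_mul_of_nonneg_left h8 hC.le
        _ = C / C1 * η := by ring
        _ ≤ δ / 4 * η := mul_le_mul_of_nonneg_right hCC hη.le
    · rw [min_eq_left h]
      simpa using hg1
  have hπ2 : 2 / π ≤ 1 := by
    rw [div_le_one Real.pi_pos]
    linarith
  have h8 : 2 / π * ((∫ θ in (-β)..β, pk (Complex.exp (w * Complex.I)) θ) +
      ∫ θ in α..(2 * π - α), pk (Complex.exp (w * Complex.I)) θ) ≤ δ / 2 := by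
    have h9 : (∫ θ in (-β)..β, pk (Complex.exp (w * Complex.I)) θ) +
      (∫ θ in α..(2 * π - α), pk (Complex.exp (w * Complex.I)) θ) ≤ δ / 2 := by linarith
    have h10 : (0 : ℝ) ≤ 2 / π := by positivity
    calc _ ≤ 2 / π * (δ / 2) := mul_le_mul_of_nonneg_left h9 h10
      _ ≤ 1 * (δ / 2) := mul_le_mul_of_nonneg_right hπ2 (by linarith)
      _ = δ / 2 := one_mul _
  rw [him] at h1
  refine g3s_exp hδ0.le hδ ?_
  have e : 2 * (n * η) = 2 * n * η := by ring
  rw [e]
  linarith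

/-- critical points to the right of the interval -/
theorem g3s_R (hA2 : A2) (hFT : FT) (hHm : Hm) (hNP : NP) (hU5w : U5w) :
    ∃ η R c0 C2 : ℝ, 0 < η ∧ η ≤ 1 / 10 ∧ 0 < R ∧ 0 < c0 ∧ 0 < C2 ∧ ∃ n0 : ℕ, ∀ n ≥ n0,
    ∀ (a b : ℝ) (P : ℝ[X]), Wd n R a b → π - arccos a ≤ η * (arccos a - arccos b) →
    arccos b ≤ η * (arccos a - arccos b) → Ext n a b P → n ≤ P.natDegree ∧
    ∀ y : ℝ, 1 ≤ y → P.derivative.eval y = 0 →
      c0 ≤ n * arccos b ∧ y - 1 ≤ C2 * (1 - b) := by
  obtain ⟨c, hc, hFT⟩ := hFT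
  obtain ⟨C, hC, hHm⟩ := hHm
  have hπ3 := Real.pi_gt_three
  have hπ4 := Real.pi_lt_four
  set δ : ℝ := min c (1 / 2) with hδ
  have hδ0 : 0 < δ := lt_min hc (by norm_num)
  have hδ2 : δ ≤ 1 / 2 := min_le_right _ _
  have hδc : δ ≤ c := min_le_left _ _
  set C1 : ℝ := max 2 (4 * C / δ) with hC1
  have hC12 : 2 ≤ C1 := le_max_left _ _
  have hC10 : 0 < C1 := by linarith
  have hCC : C / C1 ≤ δ / 4 := by
    have h1 : 4 * C / δ ≤ C1 := le_max_right _ _
    rw [div_le_iff₀ hδ0] at h1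
    rw [div_le_iff₀ hC10]
    linarith
  obtain ⟨η1, R, hη1, hR, n1, hNP⟩ := hNP (δ / 16) (by positivity)
  set c0 : ℝ := min (1 / 4) (c / C1) with hc0
  have hc00 : 0 < c0 := lt_min (by norm_num) (by positivity)
  have hc04 : c0 ≤ 1 / 4 := min_le_left _ _
  have hc0c : c0 ≤ c / C1 := min_le_right _ _
  have hδc0 : δ / C1 ≤ c0 := by
    refine le_min ?_ (div_le_div_of_nonneg_right hδc hC10.le)
    rw [div_le_iff₀ hC10]
    linarith
  set η : ℝ := min (min η1 (1 / 10)) (min (δ / (16 * C)) (1 / (4 * C1))) with hη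
  have hη0 : 0 < η := lt_min (lt_min hη1 (by norm_num)) (lt_min (by positivity) (by positivity))
  have hη10 : η ≤ 1 / 10 := (min_le_left _ _).trans (min_le_right _ _)
  have hηη1 : η ≤ η1 := (min_le_left _ _).trans (min_le_left _ _)
  have hηC : C * (4 * η) ≤ δ / 4 := by
    have h1 : η ≤ δ / (16 * C) := (min_le_right _ _).trans (min_le_left _ _)
    rw [le_div_iff₀ (by positivity)] at h1
    linarith
  have hηC1 : C1 * (4 * η) ≤ 1 := by
    have h1 : η ≤ 1 / (4 * C1) := (min_le_right _ _).trans (min_le_right _ _)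
    rw [le_div_iff₀ (by positivity)] at h1
    linarith
  refine ⟨η, R, c0, 8 * C1 ^ 2, hη0, hη10, hR, hc00, by positivity, max n1 1, ?_⟩
  intro n hn a b P hW hga hgb hE
  have hn1 : 1 ≤ n := le_trans (le_max_right _ _) hn
  have hnR : (1 : ℝ) ≤ n := by exact_mod_cast hn1
  have hn0 : (0 : ℝ) < n := by linarith
  have hdeg : P.natDegree ≤ n := natDegree_le_of_degree_le hE.deg
  obtain ⟨ha1, hab, hb1, hWR⟩ := hW
  have hβ0 : 0 ≤ arccos b := Real.arccos_nonneg b
  have hαπ : arccos a ≤ π := Real.arccos_le_pi a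
  have hlen : arccos a - arccos b ≤ 4 := by linarith
  have hlen0 : 0 ≤ arccos a - arccos b := by
    have := Real.arccos_le_arccos hab.le
    linarith
  have hβ4 : arccos b ≤ 4 * η := by nlinarith
  have hα4 : π - arccos a ≤ 4 * η := by nlinarith
  obtain ⟨σ, hσ, hcl⟩ := hNP n (le_trans (le_max_left _ _) hn) a b P ⟨ha1, hab, hb1, hWR⟩ hE
    (Or.inl (hga.trans (mul_le_mul_of_nonneg_right hηη1 hlen0)))
  have hε10 : δ / 16 ≤ 1 / 10 := by linarith
  have hcl2 : ∀ θ ∈ Icc (arccos b) (arccos a), |qq P θ - σ * cos (n * θ)| ≤ δ / 16 ∧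
      |deriv (qq P) θ / n + σ * sin (n * θ)| ≤ δ / 16 := fun θ hθ =>
    ⟨(hcl θ hθ).1, (hcl θ hθ).2.1⟩
  have hU := hU5w n P σ (arccos b) (arccos a) (δ / 16) hn1 hdeg hE.bdd hσ hβ0 (by linarith) hαπ
    (by positivity) hcl2
  refine ⟨?_, ?_⟩
  · by_contra hlt
    push Not at hlt
    have h1 := hU.2 (by omega)
    have hπ2 : 2 / π ≤ 1 := by
      rw [div_le_one Real.pi_pos]
      linarith
    have h2 : 2 / π * (arccos b + (π - arccos a)) ≤ 1 * (arccos b + (π - arccos a)) :=
      mul_le_mul_of_nonneg_right hπ2 (by linarith)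
    linarith
  · intro y hy hr
    set e : ℝ := Real.arcosh y with he
    have he0 : 0 ≤ e := Real.arcosh_nonneg hy
    have hey : Real.cosh e = y := Real.cosh_arcosh hy
    have hr' : P.derivative.eval (Real.cosh e) = 0 := by rw [hey]; exact hr
    have hkey : 0 < e → C1 * arccos b ≤ e → n * e ≤ δ := fun h1 h2 =>
      g3s_R0 hC hδ0 hδ2 hC12 hCC (by positivity) le_rfl hU5w
        (fun w h3 h4 h5 => ⟨(hHm w h3 h4 h5).1, (hHm w h3 h4 h5).2.1⟩) hn1 hdeg hE.bdd hσ hβ0
        (by linarith) hαπ hcl2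
        (le_trans (mul_le_mul_of_nonneg_left hβ4 hC.le) hηC)
        (le_trans (mul_le_mul_of_nonneg_left hα4 hC.le) hηC) (by linarith) h1 h2 hr'
    have hnc : c0 ≤ n * arccos b := by
      by_contra hlt
      push Not at hlt
      have h1 := g3s_q hA2 hn1 hdeg hE.bdd hσ hβ0 (by linarith) hε10
        ((hcl (arccos b) ⟨le_rfl, by linarith⟩).2.2)
      obtain ⟨h2, h3⟩ := (hFT n P hn1 hdeg hE.bdd).2 h1
      have hepos : 0 < e := by
        refine lt_of_le_of_ne he0 ?_
        intro h0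
        rw [← h0, Real.cosh_zero] at hr'
        exact h2 hr'
      have hec : c / n < e := by
        by_contra h4
        push Not at h4
        have hnw : ‖(e : ℂ) * Complex.I‖ = e := by
          rw [norm_mul, Complex.norm_I, mul_one, Complex.norm_real, Real.norm_eq_abs,
            abs_of_pos hepos]
        refine h3 ((e : ℂ) * Complex.I) ?_ ?_ ?_
        · intro h5
          rw [h5, norm_zero] at hnw
          linarith
        · rw [hnw]
          exact h4
        · rw [Complex.cos_mul_I, ← Complex.ofReal_cosh]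
          exact g3s_aeval hr'
      have h4 : C1 * arccos b ≤ e := by
        have h5 : C1 * (n * arccos b) ≤ C1 * (c / C1) :=
          mul_le_mul_of_nonneg_left (by linarith) hC10.le
        have h6 : C1 * (c / C1) = c := by field_simp
        have h7 : C1 * arccos b ≤ c / n := by
          rw [le_div_iff₀ hn0]
          linarith
        linarith
      have h5 := hkey hepos h4
      rw [div_lt_iff₀ hn0] at hec
      linarith
    refine ⟨hnc, ?_⟩
    have heβ : e ≤ C1 * arccos b := by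
      by_contra hlt
      push Not at hlt
      have hepos : 0 < e := lt_of_le_of_lt (by positivity) hlt
      have h1 := hkey hepos hlt.le
      have h2 : C1 * (n * arccos b) < δ := by
        have : n * (C1 * arccos b) < n * e := mul_lt_mul_of_pos_left hlt hn0
        linarith
      have h3 : n * arccos b < δ / C1 := by
        rw [lt_div_iff₀ hC10]
        linarith
      linarith
    have he1 : e ≤ 1 := heβ.trans ((mul_le_mul_of_nonneg_left hβ4 hC10.le).trans hηC1)
    have h1 := g3s_cosh he0 he1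
    rw [hey] at h1
    have h2 : 2 / π ^ 2 * arccos b ^ 2 ≤ 1 - b := by
      have h3 := Real.cos_le_one_sub_mul_cos_sq (x := arccos b) (by
        rw [abs_of_nonneg hβ0]
        exact Real.arccos_le_pi b)
      rw [Real.cos_arccos (by linarith) hb1] at h3
      linarith
    have h3 : arccos b ^ 2 ≤ 8 * (1 - b) := by
      have h4 : 1 / 8 * arccos b ^ 2 ≤ 2 / π ^ 2 * arccos b ^ 2 := by
        refine mul_le_mul_of_nonneg_right ?_ (sq_nonneg _)
        rw [div_le_div_iff₀ (by norm_num) (by positivity)]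
        nlinarith
      linarith
    have h4 : e ^ 2 ≤ (C1 * arccos b) ^ 2 := pow_le_pow_left₀ he0 heβ 2
    calc y - 1 ≤ e ^ 2 := h1
      _ ≤ (C1 * arccos b) ^ 2 := h4
      _ = C1 ^ 2 * arccos b ^ 2 := by ring
      _ ≤ C1 ^ 2 * (8 * (1 - b)) := mul_le_mul_of_nonneg_left h3 (by positivity)
      _ = 8 * C1 ^ 2 * (1 - b) := by ring

theorem g3s_L (hX0 : X0) (hA2 : A2) (hFT : FT) (hHm : Hm) (hNP : NP) (hU5w : U5w) :
    ∃ η R c0 C2 : ℝ, 0 < η ∧ η ≤ 1 / 10 ∧ 0 < R ∧ 0 < c0 ∧ 0 < C2 ∧ ∃ n0 : ℕ, ∀ n ≥ n0,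
    ∀ (a b : ℝ) (P : ℝ[X]), Wd n R a b → π - arccos a ≤ η * (arccos a - arccos b) →
    arccos b ≤ η * (arccos a - arccos b) → Ext n a b P → n ≤ P.natDegree ∧
    (∀ y : ℝ, 1 ≤ y → P.derivative.eval y = 0 →
      c0 ≤ n * arccos b ∧ y - 1 ≤ C2 * (1 - b)) ∧
    (∀ y : ℝ, y ≤ -1 → P.derivative.eval y = 0 →
      c0 ≤ n * (π - arccos a) ∧ -1 - y ≤ C2 * (1 + a)) := by
  obtain ⟨η, R, c0, C2, h1, h2, h3, h4, h5, n0, h6⟩ := g3s_R hA2 hFT hHm hNP hU5w
  refine ⟨η, R, c0, C2, h1, h2, h3, h4, h5, n0, fun n hn a b P hW hga hgb hE => ?_⟩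
  obtain ⟨h7, h8⟩ := h6 n hn a b P hW hga hgb hE
  refine ⟨h7, h8, fun y hy hr => ?_⟩
  have hE' := hX0.2.2 n a b P hE
  obtain ⟨ha1, hab, hb1, hWR⟩ := hW
  have e1 : arccos (-b) = π - arccos b := Real.arccos_neg b
  have e2 : arccos (-a) = π - arccos a := Real.arccos_neg a
  have h9 := h6 n hn (-b) (-a) (P.comp (-X)) ⟨by linarith, by linarith, by linarith, by
    rw [e1, e2]
    have e : (n : ℝ) * (π - arccos b - (π - arccos a)) = n * (arccos a - arccos b) := by ring
    rw [e]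
    exact hWR⟩ (by
    rw [e1, e2]
    have e : π - arccos b - (π - arccos a) = arccos a - arccos b := by ring
    rw [e]
    linarith) (by
    rw [e1, e2]
    have e : π - arccos b - (π - arccos a) = arccos a - arccos b := by ring
    rw [e]
    exact hga) hE'
  have h10 := h9.2 (-y) (by linarith) (by
    rw [derivative_comp]
    simp [hr])
  rw [e2] at h10
  refine ⟨h10.1, ?_⟩
  have h11 := h10.2
  linarith

/-- upper bound for weighted integrals -/
theorem g3s_up (hA2 : A2) (hG0u : G0u) (hG2av : G2av) : ∃ K : ℝ, 0 < K ∧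
    ∀ (n : ℕ) (a b A : ℝ) (P : ℝ[X]) (F w : ℝ → ℝ), 2 ≤ n → -1 ≤ a → a < b → b ≤ 1 →
    arccos b + 1 / n ≤ arccos a → P.natDegree ≤ n → Bdd P →
    ND n (qq P) (arccos b) (arccos a) → ContinuousOn F (Icc a b) →
    ContinuousOn w (Icc (arccos b) (arccos a)) →
    (∀ θ ∈ Icc (arccos b) (arccos a), 0 ≤ w θ) →
    (∀ θ ∈ Icc (arccos b) (arccos a), F (cos θ) ≤ w θ) → 1 ≤ A →
    (∀ x ∈ Icc (arccos b) (arccos a), ∀ y ∈ Icc (arccos b) (arccos a), |x - y| ≤ 1 / n →
      w x ≤ A * w y) →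
    (∫ x in a..b, F x / √(1 + P.derivative.eval x ^ 2)) ≤
      K * A * (1 + Real.log n) / n * ∫ θ in (arccos b)..(arccos a), w θ * (sin θ + 1 / n) ^ 2 := by
  obtain ⟨K, hK, hG⟩ := hG2av
  refine ⟨K, hK, fun n a b A P F w hn ha hab hb hlen hdeg hB hND hF hw hw0 hFw hA hsl => ?_⟩
  refine le_trans ?_ (hG n a b A P w hn ha hab hb hlen hdeg hB hND hw hw0 hA hsl)
  rw [hG0u a b P F ha hab.le hb hF]
  have hle : arccos b ≤ arccos a := Real.arccos_le_arccos hab.le
  have hsc := g3o_s hA2 P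
  have hmap : ∀ θ ∈ Icc (arccos b) (arccos a), cos θ ∈ Icc a b := by
    intro θ hθ
    have h1 := Real.cos_le_cos_of_nonneg_of_le_pi (Real.arccos_nonneg b)
      (hθ.2.trans (Real.arccos_le_pi a)) hθ.1
    have h2 := Real.cos_le_cos_of_nonneg_of_le_pi ((Real.arccos_nonneg b).trans hθ.1)
      (Real.arccos_le_pi a) hθ.2
    rw [Real.cos_arccos (by linarith) hb] at h1
    rw [Real.cos_arccos ha (by linarith)] at h2
    exact ⟨h2, h1⟩
  refine integral_mono_on hle ?_ ?_ ?_
  · refine ContinuousOn.intervalIntegrable ?_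
    rw [uIcc_of_le hle]
    exact (hF.comp Real.continuous_cos.continuousOn hmap).mul hsc.continuousOn
  · refine ContinuousOn.intervalIntegrable ?_
    rw [uIcc_of_le hle]
    exact hw.mul hsc.continuousOn
  · intro θ hθ
    exact mul_le_mul_of_nonneg_right (hFw θ hθ) (by positivity)

/-- one critical point on each side -/
theorem g3s_a (hA2 : A2) (hG0 : G0) (hG0u : G0u) (hG2av : G2av) {C2 : ℝ} (hC2 : 0 < C2) :
    ∃ n0 : ℕ, ∀ n ≥ n0, ∀ (a b y1 y2 : ℝ) (P : ℝ[X]), -1 < a → a ≤ -(1 / 2) → 1 / 2 ≤ b →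
    b < 1 → arccos b + 1 / n ≤ arccos a → Ext n a b P → ND n (qq P) (arccos b) (arccos a) →
    y1 ≤ -1 → 1 ≤ y2 → -1 - y1 ≤ C2 * (1 + a) → y2 - 1 ≤ C2 * (1 - b) →
    (X - C y1) * (X - C y2) ∣ P.derivative → False := by
  obtain ⟨K, hK, hup⟩ := g3s_up hA2 hG0u hG2av
  obtain ⟨n1, hn1⟩ := Filter.eventually_atTop.1
    ((g3o_tend (K * 32)).eventually (gt_mem_nhds
      (show (0 : ℝ) < 1 / ((2 + C2) * (1 + C2)) by positivity)))
  refine ⟨max n1 2, ?_⟩
  intro n hn a b y1 y2 P ha1 ha2 hb2 hb1 hlen hE hND hy1 hy2 hy1' hy2' hdv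
  have hn2 : 2 ≤ n := le_trans (le_max_right _ _) hn
  have hsmall := hn1 n (le_trans (le_max_left _ _) hn)
  have hnR : (1 : ℝ) ≤ n := by exact_mod_cast (by omega : 1 ≤ n)
  have hn0 : (0 : ℝ) < n := by linarith
  have hL : 0 ≤ Real.log n := Real.log_nonneg hnR
  have hdeg : P.natDegree ≤ n := natDegree_le_of_degree_le hE.deg
  obtain ⟨R, hR⟩ := hdv
  have hab : a < b := by linarith
  have hne : ∀ x ∈ Icc a b, 0 < x - y1 ∧ 0 < y2 - x := fun x hx =>
    ⟨by linarith [hx.1], by linarith [hx.2]⟩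
  have hR' : P.derivative = ((X - C y1) * (C y2 - X)) * (-R) := by
    rw [hR]
    ring
  have hDn : ((X - C y1) * (C y2 - X) : ℝ[X]).natDegree = 2 := by
    have e : ((X - C y1) * (C y2 - X) : ℝ[X]) = -((X - C y1) * (X - C y2)) := by ring
    rw [e, natDegree_neg, natDegree_mul (X_sub_C_ne_zero _) (X_sub_C_ne_zero _),
      natDegree_X_sub_C, natDegree_X_sub_C]
  have hid := hG0 n a b P ((X - C y1) * (C y2 - X)) (-R) (X - C a) (by omega) ha1.le hab hb1.le hE
    hR' (by
    intro x hx hx1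
    have h1 := Pool.Agent.Helper40.AS.contact_int hE.bdd hx hx1
    rw [hR', eval_mul, eval_mul] at h1
    simp only [eval_sub, eval_X, eval_C] at h1
    rcases mul_eq_zero.1 h1 with h2 | h2
    · exfalso
      rcases mul_eq_zero.1 h2 with h3 | h3
      · linarith [hx.1]
      · linarith [hx.2]
    · exact h2) (by
    rw [hDn, natDegree_X_sub_C]
    omega) (fun x hx => by
    simp only [eval_mul, eval_sub, eval_X, eval_C]
    exact mul_ne_zero (hne x hx).1.ne' (hne x hx).2.ne')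
  simp only [eval_mul, eval_sub, eval_X, eval_C, sub_self, mul_zero, zero_div, zero_mul,
    sub_zero] at hid
  have hlow : 1 / ((2 + C2) * (1 + C2)) ≤
      (1 - b ^ 2) * (b - a) / ((b - y1) * (y2 - b)) * √(1 + P.derivative.eval b ^ 2) := by
    have hs := Pool.Agent.Helper40.AS.one_le_s P b
    obtain ⟨h1, h2⟩ := hne b ⟨hab.le, le_rfl⟩
    have h3 : b - y1 ≤ 2 + C2 := by nlinarith
    have h4 : y2 - b ≤ (1 + C2) * (1 - b) := by linarith
    have h5 : 1 / ((2 + C2) * (1 + C2)) ≤ (1 - b ^ 2) * (b - a) / ((b - y1) * (y2 - b)) := by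
      rw [div_le_div_iff₀ (by positivity) (by positivity)]
      have h6 : (b - y1) * (y2 - b) ≤ (2 + C2) * ((1 + C2) * (1 - b)) :=
        mul_le_mul h3 h4 h2.le (by linarith)
      have h7 : 1 - b ≤ (1 - b ^ 2) * (b - a) := by
        have h8 : 1 - b ≤ 1 - b ^ 2 := by nlinarith
        have h9 : (1 - b ^ 2) * 1 ≤ (1 - b ^ 2) * (b - a) :=
          mul_le_mul_of_nonneg_left (by linarith) (by nlinarith)
        linarith
      have h8 : (1 - b) * ((2 + C2) * (1 + C2)) ≤
          (1 - b ^ 2) * (b - a) * ((2 + C2) * (1 + C2)) :=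
        mul_le_mul_of_nonneg_right h7 (by positivity)
      linarith
    have h6 : 0 ≤ (1 - b ^ 2) * (b - a) / ((b - y1) * (y2 - b)) := le_trans (by positivity) h5
    nlinarith
  rw [hid] at hlow
  have hcs : Continuous fun x => √(1 + P.derivative.eval x ^ 2) := by fun_prop
  have hsp : ∀ x : ℝ, 0 < √(1 + P.derivative.eval x ^ 2) := fun x =>
    Real.sqrt_pos.2 (by positivity)
  have hle1 : (∫ x in a..b, ((((1 - X ^ 2) * (X - C a) : ℝ[X]).derivative.eval x *
      ((x - y1) * (y2 - x)) - ((1 - x ^ 2) * (x - a)) *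
        ((X - C y1) * (C y2 - X) : ℝ[X]).derivative.eval x) / ((x - y1) * (y2 - x)) ^ 2) /
      √(1 + P.derivative.eval x ^ 2)) ≤
      ∫ x in a..b, (fun _ => (2 : ℝ)) x / √(1 + P.derivative.eval x ^ 2) := by
    refine integral_mono_on hab.le ?_ ?_ ?_
    · refine ContinuousOn.intervalIntegrable ?_
      rw [uIcc_of_le hab.le]
      refine ContinuousOn.div (ContinuousOn.div ?_ ?_ ?_) hcs.continuousOn fun x _ => (hsp x).ne'
      · fun_prop
      · fun_prop
      · intro x hx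
        exact pow_ne_zero _ (mul_ne_zero (hne x hx).1.ne' (hne x hx).2.ne')
    · refine ContinuousOn.intervalIntegrable ?_
      exact continuousOn_const.div hcs.continuousOn fun x _ => (hsp x).ne'
    · intro x hx
      obtain ⟨h1, h2⟩ := hne x hx
      refine div_le_div_of_nonneg_right ?_ (hsp x).le
      rw [div_le_iff₀ (by positivity)]
      have e1 : ((1 - X ^ 2) * (X - C a) : ℝ[X]).derivative.eval x =
          -2 * x * (x - a) + (1 - x ^ 2) := by
        simp only [derivative_mul, derivative_sub, derivative_one, derivative_X_pow, derivative_X,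
          derivative_C, eval_add, eval_mul, eval_sub, eval_one, eval_pow, eval_X, eval_C,
          eval_zero]
        push_cast
        ring
      have e2 : ((X - C y1) * (C y2 - X) : ℝ[X]).derivative.eval x = (y2 - x) - (x - y1) := by
        simp only [derivative_mul, derivative_sub, derivative_X, derivative_C, eval_add, eval_mul,
          eval_sub, eval_one, eval_X, eval_C, eval_zero]
        ring
      rw [e1, e2]
      -- u = 1 - x, v = 1 + x, s = x - a, p = x - y1, r = y2 - x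
      have hu : 0 ≤ 1 - x := by linarith [hx.2]
      have hv : 0 ≤ 1 + x := by linarith [hx.1]
      have hs : 0 ≤ x - a := by linarith [hx.1]
      have hvp : 1 + x ≤ x - y1 := by linarith
      have hsp' : x - a ≤ x - y1 := by linarith
      have hur : 1 - x ≤ y2 - x := by linarith
      set u := 1 - x with hu'
      set v := 1 + x with hv'
      set s := x - a with hs'
      set p := x - y1 with hp'
      set r := y2 - x with hr'
      have e3 : (-2 * x * s + (1 - x ^ 2)) * (p * r) - (1 - x ^ 2) * s * (r - p) =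
          u * s * p * r + u * v * p * r - u * v * s * r - v * s * p * (r - u) := by
        rw [hu', hv']
        ring
      rw [e3]
      have h3 : u * s * p * r ≤ (p * r) ^ 2 := by
        calc u * s * p * r = (u * s) * (p * r) := by ring
          _ ≤ (r * p) * (p * r) := mul_le_mul_of_nonneg_right
            (mul_le_mul hur hsp' hs h2.le) (by positivity)
          _ = (p * r) ^ 2 := by ring
      have h4 : u * v * p * r ≤ (p * r) ^ 2 := by
        calc u * v * p * r = (u * v) * (p * r) := by ring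
          _ ≤ (r * p) * (p * r) := mul_le_mul_of_nonneg_right
            (mul_le_mul hur hvp hv h2.le) (by positivity)
          _ = (p * r) ^ 2 := by ring
      have h5 : 0 ≤ u * v * s * r := by positivity
      have h6 : 0 ≤ v * s * p * (r - u) := mul_nonneg (by positivity) (by linarith)
      linarith
  have h1 := hup n a b 1 P (fun _ => 2) (fun _ => 2) hn2 ha1.le hab hb1.le hlen hdeg hE.bdd hND
    continuousOn_const continuousOn_const (fun _ _ => by norm_num) (fun _ _ => le_rfl) le_rfl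
    (fun _ _ _ _ _ => by norm_num)
  have hle : arccos b ≤ arccos a := Real.arccos_le_arccos hab.le
  have h2 : (∫ θ in (arccos b)..(arccos a), (2 : ℝ) * (sin θ + 1 / n) ^ 2) ≤ 32 := by
    have h3 : (∫ θ in (arccos b)..(arccos a), (2 : ℝ) * (sin θ + 1 / n) ^ 2) ≤
        ∫ _θ in (arccos b)..(arccos a), (8 : ℝ) := by
      refine integral_mono_on hle ?_ ?_ ?_
      · exact Continuous.intervalIntegrable (by fun_prop) _ _
      · exact Continuous.intervalIntegrable (by fun_prop) _ _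
      · intro θ hθ
        have h4 : 0 ≤ sin θ := Real.sin_nonneg_of_nonneg_of_le_pi
          ((Real.arccos_nonneg b).trans hθ.1) (hθ.2.trans (Real.arccos_le_pi a))
        have h5 := Real.sin_le_one θ
        have h6 : 1 / (n : ℝ) ≤ 1 := by
          rw [div_le_one hn0]
          exact hnR
        have h7 : 0 ≤ 1 / (n : ℝ) := by positivity
        nlinarith
    refine h3.trans ?_
    rw [intervalIntegral.integral_const, smul_eq_mul]
    have := Real.arccos_nonneg b
    have := Real.arccos_le_pi a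
    have := Real.pi_lt_four
    linarith
  have h3 : K * 1 * (1 + Real.log n) / n *
      (∫ θ in (arccos b)..(arccos a), (2 : ℝ) * (sin θ + 1 / n) ^ 2) ≤
      K * 1 * (1 + Real.log n) / n * 32 := mul_le_mul_of_nonneg_left h2 (by positivity)
  have h4 : K * 1 * (1 + Real.log n) / n * 32 ≤ K * 32 * (1 + Real.log n) ^ 2 / n := by
    have e : K * 1 * (1 + Real.log n) / n * 32 = K * 32 * (1 + Real.log n) / n := by ring
    rw [e]
    refine div_le_div_of_nonneg_right ?_ hn0.le
    refine mul_le_mul_of_nonneg_left ?_ (by positivity)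
    nlinarith
  exact absurd hsmall (not_lt.2 ((((hlow.trans hle1).trans h1).trans h3).trans h4))

theorem g3s_inv {β α : ℝ} (hβ : 0 < β) (hα : β ≤ α) :
    (∫ θ in β..α, 1 / θ ^ 2) ≤ 1 / β := by
  have h1 : (∫ θ in β..α, 1 / θ ^ 2) = (-(1 / α)) - (-(1 / β)) := by
    refine integral_eq_sub_of_hasDerivAt (f := fun x => -(1 / x)) ?_ ?_
    · intro x hx
      rw [uIcc_of_le hα] at hx
      have hx0 : x ≠ 0 := (lt_of_lt_of_le hβ hx.1).ne'
      have h2 := (hasDerivAt_inv hx0).neg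
      have e : (fun x : ℝ => -(1 / x)) = fun x => -(x⁻¹) := by
        funext y
        rw [one_div]
      rw [e]
      refine h2.congr_deriv ?_
      rw [neg_neg, one_div]
    · refine ContinuousOn.intervalIntegrable ?_
      rw [uIcc_of_le hα]
      refine continuousOn_const.div (by fun_prop) ?_
      intro x hx
      exact pow_ne_zero _ (lt_of_lt_of_le hβ hx.1).ne'
  rw [h1]
  have h2 : 0 < 1 / α := by
    have : 0 < α := lt_of_lt_of_le hβ hα
    positivity
  linarith

/-- two critical points on the right -/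
theorem g3s_b (hA2 : A2) (hG0 : G0) (hG0u : G0u) (hG2av : G2av) {c0 C2 : ℝ} (hc0 : 0 < c0)
    (hC2 : 0 < C2) :
    ∃ n0 : ℕ, ∀ n ≥ n0, ∀ (a b y1 y2 : ℝ) (P : ℝ[X]), -1 ≤ a → a ≤ -(1 / 2) → 1 / 2 ≤ b →
    b < 1 → arccos b + 1 / n ≤ arccos a → Ext n a b P → ND n (qq P) (arccos b) (arccos a) →
    c0 ≤ n * arccos b → 1 ≤ y1 → 1 ≤ y2 → y1 - 1 ≤ C2 * (1 - b) → y2 - 1 ≤ C2 * (1 - b) →
    (X - C y1) * (X - C y2) ∣ P.derivative → False := by
  obtain ⟨K, hK, hup⟩ := g3s_up hA2 hG0u hG2av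
  set A : ℝ := (1 + 1 / c0) ^ 4 with hA
  set K2 : ℝ := K * A * (768 * (1 + 1 / c0) ^ 2) * 4 with hK2
  obtain ⟨n1, hn1⟩ := Filter.eventually_atTop.1
    ((g3o_tend K2).eventually (gt_mem_nhds
      (show (0 : ℝ) < 1 / (1 + C2) ^ 2 by positivity)))
  refine ⟨max n1 2, ?_⟩
  intro n hn a b y1 y2 P ha1 ha2 hb2 hb1 hlen hE hND hnβ hy1 hy2 hy1' hy2' hdv
  have hn2 : 2 ≤ n := le_trans (le_max_right _ _) hn
  have hsmall := hn1 n (le_trans (le_max_left _ _) hn)
  have hnR : (1 : ℝ) ≤ n := by exact_mod_cast (by omega : 1 ≤ n)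
  have hn0 : (0 : ℝ) < n := by linarith
  have hL : 0 ≤ Real.log n := Real.log_nonneg hnR
  have hdeg : P.natDegree ≤ n := natDegree_le_of_degree_le hE.deg
  have hc1 : 1 ≤ 1 + 1 / c0 := by
    have : 0 < 1 / c0 := by positivity
    linarith
  have hA1 : 1 ≤ A := one_le_pow₀ hc1
  obtain ⟨R, hR⟩ := hdv
  have hab : a < b := by linarith
  have hβ0 : 0 < arccos b := by
    by_contra h
    push Not at h
    have : (n : ℝ) * arccos b ≤ 0 := mul_nonpos_of_nonneg_of_nonpos hn0.le h
    linarith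
  have hne : ∀ x ∈ Icc a b, 0 < y1 - x ∧ 0 < y2 - x := fun x hx =>
    ⟨by linarith [hx.2], by linarith [hx.2]⟩
  have hR' : P.derivative = ((C y1 - X) * (C y2 - X)) * R := by
    rw [hR]
    ring
  have hDn : ((C y1 - X) * (C y2 - X) : ℝ[X]).natDegree = 2 := by
    have e : ((C y1 - X) * (C y2 - X) : ℝ[X]) = ((X - C y1) * (X - C y2)) := by ring
    rw [e, natDegree_mul (X_sub_C_ne_zero _) (X_sub_C_ne_zero _),
      natDegree_X_sub_C, natDegree_X_sub_C]
  have hid := hG0 n a b P ((C y1 - X) * (C y2 - X)) R (X - C a) (by omega) ha1 hab hb1.le hE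
    hR' (by
    intro x hx hx1
    have h1 := Pool.Agent.Helper40.AS.contact_int hE.bdd hx hx1
    rw [hR', eval_mul, eval_mul] at h1
    simp only [eval_sub, eval_X, eval_C] at h1
    rcases mul_eq_zero.1 h1 with h2 | h2
    · exfalso
      rcases mul_eq_zero.1 h2 with h3 | h3
      · linarith [hx.2]
      · linarith [hx.2]
    · exact h2) (by
    rw [hDn, natDegree_X_sub_C]
    omega) (fun x hx => by
    simp only [eval_mul, eval_sub, eval_X, eval_C]
    exact mul_ne_zero (hne x hx).1.ne' (hne x hx).2.ne')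
  simp only [eval_mul, eval_sub, eval_X, eval_C, sub_self, mul_zero, zero_div, zero_mul,
    sub_zero] at hid
  have hb1' : 0 < 1 - b := by linarith
  have hlow : 1 / ((1 + C2) ^ 2 * (1 - b)) ≤
      (1 - b ^ 2) * (b - a) / ((y1 - b) * (y2 - b)) * √(1 + P.derivative.eval b ^ 2) := by
    have hs := Pool.Agent.Helper40.AS.one_le_s P b
    obtain ⟨h1, h2⟩ := hne b ⟨hab.le, le_rfl⟩
    have h3 : y1 - b ≤ (1 + C2) * (1 - b) := by linarith
    have h4 : y2 - b ≤ (1 + C2) * (1 - b) := by linarith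
    have h5 : 1 / ((1 + C2) ^ 2 * (1 - b)) ≤ (1 - b ^ 2) * (b - a) / ((y1 - b) * (y2 - b)) := by
      rw [div_le_div_iff₀ (by positivity) (by positivity)]
      have h6 : (y1 - b) * (y2 - b) ≤ ((1 + C2) * (1 - b)) * ((1 + C2) * (1 - b)) :=
        mul_le_mul h3 h4 h2.le (by positivity)
      have h7 : 1 - b ≤ (1 - b ^ 2) * (b - a) := by
        have h8 : 1 - b ≤ 1 - b ^ 2 := by nlinarith
        have h9 : (1 - b ^ 2) * 1 ≤ (1 - b ^ 2) * (b - a) :=
          mul_le_mul_of_nonneg_left (by linarith) (by nlinarith)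
        linarith
      have h8 : (1 - b) * ((1 + C2) ^ 2 * (1 - b)) ≤
          (1 - b ^ 2) * (b - a) * ((1 + C2) ^ 2 * (1 - b)) :=
        mul_le_mul_of_nonneg_right h7 (by positivity)
      calc 1 * ((y1 - b) * (y2 - b)) ≤ ((1 + C2) * (1 - b)) * ((1 + C2) * (1 - b)) := by
            rw [one_mul]
            exact h6
        _ = (1 - b) * ((1 + C2) ^ 2 * (1 - b)) := by ring
        _ ≤ _ := h8
    have h6 : 0 ≤ (1 - b ^ 2) * (b - a) / ((y1 - b) * (y2 - b)) := le_trans (by positivity) h5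
    nlinarith
  rw [hid] at hlow
  have hcs : Continuous fun x => √(1 + P.derivative.eval x ^ 2) := by fun_prop
  have hsp : ∀ x : ℝ, 0 < √(1 + P.derivative.eval x ^ 2) := fun x =>
    Real.sqrt_pos.2 (by positivity)
  have hFc : ContinuousOn (fun x : ℝ => 12 / (1 - x) ^ 2) (Icc a b) := by
    refine continuousOn_const.div (by fun_prop) fun x hx => ?_
    have : 0 < 1 - x := by linarith [hx.2]
    positivity
  have hle1 : (∫ x in a..b, ((((1 - X ^ 2) * (X - C a) : ℝ[X]).derivative.eval x *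
      ((y1 - x) * (y2 - x)) - ((1 - x ^ 2) * (x - a)) *
        ((C y1 - X) * (C y2 - X) : ℝ[X]).derivative.eval x) / ((y1 - x) * (y2 - x)) ^ 2) /
      √(1 + P.derivative.eval x ^ 2)) ≤
      ∫ x in a..b, (fun x : ℝ => 12 / (1 - x) ^ 2) x / √(1 + P.derivative.eval x ^ 2) := by
    refine integral_mono_on hab.le ?_ ?_ ?_
    · refine ContinuousOn.intervalIntegrable ?_
      rw [uIcc_of_le hab.le]
      refine ContinuousOn.div (ContinuousOn.div ?_ ?_ ?_) hcs.continuousOn fun x _ => (hsp x).ne'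
      · fun_prop
      · fun_prop
      · intro x hx
        exact pow_ne_zero _ (mul_ne_zero (hne x hx).1.ne' (hne x hx).2.ne')
    · refine ContinuousOn.intervalIntegrable ?_
      rw [uIcc_of_le hab.le]
      exact hFc.div hcs.continuousOn fun x _ => (hsp x).ne'
    · intro x hx
      obtain ⟨h1, h2⟩ := hne x hx
      refine div_le_div_of_nonneg_right ?_ (hsp x).le
      have hu : 0 < 1 - x := by linarith [hx.2]
      rw [div_le_div_iff₀ (by positivity) (by positivity)]
      have e1 : ((1 - X ^ 2) * (X - C a) : ℝ[X]).derivative.eval x =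
          -2 * x * (x - a) + (1 - x ^ 2) := by
        simp only [derivative_mul, derivative_sub, derivative_one, derivative_X_pow, derivative_X,
          derivative_C, eval_add, eval_mul, eval_sub, eval_one, eval_pow, eval_X, eval_C,
          eval_zero]
        push_cast
        ring
      have e2 : ((C y1 - X) * (C y2 - X) : ℝ[X]).derivative.eval x =
          -((y2 - x) + (y1 - x)) := by
        simp only [derivative_mul, derivative_sub, derivative_X, derivative_C, eval_add, eval_mul,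
          eval_sub, eval_one, eval_X, eval_C, eval_zero]
        ring
      rw [e1, e2]
      have hv : 0 ≤ 1 + x := by linarith [hx.1]
      have hs : 0 ≤ x - a := by linarith [hx.1]
      have hv2 : 1 + x ≤ 2 := by linarith [hx.2]
      have hs2 : x - a ≤ 2 := by linarith [hx.2]
      have hu2 : 1 - x ≤ 2 := by linarith [hx.1]
      have hup' : 1 - x ≤ y1 - x := by linarith
      have hur : 1 - x ≤ y2 - x := by linarith
      have e0 : (-2 * x * (x - a) + (1 - x ^ 2)) = -(1 + x) * (x - a) + (1 - x) * (x - a) +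
        (1 - x) * (1 + x) := by ring
      have e00 : (1 - x ^ 2) = (1 - x) * (1 + x) := by ring
      rw [e0, e00]
      set u := 1 - x with hu'
      set v := 1 + x with hv'
      set s := x - a with hs'
      set p := y1 - x with hp'
      set r := y2 - x with hr'
      have e3 : ((-v * s + u * s + u * v) * (p * r) - u * v * s * -(r + p)) * u ^ 2 =
          u ^ 3 * s * p * r + u ^ 3 * v * p * r + u ^ 3 * v * s * p -
            u ^ 2 * (v * s * r * (p - u)) := by
        ring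
      rw [e3]
      have hpr : u * u ≤ p * r := mul_le_mul hup' hur hu.le h1.le
      have hrr : u * u ≤ r * r := mul_le_mul hur hur hu.le h2.le
      have h3 : u ^ 3 * s * p * r ≤ 4 * (p * r) ^ 2 := by
        calc u ^ 3 * s * p * r = (u * s) * ((u * u) * (p * r)) := by ring
          _ ≤ (2 * 2) * ((p * r) * (p * r)) := mul_le_mul
            (mul_le_mul hu2 hs2 hs (by norm_num)) (mul_le_mul_of_nonneg_right hpr (by positivity))
            (by positivity) (by norm_num)
          _ = 4 * (p * r) ^ 2 := by ring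
      have h4 : u ^ 3 * v * p * r ≤ 4 * (p * r) ^ 2 := by
        calc u ^ 3 * v * p * r = (u * v) * ((u * u) * (p * r)) := by ring
          _ ≤ (2 * 2) * ((p * r) * (p * r)) := mul_le_mul
            (mul_le_mul hu2 hv2 hv (by norm_num)) (mul_le_mul_of_nonneg_right hpr (by positivity))
            (by positivity) (by norm_num)
          _ = 4 * (p * r) ^ 2 := by ring
      have h5 : u ^ 3 * v * s * p ≤ 4 * (p * r) ^ 2 := by
        calc u ^ 3 * v * s * p = (v * s) * ((u * p) * (u * u)) := by ring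
          _ ≤ (2 * 2) * ((p * p) * (r * r)) := mul_le_mul
            (mul_le_mul hv2 hs2 hs (by norm_num))
            (mul_le_mul (mul_le_mul_of_nonneg_right hup' h1.le) hrr (by positivity)
              (by positivity)) (by positivity) (by norm_num)
          _ = 4 * (p * r) ^ 2 := by ring
      have h6 : 0 ≤ u ^ 2 * (v * s * r * (p - u)) :=
        mul_nonneg (by positivity) (mul_nonneg (by positivity) (by linarith))
      linarith
  have hle : arccos b ≤ arccos a := Real.arccos_le_arccos hab.le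
  have hθ0 : ∀ θ ∈ Icc (arccos b) (arccos a), 0 < θ := fun θ hθ => lt_of_lt_of_le hβ0 hθ.1
  have hθn : ∀ θ ∈ Icc (arccos b) (arccos a), 1 / (n : ℝ) ≤ 1 / c0 * θ := by
    intro θ hθ
    have h1 : c0 ≤ n * θ := hnβ.trans (mul_le_mul_of_nonneg_left hθ.1 hn0.le)
    rw [one_div, one_div, inv_mul_eq_div, le_div_iff₀ hc0, inv_mul_le_iff₀ hn0]
    exact h1
  have hwc : ContinuousOn (fun θ : ℝ => 768 / θ ^ 4) (Icc (arccos b) (arccos a)) := by
    refine continuousOn_const.div (by fun_prop) fun x hx => ?_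
    exact pow_ne_zero _ (hθ0 x hx).ne'
  have h1 := hup n a b A P (fun x : ℝ => 12 / (1 - x) ^ 2) (fun θ : ℝ => 768 / θ ^ 4) hn2 ha1 hab
    hb1.le hlen hdeg hE.bdd hND hFc hwc (fun θ hθ => by
      have := hθ0 θ hθ
      positivity) (by
    intro θ hθ
    have h2 := hθ0 θ hθ
    have h3 := Real.cos_le_one_sub_mul_cos_sq (x := θ) (by
      rw [abs_of_pos h2]
      exact hθ.2.trans (Real.arccos_le_pi a))
    have h4 : 1 / 8 * θ ^ 2 ≤ 2 / π ^ 2 * θ ^ 2 := by
      refine mul_le_mul_of_nonneg_right ?_ (sq_nonneg _)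
      rw [div_le_div_iff₀ (by norm_num) (by positivity)]
      have := Real.pi_lt_four
      have := Real.pi_pos
      nlinarith
    have h5 : 1 / 8 * θ ^ 2 ≤ 1 - cos θ := by linarith
    have h6 : 0 < 1 / 8 * θ ^ 2 := by positivity
    have h7 : (1 / 8 * θ ^ 2) ^ 2 ≤ (1 - cos θ) ^ 2 := pow_le_pow_left₀ h6.le h5 2
    show 12 / (1 - cos θ) ^ 2 ≤ 768 / θ ^ 4
    have h8 : 0 < 1 - cos θ := by linarith
    rw [div_le_div_iff₀ (by positivity) (by positivity)]
    nlinarith) hA1 (by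
    intro x hx y hy hxy
    have h2 := hθ0 x hx
    have h3 := hθ0 y hy
    show 768 / x ^ 4 ≤ A * (768 / y ^ 4)
    rw [← mul_div_assoc, div_le_div_iff₀ (by positivity) (by positivity)]
    have h4 : y ≤ (1 + 1 / c0) * x := by
      have h5 := (abs_le.1 hxy).1
      have h6 := hθn x hx
      linarith
    have h5 : y ^ 4 ≤ ((1 + 1 / c0) * x) ^ 4 := pow_le_pow_left₀ h3.le h4 4
    calc 768 * y ^ 4 ≤ 768 * ((1 + 1 / c0) * x) ^ 4 := by linarith
      _ = A * 768 * x ^ 4 := by rw [hA]; ring)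
  have h2 : (∫ θ in (arccos b)..(arccos a), (768 / θ ^ 4) * (sin θ + 1 / n) ^ 2) ≤
      768 * (1 + 1 / c0) ^ 2 * (1 / arccos b) := by
    have h3 : (∫ θ in (arccos b)..(arccos a), (768 / θ ^ 4) * (sin θ + 1 / n) ^ 2) ≤
        ∫ θ in (arccos b)..(arccos a), 768 * (1 + 1 / c0) ^ 2 * (1 / θ ^ 2) := by
      refine integral_mono_on hle ?_ ?_ ?_
      · refine ContinuousOn.intervalIntegrable ?_
        rw [uIcc_of_le hle]
        exact hwc.mul (by fun_prop)
      · refine ContinuousOn.intervalIntegrable ?_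
        rw [uIcc_of_le hle]
        refine continuousOn_const.mul (continuousOn_const.div (by fun_prop) fun x hx => ?_)
        exact pow_ne_zero _ (hθ0 x hx).ne'
      · intro θ hθ
        have h4 := hθ0 θ hθ
        have h5 : sin θ ≤ θ := Real.sin_le h4.le
        have h6 : 0 ≤ sin θ := Real.sin_nonneg_of_nonneg_of_le_pi h4.le
          (hθ.2.trans (Real.arccos_le_pi a))
        have h7 := hθn θ hθ
        have h8 : (sin θ + 1 / n) ^ 2 ≤ ((1 + 1 / c0) * θ) ^ 2 :=
          pow_le_pow_left₀ (by positivity) (by linarith) 2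
        calc 768 / θ ^ 4 * (sin θ + 1 / n) ^ 2 ≤ 768 / θ ^ 4 * ((1 + 1 / c0) * θ) ^ 2 :=
              mul_le_mul_of_nonneg_left h8 (by positivity)
          _ = 768 * (1 + 1 / c0) ^ 2 * (1 / θ ^ 2) := by
              field_simp
    refine h3.trans ?_
    rw [intervalIntegral.integral_const_mul]
    exact mul_le_mul_of_nonneg_left (g3s_inv hβ0 hle) (by positivity)
  have h3 : K * A * (1 + Real.log n) / n *
      (∫ θ in (arccos b)..(arccos a), (768 / θ ^ 4) * (sin θ + 1 / n) ^ 2) ≤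
      K * A * (1 + Real.log n) / n * (768 * (1 + 1 / c0) ^ 2 * (1 / arccos b)) :=
    mul_le_mul_of_nonneg_left h2 (by positivity)
  have h4 := ((hlow.trans hle1).trans h1).trans h3
  -- multiply by the square of `arccos b`
  have h5 : 1 - b ≤ arccos b ^ 2 := by
    have h6 := Real.one_sub_sq_div_two_le_cos (x := arccos b)
    rw [Real.cos_arccos (by linarith) hb1.le] at h6
    nlinarith [sq_nonneg (arccos b)]
  have h6 : 1 / ((1 + C2) ^ 2 * arccos b ^ 2) ≤ 1 / ((1 + C2) ^ 2 * (1 - b)) :=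
    one_div_le_one_div_of_le (by positivity) (mul_le_mul_of_nonneg_left h5 (by positivity))
  have h7 := h6.trans h4
  have h8 : 1 / ((1 + C2) ^ 2 * arccos b ^ 2) * arccos b ^ 2 ≤
      K * A * (1 + Real.log n) / n * (768 * (1 + 1 / c0) ^ 2 * (1 / arccos b)) *
        arccos b ^ 2 := mul_le_mul_of_nonneg_right h7 (sq_nonneg _)
  have e1 : 1 / ((1 + C2) ^ 2 * arccos b ^ 2) * arccos b ^ 2 = 1 / (1 + C2) ^ 2 := by
    field_simp
  have e2 : K * A * (1 + Real.log n) / n * (768 * (1 + 1 / c0) ^ 2 * (1 / arccos b)) *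
        arccos b ^ 2 = K * A * (768 * (1 + 1 / c0) ^ 2) * (1 + Real.log n) / n * arccos b := by
    field_simp
  rw [e1, e2] at h8
  have h9 : arccos b ≤ 4 := by
    have := Real.arccos_le_pi b
    have := Real.pi_lt_four
    linarith
  have h10 : K * A * (768 * (1 + 1 / c0) ^ 2) * (1 + Real.log n) / n * arccos b ≤
      K * A * (768 * (1 + 1 / c0) ^ 2) * (1 + Real.log n) / n * 4 :=
    mul_le_mul_of_nonneg_left h9 (by positivity)
  have h11 : K * A * (768 * (1 + 1 / c0) ^ 2) * (1 + Real.log n) / n * 4 ≤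
      K2 * (1 + Real.log n) ^ 2 / n := by
    have e : K * A * (768 * (1 + 1 / c0) ^ 2) * (1 + Real.log n) / n * 4 =
        K2 * (1 + Real.log n) / n := by
      rw [hK2]
      ring
    rw [e]
    refine div_le_div_of_nonneg_right ?_ hn0.le
    refine mul_le_mul_of_nonneg_left ?_ (by positivity)
    nlinarith
  exact absurd hsmall (not_lt.2 ((h8.trans h10).trans h11))

theorem g3s (hA2 : A2) (hE6e : E6e) (hFT : FT) (hG0 : G0) (hG0u : G0u) (hG1u : G1u)
    (hG2av : G2av) (hHm : Hm) (hNP : NP) (hU5w : U5w) (hX0 : X0) : G3s := by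
  obtain ⟨η, R1, c0, C2, hη, hη10, hR1, hc0, hC2, n1, h1⟩ := g3s_L hX0 hA2 hFT hHm hNP hU5w
  obtain ⟨R2, hR2, n2, h2⟩ := hE6e
  obtain ⟨n3, h3⟩ := g3s_a hA2 hG0 hG0u hG2av hC2
  obtain ⟨n4, h4⟩ := g3s_b hA2 hG0 hG0u hG2av hc0 hC2
  refine ⟨η, max R1 R2, hη, lt_max_of_lt_left hR1, max (max n1 n2) (max (max n3 n4) 2), ?_⟩
  intro n hn a b P hW hga hgb hE
  have hnn1 : n1 ≤ n := le_trans (le_trans (le_max_left _ _) (le_max_left _ _)) hn
  have hnn2 : n2 ≤ n := le_trans (le_trans (le_max_right _ _) (le_max_left _ _)) hn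
  have hnn34 : max n3 n4 ≤ n := le_trans (le_trans (le_max_left _ _) (le_max_right _ _)) hn
  have hnn3 : n3 ≤ n := le_trans (le_max_left _ _) hnn34
  have hnn4 : n4 ≤ n := le_trans (le_max_right _ _) hnn34
  have hn2 : 2 ≤ n := le_trans (le_trans (le_max_right _ _) (le_max_right _ _)) hn
  have hnR : (2 : ℝ) ≤ n := by exact_mod_cast hn2
  have hn0 : (0 : ℝ) < n := by linarith
  obtain ⟨ha1, hab, hb1, hWR⟩ := hW
  have hW1 : Wd n R1 a b := ⟨ha1, hab, hb1, (le_max_left _ _).trans hWR⟩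
  have hW2 : Wd n R2 a b := ⟨ha1, hab, hb1, (le_max_right _ _).trans hWR⟩
  obtain ⟨h5, h6, h7⟩ := h1 n hnn1 a b P hW1 hga hgb hE
  have hND := h2 n hnn2 a b P hW2 hE
  have hβ0 : 0 ≤ arccos b := Real.arccos_nonneg b
  have hαπ : arccos a ≤ π := Real.arccos_le_pi a
  have hπ3 := Real.pi_gt_three
  have hlen0 : 0 ≤ arccos a - arccos b := by
    have := Real.arccos_le_arccos hab.le
    linarith
  have hβ : arccos b ≤ π / 10 := by nlinarith
  have hα : π - arccos a ≤ π / 10 := by nlinarith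
  have hb2 : 1 / 2 ≤ b := by
    have h8 : cos (π / 3) ≤ cos (arccos b) :=
      Real.cos_le_cos_of_nonneg_of_le_pi hβ0 (by linarith) (by linarith)
    rw [Real.cos_pi_div_three, Real.cos_arccos (by linarith) hb1] at h8
    exact h8
  have ha2 : a ≤ -(1 / 2) := by
    have h8 : cos (arccos a) ≤ cos (π - π / 3) :=
      Real.cos_le_cos_of_nonneg_of_le_pi (by linarith) hαπ (by linarith)
    rw [Real.cos_pi_sub, Real.cos_pi_div_three, Real.cos_arccos ha1 (by linarith)] at h8
    exact h8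
  have hlen : arccos b + 1 / n ≤ arccos a := by
    have h8 : 1 / (n : ℝ) ≤ 1 := by
      rw [div_le_one hn0]
      linarith
    linarith
  have hbs : ∀ y : ℝ, 1 ≤ y → P.derivative.eval y = 0 → b < 1 := by
    intro y hy hr
    have h8 := (h6 y hy hr).1
    refine lt_of_le_of_ne hb1 ?_
    rintro rfl
    rw [Real.arccos_one, mul_zero] at h8
    linarith
  have has : ∀ y : ℝ, y ≤ -1 → P.derivative.eval y = 0 → -1 < a := by
    intro y hy hr
    have h8 := (h7 y hy hr).1
    refine lt_of_le_of_ne ha1 ?_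
    rintro rfl
    rw [Real.arccos_neg_one, sub_self, mul_zero] at h8
    linarith
  refine ⟨?_, fun h8 => by omega, by omega⟩
  intro y1 y2 hy1 hy2 hdv
  have hr1 : P.derivative.eval y1 = 0 := by
    obtain ⟨Q, hQ⟩ := hdv
    rw [hQ]
    simp
  have hr2 : P.derivative.eval y2 = 0 := by
    obtain ⟨Q, hQ⟩ := hdv
    rw [hQ]
    simp
  rcases le_abs'.1 hy1 with k1 | k1 <;> rcases le_abs'.1 hy2 with k2 | k2
  · -- both on the left
    obtain ⟨l1, l2⟩ := h7 y1 k1 hr1
    obtain ⟨l3, l4⟩ := h7 y2 k2 hr2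
    have e1 : arccos (-b) = π - arccos b := Real.arccos_neg b
    have e2 : arccos (-a) = π - arccos a := Real.arccos_neg a
    have hE' := hX0.2.2 n a b P hE
    have hW' : Wd n R2 (-b) (-a) := ⟨by linarith, by linarith, by linarith, by
      rw [e1, e2]
      have e : (n : ℝ) * (π - arccos b - (π - arccos a)) = n * (arccos a - arccos b) := by ring
      rw [e]
      exact hW2.2.2.2⟩
    have hND' := h2 n hnn2 (-b) (-a) _ hW' hE'
    refine h4 n hnn4 (-b) (-a) (-y1) (-y2) (P.comp (-X)) (by linarith) (by linarith) (by linarith)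
      (by linarith [has y1 k1 hr1]) (by rw [e1, e2]; linarith) hE' hND' (by rw [e2]; exact l1)
      (by linarith) (by linarith) (by linarith) (by linarith) ?_
    obtain ⟨Q, hQ⟩ := hdv
    refine ⟨-(Q.comp (-X)), ?_⟩
    rw [derivative_comp, hQ]
    simp only [mul_comp, sub_comp, X_comp, C_comp, derivative_X, map_neg]
    ring
  · exact h3 n hnn3 a b y1 y2 P (has y1 k1 hr1) ha2 hb2 (hbs y2 k2 hr2) hlen hE hND k1 k2
      (h7 y1 k1 hr1).2 (h6 y2 k2 hr2).2 hdv
  · exact h3 n hnn3 a b y2 y1 P (has y2 k2 hr2) ha2 hb2 (hbs y1 k1 hr1) hlen hE hND k2 k1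
      (h7 y2 k2 hr2).2 (h6 y1 k1 hr1).2 (by rw [mul_comm]; exact hdv)
  · exact h4 n hnn4 a b y1 y2 P ha1 ha2 hb2 (hbs y1 k1 hr1) hlen hE hND (h6 y1 k1 hr1).1 k1 k2
      (h6 y1 k1 hr1).2 (h6 y2 k2 hr2).2 hdv

end Pool.Agent.Helper10.AL
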