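import Pool.Agent.Helper10.AL.St2

/-!
Arc length of polynomials over compact windows, piece H1: a critical point near a point with small
derivative and large second derivative.
-/

set_option autoImplicit false

namespace Pool.Agent.Helper10.AL

open Polynomial Set Real MeasureTheory intervalIntegral

theorem h1_pos {g : ℝ → ℝ} (hg : ContDiff ℝ 2 g) {N : ℝ} (hN : 0 < N) {α m : ℝ} (hm : 0 ≤ m)
    (hα : |g α| ≤ m) (h2 : N ^ 2 / 1000 ≤ deriv g α) (h3 : ∀ θ, |deriv (deriv g) θ| ≤ N ^ 3)
    (h4 : m ≤ N / 8000000) :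
    ∃ θ : ℝ, |θ - α| ≤ 2000 * m / N ^ 2 ∧ g θ = 0 := by
  have hN2 : 0 < N ^ 2 := by positivity
  set h : ℝ := 2000 * m / N ^ 2 with hh
  have hh0 : 0 ≤ h := by positivity
  have hhN : h * N ^ 2 = 2000 * m := by rw [hh]; field_simp
  have hh1 : N ^ 3 * h ≤ N ^ 2 / 4000 := by
    have : N ^ 3 * h = N * (h * N ^ 2) := by ring
    rw [this, hhN]
    nlinarith
  have hd : Differentiable ℝ g := hg.differentiable (by norm_num)
  have hg' : ContDiff ℝ 1 (deriv g) := by
    have : ContDiff ℝ (1 + 1) g := by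
      have h12 : ((1 : WithTop ℕ∞) + 1) = 2 := by norm_num
      rw [h12]; exact hg
    exact ((contDiff_succ_iff_deriv).1 this).2.2
  have hd' : Differentiable ℝ (deriv g) := hg'.differentiable (by norm_num)
  -- the derivative is large on the whole interval
  have hlow : ∀ θ, |θ - α| ≤ h → N ^ 2 / 2000 ≤ deriv g θ := by
    intro θ hθ
    have h5 : |deriv g θ - deriv g α| ≤ N ^ 3 * |θ - α| := by
      have := Convex.norm_image_sub_le_of_norm_deriv_le (f := deriv g) (C := N ^ 3)
        (s := Set.univ) (fun x _ => hd'.differentiableAt) (fun x _ => by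
          rw [Real.norm_eq_abs]; exact h3 x) convex_univ (mem_univ α) (mem_univ θ)
      rwa [Real.norm_eq_abs, Real.norm_eq_abs] at this
    have h6 : N ^ 3 * |θ - α| ≤ N ^ 3 * h := mul_le_mul_of_nonneg_left hθ (by positivity)
    have h7 := (abs_le.1 (h5.trans (h6.trans hh1))).1
    linarith
  have hr : 0 ≤ g (α + h) := by
    have h5 := Convex.mul_sub_le_image_sub_of_le_deriv (D := Icc α (α + h)) (convex_Icc _ _)
      (f := g) hd.continuous.continuousOn (fun x _ => hd.differentiableAt.differentiableWithinAt)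
      (C := N ^ 2 / 2000) (fun x hx => by
        rw [interior_Icc] at hx
        exact hlow x (by rw [abs_le]; constructor <;> linarith [hx.1, hx.2]))
      α ⟨le_refl _, by linarith⟩ (α + h) ⟨by linarith, le_refl _⟩ (by linarith)
    have h6 := (abs_le.1 hα).1
    nlinarith
  have hl : g (α - h) ≤ 0 := by
    have h5 := Convex.mul_sub_le_image_sub_of_le_deriv (D := Icc (α - h) α) (convex_Icc _ _)
      (f := g) hd.continuous.continuousOn (fun x _ => hd.differentiableAt.differentiableWithinAt)
      (C := N ^ 2 / 2000) (fun x hx => by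
        rw [interior_Icc] at hx
        exact hlow x (by rw [abs_le]; constructor <;> linarith [hx.1, hx.2]))
      (α - h) ⟨le_refl _, by linarith⟩ α ⟨by linarith, le_refl _⟩ (by linarith)
    have h6 := (abs_le.1 hα).2
    nlinarith
  have hIVT := intermediate_value_Icc (show α - h ≤ α + h by linarith)
    (hd.continuous.continuousOn (s := Icc (α - h) (α + h)))
  obtain ⟨θ, hθ, hθ0⟩ := hIVT ⟨hl, hr⟩
  refine ⟨θ, ?_, hθ0⟩
  rw [abs_le]
  constructor <;> linarith [hθ.1, hθ.2]

theorem h1 (hA1 : A1) (hA2 : A2) : H1 := by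
  intro n f α m hn hf hm hα h2 h4
  have hn0 : (0 : ℝ) < n := by exact_mod_cast hn
  obtain ⟨hs, -⟩ := (hA1.1 n f hf.1)
  have hB := (hA2.1 n f hn hf).2
  have hs3 : ContDiff ℝ 3 f := by exact_mod_cast hs 3
  have hg : ContDiff ℝ 2 (deriv f) := by
    have : ContDiff ℝ (2 + 1) f := by
      have h12 : ((2 : WithTop ℕ∞) + 1) = 3 := by norm_num
      rw [h12]; exact hs3
    exact ((contDiff_succ_iff_deriv).1 this).2.2
  rcases le_total 0 (deriv (deriv f) α) with hpos | hneg
  · rw [abs_of_nonneg hpos] at h2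
    exact h1_pos hg hn0 hm hα h2 (fun θ => (hB θ).2.2.2.2) h4
  · rw [abs_of_nonpos hneg] at h2
    have hd1 : deriv (fun x => -deriv f x) = fun x => -deriv (deriv f) x := by
      funext x; exact deriv.fun_neg
    have hd2 : deriv (fun x => -deriv (deriv f) x) = fun x => -deriv (deriv (deriv f)) x := by
      funext x; exact deriv.fun_neg
    obtain ⟨θ, hθ1, hθ2⟩ := h1_pos (g := fun x => -deriv f x) hg.neg hn0 hm
      (by rw [abs_neg]; exact hα) (by rw [hd1]; exact h2)
      (fun θ => by rw [hd1, hd2, abs_neg]; exact (hB θ).2.2.2.2) h4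
    exact ⟨θ, hθ1, by linarith⟩

end Pool.Agent.Helper10.AL
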