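import Pool.Agent.Helper10.AL.St2

/-!
Jensen's inequality for functions of exponential growth.
-/

set_option autoImplicit false

namespace Pool.Agent.Helper10.AL

open Polynomial Set Real MeasureTheory intervalIntegral
open Filter Metric

/-- the divisor of an entire function is at least one at a zero -/
theorem h4a_div (g : ℂ → ℂ) (m ζ : ℂ) (R : ℝ) (hg : Differentiable ℂ g) (hm : g m ≠ 0)
    (hζ : g ζ = 0) (hζ' : ζ ∈ closedBall m R) :
    1 ≤ MeromorphicOn.divisor g (closedBall m R) ζ := by
  have han : AnalyticOnNhd ℂ g (closedBall m R) := fun z _ => hg.analyticAt z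
  have htop : analyticOrderAt g ζ ≠ ⊤ := by
    intro h
    rw [analyticOrderAt_eq_top] at h
    have hu : AnalyticOnNhd ℂ g univ := fun z _ => hg.analyticAt z
    have := hu.eqOn_zero_of_preconnected_of_eventuallyEq_zero isPreconnected_univ
      (mem_univ ζ) h (mem_univ m)
    exact hm this
  have hne : analyticOrderAt g ζ ≠ 0 := by
    intro h
    exact ((hg.analyticAt ζ).analyticOrderAt_eq_zero.1 h) hζ
  rw [MeromorphicOn.AnalyticOnNhd.divisor_apply han hζ']
  obtain ⟨k, hk⟩ := ENat.ne_top_iff_exists.1 htop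
  rw [← hk] at hne ⊢
  have hk0 : k ≠ 0 := by
    rintro rfl
    exact hne rfl
  have : (1 : ℤ) ≤ (k : ℤ) := by exact_mod_cast Nat.one_le_iff_ne_zero.2 hk0
  simpa using this

/-- lower bound for the sum over the zeros in Jensen's formula -/
theorem h4a_sum (g : ℂ → ℂ) (m : ℂ) (r : ℝ) (S : Finset ℂ) (hg : Differentiable ℂ g)
    (hr : 0 < r) (hm : g m ≠ 0) (hS : ∀ ζ ∈ S, g ζ = 0 ∧ ‖ζ - m‖ < r) :
    ∑ ζ ∈ S, Real.log (r / ‖ζ - m‖) ≤
      ∑ᶠ u, (MeromorphicOn.divisor g (closedBall m |r|) u : ℝ) *
        Real.log (r * ‖m - u‖⁻¹) := by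
  classical
  have hR : |r| = r := abs_of_pos hr
  rw [hR]
  have han : AnalyticOnNhd ℂ g (closedBall m r) := fun z _ => hg.analyticAt z
  have hfin := (MeromorphicOn.divisor g (closedBall m r)).finiteSupport (isCompact_closedBall m r)
  have hsupp : (Function.support fun u => (MeromorphicOn.divisor g (closedBall m r) u : ℝ) *
        Real.log (r * ‖m - u‖⁻¹)) ⊆ ↑(hfin.toFinset ∪ S) := by
    intro u hu
    rw [Function.mem_support] at hu
    have h1 : MeromorphicOn.divisor g (closedBall m r) u ≠ 0 := by
      intro h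
      exact hu (by rw [h]; simp)
    simp only [Finset.coe_union, Set.mem_union, Finset.mem_coe, Set.Finite.mem_toFinset]
    exact Or.inl h1
  rw [finsum_eq_sum_of_support_subset _ hsupp]
  have hlog : ∀ u ∈ closedBall m r, 0 ≤ Real.log (r * ‖m - u‖⁻¹) := by
    intro u hu
    rcases eq_or_ne m u with h | h
    · subst h
      simp
    · have hpos : 0 < ‖m - u‖ := norm_pos_iff.2 (sub_ne_zero.2 h)
      apply Real.log_nonneg
      rw [← div_eq_mul_inv, le_div_iff₀ hpos, one_mul]
      rw [mem_closedBall, dist_comm, dist_eq_norm] at hu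
      exact hu
  have hD : ∀ u, (0 : ℝ) ≤ (MeromorphicOn.divisor g (closedBall m r) u : ℝ) := by
    intro u
    exact_mod_cast MeromorphicOn.AnalyticOnNhd.divisor_nonneg han u
  have hterm : ∀ u, 0 ≤ (MeromorphicOn.divisor g (closedBall m r) u : ℝ) *
        Real.log (r * ‖m - u‖⁻¹) := by
    intro u
    by_cases hu : u ∈ closedBall m r
    · exact mul_nonneg (hD u) (hlog u hu)
    · rw [Function.locallyFinsuppWithin.apply_eq_zero_of_notMem _ hu]
      simp
  refine le_trans ?_ (Finset.sum_le_sum_of_subset_of_nonneg Finset.subset_union_right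
    fun u _ _ => hterm u)
  refine Finset.sum_le_sum fun ζ hζ => ?_
  obtain ⟨h0, h1⟩ := hS ζ hζ
  have hmem : ζ ∈ closedBall m r := by
    rw [mem_closedBall, dist_eq_norm]
    exact h1.le
  have hdiv : (1 : ℝ) ≤ (MeromorphicOn.divisor g (closedBall m r) ζ : ℝ) := by
    exact_mod_cast h4a_div g m ζ r hg hm h0 hmem
  have heq : Real.log (r / ‖ζ - m‖) = Real.log (r * ‖m - ζ‖⁻¹) := by
    rw [div_eq_mul_inv, norm_sub_rev]
  rw [heq]
  have := mul_le_mul_of_nonneg_right hdiv (hlog ζ hmem)
  linarith

/-- the circle average of `|im|` -/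
theorem h4a_avg (m r A : ℝ) (hr : 0 < r) :
    Real.circleAverage (fun w : ℂ => A * |w.im|) (m : ℂ) r = 2 / π * A * r := by
  rw [Real.circleAverage_def]
  have h1 : ∀ θ : ℝ, A * |(circleMap (m : ℂ) r θ).im| = (A * r) * |Real.sin θ| := by
    intro θ
    rw [circleMap]
    have : ((m : ℂ) + r * Complex.exp (θ * Complex.I)).im = r * Real.sin θ := by
      simp [Complex.exp_ofReal_mul_I_im]
    rw [this, abs_mul, abs_of_pos hr]
    ring
  simp_rw [h1]
  rw [intervalIntegral.integral_const_mul]
  have h2 : ∫ θ in (0 : ℝ)..2 * π, |Real.sin θ| = 4 := by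
    have hc : ∀ a b : ℝ, IntervalIntegrable (fun θ => |Real.sin θ|) volume a b := fun a b =>
      (Real.continuous_sin.abs).intervalIntegrable a b
    rw [← intervalIntegral.integral_add_adjacent_intervals (hc 0 π) (hc π (2 * π))]
    have e1 : ∫ θ in (0 : ℝ)..π, |Real.sin θ| = ∫ θ in (0 : ℝ)..π, Real.sin θ := by
      apply intervalIntegral.integral_congr
      intro θ hθ
      rw [uIcc_of_le Real.pi_pos.le] at hθ
      exact abs_of_nonneg (Real.sin_nonneg_of_nonneg_of_le_pi hθ.1 hθ.2)
    have e2 : ∫ θ in π..2 * π, |Real.sin θ| = ∫ θ in π..2 * π, -Real.sin θ := by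
      apply intervalIntegral.integral_congr
      intro θ hθ
      rw [uIcc_of_le (by linarith [Real.pi_pos])] at hθ
      have h3 : Real.sin θ ≤ 0 := by
        have : Real.sin θ = -Real.sin (θ - π) := by rw [Real.sin_sub_pi]; ring
        rw [this]
        have := Real.sin_nonneg_of_nonneg_of_le_pi (x := θ - π) (by linarith [hθ.1])
          (by linarith [hθ.2])
        linarith
      exact abs_of_nonpos h3
    rw [e1, e2, intervalIntegral.integral_neg, integral_sin, integral_sin]
    simp
    norm_num
  rw [h2, smul_eq_mul]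
  field_simp
  ring

theorem h4a : H4a := by
  intro g m r A S hg hr hA hm hS hb
  have han : AnalyticOnNhd ℂ g (closedBall (m : ℂ) |r|) := fun z _ => hg.analyticAt z
  have hj := AnalyticOnNhd.circleAverage_log_norm hr.ne' han hm
  have hs := h4a_sum g m r S hg hr hm hS
  have hc : Real.circleAverage (fun w => Real.log ‖g w‖) (m : ℂ) r ≤
      Real.circleAverage (fun w : ℂ => A * |w.im|) (m : ℂ) r := by
    apply Real.circleAverage_mono
    · exact (han.mono sphere_subset_closedBall).meromorphicOn.circleIntegrable_log_norm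
    · apply ContinuousOn.circleIntegrable'
      fun_prop
    · intro w _
      rcases eq_or_ne (g w) 0 with h | h
      · rw [h]
        simp only [norm_zero, Real.log_zero]
        positivity
      · have := Real.log_le_log (norm_pos_iff.2 h) (hb w)
        rwa [Real.log_exp] at this
  rw [h4a_avg m r A hr] at hc
  linarith

end Pool.Agent.Helper10.AL
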