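import Pool.Agent.Helper10.AL.St2

/-!
Arc length, large degree: piece H4c.
-/

set_option autoImplicit false

namespace Pool.Agent.Helper10.AL

open Polynomial Set Real MeasureTheory intervalIntegral

theorem h4c_num {l : ℝ} (h0 : 2 ≤ l) (h1 : l ≤ π + 1 / 100) :
    3 / 16 < cos (l / 2 - 1 / 4) := by
  have hpi := Real.pi_gt_three
  have h2 : cos (π / 2 - 49 / 200) ≤ cos (l / 2 - 1 / 4) := by
    apply Real.cos_le_cos_of_nonneg_of_le_pi
    · linarith
    · linarith
    · linarith
  rw [Real.cos_pi_div_two_sub] at h2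
  have h3 : (49 / 200 : ℝ) - (49 / 200) ^ 3 / 6 < sin (49 / 200) :=
    Real.sin_gt_sub_cube (by norm_num)
  have h4 : (3 / 16 : ℝ) < 49 / 200 - (49 / 200) ^ 3 / 6 := by norm_num
  linarith

theorem h4c_core (hA1 : A1) (hA2 : A2) (hA3 : A3) (n : ℕ) (f : ℝ → ℝ) (u v : ℝ) (hn : 1 ≤ n)
    (hf : TB n f) (huv : u < v) (hu : f u = -1) (hv : f v = 1)
    (hl : n * (v - u) ≤ π + 1 / 100) : (n : ℝ) / 2 ≤ |deriv f ((u + v) / 2)| := by
  have hn' : (1 : ℝ) ≤ n := by exact_mod_cast hn
  have hn0 : (0 : ℝ) < n := by linarith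
  have hsm := (hA1.1 n f hf.1).1
  have hB := (hA2.1 n f hn hf).2
  have hd : Differentiable ℝ f := (hsm 1).differentiable (by norm_num)
  have hd' : Differentiable ℝ (deriv f) := by
    have h2 : ContDiff ℝ (1 + 1) f := by
      have := hsm 2
      have e : ((2 : ℕ) : WithTop ℕ∞) = 1 + 1 := by norm_num
      rwa [e] at this
    have h3 : ContDiff ℝ 1 (deriv f) := by
      have := (contDiff_succ_iff_deriv.mp h2).2.2
      exact this
    exact h3.differentiable (by norm_num)
  have hdu : deriv f u = 0 := by
    have h1 := (hB u).1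
    rw [hu] at h1
    have : (deriv f u) ^ 2 ≤ 0 := by nlinarith
    exact pow_eq_zero_iff (two_ne_zero) |>.mp (le_antisymm this (sq_nonneg _))
  have hdv : deriv f v = 0 := by
    have h1 := (hB v).1
    rw [hv] at h1
    have : (deriv f v) ^ 2 ≤ 0 := by nlinarith
    exact pow_eq_zero_iff (two_ne_zero) |>.mp (le_antisymm this (sq_nonneg _))
  -- lower bound for the length
  have hl2 : 2 ≤ n * (v - u) := by
    have h1 : f v - f u ≤ n * (v - u) :=
      Convex.image_sub_le_mul_sub_of_deriv_le (convex_univ) hd.continuous.continuousOn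
        hd.differentiableOn (fun x _ => (le_abs_self _).trans (hB x).2.2.1) u (mem_univ _) v
        (mem_univ _) huv.le
    rw [hu, hv] at h1
    linarith
  set m : ℝ := (u + v) / 2 with hm
  by_contra hcon
  rw [not_le] at hcon
  set a : ℝ := m - 1 / (4 * n) with ha
  set b : ℝ := m + 1 / (4 * n) with hb
  have h4n : n * (1 / (4 * (n : ℝ))) = 1 / 4 := by field_simp
  have h4n0 : 0 < 1 / (4 * (n : ℝ)) := by positivity
  have hna : n * (a - u) = n * (v - u) / 2 - 1 / 4 := by
    rw [ha, hm]
    have : n * ((u + v) / 2 - 1 / (4 * n) - u) = n * (v - u) / 2 - n * (1 / (4 * (n : ℝ))) := by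
      ring
    rw [this, h4n]
  have hnb : n * (v - b) = n * (v - u) / 2 - 1 / 4 := by
    rw [hb, hm]
    have : n * (v - ((u + v) / 2 + 1 / (4 * n))) = n * (v - u) / 2 - n * (1 / (4 * (n : ℝ))) := by
      ring
    rw [this, h4n]
  have hau : u ≤ a := by
    have : 0 ≤ n * (a - u) := by rw [hna]; linarith
    have := nonneg_of_mul_nonneg_right this hn0
    linarith
  have hbv : b ≤ v := by
    have : 0 ≤ n * (v - b) := by rw [hnb]; linarith
    have := nonneg_of_mul_nonneg_right this hn0
    linarith
  have hpi := Real.pi_gt_three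
  -- left end
  have hleft : f a ≤ -cos (n * (a - u)) := by
    have hanti : AntitoneOn (fun θ => f θ + cos (n * (θ - u))) (Icc u a) := by
      apply antitoneOn_of_deriv_nonpos (convex_Icc u a)
      · exact (hd.continuous.add (by fun_prop)).continuousOn
      · exact (hd.add (by fun_prop)).differentiableOn
      · intro θ hθ
        rw [interior_Icc] at hθ
        have e1 : deriv (fun θ => f θ + cos (n * (θ - u))) θ = deriv f θ - n * sin (n * (θ - u)) := by
          have h1 : HasDerivAt (fun θ => cos (n * (θ - u))) (-sin (n * (θ - u)) * n) θ := by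
            have h2 : HasDerivAt (fun θ : ℝ => n * (θ - u)) n θ := by
              simpa using ((hasDerivAt_id θ).sub_const u).const_mul (n : ℝ)
            exact (Real.hasDerivAt_cos _).comp θ h2
          have h3 : HasDerivAt (fun θ => f θ + cos (n * (θ - u)))
            (deriv f θ + -sin (n * (θ - u)) * n) θ := (hd θ).hasDerivAt.add h1
          rw [h3.deriv]
          ring
        rw [e1]
        have hs0 : 0 ≤ n * (θ - u) := mul_nonneg hn0.le (by linarith [hθ.1])
        have hs1 : n * (θ - u) ≤ n * (a - u) := mul_le_mul_of_nonneg_left (by linarith [hθ.2]) hn0.le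
        have h3 := hA3 n f u (n * (θ - u)) hn hf hdu (by
          rw [abs_of_nonneg hs0]
          rw [hna] at hs1
          linarith)
        rw [abs_of_nonneg hs0] at h3
        have e2 : u + n * (θ - u) / n = θ := by field_simp; ring
        rw [e2] at h3
        have := (le_abs_self _).trans h3
        linarith
    have := hanti (left_mem_Icc.mpr hau) (right_mem_Icc.mpr hau) hau
    simp only [sub_self, mul_zero, cos_zero, hu] at this
    linarith
  have hright : cos (n * (v - b)) ≤ f b := by
    have hanti : AntitoneOn (fun θ => f θ - cos (n * (v - θ))) (Icc b v) := by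
      apply antitoneOn_of_deriv_nonpos (convex_Icc b v)
      · exact (hd.continuous.sub (by fun_prop)).continuousOn
      · exact (hd.sub (by fun_prop)).differentiableOn
      · intro θ hθ
        rw [interior_Icc] at hθ
        have e1 : deriv (fun θ => f θ - cos (n * (v - θ))) θ = deriv f θ - n * sin (n * (v - θ)) := by
          have h1 : HasDerivAt (fun θ => cos (n * (v - θ))) (-sin (n * (v - θ)) * (-n)) θ := by
            have h2 : HasDerivAt (fun θ : ℝ => n * (v - θ)) (-n) θ := by
              simpa using ((hasDerivAt_id θ).const_sub v).const_mul (n : ℝ)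
            exact (Real.hasDerivAt_cos _).comp θ h2
          have h3 : HasDerivAt (fun θ => f θ - cos (n * (v - θ)))
            (deriv f θ - -sin (n * (v - θ)) * (-n)) θ := (hd θ).hasDerivAt.sub h1
          rw [h3.deriv]
          ring
        rw [e1]
        have hs0 : 0 ≤ n * (v - θ) := mul_nonneg hn0.le (by linarith [hθ.2])
        have hs1 : n * (v - θ) ≤ n * (v - b) := mul_le_mul_of_nonneg_left (by linarith [hθ.1]) hn0.le
        have h3 := hA3 n f v (-(n * (v - θ))) hn hf hdv (by
          rw [abs_neg, abs_of_nonneg hs0]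
          rw [hnb] at hs1
          linarith)
        rw [abs_neg, abs_of_nonneg hs0] at h3
        have e2 : v + -(n * (v - θ)) / n = θ := by field_simp; ring
        rw [e2] at h3
        have := (le_abs_self _).trans h3
        linarith
    have := hanti (left_mem_Icc.mpr hbv) (right_mem_Icc.mpr hbv) hbv
    simp only [sub_self, mul_zero, cos_zero, hv] at this
    linarith
  -- middle
  have hmid : f b - f a ≤ 3 * n / 4 * (b - a) := by
    refine Convex.image_sub_le_mul_sub_of_deriv_le (convex_Icc a b) hd.continuous.continuousOn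
      hd.differentiableOn ?_ a (left_mem_Icc.mpr (by linarith)) b
      (right_mem_Icc.mpr (by linarith)) (by linarith)
    intro x hx
    rw [interior_Icc] at hx
    have h1 : ‖deriv f x - deriv f m‖ ≤ (n : ℝ) ^ 2 * ‖x - m‖ :=
      Convex.norm_image_sub_le_of_norm_deriv_le (s := univ) (fun y _ => hd' y)
        (fun y _ => (hB y).2.2.2.1) convex_univ (mem_univ _) (mem_univ _)
    rw [Real.norm_eq_abs, Real.norm_eq_abs] at h1
    have h2 : |x - m| ≤ 1 / (4 * n) := by
      rw [abs_le]
      constructor <;> linarith [hx.1, hx.2]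
    have h3 : (n : ℝ) ^ 2 * |x - m| ≤ n / 4 := by
      calc (n : ℝ) ^ 2 * |x - m| ≤ (n : ℝ) ^ 2 * (1 / (4 * n)) :=
            mul_le_mul_of_nonneg_left h2 (by positivity)
        _ = n / 4 := by field_simp
    have h4 := abs_le.mp (h1.trans h3)
    have h5 := abs_lt.mp hcon
    linarith [h4.2, h5.2]
  have hba : 3 * n / 4 * (b - a) = 3 / 8 := by
    rw [ha, hb]
    have : 3 * (n : ℝ) / 4 * (m + 1 / (4 * n) - (m - 1 / (4 * n))) =
      3 / 2 * (n * (1 / (4 * (n : ℝ)))) := by ring
    rw [this, h4n]
    norm_num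
  have hnum := h4c_num hl2 hl
  rw [hba] at hmid
  rw [hna] at hleft
  rw [hnb] at hright
  linarith

theorem h4c (hA1 : A1) (hA2 : A2) (hA3 : A3) : H4c := by
  intro n f u v hn hf huv hu hv hne hl
  have hsm := (hA1.1 n f hf.1).1
  have hd : Differentiable ℝ f := (hsm 1).differentiable (by norm_num)
  have hfuv : f u ≠ f v := by
    intro heq
    obtain ⟨c, hc, hc'⟩ := exists_deriv_eq_zero huv hd.continuous.continuousOn heq
    exact hne c hc hc'
  rcases (abs_eq (by norm_num)).mp hu with h1 | h1 <;> rcases (abs_eq (by norm_num)).mp hv with h2 | h2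
  · exact absurd (h1.trans h2.symm) hfuv
  · have hf' : TB n (fun θ => -1 * f θ) := by
      refine ⟨(hA1.1 n f hf.1).2.2.1 (-1), fun θ => ?_⟩
      rw [abs_mul, abs_neg, abs_one, one_mul]
      exact hf.2 θ
    have h3 := h4c_core hA1 hA2 hA3 n (fun θ => -1 * f θ) u v hn hf' huv (by rw [h1]; norm_num)
      (by rw [h2]; norm_num) hl
    rw [deriv_const_mul_field', abs_mul, abs_neg, abs_one, one_mul] at h3
    exact h3
  · exact h4c_core hA1 hA2 hA3 n f u v hn hf huv h1 h2 hl
  · exact absurd (h1.trans h2.symm) hfuv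

end Pool.Agent.Helper10.AL
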