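import Pool.Agent.Helper10.AL.St2

/-!
Arc length of polynomials over compact windows: growth of the derivative in the complex plane.
-/

set_option autoImplicit false

namespace Pool.Agent.Helper10.AL

open Polynomial Set Real MeasureTheory intervalIntegral
open Pool.Agent.Helper40.AS (arc Bdd Ext quad)

noncomputable section

/-- the maximum principle for polynomials on the unit disc -/
theorem h4d_disc (F : ℂ[X]) (h : ∀ θ : ℝ, ‖F.eval (Complex.exp (θ * Complex.I))‖ ≤ 1) (z : ℂ)
    (hz : ‖z‖ ≤ 1) : ‖F.eval z‖ ≤ 1 := by
  have hd : DiffContOnCl ℂ (fun z => F.eval z) (Metric.ball (0 : ℂ) 1) :=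
    F.differentiable.diffContOnCl
  refine Complex.norm_le_of_forall_mem_frontier_norm_le (U := Metric.ball (0 : ℂ) 1)
    Metric.isBounded_ball hd ?_ ?_
  · intro y hy
    rw [frontier_ball (0 : ℂ) one_ne_zero, mem_sphere_zero_iff_norm] at hy
    have h1 : y = Complex.exp ((Complex.arg y : ℝ) * Complex.I) := by
      have h2 := Complex.norm_mul_exp_arg_mul_I y
      rw [hy] at h2
      simpa using h2.symm
    rw [h1]
    exact h _
  · rw [closure_ball (0 : ℂ) one_ne_zero, mem_closedBall_zero_iff]
    exact hz

theorem h4d_upper (hA2 : A2) (n : ℕ) (P : ℝ[X]) (hn : 1 ≤ n) (hd : P.natDegree ≤ n) (hP : Bdd P)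
    (w : ℂ) (hw : 0 ≤ w.im) :
    ‖Complex.sin w * aeval (Complex.cos w) P.derivative‖ ≤ n * Real.exp (n * w.im) := by
  have hn0 : (0 : ℝ) < n := by exact_mod_cast hn
  obtain ⟨h1, h2, h3⟩ := hA2
  obtain ⟨hT, -⟩ := h1 n (qq P) hn (h2 n P hd hP)
  obtain ⟨⟨F, -, hF⟩, hb⟩ := hT
  -- the identity on the real line
  have hr : ∀ θ : ℝ, F.eval (Complex.exp (θ * Complex.I)) = Complex.exp (n * θ * Complex.I) *
      (-(Complex.sin θ * aeval (Complex.cos θ) P.derivative) / n) := by
    intro θ
    rw [hF θ]
    simp only []
    rw [(h3 P θ).1]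
    have h4 : aeval (Complex.cos (θ : ℂ)) P.derivative =
        ((P.derivative.eval (cos θ) : ℝ) : ℂ) := by
      rw [← Complex.ofReal_cos]
      have := Polynomial.aeval_algebraMap_apply ℂ (cos θ) P.derivative
      simpa using this
    rw [h4]
    push_cast
    ring
  -- the identity in the plane
  have hc : ∀ w : ℂ, F.eval (Complex.exp (w * Complex.I)) = Complex.exp (n * w * Complex.I) *
      (-(Complex.sin w * aeval (Complex.cos w) P.derivative) / n) := by
    have hfa : AnalyticOnNhd ℂ (fun w : ℂ => F.eval (Complex.exp (w * Complex.I))) univ := by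
      apply Complex.analyticOnNhd_univ_iff_differentiable.2
      exact F.differentiable.comp (Complex.differentiable_exp.comp
        (differentiable_id.mul_const _))
    have hga : AnalyticOnNhd ℂ (fun w : ℂ => Complex.exp (n * w * Complex.I) *
      (-(Complex.sin w * aeval (Complex.cos w) P.derivative) / n)) univ := by
      apply Complex.analyticOnNhd_univ_iff_differentiable.2
      have h5 : Differentiable ℂ (fun w : ℂ => aeval (Complex.cos w) P.derivative) := by
        have h6 : (fun w : ℂ => aeval (Complex.cos w) P.derivative) =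
            fun w : ℂ => (P.derivative.map (algebraMap ℝ ℂ)).eval (Complex.cos w) := by
          funext w
          rw [eval_map_algebraMap]
        rw [h6]
        exact (Polynomial.differentiable _).comp Complex.differentiable_cos
      exact (Complex.differentiable_exp.comp ((differentiable_id.const_mul _).mul_const _)).mul
        (((Complex.differentiable_sin.mul h5).neg).div_const _)
    have heq := hfa.eq_of_frequently_eq (z₀ := (0 : ℂ)) hga (by
      have h7 : Filter.Tendsto (fun k : ℕ => ((1 / ((k : ℝ) + 1) : ℝ) : ℂ)) Filter.atTop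
          (nhdsWithin (0 : ℂ) {0}ᶜ) := by
        rw [tendsto_nhdsWithin_iff]
        constructor
        · have := (Complex.continuous_ofReal.tendsto 0).comp
            (tendsto_one_div_add_atTop_nhds_zero_nat (𝕜 := ℝ))
          rw [Complex.ofReal_zero] at this
          exact this
        · refine Filter.Eventually.of_forall fun k => ?_
          rw [mem_compl_iff, mem_singleton_iff, Complex.ofReal_eq_zero]
          positivity
      exact h7.frequently (Filter.Frequently.of_forall fun k => hr _))
    intro w
    exact congrFun heq w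
  have hdisc := h4d_disc F (fun θ => by
    rw [hF θ, norm_mul]
    have h8 : ‖Complex.exp (n * θ * Complex.I)‖ = 1 := by
      have : (n : ℂ) * θ * Complex.I = ((n * θ : ℝ) : ℂ) * Complex.I := by push_cast; ring
      rw [this, Complex.norm_exp_ofReal_mul_I]
    rw [h8, one_mul, Complex.norm_real]
    exact hb θ) (Complex.exp (w * Complex.I)) (by
      rw [Complex.norm_exp]
      simp [hw])
  rw [hc w, norm_mul, norm_div, norm_neg, Complex.norm_exp] at hdisc
  have h9 : ((n : ℂ) * w * Complex.I).re = -(n * w.im) := by
    simp
  rw [h9, Complex.norm_natCast, Real.exp_neg] at hdisc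
  have h10 : 0 < Real.exp (n * w.im) := Real.exp_pos _
  rw [← div_eq_inv_mul, div_div, div_le_one (by positivity)] at hdisc
  linarith

theorem h4d (hA2 : A2) : H4d := by
  intro n P hn hd hP w
  rcases le_total 0 w.im with hw | hw
  · rw [abs_of_nonneg hw]
    exact h4d_upper hA2 n P hn hd hP w hw
  · have h := h4d_upper hA2 n P hn hd hP (starRingEnd ℂ w) (by simpa using hw)
    rw [abs_of_nonpos hw]
    have h1 : Complex.sin (starRingEnd ℂ w) * aeval (Complex.cos (starRingEnd ℂ w)) P.derivative
        = starRingEnd ℂ (Complex.sin w * aeval (Complex.cos w) P.derivative) := by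
      rw [map_mul, Complex.sin_conj, Complex.cos_conj]
      congr 1
      have := Polynomial.aeval_conj P.derivative (Complex.cos w)
      exact this
    rw [h1, Complex.norm_conj] at h
    simpa using h

end

end Pool.Agent.Helper10.AL
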