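import Pool.Agent.Helper10.AL.St3

/-!
Arc length of polynomials, large degree: no non-real critical point over a nearly perfect chain.
-/

set_option autoImplicit false

namespace Pool.Agent.Helper10.AL

open Polynomial Set Real MeasureTheory intervalIntegral
open Pool.Agent.Helper40.AS (arc Bdd Ext quad)

theorem h4g_mono {f : ℝ → ℝ} {N : ℕ} {t : ℕ → ℝ} (hc : Chain f N t) :
    ∀ i j : ℕ, i < j → j ≤ N → t i < t j := by
  intro i j hij
  induction j, hij using Nat.le_induction with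
  | base => exact fun hj => hc.inc i (by omega)
  | succ k hk ih => exact fun hj => (ih (by omega)).trans (hc.inc k (by omega))

theorem h4g_inj {f : ℝ → ℝ} {N : ℕ} {t : ℕ → ℝ} (hc : Chain f N t) {i j : ℕ} (hi : i ≤ N)
    (hj : j ≤ N) (h : t i = t j) : i = j := by
  rcases lt_trichotomy i j with h1 | h1 | h1
  · exact absurd h (h4g_mono hc i j h1 hj).ne
  · exact h1
  · exact absurd h (h4g_mono hc j i h1 hi).ne'

/-- gaps of sub-chains -/
theorem h4g_gap (hB6 : B6) {n N : ℕ} {f : ℝ → ℝ} {t : ℕ → ℝ} {L : ℝ} (hn : 1 ≤ n)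
    (hT : TB n f) (hc : Chain f N t) (hL : n * (t N - t 0) - N * π ≤ L) (i j : ℕ)
    (hij : i ≤ j) (hj : j ≤ N) : n * (t j - t i) ≤ ((j : ℝ) - i) * π + L := by
  have key : ∀ p q : ℕ, p ≤ q → q ≤ N → ((q : ℝ) - p) * π ≤ n * (t q - t p) := by
    intro p q hpq hq
    have h1 := (hB6 n (q - p) f (fun k => t (p + k)) hn hT
      (fun k hk => hc.inc (p + k) (by omega)) (fun k hk => hc.con (p + k) (by omega))
      (fun k hk => hc.mon (p + k) (by omega))).1
    rw [Nat.cast_sub hpq] at h1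
    simp only [add_zero, Nat.add_sub_cancel' hpq] at h1
    exact h1
  have h1 := key 0 i (Nat.zero_le _) (by omega)
  have h2 := key j N hj le_rfl
  push_cast at h1
  linarith

/-- contact points are critical -/
theorem h4g_crit (hA2 : A2) {n : ℕ} {f : ℝ → ℝ} (hn : 1 ≤ n) (hT : TB n f) {θ : ℝ}
    (h : |f θ| = 1) : deriv f θ = 0 := by
  have h1 := ((hA2.1 n f hn hT).2 θ).1
  have h2 : f θ ^ 2 = 1 := by rw [← sq_abs, h, one_pow]
  rw [h2, mul_one] at h1
  nlinarith [sq_nonneg (deriv f θ)]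

/-- the entire function -/
noncomputable def h4g_g (n : ℕ) (P : ℝ[X]) (w : ℂ) : ℂ :=
  Complex.sin w * aeval (Complex.cos w) P.derivative / n

theorem h4g_diff (n : ℕ) (P : ℝ[X]) : Differentiable ℂ (h4g_g n P) := by
  have h0 : Differentiable ℂ (fun x : ℂ => aeval x P.derivative) := by
    intro x
    exact (Polynomial.differentiable_aeval P.derivative) x
  have h1 : Differentiable ℂ (fun w : ℂ => aeval (Complex.cos w) P.derivative) :=
    h0.comp Complex.differentiable_cos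
  exact (Complex.differentiable_sin.mul h1).div_const _

theorem h4g_real (hA2 : A2) (n : ℕ) (P : ℝ[X]) (x : ℝ) :
    h4g_g n P (x : ℂ) = ((-(deriv (qq P) x) / n : ℝ) : ℂ) := by
  have h1 : aeval (Complex.cos (x : ℂ)) P.derivative =
      ((P.derivative.eval (cos x) : ℝ) : ℂ) := by
    rw [← Complex.ofReal_cos]
    exact aeval_algebraMap_apply_eq_algebraMap_eval (A := ℂ) (cos x) P.derivative
  rw [h4g_g, h1, (hA2.2.2 P x).1, ← Complex.ofReal_sin]
  push_cast
  ring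

theorem h4g_conj (P : ℝ[X]) (w : ℂ) :
    aeval (Complex.cos ((starRingEnd ℂ) w)) P.derivative =
      (starRingEnd ℂ) (aeval (Complex.cos w) P.derivative) := by
  rw [Complex.cos_conj, ← aeval_conj]

theorem h4g_bound (hH4d : H4d) {n : ℕ} {P : ℝ[X]} (hn : 1 ≤ n) (hdeg : P.natDegree ≤ n)
    (hb : Bdd P) (w : ℂ) : ‖h4g_g n P w‖ ≤ Real.exp (n * |w.im|) := by
  have h1 := hH4d n P hn hdeg hb w
  have hn0 : (0 : ℝ) < n := by exact_mod_cast hn
  rw [h4g_g, norm_div, Complex.norm_natCast, div_le_iff₀ hn0]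
  linarith

/-- one zero -/
theorem h4g_one {n M k : ℕ} {L d : ℝ} (hn : 1 ≤ n) (hM : k < M) (hL : 0 ≤ L) (hd : 0 < d)
    (hd2 : n * d ≤ ((k : ℝ) + 1 / 2) * π + L) :
    Real.log ((M : ℝ) / (k + 1 / 2)) - L ≤ Real.log (M * π / n / d) := by
  have hn0 : (0 : ℝ) < n := by exact_mod_cast hn
  have hM0 : (0 : ℝ) < M := by exact_mod_cast (by omega : 0 < M)
  have hk0 : (0 : ℝ) ≤ k := Nat.cast_nonneg k
  have hpi := pi_pos
  have hpi3 := pi_gt_three
  have hq : (0 : ℝ) < (k + 1 / 2) * π := by positivity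
  have hq2 : (0 : ℝ) < (k + 1 / 2) * π + L := by linarith
  have h1 : M * π / ((k + 1 / 2) * π + L) ≤ M * π / n / d := by
    rw [div_div]
    exact div_le_div_of_nonneg_left (by positivity) (by positivity) hd2
  have h2 : Real.log (M * π / ((k + 1 / 2) * π + L)) ≤ Real.log (M * π / n / d) :=
    Real.log_le_log (by positivity) h1
  have h3 : Real.log ((M : ℝ) / (k + 1 / 2)) = Real.log (M * π / ((k + 1 / 2) * π + L)) +
      Real.log (1 + L / ((k + 1 / 2) * π)) := by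
    rw [← Real.log_mul (by positivity) (by positivity)]
    congr 1
    field_simp
  have h4 : Real.log (1 + L / ((k + 1 / 2) * π)) ≤ L / ((k + 1 / 2) * π) := by
    have := Real.log_le_sub_one_of_pos (show 0 < 1 + L / ((k + 1 / 2) * π) by positivity)
    linarith
  have h5 : L / ((k + 1 / 2) * π) ≤ L := by
    apply div_le_self hL
    nlinarith
  linarith

/-- the core of the proof -/
theorem h4g_core (hA2 : A2) (hH4a : H4a) (hH4b : H4b) (hH4c : H4c) (hH4d : H4d)
    {n N i M : ℕ} {P : ℝ[X]} {t : ℕ → ℝ} {L : ℝ} {w0 : ℂ} (hn : 1 ≤ n)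
    (hdeg : P.natDegree ≤ n) (hb : Bdd P) (hc : Chain (qq P) N t)
    (hgap : ∀ p q : ℕ, p ≤ q → q ≤ N → n * (t q - t p) ≤ ((q : ℝ) - p) * π + L)
    (hL0 : 0 ≤ L) (hL : L ≤ 1 / 100) (hM : 1 ≤ M) (hi : M ≤ i + 1) (hi2 : i + M ≤ N)
    (hLM : L * M ≤ 1 / 10) (hw : w0.im ≠ 0) (hw2 : aeval (Complex.cos w0) P.derivative = 0)
    (hr : 3 * ‖w0 - (((t i + t (i + 1)) / 2 : ℝ) : ℂ)‖ ≤ M * π / n) : False := by
  have hn0 : (0 : ℝ) < n := by exact_mod_cast hn
  have hM0 : (0 : ℝ) < M := by exact_mod_cast (by omega : 0 < M)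
  have hpi := pi_pos
  have hpi3 := pi_gt_three
  have hTB : TB n (qq P) := hA2.2.1 n P hdeg hb
  set m : ℝ := (t i + t (i + 1)) / 2 with hm
  set r : ℝ := M * π / n with hrdef
  have hr0 : 0 < r := by positivity
  have hiN : i + 1 ≤ N := by omega
  have hlt : t i < t (i + 1) := hc.inc i (by omega)
  -- distances
  have hdL : ∀ k < M, 0 < m - t (i - k) ∧ n * (m - t (i - k)) ≤ ((k : ℝ) + 1 / 2) * π + L := by
    intro k hk
    have h1 : t (i - k) ≤ t i := by
      rcases Nat.eq_zero_or_pos k with h | h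
      · rw [h, Nat.sub_zero]
      · exact (h4g_mono hc (i - k) i (by omega) (by omega)).le
    refine ⟨by rw [hm]; linarith, ?_⟩
    have h2 := hgap (i - k) i (by omega) (by omega)
    have h3 := hgap (i - k) (i + 1) (by omega) (by omega)
    rw [Nat.cast_sub (by omega)] at h2 h3
    push_cast at h3
    rw [hm]
    nlinarith
  have hdR : ∀ k < M, 0 < t (i + 1 + k) - m ∧
      n * (t (i + 1 + k) - m) ≤ ((k : ℝ) + 1 / 2) * π + L := by
    intro k hk
    have h1 : t (i + 1) ≤ t (i + 1 + k) := by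
      rcases Nat.eq_zero_or_pos k with h | h
      · rw [h, add_zero]
      · exact (h4g_mono hc (i + 1) (i + 1 + k) (by omega) (by omega)).le
    refine ⟨by rw [hm]; linarith, ?_⟩
    have h2 := hgap i (i + 1 + k) (by omega) (by omega)
    have h3 := hgap (i + 1) (i + 1 + k) (by omega) (by omega)
    push_cast at h2 h3
    rw [hm]
    nlinarith
  -- norms
  have hnL : ∀ k < M, ‖((t (i - k) : ℝ) : ℂ) - (m : ℂ)‖ = m - t (i - k) := by
    intro k hk
    rw [← Complex.ofReal_sub, Complex.norm_real, Real.norm_eq_abs, abs_sub_comm,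
      abs_of_pos (hdL k hk).1]
  have hnR : ∀ k < M, ‖((t (i + 1 + k) : ℝ) : ℂ) - (m : ℂ)‖ = t (i + 1 + k) - m := by
    intro k hk
    rw [← Complex.ofReal_sub, Complex.norm_real, Real.norm_eq_abs, abs_of_pos (hdR k hk).1]
  have hball : ∀ (k : ℕ) (d : ℝ), k < M → n * d ≤ ((k : ℝ) + 1 / 2) * π + L → d < r := by
    intro k d hk hd
    rw [hrdef, lt_div_iff₀ hn0]
    have hkM : (k : ℝ) + 1 ≤ M := by exact_mod_cast hk
    nlinarith
  have hw0 : 0 < ‖w0 - (m : ℂ)‖ := by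
    rw [norm_pos_iff, sub_ne_zero]
    intro h
    apply hw
    rw [h, Complex.ofReal_im]
  have hconj : ‖(starRingEnd ℂ) w0 - (m : ℂ)‖ = ‖w0 - (m : ℂ)‖ := by
    rw [← Complex.norm_conj (w0 - (m : ℂ)), map_sub, Complex.conj_ofReal]
  have hwne : w0 ≠ (starRingEnd ℂ) w0 := by
    intro h
    apply hw
    have h1 := congrArg Complex.im h
    rw [Complex.conj_im] at h1
    linarith
  -- zeros
  have hz : ∀ j ≤ N, h4g_g n P ((t j : ℝ) : ℂ) = 0 := by
    intro j hj
    rw [h4g_real hA2, h4g_crit hA2 hn hTB (hc.con j hj)]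
    simp
  have hzw : h4g_g n P w0 = 0 := by rw [h4g_g, hw2]; simp
  have hzc : h4g_g n P ((starRingEnd ℂ) w0) = 0 := by
    rw [h4g_g, h4g_conj, hw2]
    simp
  -- the middle
  have hmid : (n : ℝ) / 2 ≤ |deriv (qq P) m| := by
    refine hH4c n (qq P) (t i) (t (i + 1)) hn hTB hlt (hc.con i (by omega))
      (hc.con (i + 1) (by omega)) (hc.mon i (by omega)) ?_
    have h1 := hgap i (i + 1) (by omega) hiN
    push_cast at h1
    nlinarith
  have hgm : 1 / 2 ≤ ‖h4g_g n P (m : ℂ)‖ := by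
    rw [h4g_real hA2, Complex.norm_real, Real.norm_eq_abs, abs_div, abs_neg, abs_of_pos hn0,
      le_div_iff₀ hn0]
    linarith
  have hgm0 : h4g_g n P (m : ℂ) ≠ 0 := by
    intro h
    rw [h, norm_zero] at hgm
    norm_num at hgm
  -- the finite sets
  classical
  set S1 : Finset ℂ := (Finset.range M).image (fun k => ((t (i - k) : ℝ) : ℂ)) with hS1
  set S2 : Finset ℂ := (Finset.range M).image (fun k => ((t (i + 1 + k) : ℝ) : ℂ)) with hS2
  set S3 : Finset ℂ := {w0, (starRingEnd ℂ) w0} with hS3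
  have hinj1 : Set.InjOn (fun k => ((t (i - k) : ℝ) : ℂ)) (Finset.range M : Finset ℕ) := by
    intro x hx y hy hxy
    rw [Finset.mem_coe, Finset.mem_range] at hx hy
    have := h4g_inj hc (by omega) (by omega) (Complex.ofReal_injective hxy)
    omega
  have hinj2 : Set.InjOn (fun k => ((t (i + 1 + k) : ℝ) : ℂ)) (Finset.range M : Finset ℕ) := by
    intro x hx y hy hxy
    rw [Finset.mem_coe, Finset.mem_range] at hx hy
    have := h4g_inj hc (by omega) (by omega) (Complex.ofReal_injective hxy)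
    omega
  have hd12 : Disjoint S1 S2 := by
    rw [Finset.disjoint_left]
    intro x hx hy
    rw [hS1, Finset.mem_image] at hx
    rw [hS2, Finset.mem_image] at hy
    obtain ⟨k, hk, hk2⟩ := hx
    obtain ⟨l, hl, hl2⟩ := hy
    rw [Finset.mem_range] at hk hl
    have := h4g_inj hc (by omega) (by omega) (Complex.ofReal_injective (hk2.trans hl2.symm))
    omega
  have hd3 : Disjoint (S1 ∪ S2) S3 := by
    rw [Finset.disjoint_left]
    intro x hx hy
    have him : x.im = 0 := by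
      rw [Finset.mem_union, hS1, hS2, Finset.mem_image, Finset.mem_image] at hx
      rcases hx with ⟨k, _, hk⟩ | ⟨k, _, hk⟩
      · rw [← hk, Complex.ofReal_im]
      · rw [← hk, Complex.ofReal_im]
    rw [hS3, Finset.mem_insert, Finset.mem_singleton] at hy
    rcases hy with hy | hy
    · rw [hy] at him
      exact hw him
    · rw [hy, Complex.conj_im, neg_eq_zero] at him
      exact hw him
  have hJ := hH4a (h4g_g n P) m r n ((S1 ∪ S2) ∪ S3) (h4g_diff n P) hr0 hn0.le hgm0 ?_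
    (h4g_bound hH4d hn hdeg hb)
  swap
  · intro ζ hζ
    rw [Finset.mem_union, Finset.mem_union, hS1, hS2, hS3, Finset.mem_image, Finset.mem_image,
      Finset.mem_insert, Finset.mem_singleton] at hζ
    rcases hζ with (⟨k, hk, hk2⟩ | ⟨k, hk, hk2⟩) | (h | h)
    · rw [Finset.mem_range] at hk
      rw [← hk2]
      refine ⟨hz _ (by omega), ?_⟩
      rw [hnL k hk]
      exact hball k _ hk (hdL k hk).2
    · rw [Finset.mem_range] at hk
      rw [← hk2]
      refine ⟨hz _ (by omega), ?_⟩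
      rw [hnR k hk]
      exact hball k _ hk (hdR k hk).2
    · rw [h]
      exact ⟨hzw, by linarith⟩
    · rw [h]
      exact ⟨hzc, by rw [hconj]; linarith⟩
  rw [Finset.sum_union hd3, Finset.sum_union hd12, hS1, hS2, hS3, Finset.sum_image hinj1,
    Finset.sum_image hinj2, Finset.sum_pair hwne, hconj] at hJ
  have hb1 : ∑ k ∈ Finset.range M, (Real.log ((M : ℝ) / (k + 1 / 2)) - L) ≤
      ∑ k ∈ Finset.range M, Real.log (r / ‖((t (i - k) : ℝ) : ℂ) - (m : ℂ)‖) := by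
    apply Finset.sum_le_sum
    intro k hk
    rw [Finset.mem_range] at hk
    rw [hnL k hk, hrdef]
    exact h4g_one hn hk hL0 (hdL k hk).1 (hdL k hk).2
  have hb2 : ∑ k ∈ Finset.range M, (Real.log ((M : ℝ) / (k + 1 / 2)) - L) ≤
      ∑ k ∈ Finset.range M, Real.log (r / ‖((t (i + 1 + k) : ℝ) : ℂ) - (m : ℂ)‖) := by
    apply Finset.sum_le_sum
    intro k hk
    rw [Finset.mem_range] at hk
    rw [hnR k hk, hrdef]
    exact h4g_one hn hk hL0 (hdR k hk).1 (hdR k hk).2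
  have hb3 := hH4b M hM
  rw [Finset.sum_sub_distrib, Finset.sum_const, Finset.card_range, nsmul_eq_mul] at hb1 hb2
  have hb4 : Real.log 3 ≤ Real.log (r / ‖w0 - (m : ℂ)‖) := by
    apply Real.log_le_log (by norm_num)
    rw [le_div_iff₀ hw0]
    exact hr
  have hb5 : -Real.log 2 ≤ Real.log ‖h4g_g n P (m : ℂ)‖ := by
    rw [← Real.log_inv]
    apply Real.log_le_log (by norm_num)
    norm_num at hgm ⊢
    exact hgm
  have hb6 : 2 / π * n * r = 2 * M := by
    rw [hrdef]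
    field_simp
  have hb7 : Real.log 2 + Real.log 2 + Real.log 2 ≤ Real.log 3 + Real.log 3 := by
    rw [← Real.log_mul (by norm_num) (by norm_num), ← Real.log_mul (by norm_num) (by norm_num),
      ← Real.log_mul (by norm_num) (by norm_num)]
    exact Real.log_le_log (by norm_num) (by norm_num)
  have hb8 := Real.log_two_gt_d9
  rw [hb6] at hJ
  nlinarith

/-- powers of logarithms are small -/
theorem h4g_log (C : ℝ) : ∃ n0 : ℕ, ∀ n : ℕ, n0 ≤ n → C * (1 + Real.log n) ^ 5 ≤ (n : ℝ) := by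
  have hC : 0 < |C| + 1 := by positivity
  have h1 := (Real.isLittleO_pow_log_id_atTop (n := 5)).def
    (c := 1 / (32 * (|C| + 1))) (by positivity)
  rw [Filter.eventually_atTop] at h1
  obtain ⟨x0, hx0⟩ := h1
  obtain ⟨n1, hn1⟩ := exists_nat_ge x0
  refine ⟨max n1 3, fun n hn => ?_⟩
  have a1 : n1 ≤ n := by omega
  have a3 : 3 ≤ n := by omega
  have b1 : (n1 : ℝ) ≤ n := by exact_mod_cast a1
  have b3 : (3 : ℝ) ≤ n := by exact_mod_cast a3
  have hl : 1 ≤ Real.log n := by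
    rw [Real.le_log_iff_exp_le (by linarith)]
    linarith [Real.exp_one_lt_d9]
  have h2 := hx0 n (le_trans hn1 b1)
  simp only [id, Real.norm_eq_abs] at h2
  rw [abs_of_nonneg (by positivity : 0 ≤ Real.log n ^ 5),
    abs_of_nonneg (by linarith : (0 : ℝ) ≤ n)] at h2
  have h3 : (1 + Real.log n) ^ 5 ≤ 32 * Real.log n ^ 5 := by
    have h4 : (1 + Real.log n) ^ 5 ≤ (2 * Real.log n) ^ 5 :=
      pow_le_pow_left₀ (by linarith) (by linarith) 5
    calc _ ≤ _ := h4
      _ = _ := by ring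
  calc C * (1 + Real.log n) ^ 5 ≤ (|C| + 1) * (1 + Real.log n) ^ 5 := by
        apply mul_le_mul_of_nonneg_right _ (by positivity)
        linarith [le_abs_self C]
    _ ≤ (|C| + 1) * (32 * Real.log n ^ 5) := mul_le_mul_of_nonneg_left h3 hC.le
    _ ≤ (|C| + 1) * (32 * (1 / (32 * (|C| + 1)) * n)) := by
        apply mul_le_mul_of_nonneg_left _ hC.le
        linarith
    _ = n := by field_simp

theorem h4g_idx {N : ℕ} {t : ℕ → ℝ} {x : ℝ} (h0 : t 0 ≤ x) (hN : x < t N) :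
    ∃ i < N, t i ≤ x ∧ x < t (i + 1) := by
  classical
  have hex : ∃ j, x < t j := ⟨N, hN⟩
  have hj := Nat.find_spec hex
  have hj0 : Nat.find hex ≠ 0 := by
    intro h
    rw [h] at hj
    linarith
  have hle : Nat.find hex ≤ N := Nat.find_min' hex hN
  refine ⟨Nat.find hex - 1, by omega, ?_, ?_⟩
  · have := Nat.find_min hex (m := Nat.find hex - 1) (by omega)
    exact not_lt.1 this
  · rw [Nat.sub_add_cancel (by omega)]
    exact hj

/-- the complex critical angle -/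
theorem h4g_angle (hCA : CA) {K Ln n : ℝ} {z : ℂ} (hK : 0 < K) (hLn : 1 ≤ Ln) (hn : 0 < n)
    (hz0 : 0 < z.im) (hzK : z.im ≤ K * Ln / n) (hsin : 1 / (K * Ln) ≤ sin (arccos z.re))
    (hre1 : -1 ≤ z.re) (hre2 : z.re ≤ 1) :
    ∃ w : ℂ, Complex.cos w = z ∧ w.im ≠ 0 ∧
      ‖w - ((arccos z.re : ℝ) : ℂ)‖ ≤ 6 * K ^ 2 * Ln ^ 2 / n := by
  have hLn0 : 0 < Ln := by linarith
  have hs0 : 0 < sin (arccos z.re) := lt_of_lt_of_le (by positivity) hsin
  set s := sin (arccos z.re) with hs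
  have hs2 : s ^ 2 = 1 - z.re ^ 2 := by
    rw [hs, sin_arccos, Real.sq_sqrt]
    nlinarith
  have hab : |z.re| ^ 2 = z.re ^ 2 := sq_abs _
  have hab0 := abs_nonneg z.re
  have hab1 : |z.re| ≤ 1 := abs_le.2 ⟨hre1, hre2⟩
  have hδ : s ^ 2 / 2 ≤ 1 - |z.re| := by nlinarith
  have hδ0 : 0 < 1 - |z.re| := lt_of_lt_of_le (by positivity) hδ
  obtain ⟨w, hwz, hw0, hwπ, hwd⟩ := hCA (1 - |z.re|) hδ0 (by linarith) z
  have hcos : cos (arccos z.re) = z.re := cos_arccos hre1 hre2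
  have h1 := hwd (arccos z.re) ⟨arccos_nonneg _, arccos_le_pi _⟩ (by
    rw [hcos]
    have := abs_le.1 (le_refl |z.re|)
    exact ⟨by linarith [this.1], by linarith [this.2]⟩)
  rw [hcos] at h1
  have h2 : ‖z - ((z.re : ℝ) : ℂ)‖ = z.im := by
    have h3 : z - ((z.re : ℝ) : ℂ) = (z.im : ℂ) * Complex.I := by
      apply Complex.ext <;> simp
    rw [h3, norm_mul, Complex.norm_I, mul_one, Complex.norm_real, Real.norm_eq_abs,
      abs_of_pos hz0]
  rw [h2] at h1
  have h4 : s / 2 ≤ √(1 - |z.re|) := by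
    apply Real.le_sqrt_of_sq_le
    nlinarith
  have h5 : 3 / √(1 - |z.re|) ≤ 6 * K * Ln := by
    have h6 : 0 < √(1 - |z.re|) := by positivity
    rw [div_le_iff₀ h6]
    have h7 : 1 ≤ K * Ln * s := by
      rw [div_le_iff₀ (by positivity)] at hsin
      linarith
    have h8 : K * Ln * (s / 2) ≤ K * Ln * √(1 - |z.re|) :=
      mul_le_mul_of_nonneg_left h4 (by positivity)
    linarith
  refine ⟨w, hwz, ?_, ?_⟩
  · intro him
    have h6 : w = ((w.re : ℝ) : ℂ) := by
      apply Complex.ext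
      · simp
      · rw [him, Complex.ofReal_im]
    rw [← hwz, h6, ← Complex.ofReal_cos, Complex.ofReal_im] at hz0
    exact lt_irrefl _ hz0
  · calc _ ≤ _ := h1
      _ ≤ 6 * K * Ln * (K * Ln / n) := mul_le_mul h5 hzK hz0.le (by positivity)
      _ = _ := by ring

theorem h4g (hA1 : A1) (hA2 : A2) (hB6 : B6) (hCA : CA) (hH4a : H4a) (hH4b : H4b)
    (hH4c : H4c) (hH4d : H4d) : H4g := by
  intro K hK
  obtain ⟨n1, h1⟩ := h4g_log (10000 * K ^ 2 + 100 * K ^ 2 * (3 + 6 * K ^ 2) ^ 2 + 12 * K ^ 3 +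
    2 * K * (4 * (3 + 6 * K ^ 2) + 1))
  refine ⟨max n1 2, ?_⟩
  intro n hn P N t z hdeg hb hN hc hlag hz hz0 hzK hsin hre1 hre2 hl hr
  have k2 : 2 ≤ n := by omega
  have hbig := h1 n (by omega)
  have hn2 : (2 : ℝ) ≤ n := by exact_mod_cast k2
  have hn0 : (0 : ℝ) < n := by linarith
  have hLn1 : 1 ≤ 1 + Real.log n := by linarith [Real.log_nonneg (by linarith : (1 : ℝ) ≤ n)]
  set Ln : ℝ := 1 + Real.log n with hLn
  have hLn0 : 0 < Ln := by linarith
  set B : ℝ := 3 + 6 * K ^ 2 with hB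
  have hB0 : 0 < B := by positivity
  have hp1 : Ln ≤ Ln ^ 5 := by
    calc Ln = Ln ^ 1 := (pow_one _).symm
      _ ≤ Ln ^ 5 := pow_le_pow_right₀ hLn1 (by norm_num)
  have hp4 : Ln ^ 4 ≤ Ln ^ 5 := pow_le_pow_right₀ hLn1 (by norm_num)
  have hq1 : 0 ≤ 10000 * K ^ 2 * Ln ^ 5 := by positivity
  have hq2 : 0 ≤ 100 * K ^ 2 * B ^ 2 * Ln ^ 5 := by positivity
  have hq3 : 0 ≤ 12 * K ^ 3 * Ln ^ 5 := by positivity
  have hq4 : 0 ≤ 2 * K * (4 * B + 1) * Ln ^ 5 := by positivity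
  have ha : 10000 * K ^ 2 * Ln ≤ n := by
    have := mul_le_mul_of_nonneg_left hp1 (by positivity : 0 ≤ 10000 * K ^ 2)
    linarith
  have hb' : 100 * K ^ 2 * B ^ 2 * Ln ^ 5 ≤ n := by linarith
  have hc' : 12 * K ^ 3 * Ln ^ 4 ≤ n := by
    have := mul_le_mul_of_nonneg_left hp4 (by positivity : 0 ≤ 12 * K ^ 3)
    linarith
  have hd' : 2 * K * (4 * B + 1) * Ln ^ 4 ≤ n := by
    have := mul_le_mul_of_nonneg_left hp4 (by positivity : 0 ≤ 2 * K * (4 * B + 1))
    linarith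
  -- the lag
  set L : ℝ := K * √(Ln / n) with hLdef
  have hL0 : 0 ≤ L := by positivity
  have hL2 : L ^ 2 = K ^ 2 * (Ln / n) := by
    rw [hLdef, mul_pow, Real.sq_sqrt (by positivity)]
  have hL : L ≤ 1 / 100 := by
    have h2 : L ^ 2 ≤ (1 / 100) ^ 2 := by
      rw [hL2, ← mul_div_assoc, div_le_iff₀ hn0]
      linarith
    exact (pow_le_pow_iff_left₀ hL0 (by norm_num) two_ne_zero).1 h2
  have hTB : TB n (qq P) := hA2.2.1 n P hdeg hb
  have hgap := h4g_gap hB6 (by omega : 1 ≤ n) hTB hc hlag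
  have hpi3 := pi_gt_three
  have hpi4 := Real.pi_le_four
  have hpi5 := Real.pi_lt_d2
  -- the complex critical angle
  obtain ⟨w, hwz, hwim, hwd⟩ := h4g_angle hCA hK hLn1 hn0 hz0 hzK hsin hre1 hre2
  set θ0 : ℝ := arccos z.re with hθ0
  have hρ : 6 * K ^ 2 * Ln ^ 2 / n ≤ 1 / (K * Ln ^ 2) / 2 := by
    rw [div_div, div_le_div_iff₀ hn0 (by positivity)]
    linarith
  set η : ℝ := 1 / (K * Ln ^ 2) with hη
  have hη2 : (4 * B + 1) * Ln ^ 2 ≤ n * (η / 2) := by
    rw [hη, div_div, mul_one_div, le_div_iff₀ (by positivity)]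
    linarith
  have hre : |w.re - θ0| ≤ 6 * K ^ 2 * Ln ^ 2 / n := by
    have h2 := Complex.abs_re_le_norm (w - ((θ0 : ℝ) : ℂ))
    rw [Complex.sub_re, Complex.ofReal_re] at h2
    exact h2.trans hwd
  have him : |w.im| ≤ 6 * K ^ 2 * Ln ^ 2 / n := by
    have h2 := Complex.abs_im_le_norm (w - ((θ0 : ℝ) : ℂ))
    rw [Complex.sub_im, Complex.ofReal_im, sub_zero] at h2
    exact h2.trans hwd
  have hre' := abs_le.1 hre
  have hη0 : 0 < η := by positivity
  have hx1 : t 0 + η / 2 ≤ w.re := by linarith [hre'.1]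
  have hx2 : w.re ≤ t N - η / 2 := by linarith [hre'.2]
  obtain ⟨i, hiN, hti, hti2⟩ := h4g_idx (N := N) (t := t) (x := w.re) (by linarith) (by linarith)
  have hg1 := hgap i (i + 1) (by omega) hiN
  push_cast at hg1
  -- the number of zeros
  have hM1 := Nat.le_ceil (2 + 6 * K ^ 2 * Ln ^ 2)
  have hM2 := Nat.ceil_lt_add_one (by positivity : 0 ≤ 2 + 6 * K ^ 2 * Ln ^ 2)
  set M : ℕ := ⌈2 + 6 * K ^ 2 * Ln ^ 2⌉₊ with hM
  have hMB : (M : ℝ) ≤ B * Ln ^ 2 := by
    have : 1 ≤ Ln ^ 2 := one_le_pow₀ hLn1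
    rw [hB]
    linarith
  have hM0 : (0 : ℝ) < M := lt_of_lt_of_le (by positivity) hM1
  have hM00 : 1 ≤ M := by
    have : 0 < M := by exact_mod_cast hM0
    omega
  have hLM : L * M ≤ 1 / 10 := by
    have h2 : (L * M) ^ 2 ≤ (1 / 10) ^ 2 := by
      have h3 : (M : ℝ) ^ 2 ≤ (B * Ln ^ 2) ^ 2 := pow_le_pow_left₀ hM0.le hMB 2
      rw [mul_pow, hL2]
      calc K ^ 2 * (Ln / n) * (M : ℝ) ^ 2 ≤ K ^ 2 * (Ln / n) * (B * Ln ^ 2) ^ 2 :=
            mul_le_mul_of_nonneg_left h3 (by positivity)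
        _ = K ^ 2 * B ^ 2 * Ln ^ 5 / n := by ring
        _ ≤ (1 / 10) ^ 2 := by
            rw [div_le_iff₀ hn0]
            linarith
    have h4 : 0 ≤ L * M := by positivity
    exact (pow_le_pow_iff_left₀ h4 (by norm_num) two_ne_zero).1 h2
  have hnorm : ‖w - (((t i + t (i + 1)) / 2 : ℝ) : ℂ)‖ ≤ (2 + 6 * K ^ 2 * Ln ^ 2) / n := by
    have h2 := Complex.norm_le_abs_re_add_abs_im (w - (((t i + t (i + 1)) / 2 : ℝ) : ℂ))
    rw [Complex.sub_re, Complex.ofReal_re, Complex.sub_im, Complex.ofReal_im, sub_zero] at h2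
    have h3 : |w.re - (t i + t (i + 1)) / 2| ≤ 2 / n := by
      have h4 : (t (i + 1) - t i) / 2 ≤ 2 / n := by
        rw [le_div_iff₀ hn0]
        linarith
      rw [abs_le]
      constructor <;> linarith
    have h5 : (2 + 6 * K ^ 2 * Ln ^ 2) / n = 2 / n + 6 * K ^ 2 * Ln ^ 2 / n := by ring
    rw [h5]
    linarith
  have hr3 : 3 * ‖w - (((t i + t (i + 1)) / 2 : ℝ) : ℂ)‖ ≤ M * π / n := by
    have h2 : (2 + 6 * K ^ 2 * Ln ^ 2) / n ≤ M / n := div_le_div_of_nonneg_right hM1 hn0.le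
    have h3 : (M : ℝ) * π / n = π * (M / n) := by ring
    have h4 : 0 < (M : ℝ) / n := by positivity
    have h5 := mul_le_mul_of_nonneg_right hpi3.le h4.le
    rw [h3]
    linarith
  have hLn2 : 1 ≤ Ln ^ 2 := one_le_pow₀ hLn1
  have hi1 : M ≤ i + 1 := by
    by_contra hcon
    push Not at hcon
    have h2 := hgap 0 (i + 1) (Nat.zero_le _) hiN
    push_cast at h2
    have h3 : (i : ℝ) + 1 ≤ M := by exact_mod_cast hcon.le
    have h4 : n * (η / 2) ≤ n * (t (i + 1) - t 0) :=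
      mul_le_mul_of_nonneg_left (by linarith) hn0.le
    have h5 : ((i : ℝ) + 1) * π ≤ B * Ln ^ 2 * 4 :=
      mul_le_mul (h3.trans hMB) hpi4 pi_pos.le (by positivity)
    linarith
  have hi2 : i + M ≤ N := by
    by_contra hcon
    push Not at hcon
    have h2 := hgap i N (by omega) le_rfl
    have h3 : (N : ℝ) - i ≤ M := by
      have : (N : ℝ) ≤ i + M := by exact_mod_cast hcon.le
      linarith
    have h4 : n * (η / 2) ≤ n * (t N - t i) :=
      mul_le_mul_of_nonneg_left (by linarith) hn0.le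
    have h6 : (0 : ℝ) ≤ (N : ℝ) - i := by
      have : (i : ℝ) ≤ N := by exact_mod_cast hiN.le
      linarith
    have h5 : ((N : ℝ) - i) * π ≤ B * Ln ^ 2 * 4 :=
      mul_le_mul (h3.trans hMB) hpi4 pi_pos.le (by positivity)
    linarith
  exact h4g_core hA2 hH4a hH4b hH4c hH4d (by omega) hdeg hb hc hgap hL0 hL hM00 hi1 hi2 hLM
    hwim (by rw [hwz]; exact hz) hr3

end Pool.Agent.Helper10.AL
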