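import Pool.Agent.Helper10.AL.St8
import Pool.Agent.Helper10.AL.P.G2L

/-!
Arc length of polynomials, bounded windows away from the end points: there are no non-real
critical points.
-/

set_option autoImplicit false

namespace Pool.Agent.Helper10.AL

open Polynomial Set Real MeasureTheory intervalIntegral
open Pool.Agent.Helper40.AS (arc Bdd Ext quad)

noncomputable section

/-- scaled integrands -/
theorem hHc_scale {a b t : ℝ} {P : ℝ[X]} {F : ℝ → ℝ} :
    (∫ x in a..b, (t * F x) / √(1 + P.derivative.eval x ^ 2)) =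
      t * ∫ x in a..b, F x / √(1 + P.derivative.eval x ^ 2) := by
  rw [← intervalIntegral.integral_const_mul]
  apply intervalIntegral.integral_congr
  intro x _
  simp only []
  ring

theorem hHc_pt {d m y ρ h : ℝ} (hρ : 0 < ρ) (hd : |d| ≤ 5) (hm : |m| ≤ h) (hy : |y| ≤ ρ) :
    (d * ρ ^ 2 - m * (2 * y)) / (ρ ^ 2) ^ 2 ≤ 5 * ρ⁻¹ ^ 2 + 2 * h * ρ⁻¹ ^ 3 :=
  (le_abs_self _).trans (g2L_pt hρ hd hm hy)

/-- the integrand for an end point -/
theorem hHc_F {a b S x e : ℝ} {z : ℂ} (hz0 : 0 < z.im) (hS : 0 < S) (hx1 : |x| ≤ 1)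
    (hx2 : 1 - x ^ 2 ≤ 2 * S ^ 2) (hh : b - a ≤ S ^ 2) (hxe : |x - e| ≤ b - a) :
    1 / (2 * S ^ 2) * g2L_F z.re z.im (X - C e) x ≤ g2L_w z.re z.im 0 5 (2 * (b - a)) x := by
  have hr := g2L_pos (u := z.re) hz0 x
  have hS2 : 0 < 2 * S ^ 2 := by positivity
  have hx3 : 0 ≤ 1 - x ^ 2 := by
    rw [← sq_abs]
    nlinarith [abs_nonneg x]
  have h1 := hHc_pt (d := (-(2 * x) * (x - e) + (1 - x ^ 2)) / (2 * S ^ 2))
    (m := ((1 - x ^ 2) * (x - e)) / (2 * S ^ 2))
    (y := x - z.re) (h := b - a) hr (by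
      rw [abs_div, abs_of_pos hS2, div_le_iff₀ hS2]
      have h2 : |-(2 * x) * (x - e)| ≤ 2 * (b - a) := by
        rw [abs_mul, abs_neg, abs_mul, abs_two]
        have h3 : |x| * |x - e| ≤ 1 * (b - a) :=
          mul_le_mul hx1 hxe (abs_nonneg _) (by norm_num)
        linarith
      have h4 := abs_add_le (-(2 * x) * (x - e)) (1 - x ^ 2)
      rw [abs_of_nonneg hx3] at h4
      linarith) (by
      rw [abs_div, abs_of_pos hS2, div_le_iff₀ hS2, abs_mul, abs_of_nonneg hx3]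
      calc (1 - x ^ 2) * |x - e| ≤ (2 * S ^ 2) * (b - a) :=
            mul_le_mul hx2 hxe (abs_nonneg _) hS2.le
        _ = _ := by ring) (g2L_ge1 _ _ _)
  unfold g2L_F g2L_w
  rw [g2L_d1, g2L_quad, Pool.Agent.Helper40.AS.quad_der]
  simp only [eval_sub, eval_X, eval_C]
  refine le_trans (le_of_eq ?_) (h1.trans (le_of_eq ?_))
  · field_simp
  · ring

/-- the critical point is not close to the right end point -/
theorem hHc_right (hG0 : G0) {n : ℕ} {a b S ε : ℝ} {P : ℝ[X]} {z : ℂ} (hn : 1 ≤ n)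
    (ha : -1 ≤ a) (hab : a < b) (hb : b ≤ 1) (hE : Ext n a b P)
    (hz : aeval z P.derivative = 0) (hz0 : 0 < z.im) (hS : 0 < S)
    (hδb : 9 / 16 * S ^ 2 ≤ 1 - b ^ 2) (hu : ∀ x ∈ Icc a b, 1 - x ^ 2 ≤ 2 * S ^ 2)
    (hh1 : b - a ≤ S ^ 2) (hε0 : 0 ≤ ε) (hε : 18 * ε < 9 / 32)
    (hW : ∀ p q r : ℝ, 0 ≤ p → 0 ≤ q → 0 ≤ r →
      (∫ x in a..b, g2L_w z.re z.im p q r x / √(1 + P.derivative.eval x ^ 2)) ≤
        ε * ∫ x in a..b, g2L_w z.re z.im p q r x) : z.im < b - z.re := by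
  by_contra hcon
  push Not at hcon
  have hh : 0 < b - a := by linarith
  have hS2 : 0 < 2 * S ^ 2 := by positivity
  have hid := g2L_id hG0 hn ha hab hb hE hz hz0 (X - C a) (natDegree_X_sub_C_le a)
  have hrb := g2L_pos (u := z.re) hz0 b
  have hrbs := g2L_sq z.re z.im b
  have hΦ : 1 ≤ √(1 + P.derivative.eval b ^ 2) := by
    rw [Real.one_le_sqrt]
    nlinarith [sq_nonneg (P.derivative.eval b)]
  have hE1 : 9 / 32 * (b - a) / g2L_r z.re z.im b ^ 2 ≤
      ∫ x in a..b, (1 / (2 * S ^ 2) * g2L_F z.re z.im (X - C a) x) /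
        √(1 + P.derivative.eval x ^ 2) := by
    rw [hHc_scale, ← hid]
    simp only [eval_sub, eval_X, eval_C, sub_self, mul_zero, zero_div, zero_mul, sub_zero]
    have h1 : 9 / 16 * S ^ 2 * (b - a) / g2L_r z.re z.im b ^ 2 ≤
        (1 - b ^ 2) * (b - a) / g2L_r z.re z.im b ^ 2 :=
      div_le_div_of_nonneg_right (mul_le_mul_of_nonneg_right hδb hh.le) (by positivity)
    have h2 : 0 < 9 / 16 * S ^ 2 * (b - a) / g2L_r z.re z.im b ^ 2 := by positivity
    have h3 := h1.trans (le_mul_of_one_le_right (h2.le.trans h1) hΦ)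
    have h4 := mul_le_mul_of_nonneg_left h3 (by positivity : 0 ≤ 1 / (2 * S ^ 2))
    refine le_trans (le_of_eq ?_) h4
    field_simp
    norm_num
  have hFw : ∀ x ∈ Icc a b, 1 / (2 * S ^ 2) * g2L_F z.re z.im (X - C a) x ≤
      g2L_w z.re z.im 0 5 (2 * (b - a)) x := by
    intro x hx
    have hx1 : |x| ≤ 1 := abs_le.2 ⟨by linarith [hx.1], by linarith [hx.2]⟩
    exact hHc_F hz0 hS hx1 (hu x hx) hh1 (abs_le.2 ⟨by linarith [hx.1], by linarith [hx.2]⟩)
  have hc : Continuous fun x => 1 / (2 * S ^ 2) * g2L_F z.re z.im (X - C a) x :=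
    continuous_const.mul (g2L_F_cont hz0 _)
  rcases le_or_gt b z.re with h | h
  · refine g2L_end (p := b) (s := g2L_r z.re z.im b) (e := b) hab hz0 hc hε0 hW
      hFw hrb ?_ ?_ (by norm_num) hE1 hε
    · intro x hx
      apply g2L_rclose hz0
      rw [hrbs]
      nlinarith [mul_nonneg (by linarith [hx.2] : 0 ≤ b - x) (by linarith : 0 ≤ z.re - b)]
    · nlinarith [sq_nonneg (g2L_r z.re z.im b)]
  · refine g2L_end (p := z.re) (s := z.im) (e := b) hab hz0 hc hε0 hW
      hFw hz0 (fun x _ => le_rfl) ?_ (by norm_num) hE1 hε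
    rw [hrbs]
    nlinarith

/-- the critical point is not close to the left end point -/
theorem hHc_left (hG0 : G0) {n : ℕ} {a b S ε : ℝ} {P : ℝ[X]} {z : ℂ} (hn : 1 ≤ n)
    (ha : -1 ≤ a) (hab : a < b) (hb : b ≤ 1) (hE : Ext n a b P)
    (hz : aeval z P.derivative = 0) (hz0 : 0 < z.im) (hS : 0 < S)
    (hδa : 9 / 16 * S ^ 2 ≤ 1 - a ^ 2) (hu : ∀ x ∈ Icc a b, 1 - x ^ 2 ≤ 2 * S ^ 2)
    (hh1 : b - a ≤ S ^ 2) (hε0 : 0 ≤ ε) (hε : 18 * ε < 9 / 32)
    (hW : ∀ p q r : ℝ, 0 ≤ p → 0 ≤ q → 0 ≤ r →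
      (∫ x in a..b, g2L_w z.re z.im p q r x / √(1 + P.derivative.eval x ^ 2)) ≤
        ε * ∫ x in a..b, g2L_w z.re z.im p q r x) : z.im < z.re - a := by
  by_contra hcon
  push Not at hcon
  have hh : 0 < b - a := by linarith
  have hS2 : 0 < 2 * S ^ 2 := by positivity
  have hid := g2L_id hG0 hn ha hab hb hE hz hz0 (X - C b) (natDegree_X_sub_C_le b)
  have hra := g2L_pos (u := z.re) hz0 a
  have hras := g2L_sq z.re z.im a
  have hΦ : 1 ≤ √(1 + P.derivative.eval a ^ 2) := by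
    rw [Real.one_le_sqrt]
    nlinarith [sq_nonneg (P.derivative.eval a)]
  have hE1 : 9 / 32 * (b - a) / g2L_r z.re z.im a ^ 2 ≤
      ∫ x in a..b, (1 / (2 * S ^ 2) * g2L_F z.re z.im (X - C b) x) /
        √(1 + P.derivative.eval x ^ 2) := by
    rw [hHc_scale, ← hid]
    simp only [eval_sub, eval_X, eval_C, sub_self, mul_zero, zero_div, zero_mul, zero_sub]
    have h1 : 9 / 16 * S ^ 2 * (b - a) / g2L_r z.re z.im a ^ 2 ≤
        (1 - a ^ 2) * (b - a) / g2L_r z.re z.im a ^ 2 :=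
      div_le_div_of_nonneg_right (mul_le_mul_of_nonneg_right hδa hh.le) (by positivity)
    have h2 : 0 < 9 / 16 * S ^ 2 * (b - a) / g2L_r z.re z.im a ^ 2 := by positivity
    have h5 : -((1 - a ^ 2) * (a - b) / g2L_r z.re z.im a ^ 2 *
        √(1 + P.derivative.eval a ^ 2)) = (1 - a ^ 2) * (b - a) / g2L_r z.re z.im a ^ 2 *
        √(1 + P.derivative.eval a ^ 2) := by ring
    rw [h5]
    have h3 := h1.trans (le_mul_of_one_le_right (h2.le.trans h1) hΦ)
    have h4 := mul_le_mul_of_nonneg_left h3 (by positivity : 0 ≤ 1 / (2 * S ^ 2))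
    refine le_trans (le_of_eq ?_) h4
    field_simp
    norm_num
  have hFw : ∀ x ∈ Icc a b, 1 / (2 * S ^ 2) * g2L_F z.re z.im (X - C b) x ≤
      g2L_w z.re z.im 0 5 (2 * (b - a)) x := by
    intro x hx
    have hx1 : |x| ≤ 1 := abs_le.2 ⟨by linarith [hx.1], by linarith [hx.2]⟩
    exact hHc_F hz0 hS hx1 (hu x hx) hh1 (abs_le.2 ⟨by linarith [hx.1], by linarith [hx.2]⟩)
  have hc : Continuous fun x => 1 / (2 * S ^ 2) * g2L_F z.re z.im (X - C b) x :=
    continuous_const.mul (g2L_F_cont hz0 _)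
  rcases le_or_gt z.re a with h | h
  · refine g2L_end (p := a) (s := g2L_r z.re z.im a) (e := a) hab hz0 hc hε0 hW
      hFw hra ?_ ?_ (by norm_num) hE1 hε
    · intro x hx
      apply g2L_rclose hz0
      rw [hras]
      nlinarith [mul_nonneg (by linarith [hx.1] : 0 ≤ x - a) (by linarith : 0 ≤ a - z.re)]
    · nlinarith [sq_nonneg (g2L_r z.re z.im a)]
  · refine g2L_end (p := z.re) (s := z.im) (e := a) hab hz0 hc hε0 hW
      hFw hz0 (fun x _ => le_rfl) ?_ (by norm_num) hE1 hε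
    rw [hras]
    nlinarith

theorem hHc_pt2 {x y v ρ M : ℝ} (hρ : 0 < ρ) (hx : |x| ≤ 1) (hM : 1 - x ^ 2 ≤ M) (hv : 0 < v)
    (hvρ : v ≤ ρ) (hy : |y| ≤ ρ) (hsq : ρ ^ 2 = y ^ 2 + v ^ 2) :
    ((-(2 * x) * y + (1 - x ^ 2)) * ρ ^ 2 - ((1 - x ^ 2) * y) * (2 * y)) / (ρ ^ 2) ^ 2 ≤
      2 * ρ⁻¹ + (M * v) * ρ⁻¹ ^ 3 := by
  have h1 : 2 * ρ⁻¹ + (M * v) * ρ⁻¹ ^ 3 = (2 * ρ * ρ ^ 2 + M * (v * ρ)) / (ρ ^ 2) ^ 2 := by
    field_simp
  rw [h1]
  apply div_le_div_of_nonneg_right _ (by positivity)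
  have h2 : -(2 * x) * y ≤ 2 * ρ := by
    have h3 : |x| * |y| ≤ 1 * ρ := mul_le_mul hx hy (abs_nonneg y) (by norm_num)
    have h4 := neg_abs_le (x * y)
    rw [abs_mul] at h4
    linarith
  have h5 : (-(2 * x) * y) * ρ ^ 2 ≤ 2 * ρ * ρ ^ 2 :=
    mul_le_mul_of_nonneg_right h2 (by positivity)
  have h0 : 0 ≤ 1 - x ^ 2 := by
    rw [← sq_abs]
    nlinarith [abs_nonneg x]
  have h6 : (1 - x ^ 2) * (v ^ 2 - y ^ 2) ≤ M * (v * ρ) := by
    have h8 : v ^ 2 ≤ v * ρ := by nlinarith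
    have h9 : (1 - x ^ 2) * v ^ 2 ≤ M * (v * ρ) :=
      mul_le_mul hM h8 (sq_nonneg v) (h0.trans hM)
    have h10 : 0 ≤ (1 - x ^ 2) * y ^ 2 := mul_nonneg h0 (sq_nonneg y)
    linarith
  have h11 : (1 - x ^ 2) * ρ ^ 2 - ((1 - x ^ 2) * y) * (2 * y) =
      (1 - x ^ 2) * (v ^ 2 - y ^ 2) := by
    rw [hsq]
    ring
  linarith

/-- the estimate in the middle of the window -/
theorem hHc_mid (hG0 : G0) {n : ℕ} {a b S ε : ℝ} {P : ℝ[X]} {z : ℂ} (hn : 1 ≤ n)
    (ha : -1 ≤ a) (hab : a < b) (hb : b ≤ 1) (hE : Ext n a b P)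
    (hz : aeval z P.derivative = 0) (hz0 : 0 < z.im) (hS : 0 < S)
    (hδb : 9 / 16 * S ^ 2 ≤ 1 - b ^ 2) (hu : ∀ x ∈ Icc a b, 1 - x ^ 2 ≤ 2 * S ^ 2)
    (hε0 : 0 ≤ ε)
    (hW : ∀ p q r : ℝ, 0 ≤ p → 0 ≤ q → 0 ≤ r →
      (∫ x in a..b, g2L_w z.re z.im p q r x / √(1 + P.derivative.eval x ^ 2)) ≤
        ε * ∫ x in a..b, g2L_w z.re z.im p q r x)
    (hr1 : z.im < b - z.re) (hr2 : z.im < z.re - a) :
    9 / 16 * S ^ 2 / (2 * (b - a)) ≤
      ε * (4 * Real.log (1 + 2 * (b - a) / z.im) + 4 * S ^ 2 / z.im) := by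
  have hh : 0 < b - a := by linarith
  have hid := g2L_id hG0 hn ha hab hb hE hz hz0 (X - C z.re) (natDegree_X_sub_C_le z.re)
  simp only [eval_sub, eval_X, eval_C] at hid
  have hra := g2L_pos (u := z.re) hz0 a
  have hrb := g2L_pos (u := z.re) hz0 b
  have hrbs := g2L_sq z.re z.im b
  have hM0 : 0 ≤ 2 * S ^ 2 * z.im := by positivity
  have hFw : ∀ x ∈ Icc a b, g2L_F z.re z.im (X - C z.re) x ≤
      g2L_w z.re z.im 2 0 (2 * S ^ 2 * z.im) x := by
    intro x hx
    have hx1 : |x| ≤ 1 := abs_le.2 ⟨by linarith [hx.1], by linarith [hx.2]⟩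
    have h1 := hHc_pt2 (x := x) (y := x - z.re) (v := z.im) (g2L_pos (u := z.re) hz0 x) hx1
      (hu x hx) hz0 (g2L_ge2 hz0 x) (g2L_ge1 _ _ _) (g2L_sq _ _ _)
    unfold g2L_F g2L_w
    rw [g2L_d1, g2L_quad, Pool.Agent.Helper40.AS.quad_der]
    simp only [eval_sub, eval_X, eval_C]
    refine h1.trans (le_of_eq ?_)
    ring
  have h1 := g2L_mono (P := P) hab.le (g2L_F_cont hz0 _) (g2L_w_cont hz0 2 0 (2 * S ^ 2 * z.im))
    hFw
  have h2 := hW 2 0 (2 * S ^ 2 * z.im) (by norm_num) le_rfl hM0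
  have h3 : ∫ x in a..b, g2L_w z.re z.im 2 0 (2 * S ^ 2 * z.im) x ≤
      4 * Real.log (1 + 2 * (b - a) / z.im) + 4 * S ^ 2 / z.im := by
    have e1 : (∫ x in a..b, g2L_w z.re z.im 2 0 (2 * S ^ 2 * z.im) x) =
        2 * (∫ x in a..b, (g2L_r z.re z.im x)⁻¹) +
          (2 * S ^ 2 * z.im) * ∫ x in a..b, (g2L_r z.re z.im x)⁻¹ ^ 3 := by
      have i1 : IntervalIntegrable (fun x : ℝ => 2 * (g2L_r z.re z.im x)⁻¹) volume a b :=
        (continuous_const.mul (g2L_inv_cont hz0)).intervalIntegrable _ _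
      have i2 : IntervalIntegrable (fun x : ℝ => (2 * S ^ 2 * z.im) * (g2L_r z.re z.im x)⁻¹ ^ 3)
          volume a b :=
        (continuous_const.mul ((g2L_inv_cont hz0).pow 3)).intervalIntegrable _ _
      rw [← intervalIntegral.integral_const_mul, ← intervalIntegral.integral_const_mul,
        ← intervalIntegral.integral_add i1 i2]
      apply intervalIntegral.integral_congr
      intro x _
      simp only [g2L_w]
      ring
    have e2 := g2L_I1 (a := a) (b := b) (u := z.re) (B := b - a) hz0 hh.le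
      (by linarith) (by linarith)
    have e3 := g2L_I3 (a := a) (b := b) (p := z.re) hz0
    have e4 : (2 * S ^ 2 * z.im) * (2 / z.im ^ 2) = 4 * S ^ 2 / z.im := by
      field_simp
      norm_num
    have e5 := mul_le_mul_of_nonneg_left e3 hM0
    rw [e1]
    linarith
  have h4 := mul_le_mul_of_nonneg_left h3 hε0
  set T : ℝ := ε * (4 * Real.log (1 + 2 * (b - a) / z.im) + 4 * S ^ 2 / z.im) with hT
  set Φb := √(1 + P.derivative.eval b ^ 2) with hΦb
  set Φa := √(1 + P.derivative.eval a ^ 2) with hΦa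
  have hΦb1 : 1 ≤ Φb := by
    rw [hΦb, Real.one_le_sqrt]
    nlinarith [sq_nonneg (P.derivative.eval b)]
  have hΦa0 : 0 ≤ Φa := Real.sqrt_nonneg _
  have k1 : 0 < b - z.re := by linarith
  have k2 : 0 < z.re - a := by linarith
  have q1 : 9 / 16 * S ^ 2 / (2 * (b - a)) ≤
      (1 - b ^ 2) * (b - z.re) / g2L_r z.re z.im b ^ 2 * Φb := by
    have e1 : g2L_r z.re z.im b ^ 2 ≤ 2 * (b - z.re) ^ 2 := by
      rw [hrbs]
      nlinarith
    have e0 : 9 / 16 * S ^ 2 / (2 * (b - a)) ≤ 9 / 16 * S ^ 2 / (2 * (b - z.re)) :=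
      div_le_div_of_nonneg_left (by positivity) (by positivity) (by linarith)
    have e2 : 9 / 16 * S ^ 2 / (2 * (b - z.re)) ≤
        (1 - b ^ 2) * (b - z.re) / g2L_r z.re z.im b ^ 2 := by
      rw [div_le_div_iff₀ (by positivity) (by positivity)]
      calc 9 / 16 * S ^ 2 * g2L_r z.re z.im b ^ 2 ≤ 9 / 16 * S ^ 2 * (2 * (b - z.re) ^ 2) :=
            mul_le_mul_of_nonneg_left e1 (by positivity)
        _ ≤ (1 - b ^ 2) * (2 * (b - z.re) ^ 2) :=
            mul_le_mul_of_nonneg_right hδb (by positivity)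
        _ = _ := by ring
    have e3 : 0 < 9 / 16 * S ^ 2 / (2 * (b - z.re)) := by positivity
    exact (e0.trans e2).trans (le_mul_of_one_le_right (e3.le.trans e2) hΦb1)
  have q2 : 0 ≤ -((1 - a ^ 2) * (a - z.re) / g2L_r z.re z.im a ^ 2 * Φa) := by
    have e1 : -((1 - a ^ 2) * (a - z.re) / g2L_r z.re z.im a ^ 2 * Φa) =
        (1 - a ^ 2) * (z.re - a) / g2L_r z.re z.im a ^ 2 * Φa := by ring
    rw [e1]
    have e2 : 0 ≤ 1 - a ^ 2 := by nlinarith
    positivity
  linarith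

theorem hHc_cos {β α : ℝ} (hβ : 0 ≤ β) (hβα : β ≤ α) (hα : α ≤ π) {M : ℝ}
    (hM : ∀ θ ∈ Icc β α, sin θ ≤ M) : cos β - cos α ≤ M * (α - β) := by
  have h1 : cos β - cos α = 2 * sin ((α + β) / 2) * sin ((α - β) / 2) := by
    have h := Real.cos_sub_cos β α
    rw [h]
    have e1 : (β - α) / 2 = -((α - β) / 2) := by ring
    rw [e1, Real.sin_neg, add_comm β α]
    ring
  rw [h1]
  have h2 : sin ((α + β) / 2) ≤ M := hM _ ⟨by linarith, by linarith⟩
  have h3 : 0 ≤ sin ((α + β) / 2) := Real.sin_nonneg_of_nonneg_of_le_pi (by linarith) (by linarith)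
  have h4 : sin ((α - β) / 2) ≤ (α - β) / 2 := Real.sin_le (by linarith)
  have h5 : 0 ≤ sin ((α - β) / 2) :=
    Real.sin_nonneg_of_nonneg_of_le_pi (by linarith) (by linarith)
  calc 2 * sin ((α + β) / 2) * sin ((α - β) / 2) ≤ 2 * M * ((α - β) / 2) :=
        mul_le_mul (by linarith) h4 h5 (by linarith)
    _ = _ := by ring

theorem hHc (hG0 : G0) (hG1u : G1u) (hG2ac : G2ac) (hS3e : S3e) : HHc := by
  intro K hK
  obtain ⟨c, hc, hcu⟩ := hG1u
  obtain ⟨K', R1, hK', hR1, n1, h1⟩ := hG2ac K hK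
  obtain ⟨R2, hR2, n2, h2⟩ := hS3e K 1 hK one_pos
  set c0 : ℝ := 3 / 4 * c with hc0def
  have hc0 : 0 < c0 := by positivity
  set A : ℝ := (1 + 1 / c0) ^ 3 with hA
  have hA1 : 1 ≤ A := by
    apply one_le_pow₀
    have : 0 < 1 / c0 := by positivity
    linarith
  have hA0 : 0 < A := by linarith
  set C3 : ℝ := Real.log (1 + 4 * K / c) with hC3
  have hC30 : 0 ≤ C3 := by
    apply Real.log_nonneg
    have : 0 < 4 * K / c := by positivity
    linarith
  obtain ⟨n3, h3⟩ := g2L_log (64 * (K' * A)) (1 / 2) (by norm_num)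
  obtain ⟨n4, h4⟩ := g2L_log (5 * K * (K' * A) * (4 * C3 + 6 / c)) (1 / 2) (by norm_num)
  refine ⟨max (max R1 R2) (4 * K), by positivity, max (max n1 n2) (max (max n3 n4) 1), ?_⟩
  intro n hn a b P hWc hE
  have k1 : n1 ≤ n := by omega
  have k2 : n2 ≤ n := by omega
  have k3 : n3 ≤ n := by omega
  have k4 : n4 ≤ n := by omega
  have k5 : 1 ≤ n := by omega
  have hn1 : (1 : ℝ) ≤ n := by exact_mod_cast k5
  have hn0 : (0 : ℝ) < n := by linarith
  have hlog : 0 ≤ Real.log n := Real.log_nonneg hn1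
  obtain ⟨ha, hab, hb, hK1, hRa, hRb⟩ := hWc
  have hW1 : Wc n R1 K a b := ⟨ha, hab, hb, hK1,
    ((le_max_left _ _).trans (le_max_left _ _)).trans hRa,
    ((le_max_left _ _).trans (le_max_left _ _)).trans hRb⟩
  have hW2 : Wc n R2 K a b := ⟨ha, hab, hb, hK1,
    ((le_max_right _ _).trans (le_max_left _ _)).trans hRa,
    ((le_max_right _ _).trans (le_max_left _ _)).trans hRb⟩
  have hR4 : 4 * K ≤ n * sin (arccos b) := (le_max_right _ _).trans hRb
  have hnat : P.natDegree ≤ n := natDegree_le_iff_degree_le.2 hE.deg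
  have hND := (h2 n k2 a b P hW2 hE).2.1
  set S : ℝ := sin (arccos b) with hSdef
  have hS0 : 0 < S := by
    by_contra hcon
    push Not at hcon
    nlinarith
  have hS1 : S ≤ 1 := Real.sin_le_one _
  have hβα : arccos b ≤ arccos a := arccos_le_arccos hab.le
  have hdiff : arccos a - arccos b ≤ 1 / 4 * S := by
    have e1 : n * (arccos a - arccos b) ≤ n * (1 / 4 * S) := by linarith
    exact le_of_mul_le_mul_left e1 hn0
  have hsin : ∀ θ ∈ Icc (arccos b) (arccos a), 3 / 4 * S ≤ sin θ ∧ sin θ ≤ 5 / 4 * S := by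
    intro θ hθ
    have e1 : |sin θ - sin (arccos b)| ≤ |θ - arccos b| := by
      have := Real.abs_sin_sub_sin_le θ (arccos b)
      exact this
    rw [abs_of_nonneg (by linarith [hθ.1] : 0 ≤ θ - arccos b)] at e1
    have e2 := abs_le.1 e1
    constructor <;> linarith [hθ.2, e2.1, e2.2]
  have hx : ∀ x ∈ Icc a b, 9 / 16 * S ^ 2 ≤ 1 - x ^ 2 ∧ 1 - x ^ 2 ≤ 2 * S ^ 2 := by
    intro x hx
    have e1 := hsin (arccos x) ⟨arccos_le_arccos hx.2, arccos_le_arccos hx.1⟩
    have hx1 : -1 ≤ x := by linarith [hx.1]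
    have hx2 : x ≤ 1 := by linarith [hx.2]
    have e2 := Real.sin_sq_add_cos_sq (arccos x)
    rw [cos_arccos hx1 hx2] at e2
    have e3 : 0 ≤ 3 / 4 * S := by positivity
    constructor
    · nlinarith [e1.1]
    · nlinarith [e1.2, e1.1]
  have hh : b - a ≤ 5 / 4 * S * (arccos a - arccos b) := by
    have e1 := hHc_cos (arccos_nonneg b) hβα (arccos_le_pi a) (M := 5 / 4 * S)
      fun θ hθ => (hsin θ hθ).2
    rw [cos_arccos (by linarith) hb, cos_arccos ha (by linarith)] at e1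
    exact e1
  have hh1 : b - a ≤ S ^ 2 := by nlinarith
  have hh2 : n * (b - a) ≤ 5 / 4 * S * K := by
    have e1 : n * (b - a) ≤ n * (5 / 4 * S * (arccos a - arccos b)) :=
      mul_le_mul_of_nonneg_left hh hn0.le
    have e2 : n * (5 / 4 * S * (arccos a - arccos b)) =
        5 / 4 * S * (n * (arccos a - arccos b)) := by ring
    have e3 : 5 / 4 * S * (n * (arccos a - arccos b)) ≤ 5 / 4 * S * K :=
      mul_le_mul_of_nonneg_left hK1 (by positivity)
    linarith
  set Ln : ℝ := 1 + Real.log n with hLn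
  have hLn1 : 1 ≤ Ln := by linarith
  have hLn0 : 0 < Ln := by linarith
  have hL2 : Ln ≤ Ln ^ 2 := by nlinarith
  set ε : ℝ := K' * A * Ln * S / n with hε
  have hε0 : 0 ≤ ε := by positivity
  have hsm := h3 n k3
  have hsm2 := h4 n k4
  have hεs : 18 * ε < 9 / 32 := by
    have e1 : ε ≤ K' * A * Ln / n := by
      rw [hε]
      apply div_le_div_of_nonneg_right _ hn0.le
      exact mul_le_of_le_one_right (by positivity) hS1
    have e2 : K' * A * Ln / n ≤ 1 / 128 := by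
      rw [div_le_iff₀ hn0]
      have e3 : K' * A * Ln ≤ K' * A * Ln ^ 2 := mul_le_mul_of_nonneg_left hL2 (by positivity)
      linarith
    linarith
  -- a non-real critical point in the upper half plane
  have key : ∀ z : ℂ, aeval z P.derivative = 0 → 0 < z.im → False := by
    intro z hz hz0
    have hdist : ∀ x ∈ Icc a b, c0 / (n / S) ≤ g2L_r z.re z.im x := by
      intro x hx
      have hx1 : -1 ≤ x := by linarith [hx.1]
      have hx2 : x ≤ 1 := by linarith [hx.2]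
      have hθ : arccos x ∈ Icc (arccos b) (arccos a) :=
        ⟨arccos_le_arccos hx.2, arccos_le_arccos hx.1⟩
      have e1 := hcu n a b P k5 ha hab hb hnat hE.bdd hND z hz (Or.inl hz0.ne') (arccos x) hθ
      rw [cos_arccos hx1 hx2, g2L_norm] at e1
      refine le_trans ?_ e1
      have e2 : c0 / (n / S) = c0 * S / n := by
        field_simp
      rw [e2]
      apply div_le_div_of_nonneg_right _ hn0.le
      have e3 := (hsin _ hθ).1
      have e4 : 0 < 1 / (n : ℝ) := by positivity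
      rw [hc0def]
      nlinarith
    have hνp : 0 < (n : ℝ) / S := by positivity
    have hW : ∀ p q r : ℝ, 0 ≤ p → 0 ≤ q → 0 ≤ r →
        (∫ x in a..b, g2L_w z.re z.im p q r x / √(1 + P.derivative.eval x ^ 2)) ≤
          ε * ∫ x in a..b, g2L_w z.re z.im p q r x := by
      intro p q r hp hq hr
      refine h1 n k1 a b A P (g2L_w z.re z.im p q r) hW1 hE
        (g2L_w_cont hz0 p q r).continuousOn (fun x _ => g2L_w_nonneg hz0 hp hq hr x) hA1 ?_
      intro x hx y _ hxy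
      refine g2L_w_slow hz0 hc0 hp hq hr hνp (hdist x hx) ?_
      rw [one_div_div]
      exact hxy
    have hR := hHc_right hG0 k5 ha hab hb hE hz hz0 hS0 (hx b ⟨hab.le, le_rfl⟩).1
      (fun x h => (hx x h).2) hh1 hε0 hεs hW
    have hL := hHc_left hG0 k5 ha hab hb hE hz hz0 hS0 (hx a ⟨le_rfl, hab.le⟩).1
      (fun x h => (hx x h).2) hh1 hε0 hεs hW
    have hm := hHc_mid hG0 k5 ha hab hb hE hz hz0 hS0 (hx b ⟨hab.le, le_rfl⟩).1
      (fun x h => (hx x h).2) hε0 hW hR hL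
    have hv := hdist z.re ⟨by linarith, by linarith⟩
    have hvr : g2L_r z.re z.im z.re = z.im := by
      rw [g2L_r, sub_self, zero_pow two_ne_zero, zero_add, Real.sqrt_sq hz0.le]
    rw [hvr] at hv
    have hv2 : c0 * S ≤ n * z.im := by
      have e2 : c0 / (n / S) = c0 * S / n := by
        field_simp
      rw [e2, div_le_iff₀ hn0] at hv
      linarith
    have hh0 : 0 < b - a := by linarith
    have hl1 : Real.log (1 + 2 * (b - a) / z.im) ≤ C3 := by
      apply Real.log_le_log (by positivity)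
      have e1 : 2 * (b - a) / z.im ≤ 4 * K / c := by
        rw [div_le_div_iff₀ hz0 hc]
        have e2 : n * (2 * (b - a) * c) ≤ n * (4 * K * z.im) := by
          have e3 : n * (2 * (b - a) * c) = 2 * c * (n * (b - a)) := by ring
          have e4 : 2 * c * (n * (b - a)) ≤ 2 * c * (5 / 4 * S * K) :=
            mul_le_mul_of_nonneg_left hh2 (by positivity)
          have e5 : 2 * c * (5 / 4 * S * K) = 10 / 3 * K * (c0 * S) := by
            rw [hc0def]
            ring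
          have e6 : 10 / 3 * K * (c0 * S) ≤ 4 * K * (n * z.im) :=
            mul_le_mul (by linarith) hv2 (by positivity) (by positivity)
          have e7 : n * (4 * K * z.im) = 4 * K * (n * z.im) := by ring
          linarith
        exact le_of_mul_le_mul_left e2 hn0
      linarith
    have hl2 : 4 * S ^ 2 / z.im ≤ 6 / c * (n * S) := by
      rw [div_le_iff₀ hz0]
      have e1 : 6 / c * (n * S) * z.im = 6 / c * S * (n * z.im) := by ring
      have e2 : 6 / c * S * (c0 * S) ≤ 6 / c * S * (n * z.im) :=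
        mul_le_mul_of_nonneg_left hv2 (by positivity)
      have e3 : 6 / c * S * (c0 * S) = 9 / 2 * S ^ 2 := by
        rw [hc0def]
        field_simp
        ring
      have e4 : 0 ≤ S ^ 2 := sq_nonneg S
      linarith
    have hl3 : ε * (4 * Real.log (1 + 2 * (b - a) / z.im) + 4 * S ^ 2 / z.im) ≤
        ε * ((4 * C3 + 6 / c) * n) := by
      apply mul_le_mul_of_nonneg_left _ hε0
      have e1 : 4 * C3 ≤ 4 * C3 * n := le_mul_of_one_le_right (by positivity) hn1
      have e2 : 6 / c * (n * S) ≤ 6 / c * n := by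
        apply mul_le_mul_of_nonneg_left _ (by positivity)
        exact mul_le_of_le_one_right hn0.le hS1
      linarith
    have hl4 : ε * ((4 * C3 + 6 / c) * n) = K' * A * (4 * C3 + 6 / c) * Ln * S := by
      rw [hε]
      field_simp
    have hl5 : n * S / (5 * K) ≤ 9 / 16 * S ^ 2 / (2 * (b - a)) := by
      rw [div_le_div_iff₀ (by positivity) (by positivity)]
      have e1 : n * S * (2 * (b - a)) = 2 * S * (n * (b - a)) := by ring
      have e2 : 2 * S * (n * (b - a)) ≤ 2 * S * (5 / 4 * S * K) :=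
        mul_le_mul_of_nonneg_left hh2 (by positivity)
      have e3 : 9 / 16 * S ^ 2 * (5 * K) = 45 / 16 * (S ^ 2 * K) := by ring
      have e4 : 2 * S * (5 / 4 * S * K) = 5 / 2 * (S ^ 2 * K) := by ring
      have e5 : 0 ≤ S ^ 2 * K := by positivity
      linarith
    have hl6 : n * S / (5 * K) ≤ K' * A * (4 * C3 + 6 / c) * Ln * S := by
      rw [← hl4]
      exact hl5.trans (hm.trans hl3)
    rw [div_le_iff₀ (by positivity)] at hl6
    have hl7 : S * n ≤ S * (5 * K * (K' * A) * (4 * C3 + 6 / c) * Ln) := by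
      have e1 : S * (5 * K * (K' * A) * (4 * C3 + 6 / c) * Ln) =
          K' * A * (4 * C3 + 6 / c) * Ln * S * (5 * K) := by ring
      rw [e1]
      linarith
    have hl8 := le_of_mul_le_mul_left hl7 hS0
    have hl9 : 5 * K * (K' * A) * (4 * C3 + 6 / c) * Ln ≤
        5 * K * (K' * A) * (4 * C3 + 6 / c) * Ln ^ 2 :=
      mul_le_mul_of_nonneg_left hL2 (by positivity)
    linarith
  intro z hz
  by_contra hne
  rcases lt_or_gt_of_ne hne with h | h
  · refine key (star z) ?_ ?_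
    · have := Polynomial.aeval_conj P.derivative z
      rw [hz, map_zero] at this
      exact this
    · simp only [Complex.star_def, Complex.conj_im]
      linarith
  · exact key z hz h

end

end Pool.Agent.Helper10.AL
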