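import Pool.Agent.Helper10.AL.St2

/-!
All critical points are real.
-/

set_option autoImplicit false

namespace Pool.Agent.Helper10.AL

open Polynomial Set Real MeasureTheory intervalIntegral
open Pool.Agent.Helper40.AS (arc Bdd Ext)

/-- `1 + log n ≤ 2 √n` -/
theorem hH_log (n : ℕ) (hn : 1 ≤ n) : 1 + Real.log n ≤ 2 * √n := by
  have hn' : (0 : ℝ) < n := by exact_mod_cast hn
  have h1 : Real.log n = 2 * Real.log (√n) := by
    rw [Real.log_sqrt hn'.le]
    ring
  have h2 : Real.log (√n) ≤ √n - 1 := Real.log_le_sub_one_of_pos (Real.sqrt_pos.2 hn')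
  rw [h1]
  linarith

theorem hH_log_pos (n : ℕ) (hn : 1 ≤ n) : 1 ≤ 1 + Real.log n := by
  have hn' : (1 : ℝ) ≤ n := by exact_mod_cast hn
  linarith [Real.log_nonneg hn']

/-- the derivative of the trigonometric form does not vanish identically -/
theorem hH_ne (hA2 : A2) {n : ℕ} {a b : ℝ} {P : ℝ[X]} (hn : 1 ≤ n) (hab : a < b)
    (hP : Ext n a b P) : ∃ θ, deriv (qq P) θ ≠ 0 := by
  by_contra hcon
  push Not at hcon
  refine Pool.Agent.Helper40.AS.ext_ne hP hn hab ?_
  refine Polynomial.eq_zero_of_infinite_isRoot _ ?_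
  refine Set.Infinite.mono ?_ (Set.Ioo_infinite (show (-1 : ℝ) < 1 by norm_num))
  intro x hx
  have h1 := hcon (arccos x)
  rw [(hA2.2.2 P (arccos x)).1, Real.cos_arccos hx.1.le hx.2.le] at h1
  have h2 : sin (arccos x) ≠ 0 := by
    rw [Real.sin_arccos]
    exact (Real.sqrt_pos.2 (by nlinarith [hx.1, hx.2])).ne'
  have h3 : sin (arccos x) * P.derivative.eval x = 0 := by linarith
  exact (mul_eq_zero.1 h3).resolve_left h2

/-- all critical points in `(0, π)` are contact points -/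
theorem hH_contact (hA2 : A2) {n : ℕ} {a b : ℝ} {P : ℝ[X]} (hn : 1 ≤ n) (ha : -1 < a)
    (hab : a < b) (hb : b < 1) (hP : Ext n a b P)
    (hE : ∀ θ ∈ Ioo (arccos b) (arccos a), deriv (qq P) θ = 0 → |qq P θ| = 1)
    {θ : ℝ} (h0 : 0 < θ) (hπ : θ < π) (hd : deriv (qq P) θ = 0) : |qq P θ| = 1 := by
  have hs : 0 < sin θ := Real.sin_pos_of_pos_of_lt_pi h0 hπ
  have hr : P.derivative.eval (cos θ) = 0 := by
    rw [(hA2.2.2 P θ).1] at hd
    have h3 : sin θ * P.derivative.eval (cos θ) = 0 := by linarith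
    exact (mul_eq_zero.1 h3).resolve_left hs.ne'
  have hc1 : cos θ < 1 := by
    have := Real.cos_lt_cos_of_nonneg_of_le_pi le_rfl hπ.le h0
    simpa using this
  have hc2 : -1 < cos θ := by
    have := Real.cos_lt_cos_of_nonneg_of_le_pi h0.le le_rfl hπ
    simpa using this
  rcases le_or_gt θ (arccos b) with h1 | h1
  · have hbθ : b ≤ cos θ := by
      have := Real.cos_le_cos_of_nonneg_of_le_pi h0.le (Real.arccos_le_pi b) h1
      rwa [Real.cos_arccos (by linarith) hb.le] at this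
    exact (Pool.Agent.Helper40.AS.right_contact hP hn hab ha.le hc1 hbθ hr).1
  · rcases le_or_gt (arccos a) θ with h2 | h2
    · have haθ : cos θ ≤ a := by
        have := Real.cos_le_cos_of_nonneg_of_le_pi (Real.arccos_nonneg a) hπ.le h2
        rwa [Real.cos_arccos ha.le (by linarith)] at this
      exact (Pool.Agent.Helper40.AS.left_contact hP hn hab hb.le hc2 haθ hr).1
    · exact hE θ ⟨h1, h2⟩ hd

theorem hH_arccos_sub {a b : ℝ} (ha : -1 ≤ a) (hab : a ≤ b) (hb : b ≤ 1) :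
    b - a ≤ arccos a - arccos b := by
  have h1 : arccos b ≤ arccos a := Real.arccos_le_arccos hab
  have h2 : |cos (arccos b) - cos (arccos a)| ≤ |arccos b - arccos a| :=
    Real.abs_cos_sub_cos_le _ _
  rw [Real.cos_arccos (by linarith) hb, Real.cos_arccos ha (by linarith),
    abs_of_nonneg (by linarith : 0 ≤ b - a), abs_of_nonpos (by linarith)] at h2
  linarith

theorem hH (hA1 : A1) (hA2 : A2) (hCH : CH) (hE6 : E6) (hE8 : E8) (hG2 : G2) (hH1 : H1)
    (hH3 : H3) (hH4 : H4) : HH := by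
  intro δ hδ hδ4
  obtain ⟨n1, hE6'⟩ := hE6 δ hδ hδ4
  obtain ⟨n2, hE8'⟩ := hE8 δ hδ hδ4
  obtain ⟨K, hK, n3, hG2'⟩ := hG2 δ hδ hδ4
  obtain ⟨K', hK', n4, hH3'⟩ := hH3 δ (2000 * K) hδ hδ4 (by positivity)
  obtain ⟨n5, hH4'⟩ := hH4 δ (max (2000 * K) K') hδ hδ4 (lt_of_lt_of_le hK' (le_max_right _ _))
  obtain ⟨n6, hn6⟩ := exists_nat_ge ((16000000 * K) ^ 2)
  obtain ⟨n7, hn7⟩ := exists_nat_ge (1 / δ)
  refine ⟨n1 + n2 + n3 + n4 + n5 + n6 + n7 + 1, ?_⟩
  intro n hn a b P hM hP z0 hz0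
  by_contra hne
  obtain ⟨z, hz, hzim⟩ : ∃ z : ℂ, aeval z P.derivative = 0 ∧ 0 < z.im := by
    rcases lt_or_gt_of_ne hne with h | h
    · refine ⟨(starRingEnd ℂ) z0, ?_, by simpa using h⟩
      rw [Polynomial.aeval_conj, hz0, map_zero]
    · exact ⟨z0, hz0, h⟩
  have hn1 : 1 ≤ n := by omega
  have hnpos : (0 : ℝ) < n := by exact_mod_cast hn1
  obtain ⟨ha, hab', hb⟩ := hM
  have hM : Mid δ a b := ⟨ha, hab', hb⟩
  have hab : a < b := by linarith
  have hND := hE6' n (by omega) a b P hM hP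
  obtain ⟨g1, g2, g3, g4, g5⟩ := hG2' n (by omega) a b P z hM hP hND hz hzim
  have hL1 : 1 ≤ 1 + Real.log n := hH_log_pos n hn1
  have hL : 1 + Real.log n ≤ 2 * √n := hH_log n hn1
  set L : ℝ := 1 + Real.log n with hLdef
  have hLpos : 0 < L := by linarith
  -- smallness
  have hsq : 16000000 * K ≤ √n := by
    apply Real.le_sqrt_of_sq_le
    refine hn6.trans ?_
    exact_mod_cast (by omega : n6 ≤ n)
  have hm : K * L ≤ n / 8000000 := by
    have h1 : K * L ≤ K * (2 * √n) := mul_le_mul_of_nonneg_left hL hK.le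
    have h2 : 16000000 * K * √n ≤ √n * √n := mul_le_mul_of_nonneg_right hsq (Real.sqrt_nonneg _)
    rw [Real.mul_self_sqrt hnpos.le] at h2
    linarith
  have hm0 : 0 ≤ K * L := by positivity
  have hδn : 1 / (n : ℝ) ≤ δ := by
    rw [div_le_iff₀ hnpos]
    have h1 : 1 / δ ≤ n := hn7.trans (by exact_mod_cast (by omega : n7 ≤ n))
    rw [div_le_iff₀ hδ] at h1
    linarith
  have hshift : 2000 * (K * L) / (n : ℝ) ^ 2 ≤ 1 / 4000 * (1 / (n : ℝ)) := by
    rw [div_le_iff₀ (by positivity)]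
    have h1 : 1 / 4000 * (1 / (n : ℝ)) * (n : ℝ) ^ 2 = n / 4000 := by
      field_simp
    rw [h1]
    linarith
  have hshift' : 2000 * (K * L) / (n : ℝ) ^ 2 < δ / 2 := by
    have h1 : (0 : ℝ) < 1 / n := by positivity
    linarith
  have hPdeg : P.natDegree ≤ n := natDegree_le_of_degree_le hP.deg
  have hTB : TB n (qq P) := hA2.2.1 n P hPdeg hP.bdd
  have hαβ : b - a ≤ arccos a - arccos b := hH_arccos_sub (by linarith) hab.le (by linarith)
  have hαπ : a - (-1) ≤ arccos (-1) - arccos a := hH_arccos_sub le_rfl (by linarith) (by linarith)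
  have hβ0 : 1 - b ≤ arccos b - arccos 1 := hH_arccos_sub (by linarith) (by linarith) le_rfl
  rw [Real.arccos_neg_one] at hαπ
  rw [Real.arccos_one] at hβ0
  -- the derivatives at the end points
  have hbound : ∀ x : ℝ, -1 ≤ x → x ≤ 1 → |P.derivative.eval x| ≤ K * L →
      |deriv (qq P) (arccos x)| ≤ K * L := by
    intro x hx1 hx2 hx
    rw [(hA2.2.2 P (arccos x)).1, Real.cos_arccos hx1 hx2, abs_neg, abs_mul]
    calc |sin (arccos x)| * |P.derivative.eval x| ≤ 1 * |P.derivative.eval x| :=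
          mul_le_mul_of_nonneg_right (Real.abs_sin_le_one _) (abs_nonneg _)
      _ ≤ K * L := by rw [one_mul]; exact hx
  have hda := hbound a (by linarith) (by linarith) g4
  have hdb := hbound b (by linarith) (by linarith) g5
  have h1000 : K * L ≤ n / 1000 := by
    have : (n : ℝ) / 8000000 ≤ n / 1000 := by
      rw [div_le_div_iff₀ (by norm_num) (by norm_num)]
      linarith
    linarith
  have hdda := hND (arccos a) ⟨by linarith, le_rfl⟩ (hda.trans h1000)
  have hddb := hND (arccos b) ⟨le_rfl, by linarith⟩ (hdb.trans h1000)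
  obtain ⟨θA, hA, hA'⟩ := hH1 n (qq P) (arccos a) (K * L) hn1 hTB hm0 hda hdda hm
  obtain ⟨θB, hB, hB'⟩ := hH1 n (qq P) (arccos b) (K * L) hn1 hTB hm0 hdb hddb hm
  have hA2' := abs_le.1 (hA.trans hshift'.le)
  have hB2' := abs_le.1 (hB.trans hshift'.le)
  have hA3 := abs_lt.1 (lt_of_le_of_lt hA hshift')
  have hB3 := abs_lt.1 (lt_of_le_of_lt hB hshift')
  have hBA : θB < θA := by linarith [hA3.1, hB3.2]
  have hE : ∀ θ ∈ Ioo (arccos b) (arccos a), deriv (qq P) θ = 0 → |qq P θ| = 1 :=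
    fun θ hθ hd => hE8' n (by omega) a b θ P hM hP hθ hd
  have hcont : ∀ θ ∈ Icc θB θA, deriv (qq P) θ = 0 → |qq P θ| = 1 := by
    intro θ hθ hd
    refine hH_contact hA2 hn1 (by linarith) hab (by linarith) hP hE ?_ ?_ hd
    · linarith [hθ.1, hB3.1]
    · linarith [hθ.2, hA3.2]
  obtain ⟨N, t, hN, ht0, htN, hch⟩ := hCH n (qq P) θB θA hn1 hTB (hH_ne hA2 hn1 hab hP) hBA hB'
    hA' hcont
  have e1 : |t N - arccos a| ≤ 2000 * K * (1 + Real.log n) / (n : ℝ) ^ 2 := by
    rw [htN]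
    refine hA.trans (le_of_eq ?_)
    rw [hLdef]
    ring
  have e2 : |t 0 - arccos b| ≤ 2000 * K * (1 + Real.log n) / (n : ℝ) ^ 2 := by
    rw [ht0]
    refine hB.trans (le_of_eq ?_)
    rw [hLdef]
    ring
  have hlag := (hH3' n (by omega) a b P N t hM hP hN hch e1 e2).2
  have hK2 : 2000 * K ≤ max (2000 * K) K' := le_max_left _ _
  have hK3 : K' ≤ max (2000 * K) K' := le_max_right _ _
  have hK4 : K ≤ max (2000 * K) K' := by linarith
  have hmono : 2000 * K * (1 + Real.log n) / (n : ℝ) ^ 2 ≤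
      max (2000 * K) K' * (1 + Real.log n) / (n : ℝ) ^ 2 := by
    apply div_le_div_of_nonneg_right _ (by positivity)
    exact mul_le_mul_of_nonneg_right hK2 hLpos.le
  have hinv : 1 / (max (2000 * K) K' * L) ≤ 1 / (K * L) := by
    apply one_div_le_one_div_of_le (by positivity)
    exact mul_le_mul_of_nonneg_right hK4 hLpos.le
  refine hH4' n (by omega) a b P N t z hM hPdeg hP.bdd hN hch (e1.trans hmono) (e2.trans hmono)
    (hlag.trans (mul_le_mul_of_nonneg_right hK3 (Real.sqrt_nonneg _))) hz hzim ?_ ?_ ?_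
  · refine g1.trans ?_
    apply div_le_div_of_nonneg_right _ hnpos.le
    exact mul_le_mul_of_nonneg_right hK4 hLpos.le
  · linarith
  · linarith

end Pool.Agent.Helper10.AL
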