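import Pool.Agent.Helper10.AL.St7
import Pool.Agent.Helper10.AL.P.HH
import Pool.Agent.Helper10.AL.P.CH
import Pool.Agent.Helper10.AL.P.A4

/-!
Non-real critical points, two large gaps.
-/

set_option autoImplicit false

namespace Pool.Agent.Helper10.AL

open Polynomial Set Real MeasureTheory intervalIntegral
open Pool.Agent.Helper40.AS (arc Bdd Ext)

/-- both second alternatives of the first order condition hold -/
theorem hHl_loc {n : ℕ} {a b η K R : ℝ} {P : ℝ[X]} {z : ℂ} (hK : 0 < K) (hn1 : 1 ≤ n)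
    (hFR : ∀ (a b : ℝ) (P : ℝ[X]) (z : ℂ), Wd n R a b → η * (arccos a - arccos b) ≤ arccos b →
      Ext n a b P → ND n (qq P) (arccos b) (arccos a) → aeval z P.derivative = 0 → 0 < z.im →
      (z.re ≤ a ∧ ‖z - (a : ℂ)‖ ≤ (1 / 10) * (b - a)) ∨
      (a < z.re ∧ z.re ≤ b - 1 / (K * (1 + Real.log n)) ∧ z.im ≤ K * (1 + Real.log n) / n ∧
        1 / (K * (1 + Real.log n)) ≤ 1 - z.re ^ 2 ∧
        |P.derivative.eval b| ≤ K * (1 + Real.log n)))
    (hE6 : ∀ (a b : ℝ) (P : ℝ[X]), Wd n R a b → Ext n a b P →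
      ND n (qq P) (arccos b) (arccos a)) (hX0 : X0)
    (hW : Wd n R a b) (h1 : η * (arccos a - arccos b) ≤ arccos b)
    (h2 : η * (arccos a - arccos b) ≤ π - arccos a) (hP : Ext n a b P)
    (hz : aeval z P.derivative = 0) (hzim : 0 < z.im) :
    z.im ≤ K * (1 + Real.log n) / n ∧ a + 1 / (K * (1 + Real.log n)) ≤ z.re ∧
    z.re ≤ b - 1 / (K * (1 + Real.log n)) ∧ 1 / (K * (1 + Real.log n)) ≤ 1 - z.re ^ 2 ∧
    |P.derivative.eval a| ≤ K * (1 + Real.log n) ∧
    |P.derivative.eval b| ≤ K * (1 + Real.log n) := by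
  have hL1 : 1 ≤ 1 + Real.log n := hH_log_pos n hn1
  have hLpos : 0 < 1 + Real.log n := by linarith
  have hKL0 : 0 < 1 / (K * (1 + Real.log n)) := by positivity
  have hab := hW.2.1
  have f1 := hFR a b P z hW h1 hP (hE6 a b P hW hP) hz hzim
  have hQ : Ext n (-b) (-a) (P.comp (-X)) := hX0.2.2 n a b P hP
  have hW' : Wd n R (-b) (-a) := by
    obtain ⟨w1, w2, w3, w4⟩ := hW
    refine ⟨by linarith, by linarith, by linarith, ?_⟩
    rw [Real.arccos_neg, Real.arccos_neg]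
    refine w4.trans (le_of_eq ?_)
    ring
  have h1' : η * (arccos (-b) - arccos (-a)) ≤ arccos (-a) := by
    rw [Real.arccos_neg, Real.arccos_neg]
    refine le_trans (le_of_eq ?_) h2
    ring
  have hder : (P.comp (-X)).derivative = -(P.derivative.comp (-X)) := by
    rw [Polynomial.derivative_comp]
    simp
  have hz' : aeval (-(starRingEnd ℂ) z) (P.comp (-X)).derivative = 0 := by
    rw [hder, map_neg, Polynomial.aeval_comp, map_neg, aeval_X, neg_neg, Polynomial.aeval_conj,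
      hz, map_zero, neg_zero]
  have hzim' : 0 < (-(starRingEnd ℂ) z).im := by simpa using hzim
  have hre : (-(starRingEnd ℂ) z).re = -z.re := by simp
  have f2 := hFR (-b) (-a) (P.comp (-X)) (-(starRingEnd ℂ) z) hW' h1' hQ
    (hE6 (-b) (-a) _ hW' hQ) hz' hzim'
  rw [hre] at f2
  rcases f1 with ⟨g1, _⟩ | ⟨g1, g2, g3, g4, g5⟩
  · exfalso
    rcases f2 with ⟨k1, _⟩ | ⟨k1, k2, _, _, _⟩
    · linarith
    · linarith
  · rcases f2 with ⟨k1, _⟩ | ⟨k1, k2, _, _, k5⟩
    · exfalso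
      linarith
    · refine ⟨g3, by linarith, g2, g4, ?_, g5⟩
      rw [hder] at k5
      simpa using k5

theorem hHl (hA1 : A1) (hA2 : A2) (hCHe : CHe) (hE6e : E6e) (hFR : FR) (hH1 : H1)
    (hH3e : H3e) (hH4g : H4g) (hX0 : X0) : HHl := by
  intro η hη
  have hCH : CH := cH hA1 a4
  obtain ⟨R1, hR1, n1, hCHe'⟩ := hCHe
  obtain ⟨R2, hR2, n2, hE6'⟩ := hE6e
  obtain ⟨K, R3, hK, hR3, n3, hFR'⟩ := hFR η (1 / 10) hη (by norm_num)
  obtain ⟨K', hK', n4, hH3'⟩ := hH3e (2000 * K) (by positivity)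
  set K2 : ℝ := 2 * K + K' + 1 with hK2
  have hK2pos : 0 < K2 := by positivity
  have hK2a : 2 * K ≤ K2 := by linarith
  have hK2b : K' ≤ K2 := by linarith
  have hK2c : 1 ≤ K2 := by linarith
  obtain ⟨n5, hH4'⟩ := hH4g K2 hK2pos
  obtain ⟨n6, hn6⟩ := exists_nat_ge ((16000000 * K) ^ 2)
  obtain ⟨n8, hn8⟩ := exists_nat_ge (16000 * K ^ 2)
  refine ⟨R1 + R2 + R3 + 1 / η, by positivity, n1 + n2 + n3 + n4 + n5 + n6 + n8 + 1, ?_⟩
  intro n hn a b P hW h1 h2 hP z0 hz0
  by_contra hne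
  obtain ⟨z, hz, hzim⟩ : ∃ z : ℂ, aeval z P.derivative = 0 ∧ 0 < z.im := by
    rcases lt_or_gt_of_ne hne with h | h
    · refine ⟨(starRingEnd ℂ) z0, ?_, by simpa using h⟩
      rw [Polynomial.aeval_conj, hz0, map_zero]
    · exact ⟨z0, hz0, h⟩
  have hn1 : 1 ≤ n := by omega
  have hnpos : (0 : ℝ) < n := by exact_mod_cast hn1
  obtain ⟨ha, hab, hb, hR⟩ := hW
  have hηi : 0 < 1 / η := by positivity
  have hW : ∀ R : ℝ, R ≤ R1 + R2 + R3 + 1 / η → Wd n R a b :=
    fun R hR' => ⟨ha, hab, hb, hR'.trans hR⟩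
  have hgap : 1 / (n : ℝ) ≤ η * (arccos a - arccos b) := by
    have h3 : 1 / η ≤ n * (arccos a - arccos b) := by linarith
    rw [div_le_iff₀ hη] at h3
    rw [div_le_iff₀ hnpos]
    linarith
  have hND := hE6' n (by omega) a b P (hW R2 (by linarith)) hP
  have hmono : ∀ (R R' a b : ℝ), R ≤ R' → Wd n R' a b → Wd n R a b :=
    fun R R' a b h hw => ⟨hw.1, hw.2.1, hw.2.2.1, h.trans hw.2.2.2⟩
  obtain ⟨g1, g2, g3, g6, g4, g5⟩ := hHl_loc (R := R2 + R3) hK hn1
    (fun a b P z hw => hFR' n (by omega) a b P z (hmono _ _ _ _ (by linarith) hw))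
    (fun a b P hw => hE6' n (by omega) a b P (hmono _ _ _ _ (by linarith) hw)) hX0
    (hW _ (by linarith)) h1 h2 hP hz hzim
  have hL1 : 1 ≤ 1 + Real.log n := hH_log_pos n hn1
  have hL : 1 + Real.log n ≤ 2 * √n := hH_log n hn1
  set L : ℝ := 1 + Real.log n with hLdef
  have hLpos : 0 < L := by linarith
  have hKL0 : 0 < 1 / (K * L) := by positivity
  -- smallness
  have hsq : 16000000 * K ≤ √n := by
    apply Real.le_sqrt_of_sq_le
    refine hn6.trans ?_
    exact_mod_cast (by omega : n6 ≤ n)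
  have hm : K * L ≤ n / 8000000 := by
    have h1 : K * L ≤ K * (2 * √n) := mul_le_mul_of_nonneg_left hL hK.le
    have h2 : 16000000 * K * √n ≤ √n * √n := mul_le_mul_of_nonneg_right hsq (Real.sqrt_nonneg _)
    rw [Real.mul_self_sqrt hnpos.le] at h2
    linarith
  have hm0 : 0 ≤ K * L := by positivity
  have hshift : 2000 * (K * L) / (n : ℝ) ^ 2 ≤ 1 / 4000 * (1 / (n : ℝ)) := by
    rw [div_le_iff₀ (by positivity)]
    have h1 : 1 / 4000 * (1 / (n : ℝ)) * (n : ℝ) ^ 2 = n / 4000 := by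
      field_simp
    rw [h1]
    linarith
  have hshift' : 2000 * (K * L) / (n : ℝ) ^ 2 < 1 / n := by
    have h1 : (0 : ℝ) < 1 / n := by positivity
    linarith
  have hKb : 2000 * (K * L) / (n : ℝ) ^ 2 ≤ 1 / (2 * (K * L)) := by
    rw [div_le_div_iff₀ (by positivity) (by positivity)]
    have h1 : L ^ 2 ≤ 4 * n := by
      have h3 : L ^ 2 ≤ (2 * √n) ^ 2 := pow_le_pow_left₀ hLpos.le hL 2
      rw [mul_pow, Real.sq_sqrt hnpos.le] at h3
      linarith
    have h2 : 16000 * K ^ 2 ≤ n := hn8.trans (by exact_mod_cast (by omega : n8 ≤ n))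
    calc 2000 * (K * L) * (2 * (K * L)) = 4000 * K ^ 2 * L ^ 2 := by ring
      _ ≤ 4000 * K ^ 2 * (4 * n) := mul_le_mul_of_nonneg_left h1 (by positivity)
      _ = 16000 * K ^ 2 * n := by ring
      _ ≤ n * n := mul_le_mul_of_nonneg_right h2 hnpos.le
      _ = 1 * (n : ℝ) ^ 2 := by ring
  have hKc : 1 / (K * L) = 1 / (2 * (K * L)) + 1 / (2 * (K * L)) := by
    field_simp
    norm_num
  have hPdeg : P.natDegree ≤ n := natDegree_le_of_degree_le hP.deg
  have hTB : TB n (qq P) := hA2.2.1 n P hPdeg hP.bdd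
  have hαβ : b - a ≤ arccos a - arccos b := hH_arccos_sub (by linarith) hab.le (by linarith)
  have hαz : z.re - a ≤ arccos a - arccos z.re :=
    hH_arccos_sub (by linarith) (by linarith) (by linarith)
  have hzβ : b - z.re ≤ arccos z.re - arccos b :=
    hH_arccos_sub (by linarith) (by linarith) (by linarith)
  have hβpos : 1 / (n : ℝ) ≤ arccos b := hgap.trans h1
  have hαpos : 1 / (n : ℝ) ≤ π - arccos a := hgap.trans h2
  have hn0 : 0 < 1 / (n : ℝ) := by positivity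
  have ha1 : -1 < a := by
    rcases lt_or_eq_of_le ha with h | h
    · exact h
    · exfalso
      rw [← h, Real.arccos_neg_one] at hαpos
      linarith
  have hb1 : b < 1 := by
    rcases lt_or_eq_of_le hb with h | h
    · exact h
    · exfalso
      rw [h, Real.arccos_one] at hβpos
      linarith
  -- the derivatives at the end points
  have hbound : ∀ x : ℝ, -1 ≤ x → x ≤ 1 → |P.derivative.eval x| ≤ K * L →
      |deriv (qq P) (arccos x)| ≤ K * L := by
    intro x hx1 hx2 hx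
    rw [(hA2.2.2 P (arccos x)).1, Real.cos_arccos hx1 hx2, abs_neg, abs_mul]
    calc |sin (arccos x)| * |P.derivative.eval x| ≤ 1 * |P.derivative.eval x| :=
          mul_le_mul_of_nonneg_right (Real.abs_sin_le_one _) (abs_nonneg _)
      _ ≤ K * L := by rw [one_mul]; exact hx
  have hda := hbound a (by linarith) (by linarith) g4
  have hdb := hbound b (by linarith) (by linarith) g5
  have h1000 : K * L ≤ n / 1000 := by
    have : (n : ℝ) / 8000000 ≤ n / 1000 := by
      rw [div_le_div_iff₀ (by norm_num) (by norm_num)]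
      linarith
    linarith
  have hdda := hND (arccos a) ⟨by linarith, le_rfl⟩ (hda.trans h1000)
  have hddb := hND (arccos b) ⟨le_rfl, by linarith⟩ (hdb.trans h1000)
  obtain ⟨θA, hA, hA'⟩ := hH1 n (qq P) (arccos a) (K * L) hn1 hTB hm0 hda hdda hm
  obtain ⟨θB, hB, hB'⟩ := hH1 n (qq P) (arccos b) (K * L) hn1 hTB hm0 hdb hddb hm
  have hA3 := abs_lt.1 (lt_of_le_of_lt hA hshift')
  have hB3 := abs_lt.1 (lt_of_le_of_lt hB hshift')
  have hA4 := abs_le.1 (hA.trans hKb)
  have hB4 := abs_le.1 (hB.trans hKb)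
  have hBA : θB < θA := by linarith [hA4.1, hB4.2]
  obtain ⟨N0, t0, hN0, hch0, _, _, hall, _, _, _⟩ :=
    hCHe' n (by omega) a b P (hW R1 (by linarith)) hP
  have hE : ∀ θ ∈ Ioo (arccos b) (arccos a), deriv (qq P) θ = 0 → |qq P θ| = 1 := by
    intro θ hθ hd
    obtain ⟨i, hi, hti⟩ := hall θ hθ hd
    rw [← hti]
    exact hch0.con i hi
  have hcont : ∀ θ ∈ Icc θB θA, deriv (qq P) θ = 0 → |qq P θ| = 1 := by
    intro θ hθ hd
    refine hH_contact hA2 hn1 ha1 hab hb1 hP hE ?_ ?_ hd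
    · linarith [hθ.1, hB3.1]
    · linarith [hθ.2, hA3.2]
  obtain ⟨N, t, hN, ht0, htN, hch⟩ := hCH n (qq P) θB θA hn1 hTB (hH_ne hA2 hn1 hab hP) hBA hB'
    hA' hcont
  have e1 : |t N - arccos a| ≤ 2000 * K * (1 + Real.log n) / (n : ℝ) ^ 2 := by
    rw [htN]
    refine hA.trans (le_of_eq ?_)
    rw [hLdef]
    ring
  have e2 : |t 0 - arccos b| ≤ 2000 * K * (1 + Real.log n) / (n : ℝ) ^ 2 := by
    rw [ht0]
    refine hB.trans (le_of_eq ?_)
    rw [hLdef]
    ring
  have hlag := (hH3' n (by omega) a b P N t ha hab hb hP hN hch e1 e2).2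
  -- the position of `z`
  have hKa : 1 / (K2 * L ^ 2) ≤ 1 / (2 * (K * L)) := by
    apply one_div_le_one_div_of_le (by positivity)
    have h2 : L ≤ L ^ 2 := by nlinarith
    calc 2 * (K * L) = (2 * K) * L := by ring
      _ ≤ K2 * L ^ 2 := mul_le_mul hK2a h2 hLpos.le hK2pos.le
  have hKs : 1 / (K2 * L) ≤ sin (arccos z.re) := by
    rw [Real.sin_arccos]
    apply Real.le_sqrt_of_sq_le
    refine le_trans ?_ g6
    rw [div_pow, one_pow]
    apply one_div_le_one_div_of_le (by positivity)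
    have h3 : K ≤ K2 := by linarith
    have h4 : K2 * L ≤ (K2 * L) ^ 2 := by
      have : 1 ≤ K2 * L := by nlinarith
      nlinarith
    exact (mul_le_mul_of_nonneg_right h3 hLpos.le).trans h4
  refine hH4' n (by omega) P N t z hPdeg hP.bdd hN hch
    (hlag.trans (mul_le_mul_of_nonneg_right hK2b (Real.sqrt_nonneg _))) hz hzim ?_ hKs
    (by linarith) (by linarith) ?_ ?_
  · refine g1.trans ?_
    apply div_le_div_of_nonneg_right _ hnpos.le
    exact mul_le_mul_of_nonneg_right (by linarith) hLpos.le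
  · rw [ht0]
    linarith [hB4.2]
  · rw [htN]
    linarith [hA4.1]

end Pool.Agent.Helper10.AL
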