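import Pool.Agent.Helper10.AL.St6
import Pool.Agent.Helper10.AL.P.CA

/-!
Piece UZ1: non-real critical points for windows `[a, 1]` with `a` near `-1`.
-/

set_option autoImplicit false

namespace Pool.Agent.Helper10.AL

open Polynomial Set Real MeasureTheory intervalIntegral
open Pool.Agent.Helper40.AS (arc Bdd Ext quad)

noncomputable section

theorem uZ1_log (η : ℝ) (hη : 0 < η) :
    ∃ n0 : ℕ, ∀ n ≥ n0, (1 + Real.log n) ^ 4 / n ≤ η ∧ 0 ≤ Real.log n ∧ 1 ≤ n := by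
  have h1 : (fun x : ℝ => Real.log x ^ 4) =o[Filter.atTop] id :=
    Real.isLittleO_pow_log_id_atTop
  have h2 := h1.bound (show 0 < η / 16 by positivity)
  have h3 : ∀ᶠ x : ℝ in Filter.atTop, Real.exp 1 ≤ x := Filter.eventually_ge_atTop _
  have h4 : ∀ᶠ x : ℝ in Filter.atTop, (1 + Real.log x) ^ 4 / x ≤ η ∧ 0 ≤ Real.log x ∧ 1 ≤ x := by
    filter_upwards [h2, h3] with x hx hx2
    have hx0 : 0 < x := lt_of_lt_of_le (Real.exp_pos 1) hx2
    have hx1 : 1 ≤ x := le_trans (by linarith [Real.add_one_le_exp (1 : ℝ)]) hx2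
    have hl : 1 ≤ Real.log x := by
      rw [Real.le_log_iff_exp_le hx0]
      exact hx2
    rw [Real.norm_of_nonneg (by positivity), id, Real.norm_of_nonneg hx0.le] at hx
    refine ⟨?_, by linarith, hx1⟩
    rw [div_le_iff₀ hx0]
    have h5 : (1 + Real.log x) ^ 4 ≤ (2 * Real.log x) ^ 4 :=
      pow_le_pow_left₀ (by linarith) (by linarith) 4
    nlinarith
  obtain ⟨n0, h5⟩ := Filter.eventually_atTop.1 (tendsto_natCast_atTop_atTop.eventually h4)
  refine ⟨n0, fun n hn => ?_⟩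
  obtain ⟨h6, h7, h8⟩ := h5 n hn
  exact ⟨h6, h7, by exact_mod_cast h8⟩

theorem uZ1_deriv (P : ℝ[X]) (θ : ℝ) :
    deriv (qq P) θ = -(sin θ * P.derivative.eval (cos θ)) := by
  have h1 : HasDerivAt (qq P) (P.derivative.eval (cos θ) * (-sin θ)) θ :=
    (P.hasDerivAt (cos θ)).comp θ (Real.hasDerivAt_cos θ)
  rw [h1.deriv]
  ring

theorem uZ1_contact (P : ℝ[X]) (hP : Bdd P) (θ : ℝ) (h0 : 0 < θ) (h1 : θ < π)
    (hq : |qq P θ| = 1) : P.derivative.eval (cos θ) = 0 := by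
  have hb : ∀ x : ℝ, |qq P x| ≤ 1 := fun x => hP (cos x) ⟨Real.neg_one_le_cos x, Real.cos_le_one x⟩
  have h2 : deriv (qq P) θ = 0 := by
    rcases (abs_eq (zero_le_one' ℝ)).1 hq with h | h
    · have h3 : IsLocalMax (qq P) θ := by
        refine Filter.Eventually.of_forall (fun x => ?_)
        rw [h]
        exact (abs_le.1 (hb x)).2
      exact h3.deriv_eq_zero
    · have h3 : IsLocalMin (qq P) θ := by
        refine Filter.Eventually.of_forall (fun x => ?_)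
        rw [h]
        exact (abs_le.1 (hb x)).1
      exact h3.deriv_eq_zero
  rw [uZ1_deriv, neg_eq_zero] at h2
  rcases mul_eq_zero.1 h2 with h | h
  · exact absurd h (Real.sin_pos_of_pos_of_lt_pi h0 h1).ne'
  · exact h

theorem uZ1_count (n : ℕ) (P : ℝ[X]) (hn : 1 ≤ n) (hdeg : P.natDegree ≤ n)
    (hP0 : P.derivative ≠ 0) (N : ℕ) (t : ℕ → ℝ) (hinc : ∀ i < N, t i < t (i + 1))
    (h0 : 0 < t 0) (hN : t N < π) (hz : ∀ i ≤ N, P.derivative.eval (cos (t i)) = 0)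
    (hnN : n ≤ N + 2) (z : ℂ) (hzr : aeval z P.derivative = 0) : z.im = 0 := by
  by_contra him
  have hmono : ∀ i j : ℕ, i < j → j ≤ N → t i < t j := by
    intro i j hij
    induction j with
    | zero => exact absurd hij (Nat.not_lt_zero _)
    | succ j ih =>
      intro hj
      rcases Nat.lt_succ_iff_lt_or_eq.1 hij with h | h
      · exact (ih h (by omega)).trans (hinc j (by omega))
      · rw [h]
        exact hinc j (by omega)
  have hmem : ∀ i ≤ N, 0 < t i ∧ t i < π := by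
    intro i hi
    constructor
    · rcases Nat.eq_zero_or_pos i with h | h
      · rw [h]
        exact h0
      · exact h0.trans (hmono 0 i h hi)
    · rcases Nat.lt_or_ge i N with h | h
      · exact (hmono i N h le_rfl).trans hN
      · have : i = N := le_antisymm hi h
        rw [this]
        exact hN
  set Q : ℂ[X] := P.derivative.map (algebraMap ℝ ℂ) with hQ
  have hQ0 : Q ≠ 0 := (Polynomial.map_ne_zero_iff (algebraMap ℝ ℂ).injective).2 hP0
  have hQd : Q.natDegree ≤ n - 1 := by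
    rw [hQ, Polynomial.natDegree_map]
    exact (Polynomial.natDegree_derivative_le P).trans (Nat.sub_le_sub_right hdeg 1)
  set g : ℕ → ℂ := fun i => ((cos (t i) : ℝ) : ℂ) with hg
  have hginj : Set.InjOn g (Finset.range (N + 1) : Set ℕ) := by
    intro i hi j hj hij
    have hi' : i ≤ N := by
      have := Finset.mem_coe.1 hi
      rw [Finset.mem_range] at this
      omega
    have hj' : j ≤ N := by
      have := Finset.mem_coe.1 hj
      rw [Finset.mem_range] at this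
      omega
    have h1 : cos (t i) = cos (t j) := Complex.ofReal_injective hij
    have h2 : t i = t j := Real.injOn_cos ⟨(hmem i hi').1.le, (hmem i hi').2.le⟩
      ⟨(hmem j hj').1.le, (hmem j hj').2.le⟩ h1
    rcases lt_trichotomy i j with h | h | h
    · exact absurd h2 (hmono i j h hj').ne
    · exact h
    · exact absurd h2 (hmono j i h hi').ne'
  set S : Finset ℂ := insert z ((Finset.range (N + 1)).image g) with hS
  have hcard : S.card = N + 2 := by
    rw [hS, Finset.card_insert_of_notMem, Finset.card_image_of_injOn hginj, Finset.card_range]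
    intro h
    rw [Finset.mem_image] at h
    obtain ⟨i, -, hi⟩ := h
    apply him
    rw [← hi, hg]
    exact Complex.ofReal_im _
  have hsub : S.val ⊆ Q.roots := by
    intro x hx
    rw [Polynomial.mem_roots hQ0, Polynomial.IsRoot.def, hQ, Polynomial.eval_map_algebraMap]
    have hx' : x ∈ S := hx
    rw [hS, Finset.mem_insert, Finset.mem_image] at hx'
    rcases hx' with h | ⟨i, hi, h⟩
    · rw [h]
      exact hzr
    · rw [← h, hg]
      have h3 := hz i (by rw [Finset.mem_range] at hi; omega)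
      have h4 : aeval ((cos (t i) : ℝ) : ℂ) P.derivative =
          ((P.derivative.eval (cos (t i)) : ℝ) : ℂ) :=
        Polynomial.aeval_algebraMap_apply_eq_algebraMap_eval (A := ℂ) (cos (t i)) P.derivative
      rw [h4, h3]
      simp
  have h5 := Polynomial.card_le_degree_of_subset_roots hsub
  rw [hcard] at h5
  omega

theorem uZ1_cos (w : ℂ) : (Complex.cos w).re = cos w.re * cosh w.im ∧
    (Complex.cos w).im = -(sin w.re * sinh w.im) := by
  have h1 : Complex.cos w = ((cos w.re * cosh w.im : ℝ) : ℂ) -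
      ((sin w.re * sinh w.im : ℝ) : ℂ) * Complex.I := by
    rw [Complex.cos_eq w]
    push_cast
    ring
  rw [h1]
  constructor
  · simp only [Complex.sub_re, Complex.ofReal_re, Complex.mul_re, Complex.ofReal_im,
      Complex.I_re, Complex.I_im]
    ring
  · simp only [Complex.sub_im, Complex.ofReal_re, Complex.mul_im, Complex.ofReal_im,
      Complex.I_re, Complex.I_im]
    ring

theorem uZ1_cosh (y : ℝ) (h0 : 0 ≤ y) (h1 : y ≤ 1) : cosh y - 1 ≤ y ^ 2 ∧ sinh y ≤ 2 * y := by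
  have h2 : cosh y ≤ 1 + y ^ 2 := by
    have h3 := Real.cosh_le_exp_half_sq y
    have hy2 : y ^ 2 ≤ 1 := by nlinarith
    have h4 : Real.exp (y ^ 2 / 2) ≤ 1 / (1 - y ^ 2 / 2) :=
      Real.exp_bound_div_one_sub_of_interval (by positivity) (by linarith)
    have h5 : 1 / (1 - y ^ 2 / 2) ≤ 1 + y ^ 2 := by
      rw [div_le_iff₀ (by linarith)]
      nlinarith
    linarith
  refine ⟨by linarith, ?_⟩
  have h3 : sinh y ^ 2 ≤ (2 * y) ^ 2 := by
    have h4 := Real.cosh_sq y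
    have h5 : cosh y ^ 2 ≤ (1 + y ^ 2) ^ 2 :=
      pow_le_pow_left₀ (Real.cosh_pos y).le h2 2
    have hy2 : y ^ 2 ≤ 1 := by nlinarith
    nlinarith [sq_nonneg y]
  exact abs_le_of_sq_le_sq' h3 (by linarith) |>.2

theorem uZ1_near (w : ℂ) (h0 : 0 ≤ w.re) (hπ : w.re ≤ π) (hy : 0 ≤ w.im) (hy1 : w.im ≤ 1) :
    ‖Complex.cos w - ((cos w.re : ℝ) : ℂ)‖ ≤ w.im ^ 2 + 2 * w.im * sin w.re := by
  obtain ⟨h1, h2⟩ := uZ1_cos w
  obtain ⟨h3, h4⟩ := uZ1_cosh w.im hy hy1
  have hs : 0 ≤ sin w.re := Real.sin_nonneg_of_nonneg_of_le_pi h0 hπ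
  have hsh : 0 ≤ sinh w.im := Real.sinh_nonneg_iff.2 hy
  have hch : 1 ≤ cosh w.im := Real.one_le_cosh _
  refine (Complex.norm_le_abs_re_add_abs_im _).trans ?_
  rw [Complex.sub_re, Complex.sub_im, Complex.ofReal_re, Complex.ofReal_im, h1, h2, sub_zero,
    abs_neg, abs_of_nonneg (mul_nonneg hs hsh)]
  have h5 : |cos w.re * cosh w.im - cos w.re| ≤ w.im ^ 2 := by
    rw [show cos w.re * cosh w.im - cos w.re = cos w.re * (cosh w.im - 1) by ring, abs_mul,
      abs_of_nonneg (sub_nonneg.2 hch)]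
    calc |cos w.re| * (cosh w.im - 1) ≤ 1 * (cosh w.im - 1) :=
          mul_le_mul_of_nonneg_right (Real.abs_cos_le_one _) (by linarith)
      _ ≤ w.im ^ 2 := by linarith
  nlinarith

/-- the imaginary part of `w` is at least a multiple of `1 / n` -/
theorem uZ1_low (c : ℝ) (hc : 0 < c) (n : ℕ) (hn : 1 ≤ n) (w : ℂ) (h0 : 0 ≤ w.re)
    (hπ : w.re ≤ π) (hy : 0 < w.im)
    (hG : c * (sin w.re + 1 / n) / n ≤ ‖Complex.cos w - ((cos w.re : ℝ) : ℂ)‖) :
    min 1 (c / 2) / n ≤ w.im := by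
  have hn0 : (0 : ℝ) < n := by exact_mod_cast hn
  have hn1 : (1 : ℝ) ≤ n := by exact_mod_cast hn
  by_contra hlt
  push Not at hlt
  have hm1 : min 1 (c / 2) ≤ 1 := min_le_left _ _
  have hm2 : min 1 (c / 2) ≤ c / 2 := min_le_right _ _
  have hm0 : 0 < min 1 (c / 2) := lt_min one_pos (by positivity)
  have hy1 : w.im ≤ 1 := by
    refine hlt.le.trans ?_
    rw [div_le_one hn0]
    linarith
  have h1 := hG.trans (uZ1_near w h0 hπ hy.le hy1)
  have hs : 0 ≤ sin w.re := Real.sin_nonneg_of_nonneg_of_le_pi h0 hπ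
  have h2 : w.im * n < min 1 (c / 2) := (lt_div_iff₀ hn0).1 hlt
  rw [div_le_iff₀ hn0] at h1
  have h3 : c * (sin w.re + 1 / n) ≤ (w.im * n) * w.im + 2 * (w.im * n) * sin w.re := by
    calc c * (sin w.re + 1 / n) ≤ (w.im ^ 2 + 2 * w.im * sin w.re) * n := h1
      _ = (w.im * n) * w.im + 2 * (w.im * n) * sin w.re := by ring
  have h4 : (w.im * n) * w.im < (c / 2) * (1 / n) := by
    have h5 : w.im < 1 / n := lt_of_lt_of_le hlt (div_le_div_of_nonneg_right hm1 hn0.le)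
    have h6 : w.im * n < c / 2 := lt_of_lt_of_le h2 hm2
    exact mul_lt_mul'' h6 h5 (by positivity) hy.le
  have h7 : 2 * (w.im * n) * sin w.re ≤ c * sin w.re := by
    apply mul_le_mul_of_nonneg_right _ hs
    linarith
  have h8 : 0 < c * (1 / n) := by positivity
  have h9 : c * (sin w.re + 1 / n) = c * sin w.re + c * (1 / n) := by ring
  linarith

/-- comparison of `π - arccos a` with `1 + a` -/
theorem uZ1_zeta (a : ℝ) (ha : -1 ≤ a) (ha0 : a ≤ 0) :
    0 ≤ π - arccos a ∧ cos (π - arccos a) = -a ∧ (π - arccos a) ^ 2 ≤ 5 * (1 + a) ∧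
    (π - arccos a ≤ 1 → 49 / 100 * (π - arccos a) ^ 2 ≤ 1 + a + (π - arccos a) ^ 4 / 10) ∧
    1 + a ≤ (π - arccos a) ^ 2 / 2 := by
  set ζ : ℝ := π - arccos a with hζ
  have h1 : cos ζ = -a := by
    rw [hζ, Real.cos_pi_sub, Real.cos_arccos ha (by linarith)]
  have h2 : 0 ≤ ζ := by
    have := Real.arccos_le_pi a
    linarith
  have h3 : |ζ| ≤ π := by
    rw [abs_of_nonneg h2]
    have := Real.arccos_nonneg a
    linarith
  refine ⟨h2, h1, ?_, ?_, ?_⟩
  · have h4 := Real.cos_le_one_sub_mul_cos_sq h3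
    rw [h1] at h4
    have h5 : 2 / π ^ 2 * ζ ^ 2 ≤ 1 + a := by linarith
    have h6 : (1 : ℝ) / 5 ≤ 2 / π ^ 2 := by
      rw [div_le_div_iff₀ (by norm_num) (by positivity)]
      have := Real.pi_lt_d2
      nlinarith [Real.pi_pos]
    have h7 : 1 / 5 * ζ ^ 2 ≤ 2 / π ^ 2 * ζ ^ 2 := mul_le_mul_of_nonneg_right h6 (sq_nonneg _)
    linarith
  · intro h4
    have h5 := Real.cos_bound (x := ζ) (by rw [abs_of_nonneg h2]; exact h4)
    rw [h1, abs_of_nonneg h2] at h5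
    have h6 := (abs_le.1 h5).2
    nlinarith [sq_nonneg ζ, pow_nonneg h2 4]
  · have h4 := Real.one_sub_sq_div_two_le_cos (x := ζ)
    rw [h1] at h4
    linarith

/-- conclusion from the Poisson estimate -/
theorem uZ1_fin (hU5 : U5) (n : ℕ) (P : ℝ[X]) (σ τ κ c1 d : ℝ) (w : ℂ) (hn : 1 ≤ n)
    (hdeg : P.natDegree ≤ n) (hb : Bdd P) (hσ : σ = 1 ∨ σ = -1) (hτ0 : 0 ≤ τ) (hτπ : τ ≤ π)
    (hκ : κ = 1 - Real.exp (-(2 * c1))) (hκ0 : 0 < κ)
    (hτ : ∀ θ ∈ Icc 0 τ, |qq P θ - σ * cos (n * θ)| ≤ κ / 16 ∧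
      |deriv (qq P) θ / n + σ * sin (n * θ)| ≤ κ / 16)
    (hw : 0 < w.im) (hroot : aeval (Complex.cos w) P.derivative = 0) (hd : 0 < d)
    (hdist : ∀ θ ∈ Icc τ (2 * π - τ), d ≤ ‖Complex.exp (w * Complex.I) -
      Complex.exp (θ * Complex.I)‖)
    (hlow : c1 / n ≤ w.im)
    (hsm : 8 * (π - τ) * (1 - Real.exp (-w.im)) / (π * d ^ 2) ≤ κ / 4) : False := by
  have h1 := (hU5 n P σ τ (κ / 16) hn hdeg hb hσ hτ0 hτπ (by positivity) hτ).1 w d hw hroot hd hdist
  have hn0 : (0 : ℝ) < n := by exact_mod_cast hn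
  have h2 : c1 ≤ n * w.im := by
    rw [div_le_iff₀ hn0] at hlow
    linarith
  have h3 : κ ≤ 1 - Real.exp (-(2 * n * w.im)) := by
    rw [hκ]
    have : Real.exp (-(2 * n * w.im)) ≤ Real.exp (-(2 * c1)) := by
      apply Real.exp_le_exp.2
      nlinarith
    linarith
  linarith

theorem uZ1_exp (y : ℝ) : 1 - Real.exp (-y) ≤ y ∧ 1 - Real.exp (-y) ≤ 1 := by
  constructor
  · have := Real.add_one_le_exp (-y)
    linarith
  · have := Real.exp_pos (-y)
    linarith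

/-- far from the gap -/
theorem uZ1_far (hU5 : U5) (cE C M κ c1 : ℝ) (hcE : 0 < cE)
    (hE : ∀ (w : ℂ) (τ θ : ℝ), 0 ≤ w.re → w.re ≤ π → 0 < w.im →
      θ ∈ Icc τ (2 * π - τ) → 3 ≤ τ → τ ≤ π →
      (2 * (π - τ) ≤ ‖w - (π : ℂ)‖ → cE * min 1 ‖w - (π : ℂ)‖ ≤
        ‖Complex.exp (w * Complex.I) - Complex.exp (θ * Complex.I)‖) ∧
      (w.re ≤ τ → cE * (τ - w.re) ≤
        ‖Complex.exp (w * Complex.I) - Complex.exp (θ * Complex.I)‖))
    (hM : M = 40 / (π * cE ^ 2)) (hC : 20 ≤ C) (hCM : 4 * M / κ ≤ C)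
    (hκ : κ = 1 - Real.exp (-(2 * c1))) (hκ0 : 0 < κ)
    (n : ℕ) (P : ℝ[X]) (σ τ ζ : ℝ) (w : ℂ) (hn : 1 ≤ n)
    (hdeg : P.natDegree ≤ n) (hb : Bdd P) (hσ : σ = 1 ∨ σ = -1) (hτ3 : 3 ≤ τ) (hτπ : τ ≤ π)
    (hτ : ∀ θ ∈ Icc 0 τ, |qq P θ - σ * cos (n * θ)| ≤ κ / 16 ∧
      |deriv (qq P) θ / n + σ * sin (n * θ)| ≤ κ / 16)
    (hζ : 0 < ζ) (hζM : M * ζ ≤ κ / 4) (hπτ : π - τ ≤ 5 * ζ)
    (hre : 0 ≤ w.re) (hre' : w.re ≤ π)
    (hw : 0 < w.im) (hroot : aeval (Complex.cos w) P.derivative = 0)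
    (hfar : C * ζ ≤ ‖w - (π : ℂ)‖) (hlow : c1 / n ≤ w.im) : False := by
  have hpi := Real.pi_pos
  have hM0 : 0 < M := by
    rw [hM]
    positivity
  have hC0 : 0 < C := by linarith
  set μ : ℝ := min 1 ‖w - (π : ℂ)‖ with hμ
  have hwp : 0 < ‖w - (π : ℂ)‖ := lt_of_lt_of_le (by positivity) hfar
  have hμ0 : 0 < μ := lt_min one_pos hwp
  have him : w.im ≤ ‖w - (π : ℂ)‖ := by
    have h1 := Complex.abs_im_le_norm (w - (π : ℂ))
    rw [Complex.sub_im, Complex.ofReal_im, sub_zero, abs_of_pos hw] at h1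
    exact h1
  obtain ⟨e1, e2⟩ := uZ1_exp w.im
  have h2 : 1 - Real.exp (-w.im) ≤ μ := le_min e2 (e1.trans him)
  have h2' : 0 ≤ 1 - Real.exp (-w.im) := by
    have : Real.exp (-w.im) ≤ 1 := Real.exp_le_one_iff.2 (by linarith)
    linarith
  refine uZ1_fin hU5 n P σ τ κ c1 (cE * μ) w hn hdeg hb hσ (by linarith) hτπ hκ hκ0 hτ hw hroot
    (by positivity) ?_ hlow ?_
  · intro θ hθ
    refine (hE w τ θ hre hre' hw hθ hτ3 hτπ).1 ?_
    refine le_trans ?_ hfar
    nlinarith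
  · have h3 : M * (ζ / μ) ≤ κ / 4 := by
      rcases le_total 1 ‖w - (π : ℂ)‖ with h | h
      · rw [hμ, min_eq_left h, div_one]
        exact hζM
      · rw [hμ, min_eq_right h]
        have h4 : ζ / ‖w - (π : ℂ)‖ ≤ 1 / C := by
          rw [div_le_div_iff₀ hwp hC0]
          linarith
        have h5 : M * (1 / C) ≤ κ / 4 := by
          rw [mul_one_div, div_le_iff₀ hC0]
          rw [div_le_iff₀ hκ0] at hCM
          linarith
        exact (mul_le_mul_of_nonneg_left h4 hM0.le).trans h5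
    refine le_trans ?_ h3
    have h6 : 8 * (π - τ) * (1 - Real.exp (-w.im)) ≤ 40 * ζ * μ := by
      have h7 : 0 ≤ π - τ := by linarith
      calc 8 * (π - τ) * (1 - Real.exp (-w.im)) ≤ 8 * (5 * ζ) * μ := by
            apply mul_le_mul (by linarith) h2 h2' (by positivity)
        _ = 40 * ζ * μ := by ring
    calc 8 * (π - τ) * (1 - Real.exp (-w.im)) / (π * (cE * μ) ^ 2)
        ≤ 40 * ζ * μ / (π * (cE * μ) ^ 2) := div_le_div_of_nonneg_right h6 (by positivity)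
      _ = M * (ζ / μ) := by
          rw [hM]
          field_simp

/-- the size of `z + 1` -/
theorem uZ1_size (w z : ℂ) (hre : 0 ≤ w.re) (hre' : w.re ≤ π) (hw : 0 < w.im)
    (h1 : z.re = cos w.re * cosh w.im) (h2 : z.im = sin w.re * sinh w.im)
    (hn : ‖w - (π : ℂ)‖ ≤ 1) : ‖z + 1‖ ≤ 2 * ‖w - (π : ℂ)‖ ^ 2 := by
  set φ : ℝ := π - w.re with hφ
  have hsq : ‖w - (π : ℂ)‖ ^ 2 = φ ^ 2 + w.im ^ 2 := by
    rw [Complex.sq_norm, Complex.normSq_apply, Complex.sub_re, Complex.sub_im, Complex.ofReal_re,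
      Complex.ofReal_im, sub_zero, hφ]
    ring
  have hφ0 : 0 ≤ φ := by linarith
  have hle : φ ^ 2 + w.im ^ 2 ≤ 1 := by
    rw [← hsq]
    exact pow_le_one₀ (norm_nonneg _) hn
  have hy1 : w.im ≤ 1 := by nlinarith [sq_nonneg φ]
  have hφ1 : φ ≤ 1 := by nlinarith [sq_nonneg w.im]
  obtain ⟨h3, h4⟩ := uZ1_cosh w.im hw.le hy1
  have hch : 1 ≤ cosh w.im := Real.one_le_cosh _
  have hsh : 0 ≤ sinh w.im := Real.sinh_nonneg_iff.2 hw.le
  have hc : cos w.re = -cos φ := by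
    rw [hφ, Real.cos_pi_sub, neg_neg]
  have hs : sin w.re = sin φ := by
    rw [hφ, Real.sin_pi_sub]
  have hs0 : 0 ≤ sin φ := Real.sin_nonneg_of_nonneg_of_le_pi hφ0 (by linarith)
  have hs1 : sin φ ≤ φ := Real.sin_le hφ0
  have hc1 : 1 - φ ^ 2 / 2 ≤ cos φ := Real.one_sub_sq_div_two_le_cos
  have hc2 : cos φ ≤ 1 := Real.cos_le_one _
  refine (Complex.norm_le_abs_re_add_abs_im _).trans ?_
  rw [Complex.add_re, Complex.add_im, Complex.one_re, Complex.one_im, add_zero, h1, h2, hc, hs,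
    abs_of_nonneg (mul_nonneg hs0 hsh), hsq]
  have h5 : |-cos φ * cosh w.im + 1| ≤ φ ^ 2 + w.im ^ 2 := by
    have hy2 : w.im ^ 2 ≤ 1 := by nlinarith
    have hd0 : 0 ≤ 1 - cos φ := by linarith
    have h6 : -cos φ * cosh w.im + 1 = (1 - cos φ) * cosh w.im - (cosh w.im - 1) := by ring
    have h7 : (1 - cos φ) * cosh w.im ≤ φ ^ 2 := by
      calc (1 - cos φ) * cosh w.im ≤ (φ ^ 2 / 2) * 2 :=
            mul_le_mul (by linarith) (by linarith) (by linarith) (by positivity)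
        _ = φ ^ 2 := by ring
    have h8 : 0 ≤ (1 - cos φ) * cosh w.im := by positivity
    rw [h6, abs_le]
    constructor <;> nlinarith [sq_nonneg φ, sq_nonneg w.im]
  have h9 : sin φ * sinh w.im ≤ φ ^ 2 + w.im ^ 2 := by
    calc sin φ * sinh w.im ≤ φ * (2 * w.im) := mul_le_mul hs1 h4 hsh hφ0
      _ ≤ φ ^ 2 + w.im ^ 2 := by nlinarith [sq_nonneg (φ - w.im)]
  linarith

/-- close to the gap -/
theorem uZ1_gap (hU5 : U5) (cE κ c1 K L : ℝ) (hcE : 0 < cE)
    (hE : ∀ (w : ℂ) (τ θ : ℝ), 0 ≤ w.re → w.re ≤ π → 0 < w.im →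
      θ ∈ Icc τ (2 * π - τ) → 3 ≤ τ → τ ≤ π →
      (2 * (π - τ) ≤ ‖w - (π : ℂ)‖ → cE * min 1 ‖w - (π : ℂ)‖ ≤
        ‖Complex.exp (w * Complex.I) - Complex.exp (θ * Complex.I)‖) ∧
      (w.re ≤ τ → cE * (τ - w.re) ≤
        ‖Complex.exp (w * Complex.I) - Complex.exp (θ * Complex.I)‖))
    (hκ : κ = 1 - Real.exp (-(2 * c1))) (hκ0 : 0 < κ) (hK : 1 ≤ K) (hL : 1 ≤ L)
    (n : ℕ) (P : ℝ[X]) (σ τ ζ a : ℝ) (w z : ℂ) (hn : 1 ≤ n)
    (hdeg : P.natDegree ≤ n) (hb : Bdd P) (hσ : σ = 1 ∨ σ = -1) (hτ3 : 3 ≤ τ) (hτπ : τ ≤ π)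
    (hτ : ∀ θ ∈ Icc 0 τ, |qq P θ - σ * cos (n * θ)| ≤ κ / 16 ∧
      |deriv (qq P) θ / n + σ * sin (n * θ)| ≤ κ / 16)
    (hζ0 : 0 ≤ ζ) (hζa : cos ζ = -a) (hζ1 : ζ ≤ 1) (hτζ : π - ζ - 4 / n ≤ τ)
    (hre : 0 ≤ w.re) (hre' : w.re ≤ π)
    (hw : 0 < w.im) (hroot : aeval (Complex.cos w) P.derivative = 0)
    (hz1 : z.re = cos w.re * cosh w.im) (hz2 : z.im = sin w.re * sinh w.im)
    (hnear : ‖w - (π : ℂ)‖ ≤ 1) (hlow : w.re ≤ π - ζ → c1 / n ≤ w.im)
    (him : z.im ≤ K * L / n) (hrea : a + 1 / (K * L) ≤ z.re)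
    (hn1 : 8 * (K * L) ≤ n) (hn2 : 64 * K ^ 4 / (π * cE ^ 2) * (L ^ 4 / n) ≤ κ / 4) : False := by
  have hpi := Real.pi_pos
  have hpi3 := Real.pi_gt_three
  have hn0 : (0 : ℝ) < n := by exact_mod_cast hn
  have hKL : 0 < K * L := by positivity
  set s : ℝ := 1 / (K * L) with hs
  have hs0 : 0 < s := by positivity
  set φ : ℝ := π - w.re with hφ
  have hφ0 : 0 ≤ φ := by linarith
  have hsq : ‖w - (π : ℂ)‖ ^ 2 = φ ^ 2 + w.im ^ 2 := by
    rw [Complex.sq_norm, Complex.normSq_apply, Complex.sub_re, Complex.sub_im, Complex.ofReal_re,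
      Complex.ofReal_im, sub_zero, hφ]
    ring
  have hle : φ ^ 2 + w.im ^ 2 ≤ 1 := by
    rw [← hsq]
    exact pow_le_one₀ (norm_nonneg _) hnear
  have hφ1 : φ ≤ 1 := by nlinarith [sq_nonneg w.im]
  have hch : 1 ≤ cosh w.im := Real.one_le_cosh _
  have hc : cos w.re = -cos φ := by
    rw [hφ, Real.cos_pi_sub, neg_neg]
  have hsn : sin w.re = sin φ := by
    rw [hφ, Real.sin_pi_sub]
  have hcφ : 0 ≤ cos φ := Real.cos_nonneg_of_neg_pi_div_two_le_of_le (by linarith) (by linarith)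
  have h1 : cos φ ≤ cos ζ - s := by
    have h2 : cos φ * 1 ≤ cos φ * cosh w.im := mul_le_mul_of_nonneg_left hch hcφ
    rw [hc] at hz1
    rw [hζa]
    linarith
  have h3 : ζ < φ := by
    by_contra h
    push Not at h
    have := Real.cos_le_cos_of_nonneg_of_le_pi hφ0 (by linarith : ζ ≤ π) h
    linarith
  have h4 : s ≤ φ - ζ := by
    have h5 := Real.lipschitzWith_cos.dist_le_mul ζ φ
    rw [Real.dist_eq, Real.dist_eq, NNReal.coe_one, one_mul, abs_sub_comm ζ φ,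
      abs_of_pos (by linarith : 0 < φ - ζ)] at h5
    have := le_abs_self (cos ζ - cos φ)
    linarith
  have h6 : s / 2 ≤ sin φ := by
    have h7 := Real.mul_le_sin hφ0 (by linarith : φ ≤ π / 2)
    have h8 : (1 : ℝ) / 2 ≤ 2 / π := by
      rw [div_le_div_iff₀ (by norm_num) hpi]
      linarith [Real.pi_le_four]
    have h9 : 1 / 2 * φ ≤ 2 / π * φ := mul_le_mul_of_nonneg_right h8 hφ0
    linarith
  have h10 : w.im ≤ sinh w.im := Real.self_le_sinh_iff.2 hw.le
  have h11 : w.im ≤ 2 * (K * L) ^ 2 / n := by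
    have h12 : s / 2 * w.im ≤ K * L / n := by
      refine le_trans ?_ him
      rw [hz2, hsn]
      exact mul_le_mul h6 h10 hw.le (by linarith)
    have h13 : s / 2 * w.im = w.im / (2 * (K * L)) := by
      rw [hs]
      field_simp
    rw [h13, div_le_div_iff₀ (by positivity) hn0] at h12
    rw [le_div_iff₀ hn0]
    calc w.im * n ≤ K * L * (2 * (K * L)) := h12
      _ = 2 * (K * L) ^ 2 := by ring
  have h14 : 4 / (n : ℝ) ≤ s / 2 := by
    rw [hs, div_div, div_le_div_iff₀ hn0 (by positivity)]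
    linarith
  have h15 : s / 2 ≤ τ - w.re := by
    have : w.re = π - φ := by rw [hφ]; ring
    linarith
  refine uZ1_fin hU5 n P σ τ κ c1 (cE * (s / 2)) w hn hdeg hb hσ (by linarith) hτπ hκ hκ0 hτ hw
    hroot (by positivity) ?_ (hlow (by linarith)) ?_
  · intro θ hθ
    refine le_trans ?_ ((hE w τ θ hre hre' hw hθ hτ3 hτπ).2 (by linarith))
    exact mul_le_mul_of_nonneg_left h15 hcE.le
  · refine le_trans ?_ hn2
    obtain ⟨e1, -⟩ := uZ1_exp w.im
    have h2' : 0 ≤ 1 - Real.exp (-w.im) := by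
      have : Real.exp (-w.im) ≤ 1 := Real.exp_le_one_iff.2 (by linarith)
      linarith
    have h16 : π - τ ≤ 1 := by linarith [Real.pi_le_four]
    have h17 : 8 * (π - τ) * (1 - Real.exp (-w.im)) ≤ 16 * (K * L) ^ 2 / n := by
      calc 8 * (π - τ) * (1 - Real.exp (-w.im)) ≤ 8 * 1 * (2 * (K * L) ^ 2 / n) := by
            apply mul_le_mul (by linarith) (e1.trans h11) h2' (by norm_num)
        _ = 16 * (K * L) ^ 2 / n := by ring
    calc 8 * (π - τ) * (1 - Real.exp (-w.im)) / (π * (cE * (s / 2)) ^ 2)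
        ≤ 16 * (K * L) ^ 2 / n / (π * (cE * (s / 2)) ^ 2) :=
          div_le_div_of_nonneg_right h17 (by positivity)
      _ = 64 * K ^ 4 / (π * cE ^ 2) * (L ^ 4 / n) := by
          rw [hs]
          field_simp
          ring

theorem uZ1_mono (N : ℕ) (t : ℕ → ℝ) (hinc : ∀ i < N, t i < t (i + 1)) (u v : ℝ)
    (h0 : u < t 0) (hN : t N < v) : ∀ i ≤ N, u < t i ∧ t i < v := by
  have h1 : ∀ i ≤ N, t 0 ≤ t i := by
    intro i
    induction i with
    | zero => exact fun _ => le_rfl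
    | succ i ih => exact fun hi => (ih (by omega)).trans (hinc i (by omega)).le
  have h2 : ∀ k ≤ N, t (N - k) ≤ t N := by
    intro k
    induction k with
    | zero => exact fun _ => le_rfl
    | succ k ih =>
      intro hk
      have h3 := hinc (N - (k + 1)) (by omega)
      have h4 : N - (k + 1) + 1 = N - k := by omega
      rw [h4] at h3
      exact h3.le.trans (ih (by omega))
  intro i hi
  have h5 := h2 (N - i) (by omega)
  have h6 : N - (N - i) = i := by omega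
  rw [h6] at h5
  exact ⟨lt_of_lt_of_le h0 (h1 i hi), lt_of_le_of_lt h5 hN⟩

theorem uZ1_ne (n : ℕ) (P : ℝ[X]) (hn : 1 ≤ n) (v : ℝ) (hv : 0 ≤ v) (h : ND n (qq P) 0 v) :
    P.derivative ≠ 0 := by
  intro h0
  have h1 : deriv (qq P) = fun _ => 0 := by
    funext θ
    rw [uZ1_deriv, h0]
    simp
  have h2 := h 0 ⟨le_rfl, hv⟩ (by
    rw [h1]
    simp only [abs_zero]
    positivity)
  rw [h1, deriv_const, abs_zero] at h2
  have h3 : (1 : ℝ) ≤ n := by exact_mod_cast hn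
  have h4 : (0 : ℝ) < (n : ℝ) ^ 2 / 1000 := by positivity
  linarith

/-- windows which are very close to `[-1, 1]` -/
theorem uZ1_case1 (n : ℕ) (P : ℝ[X]) (hn : 1 ≤ n) (hdeg : P.natDegree ≤ n) (hb : Bdd P)
    (hP0 : P.derivative ≠ 0) (a e : ℝ) (N : ℕ) (t : ℕ → ℝ) (hch : Chain (qq P) N t)
    (h0 : 0 < t 0) (hN : t N < arccos a) (he : e ≤ 1 / 2)
    (h1 : |n * t N - ((N : ℝ) + 1) * π| ≤ e) (h2 : n * (arccos a - t N) ≤ π + e)
    (h3 : n * (π - arccos a) ≤ 3 / 2) (z : ℂ) (hz : aeval z P.derivative = 0) : z.im = 0 := by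
  have hpi := Real.pi_gt_three
  have hNπ : t N < π := lt_of_lt_of_le hN (Real.arccos_le_pi a)
  have hm := uZ1_mono N t hch.inc 0 π h0 hNπ
  refine uZ1_count n P hn hdeg hP0 N t hch.inc h0 hNπ
    (fun i hi => uZ1_contact P hb (t i) (hm i hi).1 (hm i hi).2 (hch.con i hi)) ?_ z hz
  have h4 := (abs_le.1 h1).2
  have h5 : (n : ℝ) * π < ((N : ℝ) + 3) * π := by nlinarith
  have h6 : (n : ℝ) < (N : ℝ) + 3 := lt_of_mul_lt_mul_right h5 (by linarith)
  have h7 : n < N + 3 := by exact_mod_cast h6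
  omega

theorem uZ1_sqrt (K x : ℝ) (hK : 0 < K) (hx : x ≤ 1 / (4 * (K + 1) ^ 2)) :
    K * √x ≤ 1 / 2 := by
  have h1 : √x ≤ 1 / (2 * (K + 1)) := by
    rw [show (1 : ℝ) / (2 * (K + 1)) = √((1 / (2 * (K + 1))) ^ 2) by
      rw [Real.sqrt_sq (by positivity)]]
    apply Real.sqrt_le_sqrt
    refine hx.trans (le_of_eq ?_)
    field_simp
    ring
  have h2 : K * √x ≤ K * (1 / (2 * (K + 1))) := mul_le_mul_of_nonneg_left h1 hK.le
  have h3 : K * (1 / (2 * (K + 1))) ≤ 1 / 2 := by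
    rw [mul_one_div, div_le_div_iff₀ (by positivity) (by norm_num)]
    linarith
  exact h2.trans h3

theorem uZ1_na (m ζ b : ℝ) (h0 : 0 ≤ ζ) (h1 : ζ ≤ 1 / 100)
    (q1 : 49 / 100 * ζ ^ 2 ≤ b + ζ ^ 4 / 10) (h2 : 3 / 2 < m * ζ) : 1 ≤ m ^ 2 * b := by
  have q0 : ζ ^ 2 ≤ 1 / 10000 := by
    calc ζ ^ 2 ≤ (1 / 100) ^ 2 := pow_le_pow_left₀ h0 h1 2
      _ = 1 / 10000 := by norm_num
  have q2 : ζ ^ 4 ≤ ζ ^ 2 * (1 / 10000) := by
    calc ζ ^ 4 = ζ ^ 2 * ζ ^ 2 := by ring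
      _ ≤ ζ ^ 2 * (1 / 10000) := mul_le_mul_of_nonneg_left q0 (sq_nonneg _)
  have q3 : 48 / 100 * ζ ^ 2 ≤ b := by linarith [sq_nonneg ζ]
  have q4 : (3 / 2 : ℝ) ^ 2 ≤ (m * ζ) ^ 2 := pow_le_pow_left₀ (by norm_num) h2.le 2
  have q5 : m ^ 2 * (48 / 100 * ζ ^ 2) ≤ m ^ 2 * b :=
    mul_le_mul_of_nonneg_left q3 (sq_nonneg _)
  have q6 : m ^ 2 * (48 / 100 * ζ ^ 2) = 48 / 100 * (m * ζ) ^ 2 := by ring
  have q7 : (1 : ℝ) ≤ 48 / 100 * (3 / 2) ^ 2 := by norm_num
  linarith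

theorem uZ1 (hU1 : U1) (hU3 : U3) (hU4 : U4) (hU5 : U5) (hU5e : U5e) (hU6 : U6) (hG1u : G1u)
    (_hX0 : X0) : UZ1 := by
  have hpi := Real.pi_pos
  have hpi3 := Real.pi_gt_d2
  obtain ⟨c, hc, hG⟩ := hG1u
  set c1 : ℝ := min 1 (c / 2) with hc1
  have hc10 : 0 < c1 := lt_min one_pos (by positivity)
  have hc11 : c1 ≤ 1 := min_le_left _ _
  set κ : ℝ := 1 - Real.exp (-(2 * c1)) with hκ
  have hκ0 : 0 < κ := by
    have : Real.exp (-(2 * c1)) < 1 := Real.exp_lt_one_iff.2 (by linarith)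
    linarith
  obtain ⟨cE, hcE, hE⟩ := hU5e
  set M : ℝ := 40 / (π * cE ^ 2) with hM
  have hM0 : 0 < M := by positivity
  set C : ℝ := max 20 (4 * M / κ) with hC
  have hC20 : 20 ≤ C := le_max_left _ _
  have hC0 : 0 < C := by linarith
  have hCM : 4 * M / κ ≤ C := le_max_right _ _
  obtain ⟨K6, hK6, n6, h6⟩ := hU6 (10 * C ^ 2) (by positivity)
  set K : ℝ := max K6 1 with hK
  have hK1 : 1 ≤ K := le_max_right _ _
  have hK66 : K6 ≤ K := le_max_left _ _
  have hK0 : 0 < K := by linarith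
  obtain ⟨K3, hK3, n3, h3⟩ := hU3
  obtain ⟨n1, h1⟩ := hU1
  obtain ⟨n4, h4⟩ := hU4 (κ / 16) (by positivity)
  set ζ0 : ℝ := min (1 / 100) (min (1 / C) (κ / (4 * M))) with hζ0
  have hζ00 : 0 < ζ0 := lt_min (by norm_num) (lt_min (by positivity) (by positivity))
  have hζ01 : ζ0 ≤ 1 / 100 := min_le_left _ _
  have hζ02 : ζ0 ≤ 1 / C := (min_le_right _ _).trans (min_le_left _ _)
  have hζ03 : ζ0 ≤ κ / (4 * M) := (min_le_right _ _).trans (min_le_right _ _)
  set B : ℝ := 64 * K ^ 4 / (π * cE ^ 2) with hB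
  have hB0 : 0 < B := by positivity
  set η : ℝ := min (1 / (4 * (K3 + 1) ^ 2)) (min (1 / (8 * K)) (κ / (4 * B))) with hη
  have hη0 : 0 < η := lt_min (by positivity) (lt_min (by positivity) (by positivity))
  have hη1 : η ≤ 1 / (4 * (K3 + 1) ^ 2) := min_le_left _ _
  have hη2 : η ≤ 1 / (8 * K) := (min_le_right _ _).trans (min_le_left _ _)
  have hη3 : η ≤ κ / (4 * B) := (min_le_right _ _).trans (min_le_right _ _)
  obtain ⟨nl, hl⟩ := uZ1_log η hη0
  refine ⟨ζ0 ^ 2 / 5, by positivity, max (max n1 n3) (max (max n4 n6) nl), ?_⟩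
  intro n hn a P z0 ha1 haδ hext hz0
  have hnn1 : n ≥ n1 := le_trans (le_trans (le_max_left _ _) (le_max_left _ _)) hn
  have hnn3 : n ≥ n3 := le_trans (le_trans (le_max_right _ _) (le_max_left _ _)) hn
  have hnn4 : n ≥ n4 :=
    le_trans (le_trans (le_trans (le_max_left _ _) (le_max_left _ _)) (le_max_right _ _)) hn
  have hnn6 : n ≥ n6 :=
    le_trans (le_trans (le_trans (le_max_right _ _) (le_max_left _ _)) (le_max_right _ _)) hn
  have hnnl : n ≥ nl := le_trans (le_trans (le_max_right _ _) (le_max_right _ _)) hn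
  obtain ⟨hl1, hl2, hn1⟩ := hl n hnnl
  have hn0 : (0 : ℝ) < n := by exact_mod_cast hn1
  set L : ℝ := 1 + Real.log n with hL
  have hL1 : 1 ≤ L := by linarith
  have hLn : L / n ≤ η := by
    refine le_trans (div_le_div_of_nonneg_right ?_ hn0.le) hl1
    exact le_self_pow₀ hL1 (by norm_num)
  have haδ' : ζ0 ^ 2 / 5 ≤ 1 / 5 := by
    have : ζ0 ^ 2 ≤ 1 := pow_le_one₀ hζ00.le (by linarith)
    linarith
  have ha0 : a ≤ 0 := by linarith
  have hdeg : P.natDegree ≤ n := Polynomial.natDegree_le_of_degree_le hext.deg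
  have hb : Bdd P := hext.bdd
  have hND := h1 n hnn1 a P ha1.le ha0 hext
  have hα0 : 0 ≤ arccos a := Real.arccos_nonneg a
  have hP0 := uZ1_ne n P hn1 (arccos a) hα0 hND
  obtain ⟨g1, g2, g3, g4, g5⟩ := uZ1_zeta a ha1.le ha0
  set ζ : ℝ := π - arccos a with hζ
  have hζpos : 0 < ζ := by
    have : arccos a ≠ π := by
      rw [Ne, Real.arccos_eq_pi]
      linarith
    have h := lt_of_le_of_ne (Real.arccos_le_pi a) this
    linarith
  have hζle : ζ ≤ ζ0 := by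
    have : ζ ^ 2 ≤ ζ0 ^ 2 := by linarith
    exact (abs_le_of_sq_le_sq' this hζ00.le).2
  have hζ1 : ζ ≤ 1 / 100 := hζle.trans hζ01
  by_contra him0
  rcases le_or_gt (n * ζ) (3 / 2) with hcase | hcase
  · obtain ⟨N, t, hN1, hch, ht0, htN, -, ht, htN2, -⟩ := h3 n hnn3 a P ha1.le ha0 hext
    have he : K3 * √(L / n) ≤ 1 / 2 := uZ1_sqrt K3 (L / n) hK3 (hLn.trans hη1)
    exact him0 (uZ1_case1 n P hn1 hdeg hb hP0 a (K3 * √(L / n)) N t hch ht0 htN he
      (ht N le_rfl) htN2 hcase z0 hz0)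
  · -- reduction to positive imaginary part
    obtain ⟨z, hz, hzim⟩ : ∃ z : ℂ, aeval z P.derivative = 0 ∧ 0 < z.im := by
      rcases lt_or_gt_of_ne him0 with h | h
      · refine ⟨(starRingEnd ℂ) z0, ?_, ?_⟩
        · rw [Polynomial.aeval_conj, hz0, map_zero]
        · rw [Complex.conj_im]
          linarith
      · exact ⟨z0, hz0, h⟩
    obtain ⟨w, hw, hre, hre'⟩ := cA_exists ((starRingEnd ℂ) z)
    obtain ⟨k1, k2⟩ := uZ1_cos w
    have hroot : aeval (Complex.cos w) P.derivative = 0 := by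
      rw [hw, Polynomial.aeval_conj, hz, map_zero]
    have hcim : (Complex.cos w).im ≠ 0 := by
      rw [hw, Complex.conj_im]
      linarith
    have k2' := k2
    rw [hw, Complex.conj_re] at k1
    rw [hw, Complex.conj_im] at k2'
    have k3 : z.im = sin w.re * sinh w.im := by linarith
    have hs : 0 ≤ sin w.re := Real.sin_nonneg_of_nonneg_of_le_pi hre hre'
    have hwim : 0 < w.im := by
      rw [← Real.sinh_pos_iff]
      by_contra h
      push Not at h
      have : sin w.re * sinh w.im ≤ 0 := mul_nonpos_of_nonneg_of_nonpos hs h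
      linarith
    have hnζ : 1 / (n : ℝ) ≤ 2 / 3 * ζ := by
      rw [div_le_iff₀ hn0]
      linarith
    have hna : 1 ≤ (n : ℝ) ^ 2 * (1 + a) :=
      uZ1_na n ζ (1 + a) g1 hζ1 (g4 (by linarith)) hcase
    obtain ⟨σ, τ, hσ, hτ1, hτα, hnτ, hτ⟩ := h4 n hnn4 a P ha1.le ha0 hext
    have hατ : arccos a - τ ≤ 4 / n := by
      rw [le_div_iff₀ hn0]
      linarith
    have hατ' : arccos a - τ ≤ 4 * ζ := by
      have : 4 / (n : ℝ) = 4 * (1 / n) := by ring
      rw [this] at hατ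
      linarith
    have hπτ : π - τ ≤ 5 * ζ := by
      have : π = ζ + arccos a := by rw [hζ]; ring
      linarith
    have hτπ : τ ≤ π := hτα.trans (Real.arccos_le_pi a)
    have hτ3 : 3 ≤ τ := by linarith
    have hlow : w.re ≤ arccos a → c1 / n ≤ w.im := by
      intro hle
      refine uZ1_low c hc n hn1 w hre hre' hwim ?_
      refine hG n a 1 P hn1 ha1.le (by linarith) le_rfl hdeg hb ?_ (Complex.cos w) hroot
        (Or.inl hcim) w.re ?_
      · rw [Real.arccos_one]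
        exact hND
      · rw [Real.arccos_one]
        exact ⟨hre, hle⟩
    rcases le_or_gt (C * ζ) ‖w - (π : ℂ)‖ with hfar | hnear
    · have hlow' : c1 / n ≤ w.im := by
        rcases le_or_gt w.re (arccos a) with h | h
        · exact hlow h
        · have hsq : ‖w - (π : ℂ)‖ ^ 2 = (π - w.re) ^ 2 + w.im ^ 2 := by
            rw [Complex.sq_norm, Complex.normSq_apply, Complex.sub_re, Complex.sub_im,
              Complex.ofReal_re, Complex.ofReal_im, sub_zero]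
            ring
          have r1 : (C * ζ) ^ 2 ≤ ‖w - (π : ℂ)‖ ^ 2 :=
            pow_le_pow_left₀ (by positivity) hfar 2
          have r2 : (π - w.re) ^ 2 ≤ ζ ^ 2 :=
            pow_le_pow_left₀ (by linarith) (by linarith) 2
          have r3 : (20 * ζ) ^ 2 ≤ (C * ζ) ^ 2 :=
            pow_le_pow_left₀ (by positivity) (mul_le_mul_of_nonneg_right hC20 hζpos.le) 2
          have r4 : ζ ^ 2 ≤ w.im ^ 2 := by
            have r7 : (20 * ζ) ^ 2 = 400 * ζ ^ 2 := by ring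
            linarith [sq_nonneg ζ]
          have r5 : ζ ≤ w.im := (abs_le_of_sq_le_sq' r4 hwim.le).2
          have r6 : c1 / n ≤ 1 / n := div_le_div_of_nonneg_right hc11 hn0.le
          linarith
      refine uZ1_far hU5 cE C M κ c1 hcE hE hM hC20 hCM hκ hκ0 n P σ τ ζ w hn1 hdeg hb hσ hτ3 hτπ
        hτ hζpos ?_ hπτ hre hre' hwim hroot hfar hlow'
      have r1 : M * ζ ≤ M * (κ / (4 * M)) :=
        mul_le_mul_of_nonneg_left (hζle.trans hζ03) hM0.le
      refine r1.trans (le_of_eq ?_)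
      field_simp
    · have hCζ : C * ζ ≤ 1 := by
        have := hζle.trans hζ02
        rw [le_div_iff₀ hC0] at this
        linarith
      have hw1 : ‖w - (π : ℂ)‖ ≤ 1 := hnear.le.trans hCζ
      have hsize := uZ1_size w z hre hre' hwim k1 k3 hw1
      have hsize2 : ‖z + 1‖ ≤ 10 * C ^ 2 * (1 + a) := by
        refine hsize.trans ?_
        have r1 : ‖w - (π : ℂ)‖ ^ 2 ≤ (C * ζ) ^ 2 :=
          pow_le_pow_left₀ (norm_nonneg _) hnear.le 2
        have r2 : C ^ 2 * ζ ^ 2 ≤ C ^ 2 * (5 * (1 + a)) :=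
          mul_le_mul_of_nonneg_left g3 (by positivity)
        have r3 : (C * ζ) ^ 2 = C ^ 2 * ζ ^ 2 := by ring
        linarith
      obtain ⟨m1, m2⟩ := h6 n hnn6 a P z ha1 ha0 hna hext hND hz hzim hsize2
      have m1' : z.im ≤ K * L / n := by
        refine m1.trans ?_
        apply div_le_div_of_nonneg_right _ hn0.le
        exact mul_le_mul_of_nonneg_right hK66 (by linarith)
      have m2' : a + 1 / (K * L) ≤ z.re := by
        refine le_trans ?_ m2
        have : 1 / (K * L) ≤ 1 / (K6 * L) := by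
          apply one_div_le_one_div_of_le (by positivity)
          exact mul_le_mul_of_nonneg_right hK66 (by linarith)
        linarith
      refine uZ1_gap hU5 cE κ c1 K L hcE hE hκ hκ0 hK1 hL1 n P σ τ ζ a w z hn1 hdeg hb hσ hτ3 hτπ
        hτ g1 g2 (by linarith) ?_ hre hre' hwim hroot k1 k3 hw1 ?_ m1' m2' ?_ ?_
      · have : π - ζ = arccos a := by rw [hζ]; ring
        rw [this]
        linarith
      · intro h
        apply hlow
        have : π - ζ = arccos a := by rw [hζ]; ring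
        linarith
      · have r1 := hLn.trans hη2
        rw [div_le_div_iff₀ hn0 (by positivity)] at r1
        linarith
      · have r1 : B * (L ^ 4 / n) ≤ B * (κ / (4 * B)) :=
          mul_le_mul_of_nonneg_left (hl1.trans hη3) hB0.le
        refine r1.trans (le_of_eq ?_)
        field_simp

end

end Pool.Agent.Helper10.AL
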