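import Pool.Agent.Helper10.AL.St7
import Pool.Agent.Helper10.AL.P.UZ1

/-!
Piece HHs: non-real critical points, small left gap.
-/

set_option autoImplicit false

namespace Pool.Agent.Helper10.AL

open Polynomial Set Real MeasureTheory intervalIntegral
open Pool.Agent.Helper40.AS (arc Bdd Ext quad)

noncomputable section

/-- closeness to a Chebyshev polynomial -/
def hHs_Clo (n : ℕ) (ε a b : ℝ) (P : ℝ[X]) : Prop :=
  ∃ σ : ℝ, (σ = 1 ∨ σ = -1) ∧ ∀ θ ∈ Icc (arccos b) (arccos a),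
    |qq P θ - σ * cos (n * θ)| ≤ ε ∧ |deriv (qq P) θ / n + σ * sin (n * θ)| ≤ ε ∧
    |deriv (deriv (qq P)) θ / (n : ℝ) ^ 2 + σ * cos (n * θ)| ≤ ε

/-- the data attached to a non-real critical point -/
structure hHs_Cfg (n : ℕ) (ε c1 a b : ℝ) (P : ℝ[X]) (z w : ℂ) : Prop where
  hn : 1 ≤ n
  ha : -1 ≤ a
  hab : a < b
  hb : b ≤ 1
  ext : Ext n a b P
  nd : ND n (qq P) (arccos b) (arccos a)
  clo : hHs_Clo n ε a b P
  re0 : 0 ≤ w.re
  reπ : w.re ≤ π
  im0 : 0 < w.im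
  root : aeval (Complex.cos w) P.derivative = 0
  rz : aeval z P.derivative = 0
  hw : Complex.cos w = (starRingEnd ℂ) z
  zim0 : 0 < z.im
  zre : z.re = cos w.re * cosh w.im
  zim : z.im = sin w.re * sinh w.im
  low : arccos b ≤ w.re → w.re ≤ arccos a → c1 / n ≤ w.im

/-- the body of `Hm` -/
def hHs_H (C : ℝ) : Prop := ∀ w : ℂ, 0 ≤ w.re → w.re ≤ π → 0 < w.im →
  (∀ α : ℝ, 0 ≤ α → α ≤ π → 2 * (π - α) ≤ ‖w - (π : ℂ)‖ →
    (∫ θ in α..(2 * π - α), pk (Complex.exp (w * Complex.I)) θ) ≤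
      C * (π - α) * min 1 w.im / min 1 ‖w - (π : ℂ)‖ ^ 2) ∧
  (∀ β : ℝ, 0 ≤ β → β ≤ π → 2 * β ≤ ‖w‖ →
    (∫ θ in (-β)..β, pk (Complex.exp (w * Complex.I)) θ) ≤
      C * β * min 1 w.im / min 1 ‖w‖ ^ 2) ∧
  (∀ α : ℝ, w.re < α → α ≤ π →
    (∫ θ in α..(2 * π - α), pk (Complex.exp (w * Complex.I)) θ) ≤ C * w.im / (α - w.re)) ∧
  (∀ β : ℝ, 0 ≤ β → β < w.re →
    (∫ θ in (-β)..β, pk (Complex.exp (w * Complex.I)) θ) ≤ C * w.im / (w.re - β))

theorem hHs_mk {c : ℝ} (hc : 0 < c)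
    (hG : ∀ (n : ℕ) (a b : ℝ) (P : ℝ[X]), 1 ≤ n → -1 ≤ a → a < b →
      b ≤ 1 → P.natDegree ≤ n → Bdd P → ND n (qq P) (arccos b) (arccos a) →
      ∀ z : ℂ, aeval z P.derivative = 0 → (z.im ≠ 0 ∨ 1 < |z.re|) →
      ∀ θ ∈ Icc (arccos b) (arccos a), c * (sin θ + 1 / n) / n ≤ ‖z - ((cos θ : ℝ) : ℂ)‖)
    {c1 : ℝ} (hc1 : c1 ≤ min 1 (c / 2)) {n : ℕ} {ε a b : ℝ} {P : ℝ[X]} {z w : ℂ} (hn : 1 ≤ n)
    (ha : -1 ≤ a) (hab : a < b) (hb : b ≤ 1) (hext : Ext n a b P)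
    (hnd : ND n (qq P) (arccos b) (arccos a)) (hclo : hHs_Clo n ε a b P)
    (hz : aeval z P.derivative = 0) (hzim : 0 < z.im)
    (hw : Complex.cos w = (starRingEnd ℂ) z) (h0 : 0 ≤ w.re) (hπ : w.re ≤ π) :
    hHs_Cfg n ε c1 a b P z w := by
  obtain ⟨k1, k2⟩ := uZ1_cos w
  have hroot : aeval (Complex.cos w) P.derivative = 0 := by
    rw [hw, Polynomial.aeval_conj, hz, map_zero]
  have hcim : (Complex.cos w).im ≠ 0 := by
    rw [hw, Complex.conj_im]
    linarith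
  rw [hw, Complex.conj_re] at k1
  rw [hw, Complex.conj_im] at k2
  have k3 : z.im = sin w.re * sinh w.im := by linarith
  have hs : 0 ≤ sin w.re := Real.sin_nonneg_of_nonneg_of_le_pi h0 hπ
  have hwim : 0 < w.im := by
    rw [← Real.sinh_pos_iff]
    by_contra h
    push Not at h
    have : sin w.re * sinh w.im ≤ 0 := mul_nonpos_of_nonneg_of_nonpos hs h
    linarith
  have hdeg : P.natDegree ≤ n := Polynomial.natDegree_le_of_degree_le hext.deg
  refine ⟨hn, ha, hab, hb, hext, hnd, hclo, h0, hπ, hwim, hroot, hz, hw, hzim, k1, k3, ?_⟩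
  intro hx1 hx2
  have h1 := uZ1_low c hc n hn w h0 hπ hwim (hG n a b P hn ha hab hb hdeg hext.bdd hnd
    (Complex.cos w) hroot (Or.inl hcim) w.re ⟨hx1, hx2⟩)
  exact (div_le_div_of_nonneg_right hc1 (Nat.cast_nonneg n)).trans h1

theorem hHs_fin (hU5w : U5w) {n : ℕ} {κ c1 a b : ℝ} {P : ℝ[X]} {z w : ℂ}
    (h : hHs_Cfg n (κ / 16) c1 a b P z w) (hκ : κ = 1 - Real.exp (-(2 * c1))) (hκ0 : 0 < κ)
    (hlow : c1 / n ≤ w.im)
    (h1 : (∫ θ in (-arccos b)..(arccos b), pk (Complex.exp (w * Complex.I)) θ) ≤ κ / 8)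
    (h2 : (∫ θ in (arccos a)..(2 * π - arccos a), pk (Complex.exp (w * Complex.I)) θ) ≤ κ / 8) :
    False := by
  obtain ⟨σ, hσ, hclo⟩ := h.clo
  have hn0 : (0 : ℝ) < n := by exact_mod_cast h.hn
  have hαβ : arccos b ≤ arccos a := (Real.arccos_lt_arccos h.ha h.hab h.hb).le
  have h3 := (hU5w n P σ (arccos b) (arccos a) (κ / 16) h.hn
    (Polynomial.natDegree_le_of_degree_le h.ext.deg) h.ext.bdd hσ (Real.arccos_nonneg b) hαβ
    (Real.arccos_le_pi a) (by positivity) (fun θ hθ => ⟨(hclo θ hθ).1, (hclo θ hθ).2.1⟩)).1 w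
    h.im0 h.root
  have h4 : c1 ≤ n * w.im := by
    rw [div_le_iff₀ hn0] at hlow
    linarith
  have h5 : κ ≤ 1 - Real.exp (-(2 * n * w.im)) := by
    rw [hκ]
    have : Real.exp (-(2 * n * w.im)) ≤ Real.exp (-(2 * c1)) := by
      apply Real.exp_le_exp.2
      nlinarith
    linarith
  have h6 : 2 / π * ((∫ θ in (-arccos b)..(arccos b), pk (Complex.exp (w * Complex.I)) θ) +
      ∫ θ in (arccos a)..(2 * π - arccos a), pk (Complex.exp (w * Complex.I)) θ) ≤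
      2 / 3 * (κ / 4) := by
    have h7 : (2 : ℝ) / π ≤ 2 / 3 :=
      div_le_div_of_nonneg_left (by norm_num) (by norm_num) Real.pi_gt_three.le
    have h8 : (0 : ℝ) < 2 / π := by positivity
    refine (mul_le_mul_of_nonneg_left (show _ ≤ κ / 4 by linarith) h8.le).trans ?_
    exact mul_le_mul_of_nonneg_right h7 (by positivity)
  linarith

theorem hHs_norm (w : ℂ) : ‖w - (π : ℂ)‖ ^ 2 = (π - w.re) ^ 2 + w.im ^ 2 := by
  rw [Complex.sq_norm, Complex.normSq_apply, Complex.sub_re, Complex.sub_im, Complex.ofReal_re,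
    Complex.ofReal_im, sub_zero]
  ring

theorem hHs_tri (w : ℂ) (hπ : w.re ≤ π) (him : 0 < w.im) :
    ‖w - (π : ℂ)‖ ≤ (π - w.re) + w.im ∧ w.im ≤ ‖w - (π : ℂ)‖ ∧ π - w.re ≤ ‖w - (π : ℂ)‖ := by
  refine ⟨?_, ?_, ?_⟩
  · refine (Complex.norm_le_abs_re_add_abs_im _).trans ?_
    rw [Complex.sub_re, Complex.sub_im, Complex.ofReal_re, Complex.ofReal_im, sub_zero,
      abs_of_pos him, abs_sub_comm, abs_of_nonneg (by linarith)]
  · have h1 := Complex.abs_im_le_norm (w - (π : ℂ))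
    rw [Complex.sub_im, Complex.ofReal_im, sub_zero, abs_of_pos him] at h1
    exact h1
  · have h1 := Complex.abs_re_le_norm (w - (π : ℂ))
    rw [Complex.sub_re, Complex.ofReal_re, abs_sub_comm, abs_of_nonneg (by linarith)] at h1
    exact h1

theorem hHs_tri0 (w : ℂ) (h0 : 0 ≤ w.re) (him : 0 < w.im) :
    ‖w‖ ≤ w.re + w.im ∧ w.im ≤ ‖w‖ := by
  refine ⟨?_, ?_⟩
  · refine (Complex.norm_le_abs_re_add_abs_im _).trans ?_
    rw [abs_of_pos him, abs_of_nonneg h0]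
  · have h1 := Complex.abs_im_le_norm w
    rw [abs_of_pos him] at h1
    exact h1

/-- elementary part of the lower bound of the imaginary part outside the window -/
theorem hHs_lowe {n : ℕ} {ζ C1 cT y ρ : ℝ} (hn : 1 ≤ n) (hC1 : 2 ≤ C1) (hcT : 0 < cT)
    (hρ : ρ ≤ ζ + y) (h1 : C1 * ζ ≤ ρ) (h2 : n * ζ < cT / C1 → cT / n < ρ) :
    cT / 2 / n ≤ y := by
  have hn0 : (0 : ℝ) < n := by exact_mod_cast hn
  have hC10 : 0 < C1 := by linarith
  rcases lt_or_ge (n * ζ) (cT / C1) with h | h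
  · have h3 := h2 h
    have h4 : cT / C1 ≤ cT / 2 := div_le_div_of_nonneg_left hcT.le (by norm_num) hC1
    have h5 : ζ < cT / 2 / n := by
      rw [lt_div_iff₀ hn0]
      linarith
    have h6 : cT / n = cT / 2 / n + cT / 2 / n := by ring
    linarith
  · rw [div_le_iff₀ hC10] at h
    rw [div_le_iff₀ hn0]
    have hζ : 0 ≤ ζ := by
      by_contra h'
      push Not at h'
      have : n * ζ * C1 < 0 := mul_neg_of_neg_of_pos (mul_neg_of_pos_of_neg hn0 h') hC10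
      linarith
    have h3 : (C1 / 2) * ζ ≤ y := by nlinarith
    have h4 : (C1 / 2) * ζ * n ≤ y * n := mul_le_mul_of_nonneg_right h3 hn0.le
    linarith

theorem hHs_min {C C1 ζ y ρ κ : ℝ} (hC : 0 < C) (hC1 : 0 < C1) (hζ : 0 ≤ ζ) (hy : 0 < y)
    (hyρ : y ≤ ρ) (h1 : C1 * ζ ≤ ρ) (h2 : C / C1 ≤ κ / 8) (h3 : C * ζ ≤ κ / 8) :
    C * ζ * min 1 y / min 1 ρ ^ 2 ≤ κ / 8 := by
  have hρ : 0 < ρ := lt_of_lt_of_le hy hyρ
  have hm : 0 < min 1 ρ := lt_min one_pos hρ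
  have hmy : min 1 y ≤ min 1 ρ := min_le_min_left 1 hyρ
  have h4 : C * ζ * min 1 y / min 1 ρ ^ 2 ≤ C * ζ / min 1 ρ := by
    rw [div_le_div_iff₀ (by positivity) hm]
    calc C * ζ * min 1 y * min 1 ρ ≤ C * ζ * min 1 ρ * min 1 ρ := by gcongr
      _ = C * ζ * min 1 ρ ^ 2 := by ring
  refine h4.trans ?_
  rcases le_total 1 ρ with h | h
  · rw [min_eq_left h, div_one]
    exact h3
  · rw [min_eq_right h, div_le_iff₀ hρ]
    calc C * ζ = (C / C1) * (C1 * ζ) := by field_simp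
      _ ≤ (C / C1) * ρ := by gcongr
      _ ≤ κ / 8 * ρ := by gcongr

/-- a root over the window, away from the end points -/
theorem hHs_mid (hU5w : U5w) {C : ℝ} (hC : 0 < C) (hH : hHs_H C) {n : ℕ} {κ c1 a b : ℝ}
    {P : ℝ[X]} {z w : ℂ} (h : hHs_Cfg n (κ / 16) c1 a b P z w)
    (hκ : κ = 1 - Real.exp (-(2 * c1))) (hκ0 : 0 < κ) {δ Y : ℝ} (hδ : 0 < δ)
    (h1 : δ ≤ w.re - arccos b) (h2 : δ ≤ arccos a - w.re) (h3 : w.im ≤ Y)
    (h4 : C * Y / δ ≤ κ / 8) : False := by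
  have hlow := h.low (by linarith) (by linarith)
  have h5 : C * w.im / δ ≤ κ / 8 :=
    (div_le_div_of_nonneg_right (mul_le_mul_of_nonneg_left h3 hC.le) hδ.le).trans h4
  have h6 : 0 ≤ C * w.im := mul_nonneg hC.le h.im0.le
  refine hHs_fin hU5w h hκ hκ0 hlow ?_ ?_
  · refine ((hH w h.re0 h.reπ h.im0).2.2.2 (arccos b) (Real.arccos_nonneg b)
      (by linarith)).trans ?_
    exact (div_le_div_of_nonneg_left h6 hδ h1).trans h5
  · refine ((hH w h.re0 h.reπ h.im0).2.2.1 (arccos a) (by linarith)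
      (Real.arccos_le_pi a)).trans ?_
    exact (div_le_div_of_nonneg_left h6 hδ h2).trans h5

theorem hHs_len {n : ℕ} {ε c1 a b : ℝ} {P : ℝ[X]} {z w : ℂ} (h : hHs_Cfg n ε c1 a b P z w) :
    0 < arccos a - arccos b ∧ arccos a - arccos b ≤ 4 ∧ 0 ≤ arccos b ∧ 0 ≤ π - arccos a := by
  have h1 := Real.arccos_lt_arccos h.ha h.hab h.hb
  have h2 := Real.arccos_nonneg b
  have h3 := Real.arccos_le_pi a
  have h4 := Real.pi_le_four
  exact ⟨by linarith, by linarith, h2, by linarith⟩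

/-- medium distance -/
theorem hHs_B (hU5w : U5w) {C : ℝ} (hC : 0 < C) (hH : hHs_H C) {n : ℕ} {κ c1 a b : ℝ}
    {P : ℝ[X]} {z w : ℂ} (h : hHs_Cfg n (κ / 16) c1 a b P z w)
    (hκ : κ = 1 - Real.exp (-(2 * c1))) (hκ0 : 0 < κ) {C1 cT c2 : ℝ} (hC1 : 2 ≤ C1)
    (hcT : 0 < cT) (hC1' : C / C1 ≤ κ / 8) (hc20 : 0 < c2) (hc2 : c2 ≤ 1 / 4)
    (hc2' : 2 * C * c2 ≤ κ / 8) (hc1 : c1 ≤ cT / 2)
    (h1 : C1 * (π - arccos a) ≤ ‖w - (π : ℂ)‖)
    (h2 : ‖w - (π : ℂ)‖ ≤ c2 * (arccos a - arccos b))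
    (h3 : n * (π - arccos a) < cT / C1 → cT / n < ‖w - (π : ℂ)‖) : False := by
  have hn0 : (0 : ℝ) < n := by exact_mod_cast h.hn
  obtain ⟨l0, l4, β0, ζ0⟩ := hHs_len h
  obtain ⟨t1, t2, t3⟩ := hHs_tri w h.reπ h.im0
  have hρ1 : ‖w - (π : ℂ)‖ ≤ 1 := by nlinarith
  have hcl : c2 * (arccos a - arccos b) ≤ 1 / 4 * (arccos a - arccos b) :=
    mul_le_mul_of_nonneg_right hc2 l0.le
  have hlow : c1 / n ≤ w.im := by
    rcases le_or_gt w.re (arccos a) with hx | hx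
    · exact h.low (by linarith) hx
    · refine le_trans ?_ (hHs_lowe h.hn hC1 hcT (by linarith) h1 h3)
      exact div_le_div_of_nonneg_right hc1 hn0.le
  refine hHs_fin hU5w h hκ hκ0 hlow ?_ ?_
  · refine ((hH w h.re0 h.reπ h.im0).2.2.2 (arccos b) (Real.arccos_nonneg b)
      (by linarith)).trans ?_
    rw [div_le_iff₀ (by linarith)]
    calc C * w.im ≤ C * (c2 * (arccos a - arccos b)) :=
          mul_le_mul_of_nonneg_left (t2.trans h2) hC.le
      _ = (2 * C * c2) * ((arccos a - arccos b) / 2) := by ring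
      _ ≤ κ / 8 * ((arccos a - arccos b) / 2) :=
          mul_le_mul_of_nonneg_right hc2' (by linarith)
      _ ≤ κ / 8 * (w.re - arccos b) :=
          mul_le_mul_of_nonneg_left (by linarith) (by positivity)
  · refine ((hH w h.re0 h.reπ h.im0).1 (arccos a) (Real.arccos_nonneg a)
      (Real.arccos_le_pi a) (by nlinarith)).trans ?_
    refine hHs_min hC (by linarith) ζ0 h.im0 t2 h1 hC1' ?_
    refine le_trans ?_ hC1'
    rw [le_div_iff₀ (by linarith)]
    calc C * (π - arccos a) * C1 = C * (C1 * (π - arccos a)) := by ring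
      _ ≤ C * 1 := mul_le_mul_of_nonneg_left (h1.trans hρ1) hC.le
      _ = C := mul_one C

/-- position of a root close to the left gap -/
theorem hHs_gap {n : ℕ} {a M : ℝ} {w z : ℂ} (hn : 1 ≤ n) (hM : 0 < M) (ha : -1 ≤ a)
    (ha0 : a ≤ 0) (hre' : w.re ≤ π) (hw : 0 < w.im)
    (hz1 : z.re = cos w.re * cosh w.im) (hz2 : z.im = sin w.re * sinh w.im)
    (hnear : ‖w - (π : ℂ)‖ ≤ 1) (him : z.im ≤ M / n) (hrea : a + 1 / M ≤ z.re) :
    1 / M ≤ arccos a - w.re ∧ w.im ≤ 2 * M ^ 2 / n := by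
  have hpi := Real.pi_pos
  have hpi3 := Real.pi_gt_three
  have hn0 : (0 : ℝ) < n := by exact_mod_cast hn
  obtain ⟨hζ0, hζa, -⟩ := uZ1_zeta a ha ha0
  have hζπ : π - arccos a ≤ π := by linarith [Real.arccos_nonneg a]
  set ζ : ℝ := π - arccos a with hζ
  set s : ℝ := 1 / M with hs
  have hs0 : 0 < s := by positivity
  set φ : ℝ := π - w.re with hφ
  have hφ0 : 0 ≤ φ := by linarith
  have hsq := hHs_norm w
  rw [← hφ] at hsq
  have hle : φ ^ 2 + w.im ^ 2 ≤ 1 := by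
    rw [← hsq]
    exact pow_le_one₀ (norm_nonneg _) hnear
  have hφ1 : φ ≤ 1 := by nlinarith [sq_nonneg w.im]
  have hch : 1 ≤ cosh w.im := Real.one_le_cosh _
  have hc : cos w.re = -cos φ := by
    rw [hφ, Real.cos_pi_sub, neg_neg]
  have hsn : sin w.re = sin φ := by
    rw [hφ, Real.sin_pi_sub]
  have hcφ : 0 ≤ cos φ := Real.cos_nonneg_of_neg_pi_div_two_le_of_le (by linarith) (by linarith)
  have h1 : cos φ ≤ cos ζ - s := by
    have h2 : cos φ * 1 ≤ cos φ * cosh w.im := mul_le_mul_of_nonneg_left hch hcφ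
    rw [hc] at hz1
    rw [hζa]
    linarith
  have h3 : ζ < φ := by
    by_contra h
    push Not at h
    have := Real.cos_le_cos_of_nonneg_of_le_pi hφ0 hζπ h
    linarith
  have h4 : s ≤ φ - ζ := by
    have h5 := Real.lipschitzWith_cos.dist_le_mul ζ φ
    rw [Real.dist_eq, Real.dist_eq, NNReal.coe_one, one_mul, abs_sub_comm ζ φ,
      abs_of_pos (by linarith : 0 < φ - ζ)] at h5
    have := le_abs_self (cos ζ - cos φ)
    linarith
  have h6 : s / 2 ≤ sin φ := by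
    have h7 := Real.mul_le_sin hφ0 (by linarith : φ ≤ π / 2)
    have h8 : (1 : ℝ) / 2 ≤ 2 / π := by
      rw [div_le_div_iff₀ (by norm_num) hpi]
      linarith [Real.pi_le_four]
    have h9 : 1 / 2 * φ ≤ 2 / π * φ := mul_le_mul_of_nonneg_right h8 hφ0
    linarith
  have h10 : w.im ≤ sinh w.im := Real.self_le_sinh_iff.2 hw.le
  refine ⟨?_, ?_⟩
  · have : arccos a - w.re = φ - ζ := by
      rw [hφ, hζ]
      ring
    rw [this]
    exact h4
  · have h12 : s / 2 * w.im ≤ M / n := by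
      refine le_trans ?_ him
      rw [hz2, hsn]
      exact mul_le_mul h6 h10 hw.le (by linarith)
    have h13 : s / 2 * w.im = w.im / (2 * M) := by
      rw [hs]
      field_simp
    rw [h13, div_le_div_iff₀ (by positivity) hn0] at h12
    rw [le_div_iff₀ hn0]
    calc w.im * n ≤ M * (2 * M) := h12
      _ = 2 * M ^ 2 := by ring

/-- close to the left gap -/
theorem hHs_A (hU5w : U5w) {C : ℝ} (hC : 0 < C) (hH : hHs_H C) {n : ℕ} {κ c1 a b : ℝ}
    {P : ℝ[X]} {z w : ℂ} (h : hHs_Cfg n (κ / 16) c1 a b P z w)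
    (hκ : κ = 1 - Real.exp (-(2 * c1))) (hκ0 : 0 < κ) {C1 η M : ℝ} (hC1 : 0 < C1)
    (hη : C1 * η ≤ 1 / 4) (hη1 : η ≤ 1 / 4)
    (hζ : π - arccos a ≤ η * (arccos a - arccos b))
    (hnear : ‖w - (π : ℂ)‖ ≤ C1 * (π - arccos a)) (hM : 1 ≤ M) (g1 : z.im ≤ M / n)
    (g2 : a + 1 / M ≤ z.re) (_g3 : 1 / M ≤ 1 + a) (hbig : 4 * C * M ^ 3 / n ≤ κ / 8) :
    False := by
  have hn0 : (0 : ℝ) < n := by exact_mod_cast h.hn
  have hpi3 := Real.pi_gt_three
  obtain ⟨l0, l4, β0, ζ0⟩ := hHs_len h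
  obtain ⟨t1, t2, t3⟩ := hHs_tri w h.reπ h.im0
  have hηl : η * (arccos a - arccos b) ≤ 1 / 4 * (arccos a - arccos b) :=
    mul_le_mul_of_nonneg_right hη1 l0.le
  have hζ1 : π - arccos a ≤ 1 := by linarith
  have hρl : ‖w - (π : ℂ)‖ ≤ (arccos a - arccos b) / 4 := by
    calc ‖w - (π : ℂ)‖ ≤ C1 * (π - arccos a) := hnear
      _ ≤ C1 * (η * (arccos a - arccos b)) := mul_le_mul_of_nonneg_left hζ hC1.le
      _ = (C1 * η) * (arccos a - arccos b) := by ring
      _ ≤ 1 / 4 * (arccos a - arccos b) := mul_le_mul_of_nonneg_right hη l0.le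
      _ = (arccos a - arccos b) / 4 := by ring
  have ha0 : a ≤ 0 := by
    by_contra h'
    push Not at h'
    have := Real.arccos_lt_pi_div_two.2 h'
    linarith
  obtain ⟨-, -, -, -, z5⟩ := uZ1_zeta a h.ha ha0
  obtain ⟨p1, p2⟩ := hHs_gap h.hn (by linarith) h.ha ha0 h.reπ h.im0 h.zre h.zim
    (by linarith) g1 g2
  have hM0 : 0 < M := by linarith
  have hs : 0 < 1 / M := by positivity
  have hsl : 1 / M ≤ arccos a - arccos b := by nlinarith
  refine hHs_mid hU5w hC hH h hκ hκ0 (δ := 1 / M / 2) (Y := 2 * M ^ 2 / n) (by positivity)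
    (by linarith) (by linarith) p2 ?_
  refine le_trans (le_of_eq ?_) hbig
  field_simp
  ring

theorem hHs_sq (w z : ℂ) (h0 : 0 ≤ w.re) (hπ : w.re ≤ π)
    (hw : Complex.cos w = (starRingEnd ℂ) z) : ‖w - (π : ℂ)‖ ^ 2 ≤ 5 * ‖z + 1‖ := by
  have h1 : ‖z + 1‖ = ‖Complex.cos w + 1‖ := by
    rw [hw, ← Complex.norm_conj (z + 1), map_add, map_one]
  set u : ℂ := (w - (π : ℂ)) / 2 with hu
  have hwu : w = 2 * u + (π : ℂ) := by
    rw [hu]
    ring
  have h2 : Complex.cos w + 1 = 2 * Complex.sin u ^ 2 := by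
    rw [hwu, Complex.cos_add_pi, Complex.cos_two_mul, Complex.cos_sq']
    ring
  have hre : u.re = (w.re - π) / 2 := by
    rw [hu]
    simp
  have h3 : ‖u‖ ≤ π / 2 * ‖Complex.sin u‖ := by
    apply cA_lin
    rw [hre, abs_le]
    constructor <;> linarith [Real.pi_pos]
  have h4 : ‖w - (π : ℂ)‖ = 2 * ‖u‖ := by
    rw [hu, norm_div]
    norm_num
    ring
  rw [h1, h2, h4, norm_mul, norm_pow]
  have h5 : ‖(2 : ℂ)‖ = 2 := by norm_num
  rw [h5]
  have h6 : (2 * ‖u‖) ^ 2 ≤ (π * ‖Complex.sin u‖) ^ 2 :=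
    pow_le_pow_left₀ (by positivity) (by linarith) 2
  have h7 : π ^ 2 ≤ 10 := by
    have := Real.pi_lt_d2
    nlinarith [Real.pi_pos]
  calc (2 * ‖u‖) ^ 2 ≤ (π * ‖Complex.sin u‖) ^ 2 := h6
    _ = π ^ 2 * ‖Complex.sin u‖ ^ 2 := by ring
    _ ≤ 10 * ‖Complex.sin u‖ ^ 2 := mul_le_mul_of_nonneg_right h7 (by positivity)
    _ = 5 * (2 * ‖Complex.sin u‖ ^ 2) := by ring

/-- first alternative -/
theorem hHs_C1 {n : ℕ} {ε c1 a b : ℝ} {P : ℝ[X]} {z w : ℂ} (h : hHs_Cfg n ε c1 a b P z w)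
    {c2 η : ℝ} (hη0 : 0 < η) (hη : η ≤ c2 / 3) (hη1 : η ≤ 1) (hc20 : 0 < c2)
    (hζ : π - arccos a ≤ η * (arccos a - arccos b))
    (hz : ‖z - (a : ℂ)‖ ≤ c2 ^ 2 / 20 * (b - a)) :
    ‖w - (π : ℂ)‖ ≤ c2 * (arccos a - arccos b) := by
  obtain ⟨l0, l4, β0, ζ0⟩ := hHs_len h
  set l : ℝ := arccos a - arccos b with hl
  have h1 : 1 + a ≤ (η * l) ^ 2 / 2 := by
    have h4 := Real.one_sub_sq_div_two_le_cos (x := π - arccos a)
    rw [Real.cos_pi_sub, Real.cos_arccos h.ha (h.hab.le.trans h.hb)] at h4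
    have h5 : (π - arccos a) ^ 2 ≤ (η * l) ^ 2 := pow_le_pow_left₀ ζ0 hζ 2
    linarith
  have h2 : b - a ≤ (2 * l) ^ 2 / 2 := by
    have h4 := Real.one_sub_sq_div_two_le_cos (x := π - arccos b)
    rw [Real.cos_pi_sub, Real.cos_arccos (h.ha.trans h.hab.le) h.hb] at h4
    have h6 : π - arccos b ≤ 2 * l := by
      have : η * l ≤ 1 * l := mul_le_mul_of_nonneg_right hη1 l0.le
      linarith
    have h5 : (π - arccos b) ^ 2 ≤ (2 * l) ^ 2 := pow_le_pow_left₀ (by linarith) h6 2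
    linarith [h.ha]
  have h3 : ‖z + 1‖ ≤ c2 ^ 2 / 20 * ((2 * l) ^ 2 / 2) + (η * l) ^ 2 / 2 := by
    have h4 : z + 1 = (z - (a : ℂ)) + ((1 + a : ℝ) : ℂ) := by
      push_cast
      ring
    have ha1 : 0 ≤ 1 + a := by linarith [h.ha]
    rw [h4]
    refine (norm_add_le _ _).trans ?_
    rw [Complex.norm_real, Real.norm_of_nonneg ha1]
    have h5 : c2 ^ 2 / 20 * (b - a) ≤ c2 ^ 2 / 20 * ((2 * l) ^ 2 / 2) :=
      mul_le_mul_of_nonneg_left h2 (by positivity)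
    linarith
  have h4 := hHs_sq w z h.re0 h.reπ h.hw
  have h5 : (η * l) ^ 2 ≤ (c2 / 3 * l) ^ 2 :=
    pow_le_pow_left₀ (by positivity) (mul_le_mul_of_nonneg_right hη l0.le) 2
  have h6 : ‖w - (π : ℂ)‖ ^ 2 ≤ (c2 * l) ^ 2 := by nlinarith [sq_nonneg (c2 * l)]
  exact (abs_le_of_sq_le_sq' h6 (by positivity)).2

/-- second alternative -/
theorem hHs_C2 (hU5w : U5w) {C : ℝ} (hC : 0 < C) (hH : hHs_H C) {n : ℕ} {κ c1 a b : ℝ}
    {P : ℝ[X]} {z w : ℂ} (h : hHs_Cfg n (κ / 16) c1 a b P z w)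
    (hκ : κ = 1 - Real.exp (-(2 * c1))) (hκ0 : 0 < κ) {c2 η M : ℝ}
    (hc20 : 0 < c2) (hc2 : c2 ≤ 1 / 4) (hη : η ≤ c2 / 4)
    (hζ : π - arccos a ≤ η * (arccos a - arccos b))
    (hfar : c2 * (arccos a - arccos b) < ‖w - (π : ℂ)‖) (hM : 1 ≤ M)
    (k1 : a < z.re) (k2 : z.re ≤ b - 1 / M) (k3 : z.im ≤ M / n) (k4 : 1 / M ≤ 1 - z.re ^ 2)
    (hb1 : M ^ 3 / n ≤ 1 / 2) (hb2 : M ^ 3 / n ≤ c2 / 2)
    (hb3 : 4 * C / c2 * (M ^ 3 / n) ≤ κ / 8) : False := by
  have hn0 : (0 : ℝ) < n := by exact_mod_cast h.hn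
  obtain ⟨l0, l4, β0, ζ0⟩ := hHs_len h
  obtain ⟨t1, t2, t3⟩ := hHs_tri w h.reπ h.im0
  have hM0 : 0 < M := by linarith
  set s : ℝ := 1 / M with hs
  have hs0 : 0 < s := by positivity
  have hs1 : s ≤ 1 := by
    rw [hs, div_le_one hM0]
    exact hM
  have hch : 1 ≤ cosh w.im := Real.one_le_cosh _
  have hsin0 : 0 ≤ sin w.re := Real.sin_nonneg_of_nonneg_of_le_pi h.re0 h.reπ
  have hsin1 : sin w.re ≤ 1 := Real.sin_le_one _
  have hsin : s ≤ sin w.re := by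
    have e1 : cos w.re ^ 2 ≤ z.re ^ 2 := by
      rw [h.zre, mul_pow]
      have : (1 : ℝ) ≤ cosh w.im ^ 2 := one_le_pow₀ hch
      nlinarith [sq_nonneg (cos w.re)]
    have e2 := Real.sin_sq_add_cos_sq w.re
    have e3 : sin w.re ^ 2 ≤ sin w.re := by nlinarith
    linarith
  have h10 : w.im ≤ sinh w.im := Real.self_le_sinh_iff.2 h.im0.le
  have hy : w.im ≤ M ^ 2 / n := by
    have h12 : s * w.im ≤ M / n := by
      refine le_trans ?_ k3
      rw [h.zim]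
      exact mul_le_mul hsin h10 h.im0.le hsin0
    have h13 : s * w.im = w.im / M := by
      rw [hs]
      field_simp
    rw [h13, div_le_div_iff₀ hM0 hn0] at h12
    rw [le_div_iff₀ hn0]
    calc w.im * n ≤ M * M := h12
      _ = M ^ 2 := by ring
  have e4 : M ^ 2 / n = (M ^ 3 / n) * s := by
    rw [hs]
    field_simp
  have hy1 : w.im ≤ 1 / 2 * s := by
    rw [e4] at hy
    exact hy.trans (mul_le_mul_of_nonneg_right hb1 hs0.le)
  have hy2 : w.im ≤ c2 / 2 * s := by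
    rw [e4] at hy
    exact hy.trans (mul_le_mul_of_nonneg_right hb2 hs0.le)
  have hyle : w.im ≤ 1 := by linarith
  obtain ⟨e5, -⟩ := uZ1_cosh w.im h.im0.le hyle
  have e6 : w.im ^ 2 ≤ w.im := by nlinarith [h.im0]
  have hcos : cos w.re ≤ b - s / 2 := by
    have e7 : -(cosh w.im - 1) ≤ cos w.re * (cosh w.im - 1) := by
      have := Real.neg_one_le_cos w.re
      nlinarith
    have e8 : z.re = cos w.re + cos w.re * (cosh w.im - 1) := by
      rw [h.zre]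
      ring
    linarith
  have hcb : cos (arccos b) = b := Real.cos_arccos (h.ha.trans h.hab.le) h.hb
  have hca : cos (arccos a) = a := Real.cos_arccos h.ha (h.hab.le.trans h.hb)
  have hxβ : arccos b < w.re := by
    by_contra h'
    push Not at h'
    have := Real.cos_le_cos_of_nonneg_of_le_pi h.re0 (Real.arccos_le_pi b) h'
    linarith
  have hlip : ∀ u v : ℝ, u < v → cos u - cos v ≤ v - u := by
    intro u v huv
    have h5 := Real.lipschitzWith_cos.dist_le_mul u v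
    rw [Real.dist_eq, Real.dist_eq, NNReal.coe_one, one_mul, abs_sub_comm u v,
      abs_of_pos (by linarith : 0 < v - u)] at h5
    exact (le_abs_self _).trans h5
  have hx1 : s / 2 ≤ w.re - arccos b := by
    have := hlip _ _ hxβ
    linarith
  have hl1 : s ≤ arccos a - arccos b := by
    have := hlip (arccos b) (arccos a) (by linarith)
    linarith
  have hηl : η * (arccos a - arccos b) ≤ c2 / 4 * (arccos a - arccos b) :=
    mul_le_mul_of_nonneg_right hη l0.le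
  have hcs : c2 / 2 * s ≤ c2 / 2 * (arccos a - arccos b) :=
    mul_le_mul_of_nonneg_left hl1 (by positivity)
  have hx2 : c2 * s / 4 ≤ arccos a - w.re := by linarith
  have hx3 : c2 * s / 4 ≤ s / 2 := by nlinarith
  refine hHs_mid hU5w hC hH h hκ hκ0 (δ := c2 * s / 4) (Y := M ^ 2 / n) (by positivity)
    (by linarith) hx2 hy ?_
  refine le_trans (le_of_eq ?_) hb3
  rw [hs]
  field_simp

/-- far from the left gap, small right gap -/
theorem hHs_C3 (hU5w : U5w) {C : ℝ} (hC : 0 < C) (hH : hHs_H C) {n : ℕ} {κ c1 a b : ℝ}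
    {P : ℝ[X]} {z w : ℂ} (h : hHs_Cfg n (κ / 16) c1 a b P z w)
    (hκ : κ = 1 - Real.exp (-(2 * c1))) (hκ0 : 0 < κ) {C1 cT c2 η : ℝ} (hC1 : 2 ≤ C1)
    (hcT : 0 < cT) (hC1' : C / C1 ≤ κ / 8) (hc11 : c1 ≤ 1) (hc1 : c1 ≤ cT / 2)
    (hc20 : 0 < c2) (hc2 : c2 ≤ 1 / 4) (hη0 : 0 < η) (hη : η ≤ c2 / 4)
    (hη' : C * η ≤ κ * c2 / 32)
    (hζ : π - arccos a ≤ η * (arccos a - arccos b))
    (hfar : c2 * (arccos a - arccos b) < ‖w - (π : ℂ)‖)
    (hl2 : 2 ≤ arccos a - arccos b) (hnc : 1 / n ≤ c2)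
    (h1 : C1 * arccos b ≤ ‖w‖) (h2 : n * arccos b < cT / C1 → cT / n < ‖w‖)
    (h3 : C * arccos b ≤ κ / 8) : False := by
  have hn0 : (0 : ℝ) < n := by exact_mod_cast h.hn
  obtain ⟨l0, l4, β0, ζ0⟩ := hHs_len h
  obtain ⟨t1, t2, t3⟩ := hHs_tri w h.reπ h.im0
  obtain ⟨s1, s2⟩ := hHs_tri0 w h.re0 h.im0
  have hηl : η * (arccos a - arccos b) ≤ c2 / 4 * (arccos a - arccos b) :=
    mul_le_mul_of_nonneg_right hη l0.le
  have hcl : c2 * 2 ≤ c2 * (arccos a - arccos b) := mul_le_mul_of_nonneg_left hl2 hc20.le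
  have hlow : c1 / n ≤ w.im := by
    rcases lt_or_ge w.re (arccos b) with hx | hx
    · refine le_trans ?_ (hHs_lowe h.hn hC1 hcT (by linarith) h1 h2)
      exact div_le_div_of_nonneg_right hc1 hn0.le
    rcases le_or_gt w.re (arccos a) with hx' | hx'
    · exact h.low hx hx'
    · have e1 : c1 / n ≤ 1 / n := div_le_div_of_nonneg_right hc11 hn0.le
      linarith
  have hκc : κ * c2 ≤ κ * (1 / 4) := mul_le_mul_of_nonneg_left hc2 hκ0.le
  refine hHs_fin hU5w h hκ hκ0 hlow ?_ ?_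
  · refine ((hH w h.re0 h.reπ h.im0).2.1 (arccos b) (Real.arccos_nonneg b)
      (Real.arccos_le_pi b) (by nlinarith)).trans ?_
    exact hHs_min hC (by linarith) β0 h.im0 s2 h1 hC1' h3
  · refine ((hH w h.re0 h.reπ h.im0).1 (arccos a) (Real.arccos_nonneg a)
      (Real.arccos_le_pi a) (by linarith)).trans ?_
    refine hHs_min (C1 := c2 / η) hC (by positivity) ζ0 h.im0 t2 ?_ ?_ ?_
    · rw [div_mul_eq_mul_div, div_le_iff₀ hη0]
      calc c2 * (π - arccos a) ≤ c2 * (η * (arccos a - arccos b)) :=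
            mul_le_mul_of_nonneg_left hζ hc20.le
        _ = (c2 * (arccos a - arccos b)) * η := by ring
        _ ≤ ‖w - (π : ℂ)‖ * η := mul_le_mul_of_nonneg_right hfar.le hη0.le
    · rw [div_div_eq_mul_div, div_le_iff₀ hc20]
      nlinarith
    · calc C * (π - arccos a) ≤ C * (η * 4) :=
            mul_le_mul_of_nonneg_left (hζ.trans (mul_le_mul_of_nonneg_left l4 hη0.le)) hC.le
        _ = 4 * (C * η) := by ring
        _ ≤ κ / 8 := by linarith

theorem hHs_dd (hA2 : A2) {n : ℕ} {P : ℝ[X]} (hn : 1 ≤ n) (hdeg : P.natDegree ≤ n)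
    (hb : Bdd P) (u v : ℝ) :
    |deriv (deriv (qq P)) u - deriv (deriv (qq P)) v| ≤ (n : ℝ) ^ 3 * |u - v| := by
  have hTB : TB n (qq P) := hA2.2.1 n P hdeg hb
  have hd : Differentiable ℝ (deriv (deriv (qq P))) := by
    have h1 : deriv (deriv (qq P)) = fun θ => sin θ ^ 2 * P.derivative.derivative.eval (cos θ) -
        cos θ * P.derivative.eval (cos θ) := by
      funext θ
      exact (hA2.2.2 P θ).2
    rw [h1]
    have h2 : ∀ Q : ℝ[X], Differentiable ℝ (fun θ : ℝ => Q.eval (cos θ)) :=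
      fun Q => Q.differentiable.comp Real.differentiable_cos
    have h3 := h2 P.derivative.derivative
    have h4 := h2 P.derivative
    exact ((Real.differentiable_sin.pow 2).mul h3).sub (Real.differentiable_cos.mul h4)
  have h5 := Convex.norm_image_sub_le_of_norm_deriv_le (f := deriv (deriv (qq P)))
    (s := Set.univ) (C := (n : ℝ) ^ 3) (x := v) (y := u) (fun x _ => hd x)
    (fun x _ => by
      rw [Real.norm_eq_abs]
      exact ((hA2.1 n (qq P) hn hTB).2 x).2.2.2.2) convex_univ trivial trivial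
  rw [Real.norm_eq_abs, Real.norm_eq_abs] at h5
  exact h5

/-- no root near `π` if the gap is tiny -/
theorem hHs_FT (hA2 : A2) {cT : ℝ}
    (hFT : ∀ (n : ℕ) (P : ℝ[X]), 1 ≤ n → P.natDegree ≤ n → Bdd P →
      ((n : ℝ) ^ 2 / 3 ≤ |deriv (deriv (qq P)) π| → P.derivative.eval (-1) ≠ 0 ∧
        ∀ w : ℂ, w ≠ π → ‖w - (π : ℂ)‖ ≤ cT / n → aeval (Complex.cos w) P.derivative ≠ 0) ∧
      ((n : ℝ) ^ 2 / 3 ≤ |deriv (deriv (qq P)) 0| → P.derivative.eval 1 ≠ 0 ∧
        ∀ w : ℂ, w ≠ 0 → ‖w‖ ≤ cT / n → aeval (Complex.cos w) P.derivative ≠ 0))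
    {n : ℕ} {ε c1 a b : ℝ} {P : ℝ[X]} {z w : ℂ} (h : hHs_Cfg n ε c1 a b P z w)
    (hε : ε ≤ 1 / 16) (hsm : n * (π - arccos a) ≤ 1 / 4) : cT / n < ‖w - (π : ℂ)‖ := by
  have hn0 : (0 : ℝ) < n := by exact_mod_cast h.hn
  have hdeg : P.natDegree ≤ n := Polynomial.natDegree_le_of_degree_le h.ext.deg
  obtain ⟨l0, l4, β0, ζ0⟩ := hHs_len h
  obtain ⟨σ, hσ, hclo⟩ := h.clo
  have hc := (hclo (arccos a) ⟨by linarith, le_rfl⟩).2.2
  by_contra hlt
  push Not at hlt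
  have hwne : w ≠ (π : ℂ) := by
    intro h'
    have := h.im0
    rw [h', Complex.ofReal_im] at this
    exact lt_irrefl _ this
  refine ((hFT n P h.hn hdeg h.ext.bdd).1 ?_).2 w hwne hlt h.root
  set ζ : ℝ := π - arccos a with hζ
  have e1 : |cos (n * arccos a)| = |cos (n * ζ)| := by
    have : n * arccos a = n * π - n * ζ := by
      rw [hζ]
      ring
    rw [this, Real.cos_nat_mul_pi_sub, abs_mul, abs_pow, abs_neg, abs_one, one_pow, one_mul]
  have e2 : 31 / 32 ≤ |cos (n * arccos a)| := by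
    rw [e1]
    refine le_trans ?_ (le_abs_self _)
    have := Real.one_sub_sq_div_two_le_cos (x := n * ζ)
    have e3 : (n * ζ) ^ 2 ≤ (1 / 4) ^ 2 := pow_le_pow_left₀ (by positivity) hsm 2
    linarith
  have e4 : |σ * cos (n * arccos a)| = |cos (n * arccos a)| := by
    rw [abs_mul]
    rcases hσ with h' | h' <;> rw [h'] <;> simp
  have e5 : 29 / 32 ≤ |deriv (deriv (qq P)) (arccos a) / (n : ℝ) ^ 2| := by
    have h1 : |σ * cos (n * arccos a)| ≤
        |deriv (deriv (qq P)) (arccos a) / (n : ℝ) ^ 2 + σ * cos (n * arccos a)| +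
        |deriv (deriv (qq P)) (arccos a) / (n : ℝ) ^ 2| := by
      have := abs_sub_abs_le_abs_sub (σ * cos (n * arccos a))
        (-(deriv (deriv (qq P)) (arccos a) / (n : ℝ) ^ 2))
      rw [abs_neg, sub_neg_eq_add, add_comm (σ * cos (n * arccos a))] at this
      linarith
    linarith
  have e6 : 29 / 32 * (n : ℝ) ^ 2 ≤ |deriv (deriv (qq P)) (arccos a)| := by
    rw [abs_div, abs_of_pos (by positivity : (0 : ℝ) < (n : ℝ) ^ 2),
      le_div_iff₀ (by positivity)] at e5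
    exact e5
  have e7 := hHs_dd hA2 h.hn hdeg h.ext.bdd (arccos a) π
  rw [abs_sub_comm (arccos a) π, ← hζ, abs_of_nonneg ζ0] at e7
  have e8 : (n : ℝ) ^ 3 * ζ ≤ 1 / 4 * (n : ℝ) ^ 2 := by
    calc (n : ℝ) ^ 3 * ζ = (n * ζ) * (n : ℝ) ^ 2 := by ring
      _ ≤ 1 / 4 * (n : ℝ) ^ 2 := mul_le_mul_of_nonneg_right hsm (by positivity)
  have e9 := abs_sub_abs_le_abs_sub (deriv (deriv (qq P)) (arccos a)) (deriv (deriv (qq P)) π)
  nlinarith [sq_nonneg (n : ℝ)]

/-- the case of a root close to the left gap, including the application of `FL` -/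
theorem hHs_near (hU5w : U5w) (hA2 : A2) {C : ℝ} (hC : 0 < C) (hH : hHs_H C) {cT0 : ℝ}
    (hFT : ∀ (n : ℕ) (P : ℝ[X]), 1 ≤ n → P.natDegree ≤ n → Bdd P →
      ((n : ℝ) ^ 2 / 3 ≤ |deriv (deriv (qq P)) π| → P.derivative.eval (-1) ≠ 0 ∧
        ∀ w : ℂ, w ≠ π → ‖w - (π : ℂ)‖ ≤ cT0 / n → aeval (Complex.cos w) P.derivative ≠ 0) ∧
      ((n : ℝ) ^ 2 / 3 ≤ |deriv (deriv (qq P)) 0| → P.derivative.eval 1 ≠ 0 ∧
        ∀ w : ℂ, w ≠ 0 → ‖w‖ ≤ cT0 / n → aeval (Complex.cos w) P.derivative ≠ 0))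
    {n : ℕ} {κ c1 a b : ℝ} {P : ℝ[X]} {z w : ℂ} (h : hHs_Cfg n (κ / 16) c1 a b P z w)
    (hκ : κ = 1 - Real.exp (-(2 * c1))) (hκ0 : 0 < κ) (hκ1 : κ ≤ 1)
    {C1 cT η K KL : ℝ} (hC1 : 2 ≤ C1) (hcT : cT ≤ cT0) (hcT4 : cT ≤ 1 / 4)
    (hη : C1 * η ≤ 1 / 4) (hη1 : η ≤ 1 / 4) (hKL : 0 < KL) (hK1 : 1 ≤ K) (hKK : KL ≤ K)
    (hFL : cT / C1 ≤ n * (π - arccos a) → ‖z + 1‖ ≤ 10 * C1 ^ 2 * (1 + a) →
      z.im ≤ KL * (1 + Real.log n) / n ∧ a + 1 / (KL * (1 + Real.log n)) ≤ z.re ∧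
      1 / (KL * (1 + Real.log n)) ≤ 1 + a)
    (hζ : π - arccos a ≤ η * (arccos a - arccos b))
    (hL : 1 ≤ 1 + Real.log n)
    (hbig : 4 * C * (K * (1 + Real.log n)) ^ 3 / n ≤ κ / 8)
    (hnear : ‖w - (π : ℂ)‖ ≤ C1 * (π - arccos a)) : False := by
  have hn0 : (0 : ℝ) < n := by exact_mod_cast h.hn
  have hC10 : 0 < C1 := by linarith
  obtain ⟨l0, l4, β0, ζ0⟩ := hHs_len h
  rcases lt_or_ge (n * (π - arccos a)) (cT / C1) with hs | hs
  · have h1 : n * (π - arccos a) ≤ 1 / 4 := by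
      rw [lt_div_iff₀ hC10] at hs
      have : 0 ≤ n * (π - arccos a) := mul_nonneg hn0.le ζ0
      nlinarith
    have h2 := hHs_FT hA2 hFT h (by linarith) h1
    have h3 : C1 * (π - arccos a) < cT / n := by
      rw [lt_div_iff₀ hC10] at hs
      rw [lt_div_iff₀ hn0]
      linarith
    have h4 : cT / n ≤ cT0 / n := div_le_div_of_nonneg_right hcT hn0.le
    linarith
  · have hηl : η * (arccos a - arccos b) ≤ 1 / 4 * (arccos a - arccos b) :=
      mul_le_mul_of_nonneg_right hη1 l0.le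
    have hζ1 : π - arccos a ≤ 1 := by linarith
    have hρ1 : ‖w - (π : ℂ)‖ ≤ 1 := by
      calc ‖w - (π : ℂ)‖ ≤ C1 * (π - arccos a) := hnear
        _ ≤ C1 * (η * (arccos a - arccos b)) := mul_le_mul_of_nonneg_left hζ hC10.le
        _ = (C1 * η) * (arccos a - arccos b) := by ring
        _ ≤ 1 / 4 * (arccos a - arccos b) := mul_le_mul_of_nonneg_right hη l0.le
        _ ≤ 1 := by linarith
    have ha0 : a ≤ 0 := by
      by_contra h'
      push Not at h'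
      have := Real.arccos_lt_pi_div_two.2 h'
      linarith [Real.pi_gt_three]
    obtain ⟨-, -, z3, -, -⟩ := uZ1_zeta a h.ha ha0
    have hsize := uZ1_size w z h.re0 h.reπ h.im0 h.zre h.zim hρ1
    have hsize2 : ‖z + 1‖ ≤ 10 * C1 ^ 2 * (1 + a) := by
      refine hsize.trans ?_
      have r1 : ‖w - (π : ℂ)‖ ^ 2 ≤ (C1 * (π - arccos a)) ^ 2 :=
        pow_le_pow_left₀ (norm_nonneg _) hnear 2
      have r2 : C1 ^ 2 * (π - arccos a) ^ 2 ≤ C1 ^ 2 * (5 * (1 + a)) :=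
        mul_le_mul_of_nonneg_left z3 (by positivity)
      have r3 : (C1 * (π - arccos a)) ^ 2 = C1 ^ 2 * (π - arccos a) ^ 2 := by ring
      linarith
    obtain ⟨m1, m2, m3⟩ := hFL hs hsize2
    set L : ℝ := 1 + Real.log n with hLdef
    have hL0 : 0 < L := by linarith
    have hM : 1 ≤ K * L := by nlinarith
    have hle : KL * L ≤ K * L := mul_le_mul_of_nonneg_right hKK hL0.le
    have hinv : 1 / (K * L) ≤ 1 / (KL * L) :=
      one_div_le_one_div_of_le (by positivity) hle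
    exact hHs_A hU5w hC hH h hκ hκ0 hC10 hη hη1 hζ hnear hM
      (m1.trans (div_le_div_of_nonneg_right hle hn0.le)) (by linarith) (by linarith) hbig

theorem hHs_deriv_refl (P : ℝ[X]) :
    (P.comp (-X)).derivative = -(P.derivative.comp (-X)) := by
  rw [derivative_comp]
  simp

theorem hHs_cos_refl {w z : ℂ} (hw : Complex.cos w = (starRingEnd ℂ) z) :
    Complex.cos ((π : ℂ) - (starRingEnd ℂ) w) = (starRingEnd ℂ) (-(starRingEnd ℂ) z) := by
  rw [Complex.cos_pi_sub, Complex.cos_conj, hw, map_neg]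

theorem hHs (hE6e : E6e) (hFL : FL) (hFR : FR) (hFT : FT) (hG1u : G1u) (hHm : Hm) (hNP : NP)
    (hU5w : U5w) (hX0 : X0) (hA2 : A2) : HHs := by
  have hpi := Real.pi_pos
  have hpi3 := Real.pi_gt_three
  obtain ⟨cG, hcG, hG⟩ := hG1u
  obtain ⟨cT0, hcT0, hFT'⟩ := hFT
  obtain ⟨C, hC, hH⟩ := hHm
  set cT : ℝ := min cT0 (1 / 4) with hcT
  have hcTpos : 0 < cT := lt_min hcT0 (by norm_num)
  have hcTle : cT ≤ cT0 := min_le_left _ _
  have hcT4 : cT ≤ 1 / 4 := min_le_right _ _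
  set c1 : ℝ := min (min 1 (cG / 2)) (cT / 2) with hc1
  have hc1pos : 0 < c1 := lt_min (lt_min one_pos (by positivity)) (by positivity)
  have hc1G : c1 ≤ min 1 (cG / 2) := min_le_left _ _
  have hc11 : c1 ≤ 1 := hc1G.trans (min_le_left _ _)
  have hc1T : c1 ≤ cT / 2 := min_le_right _ _
  obtain ⟨κ, hκ⟩ : ∃ κ : ℝ, κ = 1 - Real.exp (-(2 * c1)) := ⟨_, rfl⟩
  have hκ0 : 0 < κ := by
    have : Real.exp (-(2 * c1)) < 1 := Real.exp_lt_one_iff.2 (by linarith)
    linarith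
  have hκ1 : κ ≤ 1 := by
    have := Real.exp_pos (-(2 * c1))
    linarith
  set C1 : ℝ := max 2 (8 * C / κ) with hC1def
  have hC1 : 2 ≤ C1 := le_max_left _ _
  have hC10 : 0 < C1 := by linarith
  have hC1' : C / C1 ≤ κ / 8 := by
    have h1 : 8 * C / κ ≤ C1 := le_max_right _ _
    rw [div_le_iff₀ hκ0] at h1
    rw [div_le_div_iff₀ hC10 (by norm_num)]
    linarith
  set c2 : ℝ := min (1 / 4) (κ / (16 * C)) with hc2def
  have hc20 : 0 < c2 := lt_min (by norm_num) (by positivity)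
  have hc2 : c2 ≤ 1 / 4 := min_le_left _ _
  have hc2' : 2 * C * c2 ≤ κ / 8 := by
    have h1 : c2 ≤ κ / (16 * C) := min_le_right _ _
    rw [le_div_iff₀ (by positivity)] at h1
    linarith
  obtain ⟨ηL, KL, RL, hηL, hKL, hRL, nL, hFL'⟩ :=
    hFL (10 * C1 ^ 2) (cT / C1) (by positivity) (by positivity)
  set η2 : ℝ := min ηL (min (1 / (4 * C1)) (κ / (32 * C) / 4)) with hη2def
  have hη20 : 0 < η2 := lt_min hηL (lt_min (by positivity) (by positivity))
  have hη2L : η2 ≤ ηL := min_le_left _ _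
  have hη2C1 : C1 * η2 ≤ 1 / 4 := by
    have h1 : η2 ≤ 1 / (4 * C1) := (min_le_right _ _).trans (min_le_left _ _)
    rw [le_div_iff₀ (by positivity)] at h1
    linarith
  have hη24 : η2 ≤ 1 / 4 := by nlinarith
  have hη2C : C * η2 ≤ κ / 32 := by
    have h1 : η2 ≤ κ / (32 * C) / 4 := (min_le_right _ _).trans (min_le_right _ _)
    have h2 : κ / (32 * C) / 4 ≤ κ / (32 * C) := by
      have : 0 < κ / (32 * C) := by positivity
      linarith
    have h3 := h1.trans h2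
    rw [le_div_iff₀ (by positivity)] at h3
    linarith
  obtain ⟨KR, RR, hKR, hRR, nR, hFR'⟩ := hFR η2 (c2 ^ 2 / 20) hη20 (by positivity)
  obtain ⟨ηN, RN, hηN, hRN, nN, hNP'⟩ := hNP (κ / 16) (by positivity)
  obtain ⟨RE, hRE, nE, hE'⟩ := hE6e
  set η : ℝ := min η2 (min ηN (min (c2 / 4) (κ * c2 / (32 * C)))) with hηdef
  have hη0 : 0 < η :=
    lt_min hη20 (lt_min hηN (lt_min (by positivity) (by positivity)))
  have hηη2 : η ≤ η2 := min_le_left _ _
  have hηηN : η ≤ ηN := (min_le_right _ _).trans (min_le_left _ _)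
  have hηc2 : η ≤ c2 / 4 :=
    (min_le_right _ _).trans ((min_le_right _ _).trans (min_le_left _ _))
  have hηC : C * η ≤ κ * c2 / 32 := by
    have h1 : η ≤ κ * c2 / (32 * C) :=
      (min_le_right _ _).trans ((min_le_right _ _).trans (min_le_right _ _))
    rw [le_div_iff₀ (by positivity)] at h1
    linarith
  set K : ℝ := max (max KL KR) 1 with hK
  have hK1 : 1 ≤ K := le_max_right _ _
  have hKKL : KL ≤ K := (le_max_left _ _).trans (le_max_left _ _)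
  have hKKR : KR ≤ K := (le_max_right _ _).trans (le_max_left _ _)
  have hK0 : 0 < K := by linarith
  set τ : ℝ := min (κ * c2 / (32 * C)) (c2 / 2) with hτ
  have hτ0 : 0 < τ := lt_min (by positivity) (by positivity)
  have hτ1 : τ ≤ κ * c2 / (32 * C) := min_le_left _ _
  have hτ2 : τ ≤ c2 / 2 := min_le_right _ _
  obtain ⟨nl, hl⟩ := uZ1_log (τ / K ^ 3) (by positivity)
  obtain ⟨nc, hnc⟩ := exists_nat_ge (1 / c2)
  refine ⟨η, RL + RR + RN + RE, hη0, by positivity, nL + nR + nN + nE + nl + nc + 1, ?_⟩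
  intro n hn a b P hW hζ hext z0 hz0
  by_contra him0
  obtain ⟨hl1, hl2, hn1⟩ := hl n (by omega)
  have hn0 : (0 : ℝ) < n := by exact_mod_cast hn1
  have hL1 : 1 ≤ 1 + Real.log n := by linarith
  have hM3 : (K * (1 + Real.log n)) ^ 3 / n ≤ τ := by
    rw [le_div_iff₀ (by positivity)] at hl1
    refine le_trans ?_ hl1
    have h1 : (1 + Real.log n) ^ 3 ≤ (1 + Real.log n) ^ 4 := pow_le_pow_right₀ hL1 (by norm_num)
    calc (K * (1 + Real.log n)) ^ 3 / n = (1 + Real.log n) ^ 3 * K ^ 3 / n := by ring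
      _ ≤ (1 + Real.log n) ^ 4 * K ^ 3 / n := by gcongr
      _ = (1 + Real.log n) ^ 4 / n * K ^ 3 := by ring
  have hbig1 : 4 * C / c2 * ((K * (1 + Real.log n)) ^ 3 / n) ≤ κ / 8 := by
    refine (mul_le_mul_of_nonneg_left (hM3.trans hτ1) (by positivity)).trans (le_of_eq ?_)
    field_simp
    norm_num
  have hbig : 4 * C * (K * (1 + Real.log n)) ^ 3 / n ≤ κ / 8 := by
    refine le_trans ?_ hbig1
    have h1 : (0 : ℝ) ≤ 4 * C * (K * (1 + Real.log n)) ^ 3 / n := by positivity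
    calc 4 * C * (K * (1 + Real.log n)) ^ 3 / n
        = (4 * C * (K * (1 + Real.log n)) ^ 3 / n) * 1 := (mul_one _).symm
      _ ≤ (4 * C * (K * (1 + Real.log n)) ^ 3 / n) * (1 / c2) := by
          apply mul_le_mul_of_nonneg_left _ h1
          rw [le_div_iff₀ hc20]
          linarith
      _ = 4 * C / c2 * ((K * (1 + Real.log n)) ^ 3 / n) := by ring
  have hncle : 1 / (n : ℝ) ≤ c2 := by
    have h1 : (1 : ℝ) / c2 ≤ n := hnc.trans (by exact_mod_cast (by omega : nc ≤ n))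
    rw [div_le_iff₀ hc20] at h1
    rw [div_le_iff₀ hn0]
    linarith
  obtain ⟨ha, hab, hb, hR⟩ := hW
  have hW : ∀ R : ℝ, R ≤ RL + RR + RN + RE → Wd n R a b :=
    fun R hR' => ⟨ha, hab, hb, hR'.trans hR⟩
  have hWr : ∀ R : ℝ, R ≤ RL + RR + RN + RE → Wd n R (-b) (-a) := by
    intro R hR'
    refine ⟨by linarith, by linarith, by linarith, ?_⟩
    rw [Real.arccos_neg, Real.arccos_neg]
    refine (hR'.trans hR).trans (le_of_eq ?_)
    ring
  -- reduction to positive imaginary part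
  obtain ⟨z, hz, hzim⟩ : ∃ z : ℂ, aeval z P.derivative = 0 ∧ 0 < z.im := by
    rcases lt_or_gt_of_ne him0 with h | h
    · refine ⟨(starRingEnd ℂ) z0, ?_, ?_⟩
      · rw [Polynomial.aeval_conj, hz0, map_zero]
      · rw [Complex.conj_im]
        linarith
    · exact ⟨z0, hz0, h⟩
  obtain ⟨w, hw, hre, hre'⟩ := cA_exists ((starRingEnd ℂ) z)
  have hND := hE' n (by omega) a b P (hW RE (by linarith)) hext
  have hlen : 0 < arccos a - arccos b := by
    have := Real.arccos_lt_arccos ha hab hb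
    linarith
  have hclo := hNP' n (by omega) a b P (hW RN (by linarith)) hext
    (Or.inl (hζ.trans (mul_le_mul_of_nonneg_right hηηN hlen.le)))
  have hcfg : hHs_Cfg n (κ / 16) c1 a b P z w :=
    hHs_mk hcG hG hc1G hn1 ha hab hb hext hND hclo hz hzim hw hre hre'
  obtain ⟨l0, l4, β0, ζ0⟩ := hHs_len hcfg
  -- the left gap
  have hleft : C1 * (π - arccos a) < ‖w - (π : ℂ)‖ := by
    by_contra hnear
    push Not at hnear
    refine hHs_near hU5w hA2 hC hH hFT' hcfg hκ hκ0 hκ1 hC1 hcTle hcT4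
      (η := η2) (K := K) (KL := KL) hη2C1 hη24 hKL hK1 hKKL ?_
      (hζ.trans (mul_le_mul_of_nonneg_right hηη2 l0.le)) hL1 hbig hnear
    intro q1 q2
    exact hFL' n (by omega) a b P z (hW RL (by linarith))
      (hζ.trans (mul_le_mul_of_nonneg_right (hηη2.trans hη2L) l0.le)) q1 hext hND hz hzim q2
  have hFTa : n * (π - arccos a) < cT / C1 → cT / n < ‖w - (π : ℂ)‖ := by
    intro hs
    have h1 : n * (π - arccos a) ≤ 1 / 4 := by
      rw [lt_div_iff₀ hC10] at hs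
      have : 0 ≤ n * (π - arccos a) := mul_nonneg hn0.le ζ0
      nlinarith
    have h2 := hHs_FT hA2 hFT' hcfg (by linarith) h1
    have h4 : cT / n ≤ cT0 / n := div_le_div_of_nonneg_right hcTle hn0.le
    linarith
  rcases le_or_gt ‖w - (π : ℂ)‖ (c2 * (arccos a - arccos b)) with hmed | hfar
  · exact hHs_B hU5w hC hH hcfg hκ hκ0 hC1 hcTpos hC1' hc20 hc2 hc2' hc1T hleft.le hmed hFTa
  rcases le_or_gt (η2 * (arccos a - arccos b)) (arccos b) with hbeta | hbeta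
  · rcases hFR' n (by omega) a b P z (hW RR (by linarith)) hbeta hext hND hz hzim with
      ⟨-, q2⟩ | ⟨q1, q2, q3, q4, -⟩
    · have := hHs_C1 hcfg (c2 := c2) (η := η) hη0 (by linarith) (by linarith) hc20 hζ q2
      linarith
    · have hL0 : 0 < 1 + Real.log n := by linarith
      have hle : KR * (1 + Real.log n) ≤ K * (1 + Real.log n) :=
        mul_le_mul_of_nonneg_right hKKR hL0.le
      have hinv : 1 / (K * (1 + Real.log n)) ≤ 1 / (KR * (1 + Real.log n)) :=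
        one_div_le_one_div_of_le (by positivity) hle
      refine hHs_C2 hU5w hC hH hcfg hκ hκ0 (M := K * (1 + Real.log n)) hc20 hc2 hηc2 hζ hfar
        (by nlinarith) q1 (by linarith) (q3.trans (div_le_div_of_nonneg_right hle hn0.le))
        (by linarith) (by linarith) (by linarith) hbig1
  -- the right gap is small
  have hl2' : 2 ≤ arccos a - arccos b := by
    have h1 : η * (arccos a - arccos b) ≤ 1 / 4 * (arccos a - arccos b) :=
      mul_le_mul_of_nonneg_right (hηη2.trans hη24) l0.le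
    have h2 : η2 * (arccos a - arccos b) ≤ 1 / 4 * (arccos a - arccos b) :=
      mul_le_mul_of_nonneg_right hη24 l0.le
    linarith
  -- the reflected configuration
  have hextr : Ext n (-b) (-a) (P.comp (-X)) := hX0.2.2 n a b P hext
  have hNDr := hE' n (by omega) (-b) (-a) _ (hWr RE (by linarith)) hextr
  have er1 : arccos (-b) - arccos (-a) = arccos a - arccos b := by
    rw [Real.arccos_neg, Real.arccos_neg]
    ring
  have er2 : π - arccos (-b) = arccos b := by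
    rw [Real.arccos_neg]
    ring
  have er3 : arccos (-a) = π - arccos a := Real.arccos_neg a
  have hclor := hNP' n (by omega) (-b) (-a) _ (hWr RN (by linarith)) hextr
    (Or.inr (by
      rw [er1, er3]
      exact hζ.trans (mul_le_mul_of_nonneg_right hηηN hlen.le)))
  have hzr : aeval (-(starRingEnd ℂ) z) (P.comp (-X)).derivative = 0 := by
    rw [hHs_deriv_refl, map_neg, Polynomial.aeval_comp, map_neg, aeval_X, neg_neg,
      Polynomial.aeval_conj, hz, map_zero, neg_zero]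
  have hzimr : 0 < (-(starRingEnd ℂ) z).im := by simpa using hzim
  have hrer : ((π : ℂ) - (starRingEnd ℂ) w).re = π - w.re := by simp
  have hcfgr : hHs_Cfg n (κ / 16) c1 (-b) (-a) (P.comp (-X)) (-(starRingEnd ℂ) z)
      ((π : ℂ) - (starRingEnd ℂ) w) :=
    hHs_mk hcG hG hc1G hn1 (by linarith) (by linarith) (by linarith) hextr hNDr hclor hzr hzimr
      (hHs_cos_refl hw) (by rw [hrer]; linarith) (by rw [hrer]; linarith)
  have hnr : ‖((π : ℂ) - (starRingEnd ℂ) w) - (π : ℂ)‖ = ‖w‖ := by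
    rw [sub_sub_cancel_left, norm_neg, Complex.norm_conj]
  have hright : C1 * arccos b < ‖w‖ := by
    by_contra hnear
    push Not at hnear
    refine hHs_near hU5w hA2 hC hH hFT' hcfgr hκ hκ0 hκ1 hC1 hcTle hcT4
      (η := η2) (K := K) (KL := KL) hη2C1 hη24 hKL hK1 hKKL ?_ ?_ hL1 hbig ?_
    · intro q1 q2
      exact hFL' n (by omega) (-b) (-a) _ _ (hWr RL (by linarith))
        (by
          rw [er1, er2]
          exact hbeta.le.trans (mul_le_mul_of_nonneg_right hη2L l0.le))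
        q1 hextr hNDr hzr hzimr q2
    · rw [er1, er2]
      exact hbeta.le
    · rw [hnr, er2]
      exact hnear
  have hFTb : n * arccos b < cT / C1 → cT / n < ‖w‖ := by
    intro hs
    have h1 : n * arccos b ≤ 1 / 4 := by
      rw [lt_div_iff₀ hC10] at hs
      have : 0 ≤ n * arccos b := mul_nonneg hn0.le β0
      nlinarith
    have h2 := hHs_FT hA2 hFT' hcfgr (by linarith) (by rw [er2]; exact h1)
    rw [hnr] at h2
    have h4 : cT / n ≤ cT0 / n := div_le_div_of_nonneg_right hcTle hn0.le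
    linarith
  refine hHs_C3 hU5w hC hH hcfg hκ hκ0 hC1 hcTpos hC1' hc11 hc1T hc20 hc2 hη0 hηc2 hηC hζ hfar
    hl2' hncle hright.le hFTb ?_
  calc C * arccos b ≤ C * (η2 * 4) :=
        mul_le_mul_of_nonneg_left (hbeta.le.trans (mul_le_mul_of_nonneg_left l4 hη20.le)) hC.le
    _ = 4 * (C * η2) := by ring
    _ ≤ κ / 8 := by linarith

end

end Pool.Agent.Helper10.AL
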