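import Pool.Agent.Helper10.AL.St7

set_option autoImplicit false

namespace Pool.Agent.Helper10.AL

open Polynomial Set Real MeasureTheory intervalIntegral

noncomputable section

theorem hm_nsq (w : ℂ) (θ : ℝ) :
    ‖Complex.exp (w * Complex.I) - Complex.exp (θ * Complex.I)‖ ^ 2 =
      (1 - Real.exp (-w.im)) ^ 2 + 2 * Real.exp (-w.im) * (1 - cos (w.re - θ)) := by
  have h1 : Complex.exp (w * Complex.I) =
      (Real.exp (-w.im) : ℂ) * (cos w.re + sin w.re * Complex.I) := by
    have : w * Complex.I = ((-w.im : ℝ) : ℂ) + (w.re : ℂ) * Complex.I := by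
      apply Complex.ext <;> simp
    rw [this, Complex.exp_add, Complex.exp_mul_I]
    push_cast
    ring
  have h2 : Complex.exp (θ * Complex.I) = (cos θ + sin θ * Complex.I : ℂ) := by
    rw [Complex.exp_mul_I]
    push_cast
    ring
  rw [h1, h2, ← Complex.normSq_eq_norm_sq]
  have h3 : ((Real.exp (-w.im) : ℂ) * (cos w.re + sin w.re * Complex.I) -
      (cos θ + sin θ * Complex.I : ℂ)) = ((Real.exp (-w.im) * cos w.re - cos θ : ℝ) : ℂ) +
      ((Real.exp (-w.im) * sin w.re - sin θ : ℝ) : ℂ) * Complex.I := by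
    push_cast
    ring
  rw [h3, Complex.normSq_add_mul_I, cos_sub]
  have e1 := sin_sq_add_cos_sq w.re
  have e2 := sin_sq_add_cos_sq θ
  linear_combination (Real.exp (-w.im)) ^ 2 * e1 + e2

theorem hm_norm (w : ℂ) : ‖Complex.exp (w * Complex.I)‖ = Real.exp (-w.im) := by
  rw [Complex.norm_exp]
  simp

theorem hm_pk (w : ℂ) (θ : ℝ) :
    pk (Complex.exp (w * Complex.I)) θ = (1 - Real.exp (-w.im) ^ 2) /
      ((1 - Real.exp (-w.im)) ^ 2 + 2 * Real.exp (-w.im) * (1 - cos (w.re - θ))) := by
  rw [pk, hm_nsq, hm_norm]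

theorem hm_den (w : ℂ) (θ : ℝ) (hw : 0 < w.im) :
    0 < (1 - Real.exp (-w.im)) ^ 2 + 2 * Real.exp (-w.im) * (1 - cos (w.re - θ)) := by
  have h1 : Real.exp (-w.im) < 1 := by
    rw [Real.exp_lt_one_iff]
    linarith
  have h2 : 0 < Real.exp (-w.im) := Real.exp_pos _
  have h3 : cos (w.re - θ) ≤ 1 := cos_le_one _
  have h4 : 0 < (1 - Real.exp (-w.im)) ^ 2 := by
    apply pow_pos
    linarith
  have h5 : 0 ≤ 2 * Real.exp (-w.im) * (1 - cos (w.re - θ)) := by
    apply mul_nonneg
    · linarith
    · linarith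
  linarith

theorem hm_cont (w : ℂ) (hw : 0 < w.im) :
    Continuous (fun θ : ℝ => pk (Complex.exp (w * Complex.I)) θ) := by
  have : (fun θ : ℝ => pk (Complex.exp (w * Complex.I)) θ) = fun θ : ℝ =>
      (1 - Real.exp (-w.im) ^ 2) /
      ((1 - Real.exp (-w.im)) ^ 2 + 2 * Real.exp (-w.im) * (1 - cos (w.re - θ))) := by
    funext θ
    exact hm_pk w θ
  rw [this]
  apply Continuous.div continuous_const (by fun_prop)
  intro θ
  exact (hm_den w θ hw).ne'

/-- `y ≥ 1` -/
theorem hm_big (w : ℂ) (θ : ℝ) (hw : 1 ≤ w.im) : pk (Complex.exp (w * Complex.I)) θ ≤ 4 := by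
  rw [hm_pk, div_le_iff₀ (hm_den w θ (by linarith))]
  have h1 : Real.exp (-w.im) ≤ 1 / 2 := by
    have h2 : Real.exp (-w.im) ≤ Real.exp (-1) := by
      apply Real.exp_le_exp.2
      linarith
    have h3 : Real.exp (-1) ≤ 1 / 2 := by
      rw [Real.exp_neg]
      have := Real.add_one_le_exp (1 : ℝ)
      rw [inv_le_comm₀ (Real.exp_pos _) (by norm_num)]
      norm_num
      linarith
    linarith
  have h2 : 0 < Real.exp (-w.im) := Real.exp_pos _
  have h3 : cos (w.re - θ) ≤ 1 := cos_le_one _
  have h5 : 0 ≤ 2 * Real.exp (-w.im) * (1 - cos (w.re - θ)) := by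
    apply mul_nonneg
    · linarith
    · linarith
  nlinarith

theorem hm_small (y : ℝ) (hy : 0 < y) (hy1 : y ≤ 1) :
    1 - Real.exp (-y) ^ 2 ≤ 2 * y ∧ y / 2 ≤ 1 - Real.exp (-y) ∧ 1 / 3 ≤ Real.exp (-y) := by
  refine ⟨?_, ?_, ?_⟩
  · have h1 := Real.add_one_le_exp (-(2 * y))
    have h2 : Real.exp (-(2 * y)) = Real.exp (-y) ^ 2 := by
      rw [← Real.exp_nat_mul]
      congr 1
      push_cast
      ring
    linarith
  · have h1 := Real.add_one_le_exp y
    have h2 : Real.exp (-y) * Real.exp y = 1 := by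
      rw [← Real.exp_add]
      simp
    have h3 : 0 < Real.exp (-y) := Real.exp_pos _
    have h4 : Real.exp (-y) * (y + 1) ≤ 1 := by
      nlinarith
    have h5 : Real.exp (-y) ≤ 1 / (y + 1) := by
      rw [le_div_iff₀ (by linarith)]
      exact h4
    have h6 : 1 / (y + 1) ≤ 1 - y / 2 := by
      rw [div_le_iff₀ (by linarith)]
      nlinarith
    linarith
  · have h2 : Real.exp (-1) ≤ Real.exp (-y) := by
      apply Real.exp_le_exp.2
      linarith
    have h3 : 1 / 3 ≤ Real.exp (-1) := by
      rw [Real.exp_neg, one_div]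
      apply inv_anti₀ (Real.exp_pos _)
      have := Real.exp_one_lt_d9
      linarith
    linarith

/-- pointwise bound near the left end point `-1` -/
theorem hm_pt (w : ℂ) (α θ : ℝ) (h0 : 0 ≤ w.re) (h1 : w.re ≤ π) (hw : 0 < w.im)
    (hα : 2 * (π - α) ≤ ‖w - (π : ℂ)‖) (hθ1 : α ≤ θ) (hθ2 : θ ≤ 2 * π - α) :
    pk (Complex.exp (w * Complex.I)) θ ≤ 200 * min 1 w.im / min 1 ‖w - (π : ℂ)‖ ^ 2 := by
  set D := ‖w - (π : ℂ)‖ with hD
  have hDsq : D ^ 2 = (π - w.re) ^ 2 + w.im ^ 2 := by
    rw [hD, ← Complex.normSq_eq_norm_sq, Complex.normSq_apply]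
    simp
    ring
  have hDpos : 0 < D := by
    have : 0 < D ^ 2 := by
      rw [hDsq]
      positivity
    have h2 : 0 ≤ D := norm_nonneg _
    rcases h2.lt_or_eq with h | h
    · exact h
    · rw [← h] at this
      norm_num at this
  have hm : 0 < min 1 D := lt_min one_pos hDpos
  have hm1 : min 1 D ≤ 1 := min_le_left _ _
  have hm2 : min 1 D ≤ D := min_le_right _ _
  have hmsq : min 1 D ^ 2 ≤ 1 := by nlinarith
  have hmsq2 : min 1 D ^ 2 ≤ D ^ 2 := by nlinarith
  rw [le_div_iff₀ (by positivity)]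
  rcases le_or_gt 1 w.im with hy | hy
  · rw [min_eq_left hy]
    have := hm_big w θ hy
    have h3 : 0 ≤ pk (Complex.exp (w * Complex.I)) θ := by
      rw [hm_pk]
      apply div_nonneg
      · have : Real.exp (-w.im) < 1 := by
          rw [Real.exp_lt_one_iff]
          linarith
        have h2 : 0 < Real.exp (-w.im) := Real.exp_pos _
        nlinarith
      · exact (hm_den w θ hw).le
    nlinarith
  · rw [min_eq_right hy.le]
    obtain ⟨s1, s2, s3⟩ := hm_small w.im hw hy.le
    rw [hm_pk, div_mul_eq_mul_div, div_le_iff₀ (hm_den w θ hw)]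
    have hc : cos (w.re - θ) ≤ 1 := cos_le_one _
    have h5 : 0 ≤ 2 * Real.exp (-w.im) * (1 - cos (w.re - θ)) := by
      apply mul_nonneg
      · linarith
      · linarith
    have key : 1 / 100 * min 1 D ^ 2 ≤
        (1 - Real.exp (-w.im)) ^ 2 + 2 * Real.exp (-w.im) * (1 - cos (w.re - θ)) := by
      rcases le_or_gt (D / 2) w.im with hyD | hyD
      · have : (w.im / 2) ^ 2 ≤ (1 - Real.exp (-w.im)) ^ 2 := by
          apply pow_le_pow_left₀ (by linarith) s2
        nlinarith
      · have hv : 4 / 5 * D ≤ π - w.re := by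
          by_contra hcon
          push Not at hcon
          have : (π - w.re) ^ 2 < (4 / 5 * D) ^ 2 := by
            apply pow_lt_pow_left₀ hcon (by linarith) (by norm_num)
          nlinarith
        have hcosu : cos (w.re - θ) = cos ((π - w.re) + (θ - π)) := by
          rw [← cos_neg]
          congr 1
          ring
        rw [hcosu] at *
        set u := (π - w.re) + (θ - π) with hu
        have hu1 : 3 / 10 * D ≤ u := by linarith
        have hu2 : u ≤ 13 / 8 * π := by linarith [pi_pos]
        have hpi : 3.1415 < π := pi_gt_d4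
        have hpi2 : π < 3.1416 := pi_lt_d4
        have hcu : 3 / 200 * min 1 D ^ 2 ≤ 1 - cos u := by
          rcases le_or_gt u π with hup | hup
          · have := cos_le_one_sub_mul_cos_sq (x := u) (by rw [abs_le]; constructor <;> linarith)
            have h6 : 0.2 ≤ 2 / π ^ 2 := by
              rw [le_div_iff₀ (by positivity)]
              nlinarith
            have h7 : 0.09 * D ^ 2 ≤ u ^ 2 := by nlinarith
            have h8 : 0.2 * u ^ 2 ≤ 2 / π ^ 2 * u ^ 2 := by
              apply mul_le_mul_of_nonneg_right h6 (sq_nonneg _)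
            nlinarith
          · have h9 : cos u = cos (2 * π - u) := by
              rw [cos_two_pi_sub]
            have := cos_le_one_sub_mul_cos_sq (x := 2 * π - u)
              (by rw [abs_le]; constructor <;> linarith)
            have h6 : 0.2 ≤ 2 / π ^ 2 := by
              rw [le_div_iff₀ (by positivity)]
              nlinarith
            have h7 : 1 ≤ (2 * π - u) ^ 2 := by nlinarith
            have h8 : 0.2 * (2 * π - u) ^ 2 ≤ 2 / π ^ 2 * (2 * π - u) ^ 2 := by
              apply mul_le_mul_of_nonneg_right h6 (sq_nonneg _)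
            rw [h9]
            nlinarith
        have h10 : 2 / 3 * (3 / 200 * min 1 D ^ 2) ≤ 2 * Real.exp (-w.im) * (1 - cos u) := by
          apply mul_le_mul _ hcu (by positivity) (by linarith)
          linarith
        nlinarith [sq_nonneg (1 - Real.exp (-w.im))]
    have hA : 0 ≤ 1 - Real.exp (-w.im) ^ 2 := by
      have : Real.exp (-w.im) < 1 := by
        rw [Real.exp_lt_one_iff]
        linarith
      have h2 : 0 < Real.exp (-w.im) := Real.exp_pos _
      nlinarith
    calc (1 - Real.exp (-w.im) ^ 2) * min 1 D ^ 2 ≤ (2 * w.im) * min 1 D ^ 2 := by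
          apply mul_le_mul_of_nonneg_right s1 (by positivity)
      _ = 200 * w.im * (1 / 100 * min 1 D ^ 2) := by ring
      _ ≤ _ := by
          apply mul_le_mul_of_nonneg_left key (by linarith)

/-- first statement -/
theorem hm_one (w : ℂ) (α : ℝ) (h0 : 0 ≤ w.re) (h1 : w.re ≤ π) (hw : 0 < w.im) (hα2 : α ≤ π)
    (hα : 2 * (π - α) ≤ ‖w - (π : ℂ)‖) :
    (∫ θ in α..(2 * π - α), pk (Complex.exp (w * Complex.I)) θ) ≤
      400 * (π - α) * min 1 w.im / min 1 ‖w - (π : ℂ)‖ ^ 2 := by
  have h2 : (∫ θ in α..(2 * π - α), pk (Complex.exp (w * Complex.I)) θ) ≤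
      ∫ _θ in α..(2 * π - α), (200 * min 1 w.im / min 1 ‖w - (π : ℂ)‖ ^ 2) := by
    apply integral_mono_on (by linarith) ((hm_cont w hw).intervalIntegrable _ _)
      (by simp)
    intro θ hθ
    exact hm_pt w α θ h0 h1 hw hα hθ.1 hθ.2
  refine h2.trans (le_of_eq ?_)
  rw [intervalIntegral.integral_const]
  simp only [smul_eq_mul]
  ring

theorem hm_cot (δ : ℝ) (h0 : 0 < δ) (h1 : δ < 2 * π) :
    HasDerivAt (fun t : ℝ => -(2 * (cos (t / 2) / sin (t / 2))) / 2) (1 / (1 - cos δ)) δ := by
  have hs : 0 < sin (δ / 2) := sin_pos_of_pos_of_lt_pi (by linarith) (by linarith)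
  have hc : HasDerivAt (fun t : ℝ => cos (t / 2)) (-sin (δ / 2) * (1 / 2)) δ := by
    have := (hasDerivAt_cos (δ / 2)).comp δ ((hasDerivAt_id δ).div_const 2)
    exact this
  have hss : HasDerivAt (fun t : ℝ => sin (t / 2)) (cos (δ / 2) * (1 / 2)) δ := by
    have := (hasDerivAt_sin (δ / 2)).comp δ ((hasDerivAt_id δ).div_const 2)
    exact this
  have h3 := (((hc.div hss hs.ne').const_mul 2).neg).div_const 2
  refine h3.congr_deriv ?_
  have e1 : cos δ = 1 - 2 * sin (δ / 2) ^ 2 := by
    have := cos_two_mul (δ / 2)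
    rw [show 2 * (δ / 2) = δ by ring] at this
    rw [this]
    have := sin_sq_add_cos_sq (δ / 2)
    linarith
  have e2 := sin_sq_add_cos_sq (δ / 2)
  rw [e1, show 1 - (1 - 2 * sin (δ / 2) ^ 2) = 2 * sin (δ / 2) ^ 2 by ring]
  field_simp
  linear_combination e2

/-- third statement -/
theorem hm_three (w : ℂ) (α : ℝ) (h0 : 0 ≤ w.re) (hw : 0 < w.im) (hα : w.re < α)
    (hα2 : α ≤ π) :
    (∫ θ in α..(2 * π - α), pk (Complex.exp (w * Complex.I)) θ) ≤
      400 * w.im / (α - w.re) := by
  have hpi : 3.1415 < π := pi_gt_d4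
  have hpi2 : π < 3.1416 := pi_lt_d4
  have hd : 0 < α - w.re := by linarith
  rcases le_or_gt 1 w.im with hy | hy
  · have h2 : (∫ θ in α..(2 * π - α), pk (Complex.exp (w * Complex.I)) θ) ≤
        ∫ _θ in α..(2 * π - α), (4 : ℝ) := by
      apply integral_mono_on (by linarith) ((hm_cont w hw).intervalIntegrable _ _)
        (by simp)
      intro θ hθ
      exact hm_big w θ hy
    refine h2.trans ?_
    rw [intervalIntegral.integral_const, smul_eq_mul, le_div_iff₀ hd]
    have e1 : (2 * π - α - α) * 4 ≤ 8 * π := by linarith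
    have e2 : α - w.re ≤ π := by linarith
    have e3 : (2 * π - α - α) * 4 * (α - w.re) ≤ 8 * π * π := by
      apply mul_le_mul e1 e2 hd.le (by positivity)
    nlinarith
  · obtain ⟨s1, s2, s3⟩ := hm_small w.im hw hy.le
    have hcos : ∀ θ ∈ Icc α (2 * π - α), 0 < 1 - cos (θ - w.re) := by
      intro θ hθ
      have hs : 0 < sin ((θ - w.re) / 2) :=
        sin_pos_of_pos_of_lt_pi (by linarith [hθ.1]) (by linarith [hθ.2])
      have e1 : cos (θ - w.re) = 1 - 2 * sin ((θ - w.re) / 2) ^ 2 := by
        have := cos_two_mul ((θ - w.re) / 2)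
        rw [show 2 * ((θ - w.re) / 2) = θ - w.re by ring] at this
        rw [this]
        have := sin_sq_add_cos_sq ((θ - w.re) / 2)
        linarith
      rw [e1]
      have : 0 < sin ((θ - w.re) / 2) ^ 2 := by positivity
      linarith
    have hint : IntervalIntegrable (fun θ : ℝ => 3 * w.im * (1 / (1 - cos (θ - w.re)))) volume α
        (2 * π - α) := by
      apply ContinuousOn.intervalIntegrable
      rw [uIcc_of_le (by linarith)]
      apply ContinuousOn.mul continuousOn_const
      apply ContinuousOn.div continuousOn_const (by fun_prop)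
      intro θ hθ
      exact (hcos θ hθ).ne'
    have h2 : (∫ θ in α..(2 * π - α), pk (Complex.exp (w * Complex.I)) θ) ≤
        ∫ θ in α..(2 * π - α), 3 * w.im * (1 / (1 - cos (θ - w.re))) := by
      apply integral_mono_on (by linarith) ((hm_cont w hw).intervalIntegrable _ _) hint
      intro θ hθ
      rw [hm_pk, div_le_iff₀ (hm_den w θ hw)]
      have hc := hcos θ hθ
      have e1 : cos (w.re - θ) = cos (θ - w.re) := by
        rw [← cos_neg]
        congr 1
        ring
      rw [e1]
      have e2 : 2 / 3 * (1 - cos (θ - w.re)) ≤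
          (1 - Real.exp (-w.im)) ^ 2 + 2 * Real.exp (-w.im) * (1 - cos (θ - w.re)) := by
        nlinarith [sq_nonneg (1 - Real.exp (-w.im))]
      calc 1 - Real.exp (-w.im) ^ 2 ≤ 2 * w.im := s1
        _ = 3 * w.im * (1 / (1 - cos (θ - w.re))) * (2 / 3 * (1 - cos (θ - w.re))) := by
            field_simp
        _ ≤ _ := by
            apply mul_le_mul_of_nonneg_left e2 (by positivity)
    refine h2.trans ?_
    rw [intervalIntegral.integral_const_mul]
    have h3 : (∫ θ in α..(2 * π - α), 1 / (1 - cos (θ - w.re))) =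
        ∫ θ in (α - w.re)..(2 * π - α - w.re), 1 / (1 - cos θ) :=
      intervalIntegral.integral_comp_sub_right (fun θ : ℝ => 1 / (1 - cos θ)) w.re
    have h4 : (∫ θ in (α - w.re)..(2 * π - α - w.re), 1 / (1 - cos θ)) =
        (fun t : ℝ => -(2 * (cos (t / 2) / sin (t / 2))) / 2) (2 * π - α - w.re) -
        (fun t : ℝ => -(2 * (cos (t / 2) / sin (t / 2))) / 2) (α - w.re) := by
      refine integral_eq_sub_of_hasDerivAt
        (f := fun t : ℝ => -(2 * (cos (t / 2) / sin (t / 2))) / 2) ?_ ?_
      · intro δ hδ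
        rw [uIcc_of_le (by linarith)] at hδ
        exact hm_cot δ (by linarith [hδ.1]) (by linarith [hδ.2])
      · apply ContinuousOn.intervalIntegrable
        rw [uIcc_of_le (by linarith)]
        apply ContinuousOn.div continuousOn_const (by fun_prop)
        intro θ hθ
        have := hcos (θ + w.re) ⟨by linarith [hθ.1], by linarith [hθ.2]⟩
        rw [show θ + w.re - w.re = θ by ring] at this
        exact this.ne'
    rw [h3, h4]
    simp only
    set p := (2 * π - α - w.re) / 2 with hp
    set q := (α - w.re) / 2 with hq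
    have hq0 : 0 < q := by linarith
    have hqp : q ≤ π / 2 := by linarith
    have hsq : 2 / π * q ≤ sin q := mul_le_sin hq0.le hqp
    have hsqpos : 0 < sin q := lt_of_lt_of_le (by positivity) hsq
    have hcq : cos q / sin q ≤ π / (2 * q) := by
      rw [div_le_div_iff₀ hsqpos (by positivity)]
      have : cos q ≤ 1 := cos_le_one _
      have h6 : 2 * q ≤ π * sin q := by
        have := mul_le_mul_of_nonneg_left hsq pi_pos.le
        rw [show π * (2 / π * q) = 2 * q by field_simp] at this
        exact this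
      nlinarith
    -- p = π - r with 0 < r ≤ π, r ≥ q
    set r := (α + w.re) / 2 with hr
    have hpr : p = π - r := by
      rw [hp, hr]
      ring
    have hr1 : q ≤ r := by linarith
    have hr2 : r < π := by linarith
    have hcr : -(cos p / sin p) ≤ π / (2 * q) := by
      rw [hpr, cos_pi_sub, sin_pi_sub]
      rw [neg_div, neg_neg]
      have hsr : 0 < sin r := sin_pos_of_pos_of_lt_pi (by linarith) hr2
      rcases le_or_gt r (π / 2) with hrp | hrp
      · have hsr2 : 2 / π * r ≤ sin r := mul_le_sin (by linarith) hrp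
        rw [div_le_div_iff₀ hsr (by positivity)]
        have : cos r ≤ 1 := cos_le_one _
        have h6 : 2 * r ≤ π * sin r := by
          have := mul_le_mul_of_nonneg_left hsr2 pi_pos.le
          rw [show π * (2 / π * r) = 2 * r by field_simp] at this
          exact this
        nlinarith
      · have : cos r ≤ 0 := (cos_neg_of_pi_div_two_lt_of_lt hrp (by linarith)).le
        have h7 : cos r / sin r ≤ 0 := div_nonpos_of_nonpos_of_nonneg this hsr.le
        have h8 : 0 ≤ π / (2 * q) := by positivity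
        linarith
    have h9 : -(2 * (cos p / sin p)) / 2 - -(2 * (cos q / sin q)) / 2 ≤ π / q := by
      have : π / (2 * q) + π / (2 * q) = π / q := by
        field_simp
        ring
      linarith
    have h10 : 3 * w.im * (-(2 * (cos p / sin p)) / 2 - -(2 * (cos q / sin q)) / 2) ≤
        3 * w.im * (π / q) := by
      apply mul_le_mul_of_nonneg_left h9 (by positivity)
    refine h10.trans ?_
    rw [hq, le_div_iff₀ hd]
    have : 3 * w.im * (π / ((α - w.re) / 2)) * (α - w.re) = 6 * π * w.im := by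
      field_simp
      ring
    rw [this]
    nlinarith

/-- reflection -/
theorem hm_refl (w : ℂ) (β : ℝ) :
    (∫ θ in (-β)..β, pk (Complex.exp (w * Complex.I)) θ) =
      ∫ θ in (π - β)..(2 * π - (π - β)),
        pk (Complex.exp ((⟨π - w.re, w.im⟩ : ℂ) * Complex.I)) θ := by
  have h1 : (∫ θ in (-β)..β, pk (Complex.exp (w * Complex.I)) θ) = ∫ θ in (-β)..β,
      (fun t : ℝ => pk (Complex.exp ((⟨π - w.re, w.im⟩ : ℂ) * Complex.I)) t) (π - θ) := by
    congr 1
    funext θ
    simp only
    rw [hm_pk, hm_pk]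
    simp only
    have : cos (π - w.re - (π - θ)) = cos (w.re - θ) := by
      rw [← cos_neg]
      congr 1
      ring
    rw [this]
  rw [h1, intervalIntegral.integral_comp_sub_left]
  congr 1
  ring

theorem hm : Hm := by
  refine ⟨400, by norm_num, ?_⟩
  intro w h0 h1 hw
  have key : ‖(⟨π - w.re, w.im⟩ : ℂ) - (π : ℂ)‖ = ‖w‖ := by
    have : ‖(⟨π - w.re, w.im⟩ : ℂ) - (π : ℂ)‖ ^ 2 = ‖w‖ ^ 2 := by
      rw [← Complex.normSq_eq_norm_sq, ← Complex.normSq_eq_norm_sq, Complex.normSq_apply,
        Complex.normSq_apply]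
      simp
    exact (sq_eq_sq₀ (norm_nonneg _) (norm_nonneg _)).1 this
  refine ⟨?_, ?_, ?_, ?_⟩
  · intro α _ hα1 hα2
    exact hm_one w α h0 h1 hw hα1 hα2
  · intro β hβ0 hβ1 hβ2
    rw [hm_refl]
    have := hm_one (⟨π - w.re, w.im⟩ : ℂ) (π - β) (by simp; linarith) (by simp; linarith)
      (by simpa using hw) (by linarith) (by rw [key]; linarith)
    rw [key] at this
    simp only at this
    rw [show π - (π - β) = β by ring] at this
    exact this
  · intro α hα1 hα2
    exact hm_three w α h0 hw hα1 hα2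
  · intro β hβ0 hβ1
    rw [hm_refl]
    have := hm_three (⟨π - w.re, w.im⟩ : ℂ) (π - β) (by simp; linarith)
      (by simpa using hw) (by simp; linarith) (by linarith)
    simp only at this
    rw [show π - β - (π - w.re) = w.re - β by ring] at this
    exact this

end

end Pool.Agent.Helper10.AL
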