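import Pool.Agent.Helper10.AL.St2

/-!
Arc length of polynomials over compact windows, large degree: piece I1.
-/

set_option autoImplicit false

namespace Pool.Agent.Helper10.AL

open Polynomial Set Real MeasureTheory intervalIntegral
open Pool.Agent.Helper40.AS (arc Bdd Ext quad)
open Pool.Agent.Helper40

variable {n : ℕ} {a b : ℝ} {P : ℝ[X]}

theorem i1_root (hreal : ∀ z : ℂ, aeval z P.derivative = 0 → z.im = 0)
    (hcon : ∀ c ∈ Ioo (-1 : ℝ) 1, P.derivative.eval c = 0 →
      |P.eval c| = 1 ∧ P.derivative.derivative.eval c ≠ 0)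
    {z : ℂ} (hz : aeval z P.derivative = 0) :
    z.im = 0 ∧ P.derivative.eval z.re = 0 ∧ (AS.Contact P z ∨ 1 ≤ |z.re|) := by
  have h1 := hreal z hz
  have h2 := AS.aeval_real h1 hz
  refine ⟨h1, h2, ?_⟩
  rcases le_or_gt 1 |z.re| with h3 | h3
  · exact Or.inr h3
  · obtain ⟨h4, h5⟩ := abs_lt.1 h3
    exact Or.inl ⟨h1, h4, h5, (hcon z.re ⟨h4, h5⟩ h2).1⟩

open Classical in
theorem i1_card (hne' : P.derivative ≠ 0)
    (hcon : ∀ c ∈ Ioo (-1 : ℝ) 1, P.derivative.eval c = 0 →
      |P.eval c| = 1 ∧ P.derivative.derivative.eval c ≠ 0) {S : Finset ℝ}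
    (hS : ∀ x, x ∈ S ↔ x ∈ Icc (-1 : ℝ) 1 ∧ |P.eval x| = 1) :
    ((P.derivative.aroots ℂ).filter fun z => AS.Contact P z).card ≤
      (S.filter fun x => x ≠ -1 ∧ x ≠ 1).card := by
  set m := (P.derivative.aroots ℂ).filter fun z => AS.Contact P z with hm
  have hne : P.derivative.map (algebraMap ℝ ℂ) ≠ 0 := by
    rw [Ne, Polynomial.map_eq_zero]
    exact hne'
  have hcon' : ∀ z ∈ m, AS.Contact P z ∧ aeval z P.derivative = 0 := by
    intro z hz
    rw [hm, Multiset.mem_filter] at hz
    exact ⟨hz.2, (mem_aroots.1 hz.1).2⟩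
  have hnd : m.Nodup := by
    rw [Multiset.nodup_iff_count_le_one]
    intro z
    by_cases hz : z ∈ m
    · obtain ⟨⟨hz1, hz2, hz3, hz4⟩, hz5⟩ := hcon' z hz
      refine (Multiset.count_le_of_le z (Multiset.filter_le _ _)).trans ?_
      rw [aroots, count_roots]
      by_contra hlt
      push Not at hlt
      rw [one_lt_rootMultiplicity_iff_isRoot hne] at hlt
      have hr := AS.aeval_real hz1 hz5
      have hsimple : P.derivative.derivative.eval z.re ≠ 0 := (hcon z.re ⟨hz2, hz3⟩ hr).2
      apply hsimple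
      refine AS.aeval_real hz1 ?_
      have := hlt.2
      rw [derivative_map, IsRoot, eval_map_algebraMap] at this
      exact this
    · rw [Multiset.count_eq_zero_of_notMem hz]
      exact Nat.zero_le _
  have h1 : m.card = m.toFinset.card := (Multiset.toFinset_card_of_nodup hnd).symm
  have hinj : Set.InjOn (fun z : ℂ => z.re) (m.toFinset : Set ℂ) := by
    intro z hz w hw hzw
    have h2 := (hcon' z (by simpa using hz)).1.1
    have h3 := (hcon' w (by simpa using hw)).1.1
    exact Complex.ext hzw (by rw [h2, h3])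
  rw [h1, ← Finset.card_image_of_injOn hinj]
  apply Finset.card_le_card
  intro x hx
  rw [Finset.mem_image] at hx
  obtain ⟨z, hz, rfl⟩ := hx
  obtain ⟨hz1, hz2, hz3, hz4⟩ := (hcon' z (by simpa using hz)).1
  rw [Finset.mem_filter, hS]
  exact ⟨⟨⟨hz2.le, hz3.le⟩, hz4⟩, hz2.ne', hz3.ne⟩

open Classical in
theorem i1_exc (hne' : P.derivative ≠ 0)
    (hreal : ∀ z : ℂ, aeval z P.derivative = 0 → z.im = 0)
    (hcon : ∀ c ∈ Ioo (-1 : ℝ) 1, P.derivative.eval c = 0 →
      |P.eval c| = 1 ∧ P.derivative.derivative.eval c ≠ 0)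
    (hpair : ∀ y1 y2 : ℝ, 1 ≤ |y1| → 1 ≤ |y2| → ¬ (X - C y1) * (X - C y2) ∣ P.derivative) :
    ((P.derivative.aroots ℂ).filter fun z => ¬ AS.Contact P z).card ≤ 1 := by
  by_contra hcard
  rw [not_le] at hcard
  set m := (P.derivative.aroots ℂ).filter fun z => ¬ AS.Contact P z with hm
  obtain ⟨z, hz⟩ := Multiset.card_pos_iff_exists_mem.1 (by omega : 0 < m.card)
  obtain ⟨s, hs⟩ := Multiset.exists_cons_of_mem hz
  have hsc : 0 < s.card := by
    rw [hs, Multiset.card_cons] at hcard
    omega
  obtain ⟨w, hw⟩ := Multiset.card_pos_iff_exists_mem.1 hsc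
  obtain ⟨t, ht⟩ := Multiset.exists_cons_of_mem hw
  have hwm : w ∈ m := by
    rw [hs]
    exact Multiset.mem_cons_of_mem hw
  have hz' := Multiset.mem_filter.1 hz
  have hw' := Multiset.mem_filter.1 hwm
  obtain ⟨hz1, -, hz2⟩ := i1_root hreal hcon (mem_aroots.1 hz'.1).2
  obtain ⟨hw1, -, hw2⟩ := i1_root hreal hcon (mem_aroots.1 hw'.1).2
  refine hpair z.re w.re (hz2.resolve_left hz'.2) (hw2.resolve_left hw'.2) ?_
  have hle : z ::ₘ w ::ₘ 0 ≤ P.derivative.aroots ℂ := by
    calc z ::ₘ w ::ₘ 0 ≤ m := by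
          rw [hs, ht]
          exact Multiset.cons_le_cons _ (Multiset.cons_le_cons _ (Multiset.zero_le _))
      _ ≤ _ := Multiset.filter_le _ _
  have hne : P.derivative.map (algebraMap ℝ ℂ) ≠ 0 := by
    rw [Ne, Polynomial.map_eq_zero]
    exact hne'
  have hd := (Multiset.prod_X_sub_C_dvd_iff_le_roots hne (z ::ₘ w ::ₘ 0)).2 hle
  rw [← Polynomial.map_dvd_map' (algebraMap ℝ ℂ)]
  have ez : (algebraMap ℝ ℂ) z.re = z := Complex.ext (by simp) (by simp [hz1])
  have ew : (algebraMap ℝ ℂ) w.re = w := Complex.ext (by simp) (by simp [hw1])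
  simpa [ez, ew] using hd

theorem i1 : I1 := by
  classical
  intro n a b P hn ha hab hb h hreal hcon hpair hdeg1 hdeg2
  have hn1 : 1 ≤ n := by omega
  have hne := AS.ext_ne h hn1 hab
  obtain ⟨S, hS⟩ := AS.exists_contactSet hne
  have hpd : P.natDegree ≤ n := natDegree_le_of_degree_le h.deg
  refine AS.alt_of_finset hS (fun c hc hc0 => (hcon c hc hc0).1) hn1 ?_
  have h1 := i1_card hne hcon hS
  have h2 := Multiset.filter_add_not (fun z => AS.Contact P z) (P.derivative.aroots ℂ)
  have h3 := congrArg Multiset.card h2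
  rw [Multiset.card_add, AS.card_crit] at h3
  have h4 := i1_exc hne hreal hcon hpair
  set k := ((P.derivative.aroots ℂ).filter fun z => AS.Contact P z).card with hk
  set k' := ((P.derivative.aroots ℂ).filter fun z => ¬ AS.Contact P z).card with hk'
  have hfree : (|P.eval (-1)| ≠ 1 ∨ |P.eval 1| ≠ 1) → k' = 0 := by
    intro hf
    rw [hk', Multiset.card_eq_zero, Multiset.filter_eq_nil]
    intro z hz
    rw [not_not]
    have hz0 := (mem_aroots.1 hz).2
    have h5 : AS.Disc a b z ∨ AS.Contact P z := by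
      rcases hf with hf | hf
      · exact AS.free_all h hn1 ha.le hab hb.le hf hz0
      · exact AS.free_all' h hn1 ha.le hab hb.le hf hz0
    rcases h5 with h5 | h5
    · obtain ⟨h6, h7, -⟩ := AS.lens_re hab (AS.disc_lens hab h5)
      obtain ⟨h8, h9, -⟩ := i1_root hreal hcon hz0
      exact ⟨h8, by linarith, by linarith, (hcon z.re ⟨by linarith, by linarith⟩ h9).1⟩
    · exact h5
  by_cases hm : |P.eval (-1)| = 1
  · by_cases hp : |P.eval 1| = 1
    · have h5 : insert (-1) (insert 1 (S.filter fun x => x ≠ -1 ∧ x ≠ 1)) ⊆ S := by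
        intro x hx
        rw [Finset.mem_insert, Finset.mem_insert, Finset.mem_filter] at hx
        rcases hx with rfl | rfl | hx
        · exact (hS _).2 ⟨⟨le_rfl, by norm_num⟩, hm⟩
        · exact (hS _).2 ⟨⟨by norm_num, le_rfl⟩, hp⟩
        · exact hx.1
      have h6 := Finset.card_le_card h5
      rw [Finset.card_insert_of_notMem (by
        rw [Finset.mem_insert, Finset.mem_filter]
        rintro (h5 | h5)
        · norm_num at h5
        · exact h5.2.1 rfl), Finset.card_insert_of_notMem (by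
        rw [Finset.mem_filter]
        rintro h5
        exact h5.2.2 rfl)] at h6
      by_cases hd : P.natDegree + 1 ≤ n
      · have h7 : k' = 0 := by
          rw [hk', Multiset.card_eq_zero, Multiset.filter_eq_nil]
          intro z hz
          rw [not_not]
          obtain ⟨h8, h9, h10⟩ := i1_root hreal hcon (mem_aroots.1 hz).2
          exact h10.resolve_right (fun h11 => hdeg1 hd z.re h11 h9)
        omega
      · omega
    · have h5 : insert (-1) (S.filter fun x => x ≠ -1 ∧ x ≠ 1) ⊆ S := by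
        intro x hx
        rw [Finset.mem_insert, Finset.mem_filter] at hx
        rcases hx with rfl | hx
        · exact (hS _).2 ⟨⟨le_rfl, by norm_num⟩, hm⟩
        · exact hx.1
      have h6 := Finset.card_le_card h5
      rw [Finset.card_insert_of_notMem (by
        rw [Finset.mem_filter]
        rintro h5
        exact h5.2.1 rfl)] at h6
      have h7 := hfree (Or.inr hp)
      have h8 := AS.free_natDegree h hn1 hab (Or.inr hp)
      omega
  · have hp : |P.eval 1| = 1 := (AS.ends h hn1 hab).resolve_left hm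
    have h5 : insert 1 (S.filter fun x => x ≠ -1 ∧ x ≠ 1) ⊆ S := by
      intro x hx
      rw [Finset.mem_insert, Finset.mem_filter] at hx
      rcases hx with rfl | hx
      · exact (hS _).2 ⟨⟨by norm_num, le_rfl⟩, hp⟩
      · exact hx.1
    have h6 := Finset.card_le_card h5
    rw [Finset.card_insert_of_notMem (by
      rw [Finset.mem_filter]
      rintro h5
      exact h5.2.2 rfl)] at h6
    have h7 := hfree (Or.inl hm)
    have h8 := AS.free_natDegree h hn1 hab (Or.inl hm)
    omega

end Pool.Agent.Helper10.AL
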