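import Pool.Agent.Helper10.AL.St3
import Pool.Agent.Helper10.AL.P.I1

/-!
Arc length of polynomials over compact windows, large degree: piece I1g (windows which may
contain an end point of `[-1, 1]`).
-/

set_option autoImplicit false

namespace Pool.Agent.Helper10.AL

open Polynomial Set Real MeasureTheory intervalIntegral
open Pool.Agent.Helper40.AS (arc Bdd Ext quad)
open Pool.Agent.Helper40

theorem i1g : I1g := by
  classical
  intro n a b P hn ha hab hb h hreal hcon hpair hdeg1 hdeg2
  have hn1 : 1 ≤ n := by omega
  have hne := AS.ext_ne h hn1 hab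
  obtain ⟨S, hS⟩ := AS.exists_contactSet hne
  have hpd : P.natDegree ≤ n := natDegree_le_of_degree_le h.deg
  refine AS.alt_of_finset hS (fun c hc hc0 => (hcon c hc hc0).1) hn1 ?_
  have h1 := i1_card hne hcon hS
  have h2 := Multiset.filter_add_not (fun z => AS.Contact P z) (P.derivative.aroots ℂ)
  have h3 := congrArg Multiset.card h2
  rw [Multiset.card_add, AS.card_crit] at h3
  have h4 := i1_exc hne hreal hcon hpair
  set k := ((P.derivative.aroots ℂ).filter fun z => AS.Contact P z).card with hk
  set k' := ((P.derivative.aroots ℂ).filter fun z => ¬ AS.Contact P z).card with hk'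
  have hfree : (|P.eval (-1)| ≠ 1 ∨ |P.eval 1| ≠ 1) → k' = 0 := by
    intro hf
    rw [hk', Multiset.card_eq_zero, Multiset.filter_eq_nil]
    intro z hz
    rw [not_not]
    have hz0 := (mem_aroots.1 hz).2
    have h5 : AS.Disc a b z ∨ AS.Contact P z := by
      rcases hf with hf | hf
      · exact AS.free_all h hn1 ha hab hb hf hz0
      · exact AS.free_all' h hn1 ha hab hb hf hz0
    rcases h5 with h5 | h5
    · obtain ⟨h6, h7, -⟩ := AS.lens_re hab (AS.disc_lens hab h5)
      obtain ⟨h8, h9, -⟩ := i1_root hreal hcon hz0
      exact ⟨h8, by linarith, by linarith, (hcon z.re ⟨by linarith, by linarith⟩ h9).1⟩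
    · exact h5
  by_cases hm : |P.eval (-1)| = 1
  · by_cases hp : |P.eval 1| = 1
    · have h5 : insert (-1) (insert 1 (S.filter fun x => x ≠ -1 ∧ x ≠ 1)) ⊆ S := by
        intro x hx
        rw [Finset.mem_insert, Finset.mem_insert, Finset.mem_filter] at hx
        rcases hx with rfl | rfl | hx
        · exact (hS _).2 ⟨⟨le_rfl, by norm_num⟩, hm⟩
        · exact (hS _).2 ⟨⟨by norm_num, le_rfl⟩, hp⟩
        · exact hx.1
      have h6 := Finset.card_le_card h5
      rw [Finset.card_insert_of_notMem (by
        rw [Finset.mem_insert, Finset.mem_filter]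
        rintro (h5 | h5)
        · norm_num at h5
        · exact h5.2.1 rfl), Finset.card_insert_of_notMem (by
        rw [Finset.mem_filter]
        rintro h5
        exact h5.2.2 rfl)] at h6
      by_cases hd : P.natDegree + 1 ≤ n
      · have h7 : k' = 0 := by
          rw [hk', Multiset.card_eq_zero, Multiset.filter_eq_nil]
          intro z hz
          rw [not_not]
          obtain ⟨h8, h9, h10⟩ := i1_root hreal hcon (mem_aroots.1 hz).2
          exact h10.resolve_right (fun h11 => hdeg1 hd z.re h11 h9)
        omega
      · omega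
    · have h5 : insert (-1) (S.filter fun x => x ≠ -1 ∧ x ≠ 1) ⊆ S := by
        intro x hx
        rw [Finset.mem_insert, Finset.mem_filter] at hx
        rcases hx with rfl | hx
        · exact (hS _).2 ⟨⟨le_rfl, by norm_num⟩, hm⟩
        · exact hx.1
      have h6 := Finset.card_le_card h5
      rw [Finset.card_insert_of_notMem (by
        rw [Finset.mem_filter]
        rintro h5
        exact h5.2.1 rfl)] at h6
      have h7 := hfree (Or.inr hp)
      have h8 := AS.free_natDegree h hn1 hab (Or.inr hp)
      omega
  · have hp : |P.eval 1| = 1 := (AS.ends h hn1 hab).resolve_left hm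
    have h5 : insert 1 (S.filter fun x => x ≠ -1 ∧ x ≠ 1) ⊆ S := by
      intro x hx
      rw [Finset.mem_insert, Finset.mem_filter] at hx
      rcases hx with rfl | hx
      · exact (hS _).2 ⟨⟨by norm_num, le_rfl⟩, hp⟩
      · exact hx.1
    have h6 := Finset.card_le_card h5
    rw [Finset.card_insert_of_notMem (by
      rw [Finset.mem_filter]
      rintro h5
      exact h5.2.2 rfl)] at h6
    have h7 := hfree (Or.inl hm)
    have h8 := AS.free_natDegree h hn1 hab (Or.inl hm)
    omega

end Pool.Agent.Helper10.AL
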