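import Pool.Agent.Helper10.AL.St

/-!
Piece K1: the first order condition for real critical points in the window.
-/

set_option autoImplicit false

namespace Pool.Agent.Helper10.AL

open Polynomial Set Real MeasureTheory intervalIntegral
open Pool.Agent.Helper40.AS (arc Bdd Ext)

theorem k1_frac0 (u : ℝ) (hu : 0 < u) : 1 - u / √(1 + u ^ 2) ≤ 1 / (1 + u ^ 2) ∧
    0 ≤ 1 - u / √(1 + u ^ 2) := by
  have h0 : 0 < 1 + u ^ 2 := by positivity
  have hs : 0 < √(1 + u ^ 2) := Real.sqrt_pos.2 h0
  have hq : 1 + u ^ 2 = √(1 + u ^ 2) ^ 2 := (Real.sq_sqrt h0.le).symm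
  have hus : u ≤ √(1 + u ^ 2) := by
    rw [Real.le_sqrt hu.le h0.le]; linarith
  generalize √(1 + u ^ 2) = s at hs hq hus
  constructor
  · rw [hq, sub_le_iff_le_add, div_add_div _ _ (by positivity) (by positivity),
      le_div_iff₀ (by positivity)]
    nlinarith [mul_nonneg (mul_nonneg hs.le hu.le) (sub_nonneg.2 hus)]
  · rw [sub_nonneg, div_le_one hs]
    exact hus

theorem k1_frac (t : ℝ) : |(SignType.sign t : ℝ) - t / √(1 + t ^ 2)| ≤ 1 / (1 + t ^ 2) := by
  rcases lt_trichotomy t 0 with ht | ht | ht
  · have := k1_frac0 (-t) (by linarith)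
    rw [neg_sq] at this
    rw [sign_neg ht]
    have e' : (((-1 : SignType)) : ℝ) - t / √(1 + t ^ 2) = -(1 - -t / √(1 + t ^ 2)) := by
      simp; ring
    rw [e', abs_neg, abs_of_nonneg this.2]
    exact this.1
  · subst ht
    simp
  · have := k1_frac0 t ht
    rw [sign_pos ht]
    rw [SignType.coe_one, abs_of_nonneg this.2]
    exact this.1

theorem k1_meas {p : ℝ → ℝ} (hp : Measurable p) :
    Measurable fun x => (SignType.sign (p x) : ℝ) := by
  have e : (fun x => (SignType.sign (p x) : ℝ)) =
      fun x => if 0 < p x then (1 : ℝ) else if p x < 0 then -1 else 0 := by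
    ext x
    rcases lt_trichotomy (p x) 0 with h | h | h
    · rw [sign_neg h, if_neg (by linarith), if_pos h]; simp
    · rw [h]; simp
    · rw [sign_pos h, if_pos h]; simp
  rw [e]
  exact Measurable.ite (measurableSet_lt measurable_const hp) measurable_const
    (Measurable.ite (measurableSet_lt hp measurable_const) measurable_const measurable_const)

theorem k1_sle (s : SignType) : |(s : ℝ)| ≤ 1 := by
  cases s <;> simp

theorem k1_int {p g : ℝ → ℝ} (hp : Measurable p) (hg : Continuous g) (u v : ℝ) :
    IntervalIntegrable (fun x => (SignType.sign (p x) : ℝ) * g x) volume u v := by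
  have h1 : IntervalIntegrable g volume u v := hg.intervalIntegrable _ _
  refine h1.mono_fun ((k1_meas hp).mul hg.measurable).aestronglyMeasurable
    (Filter.Eventually.of_forall fun x => ?_)
  show ‖(SignType.sign (p x) : ℝ) * g x‖ ≤ ‖g x‖
  rw [norm_mul]
  exact mul_le_of_le_one_left (norm_nonneg _) (k1_sle _)

theorem k1_abs (F : ℝ[X]) (p : ℝ → ℝ) (hp : Measurable p) {u v : ℝ} (huv : u ≤ v)
    (h : ∀ x ∈ Ioo u v, F.eval x ≠ 0 → SignType.sign (p x) = SignType.sign (F.eval x)) :
    (∫ x in u..v, (SignType.sign (p x) : ℝ) * F.derivative.eval x) =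
        |F.eval v| - |F.eval u| := by
  by_cases hF : F = 0
  · subst hF
    simp
  refine integral_eq_of_hasDerivAt_off_countable_of_le (fun x => |F.eval x|) _ huv
    (s := {x | F.eval x = 0}) ?_ ?_ ?_ ?_
  · refine Set.Finite.countable ?_
    refine (F.roots.toFinset.finite_toSet).subset fun x hx => ?_
    simpa [hF] using hx
  · exact (F.continuous.abs).continuousOn
  · intro x hx
    have hx0 : F.eval x ≠ 0 := hx.2
    rw [h x hx.1 hx0]
    exact (hasDerivAt_abs hx0).comp x (F.hasDerivAt x)
  · exact k1_int hp F.derivative.continuous _ _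

theorem k1 : K1 := by
  intro n a b c P R hn ha hac hcb hb hE hPR hc
  set G : ℝ[X] := (1 - X ^ 2) * R with hG
  have hGe : ∀ x, G.eval x = (1 - x ^ 2) * R.eval x := by
    intro x; rw [hG]; simp
  have hPe : ∀ x, P.derivative.eval x = (x - c) * R.eval x := by
    intro x; rw [hPR]; simp
  have hab : a ≤ b := by linarith
  have hGd : G.degree ≤ n := by
    by_cases hR : R = 0
    · rw [hG, hR]; simp
    · have h1 : P.natDegree ≤ n := natDegree_le_of_degree_le hE.deg
      have h2 : P.derivative.natDegree = R.natDegree + 1 := by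
        rw [hPR, natDegree_mul (X_sub_C_ne_zero c) hR, natDegree_X_sub_C, add_comm]
      have h3 : P.derivative.natDegree ≤ P.natDegree - 1 := natDegree_derivative_le P
      have h4 : G.natDegree ≤ 2 + R.natDegree := by
        rw [hG]
        refine natDegree_mul_le.trans (Nat.add_le_add_right ?_ _)
        compute_degree
      exact (degree_le_natDegree).trans (by exact_mod_cast (by omega : G.natDegree ≤ n))
  have hcon : ∀ x ∈ Icc (-1 : ℝ) 1, |P.eval x| = 1 → G.eval x = 0 := by
    intro x hx h1
    rw [hGe]
    rcases eq_or_lt_of_le hx.1 with h | h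
    · rw [← h]; ring
    rcases eq_or_lt_of_le hx.2 with h' | h'
    · rw [h']; ring
    have h2 := Pool.Agent.Helper40.AS.contact_int hE.bdd ⟨h, h'⟩ h1
    rw [hPe] at h2
    rcases mul_eq_zero.1 h2 with h3 | h3
    · exfalso
      have : x = c := by linarith
      rw [this] at h1
      exact hc h1
    · rw [h3, mul_zero]
  have k1 := Pool.Agent.Helper40.AS.kkt hE hab hGd (fun x hx h => by rw [hcon x hx h]; simp)
  have k2 := Pool.Agent.Helper40.AS.kkt hE hab (G := -G) (by rwa [degree_neg])
    (fun x hx h => by rw [eval_neg, hcon x hx h]; simp)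
  have k3 : (∫ x in a..b, P.derivative.eval x * G.derivative.eval x /
      √(1 + (P.derivative.eval x) ^ 2)) = 0 := by
    apply le_antisymm k1
    have : (∫ x in a..b, P.derivative.eval x * (-G).derivative.eval x /
        √(1 + (P.derivative.eval x) ^ 2)) = -(∫ x in a..b, P.derivative.eval x *
          G.derivative.eval x / √(1 + (P.derivative.eval x) ^ 2)) := by
      rw [← intervalIntegral.integral_neg]
      congr 1
      ext x
      rw [derivative_neg, eval_neg]
      ring
    rw [this] at k2
    linarith
  have hpm : Measurable fun x => P.derivative.eval x := P.derivative.continuous.measurable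
  have s1 := k1_abs G (fun x => P.derivative.eval x) hpm hcb.le (by
    intro x hx hx0
    have h1 : 0 < x - c := by linarith [hx.1]
    have h2 : 0 < 1 - x ^ 2 := by nlinarith [hx.1, hx.2]
    show SignType.sign (P.derivative.eval x) = _
    rw [hPe, hGe, sign_mul, sign_mul, sign_pos h1, sign_pos h2])
  have s2 := k1_abs G (fun x => -P.derivative.eval x) hpm.neg hac.le (by
    intro x hx hx0
    have h1 : x - c < 0 := by linarith [hx.2]
    have h2 : 0 < 1 - x ^ 2 := by nlinarith [hx.1, hx.2]
    show SignType.sign (-P.derivative.eval x) = _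
    rw [hPe, hGe, ← neg_mul, sign_mul, sign_mul, sign_pos (neg_pos.2 h1), sign_pos h2])
  have s2' : (∫ x in a..c, (SignType.sign (P.derivative.eval x) : ℝ) * G.derivative.eval x) =
      |G.eval a| - |G.eval c| := by
    rw [← neg_inj, ← intervalIntegral.integral_neg, neg_sub, ← s2]
    congr 1
    ext x
    rw [Left.sign_neg]
    simp
  have hi := fun u v => k1_int hpm G.derivative.continuous u v
  have s3 : (∫ x in a..b, (SignType.sign (P.derivative.eval x) : ℝ) * G.derivative.eval x) =
      |G.eval a| + |G.eval b| - 2 * |G.eval c| := by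
    rw [← integral_add_adjacent_intervals (hi a c) (hi c b), s1, s2']
    ring
  have hcont : Continuous fun x => P.derivative.eval x * G.derivative.eval x /
      √(1 + (P.derivative.eval x) ^ 2) := by
    refine Continuous.div (by fun_prop) (by fun_prop) fun x => ?_
    exact (Pool.Agent.Helper40.AS.s_pos P x).ne'
  have hcont2 : Continuous fun x => |G.derivative.eval x| / (1 + P.derivative.eval x ^ 2) := by
    refine Continuous.div (by fun_prop) (by fun_prop) fun x => ?_
    positivity
  have s4 : (∫ x in a..b, (P.derivative.eval x * G.derivative.eval x /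
      √(1 + (P.derivative.eval x) ^ 2) - (SignType.sign (P.derivative.eval x) : ℝ) *
        G.derivative.eval x)) ≤
      ∫ x in a..b, |G.derivative.eval x| / (1 + P.derivative.eval x ^ 2) := by
    refine integral_mono_on hab ((hcont.intervalIntegrable _ _).sub (hi a b))
      (hcont2.intervalIntegrable _ _) fun x _ => ?_
    have e : P.derivative.eval x * G.derivative.eval x /
      √(1 + (P.derivative.eval x) ^ 2) - (SignType.sign (P.derivative.eval x) : ℝ) *
        G.derivative.eval x = -(((SignType.sign (P.derivative.eval x) : ℝ) -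
          P.derivative.eval x / √(1 + (P.derivative.eval x) ^ 2)) * G.derivative.eval x) := by
      ring
    rw [e]
    refine (neg_le_abs _).trans ?_
    rw [abs_mul]
    refine (mul_le_mul_of_nonneg_right (k1_frac _) (abs_nonneg _)).trans (le_of_eq ?_)
    ring
  rw [integral_sub (hcont.intervalIntegrable _ _) (hi a b), k3, s3] at s4
  have e1 : |G.eval a| = (1 - a ^ 2) * |R.eval a| := by
    rw [hGe, abs_mul, abs_of_nonneg]; nlinarith
  have e2 : |G.eval b| = (1 - b ^ 2) * |R.eval b| := by
    rw [hGe, abs_mul, abs_of_nonneg]; nlinarith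
  have e3 : |G.eval c| = (1 - c ^ 2) * |R.eval c| := by
    rw [hGe, abs_mul, abs_of_nonneg]; nlinarith
  rw [← e1, ← e2, ← e3]
  linarith

end Pool.Agent.Helper10.AL
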