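import Pool.Agent.Helper10.AL.St3

/-!
Arc length of polynomials over windows with an end point of `[-1,1]`, large degree: piece K2u.
-/

set_option autoImplicit false

namespace Pool.Agent.Helper10.AL

open Polynomial Set Real MeasureTheory intervalIntegral
open Pool.Agent.Helper40.AS (arc Bdd Ext)

noncomputable section

/-- lower bound for the difference of cosines -/
theorem k2u_cos {θ φ : ℝ} (hθ : θ ∈ Icc 0 π) (hφ : φ ∈ Icc 0 π) :
    sin θ * |θ - φ| ≤ π * |cos θ - cos φ| := by
  have h1 : cos θ - cos φ = -2 * sin ((θ + φ) / 2) * sin ((θ - φ) / 2) := Real.cos_sub_cos θ φ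
  have hs0 : 0 ≤ sin θ := Real.sin_nonneg_of_nonneg_of_le_pi hθ.1 hθ.2
  have hsφ : 0 ≤ sin φ := Real.sin_nonneg_of_nonneg_of_le_pi hφ.1 hφ.2
  have h2 : sin θ / 2 ≤ sin ((θ + φ) / 2) := by
    have hc := strictConcaveOn_sin_Icc.concaveOn.2 hθ hφ
      (by norm_num : (0 : ℝ) ≤ 1 / 2) (by norm_num : (0 : ℝ) ≤ 1 / 2) (by norm_num)
    simp only [smul_eq_mul] at hc
    have e : 1 / 2 * θ + 1 / 2 * φ = (θ + φ) / 2 := by ring
    rw [e] at hc
    linarith
  have h3 : |θ - φ| / π ≤ |sin ((θ - φ) / 2)| := by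
    have h4 : |(θ - φ) / 2| ≤ π / 2 := by
      rw [abs_le]; constructor <;> linarith [hθ.1, hθ.2, hφ.1, hφ.2]
    have h5 := Real.mul_abs_le_abs_sin h4
    rw [abs_div, abs_of_pos (by norm_num : (0 : ℝ) < 2)] at h5
    calc |θ - φ| / π = 2 / π * (|θ - φ| / 2) := by field_simp
      _ ≤ _ := h5
  have hpi := Real.pi_pos
  have h6 : |cos θ - cos φ| = 2 * sin ((θ + φ) / 2) * |sin ((θ - φ) / 2)| := by
    rw [h1, abs_mul, abs_mul, abs_neg, abs_of_pos (by norm_num : (0 : ℝ) < 2),
      abs_of_nonneg (by linarith : 0 ≤ sin ((θ + φ) / 2))]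
  rw [h6]
  calc sin θ * |θ - φ| = π * (sin θ * (|θ - φ| / π)) := by field_simp
    _ ≤ π * (2 * sin ((θ + φ) / 2) * |sin ((θ - φ) / 2)|) := by
      refine mul_le_mul_of_nonneg_left ?_ hpi.le
      refine mul_le_mul (by linarith) h3 (by positivity) (by linarith)

/-- the first derivative is Lipschitz -/
theorem k2u_lip {n : ℕ} {P : ℝ[X]} (hA1 : A1) (hA2 : A2) (hn : 1 ≤ n) (hdeg : P.natDegree ≤ n)
    (hb : Bdd P) (θ φ : ℝ) (h0 : deriv (qq P) φ = 0) :
    |deriv (qq P) θ| ≤ (n : ℝ) ^ 2 * |θ - φ| := by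
  have hTB : TB n (qq P) := hA2.2.1 n P hdeg hb
  obtain ⟨-, hB⟩ := hA2.1 n (qq P) hn hTB
  have hC : ContDiff ℝ 2 (qq P) := by exact_mod_cast (hA1.1 n (qq P) hTB.1).1 2
  have hD : Differentiable ℝ (deriv (qq P)) := by
    have h1 : ContDiff ℝ 1 (deriv (qq P)) := by
      have h2 : ContDiff ℝ (1 + 1) (qq P) := by
        have e : (1 + 1 : WithTop ℕ∞) = 2 := by norm_num
        rw [e]; exact hC
      exact ((contDiff_succ_iff_deriv).1 h2).2.2
    exact h1.differentiable (by norm_num)
  have h := Convex.norm_image_sub_le_of_norm_deriv_le (𝕜 := ℝ) (f := deriv (qq P))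
    (C := (n : ℝ) ^ 2) (s := univ) (x := φ) (y := θ) (fun x _ => hD x)
    (fun x _ => by rw [Real.norm_eq_abs]; exact (hB x).2.2.2.1) convex_univ trivial trivial
  rw [h0, sub_zero, Real.norm_eq_abs, Real.norm_eq_abs] at h
  exact h

theorem k2u (hA1 : A1) (hA2 : A2) : K2u := by
  refine ⟨40, by norm_num, ?_⟩
  intro n P R θc θ hn hdeg hb hθc hθ hR
  have hn1 : (1 : ℝ) ≤ n := by exact_mod_cast hn
  have hn0 : (0 : ℝ) < n := by linarith
  have hpi := Real.pi_pos
  have hpi4 := Real.pi_le_four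
  have hpi3 : π < 3.15 := Real.pi_lt_d2
  have hTB : TB n (qq P) := hA2.2.1 n P hdeg hb
  obtain ⟨-, hB⟩ := hA2.1 n (qq P) hn hTB
  set T : ℝ[X] := (1 - X ^ 2) * R with hT
  -- degree
  have hTdeg : T.natDegree ≤ n := by
    rcases eq_or_ne R 0 with h0 | h0
    · rw [hT, h0, mul_zero]; simp
    · have h1 : P.derivative.natDegree = R.natDegree + 1 := by
        rw [hR, Polynomial.natDegree_mul (X_sub_C_ne_zero _) h0, natDegree_X_sub_C, add_comm]
      have h2 : P.derivative.natDegree ≤ P.natDegree - 1 := natDegree_derivative_le P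
      have h3 : (1 - X ^ 2 : ℝ[X]).natDegree ≤ 2 := by
        refine (natDegree_sub_le _ _).trans ?_
        simp
      have h4 : T.natDegree ≤ 2 + R.natDegree := by
        rw [hT]; exact (natDegree_mul_le).trans (by omega)
      omega
  -- values
  have eT : ∀ t : ℝ, T.eval (cos t) = sin t ^ 2 * R.eval (cos t) := by
    intro t
    rw [hT, eval_mul]
    have h1 : (1 - X ^ 2 : ℝ[X]).eval (cos t) = sin t ^ 2 := by
      simp only [eval_sub, eval_one, eval_pow, eval_X]
      linarith [Real.sin_sq_add_cos_sq t]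
    rw [h1]
  have eP1 : ∀ x : ℝ, P.derivative.eval x = (x - cos θc) * R.eval x := by
    intro x; rw [hR]; simp
  have eP2 : ∀ x : ℝ, P.derivative.derivative.eval x =
      R.eval x + (x - cos θc) * R.derivative.eval x := by
    intro x; rw [hR]; simp
  have eq1 : ∀ t : ℝ, deriv (qq P) t = -(sin t * ((cos t - cos θc) * R.eval (cos t))) := by
    intro t; rw [(hA2.2.2 P t).1, eP1]
  have q0 : deriv (qq P) θc = 0 := by rw [eq1]; ring
  have q00 : deriv (qq P) 0 = 0 := by rw [eq1, Real.sin_zero]; ring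
  have q01 : deriv (qq P) π = 0 := by rw [eq1, Real.sin_pi]; ring
  -- bound for `T`
  have hTb : ∀ t ∈ Icc 0 π, |T.eval (cos t)| ≤ 4 * (n : ℝ) ^ 2 := by
    intro t ht
    have hst : 0 ≤ sin t := Real.sin_nonneg_of_nonneg_of_le_pi ht.1 ht.2
    rcases eq_or_ne t θc with h | h
    · have h1 : T.eval (cos t) = deriv (deriv (qq P)) t := by
        rw [(hA2.2.2 P t).2, eT, eP1, eP2, h]; ring
      rw [h1]
      exact ((hB t).2.2.2.1).trans (by nlinarith)
    · rcases hst.eq_or_lt with h2 | h2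
      · rw [eT, ← h2]; simp
      · have hpos : 0 < |t - θc| := abs_pos.2 (sub_ne_zero.2 h)
        have hc := k2u_cos ht hθc
        have hcpos : 0 < |cos t - cos θc| := by
          have : 0 < π * |cos t - cos θc| := lt_of_lt_of_le (mul_pos h2 hpos) hc
          exact (mul_pos_iff_of_pos_left hpi).1 this
        have h3 : |T.eval (cos t)| * |cos t - cos θc| = sin t * |deriv (qq P) t| := by
          rw [← abs_mul, eT, eq1, abs_neg]
          have h4 : sin t ^ 2 * R.eval (cos t) * (cos t - cos θc) =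
            sin t * (sin t * ((cos t - cos θc) * R.eval (cos t))) := by ring
          rw [h4, abs_mul (sin t), abs_of_nonneg hst]
        have h4 := k2u_lip hA1 hA2 hn hdeg hb t θc q0
        have h5 : |T.eval (cos t)| * |cos t - cos θc| ≤ (4 * (n : ℝ) ^ 2) * |cos t - cos θc| := by
          rw [h3]
          calc sin t * |deriv (qq P) t| ≤ sin t * ((n : ℝ) ^ 2 * |t - θc|) :=
                mul_le_mul_of_nonneg_left h4 hst
            _ = (n : ℝ) ^ 2 * (sin t * |t - θc|) := by ring
            _ ≤ (n : ℝ) ^ 2 * (π * |cos t - cos θc|) :=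
                mul_le_mul_of_nonneg_left hc (by positivity)
            _ ≤ (n : ℝ) ^ 2 * (4 * |cos t - cos θc|) :=
                mul_le_mul_of_nonneg_left (mul_le_mul_of_nonneg_right hpi4 (abs_nonneg _))
                  (by positivity)
            _ = _ := by ring
        exact le_of_mul_le_mul_right h5 hcpos
  -- Bernstein for `T`
  have hBd : Bdd (C (1 / (4 * (n : ℝ) ^ 2)) * T) := by
    intro x hx
    have h1 : |T.eval x| ≤ 4 * (n : ℝ) ^ 2 := by
      have h2 := hTb (arccos x) ⟨arccos_nonneg x, arccos_le_pi x⟩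
      rwa [Real.cos_arccos hx.1 hx.2] at h2
    rw [eval_mul, eval_C, abs_mul, abs_of_pos (by positivity), div_mul_eq_mul_div, one_mul,
      div_le_one (by positivity)]
    exact h1
  have hdeg2 : (C (1 / (4 * (n : ℝ) ^ 2)) * T).natDegree ≤ n :=
    (natDegree_C_mul_le _ _).trans hTdeg
  have hS1 : |sin θ * T.derivative.eval (cos θ)| ≤ 4 * (n : ℝ) ^ 3 := by
    have hTB2 := hA2.2.1 n _ hdeg2 hBd
    obtain ⟨-, hB2⟩ := hA2.1 n _ hn hTB2
    have h1 := (hB2 θ).2.2.1
    rw [(hA2.2.2 _ θ).1, derivative_C_mul, eval_mul, eval_C, abs_neg] at h1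
    have h2 : sin θ * (1 / (4 * (n : ℝ) ^ 2) * T.derivative.eval (cos θ)) =
        (sin θ * T.derivative.eval (cos θ)) / (4 * (n : ℝ) ^ 2) := by ring
    rw [h2, abs_div, abs_of_pos (by positivity : (0 : ℝ) < 4 * (n : ℝ) ^ 2),
      div_le_iff₀ (by positivity)] at h1
    calc _ ≤ _ := h1
      _ = _ := by ring
  have hden : 0 < 1 + n * |θ - θc| := by positivity
  rw [le_div_iff₀ hden]
  -- far bound
  have hS2 : |sin θ * T.derivative.eval (cos θ)| * |θ - θc| ≤ 36 * (n : ℝ) ^ 2 := by
    have hst : 0 ≤ sin θ := Real.sin_nonneg_of_nonneg_of_le_pi hθ.1 hθ.2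
    rcases hst.eq_or_lt with h2 | h2
    · rw [← h2]; simp
    rcases eq_or_ne θ θc with h | h
    · rw [h]; simp
    have hpos : 0 < |θ - θc| := abs_pos.2 (sub_ne_zero.2 h)
    have hc := k2u_cos hθ hθc
    have hcpos : 0 < |cos θ - cos θc| := by
      have : 0 < π * |cos θ - cos θc| := lt_of_lt_of_le (mul_pos h2 hpos) hc
      exact (mul_pos_iff_of_pos_left hpi).1 this
    -- the relation between the derivatives
    have hrel : (sin θ * T.derivative.eval (cos θ)) * (cos θ - cos θc) =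
        cos θ * deriv (qq P) θ + sin θ * (deriv (deriv (qq P)) θ - T.eval (cos θ)) := by
      have h1 : (derivative (1 - X ^ 2 : ℝ[X])).eval (cos θ) = -(2 * cos θ) := by
        rw [derivative_sub, derivative_one, derivative_X_pow]
        simp
      have h3 : (1 - X ^ 2 : ℝ[X]).eval (cos θ) = sin θ ^ 2 := by
        simp only [eval_sub, eval_one, eval_pow, eval_X]
        linarith [Real.sin_sq_add_cos_sq θ]
      have h4 : T.derivative.eval (cos θ) = -(2 * cos θ) * R.eval (cos θ) +
          sin θ ^ 2 * R.derivative.eval (cos θ) := by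
        rw [hT, derivative_mul, eval_add, eval_mul, eval_mul, h1, h3]
      rw [h4, (hA2.2.2 P θ).2, (hA2.2.2 P θ).1, eT, eP1, eP2]
      ring
    have hT4 := hTb θ hθ
    have hq2 := (hB θ).2.2.2.1
    -- `|q'| ≤ 2 n² sin θ`
    have hq1 : |deriv (qq P) θ| ≤ 2 * (n : ℝ) ^ 2 * sin θ := by
      rcases le_total θ (π / 2) with h5 | h5
      · have h6 := k2u_lip hA1 hA2 hn hdeg hb θ 0 q00
        rw [sub_zero, abs_of_nonneg hθ.1] at h6
        have h7 := Real.mul_le_sin hθ.1 h5
        have h8 : θ ≤ 2 * sin θ := by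
          have : 2 / π * θ * π ≤ sin θ * π := mul_le_mul_of_nonneg_right h7 hpi.le
          have e : 2 / π * θ * π = 2 * θ := by field_simp
          rw [e] at this
          nlinarith
        calc _ ≤ _ := h6
          _ ≤ (n : ℝ) ^ 2 * (2 * sin θ) := mul_le_mul_of_nonneg_left h8 (by positivity)
          _ = _ := by ring
      · have h6 := k2u_lip hA1 hA2 hn hdeg hb θ π q01
        rw [abs_sub_comm θ π, abs_of_nonneg (by linarith [hθ.2] : 0 ≤ π - θ)] at h6
        have h7 := Real.mul_le_sin (by linarith [hθ.2] : 0 ≤ π - θ) (by linarith : π - θ ≤ π / 2)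
        rw [Real.sin_pi_sub] at h7
        have h8 : π - θ ≤ 2 * sin θ := by
          have : 2 / π * (π - θ) * π ≤ sin θ * π := mul_le_mul_of_nonneg_right h7 hpi.le
          have e : 2 / π * (π - θ) * π = 2 * (π - θ) := by field_simp
          rw [e] at this
          nlinarith
        calc _ ≤ _ := h6
          _ ≤ (n : ℝ) ^ 2 * (2 * sin θ) := mul_le_mul_of_nonneg_left h8 (by positivity)
          _ = _ := by ring
    have h9 : |sin θ * T.derivative.eval (cos θ)| * |cos θ - cos θc| ≤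
        7 * (n : ℝ) ^ 2 * sin θ := by
      rw [← abs_mul, hrel]
      refine (abs_add_le _ _).trans ?_
      have h10 : |cos θ * deriv (qq P) θ| ≤ 2 * (n : ℝ) ^ 2 * sin θ := by
        rw [abs_mul]
        calc |cos θ| * |deriv (qq P) θ| ≤ 1 * |deriv (qq P) θ| :=
              mul_le_mul_of_nonneg_right (abs_cos_le_one θ) (abs_nonneg _)
          _ = |deriv (qq P) θ| := one_mul _
          _ ≤ _ := hq1
      have h11 : |sin θ * (deriv (deriv (qq P)) θ - T.eval (cos θ))| ≤
          sin θ * (5 * (n : ℝ) ^ 2) := by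
        rw [abs_mul, abs_of_nonneg hst]
        refine mul_le_mul_of_nonneg_left ?_ hst
        refine (abs_sub _ _).trans ?_
        linarith
      linarith
    have h12 : sin θ * (|sin θ * T.derivative.eval (cos θ)| * |θ - θc|) ≤
        sin θ * (36 * (n : ℝ) ^ 2) := by
      calc sin θ * (|sin θ * T.derivative.eval (cos θ)| * |θ - θc|) =
          |sin θ * T.derivative.eval (cos θ)| * (sin θ * |θ - θc|) := by ring
        _ ≤ |sin θ * T.derivative.eval (cos θ)| * (π * |cos θ - cos θc|) :=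
            mul_le_mul_of_nonneg_left hc (abs_nonneg _)
        _ = π * (|sin θ * T.derivative.eval (cos θ)| * |cos θ - cos θc|) := by ring
        _ ≤ π * (7 * (n : ℝ) ^ 2 * sin θ) := mul_le_mul_of_nonneg_left h9 hpi.le
        _ ≤ 4 * (7 * (n : ℝ) ^ 2 * sin θ) := mul_le_mul_of_nonneg_right hpi4 (by positivity)
        _ ≤ _ := by nlinarith [mul_nonneg (by positivity : (0 : ℝ) ≤ (n : ℝ) ^ 2) hst]
    exact le_of_mul_le_mul_left h12 h2
  calc |sin θ * T.derivative.eval (cos θ)| * (1 + n * |θ - θc|) =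
      |sin θ * T.derivative.eval (cos θ)| +
        n * (|sin θ * T.derivative.eval (cos θ)| * |θ - θc|) := by ring
    _ ≤ 4 * (n : ℝ) ^ 3 + n * (36 * (n : ℝ) ^ 2) :=
        add_le_add hS1 (mul_le_mul_of_nonneg_left hS2 hn0.le)
    _ = 40 * (n : ℝ) ^ 3 := by ring

end

end Pool.Agent.Helper10.AL
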