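import Pool.Agent.Helper10.AL.St3

/-!
Arc length of polynomials over windows, large degree: piece K3u.
-/

set_option autoImplicit false

namespace Pool.Agent.Helper10.AL

open Polynomial Set Real MeasureTheory intervalIntegral
open Pool.Agent.Helper40.AS (arc Bdd Ext)

/-- the integral in the angle variable -/
theorem k3u_cov (P W : ℝ[X]) (a b : ℝ) (ha : -1 ≤ a) (hab : a ≤ b) (hb : b ≤ 1)
    (hd : ∀ θ : ℝ, deriv (qq P) θ = -(sin θ * P.derivative.eval (cos θ))) :
    (∫ x in a..b, |W.eval x| / (1 + P.derivative.eval x ^ 2)) ≤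
      ∫ t in (arccos b)..(arccos a),
        |sin t * W.eval (cos t)| * (1 / (1 + (deriv (qq P) t) ^ 2)) := by
  have hpos : ∀ y : ℝ, 0 < 1 + y ^ 2 := fun y => by positivity
  have hdc : Continuous fun t => deriv (qq P) t := by
    have : (fun t => deriv (qq P) t) = fun t => -(sin t * P.derivative.eval (cos t)) := by
      funext t
      exact hd t
    rw [this]
    fun_prop
  have hc : Continuous fun x : ℝ => |W.eval x| / (1 + P.derivative.eval x ^ 2) :=
    (W.continuous.abs).div (by fun_prop) fun x => (hpos _).ne'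
  have h1 := integral_comp_mul_deriv (a := arccos b) (b := arccos a) (f := cos)
    (f' := fun t => -sin t) (g := fun x : ℝ => |W.eval x| / (1 + P.derivative.eval x ^ 2))
    (fun t _ => hasDerivAt_cos t) (continuous_sin.neg).continuousOn hc
  rw [cos_arccos (by linarith) hb, cos_arccos ha (by linarith),
    intervalIntegral.integral_symm a b] at h1
  have h2 : (∫ x in a..b, |W.eval x| / (1 + P.derivative.eval x ^ 2)) =
      ∫ t in (arccos b)..(arccos a),
        (|W.eval (cos t)| / (1 + P.derivative.eval (cos t) ^ 2)) * sin t := by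
    rw [← neg_inj, ← h1, ← intervalIntegral.integral_neg]
    apply intervalIntegral.integral_congr
    intro t _
    show |W.eval (cos t)| / (1 + P.derivative.eval (cos t) ^ 2) * -sin t = _
    ring
  rw [h2]
  have hβα : arccos b ≤ arccos a := arccos_le_arccos hab
  apply intervalIntegral.integral_mono_on hβα
  · apply Continuous.intervalIntegrable
    exact (hc.comp continuous_cos).mul continuous_sin
  · apply Continuous.intervalIntegrable
    exact ((continuous_sin.mul (W.continuous.comp continuous_cos)).abs).mul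
      (continuous_const.div (by fun_prop) fun t => (hpos _).ne')
  · intro t ht
    have ht0 : 0 ≤ t := (arccos_nonneg b).trans ht.1
    have htπ : t ≤ π := ht.2.trans (arccos_le_pi a)
    have hs0 : 0 ≤ sin t := sin_nonneg_of_nonneg_of_le_pi ht0 htπ
    have hs1 : sin t ≤ 1 := sin_le_one t
    have h3 : (deriv (qq P) t) ^ 2 ≤ P.derivative.eval (cos t) ^ 2 := by
      rw [hd t, neg_sq, mul_pow]
      have h4 : sin t ^ 2 ≤ 1 := by nlinarith
      have h5 : 0 ≤ P.derivative.eval (cos t) ^ 2 := sq_nonneg _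
      nlinarith
    have h6 : 1 / (1 + P.derivative.eval (cos t) ^ 2) ≤ 1 / (1 + (deriv (qq P) t) ^ 2) :=
      one_div_le_one_div_of_le (hpos _) (by linarith)
    have h8 : 0 ≤ sin t * |W.eval (cos t)| := mul_nonneg hs0 (abs_nonneg _)
    have h9 : |sin t * W.eval (cos t)| = sin t * |W.eval (cos t)| := by
      rw [abs_mul, abs_of_nonneg hs0]
    rw [h9]
    calc |W.eval (cos t)| / (1 + P.derivative.eval (cos t) ^ 2) * sin t
        = sin t * |W.eval (cos t)| * (1 / (1 + P.derivative.eval (cos t) ^ 2)) := by ring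
      _ ≤ sin t * |W.eval (cos t)| * (1 / (1 + (deriv (qq P) t) ^ 2)) :=
          mul_le_mul_of_nonneg_left h6 h8

/-- end cells -/
theorem k3u_end (w g : ℝ → ℝ) (u v M : ℝ) (huv : u ≤ v) (hg0 : ∀ t, 0 ≤ g t)
    (hg1 : ∀ t, g t ≤ 1) (hM : ∀ t ∈ Icc u v, |w t| ≤ M) :
    (∫ t in u..v, |w t| * g t) ≤ M * (v - u) := by
  have h1 := intervalIntegral.norm_integral_le_of_norm_le_const (a := u) (b := v) (C := M)
    (f := fun t => |w t| * g t) (fun t ht => by
      rw [uIoc_of_le huv] at ht
      rw [Real.norm_eq_abs, abs_mul, abs_abs, abs_of_nonneg (hg0 t)]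
      calc |w t| * g t ≤ |w t| * 1 := mul_le_mul_of_nonneg_left (hg1 t) (abs_nonneg _)
        _ ≤ M := by rw [mul_one]; exact hM t ⟨ht.1.le, ht.2⟩)
  rw [abs_of_nonneg (by linarith)] at h1
  exact (le_abs_self _).trans h1

theorem k3u (hA1 : A1) (hA2 : A2) (hK1 : K1) (hK2u : K2u) (hM1 : M1) (hM2 : M2) : K3u := by
  obtain ⟨Kp, hKp0, hKW⟩ := hK2u
  obtain ⟨KM, hKM0, hKM⟩ := hM1
  obtain ⟨-, hA2b, hA2c⟩ := hA2
  refine ⟨24 * Kp * KM + 5 * Kp, by positivity, ?_⟩
  intro n a b θ ρ P hn2 ha hab' hb hE hθ hθ0 hθ1 hρ0 hρ2 hND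
  have hab : a ≤ b := hab'.le
  have hn1 : 1 ≤ n := by omega
  have hn0 : (0 : ℝ) < n := by exact_mod_cast (by omega : 0 < n)
  have hnR : (1 : ℝ) ≤ n := by exact_mod_cast hn1
  set α := arccos a with hα
  set β := arccos b with hβ
  have hcα : cos α = a := cos_arccos (by linarith) (by linarith)
  have hcβ : cos β = b := cos_arccos (by linarith) (by linarith)
  have hβ0 : 0 ≤ β := arccos_nonneg b
  have hαπ : α ≤ π := arccos_le_pi a
  have hβα : β ≤ α := arccos_le_arccos hab
  have hTB : TB n (qq P) := hA2b n P (natDegree_le_of_degree_le hE.deg) hE.bdd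
  have hd : ∀ t : ℝ, deriv (qq P) t = -(sin t * P.derivative.eval (cos t)) :=
    fun t => (hA2c P t).1
  -- the critical point
  set c := cos θ with hc
  have hθI : θ ∈ Icc β α := ⟨hθ.1.le, hθ.2.le⟩
  have hsθ : 0 < sin θ := sin_pos_of_pos_of_lt_pi (by linarith [hθ.1]) (by linarith [hθ.2])
  have hac : a < c := by
    rw [← hcα, hc]
    exact cos_lt_cos_of_nonneg_of_le_pi (by linarith [hθ.1]) hαπ hθ.2
  have hcb : c < b := by
    rw [← hcβ, hc]
    exact cos_lt_cos_of_nonneg_of_le_pi hβ0 (by linarith [hθ.2]) hθ.1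
  have hP'c : P.derivative.eval c = 0 := by
    have h1 := hd θ
    rw [hθ0, ← hc] at h1
    have h2 : sin θ * P.derivative.eval c = 0 := by linarith
    rcases mul_eq_zero.1 h2 with h3 | h3
    · linarith
    · exact h3
  obtain ⟨R, hR⟩ : (X - C c) ∣ P.derivative := dvd_iff_isRoot.2 hP'c
  have hk := hK1 n a b c P R hn1 (by linarith) hac hcb (by linarith) hE hR hθ1
  have hRe : ∀ x : ℝ, P.derivative.eval x = (x - c) * R.eval x := by
    intro x
    rw [hR]
    simp
  have hR2 : P.derivative.derivative.eval c = R.eval c := by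
    rw [hR]
    simp
  -- left side
  have hL : |deriv (deriv (qq P)) θ| = (1 - c ^ 2) * |R.eval c| := by
    rw [(hA2c P θ).2, ← hc, hP'c, hR2, mul_zero, sub_zero, abs_mul, abs_of_nonneg (sq_nonneg _),
      sin_sq]
  have hA : (1 - a ^ 2) * |R.eval a| = sin α * |deriv (qq P) α| / (c - a) := by
    have hsα : 0 ≤ sin α := sin_nonneg_of_nonneg_of_le_pi (by linarith) hαπ
    rw [hd α, hcα, abs_neg, abs_mul, abs_of_nonneg hsα, hRe a, abs_mul,
      abs_of_neg (by linarith : a - c < 0)]
    have h1 : c - a ≠ 0 := by linarith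
    have h2 : (1 - a ^ 2) = sin α ^ 2 := by rw [sin_sq, hcα]
    rw [h2]
    field_simp
    ring
  have hB : (1 - b ^ 2) * |R.eval b| = sin β * |deriv (qq P) β| / (b - c) := by
    have hsβ : 0 ≤ sin β := sin_nonneg_of_nonneg_of_le_pi hβ0 (by linarith)
    rw [hd β, hcβ, abs_neg, abs_mul, abs_of_nonneg hsβ, hRe b, abs_mul,
      abs_of_pos (by linarith : 0 < b - c)]
    have h1 : b - c ≠ 0 := by linarith
    have h2 : (1 - b ^ 2) = sin β ^ 2 := by rw [sin_sq, hcβ]
    rw [h2]
    field_simp
  rw [hA, hB, ← hL] at hk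
  -- the integral
  set W : ℝ[X] := ((1 - X ^ 2) * R).derivative with hW
  have hI := k3u_cov P W a b (by linarith) hab (by linarith) hd
  rw [← hα, ← hβ] at hI
  set g : ℝ → ℝ := fun t => 1 / (1 + (deriv (qq P) t) ^ 2) with hg
  set w : ℝ → ℝ := fun t => sin t * W.eval (cos t) with hw
  have hpos : ∀ y : ℝ, 0 < 1 + y ^ 2 := fun y => by positivity
  have hg0 : ∀ t, 0 ≤ g t := fun t => (one_div_pos.2 (hpos _)).le
  have hg1 : ∀ t, g t ≤ 1 := fun t => by
    rw [hg]
    show 1 / (1 + (deriv (qq P) t) ^ 2) ≤ 1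
    rw [div_le_one (hpos _)]
    have := sq_nonneg (deriv (qq P) t)
    linarith
  have hdc : Continuous fun t => deriv (qq P) t := by
    have : (fun t => deriv (qq P) t) = fun t => -(sin t * P.derivative.eval (cos t)) := by
      funext t
      exact hd t
    rw [this]
    fun_prop
  have hgc : Continuous g := continuous_const.div (by fun_prop) fun t => (hpos _).ne'
  have hwc : Continuous w := continuous_sin.mul (W.continuous.comp continuous_cos)
  have hww : ∀ t ∈ Icc β α, |w t| ≤ Kp * (n : ℝ) ^ 3 / (1 + n * |t - θ|) := by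
    intro t ht
    exact hKW n P R θ t hn1 (natDegree_le_of_degree_le hE.deg) hE.bdd
      ⟨by linarith [hθ.1], by linarith [hθ.2]⟩ ⟨by linarith [ht.1], by linarith [ht.2]⟩ hR
  have hρn : ρ / n ≤ 2 / n := div_le_div_of_nonneg_right hρ2 hn0.le
  have hρn0 : 0 ≤ ρ / n := by positivity
  have hlog : 0 ≤ Real.log n := Real.log_nonneg hnR
  have hθβ : 0 ≤ θ - β := by linarith [hθ.1]
  have hθα : 0 ≤ α - θ := by linarith [hθ.2]
  have hI' : (∫ x in a..b, |W.eval x| / (1 + P.derivative.eval x ^ 2)) ≤
      ∫ t in β..α, |w t| * g t := hI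
  rcases le_or_gt (β + ρ / n) (α - ρ / n) with huv | huv
  · have hI1 : (∫ t in β..(β + ρ / n), |w t| * g t) ≤
        3 * Kp * ρ * (n : ℝ) ^ 2 * (1 / (1 + n * (θ - β))) := by
      have h1 := k3u_end w g β (β + ρ / n) (3 * Kp * (n : ℝ) ^ 3 / (1 + n * (θ - β)))
        (by linarith) hg0 hg1 (fun t ht => by
          refine (hww t ⟨ht.1, by linarith [ht.2]⟩).trans ?_
          rw [div_le_div_iff₀ (by positivity) (by positivity)]
          have h2 : n * (θ - β) ≤ n * |t - θ| + 2 := by
            have h3 : θ - β ≤ |t - θ| + 2 / n := by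
              have h4 : θ - t ≤ |t - θ| := by
                rw [abs_sub_comm]
                exact le_abs_self _
              linarith [ht.2]
            calc n * (θ - β) ≤ n * (|t - θ| + 2 / n) := mul_le_mul_of_nonneg_left h3 hn0.le
              _ = n * |t - θ| + 2 := by field_simp
          have h5 : 0 ≤ n * |t - θ| := by positivity
          have h6 : 1 + n * (θ - β) ≤ 3 * (1 + n * |t - θ|) := by linarith
          have h7 : 0 ≤ Kp * (n : ℝ) ^ 3 := by positivity
          have h8 := mul_le_mul_of_nonneg_left h6 h7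
          linarith)
      refine h1.trans (le_of_eq ?_)
      have h2 : β + ρ / n - β = ρ / n := by ring
      rw [h2]
      field_simp
    have hI3 : (∫ t in (α - ρ / n)..α, |w t| * g t) ≤
        3 * Kp * ρ * (n : ℝ) ^ 2 * (1 / (1 + n * (α - θ))) := by
      have h1 := k3u_end w g (α - ρ / n) α (3 * Kp * (n : ℝ) ^ 3 / (1 + n * (α - θ)))
        (by linarith) hg0 hg1 (fun t ht => by
          refine (hww t ⟨by linarith [ht.1], ht.2⟩).trans ?_
          rw [div_le_div_iff₀ (by positivity) (by positivity)]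
          have h2 : n * (α - θ) ≤ n * |t - θ| + 2 := by
            have h3 : α - θ ≤ |t - θ| + 2 / n := by
              have h4 : t - θ ≤ |t - θ| := le_abs_self _
              linarith [ht.1]
            calc n * (α - θ) ≤ n * (|t - θ| + 2 / n) := mul_le_mul_of_nonneg_left h3 hn0.le
              _ = n * |t - θ| + 2 := by field_simp
          have h5 : 0 ≤ n * |t - θ| := by positivity
          have h6 : 1 + n * (α - θ) ≤ 3 * (1 + n * |t - θ|) := by linarith
          have h7 : 0 ≤ Kp * (n : ℝ) ^ 3 := by positivity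
          have h8 := mul_le_mul_of_nonneg_left h6 h7
          linarith)
      refine h1.trans (le_of_eq ?_)
      have h2 : α - (α - ρ / n) = ρ / n := by ring
      rw [h2]
      field_simp
    have hI2 : (∫ t in (β + ρ / n)..(α - ρ / n), |w t| * g t) ≤
        24 * Kp * KM * n * (1 + Real.log n) := by
      have h1 := hM2 n g w (β + ρ / n) (α - ρ / n) θ (KM / (n : ℝ) ^ 2) (Kp * (n : ℝ) ^ 3) hn1 hgc
        hwc.continuousOn hg0 huv (by positivity) (by positivity) (by
          intro x y hx hxy hy hxyn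
          exact (hKM n (qq P) x y hn2 hTB hxy hxyn
            (fun t ht => hND t ⟨hx.trans ht.1, ht.2.trans hy⟩)).1) (by
          intro t ht
          exact hww t ⟨by linarith [ht.1], by linarith [ht.2]⟩)
      refine h1.trans ?_
      have h2 : Real.log (1 + n * (α - ρ / n - (β + ρ / n))) ≤ 2 + Real.log n := by
        have h3 : 1 + n * (α - ρ / n - (β + ρ / n)) ≤ Real.exp 2 * n := by
          have h4 : α - ρ / n - (β + ρ / n) ≤ 3.15 := by linarith [pi_lt_d2]
          have h5 : n * (α - ρ / n - (β + ρ / n)) ≤ n * 3.15 :=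
            mul_le_mul_of_nonneg_left h4 hn0.le
          have h6 : (5 : ℝ) ≤ Real.exp 2 := by
            have h7 : (2.7 : ℝ) < Real.exp 1 := by linarith [Real.exp_one_gt_d9]
            have h8 : Real.exp 2 = Real.exp 1 * Real.exp 1 := by
              rw [← Real.exp_add]
              norm_num
            rw [h8]
            nlinarith
          nlinarith
        calc Real.log (1 + n * (α - ρ / n - (β + ρ / n))) ≤ Real.log (Real.exp 2 * n) :=
              Real.log_le_log (by
                have : 0 ≤ n * (α - ρ / n - (β + ρ / n)) := mul_nonneg hn0.le (by linarith)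
                linarith) h3
          _ = 2 + Real.log n := by
              rw [Real.log_mul (Real.exp_pos 2).ne' hn0.ne', Real.log_exp]
      have h4 : 8 * (Kp * (n : ℝ) ^ 3) * (KM / (n : ℝ) ^ 2) = 8 * Kp * KM * n := by
        field_simp
      rw [h4]
      have h5 : 1 + Real.log (1 + n * (α - ρ / n - (β + ρ / n))) ≤ 3 * (1 + Real.log n) := by
        linarith
      calc 8 * Kp * KM * n * (1 + Real.log (1 + n * (α - ρ / n - (β + ρ / n))))
          ≤ 8 * Kp * KM * n * (3 * (1 + Real.log n)) :=
            mul_le_mul_of_nonneg_left h5 (by positivity)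
        _ = 24 * Kp * KM * n * (1 + Real.log n) := by ring
    have hcont : Continuous fun t => |w t| * g t := hwc.abs.mul hgc
    have hsplit : (∫ t in β..α, |w t| * g t) =
        (∫ t in β..(β + ρ / n), |w t| * g t) + (∫ t in (β + ρ / n)..(α - ρ / n), |w t| * g t) +
          ∫ t in (α - ρ / n)..α, |w t| * g t := by
      rw [intervalIntegral.integral_add_adjacent_intervals (hcont.intervalIntegrable _ _)
        (hcont.intervalIntegrable _ _),
        intervalIntegral.integral_add_adjacent_intervals (hcont.intervalIntegrable _ _)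
        (hcont.intervalIntegrable _ _)]
    rw [hsplit] at hI'
    have e1 : 24 * Kp * KM * n * (1 + Real.log n) ≤
        (24 * Kp * KM + 5 * Kp) * n * (1 + Real.log n) := by
      have : 0 ≤ 5 * Kp * n * (1 + Real.log n) := by positivity
      linarith
    have e2 : 3 * Kp * ρ * (n : ℝ) ^ 2 * (1 / (1 + n * (θ - β))) +
        3 * Kp * ρ * (n : ℝ) ^ 2 * (1 / (1 + n * (α - θ))) ≤
        (24 * Kp * KM + 5 * Kp) * ρ * (n : ℝ) ^ 2 *
          (1 / (1 + n * (α - θ)) + 1 / (1 + n * (θ - β))) := by
      have h1 : 0 ≤ (24 * Kp * KM + 2 * Kp) * ρ * (n : ℝ) ^ 2 *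
          (1 / (1 + n * (α - θ)) + 1 / (1 + n * (θ - β))) := by positivity
      linarith
    linarith
  · -- a short window
    have hshort : α - β ≤ 2 * ρ / n := by
      have : 2 * ρ / n = ρ / n + ρ / n := by ring
      rw [this]
      linarith
    have hshort' : n * (α - β) ≤ 4 := by
      have h1 : n * (α - β) ≤ n * (2 * ρ / n) := mul_le_mul_of_nonneg_left hshort hn0.le
      have h2 : n * (2 * ρ / n) = 2 * ρ := by field_simp
      linarith
    have h1 := k3u_end w g β α (Kp * (n : ℝ) ^ 3) hβα hg0 hg1 (fun t ht => by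
      refine (hww t ht).trans ?_
      apply div_le_self (by positivity)
      have : 0 ≤ n * |t - θ| := by positivity
      linarith)
    have h2 : Kp * (n : ℝ) ^ 3 * (α - β) ≤ 2 * Kp * ρ * (n : ℝ) ^ 2 := by
      calc Kp * (n : ℝ) ^ 3 * (α - β) ≤ Kp * (n : ℝ) ^ 3 * (2 * ρ / n) :=
            mul_le_mul_of_nonneg_left hshort (by positivity)
        _ = 2 * Kp * ρ * (n : ℝ) ^ 2 := by field_simp
    have h3 : (1 : ℝ) / 5 ≤ 1 / (1 + n * (α - θ)) := by
      apply one_div_le_one_div_of_le
      · have : 0 ≤ n * (α - θ) := by positivity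
        linarith
      · have : n * (α - θ) ≤ n * (α - β) := mul_le_mul_of_nonneg_left (by linarith) hn0.le
        linarith
    have h4 : (1 : ℝ) / 5 ≤ 1 / (1 + n * (θ - β)) := by
      apply one_div_le_one_div_of_le
      · have : 0 ≤ n * (θ - β) := by positivity
        linarith
      · have : n * (θ - β) ≤ n * (α - β) := mul_le_mul_of_nonneg_left (by linarith) hn0.le
        linarith
    have h5 : (24 * Kp * KM + 5 * Kp) * ρ * (n : ℝ) ^ 2 * (2 / 5) ≤
        (24 * Kp * KM + 5 * Kp) * ρ * (n : ℝ) ^ 2 *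
          (1 / (1 + n * (α - θ)) + 1 / (1 + n * (θ - β))) :=
      mul_le_mul_of_nonneg_left (by linarith) (by positivity)
    have h6 : 0 ≤ (24 * Kp * KM + 5 * Kp) * n * (1 + Real.log n) := by positivity
    have h7 : 0 ≤ 24 * Kp * KM * ρ * (n : ℝ) ^ 2 * (2 / 5) := by positivity
    linarith

end Pool.Agent.Helper10.AL
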