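import Pool.Agent.Helper10.AL.St5

/-!
Asymptotics of the phase.
-/

set_option autoImplicit false

namespace Pool.Agent.Helper10.AL

open Polynomial Set Real MeasureTheory intervalIntegral Filter Topology

noncomputable section

/-- the excess -/
def p3_r (c s p t : ℝ) : ℝ := s / (c - cos t) + p / (c - cos t) ^ 2

lemma p3_r_nonneg (c s p t : ℝ) (hc : 1 ≤ c) (hs : 0 ≤ s) (hp : 0 ≤ p) : 0 ≤ p3_r c s p t := by
  unfold p3_r
  have h : 0 ≤ c - cos t := by linarith [cos_le_one t]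
  positivity

lemma p3_lo (r : ℝ) (hr : 0 ≤ r) : min r 1 / 4 ≤ 1 - 1 / √(1 + r) := by
  rcases le_total r 1 with h | h
  · rw [min_eq_left h]
    have h1 : 0 < √(1 + r) := Real.sqrt_pos.2 (by linarith)
    have h2 : 1 / √(1 + r) ≤ 1 - r / 4 := by
      rw [div_le_iff₀ h1]
      have h3 : 0 < 1 - r / 4 := by linarith
      have h4 : 1 / (1 - r / 4) ≤ √(1 + r) := by
        apply Real.le_sqrt_of_sq_le
        rw [div_pow, one_pow, div_le_iff₀ (by positivity)]
        nlinarith [mul_nonneg hr hr, mul_nonneg hr (sub_nonneg.2 h), mul_nonneg (mul_nonneg hr hr) hr]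
      rw [div_le_iff₀ h3] at h4
      linarith
    linarith
  · rw [min_eq_right h]
    have h2 : 1 / √(1 + r) ≤ 3 / 4 := by
      have h1 : (4 / 3 : ℝ) ≤ √(1 + r) := by
        apply Real.le_sqrt_of_sq_le
        linarith
      rw [div_le_iff₀ (by linarith)]
      linarith
    linarith

lemma p3_hi (r : ℝ) (hr : 0 ≤ r) : 1 - 1 / √(1 + r) ≤ r / 2 := by
  have h1 : 0 < √(1 + r) := Real.sqrt_pos.2 (by linarith)
  have h2 : √(1 + r) ≤ 1 + r / 2 := by
    rw [Real.sqrt_le_left (by linarith)]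
    nlinarith
  have h3 : 1 / (1 + r / 2) ≤ 1 / √(1 + r) := one_div_le_one_div_of_le h1 h2
  have h4 : 1 - r / 2 ≤ 1 / (1 + r / 2) := by
    rw [le_div_iff₀ (by linarith)]
    nlinarith
  linarith

lemma p3_nn (r : ℝ) (hr : 0 ≤ r) : 0 ≤ 1 - 1 / √(1 + r) := by
  have h1 : (1 : ℝ) ≤ √(1 + r) := by
    apply Real.le_sqrt_of_sq_le
    linarith
  have h2 : 1 / √(1 + r) ≤ 1 := by
    rw [div_le_iff₀ (by linarith)]
    linarith
  linarith

lemma p3_sq (r : ℝ) (hr : 0 ≤ r) : r / 2 - r ^ 2 ≤ 1 - 1 / √(1 + r) := by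
  have h1 : 0 < √(1 + r) := Real.sqrt_pos.2 (by linarith)
  have h0 : 0 < 1 - r / 2 + r ^ 2 := by nlinarith [sq_nonneg (r - 1 / 4)]
  have h4 : 1 / (1 - r / 2 + r ^ 2) ≤ √(1 + r) := by
    apply Real.le_sqrt_of_sq_le
    rw [div_pow, one_pow, div_le_iff₀ (by positivity)]
    have h5 : (1 + r) * (1 - r / 2 + r ^ 2) ^ 2 =
      1 + 5 / 4 * r ^ 2 + 5 / 4 * r ^ 3 + r ^ 5 := by ring
    rw [h5]
    have : 0 ≤ 5 / 4 * r ^ 2 + 5 / 4 * r ^ 3 + r ^ 5 := by positivity
    linarith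
  have h6 : 1 / √(1 + r) ≤ 1 - r / 2 + r ^ 2 := by
    rw [div_le_iff₀ h0] at h4
    rw [div_le_iff₀ h1]
    linarith
  linarith

lemma p3_mono (x y : ℝ) (hx : 0 ≤ x) (hxy : x ≤ y) : 1 - 1 / √(1 + x) ≤ 1 - 1 / √(1 + y) := by
  have h1 : 0 < √(1 + x) := Real.sqrt_pos.2 (by linarith)
  have h2 : √(1 + x) ≤ √(1 + y) := Real.sqrt_le_sqrt (by linarith)
  have := one_div_le_one_div_of_le h1 h2
  linarith

lemma p3_om (n : ℕ) (c s p t : ℝ) :
    (n : ℝ) - om n c s p t = n * (1 - 1 / √(1 + p3_r c s p t)) := by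
  unfold om p3_r
  ring

lemma p3_int (n : ℕ) (c s p a b : ℝ) (hc : 1 ≤ c) (hs : 0 ≤ s) (hp : 0 ≤ p) :
    IntervalIntegrable (om n c s p) volume a b := by
  have hm : Measurable (om n c s p) := by
    unfold om
    fun_prop
  have hb : ∀ t, ‖om n c s p t‖ ≤ n := by
    intro t
    have h1 := p3_om n c s p t
    have h2 := p3_nn _ (p3_r_nonneg c s p t hc hs hp)
    have h3 : 0 ≤ om n c s p t := by
      unfold om
      positivity
    rw [Real.norm_eq_abs, abs_of_nonneg h3]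
    have h4 : 0 ≤ (n : ℝ) * (1 - 1 / √(1 + p3_r c s p t)) := by positivity
    linarith
  rw [intervalIntegrable_iff]
  exact Measure.integrableOn_of_bounded (M := n) (by simp) hm.aestronglyMeasurable
    (Filter.Eventually.of_forall hb)

lemma p3_int' (n : ℕ) (c s p a b : ℝ) (hc : 1 ≤ c) (hs : 0 ≤ s) (hp : 0 ≤ p) :
    IntervalIntegrable (fun t => (n : ℝ) * (1 - 1 / √(1 + p3_r c s p t))) volume a b := by
  have h := (intervalIntegrable_const (c := (n : ℝ)) (a := a) (b := b)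
    (μ := volume)).sub (p3_int n c s p a b hc hs hp)
  refine h.congr ?_
  intro t _
  exact p3_om n c s p t

lemma p3_D (n : ℕ) (c s p a b : ℝ) (hc : 1 ≤ c) (hs : 0 ≤ s) (hp : 0 ≤ p) :
    (n : ℝ) * (b - a) - (∫ t in a..b, om n c s p t) =
      ∫ t in a..b, (n : ℝ) * (1 - 1 / √(1 + p3_r c s p t)) := by
  have h : (∫ t in a..b, (n : ℝ) * (1 - 1 / √(1 + p3_r c s p t))) =
      ∫ t in a..b, ((n : ℝ) - om n c s p t) := by
    apply intervalIntegral.integral_congr
    intro t _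
    exact (p3_om n c s p t).symm
  rw [h, intervalIntegral.integral_sub intervalIntegrable_const (p3_int n c s p a b hc hs hp),
    intervalIntegral.integral_const, smul_eq_mul]
  ring

/-- the parameters near the Chebyshev polynomial -/
lemma p3_A (n : ℕ) (c s p e : ℝ) (hc : 1 ≤ c) (hs : 0 ≤ s) (hp : 0 ≤ p) (he : 0 < e)
    (he1 : e ≤ 1) (hn : 4 * π < n * e) (hce : c ≤ 1 + e ^ 2)
    (hI : ((n : ℝ) - 1) * π ≤ ∫ t in (0 : ℝ)..π, om n c s p t) :
    s ≤ 3 / 2 * e ^ 2 ∧ n * s ≤ 6 * π * e := by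
  have hD := p3_D n c s p 0 π hc hs hp
  have h1 : (∫ t in (0 : ℝ)..π, (n : ℝ) * (1 - 1 / √(1 + p3_r c s p t))) ≤ π := by
    rw [← hD]
    linarith
  have hpi : e ≤ π := by linarith [Real.pi_gt_three]
  have h2 : (∫ t in (0 : ℝ)..e, (n : ℝ) * (1 - 1 / √(1 + p3_r c s p t))) ≤
      ∫ t in (0 : ℝ)..π, (n : ℝ) * (1 - 1 / √(1 + p3_r c s p t)) := by
    apply intervalIntegral.integral_mono_interval le_rfl he.le hpi
    · refine Filter.Eventually.of_forall fun t => ?_
      have := p3_nn _ (p3_r_nonneg c s p t hc hs hp)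
      show 0 ≤ (n : ℝ) * (1 - 1 / √(1 + p3_r c s p t))
      positivity
    · exact p3_int' n c s p 0 π hc hs hp
  set m := min (s / (3 / 2 * e ^ 2)) 1 with hm
  have h3 : (∫ t in (0 : ℝ)..e, (n : ℝ) * (m / 4)) ≤
      ∫ t in (0 : ℝ)..e, (n : ℝ) * (1 - 1 / √(1 + p3_r c s p t)) := by
    apply intervalIntegral.integral_mono_on_of_le_Ioo he.le intervalIntegrable_const
      (p3_int' n c s p 0 e hc hs hp)
    intro t ht
    apply mul_le_mul_of_nonneg_left _ (Nat.cast_nonneg n)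
    refine le_trans ?_ (p3_lo _ (p3_r_nonneg c s p t hc hs hp))
    have h4 : s / (3 / 2 * e ^ 2) ≤ p3_r c s p t := by
      have h5 : 0 < c - cos t := by
        have : cos t < 1 := by
          have := Real.cos_lt_cos_of_nonneg_of_le_pi le_rfl (by linarith [ht.2] : t ≤ π) ht.1
          rwa [cos_zero] at this
        linarith
      have h6 : c - cos t ≤ 3 / 2 * e ^ 2 := by
        have := Real.one_sub_sq_div_two_le_cos (x := t)
        have h7 : t ^ 2 ≤ e ^ 2 := by
          apply pow_le_pow_left₀ ht.1.le ht.2.le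
        linarith
      have h8 : s / (3 / 2 * e ^ 2) ≤ s / (c - cos t) :=
        div_le_div_of_nonneg_left hs h5 h6
      have h9 : 0 ≤ p / (c - cos t) ^ 2 := by positivity
      unfold p3_r
      linarith
    have h5 : m ≤ min (p3_r c s p t) 1 := min_le_min_right 1 h4
    linarith
  rw [intervalIntegral.integral_const, smul_eq_mul] at h3
  have h4 : e * (n * (m / 4)) ≤ π := by
    have : (e - 0) * ((n : ℝ) * (m / 4)) = e * (n * (m / 4)) := by ring
    linarith
  have hm1 : m < 1 := by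
    by_contra hcon
    push Not at hcon
    have : e * (n * (1 / 4)) ≤ e * (n * (m / 4)) := by
      have : (0 : ℝ) ≤ n := Nat.cast_nonneg n
      gcongr
    nlinarith
  have hm2 : m = s / (3 / 2 * e ^ 2) := by
    rw [hm] at hm1 ⊢
    rcases min_lt_iff.1 hm1 with h | h
    · exact min_eq_left h.le
    · exact absurd h (lt_irrefl _)
  have hms : s = m * (3 / 2 * e ^ 2) := by
    rw [hm2]
    field_simp
  have he2 : 0 < e ^ 2 := by positivity
  constructor
  · nlinarith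
  · have : (n : ℝ) * s = 6 * e * (e * (n * (m / 4))) := by
      rw [hms]
      ring
    rw [this]
    nlinarith

/-- the delay away from the end point -/
lemma p3_A2 (n : ℕ) (c s p δ θ : ℝ) (hc : 1 ≤ c) (hs : 0 ≤ s) (hp : 0 ≤ p)
    (hps : p ≤ s ^ 2 / 4) (hδ : 0 < δ) (h0 : 0 < θ) (h1 : θ < π) (hθ : cos θ ≤ 1 - δ) :
    0 ≤ (n : ℝ) * (π - θ) - (∫ t in θ..π, om n c s p t) ∧
    (n : ℝ) * (π - θ) - (∫ t in θ..π, om n c s p t) ≤
      π / 2 * (n * s / δ + n * s * s / (4 * δ ^ 2)) := by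
  rw [p3_D n c s p θ π hc hs hp]
  constructor
  · apply intervalIntegral.integral_nonneg h1.le
    intro t _
    have := p3_nn _ (p3_r_nonneg c s p t hc hs hp)
    positivity
  · have h2 : (∫ t in θ..π, (n : ℝ) * (1 - 1 / √(1 + p3_r c s p t))) ≤
        ∫ t in θ..π, (n : ℝ) * ((s / δ + s ^ 2 / (4 * δ ^ 2)) / 2) := by
      apply intervalIntegral.integral_mono_on h1.le (p3_int' n c s p θ π hc hs hp)
        intervalIntegrable_const
      intro t ht
      apply mul_le_mul_of_nonneg_left _ (Nat.cast_nonneg n)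
      refine le_trans (p3_hi _ (p3_r_nonneg c s p t hc hs hp)) ?_
      have h3 : δ ≤ c - cos t := by
        have : cos t ≤ cos θ := Real.cos_le_cos_of_nonneg_of_le_pi h0.le ht.2 ht.1
        linarith
      have h4 : s / (c - cos t) ≤ s / δ := div_le_div_of_nonneg_left hs hδ h3
      have h5 : p / (c - cos t) ^ 2 ≤ s ^ 2 / (4 * δ ^ 2) := by
        have h6 : δ ^ 2 ≤ (c - cos t) ^ 2 := pow_le_pow_left₀ hδ.le h3 2
        calc p / (c - cos t) ^ 2 ≤ p / δ ^ 2 := div_le_div_of_nonneg_left hp (by positivity) h6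
          _ ≤ (s ^ 2 / 4) / δ ^ 2 := by gcongr
          _ = s ^ 2 / (4 * δ ^ 2) := by field_simp
      unfold p3_r
      linarith
    rw [intervalIntegral.integral_const, smul_eq_mul] at h2
    refine le_trans h2 ?_
    have h3 : 0 ≤ (n : ℝ) * ((s / δ + s ^ 2 / (4 * δ ^ 2)) / 2) := by positivity
    calc (π - θ) * ((n : ℝ) * ((s / δ + s ^ 2 / (4 * δ ^ 2)) / 2))
        ≤ π * ((n : ℝ) * ((s / δ + s ^ 2 / (4 * δ ^ 2)) / 2)) := by
          apply mul_le_mul_of_nonneg_right _ h3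
          linarith
      _ = π / 2 * (n * s / δ + n * s * s / (4 * δ ^ 2)) := by ring

/-- the parameter of the shift -/
lemma p3_rho (c : ℝ) (hc : 1 ≤ c) : 0 < c - √(c ^ 2 - 1) ∧ c - √(c ^ 2 - 1) ≤ 1 ∧
    1 - (c - √(c ^ 2 - 1)) ≤ √(c ^ 2 - 1) ∧ (1 < c → c - √(c ^ 2 - 1) < 1) := by
  have h1 : √(c ^ 2 - 1) < c := by
    rw [Real.sqrt_lt' (by linarith)]
    linarith
  have h2 : c - 1 ≤ √(c ^ 2 - 1) := by
    apply Real.le_sqrt_of_sq_le
    nlinarith
  refine ⟨by linarith, by linarith, by linarith, fun h => ?_⟩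
  have h3 : c - 1 < √(c ^ 2 - 1) := by
    apply Real.lt_sqrt_of_sq_lt
    nlinarith
  linarith

lemma p3_tend0 (ρ : ℝ) (hρ : ρ < 1) : Tendsto (mu ρ) (𝓝[>] 0) (𝓝 0) := by
  have h1 : mu ρ = fun θ => 2 * arctan ((1 + ρ) / (1 - ρ) * tan (θ / 2)) := by
    funext θ
    unfold mu
    rw [if_neg hρ.ne]
  rw [h1]
  have h2 : ContinuousAt (fun θ : ℝ => 2 * arctan ((1 + ρ) / (1 - ρ) * tan (θ / 2))) 0 := by
    have h3 : ContinuousAt tan ((0 : ℝ) / 2) := by
      rw [zero_div]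
      exact Real.continuousAt_tan.2 (by rw [cos_zero]; exact one_ne_zero)
    have h4 : ContinuousAt (fun θ : ℝ => tan (θ / 2)) 0 :=
      ContinuousAt.comp (f := fun θ : ℝ => θ / 2) (g := tan) h3 (by fun_prop)
    exact ((Real.continuous_arctan.continuousAt).comp (h4.const_mul _)).const_mul 2
  have h5 := h2.tendsto.mono_left (nhdsWithin_le_nhds (s := Ioi (0 : ℝ)))
  simpa using h5

lemma p3_tendpi (ρ : ℝ) (hρ : ρ < 1) (hρ1 : -1 < ρ) : Tendsto (mu ρ) (𝓝[<] π) (𝓝 π) := by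
  have h1 : mu ρ = fun θ => 2 * arctan ((1 + ρ) / (1 - ρ) * tan (θ / 2)) := by
    funext θ
    unfold mu
    rw [if_neg hρ.ne]
  rw [h1]
  have hk : 0 < (1 + ρ) / (1 - ρ) := div_pos (by linarith) (by linarith)
  have h2 : Tendsto (fun θ : ℝ => θ / 2) (𝓝[<] π) (𝓝[<] (π / 2)) := by
    apply tendsto_nhdsWithin_of_tendsto_nhds_of_eventually_within
    · have : ContinuousAt (fun θ : ℝ => θ / 2) π := by fun_prop
      exact this.tendsto.mono_left nhdsWithin_le_nhds
    · filter_upwards [self_mem_nhdsWithin] with x hx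
      have : x < π := hx
      show x / 2 < π / 2
      linarith
  have h3 : Tendsto (fun θ : ℝ => (1 + ρ) / (1 - ρ) * tan (θ / 2)) (𝓝[<] π) atTop :=
    (Real.tendsto_tan_pi_div_two.comp h2).const_mul_atTop hk
  have h4 : Tendsto arctan atTop (𝓝 (π / 2)) :=
    Real.tendsto_arctan_atTop.mono_right nhdsWithin_le_nhds
  have h5 := (h4.comp h3).const_mul 2
  have h6 : 2 * (π / 2) = π := by ring
  rw [h6] at h5
  exact h5

/-- the integral giving the phase shift -/
lemma p3_I (hP0 : P0) (c : ℝ) (hc : 1 < c) :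
    (∫ t in (0 : ℝ)..π, √(c ^ 2 - 1) / (c - cos t)) = π ∧
    ∀ θ : ℝ, 0 < θ → θ < π → (∫ t in θ..π, √(c ^ 2 - 1) / (c - cos t)) =
      π - mu (c - √(c ^ 2 - 1)) θ := by
  obtain ⟨hr0, _, _, hr1⟩ := p3_rho c hc.le
  have hr1 := hr1 hc
  set q := √(c ^ 2 - 1) with hq
  have hq2 : q ^ 2 = c ^ 2 - 1 := Real.sq_sqrt (by nlinarith)
  have hder : ∀ θ ∈ Ioo (0 : ℝ) π, HasDerivAt (mu (c - q)) (q / (c - cos θ)) θ := by
    intro θ hθ
    have h1 := (hP0.2.1 (c - q) θ (by linarith) hr1 hθ.1 hθ.2).1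
    have h2 : (1 - (c - q) ^ 2) / (1 - 2 * (c - q) * cos θ + (c - q) ^ 2) = q / (c - cos θ) := by
      have h3 : c - cos θ ≠ 0 := by
        have := cos_le_one θ
        intro h
        linarith
      have h4 : 1 - (c - q) ^ 2 = q * (2 * (c - q)) := by
        linear_combination (-1 : ℝ) * hq2 + 2 * hq2
      have h5 : 1 - 2 * (c - q) * cos θ + (c - q) ^ 2 = (c - cos θ) * (2 * (c - q)) := by
        linear_combination hq2
      rw [h4, h5, mul_div_mul_right _ _ (by positivity)]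
    rwa [h2] at h1
  have hcont : Continuous fun t : ℝ => q / (c - cos t) := by
    apply Continuous.div continuous_const (by fun_prop)
    intro t
    have := cos_le_one t
    intro h
    linarith
  constructor
  · have h := intervalIntegral.integral_eq_sub_of_hasDerivAt_of_tendsto Real.pi_pos hder
      (hcont.intervalIntegrable 0 π) (p3_tend0 _ hr1) (p3_tendpi _ hr1 (by linarith))
    rw [h]
    ring
  · intro θ h0 h1
    have hc1 : ContinuousAt (mu (c - q)) θ := (hder θ ⟨h0, h1⟩).continuousAt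
    exact intervalIntegral.integral_eq_sub_of_hasDerivAt_of_tendsto h1
      (fun x hx => hder x ⟨lt_trans h0 hx.1, hx.2⟩)
      (hcont.intervalIntegrable θ π) (hc1.tendsto.mono_left nhdsWithin_le_nhds)
      (p3_tendpi _ hr1 (by linarith))

/-- the parameters away from the Chebyshev polynomial -/
lemma p3_B1 (n : ℕ) (c s p : ℝ) (hc : 1 < c) (hs : 0 ≤ s) (hp : 0 ≤ p)
    (hn : 5 ≤ n) (hI : ((n : ℝ) - 1) * π ≤ ∫ t in (0 : ℝ)..π, om n c s p t) :
    s / (c + 1) ≤ 4 / n := by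
  have hn' : (5 : ℝ) ≤ n := by exact_mod_cast hn
  have hD := p3_D n c s p 0 π hc.le hs hp
  have h1 : (∫ t in (0 : ℝ)..π, (n : ℝ) * (1 - 1 / √(1 + p3_r c s p t))) ≤ π := by
    rw [← hD]
    linarith
  have h2 : (∫ t in (0 : ℝ)..π, (n : ℝ) * (min (s / (c + 1)) 1 / 4)) ≤
      ∫ t in (0 : ℝ)..π, (n : ℝ) * (1 - 1 / √(1 + p3_r c s p t)) := by
    apply intervalIntegral.integral_mono_on Real.pi_pos.le intervalIntegrable_const
      (p3_int' n c s p 0 π hc.le hs hp)
    intro t _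
    apply mul_le_mul_of_nonneg_left _ (Nat.cast_nonneg n)
    refine le_trans ?_ (p3_lo _ (p3_r_nonneg c s p t hc.le hs hp))
    have h3 : 0 < c - cos t := by linarith [cos_le_one t]
    have h4 : s / (c + 1) ≤ s / (c - cos t) :=
      div_le_div_of_nonneg_left hs h3 (by linarith [neg_one_le_cos t])
    have h5 : 0 ≤ p / (c - cos t) ^ 2 := by positivity
    have h6 : s / (c + 1) ≤ p3_r c s p t := by
      unfold p3_r
      linarith
    have h7 := min_le_min_right 1 h6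
    linarith
  rw [intervalIntegral.integral_const, smul_eq_mul] at h2
  have h3 : π * ((n : ℝ) * (min (s / (c + 1)) 1 / 4)) ≤ π * 1 := by
    have : (π - 0) * ((n : ℝ) * (min (s / (c + 1)) 1 / 4)) =
      π * ((n : ℝ) * (min (s / (c + 1)) 1 / 4)) := by ring
    linarith
  have h4 : (n : ℝ) * (min (s / (c + 1)) 1 / 4) ≤ 1 := le_of_mul_le_mul_left h3 Real.pi_pos
  have h5 : min (s / (c + 1)) 1 ≤ 4 / n := by
    rw [le_div_iff₀ (by linarith)]
    linarith
  rcases min_le_iff.1 h5 with h | h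
  · exact h
  · exfalso
    rw [le_div_iff₀ (by linarith)] at h
    linarith

/-- linearisation of the delay -/
lemma p3_B2 (n : ℕ) (c s p v a : ℝ) (hc : 1 < c) (hs : 0 ≤ s) (hp : 0 ≤ p)
    (hps : p ≤ s ^ 2 / 4) (hv : s / (c - 1) ≤ v) (hv1 : v ≤ 1) (ha0 : 0 ≤ a) (ha : a ≤ π) :
    |((n : ℝ) * (π - a) - (∫ t in a..π, om n c s p t)) -
      n * s / (2 * √(c ^ 2 - 1)) * (∫ t in a..π, √(c ^ 2 - 1) / (c - cos t))| ≤
      n * (2 * v ^ 2) * π := by
  rw [p3_D n c s p a π hc.le hs hp]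
  have hq : 0 < √(c ^ 2 - 1) := Real.sqrt_pos.2 (by nlinarith)
  have hcont : Continuous fun t : ℝ => √(c ^ 2 - 1) / (c - cos t) := by
    apply Continuous.div continuous_const (by fun_prop)
    intro t
    have := cos_le_one t
    intro h
    linarith
  rw [← intervalIntegral.integral_const_mul, ← intervalIntegral.integral_sub
    (p3_int' n c s p a π hc.le hs hp) ((hcont.const_mul _).intervalIntegrable _ _)]
  have hv0 : 0 ≤ v := le_trans (div_nonneg hs (by linarith)) hv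
  have h1 : ∀ t ∈ Set.uIoc a π, ‖(n : ℝ) * (1 - 1 / √(1 + p3_r c s p t)) -
      n * s / (2 * √(c ^ 2 - 1)) * (√(c ^ 2 - 1) / (c - cos t))‖ ≤ n * (2 * v ^ 2) := by
    intro t _
    have h2 : 0 < c - cos t := by linarith [cos_le_one t]
    have h3 : n * s / (2 * √(c ^ 2 - 1)) * (√(c ^ 2 - 1) / (c - cos t)) =
        n * (s / (c - cos t) / 2) := by
      field_simp
    rw [h3, ← mul_sub, norm_mul, Real.norm_natCast]
    apply mul_le_mul_of_nonneg_left _ (Nat.cast_nonneg n)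
    have h4 : s / (c - cos t) ≤ v :=
      le_trans (div_le_div_of_nonneg_left hs (by linarith) (by linarith [cos_le_one t])) hv
    have h40 : 0 ≤ s / (c - cos t) := by positivity
    have h5 : p / (c - cos t) ^ 2 ≤ v ^ 2 / 4 := by
      calc p / (c - cos t) ^ 2 ≤ (s ^ 2 / 4) / (c - cos t) ^ 2 := by gcongr
        _ = (s / (c - cos t)) ^ 2 / 4 := by field_simp
        _ ≤ v ^ 2 / 4 := by gcongr
    have h50 : 0 ≤ p / (c - cos t) ^ 2 := by positivity
    have h6 := p3_hi _ (p3_r_nonneg c s p t hc.le hs hp)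
    have h7 := p3_sq _ (p3_r_nonneg c s p t hc.le hs hp)
    have h8 : p3_r c s p t = s / (c - cos t) + p / (c - cos t) ^ 2 := rfl
    have h80 := p3_r_nonneg c s p t hc.le hs hp
    have h9 : p3_r c s p t ≤ 5 / 4 * v := by
      rw [h8]
      nlinarith
    have h10 : p3_r c s p t ^ 2 ≤ (5 / 4 * v) ^ 2 := pow_le_pow_left₀ h80 h9 2
    have h11 : (5 / 4 * v) ^ 2 = 25 / 16 * v ^ 2 := by ring
    have h12 : 0 ≤ v ^ 2 := sq_nonneg v
    rw [Real.norm_eq_abs, abs_le]
    constructor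
    · linarith
    · linarith
  have h2 := intervalIntegral.norm_integral_le_of_norm_le_const h1
  rw [Real.norm_eq_abs] at h2
  refine le_trans h2 ?_
  rw [abs_of_nonneg (by linarith)]
  have h3 : 0 ≤ (n : ℝ) * (2 * v ^ 2) := by positivity
  apply mul_le_mul_of_nonneg_left _ h3
  linarith

theorem p3 (hP0 : P0) : P3 := by
  intro δ ε hδ hε
  obtain ⟨K, hK, hK2⟩ := hP0.2.2 δ hδ
  set M : ℝ := π / 2 * (6 * π / δ + 9 * π / (4 * δ ^ 2)) + 2 * K with hM
  have hM0 : 0 < M := by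
    have := Real.pi_pos
    positivity
  set e : ℝ := min 1 (ε / M) with he
  have he0 : 0 < e := lt_min one_pos (div_pos hε hM0)
  have he1 : e ≤ 1 := min_le_left _ _
  have heM : e * M ≤ ε := by
    have : e ≤ ε / M := min_le_right _ _
    rwa [le_div_iff₀ hM0] at this
  set A : ℝ := 1 + 2 / e ^ 2 with hA
  have hA0 : 0 < A := by positivity
  refine ⟨⌈4 * π / e⌉₊ + 5 + ⌈4 * A⌉₊ + ⌈64 * π * A ^ 2 / ε⌉₊ + 1, ?_⟩
  intro n hn c s p hc hs hp hps hI hcas θ hθ0 hθ1 hθ
  have hn' : ((⌈4 * π / e⌉₊ : ℝ) + 5 + ⌈4 * A⌉₊ + ⌈64 * π * A ^ 2 / ε⌉₊ + 1) ≤ n := by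
    exact_mod_cast hn
  have hc1 := Nat.le_ceil (4 * π / e)
  have hc2 := Nat.le_ceil (4 * A)
  have hc3 := Nat.le_ceil (64 * π * A ^ 2 / ε)
  have hz1 : (0 : ℝ) ≤ ⌈4 * π / e⌉₊ := Nat.cast_nonneg _
  have hz2 : (0 : ℝ) ≤ ⌈4 * A⌉₊ := Nat.cast_nonneg _
  have hz3 : (0 : ℝ) ≤ ⌈64 * π * A ^ 2 / ε⌉₊ := Nat.cast_nonneg _
  have hn1 : 4 * π / e < n := by linarith
  have hn2 : (5 : ℝ) ≤ n := by linarith
  have hn3 : 4 * A ≤ n := by linarith
  have hn4 : 64 * π * A ^ 2 / ε ≤ n := by linarith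
  have hn0 : (0 : ℝ) < n := by linarith
  obtain ⟨hr0, hr1, hr2, hr3⟩ := p3_rho c hc
  have hmu := (hP0.1 (c - √(c ^ 2 - 1)) θ (by linarith) hr1 hθ0 hθ1)
  rcases le_total c (1 + e ^ 2) with hce | hce
  · -- near the Chebyshev polynomial
    have hn5 : 4 * π < n * e := by
      rw [div_lt_iff₀ he0] at hn1
      exact hn1
    obtain ⟨h1, h2⟩ := p3_A n c s p e hc hs hp he0 he1 hn5 hce hI
    obtain ⟨h3, h4⟩ := p3_A2 n c s p δ θ hc hs hp hps hδ hθ0 hθ1 hθ
    have h5 := (hK2 (c - √(c ^ 2 - 1)) θ (by linarith) hr1 hθ0 hθ1).1 hθ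
    have h6 : √(c ^ 2 - 1) ≤ 2 * e := by
      rw [Real.sqrt_le_left (by linarith)]
      nlinarith [mul_nonneg (sub_nonneg.2 hc) (sub_nonneg.2 he1), sq_nonneg e,
        mul_nonneg he0.le (sub_nonneg.2 he1)]
    have h7 : |mu (c - √(c ^ 2 - 1)) θ - π| ≤ e * (2 * K) := by
      refine le_trans h5 ?_
      nlinarith
    have h8 : π / 2 * (n * s / δ + n * s * s / (4 * δ ^ 2)) ≤
        e * (π / 2 * (6 * π / δ + 9 * π / (4 * δ ^ 2))) := by
      have h9 : n * s / δ ≤ 6 * π * e / δ := by gcongr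
      have h10 : n * s * s ≤ 9 * π * e := by
        have : n * s * s ≤ (6 * π * e) * (3 / 2 * e ^ 2) := by
          have : 0 ≤ (n : ℝ) * s := by positivity
          have : 0 ≤ 6 * π * e := by positivity
          gcongr
        have h11 : (6 * π * e) * (3 / 2 * e ^ 2) = 9 * π * e * e ^ 2 := by ring
        have h12 : e ^ 2 ≤ 1 := pow_le_one₀ he0.le he1
        have h13 : 9 * π * e * e ^ 2 ≤ 9 * π * e * 1 := by
          have : 0 ≤ 9 * π * e := by positivity
          gcongr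
        linarith
      have h11 : n * s * s / (4 * δ ^ 2) ≤ 9 * π * e / (4 * δ ^ 2) := by gcongr
      calc π / 2 * (n * s / δ + n * s * s / (4 * δ ^ 2))
          ≤ π / 2 * (6 * π * e / δ + 9 * π * e / (4 * δ ^ 2)) := by gcongr
        _ = e * (π / 2 * (6 * π / δ + 9 * π / (4 * δ ^ 2))) := by ring
    have h9 : e * M = e * (π / 2 * (6 * π / δ + 9 * π / (4 * δ ^ 2))) + e * (2 * K) := by
      rw [hM]
      ring
    have h10 := abs_le.1 h7
    have h11 : 0 ≤ e * (π / 2 * (6 * π / δ + 9 * π / (4 * δ ^ 2))) := by positivity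
    have h12 : 0 ≤ e * (2 * K) := by positivity
    rw [abs_le]
    constructor
    · linarith
    · linarith
  · -- away from the Chebyshev polynomial
    have hc' : 1 < c := by
      have : 0 < e ^ 2 := by positivity
      linarith
    have heq : (∫ t in (0 : ℝ)..π, om n c s p t) = ((n : ℝ) - 1) * π := by
      rcases hcas with h | h
      · exact absurd h hc'.ne'
      · exact h
    have hu := p3_B1 n c s p hc' hs hp (by exact_mod_cast hn2) hI
    have hcm : 0 < c - 1 := by linarith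
    have hv : s / (c - 1) ≤ 4 * A / n := by
      have h1 : s / (c - 1) = s / (c + 1) * (1 + 2 / (c - 1)) := by
        field_simp
        ring
      have h2 : 1 + 2 / (c - 1) ≤ A := by
        rw [hA]
        have : 2 / (c - 1) ≤ 2 / e ^ 2 := by
          apply div_le_div_of_nonneg_left (by norm_num) (by positivity)
          linarith
        linarith
      have h3 : 0 ≤ 1 + 2 / (c - 1) := by positivity
      rw [h1]
      calc s / (c + 1) * (1 + 2 / (c - 1)) ≤ 4 / n * A := by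
            apply mul_le_mul hu h2 h3 (by positivity)
        _ = 4 * A / n := by ring
    have hv1 : 4 * A / n ≤ 1 := by
      rw [div_le_one hn0]
      exact hn3
    obtain ⟨hI0, hIθ⟩ := p3_I hP0 c hc'
    have hB0 := p3_B2 n c s p (4 * A / n) 0 hc' hs hp hps hv hv1 le_rfl Real.pi_pos.le
    have hBθ := p3_B2 n c s p (4 * A / n) θ hc' hs hp hps hv hv1 hθ0.le hθ1.le
    rw [hI0, heq] at hB0
    rw [hIθ θ hθ0 hθ1] at hBθ
    set x : ℝ := n * s / (2 * √(c ^ 2 - 1)) with hx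
    set m : ℝ := mu (c - √(c ^ 2 - 1)) θ with hm
    have hE : n * (2 * (4 * A / n) ^ 2) * π = 32 * π * A ^ 2 / n := by
      field_simp
      ring
    rw [hE] at hB0 hBθ
    have h1 : (n : ℝ) * (π - 0) - ((n : ℝ) - 1) * π - x * π = (1 - x) * π := by ring
    rw [h1, abs_mul, abs_of_pos Real.pi_pos] at hB0
    have h2 : |(1 - x) * (π - m)| ≤ 32 * π * A ^ 2 / n := by
      rw [abs_mul]
      have h3 : |π - m| ≤ π := by
        rw [abs_le]
        constructor
        · linarith [hmu.1, hmu.2.1, Real.pi_pos]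
        · linarith [hmu.1]
      calc |1 - x| * |π - m| ≤ |1 - x| * π := by
            apply mul_le_mul_of_nonneg_left h3 (abs_nonneg _)
        _ ≤ _ := hB0
    have h3 : 32 * π * A ^ 2 / n + 32 * π * A ^ 2 / n ≤ ε := by
      rw [← add_div, div_le_iff₀ hn0]
      rw [div_le_iff₀ hε] at hn4
      linarith
    have h4 := abs_le.1 h2
    have h5 := abs_le.1 hBθ
    have h6 : (∫ t in θ..π, om n c s p t) - (n * (π - θ) - (π - m)) =
        (1 - x) * (π - m) - (n * (π - θ) - (∫ t in θ..π, om n c s p t) - x * (π - m)) := by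
      ring
    rw [h6, abs_le]
    constructor
    · linarith
    · linarith

end

end Pool.Agent.Helper10.AL
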