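import Pool.Agent.Helper10.AL.St7
import Pool.Agent.Helper10.AL.P.P3

/-!
The lag of the phase is concentrated near one end or spread out.
-/

set_option autoImplicit false

namespace Pool.Agent.Helper10.AL

open Polynomial Set Real MeasureTheory intervalIntegral Filter Topology

noncomputable section

/-- the slowness -/
def l3_D (n : ℕ) (c s p t : ℝ) : ℝ := (n : ℝ) * (1 - 1 / √(1 + p3_r c s p t))

lemma l3_lg (n : ℕ) (c s p u v : ℝ) : lg n c s p u v = ∫ t in u..v, l3_D n c s p t := by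
  unfold lg
  apply intervalIntegral.integral_congr
  intro t _
  exact p3_om n c s p t

lemma l3_int (n : ℕ) (c s p a b : ℝ) (hc : 1 ≤ c) (hs : 0 ≤ s) (hp : 0 ≤ p) :
    IntervalIntegrable (l3_D n c s p) volume a b := p3_int' n c s p a b hc hs hp

lemma l3_nn (n : ℕ) (c s p t : ℝ) (hc : 1 ≤ c) (hs : 0 ≤ s) (hp : 0 ≤ p) :
    0 ≤ l3_D n c s p t := by
  have := p3_nn _ (p3_r_nonneg c s p t hc hs hp)
  unfold l3_D
  positivity

lemma l3_le_n (n : ℕ) (c s p t : ℝ) : l3_D n c s p t ≤ n := by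
  unfold l3_D
  have h1 : 0 ≤ 1 / √(1 + p3_r c s p t) := by positivity
  have h2 : (0 : ℝ) ≤ n := Nat.cast_nonneg n
  nlinarith

lemma l3_tot (n : ℕ) (c s p : ℝ) (hc : 1 ≤ c) (hs : 0 ≤ s) (hp : 0 ≤ p)
    (hI : ((n : ℝ) - 1) * π ≤ ∫ t in (0 : ℝ)..π, om n c s p t) :
    (∫ t in (0 : ℝ)..π, l3_D n c s p t) ≤ π := by
  have hD := p3_D n c s p 0 π hc hs hp
  have h : (∫ t in (0 : ℝ)..π, l3_D n c s p t) = (n : ℝ) * (π - 0) -
    (∫ t in (0 : ℝ)..π, om n c s p t) := by
    rw [hD]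
    rfl
  rw [h]
  linarith

/-- monotonicity of the integral in the interval -/
lemma l3_sub (n : ℕ) (c s p u v : ℝ) (hc : 1 ≤ c) (hs : 0 ≤ s) (hp : 0 ≤ p)
    (hI : ((n : ℝ) - 1) * π ≤ ∫ t in (0 : ℝ)..π, om n c s p t)
    (hu : 0 ≤ u) (huv : u ≤ v) (hv : v ≤ π) :
    (∫ t in u..v, l3_D n c s p t) ≤ π := by
  refine le_trans ?_ (l3_tot n c s p hc hs hp hI)
  apply intervalIntegral.integral_mono_interval hu huv hv
  · exact Filter.Eventually.of_forall fun t => l3_nn n c s p t hc hs hp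
  · exact l3_int n c s p 0 π hc hs hp

lemma l3_anti (n : ℕ) (c s p u t : ℝ) (hc : 1 ≤ c) (hs : 0 ≤ s) (hp : 0 ≤ p)
    (hu : 0 < u) (hut : u ≤ t) (ht : t ≤ π) : l3_D n c s p t ≤ l3_D n c s p u := by
  unfold l3_D
  apply mul_le_mul_of_nonneg_left _ (Nat.cast_nonneg n)
  apply p3_mono _ _ (p3_r_nonneg c s p t hc hs hp)
  have h1 : 0 < c - cos u := by
    have : cos u < 1 := by
      have := Real.cos_lt_cos_of_nonneg_of_le_pi le_rfl (by linarith : u ≤ π) hu
      rwa [cos_zero] at this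
    linarith
  have h2 : c - cos u ≤ c - cos t := by
    have : cos t ≤ cos u := Real.cos_le_cos_of_nonneg_of_le_pi hu.le ht hut
    linarith
  unfold p3_r
  have h3 : s / (c - cos t) ≤ s / (c - cos u) := div_le_div_of_nonneg_left hs h1 h2
  have h4 : p / (c - cos t) ^ 2 ≤ p / (c - cos u) ^ 2 :=
    div_le_div_of_nonneg_left hp (by positivity) (pow_le_pow_left₀ h1.le h2 2)
  linarith

lemma l3_third (n : ℕ) (c s p t : ℝ) (hc : 1 ≤ c) (hs : 0 ≤ s) (hp : 0 ≤ p)
    (hI : ((n : ℝ) - 1) * π ≤ ∫ t in (0 : ℝ)..π, om n c s p t)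
    (ht0 : 0 < t) (ht : t ≤ π) : l3_D n c s p t * t ≤ π := by
  refine le_trans ?_ (l3_sub n c s p 0 t hc hs hp hI le_rfl ht0.le ht)
  have h : (∫ _ in (0 : ℝ)..t, l3_D n c s p t) ≤ ∫ u in (0 : ℝ)..t, l3_D n c s p u := by
    apply intervalIntegral.integral_mono_on_of_le_Ioo ht0.le intervalIntegrable_const
      (l3_int n c s p 0 t hc hs hp)
    intro u hu
    exact l3_anti n c s p u t hc hs hp hu.1 hu.2.le ht
  rw [intervalIntegral.integral_const, smul_eq_mul] at h
  linarith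

lemma l3_second (n : ℕ) (c s p ψ : ℝ) (hc : 1 ≤ c) (hs : 0 ≤ s) (hp : 0 ≤ p)
    (hI : ((n : ℝ) - 1) * π ≤ ∫ t in (0 : ℝ)..π, om n c s p t)
    (h0 : 0 ≤ ψ) (h1 : ψ ≤ π / 4) : (∫ t in (π - ψ)..π, l3_D n c s p t) ≤ 2 * ψ := by
  have hpi := Real.pi_pos
  have h2 : (∫ t in (π - ψ)..π, l3_D n c s p t) ≤ ∫ _ in (π - ψ)..π, (2 : ℝ) := by
    apply intervalIntegral.integral_mono_on (by linarith) (l3_int n c s p _ _ hc hs hp)
      intervalIntegrable_const
    intro t ht
    have h3 := l3_third n c s p t hc hs hp hI (by linarith [ht.1]) ht.2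
    have h4 : π * (3 / 4) ≤ t := by linarith [ht.1]
    have h5 := l3_nn n c s p t hc hs hp
    have h6 : l3_D n c s p t * (π * (3 / 4)) ≤ l3_D n c s p t * t :=
      mul_le_mul_of_nonneg_left h4 h5
    have h7 : l3_D n c s p t * (3 / 4) ≤ 1 := by
      have : (l3_D n c s p t * (3 / 4)) * π ≤ 1 * π := by linarith
      exact le_of_mul_le_mul_right this hpi
    linarith
  rw [intervalIntegral.integral_const, smul_eq_mul] at h2
  linarith

/-- a lower bound for the excess on an initial interval bounds its length -/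
lemma l3_len (n : ℕ) (c s p y m : ℝ) (hc : 1 ≤ c) (hs : 0 ≤ s) (hp : 0 ≤ p)
    (hI : ((n : ℝ) - 1) * π ≤ ∫ t in (0 : ℝ)..π, om n c s p t)
    (h0 : 0 ≤ y) (h1 : y ≤ π) (hm : m ≤ 1) (h : ∀ t ∈ Ioo 0 y, m ≤ p3_r c s p t) :
    n * y * m ≤ 4 * π := by
  have h2 : (∫ _ in (0 : ℝ)..y, (n : ℝ) * (m / 4)) ≤ ∫ t in (0 : ℝ)..y, l3_D n c s p t := by
    apply intervalIntegral.integral_mono_on_of_le_Ioo h0 intervalIntegrable_const
      (l3_int n c s p 0 y hc hs hp)
    intro t ht
    apply mul_le_mul_of_nonneg_left _ (Nat.cast_nonneg n)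
    refine le_trans ?_ (p3_lo _ (p3_r_nonneg c s p t hc hs hp))
    have h3 : m ≤ min (p3_r c s p t) 1 := le_min (h t ht) hm
    linarith
  have h3 := l3_sub n c s p 0 y hc hs hp hI le_rfl h0 h1
  rw [intervalIntegral.integral_const, smul_eq_mul] at h2
  have h4 : (y - 0) * ((n : ℝ) * (m / 4)) = n * y * m / 4 := by ring
  linarith

lemma l3_v1 (c t : ℝ) : c - cos t ≤ (c - 1) + t ^ 2 / 2 := by
  have := Real.one_sub_sq_div_two_le_cos (x := t)
  linarith

lemma l3_v2 (c t : ℝ) (ht0 : 0 ≤ t) (ht : t ≤ π) : (c - 1) + t ^ 2 / 5 ≤ c - cos t := by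
  have h1 := Real.cos_le_one_sub_mul_cos_sq (x := t) (by rw [abs_of_nonneg ht0]; exact ht)
  have h2 : (1 : ℝ) / 5 ≤ 2 / π ^ 2 := by
    rw [div_le_div_iff₀ (by norm_num) (by have := Real.pi_pos; positivity)]
    have := Real.pi_lt_d2
    have h3 : π ^ 2 ≤ 3.15 ^ 2 := pow_le_pow_left₀ Real.pi_pos.le this.le 2
    norm_num at h3 ⊢
    linarith
  have h3 : 1 / 5 * t ^ 2 ≤ 2 / π ^ 2 * t ^ 2 := mul_le_mul_of_nonneg_right h2 (sq_nonneg t)
  linarith

/-- upper bound for the slowness in terms of the first term -/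
lemma l3_up (n : ℕ) (c s p t q : ℝ) (hc : 1 ≤ c) (hs : 0 ≤ s) (hp : 0 ≤ p)
    (hps : p ≤ s ^ 2 / 4) (hq : s / (c - cos t) ≤ q) :
    l3_D n c s p t ≤ n * (q * (1 + q / 4) / 2) := by
  unfold l3_D
  apply mul_le_mul_of_nonneg_left _ (Nat.cast_nonneg n)
  refine le_trans (p3_hi _ (p3_r_nonneg c s p t hc hs hp)) ?_
  have h0 : 0 ≤ c - cos t := by linarith [cos_le_one t]
  have h1 : 0 ≤ s / (c - cos t) := div_nonneg hs h0
  have h2 : p / (c - cos t) ^ 2 ≤ (s / (c - cos t)) ^ 2 / 4 := by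
    rw [div_pow, div_div, mul_comm, ← div_div]
    apply div_le_div_of_nonneg_right _ (by positivity)
    exact hps
  have h3 : (s / (c - cos t)) ^ 2 ≤ q ^ 2 := pow_le_pow_left₀ h1 hq 2
  have h4 : p3_r c s p t = s / (c - cos t) + p / (c - cos t) ^ 2 := rfl
  have h5 : q * (1 + q / 4) = q + q ^ 2 / 4 := by ring
  rw [h4, h5]
  linarith

lemma l3_inv (a b : ℝ) (ha : 0 < a) (hab : a ≤ b) :
    (∫ t in a..b, (t ^ 2)⁻¹) = a⁻¹ - b⁻¹ := by
  have hcont : ContinuousOn (fun t : ℝ => (t ^ 2)⁻¹) (Set.uIcc a b) := by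
    apply ContinuousOn.inv₀ (by fun_prop)
    intro t ht
    rw [Set.uIcc_of_le hab] at ht
    have : 0 < t := lt_of_lt_of_le ha ht.1
    positivity
  have h := intervalIntegral.integral_eq_sub_of_hasDerivAt (a := a) (b := b)
    (f := fun t => -(t⁻¹)) (f' := fun t => (t ^ 2)⁻¹) ?_ hcont.intervalIntegrable
  · rw [h]
    ring
  · intro t ht
    rw [Set.uIcc_of_le hab] at ht
    have ht0 : t ≠ 0 := (lt_of_lt_of_le ha ht.1).ne'
    have h1 := (hasDerivAt_inv ht0).neg
    rw [neg_neg] at h1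
    exact h1

/-- the tail of the lag -/
lemma l3_tail (n : ℕ) (c s p a : ℝ) (hc : 1 ≤ c) (hs : 0 ≤ s) (hp : 0 ≤ p)
    (hps : p ≤ s ^ 2 / 4) (ha : 0 < a) (ha1 : a ≤ π) (hsa : s ≤ a ^ 2) :
    (∫ t in a..π, l3_D n c s p t) ≤ 6 * (n * s) / a := by
  have h1 : (∫ t in a..π, l3_D n c s p t) ≤ ∫ t in a..π, 6 * (n * s) * (t ^ 2)⁻¹ := by
    apply intervalIntegral.integral_mono_on ha1 (l3_int n c s p a π hc hs hp)
    · apply ContinuousOn.intervalIntegrable
      apply ContinuousOn.mul (by fun_prop)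
      apply ContinuousOn.inv₀ (by fun_prop)
      intro t ht
      rw [Set.uIcc_of_le ha1] at ht
      have : 0 < t := lt_of_lt_of_le ha ht.1
      positivity
    · intro t ht
      have ht0 : 0 < t := lt_of_lt_of_le ha ht.1
      have h2 := l3_v2 c t ht0.le ht.2
      have h3 : t ^ 2 / 5 ≤ c - cos t := by linarith
      have h4 : s / (c - cos t) ≤ s / (t ^ 2 / 5) :=
        div_le_div_of_nonneg_left hs (by positivity) h3
      have h5 := l3_up n c s p t _ hc hs hp hps h4
      refine le_trans h5 ?_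
      have h6 : s / (t ^ 2 / 5) = 5 * (s * (t ^ 2)⁻¹) := by
        rw [← div_eq_mul_inv, div_div_eq_mul_div]
        ring
      have h7 : s * (t ^ 2)⁻¹ ≤ 1 := by
        rw [← div_eq_mul_inv, div_le_one (by positivity)]
        exact le_trans hsa (pow_le_pow_left₀ ha.le ht.1 2)
      have h8 : 0 ≤ s * (t ^ 2)⁻¹ := by positivity
      rw [h6]
      have h9 : 5 * (s * (t ^ 2)⁻¹) * (1 + 5 * (s * (t ^ 2)⁻¹) / 4) / 2 ≤
          6 * (s * (t ^ 2)⁻¹) := by nlinarith
      calc (n : ℝ) * (5 * (s * (t ^ 2)⁻¹) * (1 + 5 * (s * (t ^ 2)⁻¹) / 4) / 2)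
          ≤ n * (6 * (s * (t ^ 2)⁻¹)) := mul_le_mul_of_nonneg_left h9 (Nat.cast_nonneg n)
        _ = 6 * (n * s) * (t ^ 2)⁻¹ := by ring
  rw [intervalIntegral.integral_const_mul, l3_inv a π ha ha1] at h1
  refine le_trans h1 ?_
  rw [div_eq_mul_inv]
  apply mul_le_mul_of_nonneg_left _ (by positivity)
  have : 0 ≤ π⁻¹ := by
    have := Real.pi_pos
    positivity
  linarith

/-- the case of the pole at the end -/
lemma l3_fourth (n : ℕ) (s p t : ℝ) (hn : 1 ≤ n) (hs : 0 ≤ s) (hp : 0 ≤ p)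
    (hps : p ≤ s ^ 2 / 4)
    (hI : ((n : ℝ) - 1) * π ≤ ∫ t in (0 : ℝ)..π, om n 1 s p t)
    (ht0 : 0 < t) (ht : t ≤ π) : (∫ t in t..π, l3_D n 1 s p t) ≤ 1000 / (n * t) := by
  have hpi := Real.pi_pos
  have hpi2 := Real.pi_lt_d2
  have hn0 : (1 : ℝ) ≤ n := by exact_mod_cast hn
  have hs2 : √s ^ 2 = s := Real.sq_sqrt hs
  have hs0 : 0 ≤ √s := Real.sqrt_nonneg s
  have h1 : n * (min (√s) π) * 1 ≤ 4 * π := by
    apply l3_len n 1 s p _ 1 le_rfl hs hp hI (le_min hs0 hpi.le) (min_le_right _ _) le_rfl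
    intro u hu
    have hu1 : u < √s := lt_of_lt_of_le hu.2 (min_le_left _ _)
    have hu2 : u < π := lt_of_lt_of_le hu.2 (min_le_right _ _)
    have h2 : 0 < 1 - cos u := by
      have : cos u < 1 := by
        have := Real.cos_lt_cos_of_nonneg_of_le_pi le_rfl hu2.le hu.1
        rwa [cos_zero] at this
      linarith
    have h3 : 1 - cos u ≤ s := by
      have h4 := l3_v1 1 u
      have h5 : u ^ 2 ≤ √s ^ 2 := pow_le_pow_left₀ hu.1.le hu1.le 2
      rw [hs2] at h5
      have : 0 ≤ u ^ 2 := sq_nonneg u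
      linarith
    have h4 : 1 ≤ s / (1 - cos u) := by
      rw [le_div_iff₀ h2]
      linarith
    have h5 : 0 ≤ p / (1 - cos u) ^ 2 := by positivity
    show 1 ≤ s / (1 - cos u) + p / (1 - cos u) ^ 2
    linarith
  have hnt : 0 < n * t := by positivity
  have hall := l3_sub n 1 s p t π le_rfl hs hp hI ht0.le ht le_rfl
  rcases le_total t (min (√s) π) with h2 | h2
  · refine le_trans hall ?_
    rw [le_div_iff₀ hnt]
    have h3 : n * t ≤ 4 * π := by
      have : n * t ≤ n * min (√s) π := mul_le_mul_of_nonneg_left h2 (by linarith)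
      linarith
    have h4 : π * (n * t) ≤ π * (4 * π) := mul_le_mul_of_nonneg_left h3 hpi.le
    nlinarith
  · rcases le_or_gt (√s) π with h3 | h3
    swap
    · rw [min_eq_right h3.le] at h2
      have h5 : t = π := le_antisymm ht h2
      have h6 : (∫ t in t..π, l3_D n 1 s p t) = 0 := by
        rw [h5]
        exact intervalIntegral.integral_same
      rw [h6]
      positivity
    rw [min_eq_left h3] at h1 h2
    have h4 : s ≤ t ^ 2 := by
      rw [← hs2]
      exact pow_le_pow_left₀ hs0 h2 2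
    refine le_trans (l3_tail n 1 s p t le_rfl hs hp hps ht0 ht h4) ?_
    rw [div_le_div_iff₀ ht0 hnt]
    have h5 : (n * √s) ^ 2 ≤ (4 * π) ^ 2 := pow_le_pow_left₀ (by positivity) (by linarith) 2
    have h6 : (n * √s) ^ 2 = n * (n * s) := by
      rw [mul_pow, hs2]
      ring
    have h7 : (4 * π) ^ 2 ≤ 160 := by nlinarith
    have h8 : n * (n * s) ≤ 160 := by linarith
    nlinarith

/-- the lag near `0` or the lag away from `0` -/
lemma l3_first (ε M κ : ℝ) (n : ℕ) (c s p ψ1 ψ0 : ℝ) (hε : 0 < ε) (hM : 24 * π / ε ≤ M)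
    (hκ0 : 0 < κ) (hκM : κ * M ≤ 1) (hκε : κ * M * 120 ≤ ε)
    (hc : 1 ≤ c) (hs : 0 ≤ s) (hp : 0 ≤ p) (hps : p ≤ s ^ 2 / 4)
    (hI : ((n : ℝ) - 1) * π ≤ ∫ t in (0 : ℝ)..π, om n c s p t)
    (h1 : 0 ≤ ψ1) (h10 : ψ1 ≤ κ * ψ0) (h0 : ψ0 ≤ π) :
    (∫ t in (0 : ℝ)..ψ1, l3_D n c s p t) ≤ ε ∨ (∫ t in ψ0..π, l3_D n c s p t) ≤ ε := by
  have hpi := Real.pi_pos
  have hM0 : 0 < M := lt_of_lt_of_le (by positivity) hM
  have hMε : 24 * π ≤ M * ε := by
    rw [div_le_iff₀ hε] at hM
    exact hM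
  rcases h1.eq_or_lt with h1z | h1p
  · left
    rw [← h1z, intervalIntegral.integral_same]
    exact hε.le
  have hψ0 : 0 < ψ0 := by
    by_contra hcon
    push Not at hcon
    nlinarith
  have hMψ : M * ψ1 ≤ ψ0 := by
    have : M * ψ1 ≤ M * (κ * ψ0) := mul_le_mul_of_nonneg_left h10 hM0.le
    nlinarith
  set e := c - 1 with he
  have he0 : 0 ≤ e := by linarith
  have hs2 : √s ^ 2 = s := Real.sq_sqrt hs
  have hs0 : 0 ≤ √s := Real.sqrt_nonneg s
  have he2 : √e ^ 2 = e := Real.sq_sqrt he0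
  have hes0 : 0 ≤ √e := Real.sqrt_nonneg e
  rcases le_or_gt e s with hse | hse
  · -- the pole is close
    have h2 : n * (min (√s) π) * (2 / 3) ≤ 4 * π := by
      apply l3_len n c s p _ (2 / 3) hc hs hp hI (le_min hs0 hpi.le) (min_le_right _ _)
        (by norm_num)
      intro u hu
      have hu1 : u < √s := lt_of_lt_of_le hu.2 (min_le_left _ _)
      have hu2 : u < π := lt_of_lt_of_le hu.2 (min_le_right _ _)
      have h3 : 0 < c - cos u := by
        have : cos u < 1 := by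
          have := Real.cos_lt_cos_of_nonneg_of_le_pi le_rfl hu2.le hu.1
          rwa [cos_zero] at this
        linarith
      have h4 : c - cos u ≤ 3 / 2 * s := by
        have h4 := l3_v1 c u
        have h5 : u ^ 2 ≤ √s ^ 2 := pow_le_pow_left₀ hu.1.le hu1.le 2
        rw [hs2] at h5
        linarith
      have h5 : 2 / 3 ≤ s / (c - cos u) := by
        rw [le_div_iff₀ h3]
        linarith
      have h6 : 0 ≤ p / (c - cos u) ^ 2 := by positivity
      show 2 / 3 ≤ s / (c - cos u) + p / (c - cos u) ^ 2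
      linarith
    rcases le_or_gt (M * ψ1) (√s) with h3 | h3
    · left
      have h4 : M * ψ1 ≤ min (√s) π := le_min h3 (by linarith)
      have h5 : (∫ t in (0 : ℝ)..ψ1, l3_D n c s p t) ≤ ∫ _ in (0 : ℝ)..ψ1, (n : ℝ) := by
        apply intervalIntegral.integral_mono_on h1 (l3_int n c s p _ _ hc hs hp)
          intervalIntegrable_const
        intro t _
        exact l3_le_n n c s p t
      rw [intervalIntegral.integral_const, smul_eq_mul] at h5
      have h6 : n * (M * ψ1) ≤ n * min (√s) π := mul_le_mul_of_nonneg_left h4 (Nat.cast_nonneg n)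
      have h7 : M * (ψ1 * n) ≤ M * ε := by nlinarith
      have h8 : ψ1 * n ≤ ε := le_of_mul_le_mul_left h7 hM0
      linarith
    · right
      have h4 : √s ≤ ψ0 := by linarith
      have h5 : s ≤ ψ0 ^ 2 := by
        rw [← hs2]
        exact pow_le_pow_left₀ hs0 h4 2
      refine le_trans (l3_tail n c s p ψ0 hc hs hp hps hψ0 h0 h5) ?_
      rw [min_eq_left (by linarith)] at h2
      have h6 : (n : ℝ) * s = (n * √s) * √s := by
        rw [mul_assoc, ← sq, hs2]
      have h7 : (n : ℝ) * s ≤ 6 * π * √s := by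
        rw [h6]
        apply mul_le_mul_of_nonneg_right _ hs0
        linarith
      rw [div_le_iff₀ hψ0]
      have h8 : √s ≤ M * (κ * ψ0) := le_trans h3.le (mul_le_mul_of_nonneg_left h10 hM0.le)
      have h9 : 6 * π * √s ≤ 6 * π * (M * (κ * ψ0)) :=
        mul_le_mul_of_nonneg_left h8 (by positivity)
      have h10' : 36 * π ≤ 120 := by
        have := Real.pi_lt_d2
        linarith
      have h11 : 36 * π * (κ * M * ψ0) ≤ 120 * (κ * M * ψ0) :=
        mul_le_mul_of_nonneg_right h10' (by positivity)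
      have h12 : κ * M * 120 * ψ0 ≤ ε * ψ0 := mul_le_mul_of_nonneg_right hκε hψ0.le
      nlinarith
  · -- the pole is far
    have he1 : 0 < e := lt_of_le_of_lt hs hse
    have h2 : n * (min (√e) π) * (2 / 3 * (s / e)) ≤ 4 * π := by
      have hse1 : s / e ≤ 1 := by
        rw [div_le_one he1]
        exact hse.le
      apply l3_len n c s p _ _ hc hs hp hI (le_min hes0 hpi.le) (min_le_right _ _)
        (by linarith)
      intro u hu
      have hu1 : u < √e := lt_of_lt_of_le hu.2 (min_le_left _ _)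
      have hu2 : u < π := lt_of_lt_of_le hu.2 (min_le_right _ _)
      have h3 : 0 < c - cos u := by
        have : cos u < 1 := by
          have := Real.cos_lt_cos_of_nonneg_of_le_pi le_rfl hu2.le hu.1
          rwa [cos_zero] at this
        linarith
      have h4 : c - cos u ≤ 3 / 2 * e := by
        have h4 := l3_v1 c u
        have h5 : u ^ 2 ≤ √e ^ 2 := pow_le_pow_left₀ hu.1.le hu1.le 2
        rw [he2] at h5
        linarith
      have h5 : 2 / 3 * (s / e) ≤ s / (c - cos u) := by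
        have : s / (3 / 2 * e) ≤ s / (c - cos u) := div_le_div_of_nonneg_left hs h3 h4
        have h6 : s / (3 / 2 * e) = 2 / 3 * (s / e) := by
          field_simp
        linarith
      have h6 : 0 ≤ p / (c - cos u) ^ 2 := by positivity
      show 2 / 3 * (s / e) ≤ s / (c - cos u) + p / (c - cos u) ^ 2
      linarith
    have hse0 : 0 ≤ s / e := div_nonneg hs he0
    have hse1 : s / e ≤ 1 := by
      rw [div_le_one he1]
      exact hse.le
    rcases le_or_gt (M * ψ1) (√e) with h3 | h3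
    · left
      have h4 : M * ψ1 ≤ min (√e) π := le_min h3 (by linarith)
      have h5 : (∫ t in (0 : ℝ)..ψ1, l3_D n c s p t) ≤
          ∫ _ in (0 : ℝ)..ψ1, (n : ℝ) * (s / e) := by
        apply intervalIntegral.integral_mono_on h1 (l3_int n c s p _ _ hc hs hp)
          intervalIntegrable_const
        intro t _
        have h6 : s / (c - cos t) ≤ s / e :=
          div_le_div_of_nonneg_left hs he1 (by linarith [cos_le_one t])
        refine le_trans (l3_up n c s p t _ hc hs hp hps h6) ?_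
        apply mul_le_mul_of_nonneg_left _ (Nat.cast_nonneg n)
        nlinarith
      rw [intervalIntegral.integral_const, smul_eq_mul] at h5
      have h6 : n * (M * ψ1) * (s / e) ≤ n * min (√e) π * (s / e) :=
        mul_le_mul_of_nonneg_right (mul_le_mul_of_nonneg_left h4 (Nat.cast_nonneg n)) hse0
      have h7 : M * (ψ1 * (n * (s / e))) ≤ M * ε := by nlinarith
      have h8 : ψ1 * (n * (s / e)) ≤ ε := le_of_mul_le_mul_left h7 hM0
      linarith
    · right
      have h4 : √e ≤ ψ0 := by linarith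
      have h5 : s ≤ ψ0 ^ 2 := by
        have : √e ^ 2 ≤ ψ0 ^ 2 := pow_le_pow_left₀ hes0 h4 2
        rw [he2] at this
        linarith
      refine le_trans (l3_tail n c s p ψ0 hc hs hp hps hψ0 h0 h5) ?_
      rw [min_eq_left (by linarith)] at h2
      have hes1 : 0 < √e := Real.sqrt_pos.2 he1
      have h7 : (n : ℝ) * s ≤ 6 * π * √e := by
        have h8 : n * √e * (2 / 3 * (s / e)) * √e = n * s * (2 / 3) := by
          have : √e * √e = e := Real.mul_self_sqrt he0
          have hd : s / e * e = s := div_mul_cancel₀ s he1.ne'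
          linear_combination (2 / 3 * (n : ℝ) * (s / e)) * this + (2 / 3 * (n : ℝ)) * hd
        have h9 : n * √e * (2 / 3 * (s / e)) * √e ≤ 4 * π * √e :=
          mul_le_mul_of_nonneg_right h2 hes0
        rw [h8] at h9
        linarith
      rw [div_le_iff₀ hψ0]
      have h8 : √e ≤ M * (κ * ψ0) := le_trans h3.le (mul_le_mul_of_nonneg_left h10 hM0.le)
      have h9 : 6 * π * √e ≤ 6 * π * (M * (κ * ψ0)) :=
        mul_le_mul_of_nonneg_left h8 (by positivity)
      have h10' : 36 * π ≤ 120 := by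
        have := Real.pi_lt_d2
        linarith
      have h11 : 36 * π * (κ * M * ψ0) ≤ 120 * (κ * M * ψ0) :=
        mul_le_mul_of_nonneg_right h10' (by positivity)
      have h12 : κ * M * 120 * ψ0 ≤ ε * ψ0 := mul_le_mul_of_nonneg_right hκε hψ0.le
      nlinarith

theorem l3 : L3 := by
  intro ε hε
  have hpi := Real.pi_pos
  set M : ℝ := 24 * π / ε with hM
  have hM0 : 0 < M := by positivity
  refine ⟨min (1 / 4) (min (1 / M) (min (ε / (M * 120)) (ε / 8))), ?_, min_le_left _ _, ?_⟩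
  · refine lt_min (by norm_num) (lt_min (by positivity) (lt_min (by positivity) (by positivity)))
  · intro n c s p ψ1 ψ0 hn hc hs hp hps hI h1 h10 h0
    set κ : ℝ := min (1 / 4) (min (1 / M) (min (ε / (M * 120)) (ε / 8))) with hκ
    have hκ0 : 0 < κ :=
      lt_min (by norm_num) (lt_min (by positivity) (lt_min (by positivity) (by positivity)))
    have hκ1 : κ ≤ 1 / 4 := min_le_left _ _
    have hκ2 : κ ≤ 1 / M := le_trans (min_le_right _ _) (min_le_left _ _)
    have hκ3 : κ ≤ ε / (M * 120) :=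
      le_trans (min_le_right _ _) (le_trans (min_le_right _ _) (min_le_left _ _))
    have hκ4 : κ ≤ ε / 8 :=
      le_trans (min_le_right _ _) (le_trans (min_le_right _ _) (min_le_right _ _))
    rw [le_div_iff₀ hM0] at hκ2
    rw [le_div_iff₀ (by positivity)] at hκ3
    have hψ : ψ1 ≤ κ * π := le_trans h10 (mul_le_mul_of_nonneg_left h0 hκ0.le)
    refine ⟨?_, ?_, ?_, ?_⟩
    · rw [l3_lg, l3_lg]
      exact l3_first ε M κ n c s p ψ1 ψ0 hε le_rfl hκ0 hκ2 (by linarith) hc hs hp hps hI h1 h10 h0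
    · rw [l3_lg]
      have h2 : κ * π ≤ 1 / 4 * π := mul_le_mul_of_nonneg_right hκ1 hpi.le
      refine le_trans (l3_second n c s p ψ1 hc hs hp hI h1 (by linarith)) ?_
      have h3 : κ * π ≤ ε / 8 * π := mul_le_mul_of_nonneg_right hκ4 hpi.le
      have h4 := Real.pi_lt_d2
      nlinarith
    · intro t ht
      have := l3_third n c s p t hc hs hp hI ht.1 ht.2
      rw [p3_om]
      exact this
    · intro hc1 t ht
      subst hc1
      rw [l3_lg]
      exact l3_fourth n s p t hn hs hp hps hI ht.1 ht.2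

end

end Pool.Agent.Helper10.AL
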