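import Pool.Agent.Helper10.AL.St2

/-!
Arc length of polynomials over compact windows, large degree: piece LS.
-/

set_option autoImplicit false

namespace Pool.Agent.Helper10.AL

open Polynomial Set Real MeasureTheory intervalIntegral

theorem lS_cont (hA1 : A1) {n : ℕ} {f : ℝ → ℝ} (hf : TB n f) :
    Continuous fun θ => √(1 + (deriv f θ) ^ 2) := by
  have h1 : ContDiff ℝ (1 : ℕ) f := (hA1.1 n f hf.1).1 1
  have h2 : Continuous (deriv f) := h1.continuous_deriv (by norm_num)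
  exact ((continuous_const.add (h2.pow 2))).sqrt

theorem lS_add (hA1 : A1) {n : ℕ} {f : ℝ → ℝ} (hf : TB n f) (u v w : ℝ) :
    En f u w = En f u v + En f v w := by
  unfold En
  exact (integral_add_adjacent_intervals ((lS_cont hA1 hf).intervalIntegrable _ _)
    ((lS_cont hA1 hf).intervalIntegrable _ _)).symm

theorem lS_Gm_cont (μ ψ : ℝ) : Continuous (Gm μ ψ) := by
  unfold Gm
  fun_prop

theorem lS_Gm_int {μ ψ T : ℝ} (h : ∀ s ∈ Icc (0 : ℝ) T, Gm μ ψ s ≤ 2 / π) {s : ℝ} (h0 : 0 ≤ s)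
    (h1 : s ≤ T) : (∫ x in (0 : ℝ)..s, Gm μ ψ x) ≤ 2 / π * s := by
  have h2 : (∫ x in (0 : ℝ)..s, Gm μ ψ x) ≤ ∫ _x in (0 : ℝ)..s, 2 / π :=
    integral_mono_on h0 ((lS_Gm_cont μ ψ).intervalIntegrable _ _)
      (intervalIntegrable_const) (fun x hx => h x ⟨hx.1, hx.2.trans h1⟩)
  rw [intervalIntegral.integral_const, sub_zero, smul_eq_mul] at h2
  linarith

theorem lS_er (n : ℕ) (hn : 4 ≤ n) : 0 ≤ er n := by
  have h : (1 : ℝ) ≤ n := by
    have : 1 ≤ n := by omega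
    exact_mod_cast this
  have := Real.log_nonneg h
  unfold er
  positivity

/-- The stretch beyond the slow point, to the right. -/
theorem lS_right (hA1 : A1) (hB3 : B3) (hB7 : B7) {n : ℕ} {f : ℝ → ℝ} {θ0 ψ μ T L : ℝ}
    (hn : 4 ≤ n) (hf : TB n f) (hψ1 : π / 2 ≤ ψ) (hψ2 : ψ < π) (hμ : 0 ≤ μ)
    (h1 : |deriv f θ0| ≤ n * -cos ψ) (h2 : |deriv (deriv f) θ0| ≤ (n : ℝ) ^ 2 * (μ * sin ψ))
    (hT : 0 < T) (hL : (∫ s in (0 : ℝ)..T, Gm μ ψ s) ≤ 2 / π * T - L)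
    (hG : ∀ s ∈ Icc (0 : ℝ) T, Gm μ ψ s ≤ 2 / π) (hcs : cs ≤ L) {w : ℝ} (hw : θ0 ≤ w)
    (hw2 : w ≤ θ0 + 2 * π) :
    En f θ0 w ≤ 2 / π * (n * (w - θ0)) + T / n + er n := by
  have hn0 : (0 : ℝ) < n := by
    have : 0 < n := by omega
    exact_mod_cast this
  have her := lS_er n hn
  by_cases hs : n * (w - θ0) ≤ T
  · have hs0 : 0 ≤ n * (w - θ0) := mul_nonneg hn0.le (sub_nonneg.2 hw)
    have h3 := (hB7 n f θ0 ψ μ (n * (w - θ0)) (by omega) hf hψ1 hψ2 hμ h1 h2 hs0).1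
    have e : θ0 + n * (w - θ0) / n = w := by field_simp; ring
    rw [e] at h3
    have h4 := lS_Gm_int hG hs0 hs
    have h5 : n * (w - θ0) / n ≤ T / n := div_le_div_of_nonneg_right hs hn0.le
    linarith
  · push Not at hs
    have h3 := (hB7 n f θ0 ψ μ T (by omega) hf hψ1 hψ2 hμ h1 h2 hT.le).1
    have h6 : T / n ≤ w - θ0 := by rw [div_le_iff₀' hn0]; exact hs.le
    have hTn : 0 ≤ T / n := by positivity
    have h4 := (hB3 n f (θ0 + T / n) w hn hf (by linarith) (by linarith)).1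
    have h5 := lS_add hA1 hf θ0 (θ0 + T / n) w
    have e : (n : ℝ) * (w - (θ0 + T / n)) = n * (w - θ0) - T := by field_simp; ring
    rw [e] at h4
    rw [h5]
    have e2 : 2 / π * (n * (w - θ0) - T) = 2 / π * (n * (w - θ0)) - 2 / π * T := by ring
    rw [e2] at h4
    linarith

/-- The stretch beyond the slow point, to the left. -/
theorem lS_left (hA1 : A1) (hB3 : B3) (hB7 : B7) {n : ℕ} {f : ℝ → ℝ} {θ0 ψ μ T L : ℝ}
    (hn : 4 ≤ n) (hf : TB n f) (hψ1 : π / 2 ≤ ψ) (hψ2 : ψ < π) (hμ : 0 ≤ μ)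
    (h1 : |deriv f θ0| ≤ n * -cos ψ) (h2 : |deriv (deriv f) θ0| ≤ (n : ℝ) ^ 2 * (μ * sin ψ))
    (hT : 0 < T) (hL : (∫ s in (0 : ℝ)..T, Gm μ ψ s) ≤ 2 / π * T - L)
    (hG : ∀ s ∈ Icc (0 : ℝ) T, Gm μ ψ s ≤ 2 / π) (hcs : cs ≤ L) {w : ℝ} (hw : w ≤ θ0)
    (hw2 : θ0 ≤ w + 2 * π) :
    En f w θ0 ≤ 2 / π * (n * (θ0 - w)) + T / n + er n := by
  have hn0 : (0 : ℝ) < n := by
    have : 0 < n := by omega
    exact_mod_cast this
  have her := lS_er n hn
  by_cases hs : n * (θ0 - w) ≤ T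
  · have hs0 : 0 ≤ n * (θ0 - w) := mul_nonneg hn0.le (sub_nonneg.2 hw)
    have h3 := (hB7 n f θ0 ψ μ (n * (θ0 - w)) (by omega) hf hψ1 hψ2 hμ h1 h2 hs0).2
    have e : θ0 - n * (θ0 - w) / n = w := by field_simp; ring
    rw [e] at h3
    have h4 := lS_Gm_int hG hs0 hs
    have h5 : n * (θ0 - w) / n ≤ T / n := div_le_div_of_nonneg_right hs hn0.le
    linarith
  · push Not at hs
    have h3 := (hB7 n f θ0 ψ μ T (by omega) hf hψ1 hψ2 hμ h1 h2 hT.le).2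
    have h6 : T / n ≤ θ0 - w := by rw [div_le_iff₀' hn0]; exact hs.le
    have hTn : 0 ≤ T / n := by positivity
    have h4 := (hB3 n f w (θ0 - T / n) hn hf (by linarith) (by linarith)).1
    have h5 := lS_add hA1 hf w (θ0 - T / n) θ0
    have e : (n : ℝ) * (θ0 - T / n - w) = n * (θ0 - w) - T := by field_simp; ring
    rw [e] at h4
    rw [h5]
    have e2 : 2 / π * (n * (θ0 - w) - T) = 2 / π * (n * (θ0 - w)) - 2 / π * T := by ring
    rw [e2] at h4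
    linarith

theorem lS (hA1 : A1) (_hA2 : A2) (hB3 : B3) (hB7 : B7) : LS := by
  intro n f θ0 ψ μ T L hn hf hψ1 hψ2 hμ h1 h2 hT hL hG hcs
  have hn0 : (0 : ℝ) < n := by
    have : 0 < n := by omega
    exact_mod_cast this
  have hTn : 0 ≤ T / n := by positivity
  have hB := hB7 n f θ0 ψ μ T (by omega) hf hψ1 hψ2 hμ h1 h2 hT.le
  refine ⟨fun v w hv hvθ hθw hwv => ?_, fun v w hv hvθ hwθ hvw => ?_⟩
  · have a1 := (hB3 n f v (θ0 - T / n) hn hf (by linarith) (by linarith)).2.1 hv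
    have a2 := hB.2
    have a3 := lS_right hA1 hB3 hB7 hn hf hψ1 hψ2 hμ h1 h2 hT hL hG hcs hθw (by linarith)
    have a4 := lS_add hA1 hf v (θ0 - T / n) w
    have a5 := lS_add hA1 hf (θ0 - T / n) θ0 w
    have e : 2 / π * (n * (θ0 - T / n - v)) + 2 / π * T + 2 / π * (n * (w - θ0))
        = 2 / π * (n * (w - v)) := by field_simp; ring
    have e2 : 2 * T / (n : ℝ) = T / n + T / n := by ring
    rw [a4, a5, e2, ← e]
    linarith
  · have a1 := (hB3 n f (θ0 + T / n) v hn hf hvθ (by linarith)).2.2.1 hv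
    have a2 := hB.1
    have a3 := lS_left hA1 hB3 hB7 hn hf hψ1 hψ2 hμ h1 h2 hT hL hG hcs hwθ (by linarith)
    have a4 := lS_add hA1 hf w (θ0 + T / n) v
    have a5 := lS_add hA1 hf w θ0 (θ0 + T / n)
    have e : 2 / π * (n * (v - (θ0 + T / n))) + 2 / π * T + 2 / π * (n * (θ0 - w))
        = 2 / π * (n * (v - w)) := by field_simp; ring
    have e2 : 2 * T / (n : ℝ) = T / n + T / n := by ring
    rw [a4, a5, e2, ← e]
    linarith

end Pool.Agent.Helper10.AL
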