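import Pool.Agent.Helper10.AL.St

/-!
Arc length of polynomials over compact windows: sums over cells.
-/

set_option autoImplicit false

namespace Pool.Agent.Helper10.AL

open Polynomial Set Real MeasureTheory intervalIntegral

/-- a cell on which the weight is at most `C` -/
theorem m2_cell (g w : ℝ → ℝ) (x y C M : ℝ) (hg : Continuous g) (hw : ContinuousOn w (Icc x y))
    (hg0 : ∀ θ, 0 ≤ g θ) (hxy : x ≤ y) (hC : 0 ≤ C) (hM : (∫ θ in x..y, g θ) ≤ M)
    (hwC : ∀ θ ∈ Icc x y, |w θ| ≤ C) : (∫ θ in x..y, |w θ| * g θ) ≤ C * M := by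
  have h1 : (∫ θ in x..y, |w θ| * g θ) ≤ ∫ θ in x..y, C * g θ := by
    apply intervalIntegral.integral_mono_on hxy
    · apply ContinuousOn.intervalIntegrable
      rw [uIcc_of_le hxy]
      exact (hw.abs).mul hg.continuousOn
    · exact (continuous_const.mul hg).intervalIntegrable _ _
    · intro θ hθ
      exact mul_le_mul_of_nonneg_right (hwC θ hθ) (hg0 θ)
  rw [intervalIntegral.integral_const_mul] at h1
  exact h1.trans (mul_le_mul_of_nonneg_left hM hC)

theorem m2_int (g w : ℝ → ℝ) (u v x y : ℝ) (hg : Continuous g) (hw : ContinuousOn w (Icc u v))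
    (hux : u ≤ x) (hxy : x ≤ y) (hyv : y ≤ v) :
    IntervalIntegrable (fun θ => |w θ| * g θ) volume x y := by
  apply ContinuousOn.intervalIntegrable
  rw [uIcc_of_le hxy]
  exact ((hw.mono (Icc_subset_Icc hux hyv)).abs).mul hg.continuousOn

/-- the part to the right of `c` -/
theorem m2_right (n : ℕ) (g w : ℝ → ℝ) (u v c M K : ℝ) (hn : 1 ≤ n) (hg : Continuous g)
    (hw : ContinuousOn w (Icc u v)) (hg0 : ∀ θ, 0 ≤ g θ) (hM : 0 ≤ M) (hK : 0 ≤ K)
    (hI : ∀ x y, u ≤ x → x ≤ y → y ≤ v → y - x ≤ 1 / n → (∫ θ in x..y, g θ) ≤ M)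
    (hwK : ∀ θ ∈ Icc u v, |w θ| ≤ K / (1 + n * |θ - c|)) (N : ℕ) :
    ∀ x y, u ≤ x → c ≤ x → x ≤ y → y ≤ v → n * (y - x) ≤ N →
      (∫ θ in x..y, |w θ| * g θ) ≤ K * M * ∑ k ∈ Finset.range N, ((k : ℝ) + 1)⁻¹ := by
  have hn0 : (0 : ℝ) < n := by exact_mod_cast hn
  induction N with
  | zero =>
    intro x y hux hcx hxy hyv hN
    have : y = x := by
      have h1 : (n : ℝ) * (y - x) ≤ 0 := by simpa using hN
      nlinarith
    subst this
    simp
  | succ N ih =>
    intro x y hux hcx hxy hyv hN
    have hpos : 0 ≤ K * M * ((N : ℝ) + 1)⁻¹ := by positivity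
    rw [Finset.sum_range_succ, mul_add]
    by_cases h : n * (y - x) ≤ N
    · linarith [ih x y hux hcx hxy hyv h]
    · have h' := not_le.1 h
      have hN0 : 0 ≤ (N : ℝ) / n := by positivity
      have hNy : (N : ℝ) / n ≤ y - x := by rw [div_le_iff₀ hn0]; linarith
      have hNe : (n : ℝ) * (N / n) = N := by field_simp
      have h1 := ih x (x + N / n) hux hcx (by linarith) (by linarith) (by
        rw [add_sub_cancel_left, hNe])
      have h2 : (∫ θ in (x + N / n)..y, |w θ| * g θ) ≤ K / (1 + N) * M := by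
        apply m2_cell g w _ _ _ _ hg (hw.mono (Icc_subset_Icc (by linarith) hyv)) hg0
          (by linarith) (by positivity)
        · apply hI _ _ (by linarith) (by linarith) hyv
          rw [le_div_iff₀ hn0]
          push_cast at hN
          nlinarith
        · intro θ hθ
          refine (hwK θ ⟨by linarith [hθ.1], by linarith [hθ.2]⟩).trans ?_
          apply div_le_div_of_nonneg_left hK (by positivity)
          have h3 : (N : ℝ) / n ≤ |θ - c| := by
            rw [abs_of_nonneg (by linarith [hθ.1])]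
            linarith [hθ.1]
          nlinarith
      rw [← intervalIntegral.integral_add_adjacent_intervals
        (m2_int g w u v x (x + N / n) hg hw hux (by linarith) (by linarith))
        (m2_int g w u v (x + N / n) y hg hw (by linarith) (by linarith) hyv)]
      have h4 : K / (1 + (N : ℝ)) * M = K * M * ((N : ℝ) + 1)⁻¹ := by
        rw [div_eq_mul_inv, add_comm]
        ring
      linarith

/-- the part to the left of `c` -/
theorem m2_left (n : ℕ) (g w : ℝ → ℝ) (u v c M K : ℝ) (hn : 1 ≤ n) (hg : Continuous g)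
    (hw : ContinuousOn w (Icc u v)) (hg0 : ∀ θ, 0 ≤ g θ) (hM : 0 ≤ M) (hK : 0 ≤ K)
    (hI : ∀ x y, u ≤ x → x ≤ y → y ≤ v → y - x ≤ 1 / n → (∫ θ in x..y, g θ) ≤ M)
    (hwK : ∀ θ ∈ Icc u v, |w θ| ≤ K / (1 + n * |θ - c|)) (N : ℕ) :
    ∀ x y, u ≤ x → y ≤ c → x ≤ y → y ≤ v → n * (y - x) ≤ N →
      (∫ θ in x..y, |w θ| * g θ) ≤ K * M * ∑ k ∈ Finset.range N, ((k : ℝ) + 1)⁻¹ := by
  have hn0 : (0 : ℝ) < n := by exact_mod_cast hn
  induction N with
  | zero =>
    intro x y hux hcx hxy hyv hN
    have : y = x := by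
      have h1 : (n : ℝ) * (y - x) ≤ 0 := by simpa using hN
      nlinarith
    subst this
    simp
  | succ N ih =>
    intro x y hux hyc hxy hyv hN
    have hpos : 0 ≤ K * M * ((N : ℝ) + 1)⁻¹ := by positivity
    rw [Finset.sum_range_succ, mul_add]
    by_cases h : n * (y - x) ≤ N
    · linarith [ih x y hux hyc hxy hyv h]
    · have h' := not_le.1 h
      have hN0 : 0 ≤ (N : ℝ) / n := by positivity
      have hNy : (N : ℝ) / n ≤ y - x := by rw [div_le_iff₀ hn0]; linarith
      have hNe : (n : ℝ) * (N / n) = N := by field_simp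
      have h1 := ih (y - N / n) y (by linarith) hyc (by linarith) hyv (by
        rw [sub_sub_cancel, hNe])
      have h2 : (∫ θ in x..(y - N / n), |w θ| * g θ) ≤ K / (1 + N) * M := by
        apply m2_cell g w _ _ _ _ hg (hw.mono (Icc_subset_Icc hux (by linarith))) hg0
          (by linarith) (by positivity)
        · apply hI _ _ hux (by linarith) (by linarith)
          rw [le_div_iff₀ hn0]
          push_cast at hN
          nlinarith
        · intro θ hθ
          refine (hwK θ ⟨by linarith [hθ.1], by linarith [hθ.2]⟩).trans ?_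
          apply div_le_div_of_nonneg_left hK (by positivity)
          have h3 : (N : ℝ) / n ≤ |θ - c| := by
            rw [abs_of_nonpos (by linarith [hθ.2])]
            linarith [hθ.2]
          nlinarith
      rw [← intervalIntegral.integral_add_adjacent_intervals
        (m2_int g w u v x (y - N / n) hg hw hux (by linarith) (by linarith))
        (m2_int g w u v (y - N / n) y hg hw (by linarith) (by linarith) hyv)]
      have h4 : K / (1 + (N : ℝ)) * M = K * M * ((N : ℝ) + 1)⁻¹ := by
        rw [div_eq_mul_inv, add_comm]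
        ring
      linarith

theorem m2 : M2 := by
  intro n g w u v c M K hn hg hw hg0 huv hM hK hI hwK
  have hn0 : (0 : ℝ) < n := by exact_mod_cast hn
  have huv0 : 0 ≤ n * (v - u) := mul_nonneg hn0.le (by linarith)
  set N := ⌈n * (v - u)⌉₊ with hN
  have hN1 : n * (v - u) ≤ N := Nat.le_ceil _
  have hN2 : (N : ℝ) ≤ 1 + n * (v - u) := by
    have := Nat.ceil_lt_add_one huv0
    rw [← hN] at this
    linarith
  have hS : ∑ k ∈ Finset.range N, ((k : ℝ) + 1)⁻¹ ≤ 1 + Real.log (1 + n * (v - u)) := by
    have h1 := harmonic_le_one_add_log N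
    have h2 : ((harmonic N : ℚ) : ℝ) = ∑ k ∈ Finset.range N, ((k : ℝ) + 1)⁻¹ := by
      simp [harmonic]
    rw [h2] at h1
    refine h1.trans ?_
    rcases Nat.eq_zero_or_pos N with h0 | h0
    · rw [h0]
      simp only [Nat.cast_zero, Real.log_zero, add_zero]
      have := Real.log_nonneg (show (1 : ℝ) ≤ 1 + n * (v - u) by linarith)
      linarith
    · have h3 : (0 : ℝ) < N := by exact_mod_cast h0
      have := Real.log_le_log h3 hN2
      linarith
  have hS0 : 0 ≤ 1 + Real.log (1 + n * (v - u)) := by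
    have := Real.log_nonneg (show (1 : ℝ) ≤ 1 + n * (v - u) by linarith)
    linarith
  have hKM : 0 ≤ K * M := mul_nonneg hK hM
  have hB := mul_le_mul_of_nonneg_left hS hKM
  have hB0 := mul_nonneg hKM hS0
  rcases le_total c u with hcu | hcu
  · have := m2_right n g w u v c M K hn hg hw hg0 hM hK hI hwK N u v le_rfl hcu huv le_rfl hN1
    nlinarith
  · rcases le_total v c with hvc | hvc
    · have := m2_left n g w u v c M K hn hg hw hg0 hM hK hI hwK N u v le_rfl hvc huv le_rfl hN1
      nlinarith
    · have h1 := m2_left n g w u v c M K hn hg hw hg0 hM hK hI hwK N u c le_rfl le_rfl hcu hvc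
        (by nlinarith)
      have h2 := m2_right n g w u v c M K hn hg hw hg0 hM hK hI hwK N c v hcu le_rfl hvc le_rfl
        (by nlinarith)
      rw [← intervalIntegral.integral_add_adjacent_intervals
        (m2_int g w u v u c hg hw le_rfl hcu hvc) (m2_int g w u v c v hg hw hcu hvc le_rfl)]
      nlinarith

end Pool.Agent.Helper10.AL
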