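import Pool.Agent.Helper10.AL.St2

/-! Project AL, piece M3: weighted integrals from integrals over short intervals. -/

set_option autoImplicit false

namespace Pool.Agent.Helper10.AL

open Polynomial Set Real MeasureTheory intervalIntegral

theorem m3_cell {n : ℕ} {g w : ℝ → ℝ} {u v A M p q : ℝ} (hn : 1 ≤ n) (hg : Continuous g)
    (hw : ContinuousOn w (Icc u v)) (hg0 : ∀ θ, 0 ≤ g θ) (hw0 : ∀ θ ∈ Icc u v, 0 ≤ w θ)
    (hA1 : 1 ≤ A)
    (hM : ∀ x y, u ≤ x → x ≤ y → y ≤ v → y - x ≤ 1 / n → (∫ θ in x..y, g θ) ≤ M)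
    (hA : ∀ x ∈ Icc u v, ∀ y ∈ Icc u v, |x - y| ≤ 1 / n → w x ≤ A * w y)
    (hup : u ≤ p) (hpq : p ≤ q) (hqv : q ≤ v) (h1 : q - p ≤ 1 / n) (h2 : 1 ≤ 2 * n * (q - p)) :
    (∫ θ in p..q, w θ * g θ) ≤ 2 * n * A * M * ∫ θ in p..q, w θ := by
  have hsub : Icc p q ⊆ Icc u v := Icc_subset_Icc hup hqv
  have hwc : ContinuousOn w (Icc p q) := hw.mono hsub
  have hwi : IntervalIntegrable w volume p q := hwc.intervalIntegrable_of_Icc hpq
  have hn0 : (0 : ℝ) < n := by exact_mod_cast hn
  have hI0 : 0 ≤ ∫ θ in p..q, w θ :=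
    intervalIntegral.integral_nonneg hpq (fun θ hθ => hw0 θ (hsub hθ))
  have key : ∀ θ ∈ Icc p q, w θ ≤ 2 * n * A * ∫ θ in p..q, w θ := by
    intro θ hθ
    have h3 : (∫ _ in p..q, w θ) ≤ ∫ y in p..q, A * w y := by
      refine intervalIntegral.integral_mono_on hpq intervalIntegrable_const
        (hwi.const_mul A) ?_
      intro y hy
      refine hA θ (hsub hθ) y (hsub hy) ?_
      rw [abs_le]
      constructor <;> linarith [hθ.1, hθ.2, hy.1, hy.2]
    rw [intervalIntegral.integral_const, smul_eq_mul, intervalIntegral.integral_const_mul] at h3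
    have h4 : w θ * 1 ≤ w θ * (2 * n * (q - p)) :=
      mul_le_mul_of_nonneg_left h2 (hw0 θ (hsub hθ))
    have h5 : 2 * (n : ℝ) * ((q - p) * w θ) ≤ 2 * n * (A * ∫ θ in p..q, w θ) :=
      mul_le_mul_of_nonneg_left h3 (by positivity)
    nlinarith [h4, h5]
  have h6 : (∫ θ in p..q, w θ * g θ) ≤ ∫ θ in p..q, (2 * n * A * ∫ θ in p..q, w θ) * g θ := by
    refine intervalIntegral.integral_mono_on hpq
      ((hwc.mul hg.continuousOn).intervalIntegrable_of_Icc hpq)
      ((hg.intervalIntegrable p q).const_mul _) ?_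
    intro θ hθ
    exact mul_le_mul_of_nonneg_right (key θ hθ) (hg0 θ)
  rw [intervalIntegral.integral_const_mul] at h6
  have h7 := hM p q hup hpq hqv h1
  have h8 : (2 * n * A * ∫ θ in p..q, w θ) * (∫ θ in p..q, g θ) ≤
      (2 * n * A * ∫ θ in p..q, w θ) * M :=
    mul_le_mul_of_nonneg_left h7 (by positivity)
  nlinarith [h6, h8]

theorem m3 : M3 := by
  intro n g w u v A M hn hg hw hg0 hw0 huv hM0 hA1 hM hA
  have hn0 : (0 : ℝ) < n := by exact_mod_cast hn
  have hL : 1 ≤ (n : ℝ) * (v - u) := by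
    have : 1 / (n : ℝ) ≤ v - u := by linarith
    rw [div_le_iff₀ hn0] at this
    linarith
  set m : ℕ := ⌈(n : ℝ) * (v - u)⌉₊ with hm
  have hm1 : (n : ℝ) * (v - u) ≤ m := Nat.le_ceil _
  have hm2 : (m : ℝ) < (n : ℝ) * (v - u) + 1 := Nat.ceil_lt_add_one (by linarith)
  have hm0 : (0 : ℝ) < m := by linarith
  have hvu : 0 < v - u := by
    by_contra h
    have : (n : ℝ) * (v - u) ≤ 0 := mul_nonpos_of_nonneg_of_nonpos hn0.le (by linarith)
    linarith
  set h : ℝ := (v - u) / m with hh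
  have hh0 : 0 < h := div_pos hvu hm0
  have hmh : (m : ℝ) * h = v - u := by
    rw [hh]
    field_simp
  have hh1 : h ≤ 1 / n := by
    rw [hh, div_le_div_iff₀ hm0 hn0]
    linarith
  have hh2 : 1 ≤ 2 * n * h := by
    have : (m : ℝ) * 1 ≤ m * (2 * n * h) := by
      have : (m : ℝ) * (2 * n * h) = 2 * n * (v - u) := by
        rw [← hmh]; ring
      rw [this]
      linarith
    exact le_of_mul_le_mul_left this hm0
  set a : ℕ → ℝ := fun i => u + i * h with ha
  have ha0 : a 0 = u := by simp [ha]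
  have ham : a m = v := by
    simp only [ha]
    linarith
  have hstep : ∀ i, a (i + 1) - a i = h := by
    intro i
    simp only [ha]
    push_cast
    ring
  have hau : ∀ i, u ≤ a i := by
    intro i
    simp only [ha]
    have : 0 ≤ (i : ℝ) * h := by positivity
    linarith
  have hav : ∀ i, i ≤ m → a i ≤ v := by
    intro i hi
    rw [← ham]
    simp only [ha]
    have : (i : ℝ) ≤ m := by exact_mod_cast hi
    have := mul_le_mul_of_nonneg_right this hh0.le
    linarith
  have hwi : ∀ i < m, IntervalIntegrable w volume (a i) (a (i + 1)) := by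
    intro i hi
    have h1 := hstep i
    exact (hw.mono (Icc_subset_Icc (hau i) (hav (i + 1) (by omega)))).intervalIntegrable_of_Icc
      (by linarith)
  have hwgi : ∀ i < m, IntervalIntegrable (fun θ => w θ * g θ) volume (a i) (a (i + 1)) := by
    intro i hi
    have h1 := hstep i
    exact ((hw.mono (Icc_subset_Icc (hau i) (hav (i + 1) (by omega)))).mul
      hg.continuousOn).intervalIntegrable_of_Icc (by linarith)
  have s1 := intervalIntegral.sum_integral_adjacent_intervals hwi
  have s2 := intervalIntegral.sum_integral_adjacent_intervals hwgi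
  rw [ha0, ham] at s1 s2
  rw [← s1, ← s2, Finset.mul_sum]
  refine Finset.sum_le_sum ?_
  intro i hi
  have hi' : i < m := Finset.mem_range.mp hi
  have h1 := hstep i
  exact m3_cell hn hg hw hg0 hw0 hA1 hM hA (hau i) (by linarith) (hav (i + 1) (by omega))
    (by rw [h1]; exact hh1) (by rw [h1]; exact hh2)

end Pool.Agent.Helper10.AL
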