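import Pool.Agent.Helper10.AL.St8

/-!
The main result for bounded windows away from the end points from the pieces.
-/

set_option autoImplicit false

namespace Pool.Agent.Helper10.AL

open Polynomial Set Real MeasureTheory intervalIntegral
open Pool.Agent.Helper40.AS (arc Bdd Ext quad)

private theorem mainC_contact (hA2 : A2) {n : ℕ} {a b : ℝ} {P : ℝ[X]} (hn : 1 ≤ n) (ha : -1 < a)
    (hab : a < b) (hb : b < 1) (h : Ext n a b P) (hND : ND n (qq P) (arccos b) (arccos a))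
    (hE : ∀ θ ∈ Ioo (arccos b) (arccos a), deriv (qq P) θ = 0 → |qq P θ| = 1) :
    ∀ c ∈ Ioo (-1 : ℝ) 1, P.derivative.eval c = 0 →
      |P.eval c| = 1 ∧ P.derivative.derivative.eval c ≠ 0 := by
  intro c hc hc0
  rcases le_or_gt c a with h1 | h1
  · exact Pool.Agent.Helper40.AS.left_contact h hn hab hb.le hc.1 h1 hc0
  rcases le_or_gt b c with h2 | h2
  · exact Pool.Agent.Helper40.AS.right_contact h hn hab ha.le hc.2 h2 hc0
  have hcos : cos (arccos c) = c := Real.cos_arccos hc.1.le hc.2.le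
  have hθ : arccos c ∈ Ioo (arccos b) (arccos a) :=
    ⟨Real.arccos_lt_arccos (by linarith) h2 hb.le, Real.arccos_lt_arccos (by linarith) h1 hc.2.le⟩
  obtain ⟨hd1, hd2⟩ := hA2.2.2 P (arccos c)
  rw [hcos, hc0, mul_zero, neg_zero] at hd1
  rw [hcos, hc0, mul_zero, sub_zero] at hd2
  constructor
  · have h3 := hE _ hθ hd1
    unfold qq at h3
    rwa [hcos] at h3
  · intro h4
    have h5 := hND _ ⟨hθ.1.le, hθ.2.le⟩ (by rw [hd1, abs_zero]; positivity)
    rw [hd2, h4, mul_zero, abs_zero] at h5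
    have h6 : (1 : ℝ) ≤ n := by exact_mod_cast hn
    nlinarith

theorem mainC (_hA1 : A1) (hA2 : A2) (hG3c : G3c) (hHHc : HHc) (hI1g : I1g) (hS3e : S3e)
    (hS4e : S4e) : MainC := by
  intro K hK
  obtain ⟨R1, hR1, n1, h1⟩ := hS3e K 1 hK one_pos
  obtain ⟨R2, hR2, n2, h2⟩ := hS4e K hK
  obtain ⟨R3, hR3, n3, h3⟩ := hG3c K hK
  obtain ⟨R4, hR4, n4, h4⟩ := hHHc K hK
  refine ⟨R1 + R2 + R3 + R4, by positivity, n1 + n2 + n3 + n4 + 2, ?_⟩
  intro n hn a b P hW hP
  obtain ⟨ha, hab, hb, hKw, hRa, hRb⟩ := hW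
  have hWc : ∀ R' ≤ R1 + R2 + R3 + R4, Wc n R' K a b := fun R' hR' =>
    ⟨ha, hab, hb, hKw, by linarith, by linarith⟩
  have hRpos : 0 < R1 + R2 + R3 + R4 := by positivity
  have ha' : -1 < a := by
    rcases ha.lt_or_eq with h | h
    · exact h
    · exfalso
      rw [← h, Real.arccos_neg_one, Real.sin_pi, mul_zero] at hRa
      linarith
  have hb' : b < 1 := by
    rcases hb.lt_or_eq with h | h
    · exact h
    · exfalso
      rw [h, Real.arccos_one, Real.sin_zero, mul_zero] at hRb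
      linarith
  obtain ⟨-, hND, -⟩ := h1 n (by omega) a b P (hWc R1 (by linarith)) hP
  have hreal := h4 n (by omega) a b P (hWc R4 (by linarith)) hP
  obtain ⟨g1, g2, g3⟩ := h3 n (by omega) a b P (hWc R3 (by linarith)) hP
  have hc := mainC_contact hA2 (by omega) ha' hab hb' hP hND
    (fun θ hθ hd => h2 n (by omega) a b θ P (hWc R2 (by linarith)) hP hθ hd)
  exact ⟨hI1g n a b P (by omega) ha'.le hab hb'.le hP hreal hc g1 g2 g3, hc, hreal, g1⟩

end Pool.Agent.Helper10.AL
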