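import Pool.Agent.Helper10.AL.St7

/-!
The main result for all windows of angular length at least `R / n` from the pieces.
-/

set_option autoImplicit false

namespace Pool.Agent.Helper10.AL

open Polynomial Set Real MeasureTheory intervalIntegral
open Pool.Agent.Helper40.AS (arc Bdd Ext quad)

theorem mainE_deriv_refl (P : ℝ[X]) :
    (P.comp (-X)).derivative = -(P.derivative.comp (-X)) := by
  rw [derivative_comp]
  simp

theorem mainE_root_refl {P : ℝ[X]} (h : ∀ z : ℂ, aeval z (P.comp (-X)).derivative = 0 → z.im = 0) :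
    ∀ z : ℂ, aeval z P.derivative = 0 → z.im = 0 := by
  intro z hz
  have h1 := h (-z) (by
    rw [mainE_deriv_refl, map_neg, aeval_comp, map_neg, aeval_X, neg_neg, hz, neg_zero])
  simpa using h1

theorem mainE_natDegree_refl (P : ℝ[X]) : (P.comp (-X)).natDegree = P.natDegree := by
  rw [natDegree_comp, natDegree_neg, natDegree_X, mul_one]

theorem mainE_Gc_refl {n : ℕ} {P : ℝ[X]} (h : Gc n (P.comp (-X))) : Gc n P := by
  obtain ⟨h1, h2, h3⟩ := h
  rw [mainE_natDegree_refl] at h2 h3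
  refine ⟨?_, ?_, h3⟩
  · intro y1 y2 hy1 hy2 hd
    refine h1 (-y1) (-y2) (by rwa [abs_neg]) (by rwa [abs_neg]) ?_
    rw [mainE_deriv_refl, dvd_neg]
    obtain ⟨q, hq⟩ := hd
    refine ⟨q.comp (-X), ?_⟩
    rw [hq]
    simp only [mul_comp, sub_comp, X_comp, C_comp, map_neg]
    ring
  · intro hn y hy h0
    refine h2 hn (-y) (by rwa [abs_neg]) ?_
    rw [mainE_deriv_refl, eval_neg, eval_comp, eval_neg, eval_X, neg_neg, h0, neg_zero]

theorem mainE_contact (hA2 : A2) {n : ℕ} {a b : ℝ} {P : ℝ[X]} (hn : 1 ≤ n) (ha : -1 ≤ a)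
    (hab : a < b) (hb : b ≤ 1) (h : Ext n a b P) (hND : ND n (qq P) (arccos b) (arccos a))
    (hE : ∀ θ ∈ Ioo (arccos b) (arccos a), deriv (qq P) θ = 0 → |qq P θ| = 1) :
    ∀ c ∈ Ioo (-1 : ℝ) 1, P.derivative.eval c = 0 →
      |P.eval c| = 1 ∧ P.derivative.derivative.eval c ≠ 0 := by
  intro c hc hc0
  rcases le_or_gt c a with h1 | h1
  · exact Pool.Agent.Helper40.AS.left_contact h hn hab hb hc.1 h1 hc0
  rcases le_or_gt b c with h2 | h2
  · exact Pool.Agent.Helper40.AS.right_contact h hn hab ha hc.2 h2 hc0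
  have hcos : cos (arccos c) = c := Real.cos_arccos hc.1.le hc.2.le
  have hθ : arccos c ∈ Ioo (arccos b) (arccos a) :=
    ⟨Real.arccos_lt_arccos hc.1.le h2 hb, Real.arccos_lt_arccos ha h1 hc.2.le⟩
  obtain ⟨hd1, hd2⟩ := hA2.2.2 P (arccos c)
  rw [hcos, hc0, mul_zero, neg_zero] at hd1
  rw [hcos, hc0, mul_zero, sub_zero] at hd2
  constructor
  · have h3 := hE _ hθ hd1
    unfold qq at h3
    rwa [hcos] at h3
  · intro h4
    have h5 := hND _ ⟨hθ.1.le, hθ.2.le⟩ (by rw [hd1, abs_zero]; positivity)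
    rw [hd2, h4, mul_zero, abs_zero] at h5
    have h6 : (1 : ℝ) ≤ n := by exact_mod_cast hn
    nlinarith

theorem mainE (_hA1 : A1) (hA2 : A2) (hE6e : E6e) (hE8e : E8e) (hG3r : G3r) (hG3s : G3s)
    (hHHl : HHl) (hHHs : HHs) (hI1g : I1g) (hX0 : X0) : MainE := by
  obtain ⟨η1, R1, hη1, hR1, n1, h1⟩ := hHHs
  obtain ⟨η2, R2, hη2, hR2, n2, h2⟩ := hG3s
  have hη : 0 < min η1 η2 := lt_min hη1 hη2
  obtain ⟨R3, hR3, n3, h3⟩ := hHHl _ hη
  obtain ⟨R4, hR4, n4, h4⟩ := hG3r _ hη
  obtain ⟨R5, hR5, n5, h5⟩ := hE6e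
  obtain ⟨R6, hR6, n6, h6⟩ := hE8e
  have hm1 : min η1 η2 ≤ η1 := min_le_left _ _
  have hm2 : min η1 η2 ≤ η2 := min_le_right _ _
  set η := min η1 η2 with hηdef
  refine ⟨R1 + R2 + R3 + R4 + R5 + R6, by positivity, n1 + n2 + n3 + n4 + n5 + n6 + 2, ?_⟩
  intro n hn a b P ha hab hb hR hP
  have hL : 0 < arccos a - arccos b := by
    have := Real.arccos_lt_arccos ha hab hb
    linarith
  have hrefl : Ext n (-b) (-a) (P.comp (-X)) := hX0.2.2 n a b P hP
  have eL : arccos (-b) - arccos (-a) = arccos a - arccos b := by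
    rw [Real.arccos_neg, Real.arccos_neg]; ring
  have hW : ∀ r : ℝ, r ≤ R1 + R2 + R3 + R4 + R5 + R6 → Wd n r a b :=
    fun r hr => ⟨ha, hab, hb, hr.trans hR⟩
  have hW' : ∀ r : ℝ, r ≤ R1 + R2 + R3 + R4 + R5 + R6 → Wd n r (-b) (-a) :=
    fun r hr => ⟨by linarith, by linarith, by linarith, by rw [eL]; exact hr.trans hR⟩
  have hND := h5 n (by omega) a b P (hW R5 (by linarith)) hP
  have hND' := h5 n (by omega) (-b) (-a) _ (hW' R5 (by linarith)) hrefl
  have hreal : ∀ z : ℂ, aeval z P.derivative = 0 → z.im = 0 := by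
    rcases le_or_gt (π - arccos a) (η * (arccos a - arccos b)) with hl | hl
    · exact h1 n (by omega) a b P (hW R1 (by linarith))
        (hl.trans (mul_le_mul_of_nonneg_right hm1 hL.le)) hP
    rcases le_or_gt (arccos b) (η * (arccos a - arccos b)) with hr | hr
    · apply mainE_root_refl
      refine h1 n (by omega) (-b) (-a) _ (hW' R1 (by linarith)) ?_ hrefl
      rw [eL, Real.arccos_neg]
      have := mul_le_mul_of_nonneg_right hm1 hL.le
      linarith
    · exact h3 n (by omega) a b P (hW R3 (by linarith)) hr.le hl.le hP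
  have hGc : Gc n P := by
    rcases le_or_gt (η * (arccos a - arccos b)) (arccos b) with hr | hr
    · exact h4 n (by omega) a b P (hW R4 (by linarith)) hr hP hND
    rcases le_or_gt (η * (arccos a - arccos b)) (π - arccos a) with hl | hl
    · apply mainE_Gc_refl
      refine h4 n (by omega) (-b) (-a) _ (hW' R4 (by linarith)) ?_ hrefl hND'
      rw [eL, Real.arccos_neg a]
      exact hl
    · exact h2 n (by omega) a b P (hW R2 (by linarith))
        (hl.le.trans (mul_le_mul_of_nonneg_right hm2 hL.le))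
        (hr.le.trans (mul_le_mul_of_nonneg_right hm2 hL.le)) hP
  obtain ⟨g1, g2, g3⟩ := hGc
  have hc := mainE_contact hA2 (by omega) ha hab hb hP hND
    (fun θ hθ hd => h6 n (by omega) a b θ P (hW R6 (by linarith)) hP hθ hd)
  exact ⟨hI1g n a b P (by omega) ha hab hb hP hreal hc g1 g2 g3, hc, hreal, g1⟩

end Pool.Agent.Helper10.AL
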