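import Pool.Agent.Helper10.AL.St8

/-!
Arc length of polynomials: all windows away from small neighbourhoods of the end points.
-/

set_option autoImplicit false

namespace Pool.Agent.Helper10.AL

open Polynomial Set Real MeasureTheory intervalIntegral
open Pool.Agent.Helper40.AS (arc Bdd Ext quad)

noncomputable section

lemma mainF_sin {t x : ℝ} (ht : 0 ≤ t) (h1 : 2 * t ≤ x) (h2 : 2 * t ≤ π - x) : t ≤ sin x := by
  have hpi := Real.pi_pos
  have hpi4 := Real.pi_le_four
  rcases le_total x (π / 2) with h | h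
  · have hx : 0 ≤ x := by linarith
    have := Real.mul_le_sin hx h
    have h3 : t ≤ 2 / π * x := by
      rw [div_mul_eq_mul_div, le_div_iff₀ hpi]
      nlinarith
    linarith
  · have hx : 0 ≤ π - x := by linarith
    have := Real.mul_le_sin hx (by linarith : π - x ≤ π / 2)
    rw [Real.sin_pi_sub] at this
    have h3 : t ≤ 2 / π * (π - x) := by
      rw [div_mul_eq_mul_div, le_div_iff₀ hpi]
      nlinarith
    linarith

lemma mainF_ang {S x n : ℝ} (hS : 0 < S) (hn : 0 < n) (hx : 0 ≤ x)
    (h : 20 * S ^ 2 / n ^ 2 ≤ 1 - cos x) : 3 * S / n ≤ x := by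
  have h1 := Real.one_sub_sq_div_two_le_cos (x := x)
  have h2 : 20 * S ^ 2 / n ^ 2 ≤ x ^ 2 / 2 := by linarith
  have h3 : (3 * S / n) ^ 2 ≤ x ^ 2 := by
    have : (3 * S / n) ^ 2 = 9 * (S ^ 2 / n ^ 2) := by ring
    rw [this]
    have h4 : 20 * S ^ 2 / n ^ 2 = 20 * (S ^ 2 / n ^ 2) := by ring
    rw [h4] at h2
    have h5 : 0 ≤ S ^ 2 / n ^ 2 := by positivity
    linarith
  exact abs_le_of_sq_le_sq' h3 hx |>.2

theorem mainF (hMainC : MainC) (hMainE : MainE) : MainF := by
  obtain ⟨R, hR, nE, hE⟩ := hMainE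
  obtain ⟨R1, hR1, nC, hC⟩ := hMainC R hR
  refine ⟨20 * (R + R1) ^ 2, by positivity, max (max nE nC) 1, ?_⟩
  intro n hn a b P ha hab hb ha1 hb1 hP
  have hnE : nE ≤ n := le_trans (le_trans (le_max_left _ _) (le_max_left _ _)) hn
  have hnC : nC ≤ n := le_trans (le_trans (le_max_right _ _) (le_max_left _ _)) hn
  have hn1 : 1 ≤ n := le_trans (le_max_right _ _) hn
  have hn0 : (0 : ℝ) < n := by exact_mod_cast hn1
  by_cases hc : R ≤ n * (arccos a - arccos b)
  · exact hE n hnE a b P ha hab hb hc hP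
  · push Not at hc
    have hca : cos (arccos a) = a := Real.cos_arccos ha (by linarith)
    have hcb : cos (arccos b) = b := Real.cos_arccos (by linarith) hb
    have hS : 0 < R + R1 := by linarith
    have h1 : 3 * (R + R1) / n ≤ arccos a := by
      apply mainF_ang hS hn0 (Real.arccos_nonneg a)
      rw [hca]; linarith
    have h2 : 3 * (R + R1) / n ≤ π - arccos b := by
      apply mainF_ang hS hn0 (by linarith [Real.arccos_le_pi b])
      rw [Real.cos_pi_sub, hcb]; linarith
    have hlt : arccos b < arccos a := Real.strictAntiOn_arccos ⟨ha, by linarith⟩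
      ⟨by linarith, hb⟩ hab
    have hd : arccos a - arccos b ≤ R / n := by
      rw [le_div_iff₀ hn0]; linarith
    have hRn : 0 < R / n := by positivity
    have hR1n : 0 < R1 / n := by positivity
    have e1 : 3 * (R + R1) / n = 3 * (R / n) + 3 * (R1 / n) := by ring
    rw [e1] at h1 h2
    have hsa : R1 / n ≤ sin (arccos a) :=
      mainF_sin hR1n.le (by linarith) (by linarith)
    have hsb : R1 / n ≤ sin (arccos b) :=
      mainF_sin hR1n.le (by linarith) (by linarith)
    refine hC n hnC a b P ⟨ha, hab, hb, hc.le, ?_, ?_⟩ hP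
    · rw [div_le_iff₀ hn0] at hsa; linarith
    · rw [div_le_iff₀ hn0] at hsb; linarith

end

end Pool.Agent.Helper10.AL
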