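import Pool.Agent.Helper10.AL.St

/-!
Monotonicity, boundedness and continuity of the majorant `Gm`.
-/

set_option autoImplicit false

namespace Pool.Agent.Helper10.AL

open Real

theorem n0_mono (μ μ' ψ ψ' s s' : ℝ) (h1 : 0 ≤ μ) (h2 : μ ≤ μ') (h3 : 0 ≤ ψ) (h4 : ψ ≤ ψ')
    (h5 : 0 ≤ s) (h6 : s ≤ s') : Gm μ ψ s ≤ Gm μ' ψ' s' := by
  unfold Gm
  have h7 : s ^ 2 + 2 * μ * ψ * s + ψ ^ 2 ≤ s' ^ 2 + 2 * μ' * ψ' * s' + ψ' ^ 2 := by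
    have a1 : s ^ 2 ≤ s' ^ 2 := by gcongr
    have a2 : ψ ^ 2 ≤ ψ' ^ 2 := by gcongr
    have a3 : 2 * μ * ψ * s ≤ 2 * μ' * ψ' * s' := by
      have b1 : 0 ≤ μ' := h1.trans h2
      have b2 : 0 ≤ ψ' := h3.trans h4
      gcongr
    linarith
  have h8 : min (√(s ^ 2 + 2 * μ * ψ * s + ψ ^ 2)) π ≤
      min (√(s' ^ 2 + 2 * μ' * ψ' * s' + ψ' ^ 2)) π :=
    min_le_min (Real.sqrt_le_sqrt h7) le_rfl
  have h9 : 0 ≤ min (√(s ^ 2 + 2 * μ * ψ * s + ψ ^ 2)) π :=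
    le_min (Real.sqrt_nonneg _) Real.pi_pos.le
  have h10 := Real.cos_le_cos_of_nonneg_of_le_pi h9 (min_le_right _ _) h8
  linarith

theorem n0 : N0 := by
  refine ⟨n0_mono, ?_, ?_⟩
  · intro μ ψ s
    unfold Gm
    rw [abs_neg]
    exact Real.abs_cos_le_one _
  · intro μ ψ
    unfold Gm
    fun_prop

end Pool.Agent.Helper10.AL
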