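import Pool.Agent.Helper10.AL.St

/-!
Piece N1: numerical bounds for the majorant `Gm` at small slope.
-/

set_option autoImplicit false

namespace Pool.Agent.Helper10.AL

open Polynomial Set Real MeasureTheory intervalIntegral

noncomputable section

/-- bound of `Gm` by the sine of a quadratic majorant -/
theorem n1_pt (μ ψ s r : ℝ) (h1 : 0 ≤ μ) (h2 : μ ≤ 0.0011) (h3 : π / 2 ≤ ψ)
    (h4 : ψ ≤ π / 2 + 0.0011) (hr : 0 < r) (hr2 : r ≤ 2.25) (hr1 : 1.6 ≤ r)
    (hs : 0 ≤ s) (hs2 : s ≤ 1.6) :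
    ∃ y : ℝ, 0 ≤ y ∧ y ≤ (s ^ 2 + 0.0034582 * s + 2.47087) / (2 * r) + r / 2 - 1.57075 ∧ y ≤ 3 / 2 ∧
      Gm μ ψ s ≤ sin y := by
  have hpi1 : (3.1415 : ℝ) < π := pi_gt_d4
  have hpi2 : π < (3.1416 : ℝ) := pi_lt_d4
  set A : ℝ := s ^ 2 + 2 * μ * ψ * s + ψ ^ 2 with hA
  have hψ : ψ ≤ 1.5719 := by linarith
  have hψ0 : 0 ≤ ψ := by linarith
  have hmp : μ * ψ ≤ 0.0017291 := by nlinarith
  have hmp0 : 0 ≤ μ * ψ := mul_nonneg h1 hψ0
  have hψ2 : ψ ^ 2 ≤ 2.47087 := by nlinarith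
  have hA1 : A ≤ s ^ 2 + 0.0034582 * s + 2.47087 := by
    rw [hA]; nlinarith
  have hA0 : ψ ^ 2 ≤ A := by
    rw [hA]; nlinarith [mul_nonneg hmp0 hs, sq_nonneg s]
  have hA00 : 0 ≤ A := le_trans (sq_nonneg _) hA0
  have hsq : ψ ≤ √A := Real.le_sqrt_of_sq_le hA0
  have hsq2 : √A ^ 2 = A := Real.sq_sqrt hA00
  have hx : √A ≤ A / (2 * r) + r / 2 := by
    rw [← sub_nonneg]
    have : A / (2 * r) + r / 2 - √A = (√A - r) ^ 2 / (2 * r) := by
      field_simp
      nlinarith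
    rw [this]; positivity
  have hx2 : A / (2 * r) + r / 2 ≤ (s ^ 2 + 0.0034582 * s + 2.47087) / (2 * r) + r / 2 := by
    have : A / (2 * r) ≤ (s ^ 2 + 0.0034582 * s + 2.47087) / (2 * r) :=
      div_le_div_of_nonneg_right hA1 (by positivity)
    linarith
  have hx3 : (s ^ 2 + 0.0034582 * s + 2.47087) / (2 * r) + r / 2 ≤ 2.9 := by
    have h5 : (s ^ 2 + 0.0034582 * s + 2.47087) / (2 * r) ≤ 5.04 / 3.2 := by
      rw [div_le_div_iff₀ (by positivity) (by norm_num)]
      have : s ^ 2 ≤ 2.56 := by nlinarith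
      nlinarith
    linarith
  refine ⟨A / (2 * r) + r / 2 - π / 2, by linarith, by linarith, by linarith, ?_⟩
  rw [Real.sin_sub_pi_div_two]
  unfold Gm
  rw [← hA]
  have h6 : cos (A / (2 * r) + r / 2) ≤ cos (min (√A) π) := by
    apply Real.cos_le_cos_of_nonneg_of_le_pi
    · exact le_min (Real.sqrt_nonneg _) (by linarith)
    · linarith
    · exact le_trans (min_le_left _ _) hx
  linarith

theorem n1_sin (y : ℝ) (h0 : 0 ≤ y) (h1 : y ≤ 1) : sin y ≤ y - y ^ 3 / 6 + y ^ 4 * (5 / 96) := by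
  have := Real.sin_bound (x := y) (by rw [abs_of_nonneg h0]; exact h1)
  rw [abs_of_nonneg h0] at this
  have h2 := (abs_le.mp this).2
  have h3 : y ^ 5 ≤ y ^ 4 := by
    have h4 : 0 ≤ y ^ 4 := by positivity
    calc y ^ 5 = y ^ 4 * y := by ring
      _ ≤ y ^ 4 * 1 := mul_le_mul_of_nonneg_left h1 h4
      _ = y ^ 4 := by ring
  have h4 : 0 ≤ y ^ 4 := by positivity
  linarith

theorem n1_quad (a b c u v : ℝ) : (∫ s in u..v, (a + b * s + c * s ^ 2)) =
    a * (v - u) + b * (v ^ 2 - u ^ 2) / 2 + c * (v ^ 3 - u ^ 3) / 3 := by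
  have hi1 : IntervalIntegrable (fun _ : ℝ => a) volume u v := intervalIntegrable_const
  have hi2 : IntervalIntegrable (fun s : ℝ => b * s) volume u v :=
    (continuous_const.mul continuous_id).intervalIntegrable _ _
  have hi3 : IntervalIntegrable (fun s : ℝ => c * s ^ 2) volume u v :=
    (continuous_const.mul (continuous_id.pow 2)).intervalIntegrable _ _
  rw [intervalIntegral.integral_add (hi1.add hi2) hi3, intervalIntegral.integral_add hi1 hi2,
    intervalIntegral.integral_const, intervalIntegral.integral_const_mul,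
    intervalIntegral.integral_const_mul, integral_id, integral_pow]
  simp only [smul_eq_mul]
  push_cast
  ring

theorem n1_piece (μ ψ u v a b c : ℝ) (huv : u ≤ v) (hc : Continuous (Gm μ ψ))
    (h : ∀ s ∈ Icc u v, Gm μ ψ s ≤ a + b * s + c * s ^ 2) :
    (∫ s in u..v, Gm μ ψ s) ≤ a * (v - u) + b * (v ^ 2 - u ^ 2) / 2 + c * (v ^ 3 - u ^ 3) / 3 := by
  rw [← n1_quad]
  apply intervalIntegral.integral_mono_on huv (hc.intervalIntegrable _ _) _ h
  exact (by fun_prop : Continuous fun s : ℝ => a + b * s + c * s ^ 2).intervalIntegrable _ _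

theorem n1 (hN0 : N0) : N1 := by
  obtain ⟨hmono, hbd, hcont⟩ := hN0
  intro μ ψ h1 h2 h3 h4
  have hpi1 : (3.1415 : ℝ) < π := pi_gt_d4
  have hpi2 : π < (3.1416 : ℝ) := pi_lt_d4
  have hc := hcont μ ψ
  constructor
  · have e : (∫ s in (0 : ℝ)..1.6, Gm μ ψ s) = (∫ s in (0 : ℝ)..0.8, Gm μ ψ s) +
        (∫ s in (0.8 : ℝ)..1.3, Gm μ ψ s) + (∫ s in (1.3 : ℝ)..1.6, Gm μ ψ s) := by
      rw [intervalIntegral.integral_add_adjacent_intervals (hc.intervalIntegrable _ _)
        (hc.intervalIntegrable _ _), intervalIntegral.integral_add_adjacent_intervals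
        (hc.intervalIntegrable _ _) (hc.intervalIntegrable _ _)]
    have p1 := n1_piece μ ψ 0 0.8 (2.47087 / (2 * 1.64) + 1.64 / 2 - 1.57075)
      (0.0034582 / (2 * 1.64)) (1 / (2 * 1.64)) (by norm_num) hc (by
        intro s hs
        obtain ⟨y, y0, y1, -, y2⟩ := n1_pt μ ψ s 1.64 h1 h2 h3 h4 (by norm_num) (by norm_num)
          (by norm_num) hs.1 (by linarith [hs.2])
        have := Real.sin_le y0
        calc Gm μ ψ s ≤ y := le_trans y2 this
          _ ≤ _ := y1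
          _ = _ := by ring)
    have p2 := n1_piece μ ψ 0.8 1.3
      (0.0125 + 0.947 * (2.47087 / (2 * 1.9) + 1.9 / 2 - 1.57075))
      (0.947 * (0.0034582 / (2 * 1.9))) (0.947 * (1 / (2 * 1.9))) (by norm_num) hc (by
        intro s hs
        obtain ⟨y, y0, y1, -, y2⟩ := n1_pt μ ψ s 1.9 h1 h2 h3 h4 (by norm_num) (by norm_num)
          (by norm_num) (by linarith [hs.1]) (by linarith [hs.2])
        have hy1 : y ≤ 1 := by
          refine le_trans y1 ?_
          have : s ^ 2 ≤ 1.69 := by nlinarith [hs.1, hs.2]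
          have h7 : (s ^ 2 + 0.0034582 * s + 2.47087) / (2 * 1.9) ≤ 1.2 := by
            rw [div_le_iff₀ (by norm_num)]
            linarith [hs.2]
          linarith
        have := n1_sin y y0 hy1
        have h8 : y - y ^ 3 / 6 + y ^ 4 * (5 / 96) ≤ 0.0125 + 0.947 * y := by
          nlinarith [mul_nonneg y0 (sq_nonneg (y - 0.35)), sq_nonneg (y - 0.35),
            mul_nonneg (mul_nonneg y0 (sub_nonneg.2 hy1)) (sq_nonneg (y - 0.35)),
            mul_nonneg y0 (sub_nonneg.2 hy1)]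
        calc Gm μ ψ s ≤ 0.0125 + 0.947 * y := le_trans y2 (le_trans this h8)
          _ ≤ 0.0125 + 0.947 * ((s ^ 2 + 0.0034582 * s + 2.47087) / (2 * 1.9) + 1.9 / 2 - 1.57075) := by
              linarith
          _ = _ := by ring)
    have p3 := n1_piece μ ψ 1.3 1.6
      (0.067 + 0.842 * (2.47087 / (2 * 2.14) + 2.14 / 2 - 1.57075))
      (0.842 * (0.0034582 / (2 * 2.14))) (0.842 * (1 / (2 * 2.14))) (by norm_num) hc (by
        intro s hs
        obtain ⟨y, y0, y1, -, y2⟩ := n1_pt μ ψ s 2.14 h1 h2 h3 h4 (by norm_num) (by norm_num)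
          (by norm_num) (by linarith [hs.1]) (by linarith [hs.2])
        have hy1 : y ≤ 1 := by
          refine le_trans y1 ?_
          have : s ^ 2 ≤ 2.56 := by nlinarith [hs.1, hs.2]
          have h7 : (s ^ 2 + 0.0034582 * s + 2.47087) / (2 * 2.14) ≤ 1.2 := by
            rw [div_le_iff₀ (by norm_num)]
            linarith [hs.2]
          linarith
        have := n1_sin y y0 hy1
        have h8 : y - y ^ 3 / 6 + y ^ 4 * (5 / 96) ≤ 0.067 + 0.842 * y := by
          nlinarith [mul_nonneg y0 (sq_nonneg (y - 0.66)), sq_nonneg (y - 0.66),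
            mul_nonneg (mul_nonneg y0 (sub_nonneg.2 hy1)) (sq_nonneg (y - 0.66)),
            mul_nonneg y0 (sub_nonneg.2 hy1)]
        calc Gm μ ψ s ≤ 0.067 + 0.842 * y := le_trans y2 (le_trans this h8)
          _ ≤ 0.067 + 0.842 * ((s ^ 2 + 0.0034582 * s + 2.47087) / (2 * 2.14) + 2.14 / 2 - 1.57075) := by
              linarith
          _ = _ := by ring)
    rw [e]
    refine le_trans (add_le_add (add_le_add p1 p2) p3) ?_
    norm_num
  · intro s hs
    have hle : Gm μ ψ s ≤ Gm μ ψ 1.6 :=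
      hmono μ μ ψ ψ s 1.6 h1 le_rfl (by linarith) le_rfl hs.1 hs.2
    obtain ⟨y, y0, y1, -, y2⟩ := n1_pt μ ψ 1.6 2.24 h1 h2 h3 h4 (by norm_num) (by norm_num)
          (by norm_num) (by norm_num) le_rfl
    have hy : y ≤ 0.6755 := by
      refine le_trans y1 ?_
      norm_num
    have h7 := n1_sin y y0 (by linarith)
    have h8 : y - y ^ 3 / 6 + y ^ 4 * (5 / 96) ≤ 0.636 := by
      nlinarith [mul_nonneg y0 y0, mul_nonneg (mul_nonneg y0 y0) y0, sq_nonneg (y - 0.6755),
        mul_nonneg y0 (sub_nonneg.2 hy), mul_nonneg (mul_nonneg y0 y0) (sub_nonneg.2 hy),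
        mul_nonneg (mul_nonneg (mul_nonneg y0 y0) y0) (sub_nonneg.2 hy)]
    have h9 : (0.636 : ℝ) ≤ 2 / π := by
      rw [le_div_iff₀ (by linarith)]
      linarith
    linarith

end

end Pool.Agent.Helper10.AL
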