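import Pool.Agent.Helper10.AL.St

/-!
Piece N2: numerical bounds for the majorant `Gm` at slope `0.265`.
-/

set_option autoImplicit false

namespace Pool.Agent.Helper10.AL

open Polynomial Set Real MeasureTheory intervalIntegral

noncomputable section

/-- bound of `Gm` by the sine of a quadratic majorant -/
theorem n2_pt (s r : ℝ) (hr1 : 1.6 ≤ r) (hr2 : r ≤ 2.3) (hs : 0 ≤ s) (hs2 : s ≤ 1.26) :
    ∃ y : ℝ, 0 ≤ y ∧ y ≤ (s ^ 2 + 0.832524 * s + 2.467413) / (2 * r) + r / 2 - 1.57075 ∧ y ≤ 3 / 2 ∧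
      Gm 0.265 (π / 2) s ≤ sin y := by
  have hpi1 : (3.1415 : ℝ) < π := pi_gt_d4
  have hpi2 : π < (3.1416 : ℝ) := pi_lt_d4
  have hr : 0 < r := by linarith
  set A : ℝ := s ^ 2 + 2 * 0.265 * (π / 2) * s + (π / 2) ^ 2 with hA
  have hψ2 : (π / 2) ^ 2 ≤ 2.467413 := by nlinarith
  have hA1 : A ≤ s ^ 2 + 0.832524 * s + 2.467413 := by
    rw [hA]; nlinarith
  have hA0 : (π / 2) ^ 2 ≤ A := by
    have : 0 ≤ 2 * 0.265 * (π / 2) * s := by positivity
    rw [hA]; nlinarith [sq_nonneg s]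
  have hA00 : 0 ≤ A := le_trans (sq_nonneg _) hA0
  have hsq : π / 2 ≤ √A := Real.le_sqrt_of_sq_le hA0
  have hsq2 : √A ^ 2 = A := Real.sq_sqrt hA00
  have hx : √A ≤ A / (2 * r) + r / 2 := by
    rw [← sub_nonneg]
    have : A / (2 * r) + r / 2 - √A = (√A - r) ^ 2 / (2 * r) := by
      field_simp
      nlinarith
    rw [this]; positivity
  have hx2 : A / (2 * r) + r / 2 ≤ (s ^ 2 + 0.832524 * s + 2.467413) / (2 * r) + r / 2 := by
    have : A / (2 * r) ≤ (s ^ 2 + 0.832524 * s + 2.467413) / (2 * r) :=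
      div_le_div_of_nonneg_right hA1 (by positivity)
    linarith
  have hx3 : (s ^ 2 + 0.832524 * s + 2.467413) / (2 * r) + r / 2 ≤ 2.8 := by
    have h5 : (s ^ 2 + 0.832524 * s + 2.467413) / (2 * r) ≤ 5.12 / 3.2 := by
      rw [div_le_div_iff₀ (by positivity) (by norm_num)]
      have : s ^ 2 ≤ 1.5876 := by nlinarith
      nlinarith
    linarith
  refine ⟨A / (2 * r) + r / 2 - π / 2, by linarith, by linarith, by linarith, ?_⟩
  rw [Real.sin_sub_pi_div_two]
  unfold Gm
  rw [← hA]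
  have h6 : cos (A / (2 * r) + r / 2) ≤ cos (min (√A) π) := by
    apply Real.cos_le_cos_of_nonneg_of_le_pi
    · exact le_min (Real.sqrt_nonneg _) (by linarith)
    · linarith
    · exact le_trans (min_le_left _ _) hx
  linarith

theorem n2_sin (y : ℝ) (h0 : 0 ≤ y) (h1 : y ≤ 1) : sin y ≤ y - y ^ 3 / 6 + y ^ 5 / 100 := by
  have := Real.sin_bound (x := y) (by rw [abs_of_nonneg h0]; exact h1)
  rw [abs_of_nonneg h0] at this
  have h2 := (abs_le.mp this).2
  linarith

theorem n2_quad (a b c u v : ℝ) : (∫ s in u..v, (a + b * s + c * s ^ 2)) =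
    a * (v - u) + b * (v ^ 2 - u ^ 2) / 2 + c * (v ^ 3 - u ^ 3) / 3 := by
  have hi1 : IntervalIntegrable (fun _ : ℝ => a) volume u v := intervalIntegrable_const
  have hi2 : IntervalIntegrable (fun s : ℝ => b * s) volume u v :=
    (continuous_const.mul continuous_id).intervalIntegrable _ _
  have hi3 : IntervalIntegrable (fun s : ℝ => c * s ^ 2) volume u v :=
    (continuous_const.mul (continuous_id.pow 2)).intervalIntegrable _ _
  rw [intervalIntegral.integral_add (hi1.add hi2) hi3, intervalIntegral.integral_add hi1 hi2,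
    intervalIntegral.integral_const, intervalIntegral.integral_const_mul,
    intervalIntegral.integral_const_mul, integral_id, integral_pow]
  simp only [smul_eq_mul]
  push_cast
  ring

theorem n2_piece (μ ψ u v a b c : ℝ) (huv : u ≤ v) (hc : Continuous (Gm μ ψ))
    (h : ∀ s ∈ Icc u v, Gm μ ψ s ≤ a + b * s + c * s ^ 2) :
    (∫ s in u..v, Gm μ ψ s) ≤ a * (v - u) + b * (v ^ 2 - u ^ 2) / 2 + c * (v ^ 3 - u ^ 3) / 3 := by
  rw [← n2_quad]
  apply intervalIntegral.integral_mono_on huv (hc.intervalIntegrable _ _) _ h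
  exact (by fun_prop : Continuous fun s : ℝ => a + b * s + c * s ^ 2).intervalIntegrable _ _

theorem n2_tan (y : ℝ) (h0 : 0 ≤ y) (h1 : y ≤ 1) : y - y ^ 3 / 6 + y ^ 5 / 100 ≤
    0.0276 + 0.91 * y := by
  nlinarith [mul_nonneg h0 (sq_nonneg (y - 0.44)), sq_nonneg (y - 0.44),
    mul_nonneg (mul_nonneg h0 (sub_nonneg.2 h1)) (sq_nonneg (y - 0.44)),
    mul_nonneg h0 (sub_nonneg.2 h1), mul_nonneg (mul_nonneg h0 h0) (sq_nonneg (y - 0.44)),
    mul_nonneg (mul_nonneg h0 h0) (mul_nonneg h0 (sub_nonneg.2 h1)),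
    mul_nonneg (mul_nonneg h0 h0) (sub_nonneg.2 h1)]

theorem n2 (hN0 : N0) : N2 := by
  obtain ⟨hmono, hbd, hcont⟩ := hN0
  have hpi1 : (3.1415 : ℝ) < π := pi_gt_d4
  have hpi2 : π < (3.1416 : ℝ) := pi_lt_d4
  have hc := hcont 0.265 (π / 2)
  constructor
  · have e : (∫ s in (0 : ℝ)..1.26, Gm 0.265 (π / 2) s) =
        (∫ s in (0 : ℝ)..0.6, Gm 0.265 (π / 2) s) +
        (∫ s in (0.6 : ℝ)..1.26, Gm 0.265 (π / 2) s) := by
      rw [intervalIntegral.integral_add_adjacent_intervals (hc.intervalIntegrable _ _)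
        (hc.intervalIntegrable _ _)]
    have p1 := n2_piece 0.265 (π / 2) 0 0.6 (2.467413 / (2 * 1.69) + 1.69 / 2 - 1.57075)
      (0.832524 / (2 * 1.69)) (1 / (2 * 1.69)) (by norm_num) hc (by
        intro s hs
        obtain ⟨y, y0, y1, -, y2⟩ := n2_pt s 1.69 (by norm_num) (by norm_num)
          hs.1 (by linarith [hs.2])
        have := Real.sin_le y0
        calc Gm 0.265 (π / 2) s ≤ y := le_trans y2 this
          _ ≤ _ := y1
          _ = _ := by ring)
    have p2 := n2_piece 0.265 (π / 2) 0.6 1.26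
      (0.0276 + 0.91 * (2.467413 / (2 * 2.03) + 2.03 / 2 - 1.57075))
      (0.91 * (0.832524 / (2 * 2.03))) (0.91 * (1 / (2 * 2.03))) (by norm_num) hc (by
        intro s hs
        obtain ⟨y, y0, y1, -, y2⟩ := n2_pt s 2.03 (by norm_num)
          (by norm_num) (by linarith [hs.1]) (by linarith [hs.2])
        have hy1 : y ≤ 1 := by
          refine le_trans y1 ?_
          have : s ^ 2 ≤ 1.5876 := by nlinarith [hs.1, hs.2]
          have h7 : (s ^ 2 + 0.832524 * s + 2.467413) / (2 * 2.03) ≤ 1.3 := by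
            rw [div_le_iff₀ (by norm_num)]
            linarith [hs.2]
          linarith
        have := n2_sin y y0 hy1
        have h8 := n2_tan y y0 hy1
        calc Gm 0.265 (π / 2) s ≤ 0.0276 + 0.91 * y := le_trans y2 (le_trans this h8)
          _ ≤ 0.0276 + 0.91 * ((s ^ 2 + 0.832524 * s + 2.467413) / (2 * 2.03) + 2.03 / 2 -
              1.57075) := by
              linarith
          _ = _ := by ring)
    rw [e]
    refine le_trans (add_le_add p1 p2) ?_
    norm_num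
  · intro s hs
    have hle : Gm 0.265 (π / 2) s ≤ Gm 0.265 (π / 2) 1.26 :=
      hmono 0.265 0.265 (π / 2) (π / 2) s 1.26 (by norm_num) le_rfl (by linarith) le_rfl hs.1 hs.2
    obtain ⟨y, y0, y1, -, y2⟩ := n2_pt 1.26 2.26 (by norm_num) (by norm_num)
          (by norm_num) le_rfl
    have hy : y ≤ 0.68846 := by
      refine le_trans y1 ?_
      norm_num
    have h7 := n2_sin y y0 (by linarith)
    have h8 : y - y ^ 3 / 6 + y ^ 5 / 100 ≤ 0.6363 := by
      have hz : 0 ≤ 0.68846 - y := by linarith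
      nlinarith [mul_nonneg y0 y0, mul_nonneg (mul_nonneg y0 y0) y0, sq_nonneg (y - 0.68846),
        mul_nonneg y0 hz, mul_nonneg (mul_nonneg y0 y0) hz,
        mul_nonneg (mul_nonneg (mul_nonneg y0 y0) y0) hz,
        mul_nonneg (mul_nonneg (mul_nonneg (mul_nonneg y0 y0) y0) y0) hz,
        mul_nonneg y0 (sq_nonneg (y - 0.68846))]
    have h9 : (0.6363 : ℝ) ≤ 2 / π := by
      rw [le_div_iff₀ (by linarith)]
      linarith
    linarith

end

end Pool.Agent.Helper10.AL
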