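import Pool.Agent.Helper10.AL.St

/-!
Arc length of polynomials over compact windows, large degree: piece N3.
-/

set_option autoImplicit false

namespace Pool.Agent.Helper10.AL

open Real

/-- tangent lines of the sine -/
theorem n3_tangent (c y : ℝ) (hc0 : 0 ≤ c) (hc : c ≤ π) (hy0 : 0 ≤ y) (hy : y ≤ π) :
    sin y ≤ sin c + cos c * (y - c) := by
  rcases lt_trichotomy y c with h | h | h
  · obtain ⟨t, ht, h1⟩ := exists_hasDerivAt_eq_slope sin cos h
      (continuous_sin.continuousOn) (fun t _ => hasDerivAt_sin t)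
    have h2 : cos c ≤ cos t := cos_le_cos_of_nonneg_of_le_pi (hy0.trans ht.1.le) hc ht.2.le
    have h3 : sin c - sin y = cos t * (c - y) := by
      rw [h1]
      have : c - y ≠ 0 := by linarith
      field_simp
    nlinarith
  · rw [h]
    linarith
  · obtain ⟨t, ht, h1⟩ := exists_hasDerivAt_eq_slope sin cos h
      (continuous_sin.continuousOn) (fun t _ => hasDerivAt_sin t)
    have h2 : cos t ≤ cos c := cos_le_cos_of_nonneg_of_le_pi hc0 (ht.2.le.trans hy) ht.1.le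
    have h3 : sin y - sin c = cos t * (y - c) := by
      rw [h1]
      have : y - c ≠ 0 := by linarith
      field_simp
    nlinarith

/-- the majorant for the sine in terms of the radius -/
theorem n3_key (y G : ℝ) (hG0 : 0 ≤ G) (hG1 : G ≤ 1) (hGy : G ≤ y)
    (hT1 : y ≤ 0.95 → G ≤ 0.70715 * (y + 0.214625))
    (hT2 : y ≤ 1.22 → G ≤ 0.86603 + (y - 1.04716) / 2) :
    G ^ 2 + 0.1378 * π * G ≤ 0.2704 * (y ^ 2 + π * y) := by
  have hπ := pi_gt_d2
  have h1 : 0 ≤ 0.2704 * y - 0.1378 * G := by linarith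
  have h2 : 3.14 * (0.2704 * y - 0.1378 * G) ≤ π * (0.2704 * y - 0.1378 * G) :=
    mul_le_mul_of_nonneg_right hπ.le h1
  suffices h3 : G ^ 2 ≤ 0.2704 * y ^ 2 + 3.14 * (0.2704 * y - 0.1378 * G) by linarith
  have hy0 : 0 ≤ y := hG0.trans hGy
  have h4 : ∀ L : ℝ, G ≤ L → L ^ 2 ≤ 0.2704 * y ^ 2 + 3.14 * (0.2704 * y - 0.1378 * L) →
      G ^ 2 ≤ 0.2704 * y ^ 2 + 3.14 * (0.2704 * y - 0.1378 * G) := by
    intro L hL h5
    have h6 : G ^ 2 ≤ L ^ 2 := pow_le_pow_left₀ hG0 hL 2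
    linarith
  rcases le_total y 0.57 with h | h
  · apply h4 y hGy
    have h5 := mul_nonneg hy0 (sub_nonneg.2 h)
    nlinarith
  rcases le_total y 0.95 with h' | h'
  · apply h4 _ (hT1 h')
    have h5 := mul_nonneg (sub_nonneg.2 h) (sub_nonneg.2 h')
    nlinarith
  rcases le_total y 1.22 with h'' | h''
  · apply h4 _ (hT2 h'')
    have h5 := mul_nonneg (sub_nonneg.2 h') (sub_nonneg.2 h'')
    nlinarith
  · apply h4 1 hG1
    nlinarith

/-- the square of the radius -/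
theorem n3_sq (κ τ : ℝ) (hκ : 0 ≤ κ) (hτ : 0 ≤ τ) :
    √(τ ^ 2 + 2 * κ * (π / 2) * τ + (π / 2) ^ 2) ^ 2 = τ ^ 2 + κ * π * τ + (π / 2) ^ 2 ∧
    π / 2 ≤ √(τ ^ 2 + 2 * κ * (π / 2) * τ + (π / 2) ^ 2) := by
  have hπ := pi_pos
  have h0 : 0 ≤ τ ^ 2 + 2 * κ * (π / 2) * τ := by positivity
  constructor
  · rw [sq_sqrt (by positivity)]
    ring
  · apply le_sqrt_of_sq_le
    linarith

/-- the case `κ = 0.265` -/
theorem n3_base (τ : ℝ) (hτ : 0 < τ) : Gm 0.265 (π / 2) τ ≤ 0.52 * τ := by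
  obtain ⟨hY2, hY⟩ := n3_sq 0.265 τ (by norm_num) hτ.le
  unfold Gm
  set Y := √(τ ^ 2 + 2 * 0.265 * (π / 2) * τ + (π / 2) ^ 2) with hYdef
  have hπ0 := pi_pos
  have hπ1 := pi_gt_d4
  have hπ2 := pi_lt_d4
  have hπ6 := pi_gt_d6
  set G := -cos (min Y π) with hG
  by_contra hcon
  have hcon' : 0.52 * τ < G := not_le.1 hcon
  have hG0 : 0 < G := by
    have : 0 < 0.52 * τ := by positivity
    linarith
  have hG1 : G ≤ 1 := by
    have := neg_one_le_cos (min Y π)
    rw [hG]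
    linarith
  have hyy : (Y - π / 2) ^ 2 + π * (Y - π / 2) = τ ^ 2 + 0.265 * π * τ := by
    have : (Y - π / 2) ^ 2 + π * (Y - π / 2) = Y ^ 2 - (π / 2) ^ 2 := by ring
    rw [this, hY2]
    ring
  -- the sine form
  have hsin : G = sin (min Y π - π / 2) := by
    rw [hG, sin_sub_pi_div_two]
  have hm0 : 0 ≤ min Y π - π / 2 := by
    rcases le_total Y π with h | h
    · rw [min_eq_left h]; linarith
    · rw [min_eq_right h]; linarith
  have hmY : min Y π - π / 2 ≤ Y - π / 2 := by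
    have := min_le_left Y π
    linarith
  have hmπ : min Y π - π / 2 ≤ π := by
    have := min_le_right Y π
    linarith
  have hGy : G ≤ Y - π / 2 := by
    rw [hsin]
    exact (sin_le hm0).trans hmY
  have hT : ∀ c : ℝ, 0 ≤ c → c ≤ π → 0 ≤ cos c → G ≤ sin c + cos c * (Y - π / 2 - c) := by
    intro c hc0 hc hcc
    rw [hsin]
    refine (n3_tangent c _ hc0 hc hm0 hmπ).trans ?_
    have := mul_le_mul_of_nonneg_left hmY hcc
    linarith
  have hs2 : √2 ≤ 1.4143 := by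
    rw [sqrt_le_left (by norm_num)]
    norm_num
  have hs3 : √3 ≤ 1.73206 := by
    rw [sqrt_le_left (by norm_num)]
    norm_num
  have hkey := n3_key (Y - π / 2) G hG0.le hG1 hGy ?_ ?_
  · rw [hyy] at hkey
    have h2 : (0.52 * τ) ^ 2 < G ^ 2 := pow_lt_pow_left₀ hcon' (by positivity) (by norm_num)
    have h3 : 0.1378 * π * (0.52 * τ) ≤ 0.1378 * π * G :=
      mul_le_mul_of_nonneg_left hcon'.le (by positivity)
    nlinarith
  · intro _
    have h1 := hT (π / 4) (by positivity) (by linarith) (by rw [cos_pi_div_four]; positivity)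
    rw [sin_pi_div_four, cos_pi_div_four] at h1
    have h2 : √2 / 2 + √2 / 2 * (Y - π / 2 - π / 4) = √2 / 2 * (1 + (Y - π / 2) - π / 4) := by
      ring
    rw [h2] at h1
    have h3 : √2 / 2 * (1 + (Y - π / 2) - π / 4) ≤ 0.70715 * (1 + (Y - π / 2) - π / 4) :=
      mul_le_mul_of_nonneg_right (by linarith) (by linarith)
    linarith
  · intro _
    have h1 := hT (π / 3) (by positivity) (by linarith) (by rw [cos_pi_div_three]; norm_num)
    rw [sin_pi_div_three, cos_pi_div_three] at h1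
    linarith

theorem n3 (hN0 : N0) : N3 := by
  intro κ τ hκ hκ1 hτ
  have hb := n3_base τ hτ
  obtain ⟨hY2, hY⟩ := n3_sq 0.265 τ (by norm_num) hτ.le
  obtain ⟨hZ2, hZ⟩ := n3_sq κ τ (by linarith) hτ.le
  have hπ := pi_pos
  unfold Gm at hb ⊢
  set Y := √(τ ^ 2 + 2 * 0.265 * (π / 2) * τ + (π / 2) ^ 2)
  set Z := √(τ ^ 2 + 2 * κ * (π / 2) * τ + (π / 2) ^ 2)
  have h1 : |cos (min Y π) - cos (min Z π)| ≤ |min Y π - min Z π| := abs_cos_sub_cos_le _ _
  have h2 : |min Y π - min Z π| ≤ |Y - Z| := by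
    have := abs_min_sub_min_le_max Y π Z π
    rw [sub_self, abs_zero, max_eq_left (abs_nonneg _)] at this
    exact this
  have h3 : Z ^ 2 - Y ^ 2 = π * (τ * (κ - 0.265)) := by
    rw [hZ2, hY2]
    ring
  have h0 : 0 ≤ τ * (κ - 0.265) := mul_nonneg hτ.le (by linarith)
  have h4 : |Y - Z| ≤ τ * (κ - 0.265) := by
    have h5 : Y ≤ Z := by
      have : 0 ≤ Z ^ 2 - Y ^ 2 := by rw [h3]; positivity
      nlinarith
    rw [abs_sub_comm, abs_of_nonneg (by linarith)]
    by_contra h6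
    have h7 : τ * (κ - 0.265) < Z - Y := not_le.1 h6
    have h8 : π * (Z - Y) ≤ (Z + Y) * (Z - Y) :=
      mul_le_mul_of_nonneg_right (by linarith) (by linarith)
    have h9 : π * (τ * (κ - 0.265)) < π * (Z - Y) := mul_lt_mul_of_pos_left h7 hπ
    nlinarith
  have h5 := (abs_le.1 (h1.trans (h2.trans h4))).2
  have h6 : (2 * κ - 0.01) * τ = 0.52 * τ + τ * (κ - 0.265) + (κ - 0.265) * τ := by ring
  rw [h6]
  have h7 : 0 ≤ (κ - 0.265) * τ := by linarith
  linarith

end Pool.Agent.Helper10.AL
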