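import Pool.Agent.Helper10.AL.St7

/-!
Piece NP: windows with one small gap, closeness to the Chebyshev polynomial on the window.
-/

set_option autoImplicit false

namespace Pool.Agent.Helper10.AL

open Polynomial Set Real MeasureTheory intervalIntegral
open Pool.Agent.Helper40.AS (arc Bdd Ext quad)

noncomputable section

/-- the interval is covered by the chain -/
theorem nP_cover (t : ℕ → ℝ) (θ : ℝ) : ∀ N : ℕ, 1 ≤ N → θ ∈ Icc (t 0) (t N) →
    ∃ i < N, θ ∈ Icc (t i) (t (i + 1)) := by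
  intro N
  induction N with
  | zero => intro h; omega
  | succ N ih =>
    intro _ hθ
    rcases le_or_gt (t N) θ with h | h
    · exact ⟨N, by omega, h, hθ.2⟩
    · rcases Nat.eq_zero_or_pos N with h0 | h0
      · subst h0
        exact absurd h (not_lt.2 hθ.1)
      · obtain ⟨i, hi, hm⟩ := ih h0 ⟨hθ.1, h.le⟩
        exact ⟨i, by omega, hm⟩

/-- small function with bounded second derivative -/
theorem nP_deriv (D : ℝ → ℝ) (u v M d h : ℝ) (hD0 : Differentiable ℝ D)
    (hD1 : Differentiable ℝ (deriv D)) (h2 : ∀ x, |deriv (deriv D) x| ≤ M)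
    (h1 : ∀ x ∈ Icc u v, |D x| ≤ d) (hh : 0 < h) (hτ : 2 * h ≤ v - u) (θ : ℝ)
    (hθ : θ ∈ Icc u v) : |deriv D θ| ≤ 2 * d / h + M * h := by
  have key : ∀ a b : ℝ, a ∈ Icc u v → b ∈ Icc u v → b = a + h → θ ∈ Icc a b →
      |deriv D θ| ≤ 2 * d / h + M * h := by
    intro a b ha hb hab hθ'
    have hlt : a < b := by linarith
    obtain ⟨c, hc, hs⟩ := exists_deriv_eq_slope D hlt hD0.continuous.continuousOn
      (fun x _ => (hD0 x).differentiableWithinAt)
    have h3 : |deriv D c| ≤ 2 * d / h := by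
      rw [hs, show b - a = h by linarith, abs_div, abs_of_pos hh]
      apply div_le_div_of_nonneg_right _ hh.le
      have h4 := abs_le.1 (h1 a ha)
      have h5 := abs_le.1 (h1 b hb)
      rw [abs_le]
      constructor <;> linarith
    have h6 := Convex.norm_image_sub_le_of_norm_deriv_le (f := deriv D) (s := Icc a b)
      (C := M) (x := c) (y := θ) (fun y _ => hD1 y) (fun y _ => h2 y)
      (convex_Icc a b) ⟨hc.1.le, hc.2.le⟩ hθ'
    rw [Real.norm_eq_abs, Real.norm_eq_abs] at h6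
    have hM : 0 ≤ M := le_trans (abs_nonneg _) (h2 0)
    have h7 : |θ - c| ≤ h := by
      rw [abs_le]
      constructor <;> linarith [hc.1, hc.2, hθ'.1, hθ'.2]
    have h8 : M * |θ - c| ≤ M * h := mul_le_mul_of_nonneg_left h7 hM
    have h9 := abs_sub_abs_le_abs_sub (deriv D θ) (deriv D c)
    linarith
  rcases le_or_gt (θ + h) v with h3 | h3
  · exact key θ (θ + h) hθ ⟨by linarith [hθ.1], h3⟩ rfl ⟨le_rfl, by linarith⟩
  · exact key (θ - h) θ ⟨by linarith, by linarith [hθ.2]⟩ hθ (by ring) ⟨by linarith, le_rfl⟩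

/-- phases on a full oscillation -/
theorem nP_phase (n : ℕ) (φ x s τ y δ : ℝ) (h0 : |n * s - y| ≤ δ)
    (h1 : |n * τ - (y + π)| ≤ δ) (hs : φ ≤ n * (x - s)) (ht : π - φ ≤ n * (τ - x)) :
    |cos φ - cos (n * x - y)| ≤ δ := by
  refine (abs_cos_sub_cos_le _ _).trans ?_
  have h2 := abs_le.1 h0
  have h3 := abs_le.1 h1
  rw [abs_le]
  constructor
  · linarith [h3.1, h3.2]
  · linarith [h2.1, h2.2]

/-- phases at the end of the window -/
theorem nP_end (g e ε φ1 φ s : ℝ) (hε : 0 ≤ ε) (hg : g ≤ π + ε)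
    (h1 : 0 ≤ φ1) (h1p : φ1 ≤ π) (h1g : φ1 ≤ g) (hφ : φ ≤ s) (hφ1 : φ1 - φ ≤ g - s)
    (hE : 1 - cos (min g π) ≤ 1 - cos φ1 + e) : |cos φ - cos s| ≤ ε + π * √(e / 2) := by
  have hpi := Real.pi_pos
  have hmg : φ1 ≤ min g π := le_min h1g h1p
  have hm1 : min g π ≤ π := min_le_right _ _
  have hm2 : g - ε ≤ min g π := le_min (by linarith) (by linarith)
  set G := min g π with hG
  have hx : G - φ1 ≤ π * √(e / 2) := by
    have h2 : cos φ1 - cos G = 2 * (sin ((G + φ1) / 2) * sin ((G - φ1) / 2)) := by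
      rw [Real.cos_sub_cos, show (φ1 - G) / 2 = -((G - φ1) / 2) by ring, Real.sin_neg,
        show (φ1 + G) / 2 = (G + φ1) / 2 by ring]
      ring
    have h3 : sin ((G - φ1) / 2) ≤ sin ((G + φ1) / 2) := by
      rcases le_or_gt ((G + φ1) / 2) (π / 2) with h | h
      · exact Real.sin_le_sin_of_le_of_le_pi_div_two (by linarith) h (by linarith)
      · rw [← Real.sin_pi_sub ((G + φ1) / 2)]
        exact Real.sin_le_sin_of_le_of_le_pi_div_two (by linarith) (by linarith) (by linarith)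
    have h4 : 0 ≤ sin ((G - φ1) / 2) :=
      Real.sin_nonneg_of_nonneg_of_le_pi (by linarith) (by linarith)
    have h5 : sin ((G - φ1) / 2) * sin ((G - φ1) / 2) ≤
        sin ((G + φ1) / 2) * sin ((G - φ1) / 2) := mul_le_mul_of_nonneg_right h3 h4
    have h6 : 2 / π * ((G - φ1) / 2) ≤ sin ((G - φ1) / 2) :=
      Real.mul_le_sin (by linarith) (by linarith)
    have h7 : 0 ≤ 2 / π * ((G - φ1) / 2) := by
      have : 0 ≤ (G - φ1) / 2 := by linarith
      positivity
    have h8 : (2 / π * ((G - φ1) / 2)) ^ 2 ≤ e / 2 := by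
      have h9 := mul_le_mul h6 h6 h7 h4
      nlinarith
    have h9 := Real.le_sqrt_of_sq_le h8
    have h10 : G - φ1 = π * (2 / π * ((G - φ1) / 2)) := by field_simp
    rw [h10]
    exact mul_le_mul_of_nonneg_left h9 hpi.le
  refine (abs_cos_sub_cos_le _ _).trans ?_
  have h0 : 0 ≤ π * √(e / 2) := by positivity
  rw [abs_le]
  constructor
  · linarith
  · linarith

/-- arc length after a change of sign -/
theorem nP_En (q : ℝ → ℝ) (c u v : ℝ) (hc : c * c = 1) (hq : Differentiable ℝ q) :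
    En (fun x => c * q x) u v = En q u v := by
  unfold En
  refine intervalIntegral.integral_congr fun x _ => ?_
  have h1 : deriv (fun x => c * q x) x = c * deriv q x := ((hq x).hasDerivAt.const_mul c).deriv
  simp only [h1]
  rw [mul_pow, pow_two c, hc, one_mul]

/-- the energy at the end of the window bounds the phase -/
theorem nP_energy (hVF6 : VF6) (g x L E e1 e : ℝ) (hg0 : 0 ≤ g) (h1 : -1 ≤ x) (h2 : x ≤ 1)
    (hE : VC g - e1 ≤ E) (hE2 : E ≤ |x - 1| + L) (he : e1 + L ≤ e) :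
    1 - cos (min g π) ≤ 1 - cos (arccos x) + e := by
  have h3 : VC (min g π) ≤ VC g := hVF6.1 (min_le_left _ _)
  rw [hVF6.2.2.2.1 _ (le_min hg0 Real.pi_pos.le) (min_le_right _ _)] at h3
  rw [Real.cos_arccos h1 h2]
  have h4 : |x - 1| = 1 - x := by
    rw [abs_of_nonpos (by linarith)]
    ring
  linarith

theorem nP_lim (d : ℝ) (hd : 0 < d) : ∃ n0 : ℕ, ∀ n : ℕ, n0 ≤ n →
    (π + 1) / n + 3 * (1 + Real.log n) / (n : ℝ) ^ 2 ≤ d := by
  have h1 : Filter.Tendsto (fun n : ℕ => (1 : ℝ) / (n : ℝ)) Filter.atTop (nhds 0) :=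
    tendsto_one_div_atTop_nhds_zero_nat
  have h2 : Filter.Tendsto (fun n : ℕ => Real.log (n : ℝ) / (n : ℝ)) Filter.atTop (nhds 0) := by
    have h3 := (isLittleO_log_id_atTop.tendsto_div_nhds_zero).comp
      (tendsto_natCast_atTop_atTop (R := ℝ))
    simpa [Function.comp_def] using h3
  have h3 : Filter.Tendsto (fun n : ℕ => (π + 1) * (1 / (n : ℝ)) +
      3 * (1 / (n : ℝ)) * (1 / (n : ℝ) + Real.log (n : ℝ) / (n : ℝ))) Filter.atTop (nhds 0) := by
    have h5 := (h1.const_mul (π + 1)).add ((h1.const_mul 3).mul (h1.add h2))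
    simpa using h5
  obtain ⟨n0, h⟩ := Filter.eventually_atTop.1 (h3.eventually (gt_mem_nhds hd))
  refine ⟨n0, fun n hn => ?_⟩
  have h4 := (h n hn).le
  refine le_trans (le_of_eq ?_) h4
  rcases Nat.eq_zero_or_pos n with h0 | h0
  · subst h0
    simp
  · have : (0 : ℝ) < n := by exact_mod_cast h0
    field_simp

theorem nP (hA1 : A1) (hA2 : A2) (hA3 : A3) (hB1 : B1) (hNP1 : NP1) (hVF6 : VF6) : NP := by
  intro ε hε
  -- the small numbers
  have hsmall : ∀ x : ℝ, 0 < x → ∃ d : ℝ, 0 < d ∧ d ≤ x ∧ 4 * √d ≤ x ∧ d ≤ 1 := by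
    intro x hx
    refine ⟨min (min x 1) ((x / 4) ^ 2), by positivity,
      (min_le_left _ _).trans (min_le_left _ _), ?_, (min_le_left _ _).trans (min_le_right _ _)⟩
    have h1 : √(min (min x 1) ((x / 4) ^ 2)) ≤ √((x / 4) ^ 2) :=
      Real.sqrt_le_sqrt (min_le_right _ _)
    rw [Real.sqrt_sq (by positivity)] at h1
    linarith
  obtain ⟨d2, hd20, hd2e, hd2s, hd21⟩ := hsmall ε hε
  obtain ⟨d1, hd10, hd1e, hd1s, hd11⟩ := hsmall d2 hd20
  have hd1ε : d1 ≤ ε := hd1e.trans hd2e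
  obtain ⟨e1, he1⟩ : ∃ e1 : ℝ, e1 = (d1 / 8) ^ 2 := ⟨_, rfl⟩
  have he10 : 0 < e1 := by rw [he1]; positivity
  have hpi3 := Real.pi_gt_three
  have hpi4 := Real.pi_lt_d2
  have he1s : √((2 * e1) / 2) = d1 / 8 := by
    rw [show (2 * e1) / 2 = e1 by ring, he1, Real.sqrt_sq (by positivity)]
  have he1a : e1 ≤ d1 / 64 := by rw [he1]; nlinarith
  have he1t : e1 + (e1 + π * √((2 * e1) / 2)) ≤ d1 := by
    rw [he1s]
    nlinarith
  have he11 : e1 ≤ 1 := by linarith
  obtain ⟨η, R, hη, hR, n1, hn1⟩ := hNP1 e1 he10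
  obtain ⟨n2, hn2⟩ := nP_lim e1 he10
  refine ⟨η, max R 4, hη, by positivity, max (max n1 n2) 1, fun n hn a b P hW hE hgap => ?_⟩
  have hnn1 : n1 ≤ n := ((le_max_left _ _).trans (le_max_left _ _)).trans hn
  have hnn2 : n2 ≤ n := ((le_max_right _ _).trans (le_max_left _ _)).trans hn
  have h1n : 1 ≤ n := (le_max_right _ _).trans hn
  have hn0 : (0 : ℝ) < n := by exact_mod_cast h1n
  obtain ⟨N, t, m, hN, hch, ht0, htN, hall, hpos, hg0, hg1, hE1, hE0⟩ := hn1 n hnn1 a b P
    ⟨hW.1, hW.2.1, hW.2.2.1, (le_max_left _ _).trans hW.2.2.2⟩ hE hgap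
  have hlen : 4 ≤ n * (arccos a - arccos b) := (le_max_right _ _).trans hW.2.2.2
  have hsm := hn2 n hnn2
  have htb := hA2.2.1 n P (natDegree_le_of_degree_le hE.deg) hE.bdd
  set q : ℝ → ℝ := qq P with hq
  set α : ℝ := arccos a with hα
  set β : ℝ := arccos b with hβ
  -- smoothness
  have hq0 : Differentiable ℝ q := ((hA1.1 n q htb.1).1 1).differentiable (by norm_num)
  have hTP1 : TP n (deriv q) := (hA1.1 n q htb.1).2.1
  have hq1 : Differentiable ℝ (deriv q) := ((hA1.1 n _ hTP1).1 1).differentiable (by norm_num)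
  have hTP2 : TP n (deriv (deriv q)) := (hA1.1 n _ hTP1).2.1
  have hq2 : Differentiable ℝ (deriv (deriv q)) :=
    ((hA1.1 n _ hTP2).1 1).differentiable (by norm_num)
  have hbern := (hA2.1 n q h1n htb).2
  clear_value q α β
  -- the signs
  obtain ⟨c, hc⟩ : ∃ c : ℕ → ℝ, c = fun i : ℕ => cos (((m : ℝ) + (i : ℝ)) * π) := ⟨_, rfl⟩
  have hsin : ∀ i : ℕ, sin (((m : ℝ) + i) * π) = 0 := by
    intro i
    have := Real.sin_int_mul_pi (m + i)
    push_cast at this
    exact this
  have hcc : ∀ i, c i * c i = 1 := by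
    intro i
    have := Real.cos_sq_add_sin_sq (((m : ℝ) + i) * π)
    rw [hsin] at this
    rw [hc]
    simp only
    nlinarith
  have hcs : ∀ i, c (i + 1) = -c i := by
    intro i
    rw [hc]
    simp only
    rw [show ((m : ℝ) + ((i + 1 : ℕ) : ℝ)) * π = ((m : ℝ) + i) * π + π by push_cast; ring,
      Real.cos_add_pi]
  have hcx : ∀ (i : ℕ) (x : ℝ), cos (x - ((m : ℝ) + i) * π) = c i * cos x := by
    intro i x
    rw [Real.cos_sub, hsin, hc]
    ring
  obtain ⟨σ, hσd⟩ : ∃ σ : ℝ, σ = q (t 0) * c 0 := ⟨_, rfl⟩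
  have hqq : ∀ i ≤ N, q (t i) * q (t i) = 1 := by
    intro i hi
    rw [← abs_mul_abs_self, hch.con i hi, one_mul]
  have hσσ : σ * σ = 1 := by
    rw [hσd, show q (t 0) * c 0 * (q (t 0) * c 0) = (q (t 0) * q (t 0)) * (c 0 * c 0) by ring,
      hqq 0 (by omega), hcc, one_mul]
  have hσ : σ = 1 ∨ σ = -1 := mul_self_eq_one_iff.1 hσσ
  have hσa : |σ| = 1 := by rcases hσ with h | h <;> rw [h] <;> simp
  have hval : ∀ i ≤ N, q (t i) = σ * c i := by
    intro i
    induction i with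
    | zero =>
      intro _
      rw [hσd, mul_assoc, hcc, mul_one]
    | succ i ih =>
      intro h
      have h1 := ih (by omega)
      have h2 : q (t (i + 1)) ≠ q (t i) := by
        intro h3
        obtain ⟨x, hx, hx0⟩ := exists_deriv_eq_zero (hch.inc i (by omega))
          hq0.continuous.continuousOn h3.symm
        exact hch.mon i (by omega) x hx hx0
      have h3 : |q (t (i + 1))| = |q (t i)| := by
        rw [hch.con _ h, hch.con i (by omega)]
      rcases abs_eq_abs.1 h3 with h4 | h4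
      · exact absurd h4 h2
      · rw [h4, h1, hcs]; ring
  have htr : ∀ i ≤ N, ∀ x y δ : ℝ, |q (t i) * q x - c i * y| ≤ δ → |q x - σ * y| ≤ δ := by
    intro i hi x y δ h
    have h1 : q x - σ * y = q (t i) * (q (t i) * q x - c i * y) := by
      have h2 : q (t i) * c i = σ := by rw [hval i hi, mul_assoc, hcc, mul_one]
      calc q x - σ * y = (q (t i) * q (t i)) * q x - (q (t i) * c i) * y := by
            rw [hqq i hi, h2, one_mul]
        _ = _ := by ring
    rw [h1, abs_mul, hch.con i hi, one_mul]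
    exact h
  have htb' : ∀ i ≤ N, TB n (fun x => q (t i) * q x) := by
    intro i hi
    refine ⟨(hA1.1 n q htb.1).2.2.1 _, fun x => ?_⟩
    rw [abs_mul, hch.con i hi, one_mul]
    exact htb.2 x
  have hne : ∀ i ≤ N, q (t i) ≠ 0 := by
    intro i hi h
    have := hqq i hi
    rw [h] at this
    norm_num at this
  have hdf : ∀ i ≤ N, ∀ x, deriv q x ≠ 0 → deriv (fun x => q (t i) * q x) x ≠ 0 := by
    intro i hi x hx
    have : HasDerivAt (fun x => q (t i) * q x) (q (t i) * deriv q x) x :=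
      (hq0 x).hasDerivAt.const_mul _
    rw [this.deriv]
    exact mul_ne_zero (hne i hi) hx
  -- closeness on the chain
  have hA : ∀ θ ∈ Icc (t 0) (t N), |q θ - σ * cos (n * θ)| ≤ d1 := by
    intro θ hθ
    obtain ⟨i, hi, hm⟩ := nP_cover t θ N hN hθ
    have hf := htb' i (by omega)
    have hi1 : q (t i) * q (t i) = 1 := hqq i (by omega)
    have hi2 : q (t i) * q (t (i + 1)) = -1 := by
      rw [← hi1, hval i (by omega), hval (i + 1) (by omega), hcs]
      ring
    have hb1 : |arccos (q (t i) * q θ) - arccos (q (t i) * q (t i))| ≤ n * (θ - t i) :=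
      (hB1 n (fun x => q (t i) * q x) (t i) θ h1n hf hm.1
        (fun x hx => hdf i (by omega) x (hch.mon i hi x ⟨hx.1, lt_of_lt_of_le hx.2 hm.2⟩))).1
    have hb2 : |arccos (q (t i) * q (t (i + 1))) - arccos (q (t i) * q θ)| ≤
        n * (t (i + 1) - θ) :=
      (hB1 n (fun x => q (t i) * q x) θ (t (i + 1)) h1n hf hm.2
        (fun x hx => hdf i (by omega) x (hch.mon i hi x ⟨lt_of_le_of_lt hm.1 hx.1, hx.2⟩))).1
    rw [hi1, Real.arccos_one, sub_zero] at hb1
    rw [hi2, Real.arccos_neg_one] at hb2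
    have h1 := nP_phase n (arccos (q (t i) * q θ)) θ (t i) (t (i + 1)) (((m : ℝ) + i) * π) e1
      (hpos i (by omega)) (by
        have := hpos (i + 1) (by omega)
        rw [show ((m : ℝ) + ((i + 1 : ℕ) : ℝ)) * π = ((m : ℝ) + i) * π + π by push_cast; ring]
          at this
        exact this) (abs_le.1 hb1).2 (abs_le.1 hb2).2
    have h7 := abs_le.1 (hf.2 θ)
    rw [Real.cos_arccos h7.1 h7.2, hcx] at h1
    refine (htr i (by omega) θ _ _ h1).trans ?_
    linarith
  -- closeness at the ends, phases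
  have hEnd : ∀ (i : ℕ) (x1 θ g s : ℝ), i ≤ N → 0 ≤ g → g ≤ π + e1 →
      arccos (q (t i) * q x1) ≤ g → arccos (q (t i) * q θ) ≤ s →
      arccos (q (t i) * q x1) - arccos (q (t i) * q θ) ≤ g - s →
      (∃ E L : ℝ, VC g - e1 ≤ E ∧ E ≤ |q (t i) * q x1 - 1| + L ∧ L ≤ e1) →
      |cos s - cos (n * θ - ((m : ℝ) + i) * π)| ≤ e1 → |q θ - σ * cos (n * θ)| ≤ d1 := by
    intro i x1 θ g s hi hg0 hg h1 h2 h3 hEL h4
    obtain ⟨E, L, h5, h6, h7⟩ := hEL
    have h8 := abs_le.1 ((htb' i hi).2 x1)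
    have h9 := nP_energy hVF6 g (q (t i) * q x1) L E e1 (2 * e1) hg0 h8.1 h8.2 h5 h6
      (by linarith)
    have h10 := nP_end g (2 * e1) e1 (arccos (q (t i) * q x1)) (arccos (q (t i) * q θ)) s
      he10.le hg (Real.arccos_nonneg _) (Real.arccos_le_pi _) h1 h2 h3 h9
    have h11 := abs_le.1 ((htb' i hi).2 θ)
    rw [Real.cos_arccos h11.1 h11.2] at h10
    rw [hcx] at h4
    refine htr i hi θ _ _ ?_
    have h12 := abs_add_le (q (t i) * q θ - cos s) (cos s - c i * cos (n * θ))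
    rw [show q (t i) * q θ - cos s + (cos s - c i * cos (n * θ)) =
      q (t i) * q θ - c i * cos (n * θ) by ring] at h12
    linarith
  have hcvx : ∀ x y : ℝ, n * (y - x) ≤ π + e1 →
      (y - x) + 3 * (1 + Real.log n) / (n : ℝ) ^ 2 ≤ e1 := by
    intro x y h
    have h1 : y - x ≤ (π + 1) / n := by
      rw [le_div_iff₀ hn0]
      linarith
    linarith
  have hmono : ∀ i ≤ N, t 0 ≤ t i := by
    intro i
    induction i with
    | zero => intro _; exact le_rfl
    | succ i ih => intro h; exact (ih (by omega)).trans (hch.inc i (by omega)).le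
  have hmono' : ∀ i ≤ N, t i ≤ t N := by
    intro i hi
    have h1 : ∀ k, i + k ≤ N → t i ≤ t (i + k) := by
      intro k
      induction k with
      | zero => intro _; exact le_rfl
      | succ k ih => intro h; exact (ih (by omega)).trans (hch.inc (i + k) (by omega)).le
    have h2 := h1 (N - i) (by omega)
    rwa [show i + (N - i) = N by omega] at h2
  -- the right end
  have hRt : ∀ θ ∈ Icc (t N) α, |q θ - σ * cos (n * θ)| ≤ d1 := by
    intro θ hθ
    have hf := htb' N le_rfl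
    have hcr : ∀ x ∈ Ioo (t N) α, deriv (fun x => q (t N) * q x) x ≠ 0 := by
      intro x hx
      refine hdf N le_rfl x fun h0 => ?_
      obtain ⟨i, hi, h1⟩ := hall x ⟨by linarith [hx.1, hmono N le_rfl], hx.2⟩ h0
      have := hmono' i hi
      linarith [hx.1]
    have hb0 := hB1 n (fun x => q (t N) * q x) (t N) α h1n hf htN.le hcr
    have hb1 : |arccos (q (t N) * q θ) - arccos (q (t N) * q (t N))| ≤ n * (θ - t N) :=
      (hB1 n (fun x => q (t N) * q x) (t N) θ h1n hf hθ.1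
        (fun x hx => hcr x ⟨hx.1, lt_of_lt_of_le hx.2 hθ.2⟩)).1
    have hb2 : |arccos (q (t N) * q α) - arccos (q (t N) * q θ)| ≤ n * (α - θ) :=
      (hB1 n (fun x => q (t N) * q x) θ α h1n hf hθ.2
        (fun x hx => hcr x ⟨lt_of_le_of_lt hθ.1 hx.1, hx.2⟩)).1
    have hb3 : |arccos (q (t N) * q α) - arccos (q (t N) * q (t N))| ≤ n * (α - t N) := hb0.1
    have hb4 := hb0.2.2
    rw [nP_En q (q (t N)) (t N) α (hqq N le_rfl) hq0] at hb4
    simp only [hqq N le_rfl] at hb4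
    rw [hqq N le_rfl, Real.arccos_one, sub_zero] at hb1 hb3
    refine hEnd N α θ (n * (α - t N)) (n * (θ - t N)) le_rfl
      (mul_nonneg hn0.le (by linarith)) hg1 (abs_le.1 hb3).2 (abs_le.1 hb1).2
      (by linarith [(abs_le.1 hb2).2]) ?_ ?_
    · refine ⟨_, (α - t N) + 3 * (1 + Real.log n) / (n : ℝ) ^ 2, hE1, ?_, hcvx _ _ hg1⟩
      refine hb4.trans ?_
      have : 0 ≤ |arccos (q (t N) * q α) - arccos 1| / n := by positivity
      linarith
    · refine (abs_cos_sub_cos_le _ _).trans ?_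
      have := hpos N le_rfl
      rw [show n * (θ - t N) - (n * θ - ((m : ℝ) + N) * π) = -(n * t N - ((m : ℝ) + N) * π) by
        ring, abs_neg]
      exact this
  -- the left end
  have hLt : ∀ θ ∈ Icc β (t 0), |q θ - σ * cos (n * θ)| ≤ d1 := by
    intro θ hθ
    have hz : 0 ≤ N := by omega
    have hf := htb' 0 hz
    have hcr : ∀ x ∈ Ioo β (t 0), deriv (fun x => q (t 0) * q x) x ≠ 0 := by
      intro x hx
      refine hdf 0 hz x fun h0 => ?_
      obtain ⟨i, hi, h1⟩ := hall x ⟨hx.1, by linarith [hx.2, hmono N le_rfl]⟩ h0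
      have := hmono i hi
      linarith [hx.2]
    have hb0 := hB1 n (fun x => q (t 0) * q x) β (t 0) h1n hf ht0.le hcr
    have hb1 : |arccos (q (t 0) * q (t 0)) - arccos (q (t 0) * q θ)| ≤ n * (t 0 - θ) :=
      (hB1 n (fun x => q (t 0) * q x) θ (t 0) h1n hf hθ.2
        (fun x hx => hcr x ⟨lt_of_le_of_lt hθ.1 hx.1, hx.2⟩)).1
    have hb2 : |arccos (q (t 0) * q θ) - arccos (q (t 0) * q β)| ≤ n * (θ - β) :=
      (hB1 n (fun x => q (t 0) * q x) β θ h1n hf hθ.1
        (fun x hx => hcr x ⟨hx.1, lt_of_lt_of_le hx.2 hθ.2⟩)).1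
    have hb3 : |arccos (q (t 0) * q (t 0)) - arccos (q (t 0) * q β)| ≤ n * (t 0 - β) := hb0.1
    have hb4 := hb0.2.2
    rw [nP_En q (q (t 0)) β (t 0) (hqq 0 hz) hq0] at hb4
    simp only [hqq 0 hz] at hb4
    rw [hqq 0 hz, Real.arccos_one, zero_sub, abs_neg] at hb1 hb3
    refine hEnd 0 β θ (n * (t 0 - β)) (n * (t 0 - θ)) hz
      (mul_nonneg hn0.le (by linarith)) hg0 (abs_le.1 hb3).2 (abs_le.1 hb1).2
      (by linarith [(abs_le.1 hb2).1]) ?_ ?_
    · refine ⟨_, (t 0 - β) + 3 * (1 + Real.log n) / (n : ℝ) ^ 2, hE0, ?_, hcvx _ _ hg0⟩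
      refine hb4.trans ?_
      rw [abs_sub_comm 1]
      have : 0 ≤ |arccos 1 - arccos (q (t 0) * q β)| / n := by positivity
      linarith
    · rw [← Real.cos_neg (n * (t 0 - θ))]
      refine (abs_cos_sub_cos_le _ _).trans ?_
      have := hpos 0 hz
      rw [show -(n * (t 0 - θ)) - (n * θ - ((m : ℝ) + (0 : ℕ)) * π) =
        -(n * t 0 - ((m : ℝ) + (0 : ℕ)) * π) by ring, abs_neg]
      exact this
  have hAll : ∀ θ ∈ Icc β α, |q θ - σ * cos (n * θ)| ≤ d1 := by
    intro θ hθ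
    rcases le_or_gt θ (t 0) with h | h
    · exact hLt θ ⟨hθ.1, h⟩
    · rcases le_or_gt θ (t N) with h' | h'
      · exact hA θ ⟨h.le, h'⟩
      · exact hRt θ ⟨h'.le, hθ.2⟩
  -- the derivatives
  have hcosd : ∀ x : ℝ, HasDerivAt (fun x : ℝ => σ * cos (n * x)) (-(σ * n * sin (n * x))) x := by
    intro x
    have h1 : HasDerivAt (fun x : ℝ => (n : ℝ) * x) n x := by
      simpa using (hasDerivAt_id x).const_mul (n : ℝ)
    have h2 := (h1.cos).const_mul σ
    rw [show -(σ * n * sin (n * x)) = σ * (-sin (n * x) * n) by ring]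
    exact h2
  have hsind : ∀ x : ℝ, HasDerivAt (fun x : ℝ => -(σ * n * sin (n * x)))
      (-(σ * n ^ 2 * cos (n * x))) x := by
    intro x
    have h1 : HasDerivAt (fun x : ℝ => (n : ℝ) * x) n x := by
      simpa using (hasDerivAt_id x).const_mul (n : ℝ)
    have h2 := ((h1.sin).const_mul (σ * n)).neg
    rw [show -(σ * n ^ 2 * cos (n * x)) = -(σ * n * (cos (n * x) * n)) by ring]
    exact h2
  have hcosd2 : ∀ x : ℝ, HasDerivAt (fun x : ℝ => -(σ * n ^ 2 * cos (n * x)))
      (σ * n ^ 3 * sin (n * x)) x := by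
    intro x
    have h1 : HasDerivAt (fun x : ℝ => (n : ℝ) * x) n x := by
      simpa using (hasDerivAt_id x).const_mul (n : ℝ)
    have h2 := ((h1.cos).const_mul (σ * n ^ 2)).neg
    rw [show σ * n ^ 3 * sin (n * x) = -(σ * n ^ 2 * (-sin (n * x) * n)) by ring]
    exact h2
  have hD1 : deriv (fun x => q x - σ * cos (n * x)) =
      fun x => deriv q x - -(σ * n * sin (n * x)) := by
    funext x
    exact ((hq0 x).hasDerivAt.sub (hcosd x)).deriv
  have hD2 : deriv (fun x => deriv q x - -(σ * n * sin (n * x))) =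
      fun x => deriv (deriv q) x - -(σ * n ^ 2 * cos (n * x)) := by
    funext x
    exact ((hq1 x).hasDerivAt.sub (hsind x)).deriv
  have hD3 : deriv (fun x => deriv (deriv q) x - -(σ * n ^ 2 * cos (n * x))) =
      fun x => deriv (deriv (deriv q)) x - σ * n ^ 3 * sin (n * x) := by
    funext x
    exact ((hq2 x).hasDerivAt.sub (hcosd2 x)).deriv
  have hsd : ∀ d : ℝ, 0 < d → d ≤ 1 → 0 < √d ∧ √d * √d = d ∧ 2 * (√d / n) ≤ α - β := by
    intro d hd hd1
    refine ⟨Real.sqrt_pos.2 hd, Real.mul_self_sqrt hd.le, ?_⟩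
    have h1 : √d ≤ 1 := Real.sqrt_le_one.2 hd1
    have h2 : 2 * (√d / n) = 2 * √d / n := by ring
    rw [h2, div_le_iff₀ hn0]
    linarith
  obtain ⟨hs10, hs1, hs1l⟩ := hsd d1 hd10 hd11
  obtain ⟨hs20, hs2, hs2l⟩ := hsd d2 hd20 hd21
  have hder : ∀ θ ∈ Icc β α, |deriv q θ - -(σ * n * sin (n * θ))| ≤ n * d2 := by
    intro θ hθ
    have h1 := nP_deriv (fun x => q x - σ * cos (n * x)) β α (2 * (n : ℝ) ^ 2) d1 (√d1 / n)
      (fun x => ((hq0 x).hasDerivAt.sub (hcosd x)).differentiableAt)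
      (by rw [hD1]; exact fun x => ((hq1 x).hasDerivAt.sub (hsind x)).differentiableAt)
      (by
        intro x
        rw [hD1, hD2]
        have h2 := (hbern x).2.2.2.1
        have h3 : |σ * (n : ℝ) ^ 2 * cos (n * x)| ≤ (n : ℝ) ^ 2 := by
          rw [abs_mul, abs_mul, hσa, one_mul,
            abs_of_nonneg (by positivity : (0 : ℝ) ≤ (n : ℝ) ^ 2)]
          exact mul_le_of_le_one_right (by positivity) (Real.abs_cos_le_one _)
        have h4 := abs_le.1 h2
        have h5 := abs_le.1 h3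
        rw [abs_le]
        constructor <;> linarith)
      hAll (by positivity) hs1l θ hθ
    rw [hD1] at h1
    refine h1.trans ?_
    have h3 : 2 * d1 / (√d1 / n) = 2 * √d1 * n := by
      rw [div_div_eq_mul_div, div_eq_iff hs10.ne']
      calc 2 * d1 * n = 2 * (√d1 * √d1) * n := by rw [hs1]
        _ = _ := by ring
    have h4 : 2 * (n : ℝ) ^ 2 * (√d1 / n) = 2 * √d1 * n := by
      field_simp
    rw [h3, h4]
    have := mul_le_mul_of_nonneg_left hd1s hn0.le
    linarith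
  have hder2 : ∀ θ ∈ Icc β α, |deriv (deriv q) θ - -(σ * n ^ 2 * cos (n * θ))| ≤
      (n : ℝ) ^ 2 * ε := by
    intro θ hθ
    have h1 := nP_deriv (fun x => deriv q x - -(σ * n * sin (n * x))) β α (2 * (n : ℝ) ^ 3)
      (n * d2) (√d2 / n)
      (fun x => ((hq1 x).hasDerivAt.sub (hsind x)).differentiableAt)
      (by rw [hD2]; exact fun x => ((hq2 x).hasDerivAt.sub (hcosd2 x)).differentiableAt)
      (by
        intro x
        rw [hD2, hD3]
        have h2 := (hbern x).2.2.2.2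
        have h3 : |σ * (n : ℝ) ^ 3 * sin (n * x)| ≤ (n : ℝ) ^ 3 := by
          rw [abs_mul, abs_mul, hσa, one_mul,
            abs_of_nonneg (by positivity : (0 : ℝ) ≤ (n : ℝ) ^ 3)]
          exact mul_le_of_le_one_right (by positivity) (Real.abs_sin_le_one _)
        have h4 := abs_le.1 h2
        have h5 := abs_le.1 h3
        rw [abs_le]
        constructor <;> linarith)
      hder (by positivity) hs2l θ hθ
    rw [hD2] at h1
    refine h1.trans ?_
    have h3 : 2 * (n * d2) / (√d2 / n) = 2 * √d2 * (n : ℝ) ^ 2 := by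
      rw [div_div_eq_mul_div, div_eq_iff hs20.ne']
      calc 2 * (n * d2) * n = 2 * (n * (√d2 * √d2)) * n := by rw [hs2]
        _ = _ := by ring
    have h4 : 2 * (n : ℝ) ^ 3 * (√d2 / n) = 2 * √d2 * (n : ℝ) ^ 2 := by
      field_simp
    rw [h3, h4]
    have := mul_le_mul_of_nonneg_left hd2s (by positivity : (0 : ℝ) ≤ (n : ℝ) ^ 2)
    linarith
  refine ⟨σ, hσ, fun θ hθ => ⟨(hAll θ hθ).trans hd1ε, ?_, ?_⟩⟩
  · have h1 : deriv q θ / n + σ * sin (n * θ) = (deriv q θ - -(σ * n * sin (n * θ))) / n := by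
      field_simp
      ring
    rw [h1, abs_div, abs_of_pos hn0, div_le_iff₀ hn0]
    refine (hder θ hθ).trans ?_
    have := mul_le_mul_of_nonneg_left hd2e hn0.le
    linarith
  · have h1 : deriv (deriv q) θ / (n : ℝ) ^ 2 + σ * cos (n * θ) =
        (deriv (deriv q) θ - -(σ * n ^ 2 * cos (n * θ))) / (n : ℝ) ^ 2 := by
      field_simp
      ring
    rw [h1, abs_div, abs_of_pos (by positivity : (0 : ℝ) < (n : ℝ) ^ 2),
      div_le_iff₀ (by positivity)]
    refine (hder2 θ hθ).trans ?_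
    linarith

end

end Pool.Agent.Helper10.AL
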