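import Pool.Agent.Helper10.AL.St5

/-!
Project AL, piece TE: the differential equation of the Chebyshev polynomials.
-/

set_option autoImplicit false

namespace Pool.Agent.Helper10.AL

open Polynomial Set Real MeasureTheory intervalIntegral

/-- nonzero solutions of the second order equation have degree `n` -/
theorem tE_deg (n : ℕ) (Q : ℝ[X]) (hQ : Q ≠ 0)
    (h : (1 - X ^ 2) * Q.derivative.derivative = X * Q.derivative - (n : ℝ[X]) ^ 2 * Q) :
    Q.natDegree = n := by
  set d := Q.natDegree with hd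
  have hlc : Q.coeff d ≠ 0 := by
    rw [hd]
    exact leadingCoeff_ne_zero.2 hQ
  have h1 : (Q.derivative.derivative).coeff d = 0 := by
    rw [coeff_derivative, coeff_derivative, coeff_eq_zero_of_natDegree_lt (by omega)]
    ring
  have h2 : (X ^ 2 * Q.derivative.derivative).coeff d = d * (d - 1) * Q.coeff d := by
    rw [coeff_X_pow_mul']
    by_cases h2d : 2 ≤ d
    · rw [if_pos h2d]
      obtain ⟨e, he⟩ : ∃ e, d = e + 2 := ⟨d - 2, by omega⟩
      rw [he, Nat.add_sub_cancel, coeff_derivative, coeff_derivative]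
      push_cast
      ring
    · rw [if_neg h2d]
      have h3 : d = 0 ∨ d = 1 := by omega
      rcases h3 with h3 | h3 <;> rw [h3] <;> norm_num
  have h3 : (X * Q.derivative).coeff d = d * Q.coeff d := by
    rcases Nat.eq_zero_or_pos d with h0 | h0
    · rw [h0]
      simp
    · obtain ⟨e, he⟩ : ∃ e, d = e + 1 := ⟨d - 1, by omega⟩
      rw [he, coeff_X_mul, coeff_derivative]
      push_cast
      ring
  have h4 : ((n : ℝ[X]) ^ 2 * Q).coeff d = (n : ℝ) ^ 2 * Q.coeff d := by
    have : ((n : ℝ[X]) ^ 2) = C ((n : ℝ) ^ 2) := by simp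
    rw [this, coeff_C_mul]
  have h5 := congrArg (fun p : ℝ[X] => p.coeff d) h
  simp only [sub_mul, one_mul, coeff_sub, h1, h2, h3, h4] at h5
  have h6 : ((n : ℝ) ^ 2 - (d : ℝ) ^ 2) * Q.coeff d = 0 := by linarith
  rcases mul_eq_zero.1 h6 with h7 | h7
  · have h8 : (d : ℝ) ^ 2 = (n : ℝ) ^ 2 := by linarith
    have h9 : (d : ℝ) = n := by
      rwa [sq_eq_sq₀ (Nat.cast_nonneg d) (Nat.cast_nonneg n)] at h8
    exact_mod_cast h9
  · exact absurd h7 hlc

theorem tE : TE := by
  intro n P hn hP1 hP' hode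
  -- the identity of polynomials
  have hid : C ((n : ℝ) ^ 2) * (1 - P ^ 2) = (1 - X ^ 2) * P.derivative ^ 2 := by
    refine Polynomial.eq_of_infinite_eval_eq _ _ ((Ioo_infinite (show (-1 : ℝ) < 1 by
      norm_num)).mono ?_)
    intro x hx
    have h := hode x hx
    show eval x (C ((n : ℝ) ^ 2) * (1 - P ^ 2)) = eval x ((1 - X ^ 2) * P.derivative ^ 2)
    simp only [eval_mul, eval_C, eval_sub, eval_one, eval_pow, eval_X]
    exact h
  have hder : (1 - X ^ 2) * P.derivative.derivative = X * P.derivative - (n : ℝ[X]) ^ 2 * P := by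
    have h1 := congrArg Polynomial.derivative hid
    simp only [derivative_mul, derivative_C, zero_mul, zero_add, derivative_sub, derivative_one,
      zero_sub, derivative_pow, derivative_X, mul_one] at h1
    have h2 : (C 2 * P.derivative) * ((1 - X ^ 2) * P.derivative.derivative) =
        (C 2 * P.derivative) * (X * P.derivative - (n : ℝ[X]) ^ 2 * P) := by
      have hn2 : C ((n : ℝ) ^ 2) = (n : ℝ[X]) ^ 2 := by simp
      rw [hn2] at h1
      have hC2 : (C (2 : ℝ) : ℝ[X]) = 2 := map_ofNat C 2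
      rw [hC2]
      norm_num at h1
      simp only [hC2] at h1
      linear_combination -h1
    exact mul_left_cancel₀ (mul_ne_zero (by simp) hP') h2
  have hT := Chebyshev.one_sub_X_sq_mul_derivative_derivative_T_eq_poly_in_T (R := ℝ) n
  simp only [Function.iterate_succ, Function.iterate_zero, Function.comp_apply, id_eq] at hT
  have hT' : (1 - X ^ 2) * (Chebyshev.T ℝ (n : ℤ)).derivative.derivative =
      X * (Chebyshev.T ℝ (n : ℤ)).derivative - (n : ℝ[X]) ^ 2 * Chebyshev.T ℝ (n : ℤ) := by
    rw [hT]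
    push_cast
    ring
  have hTm : |(Chebyshev.T ℝ (n : ℤ)).eval (-1)| = 1 := by
    rw [Chebyshev.T_eval_neg_one]
    rcases Int.even_or_odd (n : ℤ) with h | h
    · rw [Int.negOnePow_even _ h]
      simp
    · rw [Int.negOnePow_odd _ h]
      simp
  have hT0 : Chebyshev.T ℝ (n : ℤ) ≠ 0 := by
    intro h
    rw [h] at hTm
    simp at hTm
  have hP0 : P ≠ 0 := by
    intro h
    rw [h] at hP1
    simp at hP1
  have hdT := tE_deg n _ hT0 hT'
  have hdP := tE_deg n P hP0 hder
  have hTn : (Chebyshev.T ℝ (n : ℤ)).coeff n ≠ 0 := by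
    have := leadingCoeff_ne_zero.2 hT0
    rwa [leadingCoeff, hdT] at this
  set c : ℝ := P.coeff n / (Chebyshev.T ℝ (n : ℤ)).coeff n with hc
  have hPc : P = C c * Chebyshev.T ℝ (n : ℤ) := by
    by_contra hne
    have hQ0 : P - C c * Chebyshev.T ℝ (n : ℤ) ≠ 0 := sub_ne_zero.2 hne
    have hQ := tE_deg n (P - C c * Chebyshev.T ℝ (n : ℤ)) hQ0 (by
      simp only [derivative_sub, derivative_mul, derivative_C, zero_mul, zero_add]
      linear_combination hder - C c * hT')
    have h1 := leadingCoeff_ne_zero.2 hQ0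
    rw [leadingCoeff, hQ, coeff_sub, coeff_C_mul, hc, div_mul_cancel₀ _ hTn, sub_self] at h1
    exact h1 rfl
  have hc1 : |c| = 1 := by
    rw [hPc, eval_mul, eval_C, abs_mul, hTm, mul_one] at hP1
    exact hP1
  rcases (abs_eq zero_le_one).1 hc1 with h | h
  · left
    rw [hPc, h]
    simp
  · right
    rw [hPc, h]
    simp

end Pool.Agent.Helper10.AL
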