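import Pool.Agent.Helper10.AL.St5
import Pool.Agent.Helper10.AL.P.D2a
import Pool.Agent.Helper10.AL.P.TE

/-!
Project AL, piece P1: the structure of polynomials with `n` alternation points.
-/

set_option autoImplicit false

namespace Pool.Agent.Helper10.AL

open Polynomial Set Real MeasureTheory intervalIntegral
open Pool.Agent.Helper40.AS (Bdd contact_int)

theorem p1_lin {B : ℝ[X]} (hB : B.natDegree ≤ 1) (z : ℝ) :
    B.eval z = B.coeff 1 * z + B.coeff 0 := by
  conv_lhs => rw [eq_X_add_C_of_natDegree_le_one hB]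
  simp

/-- `n - 1` interior alternation points -/
theorem p1_B {n : ℕ} {Z : ℝ[X]} (hn : 3 ≤ n) (hZ : Z.natDegree ≤ n) (hb : Bdd Z)
    (hZ0 : Z.derivative ≠ 0) {x : ℕ → ℝ} (hx : ∀ i, i + 1 < n → x i < x (i + 1))
    (hv : ∀ i < n, |Z.eval (x i)| = 1) (h0 : x 0 = -1) (h1 : x (n - 1) < 1) :
    ∃ s : ℝ, Par n 1 s 0 Z := by
  have hm := d2a_mono hx
  have hinj : Set.InjOn x (Finset.Ico 1 n) := by
    intro i hi j hj hij
    simp only [Finset.coe_Ico, mem_Ico] at hi hj
    rcases lt_trichotomy i j with h | h | h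
    · exact absurd hij (hm i j h (by omega)).ne
    · exact h
    · exact absurd hij (hm j i h (by omega)).ne'
  have hs : ∀ i ∈ Finset.Ico 1 n, x i ∈ Ioo (-1 : ℝ) 1 ∧ |Z.eval (x i)| = 1 := by
    intro i hi
    rw [Finset.mem_Ico] at hi
    refine ⟨⟨?_, ?_⟩, hv i hi.2⟩
    · rw [← h0]; exact hm 0 i (by omega) (by omega)
    · rcases Nat.lt_or_ge i (n - 1) with h | h
      · exact (hm i (n - 1) h (by omega)).trans h1
      · have : i = n - 1 := by omega
        rw [this]; exact h1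
  obtain ⟨L, Q, hL, hL0, hLd, hQ, hQd⟩ := d2a_quot (by omega) hZ hb hZ0 hinj hs
  rw [Nat.card_Ico] at hLd hQd
  set G := ∏ i ∈ Finset.Ico 1 n, (X - C (x i)) with hG
  have hG0 : G ≠ 0 := by
    intro h0
    exact hZ0 (by rw [hL, h0, zero_mul])
  have hQ1 : Q.natDegree ≤ 1 := by
    rcases hQd with h | h
    · rw [h]; simp
    · omega
  have hLc : L = C (L.coeff 0) := eq_C_of_natDegree_eq_zero (by omega)
  have hl : L.coeff 0 ≠ 0 := by
    intro h0
    rw [h0, C_0] at hLc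
    exact hL0 hLc
  have hLe : ∀ z, L.eval z = L.coeff 0 := by
    intro z
    conv_lhs => rw [hLc]
    simp
  have hQ0 : ∀ z ∈ Icc (-1 : ℝ) 1, 0 ≤ Q.eval z := by
    intro z hz
    apply d2a_sign hG0 _ hz
    intro w hw
    have h1 := d2a_nonneg (by omega) hZ hb (Ioo_subset_Icc_self hw)
    rw [hQ, eval_mul, eval_pow] at h1
    exact h1
  have hGm : G.eval (-1) ≠ 0 := by
    rw [hG, eval_prod]
    apply Finset.prod_ne_zero_iff.mpr
    intro i hi
    simp only [eval_sub, eval_X, eval_C]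
    have := (hs i hi).1.1
    intro h
    linarith
  have hm1 : |Z.eval (-1)| = 1 := by rw [← h0]; exact hv 0 (by omega)
  have hQm : Q.eval (-1) = 0 := by
    have h2 : (d2a_D n Z).eval (-1) = 0 := by
      rw [d2a_eval, ← sq_abs (Z.eval (-1)), hm1]; ring
    rw [hQ, eval_mul, eval_pow] at h2
    rcases mul_eq_zero.mp h2 with h3 | h3
    · exact absurd (pow_eq_zero_iff (by norm_num) |>.mp h3) hGm
    · exact h3
  have hl2 : 0 < L.coeff 0 ^ 2 := by positivity
  have hq0 : Q.coeff 0 = Q.coeff 1 := by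
    rw [p1_lin hQ1] at hQm
    linarith
  have hq : 0 ≤ Q.coeff 1 := by
    have := hQ0 1 ⟨by norm_num, le_rfl⟩
    rw [p1_lin hQ1, hq0] at this
    linarith
  have hs0 : 0 ≤ Q.coeff 1 / L.coeff 0 ^ 2 := by positivity
  refine ⟨Q.coeff 1 / L.coeff 0 ^ 2, ⟨le_rfl, hs0, le_rfl, by positivity, hm1, ?_,
    Or.inl ⟨rfl, rfl⟩⟩⟩
  intro z hz
  have hD := d2a_eval n Z z
  rw [hQ, eval_mul, eval_pow, p1_lin hQ1, hq0] at hD
  have hZe : Z.derivative.eval z = G.eval z * L.coeff 0 := by rw [hL, eval_mul, hLe]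
  have h1z : (1 - z) ≠ 0 := by have := hz.2; intro h; linarith
  have e1 : (n : ℝ) ^ 2 * (1 - Z.eval z ^ 2) =
      G.eval z ^ 2 * (Q.coeff 1 * z + Q.coeff 1) + (1 - z ^ 2) * Z.derivative.eval z ^ 2 := by
    linarith
  rw [e1, hZe]
  field_simp
  ring

/-- factorisation in the case of two end points -/
theorem p1_fac {n : ℕ} {Z : ℝ[X]} (hn : 3 ≤ n) (hZ : Z.natDegree ≤ n) (hb : Bdd Z)
    (hZ0 : Z.derivative ≠ 0) {x : ℕ → ℝ} {σ : ℝ}
    (hσ : σ = 1 ∨ σ = -1) (hx : ∀ i, i + 1 < n → x i < x (i + 1))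
    (hv : ∀ i < n, Z.eval (x i) = σ * (-1) ^ i) (h0 : x 0 = -1) (h1 : x (n - 1) = 1) :
    ∃ G L B : ℝ[X], G = ∏ i ∈ Finset.Ico 1 (n - 1), (X - C (x i)) ∧
      Z.derivative = G * L ∧ L ≠ 0 ∧ L.natDegree ≤ 1 ∧
      B.natDegree ≤ 1 ∧ (∀ z, (n : ℝ) ^ 2 * (1 - Z.eval z ^ 2) =
        (1 - z ^ 2) * (G.eval z ^ 2 * (B.eval z + L.eval z ^ 2))) ∧
      (∀ z ∈ Icc (-1 : ℝ) 1, 0 ≤ B.eval z) ∧ (∀ c ∈ Ioo (-1 : ℝ) 1, L.eval c ≠ 0) ∧
      (∀ z, z ∉ Ioo (-1 : ℝ) 1 → G.eval z ≠ 0) := by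
  have hm := d2a_mono hx
  have hsg : ∀ i, |σ * (-1 : ℝ) ^ i| = 1 := by
    intro i
    rw [abs_mul, abs_pow, abs_neg, abs_one, one_pow, mul_one]
    rcases hσ with h | h <;> rw [h] <;> norm_num
  have hinj : Set.InjOn x (Finset.Ico 1 (n - 1)) := by
    intro i hi j hj hij
    simp only [Finset.coe_Ico, mem_Ico] at hi hj
    rcases lt_trichotomy i j with h | h | h
    · exact absurd hij (hm i j h (by omega)).ne
    · exact h
    · exact absurd hij (hm j i h (by omega)).ne'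
  have hs : ∀ i ∈ Finset.Ico 1 (n - 1), x i ∈ Ioo (-1 : ℝ) 1 ∧ |Z.eval (x i)| = 1 := by
    intro i hi
    rw [Finset.mem_Ico] at hi
    refine ⟨⟨?_, ?_⟩, ?_⟩
    · rw [← h0]; exact hm 0 i (by omega) (by omega)
    · rw [← h1]; exact hm i (n - 1) (by omega) (by omega)
    · rw [hv i (by omega)]; exact hsg i
  obtain ⟨L, Q, hL, hL0, hLd, hQ, hQd⟩ := d2a_quot (by omega) hZ hb hZ0 hinj hs
  rw [Nat.card_Ico] at hLd hQd
  have hLd1 : L.natDegree ≤ 1 := by omega
  have hnr : ∀ c ∈ Ioo (-1 : ℝ) 1, L.eval c ≠ 0 := fun c hc =>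
    d2a_noroot hn hb hσ hx hv h0 h1 hL hLd1 hc
  set G := ∏ i ∈ Finset.Ico 1 (n - 1), (X - C (x i)) with hG
  have hG0 : G ≠ 0 := by
    intro h0
    exact hZ0 (by rw [hL, h0, zero_mul])
  have hGe : ∀ y, (∀ i ∈ Finset.Ico 1 (n - 1), x i ≠ y) → G.eval y ≠ 0 := by
    intro y hy
    rw [hG, eval_prod]
    apply Finset.prod_ne_zero_iff.mpr
    intro i hi
    simp only [eval_sub, eval_X, eval_C]
    intro h
    exact hy i hi (by linarith)
  have hQ1 : Q.eval 1 = 0 := by
    have h2 : (d2a_D n Z).eval 1 = 0 := by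
      rw [d2a_eval]
      have h3 : Z.eval 1 ^ 2 = 1 := by
        have h4 := hv (n - 1) (by omega)
        rw [h1] at h4
        rw [← sq_abs, h4, hsg]; norm_num
      rw [h3]; ring
    rw [hQ, eval_mul, eval_pow] at h2
    rcases mul_eq_zero.mp h2 with h3 | h3
    · exact absurd (pow_eq_zero_iff (by norm_num) |>.mp h3)
        (hGe 1 fun i hi => (hs i hi).1.2.ne)
    · exact h3
  have hQ2 : Q.eval (-1) = 0 := by
    have h2 : (d2a_D n Z).eval (-1) = 0 := by
      rw [d2a_eval]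
      have h3 : Z.eval (-1) ^ 2 = 1 := by
        have h4 := hv 0 (by omega)
        rw [h0] at h4
        rw [← sq_abs, h4, hsg]; norm_num
      rw [h3]; ring
    rw [hQ, eval_mul, eval_pow] at h2
    rcases mul_eq_zero.mp h2 with h3 | h3
    · exact absurd (pow_eq_zero_iff (by norm_num) |>.mp h3)
        (hGe (-1) fun i hi => (hs i hi).1.1.ne')
    · exact h3
  have hBex : ∃ B : ℝ[X], Q = (1 - X ^ 2) * B ∧ B.natDegree ≤ 1 := by
    obtain ⟨q, hq⟩ := dvd_iff_isRoot.mpr hQ1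
    have h2 : q.eval (-1) = 0 := by
      rw [hq, eval_mul] at hQ2
      rcases mul_eq_zero.mp hQ2 with h3 | h3
      · simp at h3; norm_num at h3
      · exact h3
    obtain ⟨b, hbq⟩ := dvd_iff_isRoot.mpr h2
    refine ⟨-b, ?_, ?_⟩
    · rw [hq, hbq]
      simp only [C_neg, map_one]
      ring
    · rw [natDegree_neg]
      by_cases hb0 : b = 0
      · rw [hb0]; simp
      · have hq0 : Q = ((X - C 1) * (X - C (-1))) * b := by rw [hq, hbq]; ring
        have hQ0 : Q ≠ 0 := by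
          rw [hq0]
          exact mul_ne_zero (mul_ne_zero (X_sub_C_ne_zero _) (X_sub_C_ne_zero _)) hb0
        have h3 : Q.natDegree = 2 + b.natDegree := by
          rw [hq0, natDegree_mul (mul_ne_zero (X_sub_C_ne_zero _) (X_sub_C_ne_zero _)) hb0,
            natDegree_mul (X_sub_C_ne_zero _) (X_sub_C_ne_zero _), natDegree_X_sub_C,
            natDegree_X_sub_C]
        rcases hQd with h | h
        · exact absurd h hQ0
        · omega
  obtain ⟨B, hB, hB1⟩ := hBex
  have hB0 : ∀ z ∈ Icc (-1 : ℝ) 1, 0 ≤ B.eval z := by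
    intro z hz
    apply d2a_sign hG0 _ hz
    intro w hw
    have h2 := d2a_nonneg (by omega) hZ hb (Ioo_subset_Icc_self hw)
    rw [hQ, hB, eval_mul, eval_pow, eval_mul] at h2
    simp only [eval_sub, eval_one, eval_pow, eval_X] at h2
    have h3 : 0 < 1 - w ^ 2 := by nlinarith [hw.1, hw.2]
    by_contra h4
    push Not at h4
    have h5 : G.eval w ^ 2 * ((1 - w ^ 2) * B.eval w) =
      (1 - w ^ 2) * (G.eval w ^ 2 * B.eval w) := by ring
    rw [h5] at h2
    have := mul_neg_of_pos_of_neg h3 h4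
    linarith
  refine ⟨G, L, B, rfl, hL, hL0, hLd1, hB1, ?_, hB0, hnr, ?_⟩
  · intro z
    have hD := d2a_eval n Z z
    rw [hQ, hB, eval_mul, eval_pow, eval_mul, hL, eval_mul] at hD
    simp only [eval_sub, eval_one, eval_pow, eval_X] at hD
    linear_combination -hD
  · intro z hz
    apply hGe
    intro i hi h
    exact hz (h ▸ (hs i hi).1)

/-- the Chebyshev polynomial of degree `n - 1` -/
theorem p1_A0 {n : ℕ} {Z G L B : ℝ[X]} (hn : 3 ≤ n) (hm : |Z.eval (-1)| = 1)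
    (hZ0 : Z.derivative ≠ 0)
    (hL : Z.derivative = G * L) (hL0 : L ≠ 0) (hLd : L.natDegree = 0) (hG : G.natDegree = n - 2)
    (he : ∀ z, (n : ℝ) ^ 2 * (1 - Z.eval z ^ 2) =
        (1 - z ^ 2) * (G.eval z ^ 2 * (B.eval z + L.eval z ^ 2))) :
    Z = Chebyshev.T ℝ ((n : ℤ) - 1) ∨ Z = -Chebyshev.T ℝ ((n : ℤ) - 1) := by
  have hG0 : G ≠ 0 := by
    rintro rfl
    exact hZ0 (by rw [hL, zero_mul])
  have hLc : L = C (L.coeff 0) := eq_C_of_natDegree_eq_zero hLd
  set l := L.coeff 0 with hl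
  have hl0 : l ≠ 0 := by
    intro h0
    rw [h0, C_0] at hLc
    exact hL0 hLc
  have hZpos : 0 < Z.natDegree := by
    by_contra h
    have : Z.natDegree = 0 := by omega
    apply hZ0
    rw [eq_C_of_natDegree_eq_zero this, derivative_C]
  have hZd : Z.natDegree = n - 1 := by
    have h1 := degree_derivative (p := Z) hZpos.ne'
    have h2 : Z.derivative.natDegree = Z.natDegree - 1 := natDegree_eq_of_degree_eq_some h1
    rw [hL, natDegree_mul hG0 hL0, hG, hLd] at h2
    omega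
  have hpe : C ((n : ℝ) ^ 2) * (1 - Z ^ 2) = (1 - X ^ 2) * (G ^ 2 * (B + L ^ 2)) := by
    apply Polynomial.funext
    intro z
    simp only [eval_mul, eval_C, eval_sub, eval_one, eval_pow, eval_X, eval_add]
    exact he z
  -- the degree of the right hand side is even
  have hK : (B + L ^ 2).natDegree = 0 := by
    have hn2 : C ((n : ℝ) ^ 2) ≠ 0 := by
      rw [Ne, C_eq_zero]
      have : (n : ℝ) ≠ 0 := by exact_mod_cast (by omega : n ≠ 0)
      positivity
    have h1 : (1 - Z ^ 2).natDegree = 2 * (n - 1) := by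
      rw [natDegree_sub_eq_right_of_natDegree_lt, natDegree_pow, hZd]
      rw [natDegree_one, natDegree_pow, hZd]
      omega
    have h1' : (1 - Z ^ 2) ≠ 0 := by
      intro h
      rw [h, natDegree_zero] at h1
      omega
    have h2 : (1 - X ^ 2 : ℝ[X]).natDegree = 2 := by
      rw [natDegree_sub_eq_right_of_natDegree_lt, natDegree_X_pow]
      rw [natDegree_one, natDegree_X_pow]
      norm_num
    have h2' : (1 - X ^ 2 : ℝ[X]) ≠ 0 := by
      intro h
      rw [h, natDegree_zero] at h2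
      omega
    have h3 : (C ((n : ℝ) ^ 2) * (1 - Z ^ 2)) ≠ 0 := mul_ne_zero hn2 h1'
    have h4 : (B + L ^ 2) ≠ 0 := by
      intro h
      rw [hpe, h, mul_zero, mul_zero] at h3
      exact h3 rfl
    have h5 := congrArg natDegree hpe
    rw [natDegree_mul hn2 h1', natDegree_C, h1, natDegree_mul h2' (mul_ne_zero
      (pow_ne_zero _ hG0) h4), natDegree_mul (pow_ne_zero _ hG0) h4, natDegree_pow, hG, h2] at h5
    omega
  obtain ⟨k, hk⟩ : ∃ k : ℝ, B + L ^ 2 = C k := ⟨_, eq_C_of_natDegree_eq_zero hK⟩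
  rw [hk] at hpe
  -- leading coefficients
  have hlc : (n : ℝ) ^ 2 * l ^ 2 = ((n : ℝ) - 1) ^ 2 * k := by
    have hN : (n - 1 : ℕ) + (n - 1 : ℕ) = 2 * (n - 1) := by ring
    set a := Z.coeff (n - 1) with ha
    have ha1 : Z.derivative.coeff (n - 2) = a * ((n : ℝ) - 1) := by
      rw [coeff_derivative]
      have e1 : n - 2 + 1 = n - 1 := by omega
      rw [e1]
      have e2 : ((n - 2 : ℕ) : ℝ) + 1 = (n : ℝ) - 1 := by
        rw [Nat.cast_sub (by omega)]; push_cast; ring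
      rw [e2]
    have hGl : Z.derivative.coeff (n - 2) = G.leadingCoeff * l := by
      rw [hL, hLc, coeff_mul_C]
      congr 1
      rw [leadingCoeff, hG]
    set g := G.leadingCoeff with hg
    have hg0 : g ≠ 0 := leadingCoeff_ne_zero.mpr hG0
    have c1 : (C ((n : ℝ) ^ 2) * (1 - Z ^ 2)).coeff (2 * (n - 1)) = -((n : ℝ) ^ 2 * a ^ 2) := by
      rw [coeff_C_mul, coeff_sub]
      have h1 : (1 : ℝ[X]).coeff (2 * (n - 1)) = 0 := by
        rw [coeff_one, if_neg (by omega)]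
      have h2 : (Z ^ 2).coeff (2 * (n - 1)) = a ^ 2 := by
        have := coeff_mul_degree_add_degree Z Z
        rw [hZd, hN] at this
        rw [sq, this, leadingCoeff, hZd, sq]
      rw [h1, h2]; ring
    have c2 : ((1 - X ^ 2) * (G ^ 2 * C k)).coeff (2 * (n - 1)) = -(g ^ 2 * k) := by
      have e : (1 - X ^ 2) * (G ^ 2 * C k) = (G ^ 2 - G ^ 2 * X ^ 2) * C k := by ring
      rw [e, coeff_mul_C, coeff_sub]
      have h1 : (G ^ 2).coeff (2 * (n - 1)) = 0 := by
        apply coeff_eq_zero_of_natDegree_lt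
        rw [natDegree_pow, hG]
        omega
      have h2 : (G ^ 2 * X ^ 2).coeff (2 * (n - 1)) = g ^ 2 := by
        have e2 : 2 * (n - 1) = 2 * (n - 2) + 2 := by omega
        rw [e2, coeff_mul_X_pow]
        have := coeff_mul_degree_add_degree G G
        rw [hG, ← two_mul] at this
        rw [sq, this, sq]
      rw [h1, h2]; ring
    rw [hpe, c2] at c1
    have e3 : a * ((n : ℝ) - 1) = g * l := by rw [← ha1, hGl]
    have e4 : g ^ 2 * ((n : ℝ) ^ 2 * l ^ 2) = g ^ 2 * (((n : ℝ) - 1) ^ 2 * k) := by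
      have e5 : g ^ 2 * k = (n : ℝ) ^ 2 * a ^ 2 := by linarith
      calc g ^ 2 * ((n : ℝ) ^ 2 * l ^ 2) = (n : ℝ) ^ 2 * (g * l) ^ 2 := by ring
        _ = (n : ℝ) ^ 2 * (a * ((n : ℝ) - 1)) ^ 2 := by rw [e3]
        _ = ((n : ℝ) - 1) ^ 2 * ((n : ℝ) ^ 2 * a ^ 2) := by ring
        _ = g ^ 2 * (((n : ℝ) - 1) ^ 2 * k) := by rw [← e5]; ring
    exact mul_left_cancel₀ (pow_ne_zero 2 hg0) e4
  have hN1 : ((n - 1 : ℕ) : ℝ) = (n : ℝ) - 1 := by
    rw [Nat.cast_sub (by omega)]; push_cast; ring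
  have hT := tE (n - 1) Z (by omega) hm hZ0 (by
    intro z _
    have h1 := congrArg (fun p => p.eval z) hpe
    simp only [eval_mul, eval_C, eval_sub, eval_one, eval_pow, eval_X] at h1
    have h2 : Z.derivative.eval z = G.eval z * l := by
      rw [hL, eval_mul, hLc, eval_C]
    rw [hN1, h2]
    have hn0 : (n : ℝ) ^ 2 ≠ 0 := by
      have : (n : ℝ) ≠ 0 := by exact_mod_cast (by omega : n ≠ 0)
      positivity
    apply mul_left_cancel₀ hn0
    linear_combination ((n : ℝ) - 1) ^ 2 * h1 - (1 - z ^ 2) * G.eval z ^ 2 * hlc)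
  have hc : ((n - 1 : ℕ) : ℤ) = (n : ℤ) - 1 := by omega
  rw [hc] at hT
  exact hT

/-- the zero of the last factor is `1` -/
theorem p1_A1one {n : ℕ} {Z G L B : ℝ[X]} (hm : |Z.eval (-1)| = 1)
    (hL : Z.derivative = G * L) (hL0 : L ≠ 0) (hLd : L.natDegree ≤ 1) (hB : B.natDegree ≤ 1)
    (he : ∀ z, (n : ℝ) ^ 2 * (1 - Z.eval z ^ 2) =
        (1 - z ^ 2) * (G.eval z ^ 2 * (B.eval z + L.eval z ^ 2)))
    (hB0 : ∀ z ∈ Icc (-1 : ℝ) 1, 0 ≤ B.eval z) (hG1 : G.eval 1 ≠ 0) (hL1 : L.eval 1 = 0) :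
    ∃ s : ℝ, Par n 1 s 0 Z := by
  have hpe : C ((n : ℝ) ^ 2) * (1 - Z ^ 2) = (1 - X ^ 2) * (G ^ 2 * (B + L ^ 2)) := by
    apply Polynomial.funext
    intro z
    simp only [eval_mul, eval_C, eval_sub, eval_one, eval_pow, eval_X, eval_add]
    exact he z
  have hB1 : B.eval 1 = 0 := by
    have h1 := congrArg (fun p => p.derivative.eval 1) hpe
    have hZ1 : Z.derivative.eval 1 = 0 := by rw [hL, eval_mul, hL1, mul_zero]
    simp only [derivative_mul, derivative_C, derivative_sub, derivative_one, derivative_pow,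
      derivative_X, eval_add, eval_mul, eval_C, eval_sub, eval_one, eval_pow, eval_X, hZ1, hL1,
      eval_zero] at h1
    norm_num at h1
    rcases h1 with h1 | h1
    · exact absurd h1 hG1
    · exact h1
  have hLe := p1_lin hLd
  have hBe := p1_lin hB
  set l := L.coeff 1 with hl
  set b := B.coeff 1 with hb
  have hL2 : ∀ z, L.eval z = l * (z - 1) := by
    intro z
    rw [hLe] at hL1
    rw [hLe]
    linear_combination hL1
  have hB2 : ∀ z, B.eval z = b * (z - 1) := by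
    intro z
    rw [hBe] at hB1
    rw [hBe]
    linear_combination hB1
  have hl0 : l ≠ 0 := by
    intro h
    apply hL0
    apply Polynomial.funext
    intro z
    rw [hL2, h]
    simp
  have hb0 : 0 ≤ -b := by
    have := hB0 (-1) ⟨le_rfl, by norm_num⟩
    rw [hB2] at this
    linarith
  have hl2 : 0 < l ^ 2 := by positivity
  have hs0 : 0 ≤ -b / l ^ 2 := div_nonneg hb0 hl2.le
  refine ⟨-b / l ^ 2, ⟨le_rfl, hs0, le_rfl, by positivity, hm, ?_, Or.inl ⟨rfl, rfl⟩⟩⟩
  intro z hz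
  have h1z : (1 - z) ≠ 0 := by have := hz.2; intro h; linarith
  rw [he z, hL, eval_mul, hL2, hB2]
  field_simp
  ring

/-- the zero of the last factor is larger than `1` -/
theorem p1_A1big {n : ℕ} {Z G L B : ℝ[X]} {x : ℕ → ℝ} {σ c : ℝ} (hn : 3 ≤ n)
    (hσ : σ = 1 ∨ σ = -1) (hx : ∀ i, i + 1 < n → x i < x (i + 1))
    (hv : ∀ i < n, Z.eval (x i) = σ * (-1) ^ i) (h0 : x 0 = -1) (h1 : x (n - 1) = 1)
    (hGe : G = ∏ i ∈ Finset.Ico 1 (n - 1), (X - C (x i)))
    (hL : Z.derivative = G * L) (hL0 : L ≠ 0) (hLd : L.natDegree ≤ 1) (hB : B.natDegree ≤ 1)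
    (he : ∀ z, (n : ℝ) ^ 2 * (1 - Z.eval z ^ 2) =
        (1 - z ^ 2) * (G.eval z ^ 2 * (B.eval z + L.eval z ^ 2)))
    (hG1 : ∀ z, z ∉ Ioo (-1 : ℝ) 1 → G.eval z ≠ 0) (hc : 1 < c) (hLc : L.eval c = 0) :
    ∃ s p : ℝ, Par n c s p Z := by
  have hm := d2a_mono hx
  have hLe := p1_lin hLd
  have hBe := p1_lin hB
  set l := L.coeff 1 with hl
  set b := B.coeff 1 with hb
  have hL2 : ∀ z, L.eval z = l * (z - c) := by
    intro z
    rw [hLe] at hLc
    rw [hLe]
    linear_combination hLc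
  have hl0 : l ≠ 0 := by
    intro h
    apply hL0
    apply Polynomial.funext
    intro z
    rw [hL2, h]
    simp
  -- the value at 1
  set τ := Z.eval 1 with hτ
  have hτv : τ = σ * (-1) ^ (n - 1) := by
    have h2 := hv (n - 1) (by omega)
    rw [h1] at h2
    exact h2
  have hτ2 : τ * τ = 1 := by
    rw [hτv]
    have e : (σ * (-1 : ℝ) ^ (n - 1)) * (σ * (-1) ^ (n - 1)) = σ ^ 2 * (((-1 : ℝ) ^ 2) ^ (n - 1)) := by
      rw [← pow_mul]; ring
    rw [e]
    rcases hσ with h | h <;> rw [h] <;> norm_num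
  have hτa : |τ| = 1 := by
    have := abs_mul_abs_self τ
    rw [hτ2] at this
    nlinarith [abs_nonneg τ]
  have hn2 : Z.eval (x (n - 2)) = -τ := by
    rw [hv (n - 2) (by omega), hτv]
    have e : n - 1 = n - 2 + 1 := by omega
    rw [e, pow_succ]
    ring
  have hxn : x (n - 2) < 1 := by rw [← h1]; exact hm (n - 2) (n - 1) (by omega) (by omega)
  have hxn' : -1 < x (n - 2) := by rw [← h0]; exact hm 0 (n - 2) (by omega) (by omega)
  have hxle : ∀ i ∈ Finset.Ico 1 (n - 1), x i ≤ x (n - 2) := by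
    intro i hi
    rw [Finset.mem_Ico] at hi
    rcases Nat.lt_or_ge i (n - 2) with h | h
    · exact (hm i (n - 2) h (by omega)).le
    · have : i = n - 2 := by omega
      rw [this]
  have hGpos : ∀ z, x (n - 2) < z → 0 < G.eval z := by
    intro z hz
    rw [hGe, eval_prod]
    apply Finset.prod_pos
    intro i hi
    have := hxle i hi
    simp only [eval_sub, eval_X, eval_C]
    linarith
  set W : ℝ[X] := C τ * Z with hW
  have hW1 : W.eval 1 = 1 := by rw [hW, eval_mul, eval_C, ← hτ, hτ2]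
  have hW2 : W.eval (x (n - 2)) = -1 := by
    rw [hW, eval_mul, eval_C, hn2]
    linarith
  have hWd : ∀ z, W.derivative.eval z = (τ * l) * ((z - c) * G.eval z) := by
    intro z
    rw [hW, derivative_C_mul, eval_mul, eval_C, hL, eval_mul, hL2]
    ring
  have hWZ : ∀ z, W.eval z ^ 2 = Z.eval z ^ 2 := by
    intro z
    rw [hW, eval_mul, eval_C]
    linear_combination (Z.eval z ^ 2) * hτ2
  have hneg : τ * l < 0 := by
    obtain ⟨ξ, hξ, hξ2⟩ := d2a_mvt W hxn
    rw [hW1, hW2, hWd] at hξ2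
    by_contra hcon
    push Not at hcon
    have g := hGpos ξ hξ.1
    have h3 : (ξ - c) * G.eval ξ ≤ 0 := by
      apply mul_nonpos_of_nonpos_of_nonneg _ g.le
      linarith [hξ.2]
    have h4 : τ * l * ((ξ - c) * G.eval ξ) ≤ 0 := mul_nonpos_of_nonneg_of_nonpos hcon h3
    have h5 : τ * l * ((ξ - c) * G.eval ξ) * (1 - x (n - 2)) ≤ 0 :=
      mul_nonpos_of_nonpos_of_nonneg h4 (by linarith)
    linarith
  have hWc : 1 < W.eval c := by
    obtain ⟨ξ, hξ, hξ2⟩ := d2a_mvt W hc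
    rw [hW1, hWd] at hξ2
    have g := hGpos ξ (hxn.trans hξ.1)
    have h3 : (ξ - c) * G.eval ξ < 0 := mul_neg_of_neg_of_pos (by linarith [hξ.2]) g
    have h4 : 0 < τ * l * ((ξ - c) * G.eval ξ) := mul_pos_of_neg_of_neg hneg h3
    have h5 : 0 < τ * l * ((ξ - c) * G.eval ξ) * (c - 1) := mul_pos h4 (by linarith)
    linarith
  obtain ⟨M, hM1, hM2⟩ : ∃ M, c < M ∧ W.eval M < -1 := by
    set K := (|W.eval (c + 1)| + 2) / (-(τ * l)) with hK
    have hKpos : 0 < K := div_pos (by positivity) (by linarith)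
    refine ⟨c + 1 + K, by linarith, ?_⟩
    obtain ⟨ξ, hξ, hξ2⟩ := d2a_mvt W (show c + 1 < c + 1 + K by linarith)
    rw [hWd] at hξ2
    have g1 : 1 ≤ G.eval ξ := by
      rw [hGe, eval_prod]
      have h3 : ∏ i ∈ Finset.Ico 1 (n - 1), (1 : ℝ) ≤
          ∏ i ∈ Finset.Ico 1 (n - 1), ((X - C (x i)).eval ξ) := by
        apply Finset.prod_le_prod
        · intro i _; norm_num
        · intro i hi
          have := hxle i hi
          simp only [eval_sub, eval_X, eval_C]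
          linarith [hξ.1]
      simpa using h3
    have h3 : 1 ≤ (ξ - c) * G.eval ξ := by nlinarith [hξ.1]
    have h4 : τ * l * ((ξ - c) * G.eval ξ) ≤ τ * l := by nlinarith
    have h5 : τ * l * ((ξ - c) * G.eval ξ) * (c + 1 + K - (c + 1)) ≤ τ * l * K := by
      have : c + 1 + K - (c + 1) = K := by ring
      rw [this]
      exact mul_le_mul_of_nonneg_right h4 hKpos.le
    have h6 : τ * l * K = -(|W.eval (c + 1)| + 2) := by
      have e : K * (-(τ * l)) = |W.eval (c + 1)| + 2 := by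
        rw [hK]
        exact div_mul_cancel₀ _ (neg_ne_zero.mpr hneg.ne)
      linear_combination (-1) * e
    have h7 := le_abs_self (W.eval (c + 1))
    linarith
  obtain ⟨u, hu, hWu⟩ : ∃ u ∈ Ioo c M, W.eval u = 1 := by
    have h3 := intermediate_value_Ioo' (f := fun z => W.eval z) hM1.le W.continuous.continuousOn
    obtain ⟨u, hu, hu2⟩ := h3 (show (1 : ℝ) ∈ Ioo (W.eval M) (W.eval c) from ⟨by linarith, hWc⟩)
    exact ⟨u, hu, hu2⟩
  obtain ⟨v, hv', hWv⟩ : ∃ v ∈ Ioo u M, W.eval v = -1 := by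
    have h3 := intermediate_value_Ioo' (f := fun z => W.eval z) hu.2.le W.continuous.continuousOn
    obtain ⟨v, hv, hv2⟩ := h3 (show (-1 : ℝ) ∈ Ioo (W.eval M) (W.eval u) from
      ⟨by linarith, by rw [hWu]; norm_num⟩)
    exact ⟨v, hv, hv2⟩
  have hroot : ∀ z, 1 < z → W.eval z ^ 2 = 1 → B.eval z + L.eval z ^ 2 = 0 := by
    intro z hz h3
    rw [hWZ] at h3
    have h4 := he z
    rw [h3, sub_self, mul_zero] at h4
    have h5 : (1 - z ^ 2) ≠ 0 := by nlinarith
    have h6 : G.eval z ^ 2 ≠ 0 := pow_ne_zero _ (hG1 z fun h => by linarith [h.2])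
    rcases mul_eq_zero.mp h4.symm with h7 | h7
    · exact absurd h7 h5
    · rcases mul_eq_zero.mp h7 with h8 | h8
      · exact absurd h8 h6
      · exact h8
  have hc1 := hu.1
  have hc2 := hv'.1
  have r1 := hroot u (by linarith) (by rw [hWu]; norm_num)
  have r2 := hroot v (by linarith) (by rw [hWv]; norm_num)
  rw [hBe, hL2] at r1 r2
  have hbu : b = -(l ^ 2 * ((u - c) + (v - c))) := by
    have h3 : (v - u) * (b + l ^ 2 * ((u - c) + (v - c))) = 0 := by
      linear_combination r2 - r1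
    rcases mul_eq_zero.mp h3 with h4 | h4
    · exfalso; linarith
    · linarith
  have hBc : B.coeff 0 = l ^ 2 * ((u - c) * (v - c)) - b * c := by
    rw [hbu] at r1 ⊢
    linear_combination r1
  have ha : 0 < u - c := by linarith
  have hb' : 0 < v - c := by linarith
  have hm1 : |Z.eval (-1)| = 1 := by
    rw [← h0, hv 0 (by omega)]
    rcases hσ with h | h <;> rw [h] <;> norm_num
  refine ⟨(u - c) + (v - c), (u - c) * (v - c), ⟨hc.le, by linarith, by positivity,
    by nlinarith [sq_nonneg ((u - c) - (v - c))], hm1, ?_, Or.inr ⟨hc, ?_, hτa⟩⟩⟩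
  · intro z hz
    have h1z : (c - z) ≠ 0 := by have := hz.2; intro h; linarith
    rw [he z, hL, eval_mul, hL2, hBe, hBc, hbu]
    field_simp
    ring
  · rw [hL, eval_mul, hLc, mul_zero]

/-- reflection -/
theorem p1_refl {n : ℕ} {Z : ℝ[X]} (hZ : Z.natDegree ≤ n) (hb : Bdd Z)
    (hZ0 : Z.derivative ≠ 0) {x : ℕ → ℝ} {σ : ℝ}
    (hσ : σ = 1 ∨ σ = -1) (hx : ∀ i, i + 1 < n → x i < x (i + 1))
    (hv : ∀ i < n, Z.eval (x i) = σ * (-1) ^ i) :
    (Z.comp (-X)).natDegree ≤ n ∧ Bdd (Z.comp (-X)) ∧ (Z.comp (-X)).derivative ≠ 0 ∧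
    (∀ z, (Z.comp (-X)).derivative.eval z = -Z.derivative.eval (-z)) ∧
    (∀ i, i + 1 < n → -x (n - 1 - i) < -x (n - 1 - (i + 1))) ∧
    ∃ σ' : ℝ, (σ' = 1 ∨ σ' = -1) ∧
      ∀ i < n, (Z.comp (-X)).eval (-x (n - 1 - i)) = σ' * (-1) ^ i := by
  have hd : (Z.comp (-X)).derivative = -(Z.derivative.comp (-X)) := by
    rw [derivative_comp]
    simp
  refine ⟨?_, ?_, ?_, ?_, ?_, ?_⟩
  · rw [natDegree_comp, natDegree_neg, natDegree_X, mul_one]
    exact hZ
  · intro z hz
    have := hb (-z) ⟨by linarith [hz.2], by linarith [hz.1]⟩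
    simpa [eval_comp] using this
  · rw [hd, Ne, neg_eq_zero]
    intro h
    apply hZ0
    have h2 := congrArg (fun p => p.comp (-X)) h
    simp only [comp_assoc, neg_comp, X_comp, neg_neg, comp_X, zero_comp] at h2
    exact h2
  · intro z
    rw [hd, eval_neg, eval_comp, eval_neg, eval_X]
  · intro i hi
    have h1 := hx (n - 1 - (i + 1)) (by omega)
    have e : n - 1 - (i + 1) + 1 = n - 1 - i := by omega
    rw [e] at h1
    linarith
  · refine ⟨σ * (-1) ^ (n - 1), ?_, ?_⟩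
    · rcases hσ with h | h <;> rcases neg_one_pow_eq_or ℝ (n - 1) with h2 | h2 <;> rw [h, h2] <;>
        norm_num
    · intro i hi
      rw [eval_comp, eval_neg, eval_X, neg_neg, hv (n - 1 - i) (by omega)]
      have e : (-1 : ℝ) ^ (n - 1) = (-1) ^ (n - 1 - i) * (-1) ^ i := by
        rw [← pow_add]
        congr 1
        omega
      have e2 : ((-1 : ℝ) ^ i) * (-1) ^ i = 1 := by
        rw [← mul_pow]; norm_num
      rw [e]
      linear_combination (-(σ * (-1 : ℝ) ^ (n - 1 - i))) * e2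

/-- the case of two end points and a zero of the derivative to the right -/
theorem p1_A1 {n : ℕ} {Z : ℝ[X]} (hn : 3 ≤ n) (hZ : Z.natDegree ≤ n) (hb : Bdd Z)
    (hZ0 : Z.derivative ≠ 0) {x : ℕ → ℝ} {σ : ℝ}
    (hσ : σ = 1 ∨ σ = -1) (hx : ∀ i, i + 1 < n → x i < x (i + 1))
    (hv : ∀ i < n, Z.eval (x i) = σ * (-1) ^ i) (h0 : x 0 = -1) (h1 : x (n - 1) = 1)
    {c : ℝ} (hc : 1 ≤ c) (hZc : Z.derivative.eval c = 0) : ∃ c s p : ℝ, Par n c s p Z := by
  obtain ⟨G, L, B, hG, hL, hL0, hLd, hBd, he, hB0, _, hGz⟩ := p1_fac hn hZ hb hZ0 hσ hx hv h0 h1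
  have hm1 : |Z.eval (-1)| = 1 := by
    rw [← h0, hv 0 (by omega)]
    rcases hσ with h | h <;> rw [h] <;> norm_num
  have hLc : L.eval c = 0 := by
    rw [hL, eval_mul] at hZc
    rcases mul_eq_zero.mp hZc with h | h
    · exact absurd h (hGz c fun h2 => by linarith [h2.2])
    · exact h
  rcases eq_or_lt_of_le hc with h | h
  · obtain ⟨s, hs⟩ := p1_A1one hm1 hL hL0 hLd hBd he hB0 (hGz 1 fun h2 => by linarith [h2.2])
      (by rw [h]; exact hLc)
    exact ⟨1, s, 0, hs⟩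
  · obtain ⟨s, p, hs⟩ := p1_A1big hn hσ hx hv h0 h1 hG hL hL0 hLd hBd he hGz h hLc
    exact ⟨c, s, p, hs⟩

theorem p1 (_hP1z : P1z) (_hD2a : D2a) : P1 := by
  intro n Z hn hZ hb hA
  obtain ⟨y, hy1, hy2, hy3⟩ := hA
  obtain ⟨σ, hσ, hyv⟩ : ∃ σ : ℝ, (σ = 1 ∨ σ = -1) ∧
      ∀ i : Fin n, Z.eval (y i) = σ * (-1) ^ (i : ℕ) := by
    rcases hy3 with h | h
    · exact ⟨1, Or.inl rfl, fun i => by rw [h i]; ring⟩
    · exact ⟨-1, Or.inr rfl, fun i => by rw [h i]; ring⟩
  set x : ℕ → ℝ := fun i => if h : i < n then y ⟨i, h⟩ else 0 with hxdef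
  have hxe : ∀ i (h : i < n), x i = y ⟨i, h⟩ := by
    intro i h
    rw [hxdef]
    simp only [dif_pos h]
  have hx : ∀ i, i + 1 < n → x i < x (i + 1) := by
    intro i hi
    rw [hxe i (by omega), hxe (i + 1) hi]
    apply hy1
    rw [Fin.mk_lt_mk]
    omega
  have hxI : ∀ i < n, x i ∈ Icc (-1 : ℝ) 1 := by
    intro i hi
    rw [hxe i hi]
    exact hy2 _
  have hv : ∀ i < n, Z.eval (x i) = σ * (-1) ^ i := by
    intro i hi
    rw [hxe i hi]
    exact hyv ⟨i, hi⟩
  have hm := d2a_mono hx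
  have hsg : ∀ i, |σ * (-1 : ℝ) ^ i| = 1 := by
    intro i
    rw [abs_mul, abs_pow, abs_neg, abs_one, one_pow, mul_one]
    rcases hσ with h | h <;> rw [h] <;> norm_num
  have hva : ∀ i < n, |Z.eval (x i)| = 1 := fun i hi => by rw [hv i hi]; exact hsg i
  have hZ0 : Z.derivative ≠ 0 := by
    intro h
    obtain ⟨ξ, _, h2⟩ := d2a_mvt Z (hx 0 (by omega))
    rw [h, eval_zero, zero_mul, hv 0 (by omega), hv 1 (by omega)] at h2
    rcases hσ with h3 | h3 <;> rw [h3] at h2 <;> norm_num at h2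
  obtain ⟨hZr, hbr, hZ0r, hder, hxr, σ', hσ', hvr⟩ := p1_refl hZ hb hZ0 hσ hx hv
  set xr : ℕ → ℝ := fun i => -x (n - 1 - i) with hxrd
  rcases eq_or_lt_of_le (hxI 0 (by omega)).1 with hL | hL
  · rcases eq_or_lt_of_le (hxI (n - 1) (by omega)).2 with hR | hR
    · -- two end points
      obtain ⟨G, L, B, hG, hLf, hL0, hLd, hBd, he, hB0, hLn, hGz⟩ :=
        p1_fac hn hZ hb hZ0 hσ hx hv hL.symm hR
      have hm1 : |Z.eval (-1)| = 1 := by rw [hL]; exact hva 0 (by omega)
      by_cases hdeg : L.natDegree = 0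
      · left
        refine p1_A0 hn hm1 hZ0 hLf hL0 hdeg ?_ he
        rw [hG, natDegree_prod_of_monic _ _ fun i _ => monic_X_sub_C _]
        simp only [natDegree_X_sub_C, Finset.sum_const, Nat.card_Ico, smul_eq_mul, mul_one]
        omega
      · right
        have hl : L.coeff 1 ≠ 0 := by
          intro h
          apply hdeg
          have h2 : L = C (L.coeff 0) := by
            conv_lhs => rw [eq_X_add_C_of_natDegree_le_one hLd]
            rw [h]; simp
          rw [h2, natDegree_C]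
        set c := -(L.coeff 0) / L.coeff 1 with hc
        have hLc : L.eval c = 0 := by
          rw [p1_lin hLd, hc]
          field_simp
          ring
        have hZc : Z.derivative.eval c = 0 := by rw [hLf, eval_mul, hLc, mul_zero]
        rcases le_or_gt 1 c with h1 | h1
        · obtain ⟨c', s, p, h⟩ := p1_A1 hn hZ hb hZ0 hσ hx hv hL.symm hR h1 hZc
          exact ⟨c', s, p, Or.inl h⟩
        · have h2 : c ≤ -1 := by
            by_contra h3
            push Not at h3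
            exact hLn c ⟨h3, h1⟩ hLc
          obtain ⟨c', s, p, h⟩ := p1_A1 hn hZr hbr hZ0r hσ' hxr hvr
            (by show -x (n - 1 - 0) = -1; rw [Nat.sub_zero, hR])
            (by show -x (n - 1 - (n - 1)) = 1; rw [Nat.sub_self, ← hL]; norm_num)
            (c := -c) (by linarith) (by rw [hder, neg_neg, hZc, neg_zero])
          exact ⟨c', s, p, Or.inr h⟩
    · obtain ⟨s, h⟩ := p1_B hn hZ hb hZ0 hx hva hL.symm hR
      exact Or.inr ⟨1, s, 0, Or.inl h⟩
  · rcases eq_or_lt_of_le (hxI (n - 1) (by omega)).2 with hR | hR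
    · obtain ⟨s, h⟩ := p1_B hn hZr hbr hZ0r (x := xr) hxr
        (fun i hi => by
          rw [hvr i hi, abs_mul, abs_pow, abs_neg, abs_one, one_pow, mul_one]
          rcases hσ' with h | h <;> rw [h] <;> norm_num)
        (by show -x (n - 1 - 0) = -1; rw [Nat.sub_zero, hR])
        (by show -x (n - 1 - (n - 1)) < 1; rw [Nat.sub_self]; linarith)
      exact Or.inr ⟨1, s, 0, Or.inr h⟩
    · exfalso
      have hinj : Set.InjOn x (Finset.range n) := by
        intro i hi j hj hij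
        simp only [Finset.coe_range, mem_Iio] at hi hj
        rcases lt_trichotomy i j with h | h | h
        · exact absurd hij (hm i j h hj).ne
        · exact h
        · exact absurd hij (hm j i h hi).ne'
      have hs : ∀ i ∈ Finset.range n, x i ∈ Ioo (-1 : ℝ) 1 ∧ |Z.eval (x i)| = 1 := by
        intro i hi
        rw [Finset.mem_range] at hi
        refine ⟨⟨?_, ?_⟩, hva i hi⟩
        · rcases Nat.eq_zero_or_pos i with h | h
          · rw [h]; exact hL
          · exact hL.trans (hm 0 i h hi)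
        · rcases Nat.lt_or_ge i (n - 1) with h | h
          · exact (hm i (n - 1) h (by omega)).trans hR
          · have : i = n - 1 := by omega
            rw [this]; exact hR
      obtain ⟨L, Q, _, _, hLd, _, _⟩ := d2a_quot (by omega) hZ hb hZ0 hinj hs
      rw [Finset.card_range] at hLd
      omega

end Pool.Agent.Helper10.AL
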