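import Pool.Agent.Helper10.AL.St5
import Pool.Agent.Helper10.AL.P.D2a

/-!
Project AL, piece P1z: polynomials with `n` alternation points have an upward zero.
-/

set_option autoImplicit false

namespace Pool.Agent.Helper10.AL

open Polynomial Set Real MeasureTheory intervalIntegral
open Pool.Agent.Helper40.AS (Bdd)

noncomputable section

/-- a zero between two consecutive alternation points is simple with positive derivative -/
theorem p1z_pos {n : ℕ} {Z : ℝ[X]} (hn : 3 ≤ n) (hZ : Z.natDegree ≤ n) (hb : Bdd Z) {y : ℕ → ℝ}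
    (hy : ∀ i, i + 1 < n → y i < y (i + 1)) (hyI : ∀ i < n, y i ∈ Icc (-1 : ℝ) 1)
    (hyv : ∀ i < n, |Z.eval (y i)| = 1) {k : ℕ} (hk : k + 1 < n) (h0 : Z.eval (y k) = -1)
    (h1 : Z.eval (y (k + 1)) = 1) {x0 : ℝ} (hx0 : x0 ∈ Ioo (y k) (y (k + 1)))
    (hz : Z.eval x0 = 0) : 0 < Z.derivative.eval x0 := by
  have hm := d2a_mono hy
  obtain ⟨c1, hc1, hc1e⟩ := d2a_mvt Z hx0.1
  obtain ⟨c2, hc2, hc2e⟩ := d2a_mvt Z hx0.2
  rw [hz, h0] at hc1e
  rw [hz, h1] at hc2e
  have hp1 : 0 < Z.derivative.eval c1 := by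
    by_contra hcon
    push Not at hcon
    have : Z.derivative.eval c1 * (x0 - y k) ≤ 0 :=
      mul_nonpos_of_nonpos_of_nonneg hcon (by linarith [hx0.1])
    linarith
  have hp2 : 0 < Z.derivative.eval c2 := by
    by_contra hcon
    push Not at hcon
    have : Z.derivative.eval c2 * (y (k + 1) - x0) ≤ 0 :=
      mul_nonpos_of_nonpos_of_nonneg hcon (by linarith [hx0.2])
    linarith
  have hZ0 : Z.derivative ≠ 0 := by
    intro h
    rw [h, eval_zero] at hp1
    exact lt_irrefl 0 hp1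
  have hinj : Set.InjOn y (Finset.Ico 1 (n - 1)) := by
    intro i hi j hj hij
    simp only [Finset.coe_Ico, Set.mem_Ico] at hi hj
    rcases lt_trichotomy i j with h | h | h
    · exact absurd hij (hm i j h (by omega)).ne
    · exact h
    · exact absurd hij.symm (hm j i h (by omega)).ne
  have hs : ∀ i ∈ Finset.Ico 1 (n - 1), y i ∈ Ioo (-1 : ℝ) 1 ∧ |Z.eval (y i)| = 1 := by
    intro i hi
    rw [Finset.mem_Ico] at hi
    refine ⟨⟨?_, ?_⟩, hyv i (by omega)⟩
    · exact lt_of_le_of_lt (hyI 0 (by omega)).1 (hm 0 i (by omega) (by omega))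
    · exact lt_of_lt_of_le (hm i (n - 1) (by omega) (by omega)) (hyI (n - 1) (by omega)).2
  obtain ⟨L, Q, hL, hL0, hLd, -, -⟩ := d2a_quot (n := n) (by omega) hZ hb hZ0 hinj hs
  rw [Nat.card_Ico] at hLd
  have hLd1 : L.natDegree ≤ 1 := by omega
  set G := ∏ i ∈ Finset.Ico 1 (n - 1), (X - C (y i)) with hG
  have hGe : ∀ z, G.eval z = ∏ i ∈ Finset.Ico 1 (n - 1), (z - y i) := by
    intro z
    rw [hG, eval_prod]
    simp
  have hsame : ∀ c ∈ Ioo (y k) (y (k + 1)), 0 < G.eval c * G.eval x0 := by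
    intro c hc
    rw [hGe, hGe, ← Finset.prod_mul_distrib]
    refine Finset.prod_pos fun i hi => ?_
    rw [Finset.mem_Ico] at hi
    rcases le_or_gt i k with h | h
    · have h2 : y i ≤ y k := by
        rcases h.eq_or_lt with h3 | h3
        · rw [h3]
        · exact (hm i k h3 (by omega)).le
      exact mul_pos (by linarith [hc.1]) (by linarith [hx0.1])
    · have h2 : y (k + 1) ≤ y i := by
        rcases (show k + 1 ≤ i from h).eq_or_lt with h3 | h3
        · rw [h3]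
        · exact (hm (k + 1) i h3 (by omega)).le
      exact mul_pos_of_neg_of_neg (by linarith [hc.2]) (by linarith [hx0.2])
  have hc1' : c1 ∈ Ioo (y k) (y (k + 1)) := ⟨hc1.1, hc1.2.trans hx0.2⟩
  have hc2' : c2 ∈ Ioo (y k) (y (k + 1)) := ⟨hx0.1.trans hc2.1, hc2.2⟩
  have hg1 := hsame c1 hc1'
  have hg2 := hsame c2 hc2'
  rw [hL, eval_mul] at hp1 hp2 ⊢
  have hl : ∀ c, 0 < G.eval c * G.eval x0 → 0 < G.eval c * L.eval c →
      0 < G.eval x0 * L.eval c := by
    intro c hg hp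
    by_contra hcon
    push Not at hcon
    have h2 : (G.eval c * G.eval x0) * (G.eval c * L.eval c) =
        G.eval c ^ 2 * (G.eval x0 * L.eval c) := by ring
    have h3 : 0 < (G.eval c * G.eval x0) * (G.eval c * L.eval c) := mul_pos hg hp
    rw [h2] at h3
    have h4 : G.eval c ^ 2 * (G.eval x0 * L.eval c) ≤ 0 :=
      mul_nonpos_of_nonneg_of_nonpos (sq_nonneg _) hcon
    linarith
  have hl1 := hl c1 hg1 hp1
  have hl2 := hl c2 hg2 hp2
  have hLe : ∀ z, L.eval z = L.coeff 1 * z + L.coeff 0 := by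
    intro z
    conv_lhs => rw [eq_X_add_C_of_natDegree_le_one hLd1]
    simp
  have hd : 0 < c2 - c1 := by linarith [hc1.2, hc2.1]
  have hcomb : (c2 - c1) * (G.eval x0 * L.eval x0) =
      (c2 - x0) * (G.eval x0 * L.eval c1) + (x0 - c1) * (G.eval x0 * L.eval c2) := by
    rw [hLe x0, hLe c1, hLe c2]
    ring
  have hpos : 0 < (c2 - c1) * (G.eval x0 * L.eval x0) := by
    rw [hcomb]
    have h2 := mul_pos (show 0 < c2 - x0 by linarith [hc2.1]) hl1
    have h3 := mul_pos (show 0 < x0 - c1 by linarith [hc1.2]) hl2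
    linarith
  exact (mul_pos_iff_of_pos_left hd).mp hpos

theorem p1z : P1z := by
  intro n Z hn hZ hb halt
  obtain ⟨x, hx, hxI, hv⟩ := halt
  obtain ⟨σ, hσ, hvσ⟩ : ∃ σ : ℝ, (σ = 1 ∨ σ = -1) ∧
      ∀ i : Fin n, Z.eval (x i) = σ * (-1) ^ (i : ℕ) := by
    rcases hv with h | h
    · exact ⟨1, Or.inl rfl, fun i => by rw [h i, one_mul]⟩
    · exact ⟨-1, Or.inr rfl, fun i => by rw [h i, neg_one_mul]⟩
  set y : ℕ → ℝ := fun i => if h : i < n then x ⟨i, h⟩ else 2 with hydef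
  have hye : ∀ i (h : i < n), y i = x ⟨i, h⟩ := by
    intro i h
    rw [hydef]
    simp only [dif_pos h]
  have hy : ∀ i, i + 1 < n → y i < y (i + 1) := by
    intro i hi
    rw [hye i (by omega), hye (i + 1) hi]
    apply hx
    rw [Fin.lt_def]
    simp
  have hyI : ∀ i < n, y i ∈ Icc (-1 : ℝ) 1 := by
    intro i hi
    rw [hye i hi]
    exact hxI _
  have hyv : ∀ i < n, Z.eval (y i) = σ * (-1) ^ i := by
    intro i hi
    rw [hye i hi]
    exact hvσ ⟨i, hi⟩
  have habs : ∀ i < n, |Z.eval (y i)| = 1 := by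
    intro i hi
    rw [hyv i hi, abs_mul, abs_pow, abs_neg, abs_one, one_pow, mul_one]
    rcases hσ with h | h <;> rw [h] <;> simp
  have hk : ∃ k, k + 1 < n ∧ Z.eval (y k) = -1 ∧ Z.eval (y (k + 1)) = 1 := by
    rcases hσ with h | h
    · refine ⟨1, by omega, ?_, ?_⟩
      · rw [hyv 1 (by omega), h]; norm_num
      · rw [hyv 2 (by omega), h]; norm_num
    · refine ⟨0, by omega, ?_, ?_⟩
      · rw [hyv 0 (by omega), h]; norm_num
      · rw [hyv 1 (by omega), h]; norm_num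
  obtain ⟨k, hk, hk0, hk1⟩ := hk
  have hlt := hy k hk
  have hivt := intermediate_value_Ioo hlt.le (Z.continuous.continuousOn (s := Icc (y k) (y (k + 1))))
  obtain ⟨x0, hx0, hx0z⟩ := hivt (show (0 : ℝ) ∈ Ioo (Z.eval (y k)) (Z.eval (y (k + 1))) by
    rw [hk0, hk1]
    constructor <;> norm_num)
  have hx0z' : Z.eval x0 = 0 := hx0z
  refine ⟨x0, ⟨?_, hZ, hb, hx0z', ?_, ?_⟩⟩
  · exact ⟨lt_of_le_of_lt (hyI k (by omega)).1 hx0.1, lt_of_lt_of_le hx0.2 (hyI (k + 1) hk).2⟩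
  · exact p1z_pos hn hZ hb hy hyI habs hk hk0 hk1 hx0 hx0z'
  · exact ⟨y, σ, hσ, hy, hyI, hyv⟩

end

end Pool.Agent.Helper10.AL
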