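import Pool.Agent.Helper10.AL.St5

/-!
Piece P2: the phase of the polynomials with `n` alternation points.
-/

set_option autoImplicit false

namespace Pool.Agent.Helper10.AL

open Polynomial Set Real MeasureTheory intervalIntegral Filter Topology
open Pool.Agent.Helper40.AS (arc Bdd Ext quad)

noncomputable section

section

variable {n : ℕ} {c s p : ℝ} {P : ℝ[X]}

lemma p2_r_nonneg (h : Par n c s p P) (x : ℝ) (hx : x ≤ 1) :
    0 ≤ s / (c - x) + p / (c - x) ^ 2 :=
  add_nonneg (div_nonneg h.hs (by linarith [h.hc])) (div_nonneg h.hp (sq_nonneg _))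

lemma p2_sq_ge (h : Par n c s p P) (t : ℝ) :
    1 ≤ √(1 + (s / (c - cos t) + p / (c - cos t) ^ 2)) := by
  rw [Real.one_le_sqrt]
  have := p2_r_nonneg h (cos t) (cos_le_one t)
  linarith

lemma p2_om_nonneg (_h : Par n c s p P) (t : ℝ) : 0 ≤ om n c s p t :=
  div_nonneg (Nat.cast_nonneg _) (Real.sqrt_nonneg _)

lemma p2_om_le (h : Par n c s p P) (t : ℝ) : om n c s p t ≤ n :=
  div_le_self (Nat.cast_nonneg _) (p2_sq_ge h t)

lemma p2_om_pos (hn : 3 ≤ n) (h : Par n c s p P) (t : ℝ) : 0 < om n c s p t := by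
  have h1 := p2_sq_ge h t
  have h2 : (0 : ℝ) < n := by
    have : 0 < n := by omega
    exact_mod_cast this
  exact div_pos h2 (by linarith)

lemma p2_meas (n : ℕ) (c s p : ℝ) : Measurable (om n c s p) := by
  unfold om
  fun_prop

lemma p2_int (h : Par n c s p P) (a b : ℝ) : IntervalIntegrable (om n c s p) volume a b := by
  rw [intervalIntegrable_iff]
  refine Integrable.mono' (g := fun _ => (n : ℝ)) ?_ (p2_meas n c s p).aestronglyMeasurable ?_
  · exact integrableOn_const (by simp)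
  · refine ae_of_all _ fun t => ?_
    rw [Real.norm_eq_abs, abs_of_nonneg (p2_om_nonneg h t)]
    exact p2_om_le h t

lemma p2_om_diff (h : Par n c s p P) {θ : ℝ} (h0 : cos θ < c) :
    DifferentiableAt ℝ (om n c s p) θ := by
  have h1 : c - cos θ ≠ 0 := by
    have : 0 < c - cos θ := by linarith
    exact this.ne'
  have h2 : 1 + (s / (c - cos θ) + p / (c - cos θ) ^ 2) ≠ 0 := by
    have := p2_r_nonneg h (cos θ) (cos_le_one θ)
    have : 0 < 1 + (s / (c - cos θ) + p / (c - cos θ) ^ 2) := by linarith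
    exact this.ne'
  have h3 : √(1 + (s / (c - cos θ) + p / (c - cos θ) ^ 2)) ≠ 0 := by
    have := p2_sq_ge h θ
    have : 0 < √(1 + (s / (c - cos θ) + p / (c - cos θ) ^ 2)) := by linarith
    exact this.ne'
  have h4 : DifferentiableAt ℝ (fun t => c - cos t) θ := by fun_prop
  unfold om
  refine DifferentiableAt.div (differentiableAt_const _) ?_ h3
  refine DifferentiableAt.sqrt ?_ h2
  exact (differentiableAt_const _).add (((differentiableAt_const _).div h4 h1).add
    ((differentiableAt_const _).div (h4.pow 2) (pow_ne_zero 2 h1)))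

/-- the phase -/
def p2_ph (n : ℕ) (c s p θ : ℝ) : ℝ := ∫ t in θ..π, om n c s p t

lemma p2_ph_cont (h : Par n c s p P) : Continuous (p2_ph n c s p) := by
  have h1 : p2_ph n c s p = fun θ => -∫ t in π..θ, om n c s p t := by
    funext θ
    rw [p2_ph, intervalIntegral.integral_symm]
  rw [h1]
  exact (intervalIntegral.continuous_primitive (fun a b => p2_int h a b) π).neg

lemma p2_ph_deriv (h : Par n c s p P) {θ : ℝ} (h0 : cos θ < c) :
    HasDerivAt (p2_ph n c s p) (-om n c s p θ) θ :=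
  intervalIntegral.integral_hasDerivAt_left (p2_int h θ π)
    ((p2_meas n c s p).stronglyMeasurable.stronglyMeasurableAtFilter)
    (p2_om_diff h h0).continuousAt

lemma p2_ph_pi : p2_ph n c s p π = 0 := intervalIntegral.integral_same

lemma p2_cos_lt (h : Par n c s p P) {θ : ℝ} (h0 : 0 < θ) (h1 : θ ≤ π) : cos θ < c := by
  have h2 : cos θ < cos 0 := cos_lt_cos_of_nonneg_of_le_pi le_rfl h1 h0
  rw [cos_zero] at h2
  linarith [h.hc]

lemma p2_q_deriv (P : ℝ[X]) (θ : ℝ) :
    HasDerivAt (qq P) (-(sin θ * P.derivative.eval (cos θ))) θ := by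
  have h1 : HasDerivAt (fun t => P.eval (cos t)) (P.derivative.eval (cos θ) * (-sin θ)) θ :=
    (P.hasDerivAt (cos θ)).comp θ (hasDerivAt_cos θ)
  have h2 : -(sin θ * P.derivative.eval (cos θ)) = P.derivative.eval (cos θ) * (-sin θ) := by ring
  rw [h2]
  exact h1

/-- the second component -/
def p2_Y (n : ℕ) (c s p : ℝ) (P : ℝ[X]) (θ : ℝ) : ℝ :=
  -(sin θ * P.derivative.eval (cos θ)) / om n c s p θ

lemma p2_om_Y (hn : 3 ≤ n) (h : Par n c s p P) (θ : ℝ) :
    om n c s p θ * p2_Y n c s p P θ = -(sin θ * P.derivative.eval (cos θ)) := by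
  rw [p2_Y, mul_div_cancel₀]
  exact (p2_om_pos hn h θ).ne'

lemma p2_circ (hn : 3 ≤ n) (h : Par n c s p P) {θ : ℝ} (h0 : 0 < θ) (h1 : θ < π) :
    qq P θ ^ 2 + p2_Y n c s p P θ ^ 2 = 1 := by
  have hx : cos θ ∈ Ioo (-1 : ℝ) 1 := by
    constructor
    · rw [← cos_pi]
      exact cos_lt_cos_of_nonneg_of_le_pi h0.le le_rfl h1
    · rw [← cos_zero]
      exact cos_lt_cos_of_nonneg_of_le_pi le_rfl h1.le h0
  have h2 := h.ode _ hx
  have h3 := p2_r_nonneg h (cos θ) (cos_le_one θ)
  have hn0 : (0 : ℝ) < n := by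
    have : 0 < n := by omega
    exact_mod_cast this
  have h4 : om n c s p θ ^ 2 = n ^ 2 / (1 + (s / (c - cos θ) + p / (c - cos θ) ^ 2)) := by
    rw [om, div_pow, Real.sq_sqrt (by linarith)]
  rw [p2_Y, div_pow, h4]
  have h5 : 0 < 1 + (s / (c - cos θ) + p / (c - cos θ) ^ 2) := by linarith
  have h6 : (-(sin θ * P.derivative.eval (cos θ))) ^ 2 =
      (1 - cos θ ^ 2) * P.derivative.eval (cos θ) ^ 2 := by
    rw [neg_sq, mul_pow, sin_sq]
  rw [h6, qq, div_div_eq_mul_div, mul_comm _ (1 + (s / (c - cos θ) + p / (c - cos θ) ^ 2)), ← h2,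
    mul_div_cancel_left₀ _ (by positivity)]
  ring

lemma p2_Y_cont (hn : 3 ≤ n) (h : Par n c s p P) {θ : ℝ} (h0 : 0 < θ) (h1 : θ ≤ π) :
    ContinuousAt (p2_Y n c s p P) θ := by
  unfold p2_Y
  refine ContinuousAt.div ?_ (p2_om_diff h (p2_cos_lt h h0 h1)).continuousAt
    (p2_om_pos hn h θ).ne'
  fun_prop

lemma p2_Y_deriv (hn : 3 ≤ n) (h : Par n c s p P) {θ : ℝ} (h0 : 0 < θ) (h1 : θ < π)
    (h2 : P.derivative.eval (cos θ) ≠ 0) :
    HasDerivAt (p2_Y n c s p P) (-(om n c s p θ * qq P θ)) θ := by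
  have hd : DifferentiableAt ℝ (p2_Y n c s p P) θ := by
    unfold p2_Y
    refine DifferentiableAt.div ?_ (p2_om_diff h (p2_cos_lt h h0 h1.le))
      (p2_om_pos hn h θ).ne'
    have := (P.derivative.differentiable (cos θ)).comp θ (differentiableAt_cos (x := θ))
    exact (differentiableAt_sin.mul this).neg
  have h3 := hd.hasDerivAt
  have h4 := p2_q_deriv P θ
  have h5 : HasDerivAt (fun t => qq P t ^ 2 + p2_Y n c s p P t ^ 2)
      (2 * qq P θ * (-(sin θ * P.derivative.eval (cos θ))) +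
        2 * p2_Y n c s p P θ * deriv (p2_Y n c s p P) θ) θ := by
    refine ((h4.pow 2).add (h3.pow 2)).congr_deriv ?_
    norm_num
  have h6 : HasDerivAt (fun t => qq P t ^ 2 + p2_Y n c s p P t ^ 2) 0 θ := by
    refine (hasDerivAt_const θ (1 : ℝ)).congr_of_eventuallyEq ?_
    filter_upwards [Ioo_mem_nhds h0 h1] with t ht
    exact p2_circ hn h ht.1 ht.2
  have h7 := h5.unique h6
  rw [← p2_om_Y hn h θ] at h7
  have h8 : p2_Y n c s p P θ ≠ 0 := by
    rw [p2_Y]
    refine div_ne_zero (neg_ne_zero.2 (mul_ne_zero (sin_pos_of_pos_of_lt_pi h0 h1).ne' h2))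
      (p2_om_pos hn h θ).ne'
  have h9 : p2_Y n c s p P θ * (om n c s p θ * qq P θ + deriv (p2_Y n c s p P) θ) = 0 := by
    linarith
  have h10 := (mul_eq_zero.1 h9).resolve_left h8
  have h11 : deriv (p2_Y n c s p P) θ = -(om n c s p θ * qq P θ) := by linarith
  rw [← h11]
  exact h3

lemma p2_count {P : ℝ[X]} (hP : P.derivative ≠ 0) :
    {θ : ℝ | θ ∈ Ioo 0 π ∧ P.derivative.eval (cos θ) = 0}.Countable := by
  have h1 : {θ : ℝ | θ ∈ Ioo 0 π ∧ P.derivative.eval (cos θ) = 0} ⊆
      arccos '' (P.derivative.roots.toFinset : Set ℝ) := by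
    rintro θ ⟨h2, h3⟩
    refine ⟨cos θ, ?_, arccos_cos h2.1.le h2.2.le⟩
    rw [Finset.mem_coe, Multiset.mem_toFinset, Polynomial.mem_roots hP]
    exact h3
  exact ((Finset.finite_toSet _).image _).countable.mono h1

lemma p2_const (hn : 3 ≤ n) (h : Par n c s p P) (hP : P.derivative ≠ 0)
    {θ : ℝ} (h0 : 0 < θ) (h1 : θ ≤ π) :
    qq P θ * cos (p2_ph n c s p θ) + p2_Y n c s p P θ * sin (p2_ph n c s p θ) = P.eval (-1) ∧
    qq P θ * sin (p2_ph n c s p θ) - p2_Y n c s p P θ * cos (p2_ph n c s p θ) = 0 := by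
  have hq : Continuous (qq P) := by
    unfold qq
    fun_prop
  have hph := p2_ph_cont h
  have hc1 : ContinuousOn (p2_Y n c s p P) (Icc θ π) := fun t ht =>
    (p2_Y_cont hn h (h0.trans_le ht.1) ht.2).continuousWithinAt
  have hsin : Continuous fun t => sin (p2_ph n c s p t) := continuous_sin.comp hph
  have hcos : Continuous fun t => cos (p2_ph n c s p t) := continuous_cos.comp hph
  have hY : p2_Y n c s p P π = 0 := by
    rw [p2_Y, sin_pi]
    simp
  have hA := integral_eq_of_hasDerivAt_off_countable_of_le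
    (fun t => qq P t * cos (p2_ph n c s p t) + p2_Y n c s p P t * sin (p2_ph n c s p t))
    (fun _ => 0) h1 (p2_count hP)
    ((hq.mul hcos).continuousOn.add (hc1.mul hsin.continuousOn)) (by
      rintro t ⟨ht, ht2⟩
      have ht0 : 0 < t := h0.trans ht.1
      have ht3 : P.derivative.eval (cos t) ≠ 0 := fun h3 => ht2 ⟨⟨ht0, ht.2⟩, h3⟩
      have e1 := p2_q_deriv P t
      have e2 := p2_Y_deriv hn h ht0 ht.2 ht3
      have e3 := p2_ph_deriv h (p2_cos_lt h ht0 ht.2.le)
      refine ((e1.mul e3.cos).add (e2.mul e3.sin)).congr_deriv ?_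
      rw [← p2_om_Y hn h t]
      ring) intervalIntegrable_const
  have hB := integral_eq_of_hasDerivAt_off_countable_of_le
    (fun t => qq P t * sin (p2_ph n c s p t) - p2_Y n c s p P t * cos (p2_ph n c s p t))
    (fun _ => 0) h1 (p2_count hP)
    ((hq.mul hsin).continuousOn.sub (hc1.mul hcos.continuousOn)) (by
      rintro t ⟨ht, ht2⟩
      have ht0 : 0 < t := h0.trans ht.1
      have ht3 : P.derivative.eval (cos t) ≠ 0 := fun h3 => ht2 ⟨⟨ht0, ht.2⟩, h3⟩
      have e1 := p2_q_deriv P t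
      have e2 := p2_Y_deriv hn h ht0 ht.2 ht3
      have e3 := p2_ph_deriv h (p2_cos_lt h ht0 ht.2.le)
      refine ((e1.mul e3.sin).sub (e2.mul e3.cos)).congr_deriv ?_
      rw [← p2_om_Y hn h t]
      ring) intervalIntegrable_const
  simp only [intervalIntegral.integral_zero, p2_ph_pi, hY, cos_zero, sin_zero, mul_one, mul_zero,
    add_zero, sub_zero] at hA hB
  have hqp : qq P π = P.eval (-1) := by rw [qq, cos_pi]
  rw [hqp] at hA
  constructor <;> linarith

lemma p2_main (hn : 3 ≤ n) (h : Par n c s p P) (hP : P.derivative ≠ 0)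
    {θ : ℝ} (h0 : 0 < θ) (h1 : θ ≤ π) :
    qq P θ = P.eval (-1) * cos (p2_ph n c s p θ) ∧
    p2_Y n c s p P θ = P.eval (-1) * sin (p2_ph n c s p θ) := by
  obtain ⟨hA, hB⟩ := p2_const hn h hP h0 h1
  have h2 := sin_sq_add_cos_sq (p2_ph n c s p θ)
  constructor
  · rw [← hA]
    have : qq P θ = qq P θ * (sin (p2_ph n c s p θ) ^ 2 + cos (p2_ph n c s p θ) ^ 2) := by
      rw [h2, mul_one]
    linear_combination this + sin (p2_ph n c s p θ) * hB
  · rw [← hA]
    have : p2_Y n c s p P θ =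
        p2_Y n c s p P θ * (sin (p2_ph n c s p θ) ^ 2 + cos (p2_ph n c s p θ) ^ 2) := by
      rw [h2, mul_one]
    linear_combination this - cos (p2_ph n c s p θ) * hB

lemma p2_abs (hn : 3 ≤ n) (h : Par n c s p P) (hP : P.derivative ≠ 0)
    {θ : ℝ} (h0 : 0 < θ) (h1 : θ < π) :
    |deriv (qq P) θ| = om n c s p θ * |sin (p2_ph n c s p θ)| := by
  rw [(p2_q_deriv P θ).deriv, ← p2_om_Y hn h θ, abs_mul, abs_of_nonneg (p2_om_nonneg h θ),
    (p2_main hn h hP h0 h1.le).2, abs_mul, h.hm, one_mul]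

lemma p2_VC (x : ℝ) : HasDerivAt VC |sin x| x := by
  have h1 : Continuous fun s : ℝ => |sin s| := by fun_prop
  exact (h1.integral_hasStrictDerivAt 0 x).hasDerivAt

lemma p2_Va (hn : 3 ≤ n) (h : Par n c s p P) (hP : P.derivative ≠ 0) (u v : ℝ) (hu : 0 ≤ u)
    (huv : u ≤ v) (hv : v ≤ π) :
    Va (qq P) u v = VC (p2_ph n c s p u) - VC (p2_ph n c s p v) := by
  have hVC : Continuous VC := continuous_iff_continuousAt.2 fun x => (p2_VC x).continuousAt
  have hd : Continuous (deriv (qq P)) := by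
    have : deriv (qq P) = fun θ => -(sin θ * P.derivative.eval (cos θ)) :=
      funext fun θ => (p2_q_deriv P θ).deriv
    rw [this]
    fun_prop
  have h1 := integral_eq_sub_of_hasDerivAt_of_le (f := fun t => -VC (p2_ph n c s p t))
    (f' := fun t => |deriv (qq P) t|) huv (hVC.comp (p2_ph_cont h)).neg.continuousOn (by
      intro t ht
      have ht0 : 0 < t := hu.trans_lt ht.1
      have ht1 : t < π := ht.2.trans_le hv
      refine ((p2_VC (p2_ph n c s p t)).comp t
        (p2_ph_deriv h (p2_cos_lt h ht0 ht1.le))).neg.congr_deriv ?_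
      rw [p2_abs hn h hP ht0 ht1]
      ring) (hd.abs.intervalIntegrable _ _)
  rw [Va, h1]
  ring

lemma p2_ne (hn : 3 ≤ n) (hA : Alt n P) : P.derivative ≠ 0 := by
  intro h0
  obtain ⟨x, -, -, hx⟩ := hA
  have h1 := Polynomial.derivative_eq_zero.1 h0
  obtain ⟨a, ha⟩ := Polynomial.natDegree_eq_zero.1 h1
  rcases hx with hx | hx
  · have h2 := hx ⟨0, by omega⟩
    have h3 := hx ⟨1, by omega⟩
    rw [← ha, eval_C] at h2 h3
    norm_num at h2 h3
    linarith
  · have h2 := hx ⟨0, by omega⟩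
    have h3 := hx ⟨1, by omega⟩
    rw [← ha, eval_C] at h2 h3
    norm_num at h2 h3
    linarith

lemma p2_tot_le (h : Par n c s p P) : p2_ph n c s p 0 ≤ n * π := by
  have h1 : (∫ t in (0 : ℝ)..π, om n c s p t) ≤ ∫ t in (0 : ℝ)..π, (n : ℝ) :=
    intervalIntegral.integral_mono_on pi_pos.le (p2_int h 0 π) intervalIntegrable_const
      fun t _ => p2_om_le h t
  rw [intervalIntegral.integral_const, sub_zero, smul_eq_mul] at h1
  rw [p2_ph]
  linarith [mul_comm (n : ℝ) π]

lemma p2_last (hn : 3 ≤ n) (hdeg : P.natDegree ≤ n) (h : Par n c s p P) (hP : P.derivative ≠ 0)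
    (hlow : ((n : ℝ) - 1) * π ≤ p2_ph n c s p 0) (hc : 1 < c) :
    p2_ph n c s p 0 = ((n : ℝ) - 1) * π := by
  obtain ⟨-, hc2, hc3⟩ : 1 < c ∧ P.derivative.eval c = 0 ∧ |P.eval 1| = 1 := by
    rcases h.cas with h1 | h1
    · linarith [h1.1]
    · exact h1
  have hq : Continuous (qq P) := by
    unfold qq
    fun_prop
  have hph := p2_ph_cont h
  -- the value at zero
  have hz : qq P 0 = P.eval (-1) * cos (p2_ph n c s p 0) := by
    have e1 : Tendsto (qq P) (𝓝[>] 0) (𝓝 (qq P 0)) := hq.continuousAt.continuousWithinAt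
    have e2 : Tendsto (fun θ => P.eval (-1) * cos (p2_ph n c s p θ)) (𝓝[>] 0)
        (𝓝 (P.eval (-1) * cos (p2_ph n c s p 0))) :=
      (continuous_const.mul (continuous_cos.comp hph)).continuousAt.continuousWithinAt
    refine tendsto_nhds_unique e1 (e2.congr' ?_)
    filter_upwards [Ioo_mem_nhdsGT pi_pos] with t ht
    exact (p2_main hn h hP ht.1 ht.2.le).1.symm
  have h1 : |cos (p2_ph n c s p 0)| = 1 := by
    have e1 := congrArg abs hz
    rw [abs_mul, h.hm, one_mul, qq, cos_zero, hc3] at e1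
    exact e1.symm
  have h2 : sin (p2_ph n c s p 0) = 0 := by
    have e1 := sin_sq_add_cos_sq (p2_ph n c s p 0)
    rw [← sq_abs (cos _), h1] at e1
    have : sin (p2_ph n c s p 0) ^ 2 = 0 := by linarith
    exact pow_eq_zero_iff (two_ne_zero) |>.1 this
  obtain ⟨k, hk⟩ := sin_eq_zero_iff.1 h2
  have h3 := p2_tot_le h
  have hpi := pi_pos
  have h4 : (n : ℤ) - 1 ≤ k := by
    rw [← hk] at hlow
    have := le_of_mul_le_mul_right hlow hpi
    exact_mod_cast this
  have h5 : k ≤ n := by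
    rw [← hk] at h3
    have := le_of_mul_le_mul_right h3 hpi
    exact_mod_cast this
  rcases h4.eq_or_lt with h6 | h6
  · rw [← hk, ← h6]
    push_cast
    ring
  exfalso
  have h7 : k = n := by omega
  have h8 : p2_ph n c s p 0 = n * π := by
    rw [← hk, h7]
    push_cast
    ring
  -- zeros of the derivative
  have h9 : ∀ j : Fin n, 0 < (j : ℕ) → ∃ θ : ℝ, θ ∈ Ioo 0 π ∧ p2_ph n c s p θ = j * π := by
    intro j hj
    have e1 := intermediate_value_Icc' hpi.le hph.continuousOn
    have e2 : (j : ℝ) * π ∈ Icc (p2_ph n c s p π) (p2_ph n c s p 0) := by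
      rw [p2_ph_pi, h8]
      refine ⟨by positivity, mul_le_mul_of_nonneg_right ?_ hpi.le⟩
      exact_mod_cast j.2.le
    obtain ⟨θ, hθ, he⟩ := e1 e2
    have j0 : (0 : ℝ) < (j : ℕ) := by exact_mod_cast hj
    have j1 : ((j : ℕ) : ℝ) < n := by exact_mod_cast j.2
    refine ⟨θ, ⟨lt_of_le_of_ne hθ.1 ?_, lt_of_le_of_ne hθ.2 ?_⟩, he⟩
    · rintro rfl
      rw [h8] at he
      have := mul_right_cancel₀ hpi.ne' he
      linarith
    · rintro rfl
      rw [p2_ph_pi] at he
      have := mul_pos j0 hpi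
      linarith
  choose! T hT hT2 using h9
  have h10 : Function.Injective (fun i : Fin n => if (i : ℕ) = 0 then c else cos (T i)) := by
    intro i j hij
    simp only at hij
    by_cases hi : (i : ℕ) = 0
    · by_cases hj : (j : ℕ) = 0
      · exact Fin.ext (by omega)
      · rw [if_pos hi, if_neg hj] at hij
        have := cos_le_one (T j)
        linarith
    · by_cases hj : (j : ℕ) = 0
      · rw [if_neg hi, if_pos hj] at hij
        have := cos_le_one (T i)
        linarith
      · rw [if_neg hi, if_neg hj] at hij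
        have hi' : 0 < (i : ℕ) := by omega
        have hj' : 0 < (j : ℕ) := by omega
        have e1 := injOn_cos ⟨(hT i hi').1.le, (hT i hi').2.le⟩
          ⟨(hT j hj').1.le, (hT j hj').2.le⟩ hij
        have e2 := hT2 i hi'
        rw [e1, hT2 j hj'] at e2
        have e3 := mul_right_cancel₀ hpi.ne' e2
        have e4 : (j : ℕ) = (i : ℕ) := by exact_mod_cast e3
        exact Fin.ext e4.symm
  refine hP (Polynomial.eq_zero_of_natDegree_lt_card_of_eval_eq_zero _ h10 ?_ ?_)
  · intro i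
    by_cases hi : (i : ℕ) = 0
    · simp only [if_pos hi]
      exact hc2
    · simp only [if_neg hi]
      have hi' : 0 < (i : ℕ) := by omega
      have e1 := (p2_main hn h hP (hT i hi').1 (hT i hi').2.le).2
      have e2 : sin (p2_ph n c s p (T i)) = 0 := by
        rw [hT2 i hi']
        exact sin_nat_mul_pi _
      rw [e2, mul_zero] at e1
      have e3 := p2_om_Y hn h (T i)
      rw [e1, mul_zero] at e3
      have e4 := (sin_pos_of_pos_of_lt_pi (hT i hi').1 (hT i hi').2).ne'
      have e5 : sin (T i) * P.derivative.eval (cos (T i)) = 0 := by linarith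
      exact (mul_eq_zero.1 e5).resolve_left e4
  · rw [Fintype.card_fin]
    have := Polynomial.natDegree_derivative_le P
    omega

end

theorem p2 (hP1z : P1z) (hD2b : D2b) : P2 := by
  intro n c s p P hn hdeg hbdd halt h
  have hP := p2_ne hn halt
  obtain ⟨x0, hZ⟩ := hP1z n P hn hdeg hbdd halt
  have hlow : ((n : ℝ) - 1) * π ≤ p2_ph n c s p 0 := by
    have h1 := hD2b n x0 P (fun x => s / (c - x) + p / (c - x) ^ 2) (by omega) hZ (by
      refine ContinuousOn.add (ContinuousOn.div continuousOn_const (by fun_prop) ?_)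
        (ContinuousOn.div continuousOn_const (by fun_prop) ?_)
      · intro x hx
        have := h.hc
        have := hx.2
        have : 0 < c - x := by linarith
        exact this.ne'
      · intro x hx
        have := h.hc
        have := hx.2
        have : 0 < c - x := by linarith
        exact (pow_pos this 2).ne') (by
      intro x hx
      exact ⟨p2_r_nonneg h x hx.2.le, h.ode x hx⟩)
    exact h1
  refine ⟨fun θ h0 h1 => (p2_main hn h hP h0 h1).1, hlow, p2_tot_le h,
    fun hc => p2_last hn hdeg h hP hlow hc, fun θ h0 h1 => p2_abs hn h hP h0 h1,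
    fun u v hu huv hv => p2_Va hn h hP u v hu huv hv⟩

end

end Pool.Agent.Helper10.AL
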