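import Pool.Agent.Helper10.AL.St7
import Mathlib.Analysis.Complex.Poisson

/-!
Poisson integral of a polynomial which is small on two symmetric arcs.
-/

set_option autoImplicit false

namespace Pool.Agent.Helper10.AL

open Polynomial Set Real MeasureTheory intervalIntegral

lemma pw_norm_exp (θ : ℝ) : ‖Complex.exp (θ * Complex.I)‖ = 1 :=
  Complex.norm_exp_ofReal_mul_I θ

lemma pw_ne {ξ : ℂ} (h : ‖ξ‖ < 1) (θ : ℝ) : 0 < ‖ξ - Complex.exp (θ * Complex.I)‖ := by
  rw [norm_pos_iff, sub_ne_zero]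
  intro e
  have := pw_norm_exp θ
  rw [← e] at this
  linarith

lemma pw_k_nonneg {ξ : ℂ} (h : ‖ξ‖ < 1) (θ : ℝ) : 0 ≤ pk ξ θ := by
  have h1 : ‖ξ‖ ^ 2 ≤ 1 := by nlinarith [norm_nonneg ξ]
  exact div_nonneg (by linarith) (by positivity)

lemma pw_k_cont {ξ : ℂ} (h : ‖ξ‖ < 1) : Continuous (pk ξ) := by
  unfold pk
  refine Continuous.div continuous_const (by fun_prop) ?_
  intro θ
  have := pw_ne h θ
  positivity

lemma pw_formula {ξ : ℂ} (h : ‖ξ‖ < 1) (F : ℂ[X]) :
    (2 * π)⁻¹ • ∫ θ in (0 : ℝ)..(2 * π), pk ξ θ • F.eval (Complex.exp (θ * Complex.I)) =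
      F.eval ξ := by
  have hd : DiffContOnCl ℂ (fun z => F.eval z) (Metric.ball (0 : ℂ) 1) :=
    (F.differentiable).diffContOnCl
  have hw : ξ ∈ Metric.ball (0 : ℂ) 1 := by simpa using h
  have h1 := DiffContOnCl.circleAverage_poissonKernel_smul' hd hw
  rw [← h1, Real.circleAverage_def]
  congr 1
  refine intervalIntegral.integral_congr ?_
  intro θ _
  simp only [circleMap, zero_add, Complex.ofReal_one, one_mul, sub_zero, pk, pw_norm_exp,
    one_pow, norm_sub_rev ξ]

lemma pw_mean {ξ : ℂ} (h : ‖ξ‖ < 1) : ∫ θ in (0 : ℝ)..(2 * π), pk ξ θ = 2 * π := by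
  have h1 := pw_formula h (1 : ℂ[X])
  simp only [eval_one] at h1
  have h2 : ∫ θ in (0 : ℝ)..(2 * π), pk ξ θ • (1 : ℂ) =
      ((∫ θ in (0 : ℝ)..(2 * π), pk ξ θ : ℝ) : ℂ) := by
    rw [← intervalIntegral.integral_ofReal]
    refine intervalIntegral.integral_congr ?_
    intro θ _
    simp
  rw [h2] at h1
  have h3 : (((2 * π)⁻¹ * ∫ θ in (0 : ℝ)..(2 * π), pk ξ θ : ℝ) : ℂ) = ((1 : ℝ) : ℂ) := by
    rw [Complex.ofReal_one, ← h1, Complex.real_smul]
    push_cast
    ring
  have h4 := Complex.ofReal_injective h3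
  have hpi := Real.pi_pos
  field_simp at h4
  linarith

lemma pw_exp_per (θ : ℝ) :
    Complex.exp (((θ + 2 * π : ℝ) : ℂ) * Complex.I) = Complex.exp (θ * Complex.I) := by
  push_cast
  rw [add_mul, Complex.exp_add, Complex.exp_two_pi_mul_I, mul_one]

lemma pw_k_per (ξ : ℂ) : Function.Periodic (pk ξ) (2 * π) := by
  intro θ
  unfold pk
  rw [pw_exp_per]

theorem pw : Pw := by
  intro F ξ β α ε hβ hβα hα hε hξ h2 hs
  have hpi := Real.pi_pos
  have hcont : Continuous fun θ : ℝ => pk ξ θ * ‖F.eval (Complex.exp (θ * Complex.I))‖ := by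
    refine (pw_k_cont hξ).mul ?_
    have : Continuous fun z : ℂ => F.eval z := F.continuous
    fun_prop
  have hkc := pw_k_cont hξ
  have hke : Continuous fun θ : ℝ => ε * pk ξ θ := continuous_const.mul hkc
  have hk2 : Continuous fun θ : ℝ => 2 * pk ξ θ := continuous_const.mul hkc
  have e1 : ‖F.eval ξ‖ ≤ (2 * π)⁻¹ *
      ∫ θ in (0 : ℝ)..(2 * π), pk ξ θ * ‖F.eval (Complex.exp (θ * Complex.I))‖ := by
    rw [← pw_formula hξ F, norm_smul, Real.norm_of_nonneg (by positivity)]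
    refine mul_le_mul_of_nonneg_left ?_ (by positivity)
    refine (intervalIntegral.norm_integral_le_integral_norm (by positivity)).trans (le_of_eq ?_)
    refine intervalIntegral.integral_congr ?_
    intro θ _
    simp only [norm_smul, Real.norm_of_nonneg (pw_k_nonneg hξ θ)]
  have hper : Function.Periodic
      (fun θ : ℝ => pk ξ θ * ‖F.eval (Complex.exp (θ * Complex.I))‖) (2 * π) := by
    intro θ
    simp only [pw_k_per ξ θ, pw_exp_per]
  have e2 : ∫ θ in (0 : ℝ)..(2 * π), pk ξ θ * ‖F.eval (Complex.exp (θ * Complex.I))‖ =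
      ∫ θ in (-β)..(2 * π - β), pk ξ θ * ‖F.eval (Complex.exp (θ * Complex.I))‖ := by
    have := hper.intervalIntegral_add_eq 0 (-β)
    rw [zero_add, show -β + 2 * π = 2 * π - β by ring] at this
    exact this
  have e3 : ∫ θ in (-β)..(2 * π - β), pk ξ θ = 2 * π := by
    have := (pw_k_per ξ).intervalIntegral_add_eq 0 (-β)
    rw [zero_add, pw_mean hξ, show -β + 2 * π = 2 * π - β by ring] at this
    exact this.symm
  have hsm : ∀ θ : ℝ, ‖F.eval (Complex.exp (θ * Complex.I))‖ ≤ ε →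
      pk ξ θ * ‖F.eval (Complex.exp (θ * Complex.I))‖ ≤ ε * pk ξ θ := by
    intro θ h
    have := mul_le_mul_of_nonneg_left h (pw_k_nonneg hξ θ)
    linarith
  have hbig : ∀ θ : ℝ,
      pk ξ θ * ‖F.eval (Complex.exp (θ * Complex.I))‖ ≤ 2 * pk ξ θ := by
    intro θ
    have := mul_le_mul_of_nonneg_left (h2 θ) (pw_k_nonneg hξ θ)
    linarith
  have i1 : ∫ θ in (-β)..β, pk ξ θ * ‖F.eval (Complex.exp (θ * Complex.I))‖ ≤
      ∫ θ in (-β)..β, 2 * pk ξ θ :=
    intervalIntegral.integral_mono_on (by linarith) (hcont.intervalIntegrable _ _)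
      (hk2.intervalIntegrable _ _) fun θ _ => hbig θ
  have i3 : ∫ θ in α..(2 * π - α), pk ξ θ * ‖F.eval (Complex.exp (θ * Complex.I))‖ ≤
      ∫ θ in α..(2 * π - α), 2 * pk ξ θ :=
    intervalIntegral.integral_mono_on (by linarith) (hcont.intervalIntegrable _ _)
      (hk2.intervalIntegrable _ _) fun θ _ => hbig θ
  have i2 : ∫ θ in β..α, pk ξ θ * ‖F.eval (Complex.exp (θ * Complex.I))‖ ≤
      ∫ θ in β..α, ε * pk ξ θ := by
    refine intervalIntegral.integral_mono_on hβα (hcont.intervalIntegrable _ _)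
      (hke.intervalIntegrable _ _) ?_
    intro θ hθ
    have h0 : |θ| = θ := abs_of_nonneg (hβ.trans hθ.1)
    exact hsm θ (hs θ (by rw [h0]; exact hθ.1) (by rw [h0]; exact hθ.2))
  have i4 : ∫ θ in (2 * π - α)..(2 * π - β),
      pk ξ θ * ‖F.eval (Complex.exp (θ * Complex.I))‖ ≤
      ∫ θ in (2 * π - α)..(2 * π - β), ε * pk ξ θ := by
    refine intervalIntegral.integral_mono_on (by linarith) (hcont.intervalIntegrable _ _)
      (hke.intervalIntegrable _ _) ?_
    intro θ hθ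
    refine hsm θ ?_
    have e : Complex.exp (θ * Complex.I) =
        Complex.exp (((θ - 2 * π : ℝ) : ℂ) * Complex.I) := by
      rw [← pw_exp_per (θ - 2 * π)]
      congr 3
      ring
    have h0 : |θ - 2 * π| = 2 * π - θ := by
      rw [abs_of_nonpos (by linarith [hθ.2]), neg_sub]
    rw [e]
    exact hs _ (by rw [h0]; linarith [hθ.2]) (by rw [h0]; linarith [hθ.1])
  have s1 : ∫ θ in (-β)..(2 * π - β), pk ξ θ * ‖F.eval (Complex.exp (θ * Complex.I))‖ =
      (∫ θ in (-β)..β, pk ξ θ * ‖F.eval (Complex.exp (θ * Complex.I))‖) +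
      (∫ θ in β..α, pk ξ θ * ‖F.eval (Complex.exp (θ * Complex.I))‖) +
      (∫ θ in α..(2 * π - α), pk ξ θ * ‖F.eval (Complex.exp (θ * Complex.I))‖) +
      ∫ θ in (2 * π - α)..(2 * π - β),
        pk ξ θ * ‖F.eval (Complex.exp (θ * Complex.I))‖ := by
    rw [intervalIntegral.integral_add_adjacent_intervals (hcont.intervalIntegrable _ _)
      (hcont.intervalIntegrable _ _), intervalIntegral.integral_add_adjacent_intervals
      (hcont.intervalIntegrable _ _) (hcont.intervalIntegrable _ _),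
      intervalIntegral.integral_add_adjacent_intervals
      (hcont.intervalIntegrable _ _) (hcont.intervalIntegrable _ _)]
  have s2 : ∫ θ in (-β)..(2 * π - β), pk ξ θ =
      (∫ θ in (-β)..β, pk ξ θ) + (∫ θ in β..α, pk ξ θ) +
      (∫ θ in α..(2 * π - α), pk ξ θ) + ∫ θ in (2 * π - α)..(2 * π - β), pk ξ θ := by
    rw [intervalIntegral.integral_add_adjacent_intervals (hkc.intervalIntegrable _ _)
      (hkc.intervalIntegrable _ _), intervalIntegral.integral_add_adjacent_intervals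
      (hkc.intervalIntegrable _ _) (hkc.intervalIntegrable _ _),
      intervalIntegral.integral_add_adjacent_intervals
      (hkc.intervalIntegrable _ _) (hkc.intervalIntegrable _ _)]
  rw [intervalIntegral.integral_const_mul] at i1 i2 i3 i4
  have n1 : 0 ≤ ∫ θ in (-β)..β, pk ξ θ :=
    intervalIntegral.integral_nonneg (by linarith) fun θ _ => pw_k_nonneg hξ θ
  have n3 : 0 ≤ ∫ θ in α..(2 * π - α), pk ξ θ :=
    intervalIntegral.integral_nonneg (by linarith) fun θ _ => pw_k_nonneg hξ θ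
  have tot : ∫ θ in (0 : ℝ)..(2 * π), pk ξ θ * ‖F.eval (Complex.exp (θ * Complex.I))‖ ≤
      ε * (2 * π) + 2 * ((∫ θ in (-β)..β, pk ξ θ) + ∫ θ in α..(2 * π - α), pk ξ θ) := by
    rw [e2, s1]
    have m1 : ε * ((∫ θ in β..α, pk ξ θ) + ∫ θ in (2 * π - α)..(2 * π - β), pk ξ θ) ≤
        ε * (2 * π) := by
      refine mul_le_mul_of_nonneg_left ?_ hε
      linarith
    linarith
  refine e1.trans ((mul_le_mul_of_nonneg_left tot (by positivity)).trans (le_of_eq ?_))
  field_simp

end Pool.Agent.Helper10.AL
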