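import Pool.Agent.Helper10.AL.St4

/-!
Arc length of polynomials over windows of arbitrary length, piece S1: stability for the variation
over bounded windows (compactness).
-/

set_option autoImplicit false

namespace Pool.Agent.Helper10.AL

open Polynomial Set Real MeasureTheory intervalIntegral Filter Topology
open Pool.Agent.Helper40.Arc (Tr)

/-- the ultrafilter used for all limits -/
noncomputable abbrev s1_U : Ultrafilter ℕ := Filter.hyperfilter ℕ

theorem s1_lim {x : ℕ → ℝ} {C : ℝ} (h : ∀ k, |x k| ≤ C) :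
    ∃ a, Tendsto x s1_U (𝓝 a) := by
  obtain ⟨a, -, ha⟩ := (isCompact_Icc (a := -C) (b := C)).ultrafilter_le_nhds (s1_U.map x) (by
    rw [Filter.le_principal_iff]
    exact Filter.mem_map.2 (Filter.univ_mem' (fun k : ℕ => abs_le.1 (h k))))
  exact ⟨a, ha⟩

/-- first order Taylor estimate -/
theorem s1_tay {g g' : ℝ → ℝ} (h : ∀ t, HasDerivAt g (g' t) t)
    (hl : ∀ s t, |g' t - g' s| ≤ |t - s|) (s t : ℝ) :
    |g t - g s - g' s * (t - s)| ≤ |t - s| ^ 2 := by
  have h1 : ∀ x ∈ uIcc s t, HasDerivWithinAt (fun x => g x - g' s * x) (g' x - g' s)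
      (uIcc s t) x := by
    intro x _
    have h2 := (h x).sub ((hasDerivAt_id x).const_mul (g' s))
    simp only [mul_one] at h2
    exact h2.hasDerivWithinAt
  have h3 := (convex_uIcc s t).norm_image_sub_le_of_norm_hasDerivWithin_le (C := |t - s|) h1
    (fun x hx => by
      rw [Real.norm_eq_abs]
      refine (hl s x).trans ?_
      exact abs_sub_left_of_mem_uIcc hx) left_mem_uIcc right_mem_uIcc
  rw [Real.norm_eq_abs, Real.norm_eq_abs] at h3
  calc |g t - g s - g' s * (t - s)| = |g t - g' s * t - (g s - g' s * s)| := by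
        congr 1; ring
    _ ≤ |t - s| * |t - s| := h3
    _ = |t - s| ^ 2 := by ring

theorem s1_deriv {g g' : ℝ → ℝ} {s : ℝ}
    (h : ∀ t, |g t - g s - g' s * (t - s)| ≤ |t - s| ^ 2) : HasDerivAt g (g' s) s := by
  have h1 : (fun t => g t - g s - g' s * (t - s)) =O[𝓝 s] fun t => ‖t - s‖ ^ 2 := by
    refine Asymptotics.IsBigO.of_bound 1 (Filter.Eventually.of_forall fun t => ?_)
    rw [one_mul, Real.norm_eq_abs, norm_pow, norm_norm, Real.norm_eq_abs]
    exact h t
  have h2 : HasDerivAt (fun t => g t - g s - g' s * (t - s)) 0 s := by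
    have := (h1.hasFDerivAt (𝕜 := ℝ) (by norm_num)).hasDerivAt
    simpa using this
  have h3 : HasDerivAt (fun t => g s + g' s * (t - s)) (g' s) s := by
    have := ((hasDerivAt_id s).sub_const s).const_mul (g' s)
    simp only [mul_one] at this
    exact this.const_add (g s)
  have h4 := h2.add h3
  rw [zero_add] at h4
  refine h4.congr_of_eventuallyEq (Filter.Eventually.of_forall fun t => ?_)
  simp

/-- pointwise convergence of `1`-Lipschitz functions is locally uniform -/
theorem s1_unif {u : ℕ → ℝ → ℝ} {u0 : ℝ → ℝ} (hl : ∀ k s t, |u k t - u k s| ≤ |t - s|)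
    (hl0 : ∀ s t, |u0 t - u0 s| ≤ |t - s|) (hu : ∀ t, Tendsto (fun k => u k t) s1_U (𝓝 (u0 t)))
    {K δ : ℝ} (hK : 0 < K) (hδ : 0 < δ) :
    ∀ᶠ k in (s1_U : Filter ℕ), ∀ t ∈ Icc (0 : ℝ) K, |u k t - u0 t| ≤ δ := by
  obtain ⟨N, hN⟩ := exists_nat_gt (3 * K / δ)
  have hN0 : (0 : ℝ) < N := lt_trans (by positivity) hN
  have hKN : K / N ≤ δ / 3 := by
    rw [div_lt_iff₀ hδ] at hN
    rw [div_le_div_iff₀ hN0 (by norm_num)]
    linarith
  have h1 : ∀ᶠ k in (s1_U : Filter ℕ), ∀ i ∈ Finset.range (N + 1),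
      |u k (i * (K / N)) - u0 (i * (K / N))| < δ / 3 := by
    rw [Filter.eventually_all_finset]
    intro i _
    have := (Metric.tendsto_nhds.1 (hu (i * (K / N)))) (δ / 3) (by positivity)
    filter_upwards [this] with k hk
    rwa [Real.dist_eq] at hk
  filter_upwards [h1] with k hk t ht
  set i : ℕ := ⌊t / (K / N)⌋₊ with hi
  have hKN0 : 0 < K / N := by positivity
  have h2 : (i : ℝ) ≤ t / (K / N) := Nat.floor_le (div_nonneg ht.1 hKN0.le)
  have h3 : t / (K / N) < i + 1 := Nat.lt_floor_add_one _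
  rw [le_div_iff₀ hKN0] at h2
  rw [div_lt_iff₀ hKN0] at h3
  have h4 : i < N + 1 := by
    have h5 : (i : ℝ) * (K / N) ≤ N * (K / N) := by
      rw [mul_div_cancel₀ K hN0.ne']
      exact h2.trans ht.2
    have h6 : (i : ℝ) ≤ N := le_of_mul_le_mul_right h5 hKN0
    have h7 : i ≤ N := by exact_mod_cast h6
    omega
  have h5 := hk i (Finset.mem_range.2 h4)
  have h6 : |t - i * (K / N)| ≤ δ / 3 := by
    rw [abs_of_nonneg (by linarith)]
    linarith
  have h7 := hl k (i * (K / N)) t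
  have h8 := hl0 (i * (K / N)) t
  have e : u k t - u0 t = (u k t - u k (i * (K / N))) + (u k (i * (K / N)) - u0 (i * (K / N))) -
      (u0 t - u0 (i * (K / N))) := by ring
  rw [e]
  calc |(u k t - u k (i * (K / N))) + (u k (i * (K / N)) - u0 (i * (K / N))) -
      (u0 t - u0 (i * (K / N)))|
      ≤ |(u k t - u k (i * (K / N))) + (u k (i * (K / N)) - u0 (i * (K / N)))| +
        |u0 t - u0 (i * (K / N))| := abs_sub _ _
    _ ≤ |u k t - u k (i * (K / N))| + |u k (i * (K / N)) - u0 (i * (K / N))| +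
        |u0 t - u0 (i * (K / N))| := by gcongr; exact abs_add_le _ _
    _ ≤ δ := by linarith

theorem s1_core (hS1e : S1e) (hVM : VMf) (q u v : ℕ → ℝ → ℝ) (L τ : ℕ → ℝ) (K1 η : ℝ)
    (hK1 : 0 < K1) (hη : 0 < η) (hT : ∀ k, Tr (q k) (u k) (v k))
    (hv : ∀ k s t, |v k t - v k s| ≤ |t - s|) (hL0 : ∀ k, 0 < L k) (hL1 : ∀ k, L k ≤ K1)
    (hτ : ∀ k, 0 ≤ τ k ∧ τ k ≤ L k)
    (hV : ∀ k : ℕ, (1 - 1 / ((k : ℝ) + 1)) * VM (L k) ≤ ∫ t in (0 : ℝ)..(L k), |u k t|)
    (hbad : ∀ k, u k (τ k) ^ 2 + v k (τ k) ^ 2 ≤ 1 - η) : False := by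
  have hul : ∀ k s t, |u k t - u k s| ≤ |t - s| := by
    intro k s t
    have h1 := (convex_univ (𝕜 := ℝ) (E := ℝ)).norm_image_sub_le_of_norm_hasDerivWithin_le
      (C := 1) (f := u k) (f' := v k) (fun x _ => ((hT k).hu x).hasDerivWithinAt)
      (fun x _ => by
        rw [Real.norm_eq_abs]
        have := (hT k).b2 x
        exact abs_le_of_sq_le_sq (by nlinarith [sq_nonneg (u k x)]) (by norm_num))
      (mem_univ s) (mem_univ t)
    rwa [Real.norm_eq_abs, Real.norm_eq_abs, one_mul] at h1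
  -- limits
  have hq1 : ∀ k t, |q k t| ≤ 1 := fun k t =>
    abs_le_of_sq_le_sq (by nlinarith [(hT k).b1 t, sq_nonneg (u k t)]) (by norm_num)
  have hu1 : ∀ k t, |u k t| ≤ 1 := fun k t => (hT k).abs_u_le t
  have hv1 : ∀ k t, |v k t| ≤ 1 := fun k t =>
    abs_le_of_sq_le_sq (by nlinarith [(hT k).b2 t, sq_nonneg (u k t)]) (by norm_num)
  choose q0 hq0 using fun t => s1_lim (x := fun k => q k t) (C := 1) (fun k => hq1 k t)
  choose u0 hu0 using fun t => s1_lim (x := fun k => u k t) (C := 1) (fun k => hu1 k t)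
  choose v0 hv0 using fun t => s1_lim (x := fun k => v k t) (C := 1) (fun k => hv1 k t)
  obtain ⟨L0, hL⟩ := s1_lim (x := L) (C := K1) (fun k => by
    rw [abs_of_pos (hL0 k)]; exact hL1 k)
  obtain ⟨τ0, hτ0⟩ := s1_lim (x := τ) (C := K1) (fun k => by
    rw [abs_of_nonneg (hτ k).1]; exact (hτ k).2.trans (hL1 k))
  have hL00 : 0 ≤ L0 := ge_of_tendsto' hL (fun k => (hL0 k).le)
  have hτ00 : 0 ≤ τ0 := ge_of_tendsto' hτ0 (fun k => (hτ k).1)
  have hτ01 : τ0 ≤ L0 := le_of_tendsto_of_tendsto' hτ0 hL (fun k => (hτ k).2)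
  have hul0 : ∀ s t, |u0 t - u0 s| ≤ |t - s| := fun s t =>
    le_of_tendsto' ((hu0 t).sub (hu0 s)).abs (fun k => hul k s t)
  have hvl0 : ∀ s t, |v0 t - v0 s| ≤ |t - s| := fun s t =>
    le_of_tendsto' ((hv0 t).sub (hv0 s)).abs (fun k => hv k s t)
  have hT0 : Tr q0 u0 v0 := by
    refine ⟨fun s => s1_deriv fun t => ?_, fun s => s1_deriv fun t => ?_, fun t => ?_,
      fun t => ?_⟩
    · exact le_of_tendsto' (((hq0 t).sub (hq0 s)).sub ((hu0 s).mul_const (t - s))).abs
        (fun k => s1_tay (hT k).hq (hul k) s t)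
    · exact le_of_tendsto' (((hu0 t).sub (hu0 s)).sub ((hv0 s).mul_const (t - s))).abs
        (fun k => s1_tay (hT k).hu (hv k) s t)
    · exact le_of_tendsto' (((hq0 t).pow 2).add ((hu0 t).pow 2)) (fun k => (hT k).b1 t)
    · exact le_of_tendsto' (((hu0 t).pow 2).add ((hv0 t).pow 2)) (fun k => (hT k).b2 t)
  -- values at `τ k`
  have hmov : ∀ (g : ℕ → ℝ → ℝ) (g0 : ℝ → ℝ), (∀ k s t, |g k t - g k s| ≤ |t - s|) →
      (∀ t, Tendsto (fun k => g k t) s1_U (𝓝 (g0 t))) →
      Tendsto (fun k => g k (τ k)) s1_U (𝓝 (g0 τ0)) := by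
    intro g g0 hg hg0
    have h1 : Tendsto (fun k => g k (τ k) - g k τ0) s1_U (𝓝 0) := by
      refine squeeze_zero_norm (a := fun k => |τ k - τ0|) (fun k => ?_) ?_
      · rw [Real.norm_eq_abs]; exact hg k τ0 (τ k)
      · have := (hτ0.sub_const τ0).abs
        simpa using this
    have h2 := h1.add (hg0 τ0)
    simpa using h2
  have hbad0 : u0 τ0 ^ 2 + v0 τ0 ^ 2 ≤ 1 - η :=
    le_of_tendsto' (((hmov u u0 hul hu0).pow 2).add ((hmov v v0 hv hv0).pow 2)) hbad
  have heps : Tendsto (fun k : ℕ => 1 - 1 / ((k : ℝ) + 1)) s1_U (𝓝 1) := by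
    have h1 := (tendsto_one_div_add_atTop_nhds_zero_nat (𝕜 := ℝ)).mono_left
      Nat.hyperfilter_le_atTop
    have h2 := h1.const_sub 1
    simpa using h2
  rcases hL00.eq_or_lt with hz | hpos
  · -- the windows shrink to a point
    have hτz : τ0 = 0 := le_antisymm (hz ▸ hτ01) hτ00
    have hsmall : ∀ᶠ k in (s1_U : Filter ℕ), L k ≤ 1 := by
      have := (tendsto_order.1 hL).2 1 (by rw [← hz]; norm_num)
      filter_upwards [this] with k hk using hk.le
    have hkey : ∀ᶠ k : ℕ in (s1_U : Filter ℕ),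
        (1 - 1 / ((k : ℝ) + 1)) * (1 - L k ^ 2 / 16) ≤ |u k 0| + L k := by
      filter_upwards [hsmall] with k hk
      have h1 := hV k
      have hLk := hL0 k
      rw [hVM.2.1 (L k) hLk.le (by linarith [pi_gt_three])] at h1
      have h2 : (∫ t in (0 : ℝ)..(L k), |u k t|) ≤ ∫ _t in (0 : ℝ)..(L k), (|u k 0| + L k) := by
        refine intervalIntegral.integral_mono_on hLk.le
          ((hT k).cont_u.abs.intervalIntegrable _ _) (intervalIntegrable_const) ?_
        intro t ht
        have h3 := hul k 0 t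
        rw [sub_zero, abs_of_nonneg ht.1] at h3
        have h4 : |u k t| - |u k 0| ≤ |u k t - u k 0| := abs_sub_abs_le_abs_sub _ _
        linarith [ht.2]
      rw [intervalIntegral.integral_const, sub_zero, smul_eq_mul] at h2
      have h3 := Real.sin_gt_sub_cube (x := L k / 2) (by linarith)
      have hk0 : (0 : ℝ) ≤ k := Nat.cast_nonneg k
      have h4 : 0 ≤ 1 - 1 / ((k : ℝ) + 1) := by
        rw [sub_nonneg, div_le_one (by positivity)]
        linarith
      have h5 : L k * ((1 - 1 / ((k : ℝ) + 1)) * (1 - L k ^ 2 / 16)) ≤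
          L k * (|u k 0| + L k) := by
        have h6 : (1 - 1 / ((k : ℝ) + 1)) * (L k * (1 - L k ^ 2 / 16)) ≤
            (1 - 1 / ((k : ℝ) + 1)) * (2 * sin (L k / 2)) := by
          refine mul_le_mul_of_nonneg_left ?_ h4
          nlinarith [h3]
        linarith
      exact le_of_mul_le_mul_left h5 hLk
    have h1 : Tendsto (fun k : ℕ => (1 - 1 / ((k : ℝ) + 1)) * (1 - L k ^ 2 / 16)) s1_U
        (𝓝 (1 * (1 - L0 ^ 2 / 16))) :=
      heps.mul (((hL.pow 2).div_const 16).const_sub 1)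
    have h2 : Tendsto (fun k : ℕ => |u k 0| + L k) s1_U (𝓝 (|u0 0| + L0)) := (hu0 0).abs.add hL
    have h3 := le_of_tendsto_of_tendsto h1 h2 hkey
    rw [← hz] at h3
    rw [hτz] at hbad0
    have h4 : 1 ≤ |u0 0| := by linarith
    have h5 : 1 ≤ u0 0 ^ 2 := by
      rw [← sq_abs]
      nlinarith
    nlinarith [sq_nonneg (v0 0)]
  · -- a limit window of positive length
    have hcont : Continuous fun x : ℝ => ∫ t in (0 : ℝ)..x, |u0 t| :=
      intervalIntegral.continuous_primitive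
        (fun a b => (hT0.cont_u.abs.intervalIntegrable a b)) 0
    have hVL : Tendsto (fun k => VM (L k)) s1_U (𝓝 (VM L0)) := by
      have h1 := hVM.2.2.1 L0 hL00
      refine h1.tendsto.comp (tendsto_nhdsWithin_iff.2 ⟨hL, ?_⟩)
      exact Filter.Eventually.of_forall fun k => (hL0 k).le
    have hfin : VM L0 ≤ ∫ t in (0 : ℝ)..L0, |u0 t| := by
      refine le_of_forall_pos_le_add fun δ hδ => ?_
      have hun := s1_unif hul hul0 hu0 hK1 (div_pos hδ hK1)
      have h1 : ∀ᶠ k : ℕ in (s1_U : Filter ℕ), (1 - 1 / ((k : ℝ) + 1)) * VM (L k) ≤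
          (∫ t in (0 : ℝ)..(L k), |u0 t|) + δ := by
        filter_upwards [hun] with k hk
        refine (hV k).trans ?_
        have h2 : (∫ t in (0 : ℝ)..(L k), |u k t|) ≤
            ∫ t in (0 : ℝ)..(L k), (|u0 t| + δ / K1) := by
          refine intervalIntegral.integral_mono_on (hL0 k).le
            ((hT k).cont_u.abs.intervalIntegrable _ _)
            ((hT0.cont_u.abs.add continuous_const).intervalIntegrable _ _) ?_
          intro t ht
          have h3 := hk t ⟨ht.1, ht.2.trans (hL1 k)⟩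
          have h4 : |u k t| - |u0 t| ≤ |u k t - u0 t| := abs_sub_abs_le_abs_sub _ _
          linarith
        rw [intervalIntegral.integral_add (hT0.cont_u.abs.intervalIntegrable _ _)
          intervalIntegrable_const, intervalIntegral.integral_const, sub_zero, smul_eq_mul] at h2
        have h5 : L k * (δ / K1) ≤ δ := by
          have h6 : L k * (δ / K1) ≤ K1 * (δ / K1) :=
            mul_le_mul_of_nonneg_right (hL1 k) (by positivity)
          rw [mul_div_cancel₀ δ hK1.ne'] at h6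
          exact h6
        linarith
      have h2 := heps.mul hVL
      rw [one_mul] at h2
      have h3 : Tendsto (fun k => (∫ t in (0 : ℝ)..(L k), |u0 t|) + δ) s1_U
          (𝓝 ((∫ t in (0 : ℝ)..L0, |u0 t|) + δ)) :=
        ((hcont.tendsto L0).comp hL).add_const δ
      exact le_of_tendsto_of_tendsto h2 h3 h1
    have h1 := hS1e q0 u0 v0 L0 hT0 hpos hfin τ0 ⟨hτ00, hτ01⟩
    linarith

theorem s1 (hA1 : A1) (hA2 : A2) (hS1e : S1e) (hVMf : VMf) : S1 := by
  intro K1 η hK1 hη
  by_contra hcon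
  push Not at hcon
  have hc : ∀ k : ℕ, ∃ (n : ℕ) (f : ℝ → ℝ) (a b θ : ℝ), 1 ≤ n ∧ TB n f ∧ a < b ∧
      n * (b - a) ≤ K1 ∧ (1 - 1 / ((k : ℝ) + 1)) * VM (n * (b - a)) ≤ Va f a b ∧
      θ ∈ Icc a b ∧ (n : ℝ) ^ 2 * deriv f θ ^ 2 + deriv (deriv f) θ ^ 2 <
        (1 - η) * (n : ℝ) ^ 4 := by
    intro k
    obtain ⟨n, f, a, b, h1, h2, h3, h4, h5, θ, h6, h7⟩ := hcon (1 / ((k : ℝ) + 1)) (by positivity)
    exact ⟨n, f, a, b, θ, h1, h2, h3, h4, h5, h6, h7⟩
  choose n f a b θ h1 h2 h3 h4 h5 h6 h7 using hc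
  have hn : ∀ k, (0 : ℝ) < n k := fun k => by exact_mod_cast h1 k
  have hsm : ∀ k, ContDiff ℝ 3 (f k) := fun k => by exact_mod_cast ((hA1.1 _ _ (h2 k).1).1 3)
  have hd1 : ∀ k, ContDiff ℝ 2 (deriv (f k)) := by
    intro k
    have : ContDiff ℝ (2 + 1) (f k) := by
      have h12 : ((2 : WithTop ℕ∞) + 1) = 3 := by norm_num
      rw [h12]; exact hsm k
    exact ((contDiff_succ_iff_deriv).1 this).2.2
  have hd2 : ∀ k, ContDiff ℝ 1 (deriv (deriv (f k))) := by
    intro k
    have : ContDiff ℝ (1 + 1) (deriv (f k)) := by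
      have h12 : ((1 : WithTop ℕ∞) + 1) = 2 := by norm_num
      rw [h12]; exact hd1 k
    exact ((contDiff_succ_iff_deriv).1 this).2.2
  have hB := fun k => (hA2.1 _ _ (h1 k) (h2 k)).2
  have harg : ∀ k t, HasDerivAt (fun t : ℝ => a k + t / n k) (1 / n k) t := by
    intro k t
    exact ((hasDerivAt_id t).div_const _).const_add (a k)
  have hD0 : ∀ k t, HasDerivAt (fun t => f k (a k + t / n k))
      (deriv (f k) (a k + t / n k) * (1 / n k)) t := fun k t =>
    (((hsm k).differentiable (by norm_num)) _).hasDerivAt.comp t (harg k t)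
  have hD1 : ∀ k t, HasDerivAt (fun t => deriv (f k) (a k + t / n k))
      (deriv (deriv (f k)) (a k + t / n k) * (1 / n k)) t := fun k t =>
    (((hd1 k).differentiable (by norm_num)) _).hasDerivAt.comp t (harg k t)
  have hD2 : ∀ k t, HasDerivAt (fun t => deriv (deriv (f k)) (a k + t / n k))
      (deriv (deriv (deriv (f k))) (a k + t / n k) * (1 / n k)) t := fun k t =>
    (((hd2 k).differentiable (by norm_num)) _).hasDerivAt.comp t (harg k t)
  refine s1_core hS1e hVMf (fun k t => f k (a k + t / n k))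
    (fun k t => deriv (f k) (a k + t / n k) / n k)
    (fun k t => deriv (deriv (f k)) (a k + t / n k) / (n k : ℝ) ^ 2)
    (fun k => n k * (b k - a k)) (fun k => n k * (θ k - a k)) K1 η hK1 hη ?_ ?_ ?_ h4 ?_ ?_ ?_
  · intro k
    have hk := hn k
    refine ⟨fun t => ?_, fun t => ?_, fun t => ?_, fun t => ?_⟩
    · have := hD0 k t
      rwa [mul_one_div] at this
    · have := (hD1 k t).div_const (n k : ℝ)
      have e : deriv (deriv (f k)) (a k + t / n k) * (1 / n k) / n k =
          deriv (deriv (f k)) (a k + t / n k) / (n k : ℝ) ^ 2 := by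
        field_simp
      rw [e] at this
      exact this
    · have := (hB k (a k + t / n k)).1
      rw [div_pow, ← sub_nonneg]
      have e : 1 - (f k (a k + t / n k) ^ 2 + deriv (f k) (a k + t / n k) ^ 2 / (n k : ℝ) ^ 2) =
          ((n k : ℝ) ^ 2 - (deriv (f k) (a k + t / n k) ^ 2 +
            (n k : ℝ) ^ 2 * f k (a k + t / n k) ^ 2)) / (n k : ℝ) ^ 2 := by
        field_simp
        ring
      rw [e]
      exact div_nonneg (by linarith) (by positivity)
    · have := (hB k (a k + t / n k)).2.1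
      rw [div_pow, div_pow, ← sub_nonneg]
      have e : 1 - (deriv (f k) (a k + t / n k) ^ 2 / (n k : ℝ) ^ 2 +
          deriv (deriv (f k)) (a k + t / n k) ^ 2 / ((n k : ℝ) ^ 2) ^ 2) =
          ((n k : ℝ) ^ 4 - (deriv (deriv (f k)) (a k + t / n k) ^ 2 +
            (n k : ℝ) ^ 2 * deriv (f k) (a k + t / n k) ^ 2)) / (n k : ℝ) ^ 4 := by
        field_simp
        ring
      rw [e]
      exact div_nonneg (by linarith) (by positivity)
  · intro k s t
    have hk := hn k
    have h8 := (convex_univ (𝕜 := ℝ) (E := ℝ)).norm_image_sub_le_of_norm_hasDerivWithin_le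
      (C := 1) (f := fun t => deriv (deriv (f k)) (a k + t / n k) / (n k : ℝ) ^ 2)
      (f' := fun t => deriv (deriv (deriv (f k))) (a k + t / n k) * (1 / n k) / (n k : ℝ) ^ 2)
      (fun x _ => ((hD2 k x).div_const _).hasDerivWithinAt)
      (fun x _ => by
        rw [Real.norm_eq_abs, abs_div, abs_mul, abs_of_pos (by positivity : (0 : ℝ) < 1 / n k),
          abs_of_pos (by positivity : (0 : ℝ) < (n k : ℝ) ^ 2), div_le_one (by positivity),
          mul_one_div, div_le_iff₀ hk]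
        have := (hB k (a k + x / n k)).2.2.2.2
        calc _ ≤ (n k : ℝ) ^ 3 := this
          _ = (n k : ℝ) ^ 2 * n k := by ring)
      (mem_univ s) (mem_univ t)
    rwa [Real.norm_eq_abs, Real.norm_eq_abs, one_mul] at h8
  · intro k
    exact mul_pos (hn k) (by linarith [h3 k])
  · intro k
    have hk := hn k
    have := h6 k
    constructor
    · exact mul_nonneg hk.le (by linarith [this.1])
    · exact mul_le_mul_of_nonneg_left (by linarith [this.2]) hk.le
  · intro k
    have hk := hn k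
    refine (h5 k).trans (le_of_eq ?_)
    unfold Va
    have e1 : (∫ t in (0 : ℝ)..(n k * (b k - a k)), |deriv (f k) (a k + t / n k) / n k|) =
        ∫ t in (0 : ℝ)..(n k * (b k - a k)), |deriv (f k) (a k + t / n k)| / n k := by
      congr 1
      funext t
      rw [abs_div, abs_of_pos hk]
    rw [e1, intervalIntegral.integral_div]
    have e2 := intervalIntegral.integral_comp_add_div (a := 0) (b := n k * (b k - a k))
      (fun x => |deriv (f k) x|) hk.ne' (a k)
    rw [e2, smul_eq_mul, zero_div, add_zero, mul_div_cancel_left₀ _ hk.ne',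
      mul_div_cancel_left₀ _ hk.ne']
    congr 1
    ring
  · intro k
    have hk := hn k
    have e3 : a k + n k * (θ k - a k) / n k = θ k := by
      field_simp
      ring
    simp only [e3]
    have := h7 k
    rw [div_pow, div_pow, ← sub_nonneg]
    have e : 1 - η - (deriv (f k) (θ k) ^ 2 / (n k : ℝ) ^ 2 +
        deriv (deriv (f k)) (θ k) ^ 2 / ((n k : ℝ) ^ 2) ^ 2) =
        ((1 - η) * (n k : ℝ) ^ 4 - ((n k : ℝ) ^ 2 * deriv (f k) (θ k) ^ 2 +
          deriv (deriv (f k)) (θ k) ^ 2)) / (n k : ℝ) ^ 4 := by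
      field_simp
    rw [e]
    exact div_nonneg (by linarith) (by positivity)

end Pool.Agent.Helper10.AL
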