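import Pool.Agent.Helper10.AL.St5

/-!
Phase representation of the polynomials with `n` alternation points on compact intervals.
-/

set_option autoImplicit false

namespace Pool.Agent.Helper10.AL

open Polynomial Set Real MeasureTheory intervalIntegral
open Pool.Agent.Helper40.AS (arc Bdd Ext quad)

noncomputable section

theorem pA_pow (n : ℕ) (i : Fin n) :
    ((-1 : ℝ)) ^ ((Fin.rev i : Fin n) : ℕ) = (-1) ^ (n - 1) * (-1) ^ (i : ℕ) := by
  have h1 : ((Fin.rev i : Fin n) : ℕ) + (i : ℕ) = n - 1 := by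
    rw [Fin.val_rev]
    have := i.isLt
    omega
  rw [← h1, pow_add, mul_assoc, ← mul_pow]
  simp

theorem pA_eval (P : ℝ[X]) (x : ℝ) : (P.comp (-X)).eval x = P.eval (-x) := by
  rw [eval_comp, eval_neg, eval_X]

theorem pA_alt (n : ℕ) (P : ℝ[X]) (h : Alt n P) : Alt n (P.comp (-X)) := by
  obtain ⟨x, hx, hI, hs⟩ := h
  have key : ∀ i : Fin n, (P.comp (-X)).eval (-(x (Fin.rev i))) = P.eval (x (Fin.rev i)) := by
    intro i
    rw [pA_eval, neg_neg]
  refine ⟨fun i => -(x (Fin.rev i)), ?_, ?_, ?_⟩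
  · intro i j hij
    have h1 : Fin.rev j < Fin.rev i := Fin.rev_lt_rev.mpr hij
    have h2 := hx h1
    simp only
    linarith
  · intro i
    have h1 := hI (Fin.rev i)
    exact ⟨by linarith [h1.2], by linarith [h1.1]⟩
  · rcases neg_one_pow_eq_or ℝ (n - 1) with hp | hp
    · rcases hs with hs | hs
      · left
        intro i
        rw [key, hs, pA_pow, hp, one_mul]
      · right
        intro i
        rw [key, hs, pA_pow, hp, one_mul]
    · rcases hs with hs | hs
      · right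
        intro i
        rw [key, hs, pA_pow, hp, neg_one_mul]
      · left
        intro i
        rw [key, hs, pA_pow, hp, neg_one_mul, neg_neg]

theorem pA_deg (n : ℕ) (P : ℝ[X]) (h : P.natDegree ≤ n) : (P.comp (-X)).natDegree ≤ n := by
  rw [natDegree_comp, natDegree_neg, natDegree_X, mul_one]
  exact h

theorem pA_bdd (P : ℝ[X]) (h : Bdd P) : Bdd (P.comp (-X)) := by
  intro x hx
  rw [pA_eval]
  exact h (-x) ⟨by linarith [hx.2], by linarith [hx.1]⟩

theorem pA_qq (P : ℝ[X]) (θ : ℝ) : qq (P.comp (-X)) (π - θ) = qq P θ := by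
  unfold qq
  rw [pA_eval, cos_pi_sub, neg_neg]

theorem pA_Va (P : ℝ[X]) (u v : ℝ) : Va (qq P) u v = Va (qq (P.comp (-X))) (π - v) (π - u) := by
  have h1 : (qq P) = fun x => qq (P.comp (-X)) (π - x) := funext fun x => (pA_qq P x).symm
  have h2 : ∀ θ, deriv (qq P) θ = -deriv (qq (P.comp (-X))) (π - θ) := by
    intro θ
    rw [h1, deriv_comp_const_sub]
  unfold Va
  rw [← integral_comp_sub_left (fun x => |deriv (qq (P.comp (-X))) x|) π]
  refine integral_congr fun θ _ => ?_
  rw [h2, abs_neg]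

theorem pA_VCsub (u v : ℝ) : VC v - VC u = ∫ s in u..v, |sin s| := by
  unfold VC
  rw [integral_interval_sub_left] <;> exact (continuous_sin.abs).intervalIntegrable _ _

theorem pA_VCneg (x : ℝ) : VC (-x) = -VC x := by
  have h1 : VC 0 - VC x = ∫ s in x..0, |sin s| := pA_VCsub x 0
  have h2 : VC 0 = 0 := by simp [VC]
  have h3 : VC (-x) - VC 0 = ∫ s in (0 : ℝ)..(-x), |sin s| := pA_VCsub 0 (-x)
  have h4 : (∫ s in (0 : ℝ)..(-x), |sin s|) = ∫ s in x..0, |sin s| := by
    rw [← neg_zero, ← integral_comp_neg (fun s => |sin s|)]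
    simp
  linarith

theorem pA_VCpi (x : ℝ) : VC (x + π) = VC x + 2 := by
  have h1 : VC (x + π) - VC x = ∫ s in x..(x + π), |sin s| := pA_VCsub x (x + π)
  have hper : Function.Periodic (fun s : ℝ => |sin s|) π := by
    intro s
    simp only
    rw [sin_add_pi, abs_neg]
  have h2 : (∫ s in x..(x + π), |sin s|) = ∫ s in (0 : ℝ)..(0 + π), |sin s| :=
    hper.intervalIntegral_add_eq x 0
  have h3 : (∫ s in (0 : ℝ)..(0 + π), |sin s|) = ∫ s in (0 : ℝ)..π, sin s := by
    rw [zero_add]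
    refine integral_congr fun s hs => ?_
    rw [uIcc_of_le pi_pos.le] at hs
    exact abs_of_nonneg (sin_nonneg_of_nonneg_of_le_pi hs.1 hs.2)
  rw [integral_sin, cos_zero, cos_pi] at h3
  linarith

/-- a sign is a cosine -/
theorem pA_sign (σ : ℝ) (h : |σ| = 1) : ∃ k : ℤ, cos (k * π) = σ ∧ sin (k * π) = 0 ∧
    (∀ x : ℝ, VC (x + k * π) = VC x + 2 * k) := by
  rcases (abs_eq (by norm_num)).mp h with h | h
  · refine ⟨0, ?_, ?_, ?_⟩
    · simp [h]
    · simp
    · intro x
      simp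
  · refine ⟨1, ?_, ?_, ?_⟩
    · simp [h]
    · simp
    · intro x
      rw [Int.cast_one, one_mul, mul_one, pA_VCpi]

theorem pA_rho (c : ℝ) (hc : 1 ≤ c) : 0 ≤ c - √(c ^ 2 - 1) ∧ c - √(c ^ 2 - 1) ≤ 1 := by
  constructor
  · have : √(c ^ 2 - 1) ≤ c := by
      rw [Real.sqrt_le_left (by linarith)]
      linarith
    linarith
  · have : c - 1 ≤ √(c ^ 2 - 1) := by
      apply Real.le_sqrt_of_sq_le
      nlinarith
    linarith

theorem pA_mu0 (θ : ℝ) (h0 : 0 < θ) (h1 : θ < π) : mu 0 θ = θ := by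
  unfold mu
  rw [if_neg (by norm_num)]
  rw [show ((1 : ℝ) + 0) / (1 - 0) * tan (θ / 2) = tan (θ / 2) by norm_num]
  rw [arctan_tan (by linarith [pi_pos]) (by linarith)]
  ring

/-- linear phase -/
theorem pA_lin (Z : ℝ[X]) (A B : ℝ) (hA : 0 ≤ A) (h : ∀ θ : ℝ, qq Z θ = cos (A * θ + B)) (u v : ℝ) :
    Va (qq Z) u v = VC (A * v + B) - VC (A * u + B) := by
  have h1 : ∀ θ, deriv (qq Z) θ = -(sin (A * θ + B) * A) := by
    intro θ
    have e : qq Z = fun θ => cos (A * θ + B) := funext h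
    rw [e]
    have hd : HasDerivAt (fun θ : ℝ => A * θ + B) A θ := by
      simpa using ((hasDerivAt_id θ).const_mul A).add_const B
    have h2 := (hd.cos).deriv
    rw [h2]
    ring
  rw [pA_VCsub]
  unfold Va
  have h2 : (∫ θ in u..v, |deriv (qq Z) θ|) = ∫ θ in u..v, A * |sin (A * θ + B)| := by
    refine integral_congr fun θ _ => ?_
    rw [h1, abs_neg, abs_mul, abs_of_nonneg hA, mul_comm]
  rw [h2, intervalIntegral.integral_const_mul]
  exact intervalIntegral.mul_integral_comp_mul_add (f := fun s => |sin s|) A B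

theorem pA (hP0 : P0) (hP1 : P1) (hP2 : P2) (hP3 : P3) : PA := by
  intro δ ε hδ hε
  obtain ⟨n1, hn1⟩ := hP3 δ ε hδ hε
  refine ⟨max n1 3, fun n hn Z hdeg hbdd halt => ?_⟩
  have hn3 : 3 ≤ n := (le_max_right _ _).trans hn
  have hnn : n1 ≤ n := (le_max_left _ _).trans hn
  have hn' : (1 : ℝ) ≤ n := by
    have : (3 : ℝ) ≤ n := by exact_mod_cast hn3
    linarith
  rcases hP1 n Z hn3 hdeg hbdd halt with hT | ⟨c, s, p, hpar | hpar⟩
  · -- the Chebyshev polynomials
    have hcos : ∀ θ : ℝ, (Chebyshev.T ℝ ((n : ℤ) - 1)).eval (cos θ) = cos (((n : ℝ) - 1) * θ) := by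
      intro θ
      rw [Polynomial.Chebyshev.T_real_cos]
      push_cast
      ring_nf
    rcases hT with hT | hT
    · have hq : ∀ θ : ℝ, qq Z θ = cos (((n : ℝ) - 1) * θ + 0) := by
        intro θ
        rw [qq, hT, hcos, add_zero]
      refine ⟨0, fun θ => ((n : ℝ) - 1) * θ + 0, 0, by norm_num, by norm_num, fun θ _ _ => hq θ,
        fun u v _ _ _ => pA_lin Z _ _ (by linarith) hq u v, fun θ h0 h1 _ _ => ?_⟩
      rw [pA_mu0 θ h0 h1]
      rw [show ((n : ℝ) - 1) * θ + 0 - (n * θ - θ) - (0 : ℤ) * π = 0 by push_cast; ring, abs_zero]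
      exact hε.le
    · have hq : ∀ θ : ℝ, qq Z θ = cos (((n : ℝ) - 1) * θ + π) := by
        intro θ
        rw [qq, hT, eval_neg, hcos, cos_add_pi]
      refine ⟨0, fun θ => ((n : ℝ) - 1) * θ + π, 1, by norm_num, by norm_num, fun θ _ _ => hq θ,
        fun u v _ _ _ => pA_lin Z _ _ (by linarith) hq u v, fun θ h0 h1 _ _ => ?_⟩
      rw [pA_mu0 θ h0 h1]
      rw [show ((n : ℝ) - 1) * θ + π - (n * θ - θ) - (1 : ℤ) * π = 0 by push_cast; ring, abs_zero]
      exact hε.le
  · -- critical point to the right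
    obtain ⟨r0, r1⟩ := pA_rho c hpar.hc
    obtain ⟨q1, q2, q3, q4, q5, q6⟩ := hP2 n c s p Z hn3 hdeg hbdd halt hpar
    obtain ⟨k, hk1, hk2, hk3⟩ := pA_sign _ hpar.hm
    refine ⟨c - √(c ^ 2 - 1), fun θ => k * π - ∫ t in θ..π, om n c s p t, k + 1 - n,
      by linarith, r1, fun θ h0 h1 => ?_, fun u v h0 h1 h2 => ?_, fun θ h0 h1 _ h3 => ?_⟩
    · rw [q1 θ h0 h1.le, cos_sub, hk2, hk1, zero_mul, add_zero]
    · rw [q6 u v h0.le h1 h2.le]
      have e : ∀ y : ℝ, VC (k * π - y) = 2 * k - VC y := by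
        intro y
        have e1 := pA_VCneg (y - k * π)
        have e2 := hk3 (y - k * π)
        rw [sub_add_cancel] at e2
        rw [neg_sub] at e1
        linarith
      rw [e, e]
      ring
    · have h4 := hn1 n hnn c s p hpar.hc hpar.hs hpar.hp hpar.hps q2
        (by
          rcases hpar.cas with h | h
          · exact Or.inl h.1
          · exact Or.inr (q4 h.1)) θ h0 h1 h3
      rw [abs_sub_comm] at h4
      refine le_of_eq_of_le ?_ h4
      congr 1
      push_cast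
      ring
  · -- critical point to the left
    obtain ⟨r0, r1⟩ := pA_rho c hpar.hc
    obtain ⟨q1, q2, q3, q4, q5, q6⟩ := hP2 n c s p (Z.comp (-X)) hn3 (pA_deg n Z hdeg)
      (pA_bdd Z hbdd) (pA_alt n Z halt) hpar
    obtain ⟨k, hk1, hk2, hk3⟩ := pA_sign _ hpar.hm
    refine ⟨-(c - √(c ^ 2 - 1)), fun θ => (∫ t in (π - θ)..π, om n c s p t) + k * π, k,
      by linarith, by linarith, fun θ h0 h1 => ?_, fun u v h0 h1 h2 => ?_, fun θ h0 h1 h2 _ => ?_⟩
    · rw [← pA_qq, q1 (π - θ) (by linarith) (by linarith), cos_add, hk2, hk1, mul_zero, sub_zero,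
        mul_comm]
    · rw [pA_Va, q6 (π - v) (π - u) (by linarith) (by linarith) (by linarith), hk3, hk3]
      ring
    · have h4 := hn1 n hnn c s p hpar.hc hpar.hs hpar.hp hpar.hps q2
        (by
          rcases hpar.cas with h | h
          · exact Or.inl h.1
          · exact Or.inr (q4 h.1)) (π - θ) (by linarith) (by linarith)
        (by rw [cos_pi_sub]; linarith)
      have h5 := (hP0.1 (-(c - √(c ^ 2 - 1))) θ (by linarith) (by linarith) h0 h1).2.2
      rw [neg_neg] at h5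
      rw [h5] at h4
      refine le_of_eq_of_le ?_ h4
      congr 1
      push_cast
      ring

end

end Pool.Agent.Helper10.AL
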