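import Pool.Agent.Helper10.AL.St4
import Pool.Agent.Helper10.AL.P.D4
import Pool.Agent.Helper10.AL.P.CL1

/-!
Project AL, piece S2: lower bound for the largest arc length, all windows in a compact interval.
-/

set_option autoImplicit false

namespace Pool.Agent.Helper10.AL

open Polynomial Set Real MeasureTheory intervalIntegral
open Pool.Agent.Helper40.AS (arc Bdd Ext)

noncomputable section

/-! ### the integral of `|cos|` -/

/-- total variation of the sine over `[0, x]` -/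
def s2_C (x : ℝ) : ℝ := ∫ s in (0 : ℝ)..x, |cos s|

theorem s2_int (u v : ℝ) : IntervalIntegrable (fun s : ℝ => |cos s|) volume u v :=
  continuous_cos.abs.intervalIntegrable u v

theorem s2_sub (u v : ℝ) : s2_C v - s2_C u = ∫ s in u..v, |cos s| := by
  unfold s2_C
  exact intervalIntegral.integral_interval_sub_left (s2_int 0 v) (s2_int 0 u)

theorem s2_mono : Monotone s2_C := by
  intro u v huv
  have h := s2_sub u v
  have h2 : 0 ≤ ∫ s in u..v, |cos s| :=
    intervalIntegral.integral_nonneg huv fun s _ => abs_nonneg _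
  linarith

theorem s2_lip {u v : ℝ} (huv : u ≤ v) : s2_C v - s2_C u ≤ v - u := by
  rw [s2_sub]
  have h : ∫ s in u..v, |cos s| ≤ ∫ _ in u..v, (1 : ℝ) :=
    intervalIntegral.integral_mono_on huv (s2_int u v) (by simp) fun s _ => abs_cos_le_one s
  simpa using h

theorem s2_sin {y : ℝ} (h0 : 0 ≤ y) (h1 : y ≤ π / 2) : s2_C y = sin y := by
  unfold s2_C
  have h : ∫ s in (0 : ℝ)..y, |cos s| = ∫ s in (0 : ℝ)..y, cos s := by
    refine intervalIntegral.integral_congr fun s hs => ?_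
    rw [uIcc_of_le h0] at hs
    exact abs_of_nonneg (cos_nonneg_of_neg_pi_div_two_le_of_le (by linarith [pi_pos, hs.1])
      (hs.2.trans h1))
  rw [h, integral_cos, sin_zero, sub_zero]

theorem s2_VC (s : ℝ) : s2_C (π / 2 + s) = 1 + VC s := by
  have h1 := s2_sub (π / 2) (π / 2 + s)
  have h2 : s2_C (π / 2) = 1 := by
    rw [s2_sin (by positivity) le_rfl, sin_pi_div_two]
  have h3 : ∫ x in (π / 2)..(π / 2 + s), |cos x| = VC s := by
    unfold VC
    have h4 := intervalIntegral.integral_comp_add_left (a := 0) (b := s)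
      (fun x : ℝ => |cos x|) (π / 2)
    rw [add_zero] at h4
    rw [← h4]
    refine intervalIntegral.integral_congr fun x _ => ?_
    show |cos (π / 2 + x)| = |sin x|
    rw [add_comm, cos_add_pi_div_two, abs_neg]
  linarith

/-! ### one monotone piece, starting at a zero -/

theorem s2_one {f : ℝ → ℝ} {u t ν : ℝ} (hf : ContDiff ℝ 1 f) (hb : ∀ θ, |f θ| ≤ 1)
    (hut : u < t) (hu : f u = 0) (hlt : ∀ θ ∈ Ioo u t, |f θ| < 1)
    (hpos : ∀ θ ∈ Ioo u t, 0 < deriv f θ)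
    (hs : ∀ θ ∈ Icc u t, ν * √(1 - f θ ^ 2) ≤ |deriv f θ|) :
    ∃ y, 0 ≤ y ∧ y ≤ π / 2 ∧ Va f u t = sin y ∧ ν * (t - u) ≤ y ∧ |f t| = sin y := by
  have hfd : Differentiable ℝ f := hf.differentiable (by norm_num)
  have hfc : Continuous (deriv f) := hf.continuous_deriv (by norm_num)
  have hsq : ∀ θ ∈ Ioo u t, 0 < √(1 - f θ ^ 2) := by
    intro θ hθ
    apply Real.sqrt_pos.mpr
    have h1 := hlt θ hθ
    have h2 := abs_lt.mp h1
    nlinarith [h2.1, h2.2]
  have hmono : StrictMonoOn f (Icc u t) := by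
    apply strictMonoOn_of_deriv_pos (convex_Icc u t) hfd.continuous.continuousOn
    intro x hx
    rw [interior_Icc] at hx
    exact hpos x hx
  have hft : 0 < f t := by
    have h := hmono (left_mem_Icc.mpr hut.le) (right_mem_Icc.mpr hut.le) hut
    rwa [hu] at h
  have hft1 := abs_le.1 (hb t)
  have hVa : Va f u t = f t := by
    unfold Va
    have h1 : ∫ θ in u..t, |deriv f θ| = ∫ θ in u..t, deriv f θ := by
      rw [intervalIntegral.integral_of_le hut.le, intervalIntegral.integral_of_le hut.le]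
      rw [MeasureTheory.integral_Ioc_eq_integral_Ioo, MeasureTheory.integral_Ioc_eq_integral_Ioo]
      apply MeasureTheory.setIntegral_congr_fun measurableSet_Ioo
      intro θ hθ
      exact abs_of_pos (hpos θ hθ)
    rw [h1, intervalIntegral.integral_deriv_eq_sub]
    · rw [hu, sub_zero]
    · intro x _; exact hfd x
    · exact hfc.intervalIntegrable _ _
  have hder : ∀ x ∈ Ioo u t, HasDerivAt (fun θ => arcsin (f θ))
      (1 / √(1 - f x ^ 2) * deriv f x) x := by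
    intro x hx
    have h1 := hlt x hx
    have h2 := abs_lt.mp h1
    exact (Real.hasDerivAt_arcsin (ne_of_gt h2.1) (ne_of_lt h2.2)).comp x (hfd x).hasDerivAt
  have h5 : ν * (t - u) ≤ arcsin (f t) - arcsin (f u) := by
    apply Convex.mul_sub_le_image_sub_of_le_deriv (convex_Icc u t)
      ((Real.continuous_arcsin.comp hfd.continuous).continuousOn)
    · intro x hx
      rw [interior_Icc] at hx
      exact (hder x hx).differentiableAt.differentiableWithinAt
    · intro x hx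
      rw [interior_Icc] at hx
      have hdx : deriv (arcsin ∘ f) x = 1 / √(1 - f x ^ 2) * deriv f x := (hder x hx).deriv
      rw [hdx]
      have h6 := hs x (Ioo_subset_Icc_self hx)
      rw [abs_of_pos (hpos x hx)] at h6
      have h7 := hsq x hx
      rw [one_div, ← div_eq_inv_mul, le_div_iff₀ h7]
      exact h6
    · exact left_mem_Icc.mpr hut.le
    · exact right_mem_Icc.mpr hut.le
    · exact hut.le
  rw [hu, arcsin_zero, sub_zero] at h5
  have h6 : sin (arcsin (f t)) = f t := sin_arcsin hft1.1 hft1.2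
  refine ⟨arcsin (f t), arcsin_nonneg.2 hft.le, arcsin_le_pi_div_two _, ?_, h5, ?_⟩
  · rw [h6]
    exact hVa
  · rw [h6, abs_of_pos hft]

theorem s2_piece {f : ℝ → ℝ} {u t ν : ℝ} (hf : ContDiff ℝ 1 f) (hb : ∀ θ, |f θ| ≤ 1) (hν : 0 < ν)
    (hut : u < t) (hu : f u = 0) (hlt : ∀ θ ∈ Ioo u t, |f θ| < 1)
    (hs : ∀ θ ∈ Icc u t, ν * √(1 - f θ ^ 2) ≤ |deriv f θ|) :
    ∃ y, 0 ≤ y ∧ y ≤ π / 2 ∧ Va f u t = sin y ∧ ν * (t - u) ≤ y ∧ |f t| = sin y := by
  have hfc : Continuous (deriv f) := hf.continuous_deriv (by norm_num)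
  have hne : ∀ θ ∈ Ioo u t, deriv f θ ≠ 0 := by
    intro θ hθ h0
    have h1 := hs θ (Ioo_subset_Icc_self hθ)
    rw [h0, abs_zero] at h1
    have h3 : 0 < √(1 - f θ ^ 2) := by
      apply Real.sqrt_pos.mpr
      have h2 := abs_lt.mp (hlt θ hθ)
      nlinarith [h2.1, h2.2]
    have h2 := mul_pos hν h3
    linarith
  by_cases hsg : ∀ θ ∈ Ioo u t, 0 < deriv f θ
  · exact s2_one hf hb hut hu hlt hsg hs
  · push Not at hsg
    obtain ⟨θ, hθ, hle⟩ := hsg
    have hall : ∀ x ∈ Ioo u t, deriv f x < 0 := by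
      intro x hx
      by_contra hx0
      push Not at hx0
      have hconn : IsPreconnected (Ioo u t) := isPreconnected_Ioo
      have h1 := hconn.intermediate_value hθ hx hfc.continuousOn
      obtain ⟨y, hy, hy0⟩ := h1 ⟨hle, hx0⟩
      exact hne y hy hy0
    have hd : ∀ θ, deriv (fun θ => -f θ) θ = - deriv f θ := by
      intro θ; simp [deriv.fun_neg]
    obtain ⟨y, h1, h2, h3, h4, h5⟩ := s2_one (f := fun θ => -f θ) (u := u) (t := t) (ν := ν)
      hf.neg (fun θ => by rw [abs_neg]; exact hb θ) hut (by simp only [hu]; norm_num)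
      (fun θ hθ => by rw [abs_neg]; exact hlt θ hθ)
      (fun θ hθ => by rw [hd]; linarith [hall θ hθ])
      (fun θ hθ => by rw [hd, abs_neg, neg_sq]; exact hs θ hθ)
    rw [d4_neg] at h3
    rw [abs_neg] at h5
    exact ⟨y, h1, h2, h3, h4, h5⟩

/-! ### the variation of a fast function, starting at a zero -/

theorem s2_zero (hVF6 : VF6) {f : ℝ → ℝ} {u v ν : ℝ} (hf : ContDiff ℝ 1 f)
    (hb : ∀ θ, |f θ| ≤ 1) (hν : 0 < ν) (huv : u ≤ v)
    (hs : ∀ θ ∈ Icc u v, ν * √(1 - f θ ^ 2) ≤ |deriv f θ|)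
    (hfin : {θ | θ ∈ Icc u v ∧ |f θ| = 1}.Finite) (hu : f u = 0) :
    s2_C (ν * (v - u)) ≤ Va f u v := by
  have hfc : Continuous (deriv f) := hf.continuous_deriv (by norm_num)
  rcases huv.eq_or_lt with heq | huv'
  · rw [← heq, sub_self, mul_zero]
    unfold s2_C Va
    simp
  by_cases hex : ∃ t ∈ Ioc u v, |f t| = 1
  · have hfin2 : {θ | θ ∈ Ioc u v ∧ |f θ| = 1}.Finite :=
      hfin.subset (fun θ hθ => ⟨Ioc_subset_Icc_self hθ.1, hθ.2⟩)
    obtain ⟨t0, ht0, hft0⟩ := hex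
    obtain ⟨t, ht, hmin⟩ := hfin2.exists_minimalFor id _ ⟨t0, ht0, hft0⟩
    have hlt : ∀ θ ∈ Ioo u t, |f θ| < 1 := by
      intro θ hθ
      refine lt_of_le_of_ne (hb θ) (fun h1 => ?_)
      have h2 : θ ∈ {θ | θ ∈ Ioc u v ∧ |f θ| = 1} := ⟨⟨hθ.1, hθ.2.le.trans ht.1.2⟩, h1⟩
      have h3 := hmin h2 hθ.2.le
      simp only [id] at h3
      linarith [hθ.2]
    obtain ⟨y, hy0, hyp, hVa, hyl, hcy⟩ := s2_piece hf hb hν ht.1.1 hu hlt
      (fun θ hθ => hs θ ⟨hθ.1, hθ.2.trans ht.1.2⟩)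
    rw [ht.2] at hcy
    have h6 := d4_left hVF6 (v := v) hf hb hν _ t ht.1.2
      (fun θ hθ => hs θ ⟨ht.1.1.le.trans hθ.1, hθ.2⟩)
      (hfin.subset fun θ hθ => ⟨⟨ht.1.1.le.trans hθ.1.1, hθ.1.2⟩, hθ.2⟩) le_rfl ht.2
    have h7 : Va f u v = Va f u t + Va f t v := cL1_add hf u t v
    rw [h7, hVa, ← hcy]
    have h8 : s2_C (ν * (v - u)) ≤ s2_C (π / 2 + ν * (v - t)) := by
      apply s2_mono
      have e : ν * (v - u) = ν * (t - u) + ν * (v - t) := by ring
      rw [e]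
      linarith
    rw [s2_VC] at h8
    linarith
  · push Not at hex
    obtain ⟨y, hy0, hyp, hVa, hyl, -⟩ := s2_piece hf hb hν huv' hu
      (fun θ hθ => lt_of_le_of_ne (hb θ) (hex θ (Ioo_subset_Ioc_self hθ))) hs
    rw [hVa, ← s2_sin hy0 hyp]
    exact s2_mono hyl

theorem s2_zero' (hVF6 : VF6) {f : ℝ → ℝ} {u v ν : ℝ} (hf : ContDiff ℝ 1 f)
    (hb : ∀ θ, |f θ| ≤ 1) (hν : 0 < ν) (huv : u ≤ v)
    (hs : ∀ θ ∈ Icc u v, ν * √(1 - f θ ^ 2) ≤ |deriv f θ|)
    (hfin : {θ | θ ∈ Icc u v ∧ |f θ| = 1}.Finite) (hv : f v = 0) :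
    s2_C (ν * (v - u)) ≤ Va f u v := by
  have hg : ContDiff ℝ 1 (fun θ => f (-θ)) := hf.comp contDiff_neg
  have hd : ∀ θ, deriv (fun θ => f (-θ)) θ = -deriv f (-θ) := fun θ => deriv_comp_neg f θ
  have h1 := s2_zero hVF6 (f := fun θ => f (-θ)) (u := -v) (v := -u) hg (fun θ => hb _) hν
    (by linarith)
    (fun θ hθ => by
      rw [hd, abs_neg]
      exact hs (-θ) ⟨by linarith [hθ.2], by linarith [hθ.1]⟩)
    (by
      have h2 : {θ | θ ∈ Icc (-v) (-u) ∧ |f (-θ)| = 1} ⊆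
          (fun θ => -θ) '' {θ | θ ∈ Icc u v ∧ |f θ| = 1} := by
        intro θ hθ
        exact ⟨-θ, ⟨⟨by linarith [hθ.1.2], by linarith [hθ.1.1]⟩, hθ.2⟩, by simp⟩
      exact (hfin.image _).subset h2)
    (by simp only [neg_neg]; exact hv)
  have h3 : Va (fun θ => f (-θ)) (-v) (-u) = Va f u v := by
    unfold Va
    simp only [hd, abs_neg]
    rw [intervalIntegral.integral_comp_neg (fun θ => |deriv f θ|)]
    simp
  rw [h3] at h1
  have h4 : -u - -v = v - u := by ring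
  rw [h4] at h1
  exact h1

theorem s2 (hA1 : A1) (hA2 : A2) (hC1 : C1) (hD1 : D1) (hD2 : D2) (hVF6 : VF6) (hVMf : VMf) :
    S2 := by
  intro δ hδ hδ4
  obtain ⟨K, hK, n0, hn0⟩ := hD2 δ hδ hδ4
  refine ⟨2 * K, by positivity, max (max n0 2) (⌈K⌉₊ + 1), ?_⟩
  intro n hn a b P hM hE
  have hn2 : 2 ≤ n := (le_max_right n0 2).trans ((le_max_left _ _).trans hn)
  have hnn0 : n0 ≤ n := (le_max_left n0 2).trans ((le_max_left _ _).trans hn)
  have hnK : K < n := by
    have h1 : ⌈K⌉₊ + 1 ≤ n := (le_max_right _ _).trans hn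
    have h2 : ((⌈K⌉₊ : ℝ) + 1) ≤ n := by exact_mod_cast h1
    linarith [Nat.le_ceil K]
  have hn1 : 1 ≤ n := by omega
  have hn' : (0 : ℝ) < n := by exact_mod_cast hn1
  obtain ⟨hM1, hab, hM3⟩ := hM
  have ha1 : -1 ≤ a := by linarith
  have hb1 : b ≤ 1 := by linarith
  have hβ0 : 0 ≤ arccos b := arccos_nonneg b
  have hαπ : arccos a ≤ π := arccos_le_pi a
  have hβα : arccos b ≤ arccos a := arccos_le_arccos hab.le
  set l : ℝ := n * (arccos a - arccos b) with hl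
  have hl0 : 0 ≤ l := mul_nonneg hn'.le (by linarith)
  obtain ⟨x, y, hx, hy, hxy, hVM⟩ := hVMf.2.2.2.2 l hl0
  set θ0 : ℝ := arccos b + x / n with hθ0
  have hxn : 0 ≤ x / n := by positivity
  have hyn : arccos a - θ0 = y / n := by
    have h1 : arccos a - arccos b = l / n := by
      rw [hl]
      field_simp
    have h2 : l / n = x / n + y / n := by
      rw [← hxy]
      ring
    rw [hθ0]
    linarith
  have hyn0 : 0 ≤ y / n := by positivity
  have hθa : θ0 ≤ arccos a := by linarith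
  have hθb : arccos b ≤ θ0 := by linarith
  -- the window
  have hwin : ∀ θ ∈ Icc (arccos b) (arccos a), a ≤ cos θ ∧ cos θ ≤ b := by
    intro θ hθ
    have hθ0' : 0 ≤ θ := hβ0.trans hθ.1
    have hθπ' : θ ≤ π := hθ.2.trans hαπ
    have hx1 : a ≤ cos θ := by
      have h2 := antitoneOn_cos ⟨hθ0', hθπ'⟩ ⟨arccos_nonneg a, hαπ⟩ hθ.2
      rwa [cos_arccos ha1 (by linarith)] at h2
    have hx2 : cos θ ≤ b := by
      have h2 := antitoneOn_cos ⟨hβ0, arccos_le_pi b⟩ ⟨hθ0', hθπ'⟩ hθ.1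
      rwa [cos_arccos (by linarith) hb1] at h2
    exact ⟨hx1, hx2⟩
  have hw0 := hwin θ0 ⟨hθb, hθa⟩
  have hx0 : cos θ0 ∈ Ioo (-1 : ℝ) 1 := ⟨by linarith [hw0.1], by linarith [hw0.2]⟩
  obtain ⟨Z, hZ⟩ := hD1 n (cos θ0) hn1 hx0
  have hTZ := hA2.2.1 n Z hZ.deg hZ.bdd
  have hcZ : ContDiff ℝ 1 (qq Z) := (hA1.1 n (qq Z) hTZ.1).1 1
  have hfast : ∀ θ ∈ Icc (arccos b) (arccos a), (n - K) * √(1 - qq Z θ ^ 2) ≤
      |deriv (qq Z) θ| := by
    intro θ hθ
    obtain ⟨hx1, hx2⟩ := hwin θ hθ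
    have h2 := hn0 n hnn0 (cos θ0) Z hZ (cos θ) ⟨by linarith, by linarith⟩
    have h3 := (hA2.2.2 Z θ).1
    have h4 : |deriv (qq Z) θ| = √((1 - cos θ ^ 2) * Z.derivative.eval (cos θ) ^ 2) := by
      rw [h3, ← sin_sq, ← mul_pow, sqrt_sq_eq_abs, abs_neg]
    have h5 : 0 ≤ 1 - qq Z θ ^ 2 := by
      have h6 := hTZ.2 θ
      have h7 : qq Z θ ^ 2 ≤ 1 := by
        rw [← sq_abs]
        exact pow_le_one₀ (abs_nonneg _) h6
      linarith
    have hnK0 : 0 ≤ (n : ℝ) - K := by linarith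
    rw [h4]
    have h6 : (n - K) * √(1 - qq Z θ ^ 2) = √((n - K) ^ 2 * (1 - qq Z θ ^ 2)) := by
      rw [sqrt_mul (sq_nonneg _), sqrt_sq hnK0]
    rw [h6]
    refine sqrt_le_sqrt ?_
    have h7 : Z.eval (cos θ) = qq Z θ := rfl
    rw [h7] at h2
    have h8 : 0 ≤ (K * n - K ^ 2) * (1 - qq Z θ ^ 2) := by
      refine mul_nonneg ?_ h5
      nlinarith
    nlinarith
  have hnK0 : 0 < (n : ℝ) - K := by linarith
  have hz : qq Z θ0 = 0 := hZ.z0
  have hR := s2_zero hVF6 (u := θ0) (v := arccos a) (ν := n - K) hcZ hTZ.2 hnK0 hθa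
    (fun θ hθ => hfast θ ⟨hθb.trans hθ.1, hθ.2⟩) (cL1_fin hZ.z0 (hβ0.trans hθb) hαπ) hz
  have hL := s2_zero' hVF6 (u := arccos b) (v := θ0) (ν := n - K) hcZ hTZ.2 hnK0 hθb
    (fun θ hθ => hfast θ ⟨hθ.1, hθ.2.trans hθa⟩) (cL1_fin hZ.z0 hβ0 (hθa.trans hαπ)) hz
  have hmax := hE.max Z (natDegree_le_iff_degree_le.1 hZ.deg) hZ.bdd
  have hC1' := (hC1 Z a b ha1 hab.le hb1).1
  rw [cL1_add hcZ (arccos b) θ0 (arccos a)] at hC1'
  -- comparison
  have hR2 : s2_C y - K * (y / n) ≤ s2_C ((n - K) * (arccos a - θ0)) := by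
    rw [hyn]
    have h1 : (n - K) * (y / n) = y - K * (y / n) := by
      field_simp
    have h2 := s2_lip (u := (n - K) * (y / n)) (v := y) (by
      rw [h1]
      have : 0 ≤ K * (y / n) := by positivity
      linarith)
    rw [h1] at h2 ⊢
    linarith
  have hL2 : s2_C x - K * (x / n) ≤ s2_C ((n - K) * (θ0 - arccos b)) := by
    have hxn' : θ0 - arccos b = x / n := by
      rw [hθ0]
      ring
    rw [hxn']
    have h1 : (n - K) * (x / n) = x - K * (x / n) := by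
      field_simp
    have h2 := s2_lip (u := (n - K) * (x / n)) (v := x) (by
      rw [h1]
      have : 0 ≤ K * (x / n) := by positivity
      linarith)
    rw [h1] at h2 ⊢
    linarith
  have hVM' : s2_C x + s2_C y = VM l := hVM
  have hVl := (hVMf.1 l hl0).1
  have hl2 : l ≤ 2 * VM l := by
    have h1 : (1 : ℝ) / 2 ≤ 2 / π := by
      rw [div_le_div_iff₀ (by norm_num) pi_pos]
      linarith [pi_le_four]
    have h2 : 1 / 2 * l ≤ 2 / π * l := mul_le_mul_of_nonneg_right h1 hl0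
    linarith
  have h9 : K * (x / n) + K * (y / n) ≤ 2 * K / n * VM l := by
    have h1 : K * (x / n) + K * (y / n) = K / n * l := by
      rw [← hxy]
      ring
    have h2 : 2 * K / n * VM l = K / n * (2 * VM l) := by ring
    rw [h1, h2]
    exact mul_le_mul_of_nonneg_left hl2 (by positivity)
  have h10 : (1 - 2 * K / n) * VM l = VM l - 2 * K / n * VM l := by ring
  rw [h10]
  linarith

end

end Pool.Agent.Helper10.AL
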