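import Pool.Agent.Helper10.AL.St8
import Pool.Agent.Helper10.AL.P.S2
import Pool.Agent.Helper10.AL.P.PA

/-!
Project AL, piece S2e: lower bound for the largest arc length, short windows away from the end
points.
-/

set_option autoImplicit false

namespace Pool.Agent.Helper10.AL

open Polynomial Set Real MeasureTheory intervalIntegral
open Pool.Agent.Helper40.AS (arc Bdd Ext)

noncomputable section

theorem s2e_alt {n : ℕ} {x0 : ℝ} {Z : ℝ[X]} (h : Zol n x0 Z) : Alt n Z := by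
  obtain ⟨x, σ, hσ, hx, hI, hv⟩ := h.alt
  have hlt : ∀ d i : ℕ, i + (d + 1) < n → x i < x (i + (d + 1)) := by
    intro d
    induction d with
    | zero => intro i hi; exact hx i hi
    | succ d ih =>
      intro i hi
      have h1 := ih i (by omega)
      have h2 := hx (i + (d + 1)) (by omega)
      exact h1.trans h2
  refine ⟨fun i => x i, ?_, fun i => hI i i.isLt, ?_⟩
  · intro i j hij
    have h1 : (i : ℕ) < j := hij
    obtain ⟨d, hd⟩ := Nat.exists_eq_add_of_lt h1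
    have h2 := hlt d i (by have := j.isLt; omega)
    show x i < x j
    rw [hd]
    exact h2
  · rcases hσ with hσ | hσ
    · left
      intro i
      rw [hv i i.isLt, hσ, one_mul]
    · right
      intro i
      rw [hv i i.isLt, hσ, neg_one_mul]

/-- the speed in terms of the phase -/
theorem s2e_par (hP2 : P2) (hL3 : L3) {n : ℕ} {c s p : ℝ} {Z : ℝ[X]} (hn : 3 ≤ n)
    (hd : Z.natDegree ≤ n) (hb : Bdd Z) (ha : Alt n Z) (hp : Par n c s p Z) {r θ : ℝ}
    (hr : 0 < r) (h0 : r ≤ θ) (h1 : θ < π) :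
    (n - π / r) * √(1 - qq Z θ ^ 2) ≤ |deriv (qq Z) θ| := by
  obtain ⟨q1, q2, q3, q4, q5, q6⟩ := hP2 n c s p Z hn hd hb ha hp
  obtain ⟨κ, hκ0, hκ1, hκ⟩ := hL3 1 one_pos
  have hθ : 0 < θ := hr.trans_le h0
  have h2 := (hκ n c s p 0 0 (by omega) hp.hc hp.hs hp.hp hp.hps q2 le_rfl (by simp)
    pi_pos.le).2.2.1 θ ⟨hθ, h1.le⟩
  have h3 : (n : ℝ) - om n c s p θ ≤ π / θ := by
    rw [le_div_iff₀ hθ]
    exact h2
  have h4 : π / θ ≤ π / r := div_le_div_of_nonneg_left pi_pos.le hr h0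
  rw [q5 θ hθ h1]
  have h5 : √(1 - qq Z θ ^ 2) = |sin (∫ t in θ..π, om n c s p t)| := by
    rw [q1 θ hθ h1.le, mul_pow, ← sq_abs (Z.eval (-1)), hp.hm, one_pow, one_mul, ← sin_sq,
      sqrt_sq_eq_abs]
  rw [h5]
  exact mul_le_mul_of_nonneg_right (by linarith) (abs_nonneg _)

/-- the speed of the polynomials with `n` alternation points -/
theorem s2e_speed (hL3 : L3) (hP1 : P1) (hP2 : P2) {n : ℕ} {Z : ℝ[X]} (hn : 3 ≤ n)
    (hd : Z.natDegree ≤ n) (hb : Bdd Z) (ha : Alt n Z) {r θ : ℝ}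
    (hr : 0 < r) (hr1 : r ≤ π) (h0 : r ≤ θ) (h1 : r ≤ π - θ) :
    (n - π / r) * √(1 - qq Z θ ^ 2) ≤ |deriv (qq Z) θ| := by
  rcases hP1 n Z hn hd hb ha with hT | ⟨c, s, p, hpar | hpar⟩
  · have hcos : ∀ θ : ℝ, (Chebyshev.T ℝ ((n : ℤ) - 1)).eval (cos θ) = cos (((n : ℝ) - 1) * θ) := by
      intro θ
      rw [Polynomial.Chebyshev.T_real_cos]
      push_cast
      ring_nf
    have hq : ∃ B : ℝ, ∀ θ : ℝ, qq Z θ = cos (((n : ℝ) - 1) * θ + B) := by
      rcases hT with hT | hT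
      · exact ⟨0, fun θ => by rw [qq, hT, hcos, add_zero]⟩
      · exact ⟨π, fun θ => by rw [qq, hT, eval_neg, hcos, cos_add_pi]⟩
    obtain ⟨B, hB⟩ := hq
    have hd1 : deriv (qq Z) θ = -(sin (((n : ℝ) - 1) * θ + B) * ((n : ℝ) - 1)) := by
      have e : qq Z = fun θ => cos (((n : ℝ) - 1) * θ + B) := funext hB
      rw [e]
      have hd : HasDerivAt (fun θ : ℝ => ((n : ℝ) - 1) * θ + B) ((n : ℝ) - 1) θ := by
        simpa using ((hasDerivAt_id θ).const_mul ((n : ℝ) - 1)).add_const B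
      rw [(hd.cos).deriv]
      ring
    have hn' : (3 : ℝ) ≤ n := by exact_mod_cast hn
    have h2 : 1 ≤ π / r := by
      rw [le_div_iff₀ hr]
      linarith
    rw [hd1, hB, ← sin_sq, sqrt_sq_eq_abs, abs_neg, abs_mul,
      abs_of_nonneg (by linarith : (0 : ℝ) ≤ (n : ℝ) - 1), mul_comm]
    exact mul_le_mul_of_nonneg_left (by linarith) (abs_nonneg _)
  · exact s2e_par hP2 hL3 hn hd hb ha hpar hr h0 (by linarith)
  · have h2 := s2e_par hP2 hL3 hn (pA_deg n Z hd) (pA_bdd Z hb) (pA_alt n Z ha) hpar hr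
      (θ := π - θ) h1 (by linarith)
    rw [pA_qq] at h2
    have h3 : deriv (qq Z) θ = -deriv (qq (Z.comp (-X))) (π - θ) := by
      have h4 : (qq Z) = fun x => qq (Z.comp (-X)) (π - x) := funext fun x => (pA_qq Z x).symm
      rw [h4, deriv_comp_const_sub]
    rw [h3, abs_neg]
    exact h2

/-- the sine on the window -/
theorem s2e_sin {u v m θ : ℝ} (hu : 0 ≤ u) (hv : v ≤ π) (hsu : m ≤ sin u) (hsv : m ≤ sin v)
    (h1 : u ≤ θ) (h2 : θ ≤ v) : m ≤ sin θ := by
  rcases h1.eq_or_lt with h | h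
  · rw [← h]; exact hsu
  rcases h2.eq_or_lt with h' | h'
  · rw [h']; exact hsv
  have huv : 0 < v - u := by linarith
  have hc := strictConcaveOn_sin_Icc.concaveOn
  have hA : (v - θ) / (v - u) + (θ - u) / (v - u) = 1 := by field_simp; ring
  have hA1 : 0 ≤ (v - θ) / (v - u) := div_nonneg (by linarith) huv.le
  have hA2 : 0 ≤ (θ - u) / (v - u) := div_nonneg (by linarith) huv.le
  have hU : u ∈ Icc (0 : ℝ) π := ⟨hu, by linarith⟩
  have hV : v ∈ Icc (0 : ℝ) π := ⟨by linarith, hv⟩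
  have h3 := hc.2 hU hV hA1 hA2 hA
  have h4 : (v - θ) / (v - u) * u + (θ - u) / (v - u) * v = θ := by field_simp; ring
  simp only [smul_eq_mul] at h3
  rw [h4] at h3
  have h5 : (v - θ) / (v - u) * m ≤ (v - θ) / (v - u) * sin u :=
    mul_le_mul_of_nonneg_left hsu (div_nonneg (by linarith) huv.le)
  have h6 : (θ - u) / (v - u) * m ≤ (θ - u) / (v - u) * sin v :=
    mul_le_mul_of_nonneg_left hsv (div_nonneg (by linarith) huv.le)
  have h7 : (v - θ) / (v - u) * m + (θ - u) / (v - u) * m = m := by field_simp; ring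
  linarith

theorem s2e (hA1 : A1) (hA2 : A2) (hC1 : C1) (hD1 : D1) (hL3 : L3) (hP1 : P1) (hP1z : P1z)
    (hP2 : P2) (hVF6 : VF6) (hVMf : VMf) : S2e := by
  intro ε K hε hK
  set R : ℝ := 2 * π / ε + 2 * π with hRdef
  have hpi := pi_pos
  have hR1 : 2 * π < R := by
    have : 0 < 2 * π / ε := by positivity
    linarith
  have hR0 : 0 < R := by linarith
  set δ : ℝ := π / R with hδdef
  have hδ0 : 0 < δ := by positivity
  have hδ1 : δ < 1 / 2 := by
    rw [hδdef, div_lt_div_iff₀ hR0 (by norm_num)]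
    linarith
  have hδε : 2 * δ ≤ ε := by
    have h1 : 2 * π / ε ≤ R := by linarith
    rw [div_le_iff₀ hε] at h1
    rw [hδdef, ← mul_div_assoc, div_le_iff₀ hR0]
    linarith
  refine ⟨R, hR0, 3, ?_⟩
  intro n hn a b P hM hE
  have hn1 : 1 ≤ n := by omega
  have hn' : (0 : ℝ) < n := by exact_mod_cast hn1
  obtain ⟨ha1, hab, hb1, -, hsa, hsb⟩ := hM
  have hβ0 : 0 ≤ arccos b := arccos_nonneg b
  have hαπ : arccos a ≤ π := arccos_le_pi a
  have hβα : arccos b ≤ arccos a := arccos_le_arccos hab.le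
  -- the window
  have hwin : ∀ θ ∈ Icc (arccos b) (arccos a), R / n ≤ sin θ := by
    intro θ hθ
    refine s2e_sin hβ0 hαπ ?_ ?_ hθ.1 hθ.2
    · rw [div_le_iff₀ hn']; linarith
    · rw [div_le_iff₀ hn']; linarith
  have hRn : 0 < R / n := by positivity
  have hwin2 : ∀ θ ∈ Icc (arccos b) (arccos a), R / n ≤ θ ∧ R / n ≤ π - θ := by
    intro θ hθ
    have h1 := hwin θ hθ
    have h2 : sin θ ≤ θ := sin_le (hβ0.trans hθ.1)
    have h3 : sin (π - θ) ≤ π - θ := sin_le (by linarith [hθ.2])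
    rw [sin_pi_sub] at h3
    exact ⟨by linarith, by linarith⟩
  set l : ℝ := n * (arccos a - arccos b) with hl
  have hl0 : 0 ≤ l := mul_nonneg hn'.le (by linarith)
  obtain ⟨x, y, hx, hy, hxy, hVM⟩ := hVMf.2.2.2.2 l hl0
  set θ0 : ℝ := arccos b + x / n with hθ0
  have hxn : 0 ≤ x / n := by positivity
  have hyn : arccos a - θ0 = y / n := by
    have h1 : arccos a - arccos b = l / n := by
      rw [hl]
      field_simp
    have h2 : l / n = x / n + y / n := by
      rw [← hxy]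
      ring
    rw [hθ0]
    linarith
  have hyn0 : 0 ≤ y / n := by positivity
  have hθa : θ0 ≤ arccos a := by linarith
  have hθb : arccos b ≤ θ0 := by linarith
  have hw0 := hwin2 θ0 ⟨hθb, hθa⟩
  have hx0 : cos θ0 ∈ Ioo (-1 : ℝ) 1 := by
    constructor
    · have h1 := strictAntiOn_cos (a := θ0) ⟨by linarith, by linarith⟩ (b := π)
        ⟨pi_pos.le, le_rfl⟩ (by linarith)
      rwa [cos_pi] at h1
    · have h1 := strictAntiOn_cos (a := 0) ⟨le_rfl, pi_pos.le⟩ (b := θ0)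
        ⟨by linarith, by linarith⟩ (by linarith)
      rwa [cos_zero] at h1
  obtain ⟨Z, hZ⟩ := hD1 n (cos θ0) hn1 hx0
  have hTZ := hA2.2.1 n Z hZ.deg hZ.bdd
  have hcZ : ContDiff ℝ 1 (qq Z) := (hA1.1 n (qq Z) hTZ.1).1 1
  set ν : ℝ := n * (1 - δ) with hν
  have hν0 : 0 < ν := by
    rw [hν]
    exact mul_pos hn' (by linarith)
  have hRpi : R / n ≤ π := by linarith [hw0.1, hw0.2]
  have hfast : ∀ θ ∈ Icc (arccos b) (arccos a), ν * √(1 - qq Z θ ^ 2) ≤
      |deriv (qq Z) θ| := by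
    intro θ hθ
    have h1 := hwin2 θ hθ
    have h2 := s2e_speed hL3 hP1 hP2 hn hZ.deg hZ.bdd (s2e_alt hZ) hRn hRpi h1.1 h1.2
    have h3 : (n : ℝ) - π / (R / n) = ν := by
      rw [hν, hδdef]
      field_simp
    rw [h3] at h2
    exact h2
  have hz : qq Z θ0 = 0 := hZ.z0
  have hR := s2_zero hVF6 (u := θ0) (v := arccos a) (ν := ν) hcZ hTZ.2 hν0 hθa
    (fun θ hθ => hfast θ ⟨hθb.trans hθ.1, hθ.2⟩) (cL1_fin hZ.z0 (hβ0.trans hθb) hαπ) hz
  have hL := s2_zero' hVF6 (u := arccos b) (v := θ0) (ν := ν) hcZ hTZ.2 hν0 hθb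
    (fun θ hθ => hfast θ ⟨hθ.1, hθ.2.trans hθa⟩) (cL1_fin hZ.z0 hβ0 (hθa.trans hαπ)) hz
  have hmax := hE.max Z (natDegree_le_iff_degree_le.1 hZ.deg) hZ.bdd
  have hC1' := (hC1 Z a b ha1 hab.le hb1).1
  rw [cL1_add hcZ (arccos b) θ0 (arccos a)] at hC1'
  -- comparison
  have hcmp : ∀ z : ℝ, 0 ≤ z → s2_C z - δ * z ≤ s2_C (ν * (z / n)) := by
    intro z hz0
    have h1 : ν * (z / n) = z - δ * z := by
      rw [hν]
      field_simp
    have h2 := s2_lip (u := ν * (z / n)) (v := z) (by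
      rw [h1]
      have : 0 ≤ δ * z := by positivity
      linarith)
    rw [h1] at h2 ⊢
    linarith
  have hR2 : s2_C y - δ * y ≤ s2_C (ν * (arccos a - θ0)) := by
    rw [hyn]
    exact hcmp y hy
  have hL2 : s2_C x - δ * x ≤ s2_C (ν * (θ0 - arccos b)) := by
    have hxn' : θ0 - arccos b = x / n := by
      rw [hθ0]
      ring
    rw [hxn']
    exact hcmp x hx
  have hVM' : s2_C x + s2_C y = VM l := hVM
  have hVl := (hVMf.1 l hl0).1
  have hl2 : l ≤ 2 * VM l := by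
    have h1 : (1 : ℝ) / 2 ≤ 2 / π := by
      rw [div_le_div_iff₀ (by norm_num) pi_pos]
      linarith [pi_le_four]
    have h2 : 1 / 2 * l ≤ 2 / π * l := mul_le_mul_of_nonneg_right h1 hl0
    linarith
  have hVM0 : 0 ≤ VM l := by linarith
  have h9 : δ * x + δ * y ≤ ε * VM l := by
    have h1 : δ * x + δ * y = δ * l := by
      rw [← hxy]
      ring
    rw [h1]
    have h2 : δ * l ≤ δ * (2 * VM l) := mul_le_mul_of_nonneg_left hl2 hδ0.le
    have h3 : 2 * δ * VM l ≤ ε * VM l := mul_le_mul_of_nonneg_right hδε hVM0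
    linarith
  have h10 : (1 - ε) * VM l = VM l - ε * VM l := by ring
  rw [h10]
  linarith

end

end Pool.Agent.Helper10.AL
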