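import Pool.Agent.Helper10.AL.St4

/-!
Project AL, piece S3: bounded windows.
-/

set_option autoImplicit false

namespace Pool.Agent.Helper10.AL

open Polynomial Set Real MeasureTheory intervalIntegral
open Pool.Agent.Helper40.AS (arc Bdd Ext)

noncomputable section

theorem s3_cd (hA1 : A1) {n : ℕ} {f : ℝ → ℝ} (h : TP n f) :
    Differentiable ℝ f ∧ Differentiable ℝ (deriv f) ∧ Continuous (deriv f) := by
  have h1 := (hA1.1 n f h).1 2
  have h2 : ContDiff ℝ 1 (deriv f) := by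
    have h3 : ContDiff ℝ ((1 : ℕ) + 1) f := by
      have h4 : ((1 : ℕ) + 1 : WithTop ℕ∞) = ((2 : ℕ) : WithTop ℕ∞) := by norm_num
      rw [h4]; exact h1
    exact (contDiff_succ_iff_deriv.1 h3).2.2
  exact ⟨h1.differentiable (by norm_num), h2.differentiable (by norm_num), h2.continuous⟩

/-- arc length against variation -/
theorem s3_En_le {f : ℝ → ℝ} (hf : Continuous (deriv f)) {u v : ℝ} (huv : u ≤ v) :
    En f u v ≤ Va f u v + (v - u) := by
  unfold En Va
  have h1 : (∫ θ in u..v, |deriv f θ|) + (v - u) = ∫ θ in u..v, (|deriv f θ| + 1) := by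
    rw [intervalIntegral.integral_add (hf.abs.intervalIntegrable u v) (by simp)]
    simp
  rw [h1]
  refine intervalIntegral.integral_mono_on huv ?_ ?_ fun θ _ => ?_
  · exact (by fun_prop : Continuous fun θ => √(1 + (deriv f θ) ^ 2)).intervalIntegrable _ _
  · exact (by fun_prop : Continuous fun θ => |deriv f θ| + 1).intervalIntegrable _ _
  · apply Real.sqrt_le_iff.2
    constructor
    · positivity
    · nlinarith [abs_nonneg (deriv f θ), sq_abs (deriv f θ)]

/-- the variation is at most the supremum times the length -/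
theorem s3_exists {f : ℝ → ℝ} (hf : Continuous (deriv f)) {u v c : ℝ} (huv : u < v)
    (h : c * (v - u) ≤ Va f u v) : ∃ θ ∈ Icc u v, c ≤ |deriv f θ| := by
  by_contra hcon
  push Not at hcon
  have h1 : Va f u v < ∫ _ in u..v, c := by
    unfold Va
    refine intervalIntegral.integral_lt_integral_of_continuousOn_of_le_of_exists_lt huv
      hf.abs.continuousOn continuousOn_const (fun θ hθ => (hcon θ ⟨hθ.1.le, hθ.2⟩).le)
      ⟨u, left_mem_Icc.2 huv.le, hcon u (left_mem_Icc.2 huv.le)⟩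
  simp only [intervalIntegral.integral_const, smul_eq_mul] at h1
  linarith

theorem s3_num {x : ℝ} (h0 : 0.96 ≤ x) (h1 : x ≤ 1) {y : ℝ} (hy : y ≤ 1)
    (h : |arcsin y - arcsin x| ≤ 1 / 2) : 1 / 2 ≤ y := by
  have h2 : arcsin x - 1 / 2 ≤ arcsin y := by linarith [(abs_le.1 h).1]
  have h3 : arcsin x ≤ π / 2 := arcsin_le_pi_div_two x
  have h5 : 0 ≤ arcsin x := arcsin_nonneg.2 (by linarith)
  have hpi := pi_gt_three
  have h4 : sin (arcsin x - 1 / 2) ≤ sin (arcsin y) :=
    sin_le_sin_of_le_of_le_pi_div_two (by linarith) (arcsin_le_pi_div_two y) h2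
  have hy1 : -1 ≤ y := by
    by_contra hc
    rw [arcsin_of_le_neg_one (not_le.1 hc).le] at h2
    linarith
  rw [sin_arcsin hy1 hy, sin_sub, sin_arcsin (by linarith) h1, cos_arcsin] at h4
  have h6 : √(1 - x ^ 2) ≤ 0.28 := by
    apply Real.sqrt_le_iff.2
    constructor
    · norm_num
    · nlinarith
  have h7 : 0.875 ≤ cos (1 / 2) := by
    have := Real.one_sub_sq_div_two_le_cos (x := 1 / 2)
    norm_num at this ⊢
    linarith
  have h8 : sin (1 / 2) ≤ 1 / 2 := (Real.sin_lt (by norm_num)).le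
  have h9 : 0 ≤ sin (1 / 2) := sin_nonneg_of_nonneg_of_le_pi (by norm_num) (by linarith)
  have h10 : 0 ≤ √(1 - x ^ 2) := Real.sqrt_nonneg _
  nlinarith [mul_nonneg (sub_nonneg.2 h6) h9, mul_nonneg (sub_nonneg.2 h0) (sub_nonneg.2 h7)]

theorem s3_tr (hA1 : A1) (hA2 : A2) {n : ℕ} (hn : 1 ≤ n) {f : ℝ → ℝ} (h : TB n f) :
    Helper40.Arc.Tr (fun t => f (t / n)) (fun t => deriv f (t / n) / n)
      (fun t => deriv (deriv f) (t / n) / (n : ℝ) ^ 2) := by
  have hn0 : (0 : ℝ) < n := by exact_mod_cast hn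
  obtain ⟨hd, hd2, -⟩ := s3_cd hA1 h.1
  have hB := (hA2.1 n f hn h).2
  refine ⟨fun t => ?_, fun t => ?_, fun t => ?_, fun t => ?_⟩
  · have h1 := ((hd (t / n)).hasDerivAt).comp t ((hasDerivAt_id t).div_const (n : ℝ))
    have e : deriv f (t / n) * (1 / (n : ℝ)) = deriv f (t / n) / n := by ring
    rw [e] at h1
    exact h1
  · have h1 := (((hd2 (t / n)).hasDerivAt).comp t
      ((hasDerivAt_id t).div_const (n : ℝ))).div_const (n : ℝ)
    have e : deriv (deriv f) (t / n) * (1 / (n : ℝ)) / (n : ℝ)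
        = deriv (deriv f) (t / n) / (n : ℝ) ^ 2 := by
      field_simp
    rw [e] at h1
    exact h1
  · have h1 := (hB (t / n)).1
    rw [div_pow, ← sub_nonneg]
    have e : 1 - (f (t / n) ^ 2 + deriv f (t / n) ^ 2 / (n : ℝ) ^ 2) =
        ((n : ℝ) ^ 2 - (deriv f (t / n) ^ 2 + (n : ℝ) ^ 2 * f (t / n) ^ 2)) / (n : ℝ) ^ 2 := by
      field_simp
      ring
    rw [e]
    exact div_nonneg (by linarith) (by positivity)
  · have h1 := (hB (t / n)).2.1
    rw [div_pow, div_pow, ← sub_nonneg]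
    have e : 1 - (deriv f (t / n) ^ 2 / (n : ℝ) ^ 2 +
        deriv (deriv f) (t / n) ^ 2 / ((n : ℝ) ^ 2) ^ 2) =
        ((n : ℝ) ^ 4 - (deriv (deriv f) (t / n) ^ 2 + (n : ℝ) ^ 2 * deriv f (t / n) ^ 2)) /
          (n : ℝ) ^ 4 := by
      field_simp
      ring
    rw [e]
    exact div_nonneg (by linarith) (by positivity)

theorem s3_second (hA1 : A1) (hA2 : A2) {n : ℕ} (hn : 1 ≤ n) {f : ℝ → ℝ} (h : TB n f)
    {u v : ℝ} (hl : n * (v - u) ≤ 1 / 2) {θ1 : ℝ} (h1 : θ1 ∈ Icc u v)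
    (h2 : 0.96 * n ≤ |deriv f θ1|) {θ : ℝ} (hθ : θ ∈ Icc u v) :
    (n : ℝ) / 2 ≤ |deriv f θ| := by
  have hn0 : (0 : ℝ) < n := by exact_mod_cast hn
  have hT := s3_tr hA1 hA2 hn h
  have e : ∀ x : ℝ, (n : ℝ) * x / n = x := fun x => by field_simp
  have key := hT.lip (n * θ1) (n * θ)
  simp only [e] at key
  have hab : ∀ x, |deriv f x / n| ≤ 1 := by
    intro x
    have := hT.abs_u_le (n * x)
    simp only [e] at this
    exact this
  have hdist : |(n : ℝ) * θ - n * θ1| ≤ 1 / 2 := by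
    rw [← mul_sub, abs_mul, abs_of_pos hn0]
    have h3 : |θ - θ1| ≤ v - u := by
      rw [abs_le]
      constructor <;> linarith [h1.1, h1.2, hθ.1, hθ.2]
    exact (mul_le_mul_of_nonneg_left h3 hn0.le).trans hl
  have h5 := key.trans hdist
  rcases le_total 0 (deriv f θ1) with h6 | h6
  · rw [abs_of_nonneg h6] at h2
    have h7 : 0.96 ≤ deriv f θ1 / n := by
      rw [le_div_iff₀ hn0]
      exact h2
    have h8 := s3_num h7 (abs_le.1 (hab θ1)).2 (abs_le.1 (hab θ)).2 h5
    rw [le_div_iff₀ hn0] at h8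
    have := le_abs_self (deriv f θ)
    linarith
  · rw [abs_of_nonpos h6] at h2
    have h7 : 0.96 ≤ -(deriv f θ1 / n) := by
      rw [← neg_div, le_div_iff₀ hn0]
      exact h2
    have h9 : |arcsin (-(deriv f θ / n)) - arcsin (-(deriv f θ1 / n))| ≤ 1 / 2 := by
      rw [arcsin_neg, arcsin_neg, neg_sub_neg, abs_sub_comm]
      exact h5
    have h8 := s3_num h7 (by linarith [(abs_le.1 (hab θ1)).1])
      (by linarith [(abs_le.1 (hab θ)).1]) h9
    rw [← neg_div, le_div_iff₀ hn0] at h8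
    have := neg_le_abs (deriv f θ)
    linarith

theorem s3 (hA1 : A1) (hA2 : A2) (hC1 : C1) (hS1 : S1) (hS2 : S2) (hVMf : VMf) : S3 := by
  intro δ K1 η hδ hδ4 hK1 hη
  obtain ⟨ε, hε, hS⟩ := hS1 K1 η hK1 hη
  obtain ⟨K, hK, n1, hn1⟩ := hS2 δ hδ hδ4
  set e1 : ℝ := min ε 0.02 with he1
  have he1pos : 0 < e1 := lt_min hε (by norm_num)
  obtain ⟨n2, hn2⟩ := exists_nat_ge ((K + 2) / e1)
  refine ⟨max 1 (max n1 n2), fun n hn a b P hM hE hl => ?_⟩
  have hn1' : 1 ≤ n := (le_max_left _ _).trans hn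
  have hnn1 : n1 ≤ n := ((le_max_left _ _).trans (le_max_right _ _)).trans hn
  have hnn2 : n2 ≤ n := ((le_max_right _ _).trans (le_max_right _ _)).trans hn
  have hn0 : (0 : ℝ) < n := by exact_mod_cast hn1'
  have hnK : (K + 2) / n ≤ e1 := by
    have h1 : (K + 2) / e1 ≤ n := hn2.trans (by exact_mod_cast hnn2)
    rw [div_le_iff₀ he1pos] at h1
    rw [div_le_iff₀ hn0]
    linarith
  obtain ⟨ha, hab, hb⟩ := hM
  have hab' : arccos b < arccos a :=
    Real.strictAntiOn_arccos ⟨by linarith, by linarith⟩ ⟨by linarith, by linarith⟩ hab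
  have hdeg : P.natDegree ≤ n := natDegree_le_iff_degree_le.2 hE.deg
  have hTB : TB n (qq P) := hA2.2.1 n P hdeg hE.bdd
  obtain ⟨-, -, hc⟩ := s3_cd hA1 hTB.1
  set l : ℝ := n * (arccos a - arccos b) with hldef
  have hlpos : 0 < l := mul_pos hn0 (by linarith)
  have hlow := hn1 n hnn1 a b P ⟨ha, hab, hb⟩ hE
  have hup := (hC1 P a b (by linarith) hab.le (by linarith)).2
  have hEV := s3_En_le hc hab'.le
  obtain ⟨hV1, -, -⟩ := hVMf.1 l hlpos.le
  have hVpos : 0 < VM l := lt_of_lt_of_le (by positivity) hV1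
  have hlV : arccos a - arccos b ≤ 2 / n * VM l := by
    have h1 : arccos a - arccos b = l / n := by rw [hldef]; field_simp
    have h2 : l ≤ 2 * VM l := by
      have h3 : 2 / π * l * π ≤ VM l * π := mul_le_mul_of_nonneg_right hV1 pi_pos.le
      have h4 : 2 / π * l * π = 2 * l := by field_simp
      rw [h4] at h3
      nlinarith [pi_lt_four]
    rw [h1, div_le_iff₀ hn0]
    have h5 : 2 / (n : ℝ) * VM l * n = 2 * VM l := by field_simp
    rw [h5]
    exact h2
  have hVa : (1 - e1) * VM l ≤ Va (qq P) (arccos b) (arccos a) := by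
    have h1 : (1 - e1) * VM l ≤ (1 - (K + 2) / n) * VM l :=
      mul_le_mul_of_nonneg_right (by linarith) hVpos.le
    have h2 : (1 - (K + 2) / n) * VM l = (1 - K / n) * VM l - 2 / n * VM l := by ring
    linarith
  constructor
  · refine hS n (qq P) (arccos b) (arccos a) hn1' hTB hab' hl ?_
    refine le_trans (mul_le_mul_of_nonneg_right ?_ hVpos.le) hVa
    have := min_le_left ε 0.02
    linarith
  · intro hl2 θ hθ
    have hlp : l ≤ π := by linarith [pi_gt_three]
    have hVM := hVMf.2.1 l hlpos.le hlp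
    have hsin : 0.984 * (l / 2) ≤ sin (l / 2) := by
      have h1 := Real.sin_gt_sub_cube (x := l / 2) (by linarith)
      have h2 : (l / 2) ^ 2 ≤ 1 / 16 := by nlinarith
      nlinarith [mul_nonneg hlpos.le (sub_nonneg.2 h2)]
    have h3 : 0.96 * n * (arccos a - arccos b) ≤ Va (qq P) (arccos b) (arccos a) := by
      have h4 : 0.96 * n * (arccos a - arccos b) = 0.96 * l := by rw [hldef]; ring
      rw [h4]
      refine le_trans ?_ hVa
      have h5 : 0.98 ≤ 1 - e1 := by
        have := min_le_right ε 0.02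
        rw [← he1] at this
        norm_num at this ⊢
        linarith
      have h6 : 0.98 * VM l ≤ (1 - e1) * VM l := mul_le_mul_of_nonneg_right h5 hVpos.le
      rw [hVM] at h6 ⊢
      linarith
    obtain ⟨θ1, hθ1, hθ2⟩ := s3_exists hc hab' h3
    exact s3_second hA1 hA2 hn1' hTB hl2 hθ1 hθ2 hθ

end

end Pool.Agent.Helper10.AL
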