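import Pool.Agent.Helper10.AL.St8
import Pool.Agent.Helper10.AL.P.S3

/-!
Project AL, piece S3e: bounded windows at distance at least `R / n` from the end points.
-/

set_option autoImplicit false

namespace Pool.Agent.Helper10.AL

open Polynomial Set Real MeasureTheory intervalIntegral
open Pool.Agent.Helper40.AS (arc Bdd Ext)

noncomputable section

/-- nondegeneracy from the almost equality in the Bernstein inequality -/
theorem s3e_nd {n : ℕ} (hn : 1 ≤ n) {f : ℝ → ℝ} {u v η : ℝ} (hη : η ≤ 1e-7)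
    (h : ∀ θ ∈ Icc u v,
      (1 - η) * (n : ℝ) ^ 4 ≤ (n : ℝ) ^ 2 * deriv f θ ^ 2 + deriv (deriv f) θ ^ 2) :
    ND n f u v := by
  intro θ hθ hs
  have hn0 : (0 : ℝ) < n := by exact_mod_cast hn
  have h1 := h θ hθ
  have h2 : deriv f θ ^ 2 ≤ ((n : ℝ) / 1000) ^ 2 := by
    rw [← sq_abs]
    exact pow_le_pow_left₀ (abs_nonneg _) hs 2
  have h3 : (n : ℝ) ^ 2 * deriv f θ ^ 2 ≤ (n : ℝ) ^ 4 / 1000000 := by
    have := mul_le_mul_of_nonneg_left h2 (by positivity : (0 : ℝ) ≤ (n : ℝ) ^ 2)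
    refine this.trans (le_of_eq ?_)
    ring
  have hn4 : (0 : ℝ) < (n : ℝ) ^ 4 := by positivity
  have h4 : (1 - 1e-7) * (n : ℝ) ^ 4 ≤ (1 - η) * (n : ℝ) ^ 4 :=
    mul_le_mul_of_nonneg_right (by linarith) hn4.le
  have h5 : ((n : ℝ) ^ 2 / 1000) ^ 2 ≤ deriv (deriv f) θ ^ 2 := by
    have e : ((n : ℝ) ^ 2 / 1000) ^ 2 = (n : ℝ) ^ 4 / 1000000 := by ring
    rw [e]
    norm_num at h4 ⊢
    linarith
  have h6 := abs_le_of_sq_le_sq' (a := (n : ℝ) ^ 2 / 1000) (b := |deriv (deriv f) θ|)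
    (by rw [sq_abs]; exact h5) (abs_nonneg _)
  exact h6.2

theorem s3e (hA1 : A1) (hA2 : A2) (hC1 : C1) (hS1 : S1) (hS2e : S2e) (hVMf : VMf) : S3e := by
  intro K η hK hη
  set η' : ℝ := min η 1e-7 with hη'
  have hη'pos : 0 < η' := lt_min hη (by norm_num)
  obtain ⟨ε, hε, hS⟩ := hS1 K η' hK hη'pos
  set e1 : ℝ := min ε 0.02 with he1
  have he1pos : 0 < e1 := lt_min hε (by norm_num)
  obtain ⟨R, hR, n1, hn1⟩ := hS2e (e1 / 2) K (by linarith) hK
  obtain ⟨n2, hn2⟩ := exists_nat_ge (4 / e1)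
  refine ⟨R, hR, max 1 (max n1 n2), fun n hn a b P hW hE => ?_⟩
  have hn1' : 1 ≤ n := (le_max_left _ _).trans hn
  have hnn1 : n1 ≤ n := ((le_max_left _ _).trans (le_max_right _ _)).trans hn
  have hnn2 : n2 ≤ n := ((le_max_right _ _).trans (le_max_right _ _)).trans hn
  have hn0 : (0 : ℝ) < n := by exact_mod_cast hn1'
  have hnK : 2 / (n : ℝ) ≤ e1 / 2 := by
    have h1 : 4 / e1 ≤ n := hn2.trans (by exact_mod_cast hnn2)
    rw [div_le_iff₀ he1pos] at h1
    rw [div_le_iff₀ hn0]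
    linarith
  have hlow := hn1 n hnn1 a b P hW hE
  obtain ⟨ha, hab, hb, hlK, -, -⟩ := hW
  have hab' : arccos b < arccos a :=
    Real.strictAntiOn_arccos ⟨by linarith, by linarith⟩ ⟨by linarith, by linarith⟩ hab
  have hdeg : P.natDegree ≤ n := natDegree_le_iff_degree_le.2 hE.deg
  have hTB : TB n (qq P) := hA2.2.1 n P hdeg hE.bdd
  obtain ⟨-, -, hc⟩ := s3_cd hA1 hTB.1
  set l : ℝ := n * (arccos a - arccos b) with hldef
  have hlpos : 0 < l := mul_pos hn0 (by linarith)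
  have hup := (hC1 P a b (by linarith) hab.le (by linarith)).2
  have hEV := s3_En_le hc hab'.le
  obtain ⟨hV1, -, -⟩ := hVMf.1 l hlpos.le
  have hVpos : 0 < VM l := lt_of_lt_of_le (by positivity) hV1
  have hlV : arccos a - arccos b ≤ 2 / n * VM l := by
    have h1 : arccos a - arccos b = l / n := by rw [hldef]; field_simp
    have h2 : l ≤ 2 * VM l := by
      have h3 : 2 / π * l * π ≤ VM l * π := mul_le_mul_of_nonneg_right hV1 pi_pos.le
      have h4 : 2 / π * l * π = 2 * l := by field_simp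
      rw [h4] at h3
      nlinarith [pi_lt_four]
    rw [h1, div_le_iff₀ hn0]
    have h5 : 2 / (n : ℝ) * VM l * n = 2 * VM l := by field_simp
    rw [h5]
    exact h2
  have hVa : (1 - e1) * VM l ≤ Va (qq P) (arccos b) (arccos a) := by
    have h1 : 2 / (n : ℝ) * VM l ≤ e1 / 2 * VM l := mul_le_mul_of_nonneg_right hnK hVpos.le
    have h2 : (1 - e1) * VM l = (1 - e1 / 2) * VM l - e1 / 2 * VM l := by ring
    linarith
  have hfirst : ∀ θ ∈ Icc (arccos b) (arccos a), (1 - η') * (n : ℝ) ^ 4 ≤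
      (n : ℝ) ^ 2 * deriv (qq P) θ ^ 2 + deriv (deriv (qq P)) θ ^ 2 := by
    refine hS n (qq P) (arccos b) (arccos a) hn1' hTB hab' hlK ?_
    refine le_trans (mul_le_mul_of_nonneg_right ?_ hVpos.le) hVa
    have := min_le_left ε 0.02
    linarith
  refine ⟨fun θ hθ => ?_, s3e_nd hn1' (min_le_right _ _) hfirst, ?_⟩
  · refine le_trans (mul_le_mul_of_nonneg_right ?_ (by positivity)) (hfirst θ hθ)
    have := min_le_left η 1e-7
    linarith
  · intro hl2 θ hθ
    have hlp : l ≤ π := by linarith [pi_gt_three]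
    have hVM := hVMf.2.1 l hlpos.le hlp
    have hsin : 0.984 * (l / 2) ≤ sin (l / 2) := by
      have h1 := Real.sin_gt_sub_cube (x := l / 2) (by linarith)
      have h2 : (l / 2) ^ 2 ≤ 1 / 16 := by nlinarith
      nlinarith [mul_nonneg hlpos.le (sub_nonneg.2 h2)]
    have h3 : 0.96 * n * (arccos a - arccos b) ≤ Va (qq P) (arccos b) (arccos a) := by
      have h4 : 0.96 * n * (arccos a - arccos b) = 0.96 * l := by rw [hldef]; ring
      rw [h4]
      refine le_trans ?_ hVa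
      have h5 : 0.98 ≤ 1 - e1 := by
        have := min_le_right ε 0.02
        rw [← he1] at this
        norm_num at this ⊢
        linarith
      have h6 : 0.98 * VM l ≤ (1 - e1) * VM l := mul_le_mul_of_nonneg_right h5 hVpos.le
      rw [hVM] at h6 ⊢
      linarith
    obtain ⟨θ1, hθ1, hθ2⟩ := s3_exists hc hab' h3
    exact s3_second hA1 hA2 hn1' hTB hl2 hθ1 hθ2 hθ

end

end Pool.Agent.Helper10.AL
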