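import Pool.Agent.Helper10.AL.St7

/-!
Arc length of polynomials over windows, large degree: piece U5w (no complex critical point over
a nearly perfect chain, two gaps).
-/

set_option autoImplicit false

namespace Pool.Agent.Helper10.AL

open Polynomial Set Real MeasureTheory intervalIntegral
open Pool.Agent.Helper40.AS (arc Bdd Ext quad)

noncomputable section

/-- the complex polynomial belonging to the derivative -/
def u5w_F (n : ℕ) (P : ℝ[X]) : ℂ[X] :=
  C (Complex.I / n) * (X * (Pool.Agent.Helper40.Arc.FF n P).derivative -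
    C (n : ℂ) * Pool.Agent.Helper40.Arc.FF n P)

theorem u5w_G (n : ℕ) (P : ℝ[X]) (hd : P.natDegree ≤ n) (θ : ℝ) :
    (Pool.Agent.Helper40.Arc.FF n P).eval (Complex.exp (θ * Complex.I)) =
      Complex.exp (n * θ * Complex.I) * ((qq P θ : ℝ) : ℂ) :=
  Pool.Agent.Helper40.Arc.FF_eval hd θ

theorem u5w_hd (P : ℝ[X]) (θ : ℝ) : HasDerivAt (qq P) (-(sin θ * P.derivative.eval (cos θ))) θ := by
  have h1 := (P.hasDerivAt (cos θ)).comp θ (hasDerivAt_cos θ)
  refine (h1.congr_deriv ?_)
  ring

theorem u5w_F_real (n : ℕ) (P : ℝ[X]) (hn : 1 ≤ n) (hd : P.natDegree ≤ n) (θ : ℝ) :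
    (u5w_F n P).eval (Complex.exp (θ * Complex.I)) =
      Complex.exp (n * θ * Complex.I) * ((-(sin θ * P.derivative.eval (cos θ)) / n : ℝ) : ℂ) := by
  have hn0 : (0 : ℝ) < n := by exact_mod_cast hn
  have h2 := Pool.Agent.Helper40.Arc.deriv_rel (f' := fun θ => -(sin θ * P.derivative.eval (cos θ)))
    (fun θ => u5w_G n P hd θ) (fun θ => u5w_hd P θ) θ
  rw [u5w_F, eval_mul, eval_C, eval_sub, eval_mul, eval_X, eval_mul, eval_C, h2, u5w_G n P hd]
  have hnc : (n : ℂ) ≠ 0 := by exact_mod_cast hn0.ne'
  push_cast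
  field_simp
  have : Complex.I * Complex.I = -1 := Complex.I_mul_I
  linear_combination (Complex.sin θ * ((P.derivative.eval (cos θ) : ℝ) : ℂ)) * this

theorem u5w_F_cx (n : ℕ) (P : ℝ[X]) (hn : 1 ≤ n) (hd : P.natDegree ≤ n) (w : ℂ) :
    (u5w_F n P).eval (Complex.exp (w * Complex.I)) = Complex.exp (n * w * Complex.I) *
      (-(Complex.sin w * aeval (Complex.cos w) P.derivative) / n) := by
  have hr : ∀ θ : ℝ, (u5w_F n P).eval (Complex.exp (θ * Complex.I)) =
      Complex.exp (n * θ * Complex.I) *
      (-(Complex.sin θ * aeval (Complex.cos θ) P.derivative) / n) := by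
    intro θ
    rw [u5w_F_real n P hn hd θ]
    have h4 : aeval (Complex.cos (θ : ℂ)) P.derivative =
        ((P.derivative.eval (cos θ) : ℝ) : ℂ) := by
      rw [← Complex.ofReal_cos]
      have := Polynomial.aeval_algebraMap_apply ℂ (cos θ) P.derivative
      simpa using this
    rw [h4]
    push_cast
    ring
  have hfa : AnalyticOnNhd ℂ (fun w : ℂ => (u5w_F n P).eval (Complex.exp (w * Complex.I)))
      univ := by
    apply Complex.analyticOnNhd_univ_iff_differentiable.2
    exact (u5w_F n P).differentiable.comp (Complex.differentiable_exp.comp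
      (differentiable_id.mul_const _))
  have hga : AnalyticOnNhd ℂ (fun w : ℂ => Complex.exp (n * w * Complex.I) *
    (-(Complex.sin w * aeval (Complex.cos w) P.derivative) / n)) univ := by
    apply Complex.analyticOnNhd_univ_iff_differentiable.2
    have h5 : Differentiable ℂ (fun w : ℂ => aeval (Complex.cos w) P.derivative) := by
      have h6 : (fun w : ℂ => aeval (Complex.cos w) P.derivative) =
          fun w : ℂ => (P.derivative.map (algebraMap ℝ ℂ)).eval (Complex.cos w) := by
        funext w
        rw [eval_map_algebraMap]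
      rw [h6]
      exact (Polynomial.differentiable _).comp Complex.differentiable_cos
    exact (Complex.differentiable_exp.comp ((differentiable_id.const_mul _).mul_const _)).mul
      (((Complex.differentiable_sin.mul h5).neg).div_const _)
  have heq := hfa.eq_of_frequently_eq (z₀ := (0 : ℂ)) hga (by
    have h7 : Filter.Tendsto (fun k : ℕ => ((1 / ((k : ℝ) + 1) : ℝ) : ℂ)) Filter.atTop
        (nhdsWithin (0 : ℂ) {0}ᶜ) := by
      rw [tendsto_nhdsWithin_iff]
      constructor
      · have := (Complex.continuous_ofReal.tendsto 0).comp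
          (tendsto_one_div_add_atTop_nhds_zero_nat (𝕜 := ℝ))
        rw [Complex.ofReal_zero] at this
        exact this
      · refine Filter.Eventually.of_forall fun k => ?_
        rw [mem_compl_iff, mem_singleton_iff, Complex.ofReal_eq_zero]
        positivity
    exact h7.frequently (Filter.Frequently.of_forall fun k => hr _))
  exact congrFun heq w

theorem u5w_norm_exp (n : ℕ) (θ : ℝ) : ‖Complex.exp (n * θ * Complex.I)‖ = 1 := by
  have : (n : ℂ) * θ * Complex.I = ((n * θ : ℝ) : ℂ) * Complex.I := by push_cast; ring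
  rw [this, Complex.norm_exp_ofReal_mul_I]

/-- symmetric form of the hypothesis -/
theorem u5w_sym (n : ℕ) (P : ℝ[X]) (σ β α ε : ℝ)
    (h : ∀ θ ∈ Icc β α, |qq P θ - σ * cos (n * θ)| ≤ ε ∧
      |deriv (qq P) θ / n + σ * sin (n * θ)| ≤ ε) (θ : ℝ) (h1 : β ≤ |θ|) (h2 : |θ| ≤ α) :
    |qq P θ - σ * cos (n * θ)| ≤ ε ∧
      |-(sin θ * P.derivative.eval (cos θ)) / n + σ * sin (n * θ)| ≤ ε := by
  rcases le_total 0 θ with h0 | h0
  · rw [abs_of_nonneg h0] at h1 h2
    have h3 := h θ ⟨h1, h2⟩
    rw [(u5w_hd P θ).deriv] at h3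
    exact h3
  · rw [abs_of_nonpos h0] at h1 h2
    have h3 := h (-θ) ⟨h1, h2⟩
    rw [(u5w_hd P (-θ)).deriv] at h3
    have e1 : (n : ℝ) * -θ = -(n * θ) := by ring
    rw [e1, cos_neg, sin_neg, cos_neg, sin_neg] at h3
    refine ⟨?_, ?_⟩
    · have h4 := h3.1
      unfold qq at h4 ⊢
      rwa [cos_neg] at h4
    · rw [← abs_neg]
      refine le_trans (le_of_eq ?_) h3.2
      congr 1
      ring

theorem u5w_bs (n : ℕ) (P : ℝ[X]) (hn : 1 ≤ n) (hd : P.natDegree ≤ n) (hb : Bdd P) (θ : ℝ) :
    (-(sin θ * P.derivative.eval (cos θ)) / n) ^ 2 + qq P θ ^ 2 ≤ 1 := by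
  have hn0 : (0 : ℝ) < n := by exact_mod_cast hn
  have hf' : ∀ θ : ℝ, HasDerivAt (fun θ => -(sin θ * P.derivative.eval (cos θ)))
      (sin θ ^ 2 * P.derivative.derivative.eval (cos θ) -
        cos θ * P.derivative.eval (cos θ)) θ := by
    intro θ
    have h1 := (P.derivative.hasDerivAt (cos θ)).comp θ (hasDerivAt_cos θ)
    have h2 := ((hasDerivAt_sin θ).mul h1).neg
    refine (h2.congr_deriv ?_)
    simp only [Function.comp_apply]
    ring
  have hbs := (Pool.Agent.Helper40.Arc.bs_both hn (Pool.Agent.Helper40.Arc.FF_natDegree n P)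
    (fun θ => u5w_G n P hd θ)
    (fun θ => u5w_hd P θ) hf' (fun θ => hb _ ⟨neg_one_le_cos θ, cos_le_one θ⟩) θ).1
  rw [div_pow, div_add' _ _ _ (by positivity), div_le_one (by positivity)]
  linarith

theorem u5w (hA2 : A2) (hPw : Pw) : U5w := by
  intro n P σ β α ε hn hd hb hσ hβ hβα hα hε hgood
  have hn0 : (0 : ℝ) < n := by exact_mod_cast hn
  have hσ1 : |σ| = 1 := by rcases hσ with h | h <;> simp [h]
  refine ⟨?_, ?_⟩
  · intro w hw hroot
    set F1 : ℂ[X] := u5w_F n P + C ((σ : ℂ) / (2 * Complex.I)) * (X ^ (2 * n) - 1) with hF1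
    have hev : ∀ θ : ℝ, F1.eval (Complex.exp (θ * Complex.I)) = Complex.exp (n * θ * Complex.I) *
        ((-(sin θ * P.derivative.eval (cos θ)) / n + σ * sin (n * θ) : ℝ) : ℂ) := by
      intro θ
      rw [hF1, eval_add, u5w_F_real n P hn hd θ, eval_mul, eval_C, eval_sub, eval_pow, eval_X,
        eval_one]
      have h1 : Complex.exp (θ * Complex.I) ^ (2 * n) =
          Complex.exp (n * θ * Complex.I) * Complex.exp (n * θ * Complex.I) := by
        rw [← Complex.exp_nat_mul, ← Complex.exp_add]
        congr 1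
        push_cast
        ring
      have h2 : ((sin (n * θ) : ℝ) : ℂ) = Complex.sin (n * θ) := by
        rw [Complex.ofReal_sin]
        push_cast
        ring_nf
      have h3 : Complex.exp (-((n : ℂ) * θ) * Complex.I) * Complex.exp (n * θ * Complex.I) = 1 := by
        rw [← Complex.exp_add]
        have : -((n : ℂ) * θ) * Complex.I + n * θ * Complex.I = 0 := by ring
        rw [this, Complex.exp_zero]
      have h4 : Complex.exp (n * θ * Complex.I) * Complex.sin (n * θ) =
          (Complex.exp (n * θ * Complex.I) * Complex.exp (n * θ * Complex.I) - 1) /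
            (2 * Complex.I) := by
        rw [Complex.sin, eq_div_iff (by simp)]
        have hI : Complex.I * Complex.I = -1 := Complex.I_mul_I
        linear_combination (Complex.exp (n * θ * Complex.I) *
          (Complex.exp (-((n : ℂ) * θ) * Complex.I) - Complex.exp ((n : ℂ) * θ * Complex.I))) * hI -
          h3
      rw [h1, Complex.ofReal_add, Complex.ofReal_mul, mul_add, h2]
      rw [show Complex.exp (n * θ * Complex.I) * ((σ : ℂ) * Complex.sin (n * θ)) =
        σ * (Complex.exp (n * θ * Complex.I) * Complex.sin (n * θ)) by ring, h4]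
      ring
    have hn1 : ‖Complex.exp (w * Complex.I)‖ = Real.exp (-w.im) := by
      rw [Complex.norm_exp]
      simp
    have h5 := hPw F1 (Complex.exp (w * Complex.I)) β α ε hβ hβα hα hε
      (by
        rw [hn1, Real.exp_lt_one_iff]
        linarith)
      (by
        intro θ
        rw [hev, norm_mul, u5w_norm_exp, one_mul, Complex.norm_real, Real.norm_eq_abs]
        have h6 := u5w_bs n P hn hd hb θ
        have h7 : |-(sin θ * P.derivative.eval (cos θ)) / n| ≤ 1 := by
          refine abs_le_of_sq_le_sq ?_ zero_le_one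
          nlinarith [sq_nonneg (qq P θ)]
        have h8 : |σ * sin (n * θ)| ≤ 1 := by
          rw [abs_mul, hσ1, one_mul]
          exact abs_sin_le_one _
        refine (abs_add_le _ _).trans ?_
        linarith)
      (by
        intro θ h1 h2
        rw [hev, norm_mul, u5w_norm_exp, one_mul, Complex.norm_real, Real.norm_eq_abs]
        exact (u5w_sym n P σ β α ε hgood θ h1 h2).2)
    have h9 : F1.eval (Complex.exp (w * Complex.I)) =
        (σ : ℂ) / (2 * Complex.I) * (Complex.exp (w * Complex.I) ^ (2 * n) - 1) := by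
      rw [hF1, eval_add, u5w_F_cx n P hn hd w, hroot]
      simp
    have h10 : (1 - Real.exp (-(2 * n * w.im))) / 2 ≤ ‖F1.eval (Complex.exp (w * Complex.I))‖ := by
      rw [h9, norm_mul, norm_div, norm_mul, Complex.norm_real, Real.norm_eq_abs, hσ1,
        Complex.norm_I, mul_one, Complex.norm_two]
      have h11 : ‖Complex.exp (w * Complex.I) ^ (2 * n)‖ = Real.exp (-(2 * n * w.im)) := by
        rw [norm_pow, hn1, ← Real.exp_nat_mul]
        congr 1
        push_cast
        ring
      have h12 := norm_sub_norm_le (1 : ℂ) (Complex.exp (w * Complex.I) ^ (2 * n))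
      rw [norm_one, h11, norm_sub_rev] at h12
      linarith
    have h13 : 2 / π * ((∫ θ in (-β)..β, pk (Complex.exp (w * Complex.I)) θ) +
        ∫ θ in α..(2 * π - α), pk (Complex.exp (w * Complex.I)) θ) =
        2 * (1 / π * ((∫ θ in (-β)..β, pk (Complex.exp (w * Complex.I)) θ) +
        ∫ θ in α..(2 * π - α), pk (Complex.exp (w * Complex.I)) θ)) := by ring
    rw [h13]
    linarith
  · intro hdeg
    set F2 : ℂ[X] := Pool.Agent.Helper40.Arc.FF n P + C Complex.I * u5w_F n P - C (σ : ℂ) with hF2
    have hG0 : (Pool.Agent.Helper40.Arc.FF n P).eval 0 = 0 := by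
      rw [Pool.Agent.Helper40.Arc.FF, eval_finsetSum]
      refine Finset.sum_eq_zero fun k hk => ?_
      have hkn : k ≤ n := Nat.lt_succ_iff.1 (Finset.mem_range.1 hk)
      rcases Nat.lt_or_ge k n with h | h
      · rw [eval_mul, eval_mul, eval_pow, eval_X, zero_pow (by omega), zero_mul, mul_zero]
      · have : P.coeff k = 0 := coeff_eq_zero_of_natDegree_lt (by omega)
        rw [this]
        simp
    have hF0 : (u5w_F n P).eval 0 = 0 := by
      rw [u5w_F, eval_mul, eval_sub, eval_mul, eval_X, eval_mul, hG0]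
      simp
    have hev : ∀ θ : ℝ, F2.eval (Complex.exp (θ * Complex.I)) = Complex.exp (n * θ * Complex.I) *
        (((qq P θ : ℝ) : ℂ) +
          Complex.I * ((-(sin θ * P.derivative.eval (cos θ)) / n : ℝ) : ℂ)) - σ := by
      intro θ
      rw [hF2, eval_sub, eval_add, eval_mul, eval_C, eval_C, u5w_G n P hd, u5w_F_real n P hn hd θ]
      ring
    have hev2 : ∀ θ : ℝ, F2.eval (Complex.exp (θ * Complex.I)) = Complex.exp (n * θ * Complex.I) *
        (((qq P θ - σ * cos (n * θ) : ℝ) : ℂ) +
          Complex.I * ((-(sin θ * P.derivative.eval (cos θ)) / n + σ * sin (n * θ) : ℝ) : ℂ)) := by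
      intro θ
      rw [hev]
      have h3 : Complex.exp (-((n : ℂ) * θ) * Complex.I) * Complex.exp (n * θ * Complex.I) = 1 := by
        rw [← Complex.exp_add]
        have : -((n : ℂ) * θ) * Complex.I + n * θ * Complex.I = 0 := by ring
        rw [this, Complex.exp_zero]
      have h4 : Complex.exp (-((n : ℂ) * θ) * Complex.I) =
          ((cos (n * θ) : ℝ) : ℂ) - Complex.I * ((sin (n * θ) : ℝ) : ℂ) := by
        rw [Complex.exp_mul_I, Complex.cos_neg, Complex.sin_neg]
        push_cast
        ring
      rw [h4] at h3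
      push_cast
      push_cast at h3
      linear_combination (σ : ℂ) * h3
    have h5 := hPw F2 0 β α (2 * ε) hβ hβα hα (by linarith) (by simp)
      (by
        intro θ
        rw [hev]
        refine (norm_sub_le _ _).trans ?_
        rw [norm_mul, u5w_norm_exp, one_mul, Complex.norm_real, Real.norm_eq_abs, hσ1]
        have h6 := u5w_bs n P hn hd hb θ
        have h7 : ‖((qq P θ : ℝ) : ℂ) +
          Complex.I * ((-(sin θ * P.derivative.eval (cos θ)) / n : ℝ) : ℂ)‖ ≤ 1 := by
          rw [mul_comm Complex.I, Complex.norm_add_mul_I]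
          rw [Real.sqrt_le_one]
          linarith
        linarith)
      (by
        intro θ h1 h2
        rw [hev2, norm_mul, u5w_norm_exp, one_mul]
        have h3 := u5w_sym n P σ β α ε hgood θ h1 h2
        refine (norm_add_le _ _).trans ?_
        rw [norm_mul, Complex.norm_I, one_mul, Complex.norm_real, Complex.norm_real,
          Real.norm_eq_abs, Real.norm_eq_abs]
        linarith [h3.1, h3.2])
    have h8 : ‖F2.eval 0‖ = 1 := by
      rw [hF2, eval_sub, eval_add, eval_mul, hG0, hF0, eval_C, eval_C]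
      simp [hσ1]
    have h9 : ∀ θ : ℝ, pk 0 θ = 1 := by
      intro θ
      rw [pk, zero_sub, norm_neg, Complex.norm_exp_ofReal_mul_I]
      simp
    rw [h8] at h5
    simp only [h9, intervalIntegral.integral_const, smul_eq_mul, mul_one] at h5
    have h10 : 1 / π * (β - -β + (2 * π - α - α)) = 2 / π * (β + (π - α)) := by ring
    rw [h10] at h5
    exact h5

end

end Pool.Agent.Helper10.AL
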