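import Pool.Agent.Helper10.AL.St

/-!
Project AL, piece VF1: numerical bounds for the oscillation constant.
-/

set_option autoImplicit false

namespace Pool.Agent.Helper10.AL

open Polynomial Set Real MeasureTheory intervalIntegral

noncomputable section

theorem vF1_lo {x a b : ℝ} (ha : 0 ≤ a) (h : a ≤ cos x) (hb : b ≤ 2 * a ^ 2 - 1) :
    b ≤ cos (2 * x) := by
  rw [cos_two_mul]
  nlinarith [h, ha]

theorem vF1_up {x a b : ℝ} (h0 : 0 ≤ cos x) (h : cos x ≤ a) (hb : 2 * a ^ 2 - 1 ≤ b) :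
    cos (2 * x) ≤ b := by
  rw [cos_two_mul]
  nlinarith [h, h0]

theorem vF1_cos_lo : (0.63666 : ℝ) ≤ cos 0.8806 := by
  have h5 : (0.999621359 : ℝ) ≤ cos (0.8806 / 32) :=
    le_trans (by norm_num) (one_sub_sq_div_two_le_cos (x := 0.8806 / 32))
  have h4 : (0.998485722 : ℝ) ≤ cos (2 * (0.8806 / 32)) :=
    vF1_lo (by norm_num) h5 (by norm_num)
  have h3 : (0.993947473 : ℝ) ≤ cos (2 * (2 * (0.8806 / 32))) :=
    vF1_lo (by norm_num) h4 (by norm_num)
  have h2 : (0.975863157 : ℝ) ≤ cos (2 * (2 * (2 * (0.8806 / 32)))) :=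
    vF1_lo (by norm_num) h3 (by norm_num)
  have h1 : (0.9046178 : ℝ) ≤ cos (2 * (2 * (2 * (2 * (0.8806 / 32))))) :=
    vF1_lo (by norm_num) h2 (by norm_num)
  have h0 : (0.63666 : ℝ) ≤ cos (2 * (2 * (2 * (2 * (2 * (0.8806 / 32)))))) :=
    vF1_lo (by norm_num) h1 (by norm_num)
  have e : (2 * (2 * (2 * (2 * (2 * (0.8806 / 32))))) : ℝ) = 0.8806 := by norm_num
  rwa [e] at h0

theorem vF1_pos {x : ℝ} (h0 : 0 ≤ x) (h1 : x ≤ 1) : 0 ≤ cos x :=
  cos_nonneg_of_neg_pi_div_two_le_of_le (by linarith [pi_pos]) (by linarith [pi_gt_three])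

theorem vF1_cos_up : cos 0.881 ≤ (0.63643 : ℝ) := by
  have hb := cos_bound (x := 0.881 / 16) (by rw [abs_of_nonneg] <;> norm_num)
  rw [abs_of_nonneg (by norm_num : (0 : ℝ) ≤ 0.881 / 16)] at hb
  have h4 : cos (0.881 / 16) ≤ (0.99848454 : ℝ) := by
    have := (abs_le.1 hb).2
    norm_num at this ⊢
    linarith
  have h3 : cos (2 * (0.881 / 16)) ≤ (0.993942754 : ℝ) :=
    vF1_up (vF1_pos (by norm_num) (by norm_num)) h4 (by norm_num)
  have h2 : cos (2 * (2 * (0.881 / 16))) ≤ (0.9758444 : ℝ) :=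
    vF1_up (vF1_pos (by norm_num) (by norm_num)) h3 (by norm_num)
  have h1 : cos (2 * (2 * (2 * (0.881 / 16)))) ≤ (0.9045446 : ℝ) :=
    vF1_up (vF1_pos (by norm_num) (by norm_num)) h2 (by norm_num)
  have h0 : cos (2 * (2 * (2 * (2 * (0.881 / 16))))) ≤ (0.63643 : ℝ) :=
    vF1_up (vF1_pos (by norm_num) (by norm_num)) h1 (by norm_num)
  have e : (2 * (2 * (2 * (2 * (0.881 / 16)))) : ℝ) = 0.881 := by norm_num
  rwa [e] at h0

theorem vF1 : VF1 := by
  have p1 : (3.141592 : ℝ) < π := pi_gt_d6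
  have p2 : π < (3.141593 : ℝ) := pi_lt_d6
  have hp : (0 : ℝ) < π := pi_pos
  have i1 : 2 / π ≤ (0.63662 : ℝ) := by
    rw [div_le_iff₀ hp]; nlinarith
  have i2 : (0.636619 : ℝ) ≤ 2 / π := by
    rw [le_div_iff₀ hp]; nlinarith
  have hpi3 : (3 : ℝ) < π := pi_gt_three
  have a1 : (0.8806 : ℝ) ≤ arccos (2 / π) := by
    have h := vF1_cos_lo
    have : arccos (cos 0.8806) ≤ arccos (2 / π) := arccos_le_arccos (by linarith)
    rwa [arccos_cos (by norm_num) (by linarith)] at this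
  have a2 : arccos (2 / π) ≤ (0.881 : ℝ) := by
    have h := vF1_cos_up
    have : arccos (2 / π) ≤ arccos (cos 0.881) := arccos_le_arccos (by linarith)
    rwa [arccos_cos (by norm_num) (by linarith)] at this
  have q : 4 / π = 2 * (2 / π) := by ring
  have q2 : 4 / π ^ 2 = (2 / π) ^ 2 := by
    rw [div_pow]; norm_num
  have s1 : √(1 - 4 / π ^ 2) ≤ (0.771179 : ℝ) := by
    rw [q2, sqrt_le_left (by norm_num)]
    nlinarith
  have s2 : (0.771176 : ℝ) ≤ √(1 - 4 / π ^ 2) := by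
    rw [q2]
    apply le_sqrt_of_sq_le
    nlinarith
  unfold VF1 cs
  rw [q]
  constructor
  · nlinarith
  · nlinarith

end

end Pool.Agent.Helper10.AL
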