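import Pool.Agent.Helper10.AL.St

/-!
The variation of the cosine, piece VF2: oscillation of `VC x - 2 x / π`.
-/

set_option autoImplicit false

namespace Pool.Agent.Helper10.AL

open Polynomial Set Real MeasureTheory intervalIntegral

noncomputable section

theorem vF2_mul_cos_le (t : ℝ) (h0 : 0 ≤ t) (h1 : t ≤ π / 2) : cos t * t ≤ sin t := by
  rcases h0.eq_or_lt with h | h
  · subst h; simp
  rcases h1.eq_or_lt with h' | h'
  · subst h'; simp
  have h2 := Real.lt_tan h h'
  have h3 : 0 < cos t := cos_pos_of_mem_Ioo ⟨by linarith [pi_pos], h'⟩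
  rw [tan_eq_sin_div_cos, lt_div_iff₀ h3] at h2
  linarith

theorem vF2_tangent (α y : ℝ) (hα0 : 0 ≤ α) (hα1 : α ≤ π / 2) (_hy0 : 0 ≤ y) (hy1 : y ≤ π / 2) :
    cos y ≤ cos α - sin α * (y - α) := by
  obtain ⟨t, rfl⟩ : ∃ t, y = α + t := ⟨y - α, by ring⟩
  rw [cos_add]
  have hs : 0 ≤ sin α := sin_nonneg_of_nonneg_of_le_pi hα0 (by linarith [pi_pos])
  have hc : 0 ≤ cos α := cos_nonneg_of_mem_Icc ⟨by linarith [pi_pos], hα1⟩
  have h1 : cos t ≤ 1 := cos_le_one t
  rcases le_total t 0 with ht | ht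
  · have h2 : sin (-t) ≤ -t := sin_le (by linarith)
    rw [sin_neg] at h2
    nlinarith [mul_nonneg hc (sub_nonneg.2 h1), mul_nonneg hs (by linarith : (0 : ℝ) ≤ sin t - t)]
  · have ht1 : t ≤ π / 2 := by linarith
    have h2 : sin t ≤ t := sin_le ht
    have h3 : sin α ≤ cos t := by
      rw [← sin_pi_div_two_sub]
      exact sin_le_sin_of_le_of_le_pi_div_two (by linarith [pi_pos]) (by linarith) (by linarith)
    have h4 : sin t ≤ cos α := by
      rw [← sin_pi_div_two_sub]
      exact sin_le_sin_of_le_of_le_pi_div_two (by linarith [pi_pos]) (by linarith) (by linarith)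
    have h5 := vF2_mul_cos_le t ht ht1
    have h6 : sin α * (t - sin t) ≤ cos t * (t - sin t) :=
      mul_le_mul_of_nonneg_right h3 (by linarith)
    have h7 : sin t * (1 - cos t) ≤ cos α * (1 - cos t) :=
      mul_le_mul_of_nonneg_right h4 (by linarith)
    nlinarith

theorem vF2_low (y : ℝ) (h0 : 0 ≤ y) (h1 : y ≤ π) : 2 / π * y - cs / 2 ≤ 1 - cos y := by
  have hpi := pi_pos
  have ha0 : 0 < 2 / π := by positivity
  have ha1 : 2 / π < 1 := by
    rw [div_lt_one hpi]
    linarith [pi_gt_three]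
  have hap : 2 / π * (π / 2) = 1 := by field_simp
  set α : ℝ := arcsin (2 / π) with hα
  have hsin : sin α = 2 / π := sin_arcsin (by linarith) ha1.le
  have hcos : cos α = √(1 - 4 / π ^ 2) := by
    rw [hα, cos_arcsin, div_pow]
    norm_num
  have hα0 : 0 ≤ α := arcsin_nonneg.2 ha0.le
  have hα1 : α ≤ π / 2 := arcsin_le_pi_div_two _
  have hcs : cs / 2 = cos α - 1 + 2 / π * α := by
    rw [cs, arccos, ← hα, hcos]
    have : 4 / π * (π / 2 - α) = 2 * (2 / π * (π / 2)) - 2 * (2 / π * α) := by ring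
    rw [this, hap]
    ring
  have hcs0 : 0 ≤ cs / 2 := by
    have h := vF2_tangent α 0 hα0 hα1 le_rfl (by linarith)
    rw [cos_zero, hsin] at h
    rw [hcs]
    linarith
  rcases le_total y (π / 2) with h | h
  · have h2 := vF2_tangent α y hα0 hα1 h0 h
    rw [hsin] at h2
    rw [hcs]
    linarith
  · have h2 := mul_le_sin (x := y - π / 2) (by linarith) (by linarith)
    rw [sin_sub_pi_div_two] at h2
    have h3 : 2 / π * (y - π / 2) = 2 / π * y - 1 := by rw [mul_sub, hap]
    linarith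

theorem vF2_unit (y : ℝ) (h0 : 0 ≤ y) (h1 : y ≤ π) :
    1 - cos y ≤ 2 / π * y + cs / 2 ∧ 2 / π * y - cs / 2 ≤ 1 - cos y := by
  refine ⟨?_, vF2_low y h0 h1⟩
  have h2 := vF2_low (π - y) (by linarith) (by linarith)
  rw [cos_pi_sub] at h2
  have hap : 2 / π * π = 2 := by
    have := pi_pos
    field_simp
  have h3 : 2 / π * (π - y) = 2 - 2 / π * y := by rw [mul_sub, hap]
  linarith

theorem vF2 (hVF6 : VF6) : VF2 := by
  obtain ⟨_, hper, _, hone, _⟩ := hVF6
  have hpi := pi_pos
  have hap : 2 / π * π = 2 := by field_simp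
  have key : ∀ (k : ℕ) (y : ℝ), 0 ≤ y → y ≤ π →
      VC (y + k * π) ≤ 2 / π * (y + k * π) + cs / 2 ∧
        2 / π * (y + k * π) - cs / 2 ≤ VC (y + k * π) := by
    intro k
    induction k with
    | zero =>
      intro y h0 h1
      have h := vF2_unit y h0 h1
      simp only [Nat.cast_zero, zero_mul, add_zero]
      rw [hone y h0 h1]
      exact h
    | succ k ih =>
      intro y h0 h1
      have h := ih y h0 h1
      have e : y + ((k + 1 : ℕ) : ℝ) * π = (y + k * π) + π := by push_cast; ring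
      rw [e, hper, mul_add, hap]
      constructor <;> linarith [h.1, h.2]
  intro x hx
  have hk0 : 0 ≤ x / π := by positivity
  have h1 := Nat.floor_le hk0
  have h2 := Nat.lt_floor_add_one (x / π)
  have h3 : (⌊x / π⌋₊ : ℝ) * π ≤ x := by rwa [le_div_iff₀ hpi] at h1
  have h4 : x < ((⌊x / π⌋₊ : ℝ) + 1) * π := by rwa [div_lt_iff₀ hpi] at h2
  have h5 := key ⌊x / π⌋₊ (x - ⌊x / π⌋₊ * π) (by linarith) (by linarith)
  rwa [sub_add_cancel] at h5

end

end Pool.Agent.Helper10.AL
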