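import Pool.Agent.Helper10.AL.St

/-!
Project AL, piece VF3.
-/

set_option autoImplicit false

namespace Pool.Agent.Helper10.AL

open Polynomial Set Real MeasureTheory intervalIntegral

noncomputable section

theorem vF3_shift (h : ∀ x, VC (x + π) = VC x + 2) (x : ℝ) (k : ℕ) :
    VC (x + k * π) = VC x + 2 * k := by
  induction k with
  | zero => simp
  | succ k ih =>
    have e : x + ((k + 1 : ℕ) : ℝ) * π = (x + k * π) + π := by push_cast; ring
    rw [e, h, ih]
    push_cast
    ring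

theorem vF3_all (hVF2 : VF2) (h : ∀ x, VC (x + π) = VC x + 2) (x : ℝ) :
    VC x ≤ 2 / π * x + cs / 2 ∧ 2 / π * x - cs / 2 ≤ VC x := by
  obtain ⟨k, hk⟩ := exists_nat_ge (-x / π)
  have hp : (0 : ℝ) < π := pi_pos
  have h0 : 0 ≤ x + k * π := by
    have := (div_le_iff₀ hp).1 hk
    linarith
  obtain ⟨h1, h2⟩ := hVF2 _ h0
  rw [vF3_shift h] at h1 h2
  have e : 2 / π * (x + k * π) = 2 / π * x + 2 * k := by
    field_simp
  rw [e] at h1 h2
  constructor <;> linarith

theorem vF3 (hVF2 : VF2) (hVF6 : VF6) : VF3 := by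
  intro y l hl
  obtain ⟨-, h2, -, -, h5⟩ := hVF6
  rw [h5]
  have h6 := (vF3_all hVF2 h2 (y + l)).2
  have h7 := (vF3_all hVF2 h2 y).1
  have e : 2 / π * (y + l) = 2 / π * y + 2 / π * l := by ring
  rw [e] at h6
  linarith

end

end Pool.Agent.Helper10.AL
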