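import Pool.Agent.Helper10.AL.St

/-! Project AL, piece VF4: variation of the cosine over short windows. -/

set_option autoImplicit false

namespace Pool.Agent.Helper10.AL

open Polynomial Set Real MeasureTheory intervalIntegral

/-- the window starts in `[0, π)` -/
private theorem vF4_aux (h : VF6) {l y : ℝ} (h0 : 0 ≤ l) (hl : l ≤ π) (hy : 0 ≤ y) (hyp : y < π) :
    2 * (1 - cos (l / 2)) ≤ VC (y + l) - VC y := by
  obtain ⟨-, hper, -, hval, -⟩ := h
  have hcl : 0 ≤ cos (l / 2) := cos_nonneg_of_mem_Icc ⟨by linarith [pi_pos], by linarith⟩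
  have hcl1 : cos (l / 2) ≤ 1 := cos_le_one _
  have e0 : (y + l / 2) - l / 2 = y := by ring
  have e1 : (y + l / 2) + l / 2 = y + l := by ring
  rcases le_or_gt (y + l) π with hc | hc
  · rw [hval (y + l) (by linarith) hc, hval y hy hyp.le]
    have h1 : cos y - cos (y + l) = 2 * sin (y + l / 2) * sin (l / 2) := by
      have key : cos ((y + l / 2) - l / 2) - cos ((y + l / 2) + l / 2) =
          2 * sin (y + l / 2) * sin (l / 2) := by
        rw [cos_sub (y + l / 2) (l / 2), cos_add (y + l / 2) (l / 2)]
        ring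
      rwa [e0, e1] at key
    have h2 : sin (l / 2) ≤ sin (y + l / 2) := by
      have h3 : sin (y + l / 2) - sin (l / 2) = 2 * sin (y / 2) * cos ((y + l) / 2) := by
        rw [sin_sub_sin]
        congr 2 <;> ring_nf
      have h4 : 0 ≤ sin (y / 2) := sin_nonneg_of_nonneg_of_le_pi (by linarith) (by linarith)
      have h5 : 0 ≤ cos ((y + l) / 2) :=
        cos_nonneg_of_mem_Icc ⟨by linarith [pi_pos], by linarith⟩
      have h6 : 0 ≤ 2 * sin (y / 2) * cos ((y + l) / 2) := by positivity
      linarith
    have h7 : 0 ≤ sin (l / 2) := sin_nonneg_of_nonneg_of_le_pi (by linarith) (by linarith)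
    have h8 : sin (l / 2) ^ 2 = 1 - cos (l / 2) ^ 2 := by
      have := sin_sq_add_cos_sq (l / 2)
      linarith
    have h9 : sin (l / 2) * sin (l / 2) ≤ sin (y + l / 2) * sin (l / 2) :=
      mul_le_mul_of_nonneg_right h2 h7
    nlinarith
  · have h1 : VC (y + l) = 3 + cos (y + l) := by
      have h2 := hper (y + l - π)
      rw [sub_add_cancel] at h2
      rw [h2, hval (y + l - π) (by linarith) (by linarith), cos_sub_pi]
      ring
    rw [h1, hval y hy hyp.le]
    have h3 : cos y + cos (y + l) = 2 * cos (y + l / 2) * cos (l / 2) := by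
      have key : cos ((y + l / 2) - l / 2) + cos ((y + l / 2) + l / 2) =
          2 * cos (y + l / 2) * cos (l / 2) := by
        rw [cos_sub (y + l / 2) (l / 2), cos_add (y + l / 2) (l / 2)]
        ring
      rwa [e0, e1] at key
    have h4 : -1 ≤ cos (y + l / 2) := neg_one_le_cos _
    nlinarith

theorem vF4 (hVF6 : VF6) : VF4 := by
  intro y l
  have hint := hVF6.2.2.2.2
  have hper := hVF6.2.1
  constructor
  · intro h0 hl
    rw [hint]
    have hp : Function.Periodic (fun y => VC (y + l) - VC y) π := by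
      intro x
      show VC (x + π + l) - VC (x + π) = VC (x + l) - VC x
      rw [show x + π + l = (x + l) + π by ring, hper, hper]
      ring
    obtain ⟨z, hz, hzy⟩ := hp.exists_mem_Ico₀ pi_pos y
    have hzy' : VC (y + l) - VC y = VC (z + l) - VC z := hzy
    rw [hzy']
    exact vF4_aux hVF6 h0 hl hz.1 hz.2
  · rw [hint, hper]
    ring

end Pool.Agent.Helper10.AL
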