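import Pool.Agent.Helper10.AL.St

/-!
Arc length of polynomials over compact windows, large degree: piece VF5 (the function `Wt`).
-/

set_option autoImplicit false

namespace Pool.Agent.Helper10.AL

open Polynomial Set Real MeasureTheory intervalIntegral

/-- the quadratic estimate for short intervals -/
theorem vF5_short {N l : ℝ} (hN : 4 ≤ N) (hl : 0 ≤ l) (hl' : l ≤ π) :
    l / N ≤ 2 * (1 - cos (l / 2)) + 2 / N ^ 2 := by
  have hN0 : 0 < N := by linarith
  have h1 : 2 * (1 - cos (l / 2)) = 4 * sin (l / 4) ^ 2 := by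
    have h2 : l / 2 = 2 * (l / 4) := by ring
    rw [h2, cos_two_mul, cos_sq']
    ring
  rw [h1]
  have hs : 0.845 * (l / 4) ≤ sin (l / 4) := by
    rcases hl.eq_or_lt with h0 | h0
    · rw [← h0]; simp
    · have hpi : π < 3.1416 := pi_lt_d4
      have hx0 : 0 < l / 4 := by positivity
      have hx1 : l / 4 ≤ 0.7854 := by linarith
      have h3 := sin_gt_sub_cube hx0
      have h4 : (l / 4) ^ 2 ≤ 0.7854 ^ 2 := by
        apply pow_le_pow_left₀ hx0.le hx1
      have h5 : (l / 4) ^ 3 ≤ 0.7854 ^ 2 * (l / 4) := by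
        have : (l / 4) ^ 3 = (l / 4) ^ 2 * (l / 4) := by ring
        rw [this]
        exact mul_le_mul_of_nonneg_right h4 hx0.le
      norm_num at h5
      norm_num
      nlinarith
  have hs2 : (0.845 * (l / 4)) ^ 2 ≤ sin (l / 4) ^ 2 :=
    pow_le_pow_left₀ (by positivity) hs 2
  have h6 : l / N ≤ 0.178 * l ^ 2 + 2 / N ^ 2 := by
    have h7 : 0.178 * l ^ 2 + 2 / N ^ 2 - l / N = 0.178 * (l - 1 / (0.356 * N)) ^ 2
        + (2 - 1 / 0.712) / N ^ 2 := by
      field_simp
      ring
    have h8 : (0 : ℝ) ≤ 0.178 * (l - 1 / (0.356 * N)) ^ 2 + (2 - 1 / 0.712) / N ^ 2 := by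
      have : (0 : ℝ) ≤ 2 - 1 / 0.712 := by norm_num
      positivity
    linarith
  have h9 : 0.178 * l ^ 2 ≤ 4 * (0.845 * (l / 4)) ^ 2 := by
    have : (4 : ℝ) * (0.845 * (l / 4)) ^ 2 = 0.17850625 * l ^ 2 := by ring
    rw [this]
    nlinarith [sq_nonneg l]
  linarith

theorem vF5 (hVF1 : VF1) (hVF3 : VF3) (hVF4 : VF4) (hVF6 : VF6) : VF5 := by
  intro n y l hn hl
  obtain ⟨-, h62, -, -, h65⟩ := hVF6
  have hN : (4 : ℝ) ≤ n := by exact_mod_cast hn
  have hN0 : (0 : ℝ) < n := by linarith
  have hpi3 : 3 < π := pi_gt_three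
  have hpi4 : π < 3.1416 := pi_lt_d4
  have hpi0 : 0 < π := pi_pos
  have h2n : (0 : ℝ) ≤ 2 / (n : ℝ) ^ 2 := by positivity
  unfold Wt
  split_ifs with hlp
  · constructor
    · have := (hVF4 y l).1 hl hlp
      linarith
    · have h1 : 2 / π * (π / 2 - l / 2) ≤ sin (π / 2 - l / 2) :=
        mul_le_sin (by linarith) (by linarith)
      rw [sin_pi_div_two_sub] at h1
      have h2 : 2 / π * (π / 2 - l / 2) = 1 - l / π := by field_simp
      have h3 : 2 / π * l = 2 * (l / π) := by ring
      rw [h3]
      linarith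
  · rw [not_le] at hlp
    have hsplit : (∫ s in y..(y + l), |sin s|) =
        2 + ∫ s in (y + π)..((y + π) + (l - π)), |sin s| := by
      rw [h65, h65, h62]
      have : y + π + (l - π) = y + l := by ring
      rw [this]
      ring
    constructor
    · rw [hsplit]
      rcases le_or_gt (l - π) π with h | h
      · have h1 := (hVF4 (y + π) (l - π)).1 (by linarith) h
        have h2 := vF5_short hN (l := l - π) (by linarith) h
        linarith
      · have h1 := hVF3 (y + π) (l - π) (by linarith)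
        have h2 := hVF1.2
        have h3 : (l - π) / n ≤ (l - π) / 4 := by
          apply div_le_div_of_nonneg_left (by linarith) (by norm_num) hN
        have h4 : (0.6366 : ℝ) ≤ 2 / π := by
          rw [le_div_iff₀ hpi0]
          nlinarith
        have h5 : 0.6366 * (l - π) ≤ 2 / π * (l - π) :=
          mul_le_mul_of_nonneg_right h4 (by linarith)
        linarith
    · have h1 : 2 / π * l = 2 + 2 / π * (l - π) := by field_simp; ring
      rw [h1]
      have h3 : (l - π) / n ≤ (l - π) / 4 := by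
        apply div_le_div_of_nonneg_left (by linarith) (by norm_num) hN
      have h4 : (0.6366 : ℝ) ≤ 2 / π := by
        rw [le_div_iff₀ hpi0]
        nlinarith
      have h5 : 0.6366 * (l - π) ≤ 2 / π * (l - π) :=
        mul_le_mul_of_nonneg_right h4 (by linarith)
      linarith

end Pool.Agent.Helper10.AL
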