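import Pool.Agent.Helper10.AL.St

/-!
Project AL, piece VF6: elementary facts on the total variation of the cosine.
-/

set_option autoImplicit false

namespace Pool.Agent.Helper10.AL

open Polynomial Set Real MeasureTheory intervalIntegral

noncomputable section

theorem vF6_cont : Continuous fun s : ℝ => |sin s| := continuous_sin.abs

theorem vF6_int (u v : ℝ) : IntervalIntegrable (fun s : ℝ => |sin s|) volume u v :=
  vF6_cont.intervalIntegrable u v

theorem vF6_sub (u v : ℝ) : VC v - VC u = ∫ s in u..v, |sin s| := by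
  unfold VC
  exact intervalIntegral.integral_interval_sub_left (vF6_int 0 v) (vF6_int 0 u)

theorem vF6_pos {x : ℝ} (h0 : 0 ≤ x) (hx : x ≤ π) : VC x = 1 - cos x := by
  unfold VC
  have h : ∫ s in (0 : ℝ)..x, |sin s| = ∫ s in (0 : ℝ)..x, sin s := by
    refine intervalIntegral.integral_congr fun s hs => ?_
    rw [uIcc_of_le h0] at hs
    exact abs_of_nonneg (sin_nonneg_of_nonneg_of_le_pi hs.1 (hs.2.trans hx))
  rw [h, integral_sin, cos_zero]

theorem vF6_mono : Monotone VC := by
  intro u v huv
  have h := vF6_sub u v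
  have h2 : 0 ≤ ∫ s in u..v, |sin s| :=
    intervalIntegral.integral_nonneg huv fun s _ => abs_nonneg _
  linarith

theorem vF6_per : Function.Periodic (fun s : ℝ => |sin s|) π := by
  intro s
  simp only [sin_add_pi, abs_neg]

theorem vF6 : VF6 := by
  refine ⟨vF6_mono, ?_, ?_, fun x h0 hx => vF6_pos h0 hx, ?_⟩
  · intro x
    have h1 := vF6_sub x (x + π)
    have h2 : ∫ s in x..(x + π), |sin s| = ∫ s in (0 : ℝ)..(0 + π), |sin s| :=
      vF6_per.intervalIntegral_add_eq x 0
    have h3 : ∫ s in (0 : ℝ)..(0 + π), |sin s| = 2 := by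
      have h4 := vF6_pos (x := π) pi_pos.le le_rfl
      unfold VC at h4
      rw [zero_add, h4, cos_pi]
      norm_num
    linarith
  · intro x y
    rw [vF6_sub y x]
    have h := intervalIntegral.norm_integral_le_of_norm_le_const (a := y) (b := x)
      (f := fun s : ℝ => |sin s|) (C := 1) (fun s _ => by
        rw [Real.norm_eq_abs, abs_abs]
        exact abs_sin_le_one s)
    rw [Real.norm_eq_abs, one_mul] at h
    exact h
  · intro y l
    rw [vF6_sub y (y + l)]

end

end Pool.Agent.Helper10.AL
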