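import Pool.Agent.Helper10.AL.St4

/-!
Project AL, piece VMf.
-/

set_option autoImplicit false

namespace Pool.Agent.Helper10.AL

open Polynomial Set Real MeasureTheory intervalIntegral

noncomputable section

theorem vMf_shift (h : ∀ x, VC (x + π) = VC x + 2) (x : ℝ) (k : ℕ) :
    VC (x + k * π) = VC x + 2 * k := by
  induction k with
  | zero => simp
  | succ k ih =>
    have e : x + ((k + 1 : ℕ) : ℝ) * π = (x + k * π) + π := by push_cast; ring
    rw [e, h, ih]
    push_cast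
    ring

theorem vMf_shift_int (h : ∀ x, VC (x + π) = VC x + 2) (x : ℝ) (k : ℤ) :
    VC (x + k * π) = VC x + 2 * k := by
  rcases Int.eq_nat_or_neg k with ⟨n, rfl | rfl⟩
  · push_cast
    exact vMf_shift h x n
  · have h1 := vMf_shift h (x + ((-(n : ℤ) : ℤ) : ℝ) * π) n
    have e : x + ((-(n : ℤ) : ℤ) : ℝ) * π + n * π = x := by push_cast; ring
    rw [e] at h1
    push_cast at h1 ⊢
    linarith

theorem vMf_neg (x : ℝ) : VC (-x) = -VC x := by
  have h : (fun s : ℝ => |sin s|) = fun s : ℝ => |sin (-s)| := by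
    funext s
    rw [sin_neg, abs_neg]
  rw [VC, VC, h, integral_comp_neg (fun s => |sin s|), neg_zero, integral_symm]
  congr 1
  rw [neg_neg]
  have h2 : (fun s : ℝ => |sin (-s)|) = fun s : ℝ => |sin s| := h.symm
  rw [h2]

/-- the variation over a window of length `2 t ≤ π` -/
theorem vMf_short (h2 : ∀ x, VC (x + π) = VC x + 2)
    (h4 : ∀ x, 0 ≤ x → x ≤ π → VC x = 1 - cos x) (y t : ℝ) (ht : 0 ≤ t) (ht2 : t ≤ π / 2) :
    VC (y + 2 * t) - VC y ≤ 2 * sin t := by
  have hp : (0 : ℝ) < π := pi_pos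
  -- reduce to `0 ≤ y < π`
  have key : ∀ y : ℝ, 0 ≤ y → y < π → VC (y + 2 * t) - VC y ≤ 2 * sin t := by
    intro y hy hy2
    rw [h4 y hy hy2.le]
    have hc : 0 ≤ cos t := cos_nonneg_of_mem_Icc ⟨by linarith, ht2⟩
    have hs : 0 ≤ sin t := sin_nonneg_of_nonneg_of_le_pi ht (by linarith)
    by_cases h5 : y + 2 * t ≤ π
    · rw [h4 _ (by linarith) h5]
      have e : 1 - cos (y + 2 * t) - (1 - cos y) = 2 * (sin (y + t) * sin t) := by
        have e1 : cos y = cos ((y + t) - t) := by congr 1; ring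
        have e2 : cos (y + 2 * t) = cos ((y + t) + t) := by congr 1; ring
        rw [e1, e2, cos_add, cos_sub]
        ring
      rw [e]
      have h6 : sin (y + t) * sin t ≤ 1 * sin t := mul_le_mul_of_nonneg_right (sin_le_one _) hs
      linarith
    · push Not at h5
      have e0 : y + 2 * t = (y + 2 * t - π) + π := by ring
      rw [e0, h2, h4 _ (by linarith) (by linarith), cos_sub_pi]
      have e : 1 - -cos (y + 2 * t) + 2 - (1 - cos y) = 2 + 2 * (cos (y + t) * cos t) := by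
        have e1 : cos y = cos ((y + t) - t) := by congr 1; ring
        have e2 : cos (y + 2 * t) = cos ((y + t) + t) := by congr 1; ring
        rw [e1, e2, cos_add, cos_sub]
        ring
      rw [e]
      have h7 : cos (y + t) ≤ -cos t := by
        -- `|y + t - π| < t`
        have e3 : cos (y + t) = -cos (y + t - π) := by rw [cos_sub_pi, neg_neg]
        rw [e3]
        have h8 : cos t ≤ cos |y + t - π| := by
          refine cos_le_cos_of_nonneg_of_le_pi (abs_nonneg _) (by linarith) ?_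
          rw [abs_le]
          constructor <;> linarith
        rw [cos_abs] at h8
        linarith
      have h9 : cos (y + t) * cos t ≤ -cos t * cos t := mul_le_mul_of_nonneg_right h7 hc
      have h10 := sin_sq_add_cos_sq t
      have h11 : sin t ≤ 1 := sin_le_one t
      nlinarith
  have h6 := key (y - ⌊y / π⌋ * π) ?_ ?_
  · have e : y = (y - ⌊y / π⌋ * π) + ⌊y / π⌋ * π := by ring
    have e2 : y + 2 * t = (y - ⌊y / π⌋ * π + 2 * t) + ⌊y / π⌋ * π := by ring
    have h7 : VC (y + 2 * t) = VC (y - ⌊y / π⌋ * π + 2 * t) + 2 * ⌊y / π⌋ := by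
      conv_lhs => rw [e2]
      exact vMf_shift_int h2 _ _
    have h8 : VC y = VC (y - ⌊y / π⌋ * π) + 2 * ⌊y / π⌋ := by
      conv_lhs => rw [e]
      exact vMf_shift_int h2 _ _
    rw [h7, h8]
    linarith
  · have := Int.floor_le (y / π)
    have h7 : (⌊y / π⌋ : ℝ) * π ≤ y / π * π := mul_le_mul_of_nonneg_right this hp.le
    rw [div_mul_cancel₀ _ hp.ne'] at h7
    linarith
  · have := Int.lt_floor_add_one (y / π)
    have h7 : y / π * π < (⌊y / π⌋ + 1) * π := mul_lt_mul_of_pos_right this hp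
    rw [div_mul_cancel₀ _ hp.ne'] at h7
    linarith

theorem vMf_floor (l : ℝ) (hl : 0 ≤ l) :
    0 ≤ (l - ⌊l / π⌋₊ * π) / 2 ∧ (l - ⌊l / π⌋₊ * π) / 2 < π / 2 := by
  have hp : (0 : ℝ) < π := pi_pos
  have h1 := Nat.floor_le (div_nonneg hl hp.le)
  have h2 := Nat.lt_floor_add_one (l / π)
  have h3 : (⌊l / π⌋₊ : ℝ) * π ≤ l / π * π := mul_le_mul_of_nonneg_right h1 hp.le
  have h4 : l / π * π < (⌊l / π⌋₊ + 1) * π := mul_lt_mul_of_pos_right h2 hp
  rw [div_mul_cancel₀ _ hp.ne'] at h3 h4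
  constructor <;> linarith

theorem vMf_max (h2 : ∀ x, VC (x + π) = VC x + 2)
    (h4 : ∀ x, 0 ≤ x → x ≤ π → VC x = 1 - cos x) (y l : ℝ) (hl : 0 ≤ l) :
    VC (y + l) - VC y ≤ VM l := by
  obtain ⟨h5, h6⟩ := vMf_floor l hl
  have h7 := vMf_short h2 h4 y _ h5 h6.le
  have e : y + l = (y + 2 * ((l - ⌊l / π⌋₊ * π) / 2)) + ⌊l / π⌋₊ * π := by ring
  rw [e, vMf_shift h2, VM]
  linarith

theorem vMf_half (h4 : ∀ x, 0 ≤ x → x ≤ π → VC x = 1 - cos x) (t : ℝ) (ht : 0 ≤ t)
    (ht2 : t ≤ π / 2) : VC (π / 2 + t) = 1 + sin t ∧ VC (π / 2 - t) = 1 - sin t := by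
  constructor
  · rw [h4 _ (by linarith [pi_pos]) (by linarith), add_comm (π / 2) t, cos_add_pi_div_two]
    ring
  · rw [h4 _ (by linarith) (by linarith), cos_pi_div_two_sub]

theorem vMf_eq (h2 : ∀ x, VC (x + π) = VC x + 2)
    (h4 : ∀ x, 0 ≤ x → x ≤ π → VC x = 1 - cos x) (l : ℝ) (hl : 0 ≤ l) :
    VM l = max (VC (l / 2) - VC (-l / 2)) (VC (π / 2 + l / 2) - VC (π / 2 - l / 2)) := by
  obtain ⟨h5, h6⟩ := vMf_floor l hl
  obtain ⟨h7, h8⟩ := vMf_half h4 _ h5 h6.le
  apply le_antisymm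
  · rcases Nat.even_or_odd' ⌊l / π⌋₊ with ⟨M, hM | hM⟩
    · refine le_trans ?_ (le_max_right _ _)
      have e1 : π / 2 + l / 2 = (π / 2 + (l - ⌊l / π⌋₊ * π) / 2) + M * π := by
        rw [hM]; push_cast; ring
      have e2 : π / 2 - (l - ⌊l / π⌋₊ * π) / 2 = (π / 2 - l / 2) + M * π := by
        rw [hM]; push_cast; ring
      rw [e2, vMf_shift h2] at h8
      rw [e1, vMf_shift h2, h7, VM, hM]
      rw [hM] at h8
      push_cast at h8 ⊢
      linarith
    · refine le_trans ?_ (le_max_left _ _)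
      have e1 : l / 2 = (π / 2 + (l - ⌊l / π⌋₊ * π) / 2) + M * π := by
        rw [hM]; push_cast; ring
      have e2 : π / 2 - (l - ⌊l / π⌋₊ * π) / 2 = (-l / 2) + (M + 1 : ℕ) * π := by
        rw [hM]; push_cast; ring
      rw [e2, vMf_shift h2] at h8
      have e3 : VC (l / 2) = 1 + sin ((l - ⌊l / π⌋₊ * π) / 2) + 2 * M := by
        conv_lhs => rw [e1]
        rw [vMf_shift h2, h7]
      rw [e3, VM, hM]
      rw [hM] at h8
      push_cast at h8 ⊢
      linarith
  · refine max_le ?_ ?_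
    · have h9 := vMf_max h2 h4 (-l / 2) l hl
      have e : -l / 2 + l = l / 2 := by ring
      rw [e] at h9
      exact h9
    · have h9 := vMf_max h2 h4 (π / 2 - l / 2) l hl
      have e : π / 2 - l / 2 + l = π / 2 + l / 2 := by ring
      rw [e] at h9
      exact h9

theorem vMf_cos (h5 : ∀ y l, ∫ s in y..(y + l), |sin s| = VC (y + l) - VC y) (x : ℝ) :
    (∫ s in (0 : ℝ)..x, |cos s|) = VC (π / 2 + x) - VC (π / 2) := by
  have h : (fun s : ℝ => |cos s|) = fun s : ℝ => |sin (s + π / 2)| := by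
    funext s
    rw [sin_add_pi_div_two]
  rw [h, integral_comp_add_right (fun s => |sin s|), zero_add, add_comm x, h5]

theorem vMf (_hVF4 : VF4) (hVF6 : VF6) : VMf := by
  obtain ⟨-, h2, h3, h4, h5⟩ := hVF6
  have hp : (0 : ℝ) < π := pi_pos
  have hcont : Continuous VC := by
    have : LipschitzWith 1 VC := LipschitzWith.of_dist_le_mul fun x y => by
      rw [Real.dist_eq, Real.dist_eq, NNReal.coe_one, one_mul]
      exact h3 x y
    exact this.continuous
  refine ⟨?_, ?_, ?_, ?_, ?_⟩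
  · intro l hl
    obtain ⟨h6, h7⟩ := vMf_floor l hl
    refine ⟨?_, ?_, ?_⟩
    · have h8 := mul_le_sin h6 h7.le
      rw [VM]
      have e : 2 / π * l = 2 * ⌊l / π⌋₊ + 2 * (2 / π * ((l - ⌊l / π⌋₊ * π) / 2)) := by
        field_simp
        ring
      rw [e]
      linarith
    · have h8 := sin_le h6
      rw [VM]
      have h9 : (2 : ℝ) ≤ π := by linarith [pi_gt_three]
      have h10 : (⌊l / π⌋₊ : ℝ) * 2 ≤ ⌊l / π⌋₊ * π :=
        mul_le_mul_of_nonneg_left h9 (Nat.cast_nonneg _)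
      linarith
    · intro y
      rw [h5]
      exact vMf_max h2 h4 y l hl
  · intro l hl hl2
    rcases hl2.lt_or_eq with h6 | h6
    · have h7 : ⌊l / π⌋₊ = 0 := by
        rw [Nat.floor_eq_zero, div_lt_one hp]
        exact h6
      rw [VM, h7]
      simp
    · rw [VM, h6, div_self hp.ne']
      simp
  · have h6 : Continuous fun l : ℝ =>
        max (VC (l / 2) - VC (-l / 2)) (VC (π / 2 + l / 2) - VC (π / 2 - l / 2)) := by
      refine Continuous.max ?_ ?_
      · exact (hcont.comp (by fun_prop)).sub (hcont.comp (by fun_prop))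
      · exact (hcont.comp (by fun_prop)).sub (hcont.comp (by fun_prop))
    exact h6.continuousOn.congr fun l hl => vMf_eq h2 h4 l hl
  · intro x y hx hy
    have h6 := vMf_max h2 h4 (-x) (x + y) (by linarith)
    have e : -x + (x + y) = y := by ring
    rw [e, vMf_neg] at h6
    linarith
  · intro l hl
    obtain ⟨h6, h7⟩ := vMf_floor l hl
    obtain ⟨h8, -⟩ := vMf_half h4 _ h6 h7.le
    have h9 : VC (π / 2) = 1 := by
      rw [h4 _ (by linarith) (by linarith), cos_pi_div_two, sub_zero]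
    refine ⟨(l - ⌊l / π⌋₊ * π) / 2, ⌊l / π⌋₊ * π + (l - ⌊l / π⌋₊ * π) / 2, h6, by positivity,
      by ring, ?_⟩
    rw [vMf_cos h5, vMf_cos h5, h8, h9]
    have e : π / 2 + (⌊l / π⌋₊ * π + (l - ⌊l / π⌋₊ * π) / 2) =
        (π / 2 + (l - ⌊l / π⌋₊ * π) / 2) + ⌊l / π⌋₊ * π := by ring
    rw [e, vMf_shift h2, h8, VM]
    ring

end

end Pool.Agent.Helper10.AL
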