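import Pool.Agent.Helper10.AL.St5

/-!
Existence of extremal polynomials and their symmetries.
-/

set_option autoImplicit false

namespace Pool.Agent.Helper10.AL

open Polynomial Set Real MeasureTheory intervalIntegral
open Pool.Agent.Helper40.AS (arc Bdd Ext ext_refl)

noncomputable section

/-- the nodes used for the interpolation -/
def x0_node (n : ℕ) (i : Fin (n + 1)) : ℝ := (i : ℝ) / ((n : ℝ) + 1)

theorem x0_node_mem (n : ℕ) (i : Fin (n + 1)) : x0_node n i ∈ Icc (-1 : ℝ) 1 := by
  have h0 : (0 : ℝ) < (n : ℝ) + 1 := by positivity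
  have hi : ((i : ℕ) : ℝ) ≤ (n : ℝ) := by
    have := i.isLt
    exact_mod_cast Nat.lt_succ_iff.mp this
  have h1 : (0 : ℝ) ≤ x0_node n i := by unfold x0_node; positivity
  have h2 : x0_node n i ≤ 1 := by
    unfold x0_node
    rw [div_le_one h0]
    linarith
  exact ⟨by linarith, h2⟩

theorem x0_node_inj (n : ℕ) : Function.Injective (x0_node n) := by
  intro i j h
  have h0 : ((n : ℝ) + 1) ≠ 0 := by positivity
  unfold x0_node at h
  have h' : ((i : ℕ) : ℝ) = ((j : ℕ) : ℝ) := by
    field_simp at h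
    exact h
  exact Fin.ext (by exact_mod_cast h')

/-- the polynomial with given values at the nodes -/
def x0_pol (n : ℕ) (v : Fin (n + 1) → ℝ) : ℝ[X] :=
  Lagrange.interpolate Finset.univ (x0_node n) v

theorem x0_eval_node (n : ℕ) (v : Fin (n + 1) → ℝ) (i : Fin (n + 1)) :
    (x0_pol n v).eval (x0_node n i) = v i := by
  unfold x0_pol
  exact Lagrange.eval_interpolate_at_node v ((x0_node_inj n).injOn) (Finset.mem_univ i)

theorem x0_degree (n : ℕ) (v : Fin (n + 1) → ℝ) : (x0_pol n v).degree ≤ n := by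
  have h := Lagrange.degree_interpolate_lt (s := Finset.univ) v ((x0_node_inj n).injOn)
  have h2 : (x0_pol n v).degree < ((n + 1 : ℕ) : WithBot ℕ) := by
    have h3 : (Finset.univ : Finset (Fin (n + 1))).card = n + 1 := by simp
    rw [h3] at h
    exact h
  by_cases h0 : x0_pol n v = 0
  · rw [h0]; simp
  · exact Polynomial.natDegree_le_iff_degree_le.mp
      (Nat.lt_succ_iff.mp ((Polynomial.natDegree_lt_iff_degree_lt h0).mpr h2))

theorem x0_surj (n : ℕ) (P : ℝ[X]) (hP : P.degree ≤ n) :
    P = x0_pol n (fun i => P.eval (x0_node n i)) := by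
  unfold x0_pol
  refine Lagrange.eq_interpolate ((x0_node_inj n).injOn) ?_
  have h3 : (Finset.univ : Finset (Fin (n + 1))).card = n + 1 := by simp
  rw [h3]
  refine lt_of_le_of_lt hP ?_
  exact_mod_cast Nat.lt_succ_self n

theorem x0_cont (n : ℕ) (x : ℝ) : Continuous fun v => (x0_pol n v).eval x := by
  unfold x0_pol
  simp only [Lagrange.interpolate_apply, Polynomial.eval_finsetSum, Polynomial.eval_mul,
    Polynomial.eval_C]
  fun_prop

theorem x0_cont' (n : ℕ) :
    Continuous fun q : (Fin (n + 1) → ℝ) × ℝ => (x0_pol n q.1).derivative.eval q.2 := by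
  unfold x0_pol
  simp only [Lagrange.interpolate_apply, Polynomial.derivative_sum, Polynomial.derivative_mul,
    Polynomial.derivative_C, zero_mul, zero_add, Polynomial.eval_finsetSum, Polynomial.eval_mul,
    Polynomial.eval_C]
  refine continuous_finsetSum _ fun i _ => ?_
  refine Continuous.mul (by fun_prop) ?_
  exact (Polynomial.continuous _).comp continuous_snd

theorem x0_arc_cont (n : ℕ) (a b : ℝ) : Continuous fun v => arc a b (x0_pol n v) := by
  unfold arc
  refine intervalIntegral.continuous_parametric_intervalIntegral_of_continuous' ?_ a b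
  have h := x0_cont' n
  exact Real.continuous_sqrt.comp (continuous_const.add (h.pow 2))

theorem x0_compact (n : ℕ) :
    IsCompact {v : Fin (n + 1) → ℝ | ∀ x ∈ Icc (-1 : ℝ) 1, |(x0_pol n v).eval x| ≤ 1} := by
  have hbox : IsCompact (Set.pi Set.univ fun _ : Fin (n + 1) => Icc (-1 : ℝ) 1) :=
    isCompact_univ_pi fun _ => isCompact_Icc
  refine hbox.of_isClosed_subset ?_ ?_
  · simp only [Set.ofPred_forall]
    exact isClosed_iInter fun x => isClosed_iInter fun _ =>
      isClosed_le (x0_cont n x).abs continuous_const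
  · intro v hv i _
    have h := hv (x0_node n i) (x0_node_mem n i)
    rw [x0_eval_node] at h
    exact abs_le.mp h

theorem x0_exists (n : ℕ) (a b : ℝ) : ∃ P : ℝ[X], Ext n a b P := by
  have hne : {v : Fin (n + 1) → ℝ | ∀ x ∈ Icc (-1 : ℝ) 1, |(x0_pol n v).eval x| ≤ 1}.Nonempty := by
    refine ⟨0, ?_⟩
    have h0 : x0_pol n 0 = 0 := by unfold x0_pol; exact map_zero _
    simp only [Set.mem_ofPred_eq, h0]
    simp
  obtain ⟨w, hw, hmax⟩ := (x0_compact n).exists_isMaxOn hne (x0_arc_cont n a b).continuousOn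
  refine ⟨x0_pol n w, x0_degree n w, hw, ?_⟩
  intro Q hQ hB
  have hs := x0_surj n Q hQ
  have hmem : (fun i => Q.eval (x0_node n i)) ∈ {v : Fin (n + 1) → ℝ |
      ∀ x ∈ Icc (-1 : ℝ) 1, |(x0_pol n v).eval x| ≤ 1} := by
    intro x hx
    rw [← hs]
    exact hB x hx
  have h := hmax hmem
  simp only [Set.mem_ofPred_eq] at h
  rw [← hs] at h
  exact h

theorem x0_arc_neg (P : ℝ[X]) (a b : ℝ) : arc a b (-P) = arc a b P := by
  unfold arc
  simp only [Polynomial.derivative_neg, Polynomial.eval_neg, neg_sq]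

theorem x0_neg {n : ℕ} {a b : ℝ} {P : ℝ[X]} (h : Ext n a b P) : Ext n a b (-P) where
  deg := by rw [Polynomial.degree_neg]; exact h.deg
  bdd := by
    intro x hx
    rw [Polynomial.eval_neg, abs_neg]
    exact h.bdd x hx
  max := by
    intro Q hQ hB
    rw [x0_arc_neg]
    exact h.max Q hQ hB

theorem x0 : X0 :=
  ⟨fun n a b _ => x0_exists n a b, fun _ _ _ _ h => x0_neg h, fun _ _ _ _ h => ext_refl h⟩

end

end Pool.Agent.Helper10.AL
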