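import Pool.Agent.Helper10.AL.St7
import Pool.Agent.Helper10.AL.P.P2
import Pool.Agent.Helper10.AL.P.PA

/-!
Arc length of polynomials over windows, large degree: piece ZC (comparison of the phases of a
chain and of a Zolotarev polynomial, small left gap).
-/

set_option autoImplicit false

namespace Pool.Agent.Helper10.AL

open Polynomial Set Real MeasureTheory intervalIntegral
open Pool.Agent.Helper40.AS (arc Bdd Ext quad)

noncomputable section

theorem zC_alt {n : ℕ} {x0 : ℝ} {Z : ℝ[X]} (h : Zol n x0 Z) : Alt n Z := by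
  obtain ⟨x, σ, hσ, hx, hI, hv⟩ := h.alt
  have hlt : ∀ d i : ℕ, i + (d + 1) < n → x i < x (i + (d + 1)) := by
    intro d
    induction d with
    | zero => intro i hi; exact hx i hi
    | succ d ih =>
      intro i hi
      have h1 := ih i (by omega)
      have h2 := hx (i + (d + 1)) (by omega)
      exact h1.trans h2
  refine ⟨fun i => x i, ?_, fun i => hI i i.isLt, ?_⟩
  · intro i j hij
    have h1 : (i : ℕ) < j := hij
    obtain ⟨d, hd⟩ := Nat.exists_eq_add_of_lt h1
    have h2 := hlt d i (by have := j.isLt; omega)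
    show x i < x j
    rw [hd]
    exact h2
  · rcases hσ with hσ | hσ
    · left
      intro i
      rw [hv i i.isLt, hσ, one_mul]
    · right
      intro i
      rw [hv i i.isLt, hσ, neg_one_mul]

theorem zC_int {x σ τ : ℝ} (hσ : |σ| = 1) (hτ : |τ| = 1) (h : σ * cos x = τ) :
    ∃ k : ℤ, x = k * π := by
  have h1 : |cos x| = 1 := by
    rw [← h, abs_mul, hσ, one_mul] at hτ
    exact hτ
  have h2 : sin x = 0 := by
    have h3 := sin_sq_add_cos_sq x
    rw [← sq_abs (cos x), h1] at h3
    have h4 : sin x ^ 2 = 0 := by linarith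
    exact pow_eq_zero_iff (two_ne_zero) |>.1 h4
  obtain ⟨k, hk⟩ := sin_eq_zero_iff.1 h2
  exact ⟨k, hk.symm⟩

/-- the phase advances by at least `π / 2` up to the first extremum and by `π` afterwards -/
theorem zC_adv (M : ℕ) (Φ : ℕ → ℝ) (σ : ℝ) (hσ : |σ| = 1) (hM : 1 ≤ M) (h0 : cos (Φ 0) = 0)
    (hm : ∀ i < M, Φ i ≤ Φ (i + 1))
    (hc : ∀ i, 1 ≤ i → i ≤ M → σ * cos (Φ i) = (-1) ^ i) :
    ((M : ℝ) - 1 / 2) * π ≤ Φ M - Φ 0 := by
  have hpi := pi_pos
  have habs : ∀ i : ℕ, |((-1 : ℝ)) ^ i| = 1 := fun i => by rw [abs_pow, abs_neg, abs_one, one_pow]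
  have key : ∀ i : ℕ, i + 1 ≤ M → (((i + 1 : ℕ) : ℝ) - 1 / 2) * π ≤ Φ (i + 1) - Φ 0 := by
    intro i
    induction i with
    | zero =>
      intro hi
      obtain ⟨k, hk⟩ := cos_eq_zero_iff.1 h0
      obtain ⟨l, hl⟩ := zC_int hσ (habs 1) (hc 1 le_rfl hM)
      have h1 := hm 0 (by omega)
      have h2 : (2 * k + 1 : ℤ) ≤ 2 * l := by
        have h3 : ((2 * k + 1 : ℤ) : ℝ) ≤ ((2 * l : ℤ) : ℝ) := by
          push_cast
          rw [hk, zero_add, hl] at h1
          have h4 : (2 * (k : ℝ) + 1) * π ≤ (2 * l) * π := by linarith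
          exact le_of_mul_le_mul_right h4 hpi
        exact_mod_cast h3
      have h5 : k + 1 ≤ l := by omega
      have h6 : (k : ℝ) + 1 ≤ l := by exact_mod_cast h5
      have h7 := mul_le_mul_of_nonneg_right h6 hpi.le
      rw [zero_add, hl, hk]
      push_cast
      linarith
    | succ i ih =>
      intro hi
      have h1 := ih (by omega)
      have h2 := hm (i + 1) (by omega)
      obtain ⟨k, hk⟩ := zC_int hσ (habs _) (hc (i + 1) (by omega) (by omega))
      obtain ⟨l, hl⟩ := zC_int hσ (habs _) (hc (i + 1 + 1) (by omega) (by omega))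
      have h3 : k ≤ l := by
        rw [hk, hl] at h2
        have h4 := le_of_mul_le_mul_right h2 hpi
        exact_mod_cast h4
      have h5 : k ≠ l := by
        intro h6
        have h7 := hc (i + 1) (by omega) (by omega)
        have h8 := hc (i + 1 + 1) (by omega) (by omega)
        rw [hk, h6, ← hl, h8, pow_succ] at h7
        rcases neg_one_pow_eq_or ℝ (i + 1) with h9 | h9
        · rw [h9] at h7
          norm_num at h7
        · rw [h9] at h7
          norm_num at h7
      have h6 : k + 1 ≤ l := by omega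
      have h7 : (k : ℝ) + 1 ≤ l := by exact_mod_cast h6
      have h8 := mul_le_mul_of_nonneg_right h7 hpi.le
      rw [hl]
      rw [hk] at h1
      push_cast at h1 ⊢
      linarith
  have h1 := key (M - 1) (by omega)
  rw [Nat.sub_add_cancel hM] at h1
  exact h1

/-- the contact points of the Zolotarev polynomial after `θ0` -/
theorem zC_T (hD3 : D3) {n N j : ℕ} {P Z : ℝ[X]} {t : ℕ → ℝ} {θ0 : ℝ} (hn : 2 ≤ n)
    (hZ : Zol n (cos θ0) Z) (hdeg : P.natDegree ≤ n) (hb : Bdd P) (hch : Chain (qq P) N t)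
    (hj : j < N) (h0 : 0 ≤ t 0) (hN : t N ≤ π) (h1 : t j < θ0) (h2 : θ0 < t (j + 1))
    (hz : qq P θ0 = 0) :
    ∃ τ : ℕ → ℝ, τ 0 = θ0 ∧ (∀ i < N - j, τ i < τ (i + 1)) ∧ τ (N - j) ≤ t N ∧
      (∀ i, 0 ≤ τ i ∧ τ i ≤ π) ∧ ∀ i, 1 ≤ i → i ≤ N - j → qq Z (τ i) = (-1) ^ i := by
  have hq1 : Continuous (qq P) := by
    unfold qq
    exact P.continuous.comp continuous_cos
  -- positions
  have hlo : ∀ i ≤ N, 0 ≤ t i := by
    intro i
    induction i with
    | zero => intro _; exact h0
    | succ i ih => intro hi; exact (ih (by omega)).trans (hch.inc i (by omega)).le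
  have hhi : ∀ i ≤ N, t i ≤ π := by
    have h3 : ∀ d : ℕ, d ≤ N → t (N - d) ≤ π := by
      intro d
      induction d with
      | zero => intro _; exact hN
      | succ d ih =>
        intro hd
        have h4 := hch.inc (N - (d + 1)) (by omega)
        rw [show N - (d + 1) + 1 = N - d by omega] at h4
        exact h4.le.trans (ih (by omega))
    intro i hi
    have h4 := h3 (N - i) (by omega)
    rwa [show N - (N - i) = i by omega] at h4
  have hθ0 : 0 < θ0 := (hlo j (by omega)).trans_lt h1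
  have hθπ : θ0 < π := h2.trans_le (hhi (j + 1) (by omega))
  -- the sign
  obtain ⟨σ, hσ, hval⟩ : ∃ σ : ℝ, (σ = 1 ∨ σ = -1) ∧
      ∀ i, 1 ≤ i → i ≤ N - j → qq P (t (j + i)) = σ * (-1) ^ i := by
    refine ⟨-qq P (t (j + 1)), ?_, ?_⟩
    · have h3 := hch.con (j + 1) (by omega)
      rcases (abs_eq zero_le_one).1 h3 with h4 | h4
      · right
        rw [h4]
      · left
        rw [h4, neg_neg]
    · intro i
      induction i with
      | zero => intro h; omega
      | succ i ih =>
        intro _ hi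
        rcases Nat.eq_zero_or_pos i with h3 | h3
        · subst h3
          simp
        · have h4 := ih (by omega) (by omega)
          have h5 : qq P (t (j + i + 1)) ≠ qq P (t (j + i)) := by
            intro h6
            obtain ⟨c, hc, hc0⟩ := exists_deriv_eq_zero (hch.inc (j + i) (by omega))
              hq1.continuousOn h6.symm
            exact hch.mon (j + i) (by omega) c hc hc0
          have h6 := hch.con (j + i + 1) (by omega)
          have h7 := hch.con (j + i) (by omega)
          have h8 : qq P (t (j + i + 1)) = -qq P (t (j + i)) := by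
            rcases (abs_eq zero_le_one).1 h6 with h9 | h9
            · rcases (abs_eq zero_le_one).1 h7 with h10 | h10
              · exact absurd (h9.trans h10.symm) h5
              · rw [h9, h10, neg_neg]
            · rcases (abs_eq zero_le_one).1 h7 with h10 | h10
              · rw [h9, h10]
              · exact absurd (h9.trans h10.symm) h5
          rw [← add_assoc, h8, h4, pow_succ]
          ring
  have hσ2 : σ * σ = 1 := by
    rcases hσ with h | h
    · rw [h, one_mul]
    · rw [h]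
      norm_num
  have hσa : |σ| = 1 := by
    rcases hσ with h | h
    · rw [h, abs_one]
    · rw [h, abs_neg, abs_one]
  obtain ⟨T, hT0, hT1, hT2, hT3⟩ := hD3 n (N - j) (cos θ0) Z (C σ * P)
    (fun i => if i = 0 then cos θ0 else cos (t (j + i))) hn hZ
    ((natDegree_C_mul_le _ _).trans hdeg)
    (fun x hx => by
      rw [eval_mul, eval_C, abs_mul, hσa, one_mul]
      exact hb x hx)
    (by
      rw [eval_mul, eval_C]
      have : P.eval (cos θ0) = 0 := hz
      rw [this, mul_zero])
    (if_pos rfl)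
    (fun i hi => by
      show (if i + 1 = 0 then cos θ0 else cos (t (j + (i + 1)))) <
        (if i = 0 then cos θ0 else cos (t (j + i)))
      rw [if_neg (by omega)]
      rcases Nat.eq_zero_or_pos i with h3 | h3
      · rw [if_pos h3, h3, zero_add]
        exact cos_lt_cos_of_nonneg_of_le_pi hθ0.le (hhi (j + 1) (by omega)) h2
      · rw [if_neg (by omega), ← add_assoc]
        exact cos_lt_cos_of_nonneg_of_le_pi (hlo _ (by omega)) (hhi (j + i + 1) (by omega))
          (hch.inc (j + i) (by omega)))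
    (by
      show -1 ≤ (if N - j = 0 then cos θ0 else cos (t (j + (N - j))))
      rw [if_neg (by omega)]
      exact neg_one_le_cos _)
    (fun i hi1 hi2 => by
      show (C σ * P).eval (if i = 0 then cos θ0 else cos (t (j + i))) = (-1) ^ i
      rw [if_neg (by omega), eval_mul, eval_C]
      have h3 : P.eval (cos (t (j + i))) = σ * (-1) ^ i := hval i hi1 hi2
      rw [h3, ← mul_assoc, hσ2, one_mul])
  have hTle : ∀ i ≤ N - j, T i ≤ 1 := by
    intro i
    induction i with
    | zero =>
      intro _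
      rw [hT0]
      exact cos_le_one _
    | succ i ih =>
      intro hi
      exact (hT1 i (by omega)).le.trans (ih (by omega))
  have hTge : ∀ i ≤ N - j, -1 ≤ T i := by
    intro i hi
    refine le_trans ?_ (hT2 i hi)
    show -1 ≤ (if i = 0 then cos θ0 else cos (t (j + i)))
    split_ifs
    · exact neg_one_le_cos _
    · exact neg_one_le_cos _
  refine ⟨fun i => arccos (T i), ?_, ?_, ?_, fun i => ⟨arccos_nonneg _, arccos_le_pi _⟩, ?_⟩
  · show arccos (T 0) = θ0
    rw [hT0, arccos_cos hθ0.le hθπ.le]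
  · intro i hi
    exact strictAntiOn_arccos ⟨hTge _ (by omega), hTle _ (by omega)⟩
      ⟨hTge _ (by omega), hTle _ (by omega)⟩ (hT1 i hi)
  · show arccos (T (N - j)) ≤ t N
    have h3 := hT2 (N - j) le_rfl
    have h4 : (if N - j = 0 then cos θ0 else cos (t (j + (N - j)))) ≤ T (N - j) := h3
    rw [if_neg (by omega), show j + (N - j) = N by omega] at h4
    have h5 := antitone_arccos h4
    rwa [arccos_cos (hlo N le_rfl) hN] at h5
  · intro i hi1 hi2
    show Z.eval (cos (arccos (T i))) = (-1) ^ i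
    rw [cos_arccos (hTge i hi2) (hTle i hi2)]
    exact hT3 i hi1 hi2

theorem zC_sub {n : ℕ} {c s p : ℝ} {P : ℝ[X]} (h : Par n c s p P) (u v : ℝ) :
    (∫ t in u..v, om n c s p t) = p2_ph n c s p u - p2_ph n c s p v := by
  have h1 := integral_add_adjacent_intervals (p2_int h u v) (p2_int h v π)
  unfold p2_ph
  linarith

theorem zC_lg {n : ℕ} {c s p : ℝ} {P : ℝ[X]} (h : Par n c s p P) (u v : ℝ) :
    lg n c s p u v = n * (v - u) - (p2_ph n c s p u - p2_ph n c s p v) := by
  unfold lg
  rw [intervalIntegral.integral_sub intervalIntegrable_const (p2_int h u v), zC_sub h,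
    intervalIntegral.integral_const, smul_eq_mul]
  ring

theorem zC_lg0 {n : ℕ} {c s p : ℝ} {P : ℝ[X]} (h : Par n c s p P) {u v : ℝ} (huv : u ≤ v) :
    0 ≤ lg n c s p u v := by
  unfold lg
  refine intervalIntegral.integral_nonneg huv fun t _ => ?_
  have := p2_om_le h t
  linarith

theorem zC_mono {n : ℕ} {c s p : ℝ} {P : ℝ[X]} (h : Par n c s p P) {u v : ℝ} (huv : u ≤ v) :
    p2_ph n c s p v ≤ p2_ph n c s p u := by
  have h1 : 0 ≤ ∫ t in u..v, om n c s p t :=
    intervalIntegral.integral_nonneg huv fun t _ => p2_om_nonneg h t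
  rw [zC_sub h] at h1
  linarith

theorem zC_qc (P : ℝ[X]) : Continuous (qq P) := by
  unfold qq
  exact P.continuous.comp continuous_cos

/-- the phase representation on the closed interval -/
theorem zC_rep {n : ℕ} {c s p : ℝ} {P : ℝ[X]} (h : Par n c s p P)
    (hr : ∀ θ : ℝ, 0 < θ → θ ≤ π → qq P θ = P.eval (-1) * cos (p2_ph n c s p θ)) :
    ∀ θ ∈ Icc 0 π, qq P θ = P.eval (-1) * cos (p2_ph n c s p θ) := by
  have hcl : IsClosed {θ : ℝ | qq P θ = P.eval (-1) * cos (p2_ph n c s p θ)} :=
    isClosed_eq (zC_qc P) (continuous_const.mul (continuous_cos.comp (p2_ph_cont h)))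
  have hsub : Ioc 0 π ⊆ {θ : ℝ | qq P θ = P.eval (-1) * cos (p2_ph n c s p θ)} :=
    fun θ hθ => hr θ hθ.1 hθ.2
  have h1 := closure_minimal hsub hcl
  rw [closure_Ioc pi_pos.ne] at h1
  exact fun θ hθ => h1 hθ

theorem zC (hD0 : D0) (hD1 : D1) (hD3 : D3) (hP1 : P1) (hP1z : P1z) (hP2 : P2) (hL3 : L3) :
    ZC := by
  intro ε hε
  have hpi := pi_pos
  obtain ⟨κ, hκ0, hκ1, hκ⟩ := hL3 ε hε
  refine ⟨min κ (ε / 4), 1000 / ε, lt_min hκ0 (by linarith), by positivity, 3,
    fun n hn P N j t θ0 hdeg hb hch hj ht0 htN h1 h2 hz hR hgap => ?_⟩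
  have hn' : (3 : ℝ) ≤ n := by exact_mod_cast hn
  have hθN : θ0 < t N := by
    have h3 : ∀ d : ℕ, j + 1 + d ≤ N → θ0 < t (j + 1 + d) := by
      intro d
      induction d with
      | zero => intro _; exact h2
      | succ d ih => intro hd; exact (ih (by omega)).trans (hch.inc (j + 1 + d) (by omega))
    have h4 := h3 (N - (j + 1)) (by omega)
    rwa [show j + 1 + (N - (j + 1)) = N by omega] at h4
  have hθ0 : 0 < θ0 := by
    have h3 : ∀ i ≤ N, 0 ≤ t i := by
      intro i
      induction i with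
      | zero => intro _; exact ht0
      | succ i ih => intro hi; exact (ih (by omega)).trans (hch.inc i (by omega)).le
    exact (h3 j hj.le).trans_lt h1
  have hθπ : θ0 < π := hθN.trans_le htN
  have hx : cos θ0 ∈ Ioo (-1 : ℝ) 1 := by
    constructor
    · rw [← cos_pi]
      exact cos_lt_cos_of_nonneg_of_le_pi hθ0.le le_rfl hθπ
    · rw [← cos_zero]
      exact cos_lt_cos_of_nonneg_of_le_pi le_rfl hθπ.le hθ0
  have hgap1 : π - t N ≤ κ * (π - θ0) :=
    hgap.trans (mul_le_mul_of_nonneg_right (min_le_left _ _) (by linarith))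
  have hgap2 : π - t N ≤ ε := by
    have h3 : π - t N ≤ ε / 4 * (π - θ0) :=
      hgap.trans (mul_le_mul_of_nonneg_right (min_le_right _ _) (by linarith))
    have h4 : ε / 4 * (π - θ0) ≤ ε / 4 * 4 :=
      mul_le_mul_of_nonneg_left (by linarith [pi_le_four]) (by linarith)
    linarith
  obtain ⟨Z, hZ⟩ := hD1 n (cos θ0) (by omega) hx
  obtain ⟨τ, hτ0, hτ1, hτ2, hτ3, hτ4⟩ := zC_T hD3 (by omega) hZ hdeg hb hch hj ht0 htN h1 h2 hz
  have hZ0 : qq Z θ0 = 0 := hZ.z0
  have hM : 1 ≤ N - j := by omega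
  set M : ℕ := N - j with hMdef
  rcases hP1 n Z hn hZ.deg hZ.bdd (zC_alt hZ) with hT | ⟨c, s, p, hpar | hpar⟩
  · -- the Chebyshev polynomials
    have hcos : ∀ θ : ℝ, (Chebyshev.T ℝ ((n : ℤ) - 1)).eval (cos θ) = cos (((n : ℝ) - 1) * θ) := by
      intro θ
      rw [Polynomial.Chebyshev.T_real_cos]
      push_cast
      ring_nf
    obtain ⟨σ, hσ, hq⟩ : ∃ σ : ℝ, |σ| = 1 ∧ ∀ θ : ℝ, qq Z θ = σ * cos (((n : ℝ) - 1) * θ) := by
      rcases hT with hT | hT
      · refine ⟨1, abs_one, fun θ => ?_⟩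
        rw [qq, hT, hcos, one_mul]
      · refine ⟨-1, by rw [abs_neg, abs_one], fun θ => ?_⟩
        rw [qq, hT, eval_neg, hcos, neg_one_mul]
    have hσ0 : σ ≠ 0 := by
      intro h
      rw [h, abs_zero] at hσ
      exact zero_ne_one hσ
    have hc0 : cos (((n : ℝ) - 1) * θ0) = 0 := by
      have h3 := hq θ0
      rw [hZ0] at h3
      exact (mul_eq_zero.1 h3.symm).resolve_left hσ0
    have hadv := zC_adv M (fun i => ((n : ℝ) - 1) * τ i) σ hσ hM (by
        show cos (((n : ℝ) - 1) * τ 0) = 0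
        rw [hτ0]
        exact hc0)
      (fun i hi => mul_le_mul_of_nonneg_left (hτ1 i hi).le (by linarith))
      (fun i hi1 hi2 => by
        show σ * cos (((n : ℝ) - 1) * τ i) = (-1) ^ i
        rw [← hq]
        exact hτ4 i hi1 hi2)
    have hadv' : ((M : ℝ) - 1 / 2) * π ≤ ((n : ℝ) - 1) * τ M - ((n : ℝ) - 1) * τ 0 := hadv
    rw [hτ0] at hadv'
    have h3 : ((n : ℝ) - 1) * τ M ≤ ((n : ℝ) - 1) * t N :=
      mul_le_mul_of_nonneg_left hτ2 (by linarith)
    obtain ⟨k, hk⟩ := cos_eq_zero_iff.1 hc0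
    refine ⟨by linarith, π - θ0, k + 2, ?_, by linarith, by linarith⟩
    push_cast
    linarith
  · -- critical point to the right
    obtain ⟨q1, q2, q3, q4, q5, q6⟩ := hP2 n c s p Z hn hZ.deg hZ.bdd (zC_alt hZ) hpar
    have hrep := zC_rep hpar q1
    have hc0 : cos (p2_ph n c s p θ0) = 0 := by
      have h3 := hrep θ0 ⟨hθ0.le, hθπ.le⟩
      rw [hZ0] at h3
      refine (mul_eq_zero.1 h3.symm).resolve_left ?_
      intro h
      have h4 := hpar.hm
      rw [h, abs_zero] at h4
      exact zero_ne_one h4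
    have hadv := zC_adv M (fun i => -p2_ph n c s p (τ i)) _ hpar.hm hM (by
        show cos (-p2_ph n c s p (τ 0)) = 0
        rw [cos_neg, hτ0]
        exact hc0)
      (fun i hi => neg_le_neg (zC_mono hpar (hτ1 i hi).le))
      (fun i hi1 hi2 => by
        show Z.eval (-1) * cos (-p2_ph n c s p (τ i)) = (-1) ^ i
        rw [cos_neg, ← hrep (τ i) (hτ3 i)]
        exact hτ4 i hi1 hi2)
    have hadv' : ((M : ℝ) - 1 / 2) * π ≤ -p2_ph n c s p (τ M) - -p2_ph n c s p (τ 0) := hadv
    rw [hτ0] at hadv'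
    have h3 : p2_ph n c s p (t N) ≤ p2_ph n c s p (τ M) := zC_mono hpar hτ2
    have h4 := zC_lg hpar θ0 (t N)
    have h5 := zC_lg0 hpar hθN.le
    have h6 := zC_lg hpar (t N) π
    have h7 := zC_lg0 hpar htN
    rw [p2_ph_pi] at h6
    have h8 := (hκ n c s p (π - t N) (π - θ0) (by omega) hpar.hc hpar.hs hpar.hp hpar.hps q2
      (by linarith) hgap1 (by linarith)).2.1
    rw [sub_sub_cancel] at h8
    obtain ⟨k, hk⟩ := cos_eq_zero_iff.1 hc0
    refine ⟨by linarith, lg n c s p θ0 (t N) + lg n c s p (t N) π, n - k, ?_, by linarith,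
      by linarith⟩
    rw [h4, h6]
    push_cast
    linarith
  · -- critical point to the left
    obtain ⟨q1, q2, q3, q4, q5, q6⟩ := hP2 n c s p (Z.comp (-X)) hn (pA_deg n Z hZ.deg)
      (pA_bdd Z hZ.bdd) (pA_alt n Z (zC_alt hZ)) hpar
    have hrep := zC_rep hpar q1
    have hc0 : cos (p2_ph n c s p (π - θ0)) = 0 := by
      have h3 := hrep (π - θ0) ⟨by linarith, by linarith⟩
      rw [pA_qq, hZ0] at h3
      refine (mul_eq_zero.1 h3.symm).resolve_left ?_
      intro h
      have h4 := hpar.hm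
      rw [h, abs_zero] at h4
      exact zero_ne_one h4
    have hadv := zC_adv M (fun i => p2_ph n c s p (π - τ i)) _ hpar.hm hM (by
        show cos (p2_ph n c s p (π - τ 0)) = 0
        rw [hτ0]
        exact hc0)
      (fun i hi => zC_mono hpar (by linarith [hτ1 i hi]))
      (fun i hi1 hi2 => by
        show (Z.comp (-X)).eval (-1) * cos (p2_ph n c s p (π - τ i)) = (-1) ^ i
        rw [← hrep (π - τ i) ⟨by linarith [(hτ3 i).2], by linarith [(hτ3 i).1]⟩, pA_qq]
        exact hτ4 i hi1 hi2)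
    have hadv' : ((M : ℝ) - 1 / 2) * π ≤
        p2_ph n c s p (π - τ M) - p2_ph n c s p (π - τ 0) := hadv
    rw [hτ0] at hadv'
    have h3 : p2_ph n c s p (π - τ M) ≤ p2_ph n c s p (π - t N) := zC_mono hpar (by linarith)
    have h4 := zC_lg hpar (π - t N) (π - θ0)
    have h5 := zC_lg0 hpar (u := π - t N) (v := π - θ0) (by linarith)
    have h6 := zC_lg hpar (π - θ0) π
    rw [p2_ph_pi] at h6
    have h7 := zC_lg0 hpar (u := π - θ0) (v := π) (by linarith)
    obtain ⟨k1, -, -, k4⟩ := hκ n c s p (π - t N) (π - θ0) (by omega) hpar.hc hpar.hs hpar.hp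
      hpar.hps q2 (by linarith) hgap1 (by linarith)
    obtain ⟨k, hk⟩ := cos_eq_zero_iff.1 hc0
    have hA : lg n c s p (π - θ0) π ≤ ε →
        0 ≤ n * (t N - θ0) - ((M : ℝ) - 1 / 2) * π ∧
        ∃ (κ' : ℝ) (m : ℤ), n * θ0 = m * π - π / 2 - κ' ∧ -ε ≤ κ' ∧
          κ' ≤ n * (t N - θ0) - ((M : ℝ) - 1 / 2) * π + ε := by
      intro hl
      refine ⟨by linarith, -lg n c s p (π - θ0) π, k + 1, ?_, by linarith, by linarith⟩
      rw [h6]
      push_cast
      linarith
    rcases k1 with k1 | k1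
    · rcases hpar.hc.lt_or_eq with hc1 | hc1
      · have h8 := q4 hc1
        have h9 : p2_ph n c s p 0 = ((n : ℝ) - 1) * π := h8
        have h10 := zC_lg hpar 0 (π - t N)
        have h11 := zC_lg0 hpar (u := 0) (v := π - t N) (by linarith)
        refine ⟨by linarith, lg n c s p 0 (π - t N) + lg n c s p (π - t N) (π - θ0), k + 2, ?_,
          by linarith, by linarith⟩
        rw [h10, h4, h9]
        push_cast
        linarith
      · refine hA ?_
        have h8 := k4 hc1.symm (π - θ0) ⟨by linarith, by linarith⟩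
        refine h8.trans ?_
        have h9 : 0 < n * (π - θ0) := mul_pos (by linarith) (by linarith)
        rw [div_le_iff₀ h9]
        rw [div_le_iff₀ hε] at hR
        linarith
    · exact hA k1

end

end Pool.Agent.Helper10.AL
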