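import Pool.Agent.Helper10.AL.St

/-!
Arc length of polynomials over compact windows, large degree: piece A11, the derivative near a
slow point.
-/

set_option autoImplicit false

namespace Pool.Agent.Helper10.AL

open Polynomial Set Real MeasureTheory intervalIntegral

/-- negation -/
theorem a11_neg {n : ℕ} {g : ℝ → ℝ} (h : TB n g) : TB n (fun θ => -g θ) := by
  obtain ⟨⟨F, hF, hv⟩, hb⟩ := h
  refine ⟨⟨-F, ?_, fun θ => ?_⟩, fun θ => ?_⟩
  · rw [natDegree_neg]; exact hF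
  · rw [eval_neg, hv θ]
    push_cast
    ring
  · show |-g θ| ≤ 1
    rw [abs_neg]; exact hb θ

/-- reflection -/
theorem a11_refl {n : ℕ} {g : ℝ → ℝ} (h : TB n g) : TB n (fun θ => g (-θ)) := by
  obtain ⟨⟨F, hF, hv⟩, hb⟩ := h
  refine ⟨⟨F.map (starRingEnd ℂ), ?_, fun θ => ?_⟩, fun θ => hb (-θ)⟩
  · exact natDegree_map_le.trans hF
  · have h1 : Complex.exp (θ * Complex.I) =
        starRingEnd ℂ (Complex.exp (((-θ : ℝ) : ℂ) * Complex.I)) := by
      rw [← Complex.exp_conj, map_mul, Complex.conj_I, Complex.conj_ofReal]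
      congr 1
      push_cast
      ring
    rw [h1, eval_map, eval₂_at_apply, hv (-θ), map_mul, Complex.conj_ofReal, ← Complex.exp_conj]
    congr 2
    rw [map_mul, map_mul, Complex.conj_I, Complex.conj_ofReal, Complex.conj_natCast]
    push_cast
    ring

/-- `sin x / x` decreases -/
theorem a11_sin {a b : ℝ} (ha : 0 < a) (hab : a ≤ b) (hb : b < π) : a * sin b ≤ b * sin a := by
  have hb0 : 0 < b := lt_of_lt_of_le ha hab
  have hm0 : (0 : ℝ) ∈ Icc (0 : ℝ) π := ⟨le_refl _, pi_pos.le⟩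
  have hmb : b ∈ Icc (0 : ℝ) π := ⟨hb0.le, hb.le⟩
  have ht0 : (0 : ℝ) ≤ 1 - a / b := by rw [sub_nonneg, div_le_one hb0]; exact hab
  have ht1 : (0 : ℝ) ≤ a / b := by positivity
  have h := strictConcaveOn_sin_Icc.concaveOn.2 hm0 hmb ht0 ht1 (by ring)
  simp only [smul_eq_mul, mul_zero, sin_zero, zero_add] at h
  rw [div_mul_cancel₀ _ hb0.ne'] at h
  have h2 := mul_le_mul_of_nonneg_left h hb0.le
  have h3 : b * (a / b * sin b) = a * sin b := by field_simp
  rw [h3] at h2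
  exact h2

/-- one-sided estimate -/
theorem a11_one (hA2 : A2) (hA10 : A10) {n : ℕ} {g : ℝ → ℝ} {θ0 ψ μ s : ℝ} (hn : 2 ≤ n)
    (hg : TB n g) (hψ1 : π / 2 ≤ ψ) (hψ2 : ψ < π) (h0 : |g θ0| ≤ -cos ψ)
    (h1 : |deriv g θ0| ≤ n * (μ * sin ψ)) (hs : 0 ≤ s) : -Gm μ ψ s ≤ g (θ0 + s / n) := by
  have hn0 : (0 : ℝ) < n := by
    have : 0 < n := by omega
    exact_mod_cast this
  have hpi := pi_pos
  have hψ0 : 0 < ψ := by linarith
  obtain ⟨h0a, h0b⟩ := abs_le.1 h0
  set y := g θ0 with hy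
  have hc1 : cos ψ ≤ y := by linarith
  have hc2 : y ≤ cos (π - ψ) := by rw [cos_pi_sub]; exact h0b
  set φ := arccos y with hφ
  have hφ1 : φ ≤ ψ := by
    rw [hφ, ← arccos_cos hψ0.le hψ2.le]
    exact arccos_le_arccos hc1
  have hφ2 : π - ψ ≤ φ := by
    rw [hφ, ← arccos_cos (x := π - ψ) (by linarith) (by linarith)]
    exact arccos_le_arccos hc2
  have hφ0 : 0 < φ := by linarith
  have hφπ : φ < π := by linarith
  have hsin : 0 < sin φ := sin_pos_of_pos_of_lt_pi hφ0 hφπ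
  have hsinψ : 0 < sin ψ := sin_pos_of_pos_of_lt_pi hψ0 hψ2
  have hyb : |y| ≤ 1 := hg.2 θ0
  obtain ⟨hya, hyc⟩ := abs_le.1 hyb
  have hcos : cos φ = y := by rw [hφ]; exact cos_arccos hya hyc
  set l := -deriv g θ0 / (n * sin φ) with hl
  have hder : deriv g θ0 = -(n * (l * sin φ)) := by
    rw [hl]
    field_simp
  have hbs := ((hA2.1 n g (by omega) hg).2 θ0).1
  have hl1 : |l| ≤ 1 := by
    have h2 : (n * sin φ) ^ 2 * l ^ 2 ≤ (n * sin φ) ^ 2 := by
      have h3 : sin φ ^ 2 = 1 - y ^ 2 := by rw [← hcos]; exact sin_sq φ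
      rw [hder] at hbs
      calc (n * sin φ) ^ 2 * l ^ 2 = (-(n * (l * sin φ))) ^ 2 := by ring
        _ ≤ (n : ℝ) ^ 2 - (n : ℝ) ^ 2 * y ^ 2 := by linarith
        _ = (n * sin φ) ^ 2 := by rw [mul_pow, h3]; ring
    have h4 : 0 < (n * sin φ) ^ 2 := by positivity
    have h5 : l ^ 2 ≤ 1 := by
      by_contra hcon
      push Not at hcon
      nlinarith
    exact abs_le_one_iff_mul_self_le_one.2 (by nlinarith)
  have hlψ : |l| * φ ≤ μ * ψ := by
    have h2 : |l| * sin φ ≤ μ * sin ψ := by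
      have h3 : |deriv g θ0| = n * (|l| * sin φ) := by
        rw [hder, abs_neg, abs_mul, abs_mul, abs_of_pos hn0, abs_of_pos hsin]
      rw [h3] at h1
      exact le_of_mul_le_mul_left h1 hn0
    have h4 := a11_sin hφ0 hφ1 hψ2
    have h5 : |l| * φ * sin ψ ≤ μ * ψ * sin ψ := by
      calc |l| * φ * sin ψ = |l| * (φ * sin ψ) := by ring
        _ ≤ |l| * (ψ * sin φ) := mul_le_mul_of_nonneg_left h4 (abs_nonneg l)
        _ = ψ * (|l| * sin φ) := by ring
        _ ≤ ψ * (μ * sin ψ) := mul_le_mul_of_nonneg_left h2 hψ0.le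
        _ = μ * ψ * sin ψ := by ring
    exact le_of_mul_le_mul_right h5 hsinψ
  have hmain := hA10 n g θ0 φ l s hn hg hφ0 hφπ (by rw [hcos]) hder hl1 hs
  refine le_trans ?_ hmain
  unfold Gm
  rw [neg_neg]
  apply cos_le_cos_of_nonneg_of_le_pi
  · exact le_min (sqrt_nonneg _) hpi.le
  · exact min_le_right _ _
  · apply min_le_min_right
    apply sqrt_le_sqrt
    have h6 : l * φ ≤ μ * ψ := (mul_le_mul_of_nonneg_right (le_abs_self l) hφ0.le).trans hlψ
    have h7 : l * φ * s ≤ μ * ψ * s := mul_le_mul_of_nonneg_right h6 hs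
    have h8 : φ ^ 2 ≤ ψ ^ 2 := pow_le_pow_left₀ hφ0.le hφ1 2
    linarith

theorem a11 (hA2 : A2) (hA10 : A10) (_hN0 : N0) : A11 := by
  intro n f θ0 ψ μ s hn hf hψ1 hψ2 _ h0 h1 hs
  have hn0 : (0 : ℝ) < n := by
    have : 0 < n := by omega
    exact_mod_cast this
  have hg : TB n (fun θ => deriv f θ / n) := (hA2.1 n f (by omega) hf).1
  set g : ℝ → ℝ := fun θ => deriv f θ / n with hgdef
  have hd : ∀ θ, deriv g θ = deriv (deriv f) θ / n := fun θ => by rw [hgdef, deriv_div_const]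
  have h0' : |g θ0| ≤ -cos ψ := by
    show |deriv f θ0 / n| ≤ -cos ψ
    rw [abs_div, abs_of_pos hn0, div_le_iff₀ hn0]
    linarith
  have h1' : |deriv g θ0| ≤ n * (μ * sin ψ) := by
    rw [hd, abs_div, abs_of_pos hn0, div_le_iff₀ hn0]
    calc |deriv (deriv f) θ0| ≤ (n : ℝ) ^ 2 * (μ * sin ψ) := h1
      _ = n * (μ * sin ψ) * n := by ring
  have key : ∀ θ : ℝ, -Gm μ ψ s ≤ g θ → -Gm μ ψ s ≤ -g θ → |deriv f θ| ≤ n * Gm μ ψ s := by
    intro θ ha hb
    have h2 : |g θ| ≤ Gm μ ψ s := abs_le.2 ⟨ha, by linarith⟩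
    have h3 : |g θ| = |deriv f θ| / n := by
      show |deriv f θ / n| = _
      rw [abs_div, abs_of_pos hn0]
    rw [h3, div_le_iff₀ hn0] at h2
    linarith
  have hgn := a11_neg hg
  have hgr := a11_refl hg
  have hgrn := a11_neg hgr
  have hdn : deriv (fun θ => -g θ) θ0 = -deriv g θ0 := deriv.fun_neg
  have hdr : deriv (fun θ => g (-θ)) (-θ0) = -deriv g θ0 := by
    rw [deriv_comp_neg, neg_neg]
  have hdrn : deriv (fun θ => -(fun θ => g (-θ)) θ) (-θ0) = deriv g θ0 := by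
    rw [deriv.fun_neg, hdr, neg_neg]
  constructor
  · apply key
    · exact a11_one hA2 hA10 hn hg hψ1 hψ2 h0' h1' hs
    · exact a11_one hA2 hA10 hn hgn hψ1 hψ2 (by rw [abs_neg]; exact h0')
        (by rw [hdn, abs_neg]; exact h1') hs
  · have he : θ0 - s / n = -(-θ0 + s / n) := by ring
    apply key
    · rw [he]
      exact a11_one hA2 hA10 hn hgr hψ1 hψ2 (by rw [neg_neg]; exact h0')
        (by rw [hdr, abs_neg]; exact h1') hs
    · rw [he]
      exact a11_one hA2 hA10 hn hgrn hψ1 hψ2 (by rw [abs_neg, neg_neg]; exact h0')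
        (by rw [hdrn]; exact h1') hs

end Pool.Agent.Helper10.AL
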