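import Pool.Agent.Helper10.AL.St

/-! Piece B2c: arc length between two consecutive critical points. -/

set_option autoImplicit false

namespace Pool.Agent.Helper10.AL

open Polynomial Set Real MeasureTheory intervalIntegral

/-- a real trigonometric polynomial is smooth -/
theorem b2c_smooth (n : ℕ) (f : ℝ → ℝ) (hf : TP n f) (k : ℕ) : ContDiff ℝ k f := by
  obtain ⟨F, -, hF⟩ := hf
  have h1 : f = fun θ : ℝ =>
      (F.eval (Complex.exp (θ * Complex.I)) * Complex.exp (-(n * θ * Complex.I))).re := by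
    funext θ
    have h2 := hF θ
    have h3 : Complex.exp (n * θ * Complex.I) * Complex.exp (-(n * θ * Complex.I)) = 1 := by
      rw [← Complex.exp_add, add_neg_cancel, Complex.exp_zero]
    rw [h2, mul_right_comm, h3, one_mul, Complex.ofReal_re]
  have h4 : ContDiff ℝ k (fun θ : ℝ => Complex.exp (θ * Complex.I)) := by
    have : ContDiff ℝ k (fun θ : ℝ => (θ : ℂ)) := Complex.ofRealCLM.contDiff
    exact (this.mul contDiff_const).cexp
  have h5 : ContDiff ℝ k (fun θ : ℝ => Complex.exp (-(n * θ * Complex.I))) := by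
    have : ContDiff ℝ k (fun θ : ℝ => (θ : ℂ)) := Complex.ofRealCLM.contDiff
    exact (((contDiff_const.mul this).mul contDiff_const).neg).cexp
  have h6 : ContDiff ℝ k (fun θ : ℝ => F.eval (Complex.exp (θ * Complex.I))) := by
    have h7 : ContDiff ℝ k (fun z : ℂ => F.eval z) := by
      have := (Polynomial.contDiff_aeval (𝕜 := ℂ) F k)
      simpa [Polynomial.coe_aeval_eq_eval] using this.restrict_scalars ℝ
    exact h7.comp h4
  rw [h1]
  exact Complex.reCLM.contDiff.comp (h6.mul h5)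

theorem b2c_cont (n : ℕ) (f : ℝ → ℝ) (hf : TP n f) : Continuous (fun θ => √(1 + (deriv f θ) ^ 2)) := by
  have h := (b2c_smooth n f hf 1).continuous_deriv (by norm_num)
  fun_prop

theorem b2c_sqrt_le {x y : ℝ} (h : |x| ≤ y) : √(1 + x ^ 2) ≤ √(1 + y ^ 2) := by
  apply Real.sqrt_le_sqrt
  have := sq_le_sq' (by linarith [abs_nonneg x, neg_abs_le x]) (le_trans (le_abs_self x) h)
  linarith

/-- the model integral of one half -/
theorem b2c_model (hB0 : B0) (n : ℕ) (x : ℝ) (hn : 1 ≤ n) (hx0 : 0 ≤ x) (hx : x ≤ π) :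
    1 / (n : ℝ) * (∫ s in (0 : ℝ)..x, √(1 + (n * sin s) ^ 2)) ≤
      (1 - cos x) + 3 * (1 + Real.log n) / (n : ℝ) ^ 2 := by
  have hn0 : (0 : ℝ) < n := by exact_mod_cast hn
  have hc1 : Continuous (fun s : ℝ => √(1 + (n * sin s) ^ 2) - n * sin s) := by fun_prop
  have hc2 : Continuous (fun s : ℝ => (n : ℝ) * sin s) := by fun_prop
  have h1 : (∫ s in (0 : ℝ)..x, √(1 + (n * sin s) ^ 2)) =
      (∫ s in (0 : ℝ)..x, (√(1 + (n * sin s) ^ 2) - n * sin s)) + ∫ s in (0 : ℝ)..x, n * sin s := by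
    rw [← intervalIntegral.integral_add (hc1.intervalIntegrable _ _) (hc2.intervalIntegrable _ _)]
    congr 1
    funext s
    ring
  have h2 : (∫ s in (0 : ℝ)..x, (n : ℝ) * sin s) = n * (1 - cos x) := by
    rw [intervalIntegral.integral_const_mul, integral_sin, cos_zero]
  have h3 : (∫ s in (0 : ℝ)..x, (√(1 + (n * sin s) ^ 2) - n * sin s)) ≤
      ∫ s in (0 : ℝ)..π, (√(1 + (n * sin s) ^ 2) - n * sin s) := by
    apply intervalIntegral.integral_mono_interval le_rfl hx0 hx _ (hc1.intervalIntegrable _ _)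
    refine Filter.Eventually.of_forall fun s => ?_
    simp only [Pi.zero_apply]
    have : |(n : ℝ) * sin s| ≤ √(1 + (n * sin s) ^ 2) := by
      rw [← Real.sqrt_sq_eq_abs]
      exact Real.sqrt_le_sqrt (by linarith)
    linarith [le_abs_self ((n : ℝ) * sin s)]
  have h4 := hB0 n hn
  rw [h1, h2, mul_add]
  have h5 : 1 / (n : ℝ) * (n * (1 - cos x)) = 1 - cos x := by
    field_simp
  rw [h5]
  have h6 : 1 / (n : ℝ) * (∫ s in (0 : ℝ)..x, (√(1 + (n * sin s) ^ 2) - n * sin s)) ≤
      1 / (n : ℝ) * ∫ s in (0 : ℝ)..π, (√(1 + (n * sin s) ^ 2) - n * sin s) :=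
    mul_le_mul_of_nonneg_left h3 (by positivity)
  linarith

/-- one half of a short stretch -/
theorem b2c_half (hB0 : B0) (n : ℕ) (g : ℝ → ℝ) (x : ℝ) (hn : 1 ≤ n) (hx0 : 0 ≤ x)
    (hx : x ≤ π / 2) (hg : Continuous g)
    (hb : ∀ s ∈ Icc 0 x, |g s| ≤ n * sin s) :
    1 / (n : ℝ) * (∫ s in (0 : ℝ)..x, √(1 + (g s) ^ 2)) ≤
      (1 - cos x) + 3 * (1 + Real.log n) / (n : ℝ) ^ 2 := by
  have hn0 : (0 : ℝ) < n := by exact_mod_cast hn
  have hc1 : Continuous (fun s : ℝ => √(1 + (g s) ^ 2)) := by fun_prop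
  have hc2 : Continuous (fun s : ℝ => √(1 + (n * sin s) ^ 2)) := by fun_prop
  have h1 : (∫ s in (0 : ℝ)..x, √(1 + (g s) ^ 2)) ≤ ∫ s in (0 : ℝ)..x, √(1 + (n * sin s) ^ 2) := by
    apply intervalIntegral.integral_mono_on hx0 (hc1.intervalIntegrable _ _)
      (hc2.intervalIntegrable _ _)
    intro s hs
    exact b2c_sqrt_le (hb s hs)
  have h2 := b2c_model hB0 n x hn hx0 (by linarith [pi_pos])
  have h3 : 1 / (n : ℝ) * (∫ s in (0 : ℝ)..x, √(1 + (g s) ^ 2)) ≤
      1 / (n : ℝ) * ∫ s in (0 : ℝ)..x, √(1 + (n * sin s) ^ 2) :=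
    mul_le_mul_of_nonneg_left h1 (by positivity)
  linarith

theorem b2c (hA3 : A3) (hB0 : B0) (hB1 : B1) : B2c := by
  intro n f u v hn hf huv hne h0 h0'
  have hn1 : 1 ≤ n := by omega
  have hn0 : (0 : ℝ) < n := by exact_mod_cast hn1
  have hlog : 0 ≤ Real.log n := Real.log_nonneg (by exact_mod_cast hn1)
  have hl0 : 0 ≤ n * (v - u) := mul_nonneg hn0.le (by linarith)
  have hkk : kk n = 10 * (1 + Real.log n) / (n : ℝ) ^ 2 := rfl
  have hvu : v - u = n * (v - u) / n := by field_simp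
  have hcd := (b2c_smooth n f hf.1 1).continuous_deriv (by norm_num : (1 : WithTop ℕ∞) ≤ 1)
  have hcs := b2c_cont n f hf.1
  have hkk6 : 2 * (3 * (1 + Real.log n) / (n : ℝ) ^ 2) ≤ kk n := by
    rw [hkk, ← mul_div_assoc]
    apply div_le_div_of_nonneg_right _ (by positivity)
    nlinarith
  unfold Wt
  split_ifs with hl
  · -- short stretch
    set x : ℝ := n * (v - u) / 2 with hx
    have hx0 : 0 ≤ x := by positivity
    have hxπ : x ≤ π / 2 := by rw [hx]; linarith
    have e1 : (∫ θ in u..((u + v) / 2), √(1 + (deriv f θ) ^ 2)) =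
        1 / (n : ℝ) * ∫ s in (0 : ℝ)..x, √(1 + (deriv f (u + s / n)) ^ 2) := by
      have := intervalIntegral.integral_comp_add_div (a := 0) (b := x)
        (fun θ => √(1 + (deriv f θ) ^ 2)) hn0.ne' u
      rw [this]
      have h1 : u + 0 / (n : ℝ) = u := by simp
      have h2 : u + x / n = (u + v) / 2 := by rw [hx]; field_simp; ring
      rw [h1, h2, smul_eq_mul, ← mul_assoc, one_div, inv_mul_cancel₀ hn0.ne', one_mul]
    have e2 : (∫ θ in ((u + v) / 2)..v, √(1 + (deriv f θ) ^ 2)) =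
        1 / (n : ℝ) * ∫ s in (0 : ℝ)..x, √(1 + (deriv f (v + (-s) / n)) ^ 2) := by
      have := intervalIntegral.integral_comp_sub_div (a := 0) (b := x)
        (fun θ => √(1 + (deriv f θ) ^ 2)) hn0.ne' v
      have h3 : (fun s : ℝ => √(1 + (deriv f (v + (-s) / n)) ^ 2)) =
          fun s : ℝ => √(1 + (deriv f (v - s / n)) ^ 2) := by
        funext s
        rw [neg_div, sub_eq_add_neg]
      rw [h3, this]
      have h1 : v - 0 / (n : ℝ) = v := by simp
      have h2 : v - x / n = (u + v) / 2 := by rw [hx]; field_simp; ring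
      rw [h1, h2, smul_eq_mul, ← mul_assoc, one_div, inv_mul_cancel₀ hn0.ne', one_mul]
    have b1 := b2c_half hB0 n (fun s => deriv f (u + s / n)) x hn1 hx0 hxπ (by fun_prop) (by
      intro s hs
      have := hA3 n f u s hn1 hf h0 (by rw [abs_of_nonneg hs.1]; linarith [hs.2])
      rwa [abs_of_nonneg hs.1] at this)
    have b2 := b2c_half hB0 n (fun s => deriv f (v + (-s) / n)) x hn1 hx0 hxπ (by fun_prop) (by
      intro s hs
      have := hA3 n f v (-s) hn1 hf h0' (by rw [abs_neg, abs_of_nonneg hs.1]; linarith [hs.2])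
      rwa [abs_neg, abs_of_nonneg hs.1] at this)
    have hsplit : En f u v = (∫ θ in u..((u + v) / 2), √(1 + (deriv f θ) ^ 2)) +
        ∫ θ in ((u + v) / 2)..v, √(1 + (deriv f θ) ^ 2) := by
      unfold En
      exact (integral_add_adjacent_intervals (hcs.intervalIntegrable _ _)
        (hcs.intervalIntegrable _ _)).symm
    rw [hsplit, e1, e2]
    linarith
  · -- long stretch
    rw [not_le] at hl
    obtain ⟨c1, -, c3⟩ := hB1 n f u v hn1 hf huv hne
    set α := arccos (f v) with hα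
    set β := arccos (f u) with hβ
    have hfv := abs_le.1 (hf.2 v)
    have hfu := abs_le.1 (hf.2 u)
    have ev : f v = cos α := (cos_arccos hfv.1 hfv.2).symm
    have eu : f u = cos β := (cos_arccos hfu.1 hfu.2).symm
    have hα0 : 0 ≤ α := arccos_nonneg _
    have hαπ : α ≤ π := arccos_le_pi _
    have hβ0 : 0 ≤ β := arccos_nonneg _
    have hβπ : β ≤ π := arccos_le_pi _
    have hxπ : |α - β| ≤ π := by rw [abs_le]; constructor <;> linarith
    have hd : |f v - f u| ≤ 2 * sin (|α - β| / 2) := by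
      rw [ev, eu, cos_sub_cos, abs_mul, abs_mul, abs_neg, abs_two]
      have h1 : |sin ((α - β) / 2)| = sin (|α - β| / 2) := by
        have h2 : |sin ((α - β) / 2)| = |sin (|α - β| / 2)| := by
          rcases abs_cases (α - β) with h | h
          · rw [h.1]
          · rw [h.1, neg_div, sin_neg, abs_neg]
        rw [h2, abs_of_nonneg]
        apply sin_nonneg_of_nonneg_of_le_pi (by positivity)
        linarith [pi_pos]
      rw [h1]
      have h3 : 0 ≤ sin (|α - β| / 2) := by rw [← h1]; exact abs_nonneg _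
      have h4 := abs_sin_le_one ((α + β) / 2)
      nlinarith
    -- complementary angle
    set y := π - |α - β| with hy
    have hy0 : 0 ≤ y := by rw [hy]; linarith
    have hyπ : y ≤ π := by rw [hy]; linarith [abs_nonneg (α - β)]
    have hs : sin (|α - β| / 2) = cos (y / 2) := by
      rw [hy, ← cos_pi_div_two_sub]
      congr 1
      ring
    have hc : cos (y / 2) ≤ 1 - 2 / π ^ 2 * (y / 2) ^ 2 := by
      apply Real.cos_le_one_sub_mul_cos_sq
      rw [abs_of_nonneg (by positivity)]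
      linarith
    rw [hs] at hd
    have hfin : 2 * cos (y / 2) + y / n ≤ 2 + 4 * (1 + Real.log n) / (n : ℝ) ^ 2 := by
      have hπ : π ^ 2 ≤ 16 := by nlinarith [pi_lt_four, pi_pos]
      have h1 : 2 * cos (y / 2) ≤ 2 - y ^ 2 / π ^ 2 := by
        have h2 : 2 - y ^ 2 / π ^ 2 = 2 * (1 - 2 / π ^ 2 * (y / 2) ^ 2) := by
          field_simp
          try ring
        rw [h2]
        linarith
      have h3 : y / n ≤ y ^ 2 / π ^ 2 + π ^ 2 / (4 * (n : ℝ) ^ 2) := by
        have h4 : y ^ 2 / π ^ 2 + π ^ 2 / (4 * (n : ℝ) ^ 2) - y / n =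
            (y / π - π / (2 * n)) ^ 2 := by
          field_simp
          ring
        have h5 := sq_nonneg (y / π - π / (2 * n))
        linarith
      have h6 : π ^ 2 / (4 * (n : ℝ) ^ 2) ≤ 4 * (1 + Real.log n) / (n : ℝ) ^ 2 := by
        rw [div_le_div_iff₀ (by positivity) (by positivity)]
        have : 0 ≤ Real.log n * (n : ℝ) ^ 2 := by positivity
        nlinarith [sq_nonneg (n : ℝ)]
      linarith
    have hkk7 : 3 * (1 + Real.log n) / (n : ℝ) ^ 2 + 4 * (1 + Real.log n) / (n : ℝ) ^ 2 ≤ kk n := by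
      rw [hkk, ← add_div]
      apply div_le_div_of_nonneg_right _ (by positivity)
      nlinarith
    have e1 : (n * (v - u) - π) / n = (v - u) - π / n := by
      rw [sub_div, ← hvu]
    have e2 : |α - β| / n = π / n - y / n := by rw [hy]; ring
    rw [e2] at c3
    rw [e1]
    linarith

end Pool.Agent.Helper10.AL
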