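import Pool.Agent.Helper10.AL.St9

/-!
Critical points in the middle of a window near `1` are contact points.
-/

set_option autoImplicit false

namespace Pool.Agent.Helper10.AL

open Polynomial Set Real MeasureTheory intervalIntegral
open Pool.Agent.Helper40.AS (arc Bdd Ext quad)

theorem bi_window {n : ℕ} {K e a b : ℝ} (hK : 0 < K) (hn : 1 ≤ n) (ha : 1 / 2 ≤ a) (hab : a < b)
    (hb : b < 1) (hKa : (n : ℝ) ^ 2 * (1 - a) ≤ K) (he : e ≤ (n : ℝ) ^ 2 * (b - a)) :
    n * arccos a ≤ √(5 * K) ∧ e / √(5 * K) ≤ n * (arccos a - arccos b) := by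
  have hn0 : (1 : ℝ) ≤ n := by exact_mod_cast hn
  set α := arccos a with hα
  set β := arccos b with hβ
  have hcα : cos α = a := cos_arccos (by linarith) (by linarith)
  have hcβ : cos β = b := cos_arccos (by linarith) (by linarith)
  have hα0 : 0 ≤ α := arccos_nonneg a
  have hβ0 : 0 ≤ β := arccos_nonneg b
  have hαπ : α ≤ π := arccos_le_pi a
  have hβα : β ≤ α := arccos_le_arccos hab.le
  have h1 : cos α ≤ 1 - 2 / π ^ 2 * α ^ 2 :=
    Real.cos_le_one_sub_mul_cos_sq (by rw [abs_of_nonneg hα0]; exact hαπ)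
  have hπ : π ^ 2 ≤ 10 := by nlinarith [pi_lt_d2, pi_pos]
  have hπ0 : 0 < π ^ 2 := by positivity
  have h2 : α ^ 2 ≤ 5 * (1 - a) := by
    rw [hcα] at h1
    have h3 : 2 / π ^ 2 * α ^ 2 ≤ 1 - a := by linarith
    have h4 : 2 * α ^ 2 ≤ (1 - a) * π ^ 2 := by
      have := mul_le_mul_of_nonneg_right h3 hπ0.le
      have e1 : 2 / π ^ 2 * α ^ 2 * π ^ 2 = 2 * α ^ 2 := by field_simp
      linarith
    have h5 : (1 - a) * π ^ 2 ≤ (1 - a) * 10 := by
      apply mul_le_mul_of_nonneg_left hπ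
      linarith
    linarith
  have h6 : n * α ≤ √(5 * K) := by
    apply Real.le_sqrt_of_sq_le
    calc (n * α) ^ 2 = (n : ℝ) ^ 2 * α ^ 2 := by ring
      _ ≤ (n : ℝ) ^ 2 * (5 * (1 - a)) := by gcongr
      _ = 5 * ((n : ℝ) ^ 2 * (1 - a)) := by ring
      _ ≤ 5 * K := by gcongr
  refine ⟨h6, ?_⟩
  have hs : 0 < √(5 * K) := Real.sqrt_pos.2 (by positivity)
  rw [div_le_iff₀ hs]
  have h7 : b - a ≤ α * (α - β) := by
    have e1 : b - a = 2 * sin ((α + β) / 2) * sin ((α - β) / 2) := by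
      rw [← hcα, ← hcβ]
      have := Real.cos_sub_cos β α
      rw [this]
      have e2 : (β - α) / 2 = -((α - β) / 2) := by ring
      rw [e2, Real.sin_neg, add_comm β α]
      ring
    rw [e1]
    have s1 : sin ((α + β) / 2) ≤ (α + β) / 2 := Real.sin_le (by positivity)
    have s2 : sin ((α - β) / 2) ≤ (α - β) / 2 := Real.sin_le (by linarith)
    have s3 : 0 ≤ sin ((α - β) / 2) := Real.sin_nonneg_of_nonneg_of_le_pi (by linarith) (by linarith)
    calc 2 * sin ((α + β) / 2) * sin ((α - β) / 2)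
        ≤ 2 * ((α + β) / 2) * sin ((α - β) / 2) := by gcongr
      _ ≤ 2 * ((α + β) / 2) * ((α - β) / 2) := by gcongr
      _ ≤ α * (α - β) := by nlinarith [mul_nonneg (sub_nonneg.2 hβα) (sub_nonneg.2 hβα)]
  calc e ≤ (n : ℝ) ^ 2 * (b - a) := he
    _ ≤ (n : ℝ) ^ 2 * (α * (α - β)) := by gcongr
    _ = (n * (α - β)) * (n * α) := by ring
    _ ≤ (n * (α - β)) * √(5 * K) := by
      apply mul_le_mul_of_nonneg_left h6
      have : 0 ≤ α - β := sub_nonneg.2 hβα
      positivity

theorem bi_deg {n : ℕ} {a b c : ℝ} {P R : ℝ[X]} (hn : 1 ≤ n) (hE : Ext n a b P)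
    (hPR : P.derivative = (X - C c) * R) :
    ((1 - X ^ 2) * R).degree ≤ (n : WithBot ℕ) ∧ R.natDegree ≤ n := by
  by_cases hR : R = 0
  · subst hR; simp
  · have h1 : P.natDegree ≤ n := natDegree_le_of_degree_le hE.deg
    have h2 : P.derivative.natDegree = R.natDegree + 1 := by
      rw [hPR, natDegree_mul (X_sub_C_ne_zero c) hR, natDegree_X_sub_C, add_comm]
    have h3 : P.derivative.natDegree ≤ P.natDegree - 1 := natDegree_derivative_le P
    have h4 : ((1 - X ^ 2) * R).natDegree ≤ 2 + R.natDegree := by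
      refine natDegree_mul_le.trans (Nat.add_le_add_right ?_ _)
      compute_degree
    refine ⟨?_, by omega⟩
    exact (degree_le_natDegree (p := (1 - X ^ 2) * R)).trans (by exact_mod_cast (by omega :
      ((1 - X ^ 2) * R).natDegree ≤ n))

/-- the arc length does not decrease in the direction `(1 - X ^ 2) * R` -/
theorem bi_kkt {n : ℕ} {a b c : ℝ} {P R : ℝ[X]} (hn : 1 ≤ n) (hab : a ≤ b) (hE : Ext n a b P)
    (hPR : P.derivative = (X - C c) * R) (hc : |P.eval c| ≠ 1) (η : ℝ) :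
    arc a b P ≤ arc a b (P + C η * ((1 - X ^ 2) * R)) := by
  set G : ℝ[X] := (1 - X ^ 2) * R with hG
  have hGd : G.degree ≤ n := (bi_deg hn hE hPR).1
  have hGe : ∀ x, G.eval x = (1 - x ^ 2) * R.eval x := by
    intro x; rw [hG]; simp
  have hPe : ∀ x, P.derivative.eval x = (x - c) * R.eval x := by
    intro x; rw [hPR]; simp
  have hcon : ∀ x ∈ Icc (-1 : ℝ) 1, |P.eval x| = 1 → G.eval x = 0 := by
    intro x hx h1
    rw [hGe]
    rcases eq_or_lt_of_le hx.1 with h | h
    · rw [← h]; ring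
    rcases eq_or_lt_of_le hx.2 with h' | h'
    · rw [h']; ring
    have h2 := Pool.Agent.Helper40.AS.contact_int hE.bdd ⟨h, h'⟩ h1
    rw [hPe] at h2
    rcases mul_eq_zero.1 h2 with h3 | h3
    · exfalso
      have : x = c := by linarith
      rw [this] at h1
      exact hc h1
    · rw [h3, mul_zero]
  have k1 := Pool.Agent.Helper40.AS.kkt hE hab hGd (fun x hx h => by rw [hcon x hx h]; simp)
  have k2 := Pool.Agent.Helper40.AS.kkt hE hab (G := -G) (by rwa [degree_neg])
    (fun x hx h => by rw [eval_neg, hcon x hx h]; simp)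
  have k3 : (∫ x in a..b, P.derivative.eval x * G.derivative.eval x /
      √(1 + (P.derivative.eval x) ^ 2)) = 0 := by
    apply le_antisymm k1
    have : (∫ x in a..b, P.derivative.eval x * (-G).derivative.eval x /
        √(1 + (P.derivative.eval x) ^ 2)) = -(∫ x in a..b, P.derivative.eval x *
          G.derivative.eval x / √(1 + (P.derivative.eval x) ^ 2)) := by
      rw [← intervalIntegral.integral_neg]
      congr 1
      ext x
      rw [derivative_neg, eval_neg]
      ring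
    rw [this] at k2
    linarith
  have e1 : arc a b P = ∫ x in a..b, (√(1 + (P.derivative.eval x) ^ 2) +
      η * (P.derivative.eval x * G.derivative.eval x / √(1 + (P.derivative.eval x) ^ 2))) := by
    rw [intervalIntegral.integral_add, intervalIntegral.integral_const_mul, k3, mul_zero,
      add_zero, arc]
    · exact (Pool.Agent.Helper40.AS.cont_s P).intervalIntegrable _ _
    · exact ((Pool.Agent.Helper40.AS.cont_dens P G).const_mul η).intervalIntegrable _ _
  rw [e1, arc]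
  apply integral_mono_on hab
  · exact ((Pool.Agent.Helper40.AS.cont_s P).add
      ((Pool.Agent.Helper40.AS.cont_dens P G).const_mul η)).intervalIntegrable _ _
  · exact (Pool.Agent.Helper40.AS.cont_s _).intervalIntegrable _ _
  · intro x _
    have e2 : (P + C η * G).derivative.eval x =
        P.derivative.eval x + η * G.derivative.eval x := by
      simp [derivative_mul]
    rw [e2]
    exact Pool.Agent.Helper40.AS.tangent _ _ _

/-- bounds for the derivatives of the direction -/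
theorem bi_bounds (hMk : Mk) {n : ℕ} {K a b c : ℝ} {P R : ℝ[X]} (hn : 1 ≤ n)
    (ha : 1 / 2 ≤ a) (hb : b < 1) (hKa : (n : ℝ) ^ 2 * (1 - a) ≤ K) (hE : Ext n a b P)
    (hc : c ∈ Icc (-1 : ℝ) 1) (hPR : P.derivative = (X - C c) * R) {x : ℝ} (hx : x ∈ Icc a b) :
    |((1 - X ^ 2) * R).derivative.eval x| ≤ (8 + 8 * K) * (n : ℝ) ^ 4 ∧
      |((1 - X ^ 2) * R).derivative.derivative.eval x| ≤ (24 + 32 * K) * (n : ℝ) ^ 6 := by
  have hn0 : (1 : ℝ) ≤ n := by exact_mod_cast hn
  have hnp : (0 : ℝ) < n := by linarith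
  have hd : P.natDegree ≤ n := natDegree_le_of_degree_le hE.deg
  have hM := (hMk n P hn hd hE.bdd).2 c R hc hPR
  have hx1 : x ∈ Icc (-1 : ℝ) 1 := ⟨by linarith [hx.1], by linarith [hx.2]⟩
  obtain ⟨r0, r1⟩ := hM.2 x hx1
  -- the second derivative of R
  have r2 : |R.derivative.derivative.eval x| ≤ 16 * (n : ℝ) ^ 8 := by
    set S : ℝ[X] := C (1 / (4 * (n : ℝ) ^ 4)) * R with hS
    have hSd : S.natDegree ≤ n := (natDegree_C_mul_le _ _).trans (bi_deg hn hE hPR).2
    have hSb : Bdd S := by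
      intro y hy
      rw [hS, eval_mul, eval_C, abs_mul, abs_of_pos (by positivity)]
      have := (hM.2 y hy).1
      rw [div_mul_eq_mul_div, one_mul, div_le_one (by positivity)]
      exact this
    have h1 := (hMk n S hn hSd hSb).1 2 x hx1
    have h2 : (derivative^[2] S).eval x = 1 / (4 * (n : ℝ) ^ 4) * R.derivative.derivative.eval x := by
      rw [hS]
      simp [Function.iterate_succ, derivative_mul]
    rw [h2, abs_mul, abs_of_pos (by positivity : (0 : ℝ) < 1 / (4 * (n : ℝ) ^ 4)),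
      div_mul_eq_mul_div, one_mul, div_le_iff₀ (by positivity)] at h1
    calc |R.derivative.derivative.eval x| ≤ (2 * (n : ℝ) ^ 2) ^ 2 * (4 * (n : ℝ) ^ 4) := h1
      _ = 16 * (n : ℝ) ^ 8 := by ring
  have he1 : ((1 - X ^ 2) * R).derivative.eval x =
      -(2 * x) * R.eval x + (1 - x ^ 2) * R.derivative.eval x := by
    simp [derivative_mul]
    norm_num
  have he2 : ((1 - X ^ 2) * R).derivative.derivative.eval x =
      -2 * R.eval x + -(4 * x) * R.derivative.eval x +
        (1 - x ^ 2) * R.derivative.derivative.eval x := by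
    simp [derivative_mul]
    norm_num
    ring
  have hx2 : 0 ≤ 1 - x ^ 2 := by nlinarith [hx1.1, hx1.2]
  have hx3 : (n : ℝ) ^ 2 * (1 - x ^ 2) ≤ 2 * K := by
    have h3 : 1 - x ^ 2 ≤ 2 * (1 - a) := by nlinarith [hx.1, hx1.2]
    have h4 : (n : ℝ) ^ 2 * (1 - x ^ 2) ≤ (n : ℝ) ^ 2 * (2 * (1 - a)) :=
      mul_le_mul_of_nonneg_left h3 (by positivity)
    linarith
  have hxa : |x| ≤ 1 := abs_le.2 hx1
  constructor
  · rw [he1]
    have h5 : |-(2 * x) * R.eval x| ≤ 2 * (4 * (n : ℝ) ^ 4) := by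
      rw [abs_mul]
      have h6 : |-(2 * x)| ≤ 2 := by
        rw [abs_neg, abs_mul, abs_two]
        linarith
      exact mul_le_mul h6 r0 (abs_nonneg _) (by norm_num)
    have h7 : |(1 - x ^ 2) * R.derivative.eval x| ≤ 8 * K * (n : ℝ) ^ 4 := by
      rw [abs_mul, abs_of_nonneg hx2]
      calc (1 - x ^ 2) * |R.derivative.eval x| ≤ (1 - x ^ 2) * (4 * (n : ℝ) ^ 6) :=
            mul_le_mul_of_nonneg_left r1 hx2
        _ = ((n : ℝ) ^ 2 * (1 - x ^ 2)) * (4 * (n : ℝ) ^ 4) := by ring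
        _ ≤ (2 * K) * (4 * (n : ℝ) ^ 4) :=
            mul_le_mul_of_nonneg_right hx3 (by positivity)
        _ = 8 * K * (n : ℝ) ^ 4 := by ring
    calc _ ≤ |-(2 * x) * R.eval x| + |(1 - x ^ 2) * R.derivative.eval x| := abs_add_le _ _
      _ ≤ 2 * (4 * (n : ℝ) ^ 4) + 8 * K * (n : ℝ) ^ 4 := add_le_add h5 h7
      _ = (8 + 8 * K) * (n : ℝ) ^ 4 := by ring
  · rw [he2]
    have hn46 : (n : ℝ) ^ 4 ≤ (n : ℝ) ^ 6 := pow_le_pow_right₀ hn0 (by norm_num)
    have h5 : |-2 * R.eval x| ≤ 8 * (n : ℝ) ^ 6 := by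
      rw [abs_mul]
      have : |(-2 : ℝ)| = 2 := by norm_num
      rw [this]
      linarith
    have h6 : |-(4 * x) * R.derivative.eval x| ≤ 16 * (n : ℝ) ^ 6 := by
      rw [abs_mul]
      have h6 : |-(4 * x)| ≤ 4 := by
        rw [abs_neg, abs_mul]
        have : |(4 : ℝ)| = 4 := by norm_num
        rw [this]
        linarith
      calc |-(4 * x)| * |R.derivative.eval x| ≤ 4 * (4 * (n : ℝ) ^ 6) :=
            mul_le_mul h6 r1 (abs_nonneg _) (by norm_num)
        _ = 16 * (n : ℝ) ^ 6 := by ring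
    have h7 : |(1 - x ^ 2) * R.derivative.derivative.eval x| ≤ 32 * K * (n : ℝ) ^ 6 := by
      rw [abs_mul, abs_of_nonneg hx2]
      calc (1 - x ^ 2) * |R.derivative.derivative.eval x| ≤ (1 - x ^ 2) * (16 * (n : ℝ) ^ 8) :=
            mul_le_mul_of_nonneg_left r2 hx2
        _ = ((n : ℝ) ^ 2 * (1 - x ^ 2)) * (16 * (n : ℝ) ^ 6) := by ring
        _ ≤ (2 * K) * (16 * (n : ℝ) ^ 6) :=
            mul_le_mul_of_nonneg_right hx3 (by positivity)
        _ = 32 * K * (n : ℝ) ^ 6 := by ring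
    calc _ ≤ |-2 * R.eval x + -(4 * x) * R.derivative.eval x| +
          |(1 - x ^ 2) * R.derivative.derivative.eval x| := abs_add_le _ _
      _ ≤ |-2 * R.eval x| + |-(4 * x) * R.derivative.eval x| +
          |(1 - x ^ 2) * R.derivative.derivative.eval x| := by
          gcongr
          exact abs_add_le _ _
      _ ≤ 8 * (n : ℝ) ^ 6 + 16 * (n : ℝ) ^ 6 + 32 * K * (n : ℝ) ^ 6 := by gcongr
      _ = (24 + 32 * K) * (n : ℝ) ^ 6 := by ring

/-- variation and arc length -/
theorem bi_var (Q : ℝ[X]) {a b : ℝ} (hab : a ≤ b) :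
    arc a b Q - (b - a) ≤ Vp Q a b ∧ Vp Q a b ≤ arc a b Q := by
  have hc1 : Continuous fun x => |Q.derivative.eval x| := by fun_prop
  have hc2 := Pool.Agent.Helper40.AS.cont_s Q
  constructor
  · have h1 : arc a b Q ≤ ∫ x in a..b, (1 + |Q.derivative.eval x|) := by
      unfold arc
      refine integral_mono_on hab (hc2.intervalIntegrable _ _)
        ((continuous_const.add hc1).intervalIntegrable _ _) fun x _ => ?_
      rw [Real.sqrt_le_left (by positivity)]
      have := sq_abs (Q.derivative.eval x)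
      nlinarith [abs_nonneg (Q.derivative.eval x)]
    rw [intervalIntegral.integral_add (continuous_const.intervalIntegrable _ _)
      (hc1.intervalIntegrable _ _), intervalIntegral.integral_const, smul_eq_mul, mul_one] at h1
    unfold Vp
    linarith
  · unfold Vp arc
    refine integral_mono_on hab (hc1.intervalIntegrable _ _) (hc2.intervalIntegrable _ _)
      fun x _ => ?_
    apply Real.abs_le_sqrt
    linarith [sq_nonneg (Q.derivative.eval x)]

theorem bi (hMk : Mk) (hNc : Nc) (hNh : Nh) (hPe : Pe) (hTV1 : TV1) : Bi := by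
  intro K e hK he
  obtain ⟨h, c, e0, hh, hc, he0, N1, hN1⟩ := hNh K hK
  obtain ⟨M0, hM0, N2, hN2⟩ := hNc K hK
  obtain ⟨M, ε1, c2, hM, hε1, hc2, hpe⟩ := hPe K (min c e0) (min e e0 / 2) hK (by positivity)
    (by positivity)
  obtain ⟨c', hc', N3, hN3⟩ := hTV1 (√(5 * K)) (e / √(5 * K)) (h / 4) (c / 4)
    (Real.sqrt_pos.2 (by positivity)) (by positivity) (by positivity) (by positivity)
  set C1 : ℝ := 8 + 8 * K with hC1
  set C2 : ℝ := 24 + 32 * K with hC2
  have hC1p : 0 < C1 := by positivity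
  have hC2p : 0 < C2 := by positivity
  obtain ⟨ε, hε, hεa, hεb, hεc, hεd, hεe⟩ : ∃ ε : ℝ, 0 < ε ∧ ε ≤ ε1 ∧ M * ε ^ 2 ≤ 1 ∧
      ε * C1 ≤ h / 2 ∧ ε * C2 ≤ c / 2 ∧ 3 * K * M * ε ^ 2 ≤ c' * c2 * ε / 2 := by
    refine ⟨min (min ε1 (min 1 (1 / M))) (min (min (h / (2 * C1)) (c / (2 * C2)))
      (c' * c2 / (6 * K * M))), by positivity, ?_, ?_, ?_, ?_, ?_⟩
    · exact (min_le_left _ _).trans (min_le_left _ _)
    · set ε := min (min ε1 (min 1 (1 / M))) (min (min (h / (2 * C1)) (c / (2 * C2)))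
        (c' * c2 / (6 * K * M))) with hdef
      have hp : 0 < ε := by positivity
      have h1 : ε ≤ 1 := ((min_le_left _ _).trans (min_le_right _ _)).trans (min_le_left _ _)
      have h2 : ε ≤ 1 / M := ((min_le_left _ _).trans (min_le_right _ _)).trans (min_le_right _ _)
      rw [le_div_iff₀ hM] at h2
      calc M * ε ^ 2 = (ε * M) * ε := by ring
        _ ≤ 1 * 1 := by gcongr
        _ = 1 := one_mul 1
    · have h1 : min (min ε1 (min 1 (1 / M))) (min (min (h / (2 * C1)) (c / (2 * C2)))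
        (c' * c2 / (6 * K * M))) ≤ h / (2 * C1) :=
        ((min_le_right _ _).trans (min_le_left _ _)).trans (min_le_left _ _)
      rw [le_div_iff₀ (by positivity)] at h1
      linarith
    · have h1 : min (min ε1 (min 1 (1 / M))) (min (min (h / (2 * C1)) (c / (2 * C2)))
        (c' * c2 / (6 * K * M))) ≤ c / (2 * C2) :=
        ((min_le_right _ _).trans (min_le_left _ _)).trans (min_le_right _ _)
      rw [le_div_iff₀ (by positivity)] at h1
      linarith
    · set ε := min (min ε1 (min 1 (1 / M))) (min (min (h / (2 * C1)) (c / (2 * C2)))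
        (c' * c2 / (6 * K * M))) with hdef
      have hp : 0 < ε := by positivity
      have h1 : ε ≤ c' * c2 / (6 * K * M) := (min_le_right _ _).trans (min_le_right _ _)
      rw [le_div_iff₀ (by positivity)] at h1
      have h2 := mul_le_mul_of_nonneg_right h1 hp.le
      nlinarith
  obtain ⟨N4, hN4⟩ := exists_nat_gt (2 * M0 + 2 * K / (c' * c2 * ε))
  refine ⟨max (max N1 N2) (max N3 (max N4 1)), ?_⟩
  intro n hn a b t P hW hE ht h0 hta htb
  have hn1 : N1 ≤ n := le_trans (le_trans (le_max_left _ _) (le_max_left _ _)) hn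
  have hn2 : N2 ≤ n := le_trans (le_trans (le_max_right _ _) (le_max_left _ _)) hn
  have hn3 : N3 ≤ n := le_trans (le_trans (le_max_left _ _) (le_max_right _ _)) hn
  have hn4 : N4 ≤ n :=
    le_trans (le_trans (le_max_left _ _) (le_trans (le_max_right _ _) (le_max_right _ _))) hn
  by_contra hne
  obtain ⟨hn0, ha, hab, hb1, hKa⟩ := id hW
  have hnR : (1 : ℝ) ≤ (n : ℝ) := by exact_mod_cast hn0
  have hnp : (0 : ℝ) < n := by linarith
  have hn2pos : (0 : ℝ) < (n : ℝ) ^ 2 := by positivity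
  have hn4' : 2 * M0 + 2 * K / (c' * c2 * ε) < n := lt_of_lt_of_le hN4 (by exact_mod_cast hn4)
  have hnn : (n : ℝ) ≤ (n : ℝ) ^ 2 := by nlinarith
  have htI : t ∈ Icc a b := ⟨ht.1.le, ht.2.le⟩
  have htI1 : t ∈ Icc (-1 : ℝ) 1 := ⟨by linarith [ht.1], by linarith [ht.2]⟩
  have hd : P.natDegree ≤ n := natDegree_le_of_degree_le hE.deg
  obtain ⟨-, q2⟩ := hN1 n hn1 a b P hW hE
  obtain ⟨q3, q4⟩ := q2 t htI (by rw [h0, abs_zero]; positivity)
  obtain ⟨q5, q6⟩ := hN2 n hn2 a b t P hW hE ht h0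
  obtain ⟨R, hR⟩ := dvd_iff_isRoot.2 (show P.derivative.IsRoot t from h0)
  obtain ⟨hRt, -⟩ := (hMk n P hn0 hd hE.bdd).2 t R htI1 hR
  have hlen : (n : ℝ) ^ 2 * (b - a) ≤ K := by
    refine le_trans ?_ hKa
    gcongr
  have hhalf : 1 / 2 ≤ |P.eval t| := by
    refine le_trans ?_ q5
    have : M0 / (n : ℝ) ^ 2 ≤ 1 / 2 := by
      rw [div_le_iff₀ hn2pos]
      have : 0 < 2 * K / (c' * c2 * ε) := by positivity
      linarith
    linarith
  obtain ⟨p1, u, p2, p3, p4⟩ := hpe n P R t ε hn0 hd hE.bdd hR (by linarith [ht.1])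
    (by linarith [ht.2]) (le_trans (by gcongr; exact ht.1.le) hKa) ((min_le_right _ _).trans q4)
    (by
      have : min e e0 / 2 ≤ e0 := by
        have := min_le_right e e0
        linarith
      linarith) (by
      rw [hRt]
      refine le_trans ?_ q3
      gcongr
      exact min_le_left _ _) (by rw [hRt]; exact q6) hhalf hε hεa
  set G : ℝ[X] := (1 - X ^ 2) * R with hG
  set D : ℝ := 1 + M * ε ^ 2 with hD
  have hD1 : 1 ≤ D := by
    have : 0 ≤ M * ε ^ 2 := by positivity
    linarith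
  have hD2 : D ≤ 2 := by linarith
  have hDp : 0 < D := by linarith
  set F : ℝ[X] := P + C (ε / (n : ℝ) ^ 2) * G with hF
  have hFe : ∀ x, F.eval x = P.eval x + ε * ((1 - x ^ 2) * R.eval x / (n : ℝ) ^ 2) := by
    intro x
    rw [hF, hG]
    simp
    ring
  have hFd : ∀ x, F.derivative.eval x =
      P.derivative.eval x + ε * (G.derivative.eval x / (n : ℝ) ^ 2) := by
    intro x
    rw [hF]
    simp [derivative_mul]
    ring
  have hFdd : ∀ x, F.derivative.derivative.eval x =
      P.derivative.derivative.eval x + ε * (G.derivative.derivative.eval x / (n : ℝ) ^ 2) := by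
    intro x
    rw [hF]
    simp [derivative_mul]
    ring
  set Q : ℝ[X] := C D⁻¹ * F with hQ
  have hQe : ∀ x, Q.eval x = D⁻¹ * F.eval x := by intro x; rw [hQ]; simp
  have hQd : ∀ x, Q.derivative.eval x = D⁻¹ * F.derivative.eval x := by
    intro x; rw [hQ]; simp [derivative_mul]
  have hQdd : ∀ x, Q.derivative.derivative.eval x = D⁻¹ * F.derivative.derivative.eval x := by
    intro x; rw [hQ]; simp [derivative_mul]
  have hDi : 0 < D⁻¹ := inv_pos.2 hDp
  have hDi1 : D⁻¹ ≤ 1 := inv_le_one_of_one_le₀ hD1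
  have hDi2 : 1 / 2 ≤ D⁻¹ := by
    rw [one_div]
    exact inv_anti₀ hDp hD2
  have hGdeg := (bi_deg hn0 hE hR).1
  have hFdeg : F.degree ≤ n := by
    refine (degree_add_le _ _).trans (max_le hE.deg ?_)
    exact (Pool.Agent.Helper40.AS.deg_C_mul _ _).trans hGdeg
  have hQdeg : Q.natDegree ≤ n :=
    natDegree_le_of_degree_le ((Pool.Agent.Helper40.AS.deg_C_mul _ _).trans hFdeg)
  have hQb : Bdd Q := by
    intro x hx
    rw [hQe, abs_mul, abs_of_pos hDi, hFe]
    calc D⁻¹ * _ ≤ D⁻¹ * D := by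
          gcongr
          exact p1 x hx
      _ = 1 := inv_mul_cancel₀ hDp.ne'
  have hQu : Q.derivative.eval u = 0 := by
    rw [hQd, hFd, p3, mul_zero]
  have hQu2 : |Q.eval u| ≤ 1 - c2 * ε := by
    rw [hQe, abs_mul, abs_of_pos hDi, hFe]
    have h1 : 0 ≤ 1 - c2 * ε := (abs_nonneg _).trans p4
    calc D⁻¹ * _ ≤ 1 * (1 - c2 * ε) := by
          gcongr
      _ = 1 - c2 * ε := one_mul _
  have huI : u ∈ Icc a b := by
    have h1 : |u - t| * (n : ℝ) ^ 2 ≤ e / 2 := by
      rw [le_div_iff₀ hn2pos] at p2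
      have := min_le_left e e0
      linarith
    have h2 := abs_le.1 (le_refl |u - t|)
    constructor
    · by_contra hcon
      push Not at hcon
      have : t - a < |u - t| := by
        rw [abs_sub_comm]
        exact lt_of_lt_of_le (by linarith) (le_abs_self _)
      have h3 : (t - a) * (n : ℝ) ^ 2 < |u - t| * (n : ℝ) ^ 2 :=
        mul_lt_mul_of_pos_right this hn2pos
      linarith
    · by_contra hcon
      push Not at hcon
      have : b - t < |u - t| := lt_of_lt_of_le (by linarith) (le_abs_self _)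
      have h3 : (b - t) * (n : ℝ) ^ 2 < |u - t| * (n : ℝ) ^ 2 :=
        mul_lt_mul_of_pos_right this hn2pos
      linarith
  have hnd : ∀ x ∈ Icc a b, |Q.derivative.eval x| ≤ h / 4 * (n : ℝ) ^ 2 →
      c / 4 * (n : ℝ) ^ 4 ≤ |Q.derivative.derivative.eval x| := by
    intro x hx hxQ
    obtain ⟨g1, g2⟩ := bi_bounds hMk hn0 ha hb1 hKa hE htI1 hR hx
    have g1' : |ε * (G.derivative.eval x / (n : ℝ) ^ 2)| ≤ h / 2 * (n : ℝ) ^ 2 := by
      rw [abs_mul, abs_of_pos hε, abs_div, abs_of_pos hn2pos]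
      calc ε * (|G.derivative.eval x| / (n : ℝ) ^ 2)
          ≤ ε * (C1 * (n : ℝ) ^ 4 / (n : ℝ) ^ 2) := by gcongr
        _ = (ε * C1) * (n : ℝ) ^ 2 := by field_simp
        _ ≤ h / 2 * (n : ℝ) ^ 2 := by gcongr
    have g2' : |ε * (G.derivative.derivative.eval x / (n : ℝ) ^ 2)| ≤ c / 2 * (n : ℝ) ^ 4 := by
      rw [abs_mul, abs_of_pos hε, abs_div, abs_of_pos hn2pos]
      calc ε * (|G.derivative.derivative.eval x| / (n : ℝ) ^ 2)
          ≤ ε * (C2 * (n : ℝ) ^ 6 / (n : ℝ) ^ 2) := by gcongr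
        _ = (ε * C2) * (n : ℝ) ^ 4 := by field_simp
        _ ≤ c / 2 * (n : ℝ) ^ 4 := by gcongr
    have h3 : |F.derivative.eval x| ≤ h / 2 * (n : ℝ) ^ 2 := by
      rw [hQd, abs_mul, abs_of_pos hDi] at hxQ
      have h4 : 1 / 2 * |F.derivative.eval x| ≤ D⁻¹ * |F.derivative.eval x| := by gcongr
      linarith
    have h5 : |P.derivative.eval x| ≤ h * (n : ℝ) ^ 2 := by
      have e1 : P.derivative.eval x = F.derivative.eval x -
          ε * (G.derivative.eval x / (n : ℝ) ^ 2) := by rw [hFd]; ring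
      rw [e1]
      refine (abs_sub _ _).trans ?_
      linarith
    have h6 := (q2 x hx h5).1
    have h7 : c / 2 * (n : ℝ) ^ 4 ≤ |F.derivative.derivative.eval x| := by
      have e1 : P.derivative.derivative.eval x = F.derivative.derivative.eval x -
          ε * (G.derivative.derivative.eval x / (n : ℝ) ^ 2) := by rw [hFdd]; ring
      rw [e1] at h6
      have := abs_sub (F.derivative.derivative.eval x)
        (ε * (G.derivative.derivative.eval x / (n : ℝ) ^ 2))
      linarith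
    rw [hQdd, abs_mul, abs_of_pos hDi]
    calc c / 4 * (n : ℝ) ^ 4 = 1 / 2 * (c / 2 * (n : ℝ) ^ 4) := by ring
      _ ≤ D⁻¹ * |F.derivative.derivative.eval x| := by gcongr
  obtain ⟨w1, w2⟩ := bi_window hK hn0 ha hab hb1 hKa (e := e) (by
    refine hta.trans ?_
    gcongr
    exact ht.2.le)
  obtain ⟨S, hS1, hS2, hS3⟩ := hN3 n hn3 a b u Q (by linarith) hab hb1 w1 w2 hQdeg hQb hnd huI hQu
  have v1 : Vp S a b ≤ arc a b P :=
    (bi_var S hab.le).2.trans (hE.max S (natDegree_le_iff_degree_le.1 hS1) hS2)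
  have v2 : Vp Q a b = D⁻¹ * Vp F a b := by
    unfold Vp
    rw [← intervalIntegral.integral_const_mul]
    congr 1
    ext x
    rw [hQd, abs_mul, abs_of_pos hDi]
  have v3 : arc a b P - (b - a) ≤ Vp F a b :=
    le_trans (by linarith [bi_kkt hn0 hab.le hE hR hne (ε / (n : ℝ) ^ 2)]) (bi_var F hab.le).1
  have v4 : b - a ≤ arc a b P := by
    have h1 : (∫ x in a..b, (1 : ℝ)) ≤ arc a b P := by
      unfold arc
      exact integral_mono_on hab.le (continuous_const.intervalIntegrable _ _)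
        ((Pool.Agent.Helper40.AS.cont_s P).intervalIntegrable _ _)
        fun x _ => Pool.Agent.Helper40.AS.one_le_s P x
    rw [intervalIntegral.integral_const, smul_eq_mul, mul_one] at h1
    exact h1
  have v5 : arc a b P ≤ 3 * K := by
    have h1 : arc a b P ≤ ∫ x in a..b, (3 * (n : ℝ) ^ 2) := by
      unfold arc
      refine integral_mono_on hab.le ((Pool.Agent.Helper40.AS.cont_s P).intervalIntegrable _ _)
        (continuous_const.intervalIntegrable _ _) fun x hx => ?_
      have h2 := (hMk n P hn0 hd hE.bdd).1 1 x ⟨by linarith [hx.1], by linarith [hx.2]⟩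
      rw [Function.iterate_one, pow_one] at h2
      rw [Real.sqrt_le_left (by positivity)]
      have h3 : P.derivative.eval x ^ 2 ≤ (2 * (n : ℝ) ^ 2) ^ 2 := by
        rw [← sq_abs]
        gcongr
      nlinarith
    rw [intervalIntegral.integral_const, smul_eq_mul] at h1
    calc arc a b P ≤ (b - a) * (3 * (n : ℝ) ^ 2) := h1
      _ = 3 * ((n : ℝ) ^ 2 * (b - a)) := by ring
      _ ≤ 3 * K := by gcongr
  have v6 : 1 - M * ε ^ 2 ≤ D⁻¹ := by
    rw [← one_div, le_div_iff₀ hDp, hD]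
    have : 0 ≤ (M * ε ^ 2) ^ 2 := sq_nonneg _
    nlinarith
  have v7 : arc a b P - (b - a) - M * ε ^ 2 * (3 * K) ≤ Vp Q a b := by
    rw [v2]
    have h1 : 0 ≤ arc a b P - (b - a) := by linarith
    calc arc a b P - (b - a) - M * ε ^ 2 * (3 * K)
        ≤ (1 - M * ε ^ 2) * (arc a b P - (b - a)) := by
          have h2 : 0 ≤ M * ε ^ 2 := by positivity
          have h3 : M * ε ^ 2 * (arc a b P - (b - a)) ≤ M * ε ^ 2 * (3 * K) :=
            mul_le_mul_of_nonneg_left (by linarith) h2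
          linarith
      _ ≤ D⁻¹ * (arc a b P - (b - a)) := mul_le_mul_of_nonneg_right v6 h1
      _ ≤ D⁻¹ * Vp F a b := mul_le_mul_of_nonneg_left v3 hDi.le
  clear hpe
  have v8 : c' * (c2 * ε) ≤ c' * (1 - |Q.eval u|) := by
    apply mul_le_mul_of_nonneg_left _ hc'.le
    linarith
  have v9 : c' * c2 * ε ≤ (b - a) + 3 * K * M * ε ^ 2 := by linarith
  have v10 : c' * c2 * ε / 2 ≤ b - a := by linarith
  have v11 : c' * c2 * ε / 2 * (n : ℝ) ^ 2 ≤ K := by
    have := mul_le_mul_of_nonneg_right v10 hn2pos.le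
    linarith
  have hpos : 0 < c' * c2 * ε := by positivity
  have v12 : 2 * K / (c' * c2 * ε) < (n : ℝ) ^ 2 := by linarith
  rw [div_lt_iff₀ hpos] at v12
  linarith

end Pool.Agent.Helper10.AL
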