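import Pool.Agent.Helper10.AL.St9

/-! Project AH, piece Bl: critical points near the left end of the window are contact points. -/

set_option autoImplicit false

namespace Pool.Agent.Helper10.AL

open Polynomial Set Real MeasureTheory intervalIntegral
open Pool.Agent.Helper40.AS (arc Bdd Ext quad)

/-- second order condition at a contact point -/
theorem bl_pp {P : ℝ[X]} (hP : Bdd P) {x : ℝ} (hx : x ∈ Ioo (-1 : ℝ) 1) (h1 : |P.eval x| = 1)
    (h2 : P.derivative.derivative.eval x ≠ 0) :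
    P.eval x * P.derivative.derivative.eval x < 0 := by
  by_contra hcon
  push Not at hcon
  have hPx : P.eval x ≠ 0 := by
    intro h
    rw [h, abs_zero] at h1
    exact zero_ne_one h1
  have hpos : 0 < P.eval x * P.derivative.derivative.eval x :=
    lt_of_le_of_ne hcon (mul_ne_zero hPx h2).symm
  set f : ℝ → ℝ := fun y => P.eval x * P.eval y with hf
  have hd1 : deriv f = fun y => P.eval x * P.derivative.eval y := by
    funext y
    exact ((P.hasDerivAt y).const_mul (P.eval x)).deriv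
  have hd2 : deriv (deriv f) x = P.eval x * P.derivative.derivative.eval x := by
    rw [hd1]
    exact ((P.derivative.hasDerivAt x).const_mul (P.eval x)).deriv
  have hmin : IsLocalMin f x := by
    refine isLocalMin_of_deriv_deriv_pos (by rw [hd2]; exact hpos) ?_ ?_
    · rw [hd1]
      simp only
      rw [Pool.Agent.Helper40.AS.contact_int hP hx h1, mul_zero]
    · exact (by fun_prop : Continuous f).continuousAt
  have hsq : P.eval x * P.eval x = 1 := by rw [← abs_mul_abs_self, h1, one_mul]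
  have hmax : IsLocalMax f x := by
    filter_upwards [Ioo_mem_nhds hx.1 hx.2] with y hy
    have h3 := hP y ⟨hy.1.le, hy.2.le⟩
    simp only [hf]
    rw [hsq]
    calc P.eval x * P.eval y ≤ |P.eval x * P.eval y| := le_abs_self _
      _ = |P.eval y| := by rw [abs_mul, h1, one_mul]
      _ ≤ 1 := h3
  have heq : f =ᶠ[nhds x] fun _ => f x := by
    filter_upwards [hmin, hmax] with y h3 h4
    exact le_antisymm h4 h3
  have h5 := heq.deriv.deriv_eq
  rw [hd2] at h5
  simp only [deriv_const', deriv_const] at h5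
  linarith

/-- Bernstein's inequality for the difference to the Chebyshev polynomial -/
theorem bl_bern (hA1 : A1) (hA2 : A2) {n : ℕ} (hn : 1 ≤ n) {P : ℝ[X]} (hdeg : P.natDegree ≤ n)
    (hP : Bdd P) {σ C1 : ℝ} (hC : 0 < C1)
    (h : ∀ θ : ℝ, |qq P θ - σ * cos (n * θ)| ≤ C1 / n) (θ : ℝ) :
    |deriv (qq P) θ + σ * n * sin (n * θ)| ≤ C1 ∧
      |deriv (deriv (qq P)) θ + σ * n ^ 2 * cos (n * θ)| ≤ C1 * n := by
  have hn0 : (0 : ℝ) < n := by exact_mod_cast hn
  have hTq : (fun θ : ℝ => (Chebyshev.T ℝ (n : ℤ)).eval (0 + 1 * cos θ + 0 * sin θ)) =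
      fun θ : ℝ => cos (n * θ) := by
    funext x
    rw [zero_add, one_mul, zero_mul, add_zero, Chebyshev.T_real_cos]
    norm_cast
  have hTdeg : (Chebyshev.T ℝ (n : ℤ)).natDegree ≤ n := by
    rw [Chebyshev.natDegree_T]
    simp
  have hT := hA1.2.2 n 0 1 0 _ hTdeg
  rw [hTq] at hT
  have hPT := (hA2.2.1 n P hdeg hP).1
  have hD := (hA1.2.1 n _ _ hPT ((hA1.1 n _ hT).2.2.1 σ)).2
  have hG := (hA1.1 n _ hD).2.2.1 (n / C1)
  have hTB : TB n (fun θ => n / C1 * (qq P θ - σ * cos (n * θ))) := by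
    refine ⟨hG, fun x => ?_⟩
    rw [abs_mul, abs_of_pos (by positivity)]
    calc n / C1 * |qq P x - σ * cos (n * x)| ≤ n / C1 * (C1 / n) := by
          gcongr
          exact h x
      _ = 1 := by field_simp
  have hqd : ∀ x, HasDerivAt (qq P) (deriv (qq P) x) x := fun x =>
    (((hA1.1 n _ hPT).1 1).differentiable (by norm_num) x).hasDerivAt
  have hqd2 : ∀ x, HasDerivAt (deriv (qq P)) (deriv (deriv (qq P)) x) x := fun x =>
    (((hA1.1 n _ (hA1.1 n _ hPT).2.1).1 1).differentiable (by norm_num) x).hasDerivAt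
  have hlin : ∀ x : ℝ, HasDerivAt (fun x : ℝ => (n : ℝ) * x) n x := fun x => by
    simpa using (hasDerivAt_id x).const_mul (n : ℝ)
  have hd1 : deriv (fun θ => n / C1 * (qq P θ - σ * cos (n * θ))) =
      fun θ => n / C1 * (deriv (qq P) θ + σ * n * sin (n * θ)) := by
    funext x
    have e1 := ((hqd x).sub (((hlin x).cos).const_mul σ)).const_mul (n / C1)
    exact HasDerivAt.deriv (show HasDerivAt (fun θ => n / C1 * (qq P θ - σ * cos (n * θ)))
      (n / C1 * (deriv (qq P) x + σ * n * sin (n * x))) x from e1.congr_deriv (by ring))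
  have hd2 : deriv (deriv (fun θ => n / C1 * (qq P θ - σ * cos (n * θ)))) =
      fun θ => n / C1 * (deriv (deriv (qq P)) θ + σ * n ^ 2 * cos (n * θ)) := by
    rw [hd1]
    funext x
    have e1 := ((hqd2 x).add (((hlin x).sin).const_mul (σ * n))).const_mul (n / C1)
    exact HasDerivAt.deriv (show HasDerivAt (fun θ => n / C1 * (deriv (qq P) θ +
      σ * n * sin (n * θ))) (n / C1 * (deriv (deriv (qq P)) x + σ * n ^ 2 * cos (n * x))) x
      from e1.congr_deriv (by ring))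
  obtain ⟨-, -, h3, h4, -⟩ := (hA2.1 n _ hn hTB).2 θ
  rw [hd1] at h3
  rw [hd2] at h4
  rw [abs_mul, abs_of_pos (show (0 : ℝ) < n / C1 by positivity)] at h3 h4
  constructor
  · rw [div_mul_eq_mul_div, div_le_iff₀ hC] at h3
    have : (n : ℝ) * |deriv (qq P) θ + σ * n * sin (n * θ)| ≤ n * C1 := h3
    exact le_of_mul_le_mul_left this hn0
  · rw [div_mul_eq_mul_div, div_le_iff₀ hC] at h4
    have : (n : ℝ) * |deriv (deriv (qq P)) θ + σ * n ^ 2 * cos (n * θ)| ≤ n * (C1 * n) := by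
      linarith
    exact le_of_mul_le_mul_left this hn0

/-- compactness -/
theorem bl_sin {w0 W : ℝ} (hw0 : 0 < w0) : ∃ c4 : ℝ, 0 < c4 ∧ c4 ≤ 1 ∧ ∀ w : ℝ, w0 ≤ w → w ≤ W →
    |sin w| ≤ (1 - c4) * w := by
  rcases lt_or_ge W w0 with h | h
  · exact ⟨1, one_pos, le_rfl, fun w h1 h2 => by linarith⟩
  · obtain ⟨w1, hw1, hmax⟩ := isCompact_Icc.exists_isMaxOn (nonempty_Icc.2 h)
      (f := fun w => |sin w| / w) (by
        refine ContinuousOn.div (by fun_prop) (by fun_prop) fun w hw => ?_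
        have := hw.1
        linarith)
    have hw1' : 0 < w1 := by linarith [hw1.1]
    have h1 : |sin w1| / w1 < 1 := by
      rw [div_lt_one hw1']
      have := Real.abs_sin_lt_abs hw1'.ne'
      rwa [abs_of_pos hw1'] at this
    have h2 : 0 ≤ |sin w1| / w1 := by positivity
    refine ⟨1 - |sin w1| / w1, by linarith, by linarith, fun w h3 h4 => ?_⟩
    have h5 : |sin w| / w ≤ |sin w1| / w1 := hmax ⟨h3, h4⟩
    have hw : 0 < w := by linarith
    rw [div_le_iff₀ hw] at h5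
    linarith

/-- angles near `0` -/
theorem bl_ang {t b : ℝ} (ht : 1 / 2 ≤ t) (htb : t < b) (hb : b < 1) :
    0 < arccos b ∧ arccos b < arccos t ∧ arccos t ≤ π / 3 ∧
    sin (arccos b) * (arccos t - arccos b) ≤ b - t ∧
    b - t ≤ arccos t * (arccos t - arccos b) ∧ arccos t ^ 2 ≤ 5 * (1 - t) := by
  set τ := arccos t with hτ
  set β := arccos b with hβ
  have hct : cos τ = t := Real.cos_arccos (by linarith) (by linarith)
  have hcb : cos β = b := Real.cos_arccos (by linarith) (by linarith)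
  have hβ0 : 0 < β := Real.arccos_pos.2 hb
  have hβτ : β < τ := Real.strictAntiOn_arccos ⟨by linarith, by linarith⟩
    ⟨by linarith, by linarith⟩ htb
  have hτπ : τ ≤ π / 3 := by
    have h1 : cos (π / 3) ≤ cos τ := by rw [hct, Real.cos_pi_div_three]; exact ht
    by_contra hcon
    push Not at hcon
    have := Real.cos_lt_cos_of_nonneg_of_le_pi (by positivity) (Real.arccos_le_pi t) hcon
    linarith
  have hpi := Real.pi_pos
  refine ⟨hβ0, hβτ, hτπ, ?_, ?_, ?_⟩
  · have h1 : 2 * sin ((τ + β) / 2) * sin ((τ - β) / 2) = b - t := by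
      rw [← hcb, ← hct, Real.cos_sub_cos]
      have e3 : sin ((β - τ) / 2) = -sin ((τ - β) / 2) := by
        rw [← Real.sin_neg]
        congr 1
        ring
      rw [e3, add_comm β τ]
      ring
    have h2 : b - t = ∫ x in β..τ, sin x := by
      rw [integral_sin, hcb, hct]
    rw [h2]
    have h3 : sin β * (τ - β) = ∫ _ in β..τ, sin β := by
      rw [intervalIntegral.integral_const, smul_eq_mul]
      ring
    rw [h3]
    apply intervalIntegral.integral_mono_on hβτ.le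
    · exact continuous_const.intervalIntegrable _ _
    · exact Real.continuous_sin.intervalIntegrable _ _
    · intro x hx
      exact Real.sin_le_sin_of_le_of_le_pi_div_two (by linarith) (by linarith [hx.2]) hx.1
  · rw [← hcb, ← hct, Real.cos_sub_cos]
    have e1 : sin ((β + τ) / 2) ≤ (β + τ) / 2 := Real.sin_le (by linarith)
    have e2 : sin ((τ - β) / 2) ≤ (τ - β) / 2 := Real.sin_le (by linarith)
    have e3 : sin ((β - τ) / 2) = -sin ((τ - β) / 2) := by
      rw [← Real.sin_neg]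
      congr 1
      ring
    have e4 : 0 ≤ sin ((β + τ) / 2) := Real.sin_nonneg_of_nonneg_of_le_pi (by linarith)
      (by linarith)
    have e5 : 0 ≤ sin ((τ - β) / 2) := Real.sin_nonneg_of_nonneg_of_le_pi (by linarith)
      (by linarith)
    rw [e3]
    have e6 : sin ((β + τ) / 2) * sin ((τ - β) / 2) ≤ (β + τ) / 2 * ((τ - β) / 2) :=
      mul_le_mul e1 e2 e5 (by linarith)
    nlinarith
  · have h2 := Real.cos_le_one_sub_mul_cos_sq (x := τ) (by
      rw [abs_of_pos (by linarith)]; linarith)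
    have h3 : 1 / 5 ≤ 2 / π ^ 2 := by
      rw [div_le_div_iff₀ (by norm_num) (by positivity)]
      have := Real.pi_lt_d2
      nlinarith [Real.pi_pos]
    rw [hct] at h2
    nlinarith [sq_nonneg τ]

/-- the estimate at the critical point `t`, from closeness to the Chebyshev polynomial -/
theorem bl_fin (hA1 : A1) (hA2 : A2) {n : ℕ} (hn : 1 ≤ n) {P : ℝ[X]} (hdeg : P.natDegree ≤ n)
    (hP : Bdd P) {σ C1 : ℝ} (hσ : σ = 1 ∨ σ = -1) (hC : 0 < C1)
    (h : ∀ θ : ℝ, |qq P θ - σ * cos (n * θ)| ≤ C1 / n) {t b K w0 c4 : ℝ} (hw0 : 0 < w0)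
    (ht : 1 / 2 ≤ t) (htb : t < b) (hb : b < 1) (hct : P.derivative.eval t = 0)
    (hKt : (n : ℝ) ^ 2 * (1 - t) ≤ K) (hw : w0 ≤ n * (arccos t - arccos b))
    (hsin : ∀ w : ℝ, w0 ≤ w → w ≤ √(5 * K) → |sin w| ≤ (1 - c4) * w) :
    (n : ℝ) ^ 2 - (C1 ^ 2 + C1) * n ≤ (1 - t ^ 2) * |P.derivative.derivative.eval t| ∧
      (1 - b ^ 2) * |P.derivative.eval b| / (b - t) ≤ (1 - c4) * n ^ 2 + 2 * C1 / w0 * n := by
  have hn0 : (0 : ℝ) < n := by exact_mod_cast hn
  have hn1 : (1 : ℝ) ≤ n := by exact_mod_cast hn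
  obtain ⟨a1, a2, a3, a4, a5, a6⟩ := bl_ang ht htb hb
  set τ := arccos t with hτ
  set β := arccos b with hβ
  have hcτ : cos τ = t := Real.cos_arccos (by linarith) (by linarith)
  have hcb : cos β = b := Real.cos_arccos (by linarith) (by linarith)
  have hpi := Real.pi_pos
  have hsτ : 0 < sin τ := Real.sin_pos_of_pos_of_lt_pi (by linarith) (by linarith)
  have hsβ : 0 < sin β := Real.sin_pos_of_pos_of_lt_pi (by linarith) (by linarith)
  have hσ1 : |σ| = 1 := by rcases hσ with e | e <;> rw [e] <;> simp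
  obtain ⟨b1, b2⟩ := bl_bern hA1 hA2 hn hdeg hP hC h τ
  obtain ⟨b3, -⟩ := bl_bern hA1 hA2 hn hdeg hP hC h β
  obtain ⟨d1, d2⟩ := hA2.2.2 P τ
  obtain ⟨d3, -⟩ := hA2.2.2 P β
  rw [hcτ, hct, mul_zero, neg_zero] at d1
  rw [hcτ, hct, mul_zero, sub_zero] at d2
  rw [hcb] at d3
  rw [d1, zero_add, abs_mul, abs_mul, hσ1, one_mul, abs_of_pos hn0] at b1
  have hs1 : |sin (n * τ)| ≤ C1 / n := by
    rw [le_div_iff₀ hn0]; linarith
  constructor
  · have h1 : (1 - t ^ 2) * |P.derivative.derivative.eval t| = |deriv (deriv (qq P)) τ| := by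
      rw [d2, abs_mul, abs_of_pos (pow_pos hsτ 2), Real.sin_sq, hcτ]
    rw [h1]
    have h2 : (n : ℝ) ^ 2 * |cos (n * τ)| - C1 * n ≤ |deriv (deriv (qq P)) τ| := by
      have h3 : |σ * n ^ 2 * cos (n * τ)| = (n : ℝ) ^ 2 * |cos (n * τ)| := by
        rw [abs_mul, abs_mul, hσ1, one_mul, abs_of_pos (by positivity)]
      have h4 := abs_sub_abs_le_abs_sub (σ * n ^ 2 * cos (n * τ)) (-deriv (deriv (qq P)) τ)
      rw [h3, abs_neg, sub_neg_eq_add, add_comm (σ * (n : ℝ) ^ 2 * cos (n * τ))] at h4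
      linarith
    have h3 : 1 - (C1 / n) ^ 2 ≤ |cos (n * τ)| := by
      have h4 : |cos (n * τ)| ≤ 1 := Real.abs_cos_le_one _
      have h5 := Real.sin_sq_add_cos_sq (n * τ)
      have h6 : sin (n * τ) ^ 2 ≤ (C1 / n) ^ 2 := by
        rw [← sq_abs (sin (n * τ))]
        have := abs_nonneg (sin (n * τ))
        gcongr
      have h7 : cos (n * τ) ^ 2 ≤ |cos (n * τ)| := by
        rw [← sq_abs]
        exact pow_le_of_le_one (abs_nonneg _) h4 (by norm_num)
      linarith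
    have h4 : (n : ℝ) ^ 2 * (1 - (C1 / n) ^ 2) = (n : ℝ) ^ 2 - C1 ^ 2 := by
      field_simp
    have h5 : (n : ℝ) ^ 2 * (1 - (C1 / n) ^ 2) ≤ (n : ℝ) ^ 2 * |cos (n * τ)| := by gcongr
    have h6 : C1 ^ 2 ≤ C1 ^ 2 * n := le_mul_of_one_le_right (sq_nonneg C1) hn1
    linarith
  · set w := n * (τ - β) with hwd
    have hw' : 0 < w := by linarith
    have hwK : w ≤ √(5 * K) := by
      apply Real.le_sqrt_of_sq_le
      have h1 : w ^ 2 ≤ (n * τ) ^ 2 := by
        have : w ≤ n * τ := by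
          rw [hwd]
          gcongr
          linarith
        gcongr
      have h2 : ((n : ℝ) * τ) ^ 2 = (n : ℝ) ^ 2 * τ ^ 2 := by ring
      have h3 : (n : ℝ) ^ 2 * τ ^ 2 ≤ (n : ℝ) ^ 2 * (5 * (1 - t)) := by gcongr
      linarith
    have hsw := hsin w hw hwK
    have hsβn : |sin (n * β)| ≤ C1 / n + |sin w| := by
      have e1 : n * β = n * τ - w := by rw [hwd]; ring
      rw [e1, Real.sin_sub]
      calc |sin (n * τ) * cos w - cos (n * τ) * sin w| ≤ |sin (n * τ) * cos w| +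
            |cos (n * τ) * sin w| := abs_sub _ _
        _ ≤ |sin (n * τ)| * 1 + 1 * |sin w| := by
            rw [abs_mul, abs_mul]
            gcongr
            · exact Real.abs_cos_le_one _
            · exact Real.abs_cos_le_one _
        _ ≤ C1 / n + |sin w| := by linarith
    have h1 : |deriv (qq P) β| ≤ n * |sin w| + 2 * C1 := by
      have h2 := abs_sub_abs_le_abs_sub (deriv (qq P) β) (-(σ * n * sin (n * β)))
      rw [sub_neg_eq_add, abs_neg, abs_mul, abs_mul, hσ1, one_mul, abs_of_pos hn0] at h2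
      have h3 : (n : ℝ) * |sin (n * β)| ≤ n * (C1 / n + |sin w|) := by gcongr
      have h4 : (n : ℝ) * (C1 / n + |sin w|) = C1 + n * |sin w| := by field_simp
      linarith
    have h2 : (1 - b ^ 2) * |P.derivative.eval b| = sin β * |deriv (qq P) β| := by
      rw [d3, abs_neg, abs_mul, abs_of_pos hsβ]
      have : 1 - b ^ 2 = sin β * sin β := by
        have e1 := Real.sin_sq_add_cos_sq β
        rw [hcb] at e1
        linear_combination -e1
      rw [this]
      ring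
    have hbt : 0 < b - t := by linarith
    rw [h2, div_le_iff₀ hbt]
    have h3 : sin β * |deriv (qq P) β| ≤ sin β * ((1 - c4) * (n * w) + 2 * C1) := by
      gcongr
      refine h1.trans ?_
      have : (n : ℝ) * |sin w| ≤ n * ((1 - c4) * w) := by gcongr
      linarith
    refine h3.trans ?_
    have h4 : (1 - c4) * (n * w) + 2 * C1 ≤
        ((1 - c4) * n ^ 2 + 2 * C1 / w0 * n) * (τ - β) := by
      have e1 : ((1 - c4) * (n : ℝ) ^ 2 + 2 * C1 / w0 * n) * (τ - β) =
          (1 - c4) * (n * w) + 2 * C1 / w0 * w := by rw [hwd]; ring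
      rw [e1]
      have e2 : 2 * C1 / w0 * w0 ≤ 2 * C1 / w0 * w := by gcongr
      have e3 : 2 * C1 / w0 * w0 = 2 * C1 := by field_simp
      linarith
    have h5 : 0 ≤ (1 - c4) * (n : ℝ) ^ 2 + 2 * C1 / w0 * n := by
      have h6 : 0 ≤ (1 - c4) * w := (abs_nonneg _).trans hsw
      have h7 : 0 ≤ 1 - c4 := nonneg_of_mul_nonneg_left h6 hw'
      positivity
    calc sin β * ((1 - c4) * (n * w) + 2 * C1) ≤
          sin β * (((1 - c4) * n ^ 2 + 2 * C1 / w0 * n) * (τ - β)) := by gcongr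
      _ = ((1 - c4) * n ^ 2 + 2 * C1 / w0 * n) * (sin β * (τ - β)) := by ring
      _ ≤ ((1 - c4) * n ^ 2 + 2 * C1 / w0 * n) * (b - t) := by gcongr

/-- the left end of the window -/
theorem bl_left (hMk : Mk) {n : ℕ} {K a b t e : ℝ} {P : ℝ[X]} (hW : Wh n K a b)
    (hP : Ext n a b P) (ht : t ∈ Ioo a b) (hct : P.derivative.eval t = 0)
    (he : (n : ℝ) ^ 2 * (t - a) ≤ e) :
    |P.derivative.eval a| ≤ 4 * e * (n : ℝ) ^ 2 ∧
    (1 - a ^ 2) * |P.derivative.eval a| / (t - a) ≤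
      (1 - t ^ 2) * |P.derivative.derivative.eval t| + 8 * (1 + K) * e * (n : ℝ) ^ 2 ∧
    ∀ x ∈ Icc (-1 : ℝ) 1, P.derivative.eval x = 0 → x ≠ t →
      |P.derivative.derivative.eval t| ≤ 4 * (n : ℝ) ^ 6 * |x - t| := by
  obtain ⟨hn, ha, hab, hb, hKa⟩ := hW
  have hn0 : (0 : ℝ) < n := by exact_mod_cast hn
  have hdeg : P.natDegree ≤ n := natDegree_le_iff_degree_le.2 hP.deg
  obtain ⟨R, hR⟩ := dvd_iff_isRoot.2 (show IsRoot P.derivative t from hct)
  obtain ⟨m1, m2⟩ := hMk n P hn hdeg hP.bdd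
  have htI : t ∈ Icc (-1 : ℝ) 1 := ⟨by linarith [ht.1], by linarith [ht.2]⟩
  have haI : a ∈ Icc (-1 : ℝ) 1 := ⟨by linarith, by linarith⟩
  obtain ⟨r1, r2⟩ := m2 t R htI hR
  have hlip : ∀ x ∈ Icc (-1 : ℝ) 1, |R.eval x - R.eval t| ≤ 4 * (n : ℝ) ^ 6 * |x - t| := by
    intro x hx
    have := (convex_Icc (-1 : ℝ) 1).norm_image_sub_le_of_norm_hasDerivWithin_le
      (f := fun y => R.eval y) (f' := fun y => R.derivative.eval y) (C := 4 * (n : ℝ) ^ 6)
      (fun y _ => (R.hasDerivAt y).hasDerivWithinAt)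
      (fun y hy => by rw [Real.norm_eq_abs]; exact (r2 y hy).2) htI hx
    simpa only [Real.norm_eq_abs] using this
  have hta : 0 < t - a := by linarith [ht.1]
  have hPa : |P.derivative.eval a| = (t - a) * |R.eval a| := by
    rw [hR, eval_mul, eval_sub, eval_X, eval_C, abs_mul, abs_sub_comm, abs_of_pos hta]
  refine ⟨?_, ?_, ?_⟩
  · have h1 := (r2 a haI).1
    rw [hPa]
    calc (t - a) * |R.eval a| ≤ (t - a) * (4 * (n : ℝ) ^ 4) := by gcongr
      _ = 4 * ((n : ℝ) ^ 2 * (t - a)) * (n : ℝ) ^ 2 := by ring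
      _ ≤ 4 * e * (n : ℝ) ^ 2 := by gcongr
  · have h2 : (1 - a ^ 2) * |P.derivative.eval a| / (t - a) = (1 - a ^ 2) * |R.eval a| := by
      rw [hPa]
      field_simp
    rw [h2, ← r1]
    have h3 : |R.eval a| ≤ |R.eval t| + 4 * (n : ℝ) ^ 6 * (t - a) := by
      have h4 := hlip a haI
      rw [abs_sub_comm a t, abs_of_pos hta] at h4
      have h5 := abs_sub_abs_le_abs_sub (R.eval a) (R.eval t)
      linarith
    have h6 : 0 ≤ 1 - a ^ 2 := by nlinarith
    have h7 : 1 - a ^ 2 ≤ (1 - t ^ 2) + 2 * (t - a) := by nlinarith [ht.1, ht.2]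
    have h8 : 1 - a ^ 2 ≤ 2 * (1 - a) := by nlinarith
    have h9 : |R.eval t| ≤ 4 * (n : ℝ) ^ 4 := (r2 t htI).1
    have h10 : (1 - a ^ 2) * |R.eval t| ≤ (1 - t ^ 2) * |R.eval t| + 8 * e * (n : ℝ) ^ 2 := by
      calc (1 - a ^ 2) * |R.eval t| ≤ ((1 - t ^ 2) + 2 * (t - a)) * |R.eval t| := by gcongr
        _ = (1 - t ^ 2) * |R.eval t| + 2 * (t - a) * |R.eval t| := by ring
        _ ≤ (1 - t ^ 2) * |R.eval t| + 2 * (t - a) * (4 * (n : ℝ) ^ 4) := by gcongr
        _ = (1 - t ^ 2) * |R.eval t| + 8 * ((n : ℝ) ^ 2 * (t - a)) * (n : ℝ) ^ 2 := by ring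
        _ ≤ (1 - t ^ 2) * |R.eval t| + 8 * e * (n : ℝ) ^ 2 := by gcongr
    have h11 : (1 - a ^ 2) * (4 * (n : ℝ) ^ 6 * (t - a)) ≤ 8 * K * e * (n : ℝ) ^ 2 := by
      have he0 : 0 ≤ (n : ℝ) ^ 2 * (t - a) := by positivity
      calc (1 - a ^ 2) * (4 * (n : ℝ) ^ 6 * (t - a)) ≤
            (2 * (1 - a)) * (4 * (n : ℝ) ^ 6 * (t - a)) := by gcongr
        _ = 8 * ((n : ℝ) ^ 2 * (1 - a)) * ((n : ℝ) ^ 2 * (t - a)) * (n : ℝ) ^ 2 := by ring
        _ ≤ 8 * K * e * (n : ℝ) ^ 2 := by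
            have hK0 : 0 ≤ K := by
              have : 0 ≤ (n : ℝ) ^ 2 * (1 - a) := mul_nonneg (by positivity) (by linarith)
              linarith
            gcongr
    calc (1 - a ^ 2) * |R.eval a| ≤ (1 - a ^ 2) * (|R.eval t| + 4 * (n : ℝ) ^ 6 * (t - a)) := by
          gcongr
      _ = (1 - a ^ 2) * |R.eval t| + (1 - a ^ 2) * (4 * (n : ℝ) ^ 6 * (t - a)) := by ring
      _ ≤ (1 - t ^ 2) * |R.eval t| + 8 * (1 + K) * e * (n : ℝ) ^ 2 := by linarith
  · intro x hx hx0 hxt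
    have h1 : R.eval x = 0 := by
      rw [hR, eval_mul, eval_sub, eval_X, eval_C] at hx0
      exact (mul_eq_zero.1 hx0).resolve_left (sub_ne_zero.2 hxt)
    have h2 := hlip x hx
    rw [h1, zero_sub, abs_neg, r1] at h2
    exact h2

theorem bl (hA1 : A1) (hA2 : A2) (hBi : Bi) (hBr : Br) (hFh : Fh) (hHHh : HHh) (hMk : Mk)
    (hNc : Nc) (hNh : Nh) (hNp1 : Np1) (hNp2 : Np2) (hOz : Oz) : Bl := by
  intro K hK
  obtain ⟨h, c, e0, hh, hc, he0, n1, H1⟩ := hNh K hK
  obtain ⟨M, hM, n2, H2⟩ := hFh K hK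
  obtain ⟨MN, hMN, n3, H3⟩ := hNc K hK
  obtain ⟨eR, heR, n4, H4⟩ := hBr K hK
  obtain ⟨M2, hM2, H5⟩ := hNp2
  have hc3 : 0 < c * e0 ^ 2 / 4 := by positivity
  obtain ⟨eO, heO, n6, H6⟩ := hOz K (c * e0 ^ 2 / 4) hK hc3
  obtain ⟨n7, H7⟩ := hHHh K hK
  have h5K : 0 < √(5 * K) := Real.sqrt_pos.2 (by positivity)
  set w0 := e0 / (2 * √(5 * K)) with hw0d
  have hw0 : 0 < w0 := by positivity
  obtain ⟨c4, hc4, hc41, hsin⟩ := bl_sin (W := √(5 * K)) hw0
  set e := min (min (min (e0 / 2) (c * e0 / (32 * (1 + K)))) (min (eO / 4) eR))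
    (min (c / 8) (c4 / (16 * (1 + K)))) with hed
  have he : 0 < e := by positivity
  have he1 : e ≤ e0 / 2 := (min_le_left _ _).trans ((min_le_left _ _).trans (min_le_left _ _))
  have he2 : e ≤ c * e0 / (32 * (1 + K)) :=
    (min_le_left _ _).trans ((min_le_left _ _).trans (min_le_right _ _))
  have he3 : e ≤ eO / 4 := (min_le_left _ _).trans ((min_le_right _ _).trans (min_le_left _ _))
  have he4 : e ≤ eR := (min_le_left _ _).trans ((min_le_right _ _).trans (min_le_right _ _))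
  have he5 : e ≤ c / 8 := (min_le_right _ _).trans (min_le_left _ _)
  have he6 : e ≤ c4 / (16 * (1 + K)) := (min_le_right _ _).trans (min_le_right _ _)
  have he2' : 8 * (1 + K) * e ≤ c * e0 / 4 := by
    rw [le_div_iff₀ (by positivity)] at he2
    linarith
  have he6' : 8 * (1 + K) * e ≤ c4 / 2 := by
    rw [le_div_iff₀ (by positivity)] at he6
    linarith
  obtain ⟨n8, H8⟩ := hBi K e hK he
  set C1 := M2 * √MN + 1 with hC1
  have hC1p : 0 < C1 := by positivity
  set C2 := C1 ^ 2 + C1 + 2 * C1 / w0 + M with hC2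
  have hC2p : 0 < C2 := by positivity
  set N := ⌈4 * M / (c * e0) + 2 * √MN + 2 * C2 / c4⌉₊ + 1 with hN
  refine ⟨e, he, max (max (max n1 n2) (max n3 n4)) (max (max n6 n7) (max n8 N)), ?_⟩
  intro n hn a b t P hW hP ht hct hte
  have g1 : n1 ≤ n := le_trans (le_trans (le_trans (le_max_left _ _) (le_max_left _ _))
    (le_max_left _ _)) hn
  have g2 : n2 ≤ n := le_trans (le_trans (le_trans (le_max_right _ _) (le_max_left _ _))
    (le_max_left _ _)) hn
  have g3 : n3 ≤ n := le_trans (le_trans (le_trans (le_max_left _ _) (le_max_right _ _))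
    (le_max_left _ _)) hn
  have g4 : n4 ≤ n := le_trans (le_trans (le_trans (le_max_right _ _) (le_max_right _ _))
    (le_max_left _ _)) hn
  have g6 : n6 ≤ n := le_trans (le_trans (le_trans (le_max_left _ _) (le_max_left _ _))
    (le_max_right _ _)) hn
  have g7 : n7 ≤ n := le_trans (le_trans (le_trans (le_max_right _ _) (le_max_left _ _))
    (le_max_right _ _)) hn
  have g8 : n8 ≤ n := le_trans (le_trans (le_trans (le_max_left _ _) (le_max_right _ _))
    (le_max_right _ _)) hn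
  have g9 : N ≤ n := le_trans (le_trans (le_trans (le_max_right _ _) (le_max_right _ _))
    (le_max_right _ _)) hn
  have hW' := hW
  obtain ⟨hn1, ha, hab, hb, hKa⟩ := hW'
  have hnr : (1 : ℝ) ≤ n := by exact_mod_cast hn1
  have hn0 : (0 : ℝ) < n := by linarith
  have hdeg : P.natDegree ≤ n := natDegree_le_iff_degree_le.2 hP.deg
  have hNn : 4 * M / (c * e0) + 2 * √MN + 2 * C2 / c4 < n := by
    have h1 := Nat.le_ceil (4 * M / (c * e0) + 2 * √MN + 2 * C2 / c4)
    have h2 : (N : ℝ) ≤ n := by exact_mod_cast g9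
    rw [hN] at h2
    push_cast at h2
    linarith
  have hp1 : 0 ≤ 4 * M / (c * e0) := by positivity
  have hp2 : 0 ≤ 2 * √MN := by positivity
  have hp3 : 0 ≤ 2 * C2 / c4 := by positivity
  have hMn : M ≤ c * e0 / 4 * n ^ 2 := by
    have h1 : 4 * M / (c * e0) ≤ n := by linarith
    rw [div_le_iff₀ (by positivity)] at h1
    have h2 : (n : ℝ) ≤ n ^ 2 := le_self_pow₀ hnr (by norm_num)
    have h3 : c * e0 * n ≤ c * e0 * (n : ℝ) ^ 2 := by gcongr
    linarith
  by_contra hne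
  -- consequences of non-degeneracy
  obtain ⟨q1, q2⟩ := H1 n g1 a b P hW hP
  have htI : t ∈ Icc a b := ⟨ht.1.le, ht.2.le⟩
  have hlong : e0 < (n : ℝ) ^ 2 * (b - a) := by
    by_contra hcon
    push Not at hcon
    have h1 := q1 hcon t htI
    rw [hct, abs_zero] at h1
    have : 0 < h * (n : ℝ) ^ 2 := by positivity
    linarith
  obtain ⟨q3, q4⟩ := q2 t htI (by rw [hct, abs_zero]; positivity)
  have hta : 0 < t - a := by linarith [ht.1]
  have htb : 0 < b - t := by linarith [ht.2]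
  have ht1 : 0 < 1 - t := by linarith
  have hbt : e0 / 2 ≤ (n : ℝ) ^ 2 * (b - t) := by
    have : (n : ℝ) ^ 2 * (b - a) = (n : ℝ) ^ 2 * (b - t) + (n : ℝ) ^ 2 * (t - a) := by ring
    linarith
  have hcp : c * e0 * (n : ℝ) ^ 2 ≤ (1 - t ^ 2) * |P.derivative.derivative.eval t| := by
    have h1 : (1 - t) * (c * (n : ℝ) ^ 4) ≤ (1 - t) * |P.derivative.derivative.eval t| := by
      gcongr
    have h2 : (1 - t) * |P.derivative.derivative.eval t| ≤
        (1 - t ^ 2) * |P.derivative.derivative.eval t| := by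
      have h0 : 0 ≤ t * (1 - t) := mul_nonneg (by linarith) ht1.le
      have : 1 - t ≤ 1 - t ^ 2 := by linarith
      gcongr
    have h3 : e0 * (c * (n : ℝ) ^ 2) ≤ ((n : ℝ) ^ 2 * (1 - t)) * (c * (n : ℝ) ^ 2) := by gcongr
    linarith
  obtain ⟨l1, l2, l3⟩ := bl_left hMk hW hP ht hct hte
  have hF := H2 n g2 a b t P hW hP ht hct hne
  have hstar : (1 - t ^ 2) * |P.derivative.derivative.eval t| ≤
      (1 - b ^ 2) * |P.derivative.eval b| / (b - t) + 8 * (1 + K) * e * (n : ℝ) ^ 2 + M := by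
    linarith
  -- a large derivative at the right end
  have hbig : c * e0 ^ 2 / 4 ≤ (1 - b ^ 2) * |P.derivative.eval b| := by
    have h1 : 8 * (1 + K) * e * (n : ℝ) ^ 2 ≤ c * e0 / 4 * (n : ℝ) ^ 2 := by gcongr
    have h2 : c * e0 / 2 * (n : ℝ) ^ 2 ≤ (1 - b ^ 2) * |P.derivative.eval b| / (b - t) := by
      linarith
    rw [le_div_iff₀ htb] at h2
    have h3 : c * e0 / 2 * (e0 / 2) ≤ c * e0 / 2 * ((n : ℝ) ^ 2 * (b - t)) := by gcongr
    linarith
  obtain ⟨o1, o2, o3, o4⟩ := H6 n g6 a b P hW hP (by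
    refine l1.trans ?_
    have : 4 * e ≤ eO := by linarith
    gcongr) hbig
  -- all critical points
  set ε := √MN / n with hε
  have hε2 : ε ^ 2 = MN / (n : ℝ) ^ 2 := by
    rw [hε, div_pow, Real.sq_sqrt hMN.le]
  have hcrit : ∀ x ∈ Ioo (-1 : ℝ) 1, P.derivative.eval x = 0 → 1 - ε ^ 2 ≤ |P.eval x| ∧
      P.eval x * P.derivative.derivative.eval x < 0 ∧ (x ≠ t → |P.eval x| = 1) := by
    intro x hx hx0
    have hε2' : 0 ≤ ε ^ 2 := sq_nonneg ε
    rcases le_or_gt x a with hxa | hxa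
    · obtain ⟨k1, k2⟩ := Pool.Agent.Helper40.AS.left_contact hP hn1 hab hb.le hx.1 hxa hx0
      exact ⟨by rw [k1]; linarith, bl_pp hP.bdd hx k1 k2, fun _ => k1⟩
    rcases le_or_gt b x with hxb | hxb
    · obtain ⟨k1, k2⟩ := Pool.Agent.Helper40.AS.right_contact hP hn1 hab (by linarith) hx.2 hxb hx0
      exact ⟨by rw [k1]; linarith, bl_pp hP.bdd hx k1 k2, fun _ => k1⟩
    obtain ⟨k1, k2⟩ := H3 n g3 a b x P hW hP ⟨hxa, hxb⟩ hx0
    refine ⟨by rw [hε2]; exact k1, k2, fun hxt => ?_⟩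
    rcases le_or_gt e ((n : ℝ) ^ 2 * (b - x)) with hx2 | hx2
    · rcases le_or_gt e ((n : ℝ) ^ 2 * (x - a)) with hx3 | hx3
      · exact H8 n g8 a b x P hW hP ⟨hxa, hxb⟩ hx0 hx3 hx2
      · exfalso
        have h1 := l3 x ⟨by linarith, by linarith⟩ hx0 hxt
        have h2 : (n : ℝ) ^ 2 * |x - t| ≤ e := by
          rcases le_total x t with h3 | h3
          · rw [abs_sub_comm, abs_of_nonneg (by linarith)]
            have : (n : ℝ) ^ 2 * (t - x) ≤ (n : ℝ) ^ 2 * (t - a) := by gcongr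
            linarith
          · rw [abs_of_nonneg (by linarith)]
            have : (n : ℝ) ^ 2 * (x - t) ≤ (n : ℝ) ^ 2 * (x - a) := by
              have := ht.1.le
              gcongr
            linarith
        have h3 : 4 * (n : ℝ) ^ 6 * |x - t| ≤ 4 * e * (n : ℝ) ^ 4 := by
          calc 4 * (n : ℝ) ^ 6 * |x - t| = 4 * ((n : ℝ) ^ 2 * |x - t|) * (n : ℝ) ^ 4 := by ring
            _ ≤ 4 * e * (n : ℝ) ^ 4 := by gcongr
        have h4 : c * (n : ℝ) ^ 4 ≤ 4 * e * (n : ℝ) ^ 4 := by linarith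
        have h5 : c ≤ 4 * e := le_of_mul_le_mul_right h4 (by positivity)
        linarith
    · exact H4 n g4 a b x P hW hP ⟨hxa, hxb⟩ hx0 (by linarith)
  have hreal := H7 n g7 a b P hW hP
  obtain ⟨s, s1, s2, s3, s4, s5⟩ := hNp1 n P hn1 (le_antisymm hdeg o1) hreal o4 (by
    intro x hx0 hx2
    have hx1 : |x| < 1 := by
      by_contra hcon
      push Not at hcon
      exact o4 x hcon hx0
    have h1 := (hcrit x (abs_lt.1 hx1) hx0).2.1
    rw [hx2, mul_zero] at h1
    exact lt_irrefl _ h1)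
  have hε0 : 0 ≤ ε := by positivity
  have hε1 : ε ≤ 1 / 2 := by
    rw [hε, div_le_iff₀ hn0]
    linarith
  obtain ⟨σ, hσ, hclose⟩ := H5 n P s t ε hn1 hdeg hP.bdd o2 o3 s1 s2 s3 s4 s5 hε0 hε1 hcrit
  have hclose' : ∀ θ : ℝ, |qq P θ - σ * cos (n * θ)| ≤ C1 / n := by
    intro θ
    refine (hclose θ).trans ?_
    rw [hε, hC1, add_div, mul_div_assoc]
    have : (0 : ℝ) ≤ 1 / n := by positivity
    linarith
  -- the scaled distance of the angles
  obtain ⟨a1, a2, a3, a4, a5, a6⟩ := bl_ang (show 1 / 2 ≤ t by linarith [ht.1]) ht.2 hb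
  have hKt : (n : ℝ) ^ 2 * (1 - t) ≤ K := by
    have hat : a ≤ t := ht.1.le
    have : (n : ℝ) ^ 2 * (1 - t) ≤ (n : ℝ) ^ 2 * (1 - a) := by gcongr
    linarith
  have hτ : n * arccos t ≤ √(5 * K) := by
    apply Real.le_sqrt_of_sq_le
    have h2 : ((n : ℝ) * arccos t) ^ 2 = (n : ℝ) ^ 2 * arccos t ^ 2 := by ring
    have h3 : (n : ℝ) ^ 2 * arccos t ^ 2 ≤ (n : ℝ) ^ 2 * (5 * (1 - t)) := by gcongr
    linarith
  have hw : w0 ≤ n * (arccos t - arccos b) := by
    rw [hw0d, div_le_iff₀ (by positivity)]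
    have h1 : (n : ℝ) ^ 2 * (b - t) ≤ (n : ℝ) ^ 2 * (arccos t * (arccos t - arccos b)) := by
      gcongr
    have h2 : (n : ℝ) ^ 2 * (arccos t * (arccos t - arccos b)) =
        (n * arccos t) * (n * (arccos t - arccos b)) := by ring
    have h3 : (n * arccos t) * (n * (arccos t - arccos b)) ≤
        √(5 * K) * (n * (arccos t - arccos b)) := by
      have : 0 ≤ n * (arccos t - arccos b) := mul_nonneg hn0.le (by linarith)
      gcongr
    linarith
  obtain ⟨f1, f2⟩ := bl_fin hA1 hA2 hn1 hdeg hP.bdd hσ hC1p hclose' hw0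
    (by linarith [ht.1]) ht.2 hb hct hKt hw hsin
  have h1 : 8 * (1 + K) * e * (n : ℝ) ^ 2 ≤ c4 / 2 * (n : ℝ) ^ 2 := by gcongr
  have h2 : c4 / 2 * (n : ℝ) ^ 2 ≤ C2 * n := by
    have e1 : C2 * n = (C1 ^ 2 + C1) * n + 2 * C1 / w0 * n + M * n := by rw [hC2]; ring
    have e2 : M ≤ M * n := le_mul_of_one_le_right hM.le hnr
    rw [e1]
    linarith
  have h3 : 2 * C2 / c4 < n := by linarith
  rw [div_lt_iff₀ hc4] at h3
  have h4 : 2 * C2 * n < n * c4 * n := mul_lt_mul_of_pos_right h3 hn0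
  linarith

end Pool.Agent.Helper10.AL
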