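import Pool.Agent.Helper10.AL.St9

/-!
Critical points near the right end of a window near `1` are contact points.
-/

set_option autoImplicit false

namespace Pool.Agent.Helper10.AL

open Polynomial Set Real MeasureTheory intervalIntegral
open Pool.Agent.Helper40.AS (arc Bdd Ext quad)

/-- the factor of the derivative at a critical point -/
theorem br_factor (hMk : Mk) {n : ℕ} {P : ℝ[X]} {t : ℝ} (hn : 1 ≤ n) (hd : P.natDegree ≤ n)
    (hb : Bdd P) (ht : t ∈ Icc (-1 : ℝ) 1) (h0 : P.derivative.eval t = 0) {b : ℝ}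
    (htb : t < b) (hb1 : b ≤ 1) :
    |P.derivative.eval b| ≤ 4 * (n : ℝ) ^ 4 * (b - t) ∧
      |P.derivative.eval b| / (b - t) ≤
        |P.derivative.derivative.eval t| + 4 * (n : ℝ) ^ 6 * (b - t) := by
  obtain ⟨R, hR⟩ := dvd_iff_isRoot.2 (show P.derivative.IsRoot t from h0)
  obtain ⟨h1, h2⟩ := (hMk n P hn hd hb).2 t R ht hR
  have hbm : b ∈ Icc (-1 : ℝ) 1 := ⟨by linarith [ht.1], hb1⟩
  have hbt : 0 < b - t := by linarith
  have hval : P.derivative.eval b = (b - t) * R.eval b := by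
    rw [hR]; simp
  have hab : |P.derivative.eval b| = (b - t) * |R.eval b| := by
    rw [hval, abs_mul, abs_of_pos hbt]
  refine ⟨?_, ?_⟩
  · rw [hab]
    calc (b - t) * |R.eval b| ≤ (b - t) * (4 * (n : ℝ) ^ 4) :=
          mul_le_mul_of_nonneg_left (h2 b hbm).1 hbt.le
      _ = 4 * (n : ℝ) ^ 4 * (b - t) := by ring
  · rw [hab, mul_div_cancel_left₀ _ hbt.ne']
    have hmv := Convex.norm_image_sub_le_of_norm_deriv_le (f := fun x => R.eval x)
      (s := Icc (-1 : ℝ) 1) (C := 4 * (n : ℝ) ^ 6) (x := t) (y := b)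
      (fun x _ => R.differentiable.differentiableAt)
      (fun x hx => by
        rw [Polynomial.deriv, Real.norm_eq_abs]
        exact (h2 x hx).2) (convex_Icc _ _) ht hbm
    simp only [Real.norm_eq_abs] at hmv
    rw [abs_of_pos hbt] at hmv
    have h3 : |R.eval b| ≤ |R.eval t| + |R.eval b - R.eval t| := by
      have := abs_add_le (R.eval t) (R.eval b - R.eval t)
      simpa using this
    rw [← h1]
    linarith

theorem br (hFh : Fh) (hMk : Mk) (hNh : Nh) (hShf : Shf) : Br := by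
  intro K hK
  obtain ⟨h, c, e0, hh, hc, he0, N1, hN1⟩ := hNh K hK
  obtain ⟨M1, hM1, N2, hN2⟩ := hShf K hK
  obtain ⟨M2, hM2, N3, hN3⟩ := hFh K hK
  set A : ℝ := 16 * K / e0 + 8 * K with hA
  have hApos : 0 < A := by positivity
  set B : ℝ := 4 * K * M1 / e0 with hB
  have hBpos : 0 < B := by positivity
  obtain ⟨N4, hN4⟩ := exists_nat_gt (2 * (B + M2) / (c * e0))
  refine ⟨min (e0 / 2) (c * e0 / (2 * A)), by positivity, max (max N1 N2) (max N3 (max N4 1)), ?_⟩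
  intro n hn a b t P hW hE ht h0 hbt
  have hn1 : N1 ≤ n := le_trans (le_trans (le_max_left _ _) (le_max_left _ _)) hn
  have hn2 : N2 ≤ n := le_trans (le_trans (le_max_right _ _) (le_max_left _ _)) hn
  have hn3 : N3 ≤ n := le_trans (le_trans (le_max_left _ _) (le_max_right _ _)) hn
  have hn4 : N4 ≤ n :=
    le_trans (le_trans (le_max_left _ _) (le_trans (le_max_right _ _) (le_max_right _ _))) hn
  by_contra hne
  obtain ⟨hn0, ha, hab, hb1, hKa⟩ := hW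
  have hnR : (1 : ℝ) ≤ (n : ℝ) := by exact_mod_cast hn0
  have hn2pos : (0 : ℝ) < (n : ℝ) ^ 2 := by positivity
  obtain ⟨hta, htb⟩ := ht
  have htI : t ∈ Icc a b := ⟨hta.le, htb.le⟩
  have htI1 : t ∈ Icc (-1 : ℝ) 1 := ⟨by linarith, by linarith⟩
  obtain ⟨q1, q2⟩ := hN1 n hn1 a b P ⟨hn0, ha, hab, hb1, hKa⟩ hE
  have hlen : e0 < (n : ℝ) ^ 2 * (b - a) := by
    by_contra hcon
    have := q1 (not_lt.1 hcon) t htI
    rw [h0, abs_zero] at this
    have : 0 < h * (n : ℝ) ^ 2 := by positivity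
    linarith
  obtain ⟨q3, q4⟩ := q2 t htI (by rw [h0, abs_zero]; positivity)
  have hS := hN2 n hn2 a b P ⟨hn0, ha, hab, hb1, hKa⟩ hE
  have hF := hN3 n hn3 a b t P ⟨hn0, ha, hab, hb1, hKa⟩ hE ⟨hta, htb⟩ h0 hne
  have hfac := br_factor hMk hn0 (natDegree_le_of_degree_le hE.deg) hE.bdd htI1 h0 htb hb1.le
  obtain ⟨f1, f2⟩ := hfac
  set e : ℝ := min (e0 / 2) (c * e0 / (2 * A)) with he
  have hepos : 0 < e := by positivity
  have he1 : e ≤ e0 / 2 := min_le_left _ _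
  have he2 : A * e ≤ c * e0 / 2 := by
    have : e ≤ c * e0 / (2 * A) := min_le_right _ _
    calc A * e ≤ A * (c * e0 / (2 * A)) := by gcongr
      _ = c * e0 / 2 := by field_simp
  set D2 : ℝ := |P.derivative.derivative.eval t| with hD2
  have hD2nn : 0 ≤ D2 := abs_nonneg _
  -- the right end
  have hbsq : 1 - b ^ 2 ≤ 1 - t ^ 2 := by
    nlinarith only [mul_pos (sub_pos.2 htb) (show (0 : ℝ) < b + t by linarith only [ha, hta, htb])]
  have hb0 : 0 ≤ 1 - b ^ 2 := by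
    nlinarith only [mul_nonneg (sub_nonneg.2 hb1.le)
      (show (0 : ℝ) ≤ 1 + b by linarith only [ha, hab])]
  have hbK : (1 - b ^ 2) * (n : ℝ) ^ 2 ≤ 2 * K := by
    have : 1 - b ^ 2 ≤ 2 * (1 - a) := by nlinarith only [sq_nonneg (1 - b), hab]
    nlinarith only [mul_le_mul_of_nonneg_right this hn2pos.le, hKa]
  have haK : (1 - a ^ 2) * (n : ℝ) ^ 2 ≤ 2 * K := by
    have : 1 - a ^ 2 ≤ 2 * (1 - a) := by nlinarith only [sq_nonneg (1 - a)]
    nlinarith only [mul_le_mul_of_nonneg_right this hn2pos.le, hKa]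
  have ha0 : 0 ≤ 1 - a ^ 2 := by
    nlinarith only [mul_nonneg (sub_nonneg.2 (hab.le.trans hb1.le))
      (show (0 : ℝ) ≤ 1 + a by linarith only [ha])]
  have r1 : (1 - b ^ 2) * |P.derivative.eval b| / (b - t) ≤
      (1 - t ^ 2) * D2 + 8 * K * e * (n : ℝ) ^ 2 := by
    have e1 : (1 - b ^ 2) * |P.derivative.eval b| / (b - t) =
        (1 - b ^ 2) * (|P.derivative.eval b| / (b - t)) := by ring
    rw [e1]
    have e2 : |P.derivative.eval b| / (b - t) ≤ D2 + 4 * e * (n : ℝ) ^ 4 := by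
      have : 4 * (n : ℝ) ^ 6 * (b - t) ≤ 4 * e * (n : ℝ) ^ 4 := by
        have : (n : ℝ) ^ 6 * (b - t) = (n : ℝ) ^ 4 * ((n : ℝ) ^ 2 * (b - t)) := by ring
        have h4 : (0 : ℝ) ≤ (n : ℝ) ^ 4 := by positivity
        linarith only [mul_le_mul_of_nonneg_left hbt h4, this]
      linarith
    calc (1 - b ^ 2) * (|P.derivative.eval b| / (b - t))
        ≤ (1 - b ^ 2) * (D2 + 4 * e * (n : ℝ) ^ 4) := by gcongr
      _ = (1 - b ^ 2) * D2 + ((1 - b ^ 2) * (n : ℝ) ^ 2) * (4 * e * (n : ℝ) ^ 2) := by ring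
      _ ≤ (1 - t ^ 2) * D2 + (2 * K) * (4 * e * (n : ℝ) ^ 2) := by gcongr
      _ = (1 - t ^ 2) * D2 + 8 * K * e * (n : ℝ) ^ 2 := by ring
  -- the left end
  have g1 : |P.derivative.eval a| ≤ 4 * e * (n : ℝ) ^ 2 + M1 * n := by
    have : 4 * (n : ℝ) ^ 4 * (b - t) ≤ 4 * e * (n : ℝ) ^ 2 := by
      have : (n : ℝ) ^ 4 * (b - t) = (n : ℝ) ^ 2 * ((n : ℝ) ^ 2 * (b - t)) := by ring
      linarith only [mul_le_mul_of_nonneg_left hbt hn2pos.le, this]
    linarith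
  have g2 : e0 / 2 ≤ (n : ℝ) ^ 2 * (t - a) := by linarith only [hlen, hbt, he1]
  have hta' : 0 < t - a := by linarith
  have r2 : (1 - a ^ 2) * |P.derivative.eval a| / (t - a) ≤
      16 * K / e0 * e * (n : ℝ) ^ 2 + B * n := by
    rw [div_le_iff₀ hta']
    have e3 : (1 - a ^ 2) * |P.derivative.eval a| ≤
        (1 - a ^ 2) * (4 * e * (n : ℝ) ^ 2 + M1 * n) := by gcongr
    have e4 : (16 * K / e0 * e * (n : ℝ) ^ 2 + B * n) * (t - a) =
        (4 * e * (n : ℝ) ^ 2 + M1 * n) * (4 * K / e0 * (t - a)) := by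
      rw [hB]; ring
    rw [e4]
    have e5 : 1 - a ^ 2 ≤ 4 * K / e0 * (t - a) := by
      have e6 : (1 - a ^ 2) * (n : ℝ) ^ 2 ≤ 4 * K / e0 * (t - a) * (n : ℝ) ^ 2 := by
        calc (1 - a ^ 2) * (n : ℝ) ^ 2 ≤ 2 * K := haK
          _ = 4 * K / e0 * (e0 / 2) := by field_simp; ring
          _ ≤ 4 * K / e0 * ((n : ℝ) ^ 2 * (t - a)) := by gcongr
          _ = 4 * K / e0 * (t - a) * (n : ℝ) ^ 2 := by ring
      exact le_of_mul_le_mul_right e6 hn2pos
    have e7 : (0 : ℝ) ≤ 4 * e * (n : ℝ) ^ 2 + M1 * n := by positivity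
    calc (1 - a ^ 2) * |P.derivative.eval a|
        ≤ (1 - a ^ 2) * (4 * e * (n : ℝ) ^ 2 + M1 * n) := e3
      _ ≤ (4 * K / e0 * (t - a)) * (4 * e * (n : ℝ) ^ 2 + M1 * n) := by gcongr
      _ = (4 * e * (n : ℝ) ^ 2 + M1 * n) * (4 * K / e0 * (t - a)) := by ring
  -- the lower bound
  have low : c * e0 * (n : ℝ) ^ 2 ≤ (1 - t ^ 2) * D2 := by
    have l1 : e0 ≤ (n : ℝ) ^ 2 * (1 - t ^ 2) := by
      have : 1 - t ≤ 1 - t ^ 2 := by
        nlinarith only [mul_nonneg (show (0 : ℝ) ≤ t by linarith only [ha, hta])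
          (show (0 : ℝ) ≤ 1 - t by linarith only [htb, hb1])]
      linarith only [mul_le_mul_of_nonneg_left this hn2pos.le, q4]
    have l2 : 0 ≤ 1 - t ^ 2 := hb0.trans hbsq
    calc c * e0 * (n : ℝ) ^ 2 ≤ c * ((n : ℝ) ^ 2 * (1 - t ^ 2)) * (n : ℝ) ^ 2 := by gcongr
      _ = (1 - t ^ 2) * (c * (n : ℝ) ^ 4) := by ring
      _ ≤ (1 - t ^ 2) * D2 := by gcongr
  have fin : (1 - t ^ 2) * D2 ≤ A * e * (n : ℝ) ^ 2 + B * n + M2 := by
    have : A * e * (n : ℝ) ^ 2 =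
        16 * K / e0 * e * (n : ℝ) ^ 2 + 8 * K * e * (n : ℝ) ^ 2 := by rw [hA]; ring
    linarith
  have fin2 : c * e0 / 2 * (n : ℝ) ^ 2 ≤ (B + M2) * n := by
    have h8 : A * e * (n : ℝ) ^ 2 ≤ c * e0 / 2 * (n : ℝ) ^ 2 := by gcongr
    have h9 : M2 ≤ M2 * n := by
      calc M2 = M2 * 1 := (mul_one _).symm
        _ ≤ M2 * n := by gcongr
    linarith only [h8, h9, fin, low]
  have fin3 : c * e0 / 2 * (n : ℝ) ≤ B + M2 := by
    have hnp : (0 : ℝ) < n := by linarith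
    have : c * e0 / 2 * (n : ℝ) * n ≤ (B + M2) * n := by linarith only [fin2]
    exact le_of_mul_le_mul_right this hnp
  have hN : 2 * (B + M2) / (c * e0) < n := lt_of_lt_of_le hN4 (by exact_mod_cast hn4)
  rw [div_lt_iff₀ (by positivity)] at hN
  linarith only [hN, fin3]

end Pool.Agent.Helper10.AL
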