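import Pool.Agent.Helper10.AL.St

/-!
The alternation points on both sides of the zero of a Zolotarev polynomial.
-/

set_option autoImplicit false

namespace Pool.Agent.Helper10.AL

open Polynomial Set Real
open Pool.Agent.Helper40.AS (Bdd contact_int)

theorem d0_mono {n : ℕ} {y : ℕ → ℝ} (hy : ∀ i, i + 1 < n → y i < y (i + 1)) (i j : ℕ)
    (hij : i < j) : j < n → y i < y j := by
  induction j, hij using Nat.le_induction with
  | base => intro h; exact hy i h
  | succ j hj ih => intro h; exact (ih (by omega)).trans (hy j h)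

/-- `n` increasing zeros -/
theorem d0_count (n : ℕ) (Q : ℝ[X]) (hQ : Q ≠ 0) (hd : Q.natDegree < n) (y : ℕ → ℝ)
    (hy : ∀ i, i + 1 < n → y i < y (i + 1)) (h0 : ∀ i < n, Q.eval (y i) = 0) : False := by
  classical
  have hinj : Set.InjOn y (Finset.range n : Set ℕ) := by
    intro i hi j hj h
    simp only [Finset.coe_range, mem_Iio] at hi hj
    rcases lt_trichotomy i j with h1 | h1 | h1
    · exact absurd h (d0_mono hy i j h1 hj).ne
    · exact h1
    · exact absurd h (d0_mono hy j i h1 hi).ne'
  have hcard : ((Finset.range n).image y).card = n := by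
    rw [Finset.card_image_of_injOn hinj, Finset.card_range]
  have hsub : (Finset.range n).image y ⊆ Q.roots.toFinset := by
    intro z hz
    obtain ⟨i, hi, rfl⟩ := Finset.mem_image.1 hz
    rw [Multiset.mem_toFinset, mem_roots hQ]
    exact h0 i (Finset.mem_range.1 hi)
  have h1 := Finset.card_le_card hsub
  have h2 := Multiset.toFinset_card_le Q.roots
  have h3 := Q.card_roots'
  omega

/-- a critical point to the left of an increasing zero -/
theorem d0_left {Z : ℝ[X]} {x0 p : ℝ} (h0 : Z.eval x0 = 0) (h1 : 0 < Z.derivative.eval x0)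
    (hp : p < x0) (hZp : Z.eval p = 1) : ∃ c, p < c ∧ c < x0 ∧ Z.derivative.eval c = 0 := by
  obtain ⟨ξ, hξ, hs⟩ := exists_deriv_eq_slope (fun x => Z.eval x) hp Z.continuous.continuousOn
    Z.differentiable.differentiableOn
  have h2 : Z.derivative.eval ξ < 0 := by
    rw [← Polynomial.deriv, hs, h0, hZp]
    exact div_neg_of_neg_of_pos (by norm_num) (by linarith)
  obtain ⟨c, hc, hc0⟩ := intermediate_value_Ioo hξ.2.le
    (f := fun x => Z.derivative.eval x) Z.derivative.continuous.continuousOn
    (show (0 : ℝ) ∈ Ioo _ _ from ⟨h2, h1⟩)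
  exact ⟨c, hξ.1.trans hc.1, hc.2, hc0⟩

/-- a critical point to the right of an increasing zero -/
theorem d0_right {Z : ℝ[X]} {x0 p : ℝ} (h0 : Z.eval x0 = 0) (h1 : 0 < Z.derivative.eval x0)
    (hp : x0 < p) (hZp : Z.eval p = -1) : ∃ c, x0 < c ∧ c < p ∧ Z.derivative.eval c = 0 := by
  obtain ⟨ξ, hξ, hs⟩ := exists_deriv_eq_slope (fun x => Z.eval x) hp Z.continuous.continuousOn
    Z.differentiable.differentiableOn
  have h2 : Z.derivative.eval ξ < 0 := by
    rw [← Polynomial.deriv, hs, h0, hZp]
    exact div_neg_of_neg_of_pos (by norm_num) (by linarith)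
  obtain ⟨c, hc, hc0⟩ := intermediate_value_Ioo' hξ.1.le
    (f := fun x => Z.derivative.eval x) Z.derivative.continuous.continuousOn
    (show (0 : ℝ) ∈ Ioo _ _ from ⟨h2, h1⟩)
  exact ⟨c, hc.1, hc.2.trans hξ.2, hc0⟩

theorem d0 : D0 := by
  intro n x0 Z hn hZ
  classical
  obtain ⟨x, σ, hσ, hx, hxI, hxZ⟩ := hZ.alt
  have hmono := d0_mono hx
  have hex : ∃ k, k = n ∨ x0 < x k := ⟨n, Or.inl rfl⟩
  obtain ⟨k, hk, hkn, hmin⟩ : ∃ k, (k = n ∨ x0 < x k) ∧ k ≤ n ∧ ∀ i < k, ¬ (i = n ∨ x0 < x i) :=
    ⟨Nat.find hex, Nat.find_spec hex, Nat.find_min' hex (Or.inl rfl),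
      fun i hi => Nat.find_min hex hi⟩
  have habs : ∀ i < n, |Z.eval (x i)| = 1 := by
    intro i hi
    rw [hxZ i hi, abs_mul, abs_pow, abs_neg, abs_one, one_pow, mul_one]
    rcases hσ with h | h <;> rw [h] <;> simp
  have hne : ∀ i < n, x i ≠ x0 := by
    intro i hi h
    have h1 := habs i hi
    rw [h, hZ.z0] at h1
    simp at h1
  have hlt : ∀ i < k, x i < x0 := by
    intro i hi
    have h1 := hmin i hi
    push Not at h1
    exact lt_of_le_of_ne h1.2 (hne i (by omega))
  have hgt : ∀ i, k ≤ i → i < n → x0 < x i := by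
    intro i hi hin
    have hxk : x0 < x k := by
      rcases hk with h | h
      · omega
      · exact h
    rcases Nat.eq_or_lt_of_le hi with h | h
    · rw [← h]; exact hxk
    · exact hxk.trans (hmono k i h hin)
  have hcrit : ∀ i < n, x i ∈ Ioo (-1 : ℝ) 1 → Z.derivative.eval (x i) = 0 := fun i hi h =>
    contact_int hZ.bdd h (habs i hi)
  have hs : σ * (-1) ^ k = 1 ∨ σ * (-1) ^ k = -1 := by
    rcases hσ with h | h <;> rcases neg_one_pow_eq_or ℝ k with h' | h' <;> rw [h, h'] <;> simp
  rcases hs with hs | hs
  · -- correct signs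
    refine ⟨k, n - k, fun i => if i = 0 then x0 else x (k - i),
      fun i => if i = 0 then x0 else x (k + i - 1), by omega, by simp, by simp,
      ?_, ?_, ?_, ?_, ?_, ?_⟩
    · intro i hi
      simp only [Nat.add_eq_zero_iff, one_ne_zero, and_false, if_false]
      by_cases h : i = 0
      · simp only [h, if_true]; exact hlt _ (by omega)
      · simp only [h, if_false]; exact hmono _ _ (by omega) (by omega)
    · intro i hi
      simp only [Nat.add_eq_zero_iff, one_ne_zero, and_false, if_false]
      by_cases h : i = 0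
      · simp only [h, if_true]; exact hgt _ (by omega) (by omega)
      · simp only [h, if_false]; exact hmono _ _ (by omega) (by omega)
    · by_cases h : k = 0
      · simp only [h, if_true]; exact hZ.hx.1.le
      · simp only [h, if_false]; exact (hxI _ (by omega)).1
    · by_cases h : n - k = 0
      · simp only [h, if_true]; exact hZ.hx.2.le
      · simp only [h, if_false]; exact (hxI _ (by omega)).2
    · intro i h1 hi
      have h2 : i ≠ 0 := by omega
      simp only [h2, if_false]
      rw [hxZ _ (by omega)]
      have h3 : ((-1 : ℝ)) ^ k = (-1) ^ (k - i) * (-1) ^ i := by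
        rw [← pow_add]; congr 1; omega
      have h4 : ((-1 : ℝ)) ^ i * (-1) ^ i = 1 := by
        rw [← mul_pow]; norm_num
      have h5 : σ * (-1) ^ (k - i) * (((-1 : ℝ)) ^ i * (-1) ^ i) = (-1) ^ i := by
        calc σ * (-1) ^ (k - i) * (((-1 : ℝ)) ^ i * (-1) ^ i)
            = σ * ((-1) ^ (k - i) * (-1) ^ i) * (-1) ^ i := by ring
          _ = (-1) ^ i := by rw [← h3, hs, one_mul]
      rw [h4, mul_one] at h5
      exact h5
    · intro i h1 hi
      have h2 : i ≠ 0 := by omega
      simp only [h2, if_false]
      rw [hxZ _ (by omega)]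
      obtain ⟨j, rfl⟩ : ∃ j, i = j + 1 := ⟨i - 1, by omega⟩
      have h3 : k + (j + 1) - 1 = k + j := by omega
      rw [h3, pow_add, ← mul_assoc, hs, pow_succ]
      ring
  · -- wrong signs
    exfalso
    have hc : ∃ c, 1 ≤ k → x (k - 1) < c ∧ c < x0 ∧ Z.derivative.eval c = 0 := by
      by_cases h : 1 ≤ k
      · have h1 : Z.eval (x (k - 1)) = 1 := by
          rw [hxZ _ (by omega)]
          obtain ⟨j, rfl⟩ : ∃ j, k = j + 1 := ⟨k - 1, by omega⟩
          rw [pow_succ] at hs
          simp only [Nat.add_sub_cancel]
          linarith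
        obtain ⟨c, hc⟩ := d0_left hZ.z0 hZ.z1 (hlt (k - 1) (by omega)) h1
        exact ⟨c, fun _ => hc⟩
      · exact ⟨0, fun h' => absurd h' h⟩
    have hd : ∃ d, k < n → x0 < d ∧ d < x k ∧ Z.derivative.eval d = 0 := by
      by_cases h : k < n
      · have h1 : Z.eval (x k) = -1 := by rw [hxZ _ h, hs]
        obtain ⟨d, hd⟩ := d0_right hZ.z0 hZ.z1 (hgt k le_rfl h) h1
        exact ⟨d, fun _ => hd⟩
      · exact ⟨0, fun h' => absurd h' h⟩
    obtain ⟨c, hc⟩ := hc
    obtain ⟨d, hd⟩ := hd
    have hQ : Z.derivative ≠ 0 := by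
      intro h
      have h1 := hZ.z1
      rw [h] at h1
      simp at h1
    have hdeg : Z.derivative.natDegree < n := by
      have h1 := natDegree_derivative_le Z
      have h2 := hZ.deg
      omega
    refine d0_count n Z.derivative hQ hdeg (fun i => if i + 1 < k then x (i + 1) else
      if i + 1 = k then c else if i = k then d else x (i - 1)) ?_ ?_
    · intro i hi
      by_cases h1 : i + 1 < k
      · by_cases h2 : i + 1 + 1 < k
        · simp only [h1, h2, if_true]
          exact hmono _ _ (by omega) (by omega)
        · have h3 : i + 1 + 1 = k := by omega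
          have h4 := (hc (by omega)).1
          have h5 : k - 1 = i + 1 := by omega
          rw [h5] at h4
          simp only [h1, h3, if_true, if_false, lt_irrefl]
          exact h4
      · by_cases h2 : i + 1 = k
        · have h3 : ¬ (i + 1 + 1 < k) := by omega
          have h4 : ¬ (i + 1 + 1 = k) := by omega
          simp only [h2, if_true, if_false, lt_irrefl]
          have h5 := (hc (by omega)).2.1
          have h6 := (hd (by omega)).1
          have h7 : ¬ (k < k) := lt_irrefl k
          have h8 : ¬ (k + 1 < k) := by omega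
          have h9 : ¬ (k + 1 = k) := by omega
          simp only [h7, h8, h9, if_false]
          exact h5.trans h6
        · by_cases h3 : i = k
          · have h7 := (hd (by omega)).2.1
            simp only [h3, if_true]
            have h8 : ¬ (k + 1 < k) := by omega
            have h9 : ¬ (k + 1 = k) := by omega
            have h10 : ¬ (k + 1 + 1 < k) := by omega
            have h11 : ¬ (k + 1 + 1 = k) := by omega
            simp only [h8, h9, h10, h11, if_false, Nat.add_sub_cancel]
            exact h7
          · have h4 : ¬ (i + 1 + 1 < k) := by omega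
            have h5 : ¬ (i + 1 + 1 = k) := by omega
            simp only [h1, h2, h3, h4, h5, if_false, Nat.add_sub_cancel]
            exact hmono _ _ (by omega) (by omega)
    · intro i hi
      by_cases h1 : i + 1 < k
      · simp only [h1, if_true]
        refine hcrit _ (by omega) ⟨?_, ?_⟩
        · exact lt_of_le_of_lt (hxI 0 (by omega)).1 (hmono 0 (i + 1) (by omega) (by omega))
        · exact (hlt (i + 1) h1).trans hZ.hx.2
      · by_cases h2 : i + 1 = k
        · simp only [h2, if_true, if_false, lt_irrefl]
          exact (hc (by omega)).2.2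
        · by_cases h3 : i = k
          · have h8 : ¬ (k + 1 < k) := by omega
            have h9 : ¬ (k + 1 = k) := by omega
            simp only [h3, h8, h9, if_true, if_false]
            exact (hd (by omega)).2.2
          · simp only [h1, h2, h3, if_false]
            refine hcrit _ (by omega) ⟨?_, ?_⟩
            · exact hZ.hx.1.trans (hgt (i - 1) (by omega) (by omega))
            · exact lt_of_lt_of_le (hmono (i - 1) i (by omega) hi) (hxI i hi).2

end Pool.Agent.Helper10.AL
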