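import Pool.Agent.Helper10.AL.St7

/-!
Arc length of polynomials over windows: no further critical point near a non-degenerate end point
of `[-1, 1]`.
-/

set_option autoImplicit false

namespace Pool.Agent.Helper10.AL

open Polynomial Set Real MeasureTheory intervalIntegral
open Pool.Agent.Helper40.AS (arc Bdd Ext quad)

noncomputable section

/-- a quantitative form of the isolation of a simple zero -/
theorem fT_core (n : ℕ) (hn : 1 ≤ n) (P : ℝ[X]) (x0 : ℝ)
    (hb : ∀ w : ℂ, ‖Complex.sin w * aeval (Complex.cos w) P.derivative‖ ≤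
      n * Real.exp (n * |w.im|)) (hs : sin x0 = 0) (hc : |cos x0| = 1)
    (hk : (n : ℝ) ^ 2 / 3 ≤ |P.derivative.eval (cos x0)|) (w : ℂ) (hw : w ≠ x0)
    (hwn : ‖w - (x0 : ℂ)‖ ≤ (1 / 22) / n) : aeval (Complex.cos w) P.derivative ≠ 0 := by
  have hn0 : (0 : ℝ) < n := by exact_mod_cast hn
  set h : ℂ → ℂ := fun w => Complex.sin w * aeval (Complex.cos w) P.derivative with hh
  have h5 : Differentiable ℂ (fun w : ℂ => aeval (Complex.cos w) P.derivative) := by
    have h6 : (fun w : ℂ => aeval (Complex.cos w) P.derivative) =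
        fun w : ℂ => (P.derivative.map (algebraMap ℝ ℂ)).eval (Complex.cos w) := by
      funext w
      rw [eval_map_algebraMap]
    rw [h6]
    exact (Polynomial.differentiable _).comp Complex.differentiable_cos
  have hd : Differentiable ℂ h := Complex.differentiable_sin.mul h5
  have hs' : Complex.sin (x0 : ℂ) = 0 := by
    rw [← Complex.ofReal_sin, hs, Complex.ofReal_zero]
  have h0 : h x0 = 0 := by
    simp only [hh]
    rw [hs', zero_mul]
  have h4 : aeval (Complex.cos (x0 : ℂ)) P.derivative =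
      ((P.derivative.eval (cos x0) : ℝ) : ℂ) := by
    rw [← Complex.ofReal_cos]
    have := Polynomial.aeval_algebraMap_apply ℂ (cos x0) P.derivative
    simpa using this
  have hder : deriv h x0 = Complex.cos x0 * ((P.derivative.eval (cos x0) : ℝ) : ℂ) := by
    have h1 : HasDerivAt h (Complex.cos x0 * aeval (Complex.cos (x0 : ℂ)) P.derivative +
        Complex.sin x0 * deriv (fun w : ℂ => aeval (Complex.cos w) P.derivative) x0) (x0 : ℂ) :=
      (Complex.hasDerivAt_sin _).mul (h5 _).hasDerivAt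
    rw [h1.deriv, hs', zero_mul, add_zero, h4]
  have hball : ∀ z ∈ Metric.ball (x0 : ℂ) (1 / n), ‖h z‖ < 3 * n := by
    intro z hz
    rw [Metric.mem_ball, dist_eq_norm] at hz
    have h1 : |z.im| ≤ 1 / n := by
      have h2 := Complex.abs_im_le_norm (z - (x0 : ℂ))
      rw [Complex.sub_im, Complex.ofReal_im, sub_zero] at h2
      linarith
    have h2 : n * |z.im| ≤ 1 := by
      calc n * |z.im| ≤ n * (1 / n) := by gcongr
        _ = 1 := by field_simp
    have h3 : Real.exp (n * |z.im|) ≤ Real.exp 1 := Real.exp_le_exp.2 h2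
    have h6 : Real.exp 1 < 3 := by
      have := Real.exp_one_lt_d9
      linarith
    calc ‖h z‖ ≤ n * Real.exp (n * |z.im|) := hb z
      _ < n * 3 := by
        apply mul_lt_mul_of_pos_left _ hn0
        linarith
      _ = 3 * n := by ring
  have hn1 : (0 : ℝ) < 1 / n := by positivity
  have hkb : ∀ z ∈ Metric.ball (x0 : ℂ) (1 / n), ‖dslope h x0 z‖ ≤ 3 * (n : ℝ) ^ 2 := by
    intro z hz
    have h1 := Complex.norm_dslope_le_div_of_mapsTo_ball (f := h) (c := (x0 : ℂ)) (R₁ := 1 / n)
      (R₂ := 3 * n) hd.differentiableOn (by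
        intro y hy
        rw [h0, mem_closedBall_zero_iff]
        exact (hball y hy).le) hz
    refine h1.trans (le_of_eq ?_)
    field_simp
  have hx0 : (x0 : ℂ) ∈ Metric.ball (x0 : ℂ) (1 / n) := Metric.mem_ball_self hn1
  have hwb : w ∈ Metric.ball (x0 : ℂ) (1 / n) := by
    rw [Metric.mem_ball, dist_eq_norm]
    refine lt_of_le_of_lt hwn ?_
    apply div_lt_div_of_pos_right _ hn0
    norm_num
  have hlip : dist (dslope h x0 w) (dslope h x0 x0) ≤ 7 * (n : ℝ) ^ 2 / (1 / n) * dist w x0 := by
    apply Complex.dist_le_div_mul_dist_of_mapsTo_ball (f := dslope h x0) (c := (x0 : ℂ))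
      (R₁ := 1 / n) (R₂ := 7 * (n : ℝ) ^ 2)
    · exact (Complex.differentiableOn_dslope (Metric.ball_mem_nhds _ hn1)).2 hd.differentiableOn
    · intro y hy
      rw [Metric.mem_closedBall, dist_eq_norm]
      have h1 := hkb y hy
      have h2 := hkb x0 hx0
      have h3 := norm_sub_le (dslope h x0 y) (dslope h x0 x0)
      have h6 : (0 : ℝ) < (n : ℝ) ^ 2 := by positivity
      linarith
    · exact hwb
  intro hz
  have hhw : h w = 0 := by
    simp only [hh]
    rw [hz, mul_zero]
  have hslope : dslope h x0 w = 0 := by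
    rw [dslope_of_ne _ hw, slope_def_field, hhw, h0]
    simp
  have hkx : ‖dslope h x0 x0‖ = |P.derivative.eval (cos x0)| := by
    rw [dslope_same, hder, norm_mul, Complex.norm_real, ← Complex.ofReal_cos, Complex.norm_real,
      Real.norm_eq_abs, Real.norm_eq_abs, hc, one_mul]
  rw [hslope, dist_eq_norm, zero_sub, norm_neg, hkx, dist_eq_norm] at hlip
  have h7 : 7 * (n : ℝ) ^ 2 / (1 / n) * ‖w - (x0 : ℂ)‖ ≤ 7 / 22 * (n : ℝ) ^ 2 := by
    calc 7 * (n : ℝ) ^ 2 / (1 / n) * ‖w - (x0 : ℂ)‖
        ≤ 7 * (n : ℝ) ^ 2 / (1 / n) * ((1 / 22) / n) := by gcongr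
      _ = 7 / 22 * (n : ℝ) ^ 2 := by field_simp
  have h8 : (0 : ℝ) < (n : ℝ) ^ 2 := by positivity
  linarith

/-- no further critical point near a non-degenerate end point of `[-1, 1]` -/
theorem fT (hA1 : A1) (hA2 : A2) (hH4d : H4d) : FT := by
  have _ := hA1
  refine ⟨1 / 22, by norm_num, fun n P hn hd hP => ?_⟩
  have hn0 : (0 : ℝ) < n := by exact_mod_cast hn
  have h8 : (0 : ℝ) < (n : ℝ) ^ 2 := by positivity
  have hb := hH4d n P hn hd hP
  obtain ⟨-, -, h3⟩ := hA2
  constructor
  · intro h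
    have h1 := (h3 P π).2
    rw [sin_pi, cos_pi] at h1
    have h2 : |P.derivative.eval (-1)| = |deriv (deriv (qq P)) π| := by
      rw [h1]
      congr 1
      ring
    have h4 : (n : ℝ) ^ 2 / 3 ≤ |P.derivative.eval (-1)| := by rw [h2]; exact h
    refine ⟨fun h5 => ?_, fun w hw hwn => ?_⟩
    · rw [h5, abs_zero] at h4
      linarith
    · exact fT_core n hn P π hb sin_pi (by rw [cos_pi]; norm_num) (by rw [cos_pi]; exact h4) w hw
        hwn
  · intro h
    have h1 := (h3 P 0).2
    rw [sin_zero, cos_zero] at h1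
    have h2 : |P.derivative.eval 1| = |deriv (deriv (qq P)) 0| := by
      rw [h1, ← abs_neg]
      congr 1
      ring
    have h4 : (n : ℝ) ^ 2 / 3 ≤ |P.derivative.eval 1| := by rw [h2]; exact h
    refine ⟨fun h5 => ?_, fun w hw hwn => ?_⟩
    · rw [h5, abs_zero] at h4
      linarith
    · refine fT_core n hn P 0 hb sin_zero (by rw [cos_zero]; norm_num)
        (by rw [cos_zero]; exact h4) w (by simpa using hw) (by simpa using hwn)

end

end Pool.Agent.Helper10.AL
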