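import Pool.Agent.Helper10.AL.St9

/-!
First order condition at a critical point which is not a contact point, windows near `1`.
-/

set_option autoImplicit false

namespace Pool.Agent.Helper10.AL

open Polynomial Set Real MeasureTheory intervalIntegral
open Pool.Agent.Helper40.AS (arc Bdd Ext quad)

lemma fh_int {n : ℕ} {K M a b t : ℝ} {P R : ℝ[X]} (hMk : Mk) (hK : 0 < K) (hW : Wh n K a b)
    (hE : Ext n a b P) (ht : t ∈ Ioo a b) (hR : P.derivative = (X - C t) * R)
    (hI : (∫ x in a..b, 1 / (1 + P.derivative.eval x ^ 2)) ≤ M / (n : ℝ) ^ 4) :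
    (∫ x in a..b, |((1 - X ^ 2) * R).derivative.eval x| / (1 + P.derivative.eval x ^ 2)) ≤
      (8 + 8 * K) * M := by
  obtain ⟨hn, ha, hab, hb, hna⟩ := hW
  have hn' : (1 : ℝ) ≤ n := by exact_mod_cast hn
  have hn0 : (0 : ℝ) < (n : ℝ) := by linarith
  have hd : P.natDegree ≤ n := natDegree_le_iff_degree_le.2 hE.deg
  obtain ⟨-, hM2⟩ := hMk n P hn hd hE.bdd
  obtain ⟨-, hM3⟩ := hM2 t R ⟨by linarith [ht.1], by linarith [ht.2]⟩ hR
  have hpt : ∀ x ∈ Icc a b, |((1 - X ^ 2) * R).derivative.eval x| / (1 + P.derivative.eval x ^ 2) ≤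
      ((8 + 8 * K) * (n : ℝ) ^ 4) * (1 / (1 + P.derivative.eval x ^ 2)) := by
    intro x hx
    have hx1 : x ∈ Icc (-1 : ℝ) 1 := ⟨by linarith [hx.1], by linarith [hx.2]⟩
    obtain ⟨h1, h2⟩ := hM3 x hx1
    have he : ((1 - X ^ 2) * R).derivative.eval x =
        -(2 * x) * R.eval x + (1 - x ^ 2) * R.derivative.eval x := by
      simp [derivative_mul]
      norm_num
    have hx2 : 0 ≤ 1 - x ^ 2 := by nlinarith [hx1.1, hx1.2]
    have hx3 : (n : ℝ) ^ 2 * (1 - x ^ 2) ≤ 2 * K := by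
      have h3 : 1 - x ^ 2 ≤ 2 * (1 - a) := by nlinarith [hx.1, hx1.2]
      have h4 : (n : ℝ) ^ 2 * (1 - x ^ 2) ≤ (n : ℝ) ^ 2 * (2 * (1 - a)) :=
        mul_le_mul_of_nonneg_left h3 (by positivity)
      linarith
    have hb1 : |((1 - X ^ 2) * R).derivative.eval x| ≤ (8 + 8 * K) * (n : ℝ) ^ 4 := by
      rw [he]
      have h5 : |-(2 * x) * R.eval x| ≤ 2 * (4 * (n : ℝ) ^ 4) := by
        rw [abs_mul]
        have h6 : |-(2 * x)| ≤ 2 := by
          rw [abs_neg, abs_mul, abs_two]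
          have := abs_le.2 hx1
          linarith
        exact mul_le_mul h6 h1 (abs_nonneg _) (by norm_num)
      have h7 : |(1 - x ^ 2) * R.derivative.eval x| ≤ 8 * K * (n : ℝ) ^ 4 := by
        rw [abs_mul, abs_of_nonneg hx2]
        calc (1 - x ^ 2) * |R.derivative.eval x| ≤ (1 - x ^ 2) * (4 * (n : ℝ) ^ 6) :=
              mul_le_mul_of_nonneg_left h2 hx2
          _ = ((n : ℝ) ^ 2 * (1 - x ^ 2)) * (4 * (n : ℝ) ^ 4) := by ring
          _ ≤ (2 * K) * (4 * (n : ℝ) ^ 4) :=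
              mul_le_mul_of_nonneg_right hx3 (by positivity)
          _ = 8 * K * (n : ℝ) ^ 4 := by ring
      calc _ ≤ |-(2 * x) * R.eval x| + |(1 - x ^ 2) * R.derivative.eval x| := abs_add_le _ _
        _ ≤ 2 * (4 * (n : ℝ) ^ 4) + 8 * K * (n : ℝ) ^ 4 := add_le_add h5 h7
        _ = (8 + 8 * K) * (n : ℝ) ^ 4 := by ring
    have hp : 0 < 1 + P.derivative.eval x ^ 2 := by positivity
    rw [div_eq_mul_one_div]
    exact mul_le_mul_of_nonneg_right hb1 (by positivity)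
  have hc1 : Continuous fun x => |((1 - X ^ 2) * R).derivative.eval x| /
      (1 + P.derivative.eval x ^ 2) := by
    refine Continuous.div (by fun_prop) (by fun_prop) ?_
    intro x
    positivity
  have hc2 : Continuous fun x => ((8 + 8 * K) * (n : ℝ) ^ 4) *
      (1 / (1 + P.derivative.eval x ^ 2)) := by
    refine Continuous.mul (by fun_prop) (Continuous.div (by fun_prop) (by fun_prop) ?_)
    intro x
    positivity
  calc (∫ x in a..b, |((1 - X ^ 2) * R).derivative.eval x| / (1 + P.derivative.eval x ^ 2))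
      ≤ ∫ x in a..b, ((8 + 8 * K) * (n : ℝ) ^ 4) * (1 / (1 + P.derivative.eval x ^ 2)) :=
        integral_mono_on hab.le (hc1.intervalIntegrable _ _) (hc2.intervalIntegrable _ _) hpt
    _ = ((8 + 8 * K) * (n : ℝ) ^ 4) * ∫ x in a..b, (1 / (1 + P.derivative.eval x ^ 2)) :=
        integral_const_mul _ _
    _ ≤ ((8 + 8 * K) * (n : ℝ) ^ 4) * (M / (n : ℝ) ^ 4) :=
        mul_le_mul_of_nonneg_left hI (by positivity)
    _ = (8 + 8 * K) * M := by field_simp

theorem fh (hIa : Ia) (hK1 : K1) (hMk : Mk) (hNh : Nh) : Fh := by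
  intro K hK
  obtain ⟨h, c, e, hh, hc, he, n0, hN⟩ := hNh K hK
  obtain ⟨M, hM, hI⟩ := hIa K h c hK hh hc
  refine ⟨(8 + 8 * K) * M, by positivity, n0, ?_⟩
  intro n hn a b t P hW hE ht h0 h1
  obtain ⟨hn1, ha, hab, hb, hna⟩ := id hW
  have hd : P.natDegree ≤ n := natDegree_le_iff_degree_le.2 hE.deg
  obtain ⟨R, hR⟩ : (X - C t) ∣ P.derivative := dvd_iff_isRoot.2 h0
  have hI1 := (hI n a b P hn1 (by linarith) hab.le hb.le
    (by
      have h3 : (n : ℝ) ^ 2 * (b - a) ≤ (n : ℝ) ^ 2 * (1 - a) :=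
        mul_le_mul_of_nonneg_left (by linarith) (by positivity)
      linarith) hd hE.bdd
    (fun x hx hx1 => ((hN n hn a b P hW hE).2 x hx hx1).1)).1
  have h2 := fh_int hMk hK hW hE ht hR hI1
  have h3 := hK1 n a b t P R hn1 (by linarith) ht.1 ht.2 hb.le hE hR h1
  obtain ⟨-, hM2⟩ := hMk n P hn1 hd hE.bdd
  obtain ⟨hRt, -⟩ := hM2 t R ⟨by linarith [ht.1], by linarith [ht.2]⟩ hR
  have hRa : (1 - a ^ 2) * |R.eval a| = (1 - a ^ 2) * |P.derivative.eval a| / (t - a) := by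
    have h4 : 0 < t - a := by linarith [ht.1]
    rw [hR, eval_mul, abs_mul, eval_sub, eval_X, eval_C,
      show |a - t| = t - a by rw [abs_of_neg (by linarith)]; ring]
    field_simp
  have hRb : (1 - b ^ 2) * |R.eval b| = (1 - b ^ 2) * |P.derivative.eval b| / (b - t) := by
    have h4 : 0 < b - t := by linarith [ht.2]
    rw [hR, eval_mul, abs_mul, eval_sub, eval_X, eval_C,
      show |b - t| = b - t by rw [abs_of_pos (by linarith)]]
    field_simp
  rw [← hRt, ← hRa, ← hRb]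
  linarith

end Pool.Agent.Helper10.AL
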