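import Pool.Agent.Helper10.AL.St4

/-!
Piece G2aL: weighted integrals of the reciprocal of the arc length density, all windows.
-/

set_option autoImplicit false

namespace Pool.Agent.Helper10.AL

open Polynomial Set Real MeasureTheory intervalIntegral
open Pool.Agent.Helper40.AS (arc Bdd Ext quad)

noncomputable section

/-- substitution by the cosine -/
theorem g2aL_subst (a b : ℝ) (h : ℝ → ℝ) (ha : -1 ≤ a) (hab : a ≤ b) (hb : b ≤ 1)
    (hc : ContinuousOn h (Icc a b)) :
    (∫ x in a..b, h x) = ∫ θ in (arccos b)..(arccos a), h (cos θ) * sin θ := by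
  have hle : arccos b ≤ arccos a := arccos_le_arccos hab
  have hca : cos (arccos a) = a := Real.cos_arccos ha (hab.trans hb)
  have hcb : cos (arccos b) = b := Real.cos_arccos (ha.trans hab) hb
  have himg : cos '' uIcc (arccos b) (arccos a) ⊆ Icc a b := by
    rintro _ ⟨θ, hθ, rfl⟩
    rw [uIcc_of_le hle] at hθ
    constructor
    · rw [← hca]
      exact Real.cos_le_cos_of_nonneg_of_le_pi ((arccos_nonneg _).trans hθ.1) (arccos_le_pi _) hθ.2
    · conv_rhs => rw [← hcb]
      exact Real.cos_le_cos_of_nonneg_of_le_pi (arccos_nonneg _) (hθ.2.trans (arccos_le_pi _)) hθ.1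
  have e := intervalIntegral.integral_comp_mul_deriv' (a := arccos b) (b := arccos a)
    (f := cos) (f' := fun θ => -sin θ) (g := h) (fun x _ => Real.hasDerivAt_cos x)
    (Real.continuous_sin.neg.continuousOn) (hc.mono himg)
  rw [hca, hcb] at e
  rw [intervalIntegral.integral_symm, ← e, ← intervalIntegral.integral_neg]
  congr 1
  ext θ
  simp

/-- a single cell of scaled length at least one half -/
theorem g2aL_cell (g w : ℝ → ℝ) (u v A M s : ℝ) (huv : u < v) (hs : 0 ≤ s)
    (hsv : 1 ≤ s * (v - u)) (hg : Continuous g) (hw : ContinuousOn w (Icc u v))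
    (hg0 : ∀ θ, 0 ≤ g θ) (hw0 : ∀ θ ∈ Icc u v, 0 ≤ w θ) (hA : 1 ≤ A)
    (hgM : (∫ θ in u..v, g θ) ≤ M) (hsl : ∀ x ∈ Icc u v, ∀ y ∈ Icc u v, w x ≤ A * w y) :
    (∫ θ in u..v, w θ * g θ) ≤ s * A * M * ∫ θ in u..v, w θ := by
  have hle : u ≤ v := huv.le
  have hwi : IntervalIntegrable w volume u v := by
    apply ContinuousOn.intervalIntegrable
    rw [uIcc_of_le hle]
    exact hw
  have hW0 : 0 ≤ ∫ θ in u..v, w θ := intervalIntegral.integral_nonneg hle hw0
  have hpt : ∀ θ ∈ Icc u v, w θ ≤ s * A * ∫ θ in u..v, w θ := by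
    intro θ hθ
    have h1 : (∫ _ in u..v, w θ) ≤ ∫ y in u..v, A * w y := by
      apply intervalIntegral.integral_mono_on hle
      · exact intervalIntegrable_const
      · exact hwi.const_mul A
      · intro y hy
        exact hsl θ hθ y hy
    rw [intervalIntegral.integral_const, intervalIntegral.integral_const_mul, smul_eq_mul] at h1
    have h2 : w θ * 1 ≤ w θ * (s * (v - u)) := mul_le_mul_of_nonneg_left hsv (hw0 θ hθ)
    have h3 := mul_le_mul_of_nonneg_left h1 hs
    nlinarith
  have h4 : (∫ θ in u..v, w θ * g θ) ≤ ∫ θ in u..v, (s * A * ∫ θ in u..v, w θ) * g θ := by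
    apply intervalIntegral.integral_mono_on hle
    · apply ContinuousOn.intervalIntegrable
      rw [uIcc_of_le hle]
      exact hw.mul hg.continuousOn
    · exact (hg.intervalIntegrable _ _).const_mul _
    · intro θ hθ
      exact mul_le_mul_of_nonneg_right (hpt θ hθ) (hg0 θ)
  rw [intervalIntegral.integral_const_mul] at h4
  have h5 : 0 ≤ s * A * ∫ θ in u..v, w θ := by positivity
  have h6 := mul_le_mul_of_nonneg_left hgM h5
  linarith

theorem g2aL (hA1 : A1) (hA2 : A2) (hM1 : M1) (hM3 : M3) (hS3 : S3) (hE6L : E6L) : G2aL := by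
  obtain ⟨K1, hK1, hM⟩ := hM1
  intro δ hδ hδ4
  have hsδ : 0 < √δ := Real.sqrt_pos.2 hδ
  obtain ⟨n1, hn1⟩ := hE6L δ hδ hδ4
  obtain ⟨n2, hn2'⟩ := hS3 δ 1 (1 / 2) hδ hδ4 one_pos (by norm_num)
  refine ⟨(2 * K1 + 2) / √δ, by positivity, max 2 (max n1 n2), ?_⟩
  intro n hn a b A P w hmid hext hwc hw0 hA hsl
  have hND := hn1 n (le_trans (le_trans (le_max_left _ _) (le_max_right _ _)) hn) a b P hmid hext
  have hS := hn2' n (le_trans (le_trans (le_max_right _ _) (le_max_right _ _)) hn) a b P hmid hext
  obtain ⟨h1, h2, h3⟩ := hmid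
  have hn2 : 2 ≤ n := le_trans (le_max_left _ _) hn
  have hnR : (0 : ℝ) < n := by
    have : 0 < n := by omega
    exact_mod_cast this
  have ha1 : -1 ≤ a := by linarith
  have hb1 : b ≤ 1 := by linarith
  have hab : a ≤ b := h2.le
  have hle : arccos b ≤ arccos a := arccos_le_arccos hab
  have hlt : arccos b < arccos a := by
    apply Real.strictAntiOn_arccos
    · exact ⟨ha1, hab.trans hb1⟩
    · exact ⟨ha1.trans hab, hb1⟩
    · exact h2
  have hca : cos (arccos a) = a := Real.cos_arccos ha1 (hab.trans hb1)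
  have hcb : cos (arccos b) = b := Real.cos_arccos (ha1.trans hab) hb1
  have hTB : TB n (qq P) := hA2.2.1 n P (Polynomial.natDegree_le_of_degree_le hext.deg) hext.bdd
  have hlog : 0 ≤ Real.log n := Real.log_nonneg (by exact_mod_cast (by omega : 1 ≤ n))
  -- the cosine maps the window in the window
  have hmem : ∀ θ ∈ Icc (arccos b) (arccos a), cos θ ∈ Icc a b := by
    intro θ hθ
    constructor
    · rw [← hca]
      exact Real.cos_le_cos_of_nonneg_of_le_pi ((arccos_nonneg _).trans hθ.1) (arccos_le_pi _) hθ.2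
    · conv_rhs => rw [← hcb]
      exact Real.cos_le_cos_of_nonneg_of_le_pi (arccos_nonneg _) (hθ.2.trans (arccos_le_pi _)) hθ.1
  have hsin0 : ∀ θ ∈ Icc (arccos b) (arccos a), 0 ≤ sin θ := fun θ hθ =>
    Real.sin_nonneg_of_nonneg_of_le_pi ((arccos_nonneg _).trans hθ.1) (hθ.2.trans (arccos_le_pi _))
  have hsin : ∀ θ ∈ Icc (arccos b) (arccos a), √δ ≤ sin θ := by
    intro θ hθ
    obtain ⟨c1, c2⟩ := hmem θ hθ
    apply Real.sqrt_le_iff.2 ⟨hsin0 θ hθ, ?_⟩
    have := Real.sin_sq_add_cos_sq θ
    nlinarith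
  -- the function g
  set g : ℝ → ℝ := fun θ => 1 / √(1 + (deriv (qq P) θ) ^ 2) with hg
  have hderc : Continuous (deriv (qq P)) := by
    have := (hA1.1 n (qq P) hTB.1).2.1
    exact ((hA1.1 n _ this).1 0).continuous
  have hgc : Continuous g := by
    rw [hg]
    refine Continuous.div continuous_const ?_ ?_
    · exact Real.continuous_sqrt.comp (continuous_const.add (hderc.pow 2))
    · intro θ
      exact (Real.sqrt_pos.2 (by positivity)).ne'
  have hg0 : ∀ θ, 0 ≤ g θ := fun θ => by rw [hg]; positivity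
  have hw'c : ContinuousOn (fun θ => w (cos θ)) (Icc (arccos b) (arccos a)) :=
    hwc.comp Real.continuous_cos.continuousOn hmem
  have hw'0 : ∀ θ ∈ Icc (arccos b) (arccos a), 0 ≤ w (cos θ) := fun θ hθ => hw0 _ (hmem θ hθ)
  -- cells
  have hcell : ∀ x y, arccos b ≤ x → x ≤ y → y ≤ arccos a → y - x ≤ 1 / n →
      (∫ θ in x..y, g θ) ≤ K1 * (1 + Real.log n) / (n : ℝ) ^ 2 := by
    intro x y hx hxy hy hd
    exact (hM n (qq P) x y hn2 hTB hxy hd
      (fun θ hθ => hND θ ⟨hx.trans hθ.1, hθ.2.trans hy⟩)).2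
  -- substitution on the left
  have hPc : ContinuousOn (fun x => w x / √(1 + P.derivative.eval x ^ 2)) (Icc a b) := by
    apply hwc.div
    · exact (Real.continuous_sqrt.comp (continuous_const.add
        ((Polynomial.continuous _).pow 2))).continuousOn
    · intro x _
      exact (Real.sqrt_pos.2 (by positivity)).ne'
  have hL : (∫ x in a..b, w x / √(1 + P.derivative.eval x ^ 2)) ≤
      ∫ θ in (arccos b)..(arccos a), w (cos θ) * g θ := by
    rw [g2aL_subst a b _ ha1 hab hb1 hPc]
    apply intervalIntegral.integral_mono_on hle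
    · apply ContinuousOn.intervalIntegrable
      rw [uIcc_of_le hle]
      exact (hPc.comp Real.continuous_cos.continuousOn hmem).mul Real.continuous_sin.continuousOn
    · apply ContinuousOn.intervalIntegrable
      rw [uIcc_of_le hle]
      exact hw'c.mul hgc.continuousOn
    · intro θ hθ
      have w0 := hw0 _ (hmem θ hθ)
      have s0 := hsin0 θ hθ
      have s1 : sin θ ≤ 1 := Real.sin_le_one θ
      have e1 : √(1 + (deriv (qq P) θ) ^ 2) ≤ √(1 + P.derivative.eval (cos θ) ^ 2) := by
        apply Real.sqrt_le_sqrt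
        rw [(hA2.2.2 P θ).1, neg_sq, mul_pow]
        have : sin θ ^ 2 ≤ 1 := by nlinarith
        nlinarith [sq_nonneg (P.derivative.eval (cos θ))]
      have p1 : 0 < √(1 + (deriv (qq P) θ) ^ 2) := Real.sqrt_pos.2 (by positivity)
      have p2 : 0 < √(1 + P.derivative.eval (cos θ) ^ 2) := Real.sqrt_pos.2 (by positivity)
      have e2 : 1 / √(1 + P.derivative.eval (cos θ) ^ 2) ≤ g θ :=
        one_div_le_one_div_of_le p1 e1
      calc w (cos θ) / √(1 + P.derivative.eval (cos θ) ^ 2) * sin θ
          ≤ w (cos θ) / √(1 + P.derivative.eval (cos θ) ^ 2) * 1 :=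
            mul_le_mul_of_nonneg_left s1 (by positivity)
        _ = w (cos θ) * (1 / √(1 + P.derivative.eval (cos θ) ^ 2)) := by ring
        _ ≤ w (cos θ) * g θ := mul_le_mul_of_nonneg_left e2 w0
  -- substitution on the right
  have hR : √δ * (∫ θ in (arccos b)..(arccos a), w (cos θ)) ≤ ∫ x in a..b, w x := by
    rw [g2aL_subst a b _ ha1 hab hb1 hwc, ← intervalIntegral.integral_const_mul]
    apply intervalIntegral.integral_mono_on hle
    · apply ContinuousOn.intervalIntegrable
      rw [uIcc_of_le hle]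
      exact continuousOn_const.mul hw'c
    · apply ContinuousOn.intervalIntegrable
      rw [uIcc_of_le hle]
      exact hw'c.mul Real.continuous_sin.continuousOn
    · intro θ hθ
      rw [mul_comm]
      exact mul_le_mul_of_nonneg_left (hsin θ hθ) (hw0 _ (hmem θ hθ))
  have hR2 : (∫ θ in (arccos b)..(arccos a), w (cos θ)) ≤ (∫ x in a..b, w x) / √δ := by
    rw [le_div_iff₀ hsδ, mul_comm]
    exact hR
  have hW0 : 0 ≤ ∫ x in a..b, w x := intervalIntegral.integral_nonneg hab hw0
  have hA0 : 0 ≤ A := by linarith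
  by_cases hhalf : 1 / 2 ≤ n * (arccos a - arccos b)
  · -- the bound with cells
    have key : (∫ θ in (arccos b)..(arccos a), w (cos θ) * g θ) ≤
        2 * n * A * (K1 * (1 + Real.log n) / (n : ℝ) ^ 2) *
          ∫ θ in (arccos b)..(arccos a), w (cos θ) := by
      by_cases hone : 1 ≤ n * (arccos a - arccos b)
      · have hlen : arccos b + 1 / n ≤ arccos a := by
          have : 1 / (n : ℝ) ≤ arccos a - arccos b := by
            rw [div_le_iff₀ hnR]; linarith
          linarith
        exact hM3 n g (fun θ => w (cos θ)) (arccos b) (arccos a) A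
          (K1 * (1 + Real.log n) / (n : ℝ) ^ 2) (by omega) hgc hw'c hg0
          hw'0 hlen (by positivity) hA hcell
          (fun x hx y hy hxy => hsl _ (hmem x hx) _ (hmem y hy)
            (le_trans (abs_cos_sub_cos_le x y) hxy))
      · have hle1 : arccos a - arccos b ≤ 1 / n := by
          rw [le_div_iff₀ hnR]; linarith [not_le.1 hone]
        have h := g2aL_cell g (fun θ => w (cos θ)) (arccos b) (arccos a) A
          (K1 * (1 + Real.log n) / (n : ℝ) ^ 2) (2 * n) hlt (by positivity) (by linarith) hgc hw'c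
          hg0 hw'0 hA (hcell _ _ le_rfl hle le_rfl hle1)
          (fun x hx y hy => hsl _ (hmem x hx) _ (hmem y hy) (by
            refine le_trans (abs_cos_sub_cos_le x y) (le_trans ?_ hle1)
            rw [abs_le]
            constructor
            · linarith [hx.1, hx.2, hy.1, hy.2]
            · linarith [hx.1, hx.2, hy.1, hy.2]))
        exact h
    refine le_trans hL (le_trans key ?_)
    calc 2 * n * A * (K1 * (1 + Real.log n) / (n : ℝ) ^ 2) *
          (∫ θ in (arccos b)..(arccos a), w (cos θ))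
        ≤ 2 * n * A * (K1 * (1 + Real.log n) / (n : ℝ) ^ 2) * ((∫ x in a..b, w x) / √δ) :=
          mul_le_mul_of_nonneg_left hR2 (by positivity)
      _ = 2 * K1 / √δ * (A * (1 + Real.log n) / n * ∫ x in a..b, w x) := by
          field_simp
      _ ≤ (2 * K1 + 2) / √δ * (A * (1 + Real.log n) / n * ∫ x in a..b, w x) := by
          apply mul_le_mul_of_nonneg_right _ (by positivity)
          apply div_le_div_of_nonneg_right _ hsδ.le
          linarith
      _ = (2 * K1 + 2) / √δ * A * (1 + Real.log n) / n * ∫ x in a..b, w x := by ring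
  · -- short windows
    have hlt2 : n * (arccos a - arccos b) < 1 / 2 := not_le.1 hhalf
    have hd := (hS (by linarith)).2 hlt2.le
    have hgle : ∀ θ ∈ Icc (arccos b) (arccos a), g θ ≤ 2 / n := by
      intro θ hθ
      have e1 : (n : ℝ) / 2 ≤ √(1 + (deriv (qq P) θ) ^ 2) := by
        refine le_trans (hd θ hθ) ?_
        rw [← Real.sqrt_sq_eq_abs]
        apply Real.sqrt_le_sqrt
        linarith
      have e2 : g θ ≤ 1 / ((n : ℝ) / 2) := one_div_le_one_div_of_le (by positivity) e1
      calc g θ ≤ 1 / ((n : ℝ) / 2) := e2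
        _ = 2 / n := by field_simp
    have key : (∫ θ in (arccos b)..(arccos a), w (cos θ) * g θ) ≤
        2 / n * ∫ θ in (arccos b)..(arccos a), w (cos θ) := by
      rw [← intervalIntegral.integral_const_mul]
      apply intervalIntegral.integral_mono_on hle
      · apply ContinuousOn.intervalIntegrable
        rw [uIcc_of_le hle]
        exact hw'c.mul hgc.continuousOn
      · apply ContinuousOn.intervalIntegrable
        rw [uIcc_of_le hle]
        exact continuousOn_const.mul hw'c
      · intro θ hθ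
        rw [mul_comm]
        exact mul_le_mul_of_nonneg_right (hgle θ hθ) (hw'0 θ hθ)
    refine le_trans hL (le_trans key ?_)
    have hAl : 1 ≤ A * (1 + Real.log n) := by nlinarith
    calc 2 / n * (∫ θ in (arccos b)..(arccos a), w (cos θ))
        ≤ 2 / n * ((∫ x in a..b, w x) / √δ) := mul_le_mul_of_nonneg_left hR2 (by positivity)
      _ = 2 / √δ * (1 / n * ∫ x in a..b, w x) := by ring
      _ ≤ (2 * K1 + 2) / √δ * (A * (1 + Real.log n) / n * ∫ x in a..b, w x) := by
          apply mul_le_mul
          · apply div_le_div_of_nonneg_right _ hsδ.le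
            linarith
          · apply mul_le_mul_of_nonneg_right _ hW0
            exact div_le_div_of_nonneg_right hAl hnR.le
          · positivity
          · positivity
      _ = (2 * K1 + 2) / √δ * A * (1 + Real.log n) / n * ∫ x in a..b, w x := by ring

end

end Pool.Agent.Helper10.AL
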