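import Pool.Agent.Helper10.AL.St8
import Pool.Agent.Helper10.AL.P.G0u
import Pool.Agent.Helper10.AL.P.G2aL
import Pool.Agent.Helper10.AL.P.G2av

/-!
Piece G2ac: weighted integrals of the reciprocal of the arc length density, bounded windows.
-/

set_option autoImplicit false

namespace Pool.Agent.Helper10.AL

open Polynomial Set Real MeasureTheory intervalIntegral
open Pool.Agent.Helper40.AS (arc Bdd Ext quad)

noncomputable section

/-- the cosine on an interval on which the sine is small -/
theorem g2ac_cos (u v s x y : ℝ) (hs : ∀ θ ∈ Icc u v, |sin θ| ≤ s) (hx : x ∈ Icc u v)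
    (hy : y ∈ Icc u v) : |cos x - cos y| ≤ s * |x - y| := by
  rw [cos_sub_cos]
  have hm : (x + y) / 2 ∈ Icc u v :=
    ⟨by linarith [hx.1, hy.1], by linarith [hx.2, hy.2]⟩
  have h1 := hs _ hm
  have h2 : |sin ((x - y) / 2)| ≤ |(x - y) / 2| := Real.abs_sin_le_abs
  rw [abs_mul, abs_mul]
  have h3 : |(-2 : ℝ)| = 2 := by norm_num
  have h4 : |(x - y) / 2| = |x - y| / 2 := by
    rw [abs_div]
    norm_num
  rw [h4] at h2
  rw [h3]
  have h5 : 0 ≤ |sin ((x + y) / 2)| := abs_nonneg _
  have h6 : |sin ((x + y) / 2)| * |sin ((x - y) / 2)| ≤ s * (|x - y| / 2) :=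
    mul_le_mul h1 h2 (abs_nonneg _) (h5.trans h1)
  nlinarith

theorem g2ac (hA1 : A1) (hA2 : A2) (hM1 : M1) (hM3 : M3) (hS3e : S3e) : G2ac := by
  intro K hK
  obtain ⟨R1, hR1, n1, hn1⟩ := hS3e K (1 / 2) hK (by norm_num)
  refine ⟨32 * (2000 * 8000) + 4, max R1 (max (2 * K) 2), by norm_num,
    lt_max_of_lt_left hR1, max n1 2, ?_⟩
  intro n hn a b A P w hWc hext hwc hw0 hA hsl
  obtain ⟨ha, hab, hb, hK1, hRa, hRb⟩ := hWc
  have hR1' : R1 ≤ n * sin (arccos b) := (le_max_left _ _).trans hRb
  have hR1a : R1 ≤ n * sin (arccos a) := (le_max_left _ _).trans hRa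
  have hRK : 2 * K ≤ n * sin (arccos b) :=
    ((le_max_left _ _).trans (le_max_right _ _)).trans hRb
  have hR2 : 2 ≤ n * sin (arccos b) :=
    ((le_max_right _ _).trans (le_max_right _ _)).trans hRb
  obtain ⟨-, hND, hshort⟩ := hn1 n ((le_max_left _ _).trans hn) a b P
    ⟨ha, hab, hb, hK1, hR1a, hR1'⟩ hext
  have hn2 : 2 ≤ n := (le_max_right _ _).trans hn
  have hnat : 1 ≤ n := by omega
  have hnR : (1 : ℝ) ≤ n := by exact_mod_cast hnat
  have hn0 : (0 : ℝ) < n := by linarith
  have hlog : 0 ≤ Real.log n := Real.log_nonneg hnR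
  have hle : arccos b ≤ arccos a := arccos_le_arccos hab.le
  have hca : cos (arccos a) = a := Real.cos_arccos ha (hab.le.trans hb)
  have hcb : cos (arccos b) = b := Real.cos_arccos (ha.trans hab.le) hb
  have hTB : TB n (qq P) := hA2.2.1 n P (Polynomial.natDegree_le_of_degree_le hext.deg) hext.bdd
  set s : ℝ := sin (arccos b) with hs
  have hs0 : 0 < s := by
    by_contra hcon
    have := mul_nonpos_of_nonneg_of_nonpos hn0.le (not_lt.1 hcon)
    linarith
  -- the cosine maps the window in the window
  have hmem : ∀ θ ∈ Icc (arccos b) (arccos a), cos θ ∈ Icc a b := by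
    intro θ hθ
    constructor
    · rw [← hca]
      exact Real.cos_le_cos_of_nonneg_of_le_pi ((arccos_nonneg _).trans hθ.1) (arccos_le_pi _) hθ.2
    · conv_rhs => rw [← hcb]
      exact Real.cos_le_cos_of_nonneg_of_le_pi (arccos_nonneg _) (hθ.2.trans (arccos_le_pi _)) hθ.1
  have hsin0 : ∀ θ ∈ Icc (arccos b) (arccos a), 0 ≤ sin θ := fun θ hθ =>
    Real.sin_nonneg_of_nonneg_of_le_pi ((arccos_nonneg _).trans hθ.1) (hθ.2.trans (arccos_le_pi _))
  have hsd : ∀ θ ∈ Icc (arccos b) (arccos a), |sin θ - s| ≤ s / 2 := by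
    intro θ hθ
    have h1 := abs_sin_sub_sin_le θ (arccos b)
    have h2 : |θ - arccos b| ≤ arccos a - arccos b := by
      rw [abs_of_nonneg (by linarith [hθ.1])]
      linarith [hθ.2]
    have h3 : (n : ℝ) * (arccos a - arccos b) ≤ n * (s / 2) := by linarith
    have h4 := le_of_mul_le_mul_left h3 hn0
    exact (h1.trans h2).trans h4
  have hslo : ∀ θ ∈ Icc (arccos b) (arccos a), s / 2 ≤ sin θ := fun θ hθ => by
    have := abs_le.1 (hsd θ hθ)
    linarith [this.1]
  have hshi : ∀ θ ∈ Icc (arccos b) (arccos a), sin θ ≤ 2 * s := fun θ hθ => by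
    have := abs_le.1 (hsd θ hθ)
    linarith [this.2]
  have hs1n : ∀ θ ∈ Icc (arccos b) (arccos a), 1 ≤ n * sin θ := fun θ hθ => by
    have h1 := mul_le_mul_of_nonneg_left (hslo θ hθ) hn0.le
    linarith
  have hderc : Continuous (deriv (qq P)) := by
    have := (hA1.1 n (qq P) hTB.1).2.1
    exact ((hA1.1 n _ this).1 0).continuous
  have hw'c : ContinuousOn (fun θ => w (cos θ)) (Icc (arccos b) (arccos a)) :=
    hwc.comp Real.continuous_cos.continuousOn hmem
  have hw'0 : ∀ θ ∈ Icc (arccos b) (arccos a), 0 ≤ w (cos θ) := fun θ hθ => hw0 _ (hmem θ hθ)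
  have hW0 : 0 ≤ ∫ x in a..b, w x := intervalIntegral.integral_nonneg hab.le hw0
  -- substitution on the right
  have hR3 : s / 2 * (∫ θ in (arccos b)..(arccos a), w (cos θ)) ≤ ∫ x in a..b, w x := by
    rw [g2aL_subst a b _ ha hab.le hb hwc, ← intervalIntegral.integral_const_mul]
    apply intervalIntegral.integral_mono_on hle
    · apply ContinuousOn.intervalIntegrable
      rw [uIcc_of_le hle]
      exact continuousOn_const.mul hw'c
    · apply ContinuousOn.intervalIntegrable
      rw [uIcc_of_le hle]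
      exact hw'c.mul Real.continuous_sin.continuousOn
    · intro θ hθ
      rw [mul_comm]
      exact mul_le_mul_of_nonneg_left (hslo θ hθ) (hw0 _ (hmem θ hθ))
  have hkc : ContinuousOn (fun θ => sin θ ^ 2 / √(sin θ ^ 2 + deriv (qq P) θ ^ 2))
      (Icc (arccos b) (arccos a)) := by
    apply ContinuousOn.div
    · fun_prop
    · exact (Real.continuous_sqrt.comp ((Real.continuous_sin.pow 2).add
        (hderc.pow 2))).continuousOn
    · intro θ hθ
      have h1 : 0 < sin θ := lt_of_lt_of_le (by linarith) (hslo θ hθ)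
      exact (Real.sqrt_pos.2 (by positivity)).ne'
  by_cases hhalf : 1 / 2 ≤ n * (arccos a - arccos b)
  · set g : ℝ → ℝ := fun θ => n * (√(1 + (n * deriv (qq P) θ) ^ 2))⁻¹ with hg
    have hgc : Continuous g :=
      continuous_const.mul (Continuous.inv₀ (by fun_prop) fun t => by positivity)
    have hg0 : ∀ θ, 0 ≤ g θ := fun θ => by rw [hg]; positivity
    have hL : (∫ x in a..b, w x / √(1 + P.derivative.eval x ^ 2)) ≤
        4 * s ^ 2 * ∫ θ in (arccos b)..(arccos a), w (cos θ) * g θ := by
      rw [g0u a b P w ha hab.le hb hwc, ← intervalIntegral.integral_const_mul]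
      apply intervalIntegral.integral_mono_on hle
      · apply ContinuousOn.intervalIntegrable
        rw [uIcc_of_le hle]
        exact hw'c.mul hkc
      · apply ContinuousOn.intervalIntegrable
        rw [uIcc_of_le hle]
        exact continuousOn_const.mul (hw'c.mul hgc.continuousOn)
      · intro θ hθ
        have w0 := hw'0 θ hθ
        have s1 := hslo θ hθ
        have s2 := hshi θ hθ
        have s3 := hs1n θ hθ
        have spos : 0 < sin θ := by linarith
        have e1 : 1 / √(sin θ ^ 2 + deriv (qq P) θ ^ 2) ≤ g θ := by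
          have p1 : 0 < √(1 + (n * deriv (qq P) θ) ^ 2) := by positivity
          have p2 : 0 < √(sin θ ^ 2 + deriv (qq P) θ ^ 2) := Real.sqrt_pos.2 (by positivity)
          rw [hg]
          simp only
          rw [← div_eq_mul_inv, div_le_div_iff₀ p2 p1, one_mul]
          rw [Real.sqrt_le_left (by positivity), mul_pow (n : ℝ) (√_),
            Real.sq_sqrt (by positivity)]
          have : 1 ≤ (n * sin θ) ^ 2 := one_le_pow₀ s3
          nlinarith
        have e2 : sin θ ^ 2 ≤ 4 * s ^ 2 := by nlinarith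
        have e3 : sin θ ^ 2 / √(sin θ ^ 2 + deriv (qq P) θ ^ 2) ≤ 4 * s ^ 2 * g θ := by
          rw [div_eq_mul_one_div]
          exact mul_le_mul e2 e1 (by positivity) (by positivity)
        calc w (cos θ) * (sin θ ^ 2 / √(sin θ ^ 2 + deriv (qq P) θ ^ 2))
            ≤ w (cos θ) * (4 * s ^ 2 * g θ) := mul_le_mul_of_nonneg_left e3 w0
          _ = 4 * s ^ 2 * (w (cos θ) * g θ) := by ring
    have hlen : arccos b + 1 / ((2 * n : ℕ) : ℝ) ≤ arccos a := by
      have : 1 / ((2 * n : ℕ) : ℝ) ≤ arccos a - arccos b := by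
        push_cast
        rw [div_le_iff₀ (by positivity)]
        linarith
      linarith
    have key := hM3 (2 * n) g (fun θ => w (cos θ)) (arccos b) (arccos a) A
      (2000 * 8000 * (1 + Real.log n) / (n : ℝ) ^ 2) (by omega) hgc hw'c hg0 hw'0 hlen
      (by positivity) hA
      (by
        intro x y hx hxy hy hd
        refine g2av_win hA1 hA2 n (qq P) x y hn2 hTB hxy (hd.trans ?_)
          (fun θ hθ => hND θ ⟨hx.trans hθ.1, hθ.2.trans hy⟩)
        push_cast
        apply one_div_le_one_div_of_le hn0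
        linarith)
      (by
        intro x hx y hy hxy
        refine hsl _ (hmem x hx) _ (hmem y hy) ?_
        have h1 := g2ac_cos (arccos b) (arccos a) (2 * s) x y
          (fun θ hθ => by
            rw [abs_of_nonneg (hsin0 θ hθ)]
            exact hshi θ hθ) hx hy
        refine h1.trans ?_
        have h2 : 2 * s * |x - y| ≤ 2 * s * (1 / ((2 * n : ℕ) : ℝ)) :=
          mul_le_mul_of_nonneg_left hxy (by positivity)
        refine h2.trans (le_of_eq ?_)
        push_cast
        field_simp)
    refine hL.trans ?_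
    have h5 : 4 * s ^ 2 * (∫ θ in (arccos b)..(arccos a), w (cos θ) * g θ) ≤
        4 * s ^ 2 * (2 * ((2 * n : ℕ) : ℝ) * A * (2000 * 8000 * (1 + Real.log n) / (n : ℝ) ^ 2) *
          ∫ θ in (arccos b)..(arccos a), w (cos θ)) :=
      mul_le_mul_of_nonneg_left key (by positivity)
    refine h5.trans ?_
    have e5 : 4 * s ^ 2 * (2 * ((2 * n : ℕ) : ℝ) * A *
        (2000 * 8000 * (1 + Real.log n) / (n : ℝ) ^ 2) *
          ∫ θ in (arccos b)..(arccos a), w (cos θ)) =
        32 * (2000 * 8000) * A * (1 + Real.log n) * s / n *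
          (s / 2 * ∫ θ in (arccos b)..(arccos a), w (cos θ)) := by
      push_cast
      field_simp
      ring
    rw [e5]
    have hA0 : 0 ≤ A := by linarith
    have h6 : 32 * (2000 * 8000) * A * (1 + Real.log n) * s / n *
          (s / 2 * ∫ θ in (arccos b)..(arccos a), w (cos θ)) ≤
        32 * (2000 * 8000) * A * (1 + Real.log n) * s / n * ∫ x in a..b, w x :=
      mul_le_mul_of_nonneg_left hR3 (by positivity)
    refine h6.trans ?_
    apply mul_le_mul_of_nonneg_right _ hW0
    apply div_le_div_of_nonneg_right _ hn0.le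
    apply mul_le_mul_of_nonneg_right _ hs0.le
    apply mul_le_mul_of_nonneg_right _ (by positivity)
    apply mul_le_mul_of_nonneg_right _ hA0
    norm_num
  · -- short windows
    have hlt2 : n * (arccos a - arccos b) < 1 / 2 := not_le.1 hhalf
    have hd := hshort hlt2.le
    have key : (∫ x in a..b, w x / √(1 + P.derivative.eval x ^ 2)) ≤
        4 * s / n * ∫ x in a..b, w x := by
      rw [g0u a b P w ha hab.le hb hwc, g2aL_subst a b _ ha hab.le hb hwc,
        ← intervalIntegral.integral_const_mul]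
      apply intervalIntegral.integral_mono_on hle
      · apply ContinuousOn.intervalIntegrable
        rw [uIcc_of_le hle]
        exact hw'c.mul hkc
      · apply ContinuousOn.intervalIntegrable
        rw [uIcc_of_le hle]
        exact continuousOn_const.mul (hw'c.mul Real.continuous_sin.continuousOn)
      · intro θ hθ
        have w0 := hw'0 θ hθ
        have s1 := hslo θ hθ
        have s2 := hshi θ hθ
        have spos : 0 < sin θ := by linarith
        have d1 := hd θ hθ
        have e1 : (n : ℝ) / 2 ≤ √(sin θ ^ 2 + deriv (qq P) θ ^ 2) := by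
          refine d1.trans ?_
          rw [← Real.sqrt_sq_eq_abs]
          apply Real.sqrt_le_sqrt
          nlinarith
        have p2 : 0 < √(sin θ ^ 2 + deriv (qq P) θ ^ 2) := Real.sqrt_pos.2 (by positivity)
        have e3 : sin θ ^ 2 / √(sin θ ^ 2 + deriv (qq P) θ ^ 2) ≤ 4 * s / n * sin θ := by
          rw [div_le_iff₀ p2]
          have e4 : 4 * s / n * sin θ * (n / 2) ≤
              4 * s / n * sin θ * √(sin θ ^ 2 + deriv (qq P) θ ^ 2) :=
            mul_le_mul_of_nonneg_left e1 (by positivity)
          refine le_trans ?_ e4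
          have e5 : 4 * s / n * sin θ * (n / 2) = 2 * s * sin θ := by
            field_simp
            ring
          rw [e5]
          nlinarith
        calc w (cos θ) * (sin θ ^ 2 / √(sin θ ^ 2 + deriv (qq P) θ ^ 2))
            ≤ w (cos θ) * (4 * s / n * sin θ) := mul_le_mul_of_nonneg_left e3 w0
          _ = 4 * s / n * (w (cos θ) * sin θ) := by ring
    refine key.trans ?_
    apply mul_le_mul_of_nonneg_right _ hW0
    apply div_le_div_of_nonneg_right _ hn0.le
    apply mul_le_mul_of_nonneg_right _ hs0.le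
    have hAl : 1 ≤ A * (1 + Real.log n) := by nlinarith
    nlinarith

end

end Pool.Agent.Helper10.AL
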