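import Pool.Agent.Helper10.AL.St9

/-!
Arc length of polynomials over windows near `1`: piece G3h (real critical points outside the
interval and the degree).
-/

set_option autoImplicit false

namespace Pool.Agent.Helper10.AL

open Polynomial Set Real MeasureTheory intervalIntegral
open Pool.Agent.Helper40.AS (arc Bdd Ext quad)

/-- the abstract estimate -/
theorem g3h_abs {a b L ε C : ℝ} {A A' B B' S : ℝ → ℝ} (ha : 1 / 2 ≤ a) (hab : a < b)
    (hb : b < 1) (hA : ∀ x ∈ Icc a b, HasDerivAt A (A' x) x)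
    (hB : ∀ x ∈ Icc a b, HasDerivAt B (B' x) x)
    (hA'c : ContinuousOn A' (Icc a b)) (hB'c : ContinuousOn B' (Icc a b))
    (hA0 : ∀ x ∈ Icc a b, 0 ≤ A x ∧ A x ≤ A a ∧ A' x ≤ 0)
    (hB0 : ∀ x ∈ Icc a b, 0 ≤ B x ∧ B x ≤ B a ∧ B' x ≤ 0)
    (hS : Continuous S) (hS1 : ∀ x, 1 ≤ S x) (hL : 0 < L) (hC : 0 ≤ C)
    (hd : ∀ x ∈ Icc a b, L ≤ S x ∨
      (-A' x ≤ C * A a / (b - a) ∧ -B' x ≤ C * B a / (b - a)))
    (hI : (∫ x in a..b, 1 / S x) ≤ ε * (b - a))
    (hq : (1 + a) * (A a * B a) * S a ≤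
      ∫ x in a..b, |A x * B x + (1 + x) * (A' x * B x + A x * B' x)| / S x)
    (hG : 0 < A a * B a) : 3 / 2 ≤ 3 / L + (1 + 4 * C) * ε := by
  have hba : 0 < b - a := by linarith
  have hAc : ContinuousOn A (Icc a b) := fun x hx => (hA x hx).continuousAt.continuousWithinAt
  have hBc : ContinuousOn B (Icc a b) := fun x hx => (hB x hx).continuousAt.continuousWithinAt
  have hSp : ∀ x, 0 < S x := fun x => by linarith [hS1 x]
  have hSne : ∀ x, S x ≠ 0 := fun x => (hSp x).ne'
  have hSi : Continuous fun x => 1 / S x := Continuous.div continuous_const hS hSne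
  set G : ℝ := A a * B a with hGd
  set c2 : ℝ := (1 + 4 * C) * G / (b - a) with hc2
  have hc20 : 0 ≤ c2 := by positivity
  have haI : a ∈ Icc a b := ⟨le_rfl, hab.le⟩
  have hbI : b ∈ Icc a b := ⟨hab.le, le_rfl⟩
  have hpt : ∀ x ∈ Icc a b, |A x * B x + (1 + x) * (A' x * B x + A x * B' x)| / S x ≤
      (A x * B x - 2 * (A' x * B x + A x * B' x)) * (1 / L) + c2 * (1 / S x) := by
    intro x hx
    obtain ⟨a0, a1, a2⟩ := hA0 x hx
    obtain ⟨b0, b1, b2⟩ := hB0 x hx
    have hx1 := hx.1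
    have hx2 := hx.2
    have h1 : A' x * B x ≤ 0 := mul_nonpos_of_nonpos_of_nonneg a2 b0
    have h2 : A x * B' x ≤ 0 := mul_nonpos_of_nonneg_of_nonpos a0 b2
    have h3 : 0 ≤ A x * B x := mul_nonneg a0 b0
    have hT : |A x * B x + (1 + x) * (A' x * B x + A x * B' x)| ≤
        A x * B x - 2 * (A' x * B x + A x * B' x) := by
      have e1 : 2 * (A' x * B x + A x * B' x) ≤ (1 + x) * (A' x * B x + A x * B' x) := by
        nlinarith
      have e2 : (1 + x) * (A' x * B x + A x * B' x) ≤ 0 :=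
        mul_nonpos_of_nonneg_of_nonpos (by linarith) (by linarith)
      rw [abs_le]
      constructor <;> linarith
    have hU0 : 0 ≤ A x * B x - 2 * (A' x * B x + A x * B' x) := (abs_nonneg _).trans hT
    have hsx := hSp x
    have hsx' : 0 ≤ 1 / S x := by positivity
    rcases hd x hx with h | ⟨h, h'⟩
    · have e1 : |A x * B x + (1 + x) * (A' x * B x + A x * B' x)| / S x ≤
          (A x * B x - 2 * (A' x * B x + A x * B' x)) / L :=
        div_le_div₀ hU0 hT hL h
      have e2 : 0 ≤ c2 * (1 / S x) := mul_nonneg hc20 hsx'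
      rw [mul_one_div]
      linarith
    · have e1 : A x * B x - 2 * (A' x * B x + A x * B' x) ≤ c2 := by
        have f1 : A x * B x ≤ G := mul_le_mul a1 b1 b0 (a0.trans a1)
        have f2 : -A' x * B x ≤ C * A a / (b - a) * B a :=
          mul_le_mul h b1 b0 (by have := a0.trans a1; positivity)
        have f3 : A x * -B' x ≤ A a * (C * B a / (b - a)) :=
          mul_le_mul a1 h' (by linarith) (a0.trans a1)
        have f4 : C * A a / (b - a) * B a = C * G / (b - a) := by rw [hGd]; ring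
        have f5 : A a * (C * B a / (b - a)) = C * G / (b - a) := by rw [hGd]; ring
        have f6 : G ≤ G / (b - a) := by
          rw [le_div_iff₀ hba]
          nlinarith
        have f7 : c2 = G / (b - a) + 4 * (C * G / (b - a)) := by rw [hc2]; ring
        rw [f4] at f2
        rw [f5] at f3
        rw [f7]
        nlinarith
      have e2 : |A x * B x + (1 + x) * (A' x * B x + A x * B' x)| / S x ≤ c2 / S x :=
        div_le_div_of_nonneg_right (hT.trans e1) hsx.le
      have e3 : 0 ≤ (A x * B x - 2 * (A' x * B x + A x * B' x)) * (1 / L) := by positivity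
      rw [mul_one_div c2]
      linarith
  have hABc : ContinuousOn (fun x => A x * B x) (Icc a b) := hAc.mul hBc
  have hdc : ContinuousOn (fun x => A' x * B x + A x * B' x) (Icc a b) :=
    (hA'c.mul hBc).add (hAc.mul hB'c)
  have hdi : IntervalIntegrable (fun x => A' x * B x + A x * B' x) volume a b :=
    ContinuousOn.intervalIntegrable (by rw [uIcc_of_le hab.le]; exact hdc)
  have hABi : IntervalIntegrable (fun x => A x * B x) volume a b :=
    ContinuousOn.intervalIntegrable (by rw [uIcc_of_le hab.le]; exact hABc)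
  have hI1 : (∫ x in a..b, |A x * B x + (1 + x) * (A' x * B x + A x * B' x)| / S x) ≤
      ∫ x in a..b, ((A x * B x - 2 * (A' x * B x + A x * B' x)) * (1 / L) +
        c2 * (1 / S x)) := by
    refine integral_mono_on hab.le ?_ ?_ hpt
    · refine ContinuousOn.intervalIntegrable ?_
      rw [uIcc_of_le hab.le]
      refine ContinuousOn.div ?_ hS.continuousOn fun x _ => hSne x
      exact (hABc.add ((continuousOn_const.add continuousOn_id).mul hdc)).abs
    · exact (((hABi.sub (hdi.const_mul 2)).mul_const _)).add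
        ((hSi.intervalIntegrable _ _).const_mul _)
  have hI2 : (∫ x in a..b, (A' x * B x + A x * B' x)) = A b * B b - G := by
    refine integral_eq_sub_of_hasDerivAt (f := fun x => A x * B x) ?_ hdi
    intro x hx
    rw [uIcc_of_le hab.le] at hx
    exact (hA x hx).mul (hB x hx)
  have hI3 : (∫ x in a..b, A x * B x) ≤ G * (b - a) := by
    have h1 : (∫ x in a..b, A x * B x) ≤ ∫ _ in a..b, G := by
      refine integral_mono_on hab.le hABi ?_ ?_
      · exact continuous_const.intervalIntegrable _ _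
      · intro x hx
        obtain ⟨a0, a1, a2⟩ := hA0 x hx
        obtain ⟨b0, b1, b2⟩ := hB0 x hx
        exact mul_le_mul a1 b1 b0 (a0.trans a1)
    rw [intervalIntegral.integral_const, smul_eq_mul] at h1
    linarith
  have hI4 : (∫ x in a..b, ((A x * B x - 2 * (A' x * B x + A x * B' x)) * (1 / L) +
        c2 * (1 / S x))) = ((∫ x in a..b, A x * B x) - 2 * (A b * B b - G)) * (1 / L) +
        c2 * ∫ x in a..b, 1 / S x := by
    rw [intervalIntegral.integral_add ((hABi.sub (hdi.const_mul 2)).mul_const _)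
      ((hSi.intervalIntegrable _ _).const_mul _), intervalIntegral.integral_mul_const,
      intervalIntegral.integral_const_mul, intervalIntegral.integral_sub hABi (hdi.const_mul 2),
      intervalIntegral.integral_const_mul, hI2]
  have hGb : 0 ≤ A b * B b := mul_nonneg (hA0 b hbI).1 (hB0 b hbI).1
  have hU : (∫ x in a..b, A x * B x) - 2 * (A b * B b - G) ≤ 3 * G := by
    nlinarith
  have h5 : ((∫ x in a..b, A x * B x) - 2 * (A b * B b - G)) * (1 / L) ≤ 3 * G * (1 / L) :=
    mul_le_mul_of_nonneg_right hU (by positivity)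
  have h6 : c2 * (∫ x in a..b, 1 / S x) ≤ c2 * (ε * (b - a)) :=
    mul_le_mul_of_nonneg_left hI hc20
  have h7 : c2 * (ε * (b - a)) = (1 + 4 * C) * ε * G := by
    rw [hc2]; field_simp
  have h8 : 3 / 2 * G ≤ (1 + a) * G * S a := by
    have := hS1 a
    have e1 : 3 / 2 * G ≤ (1 + a) * G := by nlinarith
    have e2 : (1 + a) * G * 1 ≤ (1 + a) * G * S a :=
      mul_le_mul_of_nonneg_left this (mul_nonneg (by linarith) hG.le)
    linarith
  have h9 : 3 / 2 * G ≤ (3 / L + (1 + 4 * C) * ε) * G := by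
    calc 3 / 2 * G ≤ 3 * G * (1 / L) + (1 + 4 * C) * ε * G := by
          rw [← h7]; linarith
      _ = _ := by ring
  exact le_of_mul_le_mul_right h9 hG

/-- the factors -/
def g3h_Fac (E : ℝ[X]) : Prop :=
  E = 1 ∨ (∃ y : ℝ, y ≤ -1 ∧ E = X - C y) ∨ ∃ y : ℝ, 1 ≤ y ∧ E = C y - X

theorem g3h_fac {E : ℝ[X]} (hE : g3h_Fac E) :
    ∃ s : ℝ, (∀ x, E.derivative.eval x = s) ∧ (∀ x t, E.eval t = E.eval x + (t - x) * s) ∧
      (∀ x ∈ Ioo (-1 : ℝ) 1, 0 < E.eval x) ∧ 0 ≤ E.eval 1 ∧
      (∀ x t : ℝ, 1 / 2 ≤ x → x ≤ t → t ≤ 1 → x < 1 → E.eval t ≤ 2 * E.eval x) ∧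
      ∀ a x M : ℝ, 1 / 2 ≤ a → a ≤ x → x < 1 → 0 ≤ M → 1 - a ≤ M * (1 - x) →
        E.eval a ≤ (1 + M) * E.eval x := by
  rcases hE with rfl | ⟨y, hy, rfl⟩ | ⟨y, hy, rfl⟩
  · refine ⟨0, ?_, ?_, ?_, ?_, ?_, ?_⟩
    · intro x; simp
    · intro x t; simp
    · intro x _; simp
    · simp
    · intro x t _ _ _ _
      simp
    · intro a x M _ _ _ hM _
      simp only [eval_one]
      linarith
  · refine ⟨1, ?_, ?_, ?_, ?_, ?_, ?_⟩
    · intro x; simp
    · intro x t
      simp only [eval_sub, eval_X, eval_C]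
      ring
    · intro x hx
      simp only [eval_sub, eval_X, eval_C]
      linarith [hx.1]
    · simp only [eval_sub, eval_X, eval_C]
      linarith
    · intro x t h1 h2 h3 _
      simp only [eval_sub, eval_X, eval_C]
      linarith
    · intro a x M h1 h2 h3 hM _
      simp only [eval_sub, eval_X, eval_C]
      nlinarith
  · refine ⟨-1, ?_, ?_, ?_, ?_, ?_, ?_⟩
    · intro x; simp
    · intro x t
      simp only [eval_sub, eval_X, eval_C]
      ring
    · intro x hx
      simp only [eval_sub, eval_X, eval_C]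
      linarith [hx.2]
    · simp only [eval_sub, eval_X, eval_C]
      linarith
    · intro x t h1 h2 h3 h4
      simp only [eval_sub, eval_X, eval_C]
      linarith
    · intro a x M h1 h2 h3 hM h4
      simp only [eval_sub, eval_X, eval_C]
      nlinarith

/-- the quotients -/
theorem g3h_quo {E : ℝ[X]} (hE : g3h_Fac E) {a b t : ℝ} (ha : 1 / 2 ≤ a) (hab : a ≤ b)
    (hb : b < 1) (hbt : b ≤ t) (ht : t ≤ 1) :
    (∀ x ∈ Icc a b, HasDerivAt (fun x => (t - x) / E.eval x) (-E.eval t / E.eval x ^ 2) x) ∧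
    ContinuousOn (fun x => -E.eval t / E.eval x ^ 2) (Icc a b) ∧
    ∀ x ∈ Icc a b, 0 ≤ (t - x) / E.eval x ∧ (t - x) / E.eval x ≤ (t - a) / E.eval a ∧
      -E.eval t / E.eval x ^ 2 ≤ 0 ∧ -(-E.eval t / E.eval x ^ 2) ≤ 2 / E.eval x := by
  obtain ⟨s, h1, h2, h3, h4, h5, h6⟩ := g3h_fac hE
  have hpos : ∀ x ∈ Icc a b, 0 < E.eval x := fun x hx =>
    h3 x ⟨by linarith [hx.1], by linarith [hx.2]⟩
  have ht0 : 0 ≤ E.eval t := by
    rcases lt_or_eq_of_le ht with h | h
    · exact (h3 t ⟨by linarith, h⟩).le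
    · rw [h]; exact h4
  refine ⟨?_, ?_, ?_⟩
  · intro x hx
    have hne : E.eval x ≠ 0 := (hpos x hx).ne'
    have hd : HasDerivAt (fun x => E.eval x) s x := by
      have := E.hasDerivAt x
      rwa [h1 x] at this
    have hn : HasDerivAt (fun x : ℝ => t - x) (-1) x := by
      simpa using (hasDerivAt_id x).const_sub t
    refine (hn.div hd hne).congr_deriv ?_
    rw [h2 x t]
    ring
  · refine ContinuousOn.div continuousOn_const ?_ fun x hx => pow_ne_zero _ (hpos x hx).ne'
    fun_prop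
  · intro x hx
    have hx1 := hx.1
    have hx2 := hx.2
    have hp := hpos x hx
    have hpa := hpos a ⟨le_rfl, by linarith⟩
    have hle := h5 x t (by linarith) (by linarith) ht (by linarith)
    refine ⟨div_nonneg (by linarith) hp.le, ?_, ?_, ?_⟩
    · rw [div_le_div_iff₀ hp hpa, h2 x a]
      have e1 := h2 x t
      nlinarith
    · rw [neg_div]
      have : 0 ≤ E.eval t / E.eval x ^ 2 := by positivity
      linarith
    · rw [neg_div, neg_neg, div_le_div_iff₀ (by positivity) hp]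
      nlinarith

theorem g3h_key (hG0 : G0) (hIw : Iw) (hNh : Nh) (K : ℝ) (hK : 0 < K) :
    ∃ n0 : ℕ, ∀ n ≥ n0, ∀ (a b : ℝ) (P E1 E2 : ℝ[X]), Wh n K a b → Ext n a b P →
      g3h_Fac E1 → g3h_Fac E2 → E1 * E2 ∣ P.derivative →
      P.natDegree + 2 ≤ (E1 * E2).natDegree + n → False := by
  obtain ⟨h, c, e, hh, hc, he, n1, hn1⟩ := hNh K hK
  set M : ℝ := K / e with hM
  have hM0 : 0 < M := by positivity
  set C0 : ℝ := 2 * (1 + M) with hC0
  have hC00 : 0 < C0 := by positivity
  obtain ⟨n2, hn2⟩ := hIw K (1 / (1 + 4 * C0)) hK (by positivity)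
  obtain ⟨n3, hn3⟩ := exists_nat_gt (12 / h)
  refine ⟨max 1 (max n1 (max n2 n3)), ?_⟩
  intro n hn a b P E1 E2 hW hE hF1 hF2 hDd hdeg
  have hn1' : 1 ≤ n := le_trans (le_max_left _ _) hn
  have hnn1 : n1 ≤ n := le_trans (le_trans (le_max_left _ _) (le_max_right _ _)) hn
  have hnn2 : n2 ≤ n := le_trans (le_trans (le_trans (le_max_left _ _) (le_max_right _ _))
    (le_max_right _ _)) hn
  have hnn3 : n3 ≤ n := le_trans (le_trans (le_trans (le_max_right _ _) (le_max_right _ _))
    (le_max_right _ _)) hn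
  have hnR : (1 : ℝ) ≤ n := by exact_mod_cast hn1'
  have hn0 : (0 : ℝ) < n := by linarith
  obtain ⟨-, ha, hab, hb, hKn⟩ := id hW
  obtain ⟨-, hnd⟩ := hn1 n hnn1 a b P hW hE
  have hIW := hn2 n hnn2 a b P hW hE
  obtain ⟨s1, f1, f2, f3, f4, f5, f6⟩ := g3h_fac hF1
  obtain ⟨s2, g1, g2, g3, g4, g5, g6⟩ := g3h_fac hF2
  have hDpos : ∀ x ∈ Ioo (-1 : ℝ) 1, 0 < (E1 * E2).eval x := by
    intro x hx
    rw [eval_mul]
    exact mul_pos (f3 x hx) (g3 x hx)
  obtain ⟨R, hR⟩ := hDd
  have hxin : ∀ x ∈ Icc a b, x ∈ Ioo (-1 : ℝ) 1 := fun x hx =>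
    ⟨by linarith [hx.1], by linarith [hx.2]⟩
  have hid := hG0 n a b P (E1 * E2) R (C b - X) hn1' (by linarith) hab hb.le hE hR (by
    intro x hx hx1
    have h1 := Pool.Agent.Helper40.AS.contact_int hE.bdd hx hx1
    rw [hR, eval_mul] at h1
    exact (mul_eq_zero.1 h1).resolve_left (hDpos x hx).ne') (by
    have e1 : (C b - X : ℝ[X]).natDegree = 1 := by
      have : (C b - X : ℝ[X]) = -(X - C b) := by ring
      rw [this, natDegree_neg, natDegree_X_sub_C]
    rw [e1]
    omega) (fun x hx => (hDpos x (hxin x hx)).ne')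
  obtain ⟨q1, q2, q3⟩ := g3h_quo hF1 (a := a) (b := b) (t := 1) ha hab.le hb hb.le le_rfl
  obtain ⟨r1, r2, r3⟩ := g3h_quo hF2 (a := a) (b := b) (t := b) ha hab.le hb le_rfl hb.le
  have haI : a ∈ Icc a b := ⟨le_rfl, hab.le⟩
  have hE1a := f3 a (hxin a haI)
  have hE2a := g3 a (hxin a haI)
  have hba : 0 < b - a := by linarith
  have hfin := g3h_abs (L := h * (n : ℝ) ^ 2) (ε := 1 / (1 + 4 * C0)) (C := C0)
    (S := fun x => √(1 + P.derivative.eval x ^ 2)) ha hab hb q1 r1 q2 r2
    (fun x hx => ⟨(q3 x hx).1, (q3 x hx).2.1, (q3 x hx).2.2.1⟩)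
    (fun x hx => ⟨(r3 x hx).1, (r3 x hx).2.1, (r3 x hx).2.2.1⟩) (by fun_prop)
    (fun x => Pool.Agent.Helper40.AS.one_le_s P x) (by positivity) hC00.le ?_ hIW ?_ ?_
  · -- the contradiction
    have e1 : (1 + 4 * C0) * (1 / (1 + 4 * C0)) = 1 := by
      rw [mul_one_div, div_self (by positivity)]
    have e2 : 3 / (h * (n : ℝ) ^ 2) ≤ 1 / 4 := by
      rw [div_le_div_iff₀ (by positivity) (by norm_num)]
      have e3 : 12 / h < n := lt_of_lt_of_le hn3 (by exact_mod_cast hnn3)
      rw [div_lt_iff₀ hh] at e3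
      have e4 : (n : ℝ) ≤ (n : ℝ) ^ 2 := by nlinarith
      nlinarith
    rw [e1] at hfin
    linarith
  · -- the good points
    intro x hx
    have hx1 := hx.1
    have hx2 := hx.2
    have hxx := hxin x hx
    by_cases hP : |P.derivative.eval x| ≤ h * (n : ℝ) ^ 2
    · right
      obtain ⟨-, hex⟩ := hnd x hx hP
      have hE1 := f3 x hxx
      have hE2 := g3 x hxx
      have hMx : 1 - a ≤ M * (1 - x) := by
        have e1 : (n : ℝ) ^ 2 * (1 - a) ≤ (n : ℝ) ^ 2 * (M * (1 - x)) := by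
          calc (n : ℝ) ^ 2 * (1 - a) ≤ K := hKn
            _ = M * e := by rw [hM]; field_simp
            _ ≤ M * ((n : ℝ) ^ 2 * (1 - x)) := mul_le_mul_of_nonneg_left hex hM0.le
            _ = _ := by ring
        exact le_of_mul_le_mul_left e1 (by positivity)
      have hE1' := f6 a x M ha hx1 hxx.2 hM0.le hMx
      have hE2' := g6 a x M ha hx1 hxx.2 hM0.le hMx
      constructor
      · refine (q3 x hx).2.2.2.trans ?_
        have e1 : 2 / E1.eval x ≤ C0 / E1.eval a := by
          rw [div_le_div_iff₀ hE1 hE1a, hC0]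
          nlinarith
        refine e1.trans ?_
        rw [div_le_div_iff₀ hE1a hba]
        have e2 : C0 * ((1 - a) / E1.eval a) * E1.eval a = C0 * (1 - a) := by
          field_simp
        rw [e2]
        nlinarith
      · refine (r3 x hx).2.2.2.trans ?_
        have e1 : 2 / E2.eval x ≤ C0 / E2.eval a := by
          rw [div_le_div_iff₀ hE2 hE2a, hC0]
          nlinarith
        refine e1.trans (le_of_eq ?_)
        field_simp
    · left
      push Not at hP
      have e1 : |P.derivative.eval x| ≤ √(1 + P.derivative.eval x ^ 2) := by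
        apply Real.le_sqrt_of_sq_le
        rw [sq_abs]
        linarith
      exact hP.le.trans e1
  · -- the identity
    have e1 : (1 + a) * ((1 - a) / E1.eval a * ((b - a) / E2.eval a)) *
        √(1 + P.derivative.eval a ^ 2) =
        -∫ x in a..b, ((((1 - X ^ 2) * (C b - X)).derivative.eval x * (E1 * E2).eval x -
    ((1 - x ^ 2) * (C b - X).eval x) * (E1 * E2).derivative.eval x) / (E1 * E2).eval x ^ 2) /
      √(1 + P.derivative.eval x ^ 2) := by
      rw [← hid]
      simp only [eval_mul, eval_sub, eval_X, eval_C, sub_self, mul_zero, zero_div, zero_mul,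
        zero_sub, neg_neg]
      congr 1
      rw [div_mul_div_comm, ← mul_div_assoc]
      congr 1
      ring
    rw [e1]
    refine (neg_le_abs _).trans ((abs_integral_le_integral_abs hab.le).trans (le_of_eq ?_))
    refine intervalIntegral.integral_congr fun x hx => ?_
    rw [uIcc_of_le hab.le] at hx
    have hxx := hxin x hx
    have hE1 := (f3 x hxx).ne'
    have hE2 := (g3 x hxx).ne'
    rw [abs_div, abs_of_pos (Pool.Agent.Helper40.AS.s_pos P x)]
    congr 2
    have d1 : ((1 - X ^ 2) * (C b - X) : ℝ[X]).derivative.eval x =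
        -(2 * x) * (b - x) - (1 - x ^ 2) := by
      simp only [derivative_mul, derivative_sub, derivative_one, derivative_X_pow, derivative_X,
        derivative_C, eval_add, eval_mul, eval_sub, eval_one, eval_pow, eval_X, eval_C,
        eval_zero]
      push_cast
      ring
    have d2 : (E1 * E2).derivative.eval x = s1 * E2.eval x + E1.eval x * s2 := by
      simp only [derivative_mul, eval_add, eval_mul, f1, g1]
    rw [d1, d2, f2 x 1, g2 x b]
    simp only [eval_mul, eval_sub, eval_X, eval_C]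
    field_simp
    ring
  · have e1 : 0 < (1 - a) / E1.eval a := div_pos (by linarith) hE1a
    have e2 : 0 < (b - a) / E2.eval a := div_pos hba hE2a
    exact mul_pos e1 e2

theorem g3h_ex {y : ℝ} (hy : 1 ≤ |y|) : ∃ (E : ℝ[X]) (u : ℝ), g3h_Fac E ∧ E.natDegree = 1 ∧
    (u = 1 ∨ u = -1) ∧ X - C y = C u * E := by
  rcases le_abs'.1 hy with h | h
  · exact ⟨X - C y, 1, Or.inr (Or.inl ⟨y, h, rfl⟩), natDegree_X_sub_C _, Or.inl rfl, by simp⟩
  · refine ⟨C y - X, -1, Or.inr (Or.inr ⟨y, h, rfl⟩), ?_, Or.inr rfl, ?_⟩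
    · have : (C y - X : ℝ[X]) = -(X - C y) := by ring
      rw [this, natDegree_neg, natDegree_X_sub_C]
    · rw [map_neg, map_one]; ring

theorem g3h_dvd {E Q : ℝ[X]} {u : ℝ} (h : C u * E ∣ Q) : E ∣ Q :=
  (Dvd.intro_left _ rfl).trans h

theorem g3h (hG0 : G0) (hIw : Iw) (hNh : Nh) : G3h := by
  intro K hK
  obtain ⟨n0, hkey⟩ := g3h_key hG0 hIw hNh K hK
  refine ⟨n0, fun n hn a b P hW hE => ⟨?_, ?_, ?_⟩⟩
  · intro y1 y2 hy1 hy2 hdv
    obtain ⟨E1, u1, hF1, hd1, hu1, e1⟩ := g3h_ex hy1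
    obtain ⟨E2, u2, hF2, hd2, hu2, e2⟩ := g3h_ex hy2
    refine hkey n hn a b P E1 E2 hW hE hF1 hF2 ?_ ?_
    · rw [e1, e2] at hdv
      exact (Dvd.intro_left (C u1 * C u2) (by ring)).trans hdv
    · have hne1 : E1 ≠ 0 := fun h => by rw [h] at hd1; simp at hd1
      have hne2 : E2 ≠ 0 := fun h => by rw [h] at hd2; simp at hd2
      rw [natDegree_mul hne1 hne2, hd1, hd2]
      have := natDegree_le_of_degree_le hE.deg
      omega
  · intro hdeg y hy hr
    obtain ⟨E1, u1, hF1, hd1, hu1, e1⟩ := g3h_ex hy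
    refine hkey n hn a b P E1 1 hW hE hF1 (Or.inl rfl) ?_ ?_
    · rw [mul_one]
      have h1 : X - C y ∣ P.derivative := dvd_iff_isRoot.2 hr
      rw [e1] at h1
      exact g3h_dvd h1
    · rw [mul_one, hd1]
      omega
  · by_contra hdeg
    push Not at hdeg
    refine hkey n hn a b P 1 1 hW hE (Or.inl rfl) (Or.inl rfl) ?_ ?_
    · rw [mul_one]; exact one_dvd _
    · rw [mul_one, natDegree_one]
      omega

end Pool.Agent.Helper10.AL
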