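import Pool.Agent.Helper10.AL.St2

/-!
Arc length of polynomials over compact windows, large degree: piece H4b.
-/

set_option autoImplicit false

namespace Pool.Agent.Helper10.AL

/-- one step of the induction -/
theorem h4b_step (M : ℕ) (hM : 1 ≤ M) :
    1 - 1 / (8 * (M : ℝ) * (M + 1)) ≤
      M * Real.log (((M : ℝ) + 1) / M) + Real.log (((M : ℝ) + 1) / (M + 1 / 2)) := by
  have hM0 : (0 : ℝ) < M := by exact_mod_cast hM
  have h1 : 2 * (1 / (M : ℝ)) / (1 / M + 2) ≤ Real.log (1 + 1 / M) :=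
    Real.le_log_one_add_of_nonneg (by positivity)
  have h2 : 2 * (1 / (2 * (M : ℝ) + 1)) / (1 / (2 * M + 1) + 2) ≤
      Real.log (1 + 1 / (2 * M + 1)) :=
    Real.le_log_one_add_of_nonneg (by positivity)
  have e1 : ((M : ℝ) + 1) / M = 1 + 1 / M := by field_simp
  have e2 : ((M : ℝ) + 1) / (M + 1 / 2) = 1 + 1 / (2 * M + 1) := by
    field_simp
    ring
  have e3 : 2 * (1 / (M : ℝ)) / (1 / M + 2) = 2 / (2 * M + 1) := by
    field_simp
    ring
  have e4 : 2 * (1 / (2 * (M : ℝ) + 1)) / (1 / (2 * M + 1) + 2) = 2 / (4 * M + 3) := by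
    field_simp
    ring
  rw [e3] at h1
  rw [e4] at h2
  rw [e1, e2]
  have h3 : (M : ℝ) * (2 / (2 * M + 1)) ≤ M * Real.log (1 + 1 / M) :=
    mul_le_mul_of_nonneg_left h1 hM0.le
  have h4 : 1 - 1 / (8 * (M : ℝ) * (M + 1)) ≤ M * (2 / (2 * M + 1)) + 2 / (4 * M + 3) := by
    have h5 : (M : ℝ) * (2 / (2 * M + 1)) + 2 / (4 * M + 3) =
        1 - 1 / ((2 * M + 1) * (4 * M + 3)) := by
      field_simp
      ring
    rw [h5]
    have h6 : 1 / ((2 * (M : ℝ) + 1) * (4 * M + 3)) ≤ 1 / (8 * (M : ℝ) * (M + 1)) := by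
      apply one_div_le_one_div_of_le (by positivity)
      nlinarith
    linarith
  linarith

/-- the inequality with an error term -/
theorem h4b_ind (M : ℕ) (hM : 1 ≤ M) :
    (M : ℝ) - 0.307 - 1 / 8 + 1 / (8 * M) ≤
      ∑ k ∈ Finset.range M, Real.log ((M : ℝ) / (k + 1 / 2)) := by
  induction M, hM using Nat.le_induction with
  | base =>
    have h := Real.log_two_gt_d9
    rw [Finset.sum_range_one]
    have e : ((1 : ℕ) : ℝ) / (((0 : ℕ) : ℝ) + 1 / 2) = 2 := by norm_num
    rw [e]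
    norm_num
    linarith
  | succ M hM ih =>
    have hM0 : (0 : ℝ) < M := by exact_mod_cast hM
    rw [Finset.sum_range_succ]
    have e1 : ∀ k ∈ Finset.range M, Real.log (((M + 1 : ℕ) : ℝ) / (k + 1 / 2)) =
        Real.log ((M : ℝ) / (k + 1 / 2)) + Real.log (((M : ℝ) + 1) / M) := by
      intro k _
      rw [← Real.log_mul (by positivity) (by positivity)]
      congr 1
      push_cast
      field_simp
    rw [Finset.sum_congr rfl e1, Finset.sum_add_distrib, Finset.sum_const, Finset.card_range,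
      nsmul_eq_mul]
    have h1 := h4b_step M hM
    push_cast
    have h2 : 1 / (8 * (M : ℝ)) - 1 / (8 * (M : ℝ) * (M + 1)) = 1 / (8 * ((M : ℝ) + 1)) := by
      field_simp
      ring
    linarith

/-- sums of logarithms at the half integers -/
theorem h4b : H4b := by
  intro M hM
  have h := h4b_ind M hM
  have hM0 : (0 : ℝ) < M := by exact_mod_cast hM
  have h2 : 0 < 1 / (8 * (M : ℝ)) := by positivity
  have h3 : (M : ℝ) - 0.44 ≤ (M : ℝ) - 0.307 - 1 / 8 := by
    have h4 : (0.307 : ℝ) + 1 / 8 ≤ 0.44 := by norm_num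
    linarith
  linarith

end Pool.Agent.Helper10.AL
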