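import Pool.Agent.Helper10.AL.St9
import Pool.Agent.Helper10.AL.P.G2L

/-!
Arc length of polynomials, windows near `1`: there are no non-real critical points.
-/

set_option autoImplicit false

namespace Pool.Agent.Helper10.AL

open Polynomial Set Real MeasureTheory intervalIntegral
open Pool.Agent.Helper40.AS (arc Bdd Ext quad)

noncomputable section

/-- bound for the integrand -/
theorem hHh_F {a b x u v σ : ℝ} (hv : 0 < v) (hσ : 0 < σ) (ha : 1 / 2 ≤ a) (hb : b < 1)
    (hx : x ∈ Icc a b) (hr : ∀ y ∈ Icc a b, σ * (1 - a) ≤ g2L_r u v y) :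
    g2L_F u v (X - C b) x ≤ 4 * (1 - a) * (1 + 1 / σ) ^ 3 / g2L_r u v a ^ 2 := by
  have hab : a ≤ b := hx.1.trans hx.2
  have hm : 0 < 1 - a := by linarith
  have hrx := g2L_pos (u := u) hv x
  have hra := g2L_pos (u := u) hv a
  set r := g2L_r u v x with hrdef
  set ρ := g2L_r u v a with hρdef
  have h1 : σ * (1 - a) ≤ r := hr x hx
  have h2 : 1 - a ≤ r * (1 / σ) := by
    rw [mul_one_div, le_div_iff₀ hσ]; linarith
  -- triangle inequality
  have h3 : ρ ≤ r + (x - a) := by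
    have e1 : ρ = ‖(⟨u, v⟩ : ℂ) - (a : ℂ)‖ := by rw [g2L_norm]
    have e2 : r = ‖(⟨u, v⟩ : ℂ) - (x : ℂ)‖ := by rw [g2L_norm]
    rw [e1, e2]
    have e3 : (⟨u, v⟩ : ℂ) - (a : ℂ) = ((⟨u, v⟩ : ℂ) - (x : ℂ)) + ((x - a : ℝ) : ℂ) := by
      push_cast; ring
    rw [e3]
    refine (norm_add_le _ _).trans ?_
    rw [Complex.norm_real, Real.norm_eq_abs, abs_of_nonneg (by linarith [hx.1])]
  have h4 : ρ ≤ (1 + 1 / σ) * r := by
    have : x - a ≤ 1 - a := by linarith [hx.2]
    nlinarith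
  have hk : 1 ≤ 1 + 1 / σ := by
    have : 0 < 1 / σ := by positivity
    linarith
  -- numerators
  have hxu : |x - u| ≤ r := g2L_ge1 u v x
  have hx1 : 0 ≤ 1 - x := by linarith [hx.2]
  have hx2 : 1 - x ≤ 1 - a := by linarith [hx.1]
  have hd : |-(2 * x) * (x - b) + (1 - x ^ 2)| ≤ 4 * (1 - a) := by
    have g1 : 0 ≤ b - x := by linarith [hx.2]
    have g2 : b - x ≤ 1 - a := by linarith [hx.1]
    have g3 : 0 ≤ x := by linarith [hx.1]
    have g4 : x ≤ 1 := by linarith
    rw [abs_of_nonneg (by nlinarith)]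
    nlinarith
  have hq : |(1 - x ^ 2) * (x - b)| ≤ 2 * (1 - a) * (1 - a) := by
    have g1 : 0 ≤ b - x := by linarith [hx.2]
    have g2 : b - x ≤ 1 - a := by linarith [hx.1]
    have g3 : 0 ≤ x := by linarith [hx.1]
    have g5 : 0 ≤ 1 - x ^ 2 := by nlinarith
    have g6 : 1 - x ^ 2 ≤ 2 * (1 - a) := by nlinarith
    rw [abs_mul, abs_of_nonneg g5, abs_of_nonpos (by linarith)]
    exact mul_le_mul g6 (by linarith) (by linarith) (by linarith)
  -- main bound
  unfold g2L_F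
  rw [g2L_d1, g2L_quad, Pool.Agent.Helper40.AS.quad_der]
  simp only [eval_sub, eval_X, eval_C]
  rw [← hrdef]
  have h5 : ((-(2 * x) * (x - b) + (1 - x ^ 2)) * r ^ 2 -
      (1 - x ^ 2) * (x - b) * (2 * (x - u))) / (r ^ 2) ^ 2 ≤
      4 * (1 - a) * (1 + 1 / σ) / r ^ 2 := by
    rw [div_le_div_iff₀ (by positivity) (by positivity)]
    have k1 : (-(2 * x) * (x - b) + (1 - x ^ 2)) * r ^ 2 ≤ 4 * (1 - a) * r ^ 2 :=
      mul_le_mul_of_nonneg_right ((le_abs_self _).trans hd) (by positivity)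
    have k2 : -((1 - x ^ 2) * (x - b) * (2 * (x - u))) ≤ 2 * (1 - a) * (1 - a) * (2 * r) := by
      refine (neg_le_abs _).trans ?_
      rw [abs_mul, abs_mul 2 (x - u), abs_two]
      exact mul_le_mul hq (by linarith) (by positivity) (by positivity)
    have k3 : 2 * (1 - a) * (1 - a) * (2 * r) ≤ 4 * (1 - a) * (1 / σ) * r ^ 2 := by
      have := mul_le_mul_of_nonneg_left h2 (show 0 ≤ 4 * (1 - a) * r by positivity)
      nlinarith
    have k4 : (-(2 * x) * (x - b) + (1 - x ^ 2)) * r ^ 2 -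
      (1 - x ^ 2) * (x - b) * (2 * (x - u)) ≤ 4 * (1 - a) * (1 + 1 / σ) * r ^ 2 := by
      nlinarith
    calc _ ≤ (4 * (1 - a) * (1 + 1 / σ) * r ^ 2) * r ^ 2 :=
          mul_le_mul_of_nonneg_right k4 (by positivity)
      _ = _ := by ring
  refine h5.trans ?_
  rw [div_le_div_iff₀ (by positivity) (by positivity)]
  have h6 : ρ ^ 2 ≤ (1 + 1 / σ) ^ 2 * r ^ 2 := by
    rw [← mul_pow]
    exact pow_le_pow_left₀ hra.le h4 2
  calc 4 * (1 - a) * (1 + 1 / σ) * ρ ^ 2
      ≤ 4 * (1 - a) * (1 + 1 / σ) * ((1 + 1 / σ) ^ 2 * r ^ 2) :=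
        mul_le_mul_of_nonneg_left h6 (by positivity)
    _ = _ := by ring

theorem hHh_core (hG0 : G0) {n : ℕ} {a b σ ε : ℝ} {P : ℝ[X]} {z : ℂ} (hn : 1 ≤ n)
    (ha : 1 / 2 ≤ a) (hab : a < b) (hb : b < 1) (hE : Ext n a b P)
    (hz : aeval z P.derivative = 0) (hz0 : 0 < z.im) (hσ : 0 < σ)
    (hr : ∀ y ∈ Icc a b, σ * (1 - a) ≤ ‖z - (y : ℂ)‖)
    (hI : (∫ x in a..b, 1 / √(1 + P.derivative.eval x ^ 2)) ≤ ε * (b - a))
    (hε : 4 * (1 + 1 / σ) ^ 3 * ε < 1) : False := by
  have hm : 0 < 1 - a := by linarith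
  have hba : 0 < b - a := by linarith
  have hid := g2L_id hG0 hn (by linarith) hab hb.le hE hz hz0 (X - C b) (natDegree_X_sub_C_le b)
  simp only [eval_sub, eval_X, eval_C, sub_self, mul_zero, zero_div, zero_mul, zero_sub] at hid
  have hr' : ∀ y ∈ Icc a b, σ * (1 - a) ≤ g2L_r z.re z.im y := by
    intro y hy
    rw [← g2L_norm]
    exact hr y hy
  have hra := g2L_pos (u := z.re) hz0 a
  set ρ := g2L_r z.re z.im a with hρ
  set B := 4 * (1 - a) * (1 + 1 / σ) ^ 3 / ρ ^ 2 with hB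
  have hB0 : 0 ≤ B := by positivity
  have hΦ : 1 ≤ √(1 + P.derivative.eval a ^ 2) := by
    rw [Real.one_le_sqrt]
    nlinarith [sq_nonneg (P.derivative.eval a)]
  have hS : ∀ x : ℝ, 0 < √(1 + P.derivative.eval x ^ 2) := fun x => Real.sqrt_pos.2 (by positivity)
  have hScont : Continuous fun x => √(1 + P.derivative.eval x ^ 2) := by fun_prop
  -- upper bound of the integral
  have hup : (∫ x in a..b, g2L_F z.re z.im (X - C b) x / √(1 + P.derivative.eval x ^ 2)) ≤
      B * (ε * (b - a)) := by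
    calc (∫ x in a..b, g2L_F z.re z.im (X - C b) x / √(1 + P.derivative.eval x ^ 2))
        ≤ ∫ x in a..b, B * (1 / √(1 + P.derivative.eval x ^ 2)) := by
          apply intervalIntegral.integral_mono_on hab.le
          · exact ((g2L_F_cont hz0 _).div hScont (fun x => (hS x).ne')).intervalIntegrable _ _
          · exact (continuous_const.mul (continuous_const.div hScont
              (fun x => (hS x).ne'))).intervalIntegrable _ _
          · intro x hx
            rw [mul_one_div]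
            exact div_le_div_of_nonneg_right (hHh_F hz0 hσ ha hb hx hr') (hS x).le
      _ = B * ∫ x in a..b, 1 / √(1 + P.derivative.eval x ^ 2) := by
          rw [intervalIntegral.integral_const_mul]
      _ ≤ _ := mul_le_mul_of_nonneg_left hI hB0
  rw [← hid] at hup
  have hlow : (1 - a) * (b - a) / ρ ^ 2 ≤
      -((1 - a ^ 2) * (a - b) / ρ ^ 2 * √(1 + P.derivative.eval a ^ 2)) := by
    have e : -((1 - a ^ 2) * (a - b) / ρ ^ 2 * √(1 + P.derivative.eval a ^ 2)) =
        ((1 - a ^ 2) * (b - a) / ρ ^ 2) * √(1 + P.derivative.eval a ^ 2) := by ring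
    rw [e]
    have h1 : (1 - a) * (b - a) / ρ ^ 2 ≤ (1 - a ^ 2) * (b - a) / ρ ^ 2 := by
      apply div_le_div_of_nonneg_right _ (by positivity)
      apply mul_le_mul_of_nonneg_right _ hba.le
      nlinarith
    have h2 : 0 ≤ (1 - a) * (b - a) / ρ ^ 2 := by positivity
    exact h1.trans (le_mul_of_one_le_right (h2.trans h1) hΦ)
  have h3 := hlow.trans hup
  have h4 : (1 - a) * (b - a) / ρ ^ 2 ≤ (1 - a) * (b - a) / ρ ^ 2 * (4 * (1 + 1 / σ) ^ 3 * ε) := by
    refine h3.trans (le_of_eq ?_)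
    rw [hB]; ring
  have h5 : 0 < (1 - a) * (b - a) / ρ ^ 2 := by positivity
  nlinarith

theorem hHh (hG0 : G0) (hIw : Iw) (hNh : Nh) (hZs : Zs) : HHh := by
  intro K hK
  obtain ⟨h, c, e, hh, hc, he, n1, hN⟩ := hNh K hK
  obtain ⟨s, hs, hZ⟩ := hZs h c hh hc
  set σ := s / K with hσ
  have hσ0 : 0 < σ := by positivity
  set k := 4 * (1 + 1 / σ) ^ 3 with hk
  have hk0 : 0 < k := by positivity
  obtain ⟨n2, hI⟩ := hIw K (1 / (2 * k)) hK (by positivity)
  refine ⟨max n1 n2, fun n hn a b P hW hE => ?_⟩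
  have hn1 : n1 ≤ n := (le_max_left _ _).trans hn
  have hn2 : n2 ≤ n := (le_max_right _ _).trans hn
  have hI' := hI n hn2 a b P hW hE
  obtain ⟨h1n, ha, hab, hb, hKn⟩ := hW
  have hN' := (hN n hn1 a b P ⟨h1n, ha, hab, hb, hKn⟩ hE).2
  have hnat : P.natDegree ≤ n := natDegree_le_iff_degree_le.2 hE.deg
  have hn0 : (0 : ℝ) < n := by exact_mod_cast h1n
  -- main claim for critical points in the upper half plane
  have main : ∀ z : ℂ, aeval z P.derivative = 0 → 0 < z.im → False := by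
    intro z hz hz0
    refine hHh_core (σ := σ) (ε := 1 / (2 * k)) hG0 h1n ha hab hb hE hz hz0 hσ0 ?_ hI' ?_
    · intro y hy
      have h2 := hZ n P y z h1n hnat hE.bdd ⟨by linarith [hy.1], by linarith [hy.2]⟩
        (fun h3 => (hN' y hy h3).1) hz hz0.ne'
      have h4 : σ * (1 - a) ≤ s / (n : ℝ) ^ 2 := by
        rw [hσ, div_mul_eq_mul_div, div_le_div_iff₀ hK (by positivity)]
        nlinarith
      refine h4.trans ?_
      rw [div_le_iff₀ (by positivity)]
      linarith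
    · rw [← hk]
      field_simp
      norm_num
  intro z hz
  by_contra h0
  rcases lt_or_gt_of_ne h0 with h1 | h1
  · have hc' : aeval ((starRingEnd ℂ) z) P.derivative = 0 := by
      rw [Polynomial.aeval_conj, hz, map_zero]
    exact main _ hc' (by rw [Complex.conj_im]; linarith)
  · exact main z hz h1

end

end Pool.Agent.Helper10.AL
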