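import Pool.Agent.Helper10.AL.St3
import Pool.Agent.Helper40.Arc.Final

/-!
Arc length of polynomials over windows with an end point of `[-1,1]`: the whole interval and
windows in one half of the interval.
-/

set_option autoImplicit false

namespace Pool.Agent.Helper10.AL

open Polynomial Set Real MeasureTheory intervalIntegral
open Pool.Agent.Helper40.AS (arc Bdd Ext quad)
open Pool.Agent.Helper40

theorem half_cx {m : ℕ} {z : ℂ} (hz : aeval z (Chebyshev.U ℝ (m : ℤ)) = 0) :
    ∃ k : ℕ, k < m ∧ z = ((cos ((k + 1) * π / (m + 1)) : ℝ) : ℂ) := by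
  have hr := Chebyshev.roots_U_real m
  have hcard : (Chebyshev.U ℝ (m : ℤ)).roots.card = (Chebyshev.U ℝ (m : ℤ)).natDegree := by
    rw [hr, Chebyshev.natDegree_U_natCast, Finset.card_val, Finset.card_image_of_injOn,
      Finset.card_range]
    exact (Finset.range m).nodup_map_iff_injOn.mp (Chebyshev.roots_U_real_nodup m)
  have hne : Chebyshev.U ℝ (m : ℤ) ≠ 0 := by
    intro h
    have := Chebyshev.degree_U_natCast ℝ m
    rw [h, degree_zero] at this
    exact absurd this (by simp)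
  have h1 := C_leadingCoeff_mul_prod_multiset_X_sub_C hcard
  rw [← h1, map_mul, aeval_C, map_multiset_prod, Multiset.map_map] at hz
  rcases mul_eq_zero.1 hz with h2 | h2
  · exfalso
    have h3 : (Chebyshev.U ℝ (m : ℤ)).leadingCoeff = 0 := (Complex.ofReal_eq_zero).1 h2
    exact hne (leadingCoeff_eq_zero.1 h3)
  · rw [Multiset.prod_eq_zero_iff, Multiset.mem_map] at h2
    obtain ⟨r, hr1, hr2⟩ := h2
    rw [hr, Finset.mem_val, Finset.mem_image] at hr1
    obtain ⟨k, hk, rfl⟩ := hr1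
    refine ⟨k, Finset.mem_range.1 hk, ?_⟩
    simp only [Function.comp_apply, map_sub, aeval_X, aeval_C] at hr2
    have := sub_eq_zero.1 hr2
    rw [this]
    rfl

theorem half_der {n : ℕ} (hn : 1 ≤ n) {z : ℂ}
    (hz : aeval z (Chebyshev.T ℝ (n : ℤ)).derivative = 0) :
    ∃ x ∈ Ioo (-1 : ℝ) 1, z = (x : ℂ) := by
  rw [Chebyshev.T_derivative_eq_U, map_mul] at hz
  have hn0 : (n : ℂ) ≠ 0 := by
    exact_mod_cast (by omega : n ≠ 0)
  rcases mul_eq_zero.1 hz with h | h
  · exfalso
    apply hn0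
    simpa using h
  · have e : ((n : ℤ) - 1) = ((n - 1 : ℕ) : ℤ) := by omega
    rw [e] at h
    obtain ⟨k, hk, rfl⟩ := half_cx h
    refine ⟨_, ?_, rfl⟩
    have hnn : (((n - 1 : ℕ) : ℝ) + 1) = n := by
      rw [Nat.cast_sub hn]
      simp
    rw [hnn]
    have hn1 : (0 : ℝ) < n := by exact_mod_cast hn
    have hk' : ((k : ℝ) + 1) < n := by
      exact_mod_cast (by omega : k + 1 < n)
    have h0 : 0 < ((k : ℝ) + 1) * π / n := by positivity
    have h1 : ((k : ℝ) + 1) * π / n < π := by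
      rw [div_lt_iff₀ hn1]
      nlinarith [pi_pos]
    constructor
    · have := cos_lt_cos_of_nonneg_of_le_pi h0.le le_rfl h1
      rw [cos_pi] at this
      exact this
    · have := cos_lt_cos_of_nonneg_of_le_pi le_rfl h1.le h0
      rw [cos_zero] at this
      exact this

theorem half_crit {n : ℕ} (hn : 1 ≤ n) {c : ℝ} (hc : c ∈ Ioo (-1 : ℝ) 1)
    (h : (Chebyshev.T ℝ (n : ℤ)).derivative.eval c = 0) :
    |(Chebyshev.T ℝ (n : ℤ)).eval c| = 1 ∧
      (Chebyshev.T ℝ (n : ℤ)).derivative.derivative.eval c ≠ 0 := by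
  have hn0 : (0 : ℝ) < n := by exact_mod_cast hn
  have h1 : |(Chebyshev.T ℝ (n : ℤ)).eval c| = 1 := by
    have h2 := Arc.u_cheb hn (n * arccos c)
    rw [mul_div_cancel_left₀ _ hn0.ne', cos_arccos hc.1.le hc.2.le, h] at h2
    have h3 : sin (n * arccos c) = 0 := by
      rw [mul_zero, neg_zero, zero_div] at h2
      linarith
    have h4 : (Chebyshev.T ℝ (n : ℤ)).eval c = cos (n * arccos c) := by
      conv_lhs => rw [← cos_arccos hc.1.le hc.2.le]
      rw [Chebyshev.T_real_cos]
      push_cast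
      rfl
    rw [h4]
    have h5 := sin_sq_add_cos_sq (n * arccos c)
    rw [h3] at h5
    have h6 : cos (n * arccos c) ^ 2 = 1 := by linarith
    have h7 : |cos (n * arccos c)| ^ 2 = 1 := by rw [sq_abs, h6]
    nlinarith [abs_nonneg (cos (n * arccos c))]
  refine ⟨h1, fun h2 => ?_⟩
  have h3 := congrArg (fun Q : ℝ[X] => Q.eval c)
    (Chebyshev.one_sub_X_sq_mul_derivative_derivative_T_eq_poly_in_T (R := ℝ) n)
  simp only [Function.iterate_succ, Function.iterate_zero, Function.comp_apply, id_eq, eval_mul,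
    eval_sub, eval_one, eval_pow, eval_X, h2, h, mul_zero, zero_sub] at h3
  have h4 : (n : ℝ) ^ 2 * (Chebyshev.T ℝ (n : ℤ)).eval c = 0 := by
    simpa using h3
  rcases mul_eq_zero.1 h4 with h5 | h5
  · exact absurd h5 (by positivity)
  · rw [h5] at h1
    norm_num at h1

theorem half_cheb {n : ℕ} (hn : 1 ≤ n) : Good n (Chebyshev.T ℝ (n : ℤ)) := by
  have hn0 : (0 : ℝ) < n := by exact_mod_cast hn
  refine ⟨?_, fun c hc h => half_crit hn hc h, fun z hz => ?_, fun y1 y2 h1 h2 hd => ?_⟩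
  · refine ⟨fun i => -cos (i * π / n), fun i j hij => ?_, fun i => ?_, ?_⟩
    · have h1 : ((i : ℕ) : ℝ) < ((j : ℕ) : ℝ) := by exact_mod_cast hij
      have h2 : ((j : ℕ) : ℝ) < n := by exact_mod_cast j.2
      simp only
      apply neg_lt_neg
      apply cos_lt_cos_of_nonneg_of_le_pi
      · positivity
      · rw [div_le_iff₀ hn0]
        nlinarith [pi_pos]
      · apply div_lt_div_of_pos_right _ hn0
        exact mul_lt_mul_of_pos_right h1 pi_pos
    · exact ⟨by linarith [cos_le_one (((i : ℕ) : ℝ) * π / n)],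
        by linarith [neg_one_le_cos (((i : ℕ) : ℝ) * π / n)]⟩
    · have key : ∀ i : Fin n, (Chebyshev.T ℝ (n : ℤ)).eval (-cos (((i : ℕ) : ℝ) * π / n)) =
          ((n : ℤ).negOnePow : ℝ) * (-1) ^ (i : ℕ) := by
        intro i
        rw [Chebyshev.T_eval_neg, Chebyshev.T_real_cos]
        congr 1
        have e : ((n : ℤ) : ℝ) * (((i : ℕ) : ℝ) * π / n) = ((i : ℕ) : ℝ) * π := by
          push_cast
          field_simp
        rw [e, cos_nat_mul_pi]
      rcases Int.even_or_odd (n : ℤ) with h | h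
      · left
        intro i
        rw [key i, Int.negOnePow_even _ h]
        simp
      · right
        intro i
        rw [key i, Int.negOnePow_odd _ h]
        simp
  · obtain ⟨x, -, rfl⟩ := half_der hn hz
    simp
  · have h3 : (X - C y1) ∣ (Chebyshev.T ℝ (n : ℤ)).derivative := (dvd_mul_right _ _).trans hd
    have h4 : (Chebyshev.T ℝ (n : ℤ)).derivative.eval y1 = 0 := dvd_iff_isRoot.1 h3
    have h5 : aeval (y1 : ℂ) (Chebyshev.T ℝ (n : ℤ)).derivative = 0 := by
      have := aeval_algebraMap_apply (A := ℝ) ℂ y1 (Chebyshev.T ℝ (n : ℤ)).derivative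
      simp only [Complex.coe_algebraMap, coe_aeval_eq_eval] at this
      rw [this, h4]
      simp
    obtain ⟨x, hx, hxy⟩ := half_der hn h5
    have h6 : y1 = x := by exact_mod_cast hxy
    rw [h6] at h1
    have := abs_lt.2 hx
    linarith

theorem half_neg {n : ℕ} {P : ℝ[X]} (h : Good n P) : Good n (-P) := by
  obtain ⟨⟨x, hx1, hx2, hx3⟩, h2, h3, h4⟩ := h
  refine ⟨⟨x, hx1, hx2, ?_⟩, fun c hc h5 => ?_, fun z hz => ?_, fun y1 y2 k1 k2 hd => ?_⟩
  · rcases hx3 with h5 | h5
    · right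
      intro i
      rw [eval_neg, h5 i]
    · left
      intro i
      rw [eval_neg, h5 i, neg_neg]
  · rw [derivative_neg, eval_neg, neg_eq_zero] at h5
    rw [eval_neg, abs_neg, derivative_neg, derivative_neg, eval_neg, neg_ne_zero]
    exact h2 c hc h5
  · rw [derivative_neg, map_neg, neg_eq_zero] at hz
    exact h3 z hz
  · rw [derivative_neg, dvd_neg] at hd
    exact h4 y1 y2 k1 k2 hd

theorem half_bdd (n : ℕ) : Bdd (Chebyshev.T ℝ (n : ℤ)) := by
  intro x hx
  exact Chebyshev.abs_eval_T_real_le_one n (abs_le.2 hx)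

theorem half : Half := by
  intro n a b P hn hab h
  have hT : (Chebyshev.T ℝ (n : ℤ)).degree ≤ n := by
    rw [Chebyshev.degree_T]
    simp
  have hmax := h.max _ hT (half_bdd n)
  have hP : P = Chebyshev.T ℝ (n : ℤ) ∨ P = -Chebyshev.T ℝ (n : ℤ) := by
    by_contra hcon
    push Not at hcon
    obtain ⟨c1, c2⟩ := hcon
    unfold Helper40.AS.arc at hmax
    rcases hab with ⟨ha, ha1, rfl⟩ | ⟨rfl, hb1, hb0⟩ | ⟨rfl, rfl⟩
    · have := Arc.right_end hn h.deg h.bdd ha ha1 c1 c2
      linarith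
    · have := Arc.left_end hn h.deg h.bdd hb0 hb1 c1 c2
      linarith
    · have k1 := Arc.right_end hn h.deg h.bdd le_rfl one_pos c1 c2
      have k2 := Arc.left_end hn h.deg h.bdd le_rfl (by norm_num) c1 c2
      have i1 : ∀ Q : ℝ[X], (∫ x in (-1 : ℝ)..0, √(1 + (Q.derivative.eval x) ^ 2)) +
          (∫ x in (0 : ℝ)..1, √(1 + (Q.derivative.eval x) ^ 2)) =
          ∫ x in (-1 : ℝ)..1, √(1 + (Q.derivative.eval x) ^ 2) := by
        intro Q
        exact integral_add_adjacent_intervals ((AS.cont_s Q).intervalIntegrable _ _)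
          ((AS.cont_s Q).intervalIntegrable _ _)
      rw [← i1 P, ← i1 (Chebyshev.T ℝ (n : ℤ))] at hmax
      linarith
  refine ⟨hP, ?_⟩
  rcases hP with rfl | rfl
  · exact half_cheb hn
  · exact half_neg (half_cheb hn)

end Pool.Agent.Helper10.AL
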