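import Pool.Agent.Helper10.AL.St9

/-!
Arc length of polynomials over windows near `1`, large degree: integrals over non-degenerate
windows.
-/

set_option autoImplicit false

namespace Pool.Agent.Helper10.AL

open Polynomial Set Real MeasureTheory intervalIntegral
open Pool.Agent.Helper40.AS (arc Bdd Ext quad)

noncomputable section

/-- one cell with a derivative of constant sign -/
theorem ia_pos {u v N c : ℝ} (huv : u ≤ v) (hN : 1 ≤ N) (hc : 0 < c) (g : ℝ[X])
    (hg : ∀ x ∈ Icc u v, |g.eval x| ≤ 2 * N)
    (hd : ∀ x ∈ Icc u v, c * N ^ 2 ≤ g.derivative.eval x) :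
    (∫ x in u..v, 1 / (1 + g.eval x ^ 2)) ≤ π / (c * N ^ 2) ∧
    (∫ x in u..v, 1 / √(1 + g.eval x ^ 2)) ≤ 2 * (Real.log 5 + Real.log N) / (c * N ^ 2) := by
  have hcN : 0 < c * N ^ 2 := by positivity
  have hcg : Continuous fun x => g.eval x := g.continuous
  have hcd : Continuous fun x => g.derivative.eval x := g.derivative.continuous
  have hp : ∀ x : ℝ, 0 < 1 + g.eval x ^ 2 := fun x => by positivity
  have hps : ∀ x : ℝ, 0 < √(1 + g.eval x ^ 2) := fun x => Real.sqrt_pos.2 (hp x)
  have c1 : Continuous fun x => 1 / (1 + g.eval x ^ 2) :=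
    continuous_const.div (continuous_const.add (hcg.pow 2)) fun x => (hp x).ne'
  have c2 : Continuous fun x => 1 / √(1 + g.eval x ^ 2) :=
    continuous_const.div (continuous_const.add (hcg.pow 2)).sqrt fun x => (hps x).ne'
  constructor
  · have h1 : (∫ x in u..v, g.derivative.eval x / (1 + g.eval x ^ 2)) =
        arctan (g.eval v) - arctan (g.eval u) := by
      apply intervalIntegral.integral_eq_sub_of_hasDerivAt
      · intro x _
        have h0 := (g.hasDerivAt x).arctan
        have e : g.derivative.eval x / (1 + g.eval x ^ 2) =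
            1 / (1 + g.eval x ^ 2) * g.derivative.eval x := by ring
        rw [e]
        exact h0
      · exact (hcd.div (continuous_const.add (hcg.pow 2)) fun x => (hp x).ne').intervalIntegrable _ _
    have h2 : c * N ^ 2 * (∫ x in u..v, 1 / (1 + g.eval x ^ 2)) ≤
        ∫ x in u..v, g.derivative.eval x / (1 + g.eval x ^ 2) := by
      rw [← intervalIntegral.integral_const_mul]
      apply intervalIntegral.integral_mono_on huv
      · exact (c1.const_mul _).intervalIntegrable _ _
      · exact (hcd.div (continuous_const.add (hcg.pow 2)) fun x => (hp x).ne').intervalIntegrable _ _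
      · intro x hx
        rw [mul_one_div]
        exact div_le_div_of_nonneg_right (hd x hx) (hp x).le
    have h3 := Real.arctan_lt_pi_div_two (g.eval v)
    have h4 := Real.neg_pi_div_two_lt_arctan (g.eval u)
    rw [le_div_iff₀ hcN]
    nlinarith [h2, h1]
  · have h1 : (∫ x in u..v, g.derivative.eval x / √(1 + g.eval x ^ 2)) =
        arsinh (g.eval v) - arsinh (g.eval u) := by
      apply intervalIntegral.integral_eq_sub_of_hasDerivAt
      · intro x _
        have h0 := (g.hasDerivAt x).arsinh
        have e : g.derivative.eval x / √(1 + g.eval x ^ 2) =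
            (√(1 + g.eval x ^ 2))⁻¹ * g.derivative.eval x := by
          rw [div_eq_mul_inv, mul_comm]
        rw [e]
        exact h0
      · exact (hcd.div (continuous_const.add (hcg.pow 2)).sqrt fun x =>
          (hps x).ne').intervalIntegrable _ _
    have h2 : c * N ^ 2 * (∫ x in u..v, 1 / √(1 + g.eval x ^ 2)) ≤
        ∫ x in u..v, g.derivative.eval x / √(1 + g.eval x ^ 2) := by
      rw [← intervalIntegral.integral_const_mul]
      apply intervalIntegral.integral_mono_on huv
      · exact (c2.const_mul _).intervalIntegrable _ _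
      · exact (hcd.div (continuous_const.add (hcg.pow 2)).sqrt fun x =>
          (hps x).ne').intervalIntegrable _ _
      · intro x hx
        rw [mul_one_div]
        exact div_le_div_of_nonneg_right (hd x hx) (hps x).le
    have key : arsinh (2 * N) ≤ Real.log 5 + Real.log N := by
      rw [Real.arsinh, ← Real.log_mul (by norm_num) (by positivity)]
      apply Real.log_le_log (by positivity)
      have : √(1 + (2 * N) ^ 2) ≤ 3 * N := by
        rw [Real.sqrt_le_left (by positivity)]
        nlinarith
      linarith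
    have h3 : arsinh (g.eval v) ≤ arsinh (2 * N) :=
      Real.arsinh_le_arsinh.2 (le_trans (le_abs_self _) (hg v (right_mem_Icc.2 huv)))
    have h4 : -arsinh (2 * N) ≤ arsinh (g.eval u) := by
      rw [← Real.arsinh_neg]
      exact Real.arsinh_le_arsinh.2
        (by linarith [neg_abs_le (g.eval u), hg u (left_mem_Icc.2 huv)])
    rw [le_div_iff₀ hcN]
    nlinarith [h2, h1]

/-- one cell -/
theorem ia_cell {u v N h c : ℝ} (huv : u ≤ v) (hN : 1 ≤ N) (hh : 0 < h) (hc : 0 < c) (g : ℝ[X])
    (hl : v - u ≤ h / (8 * N))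
    (hg : ∀ x ∈ Icc u v, |g.eval x| ≤ 2 * N)
    (hd1 : ∀ x ∈ Icc u v, |g.derivative.eval x| ≤ 4 * N ^ 2)
    (hd : ∀ x ∈ Icc u v, |g.eval x| ≤ h * N → c * N ^ 2 ≤ |g.derivative.eval x|) :
    (∫ x in u..v, 1 / (1 + g.eval x ^ 2)) ≤ (1 / (2 * h) + π / c) / N ^ 2 ∧
    (∫ x in u..v, 1 / √(1 + g.eval x ^ 2)) ≤
      (1 / 4 + 4 / c) * (1 + Real.log N) / N ^ 2 := by
  have hN0 : 0 < N := by linarith
  have hlog : 0 ≤ Real.log N := Real.log_nonneg hN
  have hcg : Continuous fun x => g.eval x := g.continuous
  have hp : ∀ x : ℝ, 0 < 1 + g.eval x ^ 2 := fun x => by positivity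
  have hps : ∀ x : ℝ, 0 < √(1 + g.eval x ^ 2) := fun x => Real.sqrt_pos.2 (hp x)
  have c1 : Continuous fun x => 1 / (1 + g.eval x ^ 2) :=
    continuous_const.div (continuous_const.add (hcg.pow 2)) fun x => (hp x).ne'
  have c2 : Continuous fun x => 1 / √(1 + g.eval x ^ 2) :=
    continuous_const.div (continuous_const.add (hcg.pow 2)).sqrt fun x => (hps x).ne'
  by_cases hcase : ∀ x ∈ Icc u v, h / 2 * N ≤ |g.eval x|
  · constructor
    · have h1 : (∫ x in u..v, 1 / (1 + g.eval x ^ 2)) ≤ ∫ x in u..v, 4 / (h ^ 2 * N ^ 2) := by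
        apply intervalIntegral.integral_mono_on huv (c1.intervalIntegrable _ _)
          intervalIntegrable_const
        intro x hx
        rw [div_le_div_iff₀ (hp x) (by positivity)]
        have h2 := hcase x hx
        have h3 : (h / 2 * N) ^ 2 ≤ g.eval x ^ 2 := by
          rw [← sq_abs (g.eval x)]
          exact pow_le_pow_left₀ (by positivity) h2 2
        nlinarith
      rw [intervalIntegral.integral_const, smul_eq_mul] at h1
      refine h1.trans ?_
      calc (v - u) * (4 / (h ^ 2 * N ^ 2)) ≤ h / (8 * N) * (4 / (h ^ 2 * N ^ 2)) := by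
            gcongr
        _ = (1 / (2 * h)) / N ^ 2 / N := by field_simp; ring
        _ ≤ (1 / (2 * h)) / N ^ 2 / 1 := by gcongr
        _ ≤ (1 / (2 * h) + π / c) / N ^ 2 := by
            rw [div_one]
            have : 0 < π / c := div_pos Real.pi_pos hc
            gcongr
            linarith
    · have h1 : (∫ x in u..v, 1 / √(1 + g.eval x ^ 2)) ≤ ∫ x in u..v, 2 / (h * N) := by
        apply intervalIntegral.integral_mono_on huv (c2.intervalIntegrable _ _)
          intervalIntegrable_const
        intro x hx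
        rw [div_le_div_iff₀ (hps x) (by positivity)]
        have h2 := hcase x hx
        have h3 : h / 2 * N ≤ √(1 + g.eval x ^ 2) := by
          apply Real.le_sqrt_of_sq_le
          have h3 : (h / 2 * N) ^ 2 ≤ g.eval x ^ 2 := by
            rw [← sq_abs (g.eval x)]
            exact pow_le_pow_left₀ (by positivity) h2 2
          linarith
        linarith
      rw [intervalIntegral.integral_const, smul_eq_mul] at h1
      refine h1.trans ?_
      calc (v - u) * (2 / (h * N)) ≤ h / (8 * N) * (2 / (h * N)) := by gcongr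
        _ = 1 / 4 * 1 / N ^ 2 := by field_simp; ring
        _ ≤ (1 / 4 + 4 / c) * (1 + Real.log N) / N ^ 2 := by
            have : 0 < 4 / c := by positivity
            gcongr <;> linarith
  · push Not at hcase
    obtain ⟨x1, hx1, hgx1⟩ := hcase
    -- the bound on the cell
    have hsm : ∀ x ∈ Icc u v, |g.eval x| ≤ h * N := by
      intro x hx
      have hlip : |g.eval x - g.eval x1| ≤ 4 * N ^ 2 * |x - x1| := by
        have := Convex.norm_image_sub_le_of_norm_hasDerivWithin_le (s := Icc u v)
          (f := fun x => g.eval x) (f' := fun x => g.derivative.eval x) (C := 4 * N ^ 2)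
          (fun y _ => (g.hasDerivAt y).hasDerivWithinAt) (fun y hy => hd1 y hy)
          (convex_Icc u v) hx1 hx
        simpa using this
      have hxx : |x - x1| ≤ h / (8 * N) := by
        rw [abs_le]
        constructor <;> linarith [hx.1, hx.2, hx1.1, hx1.2]
      have h1 : 4 * N ^ 2 * |x - x1| ≤ h / 2 * N := by
        calc 4 * N ^ 2 * |x - x1| ≤ 4 * N ^ 2 * (h / (8 * N)) := by gcongr
          _ = h / 2 * N := by field_simp; ring
      have h2 : |g.eval x| ≤ |g.eval x - g.eval x1| + |g.eval x1| := by
        have := abs_add_le (g.eval x - g.eval x1) (g.eval x1)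
        simpa using this
      linarith
    have hbig : ∀ x ∈ Icc u v, c * N ^ 2 ≤ |g.derivative.eval x| := fun x hx =>
      hd x hx (hsm x hx)
    have hcN : 0 < c * N ^ 2 := by positivity
    have hne : ∀ x ∈ Icc u v, g.derivative.eval x ≠ 0 := by
      intro x hx h0
      have := hbig x hx
      rw [h0, abs_zero] at this
      linarith
    have fin : ∀ G : ℝ[X], (∀ x, G.eval x ^ 2 = g.eval x ^ 2) →
        (∀ x ∈ Icc u v, |G.eval x| ≤ 2 * N) →
        (∀ x ∈ Icc u v, c * N ^ 2 ≤ G.derivative.eval x) →
        (∫ x in u..v, 1 / (1 + g.eval x ^ 2)) ≤ (1 / (2 * h) + π / c) / N ^ 2 ∧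
        (∫ x in u..v, 1 / √(1 + g.eval x ^ 2)) ≤
          (1 / 4 + 4 / c) * (1 + Real.log N) / N ^ 2 := by
      intro G hsq hGb hGd
      obtain ⟨h1, h2⟩ := ia_pos huv hN hc G hGb hGd
      simp only [hsq] at h1 h2
      constructor
      · refine h1.trans ?_
        have e : π / (c * N ^ 2) = π / c / N ^ 2 := by field_simp
        rw [e]
        have : 0 < 1 / (2 * h) := by positivity
        gcongr
        linarith
      · refine h2.trans ?_
        have hl5 : Real.log 5 ≤ 2 := by
          have : Real.log 5 ≤ Real.log (Real.exp 2) := by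
            apply Real.log_le_log (by norm_num)
            have h1 := Real.add_one_le_exp (1 : ℝ)
            have h2 : Real.exp 2 = Real.exp 1 * Real.exp 1 := by
              rw [← Real.exp_add]; norm_num
            have h3 := Real.exp_one_gt_d9
            nlinarith
          rwa [Real.log_exp] at this
        have e : 2 * (Real.log 5 + Real.log N) / (c * N ^ 2) =
            2 / c * (Real.log 5 + Real.log N) / N ^ 2 := by field_simp
        rw [e]
        have h3 : 2 / c * (Real.log 5 + Real.log N) ≤ (1 / 4 + 4 / c) * (1 + Real.log N) := by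
          have h4 : 2 / c * (Real.log 5 + Real.log N) ≤ 2 / c * (2 * (1 + Real.log N)) := by
            gcongr
            linarith
          have h5 : 2 / c * (2 * (1 + Real.log N)) = 4 / c * (1 + Real.log N) := by ring
          have h6 : 0 ≤ 1 / 4 * (1 + Real.log N) := by positivity
          nlinarith
        gcongr
    -- constant sign
    have hcont : ContinuousOn (fun x => g.derivative.eval x) (Icc u v) :=
      g.derivative.continuous.continuousOn
    by_cases hsg : 0 < g.derivative.eval u
    · apply fin g (fun _ => rfl) hg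
      intro x hx
      have hpos : 0 < g.derivative.eval x := by
        by_contra hneg
        push Not at hneg
        have := intermediate_value_Icc' (f := fun x => g.derivative.eval x) hx.1
          (hcont.mono (Icc_subset_Icc le_rfl hx.2))
        obtain ⟨y, hy, hy0⟩ := this ⟨hneg, hsg.le⟩
        exact hne y ⟨hy.1, hy.2.trans hx.2⟩ hy0
      have := hbig x hx
      rwa [abs_of_pos hpos] at this
    · push Not at hsg
      apply fin (-g) (fun x => by simp) (fun x hx => by simpa using hg x hx)
      intro x hx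
      have hneg : g.derivative.eval x < 0 := by
        by_contra hpos
        push Not at hpos
        have := intermediate_value_Icc (f := fun x => g.derivative.eval x) hx.1
          (hcont.mono (Icc_subset_Icc le_rfl hx.2))
        obtain ⟨y, hy, hy0⟩ := this ⟨hsg, hpos⟩
        exact hne y ⟨hy.1, hy.2.trans hx.2⟩ hy0
      have := hbig x hx
      rw [abs_of_neg hneg] at this
      simpa using this

/-- many cells -/
theorem ia_sum {f : ℝ → ℝ} (hf : Continuous f) {δ B : ℝ} (hδ : 0 ≤ δ) (hB : 0 ≤ B) :
    ∀ (k : ℕ) (u v : ℝ), u ≤ v → v - u ≤ k * δ →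
      (∀ s t : ℝ, u ≤ s → s ≤ t → t ≤ v → t - s ≤ δ → (∫ x in s..t, f x) ≤ B) →
      (∫ x in u..v, f x) ≤ k * B := by
  intro k
  induction k with
  | zero =>
    intro u v huv h _
    have : u = v := by
      apply le_antisymm huv
      simp at h
      linarith
    subst this
    simp
  | succ k ih =>
    intro u v huv h hc
    by_cases hs : v - u ≤ δ
    · have := hc u v le_rfl huv le_rfl hs
      push_cast
      nlinarith [mul_nonneg (Nat.cast_nonneg (α := ℝ) k) hB]
    · push Not at hs
      have h1 := hc u (u + δ) le_rfl (by linarith) (by linarith) (by linarith)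
      have h2 := ih (u + δ) v (by linarith) (by push_cast at h; linarith)
        (fun s t h1 h2 h3 h4 => hc s t (by linarith) h2 h3 h4)
      have h3 : (∫ x in u..v, f x) = (∫ x in u..(u + δ), f x) + ∫ x in (u + δ)..v, f x :=
        (intervalIntegral.integral_add_adjacent_intervals (hf.intervalIntegrable _ _)
          (hf.intervalIntegrable _ _)).symm
      rw [h3]
      push_cast
      linarith

theorem ia (hMk : Mk) : Ia := by
  intro K h c hK hh hc
  set k : ℕ := ⌈8 * K / h⌉₊ with hk
  have hkK : 8 * K / h ≤ k := Nat.le_ceil _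
  have hM1 : 0 < 1 / (2 * h) + π / c := by positivity
  have hM2 : 0 < 1 / 4 + 4 / c := by positivity
  refine ⟨k * ((1 / (2 * h) + π / c) + 2 * (1 / 4 + 4 / c)) + 1, by positivity, ?_⟩
  intro n a b P hn ha hab hb hKn hdeg hBd hnd
  have hnR : (1 : ℝ) ≤ n := by exact_mod_cast hn
  set N : ℝ := (n : ℝ) ^ 2 with hNdef
  have hN : 1 ≤ N := by nlinarith
  have hN0 : 0 < N := by linarith
  have e4 : (n : ℝ) ^ 4 = N ^ 2 := by rw [hNdef]; ring
  have hlogn : 0 ≤ Real.log n := Real.log_nonneg hnR
  have hlogN : Real.log N = 2 * Real.log n := by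
    rw [hNdef, Real.log_pow]; norm_num
  obtain ⟨hm, -⟩ := hMk n P hn hdeg hBd
  have hI : Icc a b ⊆ Icc (-1 : ℝ) 1 := Icc_subset_Icc ha hb
  have hg : ∀ x ∈ Icc a b, |P.derivative.eval x| ≤ 2 * N := by
    intro x hx
    have := hm 1 x (hI hx)
    simpa using this
  have hd1 : ∀ x ∈ Icc a b, |P.derivative.derivative.eval x| ≤ 4 * N ^ 2 := by
    intro x hx
    have := hm 2 x (hI hx)
    have e : (derivative^[2] P) = P.derivative.derivative := rfl
    rw [e] at this
    calc _ ≤ _ := this
      _ = 4 * N ^ 2 := by rw [hNdef]; ring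
  have hd : ∀ x ∈ Icc a b, |P.derivative.eval x| ≤ h * N →
      c * N ^ 2 ≤ |P.derivative.derivative.eval x| := by
    intro x hx hx2
    have := hnd x hx hx2
    rwa [e4] at this
  have hcg : Continuous fun x => P.derivative.eval x := P.derivative.continuous
  have hp : ∀ x : ℝ, 0 < 1 + P.derivative.eval x ^ 2 := fun x => by positivity
  have hps : ∀ x : ℝ, 0 < √(1 + P.derivative.eval x ^ 2) := fun x => Real.sqrt_pos.2 (hp x)
  have c1 : Continuous fun x => 1 / (1 + P.derivative.eval x ^ 2) :=
    continuous_const.div (continuous_const.add (hcg.pow 2)) fun x => (hp x).ne'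
  have c2 : Continuous fun x => 1 / √(1 + P.derivative.eval x ^ 2) :=
    continuous_const.div (continuous_const.add (hcg.pow 2)).sqrt fun x => (hps x).ne'
  have hlen : b - a ≤ k * (h / (8 * N)) := by
    have h1 : b - a ≤ K / N := by
      rw [le_div_iff₀ hN0]; linarith
    have h2 : K / N = 8 * K / h * (h / (8 * N)) := by field_simp
    rw [h2] at h1
    refine h1.trans ?_
    gcongr
  have hδ : 0 ≤ h / (8 * N) := by positivity
  have hcell : ∀ s t : ℝ, a ≤ s → s ≤ t → t ≤ b → t - s ≤ h / (8 * N) →
      (∫ x in s..t, 1 / (1 + P.derivative.eval x ^ 2)) ≤ (1 / (2 * h) + π / c) / N ^ 2 ∧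
      (∫ x in s..t, 1 / √(1 + P.derivative.eval x ^ 2)) ≤
        (1 / 4 + 4 / c) * (1 + Real.log N) / N ^ 2 := by
    intro s t hs hst ht hl
    have hIs : Icc s t ⊆ Icc a b := Icc_subset_Icc hs ht
    exact ia_cell hst hN hh hc P.derivative hl (fun x hx => hg x (hIs hx))
      (fun x hx => hd1 x (hIs hx)) (fun x hx => hd x (hIs hx))
  have hk0 : (0 : ℝ) ≤ k := Nat.cast_nonneg k
  constructor
  · have := ia_sum c1 hδ (B := (1 / (2 * h) + π / c) / N ^ 2) (by positivity) k a b hab hlen
      (fun s t h1 h2 h3 h4 => (hcell s t h1 h2 h3 h4).1)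
    refine this.trans ?_
    rw [e4, ← mul_div_assoc]
    gcongr
    nlinarith [mul_nonneg hk0 hM2.le]
  · have := ia_sum c2 hδ (B := (1 / 4 + 4 / c) * (1 + Real.log N) / N ^ 2)
      (by rw [hlogN]; positivity) k a b hab hlen
      (fun s t h1 h2 h3 h4 => (hcell s t h1 h2 h3 h4).2)
    refine this.trans ?_
    rw [e4, ← mul_div_assoc, hlogN]
    apply div_le_div_of_nonneg_right _ (by positivity)
    have h1 : (1 / 4 + 4 / c) * (1 + 2 * Real.log n) ≤
        2 * (1 / 4 + 4 / c) * (1 + Real.log n) := by nlinarith
    have h2 : (k : ℝ) * ((1 / 4 + 4 / c) * (1 + 2 * Real.log n)) ≤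
        k * (2 * (1 / 4 + 4 / c) * (1 + Real.log n)) := by gcongr
    have h3 : 0 ≤ (k : ℝ) * (1 / (2 * h) + π / c) * (1 + Real.log n) := by positivity
    nlinarith

end

end Pool.Agent.Helper10.AL
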