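import Pool.Agent.Helper10.AL.St9

/-! Project AH, piece Iw: small integrals. -/

set_option autoImplicit false

namespace Pool.Agent.Helper10.AL

open Polynomial Set Real MeasureTheory intervalIntegral
open Pool.Agent.Helper40.AS (arc Bdd Ext quad)

theorem iw (hIa : Ia) (hNh : Nh) : Iw := by
  intro K ε hK hε
  obtain ⟨h, c, e, hh, hc, he, n1, hn1⟩ := hNh K hK
  obtain ⟨M, hM, hI⟩ := hIa K h c hK hh hc
  refine ⟨max n1 (⌈M / (e * ε)⌉₊ + ⌈1 / (h * ε)⌉₊ + 1), fun n hn a b P hW hE => ?_⟩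
  have hnn1 : n1 ≤ n := (le_max_left _ _).trans hn
  have hn2 : ⌈M / (e * ε)⌉₊ + ⌈1 / (h * ε)⌉₊ + 1 ≤ n := (le_max_right _ _).trans hn
  obtain ⟨hN1, ha, hab, hb, hKa⟩ := hW
  have hn0 : (1 : ℝ) ≤ n := by exact_mod_cast hN1
  have hnM : M / (e * ε) ≤ n := by
    refine (Nat.le_ceil _).trans ?_
    exact_mod_cast (by omega : ⌈M / (e * ε)⌉₊ ≤ n)
  have hnh : 1 / (h * ε) ≤ n := by
    refine (Nat.le_ceil _).trans ?_
    exact_mod_cast (by omega : ⌈1 / (h * ε)⌉₊ ≤ n)
  obtain ⟨hA, hB⟩ := hn1 n hnn1 a b P ⟨hN1, ha, hab, hb, hKa⟩ hE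
  by_cases hs : (n : ℝ) ^ 2 * (b - a) ≤ e
  · have h1 := hA hs
    have hbd : ∀ x ∈ Set.uIoc a b, ‖1 / √(1 + P.derivative.eval x ^ 2)‖ ≤ ε := by
      intro x hx
      rw [uIoc_of_le hab.le] at hx
      have h2 := h1 x ⟨hx.1.le, hx.2⟩
      have hpos : 0 < h * (n : ℝ) ^ 2 := by positivity
      have h3 : h * (n : ℝ) ^ 2 ≤ √(1 + P.derivative.eval x ^ 2) := by
        apply Real.le_sqrt_of_sq_le
        have : (h * (n : ℝ) ^ 2) ^ 2 ≤ |P.derivative.eval x| ^ 2 := by
          apply pow_le_pow_left₀ hpos.le h2.le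
        rw [sq_abs] at this
        linarith
      rw [Real.norm_of_nonneg (by positivity)]
      rw [div_le_iff₀ (lt_of_lt_of_le hpos h3)]
      have h4 : 1 ≤ ε * (h * (n : ℝ) ^ 2) := by
        rw [div_le_iff₀ (by positivity)] at hnh
        nlinarith [mul_pos hε hh]
      exact h4.trans (mul_le_mul_of_nonneg_left h3 hε.le)
    have h5 := intervalIntegral.norm_integral_le_of_norm_le_const hbd
    rw [abs_of_pos (by linarith)] at h5
    exact (le_abs_self _).trans h5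
  · push Not at hs
    obtain ⟨_, h2⟩ := hI n a b P hN1 (by linarith) hab.le hb.le (by nlinarith) (natDegree_le_iff_degree_le.2 hE.deg) hE.bdd
      (fun x hx hx' => (hB x hx hx').1)
    refine h2.trans ?_
    have hlog : 1 + Real.log n ≤ n := by
      have := Real.log_le_sub_one_of_pos (by linarith : (0 : ℝ) < n)
      linarith
    rw [div_le_iff₀ (by positivity)]
    have h3 : M * (1 + Real.log n) ≤ M * n := mul_le_mul_of_nonneg_left hlog hM.le
    have h4 : M ≤ ε * e * n := by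
      rw [div_le_iff₀ (by positivity)] at hnM
      nlinarith
    have h6 : M * n ≤ ε * e * n * n := mul_le_mul_of_nonneg_right h4 (by linarith)
    have h7 : ε * e * n * n ≤ ε * ((n : ℝ) ^ 2 * (b - a)) * n * n := by
      have : ε * e ≤ ε * ((n : ℝ) ^ 2 * (b - a)) := mul_le_mul_of_nonneg_left hs.le hε.le
      have h8 : 0 ≤ (n : ℝ) := by linarith
      exact mul_le_mul_of_nonneg_right (mul_le_mul_of_nonneg_right this h8) h8
    calc M * (1 + Real.log n) ≤ ε * ((n : ℝ) ^ 2 * (b - a)) * n * n := h3.trans (h6.trans h7)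
      _ = ε * (b - a) * (n : ℝ) ^ 4 := by ring

end Pool.Agent.Helper10.AL
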