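import Pool.Agent.Helper10.AL.St9

/-!
The main result for windows near `1` from the pieces.
-/

set_option autoImplicit false

namespace Pool.Agent.Helper10.AL

open Polynomial Set Real MeasureTheory intervalIntegral
open Pool.Agent.Helper40.AS (arc Bdd Ext quad)

private theorem mainH_contact {n : ℕ} {K a b e1 e2 h0 c0 e0 : ℝ} {P : ℝ[X]}
    (hW : Wh n K a b) (h : Ext n a b P) (hc0 : 0 < c0) (hh0 : 0 < h0)
    (hL : ∀ t ∈ Ioo a b, P.derivative.eval t = 0 → (n : ℝ) ^ 2 * (t - a) ≤ e1 → |P.eval t| = 1)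
    (hR : ∀ t ∈ Ioo a b, P.derivative.eval t = 0 → (n : ℝ) ^ 2 * (b - t) ≤ e2 → |P.eval t| = 1)
    (hI : ∀ t ∈ Ioo a b, P.derivative.eval t = 0 → min e1 e2 ≤ (n : ℝ) ^ 2 * (t - a) →
      min e1 e2 ≤ (n : ℝ) ^ 2 * (b - t) → |P.eval t| = 1)
    (hN : ∀ x ∈ Icc a b, |P.derivative.eval x| ≤ h0 * (n : ℝ) ^ 2 →
      c0 * (n : ℝ) ^ 4 ≤ |P.derivative.derivative.eval x| ∧ e0 ≤ (n : ℝ) ^ 2 * (1 - x)) :
    ∀ c ∈ Ioo (-1 : ℝ) 1, P.derivative.eval c = 0 →
      |P.eval c| = 1 ∧ P.derivative.derivative.eval c ≠ 0 := by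
  obtain ⟨hn, ha, hab, hb, -⟩ := hW
  intro c hc hz
  rcases le_or_gt c a with h1 | h1
  · exact Pool.Agent.Helper40.AS.left_contact h hn hab hb.le hc.1 h1 hz
  rcases le_or_gt b c with h2 | h2
  · exact Pool.Agent.Helper40.AS.right_contact h hn hab (by linarith) hc.2 h2 hz
  have hcab : c ∈ Ioo a b := ⟨h1, h2⟩
  constructor
  · rcases le_total ((n : ℝ) ^ 2 * (c - a)) e1 with h3 | h3
    · exact hL c hcab hz h3
    rcases le_total ((n : ℝ) ^ 2 * (b - c)) e2 with h4 | h4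
    · exact hR c hcab hz h4
    · exact hI c hcab hz ((min_le_left _ _).trans h3) ((min_le_right _ _).trans h4)
  · intro h4
    have h5 := (hN c ⟨h1.le, h2.le⟩ (by rw [hz, abs_zero]; positivity)).1
    rw [h4, abs_zero] at h5
    have h6 : (0 : ℝ) < n := by exact_mod_cast hn
    have h7 : 0 < c0 * (n : ℝ) ^ 4 := by positivity
    linarith

theorem mainH (hBi : Bi) (hBl : Bl) (hBr : Br) (hG3h : G3h) (hHHh : HHh) (hHalf : Half)
    (hI1g : I1g) (hNh : Nh) : MainH := by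
  intro K hK
  obtain ⟨e1, he1, n1, h1⟩ := hBl K hK
  obtain ⟨e2, he2, n2, h2⟩ := hBr K hK
  obtain ⟨n3, h3⟩ := hBi K (min e1 e2) hK (lt_min he1 he2)
  obtain ⟨n4, h4⟩ := hG3h K hK
  obtain ⟨n5, h5⟩ := hHHh K hK
  obtain ⟨h0, c0, e0, hh0, hc0, he0, n6, h6⟩ := hNh K hK
  refine ⟨n1 + n2 + n3 + n4 + n5 + n6 + ⌈2 * K⌉₊ + 2, ?_⟩
  intro n hn a b P ha hab hb hKn hP
  have hn1 : (1 : ℝ) ≤ n := by
    have : 1 ≤ n := by omega
    exact_mod_cast this
  have hnK : 2 * K ≤ n := by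
    have h7 : ⌈2 * K⌉₊ ≤ n := by omega
    exact (Nat.le_ceil _).trans (by exact_mod_cast h7)
  have hn2 : 2 * K ≤ (n : ℝ) ^ 2 := by nlinarith
  have ha2 : 1 / 2 ≤ a := by
    by_contra h7
    push Not at h7
    nlinarith
  rcases hb.lt_or_eq with hb1 | hb1
  · have hW : Wh n K a b := ⟨by omega, ha2, hab, hb1, hKn⟩
    have hreal := h5 n (by omega) a b P hW hP
    obtain ⟨g1, g2, g3⟩ := h4 n (by omega) a b P hW hP
    have hN := (h6 n (by omega) a b P hW hP).2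
    have hc := mainH_contact hW hP hc0 hh0
      (fun t ht hz => h1 n (by omega) a b t P hW hP ht hz)
      (fun t ht hz => h2 n (by omega) a b t P hW hP ht hz)
      (fun t ht hz => h3 n (by omega) a b t P hW hP ht hz) hN
    exact ⟨hI1g n a b P (by omega) (by linarith) hab hb hP hreal hc g1 g2 g3, hc, hreal, g1⟩
  · exact (hHalf n a b P (by omega) (Or.inl ⟨by linarith, by linarith, hb1⟩) hP).2

end Pool.Agent.Helper10.AL
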