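import Pool.Agent.Helper10.AL.St9

set_option autoImplicit false

namespace Pool.Agent.Helper10.AL

open Polynomial Set Real MeasureTheory intervalIntegral
open Pool.Agent.Helper40.AS (arc Bdd Ext)

noncomputable section

/-- mean value inequality for polynomials on `[-1, 1]` -/
theorem mk_mvt (p : ℝ[X]) (M : ℝ) (h : ∀ y ∈ Icc (-1 : ℝ) 1, |p.derivative.eval y| ≤ M)
    {x t : ℝ} (hx : x ∈ Icc (-1 : ℝ) 1) (ht : t ∈ Icc (-1 : ℝ) 1) :
    |p.eval x - p.eval t| ≤ M * |x - t| := by
  have h1 := Convex.norm_image_sub_le_of_norm_hasDerivWithin_le (𝕜 := ℝ)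
    (f := fun y => p.eval y) (f' := fun y => p.derivative.eval y) (C := M)
    (s := Icc (-1 : ℝ) 1) (x := t) (y := x)
    (fun y _ => (p.hasDerivAt y).hasDerivWithinAt)
    (fun y hy => by simpa [Real.norm_eq_abs] using h y hy)
    (convex_Icc _ _) ht hx
  simpa [Real.norm_eq_abs] using h1

/-- a polynomial with nonnegative second derivative and a critical zero is nonnegative -/
theorem mk_convex (q : ℝ[X]) (h : ∀ y ∈ Icc (-1 : ℝ) 1, 0 ≤ q.derivative.derivative.eval y)
    {x t : ℝ} (hx : x ∈ Icc (-1 : ℝ) 1) (ht : t ∈ Icc (-1 : ℝ) 1) (h0 : q.eval x = 0)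
    (h1 : q.derivative.eval x = 0) : 0 ≤ q.eval t := by
  have hm : MonotoneOn (fun y => q.derivative.eval y) (Icc (-1 : ℝ) 1) := by
    refine monotoneOn_of_deriv_nonneg (convex_Icc _ _) q.derivative.continuous.continuousOn
      q.derivative.differentiable.differentiableOn ?_
    intro y hy
    rw [interior_Icc] at hy
    rw [Polynomial.deriv]
    exact h y ⟨hy.1.le, hy.2.le⟩
  rcases le_total x t with hxt | hxt
  · have hm2 : MonotoneOn (fun y => q.eval y) (Icc x 1) := by
      refine monotoneOn_of_deriv_nonneg (convex_Icc _ _) q.continuous.continuousOn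
        q.differentiable.differentiableOn ?_
      intro y hy
      rw [interior_Icc] at hy
      rw [Polynomial.deriv]
      have h2 := hm hx (⟨by linarith [hx.1, hy.1], hy.2.le⟩ : y ∈ Icc (-1 : ℝ) 1) hy.1.le
      simp only [h1] at h2
      exact h2
    have h3 := hm2 (⟨le_refl x, hx.2⟩ : x ∈ Icc x 1) (⟨hxt, ht.2⟩ : t ∈ Icc x 1) hxt
    simp only [h0] at h3
    exact h3
  · have hm2 : AntitoneOn (fun y => q.eval y) (Icc (-1) x) := by
      refine antitoneOn_of_deriv_nonpos (convex_Icc _ _) q.continuous.continuousOn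
        q.differentiable.differentiableOn ?_
      intro y hy
      rw [interior_Icc] at hy
      rw [Polynomial.deriv]
      have h2 := hm (⟨hy.1.le, by linarith [hx.2, hy.2]⟩ : y ∈ Icc (-1 : ℝ) 1) hx hy.2.le
      simp only [h1] at h2
      exact h2
    have h3 := hm2 (⟨ht.1, hxt⟩ : t ∈ Icc (-1) x) (⟨hx.1, le_refl x⟩ : x ∈ Icc (-1) x) hxt
    simp only [h0] at h3
    exact h3

/-- Taylor formula -/
theorem mk_taylor (p : ℝ[X]) (M : ℝ)
    (h : ∀ y ∈ Icc (-1 : ℝ) 1, |p.derivative.derivative.eval y| ≤ M)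
    {x t : ℝ} (hx : x ∈ Icc (-1 : ℝ) 1) (ht : t ∈ Icc (-1 : ℝ) 1) :
    |p.eval t - p.eval x - p.derivative.eval x * (t - x)| ≤ M / 2 * (t - x) ^ 2 := by
  have key : ∀ s : ℝ, |s| = 1 →
      0 ≤ M / 2 * (t - x) ^ 2 - s * (p.eval t - p.eval x - p.derivative.eval x * (t - x)) := by
    intro s hs
    have h1 := mk_convex (C (M / 2) * (X - C x) ^ 2 -
      C s * (p - C (p.eval x) - C (p.derivative.eval x) * (X - C x)))
      (fun y hy => by
        have h2 := h y hy
        have h3 : |s * p.derivative.derivative.eval y| ≤ M := by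
          rw [abs_mul, hs, one_mul]; exact h2
        have h4 := abs_le.1 h3
        simp [derivative_pow]
        linarith [h4.2]) hx ht (by simp) (by simp [derivative_pow])
    simpa using h1
  rw [abs_le]
  constructor
  · have := key (-1) (by simp)
    linarith
  · have := key 1 (by simp)
    linarith

/-- Markov inequality with a crude constant -/
theorem mk_one (hA2 : A2) {n : ℕ} {P : ℝ[X]} (hn : 1 ≤ n) (hd : P.natDegree ≤ n) (hB : Bdd P)
    {x : ℝ} (hx : x ∈ Icc (-1 : ℝ) 1) : |P.derivative.eval x| ≤ 2 * (n : ℝ) ^ 2 := by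
  have hTB : TB n (qq P) := hA2.2.1 n P hd hB
  have hD : deriv (qq P) = fun θ => -(sin θ * P.derivative.eval (cos θ)) := by
    funext θ
    exact (hA2.2.2 P θ).1
  have hdiff : ∀ θ : ℝ, HasDerivAt (deriv (qq P)) (deriv (deriv (qq P)) θ) θ := by
    intro θ
    have : DifferentiableAt ℝ (deriv (qq P)) θ := by
      rw [hD]
      have h1 : DifferentiableAt ℝ (fun θ => P.derivative.eval (cos θ)) θ :=
        (P.derivative.differentiableAt).comp θ Real.differentiable_cos.differentiableAt
      exact ((Real.differentiable_sin.differentiableAt).mul h1).neg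
    exact this.hasDerivAt
  have hb2 : ∀ θ : ℝ, |deriv (deriv (qq P)) θ| ≤ (n : ℝ) ^ 2 := fun θ =>
    ((hA2.1 n (qq P) hn hTB).2 θ).2.2.2.1
  have hlip : ∀ u v : ℝ, |deriv (qq P) v - deriv (qq P) u| ≤ (n : ℝ) ^ 2 * |v - u| := by
    intro u v
    have h1 := Convex.norm_image_sub_le_of_norm_hasDerivWithin_le (𝕜 := ℝ)
      (f := deriv (qq P)) (f' := deriv (deriv (qq P))) (C := (n : ℝ) ^ 2)
      (s := univ) (x := u) (y := v)
      (fun y _ => (hdiff y).hasDerivWithinAt)
      (fun y _ => by simpa [Real.norm_eq_abs] using hb2 y)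
      convex_univ (mem_univ _) (mem_univ _)
    simpa [Real.norm_eq_abs] using h1
  have h00 : deriv (qq P) 0 = 0 := by rw [hD]; simp
  have hpi : deriv (qq P) π = 0 := by rw [hD]; simp
  have hn2 : (0 : ℝ) ≤ (n : ℝ) ^ 2 := by positivity
  have hopen : ∀ y ∈ Ioo (-1 : ℝ) 1, |P.derivative.eval y| ≤ 2 * (n : ℝ) ^ 2 := by
    intro y hy
    set θ := arccos y with hθ
    have hcy : cos θ = y := Real.cos_arccos hy.1.le hy.2.le
    have hθ0 : 0 < θ := Real.arccos_pos.2 hy.2
    have hθπ : θ < π := by
      rcases lt_or_eq_of_le (Real.arccos_le_pi y) with h | h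
      · exact h
      · exfalso
        have : cos θ = -1 := by rw [hθ, h, Real.cos_pi]
        rw [hcy] at this
        linarith [hy.1]
    have hf : |sin θ| * |P.derivative.eval y| = |deriv (qq P) θ| := by
      rw [hD]; simp only [hcy, abs_neg, abs_mul]
    have hπ4 : π ≤ 4 := Real.pi_le_four
    have hπ0 := Real.pi_pos
    have hgen : ∀ w : ℝ, 0 < w → 2 / π * w ≤ |sin θ| → |deriv (qq P) θ| ≤ (n : ℝ) ^ 2 * w →
        |P.derivative.eval y| ≤ 2 * (n : ℝ) ^ 2 := by
      intro w hw h1 h2
      rw [← hf] at h2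
      have h3 : 2 / π * w * |P.derivative.eval y| ≤ (n : ℝ) ^ 2 * w :=
        (mul_le_mul_of_nonneg_right h1 (abs_nonneg _)).trans h2
      have h4 : 1 / 2 * |P.derivative.eval y| ≤ 2 / π * |P.derivative.eval y| := by
        apply mul_le_mul_of_nonneg_right _ (abs_nonneg _)
        rw [div_le_div_iff₀ (by norm_num) hπ0]
        linarith
      have h5 : (2 / π * |P.derivative.eval y|) * w ≤ (n : ℝ) ^ 2 * w := by
        calc (2 / π * |P.derivative.eval y|) * w = 2 / π * w * |P.derivative.eval y| := by ring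
          _ ≤ _ := h3
      have h6 := le_of_mul_le_mul_right h5 hw
      linarith
    rcases le_total θ (π / 2) with hle | hle
    · refine hgen θ hθ0 ((Real.mul_le_sin hθ0.le hle).trans (le_abs_self _)) ?_
      have := hlip 0 θ
      rw [h00, sub_zero, sub_zero, abs_of_pos hθ0] at this
      exact this
    · refine hgen (π - θ) (by linarith) ?_ ?_
      · have h1 := Real.mul_le_sin (x := π - θ) (by linarith) (by linarith)
        rw [Real.sin_pi_sub] at h1
        exact h1.trans (le_abs_self _)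
      · have := hlip π θ
        rw [hpi, sub_zero, abs_sub_comm θ π, abs_of_pos (by linarith : (0 : ℝ) < π - θ)] at this
        exact this
  have hcl : IsClosed {y : ℝ | |P.derivative.eval y| ≤ 2 * (n : ℝ) ^ 2} :=
    isClosed_le (P.derivative.continuous.abs) continuous_const
  have hsub : closure (Ioo (-1 : ℝ) 1) ⊆ {y : ℝ | |P.derivative.eval y| ≤ 2 * (n : ℝ) ^ 2} :=
    hcl.closure_subset_iff.2 hopen
  rw [closure_Ioo (by norm_num)] at hsub
  exact hsub hx

theorem mk_iter (hA2 : A2) {n : ℕ} (hn : 1 ≤ n) (k : ℕ) : ∀ P : ℝ[X], P.natDegree ≤ n → Bdd P →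
    ∀ x ∈ Icc (-1 : ℝ) 1, |(derivative^[k] P).eval x| ≤ (2 * (n : ℝ) ^ 2) ^ k := by
  have hn0 : (0 : ℝ) < n := by exact_mod_cast hn
  have hc : (0 : ℝ) < 2 * (n : ℝ) ^ 2 := by positivity
  induction k with
  | zero =>
    intro P _ hB x hx
    simpa using hB x hx
  | succ k ih =>
    intro P hd hB x hx
    have h1 := ih (C (2 * (n : ℝ) ^ 2)⁻¹ * P.derivative)
      ((natDegree_C_mul_le _ _).trans ((natDegree_derivative_le P).trans (by omega)))
      (fun y hy => by
        rw [eval_mul, eval_C, abs_mul, abs_of_pos (inv_pos.2 hc), inv_mul_le_iff₀ hc, mul_one]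
        exact mk_one hA2 hn hd hB hy) x hx
    rw [iterate_derivative_C_mul, eval_mul, eval_C, abs_mul, abs_of_pos (inv_pos.2 hc),
      inv_mul_le_iff₀ hc] at h1
    rw [Function.iterate_succ_apply, pow_succ, mul_comm _ (2 * (n : ℝ) ^ 2)]
    exact h1

theorem mk (hA2 : A2) : Mk := by
  intro n P hn hd hB
  have hit := fun k => mk_iter hA2 hn k P hd hB
  refine ⟨hit, ?_⟩
  intro t R ht hR
  have h2 : ∀ y ∈ Icc (-1 : ℝ) 1, |P.derivative.derivative.eval y| ≤ 4 * (n : ℝ) ^ 4 := by
    intro y hy
    have := hit 2 y hy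
    simp only [Function.iterate_succ, Function.iterate_zero, Function.comp_apply, id] at this
    calc _ ≤ _ := this
      _ = _ := by ring
  have h3 : ∀ y ∈ Icc (-1 : ℝ) 1, |P.derivative.derivative.derivative.eval y| ≤
      8 * (n : ℝ) ^ 6 := by
    intro y hy
    have := hit 3 y hy
    simp only [Function.iterate_succ, Function.iterate_zero, Function.comp_apply, id] at this
    calc _ ≤ _ := this
      _ = _ := by ring
  have e1 : ∀ y : ℝ, P.derivative.eval y = (y - t) * R.eval y := by
    intro y; rw [hR]; simp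
  have hR2 : P.derivative.derivative = R + (X - C t) * R.derivative := by
    rw [hR]; simp
  have e2 : ∀ y : ℝ, P.derivative.derivative.eval y = R.eval y + (y - t) * R.derivative.eval y := by
    intro y; rw [hR2]; simp
  have e3 : ∀ y : ℝ, P.derivative.derivative.derivative.eval y =
      2 * R.derivative.eval y + (y - t) * R.derivative.derivative.eval y := by
    intro y; rw [hR2]; simp; ring
  have hRt : R.eval t = P.derivative.derivative.eval t := by rw [e2]; ring
  refine ⟨hRt, ?_⟩
  intro x hx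
  rcases eq_or_ne x t with hxt | hxt
  · subst hxt
    refine ⟨by rw [hRt]; exact h2 x hx, ?_⟩
    have h5 := h3 x hx
    rw [e3, sub_self, zero_mul, add_zero, abs_mul, abs_two] at h5
    linarith
  · have hpos : 0 < |x - t| := abs_pos.2 (sub_ne_zero.2 hxt)
    constructor
    · have h5 := mk_mvt P.derivative _ h2 hx ht
      rw [e1 x, e1 t, sub_self, zero_mul, sub_zero, abs_mul, mul_comm (|x - t|)] at h5
      exact le_of_mul_le_mul_right h5 hpos
    · have h5 := mk_taylor P.derivative _ h3 hx ht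
      have h6 : P.derivative.eval t - P.derivative.eval x -
          P.derivative.derivative.eval x * (t - x) = R.derivative.eval x * (t - x) ^ 2 := by
        rw [e1 t, e1 x, e2 x]; ring
      rw [h6, abs_mul, abs_of_nonneg (sq_nonneg (t - x))] at h5
      have h7 : 0 < (t - x) ^ 2 := by
        have : t - x ≠ 0 := sub_ne_zero.2 (Ne.symm hxt)
        positivity
      have h8 := le_of_mul_le_mul_right h5 h7
      linarith

end

end Pool.Agent.Helper10.AL
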