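import Pool.Agent.Helper10.AL.St9

/-! Project AH, piece Nh: non-degeneracy of extremal polynomials near `1`. -/

set_option autoImplicit false

namespace Pool.Agent.Helper10.AL

open Polynomial Set Real MeasureTheory intervalIntegral
open Pool.Agent.Helper40.AS (arc Bdd Ext quad)

theorem nh_win {n : ℕ} {K a b d : ℝ} (hK : 0 < K) (hW : Wh n K a b)
    (hd : d ≤ (n : ℝ) ^ 2 * (b - a)) : n * arccos a ≤ √(5 * K) ∧
    d / √(5 * K) ≤ n * (arccos a - arccos b) := by
  obtain ⟨hn, ha, hab, hb, hKa⟩ := hW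
  have hn0 : (0 : ℝ) < n := by exact_mod_cast hn
  set α := arccos a with hα
  set β := arccos b with hβ
  have hca : cos α = a := Real.cos_arccos (by linarith) (by linarith)
  have hcb : cos β = b := Real.cos_arccos (by linarith) (by linarith)
  have hα0 : 0 ≤ α := Real.arccos_nonneg a
  have hβ0 : 0 ≤ β := Real.arccos_nonneg b
  have hαπ : α ≤ π := Real.arccos_le_pi a
  have hβα : β < α := Real.strictAntiOn_arccos ⟨by linarith, by linarith⟩
    ⟨by linarith, by linarith⟩ hab
  have h1 : (n * α) ^ 2 ≤ 5 * K := by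
    have h2 := Real.cos_le_one_sub_mul_cos_sq (x := α) (by rw [abs_of_nonneg hα0]; exact hαπ)
    have h3 : 1 / 5 ≤ 2 / π ^ 2 := by
      rw [div_le_div_iff₀ (by norm_num) (by positivity)]
      have := Real.pi_lt_d2
      nlinarith [Real.pi_pos]
    have h4 : α ^ 2 ≤ 5 * (1 - a) := by
      rw [hca] at h2
      nlinarith [sq_nonneg α]
    calc (n * α) ^ 2 = (n : ℝ) ^ 2 * α ^ 2 := by ring
      _ ≤ (n : ℝ) ^ 2 * (5 * (1 - a)) := by gcongr
      _ ≤ 5 * K := by linarith
  have h5 : n * α ≤ √(5 * K) := Real.le_sqrt_of_sq_le h1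
  refine ⟨h5, ?_⟩
  have h6 : b - a ≤ α * (α - β) := by
    rw [← hca, ← hcb, Real.cos_sub_cos]
    have e1 : sin ((β + α) / 2) ≤ (β + α) / 2 := Real.sin_le (by linarith)
    have e2 : sin ((α - β) / 2) ≤ (α - β) / 2 := Real.sin_le (by linarith)
    have e3 : sin ((β - α) / 2) = -sin ((α - β) / 2) := by
      rw [← Real.sin_neg]
      congr 1
      ring
    have e4 : 0 ≤ sin ((β + α) / 2) := Real.sin_nonneg_of_nonneg_of_le_pi (by linarith)
      (by linarith)
    have e5 : 0 ≤ sin ((α - β) / 2) := Real.sin_nonneg_of_nonneg_of_le_pi (by linarith)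
      (by linarith)
    rw [e3]
    have e6 : sin ((β + α) / 2) * sin ((α - β) / 2) ≤ (β + α) / 2 * ((α - β) / 2) :=
      mul_le_mul e1 e2 e5 (by linarith)
    nlinarith
  rw [div_le_iff₀ (by positivity)]
  calc d ≤ (n : ℝ) ^ 2 * (b - a) := hd
    _ ≤ (n : ℝ) ^ 2 * (α * (α - β)) := by gcongr
    _ = n * (α - β) * (n * α) := by ring
    _ ≤ n * (α - β) * √(5 * K) := by
      have : 0 ≤ n * (α - β) := mul_nonneg hn0.le (by linarith)
      gcongr

theorem nh_vp {n : ℕ} {a b : ℝ} {P Q : ℝ[X]} (hab : a < b) (h : Ext n a b P)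
    (hQ : Q.natDegree ≤ n) (hb : Bdd Q) : Vp Q a b ≤ Vp P a b + (b - a) := by
  have hc : ∀ R : ℝ[X], Continuous fun x => |R.derivative.eval x| := fun R => by fun_prop
  have hs : ∀ R : ℝ[X], Continuous fun x => √(1 + (R.derivative.eval x) ^ 2) := fun R =>
    Pool.Agent.Helper40.AS.cont_s R
  have h1 : Vp Q a b ≤ arc a b Q := by
    unfold Vp arc
    refine intervalIntegral.integral_mono_on hab.le ((hc Q).intervalIntegrable _ _)
      ((hs Q).intervalIntegrable _ _) fun x _ => ?_
    apply Real.le_sqrt_of_sq_le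
    rw [sq_abs]
    linarith
  have h2 : arc a b P ≤ Vp P a b + (b - a) := by
    have h3 : (∫ x in a..b, (|P.derivative.eval x| + 1)) = Vp P a b + (b - a) := by
      rw [intervalIntegral.integral_add ((hc P).intervalIntegrable _ _)
        (by apply Continuous.intervalIntegrable; fun_prop)]
      simp [Vp]
    rw [← h3]
    unfold arc
    refine intervalIntegral.integral_mono_on hab.le ((hs P).intervalIntegrable _ _)
      (((hc P).add continuous_const).intervalIntegrable _ _) fun x _ => ?_
    apply Real.sqrt_le_iff.2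
    refine ⟨by positivity, ?_⟩
    have := abs_nonneg (P.derivative.eval x)
    nlinarith [sq_abs (P.derivative.eval x)]
  exact h1.trans ((h.max Q (natDegree_le_iff_degree_le.1 hQ) hb).trans h2)

theorem nh (hNn : Nn) (hSw : Sw) (hTV2 : TV2) : Nh := by
  intro K hK
  obtain ⟨h1, d1, hh1, hd1, n1, H1⟩ := hSw K hK
  obtain ⟨h2, e2, hh2, he2, n2, H2⟩ := hNn K d1 hK hd1
  have h5K : 0 < √(5 * K) := Real.sqrt_pos.2 (by positivity)
  obtain ⟨c, h3, hc, hh3, n3, H3⟩ := hTV2 (√(5 * K)) (d1 / √(5 * K)) h5K (by positivity)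
  refine ⟨min (min h1 h2) h3, c, min d1 e2, by positivity, hc, by positivity,
    max (max n1 n2) (max n3 (⌈K / h3⌉₊ + 1)), fun n hn a b P hW hP => ?_⟩
  have hn1 : n1 ≤ n := le_trans (le_trans (le_max_left _ _) (le_max_left _ _)) hn
  have hn2 : n2 ≤ n := le_trans (le_trans (le_max_right _ _) (le_max_left _ _)) hn
  have hn3 : n3 ≤ n := le_trans (le_trans (le_max_left _ _) (le_max_right _ _)) hn
  have hn4 : ⌈K / h3⌉₊ + 1 ≤ n := le_trans (le_trans (le_max_right _ _) (le_max_right _ _)) hn
  have hW' := hW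
  obtain ⟨hn0', ha, hab, hb, hKa⟩ := hW'
  have hn0 : (1 : ℝ) ≤ n := by exact_mod_cast hn0'
  refine ⟨fun hs x hx => ?_, fun x hx hxd => ?_⟩
  · have := H1 n hn1 a b x P hW (hs.trans (min_le_left _ _)) hP hx
    refine lt_of_le_of_lt ?_ this
    gcongr
    exact (min_le_left _ _).trans (min_le_left _ _)
  · have hlong : d1 < (n : ℝ) ^ 2 * (b - a) := by
      by_contra hcon
      push Not at hcon
      have := H1 n hn1 a b x P hW hcon hP hx
      have h6 : min (min h1 h2) h3 * (n : ℝ) ^ 2 ≤ h1 * (n : ℝ) ^ 2 := by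
        gcongr
        exact (min_le_left _ _).trans (min_le_left _ _)
      linarith
    obtain ⟨w1, w2⟩ := nh_win hK hW hlong.le
    constructor
    · apply H3 n hn3 a b x P (by linarith) hab hb w1 w2
        (natDegree_le_iff_degree_le.2 hP.deg) hP.bdd ?_ hx ?_
      · intro Q hQ hQb
        refine (nh_vp hab hP hQ hQb).trans ?_
        have h7 : K / h3 ≤ n := by
          have := Nat.le_ceil (K / h3)
          have h8 : ((⌈K / h3⌉₊ + 1 : ℕ) : ℝ) ≤ n := by exact_mod_cast hn4
          push_cast at h8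
          linarith
        have h9 : K ≤ h3 * n := by
          rw [div_le_iff₀ hh3] at h7
          linarith
        have h10 : b - a ≤ 1 - a := by linarith
        have h11 : (n : ℝ) ^ 2 * (b - a) ≤ h3 * n := by
          have : (n : ℝ) ^ 2 * (b - a) ≤ (n : ℝ) ^ 2 * (1 - a) := by gcongr
          linarith
        have h12 : b - a ≤ h3 := by
          by_contra hcon
          push Not at hcon
          have h13 : (n : ℝ) * h3 < (n : ℝ) ^ 2 * (b - a) := by
            have e1 : (n : ℝ) * h3 < n * (b - a) := by gcongr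
            have e2 : (n : ℝ) * (b - a) ≤ (n : ℝ) ^ 2 * (b - a) := by
              have : (n : ℝ) ≤ (n : ℝ) ^ 2 := by nlinarith
              gcongr
            linarith
          linarith
        linarith
      · refine hxd.trans ?_
        gcongr
        exact min_le_right _ _
    · by_contra hcon
      push Not at hcon
      have h6 := H2 n hn2 a b x P hW hlong.le hP hx (hcon.le.trans (min_le_right _ _))
      have h7 : min (min h1 h2) h3 * (n : ℝ) ^ 2 ≤ h2 * (n : ℝ) ^ 2 := by
        gcongr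
        exact (min_le_left _ _).trans (min_le_right _ _)
      linarith

end Pool.Agent.Helper10.AL
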