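import Pool.Agent.Helper10.AL.St9

/-!
Project AH, piece Nn: the derivative of extremal polynomials near `1` (windows at distance of
order `1 / n ^ 2` from `1`, large degree) is not small.
-/

set_option autoImplicit false

namespace Pool.Agent.Helper10.AL

open Polynomial Set Real MeasureTheory intervalIntegral
open Pool.Agent.Helper40.AS (arc Bdd Ext quad)

noncomputable section

/-- a quadratic bound for the majorant near a slow point -/
theorem nn_Gm {μ ψ s : ℝ} (hμ : 0 ≤ μ) (hψ : π / 2 ≤ ψ) (hs : 0 ≤ s) :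
    Gm μ ψ s ≤ (s ^ 2 + 2 * μ * ψ * s + ψ ^ 2 - π ^ 2 / 4) / π := by
  unfold Gm
  set q := s ^ 2 + 2 * μ * ψ * s + ψ ^ 2 with hq
  have hpi := Real.pi_pos
  have hψ0 : 0 ≤ ψ := by linarith
  have h1 : ψ ^ 2 ≤ q := by
    have : 0 ≤ 2 * μ * ψ * s := by positivity
    nlinarith [sq_nonneg s]
  have h2 : ψ ≤ √q := Real.le_sqrt_of_sq_le h1
  have h3 : √q ^ 2 = q := Real.sq_sqrt (le_trans (sq_nonneg _) h1)
  have h4 : π / 2 ≤ min (√q) π := le_min (by linarith) (by linarith)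
  have h5 : -cos (min (√q) π) = sin (min (√q) π - π / 2) := by
    rw [Real.sin_sub_pi_div_two]
  rw [h5]
  have h6 : sin (min (√q) π - π / 2) ≤ min (√q) π - π / 2 := Real.sin_le (by linarith)
  have h7 : min (√q) π ≤ √q := min_le_left _ _
  rw [le_div_iff₀ hpi]
  have h8 : (sin (min (√q) π - π / 2)) * π ≤ (√q - π / 2) * π := by
    apply mul_le_mul_of_nonneg_right _ hpi.le
    linarith
  have h9 : (√q - π / 2) * π ≤ (√q - π / 2) * (√q + π / 2) := by
    apply mul_le_mul_of_nonneg_left _ (by linarith)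
    linarith
  nlinarith [h8, h9, h3]

theorem nn_Gm_cont (μ ψ : ℝ) : Continuous (Gm μ ψ) := by
  unfold Gm
  fun_prop

theorem nn_int {μ ψ w : ℝ} (hμ : 0 ≤ μ) (hψ : π / 2 ≤ ψ) (hw : 0 ≤ w) :
    (∫ s in (0 : ℝ)..w, Gm μ ψ s) ≤
      (w ^ 3 / 3 + μ * ψ * w ^ 2 + (ψ ^ 2 - π ^ 2 / 4) * w) / π := by
  have h1 : (∫ s in (0 : ℝ)..w, Gm μ ψ s) ≤
      ∫ s in (0 : ℝ)..w, (s ^ 2 + 2 * μ * ψ * s + ψ ^ 2 - π ^ 2 / 4) / π := by
    apply intervalIntegral.integral_mono_on hw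
    · exact (nn_Gm_cont μ ψ).intervalIntegrable _ _
    · apply Continuous.intervalIntegrable
      fun_prop
    · intro s hs
      exact nn_Gm hμ hψ hs.1
  refine h1.trans (le_of_eq ?_)
  have h2 : ∀ s ∈ Set.uIcc (0 : ℝ) w,
      HasDerivAt (fun s : ℝ => (s ^ 3 / 3 + μ * ψ * s ^ 2 + (ψ ^ 2 - π ^ 2 / 4) * s) / π)
        ((s ^ 2 + 2 * μ * ψ * s + ψ ^ 2 - π ^ 2 / 4) / π) s := by
    intro s _
    have h3 : HasDerivAt (fun s : ℝ => s ^ 3 / 3) (s ^ 2) s := by
      exact ((hasDerivAt_pow 3 s).div_const 3).congr_deriv (by push_cast; ring)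
    have h4 : HasDerivAt (fun s : ℝ => μ * ψ * s ^ 2) (2 * μ * ψ * s) s := by
      exact ((hasDerivAt_pow 2 s).const_mul (μ * ψ)).congr_deriv (by push_cast; ring)
    have h5 : HasDerivAt (fun s : ℝ => (ψ ^ 2 - π ^ 2 / 4) * s) (ψ ^ 2 - π ^ 2 / 4) s := by
      simpa using (hasDerivAt_id s).const_mul (ψ ^ 2 - π ^ 2 / 4)
    exact (((h3.add h4).add h5).div_const π).congr_deriv (by ring)
  rw [intervalIntegral.integral_eq_sub_of_hasDerivAt h2]
  · simp
  · apply Continuous.intervalIntegrable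
    fun_prop

theorem nn_tendsto (a c : ℝ) (hc : 0 < c) :
    ∃ n0 : ℕ, ∀ n ≥ n0, a / (n : ℝ) + er n < c := by
  have h1 : Filter.Tendsto (fun n : ℕ => a / (n : ℝ)) Filter.atTop (nhds 0) :=
    tendsto_const_div_atTop_nhds_zero_nat a
  have h2 : Filter.Tendsto (fun n : ℕ => Real.log n / (n : ℝ)) Filter.atTop (nhds 0) := by
    have h := (Real.isLittleO_log_id_atTop).tendsto_div_nhds_zero
    exact h.comp tendsto_natCast_atTop_atTop
  have h3 : Filter.Tendsto (fun n : ℕ => er n) Filter.atTop (nhds 0) := by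
    have h4 : Filter.Tendsto (fun n : ℕ => 60 / (n : ℝ)) Filter.atTop (nhds 0) :=
      tendsto_const_div_atTop_nhds_zero_nat 60
    have h5 := h4.add (h2.const_mul 60)
    simp only [mul_zero, add_zero] at h5
    refine h5.congr ?_
    intro n
    unfold er
    ring
  have h6 := h1.add h3
  simp only [add_zero] at h6
  have h7 := h6.eventually (gt_mem_nhds hc)
  exact Filter.eventually_atTop.1 h7

/-- angles of points near `1` -/
theorem nn_arccos {n : ℕ} {x K : ℝ} (hn : 1 ≤ n) (hx : -1 ≤ x) (hx1 : x ≤ 1)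
    (h : (n : ℝ) ^ 2 * (1 - x) ≤ K) : ((n : ℝ) * arccos x) ^ 2 ≤ 5 * K := by
  have hn' : (1 : ℝ) ≤ n := by exact_mod_cast hn
  have h1 := Real.cos_le_one_sub_mul_cos_sq (x := arccos x)
    (by rw [abs_of_nonneg (arccos_nonneg x)]; exact arccos_le_pi x)
  rw [Real.cos_arccos hx hx1] at h1
  have hpi := Real.pi_pos
  have hpi4 : π ^ 2 ≤ 10 := by nlinarith [Real.pi_lt_d2, Real.pi_gt_d2]
  have h2 : 2 * (arccos x) ^ 2 ≤ π ^ 2 * (1 - x) := by
    have h3 : 2 / π ^ 2 * (arccos x) ^ 2 ≤ 1 - x := by linarith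
    have h4 : π ^ 2 * (2 / π ^ 2 * (arccos x) ^ 2) = 2 * (arccos x) ^ 2 := by
      field_simp
    have h5 := mul_le_mul_of_nonneg_left h3 (by positivity : (0 : ℝ) ≤ π ^ 2)
    rw [h4] at h5
    exact h5
  have h6 : π ^ 2 * (1 - x) ≤ 10 * (1 - x) := mul_le_mul_of_nonneg_right hpi4 (by linarith)
  have h7 : (n : ℝ) ^ 2 * (arccos x) ^ 2 ≤ (n : ℝ) ^ 2 * (5 * (1 - x)) := by
    apply mul_le_mul_of_nonneg_left _ (by positivity)
    linarith
  nlinarith [h7]

theorem nn_cont (hA2 : A2) (P : ℝ[X]) : Continuous (fun θ => deriv (qq P) θ) := by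
  have h1 : (fun θ => deriv (qq P) θ) = fun θ => -(sin θ * P.derivative.eval (cos θ)) := by
    funext θ
    exact (hA2.2.2 P θ).1
  rw [h1]
  exact (continuous_sin.mul (P.derivative.continuous.comp continuous_cos)).neg

theorem nn_En_int (hA2 : A2) (P : ℝ[X]) (u v : ℝ) :
    IntervalIntegrable (fun θ => √(1 + (deriv (qq P) θ) ^ 2)) volume u v := by
  apply Continuous.intervalIntegrable
  exact (continuous_const.add ((nn_cont hA2 P).pow 2)).sqrt

theorem nn_En_add (hA2 : A2) (P : ℝ[X]) (u v w : ℝ) :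
    En (qq P) u v + En (qq P) v w = En (qq P) u w :=
  intervalIntegral.integral_add_adjacent_intervals (nn_En_int hA2 P u v) (nn_En_int hA2 P v w)

theorem nn_En_short (hA2 : A2) {n : ℕ} {P : ℝ[X]} {u v : ℝ} (hn : 1 ≤ n) (hP : TB n (qq P))
    (huv : u ≤ v) : En (qq P) u v ≤ (v - u) * (1 + n) := by
  have h1 : En (qq P) u v ≤ ∫ _ in u..v, (1 + (n : ℝ)) := by
    unfold En
    apply intervalIntegral.integral_mono_on huv (nn_En_int hA2 P u v)
    · exact continuous_const.intervalIntegrable _ _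
    · intro θ _
      have h2 := ((hA2.1 n (qq P) hn hP).2 θ).2.2.1
      have h3 := abs_nonneg (deriv (qq P) θ)
      rw [Real.sqrt_le_left (by positivity)]
      rw [← sq_abs (deriv (qq P) θ)]
      nlinarith
  refine h1.trans (le_of_eq ?_)
  rw [intervalIntegral.integral_const, smul_eq_mul]

theorem nn_cos {α β : ℝ} (hβ : 0 ≤ β) (hβα : β ≤ α) (hα : α ≤ π) :
    cos β - cos α ≤ α * (α - β) := by
  rw [Real.cos_sub_cos]
  have h1 : sin ((β + α) / 2) ≤ (β + α) / 2 := Real.sin_le (by linarith)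
  have h2 : 0 ≤ sin ((β + α) / 2) := Real.sin_nonneg_of_nonneg_of_le_pi (by linarith) (by linarith)
  have h3 : sin ((α - β) / 2) ≤ (α - β) / 2 := Real.sin_le (by linarith)
  have h4 : 0 ≤ sin ((α - β) / 2) := Real.sin_nonneg_of_nonneg_of_le_pi (by linarith) (by linarith)
  have h5 : sin ((β - α) / 2) = -sin ((α - β) / 2) := by
    rw [← Real.sin_neg]
    congr 1
    ring
  rw [h5]
  have h6 : sin ((β + α) / 2) * sin ((α - β) / 2) ≤ α * ((α - β) / 2) := by
    apply mul_le_mul (by linarith) h3 h4 (by linarith)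
  nlinarith [h6]

theorem nn_num1 {w τ ψ : ℝ} (hw0' : 0 ≤ w) (hw16 : w ≤ 1.6) (hτ0 : 0 ≤ τ) (hψ : ψ = π / 2 + τ)
    (hψ2 : ψ < π) : (w ^ 3 / 3 + τ * ψ * w ^ 2 + (ψ ^ 2 - π ^ 2 / 4) * w) / π ≤
      0.17 * w ^ 2 + 6 * τ := by
  have hpi := Real.pi_pos
  have hpi3 := Real.pi_gt_d4
  rw [div_le_iff₀ hpi]
  have h4 : ψ ^ 2 - π ^ 2 / 4 = τ * (π + τ) := by
    rw [hψ]
    ring
  have hw2 : 0 ≤ w ^ 2 := sq_nonneg w
  have h5 : w ^ 3 / 3 ≤ 0.17 * w ^ 2 * π := by
    have h51 : w ^ 3 ≤ 1.6 * w ^ 2 := by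
      have := mul_le_mul_of_nonneg_right hw16 hw2
      linarith [(by ring : w * w ^ 2 = w ^ 3)]
    have h52 : w ^ 2 * 3.14 ≤ w ^ 2 * π := mul_le_mul_of_nonneg_left (by linarith) hw2
    linarith
  have h6 : τ * ψ * w ^ 2 ≤ 2.6 * τ * π := by
    have h7 : w ^ 2 ≤ 2.6 := by
      have := pow_le_pow_left₀ hw0' hw16 2
      linarith
    have h8 : τ * ψ ≤ τ * π := mul_le_mul_of_nonneg_left hψ2.le hτ0
    have h9 : τ * ψ * w ^ 2 ≤ τ * π * 2.6 :=
      mul_le_mul h8 h7 (sq_nonneg _) (by positivity)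
    linarith
  have h7 : (ψ ^ 2 - π ^ 2 / 4) * w ≤ 3.2 * τ * π := by
    rw [h4]
    have h8 : τ * (π + τ) ≤ τ * (2 * π) := mul_le_mul_of_nonneg_left (by linarith) hτ0
    have h9 : τ * (π + τ) * w ≤ τ * (2 * π) * 1.6 :=
      mul_le_mul h8 hw16 hw0' (by positivity)
    linarith
  have h8 : 0 ≤ τ * π := by positivity
  linarith

theorem nn_num2 : 0.2 ≤ 2 / π ^ 2 := by
  have hpi := Real.pi_pos
  have hpi3 := Real.pi_lt_d4
  rw [le_div_iff₀ (by positivity)]
  have h1 : π ^ 2 ≤ 3.1416 ^ 2 := pow_le_pow_left₀ hpi.le hpi3.le 2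
  linarith

theorem nn_num3 : 1.0185 ≤ 2 / π * 1.6 := by
  have hpi := Real.pi_pos
  have hpi3 := Real.pi_lt_d4
  rw [div_mul_eq_mul_div, le_div_iff₀ hpi]
  linarith

theorem nn (hA2 : A2) (hB3 : B3) (hB7 : B7) (hC1 : C1) (hC2 : C2) (hMk : Mk) (hN1 : N1)
    (hVF1 : VF1) (hVF2 : VF2) (hVF6 : VF6) : Nn := by
  intro K d hK hd
  set K1 := √(5 * K) with hK1
  have hK1pos : 0 < K1 := Real.sqrt_pos.2 (by linarith)
  set w0 := d / (2 * K1) with hw0
  have hw0pos : 0 < w0 := by positivity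
  obtain ⟨τ, hτ0, hτ1, hτ2, hτ3⟩ : ∃ τ : ℝ, 0 < τ ∧ τ ≤ 0.0011 ∧ τ ≤ w0 ∧ τ ≤ 0.002 * w0 ^ 2 := by
    refine ⟨min 0.0011 (min w0 (0.002 * w0 ^ 2)), ?_, min_le_left _ _,
      (min_le_right _ _).trans (min_le_left _ _), (min_le_right _ _).trans (min_le_right _ _)⟩
    apply lt_min (by norm_num)
    exact lt_min hw0pos (by positivity)
  obtain ⟨n1, hn1⟩ := nn_tendsto 1.6 0.0008 (by norm_num)
  obtain ⟨n2, hn2⟩ := nn_tendsto 1.6 (0.015 * w0 ^ 2) (by positivity)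
  refine ⟨τ / 4, τ ^ 2 / 80, by positivity, by positivity, max 4 (max n1 n2), ?_⟩
  intro n hn a b x P hW hdn hE hx hxe
  by_contra hcon
  rw [not_lt] at hcon
  have hn4 : 4 ≤ n := (le_max_left _ _).trans hn
  have hm1 := hn1 n ((le_max_left _ _).trans ((le_max_right _ _).trans hn))
  have hm2 := hn2 n ((le_max_right _ _).trans ((le_max_right _ _).trans hn))
  have hn0 : (4 : ℝ) ≤ n := by exact_mod_cast hn4
  have hnpos : (0 : ℝ) < n := by linarith
  have her : 0 ≤ er n := by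
    unfold er
    have : 0 ≤ Real.log n := Real.log_nonneg (by linarith)
    positivity
  obtain ⟨_, ha, hab, hb, hKa⟩ := hW
  have hxa : a ≤ x := hx.1
  have hxb : x ≤ b := hx.2
  set α := arccos a with hα
  set β := arccos b with hβ
  set ξ := arccos x with hξ
  have hβ0 : 0 ≤ β := arccos_nonneg b
  have hβξ : β ≤ ξ := Real.arccos_le_arccos hxb
  have hξα : ξ ≤ α := Real.arccos_le_arccos hxa
  have hαπ : α ≤ π := arccos_le_pi a
  have hξ0 : 0 ≤ ξ := arccos_nonneg x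
  have hpi := Real.pi_pos
  have hpi3 := Real.pi_gt_d4
  have hpi4 := Real.pi_lt_d4
  have hcosξ : cos ξ = x := Real.cos_arccos (by linarith) (by linarith)
  have hcosα : cos α = a := Real.cos_arccos (by linarith) (by linarith)
  have hcosβ : cos β = b := Real.cos_arccos (by linarith) (by linarith)
  have hnξ : (n : ℝ) * ξ ≤ τ / 4 := by
    have h1 := nn_arccos (n := n) (x := x) (K := τ ^ 2 / 80) (by omega) (by linarith)
      (by linarith) hxe
    apply le_of_sq_le_sq _ (by positivity)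
    nlinarith [h1]
  have hnα : (n : ℝ) * α ≤ K1 := by
    have h1 := nn_arccos (n := n) (x := a) (K := K) (by omega) (by linarith)
      (by linarith) hKa
    exact Real.le_sqrt_of_sq_le h1
  have hnαβ : 2 * w0 ≤ (n : ℝ) * (α - β) := by
    have h1 := nn_cos hβ0 (hβξ.trans hξα) hαπ
    rw [hcosα, hcosβ] at h1
    have h2 : (n : ℝ) ^ 2 * (b - a) ≤ (n : ℝ) ^ 2 * (α * (α - β)) :=
      mul_le_mul_of_nonneg_left h1 (by positivity)
    have h3 : (n : ℝ) ^ 2 * (α * (α - β)) ≤ K1 * ((n : ℝ) * (α - β)) := by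
      have h4 : (n : ℝ) * α * ((n : ℝ) * (α - β)) ≤ K1 * ((n : ℝ) * (α - β)) := by
        apply mul_le_mul_of_nonneg_right hnα
        apply mul_nonneg hnpos.le
        linarith
      linarith [h4, (by ring : (n : ℝ) ^ 2 * (α * (α - β)) = (n : ℝ) * α * ((n : ℝ) * (α - β)))]
    have h5 : 2 * w0 * K1 = d := by
      rw [hw0]
      field_simp
    have h6 : K1 * (2 * w0) ≤ K1 * ((n : ℝ) * (α - β)) := by
      linarith
    exact le_of_mul_le_mul_left h6 hK1pos
  obtain ⟨w, hw⟩ : ∃ w : ℝ, w = (n : ℝ) * (α - ξ) := ⟨_, rfl⟩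
  have hnβ : (n : ℝ) * β ≤ τ / 4 := (mul_le_mul_of_nonneg_left hβξ hnpos.le).trans hnξ
  have hnβ0 : 0 ≤ (n : ℝ) * β := by positivity
  have hww0 : w0 ≤ w := by
    rw [hw]
    nlinarith
  have hwα : w ≤ (n : ℝ) * α := by
    rw [hw]
    nlinarith [mul_nonneg hnpos.le hξ0]
  have hwn : ξ + w / n = α := by
    rw [hw]
    field_simp
    ring
  have hw0' : 0 < w := hw0pos.trans_le hww0
  -- the trigonometric polynomial
  have hdeg : P.natDegree ≤ n := natDegree_le_of_degree_le hE.deg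
  have hTB : TB n (qq P) := hA2.2.1 n P hdeg hE.bdd
  have hsinξ : sin ξ ≤ ξ := Real.sin_le hξ0
  have hsinξ0 : 0 ≤ sin ξ := Real.sin_nonneg_of_nonneg_of_le_pi hξ0 (hξα.trans hαπ)
  have hd1 : |deriv (qq P) ξ| ≤ τ / 2 * n := by
    rw [(hA2.2.2 P ξ).1, hcosξ, abs_neg, abs_mul, abs_of_nonneg hsinξ0]
    have h1 : sin ξ * |P.derivative.eval x| ≤ ξ * (τ / 4 * (n : ℝ) ^ 2) :=
      mul_le_mul hsinξ hcon (abs_nonneg _) hξ0
    have h2 : ξ * (τ / 4 * (n : ℝ) ^ 2) = (n * ξ) * (τ / 4 * n) := by ring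
    have h3 : (n * ξ) * (τ / 4 * n) ≤ τ / 4 * (τ / 4 * n) :=
      mul_le_mul_of_nonneg_right hnξ (by positivity)
    have h4 : τ / 4 * (τ / 4 * n) ≤ 1 * (τ / 2 * n) := by
      apply mul_le_mul (by linarith) _ (by positivity) (by norm_num)
      apply mul_le_mul_of_nonneg_right (by linarith) hnpos.le
    linarith
  have hd2 : |deriv (deriv (qq P)) ξ| ≤ τ / 2 * (n : ℝ) ^ 2 := by
    rw [(hA2.2.2 P ξ).2, hcosξ]
    have h1 : |P.derivative.derivative.eval x| ≤ (2 * (n : ℝ) ^ 2) ^ 2 := by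
      have h2 := (hMk n P (by omega) hdeg hE.bdd).1 2 x ⟨by linarith, by linarith⟩
      simpa [Function.iterate_succ] using h2
    have h3 : |sin ξ ^ 2 * P.derivative.derivative.eval x - x * P.derivative.eval x| ≤
        |sin ξ ^ 2 * P.derivative.derivative.eval x| + |x * P.derivative.eval x| := abs_sub _ _
    have h4 : |sin ξ ^ 2 * P.derivative.derivative.eval x| ≤ ξ ^ 2 * (2 * (n : ℝ) ^ 2) ^ 2 := by
      rw [abs_mul, abs_of_nonneg (sq_nonneg _)]
      apply mul_le_mul _ h1 (abs_nonneg _) (sq_nonneg _)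
      exact pow_le_pow_left₀ hsinξ0 hsinξ 2
    have h5 : |x * P.derivative.eval x| ≤ 1 * (τ / 4 * (n : ℝ) ^ 2) := by
      rw [abs_mul]
      apply mul_le_mul _ hcon (abs_nonneg _) (by norm_num)
      rw [abs_le]
      constructor <;> linarith
    have h6 : ξ ^ 2 * (2 * (n : ℝ) ^ 2) ^ 2 = 4 * (n * ξ) ^ 2 * (n : ℝ) ^ 2 := by ring
    have h7 : (n * ξ) ^ 2 ≤ (τ / 4) ^ 2 := pow_le_pow_left₀ (by positivity) hnξ 2
    have h8 : 4 * (n * ξ) ^ 2 ≤ τ / 4 := by nlinarith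
    have h9 : 4 * (n * ξ) ^ 2 * (n : ℝ) ^ 2 ≤ τ / 4 * (n : ℝ) ^ 2 :=
      mul_le_mul_of_nonneg_right h8 (by positivity)
    linarith
  obtain ⟨ψ, hψ⟩ : ∃ ψ : ℝ, ψ = π / 2 + τ := ⟨_, rfl⟩
  have hψ1 : π / 2 ≤ ψ := by linarith
  have hψ2 : ψ < π := by linarith
  have hcosψ : -cos ψ = sin τ := by
    rw [hψ, add_comm, Real.cos_add_pi_div_two, neg_neg]
  have hsinψ : sin ψ = cos τ := by
    rw [hψ, add_comm, Real.sin_add_pi_div_two]
  have hsτ : τ / 2 ≤ sin τ := by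
    have h1 := Real.mul_le_sin (x := τ) hτ0.le (by linarith)
    have h2 : 1 / 2 ≤ 2 / π := by
      rw [le_div_iff₀ hpi]
      linarith
    have h3 := mul_le_mul_of_nonneg_right h2 hτ0.le
    linarith
  have hcτ : 1 / 2 ≤ cos τ := by
    have h1 := Real.one_sub_sq_div_two_le_cos (x := τ)
    nlinarith
  have hB7' : ∀ T : ℝ, 0 ≤ T →
      En (qq P) ξ (ξ + T / n) ≤ T / n + ∫ s in (0 : ℝ)..T, Gm τ ψ s := by
    intro T hT
    refine (hB7 n (qq P) ξ ψ τ T (by omega) hTB hψ1 hψ2 hτ0.le ?_ ?_ hT).1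
    · rw [hcosψ]
      have := mul_le_mul_of_nonneg_right hsτ hnpos.le
      linarith
    · rw [hsinψ]
      have h1 : τ / 2 ≤ τ * cos τ := by nlinarith
      have := mul_le_mul_of_nonneg_right h1 (by positivity : (0 : ℝ) ≤ (n : ℝ) ^ 2)
      linarith
  -- upper bound
  have hup : arc a b P ≤ τ / 2 + En (qq P) ξ α := by
    have h1 := (hC1 P a b (by linarith) hab.le hb.le).2
    have h2 := nn_En_add hA2 P β ξ α
    have h3 := nn_En_short hA2 (by omega) hTB hβξ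
    have h4 : (ξ - β) * (1 + n) ≤ τ / 2 := by
      have h5 : (ξ - β) * (1 + n) ≤ ξ * (2 * n) := by
        apply mul_le_mul (by linarith) (by linarith) (by positivity) hξ0
      linarith
    linarith
  -- lower bound
  have hVC0 : VC 0 = 0 := by
    unfold VC
    simp
  have hlow : VC w - τ / 4 ≤ arc a b P := by
    have h1 := hC2 n a b P (by omega) (by linarith) hab.le hb.le hE
    have h2 := hVF6.2.2.2.2 (n * β) (n * α - n * β)
    have h3 : n * β + (n * α - n * β) = n * α := by ring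
    rw [h3] at h2
    have h4 : VC w ≤ VC (n * α) := hVF6.1 hwα
    have h5 := hVF6.2.2.1 (n * β) 0
    rw [hVC0, sub_zero, sub_zero, abs_of_nonneg hnβ0] at h5
    have h6 := le_abs_self (VC (n * β))
    linarith
  rcases le_or_gt w 1.6 with hw16 | hw16
  · -- short windows
    have h1 := hB7' w hw0'.le
    rw [hwn] at h1
    have h2 := nn_int (μ := τ) hτ0.le hψ1 hw0'.le
    have h3 := nn_num1 hw0'.le hw16 hτ0.le hψ hψ2
    have h4 : 2 / π ^ 2 * w ^ 2 ≤ VC w := by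
      rw [hVF6.2.2.2.1 w hw0'.le (by linarith)]
      have h5 := Real.cos_le_one_sub_mul_cos_sq (x := w)
        (by rw [abs_of_nonneg hw0'.le]; linarith)
      linarith
    have h5 : 0.2 * w ^ 2 ≤ 2 / π ^ 2 * w ^ 2 := by
      exact mul_le_mul_of_nonneg_right nn_num2 (sq_nonneg _)
    have h6 : w / n ≤ 1.6 / n := by
      apply div_le_div_of_nonneg_right hw16 hnpos.le
    have h7 : w0 ^ 2 ≤ w ^ 2 := pow_le_pow_left₀ hw0pos.le hww0 2
    linarith
  · -- long windows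
    have h1 := hB7' 1.6 (by norm_num)
    have h2 := (hN1 τ ψ hτ0.le hτ1 hψ1 (by linarith)).1
    have h3 := nn_En_add hA2 P ξ (ξ + 1.6 / n) α
    have h4 : ξ + 1.6 / n ≤ α := by
      rw [← hwn]
      have := div_le_div_of_nonneg_right hw16.le hnpos.le
      linarith
    have h40 : 0 ≤ 1.6 / (n : ℝ) := by positivity
    have h5 := (hB3 n (qq P) (ξ + 1.6 / n) α hn4 hTB h4 (by linarith)).1
    have h6 : (n : ℝ) * (α - (ξ + 1.6 / n)) = w - 1.6 := by
      rw [← hwn]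
      field_simp
      ring
    rw [h6] at h5
    have h7 := (hVF2 w hw0'.le).2
    have h8 := hVF1.2
    have h9 := nn_num3
    have h10 : 2 / π * (w - 1.6) = 2 / π * w - 2 / π * 1.6 := by ring
    linarith

end

end Pool.Agent.Helper10.AL
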