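import Pool.Agent.Helper10.AL.St9

/-!
# Np1: enumeration of the critical points
-/

set_option autoImplicit false

namespace Pool.Agent.Helper10.AL

open Polynomial Set Real

theorem np1_card {n : ℕ} {P : ℝ[X]} (hn : 1 ≤ n) (hdeg : P.natDegree = n)
    (hreal : ∀ z : ℂ, aeval z P.derivative = 0 → z.im = 0)
    (hsim : ∀ x : ℝ, P.derivative.eval x = 0 → P.derivative.derivative.eval x ≠ 0) :
    P.derivative ≠ 0 ∧ P.derivative.roots.toFinset.card = n - 1 := by
  classical
  have hD : P.derivative ≠ 0 := by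
    intro h
    have h1 := derivative_eq_zero.1 h
    omega
  refine ⟨hD, le_antisymm ?_ ?_⟩
  · refine (Multiset.toFinset_card_le _).trans ((card_roots' _).trans ?_)
    rw [← hdeg]
    exact natDegree_derivative_le P
  · have hM : P.derivative.map (algebraMap ℝ ℂ) ≠ 0 := by
      rw [Ne, Polynomial.map_eq_zero]
      exact hD
    have hnd : (P.derivative.aroots ℂ).Nodup := by
      rw [Multiset.nodup_iff_count_le_one]
      intro z
      rw [aroots_def, count_roots]
      by_contra hcon
      rw [not_le, one_lt_rootMultiplicity_iff_isRoot hM] at hcon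
      obtain ⟨h1, h2⟩ := hcon
      have h3 : aeval z P.derivative = 0 := by
        rw [IsRoot.def, eval_map_algebraMap] at h1
        exact h1
      have him := hreal z h3
      have h4 := Pool.Agent.Helper40.AS.aeval_real him h3
      have h5 : aeval z P.derivative.derivative = 0 := by
        rw [IsRoot.def, derivative_map, eval_map_algebraMap] at h2
        exact h2
      exact hsim _ h4 (Pool.Agent.Helper40.AS.aeval_real him h5)
    have hc : (P.derivative.aroots ℂ).toFinset.card = n - 1 := by
      rw [Multiset.toFinset_card_of_nodup hnd, Pool.Agent.Helper40.AS.card_crit, hdeg]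
    rw [← hc]
    refine Finset.card_le_card_of_injOn (fun z => z.re) ?_ ?_
    · intro z hz
      rw [Finset.mem_coe, Multiset.mem_toFinset] at hz
      have h3 := (mem_aroots.1 hz).2
      rw [Finset.mem_coe, Multiset.mem_toFinset, mem_roots hD, IsRoot.def]
      exact Pool.Agent.Helper40.AS.aeval_real (hreal z h3) h3
    · intro z hz w hw h
      rw [Finset.mem_coe, Multiset.mem_toFinset] at hz hw
      have h3 := hreal z (mem_aroots.1 hz).2
      have h4 := hreal w (mem_aroots.1 hw).2
      exact Complex.ext h (by rw [h3, h4])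

theorem np1 (hA2 : A2) : Np1 := by
  classical
  intro n P hn hdeg hreal hout hsim
  obtain ⟨hD, hcard⟩ := np1_card hn hdeg hreal hsim
  obtain ⟨-, -, hder⟩ := hA2
  set T : Finset ℝ := P.derivative.roots.toFinset.image arccos with hT
  have hin : ∀ x ∈ P.derivative.roots.toFinset, -1 < x ∧ x < 1 ∧ P.derivative.eval x = 0 := by
    intro x hx
    rw [Multiset.mem_toFinset, mem_roots hD, IsRoot.def] at hx
    have h1 : ¬ 1 ≤ |x| := fun h => hout x h hx
    rw [not_le, abs_lt] at h1
    exact ⟨h1.1, h1.2, hx⟩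
  have hTc : T.card = n - 1 := by
    rw [hT, Finset.card_image_of_injOn, hcard]
    intro x hx y hy h
    have h1 := hin x hx
    have h2 := hin y hy
    exact arccos_injOn ⟨h1.1.le, h1.2.1.le⟩ ⟨h2.1.le, h2.2.1.le⟩ h
  have hTm : ∀ t ∈ T, 0 < t ∧ t < π ∧ P.derivative.eval (cos t) = 0 := by
    intro t ht
    obtain ⟨x, hx, rfl⟩ := Finset.mem_image.1 ht
    obtain ⟨h1, h2, h3⟩ := hin x hx
    rw [cos_arccos h1.le h2.le]
    refine ⟨arccos_pos.2 h2, ?_, h3⟩
    rw [← arccos_neg_one]
    exact strictAntiOn_arccos ⟨le_refl _, by norm_num⟩ ⟨h1.le, h2.le⟩ h1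
  let s : ℕ → ℝ := fun i => if i = 0 then 0 else
    if h : i - 1 < n - 1 then T.orderEmbOfFin hTc ⟨i - 1, h⟩ else π
  have hs0 : s 0 = 0 := by simp [s]
  have hsn : s n = π := by
    have h1 : n ≠ 0 := by omega
    simp [s, h1]
  have hsi : ∀ i (h : i - 1 < n - 1), 1 ≤ i → s i = T.orderEmbOfFin hTc ⟨i - 1, h⟩ := by
    intro i h hi
    have h1 : i ≠ 0 := by omega
    simp only [s, if_neg h1, dif_pos h]
  have hsm : ∀ i, 1 ≤ i → i < n → s i ∈ T := by
    intro i h1 h2
    rw [hsi i (by omega) h1]
    exact Finset.orderEmbOfFin_mem T hTc _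
  have hmono : ∀ i < n, s i < s (i + 1) := by
    intro i hi
    rcases Nat.eq_zero_or_pos i with h0 | h0
    · rw [h0, hs0]
      by_cases h1 : 1 < n
      · exact (hTm _ (hsm (0 + 1) le_rfl h1)).1
      · have h2 : 0 + 1 = n := by omega
        rw [h2, hsn]
        exact pi_pos
    · by_cases h1 : i + 1 < n
      · rw [hsi i (by omega) h0, hsi (i + 1) (by omega) (by omega)]
        apply (T.orderEmbOfFin hTc).strictMono
        rw [Fin.mk_lt_mk]
        omega
      · have h2 : i + 1 = n := by omega
        rw [h2, hsn]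
        exact (hTm _ (hsm i h0 hi)).2.1
  have hlt : ∀ j ≤ n, ∀ i < j, s i < s j := by
    intro j
    induction j with
    | zero => intro _ i hi; omega
    | succ j ih =>
      intro hj i hi
      rcases Nat.lt_succ_iff_lt_or_eq.1 hi with h | h
      · exact (ih (by omega) i h).trans (hmono j (by omega))
      · rw [h]
        exact hmono j (by omega)
  refine ⟨s, hs0, hsn, hmono, fun i h1 h2 => (hTm _ (hsm i h1 h2)).2.2, ?_⟩
  intro i hi θ hθ
  have hs0' : 0 ≤ s i := by
    rcases Nat.eq_zero_or_pos i with h0 | h0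
    · rw [h0, hs0]
    · rw [← hs0]
      exact (hlt i hi.le 0 h0).le
  have hsn' : s (i + 1) ≤ π := by
    rcases Nat.lt_or_ge (i + 1) n with h0 | h0
    · rw [← hsn]
      exact (hlt n le_rfl (i + 1) h0).le
    · have h1 : i + 1 = n := by omega
      rw [h1, hsn]
  have hpos : 0 < θ := lt_of_le_of_lt hs0' hθ.1
  have hpi : θ < π := lt_of_lt_of_le hθ.2 hsn'
  rw [(hder P θ).1]
  intro h
  rw [neg_eq_zero, mul_eq_zero] at h
  rcases h with h | h
  · exact absurd h (sin_pos_of_pos_of_lt_pi hpos hpi).ne'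
  · have h1 : θ ∈ T := by
      rw [hT, Finset.mem_image]
      refine ⟨cos θ, ?_, arccos_cos hpos.le hpi.le⟩
      rw [Multiset.mem_toFinset, mem_roots hD, IsRoot.def]
      exact h
    have h2 : θ ∈ Set.range (T.orderEmbOfFin hTc) := by
      rw [Finset.range_orderEmbOfFin]
      exact h1
    obtain ⟨j, hj⟩ := h2
    have hj2 := j.2
    have h3 : s (j.1 + 1) = θ := by
      rw [hsi (j.1 + 1) (by omega) (by omega), ← hj]
      congr 1
    rcases Nat.lt_or_ge i (j.1 + 1) with h4 | h4
    · rcases Nat.lt_or_ge (i + 1) (j.1 + 1) with h5 | h5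
      · have h6 := hlt (j.1 + 1) (by omega) (i + 1) h5
        rw [h3] at h6
        exact absurd hθ.2 (not_lt.2 h6.le)
      · have h6 : j.1 + 1 = i + 1 := by omega
        rw [h6] at h3
        exact absurd hθ.2 (not_lt.2 h3.le)
    · have h5 : s (j.1 + 1) ≤ s i := by
        rcases Nat.lt_or_ge (j.1 + 1) i with h6 | h6
        · exact (hlt i hi.le _ h6).le
        · have h7 : j.1 + 1 = i := by omega
          rw [h7]
      rw [h3] at h5
      exact absurd hθ.1 (not_lt.2 h5)

end Pool.Agent.Helper10.AL
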