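import Pool.Agent.Helper10.AL.St9

/-!
Polynomials with one bad contact point are close to the Chebyshev polynomial.
-/

set_option autoImplicit false

namespace Pool.Agent.Helper10.AL

open Polynomial Set Real MeasureTheory intervalIntegral
open Pool.Agent.Helper40.AS (arc Bdd Ext quad)

theorem np2_slope_right {g : ℝ → ℝ} {u v d : ℝ} (huv : u < v) (h : HasDerivAt g d u)
    (h0 : g u = 0) (hpos : ∀ θ ∈ Ioo u v, 0 < g θ) : 0 ≤ d := by
  have h1 : Filter.Tendsto (slope g u) (nhdsWithin u (Ioi u)) (nhds d) :=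
    (hasDerivAt_iff_tendsto_slope.1 h).mono_left (nhdsWithin_mono _ fun x hx => ne_of_gt hx)
  refine ge_of_tendsto h1 ?_
  filter_upwards [Ioo_mem_nhdsGT huv] with θ hθ
  rw [slope_def_field, h0, sub_zero]
  exact div_nonneg (hpos θ hθ).le (sub_pos.2 hθ.1).le

theorem np2_slope_left {g : ℝ → ℝ} {u v d : ℝ} (huv : u < v) (h : HasDerivAt g d v)
    (h0 : g v = 0) (hpos : ∀ θ ∈ Ioo u v, 0 < g θ) : d ≤ 0 := by
  have h1 : Filter.Tendsto (slope g v) (nhdsWithin v (Iio v)) (nhds d) :=
    (hasDerivAt_iff_tendsto_slope.1 h).mono_left (nhdsWithin_mono _ fun x hx => ne_of_lt hx)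
  refine le_of_tendsto h1 ?_
  filter_upwards [Ioo_mem_nhdsLT huv] with θ hθ
  rw [slope_def_field, h0, sub_zero]
  exact div_nonpos_of_nonneg_of_nonpos (hpos θ hθ).le (sub_neg.2 hθ.2).le

/-- the values at the ends of an increasing stretch -/
theorem np2_ends {f : ℝ → ℝ} {u v : ℝ} (huv : u < v) (hb : ∀ θ, |f θ| ≤ 1)
    (hd : Differentiable ℝ f) (hd2 : Differentiable ℝ (deriv f))
    (hpos : ∀ θ ∈ Ioo u v, 0 < deriv f θ)
    (hu : |f u| = 1 ∨ (deriv f u = 0 ∧ f u * deriv (deriv f) u < 0))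
    (hv : |f v| = 1 ∨ (deriv f v = 0 ∧ f v * deriv (deriv f) v < 0)) :
    f u < 0 ∧ 0 < f v := by
  have hmono : StrictMonoOn f (Icc u v) := by
    refine strictMonoOn_of_deriv_pos (convex_Icc u v) hd.continuous.continuousOn ?_
    rw [interior_Icc]
    exact hpos
  have hlt : f u < f v := hmono (left_mem_Icc.2 huv.le) (right_mem_Icc.2 huv.le) huv
  have hbu := abs_le.1 (hb u)
  have hbv := abs_le.1 (hb v)
  constructor
  · rcases hu with h | ⟨h, h'⟩
    · rcases abs_eq (by norm_num : (0 : ℝ) ≤ 1) |>.1 h with h1 | h1 <;> linarith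
    · have h2 := np2_slope_right huv (hd2 u).hasDerivAt h hpos
      by_contra h3
      push Not at h3
      have := mul_nonneg h3 h2
      linarith
  · rcases hv with h | ⟨h, h'⟩
    · rcases abs_eq (by norm_num : (0 : ℝ) ≤ 1) |>.1 h with h1 | h1 <;> linarith
    · have h2 := np2_slope_left huv (hd2 v).hasDerivAt h hpos
      by_contra h3
      push Not at h3
      have := mul_nonneg_of_nonpos_of_nonpos h3 h2
      linarith

theorem np2_alt {f : ℝ → ℝ} {u v : ℝ} (huv : u < v) (hb : ∀ θ, |f θ| ≤ 1)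
    (hd : Differentiable ℝ f) (hd2 : Differentiable ℝ (deriv f))
    (hne : ∀ θ ∈ Ioo u v, deriv f θ ≠ 0)
    (hu : |f u| = 1 ∨ (deriv f u = 0 ∧ f u * deriv (deriv f) u < 0))
    (hv : |f v| = 1 ∨ (deriv f v = 0 ∧ f v * deriv (deriv f) v < 0)) :
    f u * f v < 0 := by
  have hc : ContinuousOn (deriv f) (Ioo u v) := hd2.continuous.continuousOn
  have hsign : (∀ θ ∈ Ioo u v, 0 < deriv f θ) ∨ (∀ θ ∈ Ioo u v, deriv f θ < 0) := by
    by_contra hcon
    push Not at hcon
    obtain ⟨⟨x, hx, hx1⟩, ⟨y, hy, hy1⟩⟩ := hcon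
    have hconn : IsPreconnected (Ioo u v) := isPreconnected_Ioo
    obtain ⟨z, hz, hz0⟩ := hconn.intermediate_value hx hy hc ⟨hx1, hy1⟩
    exact hne z hz hz0
  rcases hsign with h | h
  · obtain ⟨h1, h2⟩ := np2_ends huv hb hd hd2 h hu hv
    exact mul_neg_of_neg_of_pos h1 h2
  · have hdn : deriv (fun θ => -f θ) = fun θ => -deriv f θ := by
      funext θ
      exact deriv.neg
    have hdn2 : deriv (deriv (fun θ => -f θ)) = fun θ => -deriv (deriv f) θ := by
      rw [hdn]
      funext θ
      exact deriv.neg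
    have key := np2_ends (f := fun θ => -f θ) huv (fun θ => by rw [abs_neg]; exact hb θ)
      hd.neg (by rw [hdn]; exact hd2.neg) (fun θ hθ => by rw [hdn]; exact neg_pos.2 (h θ hθ))
      (by
        rcases hu with h1 | ⟨h1, h2⟩
        · left; rw [abs_neg]; exact h1
        · right; rw [hdn2, hdn]; refine ⟨by simp [h1], by simpa using h2⟩)
      (by
        rcases hv with h1 | ⟨h1, h2⟩
        · left; rw [abs_neg]; exact h1
        · right; rw [hdn2, hdn]; refine ⟨by simp [h1], by simpa using h2⟩)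
    obtain ⟨h1, h2⟩ := key
    have h1' : 0 < f u := by simpa using h1
    have h2' : f v < 0 := by simpa using h2
    exact mul_neg_of_pos_of_neg h1' h2'

theorem np2_arccos {y ε : ℝ} (h0 : 0 ≤ ε) (h1 : ε ≤ 1 / 2) (hy : 1 - ε ^ 2 ≤ y) :
    arccos y ≤ 2 * ε := by
  have hc : cos (2 * ε) ≤ 1 - ε ^ 2 := by
    have h2 : |2 * ε| ≤ 1 := by rw [abs_of_nonneg (by linarith)]; linarith
    have h3 := Real.cos_bound h2
    rw [abs_of_nonneg (by linarith : (0 : ℝ) ≤ 2 * ε)] at h3
    have h4 := (abs_le.1 h3).2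
    have h5 : ε ^ 4 ≤ ε ^ 2 * (1 / 4) := by
      have : ε ^ 2 ≤ 1 / 4 := by nlinarith
      nlinarith [sq_nonneg ε]
    nlinarith [sq_nonneg ε]
  have h6 : arccos y ≤ arccos (cos (2 * ε)) := arccos_le_arccos (hc.trans hy)
  rwa [arccos_cos (by linarith) (by linarith [pi_gt_three])] at h6

theorem np2 (hA1 : A1) (hA2 : A2) (hB1 : B1) : Np2 := by
  refine ⟨6, by norm_num, ?_⟩
  intro n P s t ε hn hdeg hP hP1 hPm s0 sn smono scrit sne hε0 hε1 hx
  set f : ℝ → ℝ := qq P with hf
  have hTB : TB n f := hA2.2.1 n P hdeg hP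
  have hsm := (hA1.1 n f hTB.1).1
  have hd : Differentiable ℝ f := (hsm 2).differentiable (by norm_num)
  have hd2 : Differentiable ℝ (deriv f) := by
    have h1 := (hA1.1 n (deriv f) (hA1.1 n f hTB.1).2.1).1 1
    exact h1.differentiable (by norm_num)
  have hder := hA2.2.2 P
  have hf0 : |f 0| = 1 := by simp only [hf, qq, cos_zero]; exact hP1
  have hfp : |f π| = 1 := by simp only [hf, qq, cos_pi]; exact hPm
  -- strict monotonicity of `s`
  have hlt : ∀ i j, i < j → j ≤ n → s i < s j := by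
    intro i j hij hj
    induction j, hij using Nat.le_induction with
    | base => exact smono i (by omega)
    | succ k hk ih => exact (ih (by omega)).trans (smono k (by omega))
  have hle : ∀ i j, i ≤ j → j ≤ n → s i ≤ s j := by
    intro i j hij hj
    rcases hij.eq_or_lt with h | h
    · rw [h]
    · exact (hlt i j h hj).le
  have hmem : ∀ i ≤ n, s i ∈ Icc (0 : ℝ) π := fun i hi =>
    ⟨by rw [← s0]; exact hle 0 i (Nat.zero_le _) hi, by rw [← sn]; exact hle i n hi le_rfl⟩
  have hcos : ∀ i, 1 ≤ i → i < n → cos (s i) ∈ Ioo (-1 : ℝ) 1 := by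
    intro i h1 h2
    have h3 : 0 < s i := by rw [← s0]; exact hlt 0 i (by omega) h2.le
    have h4 : s i < π := by rw [← sn]; exact hlt i n h2 le_rfl
    constructor
    · rw [← cos_pi]
      exact cos_lt_cos_of_nonneg_of_le_pi h3.le le_rfl h4
    · rw [← cos_zero]
      exact cos_lt_cos_of_nonneg_of_le_pi le_rfl h4.le h3
  -- behaviour at the points
  have hpt : ∀ i ≤ n, |f (s i)| = 1 ∨ (deriv f (s i) = 0 ∧ f (s i) * deriv (deriv f) (s i) < 0) := by
    intro i hi
    rcases Nat.eq_zero_or_pos i with h | h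
    · left; rw [h, s0]; exact hf0
    rcases hi.eq_or_lt with h' | h'
    · left; rw [h', sn]; exact hfp
    right
    have h1 := scrit i h h'
    have h2 := hx _ (hcos i h h') h1
    have h3 := hder (s i)
    have h4 : 0 < sin (s i) := by
      have h3 : 0 < s i := by rw [← s0]; exact hlt 0 i (by omega) h'.le
      have h4 : s i < π := by rw [← sn]; exact hlt i n h' le_rfl
      exact sin_pos_of_pos_of_lt_pi h3 h4
    refine ⟨by rw [h3.1, h1]; simp, ?_⟩
    rw [h3.2, h1]
    have h5 : f (s i) = P.eval (cos (s i)) := rfl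
    rw [h5]
    have h6 : 0 < sin (s i) ^ 2 := by positivity
    have h7 := mul_neg_of_pos_of_neg h6 h2.2.1
    calc P.eval (cos (s i)) * (sin (s i) ^ 2 * P.derivative.derivative.eval (cos (s i)) -
          cos (s i) * 0) = sin (s i) ^ 2 * (P.eval (cos (s i)) *
            P.derivative.derivative.eval (cos (s i))) := by ring
      _ < 0 := h7
  have hval : ∀ i ≤ n, 1 - ε ^ 2 ≤ |f (s i)| ∧ (cos (s i) ≠ t → |f (s i)| = 1) := by
    intro i hi
    rcases Nat.eq_zero_or_pos i with h | h
    · rw [h, s0, hf0]; exact ⟨by nlinarith [sq_nonneg ε], fun _ => rfl⟩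
    rcases hi.eq_or_lt with h' | h'
    · rw [h', sn, hfp]; exact ⟨by nlinarith [sq_nonneg ε], fun _ => rfl⟩
    have h2 := hx _ (hcos i h h') (scrit i h h')
    exact ⟨h2.1, h2.2.2⟩
  have halt : ∀ i < n, f (s i) * f (s (i + 1)) < 0 := fun i hi =>
    np2_alt (smono i hi) hTB.2 hd hd2 (sne i hi) (hpt i hi.le) (hpt (i + 1) hi)
  -- the sign
  obtain ⟨σ, hσ, hσ0⟩ : ∃ σ : ℝ, (σ = 1 ∨ σ = -1) ∧ σ * f (s 0) = |f (s 0)| := by
    rcases le_total 0 (f (s 0)) with h | h
    · exact ⟨1, Or.inl rfl, by rw [abs_of_nonneg h, one_mul]⟩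
    · exact ⟨-1, Or.inr rfl, by rw [abs_of_nonpos h]; ring⟩
  have hσ2 : σ * σ = 1 := by rcases hσ with h | h <;> rw [h] <;> norm_num
  have hsg : ∀ i ≤ n, σ * (-1) ^ i * f (s i) = |f (s i)| := by
    intro i
    induction i with
    | zero => intro _; rw [pow_zero, mul_one]; exact hσ0
    | succ i ih =>
      intro hi
      have h1 := ih (by omega)
      have h2 := halt i (by omega)
      have h3 : (σ * (-1) ^ i) * (σ * (-1) ^ i) = 1 := by
        have : ((-1 : ℝ) ^ i) * (-1) ^ i = 1 := by rw [← mul_pow]; norm_num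
        calc (σ * (-1) ^ i) * (σ * (-1) ^ i) = (σ * σ) * (((-1 : ℝ) ^ i) * (-1) ^ i) := by ring
          _ = 1 := by rw [hσ2, this, one_mul]
      set c := σ * (-1) ^ i with hc
      have h4 : σ * (-1) ^ (i + 1) = -c := by rw [pow_succ]; ring
      rw [h4]
      have h5 : 0 ≤ c * f (s i) := by rw [h1]; exact abs_nonneg _
      have h6 : (c * f (s i)) * (c * f (s (i + 1))) < 0 := by
        calc (c * f (s i)) * (c * f (s (i + 1))) = (c * c) * (f (s i) * f (s (i + 1))) := by ring
          _ < 0 := by rw [h3, one_mul]; exact h2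
      have h7 : c * f (s (i + 1)) ≤ 0 := by
        by_contra h8
        push Not at h8
        have := mul_nonneg h5 h8.le
        linarith
      have h8 : |c| = 1 := by
        have : |c| * |c| = 1 := by rw [abs_mul_abs_self]; exact h3
        nlinarith [abs_nonneg c]
      calc -c * f (s (i + 1)) = -(c * f (s (i + 1))) := by ring
        _ = |c * f (s (i + 1))| := (abs_of_nonpos h7).symm
        _ = |f (s (i + 1))| := by rw [abs_mul, h8, one_mul]
  -- angles
  set A : ℕ → ℝ := fun i => arccos |f (s i)| with hA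
  have hA0 : ∀ i, 0 ≤ A i := fun i => arccos_nonneg _
  have hA2' : ∀ i ≤ n, A i ≤ 2 * ε := fun i hi => np2_arccos hε0 hε1 (hval i hi).1
  have hAz : ∀ i ≤ n, cos (s i) ≠ t → A i = 0 := by
    intro i hi h
    simp only [hA]
    rw [(hval i hi).2 h, arccos_one]
  have hAsum : ∑ i ∈ Finset.range (n + 1), A i ≤ 2 * ε := by
    by_cases h : ∃ j ≤ n, cos (s j) = t
    · obtain ⟨j, hj, hjt⟩ := h
      rw [Finset.sum_eq_single j]
      · exact hA2' j hj
      · intro i hi hij
        have hi' : i ≤ n := by rw [Finset.mem_range] at hi; omega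
        refine hAz i hi' ?_
        rw [← hjt]
        intro h1
        have h2 := injOn_cos (hmem i hi') (hmem j hj) h1
        rcases lt_or_gt_of_ne hij with h3 | h3
        · exact absurd h2 (hlt i j h3 hj).ne
        · exact absurd h2 (hlt j i h3 hi').ne'
      · intro h1
        exact absurd (Finset.mem_range.2 (by omega)) h1
    · push Not at h
      rw [Finset.sum_eq_zero fun i hi => hAz i (by rw [Finset.mem_range] at hi; omega)
        (h i (by rw [Finset.mem_range] at hi; omega))]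
      linarith
  have hdist : ∀ (c y z : ℝ), (c = 1 ∨ c = -1) →
      |arccos (c * y) - arccos (c * z)| = |arccos y - arccos z| := by
    intro c y z hc
    rcases hc with h | h
    · rw [h, one_mul, one_mul]
    · rw [h, neg_one_mul, neg_one_mul, arccos_neg, arccos_neg, abs_sub_comm]
      congr 1
      ring
  have hcc : ∀ i : ℕ, σ * (-1) ^ i = 1 ∨ σ * (-1) ^ i = -1 := by
    intro i
    rcases hσ with h | h <;> rcases neg_one_pow_eq_or ℝ i with h' | h' <;> rw [h, h'] <;> norm_num
  have hAi : ∀ i ≤ n, arccos (σ * (-1) ^ i * f (s i)) = A i := by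
    intro i hi
    rw [hsg i hi]
  have hAi' : ∀ i < n, arccos (σ * (-1) ^ i * f (s (i + 1))) = π - A (i + 1) := by
    intro i hi
    have h1 := hsg (i + 1) hi
    have h2 : σ * (-1) ^ i * f (s (i + 1)) = -|f (s (i + 1))| := by
      rw [← h1, pow_succ]; ring
    rw [h2, arccos_neg]
  have hB := hB1 n f
  have hstep : ∀ i < n, π - A i - A (i + 1) ≤ n * (s (i + 1) - s i) := by
    intro i hi
    have h1 := (hB (s i) (s (i + 1)) hn hTB (smono i hi).le (sne i hi)).1
    rw [← hdist _ _ _ (hcc i), hAi i hi.le, hAi' i hi] at h1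
    have := (abs_le.1 h1).2
    linarith
  have hsum : ∀ i j, i ≤ j → j ≤ n →
      (j - i : ℝ) * π - ∑ k ∈ Finset.Ico i j, (A k + A (k + 1)) ≤ n * (s j - s i) := by
    intro i j hij hj
    induction j, hij using Nat.le_induction with
    | base => simp
    | succ k hk ih =>
      rw [Finset.sum_Ico_succ_top hk]
      have h1 := ih (by omega)
      have h2 := hstep k (by omega)
      push_cast
      nlinarith
  have hsumA : ∀ i j, i ≤ j → j ≤ n → ∑ k ∈ Finset.Ico i j, (A k + A (k + 1)) ≤ 4 * ε := by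
    intro i j hij hj
    rw [Finset.sum_add_distrib]
    have h1 : ∑ k ∈ Finset.Ico i j, A k ≤ ∑ i ∈ Finset.range (n + 1), A i := by
      refine Finset.sum_le_sum_of_subset_of_nonneg ?_ fun _ _ _ => hA0 _
      intro k hk
      rw [Finset.mem_Ico] at hk
      rw [Finset.mem_range]
      omega
    have h2 : ∑ k ∈ Finset.Ico i j, A (k + 1) ≤ ∑ i ∈ Finset.range (n + 1), A i := by
      rw [Finset.sum_Ico_add' A i j 1]
      refine Finset.sum_le_sum_of_subset_of_nonneg ?_ fun _ _ _ => hA0 _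
      intro k hk
      rw [Finset.mem_Ico] at hk
      rw [Finset.mem_range]
      omega
    linarith
  -- points of the interval
  have hmain : ∀ θ ∈ Icc (0 : ℝ) π, |f θ - σ * cos (n * θ)| ≤ 6 * ε := by
    intro θ hθ
    obtain ⟨k, hk, hk1, hk2⟩ : ∃ k < n, s k ≤ θ ∧ θ ≤ s (k + 1) := by
      have hex : ∃ m, θ ≤ s (m + 1) := ⟨n - 1, by rw [Nat.sub_add_cancel hn, sn]; exact hθ.2⟩
      classical
      refine ⟨Nat.find hex, ?_, ?_, Nat.find_spec hex⟩
      · have : Nat.find hex ≤ n - 1 :=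
          Nat.find_min' hex (by rw [Nat.sub_add_cancel hn, sn]; exact hθ.2)
        omega
      · rcases Nat.eq_zero_or_pos (Nat.find hex) with h | h
        · rw [h, s0]; exact hθ.1
        · have h1 := Nat.find_min hex (m := Nat.find hex - 1) (by omega)
          rw [Nat.sub_add_cancel h] at h1
          exact (not_le.1 h1).le
    set c := σ * (-1) ^ k with hc
    set B := arccos (c * f θ) with hBdef
    have hc1 : |c| = 1 := by rcases hcc k with h | h <;> rw [hc, h] <;> norm_num
    have h1 : |B - A k| ≤ n * (θ - s k) := by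
      have h := (hB (s k) θ hn hTB hk1 fun x hx' => sne k hk x ⟨hx'.1, hx'.2.trans_le hk2⟩).1
      rw [← hdist _ _ _ (hcc k), hAi k hk.le] at h
      exact h
    have h2 : |(π - A (k + 1)) - B| ≤ n * (s (k + 1) - θ) := by
      have h := (hB θ (s (k + 1)) hn hTB hk2 fun x hx' => sne k hk x ⟨hk1.trans_lt hx'.1, hx'.2⟩).1
      rw [← hdist _ _ _ (hcc k), hAi' k hk] at h
      exact h
    have h3 := hsum 0 k (Nat.zero_le _) hk.le
    have h4 := hsumA 0 k (Nat.zero_le _) hk.le
    have h5 := hsum (k + 1) n hk le_rfl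
    have h6 := hsumA (k + 1) n hk le_rfl
    rw [s0] at h3
    rw [sn] at h5
    push_cast at h3 h5
    have h7 := hA2' k hk.le
    have h8 := hA2' (k + 1) hk
    have h9 : |B - (n * θ - k * π)| ≤ 6 * ε := by
      have h1' := (abs_le.1 h1).2
      have h2' := (abs_le.1 h2).2
      rw [abs_le]
      constructor
      · nlinarith
      · nlinarith
    have hcB : cos B = c * f θ := by
      have h10 : |c * f θ| ≤ 1 := by rw [abs_mul, hc1, one_mul]; exact hTB.2 θ
      exact cos_arccos (abs_le.1 h10).1 (abs_le.1 h10).2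
    have h11 : cos (n * θ - k * π) = (-1) ^ k * cos (n * θ) := cos_sub_nat_mul_pi _ _
    have h12 : |cos B - cos (n * θ - k * π)| ≤ |B - (n * θ - k * π)| := by
      have := Real.abs_cos_sub_cos_le B (n * θ - k * π)
      exact this
    rw [hcB, h11] at h12
    have h13 : |f θ - σ * cos (n * θ)| = |c * f θ - (-1) ^ k * cos (n * θ)| := by
      have h14 : c * c = 1 := by rw [← abs_mul_abs_self, hc1, one_mul]
      have h15 : (-1 : ℝ) ^ k = c * σ := by
        rw [hc]
        calc (-1 : ℝ) ^ k = (σ * σ) * (-1) ^ k := by rw [hσ2, one_mul]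
          _ = σ * (-1) ^ k * σ := by ring
      rw [h15]
      have h16 : c * f θ - c * σ * cos (n * θ) = c * (f θ - σ * cos (n * θ)) := by ring
      rw [h16, abs_mul, hc1, one_mul]
    rw [h13]
    exact h12.trans h9
  refine ⟨σ, hσ, fun θ => ?_⟩
  have hφ : arccos (cos θ) ∈ Icc (0 : ℝ) π := ⟨arccos_nonneg _, arccos_le_pi _⟩
  have h1 := hmain _ hφ
  have hcφ : cos (arccos (cos θ)) = cos θ := cos_arccos (neg_one_le_cos _) (cos_le_one _)
  have h2 : f (arccos (cos θ)) = f θ := by simp only [hf, qq, hcφ]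
  have h3 : cos (n * arccos (cos θ)) = cos (n * θ) := by
    have e1 := Polynomial.Chebyshev.T_real_cos (arccos (cos θ)) (n : ℤ)
    have e2 := Polynomial.Chebyshev.T_real_cos θ (n : ℤ)
    rw [hcφ, e2] at e1
    exact_mod_cast e1.symm
  rw [h2, h3] at h1
  exact h1

end Pool.Agent.Helper10.AL
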