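import Pool.Agent.Helper10.AL.St9

set_option autoImplicit false

namespace Pool.Agent.Helper10.AL

open Polynomial Set Real MeasureTheory intervalIntegral
open Pool.Agent.Helper40.AS (arc Bdd Ext quad)

noncomputable section

theorem pe_mvt (Q : ℝ[X]) {M t x : ℝ} (h : ∀ y ∈ uIcc t x, |Q.derivative.eval y| ≤ M) :
    |Q.eval x - Q.eval t| ≤ M * |x - t| := by
  have := (convex_uIcc t x).norm_image_sub_le_of_norm_hasDerivWithin_le
    (f := fun y => Q.eval y) (f' := fun y => Q.derivative.eval y) (C := M)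
    (fun y _ => (Q.hasDerivAt y).hasDerivWithinAt)
    (fun y hy => by simpa [Real.norm_eq_abs] using h y hy) left_mem_uIcc right_mem_uIcc
  simpa [Real.norm_eq_abs] using this

/-- Bernstein-Szegő on the interval -/
theorem pe_bs (hA2 : A2) {n : ℕ} {P : ℝ[X]} (hn : 1 ≤ n) (hd : P.natDegree ≤ n) (hb : Bdd P)
    {x : ℝ} (hx : x ∈ Icc (-1 : ℝ) 1) :
    (1 - x ^ 2) * P.derivative.eval x ^ 2 + (n : ℝ) ^ 2 * P.eval x ^ 2 ≤ (n : ℝ) ^ 2 := by
  have h1 := ((hA2.1 n (qq P) hn (hA2.2.1 n P hd hb)).2 (arccos x)).1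
  rw [(hA2.2.2 P (arccos x)).1] at h1
  have h2 : cos (arccos x) = x := cos_arccos hx.1 hx.2
  have h3 : sin (arccos x) ^ 2 = 1 - x ^ 2 := by
    have := sin_sq_add_cos_sq (arccos x)
    rw [h2] at this
    linarith
  have h4 : qq P (arccos x) = P.eval x := by
    unfold qq
    rw [h2]
  rw [h4, h2] at h1
  calc (1 - x ^ 2) * P.derivative.eval x ^ 2 + (n : ℝ) ^ 2 * P.eval x ^ 2
      = (-(sin (arccos x) * P.derivative.eval x)) ^ 2 + (n : ℝ) ^ 2 * P.eval x ^ 2 := by
        rw [← h3]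
        ring
    _ ≤ _ := h1

/-- the main estimates, one sign -/
theorem pe_core {K c e : ℝ} (hK : 0 < K) (hc : 0 < c) (he : 0 < e) :
    ∃ M ε0 c' : ℝ, 0 < M ∧ 0 < ε0 ∧ 0 < c' ∧ ∀ (N : ℝ) (P R : ℝ[X]) (t ε : ℝ), 1 ≤ N →
      (∀ x ∈ Icc (-1 : ℝ) 1, |R.eval x| ≤ 4 * N ^ 2) →
      (∀ x ∈ Icc (-1 : ℝ) 1, |R.derivative.eval x| ≤ 4 * N ^ 3) →
      (∀ x ∈ Icc (-1 : ℝ) 1, |P.derivative.eval x| ≤ 2 * N) → Bdd P →
      (∀ x ∈ Icc (-1 : ℝ) 1, (1 - x ^ 2) * P.derivative.eval x ^ 2 + N * P.eval x ^ 2 ≤ N) →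
      P.derivative = (X - C t) * R → 0 ≤ t → t < 1 → N * (1 - t) ≤ K →
      c ≤ N * (1 - t) → e ≤ N * (1 - t) → R.eval t ≤ -(c * N ^ 2) → 1 / 2 ≤ P.eval t →
      0 < ε → ε ≤ ε0 →
      (∀ x ∈ Icc (-1 : ℝ) 1,
        |P.eval x + ε * ((1 - x ^ 2) * R.eval x / N)| ≤ 1 + M * ε ^ 2) ∧
      ∃ u : ℝ, |u - t| ≤ e / N ∧
        P.derivative.eval u + ε * (((1 - X ^ 2) * R).derivative.eval u / N) = 0 ∧
        |P.eval u + ε * ((1 - u ^ 2) * R.eval u / N)| ≤ 1 - c' * ε := by
  set C1 : ℝ := 8 * K + 16 with hC1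
  set C3 : ℝ := 8 * K + 1 with hC3
  set κ : ℝ := min (1 / 8) (c ^ 2 / (2 * C1)) with hκ
  have hC1p : 0 < C1 := by positivity
  have hC3p : 0 < C3 := by positivity
  have hκp : 0 < κ := by
    rw [hκ]
    positivity
  have hκ8 : κ ≤ 1 / 8 := min_le_left _ _
  have hκc : C1 * κ ≤ c ^ 2 / 2 := by
    have h1 : κ ≤ c ^ 2 / (2 * C1) := min_le_right _ _
    calc C1 * κ ≤ C1 * (c ^ 2 / (2 * C1)) := by gcongr
      _ = c ^ 2 / 2 := by field_simp
  set lam : ℝ := 2 * (C1 + 1) / c with hlam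
  have hlamp : 0 < lam := by positivity
  have hlamc : lam * c = 2 * (C1 + 1) := by
    rw [hlam]
    field_simp
  set C2 : ℝ := 2 * K / κ ^ 2 + 2 / κ with hC2
  have hC2p : 0 < C2 := by positivity
  set ε0 : ℝ := min (1 / (4 * C3)) (min (κ / lam) (min (e / lam) (c / (8 * lam)))) with hε0
  have hε0p : 0 < ε0 := by
    rw [hε0]
    positivity
  refine ⟨C2, ε0, c ^ 2 / 2, hC2p, hε0p, by positivity, ?_⟩
  intro N P R t ε hN hR hR' hP' hb hbs hPR ht0 ht1 htK htc hte hRt hPt hε hεε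
  have hNp : 0 < N := by linarith
  have hε1 : ε * C3 ≤ 1 / 4 := by
    have h1 : ε ≤ 1 / (4 * C3) := hεε.trans (min_le_left _ _)
    calc ε * C3 ≤ 1 / (4 * C3) * C3 := by gcongr
      _ = 1 / 4 := by field_simp
  have hε2 : lam * ε ≤ κ := by
    have h1 : ε ≤ κ / lam := hεε.trans ((min_le_right _ _).trans (min_le_left _ _))
    calc lam * ε ≤ lam * (κ / lam) := by gcongr
      _ = κ := by field_simp
  have hε3 : lam * ε ≤ e := by
    have h1 : ε ≤ e / lam :=
      hεε.trans ((min_le_right _ _).trans ((min_le_right _ _).trans (min_le_left _ _)))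
    calc lam * ε ≤ lam * (e / lam) := by gcongr
      _ = e := by field_simp
  have hε4 : 4 * (lam * ε) ≤ c / 2 := by
    have h1 : ε ≤ c / (8 * lam) :=
      hεε.trans ((min_le_right _ _).trans ((min_le_right _ _).trans (min_le_right _ _)))
    calc 4 * (lam * ε) ≤ 4 * (lam * (c / (8 * lam))) := by gcongr
      _ = c / 2 := by field_simp; ring
  have htI : t ∈ Icc (-1 : ℝ) 1 := ⟨by linarith, ht1.le⟩
  -- the polynomial `G`
  set G : ℝ[X] := C (1 / N) * ((1 - X ^ 2) * R) with hG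
  have hGe : ∀ x, G.eval x = (1 - x ^ 2) * R.eval x / N := by
    intro x
    rw [hG]
    simp only [eval_mul, eval_C, eval_sub, eval_one, eval_pow, eval_X]
    ring
  have hGd : ∀ x, G.derivative.eval x = ((1 - X ^ 2) * R).derivative.eval x / N := by
    intro x
    rw [hG, derivative_C_mul, eval_C_mul]
    ring
  have hGd' : ∀ x, G.derivative.eval x = (-(2 * x) * R.eval x +
      (1 - x ^ 2) * R.derivative.eval x) / N := by
    intro x
    rw [hGd]
    congr 1
    simp only [derivative_mul, derivative_sub, derivative_one, derivative_X_pow, eval_add,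
      eval_mul, eval_sub, eval_one, eval_pow, eval_X, eval_C, Nat.cast_ofNat, zero_sub, eval_neg]
    ring
  -- points near `t`
  have hnear : ∀ x ∈ Icc (-1 : ℝ) 1, |x - t| ≤ κ / N → N * (1 - x ^ 2) ≤ 2 * K + 1 / 4 ∧
      0 ≤ 1 - x ^ 2 := by
    intro x hx hxt
    have h1 : N * |x - t| ≤ κ := by
      rw [le_div_iff₀ hNp] at hxt
      linarith
    have h2 : 1 - x ≤ (1 - t) + |x - t| := by
      have := neg_abs_le (x - t)
      linarith
    have h3 : 1 - x ^ 2 ≤ 2 * (1 - x) := by nlinarith [hx.1, hx.2]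
    refine ⟨?_, by nlinarith [hx.1, hx.2]⟩
    calc N * (1 - x ^ 2) ≤ N * (2 * ((1 - t) + |x - t|)) := by
          gcongr
          linarith
      _ = 2 * (N * (1 - t)) + 2 * (N * |x - t|) := by ring
      _ ≤ 2 * K + 1 / 4 := by linarith
  have hGder : ∀ x ∈ Icc (-1 : ℝ) 1, |x - t| ≤ κ / N → |G.derivative.eval x| ≤ C1 * N := by
    intro x hx hxt
    obtain ⟨h1, h2⟩ := hnear x hx hxt
    rw [hGd', abs_div, abs_of_pos hNp, div_le_iff₀ hNp]
    have h3 : |-(2 * x) * R.eval x| ≤ 2 * (4 * N ^ 2) := by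
      rw [abs_mul, abs_neg, abs_mul, abs_two]
      have : |x| ≤ 1 := abs_le.mpr ⟨hx.1, hx.2⟩
      calc 2 * |x| * |R.eval x| ≤ 2 * 1 * (4 * N ^ 2) := by
            gcongr
            exact hR x hx
        _ = 2 * (4 * N ^ 2) := by ring
    have h4 : |(1 - x ^ 2) * R.derivative.eval x| ≤ (2 * K + 1 / 4) * (4 * N ^ 2) := by
      rw [abs_mul, abs_of_nonneg h2]
      calc (1 - x ^ 2) * |R.derivative.eval x| ≤ (1 - x ^ 2) * (4 * N ^ 3) := by
            gcongr
            exact hR' x hx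
        _ = (N * (1 - x ^ 2)) * (4 * N ^ 2) := by ring
        _ ≤ (2 * K + 1 / 4) * (4 * N ^ 2) := by gcongr
    calc |-(2 * x) * R.eval x + (1 - x ^ 2) * R.derivative.eval x|
        ≤ 2 * (4 * N ^ 2) + (2 * K + 1 / 4) * (4 * N ^ 2) :=
          (abs_add_le _ _).trans (add_le_add h3 h4)
      _ ≤ C1 * N * N := by
        rw [hC1]
        nlinarith [sq_nonneg N]
  have hGabs : ∀ x ∈ Icc (-1 : ℝ) 1, |x - t| ≤ κ / N → |G.eval x| ≤ C3 := by
    intro x hx hxt
    obtain ⟨h1, h2⟩ := hnear x hx hxt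
    rw [hGe, abs_div, abs_of_pos hNp, div_le_iff₀ hNp, abs_mul, abs_of_nonneg h2]
    calc (1 - x ^ 2) * |R.eval x| ≤ (1 - x ^ 2) * (4 * N ^ 2) := by
          gcongr
          exact hR x hx
      _ = (N * (1 - x ^ 2)) * (4 * N) := by ring
      _ ≤ (2 * K + 1 / 4) * (4 * N) := by gcongr
      _ = C3 * N := by
        rw [hC3]
        ring
  have hseg : ∀ x ∈ Icc (-1 : ℝ) 1, ∀ y ∈ uIcc t x, y ∈ Icc (-1 : ℝ) 1 ∧ |y - t| ≤ |x - t| := by
    intro x hx y hy
    refine ⟨?_, abs_sub_left_of_mem_uIcc hy⟩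
    exact uIcc_subset_Icc htI hx hy
  have hGt : G.eval t ≤ -c ^ 2 := by
    rw [hGe, div_le_iff₀ hNp]
    have h1 : 0 < 1 - t ^ 2 := by nlinarith
    have h2 : c ≤ N * (1 - t ^ 2) := by
      have : 1 - t ≤ 1 - t ^ 2 := by nlinarith
      calc c ≤ N * (1 - t) := htc
        _ ≤ _ := by gcongr
    calc (1 - t ^ 2) * R.eval t ≤ (1 - t ^ 2) * (-(c * N ^ 2)) := by gcongr
      _ = -(N * (1 - t ^ 2)) * (c * N) := by ring
      _ ≤ -c * (c * N) := by
        gcongr
      _ = -c ^ 2 * N := by ring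
  have hval : ∀ x ∈ Icc (-1 : ℝ) 1, |x - t| ≤ κ / N →
      |P.eval x + ε * G.eval x| ≤ 1 - c ^ 2 / 2 * ε := by
    intro x hx hxt
    have h0 : N * |x - t| ≤ κ := by
      rw [le_div_iff₀ hNp] at hxt
      linarith
    have h1 : |G.eval x - G.eval t| ≤ C1 * N * |x - t| := by
      apply pe_mvt
      intro y hy
      obtain ⟨hy1, hy2⟩ := hseg x hx y hy
      exact hGder y hy1 (hy2.trans hxt)
    have h2 : |P.eval x - P.eval t| ≤ 2 * N * |x - t| := by
      apply pe_mvt
      intro y hy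
      exact hP' y (hseg x hx y hy).1
    have h3 : G.eval x ≤ -(c ^ 2 / 2) := by
      have h31 : G.eval x - G.eval t ≤ C1 * N * |x - t| := (le_abs_self _).trans h1
      have h32 : C1 * N * |x - t| ≤ C1 * κ := by
        rw [mul_assoc]
        gcongr
      linarith
    have h4 : 1 / 4 ≤ P.eval x := by
      have h41 := (abs_le.mp h2).1
      have h42 : 2 * N * |x - t| ≤ 2 * κ := by
        rw [mul_assoc]
        gcongr
      linarith
    have h5 := hGabs x hx hxt
    have h6 : P.eval x ≤ 1 := (abs_le.mp (hb x hx)).2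
    have h7 : -C3 ≤ G.eval x := (abs_le.mp h5).1
    have h8 : ε * (-C3) ≤ ε * G.eval x := by gcongr
    have h9 : ε * G.eval x ≤ ε * (-(c ^ 2 / 2)) := by gcongr
    rw [abs_le]
    constructor <;> nlinarith
  refine ⟨?_, ?_⟩
  · intro x hx
    rw [← hGe]
    rcases le_total |x - t| (κ / N) with hxt | hxt
    · refine (hval x hx hxt).trans ?_
      have : 0 ≤ C2 * ε ^ 2 := by positivity
      have : 0 ≤ c ^ 2 / 2 * ε := by positivity
      linarith
    · have hxN : κ ≤ N * |x - t| := by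
        rw [div_le_iff₀ hNp] at hxt
        linarith
      have hxp : 0 < |x - t| := by
        have : 0 < κ / N := by positivity
        linarith
      have hx2 : 0 ≤ 1 - x ^ 2 := by nlinarith [hx.1, hx.2]
      have hRx : P.derivative.eval x = (x - t) * R.eval x := by
        rw [hPR]
        simp
      have hPx : |P.eval x| ≤ 1 := hb x hx
      have hPx2 : 0 ≤ 1 - P.eval x ^ 2 := by
        have := sq_abs (P.eval x)
        nlinarith [abs_nonneg (P.eval x)]
      have h1 : 1 - x ^ 2 ≤ 2 * (1 - t) + 2 * |x - t| := by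
        have h2 : 1 - x ≤ (1 - t) + |x - t| := by
          have := neg_abs_le (x - t)
          linarith
        have h3 : 1 - x ^ 2 ≤ 2 * (1 - x) := by nlinarith [hx.1, hx.2]
        linarith
      have h2 : (N * |x - t|) ^ 2 * (G.eval x) ^ 2 ≤
          (1 - x ^ 2) * (N * (1 - P.eval x ^ 2)) := by
        have h21 := hbs x hx
        rw [hRx] at h21
        have h22 : (N * |x - t|) ^ 2 * (G.eval x) ^ 2 =
            (1 - x ^ 2) * ((1 - x ^ 2) * ((x - t) * R.eval x) ^ 2) := by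
          rw [hGe, mul_pow, sq_abs]
          field_simp
        rw [h22]
        apply mul_le_mul_of_nonneg_left _ hx2
        linarith
      have h3 : (N * |x - t|) ^ 2 * (G.eval x) ^ 2 ≤
          (2 * K + 2 * (N * |x - t|)) * (1 - P.eval x ^ 2) := by
        calc (N * |x - t|) ^ 2 * (G.eval x) ^ 2 ≤ (1 - x ^ 2) * (N * (1 - P.eval x ^ 2)) := h2
          _ = (N * (1 - x ^ 2)) * (1 - P.eval x ^ 2) := by ring
          _ ≤ (2 * K + 2 * (N * |x - t|)) * (1 - P.eval x ^ 2) := by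
            apply mul_le_mul_of_nonneg_right _ hPx2
            calc N * (1 - x ^ 2) ≤ N * (2 * (1 - t) + 2 * |x - t|) := by gcongr
              _ = 2 * (N * (1 - t)) + 2 * (N * |x - t|) := by ring
              _ ≤ _ := by linarith
      have h4 : (2 * K + 2 * (N * |x - t|)) ≤ C2 * (N * |x - t|) ^ 2 := by
        set w := N * |x - t| with hw
        have hwp : 0 < w := by positivity
        have h41 : 1 ≤ w / κ := by rwa [one_le_div hκp]
        have h42 : 2 * K ≤ 2 * K / κ ^ 2 * w ^ 2 := by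
          have : 2 * K / κ ^ 2 * w ^ 2 = 2 * K * (w / κ) ^ 2 := by
            field_simp
          rw [this]
          have : 1 ≤ (w / κ) ^ 2 := one_le_pow₀ h41
          nlinarith
        have h43 : 2 * w ≤ 2 / κ * w ^ 2 := by
          have : 2 / κ * w ^ 2 = 2 * w * (w / κ) := by
            field_simp
          rw [this]
          nlinarith
        rw [hC2]
        linarith
      have h5 : (G.eval x) ^ 2 ≤ C2 * (1 - P.eval x ^ 2) := by
        have hwp : 0 < (N * |x - t|) ^ 2 := by positivity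
        have h51 : (N * |x - t|) ^ 2 * (G.eval x) ^ 2 ≤
            (N * |x - t|) ^ 2 * (C2 * (1 - P.eval x ^ 2)) := by
          refine h3.trans ?_
          calc (2 * K + 2 * (N * |x - t|)) * (1 - P.eval x ^ 2)
              ≤ (C2 * (N * |x - t|) ^ 2) * (1 - P.eval x ^ 2) :=
                mul_le_mul_of_nonneg_right h4 hPx2
            _ = _ := by ring
        exact le_of_mul_le_mul_left h51 hwp
      have h6 : (P.eval x + ε * G.eval x) ^ 2 ≤ 1 + C2 * ε ^ 2 := by
        set p := P.eval x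
        set g := G.eval x
        -- `C2 (p + ε g)² ≤ (C2 p² + g²)(1 + C2 ε²)`
        have h61 : C2 * (p + ε * g) ^ 2 ≤ (C2 * p ^ 2 + g ^ 2) * (1 + C2 * ε ^ 2) := by
          nlinarith [sq_nonneg (C2 * ε * p - g)]
        have h62 : (C2 * p ^ 2 + g ^ 2) * (1 + C2 * ε ^ 2) ≤ C2 * (1 + C2 * ε ^ 2) := by
          apply mul_le_mul_of_nonneg_right _ (by positivity)
          linarith
        exact le_of_mul_le_mul_left (h61.trans h62) hC2p
      apply abs_le_of_sq_le_sq _ (by positivity)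
      have : 0 ≤ C2 * ε ^ 2 := by positivity
      nlinarith
  · -- the zero of the derivative
    set r : ℝ := lam * ε / N with hr
    have hrp : 0 < r := by positivity
    have hrN : N * r = lam * ε := by
      rw [hr]
      field_simp
    have hrκ : r ≤ κ / N := by
      rw [hr]
      gcongr
    have hre : r ≤ e / N := by
      rw [hr]
      gcongr
    have hr1 : t + r ≤ 1 := by
      have h1 : N * r ≤ N * (1 - t) := by
        rw [hrN]
        linarith
      have := le_of_mul_le_mul_left h1 hNp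
      linarith
    have hr2 : r ≤ 1 := by
      refine hrκ.trans ?_
      rw [div_le_one hNp]
      linarith
    have hI : ∀ x, |x - t| ≤ r → x ∈ Icc (-1 : ℝ) 1 := by
      intro x hx
      rw [abs_le] at hx
      exact ⟨by linarith, by linarith⟩
    have hRx : ∀ x, |x - t| ≤ r → R.eval x ≤ -(c * N ^ 2 / 2) := by
      intro x hx
      have h1 : |R.eval x - R.eval t| ≤ 4 * N ^ 3 * |x - t| := by
        apply pe_mvt
        intro y hy
        exact hR' y (hseg x (hI x hx) y hy).1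
      have h2 : 4 * N ^ 3 * |x - t| ≤ c / 2 * N ^ 2 := by
        calc 4 * N ^ 3 * |x - t| ≤ 4 * N ^ 3 * r := by gcongr
          _ = 4 * (N * r) * N ^ 2 := by ring
          _ = 4 * (lam * ε) * N ^ 2 := by rw [hrN]
          _ ≤ c / 2 * N ^ 2 := by gcongr
      have h3 := (le_abs_self _).trans h1
      linarith
    set F : ℝ → ℝ := fun u => P.derivative.eval u + ε * G.derivative.eval u with hF
    have hFc : ContinuousOn F (Icc (t - r) (t + r)) := by
      apply Continuous.continuousOn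
      fun_prop
    have hPx : ∀ x, P.derivative.eval x = (x - t) * R.eval x := by
      intro x
      rw [hPR]
      simp
    have hgp : ∀ x, |x - t| ≤ r → |ε * G.derivative.eval x| ≤ ε * (C1 * N) := by
      intro x hx
      rw [abs_mul, abs_of_pos hε]
      gcongr
      exact hGder x (hI x hx) (hx.trans hrκ)
    have hkey : ε * (C1 * N) < r * (c * N ^ 2 / 2) := by
      have : r * (c * N ^ 2 / 2) = (lam * c) * ε * N / 2 := by
        rw [hr]
        field_simp
      rw [this, hlamc]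
      nlinarith [mul_pos hε hNp]
    have h1 : F (t + r) < 0 := by
      have hx : |t + r - t| ≤ r := by
        rw [add_sub_cancel_left, abs_of_pos hrp]
      have h2 := hRx _ hx
      have h3 := (le_abs_self _).trans (hgp _ hx)
      have h4 : (t + r - t) * R.eval (t + r) ≤ r * (-(c * N ^ 2 / 2)) := by
        rw [add_sub_cancel_left]
        gcongr
      simp only [hF]
      rw [hPx]
      linarith
    have h2 : 0 < F (t - r) := by
      have hx : |t - r - t| ≤ r := by
        rw [show t - r - t = -r by ring, abs_neg, abs_of_pos hrp]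
      have h2 := hRx _ hx
      have h3 := (abs_le.mp (hgp _ hx)).1
      have h4 : r * (c * N ^ 2 / 2) ≤ (t - r - t) * R.eval (t - r) := by
        rw [show t - r - t = -r by ring]
        nlinarith
      simp only [hF]
      rw [hPx]
      linarith
    obtain ⟨u, hu, hu0⟩ := intermediate_value_Icc' (by linarith : t - r ≤ t + r) hFc
      (show (0 : ℝ) ∈ Icc (F (t + r)) (F (t - r)) from ⟨h1.le, h2.le⟩)
    have hur : |u - t| ≤ r := by
      rw [abs_le]
      exact ⟨by linarith [hu.1], by linarith [hu.2]⟩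
    refine ⟨u, hur.trans hre, ?_, ?_⟩
    · rw [← hGd]
      exact hu0
    · rw [← hGe]
      exact hval u (hI u hur) (hur.trans hrκ)

theorem pe (hA2 : A2) (hMk : Mk) : Pe := by
  intro K c e hK hc he
  obtain ⟨M, ε0, c', hM, hε0, hc', H⟩ := pe_core hK hc he
  refine ⟨M, ε0, c', hM, hε0, hc', ?_⟩
  intro n P R t ε hn hd hb hPR ht0 ht1 htK htc hte hRt hsgn hPt hε hεε
  have hn1 : (1 : ℝ) ≤ n := by exact_mod_cast hn
  have hN : (1 : ℝ) ≤ (n : ℝ) ^ 2 := one_le_pow₀ hn1
  obtain ⟨hk1, hk2⟩ := hMk n P hn hd hb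
  have htI : t ∈ Icc (-1 : ℝ) 1 := ⟨by linarith, ht1.le⟩
  obtain ⟨-, hRR⟩ := hk2 t R htI hPR
  have hR : ∀ x ∈ Icc (-1 : ℝ) 1, |R.eval x| ≤ 4 * ((n : ℝ) ^ 2) ^ 2 := by
    intro x hx
    have := (hRR x hx).1
    rw [← pow_mul]
    exact this
  have hR' : ∀ x ∈ Icc (-1 : ℝ) 1, |R.derivative.eval x| ≤ 4 * ((n : ℝ) ^ 2) ^ 3 := by
    intro x hx
    have := (hRR x hx).2
    rw [← pow_mul]
    exact this
  have hP' : ∀ x ∈ Icc (-1 : ℝ) 1, |P.derivative.eval x| ≤ 2 * (n : ℝ) ^ 2 := by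
    intro x hx
    have := hk1 1 x hx
    simpa using this
  have hbs : ∀ x ∈ Icc (-1 : ℝ) 1,
      (1 - x ^ 2) * P.derivative.eval x ^ 2 + (n : ℝ) ^ 2 * P.eval x ^ 2 ≤ (n : ℝ) ^ 2 :=
    fun x hx => pe_bs hA2 hn hd hb hx
  have hRt' : c * ((n : ℝ) ^ 2) ^ 2 ≤ |R.eval t| := by
    rw [← pow_mul]
    exact hRt
  rcases lt_or_ge (P.eval t) 0 with hneg | hpos
  · have hRpos : 0 < R.eval t := by
      by_contra h
      push Not at h
      nlinarith
    rw [abs_of_neg hneg] at hPt
    rw [abs_of_pos hRpos] at hRt'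
    obtain ⟨h1, u, hu1, hu2, hu3⟩ := H ((n : ℝ) ^ 2) (-P) (-R) t ε hN
      (by intro x hx; rw [eval_neg, abs_neg]; exact hR x hx)
      (by intro x hx; rw [derivative_neg, eval_neg, abs_neg]; exact hR' x hx)
      (by intro x hx; rw [derivative_neg, eval_neg, abs_neg]; exact hP' x hx)
      (by intro x hx; rw [eval_neg, abs_neg]; exact hb x hx)
      (by intro x hx; rw [derivative_neg, eval_neg, eval_neg, neg_sq, neg_sq]; exact hbs x hx)
      (by rw [derivative_neg, hPR, mul_neg]) ht0 ht1 htK htc hte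
      (by rw [eval_neg]; linarith) (by rw [eval_neg]; linarith) hε hεε
    refine ⟨fun x hx => ?_, u, hu1, ?_, ?_⟩
    · have h2 := h1 x hx
      rw [eval_neg, eval_neg] at h2
      have h3 : |P.eval x + ε * ((1 - x ^ 2) * R.eval x / (n : ℝ) ^ 2)| =
          |-P.eval x + ε * ((1 - x ^ 2) * -R.eval x / (n : ℝ) ^ 2)| := by
        rw [← abs_neg]
        congr 1
        ring
      rw [h3]
      exact h2
    · rw [derivative_neg, eval_neg, mul_neg, derivative_neg, eval_neg] at hu2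
      rw [neg_div, mul_neg] at hu2
      linarith
    · rw [eval_neg, eval_neg] at hu3
      have h3 : |P.eval u + ε * ((1 - u ^ 2) * R.eval u / (n : ℝ) ^ 2)| =
          |-P.eval u + ε * ((1 - u ^ 2) * -R.eval u / (n : ℝ) ^ 2)| := by
        rw [← abs_neg]
        congr 1
        ring
      rw [h3]
      exact hu3
  · have hPpos : 0 < P.eval t := by
      rcases hpos.lt_or_eq with h | h
      · exact h
      · rw [← h] at hsgn
        simp at hsgn
    have hRneg : R.eval t < 0 := by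
      by_contra h
      push Not at h
      nlinarith [mul_nonneg hpos h]
    rw [abs_of_pos hPpos] at hPt
    rw [abs_of_neg hRneg] at hRt'
    exact H ((n : ℝ) ^ 2) P R t ε hN hR hR' hP' hb hbs hPR ht0 ht1 htK htc hte
      (by linarith) hPt hε hεε

end

end Pool.Agent.Helper10.AL
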