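import Pool.Agent.Helper10.AL.St4
import Pool.Agent.Helper10.AL.P.VF4

/-!
Arc length of polynomials over windows of arbitrary length: piece S1e.
-/

set_option autoImplicit false

namespace Pool.Agent.Helper10.AL

open Polynomial Set Real MeasureTheory intervalIntegral
open Pool.Agent.Helper40.Arc (Tr)

noncomputable section

/-! ### general lemmas -/

/-- a nonnegative continuous function with integral zero -/
theorem s1e_zero (f : ℝ → ℝ) (a b : ℝ) (hab : a < b) (hf : Continuous f)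
    (h0 : ∀ x ∈ Icc a b, 0 ≤ f x) (hi : (∫ x in a..b, f x) ≤ 0) : ∀ x ∈ Icc a b, f x = 0 := by
  intro x hx
  by_contra hne
  have h1 := intervalIntegral.integral_pos hab hf.continuousOn
    (fun y hy => h0 y ⟨hy.1.le, hy.2⟩) ⟨x, hx, lt_of_le_of_ne (h0 x hx) (Ne.symm hne)⟩
  linarith

/-- the sign of a continuous function without zeros -/
theorem s1e_sign (u : ℝ → ℝ) (a b : ℝ) (hab : a < b) (hu : Continuous u)
    (h0 : ∀ s ∈ Ioo a b, u s ≠ 0) :
    (∀ s ∈ Icc a b, 0 ≤ u s) ∨ (∀ s ∈ Icc a b, u s ≤ 0) := by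
  have hcl : closure (Ioo a b) = Icc a b := closure_Ioo hab.ne
  have hpre : IsPreconnected (Ioo a b) := isPreconnected_Ioo
  by_cases hp : ∃ s ∈ Ioo a b, 0 < u s
  · left
    obtain ⟨s, hs, hsp⟩ := hp
    have h1 : ∀ t ∈ Ioo a b, 0 < u t := by
      intro t ht
      by_contra hneg
      push Not at hneg
      have h2 := hpre.intermediate_value ht hs hu.continuousOn
      obtain ⟨z, hz, hz0⟩ := h2 ⟨hneg, hsp.le⟩
      exact h0 z hz hz0
    have h2 : closure (Ioo a b) ⊆ {s | 0 ≤ u s} :=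
      closure_minimal (fun t ht => (h1 t ht).le) (isClosed_le continuous_const hu)
    intro s hs
    exact h2 (hcl ▸ hs)
  · right
    push Not at hp
    have h2 : closure (Ioo a b) ⊆ {s | u s ≤ 0} :=
      closure_minimal (fun t ht => hp t ht) (isClosed_le hu continuous_const)
    intro s hs
    exact h2 (hcl ▸ hs)

/-- identification of the derivative on a closed interval -/
theorem s1e_der {q u v : ℝ → ℝ} (h : Tr q u v) (a b : ℝ) (hab : a < b) (f f' : ℝ → ℝ)
    (hf : ∀ t, HasDerivAt f (f' t) t) (he : ∀ t ∈ Icc a b, u t = f t) :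
    ∀ t ∈ Icc a b, v t = f' t := by
  intro t ht
  have h1 : HasDerivWithinAt u (v t) (Icc a b) t := (h.hu t).hasDerivWithinAt
  have h2 : HasDerivWithinAt u (f' t) (Icc a b) t :=
    ((hf t).hasDerivWithinAt).congr (fun s hs => he s hs) (he t ht)
  exact (uniqueDiffOn_Icc hab t ht).eq_deriv _ h1 h2

/-- both signs of a sine -/
theorem s1e_sq {q u v : ℝ → ℝ} (h : Tr q u v) (a b σ c : ℝ) (hab : a < b) (hσ : σ ^ 2 = 1)
    (he : ∀ t ∈ Icc a b, u t = σ * sin (t + c)) :
    ∀ t ∈ Icc a b, v t = σ * cos (t + c) ∧ u t ^ 2 + v t ^ 2 = 1 := by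
  intro t ht
  have h1 := s1e_der h a b hab (fun t => σ * sin (t + c)) (fun t => σ * cos (t + c)) (by
    intro t
    have h2 : HasDerivAt (fun t => sin (t + c)) (cos (t + c)) t := by
      simpa using ((hasDerivAt_id t).add_const c).sin
    exact h2.const_mul σ) he t ht
  refine ⟨h1, ?_⟩
  rw [h1, he t ht]
  have h2 := sin_sq_add_cos_sq (t + c)
  have h3 : (σ * sin (t + c)) ^ 2 + (σ * cos (t + c)) ^ 2 =
      σ ^ 2 * (sin (t + c) ^ 2 + cos (t + c) ^ 2) := by ring
  rw [h3, h2, hσ, one_mul]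

/-- reflected trajectories -/
theorem s1e_refl {q u v : ℝ → ℝ} (h : Tr q u v) :
    Tr (fun t => q (-t)) (fun t => -u (-t)) (fun t => v (-t)) := by
  refine ⟨fun t => ?_, fun t => ?_, fun t => ?_, fun t => ?_⟩
  · have := (h.hq (-t)).comp t (hasDerivAt_neg t)
    simpa [Function.comp_def] using this
  · have := ((h.hu (-t)).comp t (hasDerivAt_neg t)).fun_neg
    simpa [Function.comp_def] using this
  · have := h.b1 (-t)
    simpa using this
  · have := h.b2 (-t)
    simpa using this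

/-- the phase of the position is `1`-Lipschitz -/
theorem s1e_lip {q u v : ℝ → ℝ} (h : Tr q u v) (s t : ℝ) :
    |arcsin (q t) - arcsin (q s)| ≤ |t - s| := by
  have hq1 : ∀ x, q x ^ 2 ≤ 1 := fun x => by
    have := h.b1 x
    nlinarith [sq_nonneg (u x)]
  have key : ∀ r ∈ Ioo (0 : ℝ) 1, |arcsin (r * q t) - arcsin (r * q s)| ≤ |t - s| := by
    intro r hr
    have hsq : ∀ x, (r * q x) ^ 2 < 1 := by
      intro x
      have h3 : (r * q x) ^ 2 ≤ r ^ 2 := by
        rw [mul_pow]
        nlinarith [sq_nonneg r, hq1 x]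
      nlinarith [hr.1, hr.2]
    have hru : ∀ x, r * q x ≠ -1 ∧ r * q x ≠ 1 := by
      intro x
      constructor
      · intro h2
        have := hsq x
        rw [h2] at this
        norm_num at this
      · intro h2
        have := hsq x
        rw [h2] at this
        norm_num at this
    have hd : ∀ x ∈ (univ : Set ℝ), HasDerivWithinAt (fun x => arcsin (r * q x))
        (1 / √(1 - (r * q x) ^ 2) * (r * u x)) univ x := by
      intro x _
      exact (((hasDerivAt_arcsin (hru x).1 (hru x).2).comp x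
        ((h.hq x).const_mul r))).hasDerivWithinAt
    have hb : ∀ x ∈ (univ : Set ℝ), ‖1 / √(1 - (r * q x) ^ 2) * (r * u x)‖ ≤ 1 := by
      intro x _
      have h1 := h.b1 x
      have h2 : (0 : ℝ) < 1 - (r * q x) ^ 2 := by linarith [hsq x]
      have h3 : 0 < √(1 - (r * q x) ^ 2) := Real.sqrt_pos.2 h2
      rw [Real.norm_eq_abs, abs_mul, abs_of_pos (by positivity : 0 < 1 / √(1 - (r * q x) ^ 2)),
        one_div_mul_eq_div, div_le_one h3]
      apply Real.le_sqrt_of_sq_le
      rw [sq_abs]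
      have : r ^ 2 ≤ 1 := by nlinarith [hr.1, hr.2]
      nlinarith [sq_nonneg (u x), sq_nonneg (q x)]
    have h3 := convex_univ.norm_image_sub_le_of_norm_hasDerivWithin_le hd hb
      (mem_univ s) (mem_univ t)
    simpa [Real.norm_eq_abs] using h3
  have hc : Continuous (fun r : ℝ => |arcsin (r * q t) - arcsin (r * q s)|) := by
    have := Real.continuous_arcsin
    fun_prop
  have h1 : Filter.Tendsto (fun r : ℝ => |arcsin (r * q t) - arcsin (r * q s)|) (nhdsWithin 1 (Iio 1))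
      (nhds |arcsin (q t) - arcsin (q s)|) := by
    have h2 := (hc.tendsto 1).mono_left (nhdsWithin_le_nhds (s := Iio 1))
    simpa using h2
  refine le_of_tendsto h1 ?_
  have : Ioo (0 : ℝ) 1 ∈ nhdsWithin (1 : ℝ) (Iio 1) := Ioo_mem_nhdsLT one_pos
  filter_upwards [this] with r hr using key r hr

theorem s1e_q_le {q u v : ℝ → ℝ} (h : Tr q u v) (t : ℝ) : -1 ≤ q t ∧ q t ≤ 1 := by
  have h1 := h.b1 t
  have h2 : |q t| ≤ 1 := abs_le_of_sq_le_sq (by nlinarith [sq_nonneg (u t)]) (by norm_num)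
  exact abs_le.1 h2

theorem s1e_ftc {q u v : ℝ → ℝ} (h : Tr q u v) (a b : ℝ) : (∫ t in a..b, u t) = q b - q a :=
  intervalIntegral.integral_eq_sub_of_hasDerivAt (fun t _ => h.hq t)
    (h.cont_u.intervalIntegrable _ _)

/-! ### one monotone piece starting at a critical point -/

theorem s1e_D {q u v : ℝ → ℝ} (h : Tr q u v) (h0 : u 0 = 0) (y : ℝ) (hy : 0 < y) (hyπ : y ≤ π)
    (hD : 1 - cos y ≤ q y - q 0) : ∀ s ∈ Icc 0 y, u s = sin s := by
  have hle : ∀ s ∈ Icc 0 y, u s ≤ sin s := by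
    intro s hs
    rcases le_total s (π / 2) with h1 | h1
    · have h2 := h.bound (s := 0) (t := s) h0 (by rwa [sub_zero, abs_of_nonneg hs.1])
      rw [sub_zero, abs_of_nonneg hs.1] at h2
      exact (le_abs_self _).trans h2
    · have hq0 := (s1e_q_le h 0).1
      have h2 : sin (y - π / 2) ≤ q y := by
        rw [sin_sub_pi_div_two]
        linarith
      have h3 : y - π / 2 ≤ arcsin (q y) := by
        have h4 := monotone_arcsin h2
        rwa [arcsin_sin (by linarith [hs.1]) (by linarith)] at h4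
      have h5 := (abs_le.1 (s1e_lip h s y)).2
      rw [abs_of_nonneg (by linarith [hs.2] : (0 : ℝ) ≤ y - s)] at h5
      have h6 : s - π / 2 ≤ arcsin (q s) := by linarith
      have h7 : sin (s - π / 2) ≤ q s := by
        have h8 : sin (s - π / 2) ≤ sin (arcsin (q s)) :=
          sin_le_sin_of_le_of_le_pi_div_two (by linarith [pi_pos]) (arcsin_le_pi_div_two _) h6
        rwa [sin_arcsin (s1e_q_le h s).1 (s1e_q_le h s).2] at h8
      have h9 : 0 ≤ sin (s - π / 2) :=
        sin_nonneg_of_nonneg_of_le_pi (by linarith) (by linarith [hs.2, pi_pos])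
      rw [sin_sub_pi_div_two] at h7 h9
      have h10 : cos s ^ 2 ≤ q s ^ 2 := by nlinarith
      have h11 := h.b1 s
      have h12 : u s ^ 2 ≤ sin s ^ 2 := by
        have := sin_sq_add_cos_sq s
        linarith
      have h13 : 0 ≤ sin s := sin_nonneg_of_nonneg_of_le_pi hs.1 (hs.2.trans hyπ)
      exact abs_le_of_sq_le_sq' h12 h13 |>.2
  have hc : Continuous fun s => sin s - u s := continuous_sin.sub h.cont_u
  have hint : (∫ s in (0 : ℝ)..y, (sin s - u s)) ≤ 0 := by
    rw [intervalIntegral.integral_sub (continuous_sin.intervalIntegrable _ _)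
      (h.cont_u.intervalIntegrable _ _), integral_sin, s1e_ftc h, cos_zero]
    linarith
  intro s hs
  have := s1e_zero _ 0 y hy hc (fun s hs => by linarith [hle s hs]) hint s hs
  linarith

theorem s1e_D' {q u v : ℝ → ℝ} (h : Tr q u v) (h0 : u 0 = 0) (y : ℝ) (hy : 0 < y) :
    q y - q 0 ≤ 1 - cos (min y π) := by
  rcases le_total y π with h1 | h1
  · rw [min_eq_left h1]
    by_contra hcon
    push Not at hcon
    have h2 := s1e_D h h0 y hy h1 hcon.le
    have h3 : (∫ s in (0 : ℝ)..y, u s) = ∫ s in (0 : ℝ)..y, sin s := by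
      apply intervalIntegral.integral_congr
      intro s hs
      rw [uIcc_of_le hy.le] at hs
      exact h2 s hs
    rw [s1e_ftc h, integral_sin, cos_zero] at h3
    linarith
  · rw [min_eq_right h1, cos_pi]
    linarith [(s1e_q_le h y).2, (s1e_q_le h 0).1]

theorem s1e_gap {q u v : ℝ → ℝ} (h : Tr q u v) (h0 : u 0 = 0) (y : ℝ) (hy : 0 < y)
    (hne : ∀ s ∈ Ioo 0 y, u s ≠ 0) :
    (∫ t in (0 : ℝ)..y, |u t|) ≤ 1 - cos (min y π) ∧
    (y ≤ π → 1 - cos y ≤ (∫ t in (0 : ℝ)..y, |u t|) → ∀ t ∈ Icc 0 y, u t ^ 2 + v t ^ 2 = 1) := by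
  rcases s1e_sign u 0 y hy h.cont_u hne with hs | hs
  · have h1 : (∫ t in (0 : ℝ)..y, |u t|) = q y - q 0 := by
      rw [← s1e_ftc h]
      apply intervalIntegral.integral_congr
      intro s hs'
      rw [uIcc_of_le hy.le] at hs'
      exact abs_of_nonneg (hs s hs')
    rw [h1]
    refine ⟨s1e_D' h h0 y hy, fun hyπ hge t ht => ?_⟩
    have h2 := s1e_D h h0 y hy hyπ hge
    exact (s1e_sq h 0 y 1 0 hy (by norm_num)
      (fun t ht => by rw [h2 t ht, add_zero, one_mul]) t ht).2
  · have h1 : (∫ t in (0 : ℝ)..y, |u t|) = -q y - -q 0 := by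
      have h2 : (∫ t in (0 : ℝ)..y, |u t|) = ∫ t in (0 : ℝ)..y, -u t := by
        apply intervalIntegral.integral_congr
        intro s hs'
        rw [uIcc_of_le hy.le] at hs'
        exact abs_of_nonpos (hs s hs')
      rw [h2, intervalIntegral.integral_neg, s1e_ftc h]
      ring
    rw [h1]
    have h0' : (fun t => -u t) 0 = 0 := by simp [h0]
    refine ⟨s1e_D' h.neg h0' y hy, fun hyπ hge t ht => ?_⟩
    have h2 := s1e_D h.neg h0' y hy hyπ hge
    exact (s1e_sq h 0 y (-1) 0 hy (by norm_num)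
      (fun t ht => by
        have := h2 t ht
        rw [add_zero]
        linarith) t ht).2

/-! ### short intervals between two critical points -/

theorem s1e_short {q u v : ℝ → ℝ} (h : Tr q u v) (h0 : u 0 = 0) (x : ℝ) (hx : 0 < x)
    (hxπ : x ≤ π) (hux : u x = 0) :
    (∫ t in (0 : ℝ)..x, |u t|) ≤ 2 * (1 - cos (x / 2)) ∧
    (2 * (1 - cos (x / 2)) ≤ (∫ t in (0 : ℝ)..x, |u t|) →
      x = π ∧ ∀ t ∈ Icc 0 x, u t ^ 2 + v t ^ 2 = 1) := by
  have hm : 0 < x / 2 := by linarith
  have hb1 : ∀ s ∈ Icc 0 (x / 2), |u s| ≤ sin s := by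
    intro s hs
    have h2 := h.bound (s := 0) (t := s) h0 (by
      rw [sub_zero, abs_of_nonneg hs.1]
      linarith [hs.2])
    rwa [sub_zero, abs_of_nonneg hs.1] at h2
  have hb2 : ∀ s ∈ Icc (x / 2) x, |u s| ≤ sin (x - s) := by
    intro s hs
    have h2 := h.bound (s := x) (t := s) hux (by
      rw [abs_sub_comm, abs_of_nonneg (by linarith [hs.2])]
      linarith [hs.1])
    rwa [abs_sub_comm, abs_of_nonneg (by linarith [hs.2] : (0 : ℝ) ≤ x - s)] at h2
  have hcu : Continuous fun t => |u t| := h.cont_u.abs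
  have hsplit : (∫ t in (0 : ℝ)..x, |u t|) =
      (∫ t in (0 : ℝ)..(x / 2), |u t|) + ∫ t in (x / 2)..x, |u t| :=
    (intervalIntegral.integral_add_adjacent_intervals (hcu.intervalIntegrable _ _)
      (hcu.intervalIntegrable _ _)).symm
  have hi1 : (∫ t in (0 : ℝ)..(x / 2), sin t) = 1 - cos (x / 2) := by
    rw [integral_sin, cos_zero]
  have hcx : Continuous fun t => sin (x - t) := by fun_prop
  have hi2 : (∫ t in (x / 2)..x, sin (x - t)) = 1 - cos (x / 2) := by
    rw [intervalIntegral.integral_comp_sub_left (fun t => sin t) x, sub_self, integral_sin,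
      cos_zero]
    congr 2
    ring
  have hl1 : (∫ t in (0 : ℝ)..(x / 2), |u t|) ≤ 1 - cos (x / 2) := by
    rw [← hi1]
    exact intervalIntegral.integral_mono_on hm.le (hcu.intervalIntegrable _ _)
      (continuous_sin.intervalIntegrable _ _) hb1
  have hl2 : (∫ t in (x / 2)..x, |u t|) ≤ 1 - cos (x / 2) := by
    rw [← hi2]
    exact intervalIntegral.integral_mono_on (by linarith) (hcu.intervalIntegrable _ _)
      (hcx.intervalIntegrable _ _) hb2
  refine ⟨by rw [hsplit]; linarith, fun hge => ?_⟩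
  rw [hsplit] at hge
  have he1 : ∀ s ∈ Icc 0 (x / 2), |u s| = sin s := by
    intro s hs
    have h1 := s1e_zero (fun s => sin s - |u s|) 0 (x / 2) hm (continuous_sin.sub hcu)
      (fun s hs => by linarith [hb1 s hs]) (by
        rw [intervalIntegral.integral_sub (continuous_sin.intervalIntegrable _ _)
          (hcu.intervalIntegrable _ _), hi1]
        linarith) s hs
    linarith
  have he2 : ∀ s ∈ Icc (x / 2) x, |u s| = sin (x - s) := by
    intro s hs
    have h1 := s1e_zero (fun s => sin (x - s) - |u s|) (x / 2) x (by linarith) (hcx.sub hcu)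
      (fun s hs => by linarith [hb2 s hs]) (by
        rw [intervalIntegral.integral_sub (hcx.intervalIntegrable _ _)
          (hcu.intervalIntegrable _ _), hi2]
        linarith) s hs
    linarith
  have hne : ∀ s ∈ Ioo 0 x, u s ≠ 0 := by
    intro s hs hs0
    rcases le_total s (x / 2) with h1 | h1
    · have h2 := he1 s ⟨hs.1.le, h1⟩
      rw [hs0, abs_zero] at h2
      have h3 := sin_pos_of_pos_of_lt_pi hs.1 (by linarith [hs.2])
      linarith
    · have h2 := he2 s ⟨h1, hs.2.le⟩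
      rw [hs0, abs_zero] at h2
      have h3 := sin_pos_of_pos_of_lt_pi (by linarith [hs.2] : 0 < x - s) (by linarith [hs.1])
      linarith
  obtain ⟨σ, hσ, hσu⟩ : ∃ σ : ℝ, σ ^ 2 = 1 ∧ ∀ s ∈ Icc 0 x, u s = σ * |u s| := by
    rcases s1e_sign u 0 x hx h.cont_u hne with hs | hs
    · exact ⟨1, by norm_num, fun s hs' => by rw [abs_of_nonneg (hs s hs'), one_mul]⟩
    · exact ⟨-1, by norm_num, fun s hs' => by rw [abs_of_nonpos (hs s hs')]; ring⟩
  have hf1 : ∀ t ∈ Icc 0 (x / 2), u t = σ * sin (t + 0) := by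
    intro t ht
    rw [hσu t ⟨ht.1, by linarith [ht.2]⟩, he1 t ht, add_zero]
  have hf2 : ∀ t ∈ Icc (x / 2) x, u t = -σ * sin (t + -x) := by
    intro t ht
    rw [hσu t ⟨by linarith [ht.1], ht.2⟩, he2 t ht, ← sub_eq_add_neg, ← neg_sub x t, sin_neg]
    ring
  have hv1 := (s1e_sq h 0 (x / 2) σ 0 hm hσ hf1 (x / 2) ⟨hm.le, le_rfl⟩).1
  have hv2 := (s1e_sq h (x / 2) x (-σ) (-x) (by linarith) (by rw [neg_sq, hσ]) hf2 (x / 2)
    ⟨le_rfl, by linarith⟩).1
  have hcos : cos (x / 2) = 0 := by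
    rw [add_zero] at hv1
    have e : x / 2 + -x = -(x / 2) := by ring
    rw [e, cos_neg] at hv2
    have h3 : 2 * (σ * cos (x / 2)) = 0 := by linarith
    have h4 : σ ≠ 0 := by
      intro h5
      rw [h5] at hσ
      norm_num at hσ
    rcases mul_eq_zero.1 (by linarith : σ * cos (x / 2) = 0) with h5 | h5
    · exact absurd h5 h4
    · exact h5
  have hx_eq : x = π := by
    by_contra hne'
    have h1 : x < π := lt_of_le_of_ne hxπ hne'
    have h2 : 0 < cos (x / 2) := cos_pos_of_mem_Ioo ⟨by linarith, by linarith⟩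
    linarith
  refine ⟨hx_eq, fun t ht => ?_⟩
  rcases le_total t (x / 2) with h1 | h1
  · exact (s1e_sq h 0 (x / 2) σ 0 hm hσ hf1 t ⟨ht.1, h1⟩).2
  · exact (s1e_sq h (x / 2) x (-σ) (-x) (by linarith) (by rw [neg_sq, hσ]) hf2 t ⟨h1, ht.2⟩).2

/-! ### the smallest variation of the cosine over a window -/

/-- the smallest variation of the cosine over a window of length `x` -/
def s1eW (x : ℝ) : ℝ :=
  2 * (⌊x / π⌋₊ : ℝ) + 2 * (1 - cos ((x - ⌊x / π⌋₊ * π) / 2))

theorem s1e_VC_nat (hVF6 : VF6) (y : ℝ) (k : ℕ) : VC (y + k * π) = VC y + 2 * k := by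
  induction k with
  | zero => simp
  | succ k ih =>
    have h1 : y + ((k + 1 : ℕ) : ℝ) * π = (y + k * π) + π := by
      push_cast
      ring
    rw [h1, hVF6.2.1, ih]
    push_cast
    ring

theorem s1e_rem (x : ℝ) (hx : 0 ≤ x) :
    0 ≤ x - ⌊x / π⌋₊ * π ∧ x - ⌊x / π⌋₊ * π < π := by
  have h0 : 0 ≤ x / π := div_nonneg hx pi_pos.le
  have h1 := Nat.floor_le h0
  have h2 := Nat.lt_floor_add_one (x / π)
  rw [le_div_iff₀ pi_pos] at h1
  rw [div_lt_iff₀ pi_pos] at h2
  constructor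
  · linarith
  · linarith

theorem s1e_W_low (hVF6 : VF6) (x y : ℝ) (hx : 0 ≤ x) : s1eW x ≤ VC (y + x) - VC y := by
  obtain ⟨h1, h2⟩ := s1e_rem x hx
  set k := ⌊x / π⌋₊ with hk
  have h3 := (vF4 hVF6 y (x - k * π)).1 h1 h2.le
  rw [hVF6.2.2.2.2] at h3
  have h4 := s1e_VC_nat hVF6 (y + (x - k * π)) k
  have e : y + (x - k * π) + k * π = y + x := by ring
  rw [e] at h4
  unfold s1eW
  rw [← hk]
  linarith

theorem s1e_W_att (hVF6 : VF6) (x : ℝ) (hx : 0 ≤ x) : ∃ z, s1eW x = VC (z + x) - VC z := by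
  obtain ⟨h1, h2⟩ := s1e_rem x hx
  set k := ⌊x / π⌋₊ with hk
  refine ⟨π - (x - k * π) / 2, ?_⟩
  have h4 := s1e_VC_nat hVF6 ((x - k * π) / 2) (k + 1)
  have e : (x - k * π) / 2 + ((k + 1 : ℕ) : ℝ) * π = π - (x - k * π) / 2 + x := by
    push_cast
    ring
  rw [e, hVF6.2.2.2.1 ((x - k * π) / 2) (by linarith) (by linarith)] at h4
  rw [h4, hVF6.2.2.2.1 (π - (x - k * π) / 2) (by linarith) (by linarith), cos_pi_sub]
  unfold s1eW
  rw [← hk]
  push_cast
  ring

theorem s1e_W_add (hVF6 : VF6) (x y : ℝ) (hx : 0 ≤ x) (hy : 0 ≤ y) :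
    s1eW x + s1eW y ≤ s1eW (x + y) := by
  obtain ⟨z, hz⟩ := s1e_W_att hVF6 (x + y) (by linarith)
  have h1 := s1e_W_low hVF6 x z hx
  have h2 := s1e_W_low hVF6 y (z + x) hy
  rw [hz, ← add_assoc]
  linarith

theorem s1e_W_small (x : ℝ) (_hx : 0 ≤ x) (hxπ : x ≤ π) : s1eW x = 2 * (1 - cos (x / 2)) := by
  rcases hxπ.eq_or_lt with h | h
  · rw [h]
    unfold s1eW
    rw [div_self pi_pos.ne', Nat.floor_one, cos_pi_div_two]
    simp
  · unfold s1eW
    have h1 : ⌊x / π⌋₊ = 0 := by
      rw [Nat.floor_eq_zero, div_lt_one pi_pos]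
      exact h
    rw [h1]
    simp

theorem s1e_W_pi : s1eW π = 2 := by
  rw [s1e_W_small π pi_pos.le le_rfl, cos_pi_div_two]
  norm_num

theorem s1e_W_pos (x : ℝ) (hx : 0 < x) : 0 < s1eW x := by
  obtain ⟨h1, h2⟩ := s1e_rem x hx.le
  unfold s1eW
  rcases Nat.eq_zero_or_pos ⌊x / π⌋₊ with h | h
  · rw [h] at h1 h2 ⊢
    have h3 : cos ((x - ((0 : ℕ) : ℝ) * π) / 2) < 1 := by
      rw [Nat.cast_zero, zero_mul, sub_zero] at h2 ⊢
      rw [← cos_zero]
      exact cos_lt_cos_of_nonneg_of_le_pi le_rfl (by linarith) (by linarith)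
    push_cast at h3 ⊢
    linarith
  · have h3 : (1 : ℝ) ≤ (⌊x / π⌋₊ : ℝ) := by exact_mod_cast h
    have h4 := cos_le_one ((x - ⌊x / π⌋₊ * π) / 2)
    linarith

theorem s1e_W_gt (hVF6 : VF6) (x : ℝ) (hx : π < x) : 2 < s1eW x := by
  have h1 := s1e_W_add hVF6 π (x - π) pi_pos.le (by linarith)
  have h2 := s1e_W_pos (x - π) (by linarith)
  rw [s1e_W_pi] at h1
  have e : π + (x - π) = x := by ring
  rw [e] at h1
  linarith

theorem s1e_VC_pos (hVF6 : VF6) (x : ℝ) (hx : 0 < x) : 0 < VC x := by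
  have h1 : VC (min x π) ≤ VC x := hVF6.1 (min_le_left _ _)
  have h2 : 0 < min x π := lt_min hx pi_pos
  rw [hVF6.2.2.2.1 _ h2.le (min_le_right _ _)] at h1
  have h3 : cos (min x π) < 1 := by
    rw [← cos_zero]
    exact cos_lt_cos_of_nonneg_of_le_pi le_rfl (min_le_right _ _) h2
  linarith

theorem s1e_VC_gt (hVF6 : VF6) (x : ℝ) (hx : π < x) : 2 < VC x := by
  have h1 := hVF6.2.1 (x - π)
  rw [sub_add_cancel] at h1
  have h2 := s1e_VC_pos hVF6 (x - π) (by linarith)
  linarith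

/-! ### intervals between two critical points -/

theorem s1e_shift (u : ℝ → ℝ) (a b : ℝ) :
    (∫ t in a..b, |u t|) = ∫ t in (0 : ℝ)..(b - a), |u (t + a)| := by
  rw [intervalIntegral.integral_comp_add_right (fun t => |u t|) a, zero_add, sub_add_cancel]

/-- the last critical point -/
theorem s1e_last {q u v : ℝ → ℝ} (h : Tr q u v) (h0 : u 0 = 0) (m : ℝ) (hm : 0 ≤ m) :
    ∃ a ∈ Icc 0 m, u a = 0 ∧ ∀ s ∈ Ioc a m, u s ≠ 0 := by
  have hK : IsCompact (Icc 0 m ∩ {s | u s = 0}) :=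
    isCompact_Icc.inter_right (isClosed_eq h.cont_u continuous_const)
  obtain ⟨a, ha, hmax⟩ := hK.exists_isGreatest ⟨0, ⟨le_rfl, hm⟩, h0⟩
  refine ⟨a, ha.1, ha.2, fun s hs hs0 => ?_⟩
  have h1 := hmax ⟨⟨ha.1.1.trans hs.1.le, hs.2⟩, hs0⟩
  linarith [hs.1]

/-- the first critical point -/
theorem s1e_first {q u v : ℝ → ℝ} (h : Tr q u v) (m x : ℝ) (hm : m ≤ x) (hx : u x = 0) :
    ∃ b ∈ Icc m x, u b = 0 ∧ ∀ s ∈ Ico m b, u s ≠ 0 := by
  have hK : IsCompact (Icc m x ∩ {s | u s = 0}) :=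
    isCompact_Icc.inter_right (isClosed_eq h.cont_u continuous_const)
  obtain ⟨b, hb, hmin⟩ := hK.exists_isLeast ⟨x, ⟨hm, le_rfl⟩, hx⟩
  refine ⟨b, hb.1, hb.2, fun s hs hs0 => ?_⟩
  have h1 := hmin ⟨⟨hs.1, hs.2.le.trans hb.1.2⟩, hs0⟩
  linarith [hs.2]

theorem s1e_both (hVF6 : VF6) (n : ℕ) : ∀ (q u v : ℝ → ℝ), Tr q u v → ∀ x : ℝ, 0 ≤ x →
    x ≤ 2 ^ n * π → u 0 = 0 → u x = 0 → (∫ t in (0 : ℝ)..x, |u t|) ≤ s1eW x ∧
    (s1eW x ≤ (∫ t in (0 : ℝ)..x, |u t|) → 0 < x → ∀ t ∈ Icc 0 x, u t ^ 2 + v t ^ 2 = 1) := by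
  induction n with
  | zero =>
    intro q u v h x hx hxn h0 hux
    rw [pow_zero, one_mul] at hxn
    rcases hx.eq_or_lt with h1 | h1
    · subst h1
      refine ⟨?_, fun _ h2 => absurd h2 (lt_irrefl _)⟩
      rw [s1e_W_small 0 le_rfl pi_pos.le]
      simp
    · obtain ⟨h2, h3⟩ := s1e_short h h0 x h1 hxn hux
      rw [s1e_W_small x hx hxn]
      exact ⟨h2, fun h4 _ => (h3 h4).2⟩
  | succ n ih =>
    intro q u v h x hx hxn h0 hux
    rcases hx.eq_or_lt with h1 | h1
    · subst h1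
      refine ⟨?_, fun _ h2 => absurd h2 (lt_irrefl _)⟩
      rw [s1e_W_small 0 le_rfl pi_pos.le]
      simp
    obtain ⟨a, ha, hua, hna⟩ := s1e_last h h0 (x / 2) (by linarith)
    obtain ⟨b, hb, hub, hnb⟩ := s1e_first h (x / 2) x (by linarith) hux
    have hhalf : x / 2 ≤ 2 ^ n * π := by
      rw [pow_succ] at hxn
      linarith
    have hab : a ≤ b := ha.2.trans hb.1
    have hcu : Continuous fun t => |u t| := h.cont_u.abs
    have hsplit : (∫ t in (0 : ℝ)..x, |u t|) =
        (∫ t in (0 : ℝ)..a, |u t|) + (∫ t in a..b, |u t|) + ∫ t in b..x, |u t| := by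
      rw [intervalIntegral.integral_add_adjacent_intervals (hcu.intervalIntegrable _ _)
        (hcu.intervalIntegrable _ _), intervalIntegral.integral_add_adjacent_intervals
        (hcu.intervalIntegrable _ _) (hcu.intervalIntegrable _ _)]
    -- the two outer parts
    obtain ⟨p1, e1⟩ := ih q u v h a ha.1 (ha.2.trans hhalf) h0 hua
    obtain ⟨p3, e3⟩ := ih _ _ _ (h.shift b) (x - b) (by linarith [hb.2])
      (by linarith [hb.1]) (by simpa using hub) (by simpa using hux)
    rw [← s1e_shift] at p3 e3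
    -- the middle part
    have hmid : (∫ t in a..b, |u t|) ≤ s1eW (min (b - a) π) ∧
        (a < b → s1eW (b - a) ≤ (∫ t in a..b, |u t|) → b - a ≤ π →
          ∀ t ∈ Icc a b, u t ^ 2 + v t ^ 2 = 1) := by
      rcases hab.eq_or_lt with h2 | h2
      · rw [h2]
        refine ⟨?_, fun h3 => absurd h3 (lt_irrefl _)⟩
        rw [sub_self, min_eq_left pi_pos.le, s1e_W_small 0 le_rfl pi_pos.le]
        simp
      · have h3 : 0 < b - a := by linarith
        have h4 : (fun t => u (t + a)) 0 = 0 := by simpa using hua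
        have h5 : (fun t => u (t + a)) (b - a) = 0 := by simpa using hub
        rcases le_total (b - a) π with h6 | h6
        · obtain ⟨h7, h8⟩ := s1e_short (h.shift a) h4 (b - a) h3 h6 h5
          rw [← s1e_shift] at h7 h8
          rw [min_eq_left h6, s1e_W_small (b - a) h3.le h6]
          refine ⟨h7, fun _ h9 _ t ht => ?_⟩
          have h10 := (h8 h9).2 (t - a) ⟨by linarith [ht.1], by linarith [ht.2]⟩
          simp only [sub_add_cancel] at h10
          exact h10
        · rw [min_eq_right h6, s1e_W_pi]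
          refine ⟨?_, fun _ h9 h10 => ?_⟩
          · have hne : ∀ s ∈ Ioo 0 (b - a), (fun t => u (t + a)) s ≠ 0 := by
              intro s hs
              rcases le_total (s + a) (x / 2) with h7 | h7
              · exact hna (s + a) ⟨by linarith [hs.1], h7⟩
              · exact hnb (s + a) ⟨h7, by linarith [hs.2]⟩
            have h11 := (s1e_gap (h.shift a) h4 (b - a) h3 hne).1
            rw [← s1e_shift, min_eq_right h6, cos_pi] at h11
            linarith
          · have h11 : b - a = π := le_antisymm h10 h6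
            have h12 : a < b := h2
            obtain ⟨h7, h8⟩ := s1e_short (h.shift a) h4 (b - a) h3 h10 h5
            rw [← s1e_shift] at h7 h8
            rw [s1e_W_small (b - a) h3.le h10] at h9
            intro t ht
            have h13 := (h8 h9).2 (t - a) ⟨by linarith [ht.1], by linarith [ht.2]⟩
            simp only [sub_add_cancel] at h13
            exact h13
    obtain ⟨p2, e2⟩ := hmid
    -- superadditivity
    have hW1 := s1e_W_add hVF6 a (b - a) ha.1 (by linarith)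
    have hW2 := s1e_W_add hVF6 (a + (b - a)) (x - b) (by linarith [ha.1, hab]) (by linarith [hb.2])
    have exx : a + (b - a) + (x - b) = x := by ring
    rw [exx] at hW2
    have hWm : s1eW (min (b - a) π) ≤ s1eW (b - a) := by
      rcases le_total (b - a) π with h6 | h6
      · rw [min_eq_left h6]
      · rw [min_eq_right h6]
        have h7 := s1e_W_add hVF6 π (b - a - π) pi_pos.le (by linarith)
        have h8 : 0 ≤ s1eW (b - a - π) := by
          rcases (sub_nonneg.2 h6).eq_or_lt with h9 | h9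
          · rw [← h9, s1e_W_small 0 le_rfl pi_pos.le]
            simp
          · exact (s1e_W_pos _ h9).le
        have e : π + (b - a - π) = b - a := by ring
        rw [e] at h7
        linarith
    refine ⟨by rw [hsplit]; linarith, fun hge _ t ht => ?_⟩
    rw [hsplit] at hge
    have q1 : s1eW a ≤ ∫ t in (0 : ℝ)..a, |u t| := by linarith
    have q3 : s1eW (x - b) ≤ ∫ t in b..x, |u t| := by linarith
    have q2 : s1eW (b - a) ≤ ∫ t in a..b, |u t| := by linarith
    have hγ : b - a ≤ π := by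
      by_contra hcon
      push Not at hcon
      have h7 := s1e_W_gt hVF6 (b - a) hcon
      rw [min_eq_right hcon.le, s1e_W_pi] at p2
      linarith
    rcases lt_or_ge t a with h7 | h7
    · exact e1 q1 (by linarith [ht.1]) t ⟨ht.1, h7.le⟩
    rcases lt_or_ge b t with h8 | h8
    · have h9 := e3 q3 (by linarith [ht.2]) (t - b) ⟨by linarith, by linarith [ht.2]⟩
      simp only [sub_add_cancel] at h9
      exact h9
    rcases hab.eq_or_lt with h9 | h9
    · have h10 : t = a := le_antisymm (by linarith) h7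
      have h11 : 0 < a := by
        have := hb.1
        linarith
      exact e1 q1 h11 t ⟨ht.1, h10.le⟩
    · exact e2 h9 q2 hγ t ⟨h7, h8⟩

/-! ### intervals with a critical end point -/

theorem s1e_left (hVF6 : VF6) (q u v : ℝ → ℝ) (h : Tr q u v) (h0 : u 0 = 0) (y : ℝ)
    (hy : 0 ≤ y) : (∫ t in (0 : ℝ)..y, |u t|) ≤ VC y ∧
    (VC y ≤ (∫ t in (0 : ℝ)..y, |u t|) → 0 < y → ∀ t ∈ Icc 0 y, u t ^ 2 + v t ^ 2 = 1) := by
  obtain ⟨b, hb, hub, hnb⟩ := s1e_last h h0 y hy
  obtain ⟨n, hn⟩ := pow_unbounded_of_one_lt (b / π) (one_lt_two : (1 : ℝ) < 2)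
  have hn' : b ≤ 2 ^ n * π := by
    rw [div_lt_iff₀ pi_pos] at hn
    exact hn.le
  have hcu : Continuous fun t => |u t| := h.cont_u.abs
  have hsplit : (∫ t in (0 : ℝ)..y, |u t|) =
      (∫ t in (0 : ℝ)..b, |u t|) + ∫ t in b..y, |u t| :=
    (intervalIntegral.integral_add_adjacent_intervals (hcu.intervalIntegrable _ _)
      (hcu.intervalIntegrable _ _)).symm
  obtain ⟨p1, e1⟩ := s1e_both hVF6 n q u v h b hb.1 hn' h0 hub
  have hW := s1e_W_low hVF6 b (y - b) hb.1
  rw [sub_add_cancel] at hW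
  have hp2 : (∫ t in b..y, |u t|) ≤ VC (y - b) ∧
      (VC (y - b) ≤ (∫ t in b..y, |u t|) → b < y → ∀ t ∈ Icc b y, u t ^ 2 + v t ^ 2 = 1) := by
    rcases hb.2.eq_or_lt with h2 | h2
    · rw [h2]
      refine ⟨?_, fun _ h3 => absurd h3 (lt_irrefl _)⟩
      rw [sub_self, hVF6.2.2.2.1 0 le_rfl pi_pos.le]
      simp
    · have h3 : 0 < y - b := by linarith
      have h4 : (fun t => u (t + b)) 0 = 0 := by simpa using hub
      have hne : ∀ s ∈ Ioo 0 (y - b), (fun t => u (t + b)) s ≠ 0 := fun s hs =>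
        hnb (s + b) ⟨by linarith [hs.1], by linarith [hs.2]⟩
      obtain ⟨h5, h6⟩ := s1e_gap (h.shift b) h4 (y - b) h3 hne
      rw [← s1e_shift] at h5 h6
      rcases le_total (y - b) π with h7 | h7
      · rw [min_eq_left h7] at h5
        rw [hVF6.2.2.2.1 _ h3.le h7]
        refine ⟨h5, fun h8 _ t ht => ?_⟩
        have h9 := h6 h7 h8 (t - b) ⟨by linarith [ht.1], by linarith [ht.2]⟩
        simp only [sub_add_cancel] at h9
        exact h9
      · rw [min_eq_right h7, cos_pi] at h5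
        have h8 : VC π ≤ VC (y - b) := hVF6.1 h7
        rw [hVF6.2.2.2.1 π pi_pos.le le_rfl, cos_pi] at h8
        refine ⟨by linarith, fun h9 _ t ht => ?_⟩
        have h10 : y - b = π := by
          by_contra hcon
          have h11 := s1e_VC_gt hVF6 (y - b) (lt_of_le_of_ne h7 (Ne.symm hcon))
          linarith
        rw [h10] at h6
        have h12 := h6 le_rfl (by rw [cos_pi]; linarith) (t - b)
          ⟨by linarith [ht.1], by linarith [ht.2]⟩
        simp only [sub_add_cancel] at h12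
        exact h12
  obtain ⟨p2, e2⟩ := hp2
  refine ⟨by rw [hsplit]; linarith, fun hge hypos t ht => ?_⟩
  rw [hsplit] at hge
  have q1 : s1eW b ≤ ∫ t in (0 : ℝ)..b, |u t| := by linarith
  have q2 : VC (y - b) ≤ ∫ t in b..y, |u t| := by linarith
  rcases hb.2.eq_or_lt with h2 | h2
  · have h3 : 0 < b := by linarith
    exact e1 q1 h3 t ⟨ht.1, by linarith [ht.2]⟩
  · rcases lt_or_ge t b with h3 | h3
    · exact e1 q1 (by linarith [ht.1]) t ⟨ht.1, h3.le⟩
    · exact e2 q2 h2 t ⟨h3, ht.2⟩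

theorem s1e_right (hVF6 : VF6) (q u v : ℝ → ℝ) (h : Tr q u v) (a : ℝ) (ha : u a = 0)
    (ha0 : 0 ≤ a) : (∫ t in (0 : ℝ)..a, |u t|) ≤ VC a ∧
    (VC a ≤ (∫ t in (0 : ℝ)..a, |u t|) → 0 < a → ∀ t ∈ Icc 0 a, u t ^ 2 + v t ^ 2 = 1) := by
  have h1 : Tr (fun t => q (-(t + -a))) (fun t => -u (-(t + -a))) (fun t => v (-(t + -a))) :=
    (s1e_refl h).shift (-a)
  have h2 : (fun t => -u (-(t + -a))) 0 = 0 := by simp [ha]
  obtain ⟨p, e⟩ := s1e_left hVF6 _ _ _ h1 h2 a ha0
  have h3 : (∫ t in (0 : ℝ)..a, |(fun t => -u (-(t + -a))) t|) = ∫ t in (0 : ℝ)..a, |u t| := by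
    have h4 : (∫ t in (0 : ℝ)..a, |(fun t => -u (-(t + -a))) t|) =
        ∫ t in (0 : ℝ)..a, |u (a - t)| := by
      apply intervalIntegral.integral_congr
      intro t _
      simp only [abs_neg]
      congr 2
      ring
    rw [h4, intervalIntegral.integral_comp_sub_left (fun t => |u t|) a, sub_self, sub_zero]
  rw [h3] at p e
  refine ⟨p, fun h5 h6 t ht => ?_⟩
  have h7 := e h5 h6 (a - t) ⟨by linarith [ht.2], by linarith [ht.1]⟩
  have e1 : -(a - t + -a) = t := by ring
  rw [e1, neg_sq] at h7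
  exact h7

/-! ### intervals without critical points -/

theorem s1e_none (hVMf : VMf) (q u v : ℝ → ℝ) (h : Tr q u v) (l : ℝ) (hl : 0 < l)
    (hpos : ∀ s ∈ Icc 0 l, 0 ≤ u s) (hge : VM l ≤ ∫ t in (0 : ℝ)..l, |u t|) :
    ∀ t ∈ Icc 0 l, u t ^ 2 + v t ^ 2 = 1 := by
  have h1 : (∫ t in (0 : ℝ)..l, |u t|) = q l - q 0 := by
    rw [← s1e_ftc h]
    apply intervalIntegral.integral_congr
    intro s hs'
    rw [uIcc_of_le hl.le] at hs'
    exact abs_of_nonneg (hpos s hs')
  rw [h1] at hge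
  have hq0 := s1e_q_le h 0
  have hql := s1e_q_le h l
  have hlπ : l ≤ π := by
    by_contra hcon
    push Not at hcon
    have h2 := (hVMf.1 l hl.le).1
    have h3 : 2 < 2 / π * l := by
      rw [div_mul_eq_mul_div, lt_div_iff₀ pi_pos]
      nlinarith [pi_pos]
    linarith
  rw [hVMf.2.1 l hl.le hlπ] at hge
  set φ0 := arcsin (q 0) with hφ0
  set φl := arcsin (q l) with hφl
  have hs0 : sin φ0 = q 0 := sin_arcsin hq0.1 hq0.2
  have hsl : sin φl = q l := sin_arcsin hql.1 hql.2
  have hlip := (abs_le.1 (s1e_lip h 0 l)).2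
  rw [sub_zero, abs_of_pos hl] at hlip
  have hΔ : l ≤ φl - φ0 := by
    have h2 : q l - q 0 = 2 * sin ((φl - φ0) / 2) * cos ((φl + φ0) / 2) := by
      rw [← hsl, ← hs0]
      exact sin_sub_sin φl φ0
    have h0l : 0 < sin (l / 2) := sin_pos_of_pos_of_lt_pi (by linarith) (by linarith [pi_pos])
    have h3 : 0 < q l - q 0 := by linarith
    have h4 : q 0 ≤ q l := by linarith
    have h5 : φ0 ≤ φl := monotone_arcsin h4
    have hr1 := arcsin_le_pi_div_two (q l)
    have hr2 := neg_pi_div_two_le_arcsin (q 0)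
    have h6 : 0 ≤ sin ((φl - φ0) / 2) :=
      sin_nonneg_of_nonneg_of_le_pi (by linarith) (by linarith)
    have h7 : sin (l / 2) ≤ sin ((φl - φ0) / 2) := by
      have h8 := cos_le_one ((φl + φ0) / 2)
      nlinarith
    by_contra hcon
    push Not at hcon
    have h9 : sin ((φl - φ0) / 2) < sin (l / 2) :=
      sin_lt_sin_of_lt_of_le_pi_div_two (by linarith) (by linarith) (by linarith)
    linarith
  have hph : ∀ t ∈ Icc 0 l, arcsin (q t) = t + φ0 := by
    intro t ht
    have h2 := (abs_le.1 (s1e_lip h 0 t)).2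
    have h3 := (abs_le.1 (s1e_lip h t l)).2
    rw [sub_zero, abs_of_nonneg ht.1] at h2
    rw [abs_of_nonneg (by linarith [ht.2] : (0 : ℝ) ≤ l - t)] at h3
    linarith
  have hq : ∀ t ∈ Icc 0 l, q t = sin (t + φ0) := by
    intro t ht
    rw [← hph t ht, sin_arcsin (s1e_q_le h t).1 (s1e_q_le h t).2]
  have hu : ∀ t ∈ Icc 0 l, u t = cos (t + φ0) := by
    intro t ht
    have h2 : HasDerivWithinAt q (u t) (Icc 0 l) t := (h.hq t).hasDerivWithinAt
    have h3 : HasDerivAt (fun t => sin (t + φ0)) (cos (t + φ0)) t := by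
      simpa using ((hasDerivAt_id t).add_const φ0).sin
    have h4 : HasDerivWithinAt q (cos (t + φ0)) (Icc 0 l) t :=
      (h3.hasDerivWithinAt).congr (fun s hs => hq s hs) (hq t ht)
    exact (uniqueDiffOn_Icc hl t ht).eq_deriv _ h2 h4
  have hfin := s1e_sq h 0 l 1 (φ0 + π / 2) hl (by norm_num) (fun t ht => by
    rw [one_mul, hu t ht, ← add_assoc, sin_add_pi_div_two])
  exact fun t ht => (hfin t ht).2

theorem s1e (hVMf : VMf) (hVF6 : VF6) : S1e := by
  intro q u v l h hl hge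
  by_cases hz : ∃ a ∈ Icc 0 l, u a = 0
  · obtain ⟨a, ha, hua⟩ := hz
    have hcu : Continuous fun t => |u t| := h.cont_u.abs
    have hsplit : (∫ t in (0 : ℝ)..l, |u t|) =
        (∫ t in (0 : ℝ)..a, |u t|) + ∫ t in a..l, |u t| :=
      (intervalIntegral.integral_add_adjacent_intervals (hcu.intervalIntegrable _ _)
        (hcu.intervalIntegrable _ _)).symm
    obtain ⟨p1, e1⟩ := s1e_right hVF6 q u v h a hua ha.1
    obtain ⟨p2, e2⟩ := s1e_left hVF6 _ _ _ (h.shift a) (by simpa using hua) (l - a)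
      (by linarith [ha.2])
    rw [← s1e_shift] at p2 e2
    have h3 := hVMf.2.2.2.1 a (l - a) ha.1 (by linarith [ha.2])
    have e : a + (l - a) = l := by ring
    rw [e] at h3
    rw [hsplit] at hge
    intro t ht
    rcases ha.2.eq_or_lt with h4 | h4
    · exact e1 (by linarith) (by linarith) t ⟨ht.1, by linarith [ht.2]⟩
    · rcases lt_or_ge t a with h5 | h5
      · exact e1 (by linarith) (by linarith [ht.1]) t ⟨ht.1, h5.le⟩
      · have h6 := e2 (by linarith) (by linarith) (t - a) ⟨by linarith, by linarith [ht.2]⟩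
        simp only [sub_add_cancel] at h6
        exact h6
  · push Not at hz
    rcases s1e_sign u 0 l hl h.cont_u (fun s hs => hz s ⟨hs.1.le, hs.2.le⟩) with hs | hs
    · exact s1e_none hVMf q u v h l hl hs hge
    · have h1 := s1e_none hVMf _ _ _ h.neg l hl (fun s hs' => by
        have := hs s hs'
        linarith) (by
          simp only [abs_neg]
          exact hge)
      intro t ht
      have h2 := h1 t ht
      simp only [neg_sq] at h2
      exact h2

end

end Pool.Agent.Helper10.AL
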