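import Pool.Agent.Helper10.AL.St9

/-!
Comparison of the derivatives at the ends of a window near `1`.
-/

set_option autoImplicit false

namespace Pool.Agent.Helper10.AL

open Polynomial Set Real MeasureTheory intervalIntegral
open Pool.Agent.Helper40.AS (arc Bdd Ext quad)

private theorem shf_cont (P : ℝ[X]) : Continuous (fun x => |P.derivative.eval x|) :=
  P.derivative.continuous.abs

private theorem shf_arc_ge (P : ℝ[X]) {a b : ℝ} (hab : a ≤ b) :
    (∫ x in a..b, |P.derivative.eval x|) ≤ arc a b P := by
  unfold arc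
  refine intervalIntegral.integral_mono_on hab ((shf_cont P).intervalIntegrable _ _) ?_ ?_
  · exact (((continuous_const.add (P.derivative.continuous.pow 2)).sqrt)).intervalIntegrable _ _
  · intro x _
    rw [← Real.sqrt_sq_eq_abs]
    exact Real.sqrt_le_sqrt (by linarith)

private theorem shf_arc_le (P : ℝ[X]) {a b : ℝ} (hab : a ≤ b) :
    arc a b P ≤ (∫ x in a..b, |P.derivative.eval x|) + (b - a) := by
  unfold arc
  have h1 : (∫ x in a..b, |P.derivative.eval x|) + (b - a) =
      ∫ x in a..b, (|P.derivative.eval x| + 1) := by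
    rw [intervalIntegral.integral_add ((shf_cont P).intervalIntegrable _ _)
      (continuous_const.intervalIntegrable _ _)]
    simp
  rw [h1]
  refine intervalIntegral.integral_mono_on hab ?_ ?_ ?_
  · exact (((continuous_const.add (P.derivative.continuous.pow 2)).sqrt)).intervalIntegrable _ _
  · exact ((shf_cont P).add continuous_const).intervalIntegrable _ _
  · intro x _
    rw [Real.sqrt_le_left (by positivity)]
    nlinarith [abs_nonneg (P.derivative.eval x), sq_abs (P.derivative.eval x)]

/-- change of variables -/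
private theorem shf_subst (P : ℝ[X]) {a b l : ℝ} (hl : 0 ≤ 1 - l) :
    (∫ x in a..b, |(P.comp (C (1 - l) * X - C l)).derivative.eval x|) =
      ∫ y in ((1 - l) * a - l)..((1 - l) * b - l), |P.derivative.eval y| := by
  have h1 : ∀ x : ℝ, |(P.comp (C (1 - l) * X - C l)).derivative.eval x| =
      (1 - l) * |P.derivative.eval ((1 - l) * x - l)| := by
    intro x
    rw [derivative_comp]
    simp [abs_mul, abs_of_nonneg hl]
  simp_rw [h1]
  rw [intervalIntegral.integral_const_mul]
  exact intervalIntegral.mul_integral_comp_mul_sub (a := a) (b := b)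
    (f := fun y => |P.derivative.eval y|) (1 - l) l

theorem shf (hMk : Mk) : Shf := by
  intro K hK
  refine ⟨16 + 11 * K, by positivity, 1, ?_⟩
  intro n hn a b P hW hE
  obtain ⟨hn1, ha2, hab, hb1, hna⟩ := hW
  have hdeg : P.natDegree ≤ n := natDegree_le_iff_degree_le.2 hE.deg
  obtain ⟨hk, -⟩ := hMk n P hn1 hdeg hE.bdd
  have hnR : (1 : ℝ) ≤ n := by exact_mod_cast hn1
  have hn0 : (0 : ℝ) < n := by linarith
  set l : ℝ := 1 / (n : ℝ) ^ 3 with hldef
  have hl0 : 0 < l := by positivity
  have hln : l * (n : ℝ) ^ 3 = 1 := by rw [hldef]; field_simp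
  have hl1 : l ≤ 1 := by
    rw [hldef, div_le_one (by positivity)]
    exact one_le_pow₀ hnR
  have hder2 : ∀ x ∈ Icc (-1 : ℝ) 1, |P.derivative.derivative.eval x| ≤ 4 * (n : ℝ) ^ 4 := by
    intro x hx
    have := hk 2 x hx
    simp only [Function.iterate_succ, Function.iterate_zero, Function.comp_apply, id] at this
    calc _ ≤ _ := this
      _ = _ := by ring
  have hder1 : |P.derivative.eval b| ≤ 2 * (n : ℝ) ^ 2 := by
    have := hk 1 b ⟨by linarith, hb1.le⟩
    simpa using this
  have hlip : ∀ x ∈ Icc (-1 : ℝ) 1, ∀ y ∈ Icc (-1 : ℝ) 1,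
      |P.derivative.eval y - P.derivative.eval x| ≤ 4 * (n : ℝ) ^ 4 * |y - x| := by
    intro x hx y hy
    have := (convex_Icc (-1 : ℝ) 1).norm_image_sub_le_of_norm_deriv_le
      (f := fun x => P.derivative.eval x) (C := 4 * (n : ℝ) ^ 4)
      (fun z _ => P.derivative.differentiableAt) (fun z hz => by
        simpa [Polynomial.deriv] using hder2 z hz) hx hy
    simpa [Real.norm_eq_abs] using this
  set Q : ℝ[X] := P.comp (C (1 - l) * X - C l) with hQ
  have hQdeg : Q.degree ≤ n := by
    rw [← natDegree_le_iff_degree_le, hQ]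
    refine (natDegree_comp_le).trans ?_
    have h1 : (C (1 - l) * X - C l : ℝ[X]).natDegree ≤ 1 := by
      refine (natDegree_sub_le _ _).trans (max_le ?_ ?_)
      · exact (natDegree_C_mul_le _ _).trans natDegree_X_le
      · rw [natDegree_C]; omega
    calc _ ≤ P.natDegree * 1 := Nat.mul_le_mul_left _ h1
      _ ≤ n := by omega
  have hQb : Bdd Q := by
    intro x hx
    rw [hQ, eval_comp]
    refine hE.bdd _ ?_
    simp only [eval_sub, eval_mul, eval_C, eval_X]
    constructor
    · nlinarith [hx.1, hx.2]
    · nlinarith [hx.1, hx.2]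
  have hmax := hE.max Q hQdeg hQb
  have h1 := shf_arc_ge Q hab.le
  have h2 := shf_arc_le P hab.le
  rw [hQ, shf_subst P (by linarith : 0 ≤ 1 - l), ← hQ] at h1
  have hi : ∀ u v : ℝ, IntervalIntegrable (fun x => |P.derivative.eval x|) volume u v :=
    fun u v => (shf_cont P).intervalIntegrable u v
  have hadd : (∫ y in ((1 - l) * a - l)..((1 - l) * b - l), |P.derivative.eval y|) =
      (∫ y in ((1 - l) * a - l)..a, |P.derivative.eval y|) +
      (∫ y in a..b, |P.derivative.eval y|) -
      ∫ y in ((1 - l) * b - l)..b, |P.derivative.eval y| := by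
    have e1 := intervalIntegral.integral_add_adjacent_intervals (hi ((1 - l) * a - l) a) (hi a b)
    have e2 := intervalIntegral.integral_add_adjacent_intervals
      (hi ((1 - l) * a - l) ((1 - l) * b - l)) (hi ((1 - l) * b - l) b)
    linarith
  have h3 : (|P.derivative.eval a| - 8 * n) * (l * (1 + a)) ≤
      ∫ y in ((1 - l) * a - l)..a, |P.derivative.eval y| := by
    have hle : (1 - l) * a - l ≤ a := by nlinarith
    have h := intervalIntegral.integral_mono_on (μ := volume) hle
      (f := fun _ => |P.derivative.eval a| - 8 * n)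
      (g := fun y => |P.derivative.eval y|) (continuous_const.intervalIntegrable _ _) (hi _ _)
      (by
        intro y hy
        have hy' : y ∈ Icc (-1 : ℝ) 1 := ⟨by nlinarith [hy.1], by linarith [hy.2]⟩
        have h5 := hlip y hy' a ⟨by linarith, by linarith⟩
        have h6 : |a - y| ≤ 2 * l := by
          rw [abs_of_nonneg (by linarith [hy.2])]
          nlinarith [hy.1]
        have h7 : 4 * (n : ℝ) ^ 4 * |a - y| ≤ 8 * n := by
          calc _ ≤ 4 * (n : ℝ) ^ 4 * (2 * l) := by gcongr
            _ = 8 * n * (l * (n : ℝ) ^ 3) := by ring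
            _ = 8 * n := by rw [hln, mul_one]
        have h8 := abs_sub_abs_le_abs_sub (P.derivative.eval a) (P.derivative.eval y)
        show _ ≤ _
        linarith)
    rw [intervalIntegral.integral_const, smul_eq_mul] at h
    calc _ = (a - ((1 - l) * a - l)) * (|P.derivative.eval a| - 8 * n) := by ring
      _ ≤ _ := h
  have h4 : (∫ y in ((1 - l) * b - l)..b, |P.derivative.eval y|) ≤
      (|P.derivative.eval b| + 8 * n) * (l * (1 + b)) := by
    have hle : (1 - l) * b - l ≤ b := by nlinarith
    have h := intervalIntegral.integral_mono_on (μ := volume) hle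
      (g := fun _ => |P.derivative.eval b| + 8 * n)
      (f := fun y => |P.derivative.eval y|) (hi _ _) (continuous_const.intervalIntegrable _ _)
      (by
        intro y hy
        have hy' : y ∈ Icc (-1 : ℝ) 1 := ⟨by nlinarith [hy.1], by linarith [hy.2]⟩
        have h5 := hlip b ⟨by linarith, by linarith⟩ y hy'
        have h6 : |y - b| ≤ 2 * l := by
          rw [abs_sub_comm, abs_of_nonneg (by linarith [hy.2])]
          nlinarith [hy.1]
        have h7 : 4 * (n : ℝ) ^ 4 * |y - b| ≤ 8 * n := by
          calc _ ≤ 4 * (n : ℝ) ^ 4 * (2 * l) := by gcongr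
            _ = 8 * n * (l * (n : ℝ) ^ 3) := by ring
            _ = 8 * n := by rw [hln, mul_one]
        have h8 := abs_sub_abs_le_abs_sub (P.derivative.eval y) (P.derivative.eval b)
        show _ ≤ _
        linarith)
    rw [intervalIntegral.integral_const, smul_eq_mul] at h
    calc _ ≤ _ := h
      _ = _ := by ring
  have hkey : (|P.derivative.eval a| - 8 * n) * (l * (1 + a)) ≤
      (|P.derivative.eval b| + 8 * n) * (l * (1 + b)) + (b - a) := by linarith
  -- multiply by `n ^ 3`
  have hkey2 : (|P.derivative.eval a| - 8 * n) * (1 + a) ≤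
      (|P.derivative.eval b| + 8 * n) * (1 + b) + (b - a) * (n : ℝ) ^ 3 := by
    have := mul_le_mul_of_nonneg_right hkey (by positivity : (0 : ℝ) ≤ (n : ℝ) ^ 3)
    calc _ = (|P.derivative.eval a| - 8 * n) * (1 + a) * (l * (n : ℝ) ^ 3) := by
            rw [hln]; ring
      _ = (|P.derivative.eval a| - 8 * n) * (l * (1 + a)) * (n : ℝ) ^ 3 := by ring
      _ ≤ _ := this
      _ = (|P.derivative.eval b| + 8 * n) * (1 + b) * (l * (n : ℝ) ^ 3) +
          (b - a) * (n : ℝ) ^ 3 := by ring
      _ = _ := by rw [hln]; ring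
  have hba : (b - a) * (n : ℝ) ^ 2 ≤ K := by nlinarith [sq_nonneg (n : ℝ)]
  have hba3 : (b - a) * (n : ℝ) ^ 3 ≤ K * n := by
    calc _ = (b - a) * (n : ℝ) ^ 2 * n := by ring
      _ ≤ K * n := by gcongr
  have hbn : (|P.derivative.eval b| + 8 * n) * (b - a) ≤ 10 * K := by
    have h5 : |P.derivative.eval b| + 8 * n ≤ 10 * (n : ℝ) ^ 2 := by nlinarith
    calc _ ≤ 10 * (n : ℝ) ^ 2 * (b - a) := by
            apply mul_le_mul_of_nonneg_right h5; linarith
      _ = 10 * ((b - a) * (n : ℝ) ^ 2) := by ring
      _ ≤ 10 * K := by linarith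
  have hfin : (|P.derivative.eval a| - 8 * n - (|P.derivative.eval b| + 8 * n)) * (1 + a) ≤
      10 * K + K * n := by nlinarith
  by_contra hcon
  push Not at hcon
  have h9 : (11 * K) * n < |P.derivative.eval a| - 8 * n - (|P.derivative.eval b| + 8 * n) := by
    nlinarith
  have h10 : (11 * K) * n < (|P.derivative.eval a| - 8 * n - (|P.derivative.eval b| + 8 * n)) *
      (1 + a) := by
    have : 0 < (11 * K) * n := by positivity
    nlinarith
  nlinarith

end Pool.Agent.Helper10.AL
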