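import Pool.Agent.Helper10.AL.St9

/-!
Short windows near `1`: the derivative of an extremal polynomial is large.
-/

set_option autoImplicit false

namespace Pool.Agent.Helper10.AL

open Polynomial Set Real MeasureTheory intervalIntegral
open Pool.Agent.Helper40.AS (arc Bdd Ext quad)

/-- the second derivative is at most `4 n ^ 4` -/
lemma sw_der2 (hMk : Mk) {n : ℕ} {P : ℝ[X]} (hn : 1 ≤ n) (hP : P.natDegree ≤ n) (hB : Bdd P)
    {x y : ℝ} (hx : x ∈ Icc (-1 : ℝ) 1) (hy : y ∈ Icc (-1 : ℝ) 1) :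
    |P.derivative.eval y - P.derivative.eval x| ≤ 4 * (n : ℝ) ^ 4 * |y - x| := by
  have h1 := (hMk n P hn hP hB).1 2
  have h2 : ∀ z ∈ Icc (-1 : ℝ) 1, ‖P.derivative.derivative.eval z‖ ≤ 4 * (n : ℝ) ^ 4 := by
    intro z hz
    rw [Real.norm_eq_abs]
    refine (h1 z hz).trans (le_of_eq ?_)
    ring
  have h3 := (convex_Icc (-1 : ℝ) 1).norm_image_sub_le_of_norm_hasDerivWithin_le
    (f := fun z => P.derivative.eval z) (f' := fun z => P.derivative.derivative.eval z)
    (C := 4 * (n : ℝ) ^ 4) (fun z _ => (P.derivative.hasDerivAt z).hasDerivWithinAt) h2 hx hy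
  simpa [Real.norm_eq_abs] using h3

/-- a competitor with a large derivative at `a` -/
lemma sw_comp (hA2 : A2) {n : ℕ} {K a : ℝ} (hK : 0 < K) (hn : 1 ≤ n)
    (hbig : √(5 * K) + 5 ≤ n) (ha : 1 / 2 ≤ a) (ha1 : a < 1) (haK : (n : ℝ) ^ 2 * (1 - a) ≤ K) :
    ∃ Q : ℝ[X], Q.degree ≤ n ∧ Bdd Q ∧
      1 / (2 * (√(5 * K) + 5)) * (n : ℝ) ^ 2 ≤ |Q.derivative.eval a| := by
  have hn0 : (0 : ℝ) < n := by
    have : (1 : ℝ) ≤ n := by exact_mod_cast hn
    linarith
  set K1 := √(5 * K) with hK1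
  have hK10 : 0 ≤ K1 := Real.sqrt_nonneg _
  set α := arccos a with hα
  have hα0 : 0 ≤ α := arccos_nonneg a
  have hαπ : α ≤ π := arccos_le_pi a
  have hcosα : cos α = a := cos_arccos (by linarith) ha1.le
  have hnα : n * α ≤ K1 := by
    have h1 : cos α ≤ 1 - 2 / π ^ 2 * α ^ 2 := cos_le_one_sub_mul_cos_sq (by
      rw [abs_of_nonneg hα0]
      exact hαπ)
    rw [hcosα] at h1
    apply Real.le_sqrt_of_sq_le
    have hπ : π ^ 2 ≤ 10 := by
      have h2 := pi_lt_d2
      have h3 := pi_pos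
      nlinarith
    have h2 : 2 / π ^ 2 * α ^ 2 ≤ 1 - a := by linarith
    have h3 : (n : ℝ) ^ 2 * (2 / π ^ 2 * α ^ 2) ≤ K :=
      (mul_le_mul_of_nonneg_left h2 (by positivity)).trans haK
    have h4 : (n * α) ^ 2 * 2 ≤ K * π ^ 2 := by
      have h5 : (n : ℝ) ^ 2 * (2 / π ^ 2 * α ^ 2) = (n * α) ^ 2 * 2 / π ^ 2 := by
        field_simp
      rw [h5, div_le_iff₀ (by positivity)] at h3
      exact h3
    nlinarith
  obtain ⟨k, hk1, hk2⟩ : ∃ k : ℕ, n * α ≤ k * π ∧ (k : ℝ) * π ≤ n * α + π := by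
    refine ⟨⌈n * α / π⌉₊, ?_, ?_⟩
    · rw [← div_le_iff₀ pi_pos]
      exact Nat.le_ceil _
    · have h1 := (Nat.ceil_lt_add_one (a := n * α / π) (by positivity)).le
      have h2 := mul_le_mul_of_nonneg_right h1 pi_pos.le
      rw [add_mul, div_mul_cancel₀ _ pi_pos.ne', one_mul] at h2
      exact h2
  set θ := (k + 1 / 2) * π / n with hθ
  have hnθ : n * θ = (k + 1 / 2) * π := by
    rw [hθ]
    field_simp
  have hθα : α ≤ θ := by
    have h1 : n * α ≤ n * θ := by
      rw [hnθ]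
      nlinarith [pi_pos]
    exact le_of_mul_le_mul_left h1 hn0
  have hθK : θ ≤ (K1 + 5) / n := by
    rw [le_div_iff₀ hn0, mul_comm, hnθ]
    have := pi_lt_d2
    nlinarith
  have hθ0 : 0 < θ := by
    rw [hθ]
    have := pi_pos
    positivity
  have hθ1 : θ ≤ 1 := by
    refine hθK.trans ?_
    rw [div_le_one hn0]
    exact hbig
  have hπ3 := pi_gt_three
  have hcos0 : 0 ≤ cos θ := cos_nonneg_of_neg_pi_div_two_le_of_le (by linarith) (by linarith)
  have hcosa : cos θ ≤ a := by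
    rw [← hcosα]
    exact cos_le_cos_of_nonneg_of_le_pi hα0 (by linarith) hθα
  have hcos1 : cos θ ≤ 1 := cos_le_one θ
  set r := (1 + cos θ) / (1 + a) with hr
  have ha0 : 0 < 1 + a := by linarith
  have hr1 : r ≤ 1 := by
    rw [hr, div_le_one ha0]
    linarith
  have hr2 : 1 / 2 ≤ r := by
    rw [hr, le_div_iff₀ ha0]
    linarith
  have hra : r * a + (r - 1) = cos θ := by
    have : r * (1 + a) = 1 + cos θ := by
      rw [hr]
      field_simp
    linarith
  set A : ℝ[X] := C r * X + C (r - 1) with hA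
  have hAev : ∀ x, A.eval x = r * x + (r - 1) := by
    intro x
    simp [hA]
  set T := Chebyshev.T ℝ (n : ℤ) with hT
  have hTcos : ∀ t : ℝ, T.eval (cos t) = cos (n * t) := by
    intro t
    have := Chebyshev.T_real_cos t (n : ℤ)
    rw [Int.cast_natCast] at this
    exact this
  have hTdeg : T.natDegree ≤ n := by
    rw [hT]
    apply natDegree_le_of_degree_le
    rw [Chebyshev.degree_T, Int.natAbs_natCast]
  have hAdeg : A.natDegree ≤ 1 := by
    rw [hA]
    exact natDegree_linear_le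
  have hTder : sin θ * T.derivative.eval (cos θ) = n * sin (n * θ) := by
    have h1 := (hA2.2.2 T θ).1
    have h2 : qq T = fun t => cos (n * t) := by
      funext t
      exact hTcos t
    rw [h2] at h1
    have h3 : deriv (fun t : ℝ => cos (n * t)) θ = -(n * sin (n * θ)) := by
      have h4 : HasDerivAt (fun t : ℝ => cos (n * t)) (-sin (n * θ) * (n * 1)) θ :=
        ((hasDerivAt_id θ).const_mul (n : ℝ)).cos
      rw [h4.deriv]
      ring
    rw [h3] at h1
    linarith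
  have hsin : |sin (n * θ)| = 1 := by
    have h1 : cos (n * θ) = 0 := by
      rw [hnθ, cos_eq_zero_iff]
      refine ⟨k, ?_⟩
      push_cast
      ring
    have h2 := sin_sq_add_cos_sq (n * θ)
    rw [h1] at h2
    have h3 : |sin (n * θ)| ^ 2 = 1 := by
      rw [sq_abs]
      linarith
    have h4 := abs_nonneg (sin (n * θ))
    nlinarith
  refine ⟨T.comp A, ?_, ?_, ?_⟩
  · refine (degree_le_natDegree).trans ?_
    have h1 : (T.comp A).natDegree ≤ n := by
      rw [natDegree_comp]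
      calc T.natDegree * A.natDegree ≤ n * 1 := Nat.mul_le_mul hTdeg hAdeg
        _ = n := mul_one n
    exact_mod_cast h1
  · intro x hx
    rw [eval_comp, hAev]
    have h1 : r * x + (r - 1) ∈ Icc (-1 : ℝ) 1 := by
      constructor
      · nlinarith [hx.1]
      · nlinarith [hx.2]
    have h2 : cos (arccos (r * x + (r - 1))) = r * x + (r - 1) := cos_arccos h1.1 h1.2
    rw [← h2, hTcos]
    exact abs_cos_le_one _
  · rw [derivative_comp, eval_mul, eval_comp, hAev, hra]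
    have h1 : A.derivative.eval a = r := by
      simp [hA]
    rw [h1, abs_mul, abs_of_nonneg (by linarith : 0 ≤ r)]
    have hs0 : 0 < sin θ := sin_pos_of_pos_of_lt_pi hθ0 (by linarith)
    have hsθ : sin θ ≤ θ := sin_le hθ0.le
    have h2 : sin θ * |T.derivative.eval (cos θ)| = n := by
      have h3 := congrArg abs hTder
      rw [abs_mul, abs_mul, hsin, abs_of_pos hs0, abs_of_pos hn0, mul_one] at h3
      exact h3
    have h3 : (n : ℝ) ≤ (K1 + 5) / n * |T.derivative.eval (cos θ)| := by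
      rw [← h2]
      refine mul_le_mul_of_nonneg_right (hsθ.trans ?_) (abs_nonneg _)
      rw [h2]
      exact hθK
    have h4 : (n : ℝ) ^ 2 ≤ (K1 + 5) * |T.derivative.eval (cos θ)| := by
      have h5 := mul_le_mul_of_nonneg_left h3 hn0.le
      have h6 : (n : ℝ) * ((K1 + 5) / n * |T.derivative.eval (cos θ)|) =
          (K1 + 5) * |T.derivative.eval (cos θ)| := by
        field_simp
      rw [h6] at h5
      linarith
    have h7 : 0 < K1 + 5 := by linarith
    rw [div_mul_eq_mul_div, one_mul, div_le_iff₀ (by positivity)]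
    have h8 := abs_nonneg (T.derivative.eval (cos θ))
    nlinarith

/-- short windows -/
theorem sw (hA2 : A2) (hMk : Mk) : Sw := by
  intro K hK
  set K1 := √(5 * K) with hK1
  have hK10 : 0 ≤ K1 := Real.sqrt_nonneg _
  set h1 := 1 / (2 * (K1 + 5)) with hh1
  have hh1pos : 0 < h1 := by
    rw [hh1]
    positivity
  refine ⟨h1 / 8, h1 / 16, by positivity, by positivity, ⌈max (K1 + 5) (16 / h1)⌉₊ + 1, ?_⟩
  intro n hn a b x P hW hd hE hx
  obtain ⟨hn1, ha, hab, hb, haK⟩ := hW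
  have hnR : max (K1 + 5) (16 / h1) < n := by
    have h2 := Nat.le_ceil (max (K1 + 5) (16 / h1))
    have h3 : ((⌈max (K1 + 5) (16 / h1)⌉₊ : ℕ) : ℝ) + 1 ≤ n := by exact_mod_cast hn
    linarith
  have hn5 : K1 + 5 < n := (le_max_left _ _).trans_lt hnR
  have hn16 : 16 / h1 < n := (le_max_right _ _).trans_lt hnR
  have hn1R : (1 : ℝ) ≤ n := by exact_mod_cast hn1
  have hn0 : (0 : ℝ) < n := by linarith
  obtain ⟨Q, hQdeg, hQB, hQa⟩ := sw_comp hA2 hK hn1 hn5.le ha (hab.trans hb) haK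
  rw [← hK1, ← hh1] at hQa
  have hPd : P.natDegree ≤ n := natDegree_le_of_degree_le hE.deg
  have hQd : Q.natDegree ≤ n := natDegree_le_of_degree_le hQdeg
  have hmem : ∀ y ∈ Icc a b, y ∈ Icc (-1 : ℝ) 1 := fun y hy =>
    ⟨by linarith [hy.1], by linarith [hy.2]⟩
  have hn4 : 4 * (n : ℝ) ^ 4 * (b - a) ≤ h1 / 4 * (n : ℝ) ^ 2 := by
    have h2 : 4 * (n : ℝ) ^ 4 * (b - a) = 4 * (n : ℝ) ^ 2 * ((n : ℝ) ^ 2 * (b - a)) := by ring
    rw [h2]
    have h3 : 4 * (n : ℝ) ^ 2 * ((n : ℝ) ^ 2 * (b - a)) ≤ 4 * (n : ℝ) ^ 2 * (h1 / 16) :=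
      mul_le_mul_of_nonneg_left hd (by positivity)
    linarith
  have hQ : ∀ y ∈ Icc a b, h1 / 2 * (n : ℝ) ^ 2 ≤ |Q.derivative.eval y| := by
    intro y hy
    have h2 := sw_der2 hMk hn1 hQd hQB (hmem a (left_mem_Icc.2 hab.le)) (hmem y hy)
    have h3 : 4 * (n : ℝ) ^ 4 * |y - a| ≤ 4 * (n : ℝ) ^ 4 * (b - a) := by
      refine mul_le_mul_of_nonneg_left ?_ (by positivity)
      rw [abs_of_nonneg (by linarith [hy.1])]
      linarith [hy.2]
    have h4 := abs_sub_abs_le_abs_sub (Q.derivative.eval a) (Q.derivative.eval y)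
    rw [abs_sub_comm] at h4
    have h5 : 0 ≤ h1 * (n : ℝ) ^ 2 := by positivity
    linarith
  by_contra hcon
  rw [not_lt] at hcon
  have hP : ∀ y ∈ Icc a b, |P.derivative.eval y| ≤ 3 / 8 * h1 * (n : ℝ) ^ 2 := by
    intro y hy
    have h2 := sw_der2 hMk hn1 hPd hE.bdd (hmem x hx) (hmem y hy)
    have h3 : 4 * (n : ℝ) ^ 4 * |y - x| ≤ 4 * (n : ℝ) ^ 4 * (b - a) := by
      refine mul_le_mul_of_nonneg_left ?_ (by positivity)
      rw [abs_le]
      constructor
      · linarith [hy.1, hx.2]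
      · linarith [hy.2, hx.1]
    have h4 := abs_sub_abs_le_abs_sub (P.derivative.eval y) (P.derivative.eval x)
    linarith
  have hmax := hE.max Q hQdeg hQB
  have hlow : h1 / 2 * (n : ℝ) ^ 2 * (b - a) ≤ arc a b Q := by
    unfold Pool.Agent.Helper40.AS.arc
    have h2 : ∫ _y in a..b, h1 / 2 * (n : ℝ) ^ 2 = h1 / 2 * (n : ℝ) ^ 2 * (b - a) := by
      rw [intervalIntegral.integral_const, smul_eq_mul]
      ring
    rw [← h2]
    apply integral_mono_on hab.le
    · exact intervalIntegrable_const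
    · exact (Pool.Agent.Helper40.AS.cont_s Q).intervalIntegrable _ _
    · intro y hy
      refine (hQ y hy).trans (Real.abs_le_sqrt ?_)
      linarith
  have hup : arc a b P ≤ (1 + 3 / 8 * h1 * (n : ℝ) ^ 2) * (b - a) := by
    unfold Pool.Agent.Helper40.AS.arc
    have h2 : ∫ _y in a..b, (1 + 3 / 8 * h1 * (n : ℝ) ^ 2) =
        (1 + 3 / 8 * h1 * (n : ℝ) ^ 2) * (b - a) := by
      rw [intervalIntegral.integral_const, smul_eq_mul]
      ring
    rw [← h2]
    apply integral_mono_on hab.le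
    · exact (Pool.Agent.Helper40.AS.cont_s P).intervalIntegrable _ _
    · exact intervalIntegrable_const
    · intro y hy
      have h3 := hP y hy
      have h4 := abs_nonneg (P.derivative.eval y)
      rw [Real.sqrt_le_left (by positivity)]
      have h5 : P.derivative.eval y ^ 2 = |P.derivative.eval y| ^ 2 := (sq_abs _).symm
      rw [h5]
      nlinarith
  have h2 : h1 / 2 * (n : ℝ) ^ 2 * (b - a) ≤ (1 + 3 / 8 * h1 * (n : ℝ) ^ 2) * (b - a) :=
    hlow.trans (hmax.trans hup)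
  have h3 : h1 / 2 * (n : ℝ) ^ 2 ≤ 1 + 3 / 8 * h1 * (n : ℝ) ^ 2 :=
    le_of_mul_le_mul_right h2 (by linarith)
  have h4 : 16 < n * h1 := by
    rw [div_lt_iff₀ hh1pos] at hn16
    exact hn16
  have h5 : (16 : ℝ) < h1 * (n : ℝ) ^ 2 := by
    have : (n : ℝ) * h1 ≤ h1 * (n : ℝ) ^ 2 := by nlinarith
    linarith
  linarith

end Pool.Agent.Helper10.AL
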