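import Pool.Agent.Helper10.AL.St5

/-! Project AL, piece X1: the first order condition for multiples of the derivative. -/

set_option autoImplicit false

namespace Pool.Agent.Helper10.AL

open Polynomial Set Real MeasureTheory intervalIntegral
open Pool.Agent.Helper40.AS (arc Bdd Ext quad)

/-- the first variation vanishes -/
theorem x1_zero {n : ℕ} {a b : ℝ} {P D R W : ℝ[X]} (hn : 1 ≤ n) (hab : a < b)
    (h : Ext n a b P) (hPD : P.derivative = D * R)
    (hint : ∀ x ∈ Ioo (-1 : ℝ) 1, |P.eval x| = 1 → R.eval x = 0)
    (hW1 : |P.eval 1| = 1 → W.eval 1 * R.eval 1 = 0)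
    (hW2 : |P.eval (-1)| = 1 → W.eval (-1) * R.eval (-1) = 0)
    (hdeg : W.natDegree + P.natDegree ≤ D.natDegree + 1 + n) :
    (∫ x in a..b, P.derivative.eval x * (W * R).derivative.eval x /
      √(1 + (P.derivative.eval x) ^ 2)) = 0 := by
  have hne := Pool.Agent.Helper40.AS.ext_ne h hn hab
  have hDR : D ≠ 0 ∧ R ≠ 0 := by
    rw [hPD] at hne
    exact mul_ne_zero_iff.1 hne
  have hP0 : P.natDegree ≠ 0 := by
    intro h0
    exact hne (by rw [eq_C_of_natDegree_eq_zero h0, derivative_C])
  have hGdeg : (W * R).degree ≤ (n : WithBot ℕ) := by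
    apply degree_le_of_natDegree_le
    refine natDegree_mul_le.trans ?_
    have e1 : P.derivative.natDegree = D.natDegree + R.natDegree := by
      rw [hPD, natDegree_mul hDR.1 hDR.2]
    have e2 : P.derivative.natDegree ≤ P.natDegree - 1 := natDegree_derivative_le P
    omega
  have hG0 : ∀ x ∈ Icc (-1 : ℝ) 1, |P.eval x| = 1 → (W * R).eval x = 0 := by
    intro x hx hx1
    rw [eval_mul]
    rcases eq_or_lt_of_le hx.1 with e | e
    · rw [← e] at hx1 ⊢
      exact hW2 hx1
    · rcases eq_or_lt_of_le hx.2 with e' | e'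
      · rw [e'] at hx1 ⊢
        exact hW1 hx1
      · rw [hint x ⟨e, e'⟩ hx1, mul_zero]
  have h1 := Pool.Agent.Helper40.AS.kkt h hab.le (G := W * R) hGdeg (by
    intro x hx hx1
    rw [hG0 x hx hx1, mul_zero])
  have h2 := Pool.Agent.Helper40.AS.kkt h hab.le (G := -(W * R)) (by rwa [degree_neg]) (by
    intro x hx hx1
    rw [eval_neg, hG0 x hx hx1, neg_zero, mul_zero])
  have h3 : (∫ x in a..b, P.derivative.eval x * (-(W * R)).derivative.eval x /
      √(1 + (P.derivative.eval x) ^ 2)) = -∫ x in a..b, P.derivative.eval x *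
      (W * R).derivative.eval x / √(1 + (P.derivative.eval x) ^ 2) := by
    rw [← intervalIntegral.integral_neg]
    refine intervalIntegral.integral_congr fun x _ => ?_
    simp only [derivative_neg, eval_neg]
    ring
  rw [h3] at h2
  linarith

theorem x1_main {a b : ℝ} {P D R W : ℝ[X]} (hab : a < b)
    (hPD : P.derivative = D * R) (hD : ∀ x ∈ Icc a b, D.eval x ≠ 0)
    (hz : (∫ x in a..b, P.derivative.eval x * (W * R).derivative.eval x /
      √(1 + (P.derivative.eval x) ^ 2)) = 0) :
    (W.eval b / D.eval b) * √(1 + P.derivative.eval b ^ 2) -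
      (W.eval a / D.eval a) * √(1 + P.derivative.eval a ^ 2) =
    ∫ x in a..b, ((W.derivative.eval x * D.eval x - W.eval x * D.derivative.eval x) /
      D.eval x ^ 2) / √(1 + P.derivative.eval x ^ 2) := by
  set s : ℝ → ℝ := fun x => √(1 + (P.derivative.eval x) ^ 2) with hs
  have hs1 : ∀ x, 0 < s x := fun x => Pool.Agent.Helper40.AS.s_pos P x
  have hsq : ∀ x, s x ^ 2 = 1 + (P.derivative.eval x) ^ 2 := fun x =>
    Real.sq_sqrt (by positivity)
  have hsc : Continuous s := Pool.Agent.Helper40.AS.cont_s P
  have hsd : ∀ x, HasDerivAt s (P.derivative.eval x * P.derivative.derivative.eval x / s x) x := by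
    intro x
    have h1 : HasDerivAt (fun x => 1 + (P.derivative.eval x) ^ 2)
        (2 * P.derivative.eval x * P.derivative.derivative.eval x) x := by
      have := ((P.derivative.hasDerivAt x).pow 2).const_add 1
      simpa using this
    have h2 := h1.sqrt (by positivity)
    convert h2 using 1
    simp only [hs]
    field_simp
  set f' : ℝ → ℝ := fun x => (W.derivative.eval x * D.eval x - W.eval x * D.derivative.eval x) /
    D.eval x ^ 2 with hf'
  have hIcc : uIcc a b = Icc a b := uIcc_of_le hab.le
  have hfd : ∀ x ∈ Icc a b, HasDerivAt (fun x => W.eval x / D.eval x) (f' x) x := fun x hx =>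
    (W.hasDerivAt x).div (D.hasDerivAt x) (hD x hx)
  have hFd : ∀ x ∈ uIcc a b, HasDerivAt (fun x => (W.eval x / D.eval x) * s x)
      (P.derivative.eval x * (W * R).derivative.eval x / s x + f' x / s x) x := by
    intro x hx
    rw [hIcc] at hx
    refine ((hfd x hx).mul (hsd x)).congr_deriv ?_
    have hDx := hD x hx
    have hsx := (hs1 x).ne'
    have e1 : P.derivative.eval x = D.eval x * R.eval x := by rw [hPD, eval_mul]
    have e2 : P.derivative.derivative.eval x =
        D.derivative.eval x * R.eval x + D.eval x * R.derivative.eval x := by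
      rw [hPD, derivative_mul, eval_add, eval_mul, eval_mul]
    have e3 : (W * R).derivative.eval x =
        W.derivative.eval x * R.eval x + W.eval x * R.derivative.eval x := by
      rw [derivative_mul, eval_add, eval_mul, eval_mul]
    have e4 : s x ^ 2 = 1 + (D.eval x * R.eval x) ^ 2 := by rw [hsq, e1]
    rw [e1, e2, e3]
    have e5 : f' x * s x = f' x * s x ^ 2 / s x := by field_simp
    rw [e5, e4]
    simp only [hf']
    field_simp
    ring
  have hi1 : IntervalIntegrable (fun x => P.derivative.eval x * (W * R).derivative.eval x / s x)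
      volume a b := (Pool.Agent.Helper40.AS.cont_dens P (W * R)).intervalIntegrable _ _
  have hi2 : IntervalIntegrable (fun x => f' x / s x) volume a b := by
    apply ContinuousOn.intervalIntegrable
    rw [hIcc]
    refine ContinuousOn.div ?_ hsc.continuousOn fun x _ => (hs1 x).ne'
    refine ContinuousOn.div (by fun_prop) (by fun_prop) fun x hx => pow_ne_zero 2 (hD x hx)
  have h1 := intervalIntegral.integral_eq_sub_of_hasDerivAt hFd (hi1.add hi2)
  rw [intervalIntegral.integral_add hi1 hi2] at h1
  have h2 : (∫ x in a..b, P.derivative.eval x * (W * R).derivative.eval x / s x) = 0 := hz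
  rw [h2, zero_add] at h1
  exact h1.symm

theorem x1 : X1 := by
  intro n a b P D R W hn _ hab _ h hPD hdeg hint hW1 hW2 hD
  exact x1_main hab hPD hD (x1_zero hn hab h hPD hint hW1 hW2 hdeg)

end Pool.Agent.Helper10.AL
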