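import Pool.Agent.Helper10.AL.St9

/-!
Non-real critical points are not close to points of non-degeneracy.
-/

set_option autoImplicit false

namespace Pool.Agent.Helper10.AL

open Polynomial Set Real MeasureTheory intervalIntegral
open Pool.Agent.Helper40.AS (arc Bdd Ext quad)

theorem zs_pow_sub (a b : ℂ) (r : ℝ) (ha : ‖a‖ ≤ r) (hb : ‖b‖ ≤ r) (k : ℕ) :
    ‖a ^ (k + 1) - b ^ (k + 1)‖ ≤ (k + 1) * r ^ k * ‖a - b‖ := by
  have hr : 0 ≤ r := (norm_nonneg a).trans ha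
  induction k with
  | zero => simp
  | succ k ih =>
    have e : a ^ (k + 1 + 1) - b ^ (k + 1 + 1) =
        a * (a ^ (k + 1) - b ^ (k + 1)) + (a - b) * b ^ (k + 1) := by ring
    rw [e]
    refine (norm_add_le _ _).trans ?_
    rw [norm_mul, norm_mul, norm_pow]
    have h1 : ‖a‖ * ‖a ^ (k + 1) - b ^ (k + 1)‖ ≤ r * ((k + 1) * r ^ k * ‖a - b‖) :=
      mul_le_mul ha ih (norm_nonneg _) hr
    have h2 : ‖a - b‖ * ‖b‖ ^ (k + 1) ≤ ‖a - b‖ * r ^ (k + 1) :=
      mul_le_mul_of_nonneg_left (pow_le_pow_left₀ (norm_nonneg _) hb _) (norm_nonneg _)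
    refine (add_le_add h1 h2).trans (le_of_eq ?_)
    push_cast
    ring

theorem zs_coeff (hMk : Mk) {n : ℕ} {P : ℝ[X]} (hn : 1 ≤ n) (hP : P.natDegree ≤ n)
    (hB : Bdd P) {x : ℝ} (hx : x ∈ Icc (-1 : ℝ) 1) (i : ℕ) :
    |(taylor x P.derivative).coeff i| ≤ (2 * (n : ℝ) ^ 2) ^ (i + 1) / (i.factorial : ℝ) := by
  have h1 := (hMk n P hn hP hB).1 (i + 1) x hx
  have h2 : (derivative^[i + 1] P) = i.factorial • hasseDeriv i P.derivative := by
    rw [Function.iterate_succ_apply, ← factorial_smul_hasseDeriv]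
    rfl
  rw [h2, eval_smul] at h1
  have h3 : (0 : ℝ) < (i.factorial : ℝ) := by exact_mod_cast i.factorial_pos
  rw [taylor_coeff, le_div_iff₀ h3]
  rw [nsmul_eq_mul, abs_mul, abs_of_pos h3] at h1
  linarith

theorem zs_exp (ρ : ℝ) (hρ : 0 ≤ ρ) (d : ℕ) :
    ∑ i ∈ Finset.range d, ρ ^ (i + 1) / ((i + 1).factorial : ℝ) ≤ Real.exp ρ - 1 := by
  have h1 := Real.sum_le_exp_of_nonneg hρ (d + 1)
  rw [Finset.sum_range_succ'] at h1
  simp only [pow_zero, Nat.factorial_zero, Nat.cast_one, div_one] at h1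
  linarith

theorem zs (hMk : Mk) : Zs := by
  intro h c hh hc
  refine ⟨min (1 / 2) (min (h / 8) (c / 17)), by positivity, ?_⟩
  set s : ℝ := min (1 / 2) (min (h / 8) (c / 17)) with hs
  have hs1 : s ≤ 1 / 2 := min_le_left _ _
  have hs2 : s ≤ h / 8 := (min_le_right _ _).trans (min_le_left _ _)
  have hs3 : s ≤ c / 17 := (min_le_right _ _).trans (min_le_right _ _)
  have hs0 : 0 < s := by positivity
  intro n P x z hn hP hB hx hnd hz him
  by_contra hcon
  push Not at hcon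
  set ζ : ℂ := z - (x : ℂ) with hζ
  set r : ℝ := ‖ζ‖ with hr
  have hr0 : 0 ≤ r := norm_nonneg _
  set ρ : ℝ := 2 * (n : ℝ) ^ 2 * r with hρ
  have hn1 : (1 : ℝ) ≤ n := by exact_mod_cast hn
  have hρ0 : 0 ≤ ρ := by positivity
  have hρ1 : ρ < 2 * s := by rw [hρ]; linarith
  have hexp : Real.exp ρ - 1 ≤ 4 * s := by
    have h1 : |ρ| ≤ 1 := by rw [abs_of_nonneg hρ0]; linarith
    have h2 := Real.abs_exp_sub_one_le h1
    rw [abs_of_nonneg hρ0] at h2
    have h3 := le_abs_self (Real.exp ρ - 1)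
    linarith
  set T : ℝ[X] := taylor x P.derivative with hT
  have hTz : aeval ζ T = 0 := by
    rw [hT, taylor_apply, aeval_comp]
    have e : aeval ζ (X + C x : ℝ[X]) = z := by
      simp [hζ]
    rw [e]
    exact hz
  have hTz' : aeval (starRingEnd ℂ ζ) T = 0 := by
    have h1 : aeval (starRingEnd ℂ ζ) T = starRingEnd ℂ (aeval ζ T) := by
      rw [Polynomial.aeval_conj]
    rw [h1, hTz, map_zero]
  set d : ℕ := T.natDegree with hd
  have hco := fun i => zs_coeff hMk hn hP hB hx i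
  have hsum : ∀ w : ℂ, aeval w T = (∑ i ∈ Finset.range d, ((T.coeff (i + 1 + 1) : ℝ) : ℂ) *
      w ^ (i + 1 + 1)) + ((T.coeff 1 : ℝ) : ℂ) * w + ((T.coeff 0 : ℝ) : ℂ) := by
    intro w
    rw [aeval_eq_sum_range' (show T.natDegree < d + 1 + 1 by omega) w, Finset.sum_range_succ',
      Finset.sum_range_succ']
    simp [Algebra.smul_def]
  -- first bound
  have hb0 : |P.derivative.eval x| ≤ 2 * (n : ℝ) ^ 2 * (Real.exp ρ - 1) := by
    have h0 : T.coeff 0 = P.derivative.eval x := by rw [hT, taylor_coeff_zero]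
    have h1 : aeval ζ T = (∑ i ∈ Finset.range (d + 1), ((T.coeff (i + 1) : ℝ) : ℂ) *
        ζ ^ (i + 1)) + ((T.coeff 0 : ℝ) : ℂ) := by
      rw [aeval_eq_sum_range' (show T.natDegree < d + 1 + 1 by omega) ζ, Finset.sum_range_succ']
      simp [Algebra.smul_def]
    rw [hTz] at h1
    have h2 : ((T.coeff 0 : ℝ) : ℂ) = -∑ i ∈ Finset.range (d + 1),
        ((T.coeff (i + 1) : ℝ) : ℂ) * ζ ^ (i + 1) := by
      rw [eq_neg_iff_add_eq_zero, add_comm]
      exact h1.symm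
    have h3 : |T.coeff 0| ≤ ∑ i ∈ Finset.range (d + 1), |T.coeff (i + 1)| * r ^ (i + 1) := by
      have h4 : ‖((T.coeff 0 : ℝ) : ℂ)‖ = |T.coeff 0| := by
        rw [Complex.norm_real, Real.norm_eq_abs]
      rw [← h4, h2, norm_neg]
      refine (norm_sum_le _ _).trans (Finset.sum_le_sum fun i _ => ?_)
      rw [norm_mul, norm_pow, Complex.norm_real, Real.norm_eq_abs]
    rw [← h0]
    refine h3.trans ?_
    have h5 : ∑ i ∈ Finset.range (d + 1), |T.coeff (i + 1)| * r ^ (i + 1) ≤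
        ∑ i ∈ Finset.range (d + 1),
          2 * (n : ℝ) ^ 2 * (ρ ^ (i + 1) / ((i + 1).factorial : ℝ)) := by
      apply Finset.sum_le_sum
      intro i _
      refine (mul_le_mul_of_nonneg_right (hco (i + 1)) (by positivity)).trans (le_of_eq ?_)
      rw [hρ, mul_pow (2 * (n : ℝ) ^ 2) r]
      ring
    refine h5.trans ?_
    rw [← Finset.mul_sum]
    exact mul_le_mul_of_nonneg_left (zs_exp ρ hρ0 _) (by positivity)
  -- second bound
  have hb1 : |P.derivative.derivative.eval x| ≤ 4 * (n : ℝ) ^ 4 * (Real.exp ρ - 1) := by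
    have h0 : T.coeff 1 = P.derivative.derivative.eval x := by rw [hT, taylor_coeff_one]
    have h1 := hsum ζ
    have h2 := hsum (starRingEnd ℂ ζ)
    rw [hTz] at h1
    rw [hTz'] at h2
    set δ : ℂ := ζ - starRingEnd ℂ ζ with hδ
    have hδ0 : 0 < ‖δ‖ := by
      rw [norm_pos_iff, hδ, sub_ne_zero]
      intro h3
      have h4 := congrArg Complex.im h3
      rw [Complex.conj_im] at h4
      have h5 : ζ.im = z.im := by rw [hζ]; simp
      rw [h5] at h4
      apply him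
      linarith
    have h3 : ((T.coeff 1 : ℝ) : ℂ) * δ = -∑ i ∈ Finset.range d,
        ((T.coeff (i + 1 + 1) : ℝ) : ℂ) * (ζ ^ (i + 1 + 1) - (starRingEnd ℂ ζ) ^ (i + 1 + 1)) := by
      simp only [mul_sub, Finset.sum_sub_distrib]
      rw [hδ]
      linear_combination h2 - h1
    have h4 : |T.coeff 1| * ‖δ‖ ≤ (∑ i ∈ Finset.range d,
        4 * (n : ℝ) ^ 4 * (ρ ^ (i + 1) / ((i + 1).factorial : ℝ))) * ‖δ‖ := by
      have h5 : ‖((T.coeff 1 : ℝ) : ℂ) * δ‖ = |T.coeff 1| * ‖δ‖ := by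
        rw [norm_mul, Complex.norm_real, Real.norm_eq_abs]
      rw [← h5, h3, norm_neg, Finset.sum_mul]
      refine (norm_sum_le _ _).trans (Finset.sum_le_sum fun i _ => ?_)
      rw [norm_mul, Complex.norm_real, Real.norm_eq_abs]
      have h6 := zs_pow_sub ζ (starRingEnd ℂ ζ) r le_rfl (by rw [Complex.norm_conj]) (i + 1)
      rw [← hδ] at h6
      have h7 := hco (i + 1 + 1)
      have h8 : |T.coeff (i + 1 + 1)| *
          ‖ζ ^ (i + 1 + 1) - (starRingEnd ℂ ζ) ^ (i + 1 + 1)‖ ≤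
          ((2 * (n : ℝ) ^ 2) ^ (i + 1 + 1 + 1) / ((i + 1 + 1).factorial : ℝ)) *
            ((((i + 1 : ℕ) : ℝ) + 1) * r ^ (i + 1) * ‖δ‖) :=
        mul_le_mul h7 h6 (norm_nonneg _) (by positivity)
      refine h8.trans (le_of_eq ?_)
      have h9 : ((i + 1 + 1).factorial : ℝ) = (((i + 1 : ℕ) : ℝ) + 1) *
          ((i + 1).factorial : ℝ) := by
        rw [Nat.factorial_succ (i + 1)]
        push_cast
        ring
      have h10 : (((i + 1 : ℕ) : ℝ) + 1) ≠ 0 := by positivity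
      have h11 : ((i + 1).factorial : ℝ) ≠ 0 := by positivity
      rw [h9, hρ, mul_pow (2 * (n : ℝ) ^ 2) r]
      field_simp
      ring
    have h5 := le_of_mul_le_mul_right h4 hδ0
    rw [← h0]
    refine h5.trans ?_
    rw [← Finset.mul_sum]
    exact mul_le_mul_of_nonneg_left (zs_exp ρ hρ0 _) (by positivity)
  have hn2 : (0 : ℝ) < (n : ℝ) ^ 2 := by positivity
  have hn4 : (0 : ℝ) < (n : ℝ) ^ 4 := by positivity
  have k1 : |P.derivative.eval x| ≤ h * (n : ℝ) ^ 2 := by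
    refine hb0.trans ?_
    have := mul_le_mul_of_nonneg_left hexp (show (0 : ℝ) ≤ 2 * (n : ℝ) ^ 2 by positivity)
    have h2 : 8 * s * (n : ℝ) ^ 2 ≤ h * (n : ℝ) ^ 2 := by
      apply mul_le_mul_of_nonneg_right _ hn2.le
      linarith
    linarith
  have k2 := hnd k1
  have k3 := mul_le_mul_of_nonneg_left hexp (show (0 : ℝ) ≤ 4 * (n : ℝ) ^ 4 by positivity)
  have k4 : 16 * s * (n : ℝ) ^ 4 < c * (n : ℝ) ^ 4 := by
    apply mul_lt_mul_of_pos_right _ hn4
    linarith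
  linarith

end Pool.Agent.Helper10.AL
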