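import Pool.Agent.Helper10.AL.St4
import Pool.Agent.Helper10.AL.P.CL

/-!
Arc length of polynomials over windows of arbitrary length, piece CLL: lower bounds for the arc
length of an extremal polynomial at the two ends of the window, outside of a chain of contact points.
-/

set_option autoImplicit false

namespace Pool.Agent.Helper10.AL

open Polynomial Set Real MeasureTheory intervalIntegral
open Pool.Agent.Helper40.AS (arc Bdd Ext quad)

theorem cLL (_hA1 : A1) (hA2 : A2) (hB3 : B3) (hB5 : B5) (hB6 : B6) (hC1 : C1) (hC2 : C2)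
    (hCL1L : CL1L) (hVF1 : VF1) (hVF3 : VF3) (hVF6 : VF6) : CLL := by
  intro δ hδ hδ4
  obtain ⟨K, hK, n1, hn1⟩ := hCL1L δ hδ hδ4
  refine ⟨K + 500, by positivity, max n1 4, fun n hn a b P N t hM hE hN ht0 htN hch => ?_⟩
  have hnn : n1 ≤ n := le_trans (le_max_left _ _) hn
  have hn4 : 4 ≤ n := le_trans (le_max_right _ _) hn
  have hcl := hn1 n hnn a b P N t hM hE hN ht0 htN hch
  obtain ⟨hm1, hm2, hm3⟩ := hM
  exact cL_core hA2 hB3 hB5 hB6 hC1 hC2 hVF1 hVF3 hVF6 hK hn4 (by linarith) hm2
    (by linarith) hE ht0 htN hch hcl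

end Pool.Agent.Helper10.AL
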