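import Pool.Agent.Helper10.AL.St

/-!
Piece D2: the speed of a Zolotarev polynomial on compact windows.
-/

set_option autoImplicit false

namespace Pool.Agent.Helper10.AL

open Polynomial Set Real MeasureTheory intervalIntegral

/-- the integral over the middle third is small when the integrand is small there -/
theorem d2_int (g : ℝ → ℝ) (A B : ℝ) (h0 : ∀ θ ∈ Ioo 0 π, 0 ≤ g θ)
    (hA : ∀ θ ∈ Ioo 0 π, g θ ≤ A) (hB : ∀ θ ∈ Icc (π / 3) (2 * π / 3), g θ ≤ B)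
    (hi : IntervalIntegrable g volume 0 π) :
    (∫ θ in (0 : ℝ)..π, g θ) ≤ A * (2 * π / 3) + B * (π / 3) := by
  have hp := pi_pos
  have hsub : ∀ a b : ℝ, 0 ≤ a → a ≤ b → b ≤ π → IntervalIntegrable g volume a b := by
    intro a b ha hab hb
    refine hi.mono_set ?_
    rw [uIcc_of_le hab, uIcc_of_le hp.le]
    exact Icc_subset_Icc ha hb
  have h1 := hsub 0 (π / 3) le_rfl (by linarith) (by linarith)
  have h2 := hsub (π / 3) (2 * π / 3) (by linarith) (by linarith) (by linarith)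
  have h3 := hsub (2 * π / 3) π (by linarith) (by linarith) le_rfl
  rw [← integral_add_adjacent_intervals (h1.trans h2) h3, ← integral_add_adjacent_intervals h1 h2]
  have hb : ∀ a b C : ℝ, 0 ≤ a → a ≤ b → b ≤ π → (∀ θ ∈ Ioo 0 π, θ ∈ Icc a b → g θ ≤ C) →
      (∫ θ in a..b, g θ) ≤ C * (b - a) := by
    intro a b C ha hab hb hC
    have h4 : ‖∫ θ in a..b, g θ‖ ≤ C * |b - a| := by
      apply norm_integral_le_of_norm_le_const_ae
      have h5 : ∀ᵐ x : ℝ, x ≠ π := by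
        rw [ae_iff]
        simp
      filter_upwards [h5] with x hx hxI
      rw [uIoc_of_le hab] at hxI
      have hx1 : x ∈ Ioo 0 π := ⟨by linarith [hxI.1], lt_of_le_of_ne (hxI.2.trans hb) hx⟩
      rw [Real.norm_eq_abs, abs_of_nonneg (h0 x hx1)]
      exact hC x hx1 ⟨hxI.1.le, hxI.2⟩
    rw [abs_of_nonneg (by linarith : 0 ≤ b - a)] at h4
    exact (le_abs_self _).trans h4
  have e1 := hb 0 (π / 3) A le_rfl (by linarith) (by linarith) (fun θ hθ _ => hA θ hθ)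
  have e2 := hb (π / 3) (2 * π / 3) B (by linarith) (by linarith) (by linarith)
    (fun θ _ hθ => hB θ hθ)
  have e3 := hb (2 * π / 3) π A (by linarith) (by linarith) le_rfl (fun θ hθ _ => hA θ hθ)
  nlinarith

theorem d2_cos_mid (θ : ℝ) (hθ : θ ∈ Icc (π / 3) (2 * π / 3)) :
    cos θ ∈ Icc (-(1 / 2) : ℝ) (1 / 2) := by
  have hp := pi_pos
  constructor
  · have h := cos_le_cos_of_nonneg_of_le_pi (by linarith [hθ.1] : (0 : ℝ) ≤ θ)
      (by linarith : 2 * π / 3 ≤ π) hθ.2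
    have h2 : cos (2 * π / 3) = -(1 / 2) := by
      rw [show 2 * π / 3 = π - π / 3 by ring, cos_pi_sub, cos_pi_div_three]
    linarith
  · have h := cos_le_cos_of_nonneg_of_le_pi (by linarith : (0 : ℝ) ≤ π / 3)
      (by linarith [hθ.2] : θ ≤ π) hθ.1
    rw [cos_pi_div_three] at h
    exact h

/-- the phase bound in numbers -/
theorem d2_num (n : ℕ) (hn : 6 ≤ n) (ρ : ℝ) (hρ : 0 ≤ ρ)
    (h : ((n : ℝ) - 1) * π ≤ n * (2 * π / 3) + n / √(1 + ρ) * (π / 3)) : ρ ≤ 24 / n := by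
  have hp := pi_pos
  have hn' : (6 : ℝ) ≤ n := by exact_mod_cast hn
  set s := √(1 + ρ) with hs
  have hs2 : s ^ 2 = 1 + ρ := sq_sqrt (by linarith)
  have hs1 : 1 ≤ s := by
    rw [hs]
    exact one_le_sqrt.2 (by linarith)
  have hs0 : 0 < s := by linarith
  have h1 : (n : ℝ) - 3 ≤ n / s := by
    have h2 : ((n : ℝ) - 3) * (π / 3) ≤ n / s * (π / 3) := by nlinarith
    exact le_of_mul_le_mul_right h2 (by positivity)
  have h2 : ((n : ℝ) - 3) * s ≤ n := by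
    rwa [le_div_iff₀ hs0] at h1
  have h3 : (((n : ℝ) - 3) * s) ^ 2 ≤ (n : ℝ) ^ 2 :=
    pow_le_pow_left₀ (mul_nonneg (by linarith) hs0.le) h2 2
  rw [mul_pow, hs2] at h3
  rw [le_div_iff₀ (by linarith)]
  have h4 : (n : ℝ) ^ 2 / 4 ≤ ((n : ℝ) - 3) ^ 2 := by nlinarith
  have h5 : ((n : ℝ) - 3) ^ 2 * ρ ≤ 6 * n := by nlinarith
  have h6 : (n : ℝ) ^ 2 / 4 * ρ ≤ 6 * n := (mul_le_mul_of_nonneg_right h4 hρ).trans h5
  have h7 : (n : ℝ) * (ρ * n) ≤ n * 24 := by nlinarith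
  exact le_of_mul_le_mul_left h7 (by linarith)

theorem d2 (hD2a : D2a) (hD2b : D2b) : D2 := by
  intro δ hδ hδ4
  refine ⟨2400 / δ ^ 3, by positivity, 6, ?_⟩
  intro n hn x0 Z hZ x hx
  obtain ⟨r, hrc, hr, hH⟩ := hD2a n x0 Z (by omega) hZ
  have hb := hD2b n x0 Z r (by omega) hZ hrc hr
  have hp := pi_pos
  have hn' : (6 : ℝ) ≤ n := by exact_mod_cast hn
  have hn0 : (0 : ℝ) < n := by linarith
  have hcosI : ∀ θ ∈ Ioo 0 π, cos θ ∈ Ioo (-1 : ℝ) 1 := by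
    intro θ hθ
    constructor
    · have h := cos_lt_cos_of_nonneg_of_le_pi hθ.1.le le_rfl hθ.2
      rwa [cos_pi] at h
    · have h := cos_lt_cos_of_nonneg_of_le_pi le_rfl hθ.2.le hθ.1
      rwa [cos_zero] at h
  have hmem : ∀ y ∈ Icc (-1 + δ) (1 - δ), y ∈ Ioo (-1 : ℝ) 1 := fun y hy =>
    ⟨by linarith [hy.1], by linarith [hy.2]⟩
  obtain ⟨hrx, hid⟩ := hr x (hmem x hx)
  set C : ℝ := 100 / δ ^ 3 with hC
  have hC0 : 0 < C := by positivity
  set ρ : ℝ := r x / C with hρ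
  have hρ0 : 0 ≤ ρ := div_nonneg hrx hC0.le
  have hρ' : r x = C * ρ := by rw [hρ]; field_simp
  -- the integrand
  have h0 : ∀ θ ∈ Ioo 0 π, 0 ≤ (n : ℝ) / √(1 + r (cos θ)) := fun θ _ => by positivity
  have hA : ∀ θ ∈ Ioo 0 π, (n : ℝ) / √(1 + r (cos θ)) ≤ n := by
    intro θ hθ
    have h1 := (hr (cos θ) (hcosI θ hθ)).1
    exact div_le_self hn0.le (one_le_sqrt.2 (by linarith))
  have hB : ∀ θ ∈ Icc (π / 3) (2 * π / 3), (n : ℝ) / √(1 + r (cos θ)) ≤ n / √(1 + ρ) := by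
    intro θ hθ
    have h1 := d2_cos_mid θ hθ
    have h2 := hH δ hδ (by linarith) x hx (cos θ) ⟨by linarith [h1.1], by linarith [h1.2]⟩
    rw [hρ'] at h2
    have h3 : ρ ≤ r (cos θ) := le_of_mul_le_mul_left h2 hC0
    apply div_le_div_of_nonneg_left hn0.le (sqrt_pos.2 (by linarith))
    exact sqrt_le_sqrt (by linarith)
  have hi : IntervalIntegrable (fun θ => (n : ℝ) / √(1 + r (cos θ))) volume 0 π := by
    by_contra hni
    rw [integral_undef hni] at hb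
    nlinarith
  have h1 := d2_int _ _ _ h0 hA hB hi
  have h2 := d2_num n hn ρ hρ0 (hb.trans h1)
  have h3 : r x ≤ C * (24 / n) := by
    rw [hρ']
    exact mul_le_mul_of_nonneg_left h2 hC0.le
  -- conclusion
  have hx1 : 0 ≤ 1 - x ^ 2 := by nlinarith [hx.1, hx.2]
  set W : ℝ := (1 - x ^ 2) * Z.derivative.eval x ^ 2 with hW
  have hW0 : 0 ≤ W := mul_nonneg hx1 (sq_nonneg _)
  have hWle : W ≤ (n : ℝ) ^ 2 * (1 - Z.eval x ^ 2) := by
    rw [hid]
    nlinarith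
  have h4 : (n : ℝ) ^ 2 * (1 - Z.eval x ^ 2) - W = r x * W := by rw [hid]; ring
  rw [h4]
  have hq : 0 ≤ (n : ℝ) ^ 2 * (1 - Z.eval x ^ 2) := hW0.trans hWle
  calc r x * W ≤ C * (24 / n) * ((n : ℝ) ^ 2 * (1 - Z.eval x ^ 2)) := by
        apply mul_le_mul h3 hWle hW0
        positivity
    _ = 2400 / δ ^ 3 * n * (1 - Z.eval x ^ 2) := by
        rw [hC]
        field_simp
        ring

end Pool.Agent.Helper10.AL
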