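import Pool.Agent.Helper10.AL.St4
import Pool.Agent.Helper10.AL.P.E8a
import Pool.Agent.Helper10.AL.P.E8

/-!
All real critical points in a window (of arbitrary length, in a compact interval) are contact
points.
-/

set_option autoImplicit false

namespace Pool.Agent.Helper10.AL

open Polynomial Set Real MeasureTheory intervalIntegral
open Pool.Agent.Helper40.AS (arc Bdd Ext quad ext_refl)

/-- elementary facts on the right end point -/
theorem e8L_cos {δ a b θ : ℝ} (hδ : 0 < δ) (hM : MidL δ a b) (h2 : θ < arccos a) :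
    δ ≤ sin (arccos a) ∧ ∃ s : ℝ, sin (arccos a) - (arccos a - θ) ≤ s ∧ s ≤ 1 ∧
      cos θ - a = (arccos a - θ) * s := by
  obtain ⟨ha, hab, hb⟩ := hM
  have hc : cos (arccos a) = a := cos_arccos (by linarith) (by linarith)
  refine ⟨?_, ?_⟩
  · rw [sin_arccos]
    apply Real.le_sqrt_of_sq_le
    nlinarith
  · obtain ⟨ξ, hξ, hξ2⟩ := exists_hasDerivAt_eq_slope cos (fun x => -sin x) h2
      continuous_cos.continuousOn (fun x _ => hasDerivAt_cos x)
    have hpos : 0 < arccos a - θ := by linarith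
    rw [eq_div_iff hpos.ne', hc] at hξ2
    refine ⟨sin ξ, ?_, sin_le_one ξ, by linarith⟩
    have h3 := abs_sin_sub_sin_le (arccos a) ξ
    rw [abs_of_pos (by linarith [hξ.2] : (0 : ℝ) < arccos a - ξ)] at h3
    have h4 := le_abs_self (sin (arccos a) - sin ξ)
    linarith [hξ.1]

/-- the far end point -/
theorem e8L_far {δ a b θ : ℝ} (hδ : 0 < δ) (hM : MidL δ a b) (h1 : arccos b < θ)
    (h2 : θ ≤ arccos a) : δ * (θ - arccos b) ≤ b - cos θ := by
  obtain ⟨ha, hab, hb⟩ := hM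
  have hc : cos (arccos b) = b := cos_arccos (by linarith) (by linarith)
  have hca : cos (arccos a) = a := cos_arccos (by linarith) (by linarith)
  obtain ⟨ξ, hξ, hξ2⟩ := exists_hasDerivAt_eq_slope cos (fun x => -sin x) h1
    continuous_cos.continuousOn (fun x _ => hasDerivAt_cos x)
  have hpos : 0 < θ - arccos b := by linarith
  rw [eq_div_iff hpos.ne', hc] at hξ2
  have hβ0 : 0 ≤ arccos b := arccos_nonneg b
  have hαπ : arccos a ≤ π := arccos_le_pi a
  have hξ0 : 0 ≤ ξ := hβ0.trans hξ.1.le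
  have hξα : ξ ≤ arccos a := hξ.2.le.trans h2
  have hx1 : a ≤ cos ξ := by
    have h3 := antitoneOn_cos ⟨hξ0, hξα.trans hαπ⟩ ⟨arccos_nonneg a, hαπ⟩ hξα
    rwa [hca] at h3
  have hx2 : cos ξ ≤ b := by
    have h3 := antitoneOn_cos ⟨hβ0, arccos_le_pi b⟩ ⟨hξ0, hξα.trans hαπ⟩ hξ.1.le
    rwa [hc] at h3
  have hs0 : 0 ≤ sin ξ := sin_nonneg_of_nonneg_of_le_pi hξ0 (hξα.trans hαπ)
  have hs : δ ≤ sin ξ := by
    refine abs_le_of_sq_le_sq' ?_ hs0 |>.2
    have := sin_sq_add_cos_sq ξ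
    nlinarith
  have : b - cos θ = sin ξ * (θ - arccos b) := by linarith
  rw [this]
  exact mul_le_mul_of_nonneg_right hs hpos.le

/-- the second derivative at an exceptional critical point near the right end -/
theorem e8L_kappa (hA2 : A2) (hA11 : A11) (hE6L : E6L) (hK3u : K3u) (hN3 : N3) :
    ∀ δ R : ℝ, 0 < δ → δ ≤ 1 / 4 → 0 < R → ∃ n0 : ℕ, ∀ n ≥ n0,
    ∀ (a b θc : ℝ) (P : ℝ[X]), MidL δ a b → Ext n a b P →
    2 * R + 1000 / δ + 20 ≤ n * (arccos a - arccos b) → arccos a - R / n < θc →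
    θc < arccos a → deriv (qq P) θc = 0 → |qq P θc| ≠ 1 →
    |deriv (deriv (qq P)) θc| ≤ 0.265 * (n : ℝ) ^ 2 ∧ deriv (deriv (qq P)) θc ≠ 0 := by
  intro δ R hδ hδ4 hR
  obtain ⟨K, hK, h1⟩ := hK3u
  obtain ⟨n3, h3⟩ := hE6L δ hδ hδ4
  obtain ⟨n5, h5⟩ := e8a_log (200 * (K + 4 * R / δ)) 1 one_pos
  obtain ⟨n7, h7⟩ := exists_nat_ge (2 * R / δ + 2)
  refine ⟨max n3 (max n5 (max n7 2)), ?_⟩
  intro n hn a b θc P hM hE hL hθ1 hθ2 hd hne
  have k3 : n3 ≤ n := by omega
  have k5 : n5 ≤ n := by omega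
  have k7 : n7 ≤ n := by omega
  have k2 : 2 ≤ n := by omega
  have hn2 : (2 : ℝ) ≤ n := by exact_mod_cast k2
  have hn7 : 2 * R / δ + 2 ≤ n := le_trans h7 (by exact_mod_cast k7)
  have hn0 : (0 : ℝ) < n := by linarith
  have hlog : 0 ≤ Real.log n := Real.log_nonneg (by linarith)
  have hnR : 2 * R / n ≤ δ := by
    rw [div_le_iff₀ hn0]
    have := hn7
    have h8 : 2 * R / δ ≤ n := by linarith
    rw [div_le_iff₀ hδ] at h8
    linarith
  have hMM := hM
  obtain ⟨ha, hab, hb⟩ := hMM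
  set α := arccos a with hα
  set β := arccos b with hβ
  have hca : cos α = a := cos_arccos (by linarith) (by linarith)
  have hcb : cos β = b := cos_arccos (by linarith) (by linarith)
  have hRn : R / n ≤ δ / 2 := by
    have : R / n = (2 * R / n) / 2 := by ring
    rw [this]
    linarith
  have hRn0 : n * (R / n) = R := by field_simp
  have hδ' : 0 < 1000 / δ := by positivity
  have hαθ : n * (α - θc) ≤ R := by
    have : n * (α - θc) ≤ n * (R / n) := mul_le_mul_of_nonneg_left (by linarith) hn0.le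
    linarith
  have hθβ : 1000 / δ ≤ n * (θc - β) := by
    have : n * (θc - β) = n * (α - β) - n * (α - θc) := by ring
    linarith
  have hβθ : β < θc := by
    by_contra hcon
    push Not at hcon
    have : n * (θc - β) ≤ 0 := mul_nonpos_of_nonneg_of_nonpos hn0.le (by linarith)
    linarith
  obtain ⟨hsin, s, hs1, hs2, hs3⟩ := e8L_cos hδ hM hθ2
  rw [← hα] at hsin hs1 hs3
  have hND := h3 n k3 a b P hM hE
  have hnat : P.natDegree ≤ n := natDegree_le_iff_degree_le.2 hE.deg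
  have hTB : TB n (qq P) := hA2.2.1 n P hnat hE.bdd
  have hB := (hA2.1 n (qq P) (by omega) hTB).2
  set κ : ℝ := |deriv (deriv (qq P)) θc| / (n : ℝ) ^ 2 with hκ
  have hκn : |deriv (deriv (qq P)) θc| = (n : ℝ) ^ 2 * κ := by
    rw [hκ]
    field_simp
  have hκ0 : 0 ≤ κ := by positivity
  have hκ1 : κ ≤ 1 := by
    rw [hκ, div_le_one (by positivity)]
    exact (hB θc).2.2.2.1
  have hθI : θc ∈ Icc β α := ⟨hβθ.le, hθ2.le⟩
  have hsec := hND θc hθI (by rw [hd, abs_zero]; positivity)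
  refine ⟨?_, ?_⟩
  swap
  · intro h0
    rw [h0, abs_zero] at hsec
    have : 0 < (n : ℝ) ^ 2 / 1000 := by positivity
    linarith
  by_contra hcon
  push Not at hcon
  have hκ2 : 0.265 ≤ κ := by
    rw [hκ, le_div_iff₀ (by positivity)]
    exact hcon.le
  -- the first order condition
  have hND0 : ND n (qq P) (β + 0 / n) (α - 0 / n) := by
    rw [zero_div, add_zero, sub_zero]
    exact hND
  have hk := h1 n a b θc 0 P k2 (by linarith) hab (by linarith) hE ⟨hβθ, hθ2⟩ hd hne le_rfl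
    (by norm_num) hND0
  rw [← hα, ← hβ] at hk
  simp only [mul_zero, zero_mul, add_zero] at hk
  -- the derivative at the right end
  have hh : 0 < α - θc := by linarith
  have hhR : α - θc ≤ R / n := by linarith
  have hτ : 0 < n * (α - θc) := by positivity
  have hder : |deriv (qq P) α| ≤ n * Gm κ (π / 2) (n * (α - θc)) := by
    have h8 := (hA11 n (qq P) θc (π / 2) κ (n * (α - θc)) k2 hTB le_rfl (by linarith [pi_pos])
      hκ0 (by rw [hd, abs_zero, cos_pi_div_two, neg_zero, mul_zero])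
      (by rw [sin_pi_div_two, mul_one, hκn]) hτ.le).1
    have h9 : θc + n * (α - θc) / n = α := by
      field_simp
      ring
    rwa [h9] at h8
  have hG := hN3 κ (n * (α - θc)) hκ2 hκ1 hτ
  have hder2 : |deriv (qq P) α| ≤ n * ((2 * κ - 0.01) * (n * (α - θc))) :=
    hder.trans (mul_le_mul_of_nonneg_left hG hn0.le)
  have hs0 : 0 < s := by linarith
  have hε : sin α ≤ (1 + 2 * R / (n * δ)) * s := by
    have e1 : 2 * R / (n * δ) ≤ 1 := by
      rw [div_le_one (by positivity)]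
      rw [div_le_iff₀ hn0] at hnR
      linarith
    have e2 : 2 * (R / n) ≤ 2 * R / (n * δ) * sin α := by
      have : 2 * R / (n * δ) * sin α = 2 * (R / n) * (sin α / δ) := by
        field_simp
      rw [this]
      have e3 : 1 ≤ sin α / δ := by
        rw [le_div_iff₀ hδ]
        linarith
      have e4 : 0 ≤ 2 * (R / n) := by positivity
      nlinarith
    have e5 : 0 ≤ 2 * R / (n * δ) := by positivity
    have e6 : sin α - R / n ≤ s := by linarith
    have e7 : 0 ≤ R / n := by positivity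
    nlinarith
  have hD0 : 0 < cos θc - a := by
    rw [hs3]
    positivity
  have hterm1 : sin α * |deriv (qq P) α| / (cos θc - a) ≤
      (n : ℝ) ^ 2 * (2 * κ - 0.01) * (1 + 2 * R / (n * δ)) := by
    rw [div_le_iff₀ hD0, hs3]
    have e1 : sin α * |deriv (qq P) α| ≤
        sin α * (n * ((2 * κ - 0.01) * (n * (α - θc)))) :=
      mul_le_mul_of_nonneg_left hder2 (by linarith)
    have e2 : 0 ≤ n * ((2 * κ - 0.01) * (n * (α - θc))) := by
      have : 0 ≤ 2 * κ - 0.01 := by linarith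
      positivity
    have e3 := mul_le_mul_of_nonneg_right hε e2
    calc _ ≤ _ := e1
      _ ≤ _ := e3
      _ = _ := by ring
  have hterm2 : sin β * |deriv (qq P) β| / (b - cos θc) ≤ 0.001 * (n : ℝ) ^ 2 := by
    have e1 : δ * (θc - β) ≤ b - cos θc := e8L_far hδ hM hβθ hθ2.le
    have e2 : sin β * |deriv (qq P) β| ≤ n := by
      have := (hB β).2.2.1
      have e3 := sin_le_one β
      have e4 := abs_nonneg (deriv (qq P) β)
      nlinarith
    have e0 : 0 < δ * (θc - β) := mul_pos hδ (by linarith)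
    rw [div_le_iff₀ (by linarith)]
    have e5 : 1000 ≤ n * (δ * (θc - β)) := by
      rw [div_le_iff₀ hδ] at hθβ
      linarith
    calc _ ≤ (n : ℝ) := e2
      _ ≤ 0.001 * (n : ℝ) ^ 2 * (δ * (θc - β)) := by
        have e6 : 0.001 * (n : ℝ) ^ 2 * (δ * (θc - β)) =
            0.001 * n * (n * (δ * (θc - β))) := by ring
        rw [e6]
        nlinarith
      _ ≤ _ := mul_le_mul_of_nonneg_left e1 (by positivity)
  rw [hκn] at hk
  have hfin := h5 n k5
  have e8 : (n : ℝ) ^ 2 * (2 * κ - 0.01) * (1 + 2 * R / (n * δ)) ≤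
      (n : ℝ) ^ 2 * (2 * κ - 0.01) + 4 * R / δ * n := by
    have e9 : (n : ℝ) ^ 2 * (2 * κ - 0.01) * (1 + 2 * R / (n * δ)) =
        (n : ℝ) ^ 2 * (2 * κ - 0.01) + (2 * κ - 0.01) * (2 * R / δ * n) := by
      field_simp
    rw [e9]
    have e10 : 0 ≤ 2 * R / δ * n := by positivity
    have e11 : 4 * R / δ * n = 2 * (2 * R / δ * n) := by ring
    rw [e11]
    have := mul_le_mul_of_nonneg_right (by linarith : 2 * κ - 0.01 ≤ 2) e10
    linarith
  have e12 : 0.009 * (n : ℝ) ^ 2 ≤ n * ((K + 4 * R / δ) * (1 + Real.log n)) := by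
    have e13 : 4 * R / δ * n ≤ n * (4 * R / δ * (1 + Real.log n)) := by
      have : 0 ≤ 4 * R / δ * n := by positivity
      nlinarith
    nlinarith
  have e15 : n * ((K + 4 * R / δ) * (1 + Real.log n)) ≤ n * (n / 200) :=
    mul_le_mul_of_nonneg_left (by linarith) hn0.le
  nlinarith [mul_pos hn0 hn0]

/-- the first exceptional critical point near the right end -/
theorem e8L_a (hA2 : A2) (hA11 : A11) (hCH : CH) (hCLL : CLL) (hE2 : E2) (hE6L : E6L)
    (hK3u : K3u) (hLS : LS) (hN2 : N2) (hN3 : N3) (hVF1 : VF1) (hVF2 : VF2) :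
    ∀ δ R : ℝ, 0 < δ → δ ≤ 1 / 4 → 0 < R → ∃ n0 : ℕ, ∀ n ≥ n0,
    ∀ (a b θc : ℝ) (P : ℝ[X]), MidL δ a b → Ext n a b P →
    2 * R + 1000 / δ + 20 ≤ n * (arccos a - arccos b) → arccos a - R / n < θc →
    θc < arccos a → deriv (qq P) θc = 0 →
    (∀ θ, arccos b + R / n ≤ θ → θ < θc → deriv (qq P) θ = 0 → |qq P θ| = 1) →
    |qq P θc| = 1 := by
  intro δ R hδ hδ4 hR
  obtain ⟨n1, h1⟩ := e8L_kappa hA2 hA11 hE6L hK3u hN3 δ R hδ hδ4 hR
  obtain ⟨K, hK, n2, h2⟩ := hCLL δ hδ hδ4
  obtain ⟨n4, h4⟩ := hE2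
  obtain ⟨n6, h6⟩ := e8a_log (K * (2 * R + 17.5) + 130) 0.007 (by norm_num)
  refine ⟨max (max n1 n2) (max n4 (max n6 4)), ?_⟩
  intro n hn a b θc P hM hE hL hθ1 hθ2 hd hcont
  have k1 : n1 ≤ n := by omega
  have k2 : n2 ≤ n := by omega
  have k4 : n4 ≤ n := by omega
  have k6 : n6 ≤ n := by omega
  have k44 : 4 ≤ n := by omega
  have hn2 : (4 : ℝ) ≤ n := by exact_mod_cast k44
  have hn0 : (0 : ℝ) < n := by linarith
  have hlog : 0 ≤ Real.log n := Real.log_nonneg (by linarith)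
  by_contra hne
  obtain ⟨hκ, hκ0⟩ := h1 n k1 a b θc P hM hE hL hθ1 hθ2 hd hne
  have hMM := hM
  obtain ⟨ha, hab, hb⟩ := hMM
  have hδ' : 0 < 1000 / δ := by positivity
  have hα1 : (2 * R + 20) / n ≤ arccos a - arccos b := by
    rw [div_le_iff₀ hn0]
    linarith
  have hαπ : arccos a ≤ π := arccos_le_pi a
  have hβ0 : 0 ≤ arccos b := arccos_nonneg b
  set α := arccos a with hα
  set β := arccos b with hβ
  have hsplit : (2 * R + 20) / n = 2 * (R / n) + 20 / n := by ring
  rw [hsplit] at hα1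
  have hRn : 0 < R / n := by positivity
  have h1n : (0 : ℝ) < 1 / n := by positivity
  have e7 : (7 : ℝ) / n = 7 * (1 / n) := by ring
  have e20 : (20 : ℝ) / n = 20 * (1 / n) := by ring
  have e126 : (1.26 : ℝ) / n = 1.26 * (1 / n) := by ring
  have hnat : P.natDegree ≤ n := natDegree_le_iff_degree_le.2 hE.deg
  have hTB : TB n (qq P) := hA2.2.1 n P hnat hE.bdd
  have hEE : ∀ u v : ℝ, arccos b ≤ u → u ≤ v → v ≤ arccos a →
      (∀ θ ∈ Ioo u v, deriv (qq P) θ ≠ 0) → n * (v - u) ≤ 6 :=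
    fun u v => h4 n a b u v P k4 (by linarith) (by linarith) (by linarith) hE
  -- critical points
  obtain ⟨u, hu, hu0⟩ := e8a_crit (n := n) (P := P) (by omega) hEE
    (u := β + R / n) (v := β + R / n + 7 / n) (by linarith)
    (by rw [← hα]; linarith) rfl
  obtain ⟨v, hv, hv0⟩ := e8a_crit (n := n) (P := P) (by omega) hEE
    (u := θc - 1.26 / n - 7 / n) (v := θc - 1.26 / n) (by rw [← hβ]; linarith)
    (by rw [← hα]; linarith) (by ring)
  have huv : u < v := by linarith [hu.2, hv.1]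
  have hne' : ∃ θ, deriv (qq P) θ ≠ 0 := by
    by_contra hcon
    push Not at hcon
    apply hκ0
    have : deriv (qq P) = fun _ => 0 := funext hcon
    rw [this]
    simp
  have hcon' : ∀ θ ∈ Icc u v, deriv (qq P) θ = 0 → |qq P θ| = 1 := by
    intro θ hθ hθ0
    exact hcont θ (by linarith [hu.1, hθ.1]) (by linarith [hv.2, hθ.2]) hθ0
  obtain ⟨N, t, hN, ht0, htN, hch⟩ := hCH n (qq P) u v (by omega) hTB hne' huv hu0 hv0 hcon'
  have hlow := (h2 n k2 a b P N t hM hE hN (by rw [ht0]; linarith [hu.1])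
    (by rw [htN]; linarith [hv.2]) hch).1
  rw [htN, ht0] at hlow
  rw [← hα, ← hβ] at hlow
  -- loss of arc length
  have hcs := hVF1.2
  have hpi1 := Real.pi_gt_d2
  have hpi2 := Real.pi_lt_d2
  have hL' : cs ≤ 2 / π * 1.26 - 0.3711 := by
    have : 0.8 ≤ 2 / π * 1.26 := by
      rw [div_mul_eq_mul_div, le_div_iff₀ pi_pos]
      linarith
    linarith
  have hls := (hLS n (qq P) θc (π / 2) 0.265 1.26 (2 / π * 1.26 - 0.3711) k44 hTB le_rfl
    (by linarith [pi_pos]) (by norm_num)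
    (by rw [hd, abs_zero, cos_pi_div_two, neg_zero, mul_zero])
    (by rw [sin_pi_div_two, mul_one]; linarith) (by norm_num) (by linarith [hN2.1]) hN2.2 hL').1
    v α hv0 (by linarith [hv.2]) hθ2.le (by linarith [hv.1, pi_pos])
  have hnv : 0 ≤ n * (α - v) := by
    have : 0 ≤ α - v := by linarith [hv.2]
    positivity
  have hvf := (hVF2 (n * (α - v)) hnv).2
  have hb1 : n * (α - v) ≤ R + 8.26 + 1 := by
    have : α - v ≤ R / n + 8.26 * (1 / n) := by linarith [hv.1]
    calc n * (α - v) ≤ n * (R / n + 8.26 * (1 / n)) := mul_le_mul_of_nonneg_left this hn0.le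
      _ = R + 8.26 := by field_simp
      _ ≤ _ := by linarith
  have hb2 : n * (u - β) ≤ R + 7 := by
    have : u - β ≤ R / n + 7 * (1 / n) := by linarith [hu.2]
    calc n * (u - β) ≤ n * (R / n + 7 * (1 / n)) := mul_le_mul_of_nonneg_left this hn0.le
      _ = R + 7 := by field_simp
  have hb3 : K * (1 + n * (α - v) + n * (u - β)) * (1 + Real.log n) / n ≤
      K * (2 * R + 17.5) * (1 + Real.log n) / n := by
    apply div_le_div_of_nonneg_right _ hn0.le
    apply mul_le_mul_of_nonneg_right _ (by linarith)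
    apply mul_le_mul_of_nonneg_left _ hK.le
    linarith
  have hLc : 0.0077 < 2 / π * 1.26 - 0.3711 - cs := by
    have : 0.8 ≤ 2 / π * 1.26 := by
      rw [div_mul_eq_mul_div, le_div_iff₀ pi_pos]
      linarith
    linarith
  have hfin := h6 n k6
  have hfin2 : (K * (2 * R + 17.5) + 130) * (1 + Real.log n) / n ≤ 0.007 := by
    rw [div_le_iff₀ hn0]
    exact hfin
  have her : er n = 60 * (1 + Real.log n) / n := rfl
  have hq1 : 2 * 1.26 / (n : ℝ) ≤ 10 * (1 + Real.log n) / n := by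
    apply div_le_div_of_nonneg_right _ hn0.le
    nlinarith
  have hq2 : (K * (2 * R + 17.5) + 130) * (1 + Real.log n) / n =
      K * (2 * R + 17.5) * (1 + Real.log n) / n + 10 * (1 + Real.log n) / n +
        2 * (60 * (1 + Real.log n) / n) := by ring
  rw [her] at hls
  linarith

/-- all critical points except those near the left end -/
theorem e8L_right (hA1 : A1) (hA2 : A2) (hA4 : A4) {δ R L : ℝ} {n : ℕ}
    (hE3 : ∀ (a b θ : ℝ) (P : ℝ[X]), -1 ≤ a → a < b → b ≤ 1 → Ext n a b P →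
      arccos b + R / n ≤ θ → θ ≤ arccos a - R / n → deriv (qq P) θ = 0 → |qq P θ| = 1)
    (hE8a : ∀ (a b θc : ℝ) (P : ℝ[X]), MidL δ a b → Ext n a b P →
      L ≤ n * (arccos a - arccos b) → arccos a - R / n < θc →
      θc < arccos a → deriv (qq P) θc = 0 →
      (∀ θ, arccos b + R / n ≤ θ → θ < θc → deriv (qq P) θ = 0 → |qq P θ| = 1) →
      |qq P θc| = 1) (a b : ℝ) (P : ℝ[X]) (hδ : 0 < δ) (hR : 0 ≤ R) (hM : MidL δ a b)
    (hP : Ext n a b P) (hL : L ≤ n * (arccos a - arccos b))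
    (hnc : ∃ θ, deriv (qq P) θ ≠ 0) :
    ∀ θ, arccos b + R / n ≤ θ → θ < arccos a → deriv (qq P) θ = 0 → |qq P θ| = 1 := by
  by_contra hcon
  push Not at hcon
  obtain ⟨θ1, h1, h2, h3, h4⟩ := hcon
  have hTB : TB n (qq P) := hA2.2.1 n P (natDegree_le_iff_degree_le.2 hP.deg) hP.bdd
  have hTP : TP n (deriv (qq P)) := (hA1.1 n (qq P) hTB.1).2.1
  have hfin := (hA4 n (deriv (qq P)) 0 hTP hnc).1
  have hRn : 0 ≤ R / n := by positivity
  have hfin2 : {θ | arccos b + R / n ≤ θ ∧ θ < arccos a ∧ deriv (qq P) θ = 0 ∧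
      |qq P θ| ≠ 1}.Finite := by
    refine hfin.subset ?_
    rintro θ ⟨g1, g2, g3, -⟩
    have g4 := arccos_nonneg b
    have g5 := arccos_le_pi a
    have g6 := pi_pos
    refine ⟨⟨by linarith, by linarith⟩, g3⟩
  obtain ⟨θc, ⟨k1, k2, k3, k4⟩, hmin⟩ := Set.exists_min_image _ id hfin2 ⟨θ1, h1, h2, h3, h4⟩
  have hM1 := hM.1
  have hM2 := hM.2.1
  have hM3 := hM.2.2
  refine k4 (hE8a a b θc P hM hP hL ?_ k2 k3 ?_)
  · by_contra hle
    exact k4 (hE3 a b θc P (by linarith) hM2 (by linarith) hP k1 (not_lt.1 hle) k3)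
  · intro θ m1 m2 m3
    by_contra m4
    have := hmin θ ⟨m1, m2.trans k2, m3, m4⟩
    simp only [id] at this
    linarith

theorem e8L (hA1 : A1) (hA2 : A2) (hA4 : A4) (hA11 : A11) (hCH : CH) (hCLL : CLL) (hE2 : E2)
    (hE3L : E3L) (hE6L : E6L) (hK3u : K3u) (hLS : LS) (hN0 : N0) (hN2 : N2) (hN3 : N3)
    (hS4 : S4) (hVF1 : VF1) (hVF2 : VF2) : E8L := by
  intro δ hδ hδ4
  obtain ⟨R, hR, n1, hn1⟩ := hE3L
  obtain ⟨n2, hn2⟩ := e8L_a hA2 hA11 hCH hCLL hE2 hE6L hK3u hLS hN2 hN3 hVF1 hVF2 δ R hδ hδ4 hR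
  have hδ' : 0 < 1000 / δ := by positivity
  obtain ⟨n3, hn3⟩ := hS4 δ (2 * R + 1000 / δ + 20) hδ hδ4 (by positivity)
  refine ⟨max (max n1 n2) (max n3 1), fun n hn a b θ P hM hP hθ hd => ?_⟩
  have hna : n1 ≤ n := (le_max_left _ _).trans ((le_max_left _ _).trans hn)
  have hnb : n2 ≤ n := (le_max_right _ _).trans ((le_max_left _ _).trans hn)
  have hnc : n3 ≤ n := (le_max_left _ _).trans ((le_max_right _ _).trans hn)
  have hnd : 1 ≤ n := (le_max_right _ _).trans ((le_max_right _ _).trans hn)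
  have hnpos : (0 : ℝ) < n := by exact_mod_cast hnd
  rcases le_total (n * (arccos a - arccos b)) (2 * R + 1000 / δ + 20) with hL | hL
  · exact hn3 n hnc a b θ P hM hP hL hθ hd
  have h2R : 2 * (R / n) < arccos a - arccos b := by
    have h2 : 2 * (R / n) = 2 * R / n := by ring
    rw [h2, div_lt_iff₀ hnpos]
    linarith
  have hM1 := hM.1
  have hM2 := hM.2.1
  have hM3 := hM.2.2
  have E3' := fun a b θ P => hn1 n hna a b θ P
  have E8' := fun a b θ P => hn2 n hnb a b θ P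
  by_cases hconst : ∀ x, deriv (qq P) x = 0
  · have h1 : |qq P ((arccos a + arccos b) / 2)| = 1 :=
      E3' a b _ P (by linarith) hM2 (by linarith) hP (by linarith) (by linarith) (hconst _)
    have hdiff : Differentiable ℝ (qq P) := by
      unfold qq
      exact P.differentiable.comp differentiable_cos
    rw [is_const_of_deriv_eq_zero hdiff hconst θ ((arccos a + arccos b) / 2)]
    exact h1
  push Not at hconst
  by_contra hne
  have c1 : θ < arccos b + R / n := by
    by_contra hle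
    exact hne (e8L_right hA1 hA2 hA4 E3' E8' a b P hδ hR.le hM hP hL hconst θ (not_lt.1 hle)
      hθ.2 hd)
  have hM' : MidL δ (-b) (-a) := ⟨by linarith, by linarith, by linarith⟩
  have c2 : π - θ < arccos (-a) + R / n := by
    by_contra hle
    have hx : deriv (qq (P.comp (-X))) (π - θ) = 0 := by
      rw [e8_dqq, sub_sub_cancel, hd, neg_zero]
    have hy := e8L_right hA1 hA2 hA4 E3' E8' (-b) (-a) (P.comp (-X)) hδ hR.le hM' (ext_refl hP)
      (by
        rw [arccos_neg, arccos_neg]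
        have : π - arccos b - (π - arccos a) = arccos a - arccos b := by ring
        rw [this]
        exact hL)
      (by
        obtain ⟨x, hx⟩ := hconst
        refine ⟨π - x, ?_⟩
        rw [e8_dqq, sub_sub_cancel]
        exact neg_ne_zero.2 hx) (π - θ) (not_lt.1 hle)
      (by
        rw [arccos_neg]
        linarith [hθ.1]) hx
    rw [e8_qq, sub_sub_cancel] at hy
    exact hne hy
  rw [arccos_neg] at c2
  linarith

end Pool.Agent.Helper10.AL
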