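import Pool.Agent.Helper10.AL.St3

/-!
Arc length of polynomials over windows with an end point of the interval: piece G2au.
-/

set_option autoImplicit false

namespace Pool.Agent.Helper10.AL

open Polynomial Set Real MeasureTheory intervalIntegral
open Pool.Agent.Helper40.AS (arc Bdd Ext)

/-- pointwise bound for the kernel -/
theorem g2au_pt (s p : ℝ) (hs0 : 0 ≤ s) (hs1 : s ≤ 1) :
    s ^ 2 / √(s ^ 2 + p ^ 2) ≤ s * (1 / √(1 + p ^ 2)) := by
  rcases hs0.eq_or_lt with h | h
  · rw [← h]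
    simp
  · have h1 : 0 < s ^ 2 + p ^ 2 := by positivity
    have h2 : 0 < 1 + p ^ 2 := by positivity
    have h3 : 0 < √(s ^ 2 + p ^ 2) := Real.sqrt_pos.mpr h1
    have h4 : 0 < √(1 + p ^ 2) := Real.sqrt_pos.mpr h2
    have h5 : s * √(1 + p ^ 2) ≤ √(s ^ 2 + p ^ 2) := by
      apply Real.le_sqrt_of_sq_le
      rw [mul_pow, Real.sq_sqrt h2.le]
      nlinarith [sq_nonneg p, mul_nonneg (sq_nonneg p) (sub_nonneg.mpr (show s ^ 2 ≤ 1 by nlinarith))]
    rw [mul_one_div, div_le_div_iff₀ h3 h4]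
    nlinarith

theorem g2au (hA1 : A1) (hA2 : A2) (hM1 : M1) (hM3 : M3) : G2au := by
  obtain ⟨K1, hK1, hM1'⟩ := hM1
  refine ⟨4 * K1, by positivity, ?_⟩
  intro n a b A P w hn ha hab hb hlen hdeg hbdd hND hwc hw0 hA hwA
  have hn1 : 1 ≤ n := by omega
  have hnR : (1 : ℝ) ≤ n := by exact_mod_cast hn1
  have hnpos : (0 : ℝ) < n := by linarith
  have hTB : TB n (qq P) := hA2.2.1 n P hdeg hbdd
  have hc1 : Continuous (deriv (qq P)) := by
    have h := (hA1.1 n (qq P) hTB.1).1 1
    exact h.continuous_deriv (by norm_num)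
  have hpos : ∀ y : ℝ, 0 < 1 + y ^ 2 := fun y => by positivity
  have hg : Continuous fun θ => 1 / √(1 + (deriv (qq P) θ) ^ 2) := by
    apply continuous_const.div
    · exact (continuous_const.add (hc1.pow 2)).sqrt
    · intro θ
      exact (Real.sqrt_pos.mpr (hpos _)).ne'
  have hg0 : ∀ θ, 0 ≤ 1 / √(1 + (deriv (qq P) θ) ^ 2) := fun θ => by positivity
  have hβ0 : 0 ≤ arccos b := arccos_nonneg b
  have hαπ : arccos a ≤ π := arccos_le_pi a
  have hinv : (0 : ℝ) < 1 / n := by positivity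
  have hβα : arccos b ≤ arccos a := by linarith
  have hsin : ∀ θ ∈ Icc (arccos b) (arccos a), 0 ≤ sin θ := fun θ hθ =>
    sin_nonneg_of_nonneg_of_le_pi (hβ0.trans hθ.1) (hθ.2.trans hαπ)
  have hlog : 0 ≤ Real.log n := Real.log_nonneg hnR
  have hWc : ContinuousOn (fun θ => w θ * (sin θ + 1 / n)) (Icc (arccos b) (arccos a)) :=
    hwc.mul (continuous_sin.add continuous_const).continuousOn
  have hW0 : ∀ θ ∈ Icc (arccos b) (arccos a), 0 ≤ w θ * (sin θ + 1 / n) := fun θ hθ =>
    mul_nonneg (hw0 θ hθ) (add_nonneg (hsin θ hθ) hinv.le)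
  have hmain := hM3 n (fun θ => 1 / √(1 + (deriv (qq P) θ) ^ 2))
    (fun θ => w θ * (sin θ + 1 / n)) (arccos b) (arccos a) (2 * A)
    (K1 * (1 + Real.log n) / (n : ℝ) ^ 2) hn1 hg hWc hg0 hW0 hlen (by positivity) (by linarith)
    (by
      intro x y hx hxy hy hyx
      apply (hM1' n (qq P) x y hn hTB hxy hyx _).2
      intro θ hθ
      exact hND θ ⟨hx.trans hθ.1, hθ.2.trans hy⟩)
    (by
      intro x hx y hy hxy
      have h1 : sin x ≤ sin y + 1 / n := by
        have h := abs_sin_sub_sin_le x y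
        have h' := (abs_le.mp h).2
        linarith
      have h2 : sin x + 1 / n ≤ 2 * (sin y + 1 / n) := by
        have := hsin y hy
        linarith
      have h3 := hwA x hx y hy hxy
      have h4 : 0 ≤ sin x + 1 / n := add_nonneg (hsin x hx) hinv.le
      have h5 : 0 ≤ A * w y := mul_nonneg (by linarith) (hw0 y hy)
      calc w x * (sin x + 1 / n) ≤ (A * w y) * (2 * (sin y + 1 / n)) :=
            mul_le_mul h3 h2 h4 h5
        _ = 2 * A * (w y * (sin y + 1 / n)) := by ring)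
  have hI0 : 0 ≤ ∫ θ in (arccos b)..(arccos a), w θ * (sin θ + 1 / n) :=
    intervalIntegral.integral_nonneg hβα hW0
  have hR : 2 * (n : ℝ) * (2 * A) * (K1 * (1 + Real.log n) / (n : ℝ) ^ 2) *
      (∫ θ in (arccos b)..(arccos a), w θ * (sin θ + 1 / n)) =
      4 * K1 * A * (1 + Real.log n) / n *
        ∫ θ in (arccos b)..(arccos a), w θ * (sin θ + 1 / n) := by
    have : 2 * (n : ℝ) * (2 * A) * (K1 * (1 + Real.log n) / (n : ℝ) ^ 2) =
        4 * K1 * A * (1 + Real.log n) / n := by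
      field_simp
      ring
    rw [this]
  rw [hR] at hmain
  refine le_trans ?_ hmain
  by_cases hint : IntervalIntegrable
      (fun θ => w θ * (sin θ ^ 2 / √(sin θ ^ 2 + deriv (qq P) θ ^ 2))) volume
      (arccos b) (arccos a)
  · apply intervalIntegral.integral_mono_on hβα hint
    · apply ContinuousOn.intervalIntegrable
      rw [uIcc_of_le hβα]
      exact hWc.mul hg.continuousOn
    · intro θ hθ
      have h1 := g2au_pt (sin θ) (deriv (qq P) θ) (hsin θ hθ) (sin_le_one θ)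
      have h2 : sin θ * (1 / √(1 + deriv (qq P) θ ^ 2)) ≤
          (sin θ + 1 / n) * (1 / √(1 + deriv (qq P) θ ^ 2)) :=
        mul_le_mul_of_nonneg_right (by linarith) (hg0 θ)
      calc w θ * (sin θ ^ 2 / √(sin θ ^ 2 + deriv (qq P) θ ^ 2))
          ≤ w θ * ((sin θ + 1 / n) * (1 / √(1 + deriv (qq P) θ ^ 2))) :=
            mul_le_mul_of_nonneg_left (h1.trans h2) (hw0 θ hθ)
        _ = w θ * (sin θ + 1 / n) * (1 / √(1 + deriv (qq P) θ ^ 2)) := by ring
  · rw [intervalIntegral.integral_undef hint]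
    apply intervalIntegral.integral_nonneg hβα
    intro θ hθ
    exact mul_nonneg (hW0 θ hθ) (hg0 θ)

end Pool.Agent.Helper10.AL
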