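import Pool.Agent.Helper10.AL.St2

/-!
The lag of a chain over the whole window.
-/

set_option autoImplicit false

namespace Pool.Agent.Helper10.AL

open Polynomial Set Real MeasureTheory intervalIntegral
open Pool.Agent.Helper40.AS (arc Bdd Ext)

noncomputable section

/-- the small quantity tends to zero -/
theorem h3_tendsto : Filter.Tendsto (fun n : ℕ => (1 + Real.log (n : ℝ)) / (n : ℝ)) Filter.atTop
    (nhds 0) := by
  have h1 : Filter.Tendsto (fun x : ℝ => Real.log x / x) Filter.atTop (nhds 0) := by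
    have := Real.isLittleO_log_id_atTop.tendsto_div_nhds_zero
    simpa using this
  have h2 : Filter.Tendsto (fun x : ℝ => x⁻¹) Filter.atTop (nhds 0) := tendsto_inv_atTop_zero
  have h3 : Filter.Tendsto (fun x : ℝ => x⁻¹ + Real.log x / x) Filter.atTop (nhds 0) := by
    simpa using h2.add h1
  have h4 := h3.comp (tendsto_natCast_atTop_atTop (R := ℝ))
  refine h4.congr ?_
  intro n
  simp only [Function.comp]
  rw [add_div, one_div]

/-- the window of the sine over a full number of half periods and a rest -/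
theorem h3_window (hVF6 : VF6) (y L : ℝ) (N : ℕ) :
    ∫ s in y..(y + (N * π + L)), |sin s| = 2 * N + ∫ s in y..(y + L), |sin s| := by
  obtain ⟨-, h2, -, -, h5⟩ := hVF6
  have h6 : ∀ (N : ℕ) (x : ℝ), VC (x + N * π) = VC x + 2 * N := by
    intro N
    induction N with
    | zero => intro x; simp
    | succ N ih =>
      intro x
      have e1 : x + ((N + 1 : ℕ) : ℝ) * π = (x + N * π) + π := by push_cast; ring
      rw [e1, h2, ih]
      push_cast
      ring
  rw [h5, h5]
  have e2 : y + (N * π + L) = (y + L) + N * π := by ring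
  rw [e2, h6]
  ring

/-- short integrals are small -/
theorem h3_short (g : ℝ → ℝ) (u v C : ℝ) (hg : ∀ θ, |g θ| ≤ C) :
    |∫ θ in u..v, g θ| ≤ C * |v - u| := by
  have := intervalIntegral.norm_integral_le_of_norm_le_const (f := g) (a := u) (b := v) (C := C)
    (fun x _ => by rw [Real.norm_eq_abs]; exact hg x)
  rwa [Real.norm_eq_abs] at this

/-- continuous integrands over nearby windows -/
theorem h3_near (g : ℝ → ℝ) (u v u' v' C e : ℝ) (hc : Continuous g) (hg : ∀ θ, |g θ| ≤ C)
    (hu : |u - u'| ≤ e) (hv : |v - v'| ≤ e) (hC : 0 ≤ C) :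
    |(∫ θ in u..v, g θ) - ∫ θ in u'..v', g θ| ≤ 2 * (C * e) := by
  have hi : ∀ x y : ℝ, IntervalIntegrable g volume x y := fun x y => hc.intervalIntegrable x y
  have h1 : (∫ θ in u..v, g θ) - ∫ θ in u'..v', g θ =
      (∫ θ in u..u', g θ) + ∫ θ in v'..v, g θ := by
    have e1 := intervalIntegral.integral_add_adjacent_intervals (hi u u') (hi u' v')
    have e2 := intervalIntegral.integral_add_adjacent_intervals (hi u v') (hi v' v)
    linarith
  have h2 := h3_short g u u' C hg
  have h3 := h3_short g v' v C hg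
  have h4 : C * |u' - u| ≤ C * e := by
    rw [abs_sub_comm]
    exact mul_le_mul_of_nonneg_left hu hC
  have h5 : C * |v - v'| ≤ C * e := mul_le_mul_of_nonneg_left hv hC
  rw [h1]
  have h6 := abs_add_le (∫ θ in u..u', g θ) (∫ θ in v'..v, g θ)
  linarith

/-- the numerical part -/
theorem h3_num (hVF1 : VF1) (hVF3 : VF3) (hVF4 : VF4) (y L n s B : ℝ) (hn3r : (1000 : ℝ) ≤ n)
    (hs1 : 1 / n ≤ s) (hB : 0 ≤ B) (hsB : B * s < 1 / 1000) (hLnn : 0 ≤ L)
    (h8 : (∫ x in y..(y + L), |sin x|) ≤ L / n + B * s) :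
    L ≤ √(10 * (B + 1)) * √s := by
  have h9 := hVF3 y L hLnn
  have hs0 : 0 ≤ s := le_trans (by positivity) hs1
  have h11 : L ≤ 1 := by
    have h12 : 0.6 ≤ 2 / π := by
      rw [le_div_iff₀ Real.pi_pos]
      have := Real.pi_lt_d2
      linarith
    have h13 : L / n ≤ L / 1000 := by
      gcongr
    have h14 := hVF1.2
    have h15 : 0.6 * L ≤ 2 / π * L := mul_le_mul_of_nonneg_right h12 hLnn
    linarith
  have hpi := Real.pi_gt_three
  have h12 := (hVF4 y L).1 hLnn (by linarith)
  have h14 : L ^ 2 / 10 ≤ 2 * (1 - cos (L / 2)) := by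
    have h15 := Real.cos_le_one_sub_mul_cos_sq (x := L / 2) (by
      rw [abs_of_nonneg (by linarith)]
      linarith)
    have h16 : 1 / 5 ≤ 2 / π ^ 2 := by
      rw [div_le_div_iff₀ (by norm_num) (by positivity)]
      have := Real.pi_lt_d2
      nlinarith
    have h17 : 1 / 5 * (L / 2) ^ 2 ≤ 2 / π ^ 2 * (L / 2) ^ 2 :=
      mul_le_mul_of_nonneg_right h16 (sq_nonneg _)
    linarith
  have h15 : L / n ≤ s := by
    have : L / n ≤ 1 / n := by gcongr
    linarith
  have h16 : L ^ 2 ≤ 10 * (B + 1) * s := by linarith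
  rw [← Real.sqrt_mul (by positivity)]
  exact Real.le_sqrt_of_sq_le h16

theorem h3 (hA1 : A1) (hA2 : A2) (_ : B3) (hB6 : B6) (hC1 : C1) (hC2 : C2) (hVF1 : VF1)
    (hVF3 : VF3) (hVF4 : VF4) (hVF6 : VF6) : H3 := by
  intro δ K1 hδ hδ4 hK1
  set B : ℝ := 20 + 6 * K1 with hB
  have hBpos : 0 < B := by positivity
  refine ⟨√(10 * (B + 1)), Real.sqrt_pos.2 (by positivity), ?_⟩
  have hev : ∀ᶠ n : ℕ in Filter.atTop, (1 + Real.log (n : ℝ)) / (n : ℝ) < 1 / (1000 * B) :=
    h3_tendsto.eventually (gt_mem_nhds (by positivity))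
  obtain ⟨n1, hn1⟩ := Filter.eventually_atTop.1 hev
  refine ⟨max n1 1000, ?_⟩
  intro n hn a b P N t hM hE hN hch htN ht0
  have hn2 : n1 ≤ n := le_trans (le_max_left _ _) hn
  have hn3 : 1000 ≤ n := le_trans (le_max_right _ _) hn
  have hn3r : (1000 : ℝ) ≤ n := by exact_mod_cast hn3
  have hnpos : (0 : ℝ) < n := by linarith
  have hn4 : 1 ≤ n := by omega
  set s : ℝ := (1 + Real.log (n : ℝ)) / (n : ℝ) with hs
  have hlog : 0 ≤ Real.log (n : ℝ) := Real.log_nonneg (by linarith)
  have hs1 : 1 / (n : ℝ) ≤ s := by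
    rw [hs]
    gcongr
    linarith
  have hs0 : 0 < s := lt_of_lt_of_le (by positivity) hs1
  have hsB : B * s < 1 / 1000 := by
    have := hn1 n hn2
    have h2 : s < 1 / (1000 * B) := this
    have h3 : B * s < B * (1 / (1000 * B)) := mul_lt_mul_of_pos_left h2 hBpos
    have h4 : B * (1 / (1000 * B)) = 1 / 1000 := by field_simp
    linarith
  have he : K1 * (1 + Real.log n) / (n : ℝ) ^ 2 = K1 * s / n := by
    rw [hs]
    field_simp
  rw [he] at htN ht0
  obtain ⟨hM1, hM2, hM3⟩ := hM
  have ha : -1 ≤ a := by linarith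
  have hab : a ≤ b := by linarith
  have hb : b ≤ 1 := by linarith
  have hTB : TB n (qq P) := hA2.2.1 n P (natDegree_le_of_degree_le hE.deg) hE.bdd
  have hder : ∀ θ, |deriv (qq P) θ| ≤ n := fun θ => ((hA2.1 n (qq P) hn4 hTB).2 θ).2.2.1
  have hsm := (hA1.1 n (qq P) hTB.1).1 1
  have hcd : Continuous (deriv (qq P)) := hsm.continuous_deriv (by norm_num)
  obtain ⟨hL0, hEn⟩ := hB6 n N (qq P) t hn4 hTB hch.inc hch.con hch.mon
  set L : ℝ := n * (t N - t 0) - N * π with hL
  have hLn : L / n = (t N - t 0) - N * π / n := by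
    rw [hL]
    field_simp
  have hLnn : 0 ≤ L := by linarith
  refine ⟨hLnn, ?_⟩
  -- the number of oscillations
  have hpi := Real.pi_gt_three
  have hα := Real.arccos_le_pi a
  have hβ := Real.arccos_nonneg b
  have hK1s : 6 * (K1 * s) ≤ B * s := by
    rw [hB]
    nlinarith
  have hNn : (N : ℝ) ≤ 2 * n := by
    have h1 : t N - t 0 ≤ π + 2 * (K1 * s / n) := by
      have h2 := (abs_le.1 htN).2
      have h3 := (abs_le.1 ht0).1
      linarith
    have h4 : N * π ≤ n * (π + 2 * (K1 * s / n)) :=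
      le_trans hL0 (mul_le_mul_of_nonneg_left h1 hnpos.le)
    have h5 : n * (π + 2 * (K1 * s / n)) = n * π + 2 * (K1 * s) := by
      field_simp
    have h6 : 2 * (K1 * s) ≤ n * π := by nlinarith
    have h7 : N * π ≤ 2 * n * π := by linarith
    exact le_of_mul_le_mul_right h7 Real.pi_pos
  have hkk : N * kk n ≤ 20 * s := by
    have h1 : kk n = 10 * s / n := by
      unfold kk
      rw [hs]
      field_simp
    rw [h1]
    have h2 : (N : ℝ) * (10 * s / n) ≤ 2 * n * (10 * s / n) :=
      mul_le_mul_of_nonneg_right hNn (by positivity)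
    have h3 : 2 * (n : ℝ) * (10 * s / n) = 20 * s := by
      field_simp
      ring
    linarith
  -- arc length from above
  have hg : ∀ θ, |√(1 + (deriv (qq P) θ) ^ 2)| ≤ 2 * n := by
    intro θ
    rw [abs_of_nonneg (Real.sqrt_nonneg _)]
    refine Real.sqrt_le_iff.2 ⟨by positivity, ?_⟩
    have h1 : (deriv (qq P) θ) ^ 2 ≤ (n : ℝ) ^ 2 := by
      rw [← sq_abs]
      exact pow_le_pow_left₀ (abs_nonneg _) (hder θ) 2
    nlinarith
  have h1 := h3_near (fun θ => √(1 + (deriv (qq P) θ) ^ 2)) (arccos b) (arccos a) (t 0) (t N)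
    (2 * n) (K1 * s / n) (by fun_prop) hg (by rw [abs_sub_comm]; exact ht0)
    (by rw [abs_sub_comm]; exact htN) (by positivity)
  have h2 : 2 * (2 * (n : ℝ) * (K1 * s / n)) = 4 * (K1 * s) := by
    field_simp
    ring
  rw [h2] at h1
  have h3 : En (qq P) (arccos b) (arccos a) ≤ En (qq P) (t 0) (t N) + 4 * (K1 * s) := by
    have := (abs_le.1 h1).2
    unfold En
    linarith
  have h4 := (hC1 P a b ha hab hb).2
  -- arc length from below
  have h5 := hC2 n a b P hn4 ha hab hb hE
  have h6 := h3_near (fun x => |sin x|) (n * arccos b) (n * arccos a) (n * t 0) (n * t N) 1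
    (K1 * s) (by fun_prop) (fun x => by rw [abs_abs]; exact Real.abs_sin_le_one x)
    (by
      rw [← mul_sub, abs_mul, abs_of_pos hnpos, abs_sub_comm]
      have := mul_le_mul_of_nonneg_left ht0 hnpos.le
      have e1 : (n : ℝ) * (K1 * s / n) = K1 * s := by field_simp
      linarith)
    (by
      rw [← mul_sub, abs_mul, abs_of_pos hnpos, abs_sub_comm]
      have := mul_le_mul_of_nonneg_left htN hnpos.le
      have e1 : (n : ℝ) * (K1 * s / n) = K1 * s := by field_simp
      linarith)
    (by norm_num)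
  have h7 : (∫ x in (n * t 0)..(n * t N), |sin x|) =
      2 * N + ∫ x in (n * t 0)..(n * t 0 + L), |sin x| := by
    have e1 : n * t N = n * t 0 + (N * π + L) := by rw [hL]; ring
    rw [e1]
    exact h3_window hVF6 (n * t 0) L N
  have h8 : (∫ x in (n * t 0)..(n * t 0 + L), |sin x|) ≤ L / n + B * s := by
    have h9 := (abs_le.1 h6).1
    simp only [one_mul] at h9
    rw [h7] at h9
    rw [hLn, hB]
    linarith
  exact h3_num hVF1 hVF3 hVF4 (n * t 0) L n s B hn3r hs1 hBpos.le hsB hLnn h8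

end

end Pool.Agent.Helper10.AL
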