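import Pool.Agent.Helper10.AL.St3
import Pool.Agent.Helper10.AL.P.H3
import Pool.Agent.Helper10.AL.P.E2

/-!
The lag of a chain over a window with an end point.
-/

set_option autoImplicit false

namespace Pool.Agent.Helper10.AL

open Polynomial Set Real MeasureTheory intervalIntegral
open Pool.Agent.Helper40.AS (arc Bdd Ext quad)

noncomputable section

theorem h3o_quad (x : ℝ) (h0 : 0 ≤ x) (h1 : x ≤ 3) : x ^ 2 / 5 ≤ 1 - cos x := by
  have h15 := Real.cos_le_one_sub_mul_cos_sq (x := x) (by
    rw [abs_of_nonneg h0]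
    linarith [Real.pi_gt_three])
  have h16 : 1 / 5 ≤ 2 / π ^ 2 := by
    rw [div_le_div_iff₀ (by norm_num) (by positivity)]
    have := Real.pi_lt_d2
    nlinarith [Real.pi_pos]
  have h17 : 1 / 5 * x ^ 2 ≤ 2 / π ^ 2 * x ^ 2 :=
    mul_le_mul_of_nonneg_right h16 (sq_nonneg _)
  linarith

/-- small values of the variation of the cosine -/
theorem h3o_small (hVF6 : VF6) (x e : ℝ) (hx : 0 ≤ x) (he : e < 1 / 5) (h : VC x ≤ e) :
    x ^ 2 ≤ 5 * e := by
  obtain ⟨hmono, -, -, hval, -⟩ := hVF6
  have hpi := Real.pi_gt_three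
  rcases le_or_gt x 1 with h1 | h1
  · have h2 := hval x hx (by linarith)
    have h3 := h3o_quad x hx (by linarith)
    linarith
  · have h2 := hmono h1.le
    have h3 := hval 1 (by norm_num) (by linarith)
    have h4 := h3o_quad 1 (by norm_num) (by norm_num)
    linarith

/-- upper bound for the smallest variation -/
theorem h3o_wt (n : ℕ) (g : ℝ) (hn : 1000 ≤ n) (hg : 0 ≤ g) : Wt n g ≤ 2 / π * g := by
  have hN : (1000 : ℝ) ≤ n := by exact_mod_cast hn
  have hpi3 : 3 < π := pi_gt_three
  have hpi4 : π < 3.1416 := pi_lt_d4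
  have hpi0 : 0 < π := pi_pos
  unfold Wt
  split_ifs with hlp
  · have h1 : 2 / π * (π / 2 - g / 2) ≤ sin (π / 2 - g / 2) :=
      mul_le_sin (by linarith) (by linarith)
    rw [sin_pi_div_two_sub] at h1
    have h2 : 2 / π * (π / 2 - g / 2) = 1 - g / π := by field_simp
    have h3 : 2 / π * g = 2 * (g / π) := by ring
    rw [h3]
    linarith
  · have h1 : 2 / π * g = 2 + 2 / π * (g - π) := by field_simp; ring
    rw [h1]
    have h3 : (g - π) / n ≤ (g - π) / 4 := by
      apply div_le_div_of_nonneg_left (by linarith) (by norm_num) (by linarith)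
    have h4 : (0.6366 : ℝ) ≤ 2 / π := by
      rw [le_div_iff₀ hpi0]
      nlinarith
    have h5 : 0.6366 * (g - π) ≤ 2 / π * (g - π) :=
      mul_le_mul_of_nonneg_right h4 (by linarith)
    linarith

/-- the numerical part -/
theorem h3o_num (hVF1 : VF1) (hVF2 : VF2) (hVF6 : VF6) (n : ℕ) (g L s B : ℝ) (hn3 : 1000 ≤ n)
    (hs1 : 1 / (n : ℝ) ≤ s) (hB : 0 ≤ B) (hsB : (B + 4) * s < 1 / 1000) (hLnn : 0 ≤ L)
    (hg0 : 1 / 1000 ≤ g) (hg6 : g ≤ 6)
    (h8 : VC (g + L) ≤ Wt n g + L / n + B * s) :
    L ≤ 100000000 * (B + 4) * √s := by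
  have hn3r : (1000 : ℝ) ≤ n := by exact_mod_cast hn3
  have hs0 : 0 < s := lt_of_lt_of_le (by positivity) hs1
  have hpi3 := Real.pi_gt_three
  have hpi4 := Real.pi_lt_d2
  have hpi0 := Real.pi_pos
  have hs2 : s ≤ 1 := by nlinarith
  have hsq : s ≤ √s := by
    have h1 : √s ^ 2 = s := Real.sq_sqrt hs0.le
    have h2 : √s ≤ 1 := Real.sqrt_le_iff.2 ⟨by norm_num, by linarith⟩
    have h3 : 0 ≤ √s := Real.sqrt_nonneg _
    nlinarith
  -- the lag is at most one
  have h11 : L ≤ 1 := by
    have h9 := (hVF2 (g + L) (by linarith)).2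
    have h10 := h3o_wt n g hn3 (by linarith)
    have h12 : 0.6 ≤ 2 / π := by
      rw [le_div_iff₀ Real.pi_pos]
      linarith
    have h13 : L / n ≤ L / 1000 := by
      gcongr
    have h14 := hVF1.2
    have h15 : 0.6 * L ≤ 2 / π * L := mul_le_mul_of_nonneg_right h12 hLnn
    have h16 : 2 / π * (g + L) = 2 / π * g + 2 / π * L := by ring
    have h17 : B * s ≤ (B + 4) * s := by nlinarith
    linarith
  have hLs : L / n ≤ s := by
    have : L / n ≤ 1 / n := by gcongr
    linarith
  set e : ℝ := (B + 4) * s with he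
  have he0 : 0 < e := by positivity
  -- the root of the small quantity
  have hroot : √(5 * e) ≤ 5 * (B + 4) * √s := by
    rw [he]
    have h1 : 5 * ((B + 4) * s) ≤ (5 * (B + 4) * √s) ^ 2 := by
      have h2 : (5 * (B + 4) * √s) ^ 2 = (5 * (B + 4)) ^ 2 * s := by
        rw [mul_pow, Real.sq_sqrt hs0.le]
      rw [h2]
      have h3 : 5 * (B + 4) ≤ (5 * (B + 4)) ^ 2 := by nlinarith
      have h4 := mul_le_mul_of_nonneg_right h3 hs0.le
      linarith
    exact Real.sqrt_le_iff.2 ⟨by positivity, h1⟩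
  have hes : e ≤ (B + 4) * √s := by
    rw [he]
    exact mul_le_mul_of_nonneg_left hsq (by linarith)
  have hBs : 0 ≤ (B + 4) * √s := by positivity
  have hmono := hVF6.1
  have hper := hVF6.2.1
  have hval := hVF6.2.2.2.1
  rcases le_or_gt g π with hgp | hgp
  · -- the first gap is at most `π`
    have hWt : Wt n g = 2 * (1 - cos (g / 2)) := by
      unfold Wt
      rw [if_pos hgp]
    set c : ℝ := cos (g / 2) with hc
    have hc0 : 0 ≤ c := cos_nonneg_of_mem_Icc ⟨by linarith, by linarith⟩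
    have hc1 : c ≤ 1 := cos_le_one _
    have hVg : VC g = 2 - 2 * c ^ 2 := by
      rw [hval g (by linarith) hgp, hc]
      have : g = 2 * (g / 2) := by ring
      conv_lhs => rw [this]
      rw [cos_two_mul]
      ring
    have h1 := hmono (show g ≤ g + L by linarith)
    rw [hVg] at h1
    rw [hWt] at h8
    have h2 : 2 * c * (1 - c) ≤ e := by
      rw [he]
      nlinarith
    have h3 : (1 : ℝ) / 20000000 ≤ 1 - c := by
      have h4 := h3o_quad (g / 2) (by linarith) (by linarith)
      have h5 : (1 / 2000 : ℝ) ^ 2 ≤ (g / 2) ^ 2 := by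
        apply pow_le_pow_left₀ (by norm_num)
        linarith
      norm_num at h5
      rw [← hc] at h4
      linarith
    have h4 : c ≤ 10000000 * e := by
      have h5 : c * (1 / 20000000) ≤ c * (1 - c) := mul_le_mul_of_nonneg_left h3 hc0
      linarith
    have h5 : (π - g) / π ≤ c := by
      have h6 : 2 / π * (π / 2 - g / 2) ≤ sin (π / 2 - g / 2) :=
        mul_le_sin (by linarith) (by linarith)
      rw [sin_pi_div_two_sub, ← hc] at h6
      have h7 : 2 / π * (π / 2 - g / 2) = (π - g) / π := by field_simp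
      linarith
    have h6 : π - g ≤ 40000000 * e := by
      rw [div_le_iff₀ hpi0] at h5
      have h7 : c * π ≤ 10000000 * e * π := mul_le_mul_of_nonneg_right h4 hpi0.le
      have h8 : 10000000 * e * π ≤ 10000000 * e * 4 :=
        mul_le_mul_of_nonneg_left (by linarith) (by positivity)
      linarith
    rcases le_or_gt (g + L) π with hgl | hgl
    · have h7 : L ≤ 40000000 * e := by linarith
      linarith
    · have h7 : VC (g + L) = 2 + VC (g + L - π) := by
        have h9 := hper (g + L - π)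
        rw [sub_add_cancel] at h9
        linarith
      have h9 : VC (g + L - π) ≤ e := by
        have h10 : B * s + L / n ≤ e := by
          rw [he]
          nlinarith
        linarith
      have h10 := h3o_small hVF6 (g + L - π) e (by linarith) (by linarith) h9
      have h11 := Real.le_sqrt_of_sq_le h10
      linarith
  · -- the first gap is more than `π`
    have hWt : Wt n g = 2 + (g - π) / n := by
      unfold Wt
      rw [if_neg (not_le.2 hgp)]
    rw [hWt] at h8
    have h1 : (g - π) / n ≤ 3 * s := by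
      have h2 : (g - π) / n ≤ 3 / n := by
        gcongr
        linarith
      have h3 : 3 / (n : ℝ) = 3 * (1 / n) := by ring
      linarith
    have h7 : VC (g + L) = 2 + VC (g + L - π) := by
      have h9 := hper (g + L - π)
      rw [sub_add_cancel] at h9
      linarith
    have h9 : VC (g + L - π) ≤ e := by
      rw [he]
      linarith
    have h10 := h3o_small hVF6 (g + L - π) e (by linarith) (by linarith) h9
    have h11 := Real.le_sqrt_of_sq_le h10
    linarith

theorem h3o (hA1 : A1) (hA2 : A2) (hB2c : B2c) (hB6 : B6) (hC1 : C1) (hC2 : C2) (hE2 : E2)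
    (hVF1 : VF1) (hVF2 : VF2) (_ : VF4) (hVF6 : VF6) : H3o := by
  intro δ K1 hδ hδ4 hK1
  set B : ℝ := 30 + 6 * K1 with hB
  have hBpos : 0 < B := by positivity
  refine ⟨100000000 * (B + 4), by positivity, ?_⟩
  have hev : ∀ᶠ n : ℕ in Filter.atTop,
      (1 + Real.log (n : ℝ)) / (n : ℝ) < 1 / (1000 * (B + 4)) :=
    h3_tendsto.eventually (gt_mem_nhds (by positivity))
  obtain ⟨n1, hn1⟩ := Filter.eventually_atTop.1 hev
  obtain ⟨n2, hn2⟩ := hE2
  refine ⟨max (max n1 n2) 1000, ?_⟩
  intro n hn a P N t ha1 ha2 hE hND hN hch ht0 hfree htN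
  have hna : n1 ≤ n := le_trans (le_trans (le_max_left _ _) (le_max_left _ _)) hn
  have hnb : n2 ≤ n := le_trans (le_trans (le_max_right _ _) (le_max_left _ _)) hn
  have hn3 : 1000 ≤ n := le_trans (le_max_right _ _) hn
  have hn3r : (1000 : ℝ) ≤ n := by exact_mod_cast hn3
  have hnpos : (0 : ℝ) < n := by linarith
  have hn4 : 1 ≤ n := by omega
  set s : ℝ := (1 + Real.log (n : ℝ)) / (n : ℝ) with hs
  have hlog : 0 ≤ Real.log (n : ℝ) := Real.log_nonneg (by linarith)
  have hs1 : 1 / (n : ℝ) ≤ s := by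
    rw [hs]
    gcongr
    linarith
  have hs0 : 0 < s := lt_of_lt_of_le (by positivity) hs1
  have hsB : (B + 4) * s < 1 / 1000 := by
    have h2 : s < 1 / (1000 * (B + 4)) := hn1 n hna
    have h3 : (B + 4) * s < (B + 4) * (1 / (1000 * (B + 4))) :=
      mul_lt_mul_of_pos_left h2 (by positivity)
    have h4 : (B + 4) * (1 / (1000 * (B + 4))) = 1 / 1000 := by field_simp
    linarith
  have he : K1 * (1 + Real.log n) / (n : ℝ) ^ 2 = K1 * s / n := by
    rw [hs]
    field_simp
  rw [he] at htN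
  have ha : -1 ≤ a := by linarith
  have hab : a ≤ 1 := by linarith
  have hTB : TB n (qq P) := hA2.2.1 n P (natDegree_le_of_degree_le hE.deg) hE.bdd
  have hBern := (hA2.1 n (qq P) hn4 hTB).2
  have hder : ∀ θ, |deriv (qq P) θ| ≤ n := fun θ => (hBern θ).2.2.1
  obtain ⟨hL0, hEn⟩ := hB6 n N (qq P) t hn4 hTB hch.inc hch.con hch.mon
  set L : ℝ := n * (t N - t 0) - N * π with hL
  have hLn : L / n = (t N - t 0) - N * π / n := by
    rw [hL]
    field_simp
  have hLnn : 0 ≤ L := by linarith
  refine ⟨hLnn, ?_⟩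
  have hpi := Real.pi_gt_three
  have hα := Real.arccos_le_pi a
  have hα0 := Real.arccos_nonneg a
  have hK1s : 6 * (K1 * s) ≤ B * s := by
    rw [hB]
    nlinarith
  have hBs : B * s ≤ (B + 4) * s := by nlinarith
  have htN1 := (abs_le.1 htN).1
  have htN2 := (abs_le.1 htN).2
  have hN1 : (1 : ℝ) ≤ N := by exact_mod_cast hN
  -- the number of oscillations
  have hNn : (N : ℝ) ≤ 2 * n := by
    have h1 : t N - t 0 ≤ π + K1 * s / n := by linarith
    have h4 : N * π ≤ n * (π + K1 * s / n) :=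
      le_trans hL0 (mul_le_mul_of_nonneg_left h1 hnpos.le)
    have h5 : n * (π + K1 * s / n) = n * π + K1 * s := by
      field_simp
    have h6 : K1 * s ≤ n * π := by nlinarith
    have h7 : N * π ≤ 2 * n * π := by linarith
    exact le_of_mul_le_mul_right h7 Real.pi_pos
  have hkn : kk n ≤ 10 * s := by
    have h1 : kk n = 10 * s / n := by
      unfold kk
      rw [hs]
      field_simp
    rw [h1]
    exact div_le_self (by positivity) (by linarith)
  have hkk : N * kk n ≤ 20 * s := by
    have h1 : kk n = 10 * s / n := by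
      unfold kk
      rw [hs]
      field_simp
    rw [h1]
    have h2 : (N : ℝ) * (10 * s / n) ≤ 2 * n * (10 * s / n) :=
      mul_le_mul_of_nonneg_right hNn (by positivity)
    have h3 : 2 * (n : ℝ) * (10 * s / n) = 20 * s := by
      field_simp
      ring
    linarith
  -- the first gap
  have ht0α : t 0 ≤ arccos a := by
    have h1 : (1 : ℝ) * π ≤ n * (t N - t 0) :=
      le_trans (mul_le_mul_of_nonneg_right hN1 Real.pi_pos.le) hL0
    have h2 : n * (t N - arccos a) ≤ n * (K1 * s / n) :=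
      mul_le_mul_of_nonneg_left htN2 hnpos.le
    have h3 : n * (K1 * s / n) = K1 * s := by field_simp
    have h4 : n * t 0 ≤ n * arccos a := by nlinarith
    exact le_of_mul_le_mul_left h4 hnpos
  have hg6 : n * t 0 ≤ 6 := by
    have h1 := hn2 n a 1 0 (t 0) P hnb ha (by linarith) le_rfl hE (by rw [Real.arccos_one])
      ht0.le ht0α hfree
    simpa using h1
  have hd0 : deriv (qq P) 0 = 0 := by
    rw [(hA2.2.2 P 0).1]
    simp
  have hdt : deriv (qq P) (t 0) = 0 := by
    have h1 := (hBern (t 0)).1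
    have h2 := hch.con 0 (Nat.zero_le _)
    have h3 : qq P (t 0) ^ 2 = 1 := by
      rw [← sq_abs, h2]
      norm_num
    rw [h3] at h1
    have h4 : deriv (qq P) (t 0) ^ 2 ≤ 0 := by linarith
    exact pow_eq_zero_iff (two_ne_zero) |>.1 (le_antisymm h4 (sq_nonneg _))
  have hg0 : 1 / 1000 ≤ n * t 0 := by
    have hcd := (hA1.1 n (qq P) hTB.1).1
    have hcd1 : ContDiff ℝ 3 (qq P) := by exact_mod_cast hcd 3
    have hc1 : ContDiff ℝ 2 (deriv (qq P)) := by
      have : ContDiff ℝ (2 + 1) (qq P) := by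
        have e : (2 + 1 : WithTop ℕ∞) = 3 := by norm_num
        rw [e]
        exact hcd1
      exact (contDiff_succ_iff_deriv.1 this).2.2
    have hc2 : ContDiff ℝ 1 (deriv (deriv (qq P))) := by
      have : ContDiff ℝ (1 + 1) (deriv (qq P)) := by
        have e : (1 + 1 : WithTop ℕ∞) = 2 := by norm_num
        rw [e]
        exact hc1
      exact (contDiff_succ_iff_deriv.1 this).2.2
    obtain ⟨ξ, hξ, hξ0⟩ := exists_deriv_eq_zero (f := deriv (qq P)) ht0
      hc1.continuous.continuousOn (by rw [hd0, hdt])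
    have h1 := hND 0 ⟨le_rfl, hα0⟩ (by rw [hd0]; simp; positivity)
    have h2 : ‖deriv (deriv (qq P)) 0 - deriv (deriv (qq P)) ξ‖ ≤ (n : ℝ) ^ 3 * ‖(0 : ℝ) - ξ‖ :=
      Convex.norm_image_sub_le_of_norm_deriv_le (s := Set.univ)
        (fun x _ => (hc2.differentiable (by norm_num)) x)
        (fun x _ => by
          rw [Real.norm_eq_abs]
          exact (hBern x).2.2.2.2) convex_univ (mem_univ _) (mem_univ _)
    rw [hξ0, sub_zero, Real.norm_eq_abs, Real.norm_eq_abs, zero_sub, abs_neg,
      abs_of_pos hξ.1] at h2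
    have h3 : (n : ℝ) ^ 3 * ξ ≤ (n : ℝ) ^ 3 * t 0 :=
      mul_le_mul_of_nonneg_left hξ.2.le (by positivity)
    have h4 : (n : ℝ) ^ 2 * (1 / 1000) ≤ (n : ℝ) ^ 2 * (n * t 0) := by
      have e1 : (n : ℝ) ^ 2 * (n * t 0) = (n : ℝ) ^ 3 * t 0 := by ring
      rw [e1]
      linarith
    exact le_of_mul_le_mul_left h4 (by positivity)
  -- arc length from above
  have hg : ∀ θ, |√(1 + (deriv (qq P) θ) ^ 2)| ≤ 2 * n := by
    intro θ
    rw [abs_of_nonneg (Real.sqrt_nonneg _)]
    refine Real.sqrt_le_iff.2 ⟨by positivity, ?_⟩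
    have h1 : (deriv (qq P) θ) ^ 2 ≤ (n : ℝ) ^ 2 := by
      rw [← sq_abs]
      exact pow_le_pow_left₀ (abs_nonneg _) (hder θ) 2
    nlinarith
  have h1 : En (qq P) (t N) (arccos a) ≤ 2 * (K1 * s) := by
    have h2 := h3_short (fun θ => √(1 + (deriv (qq P) θ) ^ 2)) (t N) (arccos a) (2 * n) hg
    have h3 : 2 * (n : ℝ) * |arccos a - t N| ≤ 2 * n * (K1 * s / n) := by
      rw [abs_sub_comm]
      exact mul_le_mul_of_nonneg_left htN (by positivity)
    have h4 : 2 * (n : ℝ) * (K1 * s / n) = 2 * (K1 * s) := by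
      field_simp
    have h5 := le_abs_self (∫ θ in (t N)..(arccos a), √(1 + (deriv (qq P) θ) ^ 2))
    unfold En
    linarith
  have h2 : En (qq P) 0 (arccos a) = En (qq P) 0 (t 0) + En (qq P) (t 0) (t N) +
      En (qq P) (t N) (arccos a) := by
    rw [← e2_split hA2, ← e2_split hA2]
  have h3 := hB2c n (qq P) 0 (t 0) (by omega) hTB ht0.le hfree hd0 hdt
  rw [sub_zero] at h3
  have h4 := (hC1 P a 1 ha hab le_rfl).2
  rw [Real.arccos_one] at h4
  -- arc length from below
  have h5 := hC2 n a 1 P hn4 ha hab le_rfl hE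
  rw [Real.arccos_one, mul_zero] at h5
  have h5' : VC (n * arccos a) ≤ arc a 1 P := h5
  have h6 : VC (n * t N) ≤ VC (n * arccos a) + K1 * s := by
    have h7 := hVF6.2.2.1 (n * t N) (n * arccos a)
    have h8 : |n * t N - n * arccos a| ≤ K1 * s := by
      rw [← mul_sub, abs_mul, abs_of_pos hnpos]
      have := mul_le_mul_of_nonneg_left htN hnpos.le
      have e1 : (n : ℝ) * (K1 * s / n) = K1 * s := by field_simp
      linarith
    have h9 := (abs_le.1 h7).2
    linarith
  have h7 : VC (n * t N) = VC (n * t 0 + L) + 2 * N := by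
    have h8 : ∀ (M : ℕ) (x : ℝ), VC (x + M * π) = VC x + 2 * M := by
      intro M
      induction M with
      | zero => intro x; simp
      | succ M ih =>
        intro x
        have e1 : x + ((M + 1 : ℕ) : ℝ) * π = (x + M * π) + π := by push_cast; ring
        rw [e1, hVF6.2.1, ih]
        push_cast
        ring
    have e1 : n * t N = (n * t 0 + L) + N * π := by rw [hL]; ring
    rw [e1, h8]
  have h8 : VC (n * t 0 + L) ≤ Wt n (n * t 0) + L / n + B * s := by
    have h9 : 0 < K1 * s := by positivity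
    rw [hLn, hB]
    linarith
  exact h3o_num hVF1 hVF2 hVF6 n (n * t 0) L s B hn3 hs1 hBpos.le hsB hLnn hg0 hg6 h8

end

end Pool.Agent.Helper10.AL
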