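import Pool.Agent.Helper10.AL.St4
import Pool.Agent.Helper10.AL.P.HH

/-!
All critical points are real, windows of arbitrary length in a compact interval.
-/

set_option autoImplicit false

namespace Pool.Agent.Helper10.AL

open Polynomial Set Real MeasureTheory intervalIntegral
open Pool.Agent.Helper40.AS (arc Bdd Ext)

theorem hHL_sin {δ x : ℝ} (hδ : 0 < δ) (hδ4 : δ ≤ 1 / 4) (h1 : -1 + δ ≤ x) (h2 : x ≤ 1 - δ) :
    δ ≤ sin (arccos x) := by
  rw [Real.sin_arccos]
  apply Real.le_sqrt_of_sq_le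
  nlinarith

theorem hHL (hA1 : A1) (hA2 : A2) (hCH : CH) (hE6L : E6L) (hE8L : E8L) (hG2L : G2L) (hH1 : H1)
    (hH3L : H3L) (hH4g : H4g) : HHL := by
  intro δ hδ hδ4
  obtain ⟨n1, hE6'⟩ := hE6L δ hδ hδ4
  obtain ⟨n2, hE8'⟩ := hE8L δ hδ hδ4
  obtain ⟨K, hK, n3, hG2'⟩ := hG2L δ hδ hδ4
  obtain ⟨K', hK', n4, hH3'⟩ := hH3L δ (2000 * K) hδ hδ4 (by positivity)
  set K2 : ℝ := 2 * K + K' + 1 / δ with hK2
  have hδi : 0 < 1 / δ := by positivity
  have hK2pos : 0 < K2 := by positivity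
  have hK2a : 2 * K ≤ K2 := by linarith
  have hK2b : K' ≤ K2 := by linarith
  have hK2c : 1 / δ ≤ K2 := by linarith
  obtain ⟨n5, hH4'⟩ := hH4g K2 hK2pos
  obtain ⟨n6, hn6⟩ := exists_nat_ge ((16000000 * K) ^ 2)
  obtain ⟨n7, hn7⟩ := exists_nat_ge (1 / δ)
  obtain ⟨n8, hn8⟩ := exists_nat_ge (16000 * K ^ 2)
  refine ⟨n1 + n2 + n3 + n4 + n5 + n6 + n7 + n8 + 1, ?_⟩
  intro n hn a b P hM hP z0 hz0
  by_contra hne
  obtain ⟨z, hz, hzim⟩ : ∃ z : ℂ, aeval z P.derivative = 0 ∧ 0 < z.im := by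
    rcases lt_or_gt_of_ne hne with h | h
    · refine ⟨(starRingEnd ℂ) z0, ?_, by simpa using h⟩
      rw [Polynomial.aeval_conj, hz0, map_zero]
    · exact ⟨z0, hz0, h⟩
  have hn1 : 1 ≤ n := by omega
  have hnpos : (0 : ℝ) < n := by exact_mod_cast hn1
  obtain ⟨ha, hab, hb⟩ := hM
  have hM : MidL δ a b := ⟨ha, hab, hb⟩
  have hND := hE6' n (by omega) a b P hM hP
  obtain ⟨g1, g2, g3, g4, g5⟩ := hG2' n (by omega) a b P z hM hP hz hzim
  have hL1 : 1 ≤ 1 + Real.log n := hH_log_pos n hn1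
  have hL : 1 + Real.log n ≤ 2 * √n := hH_log n hn1
  set L : ℝ := 1 + Real.log n with hLdef
  have hLpos : 0 < L := by linarith
  have hKL0 : 0 < 1 / (K * L) := by positivity
  -- smallness
  have hsq : 16000000 * K ≤ √n := by
    apply Real.le_sqrt_of_sq_le
    refine hn6.trans ?_
    exact_mod_cast (by omega : n6 ≤ n)
  have hm : K * L ≤ n / 8000000 := by
    have h1 : K * L ≤ K * (2 * √n) := mul_le_mul_of_nonneg_left hL hK.le
    have h2 : 16000000 * K * √n ≤ √n * √n := mul_le_mul_of_nonneg_right hsq (Real.sqrt_nonneg _)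
    rw [Real.mul_self_sqrt hnpos.le] at h2
    linarith
  have hm0 : 0 ≤ K * L := by positivity
  have hδn : 1 / (n : ℝ) ≤ δ := by
    rw [div_le_iff₀ hnpos]
    have h1 : 1 / δ ≤ n := hn7.trans (by exact_mod_cast (by omega : n7 ≤ n))
    rw [div_le_iff₀ hδ] at h1
    linarith
  have hshift : 2000 * (K * L) / (n : ℝ) ^ 2 ≤ 1 / 4000 * (1 / (n : ℝ)) := by
    rw [div_le_iff₀ (by positivity)]
    have h1 : 1 / 4000 * (1 / (n : ℝ)) * (n : ℝ) ^ 2 = n / 4000 := by
      field_simp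
    rw [h1]
    linarith
  have hshift' : 2000 * (K * L) / (n : ℝ) ^ 2 < δ / 2 := by
    have h1 : (0 : ℝ) < 1 / n := by positivity
    linarith
  have hKb : 2000 * (K * L) / (n : ℝ) ^ 2 ≤ 1 / (2 * (K * L)) := by
    rw [div_le_div_iff₀ (by positivity) (by positivity)]
    have h1 : L ^ 2 ≤ 4 * n := by
      have h3 : L ^ 2 ≤ (2 * √n) ^ 2 := pow_le_pow_left₀ hLpos.le hL 2
      rw [mul_pow, Real.sq_sqrt hnpos.le] at h3
      linarith
    have h2 : 16000 * K ^ 2 ≤ n := hn8.trans (by exact_mod_cast (by omega : n8 ≤ n))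
    calc 2000 * (K * L) * (2 * (K * L)) = 4000 * K ^ 2 * L ^ 2 := by ring
      _ ≤ 4000 * K ^ 2 * (4 * n) := mul_le_mul_of_nonneg_left h1 (by positivity)
      _ = 16000 * K ^ 2 * n := by ring
      _ ≤ n * n := mul_le_mul_of_nonneg_right h2 hnpos.le
      _ = 1 * (n : ℝ) ^ 2 := by ring
  have hKc : 1 / (K * L) = 1 / (2 * (K * L)) + 1 / (2 * (K * L)) := by
    field_simp
    norm_num
  have hPdeg : P.natDegree ≤ n := natDegree_le_of_degree_le hP.deg
  have hTB : TB n (qq P) := hA2.2.1 n P hPdeg hP.bdd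
  have hαβ : b - a ≤ arccos a - arccos b := hH_arccos_sub (by linarith) hab.le (by linarith)
  have hαz : z.re - a ≤ arccos a - arccos z.re :=
    hH_arccos_sub (by linarith) (by linarith) (by linarith)
  have hzβ : b - z.re ≤ arccos z.re - arccos b :=
    hH_arccos_sub (by linarith) (by linarith) (by linarith)
  have hαπ : a - (-1) ≤ arccos (-1) - arccos a := hH_arccos_sub le_rfl (by linarith) (by linarith)
  have hβ0 : 1 - b ≤ arccos b - arccos 1 := hH_arccos_sub (by linarith) (by linarith) le_rfl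
  rw [Real.arccos_neg_one] at hαπ
  rw [Real.arccos_one] at hβ0
  -- the derivatives at the end points
  have hbound : ∀ x : ℝ, -1 ≤ x → x ≤ 1 → |P.derivative.eval x| ≤ K * L →
      |deriv (qq P) (arccos x)| ≤ K * L := by
    intro x hx1 hx2 hx
    rw [(hA2.2.2 P (arccos x)).1, Real.cos_arccos hx1 hx2, abs_neg, abs_mul]
    calc |sin (arccos x)| * |P.derivative.eval x| ≤ 1 * |P.derivative.eval x| :=
          mul_le_mul_of_nonneg_right (Real.abs_sin_le_one _) (abs_nonneg _)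
      _ ≤ K * L := by rw [one_mul]; exact hx
  have hda := hbound a (by linarith) (by linarith) g4
  have hdb := hbound b (by linarith) (by linarith) g5
  have h1000 : K * L ≤ n / 1000 := by
    have : (n : ℝ) / 8000000 ≤ n / 1000 := by
      rw [div_le_div_iff₀ (by norm_num) (by norm_num)]
      linarith
    linarith
  have hdda := hND (arccos a) ⟨by linarith, le_rfl⟩ (hda.trans h1000)
  have hddb := hND (arccos b) ⟨le_rfl, by linarith⟩ (hdb.trans h1000)
  obtain ⟨θA, hA, hA'⟩ := hH1 n (qq P) (arccos a) (K * L) hn1 hTB hm0 hda hdda hm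
  obtain ⟨θB, hB, hB'⟩ := hH1 n (qq P) (arccos b) (K * L) hn1 hTB hm0 hdb hddb hm
  have hA3 := abs_lt.1 (lt_of_le_of_lt hA hshift')
  have hB3 := abs_lt.1 (lt_of_le_of_lt hB hshift')
  have hA4 := abs_le.1 (hA.trans hKb)
  have hB4 := abs_le.1 (hB.trans hKb)
  have hBA : θB < θA := by linarith [hA4.1, hB4.2]
  have hE : ∀ θ ∈ Ioo (arccos b) (arccos a), deriv (qq P) θ = 0 → |qq P θ| = 1 :=
    fun θ hθ hd => hE8' n (by omega) a b θ P hM hP hθ hd
  have hcont : ∀ θ ∈ Icc θB θA, deriv (qq P) θ = 0 → |qq P θ| = 1 := by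
    intro θ hθ hd
    refine hH_contact hA2 hn1 (by linarith) hab (by linarith) hP hE ?_ ?_ hd
    · linarith [hθ.1, hB3.1]
    · linarith [hθ.2, hA3.2]
  obtain ⟨N, t, hN, ht0, htN, hch⟩ := hCH n (qq P) θB θA hn1 hTB (hH_ne hA2 hn1 hab hP) hBA hB'
    hA' hcont
  have e1 : |t N - arccos a| ≤ 2000 * K * (1 + Real.log n) / (n : ℝ) ^ 2 := by
    rw [htN]
    refine hA.trans (le_of_eq ?_)
    rw [hLdef]
    ring
  have e2 : |t 0 - arccos b| ≤ 2000 * K * (1 + Real.log n) / (n : ℝ) ^ 2 := by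
    rw [ht0]
    refine hB.trans (le_of_eq ?_)
    rw [hLdef]
    ring
  have hlag := (hH3' n (by omega) a b P N t hM hP hN hch e1 e2).2
  -- the position of `z`
  have hKa : 1 / (K2 * L ^ 2) ≤ 1 / (2 * (K * L)) := by
    apply one_div_le_one_div_of_le (by positivity)
    have h2 : L ≤ L ^ 2 := by nlinarith
    calc 2 * (K * L) = (2 * K) * L := by ring
      _ ≤ K2 * L ^ 2 := mul_le_mul hK2a h2 hLpos.le hK2pos.le
  have hKs : 1 / (K2 * L) ≤ δ := by
    rw [div_le_iff₀ (by positivity)]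
    rw [div_le_iff₀ hδ] at hK2c
    calc (1 : ℝ) ≤ K2 * δ := hK2c
      _ ≤ K2 * δ * L := le_mul_of_one_le_right (by positivity) hL1
      _ = δ * (K2 * L) := by ring
  refine hH4' n (by omega) P N t z hPdeg hP.bdd hN hch
    (hlag.trans (mul_le_mul_of_nonneg_right hK2b (Real.sqrt_nonneg _))) hz hzim ?_ ?_
    (by linarith) (by linarith) ?_ ?_
  · refine g1.trans ?_
    apply div_le_div_of_nonneg_right _ hnpos.le
    exact mul_le_mul_of_nonneg_right (by linarith) hLpos.le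
  · exact hKs.trans (hHL_sin hδ hδ4 (by linarith) (by linarith))
  · rw [ht0]
    linarith [hB4.2]
  · rw [htN]
    linarith [hA4.1]

end Pool.Agent.Helper10.AL
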