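import Pool.Agent.Helper10.AL.St3
import Pool.Agent.Helper10.AL.P.HH

/-!
All critical points are real, windows with the end point `1`.
-/

set_option autoImplicit false

namespace Pool.Agent.Helper10.AL

open Polynomial Set Real MeasureTheory intervalIntegral
open Pool.Agent.Helper40.AS (arc Bdd Ext)

/-- all critical points in `(0, π)` are contact points -/
theorem hHo_contact (hA2 : A2) {n : ℕ} {a : ℝ} {P : ℝ[X]} (hn : 1 ≤ n) (ha : -1 < a)
    (ha1 : a < 1) (hP : Ext n a 1 P)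
    (hE : ∀ θ ∈ Ioo 0 (arccos a), deriv (qq P) θ = 0 → |qq P θ| = 1)
    {θ : ℝ} (h0 : 0 < θ) (hπ : θ < π) (hd : deriv (qq P) θ = 0) : |qq P θ| = 1 := by
  have hs : 0 < sin θ := Real.sin_pos_of_pos_of_lt_pi h0 hπ
  have hr : P.derivative.eval (cos θ) = 0 := by
    rw [(hA2.2.2 P θ).1] at hd
    have h3 : sin θ * P.derivative.eval (cos θ) = 0 := by linarith
    exact (mul_eq_zero.1 h3).resolve_left hs.ne'
  have hc2 : -1 < cos θ := by
    have := Real.cos_lt_cos_of_nonneg_of_le_pi h0.le le_rfl hπ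
    simpa using this
  rcases le_or_gt (arccos a) θ with h2 | h2
  · have haθ : cos θ ≤ a := by
      have := Real.cos_le_cos_of_nonneg_of_le_pi (Real.arccos_nonneg a) hπ.le h2
      rwa [Real.cos_arccos ha.le (by linarith)] at this
    exact (Pool.Agent.Helper40.AS.left_contact hP hn ha1 le_rfl hc2 haθ hr).1
  · exact hE θ ⟨h0, h2⟩ hd

/-- the critical points in `(0, c]` are finitely many -/
theorem hHo_fin (hA2 : A2) {n : ℕ} {a : ℝ} {P : ℝ[X]} (hn : 1 ≤ n) (ha1 : a < 1)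
    (hP : Ext n a 1 P) {c : ℝ} (hc : c < π) :
    {θ | θ ∈ Ioc 0 c ∧ deriv (qq P) θ = 0}.Finite := by
  have hne : P.derivative ≠ 0 := Pool.Agent.Helper40.AS.ext_ne hP hn ha1
  refine Set.Finite.of_finite_image (f := Real.cos) ?_ ?_
  · refine Set.Finite.subset (Polynomial.finite_setOfPred_isRoot hne) ?_
    rintro x ⟨θ, ⟨hθ, hd⟩, rfl⟩
    have hs : 0 < sin θ := Real.sin_pos_of_pos_of_lt_pi hθ.1 (lt_of_le_of_lt hθ.2 hc)
    rw [(hA2.2.2 P θ).1] at hd
    have h3 : sin θ * P.derivative.eval (cos θ) = 0 := by linarith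
    exact (mul_eq_zero.1 h3).resolve_left hs.ne'
  · intro x hx y hy hxy
    exact Real.injOn_cos ⟨hx.1.1.le, (hx.1.2.trans hc.le)⟩ ⟨hy.1.1.le, (hy.1.2.trans hc.le)⟩ hxy

theorem hHo (hA1 : A1) (hA2 : A2) (hCH : CH) (hE2 : E2) (hG2o : G2o) (hH1 : H1) (hH3o : H3o)
    (hH4g : H4g) (hO1 : O1) (hO8 : O8) : HHo := by
  intro δ hδ hδ4
  obtain ⟨n1, hO1'⟩ := hO1 δ hδ hδ4
  obtain ⟨n2, hO8'⟩ := hO8 δ hδ hδ4
  obtain ⟨K, hK, n3, hG2'⟩ := hG2o δ hδ hδ4
  obtain ⟨K', hK', n4, hH3'⟩ := hH3o δ (2000 * K) hδ hδ4 (by positivity)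
  obtain ⟨n8, hE2'⟩ := hE2
  -- the constant for the last step
  set s0 : ℝ := √(δ / K) with hs0
  have hs0pos : 0 < s0 := Real.sqrt_pos.2 (by positivity)
  set K2 : ℝ := 2 * K + K' + 2 / s0 with hK2
  have hK2pos : 0 < K2 := by positivity
  have hK2a : 2 * K ≤ K2 := by
    have : 0 ≤ 2 / s0 := by positivity
    linarith
  have hK2b : K' ≤ K2 := by
    have : 0 ≤ 2 / s0 := by positivity
    linarith
  have hK2c : 2 / s0 ≤ K2 := by linarith
  obtain ⟨n5, hH4'⟩ := hH4g K2 hK2pos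
  obtain ⟨n6, hn6⟩ := exists_nat_ge ((16000000 * K) ^ 2)
  obtain ⟨n7, hn7⟩ := exists_nat_ge (13 / δ)
  obtain ⟨n9, hn9⟩ := exists_nat_ge ((24 / s0) ^ 2)
  obtain ⟨n10, hn10⟩ := exists_nat_ge (16000 * K ^ 2)
  refine ⟨n1 + n2 + n3 + n4 + n5 + n6 + n7 + n8 + n9 + n10 + 1, ?_⟩
  intro n hn a P ha ha1 hP z0 hz0
  by_contra hne
  obtain ⟨z, hz, hzim⟩ : ∃ z : ℂ, aeval z P.derivative = 0 ∧ 0 < z.im := by
    rcases lt_or_gt_of_ne hne with h | h
    · refine ⟨(starRingEnd ℂ) z0, ?_, by simpa using h⟩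
      rw [Polynomial.aeval_conj, hz0, map_zero]
    · exact ⟨z0, hz0, h⟩
  have hn1 : 1 ≤ n := by omega
  have hnpos : (0 : ℝ) < n := by exact_mod_cast hn1
  have hab : a < 1 := by linarith
  have hND := hO1' n (by omega) a P ha ha1 hP
  obtain ⟨g1, g2, g3, g4⟩ := hG2' n (by omega) a P z ha ha1 hP hND hz hzim
  have hL1 : 1 ≤ 1 + Real.log n := hH_log_pos n hn1
  have hL : 1 + Real.log n ≤ 2 * √n := hH_log n hn1
  set L : ℝ := 1 + Real.log n with hLdef
  have hLpos : 0 < L := by linarith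
  -- smallness
  have hsq : 16000000 * K ≤ √n := by
    apply Real.le_sqrt_of_sq_le
    refine hn6.trans ?_
    exact_mod_cast (by omega : n6 ≤ n)
  have hm : K * L ≤ n / 8000000 := by
    have h1 : K * L ≤ K * (2 * √n) := mul_le_mul_of_nonneg_left hL hK.le
    have h2 : 16000000 * K * √n ≤ √n * √n := mul_le_mul_of_nonneg_right hsq (Real.sqrt_nonneg _)
    rw [Real.mul_self_sqrt hnpos.le] at h2
    linarith
  have hm0 : 0 ≤ K * L := by positivity
  have hδn : 13 / (n : ℝ) ≤ δ := by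
    rw [div_le_iff₀ hnpos]
    have h1 : 13 / δ ≤ n := hn7.trans (by exact_mod_cast (by omega : n7 ≤ n))
    rw [div_le_iff₀ hδ] at h1
    linarith
  have hinvn : (0 : ℝ) < 1 / n := by positivity
  have h13 : 13 / (n : ℝ) = 13 * (1 / (n : ℝ)) := by ring
  have hshift : 2000 * (K * L) / (n : ℝ) ^ 2 ≤ 1 / 4000 * (1 / (n : ℝ)) := by
    rw [div_le_iff₀ (by positivity)]
    have h1 : 1 / 4000 * (1 / (n : ℝ)) * (n : ℝ) ^ 2 = n / 4000 := by
      field_simp
    rw [h1]
    linarith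
  have hshift' : 2000 * (K * L) / (n : ℝ) ^ 2 < δ / 2 := by
    linarith
  have hPdeg : P.natDegree ≤ n := natDegree_le_of_degree_le hP.deg
  have hTB : TB n (qq P) := hA2.2.1 n P hPdeg hP.bdd
  have hαπ : a - (-1) ≤ arccos (-1) - arccos a := hH_arccos_sub le_rfl (by linarith) (by linarith)
  have hα0 : 1 - a ≤ arccos a - arccos 1 := hH_arccos_sub (by linarith) (by linarith) le_rfl
  rw [Real.arccos_neg_one] at hαπ
  rw [Real.arccos_one] at hα0
  -- the derivative at the end point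
  have hda : |deriv (qq P) (arccos a)| ≤ K * L := by
    rw [(hA2.2.2 P (arccos a)).1, Real.cos_arccos (by linarith) hab.le, abs_neg, abs_mul]
    calc |sin (arccos a)| * |P.derivative.eval a| ≤ 1 * |P.derivative.eval a| :=
          mul_le_mul_of_nonneg_right (Real.abs_sin_le_one _) (abs_nonneg _)
      _ ≤ K * L := by rw [one_mul]; exact g4
  have h1000 : K * L ≤ n / 1000 := by
    have : (n : ℝ) / 8000000 ≤ n / 1000 := by
      rw [div_le_div_iff₀ (by norm_num) (by norm_num)]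
      linarith
    linarith
  have hdda := hND (arccos a) ⟨by linarith, le_rfl⟩ (hda.trans h1000)
  obtain ⟨θA, hA, hA'⟩ := hH1 n (qq P) (arccos a) (K * L) hn1 hTB hm0 hda hdda hm
  have hA3 := abs_lt.1 (lt_of_le_of_lt hA hshift')
  have hA4 := abs_le.1 hA
  have hθA0 : δ / 2 < θA := by linarith [hA3.1]
  have hθAπ : θA < π := by linarith [hA3.2]
  have hE : ∀ θ ∈ Ioo 0 (arccos a), deriv (qq P) θ = 0 → |qq P θ| = 1 :=
    fun θ hθ hd => hO8' n (by omega) a θ P ha ha1 hP hθ hd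
  -- the smallest critical point
  obtain ⟨θB, hB, hBmin⟩ := Set.exists_min_image {θ | θ ∈ Ioc 0 θA ∧ deriv (qq P) θ = 0} id
    (hHo_fin hA2 hn1 hab hP hθAπ) ⟨θA, ⟨by linarith, le_rfl⟩, hA'⟩
  obtain ⟨⟨hB0, hBA⟩, hBd⟩ := hB
  have hBfree : ∀ θ ∈ Ioo 0 θB, deriv (qq P) θ ≠ 0 := by
    intro θ hθ hd
    have := hBmin θ ⟨⟨hθ.1, by linarith [hθ.2]⟩, hd⟩
    simp only [id] at this
    linarith [hθ.2]
  have hB6 : θB ≤ 6 / n := by
    have h1 := hE2' n a 1 0 (min θB (arccos a)) P (by omega) (by linarith) hab le_rfl hP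
      (by rw [Real.arccos_one]) (le_min hB0.le (by linarith)) (min_le_right _ _)
      (fun θ hθ => hBfree θ ⟨hθ.1, lt_of_lt_of_le hθ.2 (min_le_left _ _)⟩)
    rw [sub_zero] at h1
    have h2 : min θB (arccos a) ≤ 6 / n := by
      rw [le_div_iff₀ hnpos]
      linarith
    rcases min_choice θB (arccos a) with h3 | h3
    · rwa [h3] at h2
    · exfalso
      rw [h3] at h2
      have h4 : 6 / (n : ℝ) = 6 * (1 / (n : ℝ)) := by ring
      rw [h4] at h2
      linarith
  have h6 : 6 / (n : ℝ) = 6 * (1 / (n : ℝ)) := by ring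
  have hBA' : θB < θA := by
    rw [h6] at hB6
    linarith
  have hcont : ∀ θ ∈ Icc θB θA, deriv (qq P) θ = 0 → |qq P θ| = 1 := by
    intro θ hθ hd
    exact hHo_contact hA2 hn1 (by linarith) hab hP hE (by linarith [hθ.1]) (by linarith [hθ.2]) hd
  obtain ⟨N, t, hN, ht0, htN, hch⟩ := hCH n (qq P) θB θA hn1 hTB (hH_ne hA2 hn1 hab hP) hBA' hBd
    hA' hcont
  have e1 : |t N - arccos a| ≤ 2000 * K * (1 + Real.log n) / (n : ℝ) ^ 2 := by
    rw [htN]
    refine hA.trans (le_of_eq ?_)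
    rw [hLdef]
    ring
  have hlag := (hH3' n (by omega) a P N t ha ha1 hP hND hN hch (by rw [ht0]; exact hB0)
    (by rw [ht0]; exact hBfree) e1).2
  -- the position of `z`
  have hre1 : -1 + δ ≤ z.re := by
    have : 0 < 1 / (K * L) := by positivity
    linarith
  have hre2 : z.re < 1 := by
    have : 0 < 1 / (K * L ^ 2) := by positivity
    linarith
  have hsin : s0 / L ≤ sin (arccos z.re) := by
    rw [Real.sin_arccos]
    apply Real.le_sqrt_of_sq_le
    rw [div_pow, hs0, Real.sq_sqrt (by positivity)]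
    have h1 : δ / K / L ^ 2 = 1 / (K * L ^ 2) * δ := by field_simp
    rw [h1]
    have h2 : (1 : ℝ) / (K * L ^ 2) ≤ 1 - z.re := by linarith
    calc 1 / (K * L ^ 2) * δ ≤ (1 - z.re) * (1 + z.re) :=
          mul_le_mul h2 (by linarith) hδ.le (by linarith)
      _ = 1 - z.re ^ 2 := by ring
  have hsle : sin (arccos z.re) ≤ arccos z.re := Real.sin_le (Real.arccos_nonneg _)
  have hKL : 1 / (K2 * L) ≤ s0 / L := by
    rw [div_le_div_iff₀ (by positivity) hLpos]
    have h1 : 2 ≤ K2 * s0 := by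
      have := mul_le_mul_of_nonneg_right hK2c hs0pos.le
      rwa [div_mul_cancel₀ _ hs0pos.ne'] at this
    calc 1 * L ≤ 2 * L := by linarith
      _ ≤ K2 * s0 * L := mul_le_mul_of_nonneg_right h1 hLpos.le
      _ = s0 * (K2 * L) := by ring
  have hKL2 : 1 / (K2 * L ^ 2) ≤ s0 / (2 * L) := by
    rw [div_le_div_iff₀ (by positivity) (by positivity)]
    have h1 : 2 ≤ K2 * s0 := by
      have := mul_le_mul_of_nonneg_right hK2c hs0pos.le
      rwa [div_mul_cancel₀ _ hs0pos.ne'] at this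
    have h2 : 2 * L ≤ 2 * L ^ 2 := by nlinarith
    calc 1 * (2 * L) ≤ 2 * L ^ 2 := by linarith
      _ ≤ K2 * s0 * L ^ 2 := mul_le_mul_of_nonneg_right h1 (sq_nonneg L)
      _ = s0 * (K2 * L ^ 2) := by ring
  have hsn : 24 / s0 ≤ √n := by
    apply Real.le_sqrt_of_sq_le
    refine hn9.trans ?_
    exact_mod_cast (by omega : n9 ≤ n)
  have h6n : 6 / (n : ℝ) ≤ s0 / (2 * L) := by
    rw [div_le_div_iff₀ hnpos (by positivity)]
    have h1 : 24 ≤ √n * s0 := by
      rwa [div_le_iff₀ hs0pos] at hsn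
    have h2 : √(n : ℝ) * √n = n := Real.mul_self_sqrt hnpos.le
    have h3 : 24 * √(n : ℝ) ≤ s0 * n := by
      calc 24 * √(n : ℝ) ≤ √n * s0 * √n := mul_le_mul_of_nonneg_right h1 (Real.sqrt_nonneg _)
        _ = s0 * n := by rw [mul_right_comm, h2]; ring
    calc 6 * (2 * L) = 12 * L := by ring
      _ ≤ 12 * (2 * √(n : ℝ)) := mul_le_mul_of_nonneg_left hL (by norm_num)
      _ = 24 * √(n : ℝ) := by ring
      _ ≤ s0 * n := h3
  have hhalf : s0 / L = s0 / (2 * L) + s0 / (2 * L) := by field_simp; ring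
  have hKa : 1 / (K2 * L ^ 2) ≤ 1 / (2 * (K * L)) := by
    apply one_div_le_one_div_of_le (by positivity)
    have h2 : L ≤ L ^ 2 := by nlinarith
    calc 2 * (K * L) = (2 * K) * L := by ring
      _ ≤ K2 * L ^ 2 := mul_le_mul hK2a h2 hLpos.le hK2pos.le
  have hKb : 2000 * (K * L) / (n : ℝ) ^ 2 ≤ 1 / (2 * (K * L)) := by
    rw [div_le_div_iff₀ (by positivity) (by positivity)]
    have h1 : L ^ 2 ≤ 4 * n := by
      have h3 : L ^ 2 ≤ (2 * √n) ^ 2 := pow_le_pow_left₀ hLpos.le hL 2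
      rw [mul_pow, Real.sq_sqrt hnpos.le] at h3
      linarith
    have h2 : 16000 * K ^ 2 ≤ n := hn10.trans (by exact_mod_cast (by omega : n10 ≤ n))
    calc 2000 * (K * L) * (2 * (K * L)) = 4000 * K ^ 2 * L ^ 2 := by ring
      _ ≤ 4000 * K ^ 2 * (4 * n) := mul_le_mul_of_nonneg_left h1 (by positivity)
      _ = 16000 * K ^ 2 * n := by ring
      _ ≤ n * n := mul_le_mul_of_nonneg_right h2 hnpos.le
      _ = 1 * (n : ℝ) ^ 2 := by ring
  have hKc : 1 / (K * L) = 1 / (2 * (K * L)) + 1 / (2 * (K * L)) := by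
    field_simp
    norm_num
  have hαz : z.re - a ≤ arccos a - arccos z.re :=
    hH_arccos_sub (by linarith) (by
      have : 0 < 1 / (K * L) := by positivity
      linarith) hre2.le
  refine hH4' n (by omega) P N t z hPdeg hP.bdd hN hch
    (hlag.trans (mul_le_mul_of_nonneg_right hK2b (Real.sqrt_nonneg _))) hz hzim ?_ ?_
    (by linarith) hre2.le ?_ ?_
  · refine g1.trans ?_
    apply div_le_div_of_nonneg_right _ hnpos.le
    exact mul_le_mul_of_nonneg_right (by linarith) hLpos.le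
  · exact hKL.trans hsin
  · rw [ht0]
    linarith
  · rw [htN]
    linarith [hA4.1]

end Pool.Agent.Helper10.AL
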