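import Pool.Agent.Helper10.AL.St4

/-!
Windows whose end points are `-1`, `1` or bounded away from them.
-/

set_option autoImplicit false

namespace Pool.Agent.Helper10.AL

open Polynomial Set Real MeasureTheory intervalIntegral
open Pool.Agent.Helper40.AS (arc Bdd Ext quad)

noncomputable section

private theorem main3_pow (n : ℕ) (i : Fin n) :
    ((-1 : ℝ)) ^ ((Fin.rev i : Fin n) : ℕ) = (-1) ^ (n - 1) * (-1) ^ (i : ℕ) := by
  have h1 : ((Fin.rev i : Fin n) : ℕ) + (i : ℕ) = n - 1 := by
    rw [Fin.val_rev]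
    have := i.isLt
    omega
  rw [← h1, pow_add, mul_assoc, ← mul_pow]
  simp

private theorem main3_alt (n : ℕ) (P : ℝ[X]) (h : Alt n (P.comp (-X))) : Alt n P := by
  obtain ⟨x, hx, hI, hs⟩ := h
  have key : ∀ i : Fin n, P.eval (-(x (Fin.rev i))) = (P.comp (-X)).eval (x (Fin.rev i)) := by
    intro i
    rw [Helper40.AS.comp_eval]
  refine ⟨fun i => -(x (Fin.rev i)), ?_, ?_, ?_⟩
  · intro i j hij
    have h1 : Fin.rev j < Fin.rev i := Fin.rev_lt_rev.mpr hij
    have h2 := hx h1
    simp only
    linarith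
  · intro i
    have h1 := hI (Fin.rev i)
    exact ⟨by linarith [h1.2], by linarith [h1.1]⟩
  · rcases neg_one_pow_eq_or ℝ (n - 1) with hp | hp
    · rcases hs with hs | hs
      · left
        intro i
        rw [key, hs, main3_pow, hp, one_mul]
      · right
        intro i
        rw [key, hs, main3_pow, hp, one_mul]
    · rcases hs with hs | hs
      · right
        intro i
        rw [key, hs, main3_pow, hp, neg_one_mul]
      · left
        intro i
        rw [key, hs, main3_pow, hp, neg_one_mul, neg_neg]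

private theorem main3_der2 (P : ℝ[X]) (c : ℝ) :
    (P.comp (-X)).derivative.derivative.eval (-c) = P.derivative.derivative.eval c := by
  rw [Helper40.AS.comp_der, derivative_neg, Helper40.AS.comp_der, neg_neg,
    Helper40.AS.comp_eval, neg_neg]

private theorem main3_good (n : ℕ) (P : ℝ[X]) (h : Good n (P.comp (-X))) : Good n P := by
  obtain ⟨h1, h2, h3, h4⟩ := h
  refine ⟨main3_alt n P h1, ?_, ?_, ?_⟩
  · intro c hc h0
    have h5 := h2 (-c) ⟨by linarith [hc.2], by linarith [hc.1]⟩
      (by rw [Helper40.AS.comp_der_eval, neg_neg, h0, neg_zero])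
    rw [Helper40.AS.comp_eval, neg_neg, main3_der2] at h5
    exact h5
  · intro z hz
    have h5 := h3 (-z) (by
      rw [Helper40.AS.comp_der, map_neg, aeval_comp]
      simp [hz])
    rw [Complex.neg_im] at h5
    linarith
  · intro y1 y2 hy1 hy2 hd
    refine h4 (-y1) (-y2) (by rw [abs_neg]; exact hy1) (by rw [abs_neg]; exact hy2) ?_
    obtain ⟨R, hR⟩ := hd
    refine ⟨-(R.comp (-X)), ?_⟩
    rw [Helper40.AS.comp_der, hR, mul_comp, mul_comp, sub_comp, sub_comp, X_comp, C_comp, C_comp,
      C_neg, C_neg]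
    ring

theorem main3 (hMainL : MainL) (hMainO : MainO) (hHalf : Half) : Main3 := by
  intro δ hδ
  have hδ1 : 0 < min δ (1 / 4) := lt_min hδ (by norm_num)
  have hδ2 : min δ (1 / 4) ≤ 1 / 4 := min_le_right _ _
  have hδ3 : min δ (1 / 4) ≤ δ := min_le_left _ _
  obtain ⟨n1, h1⟩ := hMainL δ hδ
  obtain ⟨n2, h2⟩ := hMainO _ hδ1
  refine ⟨max 1 (max n1 n2), ?_⟩
  intro n hn a b P ha hb hab hE
  have hn0 : 1 ≤ n := le_trans (le_max_left _ _) hn
  have hn1 : n1 ≤ n := le_trans (le_trans (le_max_left _ _) (le_max_right _ _)) hn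
  have hn2 : n2 ≤ n := le_trans (le_trans (le_max_right _ _) (le_max_right _ _)) hn
  rcases ha with ha | ha
  · rcases hb with hb | hb
    · exact (hHalf n a b P hn0 (Or.inr (Or.inr ⟨ha, hb⟩)) hE).2
    · subst ha
      rcases le_or_gt b 0 with hb0 | hb0
      · exact (hHalf n (-1) b P hn0 (Or.inr (Or.inl ⟨rfl, hab, hb0⟩)) hE).2
      · have hE' : Ext n (-b) 1 (P.comp (-X)) := by
          have := Helper40.AS.ext_refl hE
          rwa [neg_neg] at this
        exact main3_good n P (h2 n hn2 (-b) (P.comp (-X)) (by linarith) (by linarith) hE')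
  · rcases hb with hb | hb
    · subst hb
      rcases le_or_gt 0 a with ha0 | ha0
      · exact (hHalf n a 1 P hn0 (Or.inl ⟨ha0, hab, rfl⟩) hE).2
      · exact h2 n hn2 a P (by linarith) (by linarith) hE
    · exact h1 n hn1 a b P ha hab hb hE

end

end Pool.Agent.Helper10.AL
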