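import Pool.Agent.Helper10.AL.St5

/-!
The asymptotic form of the extremal polynomials.
-/

set_option autoImplicit false

namespace Pool.Agent.Helper10.AL

open Polynomial Set Real MeasureTheory intervalIntegral
open Pool.Agent.Helper40.AS (arc Bdd Ext quad)

noncomputable section

theorem mainA_int (u v : ℝ) : IntervalIntegrable (fun s : ℝ => |sin s|) volume u v :=
  continuous_sin.abs.intervalIntegrable u v

theorem mainA_sub (u v : ℝ) : VC v - VC u = ∫ s in u..v, |sin s| := by
  unfold VC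
  exact intervalIntegral.integral_interval_sub_left (mainA_int 0 v) (mainA_int 0 u)

theorem mainA_lip (x y : ℝ) : |VC x - VC y| ≤ |x - y| := by
  rw [mainA_sub y x]
  have h := intervalIntegral.norm_integral_le_of_norm_le_const (a := y) (b := x)
    (f := fun s : ℝ => |sin s|) (C := 1) (fun s _ => by
      rw [Real.norm_eq_abs, abs_abs]
      exact abs_sin_le_one s)
  rw [Real.norm_eq_abs, one_mul] at h
  exact h

theorem mainA_pi (x : ℝ) : VC (x + π) = VC x + 2 := by
  have h1 : VC (x + π) - VC x = ∫ s in x..(x + π), |sin s| := mainA_sub x (x + π)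
  have hper : Function.Periodic (fun s : ℝ => |sin s|) π := by
    intro s
    simp only
    rw [sin_add_pi, abs_neg]
  have h2 : (∫ s in x..(x + π), |sin s|) = ∫ s in (0 : ℝ)..(0 + π), |sin s| :=
    hper.intervalIntegral_add_eq x 0
  have h3 : (∫ s in (0 : ℝ)..(0 + π), |sin s|) = ∫ s in (0 : ℝ)..π, sin s := by
    rw [zero_add]
    refine integral_congr fun s hs => ?_
    rw [uIcc_of_le pi_pos.le] at hs
    exact abs_of_nonneg (sin_nonneg_of_nonneg_of_le_pi hs.1 hs.2)
  rw [integral_sin, cos_zero, cos_pi] at h3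
  linarith

theorem mainA_nat (x : ℝ) (k : ℕ) : VC (x + k * π) = VC x + 2 * k := by
  induction k with
  | zero => simp
  | succ k ih =>
    have e : x + ((k + 1 : ℕ) : ℝ) * π = (x + k * π) + π := by push_cast; ring
    rw [e, mainA_pi, ih]
    push_cast
    ring

theorem mainA_zpi (x : ℝ) (k : ℤ) : VC (x + k * π) = VC x + 2 * k := by
  rcases Int.eq_nat_or_neg k with ⟨n, rfl | rfl⟩
  · push_cast
    exact mainA_nat x n
  · have h1 := mainA_nat (x + ((-(n : ℤ) : ℤ) : ℝ) * π) n
    have e : x + ((-(n : ℤ) : ℤ) : ℝ) * π + n * π = x := by push_cast; ring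
    rw [e] at h1
    push_cast at h1 ⊢
    linarith

theorem mainA_cos (x y : ℝ) : |cos x - cos y| ≤ |x - y| := by
  have h := Real.lipschitzWith_cos.dist_le_mul x y
  rw [Real.dist_eq, Real.dist_eq] at h
  simpa using h

theorem mainA (hMainL : MainL) (hP1z : P1z) (hPA : PA) (hP5 : P5) (hP6 : P6) (hA2 : A2)
    (hC1 : C1) : MainA := by
  intro δ ε hδ hε
  have hε' : 0 < ε / 4 := by positivity
  obtain ⟨n1, h1⟩ := hMainL δ hδ
  obtain ⟨n2, h2⟩ := hPA δ (ε / 4) hδ hε'
  obtain ⟨n3, h3⟩ := hP5 δ (ε / 4) hδ hε'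
  obtain ⟨n4, h4⟩ := hP6 δ (ε / 4) hδ hε'
  refine ⟨max (max n1 n2) (max n3 n4), fun n hn a b P ha hab hb hP => ?_⟩
  have m1 : n1 ≤ n := (le_max_left _ _).trans ((le_max_left _ _).trans hn)
  have m2 : n2 ≤ n := (le_max_right _ _).trans ((le_max_left _ _).trans hn)
  have m3 : n3 ≤ n := (le_max_left _ _).trans ((le_max_right _ _).trans hn)
  have m4 : n4 ≤ n := (le_max_right _ _).trans ((le_max_right _ _).trans hn)
  have hAlt : Alt n P := (h1 n m1 a b P ha hab hb hP).1
  have hdeg : P.natDegree ≤ n := natDegree_le_iff_degree_le.2 hP.deg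
  obtain ⟨ρ, Φ, m, hρ1, hρ2, c1, c2, c3⟩ := h2 n m2 P hdeg hP.bdd hAlt
  have hM : MidL δ a b := ⟨ha, hab, hb⟩
  have hβ0 : 0 < arccos b := arccos_pos.2 (by linarith)
  have hβα : arccos b ≤ arccos a := arccos_le_arccos hab.le
  have hαπ : arccos a < π := by
    refine lt_of_le_of_ne (arccos_le_pi a) fun h => ?_
    have := arccos_eq_pi.1 h
    linarith
  have hca : cos (arccos a) = a := cos_arccos (by linarith) (by linarith)
  have hcb : cos (arccos b) = b := cos_arccos (by linarith) (by linarith)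
  have e1 : Va (qq P) (arccos b) (arccos a) = VC (Φ (arccos a)) - VC (Φ (arccos b)) :=
    c2 _ _ hβ0 hβα hαπ
  have key : ∀ θ : ℝ, 0 < θ → θ < π → -1 + δ ≤ cos θ → cos θ ≤ 1 - δ →
      |VC (Φ θ) - (VC (n * θ - mu ρ θ) + 2 * m)| ≤ ε / 4 := by
    intro θ t1 t2 t3 t4
    have g1 := c3 θ t1 t2 t3 t4
    have g2 := mainA_lip (Φ θ) ((n * θ - mu ρ θ) + m * π)
    rw [mainA_zpi] at g2
    refine g2.trans ?_
    have g3 : Φ θ - ((n * θ - mu ρ θ) + m * π) = Φ θ - (n * θ - mu ρ θ) - m * π := by ring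
    rw [g3]
    exact g1
  have ka := key (arccos a) (hβ0.trans_le hβα) hαπ (by rw [hca]; linarith) (by rw [hca]; linarith)
  have kb := key (arccos b) hβ0 (hβα.trans_lt hαπ) (by rw [hcb]; linarith) (by rw [hcb]; linarith)
  have e2 : |Va (qq P) (arccos b) (arccos a) - Jv n ρ a b| ≤ ε / 2 := by
    rw [e1]
    unfold Jv
    rw [abs_le] at ka kb ⊢
    constructor <;> linarith [ka.1, ka.2, kb.1, kb.2]
  have e3 := (hC1 P a b (by linarith) hab.le (by linarith)).1
  have e4 := h3 n m3 a b P hM hP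
  have e5 : |arc a b P - Jv n ρ a b| ≤ 3 * (ε / 4) := by
    rw [abs_le] at e2 ⊢
    constructor <;> linarith [e2.1, e2.2]
  refine ⟨ρ, hρ1, hρ2, ?_, ?_, cos (m * π), ?_, ?_⟩
  · intro ρ' r1 r2
    have e6 := h4 n m4 ρ' a b P r1 r2 hM hP
    rw [abs_le] at e5
    linarith [e5.1, e5.2]
  · linarith
  · rw [cos_int_mul_pi]
    rcases Int.even_or_odd m with h | h
    · exact Or.inl h.neg_one_zpow
    · exact Or.inr h.neg_one_zpow
  · intro x hx
    have hx1 : -1 < x := by linarith [hx.1]
    have hx2 : x < 1 := by linarith [hx.2]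
    have t1 : 0 < arccos x := arccos_pos.2 hx2
    have t2 : arccos x < π := by
      refine lt_of_le_of_ne (arccos_le_pi x) fun h => ?_
      have := arccos_eq_pi.1 h
      linarith
    have hcx : cos (arccos x) = x := cos_arccos hx1.le hx2.le
    have g1 := c3 (arccos x) t1 t2 (by rw [hcx]; exact hx.1) (by rw [hcx]; exact hx.2)
    have g2 : P.eval x = cos (Φ (arccos x)) := by
      rw [← c1 _ t1 t2]
      unfold qq
      rw [hcx]
    have g3 : cos (m * π) * cos (n * arccos x - mu ρ (arccos x)) =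
        cos ((n * arccos x - mu ρ (arccos x)) + m * π) := by
      rw [cos_add, sin_int_mul_pi, mul_zero, sub_zero, mul_comm]
    rw [g2, g3]
    refine (mainA_cos _ _).trans ?_
    have g4 : Φ (arccos x) - ((n * arccos x - mu ρ (arccos x)) + m * π) =
        Φ (arccos x) - (n * arccos x - mu ρ (arccos x)) - m * π := by ring
    rw [g4]
    linarith

end

end Pool.Agent.Helper10.AL
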