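import Pool.Agent.Helper10.AL.St4

/-!
The main result for all windows in a compact interval from the pieces.
-/

set_option autoImplicit false

namespace Pool.Agent.Helper10.AL

open Polynomial Set Real MeasureTheory intervalIntegral
open Pool.Agent.Helper40.AS (arc Bdd Ext quad)

theorem mainL_contact (hA2 : A2) {n : ℕ} {a b : ℝ} {P : ℝ[X]} (hn : 1 ≤ n) (ha : -1 < a)
    (hab : a < b) (hb : b < 1) (h : Ext n a b P) (hND : ND n (qq P) (arccos b) (arccos a))
    (hE : ∀ θ ∈ Ioo (arccos b) (arccos a), deriv (qq P) θ = 0 → |qq P θ| = 1) :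
    ∀ c ∈ Ioo (-1 : ℝ) 1, P.derivative.eval c = 0 →
      |P.eval c| = 1 ∧ P.derivative.derivative.eval c ≠ 0 := by
  intro c hc hc0
  rcases le_or_gt c a with h1 | h1
  · exact Pool.Agent.Helper40.AS.left_contact h hn hab hb.le hc.1 h1 hc0
  rcases le_or_gt b c with h2 | h2
  · exact Pool.Agent.Helper40.AS.right_contact h hn hab ha.le hc.2 h2 hc0
  have hcos : cos (arccos c) = c := Real.cos_arccos hc.1.le hc.2.le
  have hθ : arccos c ∈ Ioo (arccos b) (arccos a) :=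
    ⟨Real.arccos_lt_arccos (by linarith) h2 hb.le, Real.arccos_lt_arccos (by linarith) h1 hc.2.le⟩
  obtain ⟨hd1, hd2⟩ := hA2.2.2 P (arccos c)
  rw [hcos, hc0, mul_zero, neg_zero] at hd1
  rw [hcos, hc0, mul_zero, sub_zero] at hd2
  constructor
  · have h3 := hE _ hθ hd1
    unfold qq at h3
    rwa [hcos] at h3
  · intro h4
    have h5 := hND _ ⟨hθ.1.le, hθ.2.le⟩ (by rw [hd1, abs_zero]; positivity)
    rw [hd2, h4, mul_zero, abs_zero] at h5
    have h6 : (1 : ℝ) ≤ n := by exact_mod_cast hn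
    nlinarith

theorem mainL (_hA1 : A1) (hA2 : A2) (hE6L : E6L) (hE8L : E8L) (hG3L : G3L) (hHHL : HHL)
    (hI1g : I1g) : MainL := by
  intro δ hδ
  have hδ1 : 0 < min δ (1 / 4) := lt_min hδ (by norm_num)
  have hδ2 : min δ (1 / 4) ≤ 1 / 4 := min_le_right _ _
  have hδ3 : min δ (1 / 4) ≤ δ := min_le_left _ _
  obtain ⟨n1, h1⟩ := hE6L _ hδ1 hδ2
  obtain ⟨n2, h2⟩ := hE8L _ hδ1 hδ2
  obtain ⟨n3, h3⟩ := hG3L _ hδ1 hδ2
  obtain ⟨n4, h4⟩ := hHHL _ hδ1 hδ2
  refine ⟨n1 + n2 + n3 + n4 + 2, ?_⟩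
  intro n hn a b P ha hab hb hP
  have hM : MidL (min δ (1 / 4)) a b := ⟨by linarith, hab, by linarith⟩
  have hND := h1 n (by omega) a b P hM hP
  have hreal := h4 n (by omega) a b P hM hP
  obtain ⟨g1, g2, g3⟩ := h3 n (by omega) a b P hM hP
  have ha' : -1 < a := by linarith
  have hb' : b < 1 := by linarith
  have hc := mainL_contact hA2 (by omega) ha' hab hb' hP hND
    (fun θ hθ hd => h2 n (by omega) a b θ P hM hP hθ hd)
  exact ⟨hI1g n a b P (by omega) ha'.le hab hb'.le hP hreal hc g1 g2 g3, hc, hreal, g1⟩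

end Pool.Agent.Helper10.AL
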