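import Pool.Agent.Helper10.AL.St5
import Pool.Agent.Helper10.AL.P.C2

/-!
Project AL, piece MainT: windows inside the interval whose extremal polynomials are the
Chebyshev polynomials.
-/

set_option autoImplicit false

namespace Pool.Agent.Helper10.AL

open Polynomial Set Real MeasureTheory intervalIntegral
open Pool.Agent.Helper40.AS (arc Bdd Ext quad)

noncomputable section

theorem mainT_mu_one (θ : ℝ) : mu 1 θ = π := by simp [mu]

theorem mainT_mu_zero (θ : ℝ) (h0 : 0 < θ) (h1 : θ < π) : mu 0 θ = θ := by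
  have h2 : arctan (tan (θ / 2)) = θ / 2 := arctan_tan (by linarith) (by linarith)
  simp only [mu]
  rw [if_neg (by norm_num)]
  simp only [add_zero, sub_zero, div_one, one_mul]
  rw [h2]
  ring

theorem mainT_VC_neg (y : ℝ) : VC (-y) = -VC y := by
  have h := intervalIntegral.integral_comp_neg (a := 0) (b := y) (fun s : ℝ => |sin s|)
  simp only [sin_neg, abs_neg, neg_zero] at h
  unfold VC
  rw [intervalIntegral.integral_symm, ← h]

theorem mainT_VC_nat (hV : ∀ x, VC (x + π) = VC x + 2) (x : ℝ) (k : ℕ) :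
    VC (x + k * π) = VC x + 2 * k := by
  induction k with
  | zero => simp
  | succ k ih =>
    have h : x + ((k + 1 : ℕ) : ℝ) * π = (x + k * π) + π := by push_cast; ring
    rw [h, hV, ih]
    push_cast
    ring

theorem mainT_VC_refl (hV : ∀ x, VC (x + π) = VC x + 2) (y : ℝ) (k : ℕ) :
    VC (k * π - y) = 2 * k - VC y := by
  have h : (k : ℝ) * π - y = -y + k * π := by ring
  rw [h, mainT_VC_nat hV, mainT_VC_neg]
  ring

theorem mainT_refl (hP0 : P0) (hV : ∀ x, VC (x + π) = VC x + 2) (n : ℕ) (hn : 1 ≤ n) (ρ θ : ℝ)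
    (h1 : -1 ≤ ρ) (h2 : ρ ≤ 1) (h3 : 0 < θ) (h4 : θ < π) :
    VC (n * (π - θ) - mu ρ (π - θ)) = 2 * ((n - 1 : ℕ) : ℝ) - VC (n * θ - mu (-ρ) θ) := by
  have h := (hP0.1 (-ρ) θ (by linarith) (by linarith) h3 h4).2.2
  rw [neg_neg] at h
  rw [h]
  have h5 : (n : ℝ) * (π - θ) - (π - mu (-ρ) θ) =
      ((n - 1 : ℕ) : ℝ) * π - (n * θ - mu (-ρ) θ) := by
    rw [Nat.cast_sub hn]
    push_cast
    ring
  rw [h5, mainT_VC_refl hV]

theorem mainT_Jv_refl (hP0 : P0) (hV : ∀ x, VC (x + π) = VC x + 2) (n : ℕ) (hn : 1 ≤ n)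
    (ρ a b : ℝ) (h1 : -1 ≤ ρ) (h2 : ρ ≤ 1) (ha : 0 < arccos a) (ha' : arccos a < π)
    (hb : 0 < arccos b) (hb' : arccos b < π) :
    Jv n ρ (-b) (-a) = Jv n (-ρ) a b := by
  unfold Jv
  rw [arccos_neg, arccos_neg, mainT_refl hP0 hV n hn ρ _ h1 h2 hb hb',
    mainT_refl hP0 hV n hn ρ _ h1 h2 ha ha']
  ring

theorem mainT_comp (n : ℕ) : (Chebyshev.T ℝ (n : ℤ)).comp (-X) = Chebyshev.T ℝ (n : ℤ) ∨
    (Chebyshev.T ℝ (n : ℤ)).comp (-X) = -Chebyshev.T ℝ (n : ℤ) := by
  rcases Nat.even_or_odd n with h | h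
  · left
    apply Polynomial.funext
    intro x
    have h1 : (((n : ℤ).negOnePow : ℤˣ) : ℤ) = 1 := by
      rw [Int.negOnePow_even _ (by exact_mod_cast h)]
      rfl
    rw [eval_comp, eval_neg, eval_X, Chebyshev.T_eval_neg, h1]
    simp
  · right
    apply Polynomial.funext
    intro x
    have h1 : (((n : ℤ).negOnePow : ℤˣ) : ℤ) = -1 := by
      rw [Int.negOnePow_odd _ (by exact_mod_cast h)]
      rfl
    rw [eval_comp, eval_neg, eval_X, Chebyshev.T_eval_neg, h1]
    simp

theorem mainT_sin (n : ℕ) (θ : ℝ) : |sin (n * (π - θ))| = |sin (n * θ)| := by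
  have h : (n : ℝ) * (π - θ) = n * π - n * θ := by ring
  have h2 : |cos (n * π)| = 1 := by
    rw [Real.cos_nat_mul_pi, abs_pow, abs_neg, abs_one, one_pow]
  rw [h, sin_sub, sin_nat_mul_pi, zero_mul, zero_sub, abs_neg, abs_mul, h2, one_mul]

/-- the ratio `ρ` for a parameter bounded away from `1` -/
theorem mainT_rho (c η : ℝ) (hη : 0 < η) (hc : 1 + η < c) :
    0 < c - √(c ^ 2 - 1) ∧ c - √(c ^ 2 - 1) ≤ 1 / (1 + η) := by
  have h1 : 0 ≤ c ^ 2 - 1 := by nlinarith
  have h2 := sq_sqrt h1
  have h3 := sqrt_nonneg (c ^ 2 - 1)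
  have h4 : (c - √(c ^ 2 - 1)) * (c + √(c ^ 2 - 1)) = 1 := by nlinarith
  have h5 : 0 < c + √(c ^ 2 - 1) := by linarith
  have h6 : c - √(c ^ 2 - 1) = 1 / (c + √(c ^ 2 - 1)) := by
    field_simp
    linarith
  constructor
  · rw [h6]; positivity
  · rw [h6]
    apply one_div_le_one_div_of_le (by linarith) (by linarith)

theorem mainT (hMainL : MainL) (hP0 : P0) (hP1 : P1) (hP2 : P2) (hP5 : P5) (hP6 : P6)
    (hPV : PV) (hT1 : T1) (hT3 : T3) (hX0 : X0) (hC1 : C1) (hC2 : C2) (hVF6 : VF6) : MainT := by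
  intro δ0 ε hδ0 hε
  obtain ⟨δ, hδ, hδ4, hδδ⟩ : ∃ δ : ℝ, 0 < δ ∧ δ ≤ 1 / 4 ∧ δ ≤ δ0 :=
    ⟨min δ0 (1 / 4), by positivity, min_le_right _ _, min_le_left _ _⟩
  obtain ⟨η, hη, n3, hT3'⟩ := hT3 δ (ε / 2) hδ hδ4 (by linarith)
  obtain ⟨ε', hε', hε1, hε2⟩ : ∃ ε' : ℝ, 0 < ε' ∧ 2 * ε' < ε ∧
      3 * ε' < ε * (1 - 1 / (1 + η)) := by
    have h1 : 0 < 1 - 1 / (1 + η) := by
      rw [sub_pos, div_lt_one (by linarith)]
      linarith
    have h2 : 1 - 1 / (1 + η) < 1 := by
      have : 0 < 1 / (1 + η) := by positivity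
      linarith
    refine ⟨ε * (1 - 1 / (1 + η)) / 4, by positivity, ?_, ?_⟩
    · nlinarith
    · nlinarith [mul_pos hε h1]
  obtain ⟨n5, hP5'⟩ := hP5 δ ε' hδ hε'
  obtain ⟨n6, hP6'⟩ := hP6 δ ε' hδ hε'
  obtain ⟨nV, hPV'⟩ := hPV δ ε' hδ hε'
  obtain ⟨nL, hL'⟩ := hMainL δ hδ
  refine ⟨n3 + n5 + n6 + nV + nL + 3, ?_⟩
  intro n hn a b P0' ha hab hb hyp
  have hnR : (3 : ℝ) ≤ n := by
    have : 3 ≤ n := by omega
    exact_mod_cast this
  -- the angles
  have haa : -1 + δ ≤ a := by linarith
  have hbb : b ≤ 1 - δ := by linarith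
  set α := arccos a with hα
  set β := arccos b with hβ
  have hcα : cos α = a := cos_arccos (by linarith) (by linarith)
  have hcβ : cos β = b := cos_arccos (by linarith) (by linarith)
  have hβ0 : 0 < β := arccos_pos.2 (by linarith)
  have hβα : β < α := arccos_lt_arccos (by linarith) hab (by linarith)
  have hαπ : α < π := by
    rcases lt_or_eq_of_le (arccos_le_pi a) with h | h
    · exact h
    · exfalso
      have h1 : cos α = -1 := by rw [hα, h, cos_pi]
      linarith
  have hVF := hVF6.2.1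
  have hmid : MidL δ a b := ⟨haa, hab, hbb⟩
  have hmid' : MidL δ (-b) (-a) := ⟨by linarith, by linarith, by linarith⟩
  -- the slope conditions
  obtain ⟨S1, S2⟩ := hT1 n α β ε hβ0 hβα.le hαπ hε.le (by
    intro ρ h1 h2
    have := hyp ρ h1 h2
    unfold Jv at this
    rw [mainT_mu_one, mainT_mu_one] at this
    exact this)
  -- the forward direction for one polynomial
  have key : ∀ P : ℝ[X], Ext n a b P → P = Chebyshev.T ℝ n ∨ P = -Chebyshev.T ℝ n := by
    intro P hP
    have hAlt := (hL' n (by omega) a b P haa hab hbb hP).1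
    have hlow := hP6' n (by omega) 1 a b P (by norm_num) le_rfl hmid hP
    rcases hP1 n P (by omega) (natDegree_le_iff_degree_le.2 hP.deg) hP.bdd hAlt with hT | ⟨c, s, p, hPar⟩
    · -- the Chebyshev polynomial of lower degree
      exfalso
      have hE : Ext n a b (Chebyshev.T ℝ ((n : ℤ) - 1)) := by
        rcases hT with h | h
        · rw [← h]; exact hP
        · have h1 := hX0.2.1 n a b P hP
          rw [h, neg_neg] at h1
          exact h1
      have h1 := hP5' n (by omega) a b _ hmid hE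
      have h2 := hP6' n (by omega) 1 a b _ (by norm_num) le_rfl hmid hE
      have h3 : Va (qq (Chebyshev.T ℝ ((n : ℤ) - 1))) β α = Jv n 0 a b := by
        have e1 : (n : ℤ) - 1 = ((n - 1 : ℕ) : ℤ) := by omega
        rw [e1, c2_va]
        have e2 := hVF6.2.2.2.2 (((n - 1 : ℕ) : ℝ) * β) (((n - 1 : ℕ) : ℝ) * α - ((n - 1 : ℕ) : ℝ) * β)
        rw [add_sub_cancel] at e2
        rw [e2]
        unfold Jv
        rw [← hα, ← hβ, mainT_mu_zero α (hβ0.trans hβα) hαπ, mainT_mu_zero β hβ0 (hβα.trans hαπ)]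
        have e3 : ((n - 1 : ℕ) : ℝ) = n - 1 := by
          rw [Nat.cast_sub (by omega)]
          push_cast
          ring
        rw [e3]
        have e4 : ((n : ℝ) - 1) * α = n * α - α := by ring
        have e5 : ((n : ℝ) - 1) * β = n * β - β := by ring
        rw [e4, e5]
      have h4 := hyp 0 (by norm_num) (by norm_num)
      rw [abs_zero, sub_zero, mul_one] at h4
      rw [← hα, ← hβ] at h1
      rw [h3] at h1
      linarith
    · rcases hPar with hPar | hPar
      · -- critical point on the right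
        by_cases hc : c ≤ 1 + η
        · by_contra hne
          rw [not_or] at hne
          have h1 := hT3' n (by omega) a b c s p P hmid hP hAlt hPar hc hne.1 hne.2
          rw [← hα, ← hβ] at h1
          rw [hcα, hcβ] at S1
          have h2 := (abs_le.1 h1).2
          linarith
        · exfalso
          rw [not_le] at hc
          obtain ⟨r1, r2⟩ := mainT_rho c η hη hc
          have r3 : 1 / (1 + η) ≤ 1 := by
            rw [div_le_one (by linarith)]
            linarith
          have h1 := hPV' n (by omega) c s p P (natDegree_le_iff_degree_le.2 hP.deg) hP.bdd hAlt hPar β α hβ0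
            hβα.le hαπ (by rw [hcβ]; exact hbb)
          have h2 := hP5' n (by omega) a b P hmid hP
          rw [← hα, ← hβ] at h2
          have h3 := hyp (c - √(c ^ 2 - 1)) (by linarith) (by linarith)
          rw [abs_of_pos r1] at h3
          have h4 : Jv n (c - √(c ^ 2 - 1)) a b = VC (n * α - mu (c - √(c ^ 2 - 1)) α) -
            VC (n * β - mu (c - √(c ^ 2 - 1)) β) := rfl
          have h5 := (abs_le.1 h1).2
          have h6 : ε * (1 - 1 / (1 + η)) ≤ ε * (1 - (c - √(c ^ 2 - 1))) :=
            mul_le_mul_of_nonneg_left (by linarith) hε.le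
          linarith
      · -- critical point on the left
        have hQ := hX0.2.2 n a b P hP
        have hAQ := (hL' n (by omega) (-b) (-a) _ hmid'.1 hmid'.2.1 hmid'.2.2 hQ).1
        have eα : arccos (-a) = π - α := arccos_neg a
        have eβ : arccos (-b) = π - β := arccos_neg b
        by_cases hc : c ≤ 1 + η
        · have hQT : P.comp (-X) = Chebyshev.T ℝ n ∨ P.comp (-X) = -Chebyshev.T ℝ n := by
            by_contra hne
            rw [not_or] at hne
            have h1 := hT3' n (by omega) (-b) (-a) c s p _ hmid' hQ hAQ hPar hc hne.1 hne.2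
            rw [eα, eβ, mainT_sin, mainT_sin, sin_pi_sub, sin_pi_sub] at h1
            rw [hcα, hcβ] at S2
            have h2 := (abs_le.1 h1).2
            rw [← sub_eq_add_neg, ← sub_eq_add_neg] at h2
            linarith
          have hcc : (P.comp (-X)).comp (-X) = P := by
            rw [comp_assoc]
            simp
          rcases mainT_comp n with e | e <;> rcases hQT with e' | e'
          · left; rw [← hcc, e', e]
          · right; rw [← hcc, e', neg_comp, e]
          · right; rw [← hcc, e', e]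
          · left; rw [← hcc, e', neg_comp, e, neg_neg]
        · exfalso
          rw [not_le] at hc
          obtain ⟨r1, r2⟩ := mainT_rho c η hη hc
          have r3 : 1 / (1 + η) ≤ 1 := by
            rw [div_le_one (by linarith)]
            linarith
          have h1 := hPV' n (by omega) c s p _ (natDegree_le_iff_degree_le.2 hQ.deg) hQ.bdd hAQ hPar (π - α)
            (π - β) (by linarith) (by linarith) (by linarith)
            (by rw [cos_pi_sub, hcα]; linarith)
          have h2 := hP5' n (by omega) (-b) (-a) _ hmid' hQ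
          rw [eα, eβ] at h2
          have h2' := hP6' n (by omega) (-1) (-b) (-a) _ le_rfl (by norm_num) hmid' hQ
          have h3 := hyp (-(c - √(c ^ 2 - 1))) (by linarith) (by linarith)
          rw [abs_neg, abs_of_pos r1] at h3
          have j1 := mainT_Jv_refl hP0 hVF n (by omega) (-1) a b (by norm_num) (by norm_num)
            (hβ0.trans hβα) hαπ hβ0 (hβα.trans hαπ)
          rw [neg_neg] at j1
          have j2 := mainT_Jv_refl hP0 hVF n (by omega) (c - √(c ^ 2 - 1)) a b (by linarith)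
            (by linarith) (hβ0.trans hβα) hαπ hβ0 (hβα.trans hαπ)
          have h4 : Jv n (c - √(c ^ 2 - 1)) (-b) (-a) =
            VC (n * (π - β) - mu (c - √(c ^ 2 - 1)) (π - β)) -
            VC (n * (π - α) - mu (c - √(c ^ 2 - 1)) (π - α)) := by
            unfold Jv
            rw [eα, eβ]
          have h5 := (abs_le.1 h1).2
          have h6 : ε * (1 - 1 / (1 + η)) ≤ ε * (1 - (c - √(c ^ 2 - 1))) :=
            mul_le_mul_of_nonneg_left (by linarith) hε.le
          linarith
  constructor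
  · exact key P0'
  · obtain ⟨Q, hQ⟩ := hX0.1 n a b hab.le
    have hn' := hX0.2.1 n a b Q hQ
    rintro (h | h)
    · rcases key Q hQ with e | e
      · rw [h, ← e]; exact hQ
      · rw [h]
        rw [e, neg_neg] at hn'
        exact hn'
    · rcases key Q hQ with e | e
      · rw [h, ← e]; exact hn'
      · rw [h, ← e]; exact hQ

end

end Pool.Agent.Helper10.AL
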