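import Pool.Agent.Helper10.AL.St5
import Pool.Agent.Helper40.Arc.Final

/-!
Windows with exactly one end point in common with `[-1,1]`: the extremal polynomials are the
Chebyshev polynomials.
-/

set_option autoImplicit false

namespace Pool.Agent.Helper10.AL

open Polynomial Set Real MeasureTheory intervalIntegral
open Pool.Agent.Helper40.AS (arc Bdd Ext quad)
open Pool.Agent.Helper40

/-- being a Chebyshev polynomial up to sign -/
def mainX_IsT (n : ℕ) (P : ℝ[X]) : Prop := P = Chebyshev.T ℝ n ∨ P = -Chebyshev.T ℝ n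

theorem mainX_refl {n : ℕ} {P : ℝ[X]} (h : mainX_IsT n P) : mainX_IsT n (P.comp (-X)) := by
  rcases h with h | h
  · rw [h]
    exact Arc.cheb_comp n
  · rw [h, neg_comp]
    rcases Arc.cheb_comp n with h4 | h4
    · right
      rw [h4]
    · left
      rw [h4, neg_neg]

/-- two polynomials which agree on `(-1, 1)` are equal -/
theorem mainX_eq {A B : ℝ[X]} (h : ∀ x ∈ Ioo (-1 : ℝ) 1, A.eval x = B.eval x) : A = B := by
  apply eq_of_infinite_eval_eq
  exact (Ioo_infinite (show (-1 : ℝ) < 1 by norm_num)).mono h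

theorem mainX_core (hMainO : MainO) (hP1 : P1) (hTE : TE) (hX3 : X3) (hX4 : X4) (hHalf : Half)
    {δ : ℝ} (hδ : 0 < δ) (hδ4 : δ ≤ 1 / 4) : ∃ n0 : ℕ, 3 ≤ n0 ∧ ∀ n ≥ n0, ∀ (a : ℝ) (P : ℝ[X]),
    -1 + δ ≤ a → a < 1 → Ext n a 1 P → mainX_IsT n P := by
  obtain ⟨n1, h1⟩ := hMainO δ hδ
  obtain ⟨n2, h2⟩ := hX3 δ hδ hδ4
  obtain ⟨n3, h3⟩ := hX4 δ hδ hδ4
  refine ⟨n1 + n2 + n3 + 3, by omega, fun n hn a P ha1 ha2 hP => ?_⟩
  rcases le_or_gt 0 a with h0 | h0
  · exact (hHalf n a 1 P (by omega) (Or.inl ⟨h0, ha2, rfl⟩) hP).1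
  have ha3 : a ≤ 1 - δ := by linarith
  have hgood := h1 n (by omega) a P ha1 ha3 hP
  obtain ⟨k1, k2, k3, k4⟩ := h2 n (by omega) a P ha1 ha3 hP
  have hdeg : P.natDegree ≤ n := natDegree_le_iff_degree_le.2 hP.deg
  rcases hP1 n P (by omega) hdeg hP.bdd hgood.1 with hT | ⟨c, s, p, hpar | hpar⟩
  · exfalso
    have e : ((n : ℤ) - 1) = ((n - 1 : ℕ) : ℤ) := by omega
    have hnd : P.natDegree = n - 1 := by
      rcases hT with h | h
      · rw [h, e, Chebyshev.natDegree_T]
        simp
      · rw [h, natDegree_neg, e, Chebyshev.natDegree_T]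
        simp
    omega
  · rcases hpar.cas with ⟨hc, hp⟩ | ⟨hc, hd, -⟩
    · subst hc hp
      have hs := h3 n (by omega) a s P ha1 ha3 hP hgood.1 hpar
      subst hs
      refine hTE n P (by omega) hpar.hm (fun h => k4 (by rw [h, eval_zero])) (fun x hx => ?_)
      have := hpar.ode x hx
      simpa using this
    · exact absurd hd (k1 c (by rw [abs_of_pos (by linarith)]; exact hc))
  · have hder : ∀ x : ℝ, (P.comp (-X)).derivative.eval x = -P.derivative.eval (-x) := by
      intro x
      rw [derivative_comp]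
      simp
    have hY : mainX_IsT n (P.comp (-X)) := by
      rcases hpar.cas with ⟨hc, hp⟩ | ⟨hc, hd, -⟩
      · subst hc hp
        have h5 : C ((n : ℝ) ^ 2) * (1 - (P.comp (-X)) ^ 2) =
            (1 - X + C s) * ((1 + X) * (P.comp (-X)).derivative ^ 2) := by
          apply mainX_eq
          intro x hx
          have h6 := hpar.ode x hx
          have h7 : (1 : ℝ) - x ≠ 0 := by linarith [hx.2]
          simp only [eval_mul, eval_C, eval_sub, eval_one, eval_pow, eval_add, eval_X]
          rw [h6]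
          field_simp
          ring
        have h8 := congrArg (fun Q : ℝ[X] => Q.eval 1) h5
        simp only [eval_mul, eval_C, eval_sub, eval_one, eval_pow, eval_add, eval_X] at h8
        rw [hder] at h8
        have h9 : (P.comp (-X)).eval 1 ^ 2 = 1 := by
          rw [eval_comp, eval_neg, eval_X]
          have : |P.eval (-1)| ^ 2 = 1 := by rw [k3]; norm_num
          rwa [sq_abs] at this
        rw [h9] at h8
        have h10 : s * (2 * (P.derivative.eval (-1)) ^ 2) = 0 := by
          have : (n : ℝ) ^ 2 * (1 - 1) = s * (2 * (P.derivative.eval (-1)) ^ 2) := by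
            rw [h8]; ring
          rw [← this]; ring
        have hs : s = 0 := by
          rcases mul_eq_zero.1 h10 with h | h
          · exact h
          · exfalso
            exact k4 (by
              have : (P.derivative.eval (-1)) ^ 2 = 0 := by linarith
              exact pow_eq_zero_iff (two_ne_zero) |>.1 this)
        subst hs
        refine hTE n _ (by omega) hpar.hm (fun h => ?_) (fun x hx => ?_)
        · have h11 := hder 1
          rw [h, eval_zero] at h11
          exact k4 (by linarith)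
        · have := hpar.ode x hx
          simpa using this
      · exfalso
        rw [hder] at hd
        refine k1 (-c) (by rw [abs_neg, abs_of_pos (by linarith)]; exact hc) (by linarith)
    have h12 := mainX_refl hY
    rwa [Arc.comp_neg_neg] at h12

theorem mainX (hMainO : MainO) (hP0 : P0) (hP1 : P1) (hTE : TE) (hX0 : X0) (hX3 : X3) (hX4 : X4)
    (hHalf : Half) : MainX := by
  have _ := hP0
  intro δ hδ
  have hδ1 : 0 < min δ (1 / 4) := lt_min hδ (by norm_num)
  have hδ2 : min δ (1 / 4) ≤ 1 / 4 := min_le_right _ _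
  have hδ3 : min δ (1 / 4) ≤ δ := min_le_left _ _
  obtain ⟨n0, hn0, h0⟩ := mainX_core hMainO hP1 hTE hX3 hX4 hHalf hδ1 hδ2
  obtain ⟨hx1, hx2, hx3⟩ := hX0
  -- the windows `[a, 1]`
  have key : ∀ n ≥ n0, ∀ (a : ℝ) (P : ℝ[X]), -1 + δ ≤ a → a < 1 →
      (Ext n a 1 P ↔ mainX_IsT n P) := by
    intro n hn a P ha1 ha2
    refine ⟨fun h => h0 n hn a P (by linarith) ha2 h, fun h => ?_⟩
    obtain ⟨Q, hQ⟩ := hx1 n a 1 ha2.le
    have hQ2 := hx2 n a 1 Q hQ
    rcases h0 n hn a Q (by linarith) ha2 hQ with h5 | h5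
    · rcases h with h | h
      · rw [h, ← h5]; exact hQ
      · rw [h, ← h5]; exact hQ2
    · rcases h with h | h
      · rw [h, ← neg_neg (Chebyshev.T ℝ (n : ℤ)), ← h5]; exact hQ2
      · rw [h, ← h5]; exact hQ
  refine ⟨n0, fun n hn a b P hab => ?_⟩
  rcases hab with ⟨ha1, ha2, rfl⟩ | ⟨rfl, hb1, hb2⟩
  · exact key n hn a P ha1 ha2
  · constructor
    · intro h
      have h1 := hx3 n (-1) b P h
      rw [neg_neg] at h1
      have h2 := mainX_refl ((key n hn (-b) _ (by linarith) (by linarith)).1 h1)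
      rwa [Arc.comp_neg_neg] at h2
    · intro h
      have h1 := (key n hn (-b) _ (by linarith) (by linarith)).2 (mainX_refl h)
      have h2 := hx3 n (-b) 1 _ h1
      rwa [Arc.comp_neg_neg, neg_neg] at h2

end Pool.Agent.Helper10.AL
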