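import Pool.Agent.Helper10.AL.St3

/-!
Arc length of polynomials, piece O1: non-degeneracy for windows `[a, 1]`.
-/

set_option autoImplicit false

namespace Pool.Agent.Helper10.AL

open Polynomial Set Real MeasureTheory intervalIntegral Filter
open Pool.Agent.Helper40.AS (arc Bdd Ext quad)

noncomputable section

theorem o1_small : ∃ n0 : ℕ, ∀ n : ℕ, n0 ≤ n → 2 * er n + 3.2 / (n : ℝ) < 0.0015 := by
  have h1 : Tendsto (fun x : ℝ => Real.log x / x) atTop (nhds 0) :=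
    Real.isLittleO_log_id_atTop.tendsto_div_nhds_zero
  have h2 : Tendsto (fun n : ℕ => Real.log (n : ℝ) / (n : ℝ)) atTop (nhds 0) :=
    h1.comp tendsto_natCast_atTop_atTop
  have h3 : Tendsto (fun n : ℕ => (1 : ℝ) / (n : ℝ)) atTop (nhds 0) :=
    tendsto_one_div_atTop_nhds_zero_nat
  have h4 : Tendsto (fun n : ℕ => 2 * er n + 3.2 / (n : ℝ)) atTop (nhds 0) := by
    have h5 : Tendsto (fun n : ℕ => 120 * (1 / (n : ℝ) + Real.log (n : ℝ) / (n : ℝ)) +
        3.2 * (1 / (n : ℝ))) atTop (nhds (120 * (0 + 0) + 3.2 * 0)) :=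
      ((h3.add h2).const_mul 120).add (h3.const_mul 3.2)
    rw [show (120 * (0 + 0) + 3.2 * 0 : ℝ) = 0 by norm_num] at h5
    refine h5.congr fun n => ?_
    unfold er
    ring
  have h6 := h4.eventually (gt_mem_nhds (show (0 : ℝ) < 0.0015 by norm_num))
  obtain ⟨n0, hn0⟩ := eventually_atTop.mp h6
  exact ⟨n0, fun n hn => hn0 n hn⟩

theorem o1_er (n : ℕ) (hn : 1 ≤ n) : 0 ≤ er n := by
  unfold er
  have h1 : (1 : ℝ) ≤ n := by exact_mod_cast hn
  have h2 : 0 ≤ Real.log n := Real.log_nonneg h1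
  positivity

/-- integrability of the length element -/
theorem o1_int (hA2 : A2) (P : ℝ[X]) (u v : ℝ) :
    IntervalIntegrable (fun θ => √(1 + (deriv (qq P) θ) ^ 2)) volume u v := by
  have h1 : (fun θ => √(1 + (deriv (qq P) θ) ^ 2)) =
      fun θ => √(1 + (-(sin θ * P.derivative.eval (cos θ))) ^ 2) := by
    funext θ
    rw [(hA2.2.2 P θ).1]
  rw [h1]
  apply Continuous.intervalIntegrable
  have h2 : Continuous fun θ => P.derivative.eval (cos θ) := P.derivative.continuous.comp continuous_cos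
  fun_prop

theorem o1_add (hA2 : A2) (P : ℝ[X]) (u v w : ℝ) :
    En (qq P) u v + En (qq P) v w = En (qq P) u w :=
  integral_add_adjacent_intervals (o1_int hA2 P u v) (o1_int hA2 P v w)

/-- the numbers `ψ` and `μ` -/
theorem o1_psi : ∃ ψ μ : ℝ, π / 2 ≤ ψ ∧ ψ ≤ π / 2 + 0.0011 ∧ ψ < π ∧ 0 ≤ μ ∧ μ ≤ 0.0011 ∧
    -cos ψ = 0.001 ∧ μ * sin ψ = 0.001 := by
  set x := arcsin 0.001 with hx
  have hx0 : 0 ≤ x := arcsin_nonneg.mpr (by norm_num)
  have hsx : sin x = 0.001 := sin_arcsin (by norm_num) (by norm_num)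
  have hpi : 3 < π := pi_gt_three
  have hx1 : x ≤ 0.0011 := by
    have h1 : (0.001 : ℝ) ≤ sin 0.0011 := by
      have := sin_gt_sub_cube (x := 0.0011) (by norm_num)
      refine le_trans ?_ this.le
      norm_num
    calc x ≤ arcsin (sin 0.0011) := arcsin_le_arcsin h1
      _ = 0.0011 := arcsin_sin (by linarith) (by linarith)
  have hc : 0.99 ≤ cos x := by
    have h1 := one_sub_sq_div_two_le_cos (x := x)
    nlinarith
  refine ⟨π / 2 + x, 0.001 / cos x, by linarith, by linarith, by linarith, by positivity, ?_, ?_, ?_⟩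
  · rw [div_le_iff₀ (by linarith)]
    nlinarith
  · rw [add_comm, cos_add_pi_div_two, neg_neg, hsx]
  · rw [add_comm, sin_add_pi_div_two]
    field_simp

theorem o1_Gm_cont (μ ψ : ℝ) : Continuous (Gm μ ψ) := by
  unfold Gm
  fun_prop

theorem o1 (_hA1 : A1) (hA2 : A2) (hB3 : B3) (hB7 : B7) (hC1 : C1) (hC2 : C2) (hLS : LS)
    (hN1 : N1) (hVF1 : VF1) (hVF2 : VF2) : O1 := by
  intro δ hδ hδ4
  have hγ : 0 < arccos (1 - δ) := arccos_pos.mpr (by linarith)
  obtain ⟨n0, hn0⟩ := o1_small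
  obtain ⟨n1, hn1⟩ := exists_nat_gt (3.2 / arccos (1 - δ))
  refine ⟨max (max n0 4) n1, fun n hn a P ha0 ha1 hE => ?_⟩
  have hnn : n0 ≤ n := le_trans (le_trans (le_max_left _ _) (le_max_left _ _)) hn
  have hn4 : 4 ≤ n := le_trans (le_trans (le_max_right _ _) (le_max_left _ _)) hn
  have hnn1 : n1 ≤ n := le_trans (le_max_right _ _) hn
  have hnR : (4 : ℝ) ≤ n := by exact_mod_cast hn4
  have hnpos : (0 : ℝ) < n := by linarith
  have hn1' : 3.2 / arccos (1 - δ) < n := lt_of_lt_of_le hn1 (by exact_mod_cast hnn1)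
  intro θ hθ hd
  by_contra hdd
  rw [not_le] at hdd
  obtain ⟨ψ, μ, hψ0, hψ1, hψ2, hμ0, hμ1, hcos, hsin⟩ := o1_psi
  have hdeg : P.natDegree ≤ n := natDegree_le_iff_degree_le.mpr hE.deg
  have hTB := hA2.2.1 n P hdeg hE.bdd
  have hα0 : arccos (1 - δ) ≤ arccos a := arccos_le_arccos ha1
  have hα1 : arccos a ≤ π := arccos_le_pi a
  set α := arccos a with hα
  have hpi : 3 < π := pi_gt_three
  obtain ⟨hθ1, hθ2⟩ := hθ
  have h32 : 3.2 / (n : ℝ) < arccos (1 - δ) := by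
    rw [div_lt_iff₀ hγ] at hn1'
    rw [div_lt_iff₀ hnpos]
    linarith
  have hd0 : deriv (qq P) 0 = 0 := by
    rw [(hA2.2.2 P 0).1, sin_zero, zero_mul, neg_zero]
  -- lower bound
  have hC := (hC1 P a 1 (by linarith) (by linarith) le_rfl).2
  have hlow := hC2 n a 1 P (by omega) (by linarith) (by linarith) le_rfl hE
  rw [arccos_one] at hC
  rw [arccos_one, mul_zero, ← hα] at hlow
  have hV := (hVF2 (n * α) (mul_nonneg hnpos.le (hγ.le.trans hα0))).2
  have hlow2 : 2 / π * (n * α) - cs / 2 ≤ En (qq P) 0 α := by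
    have : VC (n * α) = ∫ s in (0 : ℝ)..(n * α), |sin s| := rfl
    rw [this] at hV
    linarith
  have hsm := hn0 n hnn
  have her := o1_er n (by omega)
  have hcs := hVF1.2
  have hcs0 := hVF1.1
  have hπ : (1.0185 : ℝ) ≤ 2 / π * 1.6 := by
    have := pi_lt_d4
    have hp : 0 < π := pi_pos
    rw [div_mul_eq_mul_div, le_div_iff₀ hp]
    nlinarith
  have hN := hN1 μ ψ hμ0 hμ1 hψ0 hψ1
  have hc1 : |deriv (qq P) θ| ≤ n * -cos ψ := by rw [hcos]; linarith
  have hc2 : |deriv (deriv (qq P)) θ| ≤ (n : ℝ) ^ 2 * (μ * sin ψ) := by rw [hsin]; linarith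
  by_cases hcase : 1.6 / (n : ℝ) ≤ θ
  · -- interior
    have hL := (hLS n (qq P) θ ψ μ 1.6 (2 / π * 1.6 - 0.385) hn4 hTB hψ0 hψ2 hμ0 hc1 hc2
      (by norm_num) (by linarith [hN.1]) hN.2 (by linarith)).1 0 α hd0 (by linarith) hθ2
      (by linarith)
    rw [sub_zero] at hL
    have e1 : 2 * 1.6 / (n : ℝ) = 3.2 / n := by norm_num
    rw [e1] at hL
    linarith
  · -- near the end point
    rw [not_le] at hcase
    have e0 : θ - n * θ / n = 0 := by
      rw [mul_div_cancel_left₀ _ hnpos.ne', sub_self]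
    have h7a := (hB7 n (qq P) θ ψ μ (n * θ) (by omega) hTB hψ0 hψ2 hμ0 hc1 hc2
      (by positivity)).2
    rw [e0, mul_div_cancel_left₀ _ hnpos.ne'] at h7a
    have hnθ : (n : ℝ) * θ ≤ 1.6 := by
      rw [lt_div_iff₀ hnpos] at hcase
      linarith
    have hnθ0 : 0 ≤ (n : ℝ) * θ := by positivity
    have hG : (∫ s in (0 : ℝ)..(n * θ), Gm μ ψ s) ≤ 2 / π * (n * θ) := by
      have h1 : (∫ s in (0 : ℝ)..(n * θ), Gm μ ψ s) ≤ ∫ s in (0 : ℝ)..(n * θ), 2 / π := by
        apply integral_mono_on hnθ0 ((o1_Gm_cont μ ψ).intervalIntegrable _ _)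
          (continuous_const.intervalIntegrable _ _)
        intro s hs
        exact hN.2 s ⟨hs.1, le_trans hs.2 hnθ⟩
      rw [intervalIntegral.integral_const, sub_zero, smul_eq_mul] at h1
      linarith
    have h7b := (hB7 n (qq P) θ ψ μ 1.6 (by omega) hTB hψ0 hψ2 hμ0 hc1 hc2
      (by norm_num)).1
    have h16 : 1.6 / (n : ℝ) + 1.6 / n = 3.2 / n := by ring
    have hR := (hB3 n (qq P) (θ + 1.6 / n) α hn4 hTB (by linarith) (by linarith)).1
    have hs1 := o1_add hA2 P 0 θ (θ + 1.6 / n)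
    have hs2 := o1_add hA2 P 0 (θ + 1.6 / n) α
    have e2 : (n : ℝ) * (α - (θ + 1.6 / n)) = n * α - n * θ - 1.6 := by
      field_simp
      ring
    rw [e2] at hR
    have e3 : 2 / π * (n * α - n * θ - 1.6) = 2 / π * (n * α) - 2 / π * (n * θ) - 2 / π * 1.6 := by
      ring
    rw [e3] at hR
    linarith [hN.1]

end

end Pool.Agent.Helper10.AL
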