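import Pool.Agent.Helper10.AL.St5

/-!
Arc length of polynomials over windows, large degree: piece P0.
-/

set_option autoImplicit false

namespace Pool.Agent.Helper10.AL

open Polynomial Set Real MeasureTheory intervalIntegral

theorem p0_one (θ : ℝ) : mu 1 θ = π := by simp [mu]

theorem p0_neg_one (θ : ℝ) : mu (-1) θ = 0 := by
  have h : ¬ (-1 : ℝ) = 1 := by norm_num
  simp [mu, h]

theorem p0_of {ρ : ℝ} (h : ρ < 1) (θ : ℝ) :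
    mu ρ θ = 2 * arctan ((1 + ρ) / (1 - ρ) * tan (θ / 2)) := by
  rw [mu, if_neg h.ne]

/-- the half angle -/
theorem p0_half {θ : ℝ} (h0 : 0 < θ) (h1 : θ < π) :
    0 < sin (θ / 2) ∧ 0 < cos (θ / 2) ∧ 0 < tan (θ / 2) ∧
      cos θ = cos (θ / 2) ^ 2 - sin (θ / 2) ^ 2 ∧ sin θ = 2 * sin (θ / 2) * cos (θ / 2) := by
  have hs : 0 < sin (θ / 2) := sin_pos_of_pos_of_lt_pi (by linarith) (by linarith)
  have hc : 0 < cos (θ / 2) := cos_pos_of_mem_Ioo ⟨by linarith, by linarith⟩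
  refine ⟨hs, hc, ?_, ?_, ?_⟩
  · rw [tan_eq_sin_div_cos]; positivity
  · have e : θ = 2 * (θ / 2) := by ring
    conv_lhs => rw [e, cos_two_mul]
    have := sin_sq_add_cos_sq (θ / 2)
    linarith
  · have e : θ = 2 * (θ / 2) := by ring
    conv_lhs => rw [e, sin_two_mul]

/-- the denominator -/
theorem p0_den {θ : ℝ} (h0 : 0 < θ) (h1 : θ < π) (ρ : ℝ) :
    1 - 2 * ρ * cos θ + ρ ^ 2
      = (1 - ρ) ^ 2 * cos (θ / 2) ^ 2 + (1 + ρ) ^ 2 * sin (θ / 2) ^ 2 := by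
  obtain ⟨-, -, -, e, -⟩ := p0_half h0 h1
  have h := sin_sq_add_cos_sq (θ / 2)
  rw [e]
  linear_combination (-(1 + ρ ^ 2)) * h

theorem p0_k {ρ : ℝ} (h1 : -1 < ρ) (h2 : ρ < 1) : 0 < (1 + ρ) / (1 - ρ) :=
  div_pos (by linarith) (by linarith)

/-- the bounds and the symmetry -/
theorem p0_A (ρ θ : ℝ) (h1 : -1 ≤ ρ) (h2 : ρ ≤ 1) (h3 : 0 < θ) (h4 : θ < π) :
    0 ≤ mu ρ θ ∧ mu ρ θ ≤ π ∧ mu (-ρ) (π - θ) = π - mu ρ θ := by
  rcases h2.eq_or_lt with rfl | h2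
  · rw [p0_one, p0_neg_one]
    exact ⟨pi_pos.le, le_rfl, by ring⟩
  rcases h1.eq_or_lt with rfl | h1
  · rw [neg_neg, p0_one, p0_neg_one]
    exact ⟨le_rfl, pi_pos.le, by ring⟩
  obtain ⟨-, -, ht, -, -⟩ := p0_half h3 h4
  have hk := p0_k h1 h2
  have hkt : 0 < (1 + ρ) / (1 - ρ) * tan (θ / 2) := mul_pos hk ht
  rw [p0_of h2]
  refine ⟨?_, ?_, ?_⟩
  · have := (arctan_pos.2 hkt).le
    linarith
  · have := (arctan_lt_pi_div_two ((1 + ρ) / (1 - ρ) * tan (θ / 2))).le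
    linarith
  · rw [p0_of (by linarith : -ρ < 1)]
    have e : (1 + -ρ) / (1 - -ρ) * tan ((π - θ) / 2) = ((1 + ρ) / (1 - ρ) * tan (θ / 2))⁻¹ := by
      have e1 : (π - θ) / 2 = π / 2 - θ / 2 := by ring
      rw [e1, tan_pi_div_two_sub, mul_inv, inv_div]
      congr 2
      ring
    rw [e, arctan_inv_of_pos hkt]
    ring

theorem p0_cs {ρ θ : ℝ} (h1 : -1 < ρ) (h2 : ρ < 1) (h3 : 0 < θ) (h4 : θ < π) :
    cos (mu ρ θ) * (1 - 2 * ρ * cos θ + ρ ^ 2) = (1 + ρ ^ 2) * cos θ - 2 * ρ ∧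
    sin (mu ρ θ) * (1 - 2 * ρ * cos θ + ρ ^ 2) = (1 - ρ ^ 2) * sin θ := by
  obtain ⟨hs, hc, ht, e1, e2⟩ := p0_half h3 h4
  have hsc := sin_sq_add_cos_sq (θ / 2)
  have hd := p0_den h3 h4 ρ
  have hρ : (1 - ρ) ≠ 0 := by
    have : 0 < 1 - ρ := by linarith
    exact this.ne'
  have hρ' : 0 < (1 - ρ) ^ 2 := by positivity
  have hD : 0 < (1 - ρ) ^ 2 * cos (θ / 2) ^ 2 + (1 + ρ) ^ 2 * sin (θ / 2) ^ 2 := by positivity
  have hx : (1 + ρ) / (1 - ρ) * tan (θ / 2) = (1 + ρ) * sin (θ / 2) / ((1 - ρ) * cos (θ / 2)) := by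
    rw [tan_eq_sin_div_cos, div_mul_div_comm]
  have hsq : cos (arctan ((1 + ρ) / (1 - ρ) * tan (θ / 2))) ^ 2
      * ((1 - ρ) ^ 2 * cos (θ / 2) ^ 2 + (1 + ρ) ^ 2 * sin (θ / 2) ^ 2)
      = (1 - ρ) ^ 2 * cos (θ / 2) ^ 2 := by
    rw [cos_sq_arctan, hx]
    field_simp
  have hsin : sin (arctan ((1 + ρ) / (1 - ρ) * tan (θ / 2))) * ((1 - ρ) * cos (θ / 2))
      = (1 + ρ) * sin (θ / 2) * cos (arctan ((1 + ρ) / (1 - ρ) * tan (θ / 2))) := by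
    have h5 := tan_arctan ((1 + ρ) / (1 - ρ) * tan (θ / 2))
    have h6 := (cos_arctan_pos ((1 + ρ) / (1 - ρ) * tan (θ / 2))).ne'
    rw [tan_eq_sin_div_cos, div_eq_iff h6] at h5
    have h8 : (1 + ρ) / (1 - ρ) * tan (θ / 2) * ((1 - ρ) * cos (θ / 2))
        = (1 + ρ) * sin (θ / 2) := by
      rw [hx]
      exact div_mul_cancel₀ _ (mul_ne_zero hρ hc.ne')
    linear_combination ((1 - ρ) * cos (θ / 2)) * h5
      + cos (arctan ((1 + ρ) / (1 - ρ) * tan (θ / 2))) * h8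
  rw [p0_of h2, hd, cos_two_mul, sin_two_mul, e1, e2]
  constructor
  · linear_combination 2 * hsq - 2 * ρ * hsc
  · have h7 : (1 - ρ) * cos (θ / 2) ≠ 0 := mul_ne_zero hρ hc.ne'
    apply mul_right_cancel₀ h7
    linear_combination (2 * cos (arctan ((1 + ρ) / (1 - ρ) * tan (θ / 2))) *
      ((1 - ρ) ^ 2 * cos (θ / 2) ^ 2 + (1 + ρ) ^ 2 * sin (θ / 2) ^ 2)) * hsin
      + 2 * (1 + ρ) * sin (θ / 2) * hsq

theorem p0_B (ρ θ : ℝ) (h1 : -1 < ρ) (h2 : ρ < 1) (h3 : 0 < θ) (h4 : θ < π) :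
    HasDerivAt (mu ρ) ((1 - ρ ^ 2) / (1 - 2 * ρ * cos θ + ρ ^ 2)) θ ∧
    ∀ ψ : ℝ, cos (ψ - mu ρ θ) * (1 - 2 * ρ * cos θ + ρ ^ 2) =
      cos (ψ - θ) - 2 * ρ * cos ψ + ρ ^ 2 * cos (ψ + θ) := by
  constructor
  · obtain ⟨hs, hc, ht, e1, e2⟩ := p0_half h3 h4
    have e : mu ρ = fun θ => 2 * arctan ((1 + ρ) / (1 - ρ) * tan (θ / 2)) := by
      funext θ
      exact p0_of h2 θ
    have hρ : (1 - ρ) ≠ 0 := by
      have : 0 < 1 - ρ := by linarith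
      exact this.ne'
    have hρ' : 0 < (1 - ρ) ^ 2 := by positivity
    have hD : 0 < (1 - ρ) ^ 2 * cos (θ / 2) ^ 2 + (1 + ρ) ^ 2 * sin (θ / 2) ^ 2 := by positivity
    have d1 : HasDerivAt (fun θ : ℝ => θ / 2) (1 / 2) θ := (hasDerivAt_id θ).div_const 2
    have d2 : HasDerivAt (fun θ : ℝ => tan (θ / 2)) (1 / cos (θ / 2) ^ 2 * (1 / 2)) θ :=
      HasDerivAt.comp (h₂ := tan) (h := fun θ : ℝ => θ / 2) θ (hasDerivAt_tan hc.ne') d1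
    have d3 := ((d2.const_mul ((1 + ρ) / (1 - ρ))).arctan).const_mul 2
    rw [e]
    refine d3.congr_deriv ?_
    rw [p0_den h3 h4 ρ, tan_eq_sin_div_cos]
    field_simp
    ring
  · intro ψ
    obtain ⟨hc, hs⟩ := p0_cs h1 h2 h3 h4
    rw [cos_sub, cos_sub, cos_add]
    linear_combination cos ψ * hc + sin ψ * hs

theorem p0_C {δ : ℝ} (hδ : 0 < δ) (ρ θ : ℝ) (h1 : -1 ≤ ρ) (h2 : ρ ≤ 1) (h3 : 0 < θ) (h4 : θ < π)
    (h : -1 + δ ≤ cos θ) : |mu ρ θ| ≤ (π + 2 * √(2 / δ)) * (1 + ρ) := by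
  have hA := p0_A ρ θ h1 h2 h3 h4
  rw [abs_of_nonneg hA.1]
  have hq : 0 ≤ √(2 / δ) := sqrt_nonneg _
  have hπ := pi_pos
  by_cases hρ : 0 ≤ ρ
  · have h5 : π ≤ π * (1 + ρ) := by nlinarith
    have h6 : 0 ≤ 2 * √(2 / δ) * (1 + ρ) := by positivity
    have h7 := hA.2.1
    have e : (π + 2 * √(2 / δ)) * (1 + ρ) = π * (1 + ρ) + 2 * √(2 / δ) * (1 + ρ) := by ring
    rw [e]
    linarith
  · push Not at hρ
    obtain ⟨hs, hc, ht, e1, e2⟩ := p0_half h3 h4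
    have hsc := sin_sq_add_cos_sq (θ / 2)
    rw [p0_of (by linarith)]
    have hk0 : 0 ≤ (1 + ρ) / (1 - ρ) := div_nonneg (by linarith) (by linarith)
    have hk1 : (1 + ρ) / (1 - ρ) ≤ 1 + ρ := div_le_self (by linarith) (by linarith)
    have ht1 : tan (θ / 2) ≤ √(2 / δ) := by
      apply le_sqrt_of_sq_le
      rw [tan_eq_sin_div_cos, div_pow, div_le_div_iff₀ (by positivity) hδ]
      have h8 : δ / 2 ≤ cos (θ / 2) ^ 2 := by linarith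
      have h9 : sin (θ / 2) ^ 2 ≤ 1 := by nlinarith
      nlinarith
    have h10 : (1 + ρ) / (1 - ρ) * tan (θ / 2) ≤ (1 + ρ) * √(2 / δ) :=
      mul_le_mul hk1 ht1 ht.le (by linarith)
    have hx0 : 0 ≤ (1 + ρ) / (1 - ρ) * tan (θ / 2) := mul_nonneg hk0 ht.le
    have h11 : arctan ((1 + ρ) / (1 - ρ) * tan (θ / 2)) ≤ (1 + ρ) / (1 - ρ) * tan (θ / 2) := by
      have h12 := le_tan (arctan_nonneg.2 hx0) (arctan_lt_pi_div_two _)
      rwa [tan_arctan] at h12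
    have h13 : 0 ≤ π * (1 + ρ) := mul_nonneg hπ.le (by linarith)
    have e : (π + 2 * √(2 / δ)) * (1 + ρ) = π * (1 + ρ) + 2 * ((1 + ρ) * √(2 / δ)) := by ring
    rw [e]
    linarith

theorem p0 : P0 := by
  refine ⟨p0_A, p0_B, fun δ hδ => ?_⟩
  have hq : 0 ≤ √(2 / δ) := sqrt_nonneg _
  refine ⟨π + 2 * √(2 / δ), by have := pi_pos; positivity, fun ρ θ h1 h2 h3 h4 => ⟨fun h => ?_, fun h => ?_⟩⟩
  · have hA := (p0_A ρ θ h1 h2 h3 h4).2.2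
    have hC := p0_C hδ (-ρ) (π - θ) (by linarith) (by linarith) (by linarith) (by linarith)
      (by rw [cos_pi_sub]; linarith)
    rw [hA] at hC
    rw [abs_sub_comm]
    exact hC
  · exact p0_C hδ ρ θ h1 h2 h3 h4 h

end Pool.Agent.Helper10.AL
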