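import Pool.Agent.Helper10.AL.St5

/-!
Piece P3b: the speed of the phase near the Chebyshev polynomial.
-/

set_option autoImplicit false

namespace Pool.Agent.Helper10.AL

open Polynomial Set Real MeasureTheory intervalIntegral

theorem p3b_speed {r : ℝ} (hr : 0 ≤ r) : 0 ≤ 1 - 1 / √(1 + r) ∧ 1 - 1 / √(1 + r) ≤ r := by
  have h1 : 1 ≤ √(1 + r) := by
    rw [show (1 : ℝ) = √1 by simp]
    apply Real.sqrt_le_sqrt
    simp only [Real.sqrt_one]
    linarith
  have h2 : √(1 + r) ≤ 1 + r := by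
    rw [Real.sqrt_le_left (by linarith)]
    nlinarith
  have h3 : 0 < √(1 + r) := by linarith
  constructor
  · have : 1 / √(1 + r) ≤ 1 := by
      rw [div_le_one h3]; exact h1
    linarith
  · have : 1 / (1 + r) ≤ 1 / √(1 + r) := one_div_le_one_div_of_le h3 h2
    have h4 : 1 - r ≤ 1 / (1 + r) := by
      rw [le_div_iff₀ (by linarith)]
      nlinarith
    linarith

theorem p3b_int {n : ℕ} {c s p : ℝ} (hc : 1 ≤ c) (hs : 0 ≤ s) (hp : 0 ≤ p) (hc2 : c ≤ 2) :
    (∫ t in (0 : ℝ)..π, om n c s p t) ≤ n / √(1 + s / 3) * π := by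
  have h1 : ∀ t ∈ uIoc (0 : ℝ) π, ‖om n c s p t‖ ≤ n / √(1 + s / 3) := by
    intro t ht
    rw [uIoc_of_le Real.pi_pos.le] at ht
    have hcos : cos t < 1 := by
      have : cos t < cos 0 := Real.cos_lt_cos_of_nonneg_of_le_pi le_rfl ht.2 ht.1
      simpa using this
    have hpos : 0 < c - cos t := by linarith
    have hle : c - cos t ≤ 3 := by
      have := Real.neg_one_le_cos t
      linarith
    have hr1 : s / 3 ≤ s / (c - cos t) := div_le_div_of_nonneg_left hs hpos hle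
    have hr2 : 0 ≤ p / (c - cos t) ^ 2 := by positivity
    have hs3 : 0 ≤ s / 3 := by positivity
    have h0 : 0 < √(1 + s / 3) := Real.sqrt_pos.mpr (by linarith)
    have h2 : √(1 + s / 3) ≤ √(1 + (s / (c - cos t) + p / (c - cos t) ^ 2)) :=
      Real.sqrt_le_sqrt (by linarith)
    have h3 : 0 ≤ om n c s p t := by
      unfold om
      positivity
    rw [Real.norm_of_nonneg h3]
    unfold om
    exact div_le_div_of_nonneg_left (Nat.cast_nonneg n) h0 h2
  have h2 := intervalIntegral.norm_integral_le_of_norm_le_const h1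
  rw [sub_zero, abs_of_pos Real.pi_pos] at h2
  exact (le_abs_self _).trans h2

theorem p3b_s {n : ℕ} {c s p : ℝ} (hn : 2 ≤ n) (hc : 1 ≤ c) (hs : 0 ≤ s) (hp : 0 ≤ p)
    (hc2 : c ≤ 2) (hint : ((n : ℝ) - 1) * π ≤ (∫ t in (0 : ℝ)..π, om n c s p t)) :
    s ≤ 24 / n := by
  have h1 := hint.trans (p3b_int (n := n) hc hs hp hc2)
  have hn' : (2 : ℝ) ≤ n := by exact_mod_cast hn
  have h2 : (n : ℝ) - 1 ≤ n / √(1 + s / 3) := le_of_mul_le_mul_right h1 Real.pi_pos
  have hs3 : 0 ≤ s / 3 := by positivity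
  have h0 : 0 < √(1 + s / 3) := Real.sqrt_pos.mpr (by linarith)
  have h3 : ((n : ℝ) - 1) * √(1 + s / 3) ≤ n := by
    rwa [le_div_iff₀ h0] at h2
  have h4 : (((n : ℝ) - 1) * √(1 + s / 3)) ^ 2 ≤ (n : ℝ) ^ 2 := by
    apply pow_le_pow_left₀ _ h3
    have : 0 ≤ (n : ℝ) - 1 := by linarith
    positivity
  rw [mul_pow, Real.sq_sqrt (by linarith)] at h4
  rw [le_div_iff₀ (by linarith)]
  have h5 : ((n : ℝ) / 2) ^ 2 ≤ ((n : ℝ) - 1) ^ 2 := by
    apply pow_le_pow_left₀ (by linarith)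
    linarith
  have h6 : ((n : ℝ) - 1) ^ 2 * (s / 3) ≤ 2 * n := by nlinarith
  have h7 : ((n : ℝ) / 2) ^ 2 * (s / 3) ≤ 2 * n :=
    (mul_le_mul_of_nonneg_right h5 hs3).trans h6
  have h8 : (n : ℝ) * (s * n) ≤ n * 24 := by nlinarith
  exact le_of_mul_le_mul_left h8 (by linarith)

theorem p3b : P3b := by
  intro δ ε hδ hε
  obtain ⟨σ, hσdef⟩ : ∃ σ : ℝ, σ = min δ (ε * δ / 2) := ⟨_, rfl⟩
  have hσ : 0 < σ := by rw [hσdef]; exact lt_min hδ (by positivity)
  have hσ1 : σ ≤ δ := by rw [hσdef]; exact min_le_left _ _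
  have hσ2 : σ ≤ ε * δ / 2 := by rw [hσdef]; exact min_le_right _ _
  refine ⟨max 2 ⌈24 / σ⌉₊, ?_⟩
  intro n hn c s p hc hs hp hps hint θ hθ hc2
  have hn2 : 2 ≤ n := (le_max_left _ _).trans hn
  have hn3 : 24 / σ ≤ n := (Nat.le_ceil _).trans (by exact_mod_cast (le_max_right _ _).trans hn)
  have hn' : (2 : ℝ) ≤ n := by exact_mod_cast hn2
  have hs1 : s ≤ 24 / n := p3b_s hn2 hc hs hp hc2 hint
  have hs2 : s ≤ σ := by
    refine hs1.trans ?_
    rw [div_le_iff₀ (by linarith)]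
    rw [div_le_iff₀ hσ] at hn3
    linarith
  have hx : δ ≤ c - cos θ := by linarith
  have hx0 : 0 < c - cos θ := by linarith
  obtain ⟨r, hr⟩ : ∃ r : ℝ, r = s / (c - cos θ) + p / (c - cos θ) ^ 2 := ⟨_, rfl⟩
  have hr0 : 0 ≤ r := by rw [hr]; positivity
  have hr1 : r ≤ ε := by
    have h1 : s / (c - cos θ) ≤ s / δ := div_le_div_of_nonneg_left hs hδ hx
    have h2 : p / (c - cos θ) ^ 2 ≤ (s / δ) ^ 2 / 4 := by
      rw [div_pow, div_div, mul_comm, ← div_div]
      apply div_le_div₀ (by positivity) hps (by positivity)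
      exact pow_le_pow_left₀ hδ.le hx 2
    have h3 : s / δ ≤ ε / 2 := by
      rw [div_le_iff₀ hδ]
      linarith
    have h4 : s / δ ≤ 1 := by
      rw [div_le_iff₀ hδ]
      linarith
    have h5 : 0 ≤ s / δ := by positivity
    have h6 : (s / δ) ^ 2 / 4 ≤ (s / δ) / 4 := by nlinarith
    rw [hr]
    linarith
  have hom : om n c s p θ / n = 1 / √(1 + r) := by
    unfold om
    rw [← hr]
    have : (n : ℝ) ≠ 0 := by linarith
    field_simp
  rw [hom, abs_sub_comm, abs_of_nonneg (p3b_speed hr0).1]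
  exact (p3b_speed hr0).2.trans hr1

end Pool.Agent.Helper10.AL
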