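import Pool.Agent.Helper10.AL.St5

/-!
Arc length of polynomials over windows, determination of the extremal polynomials: piece P5.
-/

set_option autoImplicit false

namespace Pool.Agent.Helper10.AL

open Polynomial Set Real MeasureTheory intervalIntegral
open Pool.Agent.Helper40.AS (arc Bdd Ext)

/-- the logarithm is small against linear functions -/
theorem p5_small (ε : ℝ) (hε : 0 < ε) :
    ∃ N : ℕ, ∀ n : ℕ, N ≤ n → 1 ≤ n → 1 + Real.log n ≤ ε * n := by
  obtain ⟨N, hN⟩ := exists_nat_ge (4 / ε ^ 2)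
  refine ⟨N, fun n hn hn1 => ?_⟩
  have hnR : (1 : ℝ) ≤ n := by exact_mod_cast hn1
  have hnp : (0 : ℝ) < n := by linarith
  have h1 : (4 / ε ^ 2 : ℝ) ≤ n := hN.trans (by exact_mod_cast hn)
  have h2 : Real.log (√n) ≤ √n - 1 := Real.log_le_sub_one_of_pos (Real.sqrt_pos.mpr hnp)
  have h3 : Real.log (√n) = Real.log n / 2 := Real.log_sqrt hnp.le
  have h4 : 1 + Real.log n ≤ 2 * √n := by linarith
  have h5 : 2 / ε ≤ √n := by
    apply Real.le_sqrt_of_sq_le
    have h5a : (2 / ε) ^ 2 = 4 / ε ^ 2 := by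
      rw [div_pow]
      norm_num
    rw [h5a]
    exact h1
  have h6 : √(n : ℝ) * √n = n := Real.mul_self_sqrt hnp.le
  have h7 : 2 ≤ ε * √n := by
    rw [div_le_iff₀ hε] at h5
    linarith
  have h8 : 0 ≤ √(n : ℝ) := Real.sqrt_nonneg _
  nlinarith [mul_le_mul_of_nonneg_right h7 h8]

/-- pointwise comparison -/
theorem p5_pt (x : ℝ) : √(1 + x ^ 2) ≤ |x| + 1 / √(1 + x ^ 2) := by
  have h1 : (0 : ℝ) < 1 + x ^ 2 := by positivity
  have h2 : 0 < √(1 + x ^ 2) := Real.sqrt_pos.mpr h1
  have h3 : √(1 + x ^ 2) * √(1 + x ^ 2) = 1 + x ^ 2 := Real.mul_self_sqrt h1.le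
  have h4 : |x| ≤ √(1 + x ^ 2) := by
    apply Real.le_sqrt_of_sq_le
    rw [sq_abs]
    linarith
  have h5 : x ^ 2 = |x| * |x| := by rw [← sq_abs]; ring
  have h6 : √(1 + x ^ 2) - |x| ≤ 1 / √(1 + x ^ 2) := by
    rw [le_div_iff₀ h2]
    nlinarith [abs_nonneg x]
  linarith

/-- sums over cells of length at most `1 / n` -/
theorem p5_cells (n : ℕ) (g : ℝ → ℝ) (u v M : ℝ) (hn : 1 ≤ n) (hg : Continuous g) (huv : u ≤ v)
    (hM : 0 ≤ M)
    (h : ∀ x y, u ≤ x → x ≤ y → y ≤ v → y - x ≤ 1 / n → (∫ θ in x..y, g θ) ≤ M) :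
    (∫ θ in u..v, g θ) ≤ (n * (v - u) + 2) * M := by
  have hnR : (1 : ℝ) ≤ n := by exact_mod_cast hn
  have hnp : (0 : ℝ) < n := by linarith
  set m : ℕ := ⌈n * (v - u)⌉₊ + 1 with hm
  have hm1 : (n : ℝ) * (v - u) ≤ m := by
    have := Nat.le_ceil (n * (v - u))
    rw [hm]
    push_cast
    linarith
  have hm2 : (m : ℝ) ≤ n * (v - u) + 2 := by
    have := Nat.ceil_lt_add_one (mul_nonneg hnp.le (sub_nonneg.mpr huv))
    rw [hm]
    push_cast
    linarith
  have hm0 : (0 : ℝ) < m := by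
    rw [hm]
    positivity
  set s : ℕ → ℝ := fun i => u + i * ((v - u) / m) with hs
  have hd : 0 ≤ (v - u) / m := div_nonneg (sub_nonneg.mpr huv) hm0.le
  have hs0 : s 0 = u := by simp [hs]
  have hsm : s m = v := by
    simp only [hs]
    field_simp
    ring
  have hstep : ∀ i, s (i + 1) - s i = (v - u) / m := by
    intro i
    simp only [hs]
    push_cast
    ring
  have hsum := intervalIntegral.sum_integral_adjacent_intervals (f := g) (a := s) (n := m)
    (μ := volume) (fun k _ => hg.intervalIntegrable _ _)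
  rw [hs0, hsm] at hsum
  rw [← hsum]
  have hle : ∀ i ∈ Finset.range m, (∫ θ in (s i)..(s (i + 1)), g θ) ≤ M := by
    intro i hi
    have hi' : i + 1 ≤ m := Finset.mem_range.mp hi
    apply h
    · simp only [hs]
      have : 0 ≤ (i : ℝ) * ((v - u) / m) := mul_nonneg (Nat.cast_nonneg _) hd
      linarith
    · have := hstep i
      linarith
    · have h1 : s (i + 1) ≤ s m := by
        simp only [hs]
        have : ((i + 1 : ℕ) : ℝ) ≤ m := by exact_mod_cast hi'
        have := mul_le_mul_of_nonneg_right this hd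
        linarith
      rw [hsm] at h1
      exact h1
    · rw [hstep, div_le_div_iff₀ hm0 hnp]
      linarith
  calc (∑ i ∈ Finset.range m, ∫ θ in (s i)..(s (i + 1)), g θ)
      ≤ ∑ _i ∈ Finset.range m, M := Finset.sum_le_sum hle
    _ = m * M := by simp
    _ ≤ (n * (v - u) + 2) * M := mul_le_mul_of_nonneg_right hm2 hM

theorem p5 (hA2 : A2) (hC1 : C1) (hE6L : E6L) (hM1 : M1) : P5 := by
  intro δ ε hδ hε
  obtain ⟨K, hK, hM⟩ := hM1
  obtain ⟨n0, hn0⟩ := hE6L (min δ (1 / 4)) (lt_min hδ (by norm_num)) (min_le_right _ _)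
  obtain ⟨n1, hn1⟩ := p5_small (ε / (6 * K)) (by positivity)
  refine ⟨max n0 (max n1 2), ?_⟩
  intro n hn a b P hab hExt
  have hna : n0 ≤ n := (le_max_left _ _).trans hn
  have hnb : n1 ≤ n := (le_max_left _ _).trans ((le_max_right _ _).trans hn)
  have hn2 : 2 ≤ n := (le_max_right _ _).trans ((le_max_right _ _).trans hn)
  have hnR : (2 : ℝ) ≤ n := by exact_mod_cast hn2
  have hnp : (0 : ℝ) < n := by linarith
  obtain ⟨ha, hablt, hb⟩ := hab
  have hND := hn0 n hna a b P ⟨by linarith [min_le_left δ (1 / 4)], hablt,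
    by linarith [min_le_left δ (1 / 4)]⟩ hExt
  have hdeg : P.natDegree ≤ n := natDegree_le_iff_degree_le.mpr hExt.deg
  have hTB : TB n (qq P) := hA2.2.1 n P hdeg hExt.bdd
  have hc : Continuous (deriv (qq P)) := by
    have h1 : deriv (qq P) = fun θ => -(sin θ * P.derivative.eval (cos θ)) := by
      funext θ
      exact (hA2.2.2 P θ).1
    rw [h1]
    fun_prop
  have hpos : ∀ y : ℝ, 0 < 1 + y ^ 2 := fun y => by positivity
  have hg : Continuous fun θ => 1 / √(1 + (deriv (qq P) θ) ^ 2) := by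
    apply continuous_const.div
    · exact (continuous_const.add (hc.pow 2)).sqrt
    · intro θ
      exact (Real.sqrt_pos.mpr (hpos _)).ne'
  have hβα : arccos b ≤ arccos a := Real.arccos_le_arccos hablt.le
  have hβ0 : 0 ≤ arccos b := arccos_nonneg b
  have hαπ : arccos a ≤ π := arccos_le_pi a
  have hlog : 0 ≤ Real.log n := Real.log_nonneg (by linarith)
  have hcell := p5_cells n (fun θ => 1 / √(1 + (deriv (qq P) θ) ^ 2)) (arccos b) (arccos a)
    (K * (1 + Real.log n) / (n : ℝ) ^ 2) (by omega) hg hβα (by positivity) (by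
      intro x y hx hxy hy hlen
      exact (hM n (qq P) x y hn2 hTB hxy hlen (fun θ hθ => hND θ
        ⟨hx.trans hθ.1, hθ.2.trans hy⟩)).2)
  have hEn : En (qq P) (arccos b) (arccos a) ≤ Va (qq P) (arccos b) (arccos a) +
      ∫ θ in (arccos b)..(arccos a), 1 / √(1 + (deriv (qq P) θ) ^ 2) := by
    unfold En Va
    rw [← intervalIntegral.integral_add (hc.abs.intervalIntegrable _ _)
      (hg.intervalIntegrable _ _)]
    apply intervalIntegral.integral_mono_on hβα
    · exact ((continuous_const.add (hc.pow 2)).sqrt).intervalIntegrable _ _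
    · exact (hc.abs.add hg).intervalIntegrable _ _
    · intro θ _
      exact p5_pt _
  have hC := (hC1 P a b (by linarith) hablt.le (by linarith)).2
  have hsm := hn1 n hnb (by omega)
  have h1 : (n * (arccos a - arccos b) + 2) * (K * (1 + Real.log n) / (n : ℝ) ^ 2) ≤ ε := by
    have h2 : (n : ℝ) * (arccos a - arccos b) + 2 ≤ 6 * n := by
      have : arccos a - arccos b ≤ 4 := by linarith [Real.pi_le_four]
      nlinarith
    have h3 : 0 ≤ K * (1 + Real.log n) / (n : ℝ) ^ 2 := by positivity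
    have h4 : K * (1 + Real.log n) ≤ ε / 6 * n := by
      have := mul_le_mul_of_nonneg_left hsm hK.le
      calc K * (1 + Real.log n) ≤ K * (ε / (6 * K) * n) := this
        _ = ε / 6 * n := by field_simp
    calc (n * (arccos a - arccos b) + 2) * (K * (1 + Real.log n) / (n : ℝ) ^ 2)
        ≤ (6 * n) * (K * (1 + Real.log n) / (n : ℝ) ^ 2) := mul_le_mul_of_nonneg_right h2 h3
      _ ≤ (6 * n) * ((ε / 6 * n) / (n : ℝ) ^ 2) := by
          apply mul_le_mul_of_nonneg_left _ (by positivity)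
          exact div_le_div_of_nonneg_right h4 (by positivity)
      _ = ε := by field_simp
  linarith

end Pool.Agent.Helper10.AL
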