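import Pool.Agent.Helper10.AL.St5

/-!
Arc length of polynomials over windows, large degree: lower bounds for the largest arc length.
-/

set_option autoImplicit false

namespace Pool.Agent.Helper10.AL

open Polynomial Set Real MeasureTheory intervalIntegral
open Pool.Agent.Helper40.AS (arc Bdd Ext quad)

theorem p6_lip (hVF6 : VF6) (x m k : ℝ) :
    VC (x - m) ≤ VC (x - k) + |m - k| ∧ VC (x - k) - |m - k| ≤ VC (x - m) := by
  obtain ⟨-, -, hl, -, -⟩ := hVF6
  have h1 := hl (x - m) (x - k)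
  have h2 : |x - m - (x - k)| = |m - k| := by
    rw [show x - m - (x - k) = -(m - k) by ring, abs_neg]
  rw [h2] at h1
  have h3 := abs_le.1 h1
  constructor <;> linarith [h3.1, h3.2]

theorem p6_pi (hVF6 : VF6) (x : ℝ) : VC (x - π) = VC x - 2 := by
  obtain ⟨-, hp, -, -, -⟩ := hVF6
  have h := hp (x - π)
  rw [sub_add_cancel] at h
  linarith

theorem p6_low (hC2 : C2) (hVF6 : VF6) (n : ℕ) (a b : ℝ) (P : ℝ[X]) (hn : 1 ≤ n) (ha : -1 ≤ a)
    (hab : a ≤ b) (hb : b ≤ 1) (hP : Ext n a b P) :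
    VC (n * arccos a) - VC (n * arccos b) ≤ arc a b P := by
  have h1 := hC2 n a b P hn ha hab hb hP
  obtain ⟨-, -, -, -, hi⟩ := hVF6
  have h2 := hi (n * arccos b) (n * arccos a - n * arccos b)
  rw [add_sub_cancel] at h2
  rw [h2] at h1
  exact h1

theorem p6 (hP0 : P0) (hP6a : P6a) (hA2 : A2) (hC1 : C1) (hC2 : C2) (hVF6 : VF6) : P6 := by
  intro δ ε hδ hε
  obtain ⟨-, -, hK⟩ := hP0
  obtain ⟨K, hK0, hK⟩ := hK δ hδ
  obtain ⟨n1, hn1⟩ := hP6a (ε / (2 * K)) ε (by positivity) hε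
  refine ⟨max n1 1, ?_⟩
  intro n hn ρ a b P hρ1 hρ2 hab hP
  have hnn1 : n1 ≤ n := le_trans (le_max_left _ _) hn
  have hn1' : 1 ≤ n := le_trans (le_max_right _ _) hn
  obtain ⟨ha, hab, hb⟩ := hab
  have ha1 : -1 < a := by linarith
  have hb1 : b < 1 := by linarith
  have hβ0 : 0 < arccos b := arccos_pos.2 hb1
  have hα0 : 0 < arccos a := arccos_pos.2 (by linarith)
  have hβπ : arccos b < π := by
    rw [show (π : ℝ) = arccos (-1) by simp]
    exact arccos_lt_arccos (le_refl _) (by linarith) hb1.le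
  have hαπ : arccos a < π := by
    rw [show (π : ℝ) = arccos (-1) by simp]
    exact arccos_lt_arccos (le_refl _) (by linarith) (by linarith)
  have hβα : arccos b ≤ arccos a := arccos_le_arccos hab.le
  have hca : cos (arccos a) = a := cos_arccos ha1.le (by linarith)
  have hcb : cos (arccos b) = b := cos_arccos (by linarith) hb1.le
  have hKη : K * (ε / (2 * K)) = ε / 2 := by
    field_simp
  have hlow := p6_low hC2 hVF6 n a b P hn1' ha1.le hab.le hb1.le hP
  by_cases hc : |ρ| ≤ 1 - ε / (2 * K)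
  · obtain ⟨Q, hQ1, hQ2, hQ3⟩ := hn1 n hnn1 ρ hc
    have h1 := hQ3 (arccos b) (arccos a) hβ0 hβα hαπ
    have h2 := (hC1 Q a b ha1.le hab.le hb1.le).1
    have h3 := hP.max Q (natDegree_le_iff_degree_le.1 hQ1) hQ2
    unfold Jv
    linarith
  · push Not at hc
    have hA := hK ρ (arccos a) hρ1 hρ2 hα0 hαπ
    have hB := hK ρ (arccos b) hρ1 hρ2 hβ0 hβπ
    rcases le_or_gt 0 ρ with h0 | h0
    · rw [abs_of_nonneg h0] at hc
      have hlt : K * (1 - ρ) ≤ ε / 2 := by
        rw [← hKη]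
        exact mul_le_mul_of_nonneg_left (by linarith) hK0.le
      have h1 : |mu ρ (arccos a) - π| ≤ ε / 2 := (hA.1 (by rw [hca]; linarith)).trans hlt
      have h2 : |mu ρ (arccos b) - π| ≤ ε / 2 := (hB.1 (by rw [hcb]; linarith)).trans hlt
      have h3 := (p6_lip hVF6 (n * arccos a) (mu ρ (arccos a)) π).1
      have h4 := (p6_lip hVF6 (n * arccos b) (mu ρ (arccos b)) π).2
      rw [p6_pi hVF6] at h3 h4
      unfold Jv
      linarith
    · rw [abs_of_neg h0] at hc
      have hlt : K * (1 + ρ) ≤ ε / 2 := by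
        rw [← hKη]
        exact mul_le_mul_of_nonneg_left (by linarith) hK0.le
      have h1 : |mu ρ (arccos a)| ≤ ε / 2 := (hA.2 (by rw [hca]; linarith)).trans hlt
      have h2 : |mu ρ (arccos b)| ≤ ε / 2 := (hB.2 (by rw [hcb]; linarith)).trans hlt
      have h3 := (p6_lip hVF6 (n * arccos a) (mu ρ (arccos a)) 0).1
      have h4 := (p6_lip hVF6 (n * arccos b) (mu ρ (arccos b)) 0).2
      rw [sub_zero, sub_zero] at h3 h4
      unfold Jv
      linarith

end Pool.Agent.Helper10.AL
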