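import Pool.Agent.Helper10.AL.St5

/-!
Polynomials with large variation: truncated geometric series for the phase shift.
-/

set_option autoImplicit false

namespace Pool.Agent.Helper10.AL

open Polynomial Set Real MeasureTheory intervalIntegral
open Pool.Agent.Helper40.AS (arc Bdd Ext quad)

noncomputable section

/-- the truncated series -/
def p6a_G (n : ℕ) (ρ : ℝ) : ℝ[X] := ∑ k ∈ Finset.range n,
  C (ρ ^ k) * (Chebyshev.T ℝ ((n : ℤ) - 1 - k) - C ρ * Chebyshev.T ℝ ((n : ℤ) - k))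

lemma p6a_deg (n : ℕ) (ρ : ℝ) : (p6a_G n ρ).natDegree ≤ n := by
  unfold p6a_G
  refine natDegree_sum_le_of_forall_le _ _ ?_
  intro k hk
  have hk' := Finset.mem_range.1 hk
  refine (natDegree_C_mul_le _ _).trans ?_
  refine (natDegree_sub_le _ _).trans ?_
  refine max_le ?_ ?_
  · rw [Chebyshev.natDegree_T]; omega
  · refine (natDegree_C_mul_le _ _).trans ?_
    rw [Chebyshev.natDegree_T]; omega

lemma p6a_tele (n : ℕ) (ρ θ : ℝ) (M : ℕ) :
    (∑ k ∈ Finset.range M, ρ ^ k * (cos ((n - 1 - k) * θ) - ρ * cos ((n - k) * θ))) *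
      (1 - 2 * ρ * cos θ + ρ ^ 2) =
    cos ((n - 1) * θ) - 2 * ρ * cos (n * θ) + ρ ^ 2 * cos ((n + 1) * θ) -
      ρ ^ M * (cos ((n - 1 - M) * θ) - 2 * ρ * cos ((n - M) * θ) +
        ρ ^ 2 * cos ((n + 1 - M) * θ)) := by
  induction M with
  | zero => simp
  | succ M ih =>
    rw [Finset.sum_range_succ, add_mul, ih]
    push_cast
    have e1 : ((n : ℝ) - 1 - (M + 1)) * θ = (n - 1 - M) * θ - θ := by ring
    have e2 : ((n : ℝ) - (M + 1)) * θ = (n - 1 - M) * θ := by ring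
    have e3 : ((n : ℝ) + 1 - (M + 1)) * θ = (n - 1 - M) * θ + θ := by ring
    have e4 : ((n : ℝ) - M) * θ = (n - 1 - M) * θ + θ := by ring
    have e5 : ((n : ℝ) + 1 - M) * θ = (n - 1 - M) * θ + θ + θ := by ring
    rw [e1, e2, e3, e4, e5]
    generalize ((n : ℝ) - 1 - M) * θ = a
    have r1 : cos (a - θ) + cos (a + θ) = 2 * cos θ * cos a := by
      rw [cos_sub, cos_add]; ring
    have r2 : cos a + cos (a + θ + θ) = 2 * cos θ * cos (a + θ) := by
      have : cos a = cos (a + θ - θ) := by ring_nf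
      rw [this, cos_sub, cos_add (a + θ) θ]; ring
    rw [pow_succ]
    linear_combination (ρ * ρ ^ M) * r1 - (ρ ^ 2 * ρ ^ M) * r2

lemma p6a_eval (n : ℕ) (ρ θ : ℝ) : (p6a_G n ρ).eval (cos θ) *
      (1 - 2 * ρ * cos θ + ρ ^ 2) =
    cos ((n - 1) * θ) - 2 * ρ * cos (n * θ) + ρ ^ 2 * cos ((n + 1) * θ) -
      ρ ^ n * ((1 + ρ ^ 2) * cos θ - 2 * ρ) := by
  have h := p6a_tele n ρ θ n
  have e : (p6a_G n ρ).eval (cos θ) =
      ∑ k ∈ Finset.range n, ρ ^ k * (cos ((n - 1 - k) * θ) - ρ * cos ((n - k) * θ)) := by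
    unfold p6a_G
    rw [eval_finsetSum]
    refine Finset.sum_congr rfl fun k _ => ?_
    rw [eval_mul, eval_C, eval_sub, eval_mul, eval_C, Chebyshev.T_real_cos,
      Chebyshev.T_real_cos]
    push_cast
    ring
  rw [e, h]
  have e1 : ((n : ℝ) - 1 - n) * θ = -θ := by ring
  have e2 : ((n : ℝ) - n) * θ = 0 := by ring
  have e3 : ((n : ℝ) + 1 - n) * θ = θ := by ring
  rw [e1, e2, e3, cos_neg, cos_zero]
  ring

lemma p6a_D {η ρ : ℝ} (hη : 0 < η) (hρ : |ρ| ≤ 1 - η) (θ : ℝ) :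
    η ^ 2 ≤ 1 - 2 * ρ * cos θ + ρ ^ 2 := by
  have h1 := neg_one_le_cos θ
  have h2 := cos_le_one θ
  have h3 : |ρ * cos θ| ≤ |ρ| := by
    rw [abs_mul]
    have : |cos θ| ≤ 1 := abs_cos_le_one θ
    nlinarith [abs_nonneg ρ]
  have h4 := le_abs_self (ρ * cos θ)
  have h5 : ρ ^ 2 = |ρ| ^ 2 := (sq_abs ρ).symm
  nlinarith [abs_nonneg ρ]

/-- the error term -/
def p6a_h (n : ℕ) (ρ θ : ℝ) : ℝ :=
  -(ρ ^ n * ((1 + ρ ^ 2) * cos θ - 2 * ρ)) / (1 - 2 * ρ * cos θ + ρ ^ 2)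

/-- its derivative -/
def p6a_h' (n : ℕ) (ρ θ : ℝ) : ℝ :=
  (-(ρ ^ n * ((1 + ρ ^ 2) * -sin θ)) * (1 - 2 * ρ * cos θ + ρ ^ 2) -
    -(ρ ^ n * ((1 + ρ ^ 2) * cos θ - 2 * ρ)) * (-(2 * ρ * -sin θ))) /
    (1 - 2 * ρ * cos θ + ρ ^ 2) ^ 2

lemma p6a_hasDeriv {η ρ : ℝ} (hη : 0 < η) (hρ : |ρ| ≤ 1 - η) (n : ℕ) (θ : ℝ) :
    HasDerivAt (p6a_h n ρ) (p6a_h' n ρ θ) θ := by
  have hD := p6a_D hη hρ θ
  have hD0 : 1 - 2 * ρ * cos θ + ρ ^ 2 ≠ 0 := by
    have : 0 < η ^ 2 := by positivity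
    linarith
  have h1 : HasDerivAt (fun t : ℝ => -(ρ ^ n * ((1 + ρ ^ 2) * cos t - 2 * ρ)))
      (-(ρ ^ n * ((1 + ρ ^ 2) * -sin θ))) θ :=
    ((((hasDerivAt_cos θ).const_mul (1 + ρ ^ 2)).sub_const (2 * ρ)).const_mul (ρ ^ n)).neg
  have h2 : HasDerivAt (fun t : ℝ => 1 - 2 * ρ * cos t + ρ ^ 2)
      (-(2 * ρ * -sin θ)) θ :=
    (((hasDerivAt_cos θ).const_mul (2 * ρ)).const_sub 1).add_const (ρ ^ 2)
  exact h1.div h2 hD0

lemma p6a_h_le {η ρ : ℝ} (hη : 0 < η) (hρ : |ρ| ≤ 1 - η) (n : ℕ) (θ : ℝ) :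
    |p6a_h n ρ θ| ≤ 4 * |ρ| ^ n / η ^ 2 := by
  have hD := p6a_D hη hρ θ
  have hη2 : 0 < η ^ 2 := by positivity
  have hr1 : |ρ| ≤ 1 := by linarith
  have hr0 := abs_nonneg ρ
  have hc := abs_cos_le_one θ
  have hn : |(1 + ρ ^ 2) * cos θ - 2 * ρ| ≤ 4 := by
    refine (abs_sub _ _).trans ?_
    rw [abs_mul, abs_mul, abs_two, abs_of_nonneg (by positivity : (0 : ℝ) ≤ 1 + ρ ^ 2)]
    have h5 : ρ ^ 2 = |ρ| ^ 2 := (sq_abs ρ).symm
    rw [h5]
    have h6 : |ρ| ^ 2 ≤ 1 := by nlinarith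
    nlinarith [abs_nonneg (cos θ)]
  unfold p6a_h
  rw [abs_div, abs_neg, abs_mul, abs_pow, abs_of_pos (lt_of_lt_of_le hη2 hD)]
  have hp : 0 ≤ |ρ| ^ n := by positivity
  calc |ρ| ^ n * |(1 + ρ ^ 2) * cos θ - 2 * ρ| / (1 - 2 * ρ * cos θ + ρ ^ 2)
      ≤ |ρ| ^ n * 4 / η ^ 2 := by
        apply div_le_div₀ (by positivity) (mul_le_mul_of_nonneg_left hn hp) hη2 hD
    _ = 4 * |ρ| ^ n / η ^ 2 := by ring

lemma p6a_h'_le {η ρ : ℝ} (hη : 0 < η) (hρ : |ρ| ≤ 1 - η) (n : ℕ) (θ : ℝ) :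
    |p6a_h' n ρ θ| ≤ 16 * |ρ| ^ n / η ^ 4 := by
  have hD := p6a_D hη hρ θ
  have hη2 : 0 < η ^ 2 := by positivity
  have hr1 : |ρ| ≤ 1 := by linarith
  have hr0 := abs_nonneg ρ
  have hc := abs_cos_le_one θ
  have hs := abs_sin_le_one θ
  have h5 : ρ ^ 2 = |ρ| ^ 2 := (sq_abs ρ).symm
  have h6 : |ρ| ^ 2 ≤ 1 := by nlinarith
  have hn : |(1 + ρ ^ 2) * cos θ - 2 * ρ| ≤ 4 := by
    refine (abs_sub _ _).trans ?_
    rw [abs_mul, abs_mul, abs_two, abs_of_nonneg (by positivity : (0 : ℝ) ≤ 1 + ρ ^ 2)]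
    rw [h5]
    nlinarith [abs_nonneg (cos θ)]
  have hD4 : |1 - 2 * ρ * cos θ + ρ ^ 2| ≤ 4 := by
    rw [abs_of_pos (lt_of_lt_of_le hη2 hD)]
    have h7 : |ρ * cos θ| ≤ 1 := by
      rw [abs_mul]; nlinarith [abs_nonneg (cos θ)]
    have h8 := neg_abs_le (ρ * cos θ)
    nlinarith
  have hp : 0 ≤ |ρ| ^ n := by positivity
  have hnum : |-(ρ ^ n * ((1 + ρ ^ 2) * -sin θ)) * (1 - 2 * ρ * cos θ + ρ ^ 2) -
      -(ρ ^ n * ((1 + ρ ^ 2) * cos θ - 2 * ρ)) * (-(2 * ρ * -sin θ))| ≤ 16 * |ρ| ^ n := by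
    have e : -(ρ ^ n * ((1 + ρ ^ 2) * -sin θ)) * (1 - 2 * ρ * cos θ + ρ ^ 2) -
      -(ρ ^ n * ((1 + ρ ^ 2) * cos θ - 2 * ρ)) * (-(2 * ρ * -sin θ)) =
      ρ ^ n * (sin θ * ((1 + ρ ^ 2) * (1 - 2 * ρ * cos θ + ρ ^ 2) +
        2 * ρ * ((1 + ρ ^ 2) * cos θ - 2 * ρ))) := by ring
    rw [e, abs_mul, abs_pow]
    have e2 : |sin θ * ((1 + ρ ^ 2) * (1 - 2 * ρ * cos θ + ρ ^ 2) +
        2 * ρ * ((1 + ρ ^ 2) * cos θ - 2 * ρ))| ≤ 16 := by
      rw [abs_mul]
      have e3 : |(1 + ρ ^ 2) * (1 - 2 * ρ * cos θ + ρ ^ 2) +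
        2 * ρ * ((1 + ρ ^ 2) * cos θ - 2 * ρ)| ≤ 16 := by
        refine (abs_add_le _ _).trans ?_
        rw [abs_mul, abs_mul, abs_mul, abs_two,
          abs_of_nonneg (by positivity : (0 : ℝ) ≤ 1 + ρ ^ 2)]
        have a1 : (1 + ρ ^ 2) * |1 - 2 * ρ * cos θ + ρ ^ 2| ≤ 2 * 4 :=
          mul_le_mul (by rw [h5]; linarith) hD4 (abs_nonneg _) (by norm_num)
        have a2 : 2 * |ρ| * |(1 + ρ ^ 2) * cos θ - 2 * ρ| ≤ 2 * 4 :=
          mul_le_mul (by linarith) hn (abs_nonneg _) (by norm_num)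
        linarith
      calc |sin θ| * _ ≤ 1 * 16 := mul_le_mul hs e3 (abs_nonneg _) (by norm_num)
        _ = 16 := by norm_num
    nlinarith
  unfold p6a_h'
  rw [abs_div, abs_of_pos (by
    have := lt_of_lt_of_le hη2 hD
    positivity : 0 < (1 - 2 * ρ * cos θ + ρ ^ 2) ^ 2)]
  refine div_le_div₀ (by positivity) hnum (by positivity) ?_
  calc η ^ 4 = (η ^ 2) ^ 2 := by ring
    _ ≤ _ := by
      apply pow_le_pow_left₀ hη2.le hD

lemma p6a_eq (hP0 : P0) {η ρ : ℝ} (hη : 0 < η) (hρ : |ρ| ≤ 1 - η) (n : ℕ) {θ : ℝ}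
    (h0 : 0 < θ) (h1 : θ < π) :
    (p6a_G n ρ).eval (cos θ) = cos (n * θ - mu ρ θ) + p6a_h n ρ θ := by
  have hD := p6a_D hη hρ θ
  have hη2 : 0 < η ^ 2 := by positivity
  have hD0 : 1 - 2 * ρ * cos θ + ρ ^ 2 ≠ 0 := by linarith
  have hb := abs_lt.1 (lt_of_le_of_lt hρ (by linarith) : |ρ| < 1)
  have hc := (hP0.2.1 ρ θ hb.1 hb.2 h0 h1).2 (n * θ)
  have he := p6a_eval n ρ θ
  have e1 : (n : ℝ) * θ - θ = (n - 1) * θ := by ring
  have e2 : (n : ℝ) * θ + θ = (n + 1) * θ := by ring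
  rw [e1, e2] at hc
  unfold p6a_h
  rw [← mul_left_inj' hD0, he, _root_.add_mul (cos (n * θ - mu ρ θ)) _ _, hc,
    div_mul_cancel₀ _ hD0]
  ring

lemma p6a_phi (hP0 : P0) {η ρ : ℝ} (hη : 0 < η) (hρ : |ρ| ≤ 1 - η) (n : ℕ) {θ : ℝ}
    (h0 : 0 < θ) (h1 : θ < π) :
    HasDerivAt (fun t => (n : ℝ) * t - mu ρ t)
      (n - (1 - ρ ^ 2) / (1 - 2 * ρ * cos θ + ρ ^ 2)) θ := by
  have hb := abs_lt.1 (lt_of_le_of_lt hρ (by linarith) : |ρ| < 1)
  have hc := (hP0.2.1 ρ θ hb.1 hb.2 h0 h1).1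
  have h2 : HasDerivAt (fun t : ℝ => (n : ℝ) * t) (n : ℝ) θ := by
    simpa using (hasDerivAt_id θ).const_mul (n : ℝ)
  exact h2.sub hc

lemma p6a_om {η ρ : ℝ} (hη : 0 < η) (hρ : |ρ| ≤ 1 - η) (n : ℕ) (hn : 1 / η ^ 2 ≤ n)
    (θ : ℝ) : 0 ≤ n - (1 - ρ ^ 2) / (1 - 2 * ρ * cos θ + ρ ^ 2) ∧
      n - (1 - ρ ^ 2) / (1 - 2 * ρ * cos θ + ρ ^ 2) ≤ n := by
  have hD := p6a_D hη hρ θ
  have hη2 : 0 < η ^ 2 := by positivity
  have hr1 : |ρ| ≤ 1 := by linarith
  have h6 : |ρ| ^ 2 ≤ 1 := by nlinarith [abs_nonneg ρ]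
  have h5 : ρ ^ 2 = |ρ| ^ 2 := (sq_abs ρ).symm
  have h7 : 0 ≤ 1 - ρ ^ 2 := by rw [h5]; linarith
  constructor
  · have : (1 - ρ ^ 2) / (1 - 2 * ρ * cos θ + ρ ^ 2) ≤ 1 / η ^ 2 :=
      div_le_div₀ (by norm_num) (by nlinarith [sq_nonneg ρ]) hη2 hD
    linarith
  · have : 0 ≤ (1 - ρ ^ 2) / (1 - 2 * ρ * cos θ + ρ ^ 2) := div_nonneg h7 (by linarith)
    linarith

lemma p6a_VC (x : ℝ) : HasDerivAt VC |sin x| x := by
  have hc : Continuous fun s : ℝ => |sin s| := continuous_sin.abs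
  exact intervalIntegral.integral_hasDerivAt_right (hc.intervalIntegrable _ _)
    (hc.stronglyMeasurableAtFilter _ _) hc.continuousAt

theorem p6a (hP0 : P0) : P6a := by
  intro η ε hη hε
  have hlim : Filter.Tendsto (fun n : ℕ => (n : ℝ) * (max 0 (1 - η)) ^ n)
      Filter.atTop (nhds 0) := by
    refine tendsto_self_mul_const_pow_of_lt_one (le_max_left _ _) ?_
    exact max_lt (by norm_num) (by linarith)
  set A : ℝ := 4 * π / η ^ 2 + 16 * π / η ^ 4 with hA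
  have hA0 : 0 < A := by have := pi_pos; positivity
  have hev := (tendsto_order.1 hlim).2 (ε / A) (by positivity)
  obtain ⟨n1, hn1⟩ := Filter.eventually_atTop.1 hev
  obtain ⟨n2, hn2⟩ := exists_nat_ge (1 / η ^ 2)
  refine ⟨max n1 (max n2 1), fun n hn ρ hρ => ?_⟩
  have hn1' : n1 ≤ n := (le_max_left _ _).trans hn
  have hn2' : n2 ≤ n := (le_max_left _ _).trans ((le_max_right _ _).trans hn)
  have hn3' : 1 ≤ n := (le_max_right _ _).trans ((le_max_right _ _).trans hn)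
  have hnη : 1 / η ^ 2 ≤ (n : ℝ) := hn2.trans (by exact_mod_cast hn2')
  have hn1R : (1 : ℝ) ≤ n := by exact_mod_cast hn3'
  have hr0 := abs_nonneg ρ
  have hη1 : 0 ≤ 1 - η := hr0.trans hρ
  have hb := abs_lt.1 (lt_of_le_of_lt hρ (by linarith) : |ρ| < 1)
  have hpow : |ρ| ^ n ≤ (max 0 (1 - η)) ^ n := by
    rw [max_eq_right hη1]
    exact pow_le_pow_left₀ hr0 hρ n
  have hsmall : (n : ℝ) * |ρ| ^ n * A < ε := by
    have h1 := hn1 n hn1'
    have h2 : (n : ℝ) * |ρ| ^ n ≤ n * (max 0 (1 - η)) ^ n :=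
      mul_le_mul_of_nonneg_left hpow (by positivity)
    have h3 := lt_of_le_of_lt h2 h1
    rwa [lt_div_iff₀ hA0] at h3
  set e : ℝ := 4 * |ρ| ^ n / η ^ 2 with he
  have he0 : 0 ≤ e := by positivity
  set G := p6a_G n ρ with hG
  -- boundedness of G
  have hGb : ∀ x ∈ Icc (-1 : ℝ) 1, |G.eval x| ≤ 1 + e := by
    have hopen : ∀ x ∈ Ioo (-1 : ℝ) 1, |G.eval x| ≤ 1 + e := by
      intro x hx
      have hx0 : 0 < arccos x := arccos_pos.2 hx.2
      have hx1 : arccos x < π := by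
        refine lt_of_le_of_ne (arccos_le_pi x) fun h => ?_
        rw [arccos_eq_pi] at h
        linarith [hx.1]
      have hcx : cos (arccos x) = x := cos_arccos hx.1.le hx.2.le
      have := p6a_eq hP0 hη hρ n hx0 hx1
      rw [hcx] at this
      rw [hG, this]
      refine (abs_add_le _ _).trans ?_
      exact add_le_add (abs_cos_le_one _) (p6a_h_le hη hρ n _)
    have hcl : closure (Ioo (-1 : ℝ) 1) = Icc (-1 : ℝ) 1 := closure_Ioo (by norm_num)
    intro x hx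
    rw [← hcl] at hx
    have hc1 : Continuous fun x : ℝ => |G.eval x| := G.continuous.abs
    exact le_on_closure hopen hc1.continuousOn continuousOn_const hx
  refine ⟨C (1 + e)⁻¹ * G, (natDegree_C_mul_le _ _).trans (p6a_deg n ρ), ?_, ?_⟩
  · intro x hx
    rw [eval_mul, eval_C, abs_mul, abs_inv, abs_of_pos (by linarith : 0 < 1 + e)]
    rw [inv_mul_le_iff₀ (by linarith)]
    linarith [hGb x hx]
  · intro u v hu huv hv
    set φ : ℝ → ℝ := fun t => (n : ℝ) * t - mu ρ t with hφ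
    set w : ℝ → ℝ := fun t => n - (1 - ρ ^ 2) / (1 - 2 * ρ * cos t + ρ ^ 2) with hw
    have hsub : ∀ t ∈ Icc u v, 0 < t ∧ t < π := fun t ht =>
      ⟨lt_of_lt_of_le hu ht.1, lt_of_le_of_lt ht.2 hv⟩
    have hcontw : Continuous w := by
      refine continuous_const.sub (continuous_const.div ?_ ?_)
      · fun_prop
      · intro t
        have := p6a_D hη hρ t
        have : 0 < η ^ 2 := by positivity
        linarith [p6a_D hη hρ t]
    have hcontφ : ContinuousOn φ (Icc u v) := fun t ht =>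
      (p6a_phi hP0 hη hρ n (hsub t ht).1 (hsub t ht).2).continuousAt.continuousWithinAt
    have hcontF : ContinuousOn (fun t => |sin (φ t)| * w t) (Icc u v) :=
      (continuous_sin.comp_continuousOn hcontφ).abs.mul hcontw.continuousOn
    have hFTC : ∫ t in u..v, |sin (φ t)| * w t = VC (φ v) - VC (φ u) := by
      refine intervalIntegral.integral_eq_sub_of_hasDerivAt (f := fun t => VC (φ t)) ?_ ?_
      · intro t ht
        rw [uIcc_of_le huv] at ht
        exact (p6a_VC (φ t)).comp t (p6a_phi hP0 hη hρ n (hsub t ht).1 (hsub t ht).2)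
      · rw [← uIcc_of_le huv] at hcontF
        exact hcontF.intervalIntegrable
    have hderG : ∀ t, deriv (qq (C (1 + e)⁻¹ * G)) t = (1 + e)⁻¹ * deriv (qq G) t := by
      intro t
      have : qq (C (1 + e)⁻¹ * G) = fun s => (1 + e)⁻¹ * qq G s := by
        funext s
        simp [qq]
      rw [this, deriv_const_mul_field]
    have hVa : Va (qq (C (1 + e)⁻¹ * G)) u v = (1 + e)⁻¹ * Va (qq G) u v := by
      unfold Va
      rw [← intervalIntegral.integral_const_mul]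
      refine intervalIntegral.integral_congr fun t _ => ?_
      rw [hderG, abs_mul, abs_inv, abs_of_pos (by linarith : 0 < 1 + e)]
    have hcontd : Continuous fun t => |deriv (qq G) t| := by
      have : ContDiff ℝ 1 (qq G) := by
        unfold qq
        have h1 : ContDiff ℝ 1 (fun x : ℝ => G.eval x) := by
          simpa [Polynomial.aeval_def] using G.contDiff_aeval (𝕜 := ℝ) (n := 1)
        exact h1.comp contDiff_cos
      exact (this.continuous_deriv le_rfl).abs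
    have hder : ∀ t, 0 < t → t < π → deriv (qq G) t = -sin (φ t) * w t + p6a_h' n ρ t := by
      intro t h0 h1
      have h2 : HasDerivAt (fun s => cos (φ s) + p6a_h n ρ s)
          (-sin (φ t) * w t + p6a_h' n ρ t) t :=
        ((p6a_phi hP0 hη hρ n h0 h1).cos).add (p6a_hasDeriv hη hρ n t)
      have h3 : qq G =ᶠ[nhds t] fun s => cos (φ s) + p6a_h n ρ s := by
        filter_upwards [Ioo_mem_nhds h0 h1] with s hs
        exact p6a_eq hP0 hη hρ n hs.1 hs.2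
      exact (h2.congr_of_eventuallyEq h3).deriv
    set B : ℝ := 16 * |ρ| ^ n / η ^ 4 with hB
    have hB0 : 0 ≤ B := by positivity
    have hle : (∫ t in u..v, |sin (φ t)| * w t) ≤ ∫ t in u..v, (|deriv (qq G) t| + B) := by
      refine intervalIntegral.integral_mono_on huv ?_ ?_ ?_
      · rw [← uIcc_of_le huv] at hcontF
        exact hcontF.intervalIntegrable
      · exact (hcontd.add continuous_const).intervalIntegrable _ _
      · intro t ht
        obtain ⟨h0, h1⟩ := hsub t ht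
        rw [hder t h0 h1]
        have h2 := p6a_h'_le hη hρ n t
        have h3 : 0 ≤ w t := (p6a_om hη hρ n hnη t).1
        have h4 : |sin (φ t)| * w t = |-sin (φ t) * w t| := by
          rw [abs_mul, abs_neg, abs_of_nonneg h3]
        rw [h4]
        have h5 := abs_sub (-sin (φ t) * w t + p6a_h' n ρ t) (p6a_h' n ρ t)
        rw [add_sub_cancel_right] at h5
        linarith
    have hint : ∫ t in u..v, (|deriv (qq G) t| + B) = Va (qq G) u v + (v - u) * B := by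
      rw [intervalIntegral.integral_add (hcontd.intervalIntegrable _ _)
        (continuous_const.intervalIntegrable _ _), intervalIntegral.integral_const]
      rfl
    have hupper : (∫ t in u..v, |sin (φ t)| * w t) ≤ n * π := by
      have : (∫ t in u..v, |sin (φ t)| * w t) ≤ ∫ t in u..v, (n : ℝ) := by
        refine intervalIntegral.integral_mono_on huv ?_ ?_ ?_
        · rw [← uIcc_of_le huv] at hcontF
          exact hcontF.intervalIntegrable
        · exact continuous_const.intervalIntegrable _ _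
        · intro t ht
          obtain ⟨h3, h4⟩ := p6a_om hη hρ n hnη t
          have h5 := abs_sin_le_one (φ t)
          calc |sin (φ t)| * w t ≤ 1 * n := mul_le_mul h5 h4 h3 (by norm_num)
            _ = n := one_mul _
      rw [intervalIntegral.integral_const, smul_eq_mul] at this
      have h6 : v - u ≤ π := by linarith
      nlinarith
    have hlow : 0 ≤ ∫ t in u..v, |sin (φ t)| * w t := by
      refine intervalIntegral.integral_nonneg huv fun t ht => ?_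
      exact mul_nonneg (abs_nonneg _) (p6a_om hη hρ n hnη t).1
    rw [hVa]
    have key : VC (φ v) - VC (φ u) - π * B ≤ Va (qq G) u v := by
      rw [hFTC, hint] at hle
      have h6 : v - u ≤ π := by linarith
      nlinarith
    rw [hFTC] at hupper hlow
    set V := VC (φ v) - VC (φ u) with hV
    have hVa0 : 0 ≤ Va (qq G) u v :=
      intervalIntegral.integral_nonneg huv fun t _ => abs_nonneg _
    have hp0 : 0 ≤ |ρ| ^ n := by positivity
    have hfin : n * π * e + π * B ≤ ε := by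
      have h7 : n * π * e = n * |ρ| ^ n * (4 * π / η ^ 2) := by rw [he]; ring
      have h8 : π * B ≤ n * |ρ| ^ n * (16 * π / η ^ 4) := by
        have : π * B = 1 * |ρ| ^ n * (16 * π / η ^ 4) := by rw [hB]; ring
        rw [this]
        have h9 : 0 ≤ 16 * π / η ^ 4 := by have := pi_pos; positivity
        exact mul_le_mul_of_nonneg_right (mul_le_mul_of_nonneg_right hn1R hp0) h9
      have h10 : n * |ρ| ^ n * A = n * |ρ| ^ n * (4 * π / η ^ 2) +
          n * |ρ| ^ n * (16 * π / η ^ 4) := by rw [hA]; ring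
      linarith
    show V - ε ≤ _
    have h1e : 0 < 1 + e := by linarith
    have hge : V - ε ≤ (1 + e)⁻¹ * (V - π * B) := by
      rw [← sub_nonneg]
      have : (1 + e)⁻¹ * (V - π * B) - (V - ε) = (1 + e)⁻¹ * (ε + ε * e - π * B - V * e) := by
        field_simp
        ring
      rw [this]
      apply mul_nonneg (by positivity)
      have : V * e ≤ n * π * e := mul_le_mul_of_nonneg_right hupper he0
      nlinarith
    exact hge.trans (mul_le_mul_of_nonneg_left key (by positivity))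

end

end Pool.Agent.Helper10.AL
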