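import Pool.Agent.Helper10.AL.St5

/-!
Project AL, piece PV: variation of the members of the family.
-/

set_option autoImplicit false

namespace Pool.Agent.Helper10.AL

open Polynomial Set Real MeasureTheory intervalIntegral
open Pool.Agent.Helper40.AS (arc Bdd Ext quad)

noncomputable section

theorem pV_int (u v : ℝ) : IntervalIntegrable (fun s : ℝ => |sin s|) volume u v :=
  continuous_sin.abs.intervalIntegrable u v

theorem pV_sub (u v : ℝ) : VC v - VC u = ∫ s in u..v, |sin s| := by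
  unfold VC
  exact intervalIntegral.integral_interval_sub_left (pV_int 0 v) (pV_int 0 u)

theorem pV_lip (x y : ℝ) : |VC x - VC y| ≤ |x - y| := by
  rw [pV_sub y x]
  have h := intervalIntegral.norm_integral_le_of_norm_le_const (a := y) (b := x)
    (f := fun s : ℝ => |sin s|) (C := 1) (fun s _ => by
      rw [Real.norm_eq_abs, abs_abs]
      exact abs_sin_le_one s)
  rw [Real.norm_eq_abs, one_mul] at h
  exact h

theorem pV_refl (k : ℤ) (x y : ℝ) :
    VC (k * π - x) - VC (k * π - y) = VC y - VC x := by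
  rw [pV_sub (k * π - y) (k * π - x), pV_sub x y,
    ← intervalIntegral.integral_comp_sub_left (fun s => |sin s|) (k * π)]
  refine intervalIntegral.integral_congr fun s _ => ?_
  show |sin (k * π - s)| = |sin s|
  have h : sin (k * π - s) = -(-1) ^ k * sin s := by
    rw [sin_sub, sin_int_mul_pi, cos_int_mul_pi]
    ring
  rw [h, abs_mul, abs_neg, abs_zpow, abs_neg, abs_one, one_zpow, one_mul]

theorem pV (hP0 : P0) (hP2 : P2) (hP3 : P3) : PV := by
  have _ := hP0
  intro δ ε hδ hε
  obtain ⟨n0, h0⟩ := hP3 δ (ε / 2) hδ (by linarith)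
  refine ⟨max n0 3, fun n hn c s p P hdeg hB hA hPar u v hu huv hv hcu => ?_⟩
  have hn0 : n0 ≤ n := le_trans (le_max_left _ _) hn
  have hn3 : 3 ≤ n := le_trans (le_max_right _ _) hn
  obtain ⟨_, h2, _, h4, _, h6⟩ := hP2 n c s p P hn3 hdeg hB hA hPar
  have hc : c = 1 ∨ (∫ t in (0 : ℝ)..π, om n c s p t) = ((n : ℝ) - 1) * π := by
    rcases eq_or_lt_of_le hPar.hc with h | h
    · exact Or.inl h.symm
    · exact Or.inr (h4 h)
  have key := h0 n hn0 c s p hPar.hc hPar.hs hPar.hp hPar.hps h2 hc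
  have hcv : cos v ≤ 1 - δ :=
    le_trans (cos_le_cos_of_nonneg_of_le_pi hu.le hv.le huv) hcu
  have ku := key u hu (lt_of_le_of_lt huv hv) hcu
  have kv := key v (lt_of_lt_of_le hu huv) hv hcv
  rw [h6 u v hu.le huv hv.le]
  set A := ∫ t in u..π, om n c s p t
  set B := ∫ t in v..π, om n c s p t
  set ρ := c - √(c ^ 2 - 1)
  have r := pV_refl ((n : ℤ) - 1) (n * u - mu ρ u) (n * v - mu ρ v)
  have e1 : (((n : ℤ) - 1 : ℤ) : ℝ) * π - (n * u - mu ρ u) =
      n * (π - u) - (π - mu ρ u) := by push_cast; ring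
  have e2 : (((n : ℤ) - 1 : ℤ) : ℝ) * π - (n * v - mu ρ v) =
      n * (π - v) - (π - mu ρ v) := by push_cast; ring
  rw [e1, e2] at r
  have l1 := pV_lip A (n * (π - u) - (π - mu ρ u))
  have l2 := pV_lip B (n * (π - v) - (π - mu ρ v))
  have m1 := abs_le.1 (l1.trans ku)
  have m2 := abs_le.1 (l2.trans kv)
  rw [abs_le]
  constructor <;> linarith [m1.1, m1.2, m2.1, m2.2]

end

end Pool.Agent.Helper10.AL
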