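import Pool.Agent.Helper10.AL.St5

/-!
Arc length of polynomials over windows, large degree: piece T2.
-/

set_option autoImplicit false

namespace Pool.Agent.Helper10.AL

open Polynomial Set Real MeasureTheory intervalIntegral
open Pool.Agent.Helper40.AS (arc Bdd Ext quad)
open Pool.Agent.Helper40

/-- an integral of a bounded function over `1 / S` -/
theorem t2_int {a b C : ℝ} (hab : a ≤ b) (P : ℝ[X]) {g : ℝ → ℝ}
    (hg : ∀ x ∈ Icc a b, |g x| ≤ C) :
    |∫ x in a..b, g x / √(1 + P.derivative.eval x ^ 2)| ≤ C * (b - a) := by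
  have h := norm_integral_le_of_norm_le_const (a := a) (b := b) (C := C)
    (f := fun x => g x / √(1 + P.derivative.eval x ^ 2)) (by
      intro x hx
      rw [uIoc_of_le hab] at hx
      have h1 := hg x ⟨hx.1.le, hx.2⟩
      have h2 := AS.one_le_s P x
      have h3 : 0 ≤ C := (abs_nonneg _).trans h1
      have h4 : |√(1 + P.derivative.eval x ^ 2)| = √(1 + P.derivative.eval x ^ 2) :=
        abs_of_pos (by linarith)
      rw [norm_div, Real.norm_eq_abs, Real.norm_eq_abs, h4, div_le_iff₀ (by linarith)]
      nlinarith)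
  rw [Real.norm_eq_abs, abs_of_nonneg (sub_nonneg.2 hab)] at h
  exact h

theorem t2 (hX1 : X1) : T2 := by
  intro δ hδ hδ4
  refine ⟨(1 + 2 / δ) * 2, by positivity, fun n a b c P hn hab h hc => ?_⟩
  obtain ⟨ha, hab, hb⟩ := hab
  have hba : b - a ≤ 2 := by linarith
  have hK : 0 < 1 + 2 / δ := by positivity
  have hnd : P.natDegree ≤ n := natDegree_le_of_degree_le h.deg
  rcases hc with ⟨hc1, hPc⟩ | ⟨hc1, hP1⟩
  · obtain ⟨R0, hR0⟩ := dvd_iff_isRoot.2 hPc
    have hfac : P.derivative = (C c - X) * (-R0) := by
      rw [hR0]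
      ring
    have hD : (C c - X : ℝ[X]).natDegree = 1 := by
      rw [← neg_sub, natDegree_neg, natDegree_X_sub_C]
    have hW : (1 - X ^ 2 : ℝ[X]).natDegree ≤ 2 := by
      refine (natDegree_sub_le _ _).trans ?_
      rw [natDegree_one, natDegree_X_pow]
      norm_num
    have key := hX1 n a b P (C c - X) (-R0) (1 - X ^ 2) hn (by linarith) hab (by linarith) h hfac
      (by rw [hD]; omega)
      (fun x hx hx1 => by
        have h1 := AS.contact_int h.bdd hx hx1
        rw [hfac, eval_mul, eval_sub, eval_C, eval_X] at h1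
        rcases mul_eq_zero.1 h1 with h2 | h2
        · exfalso
          linarith [hx.2]
        · exact h2)
      (fun _ => by simp) (fun _ => by simp)
      (fun x hx => by
        rw [eval_sub, eval_C, eval_X]
        have := hx.2
        intro h0
        linarith)
    simp only [eval_sub, eval_one, eval_pow, eval_X, eval_C, derivative_sub, derivative_one,
      derivative_X_pow, derivative_C, derivative_X, eval_mul, eval_neg, zero_sub] at key
    rw [key]
    refine (t2_int hab.le P (C := 1 + 2 / δ) (fun x hx => ?_)).trans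
      (mul_le_mul_of_nonneg_left hba hK.le)
    have hx1 : -1 ≤ x := by linarith [hx.1]
    have hx2 : x ≤ 1 - δ := by linarith [hx.2]
    have hpos : 0 < c - x := by linarith
    have e : (-(((2 : ℕ) : ℝ) * x ^ (2 - 1)) * (c - x) - (1 - x ^ 2) * -1) / (c - x) ^ 2 =
        1 - (c ^ 2 - 1) / (c - x) ^ 2 := by
      field_simp
      push_cast
      ring
    have h1 : 0 ≤ (c ^ 2 - 1) / (c - x) ^ 2 := by
      apply div_nonneg _ (sq_nonneg _)
      nlinarith
    have h2 : (c ^ 2 - 1) / (c - x) ^ 2 ≤ 1 + 2 / δ := by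
      have e2 : 1 + 2 / δ = (δ + 2) / δ := by
        field_simp
      rw [e2, div_le_div_iff₀ (by positivity) hδ]
      have h3 : δ * (c + 1) ≤ (δ + 2) * (c - x) := by nlinarith
      have h4 : c - 1 ≤ c - x := by linarith
      calc (c ^ 2 - 1) * δ = (c - 1) * (δ * (c + 1)) := by ring
        _ ≤ (c - x) * (δ * (c + 1)) := mul_le_mul_of_nonneg_right h4 (by nlinarith)
        _ ≤ (c - x) * ((δ + 2) * (c - x)) := mul_le_mul_of_nonneg_left h3 hpos.le
        _ = (δ + 2) * (c - x) ^ 2 := by ring
    have h5 : (0 : ℝ) < 2 / δ := by positivity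
    have h6 : |1 - (c ^ 2 - 1) / (c - x) ^ 2| ≤ 1 + 2 / δ :=
      abs_le.2 ⟨by linarith, by linarith⟩
    refine le_trans (le_of_eq ?_) h6
    congr 1
  · subst hc1
    have hW : (1 + X : ℝ[X]).natDegree ≤ 1 := by
      refine (natDegree_add_le _ _).trans ?_
      rw [natDegree_one, natDegree_X]
      norm_num
    have key := hX1 n a b P 1 P.derivative (1 + X) hn (by linarith) hab (by linarith) h
      (by rw [one_mul])
      (by rw [natDegree_one]; omega)
      (fun x hx hx1 => AS.contact_int h.bdd hx hx1)
      (fun h1 => by rw [hP1 h1, mul_zero]) (fun _ => by simp)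
      (fun x hx => by simp)
    simp only [eval_add, eval_one, eval_X, derivative_add, derivative_one, derivative_X,
      eval_zero, div_one, zero_add, mul_one, mul_zero, sub_zero, one_pow] at key
    have ea : (1 - a ^ 2) / (1 - a) = 1 + a := by
      rw [div_eq_iff (by linarith)]
      ring
    have eb : (1 - b ^ 2) / (1 - b) = 1 + b := by
      rw [div_eq_iff (by linarith)]
      ring
    rw [ea, eb, key]
    refine (t2_int hab.le P (g := fun _ => 1) (C := 1 + 2 / δ) (fun x hx => ?_)).trans
      (mul_le_mul_of_nonneg_left hba hK.le)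
    have h5 : (0 : ℝ) < 2 / δ := by positivity
    rw [abs_one]
    linarith

end Pool.Agent.Helper10.AL
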