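import Pool.Agent.Helper10.AL.St5

/-!
Arc length of polynomials: the balance condition near the Chebyshev polynomial.
-/

set_option autoImplicit false

namespace Pool.Agent.Helper10.AL

open Polynomial Set Real MeasureTheory intervalIntegral Filter Topology
open Pool.Agent.Helper40.AS (arc Bdd Ext quad)

theorem t3_deriv (P : ℝ[X]) (θ : ℝ) :
    deriv (qq P) θ = P.derivative.eval (cos θ) * (-sin θ) :=
  ((P.hasDerivAt (cos θ)).comp θ (hasDerivAt_cos θ)).deriv

theorem t3_sin (x y : ℝ) : |sin x - sin y| ≤ |x - y| := by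
  have := Real.lipschitzWith_sin.dist_le_mul x y
  simpa [Real.dist_eq] using this

theorem t3_phase (n : ℕ) (θ φ μ e κ : ℝ) (hφ : |φ - (n * (π - θ) - (π - μ))| ≤ e)
    (hμ : |μ - π| ≤ κ) : |(|sin φ| - |sin (n * θ)|)| ≤ e + κ := by
  have h1 : |sin (n * π - n * θ)| = |sin (n * θ)| := by
    rw [Real.sin_nat_mul_pi_sub, abs_neg, abs_mul, abs_pow, abs_neg, abs_one, one_pow, one_mul]
  rw [← h1]
  have h2 := abs_abs_sub_abs_le (sin φ) (sin (n * π - n * θ))
  have h3 := t3_sin φ (n * π - n * θ)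
  have h4 : |φ - (n * π - n * θ)| ≤ e + κ := by
    have h5 : φ - (n * π - n * θ) = (φ - (n * (π - θ) - (π - μ))) + (μ - π) := by ring
    rw [h5]
    exact (abs_add_le _ _).trans (add_le_add hφ hμ)
  linarith

/-- the weighted arc length density at one point -/
theorem t3_pt (n : ℕ) (δ η e κ x c θ D O φ μ : ℝ) (hn : 0 < (n : ℝ)) (hδ : 0 < δ)
    (hη : 0 ≤ η) (he : 0 ≤ e) (hκ : 0 ≤ κ) (hx : cos θ = x) (hs : 0 < sin θ) (hx1 : x ≤ 1 - δ)
    (hc : 1 ≤ c) (hc1 : c ≤ 1 + η) (hq : |D * (-sin θ)| = O * |sin φ|) (hO : |O / n - 1| ≤ e)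
    (hφ : |φ - (n * (π - θ) - (π - μ))| ≤ e) (hμ : |μ - π| ≤ κ) :
    |(1 - x ^ 2) / (c - x) * √(1 + D ^ 2) - n * (|sin (n * θ)| * ((1 + x) / sin θ))| ≤
      1 / δ * (1 + n * (2 * e + κ)) + n * (η / δ ^ 2) := by
  have hs1 : sin θ ≤ 1 := sin_le_one θ
  have hsx : sin θ ^ 2 = (1 - x) * (1 + x) := by
    have := sin_sq_add_cos_sq θ
    rw [hx] at this
    nlinarith
  have h1x : 0 < 1 - x := by linarith
  have hcx : 0 < c - x := by linarith
  -- the coefficients
  set A : ℝ := sin θ / (c - x) with hA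
  set B : ℝ := (1 + x) / sin θ with hB
  have hB' : B = sin θ / (1 - x) := by
    rw [hB, div_eq_div_iff hs.ne' h1x.ne']
    nlinarith
  have hA0 : 0 ≤ A := by positivity
  have hA1 : A ≤ 1 / δ := by
    rw [hA, div_le_div_iff₀ hcx hδ]
    nlinarith
  have hAB : |A - B| ≤ η / δ ^ 2 := by
    rw [hB', hA]
    have e1 : sin θ / (c - x) - sin θ / (1 - x) = -(sin θ * (c - 1) / ((c - x) * (1 - x))) := by
      field_simp
      ring
    rw [e1, abs_neg, abs_of_nonneg (by
      apply div_nonneg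
      · exact mul_nonneg hs.le (by linarith)
      · positivity)]
    rw [div_le_div_iff₀ (by positivity) (by positivity)]
    have h2 : sin θ * (c - 1) ≤ η := by nlinarith
    have h3 : δ ^ 2 ≤ (c - x) * (1 - x) := by nlinarith
    calc sin θ * (c - 1) * δ ^ 2 ≤ η * δ ^ 2 := by
          exact mul_le_mul_of_nonneg_right h2 (by positivity)
      _ ≤ η * ((c - x) * (1 - x)) := mul_le_mul_of_nonneg_left h3 hη
  -- the arc length density
  set S : ℝ := sin θ * √(1 + D ^ 2) with hS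
  have hS1 : (1 - x ^ 2) / (c - x) * √(1 + D ^ 2) = A * S := by
    rw [hA, hS]
    have : 1 - x ^ 2 = sin θ * sin θ := by nlinarith
    rw [this]
    field_simp
  have hq' : sin θ * |D| = O * |sin φ| := by
    rw [← hq, abs_mul, abs_neg, abs_of_pos hs]
    ring
  have hS2 : |(S - O * |sin φ|)| ≤ 1 := by
    rw [← hq', hS, ← mul_sub, abs_mul, abs_of_pos hs]
    have h2 : |D| ≤ √(1 + D ^ 2) := by
      rw [← Real.sqrt_sq_eq_abs]
      exact Real.sqrt_le_sqrt (by linarith)
    have h3 : √(1 + D ^ 2) ≤ 1 + |D| := by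
      rw [Real.sqrt_le_left (by positivity)]
      nlinarith [sq_abs D, abs_nonneg D]
    rw [abs_of_nonneg (by linarith)]
    nlinarith
  have hO' : |O - n| ≤ n * e := by
    have h2 : O - n = n * (O / n - 1) := by
      field_simp
    rw [h2, abs_mul, abs_of_pos hn]
    exact mul_le_mul_of_nonneg_left hO hn.le
  have hph := t3_phase n θ φ μ e κ hφ hμ
  have hsφ : |sin φ| ≤ 1 := abs_sin_le_one φ
  have hsn : |sin (n * θ)| ≤ 1 := abs_sin_le_one _
  have hS3 : |(S - n * |sin (n * θ)|)| ≤ 1 + n * (2 * e + κ) := by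
    have e1 : S - n * |sin (n * θ)| = (S - O * |sin φ|) + ((O - n) * |sin φ| +
        n * (|sin φ| - |sin (n * θ)|)) := by ring
    have e2 : |((O - n) * |sin φ|)| ≤ n * e := by
      rw [abs_mul, abs_abs]
      calc |O - n| * |sin φ| ≤ |O - n| * 1 := mul_le_mul_of_nonneg_left hsφ (abs_nonneg _)
        _ ≤ n * e := by rw [mul_one]; exact hO'
    have e3 : |n * (|sin φ| - |sin (n * θ)|)| ≤ n * (e + κ) := by
      rw [abs_mul, abs_of_pos hn]
      exact mul_le_mul_of_nonneg_left hph hn.le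
    rw [e1]
    have e4 := abs_add_le (S - O * |sin φ|) ((O - n) * |sin φ| + n * (|sin φ| - |sin (n * θ)|))
    have e5 := abs_add_le ((O - n) * |sin φ|) (n * (|sin φ| - |sin (n * θ)|))
    nlinarith
  rw [hS1]
  have e1 : A * S - n * (|sin (n * θ)| * B) = A * (S - n * |sin (n * θ)|) +
      n * |sin (n * θ)| * (A - B) := by ring
  rw [e1]
  refine (abs_add_le _ _).trans (add_le_add ?_ ?_)
  · rw [abs_mul, abs_of_nonneg hA0]
    exact mul_le_mul hA1 hS3 (abs_nonneg _) (by positivity)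
  · rw [abs_mul, abs_mul, abs_abs, abs_of_pos hn]
    calc (n : ℝ) * |sin (n * θ)| * |A - B| ≤ (n * 1) * (η / δ ^ 2) :=
          mul_le_mul (mul_le_mul_of_nonneg_left hsn hn.le) hAB (abs_nonneg _) (by positivity)
      _ = n * (η / δ ^ 2) := by ring

/-- the differential equation at the right end point -/
theorem t3_end (n : ℕ) (s : ℝ) (P : ℝ[X]) (h : Ode n 1 s 0 P) :
    (n : ℝ) ^ 2 * (1 - P.eval 1 ^ 2) = 2 * s * P.derivative.eval 1 ^ 2 := by
  have h1 : ∀ x ∈ Ioo (-1 : ℝ) 1, (n : ℝ) ^ 2 * (1 - P.eval x ^ 2) =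
      (1 - x + s) * (1 + x) * P.derivative.eval x ^ 2 := by
    intro x hx
    have hx1 : (1 - x) ≠ 0 := by
      have := hx.2
      intro h0
      linarith
    rw [h x hx, zero_div, add_zero]
    field_simp
    ring
  have hL : Continuous fun x : ℝ => (n : ℝ) ^ 2 * (1 - P.eval x ^ 2) := by
    have := P.continuous
    fun_prop
  have hR : Continuous fun x : ℝ => (1 - x + s) * (1 + x) * P.derivative.eval x ^ 2 := by
    have := P.derivative.continuous
    fun_prop
  have h2 : Tendsto (fun x : ℝ => (n : ℝ) ^ 2 * (1 - P.eval x ^ 2)) (𝓝[<] 1)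
      (𝓝 ((n : ℝ) ^ 2 * (1 - P.eval 1 ^ 2))) := (hL.tendsto 1).mono_left nhdsWithin_le_nhds
  have h3 : Tendsto (fun x : ℝ => (1 - x + s) * (1 + x) * P.derivative.eval x ^ 2) (𝓝[<] 1)
      (𝓝 ((1 - 1 + s) * (1 + 1) * P.derivative.eval 1 ^ 2)) :=
    (hR.tendsto 1).mono_left nhdsWithin_le_nhds
  have h4 : (fun x : ℝ => (n : ℝ) ^ 2 * (1 - P.eval x ^ 2)) =ᶠ[𝓝[<] 1]
      (fun x : ℝ => (1 - x + s) * (1 + x) * P.derivative.eval x ^ 2) := by
    filter_upwards [Ioo_mem_nhdsLT (show (-1 : ℝ) < 1 by norm_num)] with x hx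
    exact h1 x hx
  have h5 := tendsto_nhds_unique (h3.congr' h4.symm) h2
  rw [← h5]
  ring

theorem t3 (hP0 : P0) (hP2 : P2) (hP3 : P3) (hP3b : P3b) (hTE : TE) (hT2 : T2) : T3 := by
  intro δ ε hδ hδ4 hε
  obtain ⟨K, hK, hKT⟩ := hT2 δ hδ hδ4
  obtain ⟨K0, hK0, hKP⟩ := hP0.2.2 δ hδ
  set e : ℝ := ε * δ / 32 with he
  have he0 : 0 < e := by positivity
  obtain ⟨n1, hn1⟩ := hP3 δ e hδ he0
  obtain ⟨n2, hn2⟩ := hP3b δ e hδ he0
  set k : ℝ := ε * δ / (16 * K0) with hk
  have hk0 : 0 < k := by positivity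
  set η : ℝ := min 1 (min (k ^ 2 / 3) (ε * δ ^ 2 / 16)) with hη
  have hη0 : 0 < η := by positivity
  have hη1 : η ≤ 1 := min_le_left _ _
  have hη2 : η ≤ k ^ 2 / 3 := (min_le_right _ _).trans (min_le_left _ _)
  have hη3 : η ≤ ε * δ ^ 2 / 16 := (min_le_right _ _).trans (min_le_right _ _)
  obtain ⟨n3, hn3⟩ := exists_nat_gt (4 * (K + 2 / δ) / ε)
  refine ⟨η, hη0, max (max n1 n2) (max n3 3), ?_⟩
  intro n hn a b c s p P hab hE hA hP hc1 hPT hPT'
  have hnn1 : n1 ≤ n := le_trans (le_trans (le_max_left _ _) (le_max_left _ _)) hn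
  have hnn2 : n2 ≤ n := le_trans (le_trans (le_max_right _ _) (le_max_left _ _)) hn
  have hnn3 : n3 ≤ n := le_trans (le_trans (le_max_left _ _) (le_max_right _ _)) hn
  have hnn4 : 3 ≤ n := le_trans (le_trans (le_max_right _ _) (le_max_right _ _)) hn
  have hn0 : (0 : ℝ) < n := by
    have : 0 < n := by omega
    exact_mod_cast this
  have hdeg : P.natDegree ≤ n := natDegree_le_iff_degree_le.2 hE.deg
  obtain ⟨-, h2a, h2b, h2c, h2d, -⟩ := hP2 n c s p P hnn4 hdeg hE.bdd hA hP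
  -- the first order condition
  have hcond : (1 < c ∧ P.derivative.eval c = 0) ∨
      (c = 1 ∧ (|P.eval 1| = 1 → P.derivative.eval 1 = 0)) := by
    rcases hP.cas with ⟨hc, hp⟩ | ⟨hc, hd, -⟩
    · refine Or.inr ⟨hc, fun h1 => ?_⟩
      by_contra hne
      have hode : Ode n 1 s 0 P := by
        have := hP.ode
        rw [hc, hp] at this
        exact this
      have h3 := t3_end n s P hode
      have h4 : P.eval 1 ^ 2 = 1 := by rw [← sq_abs, h1, one_pow]
      rw [h4, sub_self, mul_zero] at h3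
      have h5 : s = 0 := by
        have h6 : P.derivative.eval 1 ^ 2 ≠ 0 := pow_ne_zero 2 hne
        rcases mul_eq_zero.1 h3.symm with h7 | h7
        · linarith
        · exact absurd h7 h6
      have hd : P.derivative ≠ 0 := by
        intro h0
        apply hne
        rw [h0, eval_zero]
      rcases hTE n P (by omega) hP.hm hd (fun x hx => by
        have h8 := hode x hx
        rw [h5, zero_div, zero_div, add_zero, add_zero, one_mul] at h8
        exact h8) with h9 | h9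
      · exact hPT h9
      · exact hPT' h9
    · exact Or.inl ⟨hc, hd⟩
  have hT := hKT n a b c P (by omega) hab hE hcond
  -- the parameter of the phase
  set ρ : ℝ := c - √(c ^ 2 - 1) with hρ
  have hc := hP.hc
  have hsq : 0 ≤ √(c ^ 2 - 1) := Real.sqrt_nonneg _
  have hρ0 : -1 ≤ ρ := by
    have : √(c ^ 2 - 1) ≤ c := by
      rw [Real.sqrt_le_left (by linarith)]
      linarith
    rw [hρ]
    linarith
  have hρ1 : ρ ≤ 1 := by
    have : c - 1 ≤ √(c ^ 2 - 1) := by
      apply Real.le_sqrt_of_sq_le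
      nlinarith
    rw [hρ]
    linarith
  have hρk : 1 - ρ ≤ k := by
    have : √(c ^ 2 - 1) ≤ k := by
      rw [Real.sqrt_le_left hk0.le]
      nlinarith
    rw [hρ]
    linarith
  have hκ : K0 * (1 - ρ) ≤ ε * δ / 16 := by
    calc K0 * (1 - ρ) ≤ K0 * k := mul_le_mul_of_nonneg_left hρk hK0.le
      _ = ε * δ / 16 := by
        rw [hk]
        field_simp
  have hcas : c = 1 ∨ (∫ t in (0 : ℝ)..π, om n c s p t) = ((n : ℝ) - 1) * π := by
    rcases hc.eq_or_lt with h | h
    · exact Or.inl h.symm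
    · exact Or.inr (h2c h)
  -- one point
  have key : ∀ x : ℝ, -1 + δ ≤ x → x ≤ 1 - δ →
      |(1 - x ^ 2) / (c - x) * √(1 + P.derivative.eval x ^ 2) -
        n * (|sin (n * arccos x)| * ((1 + x) / sin (arccos x)))| ≤
      1 / δ * (1 + n * (2 * e + ε * δ / 16)) + n * (η / δ ^ 2) := by
    intro x hx hx1
    have hcos : cos (arccos x) = x := cos_arccos (by linarith) (by linarith)
    have ht0 : 0 < arccos x := arccos_pos.2 (by linarith)
    have htπ : arccos x < π := by
      have h1 : arccos x ≤ π := arccos_le_pi x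
      refine lt_of_le_of_ne h1 fun h2 => ?_
      rw [h2, cos_pi] at hcos
      linarith
    have hs : 0 < sin (arccos x) := sin_pos_of_pos_of_lt_pi ht0 htπ
    have hφ := hn1 n hnn1 c s p hc hP.hs hP.hp hP.hps h2a hcas (arccos x) ht0 htπ
      (by rw [hcos]; exact hx1)
    have hO := hn2 n hnn2 c s p hc hP.hs hP.hp hP.hps h2a (arccos x) (by rw [hcos]; exact hx1)
      (by linarith)
    have hq := h2d (arccos x) ht0 htπ
    rw [t3_deriv, hcos] at hq
    have hμ := (hKP ρ (arccos x) hρ0 hρ1 ht0 htπ).1 (by rw [hcos]; exact hx1)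
    exact t3_pt n δ η e (ε * δ / 16) x c (arccos x) (P.derivative.eval x) _ _ _ hn0 hδ hη0.le
      he0.le (by positivity) hcos hs hx1 hc hc1 hq hO hφ (hμ.trans hκ)
  have ha := key a hab.1 (by linarith [hab.2.1, hab.2.2])
  have hb := key b (by linarith [hab.1, hab.2.1]) hab.2.2
  set ga : ℝ := |sin (n * arccos a)| * ((1 + a) / sin (arccos a)) with hga
  set gb : ℝ := |sin (n * arccos b)| * ((1 + b) / sin (arccos b)) with hgb
  have hmain : n * |gb - ga| ≤ K + 2 * (1 / δ * (1 + n * (2 * e + ε * δ / 16)) +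
      n * (η / δ ^ 2)) := by
    rw [← abs_of_pos hn0, ← abs_mul, abs_of_pos hn0]
    rw [abs_le] at ha hb hT ⊢
    constructor <;> nlinarith [ha.1, ha.2, hb.1, hb.2, hT.1, hT.2]
  have hn3' : 4 * (K + 2 / δ) < ε * n := by
    have h1 : 4 * (K + 2 / δ) / ε < n := hn3.trans_le (by exact_mod_cast hnn3)
    rw [div_lt_iff₀ hε] at h1
    linarith
  have h1 : 1 / δ * (n * (2 * e + ε * δ / 16)) = n * (ε / 8) := by
    rw [he]
    field_simp
    ring
  have h2 : n * (η / δ ^ 2) ≤ n * (ε / 16) := by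
    apply mul_le_mul_of_nonneg_left _ hn0.le
    rw [div_le_iff₀ (by positivity)]
    linarith
  have h3 : 1 / δ * (1 + n * (2 * e + ε * δ / 16)) = 1 / δ + n * (ε / 8) := by
    rw [mul_add, h1, mul_one]
  have h4 : (2 : ℝ) / δ = 2 * (1 / δ) := by ring
  rw [h4] at hn3'
  rw [h3] at hmain
  have h5 : (n : ℝ) * |gb - ga| ≤ n * ε := by nlinarith
  exact le_of_mul_le_mul_left h5 hn0

end Pool.Agent.Helper10.AL
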