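import Pool.Agent.Helper10.AL.St5

/-!
Arc length of polynomials over windows, piece X3: windows `[a, 1]`, critical points outside the
interval, the degree and the left end point.
-/

set_option autoImplicit false

namespace Pool.Agent.Helper10.AL

open Polynomial Set Real MeasureTheory intervalIntegral Filter
open Pool.Agent.Helper40.AS (arc Bdd Ext quad)

noncomputable section

theorem x3_small (C d : ℝ) (hd : 0 < d) :
    ∃ n0 : ℕ, ∀ n : ℕ, n0 ≤ n → C * ((1 + Real.log n) / n) < d := by
  have h1 : Tendsto (fun x : ℝ => Real.log x / x) atTop (nhds 0) :=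
    Real.isLittleO_log_id_atTop.tendsto_div_nhds_zero
  have h2 : Tendsto (fun n : ℕ => Real.log (n : ℝ) / (n : ℝ)) atTop (nhds 0) :=
    h1.comp tendsto_natCast_atTop_atTop
  have h3 : Tendsto (fun n : ℕ => (1 : ℝ) / (n : ℝ)) atTop (nhds 0) :=
    tendsto_one_div_atTop_nhds_zero_nat
  have h4 : Tendsto (fun n : ℕ => C * ((1 + Real.log n) / n)) atTop (nhds 0) := by
    have h5 : Tendsto (fun n : ℕ => C * (1 / (n : ℝ) + Real.log (n : ℝ) / (n : ℝ)))
        atTop (nhds (C * (0 + 0))) := (h3.add h2).const_mul C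
    rw [show (C * (0 + 0) : ℝ) = 0 by norm_num] at h5
    refine h5.congr fun n => ?_
    ring
  have h6 := h4.eventually (gt_mem_nhds hd)
  obtain ⟨n0, hn0⟩ := eventually_atTop.mp h6
  exact ⟨n0, fun n hn => hn0 n hn⟩

theorem x3_S1 (P : ℝ[X]) (x : ℝ) : 1 ≤ √(1 + P.derivative.eval x ^ 2) :=
  Pool.Agent.Helper40.AS.one_le_s P x

/-- integral estimate: a continuous weight bounded by `c` -/
theorem x3_le {a c : ℝ} (ha : a ≤ 1) {P : ℝ[X]} {f : ℝ → ℝ} (hf : ContinuousOn f (Icc a 1))
    (h : ∀ x ∈ Icc a 1, f x ≤ c) :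
    (∫ x in a..1, f x / √(1 + P.derivative.eval x ^ 2)) ≤
      c * ∫ x in a..1, 1 / √(1 + P.derivative.eval x ^ 2) := by
  rw [← intervalIntegral.integral_const_mul]
  have hS : Continuous fun x => √(1 + P.derivative.eval x ^ 2) :=
    Pool.Agent.Helper40.AS.cont_s P
  apply intervalIntegral.integral_mono_on ha
  · apply ContinuousOn.intervalIntegrable
    rw [uIcc_of_le ha]
    exact hf.div hS.continuousOn (fun x _ => (lt_of_lt_of_le one_pos (x3_S1 P x)).ne')
  · apply Continuous.intervalIntegrable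
    exact (continuous_const.div hS (fun x => (lt_of_lt_of_le one_pos (x3_S1 P x)).ne')).const_mul c
  · intro x hx
    rw [mul_one_div]
    exact div_le_div_of_nonneg_right (h x hx) (by positivity)

/-- the left end point -/
theorem x3_left (hX1 : X1) {n : ℕ} {a : ℝ} {P : ℝ[X]} (hn : 1 ≤ n) (ha : -1 ≤ a) (ha1 : a < 1)
    (hE : Ext n a 1 P) (hcon : |P.eval (-1)| = 1 → P.derivative.eval (-1) = 0) : False := by
  have hdeg : P.natDegree ≤ n := natDegree_le_iff_degree_le.mpr hE.deg
  have h := hX1 n a 1 P 1 P.derivative (1 - X) hn ha ha1 le_rfl hE (by ring) (by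
      have h1 : (1 - X : ℝ[X]).natDegree ≤ 1 := by
        compute_degree
      have h2 : (1 : ℝ[X]).natDegree = 0 := natDegree_one
      omega)
    (fun x hx h => Pool.Agent.Helper40.AS.contact_int hE.bdd hx h)
    (fun _ => by simp) (fun h => by rw [hcon h]; ring) (fun x _ => by simp)
  simp only [eval_sub, eval_one, eval_X, eval_zero, derivative_sub, derivative_one, derivative_X, zero_sub,
    eval_neg, sub_self, zero_div, zero_mul, mul_zero, sub_zero, div_one, mul_one, one_pow] at h
  have hS : Continuous fun x => √(1 + P.derivative.eval x ^ 2) :=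
    Pool.Agent.Helper40.AS.cont_s P
  have hS1 := x3_S1 P
  have hSp : ∀ x, 0 < √(1 + P.derivative.eval x ^ 2) := fun x => lt_of_lt_of_le one_pos (hS1 x)
  have hne := Pool.Agent.Helper40.AS.ext_ne hE hn ha1
  -- the integral of `1 - 1 / S` vanishes
  have hci : Continuous fun x => 1 / √(1 + P.derivative.eval x ^ 2) :=
    continuous_const.div hS (fun x => (hSp x).ne')
  have h1 : (∫ x in a..1, (-1 : ℝ) / √(1 + P.derivative.eval x ^ 2)) =
      -∫ x in a..1, 1 / √(1 + P.derivative.eval x ^ 2) := by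
    rw [← intervalIntegral.integral_neg]
    congr 1
    funext x
    ring
  rw [h1] at h
  have h2 : (1 - a) * √(1 + P.derivative.eval a ^ 2) =
      ∫ x in a..1, 1 / √(1 + P.derivative.eval x ^ 2) := by linarith
  have h3 : (∫ x in a..1, 1 / √(1 + P.derivative.eval x ^ 2)) < ∫ x in a..1, (1 : ℝ) := by
    apply intervalIntegral.integral_lt_integral_of_continuousOn_of_le_of_exists_lt ha1
      hci.continuousOn continuousOn_const
    · intro x _
      rw [div_le_one (hSp x)]
      exact hS1 x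
    · -- a point where the derivative does not vanish
      by_contra hall
      push Not at hall
      apply hne
      apply Polynomial.eq_zero_of_infinite_isRoot
      apply Set.Infinite.mono (s := Icc a 1) _ (Icc_infinite ha1)
      intro x hx
      have h4 := hall x hx
      rw [le_div_iff₀ (hSp x), one_mul] at h4
      have h5 : √(1 + P.derivative.eval x ^ 2) = 1 := le_antisymm h4 (hS1 x)
      have h6 : 1 + P.derivative.eval x ^ 2 = 1 := by
        have := Real.sq_sqrt (show 0 ≤ 1 + P.derivative.eval x ^ 2 by positivity)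
        rw [h5] at this
        linarith
      have h7 : P.derivative.eval x ^ 2 = 0 := by linarith
      exact pow_eq_zero_iff (two_ne_zero) |>.mp h7
  rw [intervalIntegral.integral_const, smul_eq_mul, mul_one] at h3
  have h4 : (1 - a) * 1 ≤ (1 - a) * √(1 + P.derivative.eval a ^ 2) :=
    mul_le_mul_of_nonneg_left (hS1 a) (by linarith)
  linarith

theorem x3_W : (1 - X ^ 2 : ℝ[X]).natDegree ≤ 2 := by
  compute_degree

/-- the degree -/
theorem x3_deg (hX1 : X1) {n : ℕ} {a K L : ℝ} {P : ℝ[X]} (hn : 1 ≤ n) (ha : -1 ≤ a) (ha1 : a < 1)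
    (hE : Ext n a 1 P)
    (hI : (∫ x in a..1, 1 / √(1 + P.derivative.eval x ^ 2)) ≤ K * L)
    (hdn : P.natDegree + 1 ≤ n) : 1 - a ^ 2 ≤ 2 * (K * L) := by
  have h := hX1 n a 1 P 1 P.derivative (1 - X ^ 2) hn ha ha1 le_rfl hE (by ring) (by
      have h1 := x3_W
      have h2 : (1 : ℝ[X]).natDegree = 0 := natDegree_one
      omega)
    (fun x hx h => Pool.Agent.Helper40.AS.contact_int hE.bdd hx h)
    (fun _ => by simp) (fun _ => by simp) (fun x _ => by simp)
  simp only [eval_sub, eval_one, eval_X, eval_pow, eval_zero, derivative_sub, derivative_one,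
    derivative_X_pow, zero_sub, eval_neg, sub_self, zero_div, zero_mul, mul_zero, sub_zero,
    div_one, mul_one, one_pow, Nat.cast_ofNat, map_ofNat, eval_mul, eval_ofNat] at h
  have hS1 := x3_S1 P
  have h3 := x3_le (P := P) (c := 2) (f := fun x => 2 * x) ha1.le (by fun_prop)
    (fun x hx => by
      show 2 * x ≤ 2
      linarith [hx.2])
  have h1 : (∫ x in a..1, -(2 * x ^ (2 - 1)) / √(1 + P.derivative.eval x ^ 2)) =
      -∫ x in a..1, (2 * x) / √(1 + P.derivative.eval x ^ 2) := by
    rw [← intervalIntegral.integral_neg]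
    congr 1
    funext x
    ring
  rw [h1] at h
  have h4 : (1 - a ^ 2) * 1 ≤ (1 - a ^ 2) * √(1 + P.derivative.eval a ^ 2) :=
    mul_le_mul_of_nonneg_left (hS1 a) (by nlinarith)
  linarith

/-- critical points to the left of the interval -/
theorem x3_y1 (hX1 : X1) {n : ℕ} {a δ K L y : ℝ} {P : ℝ[X]} (hn : 1 ≤ n) (hδ : 0 < δ)
    (ha : -1 + δ ≤ a) (ha1 : a ≤ 1 - δ) (hE : Ext n a 1 P)
    (hI : (∫ x in a..1, 1 / √(1 + P.derivative.eval x ^ 2)) ≤ K * L)
    (hy : y < -1) (hy0 : P.derivative.eval y = 0) : δ ^ 3 ≤ 8 * (K * L) := by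
  have hdeg : P.natDegree ≤ n := natDegree_le_iff_degree_le.mpr hE.deg
  obtain ⟨R, hR⟩ : (X - C y) ∣ P.derivative := dvd_iff_isRoot.mpr hy0
  have h := hX1 n a 1 P (X - C y) R (1 - X ^ 2) hn (by linarith) (by linarith) le_rfl hE hR (by
      have h1 := x3_W
      have h2 : (X - C y : ℝ[X]).natDegree = 1 := natDegree_X_sub_C y
      omega)
    (fun x hx h => by
      have h1 := Pool.Agent.Helper40.AS.contact_int hE.bdd hx h
      rw [hR, eval_mul, eval_sub, eval_X, eval_C] at h1
      rcases mul_eq_zero.mp h1 with h2 | h2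
      · linarith [hx.1]
      · exact h2)
    (fun _ => by simp) (fun _ => by simp) (fun x hx => by
      rw [eval_sub, eval_X, eval_C]
      have := hx.1
      intro h0
      linarith)
  simp only [eval_sub, eval_one, eval_X, eval_pow, eval_zero, derivative_sub, derivative_one,
    derivative_X_pow, zero_sub, eval_neg, sub_self, zero_div, zero_mul, mul_zero, sub_zero,
    div_one, mul_one, one_pow, Nat.cast_ofNat, map_ofNat, eval_mul, eval_ofNat, derivative_X,
    derivative_C, eval_C] at h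
  set M := 8 / (δ ^ 2 * (1 - y)) with hM
  have hy1 : 0 < 1 - y := by linarith
  have hMp : 0 < M := by positivity
  have h3 := x3_le (P := P) (c := M) (a := a)
    (f := fun x => -((-(2 * x ^ (2 - 1)) * (x - y) - (1 - x ^ 2)) / (x - y) ^ 2)) (by linarith)
    (by
      apply ContinuousOn.neg
      apply ContinuousOn.div (by fun_prop) (by fun_prop)
      intro x hx
      have h1 : 0 < x - y := by linarith [hx.1]
      positivity)
    (fun x hx => by
      have h1 : 0 < x - y := by linarith [hx.1]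
      have h2 : δ / 2 * (1 - y) ≤ x - y := by
        have hd : δ ≤ 1 := by linarith
        nlinarith [hx.1]
      have h5 : -((-(2 * x ^ (2 - 1)) * (x - y) - (1 - x ^ 2)) / (x - y) ^ 2) =
          (x ^ 2 - 2 * x * y + 1) / (x - y) ^ 2 := by
        rw [← neg_div]
        congr 1
        ring
      rw [h5, hM, div_le_div_iff₀ (by positivity) (by positivity)]
      have h6 : x ^ 2 - 2 * x * y + 1 ≤ 2 * (1 - y) := by
        have := hx.2
        have := hx.1
        nlinarith
      have h7 : (δ / 2 * (1 - y)) ^ 2 ≤ (x - y) ^ 2 := by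
        apply pow_le_pow_left₀ (by positivity) h2
      calc (x ^ 2 - 2 * x * y + 1) * (δ ^ 2 * (1 - y)) ≤
          2 * (1 - y) * (δ ^ 2 * (1 - y)) := mul_le_mul_of_nonneg_right h6 (by positivity)
        _ = 8 * (δ / 2 * (1 - y)) ^ 2 := by ring
        _ ≤ 8 * (x - y) ^ 2 := by linarith)
  have h1 : (∫ x in a..1, -((-(2 * x ^ (2 - 1)) * (x - y) - (1 - x ^ 2)) / (x - y) ^ 2) /
        √(1 + P.derivative.eval x ^ 2)) =
      -∫ x in a..1, ((-(2 * x ^ (2 - 1)) * (x - y) - (1 - x ^ 2)) / (x - y) ^ 2) /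
        √(1 + P.derivative.eval x ^ 2) := by
    rw [← intervalIntegral.integral_neg]
    congr 1
    funext x
    ring
  rw [h1] at h3
  have h8 : M * (∫ x in a..1, 1 / √(1 + P.derivative.eval x ^ 2)) ≤ M * (K * L) :=
    mul_le_mul_of_nonneg_left hI hMp.le
  have hay : 0 < a - y := by linarith
  have h9 : δ / (1 - y) ≤ (1 - a ^ 2) / (a - y) := by
    rw [div_le_div_iff₀ hy1 hay]
    have h10 : δ ≤ 1 - a ^ 2 := by nlinarith
    nlinarith
  have h11 : 0 ≤ (1 - a ^ 2) / (a - y) := le_trans (by positivity) h9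
  have h12 : (1 - a ^ 2) / (a - y) * 1 ≤
      (1 - a ^ 2) / (a - y) * √(1 + P.derivative.eval a ^ 2) :=
    mul_le_mul_of_nonneg_left (x3_S1 P a) h11
  have h13 : δ / (1 - y) ≤ M * (K * L) := by linarith
  rw [div_le_iff₀ hy1] at h13
  have h14 : M * (K * L) * (1 - y) = 8 * (K * L) / δ ^ 2 := by
    rw [hM]
    field_simp
  rw [h14, le_div_iff₀ (by positivity)] at h13
  calc δ ^ 3 = δ * δ ^ 2 := by ring
    _ ≤ 8 * (K * L) := h13

/-- critical points to the right of the interval -/
theorem x3_y2 (hX1 : X1) {n : ℕ} {a δ K L y : ℝ} {P : ℝ[X]} (hn : 1 ≤ n) (hδ : 0 < δ)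
    (ha : -1 + δ ≤ a) (ha1 : a ≤ 1 - δ) (hE : Ext n a 1 P)
    (hI : (∫ x in a..1, 1 / √(1 + P.derivative.eval x ^ 2)) ≤ K * L)
    (hI2 : ∀ c : ℝ, 1 < c → c ≤ 2 →
      (∫ x in a..1, ((c ^ 2 - 1) / (c - x) ^ 2) / √(1 + P.derivative.eval x ^ 2)) ≤ K * L)
    (hKL : 0 ≤ K * L) (hy : 1 < y) (hy0 : P.derivative.eval y = 0) : δ ≤ 16 * (K * L) := by
  have hdeg : P.natDegree ≤ n := natDegree_le_iff_degree_le.mpr hE.deg
  obtain ⟨R0, hR0⟩ : (X - C y) ∣ P.derivative := dvd_iff_isRoot.mpr hy0
  have hR : P.derivative = (C y - X) * (-R0) := by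
    rw [hR0]
    ring
  have h := hX1 n a 1 P (C y - X) (-R0) (1 - X ^ 2) hn (by linarith) (by linarith) le_rfl hE hR
    (by
      have h1 := x3_W
      have h2 : (C y - X : ℝ[X]).natDegree = 1 := by
        rw [← natDegree_neg, neg_sub]
        exact natDegree_X_sub_C y
      omega)
    (fun x hx h => by
      have h1 := Pool.Agent.Helper40.AS.contact_int hE.bdd hx h
      rw [hR, eval_mul, eval_sub, eval_X, eval_C] at h1
      rcases mul_eq_zero.mp h1 with h2 | h2
      · linarith [hx.2]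
      · exact h2)
    (fun _ => by simp) (fun _ => by simp) (fun x hx => by
      rw [eval_sub, eval_X, eval_C]
      have := hx.2
      intro h0
      linarith)
  simp only [eval_sub, eval_one, eval_X, eval_pow, eval_zero, derivative_sub, derivative_one,
    derivative_X_pow, zero_sub, eval_neg, sub_self, zero_div, zero_mul, mul_zero, sub_zero,
    div_one, mul_one, one_pow, Nat.cast_ofNat, map_ofNat, eval_mul, eval_ofNat, derivative_X,
    derivative_C, eval_C] at h
  have hS : Continuous fun x => √(1 + P.derivative.eval x ^ 2) :=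
    Pool.Agent.Helper40.AS.cont_s P
  have hS1 := x3_S1 P
  have hSp : ∀ x, 0 < √(1 + P.derivative.eval x ^ 2) := fun x => lt_of_lt_of_le one_pos (hS1 x)
  have hpos : ∀ x ∈ Icc a 1, 0 < y - x := fun x hx => by linarith [hx.2]
  have h1 : (∫ x in a..1, -((-(2 * x ^ (2 - 1)) * (y - x) - (1 - x ^ 2) * -1) / (y - x) ^ 2) /
        √(1 + P.derivative.eval x ^ 2)) =
      -∫ x in a..1, ((-(2 * x ^ (2 - 1)) * (y - x) - (1 - x ^ 2) * -1) / (y - x) ^ 2) /
        √(1 + P.derivative.eval x ^ 2) := by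
    rw [← intervalIntegral.integral_neg]
    congr 1
    funext x
    ring
  have hay : 0 < y - a := by linarith
  have h10 : δ ≤ 1 - a ^ 2 := by nlinarith
  have h11 : 0 ≤ (1 - a ^ 2) / (y - a) := div_nonneg (by linarith) hay.le
  have h12 : (1 - a ^ 2) / (y - a) * 1 ≤
      (1 - a ^ 2) / (y - a) * √(1 + P.derivative.eval a ^ 2) :=
    mul_le_mul_of_nonneg_left (hS1 a) h11
  have hident : ∀ x ∈ Icc a 1,
      -((-(2 * x ^ (2 - 1)) * (y - x) - (1 - x ^ 2) * -1) / (y - x) ^ 2) =
        (y ^ 2 - 1) / (y - x) ^ 2 - 1 := by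
    intro x hx
    have h2 := hpos x hx
    field_simp
    ring
  have hcont : ContinuousOn
      (fun x => -((-(2 * x ^ (2 - 1)) * (y - x) - (1 - x ^ 2) * -1) / (y - x) ^ 2)) (Icc a 1) := by
    apply ContinuousOn.neg
    apply ContinuousOn.div (by fun_prop) (by fun_prop)
    intro x hx
    have h1 := hpos x hx
    positivity
  rcases le_or_gt y 2 with hy2 | hy2
  · have h3 : (∫ x in a..1, -((-(2 * x ^ (2 - 1)) * (y - x) - (1 - x ^ 2) * -1) / (y - x) ^ 2) /
        √(1 + P.derivative.eval x ^ 2)) ≤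
        ∫ x in a..1, ((y ^ 2 - 1) / (y - x) ^ 2) / √(1 + P.derivative.eval x ^ 2) := by
      apply intervalIntegral.integral_mono_on (by linarith)
      · apply ContinuousOn.intervalIntegrable
        rw [uIcc_of_le (by linarith)]
        exact hcont.div hS.continuousOn (fun x _ => (hSp x).ne')
      · apply ContinuousOn.intervalIntegrable
        rw [uIcc_of_le (by linarith)]
        apply ContinuousOn.div _ hS.continuousOn (fun x _ => (hSp x).ne')
        apply ContinuousOn.div (by fun_prop) (by fun_prop)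
        intro x hx
        have h1 := hpos x hx
        positivity
      · intro x hx
        apply div_le_div_of_nonneg_right _ (hSp x).le
        rw [hident x hx]
        linarith
    have h4 := hI2 y hy hy2
    rw [h1] at h3
    have h9 : δ / 3 ≤ (1 - a ^ 2) / (y - a) := by
      rw [div_le_div_iff₀ (by norm_num) hay]
      nlinarith
    linarith
  · have hM : 0 < 8 / y := by positivity
    have h3 := x3_le (P := P) (c := 8 / y) (a := a)
      (f := fun x => -((-(2 * x ^ (2 - 1)) * (y - x) - (1 - x ^ 2) * -1) / (y - x) ^ 2))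
      (by linarith) hcont (fun x hx => by
        show -((-(2 * x ^ (2 - 1)) * (y - x) - (1 - x ^ 2) * -1) / (y - x) ^ 2) ≤ 8 / y
        have h2 := hpos x hx
        have h5 : -((-(2 * x ^ (2 - 1)) * (y - x) - (1 - x ^ 2) * -1) / (y - x) ^ 2) =
            (2 * x * y - x ^ 2 - 1) / (y - x) ^ 2 := by
          rw [← neg_div]
          congr 1
          ring
        rw [h5, div_le_div_iff₀ (by positivity) (by positivity)]
        have h6 : 2 * x * y - x ^ 2 - 1 ≤ 2 * y := by nlinarith [hx.2, sq_nonneg x]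
        have h7 : (y / 2) ^ 2 ≤ (y - x) ^ 2 := by
          apply pow_le_pow_left₀ (by positivity)
          linarith [hx.2]
        calc (2 * x * y - x ^ 2 - 1) * y ≤ 2 * y * y := mul_le_mul_of_nonneg_right h6 (by linarith)
          _ = 8 * (y / 2) ^ 2 := by ring
          _ ≤ 8 * (y - x) ^ 2 := by linarith)
    rw [h1] at h3
    have h8 : 8 / y * (∫ x in a..1, 1 / √(1 + P.derivative.eval x ^ 2)) ≤ 8 / y * (K * L) :=
      mul_le_mul_of_nonneg_left hI hM.le
    have h9 : δ / (2 * y) ≤ (1 - a ^ 2) / (y - a) := by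
      rw [div_le_div_iff₀ (by positivity) hay]
      nlinarith
    have h13 : δ / (2 * y) ≤ 8 / y * (K * L) := by linarith
    rw [div_le_iff₀ (by positivity)] at h13
    have h14 : 8 / y * (K * L) * (2 * y) = 16 * (K * L) := by
      field_simp
      ring
    linarith

theorem x3 (hO1 : O1) (hX1 : X1) (hX2 : X2) : X3 := by
  intro δ hδ hδ4
  obtain ⟨n1, hn1⟩ := hO1 δ hδ hδ4
  obtain ⟨K, hK, n2, hn2⟩ := hX2 δ hδ hδ4
  obtain ⟨n3, hn3⟩ := x3_small (16 * K) (δ ^ 3) (by positivity)
  refine ⟨max (max n1 n2) (max n3 1), fun n hn a P ha ha1 hE => ?_⟩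
  have hnn1 : n1 ≤ n := le_trans (le_trans (le_max_left _ _) (le_max_left _ _)) hn
  have hnn2 : n2 ≤ n := le_trans (le_trans (le_max_right _ _) (le_max_left _ _)) hn
  have hnn3 : n3 ≤ n := le_trans (le_trans (le_max_left _ _) (le_max_right _ _)) hn
  have hn0 : 1 ≤ n := le_trans (le_trans (le_max_right _ _) (le_max_right _ _)) hn
  have hnR : (1 : ℝ) ≤ n := by exact_mod_cast hn0
  have hdeg : P.natDegree ≤ n := natDegree_le_iff_degree_le.mpr hE.deg
  have hND := hn1 n hnn1 a P ha ha1 hE
  obtain ⟨hI, hI2⟩ := hn2 n hnn2 a P ha ha1 hdeg hE.bdd hND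
  have hsm := hn3 n hnn3
  set L := (1 + Real.log n) / (n : ℝ) with hL
  have hL0 : 0 ≤ L := by
    rw [hL]
    apply div_nonneg _ (by linarith)
    linarith [Real.log_nonneg hnR]
  have hKL : 0 ≤ K * L := mul_nonneg hK.le hL0
  have hI' : (∫ x in a..1, 1 / √(1 + P.derivative.eval x ^ 2)) ≤ K * L := by
    rw [hL, ← mul_div_assoc]
    exact hI
  have hI2' : ∀ c : ℝ, 1 < c → c ≤ 2 →
      (∫ x in a..1, ((c ^ 2 - 1) / (c - x) ^ 2) / √(1 + P.derivative.eval x ^ 2)) ≤ K * L := by
    intro c hc hc2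
    rw [hL, ← mul_div_assoc]
    exact hI2 c hc hc2
  have hd3 : δ ^ 3 ≤ δ := by
    have : δ ^ 2 ≤ 1 := by nlinarith
    nlinarith
  have hfin : 16 * (K * L) < δ ^ 3 := by
    rw [← mul_assoc]
    exact hsm
  refine ⟨?_, ?_, ?_⟩
  · intro y hy hy0
    rcases lt_abs.mp hy with h1 | h1
    · have := x3_y2 hX1 hn0 hδ ha ha1 hE hI' hI2' hKL h1 hy0
      linarith
    · have := x3_y1 hX1 hn0 hδ ha ha1 hE hI' (by linarith) hy0
      linarith
  · by_contra hlt
    have := x3_deg hX1 hn0 (by linarith) (by linarith) hE hI' (by omega)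
    nlinarith
  · by_contra hcon
    apply x3_left hX1 hn0 (by linarith) (by linarith) hE
    intro h1
    by_contra h2
    exact hcon ⟨h1, h2⟩

end

end Pool.Agent.Helper10.AL
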