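import Pool.Agent.Helper10.AL.P.P2
import Pool.Agent.Helper10.AL.P.P3
import Pool.Agent.Helper10.AL.P.P5

/-!
Arc length of polynomials over windows, piece X4: windows `[a, 1]`, the remaining family.
-/

set_option autoImplicit false

namespace Pool.Agent.Helper10.AL

open Polynomial Set Real MeasureTheory intervalIntegral Filter Topology
open Pool.Agent.Helper40.AS (arc Bdd Ext quad)

noncomputable section

/-- lower bound for the total delay -/
theorem x4_delay (n : ℕ) (s : ℝ) (hn : 3 ≤ n) (hs : 0 ≤ s)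
    (hI : ((n : ℝ) - 1) * π ≤ ∫ t in (0 : ℝ)..π, om n 1 s 0 t) :
    0.4 * (n * √s) ≤ n * π - ∫ t in (0 : ℝ)..π, om n 1 s 0 t := by
  have hnR : (3 : ℝ) ≤ n := by exact_mod_cast hn
  have hD := p3_D n 1 s 0 0 π le_rfl hs le_rfl
  rw [sub_zero] at hD
  have hss : 0 ≤ √s := Real.sqrt_nonneg s
  set m := min (√s) π with hm
  have hm0 : 0 ≤ m := le_min hss Real.pi_pos.le
  have hmπ : m ≤ π := min_le_right _ _
  have hms : m ≤ √s := min_le_left _ _
  have h2 : (∫ t in (0 : ℝ)..m, (n : ℝ) * (1 - 1 / √(1 + p3_r 1 s 0 t))) ≤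
      ∫ t in (0 : ℝ)..π, (n : ℝ) * (1 - 1 / √(1 + p3_r 1 s 0 t)) := by
    apply intervalIntegral.integral_mono_interval le_rfl hm0 hmπ
    · refine Filter.Eventually.of_forall fun t => ?_
      have := p3_nn _ (p3_r_nonneg 1 s 0 t le_rfl hs le_rfl)
      show 0 ≤ (n : ℝ) * (1 - 1 / √(1 + p3_r 1 s 0 t))
      positivity
    · exact p3_int' n 1 s 0 0 π le_rfl hs le_rfl
  have h3 : (∫ _t in (0 : ℝ)..m, (n : ℝ) * 0.4) ≤
      ∫ t in (0 : ℝ)..m, (n : ℝ) * (1 - 1 / √(1 + p3_r 1 s 0 t)) := by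
    apply intervalIntegral.integral_mono_on_of_le_Ioo hm0 intervalIntegrable_const
      (p3_int' n 1 s 0 0 m le_rfl hs le_rfl)
    intro t ht
    apply mul_le_mul_of_nonneg_left _ (Nat.cast_nonneg n)
    have h5 : 0 < 1 - cos t := by
      have : cos t < 1 := by
        have := Real.cos_lt_cos_of_nonneg_of_le_pi le_rfl (by linarith [ht.2] : t ≤ π) ht.1
        rwa [cos_zero] at this
      linarith
    have h6 : 1 - cos t ≤ s / 2 := by
      have h7 := Real.one_sub_sq_div_two_le_cos (x := t)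
      have h8 : t ^ 2 ≤ s := by
        have h9 : t ^ 2 ≤ √s ^ 2 := pow_le_pow_left₀ ht.1.le (by linarith [ht.2]) 2
        rwa [Real.sq_sqrt hs] at h9
      linarith
    have h7 : 2 ≤ p3_r 1 s 0 t := by
      unfold p3_r
      rw [zero_div, add_zero, le_div_iff₀ h5]
      linarith
    have h8 : (1.7 : ℝ) ≤ √(1 + p3_r 1 s 0 t) := by
      apply Real.le_sqrt_of_sq_le
      norm_num
      linarith
    have h9 : 1 / √(1 + p3_r 1 s 0 t) ≤ 0.6 := by
      rw [div_le_iff₀ (by linarith)]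
      linarith
    linarith
  rw [intervalIntegral.integral_const, smul_eq_mul, sub_zero] at h3
  have h4 : m * (n * 0.4) ≤ n * π - ∫ t in (0 : ℝ)..π, om n 1 s 0 t := by
    rw [hD]
    exact h3.trans h2
  rcases le_total (√s) π with h | h
  · rw [hm, min_eq_left h] at h4
    linarith
  · exfalso
    rw [hm, min_eq_right h] at h4
    nlinarith [Real.pi_pos]

/-- symmetry of the variation of the cosine -/
theorem x4_VCneg (y : ℝ) : VC (-y) = -VC y := by
  unfold VC
  have h := intervalIntegral.integral_comp_neg (a := 0) (b := y) (fun s : ℝ => |sin s|)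
  simp only [Real.sin_neg, abs_neg, neg_zero] at h
  rw [h, intervalIntegral.integral_symm]

theorem x4_VCpi (hVF6 : VF6) (n : ℕ) (y : ℝ) : VC (n * π - y) = 2 * n - VC y := by
  induction n with
  | zero =>
    rw [Nat.cast_zero, zero_mul, zero_sub, x4_VCneg]
    ring
  | succ n ih =>
    have h : ((n + 1 : ℕ) : ℝ) * π - y = (n * π - y) + π := by
      push_cast
      ring
    rw [h, hVF6.2.1, ih]
    push_cast
    ring

/-- the equation at the end point -/
theorem x4_ode {n : ℕ} {s : ℝ} {P : ℝ[X]} (h : Ode n 1 s 0 P) :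
    (n : ℝ) ^ 2 * (1 - P.eval 1 ^ 2) = 2 * s * P.derivative.eval 1 ^ 2 := by
  have h1 : (C ((n : ℝ) ^ 2) * (1 - P ^ 2) : ℝ[X]) =
      (1 - X + C s) * ((1 + X) * P.derivative ^ 2) := by
    apply eq_of_infinite_eval_eq
    refine (Ioo_infinite (show (-1 : ℝ) < 1 by norm_num)).mono ?_
    intro x hx
    have h2 := h x hx
    have h3 : (1 : ℝ) - x ≠ 0 := by
      have : 0 < 1 - x := by linarith [hx.2]
      exact this.ne'
    simp only [mem_ofPred_eq, eval_mul, eval_C, eval_sub, eval_add, eval_one, eval_X, eval_pow]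
    rw [h2, zero_div, add_zero]
    field_simp
    ring
  have h2 := congrArg (fun q : ℝ[X] => q.eval 1) h1
  simp only [eval_mul, eval_C, eval_sub, eval_add, eval_one, eval_X, eval_pow] at h2
  linarith

/-- the value at the end point -/
theorem x4_end {n : ℕ} {s : ℝ} {P : ℝ[X]} (h : Par n 1 s 0 P)
    (hq : ∀ θ : ℝ, 0 < θ → θ ≤ π → qq P θ = P.eval (-1) * cos (∫ t in θ..π, om n 1 s 0 t)) :
    P.eval 1 ^ 2 = cos (n * π - ∫ t in (0 : ℝ)..π, om n 1 s 0 t) ^ 2 := by
  have hc1 : Continuous (qq P) := by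
    unfold qq
    fun_prop
  have hc2 : Continuous fun θ => P.eval (-1) * cos (p2_ph n 1 s 0 θ) :=
    continuous_const.mul (Real.continuous_cos.comp (p2_ph_cont h))
  have h1 : Tendsto (qq P) (𝓝[>] 0) (𝓝 (qq P 0)) :=
    (hc1.tendsto 0).mono_left nhdsWithin_le_nhds
  have h2 : Tendsto (fun θ => P.eval (-1) * cos (p2_ph n 1 s 0 θ)) (𝓝[>] 0)
      (𝓝 (P.eval (-1) * cos (p2_ph n 1 s 0 0))) :=
    (hc2.tendsto 0).mono_left nhdsWithin_le_nhds
  have h3 : ∀ᶠ θ in 𝓝[>] (0 : ℝ), qq P θ = P.eval (-1) * cos (p2_ph n 1 s 0 θ) := by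
    have h4 : Ioo (0 : ℝ) π ∈ 𝓝[>] (0 : ℝ) := Ioo_mem_nhdsGT Real.pi_pos
    filter_upwards [h4] with θ hθ
    exact hq θ hθ.1 hθ.2.le
  have h4 := tendsto_nhds_unique (h1.congr' h3) h2
  have h5 : qq P 0 = P.eval 1 := by
    unfold qq
    rw [cos_zero]
  have h6 : P.eval (-1) ^ 2 = 1 := by rw [← sq_abs, h.hm, one_pow]
  have h7 : cos (n * π - ∫ t in (0 : ℝ)..π, om n 1 s 0 t) ^ 2 =
      cos (p2_ph n 1 s 0 0) ^ 2 := by
    rw [Real.cos_nat_mul_pi_sub, mul_pow, ← pow_mul, mul_comm n 2, pow_mul]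
    norm_num
    rfl
  rw [← h5, h4, h7, mul_pow, h6, one_mul]

/-- the first order condition -/
theorem x4_first (hX1 : X1) {n : ℕ} {a : ℝ} {P : ℝ[X]} (hn : 1 ≤ n) (ha : -1 ≤ a) (ha1 : a < 1)
    (hE : Ext n a 1 P) (h1 : |P.eval 1| ≠ 1) :
    2 * √(1 + P.derivative.eval 1 ^ 2) ≤ (1 + a) * √(1 + P.derivative.eval a ^ 2) + 2 := by
  have hdeg : P.natDegree ≤ n := natDegree_le_iff_degree_le.mpr hE.deg
  have h := hX1 n a 1 P 1 P.derivative (1 + X) hn ha ha1 le_rfl hE (by ring) (by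
      have h1 : (1 + X : ℝ[X]).natDegree ≤ 1 := by
        compute_degree
      have h2 : (1 : ℝ[X]).natDegree = 0 := natDegree_one
      omega)
    (fun x hx h => Pool.Agent.Helper40.AS.contact_int hE.bdd hx h)
    (fun h => absurd h h1) (fun _ => by simp) (fun x _ => by simp)
  simp only [eval_add, eval_one, eval_X, derivative_add, derivative_one,
    derivative_X, zero_add, eval_zero, mul_zero, sub_zero, div_one, mul_one, one_pow] at h
  have hS : Continuous fun x => √(1 + P.derivative.eval x ^ 2) :=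
    Pool.Agent.Helper40.AS.cont_s P
  have hS1 : ∀ x, 1 ≤ √(1 + P.derivative.eval x ^ 2) := Pool.Agent.Helper40.AS.one_le_s P
  have h3 : (∫ x in a..1, 1 / √(1 + P.derivative.eval x ^ 2)) ≤ ∫ x in a..1, (1 : ℝ) := by
    apply intervalIntegral.integral_mono_on ha1.le
    · exact (continuous_const.div hS
        (fun x => (lt_of_lt_of_le one_pos (hS1 x)).ne')).intervalIntegrable _ _
    · exact intervalIntegrable_const
    · intro x _
      rw [div_le_one (lt_of_lt_of_le one_pos (hS1 x))]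
      exact hS1 x
  rw [intervalIntegral.integral_const, smul_eq_mul, mul_one] at h3
  have e : (1 : ℝ) + 1 = 2 := by norm_num
  rw [e] at h
  linarith

/-- arc length against variation -/
theorem x4_En (hA2 : A2) {K : ℝ} (hK : 0 < K)
    (hM : ∀ (n : ℕ) (f : ℝ → ℝ) (u v : ℝ), 2 ≤ n → TB n f → u ≤ v →
      v - u ≤ 1 / n → ND n f u v →
      (∫ θ in u..v, 1 / (1 + (deriv f θ) ^ 2)) ≤ K / (n : ℝ) ^ 2 ∧
      (∫ θ in u..v, 1 / √(1 + (deriv f θ) ^ 2)) ≤ K * (1 + Real.log n) / (n : ℝ) ^ 2)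
    {n : ℕ} {α : ℝ} {P : ℝ[X]} (hn2 : 2 ≤ n) (hTB : TB n (qq P)) (hα : 0 ≤ α) (hαπ : α ≤ π)
    (hND : ND n (qq P) 0 α) (hsm : 1 + Real.log n ≤ 1 / 5 / (6 * K) * n) :
    En (qq P) 0 α ≤ Va (qq P) 0 α + 1 / 5 := by
  have hnR : (2 : ℝ) ≤ n := by exact_mod_cast hn2
  have hnp : (0 : ℝ) < n := by linarith
  have hc : Continuous (deriv (qq P)) := by
    have h1 : deriv (qq P) = fun θ => -(sin θ * P.derivative.eval (cos θ)) := by
      funext θ
      exact (hA2.2.2 P θ).1
    rw [h1]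
    fun_prop
  have hpos : ∀ y : ℝ, 0 < 1 + y ^ 2 := fun y => by positivity
  have hg : Continuous fun θ => 1 / √(1 + (deriv (qq P) θ) ^ 2) := by
    apply continuous_const.div
    · exact (continuous_const.add (hc.pow 2)).sqrt
    · intro θ
      exact (Real.sqrt_pos.mpr (hpos _)).ne'
  have hlog : 0 ≤ Real.log n := Real.log_nonneg (by linarith)
  have hcell := p5_cells n (fun θ => 1 / √(1 + (deriv (qq P) θ) ^ 2)) 0 α
    (K * (1 + Real.log n) / (n : ℝ) ^ 2) (by omega) hg hα (by positivity) (by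
      intro x y hx hxy hy hlen
      exact (hM n (qq P) x y hn2 hTB hxy hlen (fun θ hθ => hND θ
        ⟨hx.trans hθ.1, hθ.2.trans hy⟩)).2)
  have hEn : En (qq P) 0 α ≤ Va (qq P) 0 α +
      ∫ θ in (0 : ℝ)..α, 1 / √(1 + (deriv (qq P) θ) ^ 2) := by
    unfold En Va
    rw [← intervalIntegral.integral_add (hc.abs.intervalIntegrable _ _)
      (hg.intervalIntegrable _ _)]
    apply intervalIntegral.integral_mono_on hα
    · exact ((continuous_const.add (hc.pow 2)).sqrt).intervalIntegrable _ _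
    · exact (hc.abs.add hg).intervalIntegrable _ _
    · intro θ _
      exact p5_pt _
  have h1 : (n * (α - 0) + 2) * (K * (1 + Real.log n) / (n : ℝ) ^ 2) ≤ 1 / 5 := by
    have h2 : (n : ℝ) * (α - 0) + 2 ≤ 6 * n := by
      have : α - 0 ≤ 4 := by linarith [Real.pi_le_four]
      nlinarith
    have h3 : 0 ≤ K * (1 + Real.log n) / (n : ℝ) ^ 2 := by positivity
    have h4 : K * (1 + Real.log n) ≤ 1 / 5 / 6 * n := by
      have := mul_le_mul_of_nonneg_left hsm hK.le
      calc K * (1 + Real.log n) ≤ K * (1 / 5 / (6 * K) * n) := this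
        _ = 1 / 5 / 6 * n := by field_simp
    calc (n * (α - 0) + 2) * (K * (1 + Real.log n) / (n : ℝ) ^ 2)
        ≤ (6 * n) * (K * (1 + Real.log n) / (n : ℝ) ^ 2) := mul_le_mul_of_nonneg_right h2 h3
      _ ≤ (6 * n) * ((1 / 5 / 6 * n) / (n : ℝ) ^ 2) := by
          apply mul_le_mul_of_nonneg_left _ (by positivity)
          exact div_le_div_of_nonneg_right h4 (by positivity)
      _ = 1 / 5 := by field_simp
  linarith

theorem x4 (hO1 : O1) (_hP1z : P1z) (hP2 : P2) (hX1 : X1) (hC1 : C1) (hC2 : C2) (hM1 : M1)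
    (hA2 : A2) (hVF6 : VF6) : X4 := by
  intro δ hδ hδ4
  obtain ⟨K, hK, hM⟩ := hM1
  obtain ⟨n0, hn0⟩ := hO1 δ hδ hδ4
  obtain ⟨n1, hn1⟩ := p5_small (1 / 5 / (6 * K)) (by positivity)
  obtain ⟨n2, hn2⟩ := exists_nat_ge (2000 / δ ^ 2)
  refine ⟨n0 + n1 + n2 + 3, fun n hn a s P ha1 ha2 hE hAlt hpar => ?_⟩
  have hnR : (3 : ℝ) ≤ n := by
    have : 3 ≤ n := by omega
    exact_mod_cast this
  have hnp : (0 : ℝ) < n := by linarith
  have hnδ : 2000 ≤ n * δ ^ 2 := by
    have h1 : (n2 : ℝ) ≤ n := by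
      have : n2 ≤ n := by omega
      exact_mod_cast this
    have h2 := hn2.trans h1
    rwa [div_le_iff₀ (by positivity)] at h2
  by_contra hs0
  have hs : 0 < s := lt_of_le_of_ne hpar.hs (Ne.symm hs0)
  have hdeg : P.natDegree ≤ n := natDegree_le_iff_degree_le.mpr hE.deg
  obtain ⟨hq, hlow, hup, -, -, hVa⟩ := hP2 n 1 s 0 P (by omega) hdeg hE.bdd hAlt hpar
  have hend := x4_end hpar hq
  have hdel := x4_delay n s (by omega) hs.le hlow
  have hode := x4_ode hpar.ode
  set φ0 := ∫ t in (0 : ℝ)..π, om n 1 s 0 t with hφ0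
  set x' := n * π - φ0 with hx'
  have hsq : √s ^ 2 = s := Real.sq_sqrt hs.le
  have hsp : 0 < √s := Real.sqrt_pos.2 hs
  have hx0 : 0 < x' := lt_of_lt_of_le (by positivity) hdel
  have hxπ : x' ≤ π := by
    rw [hx']
    linarith
  -- the bound for `s`
  have hns : n * √s ≤ 8 := by
    have := Real.pi_lt_d2
    nlinarith
  have hn2s : (n : ℝ) ^ 2 * s ≤ 64 := by
    have h1 : (n * √s) ^ 2 ≤ 8 ^ 2 := pow_le_pow_left₀ (by positivity) hns 2
    rw [mul_pow, hsq] at h1
    linarith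
  -- the left end point
  set α := arccos a with hα
  have hα0 : 0 < α := by
    rw [hα, Real.arccos_pos]
    linarith
  have hαπ : α < π := by
    rw [hα, Real.arccos_lt_pi]
    linarith
  have hcosα : cos α = a := Real.cos_arccos (by linarith) (by linarith)
  have hφα := p3_A2 n 1 s 0 δ α le_rfl hs.le le_rfl (by positivity) hδ hα0 hαπ (by
    rw [hcosα]; exact ha2)
  set φα := ∫ t in α..π, om n 1 s 0 t with hφα'
  have hδn : 8000 ≤ n * δ := by nlinarith
  have hsmall : π / 2 * (n * s / δ + n * s * s / (4 * δ ^ 2)) ≤ 1 / 10 := by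
    have h1 : n * s / δ ≤ 1 / 100 := by
      rw [div_le_iff₀ hδ]
      have h2 : n * (n * s) ≤ n * (1 / 100 * δ) := by nlinarith
      exact le_of_mul_le_mul_left h2 hnp
    have h2 : s / (4 * δ) ≤ 1 := by
      rw [div_le_one (by positivity)]
      have h3 : n * s ≤ 1 / 100 * δ := by rwa [div_le_iff₀ hδ] at h1
      nlinarith
    have h3 : n * s * s / (4 * δ ^ 2) = n * s / δ * (s / (4 * δ)) := by
      field_simp
    have h4 : 0 ≤ n * s / δ := by positivity
    have h5 : 0 ≤ s / (4 * δ) := by positivity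
    have h6 : n * s / δ * (s / (4 * δ)) ≤ 1 / 100 * 1 :=
      mul_le_mul h1 h2 h5 (by norm_num)
    rw [h3]
    have := Real.pi_lt_d2
    have h7 : 0 ≤ n * s / δ + n * s / δ * (s / (4 * δ)) := by positivity
    nlinarith
  -- comparison of the arc length with the variation
  have hTB : TB n (qq P) := hA2.2.1 n P hdeg hE.bdd
  have hND := hn0 n (by omega) a P ha1 ha2 hE
  have hEn := x4_En hA2 hK hM (by omega) hTB hα0.le hαπ.le hND (hn1 n (by omega) (by omega))
  have hlowarc := hC2 n a 1 P (by omega) (by linarith) (by linarith) le_rfl hE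
  have huparc := (hC1 P a 1 (by linarith) (by linarith) le_rfl).2
  rw [Real.arccos_one, mul_zero] at hlowarc
  rw [Real.arccos_one] at huparc
  have hlow' : VC (n * α) ≤ arc a 1 P := hlowarc
  have hVa' := hVa 0 α le_rfl hα0.le hαπ.le
  rw [← hφ0, ← hφα'] at hVa'
  have hV0 : VC φ0 = 2 * n - (1 - cos x') := by
    have h1 : φ0 = n * π - x' := by rw [hx']; ring
    rw [h1, x4_VCpi hVF6, hVF6.2.2.2.1 x' hx0.le hxπ]
  have hVα : 2 * n - VC (n * α) - 1 / 10 ≤ VC φα := by
    have h1 := hVF6.2.2.1 (n * π - n * α) φα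
    rw [x4_VCpi hVF6] at h1
    have h2 : |n * π - n * α - φα| ≤ 1 / 10 := by
      rw [abs_le]
      constructor <;> linarith [hφα.1, hφα.2]
    have h3 := (abs_le.1 (h1.trans h2)).2
    linarith
  have hcosx : 7 / 10 ≤ cos x' := by linarith
  have hx1 : x' ≤ 1 := by
    by_contra hcon
    push Not at hcon
    have h1 := Real.cos_lt_cos_of_nonneg_of_le_pi (by norm_num : (0 : ℝ) ≤ 1) hxπ hcon
    have h2 := Real.cos_one_le
    linarith
  -- the derivative at the end point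
  have hsin : 3 / 4 * x' ≤ sin x' := by
    have h1 := Real.sin_gt_sub_cube hx0
    have h2 : x' ^ 3 ≤ x' := by
      have h3 : x' ^ 2 ≤ 1 := pow_le_one₀ hx0.le hx1
      calc x' ^ 3 = x' * x' ^ 2 := by ring
        _ ≤ x' * 1 := mul_le_mul_of_nonneg_left h3 hx0.le
        _ = x' := mul_one _
    linarith
  have hsin2 : 0.09 * (n ^ 2 * s) ≤ sin x' ^ 2 := by
    have h1 : (3 / 4 * (0.4 * (n * √s))) ^ 2 ≤ sin x' ^ 2 := by
      apply pow_le_pow_left₀ (by positivity)
      linarith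
    have h2 : (3 / 4 * (0.4 * (n * √s))) ^ 2 = 0.09 * (n ^ 2 * √s ^ 2) := by ring
    rw [h2, hsq] at h1
    exact h1
  have hP1 : (n : ℝ) ^ 2 * sin x' ^ 2 = 2 * s * P.derivative.eval 1 ^ 2 := by
    rw [← hode, hend, ← Real.sin_sq_add_cos_sq x']
    ring
  have hder : 0.045 * (n : ℝ) ^ 4 ≤ P.derivative.eval 1 ^ 2 := by
    have h1 : s * (0.045 * (n : ℝ) ^ 4) ≤ s * P.derivative.eval 1 ^ 2 := by
      have h2 := mul_le_mul_of_nonneg_left hsin2 (sq_nonneg (n : ℝ))
      nlinarith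
    exact le_of_mul_le_mul_left h1 hs
  have hder2 : 0.2 * (n : ℝ) ^ 2 ≤ √(1 + P.derivative.eval 1 ^ 2) := by
    apply Real.le_sqrt_of_sq_le
    nlinarith [sq_nonneg ((n : ℝ) ^ 2)]
  have hne1 : |P.eval 1| ≠ 1 := by
    intro h1
    have h2 : P.eval 1 ^ 2 = 1 := by rw [← sq_abs, h1, one_pow]
    rw [hend] at h2
    have h3 : 0 < sin x' := lt_of_lt_of_le (by positivity) hsin
    nlinarith [Real.sin_sq_add_cos_sq x']
  have hfirst := x4_first hX1 (by omega) (by linarith) (by linarith) hE hne1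
  -- the derivative at the left end point
  have hda : √(1 + P.derivative.eval a ^ 2) ≤ 1 + n / δ := by
    have h1 := ((hA2.1 n (qq P) (by omega) hTB).2 α).2.2.1
    rw [(hA2.2.2 P α).1, hcosα, abs_neg, abs_mul] at h1
    have h2 : δ ≤ |sin α| := by
      rw [hα, Real.sin_arccos, abs_of_nonneg (Real.sqrt_nonneg _)]
      apply Real.le_sqrt_of_sq_le
      nlinarith
    have h3 : |P.derivative.eval a| ≤ n / δ := by
      rw [le_div_iff₀ hδ]
      have := mul_le_mul_of_nonneg_right h2 (abs_nonneg (P.derivative.eval a))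
      linarith
    rw [Real.sqrt_le_left (by positivity)]
    have h4 : P.derivative.eval a ^ 2 ≤ (n / δ) ^ 2 := by
      rw [← sq_abs]
      exact pow_le_pow_left₀ (abs_nonneg _) h3 2
    have h5 : 0 ≤ n / δ := by positivity
    nlinarith
  have hfin : (1 + a) * √(1 + P.derivative.eval a ^ 2) ≤ 2 * (1 + n / δ) := by
    have h1 : (1 + a) * √(1 + P.derivative.eval a ^ 2) ≤
        2 * √(1 + P.derivative.eval a ^ 2) :=
      mul_le_mul_of_nonneg_right (by linarith) (Real.sqrt_nonneg _)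
    have h2 : 2 * √(1 + P.derivative.eval a ^ 2) ≤ 2 * (1 + n / δ) :=
      mul_le_mul_of_nonneg_left hda (by norm_num)
    exact h1.trans h2
  have hnd : n / δ ≤ n * n / 8000 := by
    rw [div_le_div_iff₀ hδ (by norm_num)]
    have := mul_le_mul_of_nonneg_left hδn hnp.le
    linarith
  have hnn : (100 : ℝ) ≤ n ^ 2 := by
    have h0 : (n : ℝ) * δ ≤ n * (1 / 4) := mul_le_mul_of_nonneg_left hδ4 hnp.le
    have h1 : (10 : ℝ) ≤ n := by linarith
    have h2 := pow_le_pow_left₀ (by norm_num) h1 2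
    norm_num at h2
    exact h2
  have hnn' : (n : ℝ) * n = n ^ 2 := (sq _).symm
  rw [hnn'] at hnd
  linarith

end

end Pool.Agent.Helper10.AL
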