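import Pool.Agent.Helper10.AL.St6
import Pool.Agent.Helper10.AL.P.MainX
import Pool.Agent.Helper10.AL.P.MainO

/-!
Windows with an end point in common with `[-1,1]`, all lengths, large degree: the extremal
polynomials are the Chebyshev polynomials.
-/

set_option autoImplicit false

namespace Pool.Agent.Helper10.AL

open Polynomial Set Real MeasureTheory intervalIntegral
open Pool.Agent.Helper40.AS (arc Bdd Ext quad)
open Pool.Agent.Helper40

/-- the last step: a polynomial with `n` alternation points which is extremal for a window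
`[a, 1]` and has no critical points outside `(-1, 1)` is a Chebyshev polynomial -/
theorem mainU_step (hP1 : P1) (hTE : TE) {n : ℕ} (hn : 3 ≤ n) {a : ℝ} {P : ℝ[X]}
    (hP : Ext n a 1 P) (hAlt : Alt n P) (k1 : ∀ y : ℝ, 1 ≤ |y| → P.derivative.eval y ≠ 0)
    (k2 : n ≤ P.natDegree) (k3 : |P.eval (-1)| = 1) (k4 : P.derivative.eval (-1) ≠ 0)
    (k5 : ∀ s : ℝ, Par n 1 s 0 P → s = 0) : mainX_IsT n P := by
  have hdeg : P.natDegree ≤ n := natDegree_le_iff_degree_le.2 hP.deg
  rcases hP1 n P (by omega) hdeg hP.bdd hAlt with hT | ⟨c, s, p, hpar | hpar⟩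
  · exfalso
    have e : ((n : ℤ) - 1) = ((n - 1 : ℕ) : ℤ) := by omega
    have hnd : P.natDegree = n - 1 := by
      rcases hT with h | h
      · rw [h, e, Chebyshev.natDegree_T]
        simp
      · rw [h, natDegree_neg, e, Chebyshev.natDegree_T]
        simp
    omega
  · rcases hpar.cas with ⟨hc, hp⟩ | ⟨hc, hd, -⟩
    · subst hc hp
      have hs := k5 s hpar
      subst hs
      refine hTE n P (by omega) hpar.hm (fun h => k4 (by rw [h, eval_zero])) (fun x hx => ?_)
      have := hpar.ode x hx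
      simpa using this
    · exact absurd hd (k1 c (by rw [abs_of_pos (by linarith)]; exact hc.le))
  · have hder : ∀ x : ℝ, (P.comp (-X)).derivative.eval x = -P.derivative.eval (-x) := by
      intro x
      rw [derivative_comp]
      simp
    have hY : mainX_IsT n (P.comp (-X)) := by
      rcases hpar.cas with ⟨hc, hp⟩ | ⟨hc, hd, -⟩
      · subst hc hp
        have h5 : C ((n : ℝ) ^ 2) * (1 - (P.comp (-X)) ^ 2) =
            (1 - X + C s) * ((1 + X) * (P.comp (-X)).derivative ^ 2) := by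
          apply mainX_eq
          intro x hx
          have h6 := hpar.ode x hx
          have h7 : (1 : ℝ) - x ≠ 0 := by linarith [hx.2]
          simp only [eval_mul, eval_C, eval_sub, eval_one, eval_pow, eval_add, eval_X]
          rw [h6]
          field_simp
          ring
        have h8 := congrArg (fun Q : ℝ[X] => Q.eval 1) h5
        simp only [eval_mul, eval_C, eval_sub, eval_one, eval_pow, eval_add, eval_X] at h8
        rw [hder] at h8
        have h9 : (P.comp (-X)).eval 1 ^ 2 = 1 := by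
          rw [eval_comp, eval_neg, eval_X]
          have : |P.eval (-1)| ^ 2 = 1 := by rw [k3]; norm_num
          rwa [sq_abs] at this
        rw [h9] at h8
        have h10 : s * (2 * (P.derivative.eval (-1)) ^ 2) = 0 := by
          have : (n : ℝ) ^ 2 * (1 - 1) = s * (2 * (P.derivative.eval (-1)) ^ 2) := by
            rw [h8]; ring
          rw [← this]; ring
        have hs : s = 0 := by
          rcases mul_eq_zero.1 h10 with h | h
          · exact h
          · exfalso
            exact k4 (by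
              have : (P.derivative.eval (-1)) ^ 2 = 0 := by linarith
              exact pow_eq_zero_iff (two_ne_zero) |>.1 this)
        subst hs
        refine hTE n _ (by omega) hpar.hm (fun h => ?_) (fun x hx => ?_)
        · have h11 := hder 1
          rw [h, eval_zero] at h11
          exact k4 (by linarith)
        · have := hpar.ode x hx
          simpa using this
      · exfalso
        rw [hder] at hd
        refine k1 (-c) (by rw [abs_neg, abs_of_pos (by linarith)]; exact hc.le) (by linarith)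
    have h12 := mainX_refl hY
    rwa [Arc.comp_neg_neg] at h12

theorem mainU_core (hMainX : MainX) (hHalf : Half) (hUZ1 : UZ1) (hUZ2 : UZ2) (hU1 : U1)
    (hU2 : U2) (hI1g : I1g) (hP1 : P1) (hTE : TE) (hX3u : X3u) (hX4u : X4u) (hA2 : A2) :
    ∃ n0 : ℕ, ∀ n ≥ n0, ∀ (a : ℝ) (P : ℝ[X]), -1 ≤ a → a < 1 → Ext n a 1 P →
      mainX_IsT n P := by
  obtain ⟨δ1, hδ1, n1, h1⟩ := hUZ1
  obtain ⟨δ2, hδ2, n2, h2⟩ := hUZ2
  obtain ⟨n3, h3⟩ := hU1
  obtain ⟨n4, h4⟩ := hU2
  obtain ⟨n5, h5⟩ := hX4u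
  obtain ⟨δ, hδ, e1, e2, e3⟩ : ∃ δ : ℝ, 0 < δ ∧ δ ≤ δ1 ∧ δ ≤ δ2 ∧ δ ≤ 1 / 4 :=
    ⟨min (min δ1 δ2) (1 / 4), lt_min (lt_min hδ1 hδ2) (by norm_num),
      (min_le_left _ _).trans (min_le_left _ _), (min_le_left _ _).trans (min_le_right _ _),
      min_le_right _ _⟩
  obtain ⟨n6, h6⟩ := hMainX δ hδ
  refine ⟨n1 + n2 + n3 + n4 + n5 + n6 + 3, fun n hn a P ha1 ha2 hP => ?_⟩
  rcases eq_or_lt_of_le ha1 with h0 | h0
  · exact (hHalf n a 1 P (by omega) (Or.inr (Or.inr ⟨h0.symm, rfl⟩)) hP).1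
  rcases le_or_gt (-1 + δ) a with hd | hd
  · exact (h6 n (by omega) a 1 P (Or.inl ⟨hd, ha2, rfl⟩)).1 hP
  have ha0 : a ≤ 0 := by linarith
  have hreal := fun z hz => h1 n (by omega) a P z h0 (by linarith) hP hz
  obtain ⟨g1, g2⟩ := h2 n (by omega) a P h0 (by linarith) hP
  have hND := h3 n (by omega) a P ha1 ha0 hP
  have hcon := mainO_contact hA2 (by omega) h0 ha2 hP hND
    (fun θ hθ hd => h4 n (by omega) a θ P ha1 ha0 hP hθ hd)
  have hAlt : Alt n P := by
    refine hI1g n a 1 P (by omega) ha1 ha2 le_rfl hP hreal hcon (fun y1 y2 hy1 _ hdvd => ?_)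
      (fun _ => g2) (by omega)
    obtain ⟨Q, hQ⟩ := hdvd
    apply g2 y1 hy1
    rw [hQ]
    simp
  obtain ⟨k3, k4⟩ := hX3u n a P (by omega) h0 ha2 hP
  exact mainU_step hP1 hTE (by omega) hP hAlt g2 g1 k3 k4
    (fun s hs => h5 n (by omega) a s P h0 ha0 hP hAlt hs)

theorem mainU (hMainX : MainX) (hHalf : Half) (hUZ1 : UZ1) (hUZ2 : UZ2) (hU1 : U1) (hU2 : U2)
    (hI1g : I1g) (hP1 : P1) (hTE : TE) (hX0 : X0) (hX3u : X3u) (hX4u : X4u) (hA1 : A1)
    (hA2 : A2) : MainU := by
  have _ := hA1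
  obtain ⟨n0, h0⟩ := mainU_core hMainX hHalf hUZ1 hUZ2 hU1 hU2 hI1g hP1 hTE hX3u hX4u hA2
  obtain ⟨hx1, hx2, hx3⟩ := hX0
  -- the windows `[a, 1]`
  have key : ∀ n ≥ n0, ∀ (a : ℝ) (P : ℝ[X]), -1 ≤ a → a < 1 →
      (Ext n a 1 P ↔ mainX_IsT n P) := by
    intro n hn a P ha1 ha2
    refine ⟨fun h => h0 n hn a P ha1 ha2 h, fun h => ?_⟩
    obtain ⟨Q, hQ⟩ := hx1 n a 1 ha2.le
    have hQ2 := hx2 n a 1 Q hQ
    rcases h0 n hn a Q ha1 ha2 hQ with h5 | h5
    · rcases h with h | h
      · rw [h, ← h5]; exact hQ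
      · rw [h, ← h5]; exact hQ2
    · rcases h with h | h
      · rw [h, ← neg_neg (Chebyshev.T ℝ (n : ℤ)), ← h5]; exact hQ2
      · rw [h, ← h5]; exact hQ
  refine ⟨n0, fun n hn a b P hab => ?_⟩
  rcases hab with ⟨ha1, ha2, rfl⟩ | ⟨rfl, hb1, hb2⟩
  · exact key n hn a P ha1 ha2
  · constructor
    · intro h
      have h1 := hx3 n (-1) b P h
      rw [neg_neg] at h1
      have h2 := mainX_refl ((key n hn (-b) _ (by linarith) (by linarith)).1 h1)
      rwa [Arc.comp_neg_neg] at h2
    · intro h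
      have h1 := (key n hn (-b) _ (by linarith) (by linarith)).2 (mainX_refl h)
      have h2 := hx3 n (-b) 1 _ h1
      rwa [Arc.comp_neg_neg, neg_neg] at h2

end Pool.Agent.Helper10.AL
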