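import Pool.Agent.Helper10.AL.St6
import Mathlib.Analysis.Complex.Poisson

/-!
Poisson integral of a polynomial which is small on an arc.
-/

set_option autoImplicit false

namespace Pool.Agent.Helper10.AL

open Polynomial Set Real MeasureTheory intervalIntegral

/-- the Poisson kernel on the unit circle in terms of the angle -/
noncomputable def po_k (ξ : ℂ) (θ : ℝ) : ℝ :=
  (1 - ‖ξ‖ ^ 2) / ‖Complex.exp (θ * Complex.I) - ξ‖ ^ 2

lemma po_norm_exp (θ : ℝ) : ‖Complex.exp (θ * Complex.I)‖ = 1 :=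
  Complex.norm_exp_ofReal_mul_I θ

lemma po_ne {ξ : ℂ} (h : ‖ξ‖ < 1) (θ : ℝ) : 0 < ‖Complex.exp (θ * Complex.I) - ξ‖ := by
  rw [norm_pos_iff, sub_ne_zero]
  intro e
  have := po_norm_exp θ
  rw [e] at this
  linarith

lemma po_k_nonneg {ξ : ℂ} (h : ‖ξ‖ < 1) (θ : ℝ) : 0 ≤ po_k ξ θ := by
  have h1 : ‖ξ‖ ^ 2 ≤ 1 := by nlinarith [norm_nonneg ξ]
  exact div_nonneg (by linarith) (by positivity)

lemma po_k_cont {ξ : ℂ} (h : ‖ξ‖ < 1) : Continuous (po_k ξ) := by
  unfold po_k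
  refine Continuous.div continuous_const (by fun_prop) ?_
  intro θ
  have := po_ne h θ
  positivity

lemma po_formula {ξ : ℂ} (h : ‖ξ‖ < 1) (F : ℂ[X]) :
    (2 * π)⁻¹ • ∫ θ in (0 : ℝ)..(2 * π), po_k ξ θ • F.eval (Complex.exp (θ * Complex.I)) =
      F.eval ξ := by
  have hd : DiffContOnCl ℂ (fun z => F.eval z) (Metric.ball (0 : ℂ) 1) :=
    (F.differentiable).diffContOnCl
  have hw : ξ ∈ Metric.ball (0 : ℂ) 1 := by simpa using h
  have h1 := DiffContOnCl.circleAverage_poissonKernel_smul' hd hw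
  rw [← h1, Real.circleAverage_def]
  congr 1
  refine intervalIntegral.integral_congr ?_
  intro θ _
  simp only [circleMap, zero_add, Complex.ofReal_one, one_mul, sub_zero, po_k, po_norm_exp,
    one_pow]

lemma po_mean {ξ : ℂ} (h : ‖ξ‖ < 1) : ∫ θ in (0 : ℝ)..(2 * π), po_k ξ θ = 2 * π := by
  have h1 := po_formula h (1 : ℂ[X])
  simp only [eval_one] at h1
  have h2 : ∫ θ in (0 : ℝ)..(2 * π), po_k ξ θ • (1 : ℂ) =
      ((∫ θ in (0 : ℝ)..(2 * π), po_k ξ θ : ℝ) : ℂ) := by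
    rw [← intervalIntegral.integral_ofReal]
    refine intervalIntegral.integral_congr ?_
    intro θ _
    simp
  rw [h2] at h1
  have h3 : (((2 * π)⁻¹ * ∫ θ in (0 : ℝ)..(2 * π), po_k ξ θ : ℝ) : ℂ) = ((1 : ℝ) : ℂ) := by
    rw [Complex.ofReal_one, ← h1, Complex.real_smul]
    push_cast
    ring
  have h4 := Complex.ofReal_injective h3
  have hpi := Real.pi_pos
  field_simp at h4
  linarith

theorem po : Po := by
  intro F ξ τ ε d hτ0 hτ hε hd hξ h2 hs hg
  have hpi := Real.pi_pos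
  set c : ℝ := 2 * ((1 - ‖ξ‖ ^ 2) / d ^ 2) with hc
  have hx : ‖ξ‖ ^ 2 ≤ 1 := by nlinarith [norm_nonneg ξ]
  have hcont : Continuous fun θ : ℝ => po_k ξ θ * ‖F.eval (Complex.exp (θ * Complex.I))‖ := by
    refine (po_k_cont hξ).mul ?_
    have : Continuous fun z : ℂ => F.eval z := F.continuous
    fun_prop
  have hke : Continuous fun θ : ℝ => ε * po_k ξ θ := continuous_const.mul (po_k_cont hξ)
  have e1 : ‖F.eval ξ‖ ≤ (2 * π)⁻¹ *
      ∫ θ in (0 : ℝ)..(2 * π), po_k ξ θ * ‖F.eval (Complex.exp (θ * Complex.I))‖ := by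
    rw [← po_formula hξ F, norm_smul, Real.norm_of_nonneg (by positivity)]
    refine mul_le_mul_of_nonneg_left ?_ (by positivity)
    refine (intervalIntegral.norm_integral_le_integral_norm (by positivity)).trans (le_of_eq ?_)
    refine intervalIntegral.integral_congr ?_
    intro θ _
    simp only [norm_smul, Real.norm_of_nonneg (po_k_nonneg hξ θ)]
  have hsm : ∀ θ : ℝ, ‖F.eval (Complex.exp (θ * Complex.I))‖ ≤ ε →
      po_k ξ θ * ‖F.eval (Complex.exp (θ * Complex.I))‖ ≤ ε * po_k ξ θ := by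
    intro θ h
    have := mul_le_mul_of_nonneg_left h (po_k_nonneg hξ θ)
    linarith
  have i1 : ∫ θ in (0 : ℝ)..τ, po_k ξ θ * ‖F.eval (Complex.exp (θ * Complex.I))‖ ≤
      ∫ θ in (0 : ℝ)..τ, ε * po_k ξ θ := by
    refine intervalIntegral.integral_mono_on hτ0 (hcont.intervalIntegrable _ _)
      (hke.intervalIntegrable _ _) ?_
    intro θ hθ
    exact hsm θ (hs θ (by rw [abs_of_nonneg hθ.1]; exact hθ.2))
  have i2 : ∫ θ in τ..(2 * π - τ), po_k ξ θ * ‖F.eval (Complex.exp (θ * Complex.I))‖ ≤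
      ∫ θ in τ..(2 * π - τ), (ε * po_k ξ θ + c) := by
    refine intervalIntegral.integral_mono_on (by linarith) (hcont.intervalIntegrable _ _)
      ((hke.add continuous_const).intervalIntegrable _ _) ?_
    intro θ hθ
    have a1 : po_k ξ θ ≤ (1 - ‖ξ‖ ^ 2) / d ^ 2 := by
      unfold po_k
      refine div_le_div_of_nonneg_left (by linarith) (by positivity) ?_
      have := hg θ hθ
      rw [norm_sub_rev] at this
      exact pow_le_pow_left₀ hd.le this 2
    have a2 : po_k ξ θ * ‖F.eval (Complex.exp (θ * Complex.I))‖ ≤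
        (1 - ‖ξ‖ ^ 2) / d ^ 2 * 2 :=
      mul_le_mul a1 (h2 θ) (norm_nonneg _) (div_nonneg (by linarith) (by positivity))
    have a3 : 0 ≤ ε * po_k ξ θ := mul_nonneg hε (po_k_nonneg hξ θ)
    rw [hc]
    linarith
  have i3 : ∫ θ in (2 * π - τ)..(2 * π), po_k ξ θ * ‖F.eval (Complex.exp (θ * Complex.I))‖ ≤
      ∫ θ in (2 * π - τ)..(2 * π), ε * po_k ξ θ := by
    refine intervalIntegral.integral_mono_on (by linarith) (hcont.intervalIntegrable _ _)
      (hke.intervalIntegrable _ _) ?_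
    intro θ hθ
    refine hsm θ ?_
    have e : Complex.exp (θ * Complex.I) = Complex.exp (((θ - 2 * π : ℝ) : ℂ) * Complex.I) := by
      push_cast
      rw [sub_mul, Complex.exp_sub, Complex.exp_two_pi_mul_I, div_one]
    rw [e]
    refine hs _ ?_
    rw [abs_le]
    constructor <;> linarith [hθ.1, hθ.2]
  have s1 : ∫ θ in (0 : ℝ)..(2 * π), po_k ξ θ * ‖F.eval (Complex.exp (θ * Complex.I))‖ =
      (∫ θ in (0 : ℝ)..τ, po_k ξ θ * ‖F.eval (Complex.exp (θ * Complex.I))‖) +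
      (∫ θ in τ..(2 * π - τ), po_k ξ θ * ‖F.eval (Complex.exp (θ * Complex.I))‖) +
      ∫ θ in (2 * π - τ)..(2 * π), po_k ξ θ * ‖F.eval (Complex.exp (θ * Complex.I))‖ := by
    rw [intervalIntegral.integral_add_adjacent_intervals (hcont.intervalIntegrable _ _)
      (hcont.intervalIntegrable _ _), intervalIntegral.integral_add_adjacent_intervals
      (hcont.intervalIntegrable _ _) (hcont.intervalIntegrable _ _)]
  have s2 : ∫ θ in (0 : ℝ)..(2 * π), ε * po_k ξ θ =
      (∫ θ in (0 : ℝ)..τ, ε * po_k ξ θ) + (∫ θ in τ..(2 * π - τ), ε * po_k ξ θ) +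
      ∫ θ in (2 * π - τ)..(2 * π), ε * po_k ξ θ := by
    rw [intervalIntegral.integral_add_adjacent_intervals (hke.intervalIntegrable _ _)
      (hke.intervalIntegrable _ _), intervalIntegral.integral_add_adjacent_intervals
      (hke.intervalIntegrable _ _) (hke.intervalIntegrable _ _)]
  have s3 : ∫ θ in τ..(2 * π - τ), (ε * po_k ξ θ + c) =
      (∫ θ in τ..(2 * π - τ), ε * po_k ξ θ) + (2 * π - τ - τ) * c := by
    rw [intervalIntegral.integral_add (hke.intervalIntegrable _ _)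
      (continuous_const.intervalIntegrable _ _), intervalIntegral.integral_const, smul_eq_mul]
  have s4 : ∫ θ in (0 : ℝ)..(2 * π), ε * po_k ξ θ = ε * (2 * π) := by
    rw [intervalIntegral.integral_const_mul, po_mean hξ]
  have tot : ∫ θ in (0 : ℝ)..(2 * π), po_k ξ θ * ‖F.eval (Complex.exp (θ * Complex.I))‖ ≤
      ε * (2 * π) + (2 * π - τ - τ) * c := by
    rw [s1, ← s4, s2]
    linarith
  have fin : ‖F.eval ξ‖ ≤ (2 * π)⁻¹ * (ε * (2 * π) + (2 * π - τ - τ) * c) :=
    e1.trans (mul_le_mul_of_nonneg_left tot (by positivity))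
  have q1 : (2 * π)⁻¹ * (ε * (2 * π) + (2 * π - τ - τ) * c) = ε + (π - τ) * c / π := by
    field_simp
    ring
  rw [q1] at fin
  refine fin.trans ?_
  have q2 : c ≤ 4 * (1 - ‖ξ‖) / d ^ 2 := by
    rw [hc, ← mul_div_assoc]
    refine div_le_div_of_nonneg_right ?_ (by positivity)
    nlinarith [norm_nonneg ξ, sq_nonneg (1 - ‖ξ‖)]
  have q3 : (π - τ) * c / π ≤ (π - τ) * (4 * (1 - ‖ξ‖) / d ^ 2) / π :=
    div_le_div_of_nonneg_right (mul_le_mul_of_nonneg_left q2 (by linarith)) hpi.le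
  have q4 : (π - τ) * (4 * (1 - ‖ξ‖) / d ^ 2) / π = 4 * (π - τ) * (1 - ‖ξ‖) / (π * d ^ 2) := by
    field_simp
  linarith

end Pool.Agent.Helper10.AL
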