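import Pool.Agent.Helper10.AL.St6
import Pool.Agent.Helper10.AL.P.O1

/-!
Arc length of polynomials, piece U1: non-degeneracy for windows `[a, 1]` with `a ≤ 0`.
-/

set_option autoImplicit false

namespace Pool.Agent.Helper10.AL

open Polynomial Set Real MeasureTheory intervalIntegral Filter
open Pool.Agent.Helper40.AS (arc Bdd Ext quad)

noncomputable section

theorem u1 (_hA1 : A1) (hA2 : A2) (hB3 : B3) (hB7 : B7) (hC1 : C1) (hC2 : C2) (hLS : LS)
    (hN1 : N1) (hVF1 : VF1) (hVF2 : VF2) : U1 := by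
  obtain ⟨n0, hn0⟩ := o1_small
  refine ⟨max n0 4, fun n hn a P ha0 ha1 hE => ?_⟩
  have hnn : n0 ≤ n := le_trans (le_max_left _ _) hn
  have hn4 : 4 ≤ n := le_trans (le_max_right _ _) hn
  have hnR : (4 : ℝ) ≤ n := by exact_mod_cast hn4
  have hnpos : (0 : ℝ) < n := by linarith
  intro θ hθ hd
  by_contra hdd
  rw [not_le] at hdd
  obtain ⟨ψ, μ, hψ0, hψ1, hψ2, hμ0, hμ1, hcos, hsin⟩ := o1_psi
  have hdeg : P.natDegree ≤ n := natDegree_le_iff_degree_le.mpr hE.deg
  have hTB := hA2.2.1 n P hdeg hE.bdd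
  have hpi : 3 < π := pi_gt_three
  have hα0 : π / 2 ≤ arccos a := by
    rw [← arccos_zero]
    exact arccos_le_arccos ha1
  have hα1 : arccos a ≤ π := arccos_le_pi a
  set α := arccos a with hα
  obtain ⟨hθ1, hθ2⟩ := hθ
  have h32 : 3.2 / (n : ℝ) < π / 2 := by
    rw [div_lt_iff₀ hnpos]
    nlinarith
  have hd0 : deriv (qq P) 0 = 0 := by
    rw [(hA2.2.2 P 0).1, sin_zero, zero_mul, neg_zero]
  -- lower bound
  have hC := (hC1 P a 1 (by linarith) (by linarith) le_rfl).2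
  have hlow := hC2 n a 1 P (by omega) (by linarith) (by linarith) le_rfl hE
  rw [arccos_one] at hC
  rw [arccos_one, mul_zero, ← hα] at hlow
  have hV := (hVF2 (n * α) (mul_nonneg hnpos.le (by linarith))).2
  have hlow2 : 2 / π * (n * α) - cs / 2 ≤ En (qq P) 0 α := by
    have : VC (n * α) = ∫ s in (0 : ℝ)..(n * α), |sin s| := rfl
    rw [this] at hV
    linarith
  have hsm := hn0 n hnn
  have her := o1_er n (by omega)
  have hcs := hVF1.2
  have hcs0 := hVF1.1
  have hπ : (1.0185 : ℝ) ≤ 2 / π * 1.6 := by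
    have := pi_lt_d4
    have hp : 0 < π := pi_pos
    rw [div_mul_eq_mul_div, le_div_iff₀ hp]
    nlinarith
  have hN := hN1 μ ψ hμ0 hμ1 hψ0 hψ1
  have hc1 : |deriv (qq P) θ| ≤ n * -cos ψ := by rw [hcos]; linarith
  have hc2 : |deriv (deriv (qq P)) θ| ≤ (n : ℝ) ^ 2 * (μ * sin ψ) := by rw [hsin]; linarith
  by_cases hcase : 1.6 / (n : ℝ) ≤ θ
  · -- interior
    have hL := (hLS n (qq P) θ ψ μ 1.6 (2 / π * 1.6 - 0.385) hn4 hTB hψ0 hψ2 hμ0 hc1 hc2
      (by norm_num) (by linarith [hN.1]) hN.2 (by linarith)).1 0 α hd0 (by linarith) hθ2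
      (by linarith)
    rw [sub_zero] at hL
    have e1 : 2 * 1.6 / (n : ℝ) = 3.2 / n := by norm_num
    rw [e1] at hL
    linarith
  · -- near the end point
    rw [not_le] at hcase
    have e0 : θ - n * θ / n = 0 := by
      rw [mul_div_cancel_left₀ _ hnpos.ne', sub_self]
    have h7a := (hB7 n (qq P) θ ψ μ (n * θ) (by omega) hTB hψ0 hψ2 hμ0 hc1 hc2
      (by positivity)).2
    rw [e0, mul_div_cancel_left₀ _ hnpos.ne'] at h7a
    have hnθ : (n : ℝ) * θ ≤ 1.6 := by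
      rw [lt_div_iff₀ hnpos] at hcase
      linarith
    have hnθ0 : 0 ≤ (n : ℝ) * θ := by positivity
    have hG : (∫ s in (0 : ℝ)..(n * θ), Gm μ ψ s) ≤ 2 / π * (n * θ) := by
      have h1 : (∫ s in (0 : ℝ)..(n * θ), Gm μ ψ s) ≤ ∫ s in (0 : ℝ)..(n * θ), 2 / π := by
        apply integral_mono_on hnθ0 ((o1_Gm_cont μ ψ).intervalIntegrable _ _)
          (continuous_const.intervalIntegrable _ _)
        intro s hs
        exact hN.2 s ⟨hs.1, le_trans hs.2 hnθ⟩
      rw [intervalIntegral.integral_const, sub_zero, smul_eq_mul] at h1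
      linarith
    have h7b := (hB7 n (qq P) θ ψ μ 1.6 (by omega) hTB hψ0 hψ2 hμ0 hc1 hc2
      (by norm_num)).1
    have h16 : 1.6 / (n : ℝ) + 1.6 / n = 3.2 / n := by ring
    have hR := (hB3 n (qq P) (θ + 1.6 / n) α hn4 hTB (by linarith) (by linarith)).1
    have hs1 := o1_add hA2 P 0 θ (θ + 1.6 / n)
    have hs2 := o1_add hA2 P 0 (θ + 1.6 / n) α
    have e2 : (n : ℝ) * (α - (θ + 1.6 / n)) = n * α - n * θ - 1.6 := by
      field_simp
      ring
    rw [e2] at hR
    have e3 : 2 / π * (n * α - n * θ - 1.6) = 2 / π * (n * α) - 2 / π * (n * θ) - 2 / π * 1.6 := by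
      ring
    rw [e3] at hR
    linarith [hN.1]

end

end Pool.Agent.Helper10.AL
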