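import Pool.Agent.Helper10.AL.St6

/-!
Piece U4: closeness to the Chebyshev polynomial on the window.
-/

set_option autoImplicit false

namespace Pool.Agent.Helper10.AL

open Polynomial Set Real MeasureTheory intervalIntegral
open Pool.Agent.Helper40.AS (arc Bdd Ext quad)

noncomputable section

/-- phase on a full oscillation -/
theorem u4_piece (hB1 : B1) (n m : ℕ) (f : ℝ → ℝ) (u v θ δ : ℝ) (hn : 1 ≤ n) (hf : TB n f)
    (hu : f u = 1) (hv : f v = -1) (hd : ∀ x ∈ Ioo u v, deriv f x ≠ 0) (hθ : θ ∈ Icc u v)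
    (h1 : |n * u - m * π| ≤ δ) (h2 : |n * v - (m + 1) * π| ≤ δ) :
    |f θ - (-1) ^ m * cos (n * θ)| ≤ δ := by
  have hb1 := (hB1 n f u θ hn hf hθ.1 (fun x hx => hd x ⟨hx.1, lt_of_lt_of_le hx.2 hθ.2⟩)).1
  have hb2 := (hB1 n f θ v hn hf hθ.2 (fun x hx => hd x ⟨lt_of_le_of_lt hθ.1 hx.1, hx.2⟩)).1
  rw [hu, Real.arccos_one, sub_zero] at hb1
  rw [hv, Real.arccos_neg_one] at hb2
  have h3 := abs_le.1 hb1
  have h4 := abs_le.1 hb2
  have h5 := abs_le.1 h1
  have h6 := abs_le.1 h2
  have h7 := abs_le.1 (hf.2 θ)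
  have h8 := abs_cos_sub_cos_le (arccos (f θ)) (n * θ - m * π)
  rw [Real.cos_arccos h7.1 h7.2, Real.cos_sub_nat_mul_pi] at h8
  refine h8.trans ?_
  rw [abs_le]
  constructor
  · nlinarith [h4.2, h6.2]
  · nlinarith [h3.2, h5.1]

/-- a function without interior critical point is at most the larger value at the ends -/
theorem u4_max (f : ℝ → ℝ) (u v θ : ℝ) (hc : Continuous f)
    (hd : ∀ x ∈ Ioo u v, deriv f x ≠ 0) (hθ : θ ∈ Icc u v) : f θ ≤ max (f u) (f v) := by
  obtain ⟨x, hx, hm⟩ := (isCompact_Icc (a := u) (b := v)).exists_isMaxOn ⟨θ, hθ⟩ hc.continuousOn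
  have h1 : f θ ≤ f x := hm hθ
  rcases eq_or_lt_of_le hx.1 with h | h
  · rw [← h] at h1
    exact h1.trans (le_max_left _ _)
  rcases eq_or_lt_of_le hx.2 with h' | h'
  · rw [h'] at h1
    exact h1.trans (le_max_right _ _)
  exfalso
  refine hd x ⟨h, h'⟩ ?_
  exact (hm.isLocalMax (Icc_mem_nhds h h')).deriv_eq_zero

/-- growth away from a non-degenerate critical point -/
theorem u4_grow (n : ℕ) (hn : 1 ≤ n) (h : ℝ → ℝ) (hd0 : Differentiable ℝ h)
    (hd1 : Differentiable ℝ (deriv h)) (hd2 : Differentiable ℝ (deriv (deriv h)))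
    (h3 : ∀ x, |deriv (deriv (deriv h)) x| ≤ (n : ℝ) ^ 3) (h0 : deriv h 0 = 0)
    (h2 : (n : ℝ) ^ 2 / 1000 ≤ deriv (deriv h) 0) :
    h 0 + 1 / 16000000000 ≤ h (1 / (2000 * n)) := by
  have hn0 : (0 : ℝ) < n := by exact_mod_cast hn
  set L : ℝ := 1 / (2000 * n) with hL
  have hL0 : 0 < L := by positivity
  have e2 : ∀ x ∈ Icc 0 L, (n : ℝ) ^ 2 / 2000 ≤ deriv (deriv h) x := by
    intro x hx
    have h4 := Convex.norm_image_sub_le_of_norm_deriv_le (f := deriv (deriv h)) (s := Icc 0 L)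
      (C := (n : ℝ) ^ 3) (x := 0) (y := x) (fun y _ => hd2 y) (fun y _ => h3 y)
      (convex_Icc 0 L) ⟨le_rfl, hL0.le⟩ hx
    rw [Real.norm_eq_abs, Real.norm_eq_abs, sub_zero, abs_of_nonneg hx.1] at h4
    have h5 := (abs_le.1 h4).1
    have h6 : (n : ℝ) ^ 3 * x ≤ (n : ℝ) ^ 2 / 2000 := by
      have h7 : (n : ℝ) ^ 3 * x ≤ (n : ℝ) ^ 3 * L := by
        apply mul_le_mul_of_nonneg_left hx.2 (by positivity)
      have h8 : (n : ℝ) ^ 3 * L = (n : ℝ) ^ 2 / 2000 := by
        rw [hL]
        field_simp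
      linarith
    linarith
  have hmem : (0 : ℝ) ∈ Icc 0 L := ⟨le_rfl, hL0.le⟩
  have e1 : ∀ x ∈ Icc 0 L, (n : ℝ) ^ 2 / 2000 * x ≤ deriv h x := by
    have hm : MonotoneOn (fun x => deriv h x - (n : ℝ) ^ 2 / 2000 * x) (Icc 0 L) := by
      apply monotoneOn_of_deriv_nonneg (convex_Icc 0 L)
      · exact (hd1.continuous.sub (continuous_const.mul continuous_id)).continuousOn
      · intro x _
        exact ((hd1 x).sub ((differentiableAt_const _).mul differentiableAt_id)).differentiableWithinAt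
      · intro x hx
        rw [interior_Icc] at hx
        have hd : HasDerivAt (fun x => deriv h x - (n : ℝ) ^ 2 / 2000 * x)
            (deriv (deriv h) x - (n : ℝ) ^ 2 / 2000 * 1) x :=
          (hd1 x).hasDerivAt.sub ((hasDerivAt_id x).const_mul _)
        rw [hd.deriv]
        have := e2 x ⟨hx.1.le, hx.2.le⟩
        linarith
    intro x hx
    have := hm hmem hx hx.1
    simp only [mul_zero, sub_zero, h0] at this
    linarith
  have hm : MonotoneOn (fun x => h x - (n : ℝ) ^ 2 / 4000 * x ^ 2) (Icc 0 L) := by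
    apply monotoneOn_of_deriv_nonneg (convex_Icc 0 L)
    · exact (hd0.continuous.sub (continuous_const.mul (continuous_pow 2))).continuousOn
    · intro x _
      exact ((hd0 x).sub ((differentiableAt_const _).mul
        (differentiableAt_id.pow 2))).differentiableWithinAt
    · intro x hx
      rw [interior_Icc] at hx
      have hd : HasDerivAt (fun x => h x - (n : ℝ) ^ 2 / 4000 * x ^ 2)
          (deriv h x - (n : ℝ) ^ 2 / 4000 * (2 * x)) x := by
        have hp : HasDerivAt (fun x : ℝ => x ^ 2) (2 * x) x := by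
          simpa using hasDerivAt_pow 2 x
        exact (hd0 x).hasDerivAt.sub (hp.const_mul _)
      rw [hd.deriv]
      have := e1 x ⟨hx.1.le, hx.2.le⟩
      linarith
  have hmL : L ∈ Icc 0 L := ⟨hL0.le, le_rfl⟩
  have hfin := hm hmem hmL hL0.le
  simp only [ne_eq, OfNat.ofNat_ne_zero, not_false_eq_true, zero_pow, mul_zero, sub_zero] at hfin
  have h9 : (n : ℝ) ^ 2 / 4000 * L ^ 2 = 1 / 16000000000 := by
    rw [hL]
    field_simp
    norm_num
  linarith

theorem u4_lim (K d : ℝ) (hd : 0 < d) : ∃ n0 : ℕ, ∀ n : ℕ, n0 ≤ n →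
    K * √((1 + Real.log n) / n) ≤ d ∧ K * ((1 + Real.log n) / n) ≤ d := by
  have h1 : Filter.Tendsto (fun n : ℕ => (1 : ℝ) / (n : ℝ)) Filter.atTop (nhds 0) :=
    tendsto_one_div_atTop_nhds_zero_nat
  have h2 : Filter.Tendsto (fun n : ℕ => Real.log (n : ℝ) / (n : ℝ)) Filter.atTop (nhds 0) := by
    have h3 := (isLittleO_log_id_atTop.tendsto_div_nhds_zero).comp
      (tendsto_natCast_atTop_atTop (R := ℝ))
    simpa [Function.comp_def] using h3
  have h3 : Filter.Tendsto (fun n : ℕ => (1 + Real.log (n : ℝ)) / (n : ℝ)) Filter.atTop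
      (nhds 0) := by
    have h5 := h1.add h2
    simp only [add_zero] at h5
    refine h5.congr (fun n => ?_)
    ring
  have h4 : Filter.Tendsto (fun n : ℕ => K * ((1 + Real.log (n : ℝ)) / (n : ℝ))) Filter.atTop
      (nhds 0) := by
    simpa using h3.const_mul K
  have h5 : Filter.Tendsto (fun n : ℕ => K * √((1 + Real.log (n : ℝ)) / (n : ℝ))) Filter.atTop
      (nhds 0) := by
    have h6 := (Real.continuous_sqrt.tendsto 0).comp h3
    rw [Real.sqrt_zero] at h6
    simpa [Function.comp_def] using h6.const_mul K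
  have h7 := (h5.eventually (gt_mem_nhds hd)).and (h4.eventually (gt_mem_nhds hd))
  obtain ⟨n0, h⟩ := Filter.eventually_atTop.1 h7
  exact ⟨n0, fun n hn => ⟨(h n hn).1.le, (h n hn).2.le⟩⟩

/-- the interval is covered by the chain -/
theorem u4_cover (t : ℕ → ℝ) (θ : ℝ) : ∀ N : ℕ, 1 ≤ N → θ ∈ Icc (t 0) (t N) →
    ∃ i < N, θ ∈ Icc (t i) (t (i + 1)) := by
  intro N
  induction N with
  | zero => intro h; omega
  | succ N ih =>
    intro _ hθ
    rcases le_or_gt (t N) θ with h | h
    · exact ⟨N, by omega, h, hθ.2⟩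
    · rcases Nat.eq_zero_or_pos N with h0 | h0
      · subst h0
        exact absurd h (not_lt.2 hθ.1)
      · obtain ⟨i, hi, hm⟩ := ih h0 ⟨hθ.1, h.le⟩
        exact ⟨i, by omega, hm⟩

/-- small function with bounded second derivative -/
theorem u4_deriv (D : ℝ → ℝ) (τ M d h : ℝ) (hD0 : Differentiable ℝ D)
    (hD1 : Differentiable ℝ (deriv D)) (h2 : ∀ x, |deriv (deriv D) x| ≤ M)
    (h1 : ∀ x ∈ Icc 0 τ, |D x| ≤ d) (hh : 0 < h) (hτ : 2 * h ≤ τ) (θ : ℝ) (hθ : θ ∈ Icc 0 τ) :
    |deriv D θ| ≤ 2 * d / h + M * h := by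
  have key : ∀ a b : ℝ, a ∈ Icc 0 τ → b ∈ Icc 0 τ → b = a + h → θ ∈ Icc a b →
      |deriv D θ| ≤ 2 * d / h + M * h := by
    intro a b ha hb hab hθ'
    have hlt : a < b := by linarith
    obtain ⟨c, hc, hs⟩ := exists_deriv_eq_slope D hlt hD0.continuous.continuousOn
      (fun x _ => (hD0 x).differentiableWithinAt)
    have h3 : |deriv D c| ≤ 2 * d / h := by
      rw [hs, show b - a = h by linarith, abs_div, abs_of_pos hh]
      apply div_le_div_of_nonneg_right _ hh.le
      have h4 := abs_le.1 (h1 a ha)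
      have h5 := abs_le.1 (h1 b hb)
      rw [abs_le]
      constructor <;> linarith
    have h6 := Convex.norm_image_sub_le_of_norm_deriv_le (f := deriv D) (s := Icc a b)
      (C := M) (x := c) (y := θ) (fun y _ => hD1 y) (fun y _ => h2 y)
      (convex_Icc a b) ⟨hc.1.le, hc.2.le⟩ hθ'
    rw [Real.norm_eq_abs, Real.norm_eq_abs] at h6
    have hM : 0 ≤ M := le_trans (abs_nonneg _) (h2 0)
    have h7 : |θ - c| ≤ h := by
      rw [abs_le]
      constructor <;> linarith [hc.1, hc.2, hθ'.1, hθ'.2]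
    have h8 : M * |θ - c| ≤ M * h := mul_le_mul_of_nonneg_left h7 hM
    have h9 := abs_sub_abs_le_abs_sub (deriv D θ) (deriv D c)
    linarith
  rcases le_or_gt (θ + h) τ with h3 | h3
  · exact key θ (θ + h) hθ ⟨by linarith [hθ.1], h3⟩ rfl ⟨le_rfl, by linarith⟩
  · exact key (θ - h) θ ⟨by linarith, by linarith [hθ.2]⟩ hθ (by ring) ⟨by linarith, le_rfl⟩

theorem u4 (hA1 : A1) (hA2 : A2) (hB1 : B1) (hU1 : U1) (hU3 : U3) : U4 := by
  intro ε hε
  obtain ⟨K, hK, n1, hn1⟩ := hU3
  obtain ⟨n2, hn2⟩ := hU1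
  -- the small number
  obtain ⟨d, hd0, hd1, hd2, hd3⟩ : ∃ d : ℝ, 0 < d ∧ d ≤ ε ∧ 4 * √d ≤ ε ∧ d ≤ 1 / 4 := by
    refine ⟨min (min ε (1 / 4)) ((ε / 4) ^ 2), by positivity,
      (min_le_left _ _).trans (min_le_left _ _), ?_, (min_le_left _ _).trans (min_le_right _ _)⟩
    have h1 : √(min (min ε (1 / 4)) ((ε / 4) ^ 2)) ≤ √((ε / 4) ^ 2) :=
      Real.sqrt_le_sqrt (min_le_right _ _)
    rw [Real.sqrt_sq (by positivity)] at h1
    linarith
  obtain ⟨η, hη0, hη1, hη2⟩ : ∃ η : ℝ, 0 < η ∧ η ≤ 1 / 32000000000 ∧ η ≤ d ^ 2 / 8 :=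
    ⟨min (1 / 32000000000) (d ^ 2 / 8), by positivity, min_le_left _ _, min_le_right _ _⟩
  have hηd : η ≤ d := by nlinarith
  obtain ⟨n3, hn3⟩ := u4_lim K η hη0
  refine ⟨max (max n1 n2) (max n3 10), fun n hn a P ha ha0 hE => ?_⟩
  have hnn1 : n1 ≤ n := by
    have := le_max_left n1 n2
    have := le_max_left (max n1 n2) (max n3 10)
    omega
  have hnn2 : n2 ≤ n := by
    have := le_max_right n1 n2
    have := le_max_left (max n1 n2) (max n3 10)
    omega
  have hnn3 : n3 ≤ n := by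
    have := le_max_left n3 10
    have := le_max_right (max n1 n2) (max n3 10)
    omega
  have hn10 : 10 ≤ n := by
    have := le_max_right n3 10
    have := le_max_right (max n1 n2) (max n3 10)
    omega
  obtain ⟨hs1, hs2⟩ := hn3 n hnn3
  obtain ⟨N, t, hN, hch, ht0, htN, hall, hpos, hgap, hP1⟩ := hn1 n hnn1 a P ha ha0 hE
  have hnd := hn2 n hnn2 a P ha ha0 hE
  have hnR : (10 : ℝ) ≤ n := by exact_mod_cast hn10
  have hn0 : (0 : ℝ) < n := by linarith
  have h1n : 1 ≤ n := by omega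
  have htb := hA2.2.1 n P (natDegree_le_of_degree_le hE.deg) hE.bdd
  set q : ℝ → ℝ := qq P with hq
  have hpi3 := Real.pi_gt_three
  have hpi4 := Real.pi_lt_d2
  -- smoothness
  have hq0 : Differentiable ℝ q := ((hA1.1 n q htb.1).1 1).differentiable (by norm_num)
  have hTP1 : TP n (deriv q) := (hA1.1 n q htb.1).2.1
  have hq1 : Differentiable ℝ (deriv q) := ((hA1.1 n _ hTP1).1 1).differentiable (by norm_num)
  have hTP2 : TP n (deriv (deriv q)) := (hA1.1 n _ hTP1).2.1
  have hq2 : Differentiable ℝ (deriv (deriv q)) :=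
    ((hA1.1 n _ hTP2).1 1).differentiable (by norm_num)
  have hbern := (hA2.1 n q h1n htb).2
  have hq00 : deriv q 0 = 0 := by
    have := (hA2.2.2 P 0).1
    rw [Real.sin_zero, zero_mul, neg_zero] at this
    exact this
  have hq0v : q 0 = P.eval 1 := by
    rw [hq]
    unfold qq
    rw [Real.cos_zero]
  clear_value q
  -- increasing chain
  have hmono : ∀ i ≤ N, t 0 ≤ t i := by
    intro i
    induction i with
    | zero => intro _; exact le_rfl
    | succ i ih => intro h; exact (ih (by omega)).trans (hch.inc i (by omega)).le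
  -- sign
  obtain ⟨σ, hσ, hσ0⟩ : ∃ σ : ℝ, (σ = 1 ∨ σ = -1) ∧ q (t 0) = -σ := by
    rcases abs_eq (zero_le_one' ℝ) |>.1 (hch.con 0 (by omega)) with h | h
    · exact ⟨-1, Or.inr rfl, by rw [h]; ring⟩
    · exact ⟨1, Or.inl rfl, by rw [h]⟩
  have hσσ : σ * σ = 1 := by rcases hσ with h | h <;> rw [h] <;> ring
  have hσa : |σ| = 1 := by rcases hσ with h | h <;> rw [h] <;> simp
  -- values at the chain
  have hval : ∀ i ≤ N, q (t i) = σ * (-1) ^ (i + 1) := by
    intro i
    induction i with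
    | zero => intro _; rw [hσ0]; ring
    | succ i ih =>
      intro h
      have h1 := ih (by omega)
      have h2 : q (t (i + 1)) ≠ q (t i) := by
        intro h3
        obtain ⟨c, hc, hc0⟩ := exists_deriv_eq_zero (hch.inc i (by omega))
          hq0.continuous.continuousOn h3.symm
        exact hch.mon i (by omega) c hc hc0
      have h3 : |q (t (i + 1))| = |q (t i)| := by
        rw [hch.con _ h, hch.con i (by omega)]
      rcases abs_eq_abs.1 h3 with h4 | h4
      · exact absurd h4 h2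
      · rw [h4, h1]; ring
  have hg0 : |n * t 0 - π| ≤ η := by
    have := hpos 0 (by omega)
    simp only [Nat.cast_zero, zero_add, one_mul] at this
    exact this.trans hs1
  have hg0' := abs_le.1 hg0
  -- closeness on the chain
  have hA : ∀ θ ∈ Icc (t 0) (t N), |q θ - σ * cos (n * θ)| ≤ d := by
    intro θ hθ
    obtain ⟨i, hi, hm⟩ := u4_cover t θ N hN hθ
    have hc := hch.con i (by omega)
    have hv0 := hval i (by omega)
    have hv1 := hval (i + 1) (by omega)
    have hcc : q (t i) * q (t i) = 1 := by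
      rw [← abs_mul_abs_self, hc, one_mul]
    have htb2 : TB n (fun x => q (t i) * q x) := by
      refine ⟨(hA1.1 n q htb.1).2.2.1 _, fun x => ?_⟩
      rw [abs_mul, hc, one_mul]
      exact htb.2 x
    have hne : q (t i) ≠ 0 := by
      intro h
      rw [h] at hcc
      norm_num at hcc
    have h1 := u4_piece hB1 n (i + 1) (fun x => q (t i) * q x) (t i) (t (i + 1)) θ d h1n htb2 hcc
      (by show q (t i) * q (t (i + 1)) = -1
          rw [← hcc, hv0, hv1]; ring)
      (fun x hx => by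
        have : HasDerivAt (fun x => q (t i) * q x) (q (t i) * deriv q x) x :=
          (hq0 x).hasDerivAt.const_mul _
        rw [this.deriv]
        exact mul_ne_zero hne (hch.mon i hi x hx)) hm
      (by
        have := (hpos i (by omega)).trans (hs1.trans hηd)
        push_cast
        exact this)
      (by
        have := (hpos (i + 1) (by omega)).trans (hs1.trans hηd)
        push_cast at this ⊢
        exact this)
    have h2 : q θ - σ * cos (n * θ) =
        q (t i) * (q (t i) * q θ - (-1) ^ (i + 1) * cos (n * θ)) := by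
      have h3 : q (t i) * (-1) ^ (i + 1) = σ := by
        rw [hv0, mul_assoc, ← mul_pow]
        norm_num
      calc q θ - σ * cos (n * θ) = (q (t i) * q (t i)) * q θ -
            (q (t i) * (-1) ^ (i + 1)) * cos (n * θ) := by rw [hcc, h3, one_mul]
        _ = _ := by ring
    rw [h2, abs_mul, hc, one_mul]
    exact h1
  -- the first oscillation
  have hcrit : ∀ x ∈ Ioo 0 (t 0), deriv q x ≠ 0 := by
    intro x hx h0
    have hlt : t 0 ≤ t N := hmono N le_rfl
    obtain ⟨i, hi, h1⟩ := hall x ⟨hx.1, by linarith [hx.2]⟩ h0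
    have := hmono i hi
    linarith [hx.2]
  have htbσ : TB n (fun x => σ * q x) := by
    refine ⟨(hA1.1 n q htb.1).2.2.1 _, fun x => ?_⟩
    rw [abs_mul, hσa, one_mul]
    exact htb.2 x
  have hdσ : ∀ x, deriv (fun x => σ * q x) x = σ * deriv q x := fun x =>
    ((hq0 x).hasDerivAt.const_mul σ).deriv
  have hσne : σ ≠ 0 := by
    intro h
    rw [h] at hσσ
    norm_num at hσσ
  have hcritσ : ∀ x ∈ Ioo 0 (t 0), deriv (fun x => σ * q x) x ≠ 0 := by
    intro x hx
    rw [hdσ]
    exact mul_ne_zero hσne (hcrit x hx)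
  have hf0 : σ * q (t 0) = -1 := by rw [hσ0]; linarith
  -- value at 0
  have hstart : 1 - η ≤ σ * q 0 := by
    have h1 : 1 - η ≤ |σ * q 0| := by
      rw [abs_mul, hσa, one_mul, hq0v]
      linarith
    rcases le_or_gt 0 (σ * q 0) with h2 | h2
    · rwa [abs_of_nonneg h2] at h1
    exfalso
    rw [abs_of_neg h2] at h1
    have h3 : σ * q 0 ≤ -1 + η := by linarith
    set x0 : ℝ := 1 / (2000 * n) with hx0
    have hx00 : 0 < x0 := by positivity
    have hx01 : x0 ≤ t 0 := by
      have h4 : (n : ℝ) * x0 = 1 / 2000 := by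
        rw [hx0]
        field_simp
      have h5 : (n : ℝ) * x0 ≤ n * t 0 := by
        rw [h4]
        have : η ≤ 1 := by linarith
        linarith [hg0'.1]
      exact le_of_mul_le_mul_left h5 hn0
    have h6 := u4_max (fun x => σ * q x) 0 (t 0) x0 (continuous_const.mul hq0.continuous)
      hcritσ ⟨hx00.le, hx01⟩
    have h7 : σ * q x0 ≤ -1 + η := by
      refine h6.trans (max_le h3 ?_)
      show σ * q (t 0) ≤ -1 + η
      rw [hf0]
      linarith
    have h8 : -1 ≤ σ * q x0 := (abs_le.1 (htbσ.2 x0)).1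
    have h9 : -1 ≤ σ * q 0 := (abs_le.1 (htbσ.2 0)).1
    -- second derivative
    have h10 := hnd 0 ⟨le_rfl, Real.arccos_nonneg a⟩ (by
      show |deriv q 0| ≤ n / 1000
      rw [hq00, abs_zero]
      positivity)
    have h11 : (n : ℝ) ^ 2 / 1000 ≤ |deriv (deriv q) 0| := h10
    have hgrow : ∀ ρ : ℝ, |ρ| = 1 → (n : ℝ) ^ 2 / 1000 ≤ ρ * deriv (deriv q) 0 →
        ρ * q 0 + 1 / 16000000000 ≤ ρ * q x0 := by
      intro ρ hρ hρ2
      have e1 : deriv (fun x => ρ * q x) = fun x => ρ * deriv q x := by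
        funext x
        exact ((hq0 x).hasDerivAt.const_mul ρ).deriv
      have e2 : deriv (fun x => ρ * deriv q x) = fun x => ρ * deriv (deriv q) x := by
        funext x
        exact ((hq1 x).hasDerivAt.const_mul ρ).deriv
      have e3 : deriv (fun x => ρ * deriv (deriv q) x) =
          fun x => ρ * deriv (deriv (deriv q)) x := by
        funext x
        exact ((hq2 x).hasDerivAt.const_mul ρ).deriv
      have := u4_grow n h1n (fun x => ρ * q x) (hq0.const_mul ρ)
        (by rw [e1]; exact hq1.const_mul ρ) (by rw [e1, e2]; exact hq2.const_mul ρ)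
        (by
          intro x
          rw [e1, e2, e3, abs_mul, hρ, one_mul]
          exact (hbern x).2.2.2.2)
        (by rw [e1]; show ρ * deriv q 0 = 0; rw [hq00, mul_zero])
        (by rw [e1, e2]; exact hρ2)
      exact this
    rcases abs_cases (deriv (deriv q) 0) with ⟨h12, h13⟩ | ⟨h12, h13⟩
    · have h14 := hgrow 1 (by simp) (by rw [one_mul, ← h12]; exact h11)
      rcases hσ with h | h
      · rw [h] at h7 h3 h8 h9
        linarith
      · rw [h] at h7 h3 h8 h9
        linarith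
    · have h14 := hgrow (-1) (by simp) (by rw [neg_one_mul, ← h12]; exact h11)
      rcases hσ with h | h
      · rw [h] at h7 h3 h8 h9
        linarith
      · rw [h] at h7 h3 h8 h9
        linarith
  have hA0 : arccos (σ * q 0) ≤ d := by
    have hle : σ * q 0 ≤ 1 := (abs_le.1 (htbσ.2 0)).2
    have hge : -1 ≤ σ * q 0 := (abs_le.1 (htbσ.2 0)).1
    set x := arccos (σ * q 0) with hx
    have hx0 : 0 ≤ x := Real.arccos_nonneg _
    have hxpi : x ≤ π := Real.arccos_le_pi _
    have h1 := Real.cos_le_one_sub_mul_cos_sq (x := x) (by rw [abs_of_nonneg hx0]; exact hxpi)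
    rw [hx, Real.cos_arccos hge hle, ← hx] at h1
    have h2 : 2 / π ^ 2 * x ^ 2 ≤ η := by linarith
    have h3 : x ^ 2 ≤ d ^ 2 := by
      have h4 : x ^ 2 = π ^ 2 / 2 * (2 / π ^ 2 * x ^ 2) := by
        field_simp
      have h5 : π ^ 2 / 2 ≤ 8 := by nlinarith
      have h6 : 0 ≤ 2 / π ^ 2 * x ^ 2 := by positivity
      rw [h4]
      nlinarith
    exact le_of_sq_le_sq h3 hd0.le |> fun h => h
  have hB : ∀ θ ∈ Icc 0 (t 0), |q θ - σ * cos (n * θ)| ≤ d := by
    intro θ hθ
    have hb1 : |arccos (σ * q θ) - arccos (σ * q 0)| ≤ n * (θ - 0) :=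
      (hB1 n (fun x => σ * q x) 0 θ h1n htbσ hθ.1
      (fun x hx => hcritσ x ⟨hx.1, lt_of_lt_of_le hx.2 hθ.2⟩)).1
    have hb2 : |arccos (σ * q (t 0)) - arccos (σ * q θ)| ≤ n * (t 0 - θ) :=
      (hB1 n (fun x => σ * q x) θ (t 0) h1n htbσ hθ.2
      (fun x hx => hcritσ x ⟨lt_of_le_of_lt hθ.1 hx.1, hx.2⟩)).1
    rw [hf0, Real.arccos_neg_one] at hb2
    have h3 := abs_le.1 hb1
    have h4 := abs_le.1 hb2
    have h7 := abs_le.1 (htbσ.2 θ)
    have h8 := abs_cos_sub_cos_le (arccos (σ * q θ)) (n * θ)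
    rw [Real.cos_arccos h7.1 h7.2] at h8
    have h9 : |arccos (σ * q θ) - n * θ| ≤ d := by
      rw [abs_le]
      constructor
      · nlinarith [h4.2, hg0'.2]
      · nlinarith [h3.2]
    have h10 : q θ - σ * cos (n * θ) = σ * (σ * q θ - cos (n * θ)) := by
      calc q θ - σ * cos (n * θ) = (σ * σ) * q θ - σ * cos (n * θ) := by rw [hσσ, one_mul]
        _ = _ := by ring
    rw [h10, abs_mul, hσa, one_mul]
    exact h8.trans h9
  have hAll : ∀ θ ∈ Icc 0 (t N), |q θ - σ * cos (n * θ)| ≤ d := by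
    intro θ hθ
    rcases le_or_gt θ (t 0) with h | h
    · exact hB θ ⟨hθ.1, h⟩
    · exact hA θ ⟨h.le, hθ.2⟩
  -- size of the window
  have hgap' : n * (arccos a - t N) ≤ 4 := by
    have : K * √((1 + Real.log n) / n) ≤ 1 / 4 := hs1.trans (hηd.trans hd3)
    linarith
  have hα : π / 2 ≤ arccos a := by
    have := Real.arccos_le_arccos ha0
    rwa [Real.arccos_zero] at this
  have hτ1 : 1 ≤ t N := by
    have h1 : n * (arccos a - t N) ≤ n * (4 / 10) := by
      calc n * (arccos a - t N) ≤ 4 := hgap'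
        _ ≤ n * (4 / 10) := by linarith
    have h2 := le_of_mul_le_mul_left h1 hn0
    linarith
  refine ⟨σ, t N, hσ, hτ1, htN.le, hgap', fun θ hθ => ⟨(hAll θ hθ).trans hd1, ?_⟩⟩
  -- the derivative
  have hcosd : ∀ x : ℝ, HasDerivAt (fun x : ℝ => σ * cos (n * x)) (-(σ * n * sin (n * x))) x := by
    intro x
    have h1 : HasDerivAt (fun x : ℝ => (n : ℝ) * x) n x := by
      simpa using (hasDerivAt_id x).const_mul (n : ℝ)
    have h2 := (h1.cos).const_mul σ
    rw [show -(σ * n * sin (n * x)) = σ * (-sin (n * x) * n) by ring]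
    exact h2
  have hsind : ∀ x : ℝ, HasDerivAt (fun x : ℝ => -(σ * n * sin (n * x)))
      (-(σ * n ^ 2 * cos (n * x))) x := by
    intro x
    have h1 : HasDerivAt (fun x : ℝ => (n : ℝ) * x) n x := by
      simpa using (hasDerivAt_id x).const_mul (n : ℝ)
    have h2 := ((h1.sin).const_mul (σ * n)).neg
    rw [show -(σ * n ^ 2 * cos (n * x)) = -(σ * n * (cos (n * x) * n)) by ring]
    exact h2
  have hD1 : deriv (fun x => q x - σ * cos (n * x)) =
      fun x => deriv q x - -(σ * n * sin (n * x)) := by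
    funext x
    exact ((hq0 x).hasDerivAt.sub (hcosd x)).deriv
  have hD2 : deriv (fun x => deriv q x - -(σ * n * sin (n * x))) =
      fun x => deriv (deriv q) x - -(σ * n ^ 2 * cos (n * x)) := by
    funext x
    exact ((hq1 x).hasDerivAt.sub (hsind x)).deriv
  have hsd : 0 < √d := Real.sqrt_pos.2 hd0
  have hsd2 : √d * √d = d := Real.mul_self_sqrt hd0.le
  have hsd1 : √d ≤ 1 / 2 := by
    rw [show (1 / 2 : ℝ) = √(1 / 4) by
      rw [show (1 / 4 : ℝ) = (1 / 2) ^ 2 by norm_num, Real.sqrt_sq (by norm_num)]]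
    exact Real.sqrt_le_sqrt hd3
  have h1 := u4_deriv (fun x => q x - σ * cos (n * x)) (t N) (2 * (n : ℝ) ^ 2) d (√d / n)
    (fun x => ((hq0 x).hasDerivAt.sub (hcosd x)).differentiableAt)
    (by rw [hD1]; exact fun x => ((hq1 x).hasDerivAt.sub (hsind x)).differentiableAt)
    (by
      intro x
      rw [hD1, hD2]
      have h2 := (hbern x).2.2.2.1
      have h3 : |σ * (n : ℝ) ^ 2 * cos (n * x)| ≤ (n : ℝ) ^ 2 := by
        rw [abs_mul, abs_mul, hσa, one_mul, abs_of_nonneg (by positivity : (0 : ℝ) ≤ (n : ℝ) ^ 2)]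
        have := Real.abs_cos_le_one (n * x)
        nlinarith [abs_nonneg (cos (n * x)), (by positivity : (0 : ℝ) ≤ (n : ℝ) ^ 2)]
      have h4 := abs_le.1 h2
      have h5 := abs_le.1 h3
      rw [abs_le]
      constructor <;> linarith)
    hAll (by positivity)
    (by
      have : √d / n ≤ 1 / 2 := by
        rw [div_le_iff₀ hn0]
        nlinarith
      linarith) θ hθ
  rw [hD1] at h1
  simp only [sub_neg_eq_add] at h1
  have h2 : deriv q θ / n + σ * sin (n * θ) = (deriv q θ + σ * n * sin (n * θ)) / n := by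
    field_simp
  rw [h2, abs_div, abs_of_pos hn0, div_le_iff₀ hn0]
  refine h1.trans ?_
  have h3 : 2 * d / (√d / n) = 2 * √d * n := by
    rw [div_div_eq_mul_div, div_eq_iff hsd.ne']
    calc 2 * d * n = 2 * (√d * √d) * n := by rw [hsd2]
      _ = _ := by ring
  have h4 : 2 * (n : ℝ) ^ 2 * (√d / n) = 2 * √d * n := by
    field_simp
  rw [h3, h4]
  nlinarith

end

end Pool.Agent.Helper10.AL
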