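import Pool.Agent.Helper10.AL.St6

/-! Project AL, piece U5e: distances to the gap. -/

set_option autoImplicit false

namespace Pool.Agent.Helper10.AL

open Polynomial Set Real MeasureTheory intervalIntegral

private theorem u5e_sq (w : ℂ) (θ : ℝ) :
    ‖Complex.exp (w * Complex.I) - Complex.exp (θ * Complex.I)‖ ^ 2 =
      (1 - Real.exp (-w.im)) ^ 2 + 2 * Real.exp (-w.im) * (1 - cos (w.re - θ)) := by
  rw [← Complex.normSq_eq_norm_sq, Complex.normSq_apply]
  have h1 : (w * Complex.I).re = -w.im := by simp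
  have h2 : (w * Complex.I).im = w.re := by simp
  have h3 : ((θ : ℂ) * Complex.I).re = 0 := by simp
  have h4 : ((θ : ℂ) * Complex.I).im = θ := by simp
  rw [Complex.sub_re, Complex.sub_im, Complex.exp_re, Complex.exp_im, Complex.exp_re,
    Complex.exp_im, h1, h2, h3, h4, Real.exp_zero, cos_sub]
  have e1 := sin_sq_add_cos_sq w.re
  have e2 := sin_sq_add_cos_sq θ
  set r := Real.exp (-w.im)
  linear_combination r ^ 2 * e1 + e2

private theorem u5e_cos (φ : ℝ) (h : |φ| ≤ 3.3) : φ ^ 2 / 10 ≤ 1 - cos φ := by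
  have hp := pi_gt_three
  have hp2 := pi_lt_d2
  have hc : ∀ x : ℝ, |x| ≤ π → 2 / π ^ 2 * x ^ 2 ≤ 1 - cos x := fun x hx => by
    linarith [cos_le_one_sub_mul_cos_sq hx]
  have hk : (1 : ℝ) / 5 ≤ 2 / π ^ 2 := by
    rw [div_le_div_iff₀ (by norm_num) (by positivity)]
    nlinarith
  rcases le_or_gt |φ| π with h1 | h1
  · have h2 := hc φ h1
    nlinarith [sq_nonneg φ]
  · have h3 : cos φ = cos (2 * π - |φ|) := by
      rw [cos_two_pi_sub, cos_abs]
    have h4 : abs (2 * π - abs φ) ≤ π := by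
      rw [abs_le]
      constructor <;> linarith [abs_nonneg φ]
    have h5 := hc _ h4
    rw [h3]
    have h6 : (2.7 : ℝ) ^ 2 ≤ (2 * π - |φ|) ^ 2 :=
      pow_le_pow_left₀ (by norm_num) (by linarith) 2
    have h7 : φ ^ 2 ≤ 3.3 ^ 2 := by
      rw [← sq_abs]
      exact pow_le_pow_left₀ (abs_nonneg _) h 2
    nlinarith

private theorem u5e_exp (y t : ℝ) (ht : 0 ≤ t) (ht1 : t ≤ 1 / 3) (hy : t ≤ y) :
    3 / 4 * t ≤ 1 - Real.exp (-y) := by
  have h1 : Real.exp (-y) ≤ Real.exp (-t) := Real.exp_le_exp.2 (by linarith)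
  have h2 : 1 + t ≤ Real.exp t := by linarith [Real.add_one_le_exp t]
  have h3 : Real.exp (-t) * Real.exp t = 1 := by rw [← Real.exp_add]; simp
  have h4 := Real.exp_pos (-t)
  have h5 : Real.exp (-t) * (1 + t) ≤ 1 := by nlinarith
  nlinarith

theorem u5e : U5e := by
  refine ⟨1 / 16, by norm_num, ?_⟩
  intro w τ θ hw0 hwp hy hθ hτ hτp
  have hp := pi_gt_three
  have hp2 := pi_lt_d2
  set S := ‖Complex.exp (w * Complex.I) - Complex.exp (θ * Complex.I)‖ with hS
  have hS0 : 0 ≤ S := norm_nonneg _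
  have hsq := u5e_sq w θ
  rw [← hS] at hsq
  set r := Real.exp (-w.im) with hr
  have hr0 : 0 < r := Real.exp_pos _
  have hr1 : r ≤ 1 := by
    rw [hr]
    exact Real.exp_le_one_iff.2 (by linarith)
  have hφ : |w.re - θ| ≤ 3.3 := by
    rw [abs_le]
    constructor <;> linarith [hθ.1, hθ.2]
  have hcos := u5e_cos _ hφ
  have hlow : (1 - r) ^ 2 + r * (w.re - θ) ^ 2 / 5 ≤ S ^ 2 := by
    rw [hsq]
    nlinarith
  have hS1 : 1 - r ≤ S := by
    have h0 : 0 ≤ r * (w.re - θ) ^ 2 / 5 := by positivity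
    exact le_of_sq_le_sq (by linarith) hS0
  have hr23 : w.im ≤ 1 / 3 → 2 / 3 ≤ r := by
    intro h
    have := Real.add_one_le_exp (-w.im)
    rw [← hr] at this
    linarith
  refine ⟨?_, ?_⟩
  · intro hR
    set R := ‖w - (π : ℂ)‖ with hRdef
    have hR0 : 0 ≤ R := norm_nonneg _
    have hm0 : 0 ≤ min 1 R := le_min zero_le_one hR0
    have hm1 : min 1 R ≤ 1 := min_le_left _ _
    have hmR : min 1 R ≤ R := min_le_right _ _
    have hdist : R / 2 ≤ ‖w - (θ : ℂ)‖ := by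
      have h1 : R ≤ ‖w - (θ : ℂ)‖ + ‖(θ : ℂ) - (π : ℂ)‖ := by
        rw [hRdef]
        exact norm_sub_le_norm_sub_add_norm_sub _ _ _
      have h2 : ‖(θ : ℂ) - (π : ℂ)‖ ≤ π - τ := by
        rw [← Complex.ofReal_sub, Complex.norm_real, Real.norm_eq_abs, abs_le]
        constructor <;> linarith [hθ.1, hθ.2]
      linarith
    have hdist2 : (R / 2) ^ 2 ≤ (w.re - θ) ^ 2 + w.im ^ 2 := by
      have h1 : ‖w - (θ : ℂ)‖ ^ 2 = (w.re - θ) ^ 2 + w.im ^ 2 := by
        rw [← Complex.normSq_eq_norm_sq, Complex.normSq_apply]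
        simp
        ring
      rw [← h1]
      exact pow_le_pow_left₀ (by linarith) hdist 2
    set m := min 1 R with hm
    have hmm : m ^ 2 ≤ R ^ 2 := pow_le_pow_left₀ hm0 hmR 2
    rcases le_or_gt (m / 3) w.im with h1 | h1
    · have h2 := u5e_exp w.im (m / 3) (by linarith) (by linarith) h1
      rw [← hr] at h2
      linarith
    · have h2 := hr23 (by linarith)
      have h3 : w.im ^ 2 ≤ (m / 3) ^ 2 := pow_le_pow_left₀ hy.le h1.le 2
      have h4 : m ^ 2 / 8 ≤ (w.re - θ) ^ 2 := by nlinarith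
      have h5 : (1 / 16 * m) ^ 2 ≤ S ^ 2 := by
        have h6 : 2 / 3 * (m ^ 2 / 8) ≤ r * (w.re - θ) ^ 2 :=
          mul_le_mul h2 h4 (by positivity) hr0.le
        nlinarith [sq_nonneg (1 - r)]
      exact le_of_sq_le_sq h5 hS0
  · intro hτw
    have hD0 : 0 ≤ τ - w.re := by linarith
    rcases le_or_gt (1 / 3) w.im with h1 | h1
    · have h2 := u5e_exp w.im (1 / 3) (by norm_num) le_rfl h1
      rw [← hr] at h2
      linarith
    · have h2 := hr23 h1.le
      have h3 : (τ - w.re) ^ 2 ≤ (w.re - θ) ^ 2 := by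
        have : τ - w.re ≤ θ - w.re := by linarith [hθ.1]
        nlinarith
      have h5 : (1 / 16 * (τ - w.re)) ^ 2 ≤ S ^ 2 := by
        have h6 : 2 / 3 * (τ - w.re) ^ 2 ≤ r * (w.re - θ) ^ 2 :=
          mul_le_mul h2 h3 (by positivity) hr0.le
        nlinarith [sq_nonneg (1 - r), sq_nonneg (τ - w.re)]
      exact le_of_sq_le_sq h5 hS0

end Pool.Agent.Helper10.AL
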