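import Pool.Agent.Helper10.AL.St6
import Pool.Agent.Helper10.AL.P.A1
import Pool.Agent.Helper10.AL.P.A2
import Pool.Agent.Helper10.AL.P.G2o

/-!
Arc length of polynomials over windows `[a, 1]`, large degree, uniformly in `a`: piece U6
(the first order condition near the left end of the window, non-real critical points).
-/

set_option autoImplicit false

namespace Pool.Agent.Helper10.AL

open Polynomial Set Real MeasureTheory intervalIntegral
open Pool.Agent.Helper40.AS (arc Bdd Ext quad)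

theorem u6_root {n : ℕ} {a : ℝ} (hn : 2 ≤ n)
    (hns : 1 ≤ (n : ℝ) ^ 2 * (1 + a)) : 1 / (n : ℝ) ≤ √(1 + a) := by
  have hn0 : (0 : ℝ) < n := by exact_mod_cast (by omega : 0 < n)
  refine Real.le_sqrt_of_sq_le ?_
  rw [div_pow, one_pow, div_le_iff₀ (by positivity)]
  linarith

theorem u6_M {n : ℕ} {a : ℝ} (hn : 2 ≤ n) (ha : -1 < a) (ha0 : a ≤ 0)
    (hns : 1 ≤ (n : ℝ) ^ 2 * (1 + a)) : ∀ θ ∈ Icc 0 (arccos a), 1 / (n : ℝ) ≤ θ →
    sin θ + 1 / n ≤ 3 * sin θ := by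
  intro θ hθ h
  have hn0 : (0 : ℝ) < n := by exact_mod_cast (by omega : 0 < n)
  rcases le_total θ (π / 2) with h1 | h1
  · have h2 : 2 / π * θ ≤ sin θ := mul_le_sin hθ.1 h1
    have h3 : 1 / 2 * θ ≤ 2 / π * θ := by
      refine mul_le_mul_of_nonneg_right ?_ hθ.1
      rw [div_le_div_iff₀ (by norm_num) pi_pos]
      linarith [pi_le_four]
    linarith
  · have h2 : sin (arccos a) ≤ sin θ := by
      rw [← sin_pi_sub θ, ← sin_pi_sub (arccos a)]
      refine sin_le_sin_of_le_of_le_pi_div_two ?_ ?_ ?_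
      · linarith [arccos_le_pi a, pi_pos]
      · linarith
      · linarith [hθ.2]
    have h3 : √(1 + a) ≤ sin (arccos a) := by
      rw [sin_arccos]
      refine Real.sqrt_le_sqrt ?_
      nlinarith
    have h4 := u6_root hn hns
    have h5 := sin_nonneg_of_nonneg_of_le_pi hθ.1 (hθ.2.trans (arccos_le_pi a))
    linarith

theorem u6_slow {n : ℕ} {a : ℝ} (hn : 2 ≤ n) (ha : -1 < a) (ha0 : a ≤ 0)
    (hns : 1 ≤ (n : ℝ) ^ 2 * (1 + a)) {x y : ℝ} (hx : x ∈ Icc 0 (arccos a))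
    (hxy : |x - y| ≤ 1 / n) : 1 + cos y ≤ 4 * (1 + cos x) := by
  have hn0 : (0 : ℝ) < n := by exact_mod_cast (by omega : 0 < n)
  have hsx := g2o_sn hx
  have h1 := g2o_cos (by omega : 1 ≤ n) hsx hxy
  have h2 := (le_abs_self _).trans h1
  have h3 := u6_root hn hns
  have hcx := g2o_cs ha.le (by linarith) hx
  set q := √(1 + cos x) with hq
  have hq0 : 0 ≤ q := Real.sqrt_nonneg _
  have hq2 : q ^ 2 = 1 + cos x := Real.sq_sqrt (by linarith [neg_one_le_cos x])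
  have h4 : √(1 + a) ≤ q := Real.sqrt_le_sqrt (by linarith [hcx.1])
  have h5 : 1 / (n : ℝ) ≤ q := h3.trans h4
  have h6 : sin x ≤ 3 / 2 * q := by
    refine abs_le_of_sq_le_sq' ?_ (by positivity) |>.2
    have e1 : sin x ^ 2 = (1 - cos x) * (1 + cos x) := by
      have := sin_sq_add_cos_sq x
      linarith
    rw [e1, mul_pow, hq2]
    refine mul_le_mul_of_nonneg_right ?_ (by linarith [neg_one_le_cos x])
    linarith [neg_one_le_cos x]
  have h7 : (sin x + 1 / n) / n ≤ (3 / 2 * q + q) * q := by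
    have e : (sin x + 1 / n) / n = (sin x + 1 / n) * (1 / n) := by ring
    rw [e]
    refine mul_le_mul (by linarith) h5 (by positivity) (by positivity)
  have h8 : (3 / 2 * q + q) * q = 5 / 2 * (1 + cos x) := by
    rw [← hq2]
    ring
  linarith [sq_nonneg q]

/-- the weighted estimate for windows `[a, 1]`, refined version -/
def U6Est (K : ℝ) : Prop := ∀ (n : ℕ) (a A : ℝ)
    (P : ℝ[X]) (F w : ℝ → ℝ), 2 ≤ n → -1 ≤ a → a < 1 → 1 / (n : ℝ) ≤ arccos a →
    P.natDegree ≤ n → Bdd P → ND n (qq P) 0 (arccos a) → ContinuousOn F (Icc a 1) →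
    ContinuousOn w (Icc 0 (arccos a)) → (∀ θ ∈ Icc 0 (arccos a), 0 ≤ w θ) →
    (∀ θ ∈ Icc 0 (arccos a), F (cos θ) ≤ w θ) → 1 ≤ A →
    (∀ x ∈ Icc 0 (arccos a), ∀ y ∈ Icc 0 (arccos a), |x - y| ≤ 1 / n → w x ≤ A * w y) →
    (∫ x in a..1, F x / √(1 + P.derivative.eval x ^ 2)) ≤
      K * A * (1 + Real.log n) / n * ∫ θ in (0 : ℝ)..(arccos a), w θ * (sin θ + 1 / n) ^ 2

theorem u6_est (hG0u : G0u) (hG2av : G2av) : ∃ K : ℝ, 0 < K ∧ U6Est K := by
  obtain ⟨K, hK, hK2⟩ := hG2av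
  refine ⟨K, hK, ?_⟩
  intro n a A P F w hn ha ha1 hna hP hB hND hF hw hw0 hFw hA hAw
  have h1 := hK2 n a 1 A P w hn ha ha1 le_rfl (by rw [arccos_one]; linarith) hP hB
    (by rw [arccos_one]; exact hND) (by rw [arccos_one]; exact hw)
    (by rw [arccos_one]; exact hw0) hA (by rw [arccos_one]; exact hAw)
  have h2 := hG0u a 1 P F ha ha1.le le_rfl hF
  rw [arccos_one] at h1 h2
  rw [h2]
  refine le_trans ?_ h1
  have hα : 0 ≤ arccos a := arccos_nonneg a
  have hsin : ∀ θ ∈ Icc 0 (arccos a), 0 ≤ sin θ := fun θ hθ =>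
    sin_nonneg_of_nonneg_of_le_pi hθ.1 (hθ.2.trans (arccos_le_pi a))
  have hd : ∀ θ, deriv (qq P) θ = -(sin θ * P.derivative.eval (cos θ)) := fun θ =>
    ((a2 a1).2.2 P θ).1
  have hg : ∀ θ ∈ Icc 0 (arccos a), sin θ ^ 2 / √(sin θ ^ 2 + deriv (qq P) θ ^ 2) =
      sin θ / √(1 + P.derivative.eval (cos θ) ^ 2) := fun θ hθ => g2o_sq (hsin θ hθ) (hd θ)
  have hsp : ∀ θ : ℝ, 0 < √(1 + P.derivative.eval (cos θ) ^ 2) := fun θ =>
    Real.sqrt_pos.2 (by positivity)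
  have hgc : Continuous fun θ : ℝ => sin θ / √(1 + P.derivative.eval (cos θ) ^ 2) :=
    Continuous.div (by fun_prop) (by fun_prop) fun θ => (hsp θ).ne'
  have e1 : (∫ θ in (0 : ℝ)..(arccos a), F (cos θ) *
      (sin θ ^ 2 / √(sin θ ^ 2 + deriv (qq P) θ ^ 2))) =
      ∫ θ in (0 : ℝ)..(arccos a), F (cos θ) *
        (sin θ / √(1 + P.derivative.eval (cos θ) ^ 2)) := by
    refine integral_congr fun θ hθ => ?_
    rw [uIcc_of_le hα] at hθ
    rw [hg θ hθ]
  have e2 : (∫ θ in (0 : ℝ)..(arccos a), w θ *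
      (sin θ ^ 2 / √(sin θ ^ 2 + deriv (qq P) θ ^ 2))) =
      ∫ θ in (0 : ℝ)..(arccos a), w θ *
        (sin θ / √(1 + P.derivative.eval (cos θ) ^ 2)) := by
    refine integral_congr fun θ hθ => ?_
    rw [uIcc_of_le hα] at hθ
    rw [hg θ hθ]
  rw [e1, e2]
  have hmaps : ∀ θ ∈ Icc 0 (arccos a), cos θ ∈ Icc a 1 := fun θ hθ => g2o_cs ha ha1.le hθ
  have hFc : ContinuousOn (fun θ => F (cos θ)) (Icc 0 (arccos a)) :=
    hF.comp continuous_cos.continuousOn hmaps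
  have i1 : IntervalIntegrable (fun θ => F (cos θ) *
      (sin θ / √(1 + P.derivative.eval (cos θ) ^ 2))) volume 0 (arccos a) := by
    refine ContinuousOn.intervalIntegrable ?_
    rw [uIcc_of_le hα]
    exact hFc.mul hgc.continuousOn
  have i2 : IntervalIntegrable (fun θ => w θ *
      (sin θ / √(1 + P.derivative.eval (cos θ) ^ 2))) volume 0 (arccos a) := by
    refine ContinuousOn.intervalIntegrable ?_
    rw [uIcc_of_le hα]
    exact hw.mul hgc.continuousOn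
  refine integral_mono_on hα i1 i2 fun θ hθ => ?_
  exact mul_le_mul_of_nonneg_right (hFw θ hθ) (div_nonneg (hsin θ hθ) (hsp θ).le)

/-- the setting of this file -/
structure U6S (n : ℕ) (C c a : ℝ) (P : ℝ[X]) (z : ℂ) : Prop where
  hn : 2 ≤ n
  hC : 1 ≤ C
  hc : 0 < c
  ha : -1 < a
  hCa : C * (1 + a) ≤ 1 / 4
  hns : 1 ≤ (n : ℝ) ^ 2 * (1 + a)
  hE : Ext n a 1 P
  hND : ND n (qq P) 0 (arccos a)
  hz : aeval z P.derivative = 0
  hv : 0 < z.im
  hzC : ‖z + 1‖ ≤ C * (1 + a)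
  hr : ∀ θ ∈ Icc 0 (arccos a), c * (sin θ + 1 / n) / n ≤ √((cos θ - z.re) ^ 2 + z.im ^ 2)

theorem U6S.ha1 {n : ℕ} {C c a : ℝ} {P : ℝ[X]} {z : ℂ} (S : U6S n C c a P z) :
    a ≤ -(3 / 4) := by
  have h1 := S.hC
  have h2 := S.hCa
  have h3 := S.ha
  nlinarith

theorem U6S.hα {n : ℕ} {C c a : ℝ} {P : ℝ[X]} {z : ℂ} (S : U6S n C c a P z) :
    1 ≤ arccos a := by
  have h1 := S.ha1
  have h2 : π / 2 ≤ arccos a := by
    rw [← arccos_zero]
    exact arccos_le_arccos (by linarith)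
  linarith [pi_gt_three]

theorem U6S.hnα {n : ℕ} {C c a : ℝ} {P : ℝ[X]} {z : ℂ} (S : U6S n C c a P z) :
    1 / (n : ℝ) ≤ arccos a := by
  have h1 := S.hα
  have h2 : (1 : ℝ) ≤ n := by exact_mod_cast (by have := S.hn; omega : 1 ≤ n)
  have h3 : 1 / (n : ℝ) ≤ 1 := by
    rw [div_le_one (by linarith)]
    exact h2
  linarith

theorem U6S.hu {n : ℕ} {C c a : ℝ} {P : ℝ[X]} {z : ℂ} (S : U6S n C c a P z) :
    |1 + z.re| ≤ C * (1 + a) := by
  have h1 := Complex.abs_re_le_norm (z + 1)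
  rw [Complex.add_re, Complex.one_re, add_comm] at h1
  exact h1.trans S.hzC

theorem U6S.hv1 {n : ℕ} {C c a : ℝ} {P : ℝ[X]} {z : ℂ} (S : U6S n C c a P z) :
    z.im ≤ C * (1 + a) := by
  have h1 := Complex.abs_im_le_norm (z + 1)
  rw [Complex.add_im, Complex.one_im, add_zero] at h1
  exact (le_abs_self _).trans (h1.trans S.hzC)

/-- distance of points near `1` -/
theorem U6S.far {n : ℕ} {C c a : ℝ} {P : ℝ[X]} {z : ℂ} (S : U6S n C c a P z) {θ : ℝ}
    (h0 : 0 ≤ θ) (h1 : θ ≤ 1 / n) : 1 ≤ cos θ - a ∧ 1 ≤ cos θ - z.re := by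
  have hn : (2 : ℝ) ≤ n := by exact_mod_cast S.hn
  have h2 : 1 / (n : ℝ) ≤ 1 / 2 := one_div_le_one_div_of_le (by norm_num) hn
  have h3 : 1 - θ ^ 2 / 2 ≤ cos θ := one_sub_sq_div_two_le_cos
  have h4 := S.ha1
  have h5 := (le_abs_self _).trans S.hu
  have h6 := S.hCa
  constructor <;> nlinarith

/-- first integral -/
theorem u6_J1 (n : ℕ) (hn : 2 ≤ n) (α a d : ℝ) (r : ℝ → ℝ) (hα : 0 < α) (hαπ : α ≤ π)
    (ha : -1 < a) (hcα : cos α = a) (hd : 0 < d) (hrc : Continuous r) (hrp : ∀ θ, 0 < r θ)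
    (hs : ∀ θ ∈ Icc 0 α, 1 / (n : ℝ) ≤ θ → sin θ + 1 / n ≤ 3 * sin θ)
    (hfar : ∀ θ ∈ Icc 0 α, θ ≤ 1 / (n : ℝ) → 1 ≤ cos θ - a)
    (hr : ∀ θ ∈ Icc 0 α, √((cos θ - a) ^ 2 + d ^ 2) ≤ 2 * r θ) :
    (∫ θ in (0 : ℝ)..α, (8 + 8 * (1 + cos θ) / r θ ^ 3) * (sin θ + 1 / n) ^ 2) ≤
      544 * π + 384 * ((1 + a) / d ^ 2 + 1 / d) := by
  have hn0 : (2 : ℝ) ≤ n := by exact_mod_cast hn
  have hn1 : (0 : ℝ) < n := by linarith
  have hsin : ∀ θ ∈ Icc 0 α, 0 ≤ sin θ := fun θ hθ =>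
    sin_nonneg_of_nonneg_of_le_pi hθ.1 (hθ.2.trans hαπ)
  have hρp : ∀ θ, 0 < √((cos θ - a) ^ 2 + d ^ 2) := fun θ => Real.sqrt_pos.2 (by positivity)
  have hpt : ∀ θ ∈ Icc 0 α, (8 + 8 * (1 + cos θ) / r θ ^ 3) * (sin θ + 1 / n) ^ 2 ≤
      544 + 384 * (sin θ * (1 + cos θ) / √((cos θ - a) ^ 2 + d ^ 2) ^ 3) := by
    intro θ hθ
    have hsθ := hsin θ hθ
    set ρ := √((cos θ - a) ^ 2 + d ^ 2) with hρ
    have hρ0 : 0 < ρ := hρp θ
    have hr0 := hrp θ
    have hc0 : 0 ≤ 1 + cos θ := by linarith [neg_one_le_cos θ]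
    have h1n : 1 / (n : ℝ) ≤ 1 / 2 := one_div_le_one_div_of_le (by norm_num) hn0
    have hn' : (0 : ℝ) < 1 / n := by positivity
    set t := sin θ + 1 / (n : ℝ) with ht
    have ht0 : 0 ≤ t := by positivity
    have ht2 : t ≤ 2 := by linarith [sin_le_one θ]
    have ht4 : t ^ 2 ≤ 4 := (pow_le_pow_left₀ ht0 ht2 2).trans_eq (by norm_num)
    have h1 : 1 / r θ ^ 3 ≤ 8 / ρ ^ 3 := by
      rw [div_le_div_iff₀ (by positivity) (by positivity)]
      have := pow_le_pow_left₀ hρ0.le (hr θ hθ) 3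
      linarith [this]
    have h2 : 8 * (1 + cos θ) / r θ ^ 3 ≤ 64 * ((1 + cos θ) / ρ ^ 3) := by
      calc 8 * (1 + cos θ) / r θ ^ 3 = 8 * (1 + cos θ) * (1 / r θ ^ 3) := by ring
        _ ≤ 8 * (1 + cos θ) * (8 / ρ ^ 3) := mul_le_mul_of_nonneg_left h1 (by positivity)
        _ = 64 * ((1 + cos θ) / ρ ^ 3) := by ring
    have h3 : (8 + 8 * (1 + cos θ) / r θ ^ 3) * t ^ 2 ≤
        32 + 64 * ((1 + cos θ) / ρ ^ 3 * t ^ 2) := by
      have k1 : 8 * (1 + cos θ) / r θ ^ 3 * t ^ 2 ≤ 64 * ((1 + cos θ) / ρ ^ 3) * t ^ 2 :=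
        mul_le_mul_of_nonneg_right h2 (by positivity)
      have k2 : (8 + 8 * (1 + cos θ) / r θ ^ 3) * t ^ 2 =
        8 * t ^ 2 + 8 * (1 + cos θ) / r θ ^ 3 * t ^ 2 := by ring
      rw [k2]
      linarith
    refine h3.trans ?_
    rcases le_total θ (1 / n) with h | h
    · have h4 := hfar θ hθ h
      have h5 : 1 ≤ ρ := by
        rw [hρ]
        refine Real.le_sqrt_of_sq_le ?_
        nlinarith [sq_nonneg d]
      have h6 : (1 + cos θ) / ρ ^ 3 ≤ 2 := by
        rw [div_le_iff₀ (by positivity)]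
        have := one_le_pow₀ h5 (n := 3)
        linarith [cos_le_one θ]
      have h7 : (1 + cos θ) / ρ ^ 3 * t ^ 2 ≤ 2 * 4 :=
        mul_le_mul h6 ht4 (by positivity) (by norm_num)
      have h8 : 0 ≤ sin θ * (1 + cos θ) / ρ ^ 3 := by positivity
      linarith
    · have h4 := hs θ hθ h
      have h5 : t ^ 2 ≤ 6 * sin θ := by
        have := mul_le_mul ht2 h4 ht0 (by norm_num)
        calc t ^ 2 = t * t := by ring
          _ ≤ 2 * (3 * sin θ) := this
          _ = 6 * sin θ := by ring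
      have h6 : (1 + cos θ) / ρ ^ 3 * t ^ 2 ≤ (1 + cos θ) / ρ ^ 3 * (6 * sin θ) :=
        mul_le_mul_of_nonneg_left h5 (by positivity)
      have h7 : (1 + cos θ) / ρ ^ 3 * (6 * sin θ) = 6 * (sin θ * (1 + cos θ) / ρ ^ 3) := by
        ring
      linarith
  have hc1 : Continuous fun θ => (8 + 8 * (1 + cos θ) / r θ ^ 3) * (sin θ + 1 / (n : ℝ)) ^ 2 := by
    refine Continuous.mul (continuous_const.add (Continuous.div (by fun_prop)
      (by fun_prop) fun θ => ?_)) (by fun_prop)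
    exact (pow_pos (hrp θ) 3).ne'
  have hc2 : Continuous fun θ => sin θ * (1 + cos θ) / √((cos θ - a) ^ 2 + d ^ 2) ^ 3 :=
    Continuous.div (by fun_prop) (by fun_prop) fun θ => (pow_pos (hρp θ) 3).ne'
  have hi2 : IntervalIntegrable (fun θ => 384 *
      (sin θ * (1 + cos θ) / √((cos θ - a) ^ 2 + d ^ 2) ^ 3)) volume 0 α :=
    (hc2.intervalIntegrable 0 α).const_mul 384
  have hi3 : IntervalIntegrable (fun _ : ℝ => (544 : ℝ)) volume 0 α :=
    continuous_const.intervalIntegrable _ _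
  have hmono := integral_mono_on hα.le (hc1.intervalIntegrable (μ := volume) 0 α)
    (hi3.add hi2) hpt
  refine hmono.trans ?_
  rw [integral_add hi3 hi2,
    intervalIntegral.integral_const_mul, intervalIntegral.integral_const, smul_eq_mul]
  have hder : ∀ θ ∈ uIcc 0 α, HasDerivAt
      (fun θ : ℝ => 1 / √((cos θ - a) ^ 2 + d ^ 2) -
        (1 + a) / d ^ 2 * ((cos θ - a) / √((cos θ - a) ^ 2 + d ^ 2)))
      (sin θ * (1 + cos θ) / √((cos θ - a) ^ 2 + d ^ 2) ^ 3) θ := by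
    intro θ _
    have h1 : HasDerivAt (fun θ : ℝ => cos θ - a) (-sin θ) θ :=
      (hasDerivAt_cos θ).sub_const a
    have h2 : HasDerivAt (fun θ : ℝ => (cos θ - a) ^ 2 + d ^ 2)
        (2 * (cos θ - a) * (-sin θ)) θ := by
      have := (h1.pow 2).add_const (d ^ 2)
      refine this.congr_deriv ?_
      norm_num
    have h3 := h2.sqrt (by positivity)
    have h4 := (hasDerivAt_const θ (1 : ℝ)).div h3 (hρp θ).ne'
    have h5 := (h1.div h3 (hρp θ).ne').const_mul ((1 + a) / d ^ 2)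
    refine (h4.sub h5).congr_deriv ?_
    set ρ := √((cos θ - a) ^ 2 + d ^ 2) with hρ
    have hρ0 : 0 < ρ := hρp θ
    have hρ2 : ρ ^ 2 = (cos θ - a) ^ 2 + d ^ 2 := Real.sq_sqrt (by positivity)
    have e : cos θ = (cos θ - a) + a := by ring
    have hd2 : d ^ 2 ≠ 0 := by positivity
    field_simp
    linear_combination sin θ * (1 + a) * hρ2
  rw [integral_eq_sub_of_hasDerivAt hder (hc2.intervalIntegrable 0 α), hcα]
  have hρα : √((a - a) ^ 2 + d ^ 2) = d := by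
    rw [sub_self, zero_pow two_ne_zero, zero_add]
    exact Real.sqrt_sq hd.le
  rw [hρα, sub_self, zero_div, mul_zero, sub_zero]
  set ρ0 := √((cos 0 - a) ^ 2 + d ^ 2) with hρ0
  have hρ0p : 0 < ρ0 := hρp 0
  have h1 : (cos 0 - a) / ρ0 ≤ 1 := by
    rw [div_le_one hρ0p, hρ0]
    refine Real.le_sqrt_of_sq_le ?_
    nlinarith [sq_nonneg d]
  have h2 : (1 + a) / d ^ 2 * ((cos 0 - a) / ρ0) ≤ (1 + a) / d ^ 2 * 1 :=
    mul_le_mul_of_nonneg_left h1 (div_nonneg (by linarith) (by positivity))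
  have h3 : 0 < 1 / ρ0 := by positivity
  have h4 : (α - 0) * 544 ≤ 544 * π := by linarith
  linarith

theorem u6_int3 (α u v : ℝ) (hv : 0 < v) :
    (∫ θ in (0 : ℝ)..α, sin θ / √((cos θ - u) ^ 2 + v ^ 2) ^ 3) ≤ 2 / v ^ 2 := by
  have hrp : ∀ θ, 0 < √((cos θ - u) ^ 2 + v ^ 2) := fun θ => Real.sqrt_pos.2 (by positivity)
  have hc2 : Continuous fun θ => sin θ / √((cos θ - u) ^ 2 + v ^ 2) ^ 3 :=
    Continuous.div (by fun_prop) (by fun_prop) fun θ => (pow_pos (hrp θ) 3).ne'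
  have hder2 : ∀ θ ∈ uIcc 0 α, HasDerivAt
      (fun θ : ℝ => -((cos θ - u) / (v ^ 2 * √((cos θ - u) ^ 2 + v ^ 2))))
      (sin θ / √((cos θ - u) ^ 2 + v ^ 2) ^ 3) θ := by
    intro θ _
    have h1 : HasDerivAt (fun θ : ℝ => cos θ - u) (-sin θ) θ :=
      (hasDerivAt_cos θ).sub_const u
    have h2 : HasDerivAt (fun θ : ℝ => (cos θ - u) ^ 2 + v ^ 2)
        (2 * (cos θ - u) * (-sin θ)) θ := by
      have := (h1.pow 2).add_const (v ^ 2)
      refine this.congr_deriv ?_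
      norm_num
    have h3 := (h2.sqrt (by positivity)).const_mul (v ^ 2)
    have h4 := (h1.div h3 (by have := hrp θ; positivity)).neg
    refine h4.congr_deriv ?_
    set r := √((cos θ - u) ^ 2 + v ^ 2) with hrdef
    have hr0 : 0 < r := hrp θ
    have hr2 : r ^ 2 = (cos θ - u) ^ 2 + v ^ 2 := Real.sq_sqrt (by positivity)
    have e : v ^ 2 = r ^ 2 - (cos θ - u) ^ 2 := by linarith
    have hv2 : v ^ 2 ≠ 0 := by positivity
    field_simp
    linear_combination sin θ * hr2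
  rw [integral_eq_sub_of_hasDerivAt hder2 (hc2.intervalIntegrable 0 α)]
  have hbd : ∀ θ, |(cos θ - u) / (v ^ 2 * √((cos θ - u) ^ 2 + v ^ 2))| ≤ 1 / v ^ 2 := by
    intro θ
    have hr0 := hrp θ
    rw [abs_div, abs_of_pos (show 0 < v ^ 2 * √((cos θ - u) ^ 2 + v ^ 2) by positivity),
      div_le_div_iff₀ (by positivity) (by positivity)]
    have hcr : |cos θ - u| ≤ √((cos θ - u) ^ 2 + v ^ 2) := by
      refine Real.le_sqrt_of_sq_le ?_
      rw [sq_abs]
      nlinarith [sq_nonneg v]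
    nlinarith [sq_nonneg v]
  have h1 := abs_le.1 (hbd 0)
  have h2 := abs_le.1 (hbd α)
  have e : 2 / v ^ 2 = 1 / v ^ 2 + 1 / v ^ 2 := by ring
  rw [e]
  linarith [h1.2, h2.1]

/-- the pointwise bound -/
theorem u6_pt {n : ℕ} {θ u v T r : ℝ} (hn0 : (2 : ℝ) ≤ n) (hsθ : 0 ≤ sin θ)
    (hv : 0 < v) (hv1 : v ≤ 1) (hT : 0 ≤ T) (hTu : T ^ 2 = 1 + u) (hr0 : 0 < r)
    (hvr : v ≤ r) (hcr : cos θ - u ≤ r)
    (hs : 1 / (n : ℝ) ≤ θ → sin θ + 1 / n ≤ 3 * sin θ)
    (hfar : θ ≤ 1 / (n : ℝ) → 1 ≤ cos θ - u) :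
    (2 / r + (sin θ + 1 / n) ^ 2 * v / r ^ 3) * (sin θ + 1 / n) ^ 2 ≤
      1138 * ((sin θ + 1 / n) / r) + (1134 * (T ^ 3 * v) * (sin θ / r ^ 3) + 16) := by
  have hn1 : (0 : ℝ) < n := by linarith
  have h1n : 1 / (n : ℝ) ≤ 1 / 2 := one_div_le_one_div_of_le (by norm_num) hn0
  have hn' : (0 : ℝ) < 1 / n := by positivity
  set t := sin θ + 1 / (n : ℝ) with ht
  have ht0 : 0 ≤ t := by positivity
  have ht2 : t ≤ 2 := by linarith [sin_le_one θ]
  have h1 : 2 / r * t ^ 2 ≤ 4 * (t / r) := by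
    have : 2 / r * t ^ 2 = 2 * t * (t / r) := by ring
    rw [this]
    exact mul_le_mul_of_nonneg_right (by linarith) (by positivity)
  have h2 : t ^ 2 * v / r ^ 3 * t ^ 2 ≤
      1134 * (t / r) + (1134 * (T ^ 3 * v) * (sin θ / r ^ 3) + 16) := by
    rcases le_total θ (1 / n) with h | h
    · have h3 := hfar h
      have h4 : 1 ≤ r := h3.trans hcr
      have h5 : v / r ^ 3 ≤ 1 := by
        rw [div_le_one (by positivity)]
        have := one_le_pow₀ h4 (n := 3)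
        linarith
      have h6 : t ^ 4 ≤ 2 ^ 4 := pow_le_pow_left₀ ht0 ht2 4
      have h7 : t ^ 2 * v / r ^ 3 * t ^ 2 = t ^ 4 * (v / r ^ 3) := by ring
      have h8 : t ^ 4 * (v / r ^ 3) ≤ 2 ^ 4 * 1 :=
        mul_le_mul h6 h5 (by positivity) (by positivity)
      have h9 : 0 ≤ 1134 * (t / r) := by positivity
      have h10 : 0 ≤ 1134 * (T ^ 3 * v) * (sin θ / r ^ 3) := by positivity
      rw [h7]
      linarith
    · have h3 : t ≤ 3 * sin θ := hs h
      set q := √r with hq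
      have hq0 : 0 < q := Real.sqrt_pos.2 hr0
      have hq2 : q ^ 2 = r := Real.sq_sqrt hr0.le
      have h4 : sin θ ≤ 3 / 2 * (T + q) := by
        refine abs_le_of_sq_le_sq' ?_ (by positivity) |>.2
        have e1 : sin θ ^ 2 = (1 - cos θ) * (1 + cos θ) := by
          have := sin_sq_add_cos_sq θ
          linarith
        have e2 : 1 + cos θ ≤ T ^ 2 + q ^ 2 := by
          rw [hTu, hq2]
          linarith
        have e3 : (1 - cos θ) * (1 + cos θ) ≤ 2 * (T ^ 2 + q ^ 2) :=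
          mul_le_mul (by linarith [neg_one_le_cos θ]) e2 (by linarith [neg_one_le_cos θ])
            (by norm_num)
        rw [e1]
        have e4 : (3 / 2 * (T + q)) ^ 2 =
            9 / 4 * (T ^ 2 + q ^ 2) + 9 / 2 * (T * q) := by ring
        rw [e4]
        linarith [mul_nonneg hT hq0.le, sq_nonneg T, sq_nonneg q]
      have h5 : sin θ ^ 3 ≤ 14 * (T ^ 3 + q ^ 3) := by
        have k1 : sin θ ^ 3 ≤ (3 / 2 * (T + q)) ^ 3 := pow_le_pow_left₀ hsθ h4 3
        have k2 : (T + q) ^ 3 ≤ 4 * (T ^ 3 + q ^ 3) := by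
          have k5 := mul_nonneg (add_nonneg hT hq0.le) (sq_nonneg (T - q))
          have k6 : 4 * (T ^ 3 + q ^ 3) - (T + q) ^ 3 = 3 * ((T + q) * (T - q) ^ 2) := by
            ring
          linarith
        have k3 : (3 / 2 * (T + q)) ^ 3 = 27 / 8 * (T + q) ^ 3 := by ring
        have k4 : 0 ≤ T ^ 3 + q ^ 3 := by positivity
        linarith
      have h6 : t ^ 4 ≤ 81 * (sin θ * (14 * (T ^ 3 + q ^ 3))) := by
        calc t ^ 4 ≤ (3 * sin θ) ^ 4 := pow_le_pow_left₀ ht0 h3 4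
          _ = 81 * (sin θ * sin θ ^ 3) := by ring
          _ ≤ _ := mul_le_mul_of_nonneg_left (mul_le_mul_of_nonneg_left h5 hsθ)
            (by norm_num)
      have h7 : q ^ 3 * v / r ^ 3 ≤ 1 / r := by
        have hvq : v ≤ q := by
          rw [hq]
          refine Real.le_sqrt_of_sq_le ?_
          nlinarith
        rw [div_le_div_iff₀ (by positivity) hr0, ← hq2]
        calc q ^ 3 * v * q ^ 2 ≤ q ^ 3 * q * q ^ 2 := by gcongr
          _ = 1 * (q ^ 2) ^ 3 := by ring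
      have h8 : t ^ 2 * v / r ^ 3 * t ^ 2 = t ^ 4 * (v / r ^ 3) := by ring
      have h9 : t ^ 4 * (v / r ^ 3) ≤
          81 * (sin θ * (14 * (T ^ 3 + q ^ 3))) * (v / r ^ 3) :=
        mul_le_mul_of_nonneg_right h6 (by positivity)
      have h10 : 81 * (sin θ * (14 * (T ^ 3 + q ^ 3))) * (v / r ^ 3) =
          1134 * (T ^ 3 * v) * (sin θ / r ^ 3) + 1134 * (sin θ * (q ^ 3 * v / r ^ 3)) := by
        ring
      have h11 : sin θ * (q ^ 3 * v / r ^ 3) ≤ t / r := by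
        calc sin θ * (q ^ 3 * v / r ^ 3) ≤ t * (1 / r) :=
              mul_le_mul (by linarith) h7 (by positivity) ht0
          _ = t / r := by ring
      rw [h8]
      linarith
  have h3 : (2 / r + t ^ 2 * v / r ^ 3) * t ^ 2 =
      2 / r * t ^ 2 + t ^ 2 * v / r ^ 3 * t ^ 2 := by ring
  rw [h3]
  linarith

/-- second integral -/
theorem u6_J2 (n : ℕ) (hn : 2 ≤ n) (α c u v T : ℝ) (hα : 0 < α) (hαπ : α ≤ π) (hc : 0 < c)
    (hv : 0 < v) (hv1 : v ≤ 1) (hT : 0 ≤ T) (hTu : T ^ 2 = 1 + u)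
    (hs : ∀ θ ∈ Icc 0 α, 1 / (n : ℝ) ≤ θ → sin θ + 1 / n ≤ 3 * sin θ)
    (hfar : ∀ θ ∈ Icc 0 α, θ ≤ 1 / (n : ℝ) → 1 ≤ cos θ - u)
    (hr : ∀ θ ∈ Icc 0 α, c * (sin θ + 1 / n) / n ≤ √((cos θ - u) ^ 2 + v ^ 2)) :
    (∫ θ in (0 : ℝ)..α, (2 / √((cos θ - u) ^ 2 + v ^ 2) +
      (sin θ + 1 / n) ^ 2 * v / √((cos θ - u) ^ 2 + v ^ 2) ^ 3) * (sin θ + 1 / n) ^ 2) ≤
      (1138 * (6 * (2 + 4 / c) + 4 / c) + 16 * π) * (1 + Real.log n) + 2268 * (T ^ 3 / v) := by
  have hn0 : (2 : ℝ) ≤ n := by exact_mod_cast hn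
  have hn1 : (0 : ℝ) < n := by linarith
  have hL : 0 ≤ Real.log n := Real.log_nonneg (by linarith)
  have hsin : ∀ θ ∈ Icc 0 α, 0 ≤ sin θ := fun θ hθ =>
    sin_nonneg_of_nonneg_of_le_pi hθ.1 (hθ.2.trans hαπ)
  have hrp : ∀ θ, 0 < √((cos θ - u) ^ 2 + v ^ 2) := fun θ => Real.sqrt_pos.2 (by positivity)
  have hpt : ∀ θ ∈ Icc 0 α, (2 / √((cos θ - u) ^ 2 + v ^ 2) +
      (sin θ + 1 / n) ^ 2 * v / √((cos θ - u) ^ 2 + v ^ 2) ^ 3) * (sin θ + 1 / n) ^ 2 ≤
      1138 * ((sin θ + 1 / n) / √((cos θ - u) ^ 2 + v ^ 2)) +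
      (1134 * (T ^ 3 * v) * (sin θ / √((cos θ - u) ^ 2 + v ^ 2) ^ 3) + 16) := by
    intro θ hθ
    refine u6_pt hn0 (hsin θ hθ) hv hv1 hT hTu (hrp θ) ?_ ?_ (hs θ hθ) (hfar θ hθ)
    · refine Real.le_sqrt_of_sq_le ?_
      nlinarith [sq_nonneg (cos θ - u)]
    · refine Real.le_sqrt_of_sq_le ?_
      nlinarith [sq_nonneg v]
  have hc1 : Continuous fun θ => (2 / √((cos θ - u) ^ 2 + v ^ 2) +
      (sin θ + 1 / (n : ℝ)) ^ 2 * v / √((cos θ - u) ^ 2 + v ^ 2) ^ 3) *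
      (sin θ + 1 / (n : ℝ)) ^ 2 :=
    ((continuous_const.div (by fun_prop) fun θ => (hrp θ).ne').add
      (Continuous.div (by fun_prop) (by fun_prop) fun θ => (pow_pos (hrp θ) 3).ne')).mul
      (by fun_prop)
  have hc2 : Continuous fun θ => sin θ / √((cos θ - u) ^ 2 + v ^ 2) ^ 3 :=
    Continuous.div (by fun_prop) (by fun_prop) fun θ => (pow_pos (hrp θ) 3).ne'
  have hc3 : Continuous fun θ => (sin θ + 1 / (n : ℝ)) / √((cos θ - u) ^ 2 + v ^ 2) :=
    Continuous.div (by fun_prop) (by fun_prop) fun θ => (hrp θ).ne'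
  have i3 : IntervalIntegrable (fun θ => 1138 * ((sin θ + 1 / (n : ℝ)) /
      √((cos θ - u) ^ 2 + v ^ 2))) volume 0 α := (hc3.intervalIntegrable 0 α).const_mul 1138
  have i2 : IntervalIntegrable (fun θ => 1134 * (T ^ 3 * v) * (sin θ /
      √((cos θ - u) ^ 2 + v ^ 2) ^ 3)) volume 0 α :=
    (hc2.intervalIntegrable 0 α).const_mul _
  have i0 : IntervalIntegrable (fun _ : ℝ => (16 : ℝ)) volume 0 α :=
    continuous_const.intervalIntegrable _ _
  have hmono := integral_mono_on hα.le (hc1.intervalIntegrable (μ := volume) 0 α)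
    (i3.add (i2.add i0)) hpt
  refine hmono.trans ?_
  rw [integral_add i3 (i2.add i0), integral_add i2 i0,
    intervalIntegral.integral_const_mul, intervalIntegral.integral_const_mul,
    intervalIntegral.integral_const, smul_eq_mul]
  have hI1 := g2o_I1 n (by omega) α c 3 u v hα hαπ hc (by norm_num) hv hs hr
  have h3 : 1134 * (T ^ 3 * v) * (∫ θ in (0 : ℝ)..α,
      sin θ / √((cos θ - u) ^ 2 + v ^ 2) ^ 3) ≤ 1134 * (T ^ 3 * v) * (2 / v ^ 2) :=
    mul_le_mul_of_nonneg_left (u6_int3 α u v hv) (by positivity)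
  have h5 : 1134 * (T ^ 3 * v) * (2 / v ^ 2) = 2268 * (T ^ 3 / v) := by
    field_simp
    ring
  rw [h5] at h3
  have h6 : (α - 0) * 16 ≤ 16 * π * (1 + Real.log n) := by
    have := mul_nonneg pi_pos.le hL
    nlinarith
  have h7 : 2 * 3 * (2 + 4 / c) * (1 + Real.log n) + 4 / c ≤
      (6 * (2 + 4 / c) + 4 / c) * (1 + Real.log n) := by
    have : 0 ≤ 4 / c * Real.log n := by positivity
    nlinarith
  have h8 : 1138 * (∫ θ in (0 : ℝ)..α, (sin θ + 1 / (n : ℝ)) / √((cos θ - u) ^ 2 + v ^ 2)) ≤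
      1138 * ((6 * (2 + 4 / c) + 4 / c) * (1 + Real.log n)) :=
    mul_le_mul_of_nonneg_left (hI1.trans h7) (by norm_num)
  have h9 : (1138 * (6 * (2 + 4 / c) + 4 / c) + 16 * π) * (1 + Real.log n) =
      1138 * ((6 * (2 + 4 / c) + 4 / c) * (1 + Real.log n)) + 16 * π * (1 + Real.log n) := by
    ring
  rw [h9]
  linarith

theorem u6_fA {x u v r : ℝ} (hx1 : -1 ≤ x) (hx2 : x ≤ 1) (hu : u ≤ -(3 / 4)) (hr : 0 < r)
    (hrq : r ^ 2 = (x - u) ^ 2 + v ^ 2) :
    -(((((1 - X ^ 2) * (1 - X) : ℝ[X])).derivative.eval x * ((x - u) ^ 2 + v ^ 2) -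
      ((1 - x ^ 2) * (1 - X : ℝ[X]).eval x) * (2 * (x - u))) / ((x - u) ^ 2 + v ^ 2) ^ 2) ≤
      8 + 8 * (1 + x) / r ^ 3 := by
  have hxr : |x - u| ≤ r := by
    refine abs_le_of_sq_le_sq ?_ hr.le
    rw [hrq]
    nlinarith [sq_nonneg v]
  have hxr' := (le_abs_self (x - u)).trans hxr
  have e1 : ((((1 - X ^ 2) * (1 - X) : ℝ[X])).derivative.eval x) =
      -((1 - x) * (1 + 3 * x)) := by
    simp only [derivative_mul, derivative_sub, derivative_one, derivative_X_pow,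
      derivative_X, eval_add, eval_mul, eval_sub, eval_one, eval_pow, eval_X, eval_zero]
    push_cast
    simp
    ring
  have e2 : (1 - X : ℝ[X]).eval x = 1 - x := by simp
  rw [← hrq, e1, e2]
  have e3 : -((-((1 - x) * (1 + 3 * x)) * r ^ 2 - (1 - x ^ 2) * (1 - x) *
      (2 * (x - u))) / (r ^ 2) ^ 2) =
      (1 - x) * (1 + 3 * x) / r ^ 2 + (1 + x) * ((1 - x) ^ 2 * (2 * (x - u))) / (r * r ^ 3) := by
    field_simp
    ring
  rw [e3]
  have h1 : (1 - x) * (1 + 3 * x) / r ^ 2 ≤ 8 := by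
    rw [div_le_iff₀ (by positivity)]
    rcases le_total x (-(1 / 3)) with h | h
    · have k1 : (1 - x) * (1 + 3 * x) ≤ 0 :=
        mul_nonpos_of_nonneg_of_nonpos (by linarith) (by linarith)
      have k2 : 0 ≤ 8 * r ^ 2 := by positivity
      linarith
    · have k1 : 5 / 12 ≤ r := by linarith
      have k2 : (5 / 12) ^ 2 ≤ r ^ 2 := pow_le_pow_left₀ (by norm_num) k1 2
      nlinarith [sq_nonneg (x - 1 / 3)]
  have h2 : (1 + x) * ((1 - x) ^ 2 * (2 * (x - u))) / (r * r ^ 3) ≤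
      8 * (1 + x) / r ^ 3 := by
    have k1 : (1 - x) ^ 2 ≤ 4 := by nlinarith
    have k2 : (1 - x) ^ 2 * (2 * (x - u)) ≤ 4 * (2 * r) := by
      calc (1 - x) ^ 2 * (2 * (x - u)) ≤ (1 - x) ^ 2 * (2 * r) :=
            mul_le_mul_of_nonneg_left (by linarith) (by positivity)
        _ ≤ 4 * (2 * r) := mul_le_mul_of_nonneg_right k1 (by positivity)
    rw [div_le_div_iff₀ (by positivity) (by positivity)]
    calc (1 + x) * ((1 - x) ^ 2 * (2 * (x - u))) * r ^ 3 ≤ (1 + x) * (4 * (2 * r)) * r ^ 3 :=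
          mul_le_mul_of_nonneg_right (mul_le_mul_of_nonneg_left k2 (by linarith))
            (by positivity)
      _ = 8 * (1 + x) * (r * r ^ 3) := by ring
  linarith

theorem u6_A (hG0 : G0) {K C c : ℝ} (hK : 0 < K) (hest : U6Est K) (hC : 1 ≤ C) (hc : 0 < c) :
    ∃ n0 : ℕ, ∀ n ≥ n0, ∀ (a : ℝ) (P : ℝ[X]) (z : ℂ), U6S n C c a P z →
    ∃ x ∈ Icc a 1, 4 * ((x - z.re) ^ 2 + z.im ^ 2) <
      (x - a) ^ 2 + ((a - z.re) ^ 2 + z.im ^ 2) := by
  set A : ℝ := 4 * (1 + 1 / c) ^ 3 with hA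
  have hcc : 0 < 1 / c := by positivity
  have hA1 : 1 ≤ A := by
    have h2 := one_le_pow₀ (show 1 ≤ 1 + 1 / c by linarith) (n := 3)
    linarith
  set K7 : ℝ := 544 * π * C ^ 2 + 384 * (1 + 2 * C) with hK7
  have hK7p : 0 < K7 := by positivity
  obtain ⟨n2, hn2⟩ := Filter.eventually_atTop.1
    ((g2o_tend (K * A * K7)).eventually
      (gt_mem_nhds (show (0 : ℝ) < 1 by norm_num)))
  refine ⟨n2, ?_⟩
  intro n hn a P z S
  have hsmall := hn2 n hn
  have hn2' := S.hn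
  have hn0 : (1 : ℝ) ≤ n := by exact_mod_cast (by omega : 1 ≤ n)
  have hnp : (0 : ℝ) < n := by linarith
  have hL : 0 ≤ Real.log n := Real.log_nonneg hn0
  have ha := S.ha
  have ha1 := S.ha1
  have hv := S.hv
  have hs0 : 0 < 1 + a := by linarith
  have hs4 : 1 + a ≤ 1 / 4 := by linarith
  have hu := (abs_le.1 S.hu)
  have hCa := S.hCa
  have hu34 : z.re ≤ -(3 / 4) := by linarith [hu.2]
  by_contra hcon
  push Not at hcon
  set Da : ℝ := (a - z.re) ^ 2 + z.im ^ 2 with hDa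
  have hDap : 0 < Da := by positivity
  set d : ℝ := √Da with hd
  have hd0 : 0 < d := Real.sqrt_pos.2 hDap
  have hd2 : d ^ 2 = Da := Real.sq_sqrt hDap.le
  have hdC : d ≤ 2 * C * (1 + a) := by
    have h1 : d = ‖z - (a : ℂ)‖ := by rw [g2o_norm]
    have h2 : z - (a : ℂ) = (z + 1) - ((1 + a : ℝ) : ℂ) := by
      push_cast
      ring
    rw [h1, h2]
    refine (norm_sub_le _ _).trans ?_
    rw [Complex.norm_real, Real.norm_eq_abs, abs_of_pos hs0]
    have h3 := S.hzC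
    have h4 : 1 * (1 + a) ≤ C * (1 + a) := mul_le_mul_of_nonneg_right hC hs0.le
    linarith
  have hid := g2o_id hG0 (l := 1 - X) (by omega) ha.le (by linarith) S.hE S.hz hv (by
    compute_degree)
  set f : ℝ → ℝ := fun x => ((((1 - X ^ 2) * (1 - X) : ℝ[X])).derivative.eval x *
    ((x - z.re) ^ 2 + z.im ^ 2) - ((1 - x ^ 2) * (1 - X : ℝ[X]).eval x) * (2 * (x - z.re))) /
    ((x - z.re) ^ 2 + z.im ^ 2) ^ 2 with hf
  have hfc : Continuous f := by
    rw [hf]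
    refine Continuous.div (by fun_prop) (by fun_prop) fun x => ?_
    positivity
  have hw1 : ∀ θ ∈ Icc 0 (arccos a), -f (cos θ) ≤
      8 + 8 * (1 + cos θ) / √((cos θ - z.re) ^ 2 + z.im ^ 2) ^ 3 := by
    intro θ hθ
    exact u6_fA (neg_one_le_cos θ) (cos_le_one θ) hu34 (g2o_rp hv z.re θ)
      (Real.sq_sqrt (by positivity))
  have hw2 : ∀ x ∈ Icc 0 (arccos a), ∀ y ∈ Icc 0 (arccos a), |x - y| ≤ 1 / (n : ℝ) →
      8 + 8 * (1 + cos x) / √((cos x - z.re) ^ 2 + z.im ^ 2) ^ 3 ≤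
      A * (8 + 8 * (1 + cos y) / √((cos y - z.re) ^ 2 + z.im ^ 2) ^ 3) := by
    intro x hx y hy hxy
    have h1 := g2o_slow (by omega) z hc (g2o_sn hx) (by rwa [abs_sub_comm] at hxy)
      (S.hr x hx)
    have h0 := u6_slow hn2' ha (by linarith) S.hns hy (by rwa [abs_sub_comm] at hxy)
    set r1 := √((cos x - z.re) ^ 2 + z.im ^ 2) with hr1
    set r2 := √((cos y - z.re) ^ 2 + z.im ^ 2) with hr2
    have hp1 : 0 < r1 := g2o_rp hv z.re x
    have hp2 : 0 < r2 := g2o_rp hv z.re y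
    have hcy : 0 ≤ 1 + cos y := by linarith [neg_one_le_cos y]
    set B : ℝ := 1 + 1 / c with hB
    have hB0 : 0 < B := by positivity
    have h6 : r2 ^ 3 ≤ (B * r1) ^ 3 := pow_le_pow_left₀ hp2.le h1 3
    have h7 : 8 * (1 + cos x) / r1 ^ 3 ≤ A * (8 * (1 + cos y) / r2 ^ 3) := by
      rw [← mul_div_assoc, div_le_div_iff₀ (by positivity) (by positivity)]
      calc 8 * (1 + cos x) * r2 ^ 3 ≤ 8 * (4 * (1 + cos y)) * (B * r1) ^ 3 := by
            refine mul_le_mul (mul_le_mul_of_nonneg_left h0 (by norm_num)) h6 (by positivity)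
              (by positivity)
        _ = A * (8 * (1 + cos y)) * r1 ^ 3 := by
            rw [hA]
            ring
    have h8 : 8 ≤ A * 8 := by linarith
    refine (add_le_add h8 h7).trans_eq ?_
    ring
  have hcw : Continuous fun θ : ℝ =>
      8 + 8 * (1 + cos θ) / √((cos θ - z.re) ^ 2 + z.im ^ 2) ^ 3 :=
    continuous_const.add (Continuous.div (by fun_prop) (by fun_prop)
      fun θ => (pow_pos (g2o_rp hv _ θ) 3).ne')
  have hest1 := hest n a A P (fun x => -f x)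
    (fun θ => 8 + 8 * (1 + cos θ) / √((cos θ - z.re) ^ 2 + z.im ^ 2) ^ 3) hn2' ha.le
    (by linarith) S.hnα (natDegree_le_of_degree_le S.hE.deg) S.hE.bdd S.hND
    hfc.neg.continuousOn hcw.continuousOn (fun θ _ => by
      have := g2o_rp hv z.re θ
      have := neg_one_le_cos θ
      have : 0 ≤ 1 + cos θ := by linarith
      positivity) hw1 hA1 hw2
  have hJ := u6_J1 n hn2' (arccos a) a d (fun θ => √((cos θ - z.re) ^ 2 + z.im ^ 2))
    (by linarith [S.hα]) (arccos_le_pi a) ha (cos_arccos ha.le (by linarith)) hd0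
    (by fun_prop) (g2o_rp hv z.re) (u6_M hn2' ha (by linarith) S.hns)
    (fun θ hθ h => (S.far hθ.1 h).1) (by
      intro θ hθ
      have hx := g2o_cs ha.le (by linarith) hθ
      have h1 := hcon _ hx
      rw [← hd2] at h1
      have h2 : 2 * √((cos θ - z.re) ^ 2 + z.im ^ 2) =
          √(4 * ((cos θ - z.re) ^ 2 + z.im ^ 2)) := by
        rw [Real.sqrt_mul (by norm_num), show (4 : ℝ) = 2 ^ 2 by norm_num,
          Real.sqrt_sq (by norm_num)]
      rw [h2]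
      exact Real.sqrt_le_sqrt h1)
  have e2 : (∫ x in a..1, -f x / √(1 + P.derivative.eval x ^ 2)) =
      (1 - a ^ 2) * (1 - a) / Da * √(1 + P.derivative.eval a ^ 2) := by
    have e3 : (∫ x in a..1, -f x / √(1 + P.derivative.eval x ^ 2)) =
        -∫ x in a..1, f x / √(1 + P.derivative.eval x ^ 2) := by
      rw [← intervalIntegral.integral_neg]
      refine integral_congr fun x _ => ?_
      ring
    have e4 : (1 - X : ℝ[X]).eval a = 1 - a := by simp
    rw [e3, ← hid, e4, neg_neg]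
  rw [e2] at hest1
  have hJ2 : 544 * π + 384 * ((1 + a) / d ^ 2 + 1 / d) ≤ K7 * ((1 + a) / Da) := by
    have k1 : 1 / d ≤ 2 * C * ((1 + a) / Da) := by
      rw [← hd2, ← mul_div_assoc, div_le_div_iff₀ hd0 (by positivity)]
      have k0 := mul_le_mul_of_nonneg_right hdC hd0.le
      calc 1 * d ^ 2 = d * d := by ring
        _ ≤ 2 * C * (1 + a) * d := k0
    have k2 : 1 ≤ C ^ 2 * ((1 + a) / Da) := by
      rw [← hd2, ← mul_div_assoc, le_div_iff₀ (by positivity), one_mul]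
      calc d ^ 2 ≤ (2 * C * (1 + a)) ^ 2 := pow_le_pow_left₀ hd0.le hdC 2
        _ = C ^ 2 * (1 + a) * (4 * (1 + a)) := by ring
        _ ≤ C ^ 2 * (1 + a) * 1 := mul_le_mul_of_nonneg_left (by linarith) (by positivity)
        _ = C ^ 2 * (1 + a) := by ring
    have k3 : 544 * π * 1 ≤ 544 * π * (C ^ 2 * ((1 + a) / Da)) :=
      mul_le_mul_of_nonneg_left k2 (by positivity)
    rw [hd2, hK7]
    linarith
  have h1 : (1 + a) / Da ≤ (1 - a ^ 2) * (1 - a) / Da * √(1 + P.derivative.eval a ^ 2) := by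
    have k1 : 1 ≤ √(1 + P.derivative.eval a ^ 2) := by
      rw [Real.one_le_sqrt]
      linarith [sq_nonneg (P.derivative.eval a)]
    have k2 : 1 + a ≤ (1 - a ^ 2) * (1 - a) := by
      have : (1 - a ^ 2) * (1 - a) = (1 + a) * (1 - a) ^ 2 := by ring
      rw [this]
      exact le_mul_of_one_le_right hs0.le (one_le_pow₀ (by linarith))
    calc (1 + a) / Da ≤ (1 - a ^ 2) * (1 - a) / Da := div_le_div_of_nonneg_right k2 hDap.le
      _ = (1 - a ^ 2) * (1 - a) / Da * 1 := by ring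
      _ ≤ _ := mul_le_mul_of_nonneg_left k1 (div_nonneg (le_trans hs0.le k2) hDap.le)
  have h2 := (h1.trans hest1).trans (mul_le_mul_of_nonneg_left (hJ.trans hJ2)
    (show 0 ≤ K * A * (1 + Real.log n) / n by positivity))
  have h3 : K * A * (1 + Real.log n) / n * (K7 * ((1 + a) / Da)) =
      (K * A * K7 * (1 + Real.log n) / n) * ((1 + a) / Da) := by ring
  rw [h3] at h2
  have h4 : 0 < (1 + a) / Da := by positivity
  have h5 : 1 ≤ K * A * K7 * (1 + Real.log n) / n :=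
    le_of_mul_le_mul_right (by rw [one_mul]; exact h2) h4
  have h6 : K * A * K7 * (1 + Real.log n) / n ≤ K * A * K7 * (1 + Real.log n) ^ 2 / n := by
    refine div_le_div_of_nonneg_right (mul_le_mul_of_nonneg_left ?_ (by positivity)) hnp.le
    exact le_self_pow₀ (by linarith) two_ne_zero
  linarith

theorem u6_B (hG0 : G0) {K C c : ℝ} (hK : 0 < K) (hest : U6Est K) {n : ℕ} {a : ℝ}
    {P : ℝ[X]} {z : ℂ} (S : U6S n C c a P z) (hua : a < z.re) (hvu : z.im ≤ z.re - a) :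
    (1 + a) * √(1 + P.derivative.eval a ^ 2) ≤ 2 * (z.re - a) *
      (K * (4 * (1 + 1 / c) ^ 3) * (1 + Real.log n) / n *
        ((1138 * (6 * (2 + 4 / c) + 4 / c) + 16 * π) * (1 + Real.log n) +
          2268 * (√(1 + z.re) ^ 3 / z.im))) := by
  have hc := S.hc
  have hn2' := S.hn
  have hn0 : (1 : ℝ) ≤ n := by exact_mod_cast (by omega : 1 ≤ n)
  have hnp : (0 : ℝ) < n := by linarith
  have hL : 0 ≤ Real.log n := Real.log_nonneg hn0
  have ha := S.ha
  have ha1 := S.ha1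
  have hv := S.hv
  have hs0 : 0 < 1 + a := by linarith
  have hu := (abs_le.1 S.hu)
  have hCa := S.hCa
  have hv1 := S.hv1
  set Da : ℝ := (a - z.re) ^ 2 + z.im ^ 2 with hDa
  have hDap : 0 < Da := by positivity
  have hid := g2o_id hG0 (l := X - Polynomial.C z.re) (by omega) ha.le (by linarith) S.hE S.hz hv (by
    rw [natDegree_X_sub_C])
  set f : ℝ → ℝ := fun x => ((((1 - X ^ 2) * (X - Polynomial.C z.re) : ℝ[X])).derivative.eval x *
    ((x - z.re) ^ 2 + z.im ^ 2) - ((1 - x ^ 2) * (X - Polynomial.C z.re : ℝ[X]).eval x) *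
      (2 * (x - z.re))) / ((x - z.re) ^ 2 + z.im ^ 2) ^ 2 with hf
  have hfc : Continuous f := by
    rw [hf]
    refine Continuous.div (by fun_prop) (by fun_prop) fun x => ?_
    positivity
  have hw1 : ∀ θ ∈ Icc 0 (arccos a), f (cos θ) ≤
      2 / √((cos θ - z.re) ^ 2 + z.im ^ 2) +
      (sin θ + 1 / n) ^ 2 * z.im / √((cos θ - z.re) ^ 2 + z.im ^ 2) ^ 3 := by
    intro θ hθ
    have hrp := g2o_rp hv z.re θ
    have hrq : √((cos θ - z.re) ^ 2 + z.im ^ 2) ^ 2 = (cos θ - z.re) ^ 2 + z.im ^ 2 :=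
      Real.sq_sqrt (by positivity)
    have h1 := g2o_fB (neg_one_le_cos θ) (cos_le_one θ) hv hrp hrq
    refine h1.trans ?_
    have hsn := g2o_sn hθ
    have h2 : 1 - cos θ ^ 2 ≤ (sin θ + 1 / n) ^ 2 := by
      have e1 : 1 - cos θ ^ 2 = sin θ ^ 2 := by
        have := sin_sq_add_cos_sq θ
        linarith
      rw [e1]
      refine pow_le_pow_left₀ hsn ?_ 2
      have : (0 : ℝ) < 1 / n := by positivity
      linarith
    have h3 : (1 - cos θ ^ 2) * z.im / √((cos θ - z.re) ^ 2 + z.im ^ 2) ^ 3 ≤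
        (sin θ + 1 / n) ^ 2 * z.im / √((cos θ - z.re) ^ 2 + z.im ^ 2) ^ 3 :=
      div_le_div_of_nonneg_right (mul_le_mul_of_nonneg_right h2 hv.le) (by positivity)
    linarith
  have hw2 : ∀ x ∈ Icc 0 (arccos a), ∀ y ∈ Icc 0 (arccos a), |x - y| ≤ 1 / (n : ℝ) →
      2 / √((cos x - z.re) ^ 2 + z.im ^ 2) +
      (sin x + 1 / n) ^ 2 * z.im / √((cos x - z.re) ^ 2 + z.im ^ 2) ^ 3 ≤
      (4 * (1 + 1 / c) ^ 3) * (2 / √((cos y - z.re) ^ 2 + z.im ^ 2) +
      (sin y + 1 / n) ^ 2 * z.im / √((cos y - z.re) ^ 2 + z.im ^ 2) ^ 3) := by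
    intro x hx y hy hxy
    have h1 := g2o_slow (by omega) z hc (g2o_sn hx) (by rwa [abs_sub_comm] at hxy)
      (S.hr x hx)
    set r1 := √((cos x - z.re) ^ 2 + z.im ^ 2) with hr1
    set r2 := √((cos y - z.re) ^ 2 + z.im ^ 2) with hr2
    have hp1 : 0 < r1 := g2o_rp hv z.re x
    have hp2 : 0 < r2 := g2o_rp hv z.re y
    have hcc : 0 < 1 / c := by positivity
    set B : ℝ := 1 + 1 / c with hB
    have hB1 : 1 ≤ B := by linarith
    have hB3 : B ≤ 4 * B ^ 3 := by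
      have h21 : B ≤ B ^ 3 := le_self_pow₀ hB1 (by norm_num)
      have h22 : 0 ≤ B ^ 3 := by positivity
      linarith
    have h2 : 2 / r1 ≤ (4 * B ^ 3) * (2 / r2) := by
      have h21 : 2 / r1 ≤ B * (2 / r2) := by
        rw [← mul_div_assoc, div_le_div_iff₀ hp1 hp2]
        linarith
      exact h21.trans (mul_le_mul_of_nonneg_right hB3 (by positivity))
    have hsx := g2o_sn hx
    have hsy := g2o_sn hy
    have h1n : (0 : ℝ) < 1 / n := by positivity
    have hss : sin x + 1 / n ≤ 2 * (sin y + 1 / n) := by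
      have h3 : |sin x - sin y| ≤ |x - y| := by
        have := Real.abs_sin_sub_sin_le x y
        simpa using this
      have h4 := (le_abs_self _).trans (h3.trans hxy)
      linarith
    have h5 : (sin x + 1 / n) ^ 2 ≤ 4 * (sin y + 1 / n) ^ 2 := by
      calc (sin x + 1 / n) ^ 2 ≤ (2 * (sin y + 1 / n)) ^ 2 :=
            pow_le_pow_left₀ (by positivity) hss 2
        _ = 4 * (sin y + 1 / n) ^ 2 := by ring
    have h6 : r2 ^ 3 ≤ (B * r1) ^ 3 := pow_le_pow_left₀ hp2.le h1 3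
    have h7 : (sin x + 1 / n) ^ 2 * z.im / r1 ^ 3 ≤
        (4 * B ^ 3) * ((sin y + 1 / n) ^ 2 * z.im / r2 ^ 3) := by
      rw [← mul_div_assoc, div_le_div_iff₀ (by positivity) (by positivity)]
      calc (sin x + 1 / n) ^ 2 * z.im * r2 ^ 3
          ≤ (4 * (sin y + 1 / n) ^ 2) * z.im * (B * r1) ^ 3 := by
            refine mul_le_mul (mul_le_mul_of_nonneg_right h5 hv.le) h6 (by positivity)
              (by positivity)
        _ = 4 * B ^ 3 * ((sin y + 1 / n) ^ 2 * z.im) * r1 ^ 3 := by ring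
    refine (add_le_add h2 h7).trans_eq ?_
    ring
  have hcw : Continuous fun θ : ℝ => 2 / √((cos θ - z.re) ^ 2 + z.im ^ 2) +
      (sin θ + 1 / n) ^ 2 * z.im / √((cos θ - z.re) ^ 2 + z.im ^ 2) ^ 3 :=
    (continuous_const.div (by fun_prop) fun θ => (g2o_rp hv _ θ).ne').add
      (Continuous.div (by fun_prop) (by fun_prop) fun θ => (pow_pos (g2o_rp hv _ θ) 3).ne')
  have hest1 := hest n a (4 * (1 + 1 / c) ^ 3) P f
    (fun θ => 2 / √((cos θ - z.re) ^ 2 + z.im ^ 2) +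
      (sin θ + 1 / n) ^ 2 * z.im / √((cos θ - z.re) ^ 2 + z.im ^ 2) ^ 3) hn2' ha.le
    (by linarith) S.hnα (natDegree_le_of_degree_le S.hE.deg) S.hE.bdd S.hND hfc.continuousOn
    hcw.continuousOn (fun θ hθ => by
      have := g2o_rp hv z.re θ
      positivity) hw1 (by
      have h1 : 0 < 1 / c := by positivity
      have h2 := one_le_pow₀ (show 1 ≤ 1 + 1 / c by linarith) (n := 3)
      linarith) hw2
  have hJ := u6_J2 n hn2' (arccos a) c z.re z.im (√(1 + z.re)) (by linarith [S.hα])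
    (arccos_le_pi a) hc hv (by linarith) (Real.sqrt_nonneg _) (Real.sq_sqrt (by linarith))
    (u6_M hn2' ha (by linarith) S.hns) (fun θ hθ h => (S.far hθ.1 h).2) S.hr
  rw [← hid] at hest1
  have e4 : (X - Polynomial.C z.re : ℝ[X]).eval a = a - z.re := by simp
  rw [e4] at hest1
  set Φ : ℝ := √(1 + P.derivative.eval a ^ 2) with hΦ
  have hΦ0 : 0 < Φ := Real.sqrt_pos.2 (by positivity)
  set U : ℝ := z.re - a with hU
  have hU0 : 0 < U := by linarith
  have h1 : -((1 - a ^ 2) * (a - z.re) / Da * Φ) = (1 - a ^ 2) * U / Da * Φ := by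
    rw [hU]
    ring
  rw [h1] at hest1
  have hDaU : Da ≤ 2 * U ^ 2 := by
    have e5 : (a - z.re) ^ 2 = U ^ 2 := by rw [hU]; ring
    rw [hDa, e5]
    have : z.im ^ 2 ≤ U ^ 2 := pow_le_pow_left₀ hv.le hvu 2
    linarith
  have h2 : (1 + a) * Φ / (2 * U) ≤ (1 - a ^ 2) * U / Da * Φ := by
    have h3 : (1 + a) / (2 * U) ≤ (1 - a ^ 2) * U / Da := by
      rw [div_le_div_iff₀ (by positivity) hDap]
      have h4 : 1 + a ≤ 1 - a ^ 2 := by
        have k6 := mul_nonneg (show 0 ≤ -a by linarith) hs0.le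
        have k7 : -a * (1 + a) = -a - a ^ 2 := by ring
        rw [k7] at k6
        linarith
      calc (1 + a) * Da ≤ (1 - a ^ 2) * (2 * U ^ 2) :=
            mul_le_mul h4 hDaU hDap.le (by linarith)
        _ = (1 - a ^ 2) * U * (2 * U) := by ring
    calc (1 + a) * Φ / (2 * U) = (1 + a) / (2 * U) * Φ := by ring
      _ ≤ _ := mul_le_mul_of_nonneg_right h3 hΦ0.le
  have h5 := (h2.trans hest1).trans (mul_le_mul_of_nonneg_left hJ
    (show 0 ≤ K * (4 * (1 + 1 / c) ^ 3) * (1 + Real.log n) / n by positivity))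
  rw [div_le_iff₀ (by positivity)] at h5
  calc (1 + a) * Φ ≤ _ := h5
    _ = _ := by ring

theorem u6_au (hG2av : G2av) : G2au := by
  obtain ⟨K, hK, h⟩ := hG2av
  refine ⟨2 * K, by positivity, ?_⟩
  intro n a b A P w hn ha hab hb hnab hP hB hND hw hw0 hA hAw
  refine (h n a b A P w hn ha hab hb hnab hP hB hND hw hw0 hA hAw).trans ?_
  have hn0 : (1 : ℝ) ≤ n := by exact_mod_cast (by omega : 1 ≤ n)
  have hnp : (0 : ℝ) < n := by linarith
  have hL : 0 ≤ Real.log n := Real.log_nonneg hn0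
  have hle : arccos b ≤ arccos a := arccos_le_arccos hab.le
  have h1 : (∫ θ in (arccos b)..(arccos a), w θ * (sin θ + 1 / n) ^ 2) ≤
      ∫ θ in (arccos b)..(arccos a), 2 * (w θ * (sin θ + 1 / n)) := by
    have i1 : IntervalIntegrable (fun θ => w θ * (sin θ + 1 / (n : ℝ)) ^ 2) volume
        (arccos b) (arccos a) := by
      refine ContinuousOn.intervalIntegrable ?_
      rw [uIcc_of_le hle]
      exact hw.mul (by fun_prop)
    have i2 : IntervalIntegrable (fun θ => 2 * (w θ * (sin θ + 1 / (n : ℝ)))) volume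
        (arccos b) (arccos a) := by
      refine ContinuousOn.intervalIntegrable ?_
      rw [uIcc_of_le hle]
      exact continuousOn_const.mul (hw.mul (by fun_prop))
    refine integral_mono_on hle i1 i2 fun θ hθ => ?_
    have h2 : 1 / (n : ℝ) ≤ 1 := by
      rw [div_le_one (by linarith)]
      exact hn0
    have h3 : 0 ≤ sin θ := sin_nonneg_of_nonneg_of_le_pi ((arccos_nonneg b).trans hθ.1)
      (hθ.2.trans (arccos_le_pi a))
    have h4 : (sin θ + 1 / (n : ℝ)) ^ 2 ≤ 2 * (sin θ + 1 / n) := by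
      have h5 : 0 ≤ sin θ + 1 / (n : ℝ) := by positivity
      have h6 : sin θ + 1 / (n : ℝ) ≤ 2 := by linarith [sin_le_one θ]
      nlinarith
    calc w θ * (sin θ + 1 / n) ^ 2 ≤ w θ * (2 * (sin θ + 1 / n)) :=
          mul_le_mul_of_nonneg_left h4 (hw0 θ hθ)
      _ = 2 * (w θ * (sin θ + 1 / n)) := by ring
  rw [intervalIntegral.integral_const_mul] at h1
  refine (mul_le_mul_of_nonneg_left h1 (by positivity)).trans_eq ?_
  ring

theorem u6_conseq {x a u v : ℝ} (hx1 : a ≤ x)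
    (h : 4 * ((x - u) ^ 2 + v ^ 2) < (x - a) ^ 2 + ((a - u) ^ 2 + v ^ 2)) :
    a < u ∧ v < u - a := by
  have h1 : a < u := by
    by_contra h'
    push Not at h'
    nlinarith [mul_nonneg (show 0 ≤ x - a by linarith) (show 0 ≤ a - u by linarith),
      sq_nonneg (x - u), sq_nonneg v]
  refine ⟨h1, ?_⟩
  by_contra h'
  push Not at h'
  have h2 : (u - a) ^ 2 ≤ v ^ 2 := pow_le_pow_left₀ (by linarith) h' 2
  nlinarith [sq_nonneg ((x - u) - (u - a)), sq_nonneg (x - u)]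

theorem u6 (hG0 : G0) (hG0u : G0u) (hG1u : G1u) (hG2av : G2av) : U6 := by
  intro C0 hC0
  set C : ℝ := max C0 1 with hCdef
  have hC : 1 ≤ C := le_max_right _ _
  have hC0C : C0 ≤ C := le_max_left _ _
  set δ : ℝ := 1 / (4 * C) with hδdef
  have hδ : 0 < δ := by positivity
  have hδ4 : δ ≤ 1 / 4 := by
    rw [hδdef]
    exact one_div_le_one_div_of_le (by norm_num) (by linarith)
  have hCδ : C * δ = 1 / 4 := by
    rw [hδdef]
    field_simp
  obtain ⟨Kg, hKg, ng, hg⟩ := g2o a1 (a2 a1) hG0 hG0u hG1u (u6_au hG2av) δ hδ hδ4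
  obtain ⟨K, hK, hest⟩ := u6_est hG0u hG2av
  obtain ⟨c, hc, hG1⟩ := hG1u
  obtain ⟨nA, hA⟩ := u6_A hG0 hK hest hC hc
  set B1 : ℝ := 4 * (1 + 1 / c) ^ 3 with hB1
  set E : ℝ := 1138 * (6 * (2 + 4 / c) + 4 / c) + 16 * π with hE1
  have hB1p : 0 < B1 := by positivity
  have hE1p : 0 < E := by positivity
  set K4 : ℝ := K * B1 * (E + 2268 * C ^ 3) with hK4
  have hK4p : 0 < K4 := by positivity
  set K1 : ℝ := 4 * C * K4 with hK1
  have hK1p : 0 < K1 := by positivity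
  set K2 : ℝ := 2 * K4 * (K1 + 1) / c with hK2
  have hK2p : 0 < K2 := by positivity
  obtain ⟨n3, hn3⟩ := Filter.eventually_atTop.1
    ((g2o_tend (1 + K1)).eventually (gt_mem_nhds (show (0 : ℝ) < 1 by norm_num)))
  refine ⟨Kg + K1 + K2, by positivity, max 2 (max ng (max nA n3)), ?_⟩
  intro n hn a P z ha ha0 hns hE hND hz hv hzC
  have hn2 : 2 ≤ n := le_trans (le_max_left _ _) hn
  have hnn := le_trans (le_max_right _ _) hn
  have hng : ng ≤ n := le_trans (le_max_left _ _) hnn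
  have hnn' := le_trans (le_max_right _ _) hnn
  have hnA : nA ≤ n := le_trans (le_max_left _ _) hnn'
  have hnn3 : n3 ≤ n := le_trans (le_max_right _ _) hnn'
  have hn0 : (1 : ℝ) ≤ n := by exact_mod_cast (by omega : 1 ≤ n)
  have hnp : (0 : ℝ) < n := by linarith
  have hL : 0 ≤ Real.log n := Real.log_nonneg hn0
  have hsm := hn3 n hnn3
  set Ln : ℝ := 1 + Real.log n with hLn
  have hLn1 : 1 ≤ Ln := by linarith
  have hLnp : 0 < Ln := by linarith
  -- it is enough to prove the two bounds with smaller constants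
  suffices h : (z.im ≤ Kg * Ln / n ∨ z.im ≤ K1 * Ln / n) ∧
      (a + 1 / (Kg * Ln) ≤ z.re ∨ a + 1 / (K2 * Ln) ≤ z.re) by
    constructor
    · rcases h.1 with h1 | h1
      · refine h1.trans (div_le_div_of_nonneg_right (mul_le_mul_of_nonneg_right ?_ hLnp.le)
          hnp.le)
        linarith
      · refine h1.trans (div_le_div_of_nonneg_right (mul_le_mul_of_nonneg_right ?_ hLnp.le)
          hnp.le)
        linarith
    · rcases h.2 with h1 | h1
      · refine le_trans ?_ h1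
        have : 1 / ((Kg + K1 + K2) * Ln) ≤ 1 / (Kg * Ln) :=
          one_div_le_one_div_of_le (by positivity)
            (mul_le_mul_of_nonneg_right (by linarith) hLnp.le)
        linarith
      · refine le_trans ?_ h1
        have : 1 / ((Kg + K1 + K2) * Ln) ≤ 1 / (K2 * Ln) :=
          one_div_le_one_div_of_le (by positivity)
            (mul_le_mul_of_nonneg_right (by linarith) hLnp.le)
        linarith
  rcases le_or_gt (-1 + δ) a with haδ | haδ
  · have h1 := hg n hng a P z haδ (by linarith) hE hND hz hv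
    exact ⟨Or.inl h1.1, Or.inl h1.2.1⟩
  have hs0 : 0 < 1 + a := by linarith
  have hCa : C * (1 + a) ≤ 1 / 4 := by
    rw [← hCδ]
    exact mul_le_mul_of_nonneg_left (by linarith) (by linarith)
  have S : U6S n C c a P z := by
    refine ⟨hn2, hC, hc, ha, hCa, hns, hE, hND, hz, hv,
      hzC.trans (mul_le_mul_of_nonneg_right hC0C hs0.le), ?_⟩
    intro θ hθ
    have h1 := hG1 n a 1 P (by omega) ha.le (by linarith) le_rfl
      (natDegree_le_of_degree_le hE.deg) hE.bdd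
      (by rw [arccos_one]; exact hND) z hz (Or.inl hv.ne') θ (by rw [arccos_one]; exact hθ)
    rwa [g2o_norm] at h1
  obtain ⟨x, hx, hAx⟩ := hA n hnA a P z S
  obtain ⟨hua, hvu⟩ := u6_conseq hx.1 hAx
  have hB := u6_B hG0 hK hest S hua hvu.le
  have hu := (abs_le.1 S.hu)
  rw [← hB1, ← hE1, ← hLn] at hB
  set u := z.re with hudef
  set v := z.im with hvdef
  set Φ : ℝ := √(1 + P.derivative.eval a ^ 2) with hΦ
  have hΦ1 : 1 ≤ Φ := by
    rw [hΦ, Real.one_le_sqrt]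
    linarith [sq_nonneg (P.derivative.eval a)]
  set τ : ℝ := √(1 + a) with hτ
  have hτ0 : 0 < τ := Real.sqrt_pos.2 hs0
  have hτ2 : τ ^ 2 = 1 + a := Real.sq_sqrt hs0.le
  have hτ1 : τ ≤ 1 := by
    rw [hτ]
    refine (Real.sqrt_le_left (by norm_num)).2 ?_
    linarith [S.ha1]
  set T : ℝ := √(1 + u) with hT
  have hT0 : 0 ≤ T := Real.sqrt_nonneg _
  have hTτ : T ≤ C * τ := by
    rw [hT]
    refine (Real.sqrt_le_left (by positivity)).2 ?_
    have h1 : (C * τ) ^ 2 = C * (C * (1 + a)) := by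
      rw [mul_pow, hτ2]
      ring
    rw [h1]
    have h2 : 0 ≤ C * (1 + a) := by positivity
    exact hu.2.trans (le_mul_of_one_le_left h2 hC)
  have hT3 : T ^ 3 ≤ C ^ 3 * τ ^ 3 := by
    rw [← mul_pow]
    exact pow_le_pow_left₀ hT0 hTτ 3
  set W : ℝ := τ ^ 3 / v with hW
  have hW0 : 0 < W := by positivity
  have hU0 : 0 < u - a := by linarith
  have hUC : u - a ≤ C * (1 + a) := by linarith [hu.2]
  -- the basic inequality
  have hB2 : τ ^ 2 * Φ ≤ 2 * (u - a) * (K4 * (Ln / n) * (Ln + W)) := by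
    rw [hτ2]
    refine hB.trans (mul_le_mul_of_nonneg_left ?_ (by linarith))
    have h1 : T ^ 3 / v ≤ C ^ 3 * W := by
      rw [hW, ← mul_div_assoc]
      exact div_le_div_of_nonneg_right hT3 hv.le
    have h2 : E * Ln + 2268 * (T ^ 3 / v) ≤ (E + 2268 * C ^ 3) * (Ln + W) := by
      have k1 : 0 ≤ E * W := by positivity
      have k2 : 0 ≤ 2268 * C ^ 3 * Ln := by positivity
      have k3 : (E + 2268 * C ^ 3) * (Ln + W) =
          E * Ln + E * W + 2268 * C ^ 3 * Ln + 2268 * (C ^ 3 * W) := by ring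
      rw [k3]
      linarith
    calc K * B1 * Ln / n * (E * Ln + 2268 * (T ^ 3 / v)) ≤
          K * B1 * Ln / n * ((E + 2268 * C ^ 3) * (Ln + W)) :=
          mul_le_mul_of_nonneg_left h2 (by positivity)
      _ = K4 * (Ln / n) * (Ln + W) := by
          rw [hK4]
          ring
  have hsm1 : Ln ^ 2 / n ≤ 1 := by
    have h1 : (1 + K1) * Ln ^ 2 / n = Ln ^ 2 / n + K1 * (Ln ^ 2 / n) := by ring
    have h2 : 0 ≤ K1 * (Ln ^ 2 / n) := by positivity
    linarith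
  have hsm2 : K1 * (Ln ^ 2 / n) ≤ 1 := by
    have h1 : (1 + K1) * Ln ^ 2 / n = Ln ^ 2 / n + K1 * (Ln ^ 2 / n) := by ring
    have h2 : 0 ≤ Ln ^ 2 / n := by positivity
    linarith
  -- upper bound for `v`
  have hv1 : v ≤ K1 * (Ln / n) * τ ^ 3 := by
    have h1 : τ ^ 2 * Φ ≤ 2 * (C * τ ^ 2) * (K4 * (Ln / n) * (Ln + W)) := by
      refine hB2.trans (mul_le_mul_of_nonneg_right ?_ (by positivity))
      rw [hτ2]
      linarith
    have h2 : τ ^ 2 * 1 ≤ τ ^ 2 * (2 * C * (K4 * (Ln / n) * (Ln + W))) := by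
      calc τ ^ 2 * 1 ≤ τ ^ 2 * Φ := mul_le_mul_of_nonneg_left hΦ1 (by positivity)
        _ ≤ _ := h1
        _ = _ := by ring
    have h3 : 1 ≤ 2 * C * (K4 * (Ln / n) * (Ln + W)) :=
      le_of_mul_le_mul_left h2 (by positivity)
    have h4 : 2 * C * (K4 * (Ln / n) * (Ln + W)) =
        1 / 2 * (K1 * (Ln ^ 2 / n)) + 1 / 2 * (K1 * (Ln / n) * W) := by
      rw [hK1]
      ring
    rw [h4] at h3
    have h5 : 1 ≤ K1 * (Ln / n) * W := by linarith
    rw [hW, ← mul_div_assoc, le_div_iff₀ hv, one_mul] at h5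
    exact h5
  have hv2 : v ≤ K1 * Ln / n := by
    refine hv1.trans ?_
    have h1 : τ ^ 3 ≤ 1 := pow_le_one₀ hτ0.le hτ1
    calc K1 * (Ln / n) * τ ^ 3 ≤ K1 * (Ln / n) * 1 :=
          mul_le_mul_of_nonneg_left h1 (by positivity)
      _ = K1 * Ln / n := by ring
  -- lower bound for `v`
  have hv3 : c * τ / n ≤ v := by
    have hu1 : u < 1 := by linarith [hu.2]
    have k1 : arccos u ∈ Icc 0 (arccos a) := ⟨arccos_nonneg _, arccos_le_arccos hua.le⟩
    have k2 := S.hr _ k1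
    rw [cos_arccos (by linarith) hu1.le, sin_arccos, sub_self] at k2
    have k3 : √(0 ^ 2 + v ^ 2) = v := by
      rw [zero_pow two_ne_zero, zero_add]
      exact Real.sqrt_sq hv.le
    rw [k3] at k2
    refine le_trans ?_ k2
    have k4 : τ ≤ √(1 - u ^ 2) := by
      rw [hτ]
      refine Real.sqrt_le_sqrt ?_
      have k5 : u ≤ 0 := by linarith [hu.2]
      have k6 := mul_nonneg (show 0 ≤ -u by linarith) (show 0 ≤ 1 + u by linarith)
      have k7 : -u * (1 + u) = -u - u ^ 2 := by ring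
      rw [k7] at k6
      linarith
    refine div_le_div_of_nonneg_right (mul_le_mul_of_nonneg_left ?_ hc.le) hnp.le
    have : (0 : ℝ) < 1 / n := by positivity
    linarith
  have hcτ : c ≤ K1 * Ln * τ ^ 2 := by
    have h1 := hv3.trans hv1
    rw [div_le_iff₀ hnp] at h1
    have h2 : K1 * (Ln / n) * τ ^ 3 * n = (K1 * Ln * τ ^ 2) * τ := by
      field_simp
    rw [h2] at h1
    exact le_of_mul_le_mul_right h1 hτ0
  have hWn : W ≤ n * τ ^ 2 / c := by
    rw [hW, div_le_div_iff₀ hv hc]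
    rw [div_le_iff₀ hnp] at hv3
    calc τ ^ 3 * c = τ ^ 2 * (c * τ) := by ring
      _ ≤ τ ^ 2 * (v * n) := mul_le_mul_of_nonneg_left hv3 (by positivity)
      _ = n * τ ^ 2 * v := by ring
  have hfin : 1 ≤ K2 * Ln * (u - a) := by
    have h1 : (Ln / n) * (Ln + W) ≤ (K1 + 1) / c * Ln * τ ^ 2 := by
      have k1 : (Ln / n) * (Ln + W) ≤ (Ln / n) * (Ln + n * τ ^ 2 / c) :=
        mul_le_mul_of_nonneg_left (by linarith) (by positivity)
      have k2 : (Ln / n) * (Ln + n * τ ^ 2 / c) = Ln ^ 2 / n + 1 / c * Ln * τ ^ 2 := by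
        field_simp
      have k3 : 1 ≤ K1 / c * Ln * τ ^ 2 := by
        have : K1 / c * Ln * τ ^ 2 = (K1 * Ln * τ ^ 2) / c := by ring
        rw [this, le_div_iff₀ hc, one_mul]
        exact hcτ
      have k4 : (K1 + 1) / c * Ln * τ ^ 2 = K1 / c * Ln * τ ^ 2 + 1 / c * Ln * τ ^ 2 := by
        ring
      linarith
    have h2 : τ ^ 2 * 1 ≤ τ ^ 2 * (K2 * Ln * (u - a)) := by
      calc τ ^ 2 * 1 ≤ τ ^ 2 * Φ := mul_le_mul_of_nonneg_left hΦ1 (by positivity)
        _ ≤ _ := hB2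
        _ = 2 * (u - a) * K4 * ((Ln / n) * (Ln + W)) := by ring
        _ ≤ 2 * (u - a) * K4 * ((K1 + 1) / c * Ln * τ ^ 2) :=
            mul_le_mul_of_nonneg_left h1 (by positivity)
        _ = τ ^ 2 * (K2 * Ln * (u - a)) := by
            rw [hK2]
            ring
    exact le_of_mul_le_mul_left h2 (by positivity)
  refine ⟨Or.inr hv2, Or.inr ?_⟩
  have h1 : 1 / (K2 * Ln) ≤ u - a := by
    rw [div_le_iff₀ (by positivity)]
    linarith
  linarith

end Pool.Agent.Helper10.AL
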