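import Pool.Agent.Helper10.AL.St6
import Pool.Agent.Helper10.AL.P.G0u
import Pool.Agent.Helper10.AL.P.G2au
import Pool.Agent.Helper10.AL.P.M3

/-!
Arc length of polynomials over windows `[a, 1]`, large degree: piece U6r.
-/

set_option autoImplicit false

namespace Pool.Agent.Helper10.AL

open Polynomial Set Real MeasureTheory intervalIntegral
open Pool.Agent.Helper40.AS (arc Bdd Ext quad)
open Pool.Agent.Helper40

theorem u6r_lim (ε : ℝ) (hε : 0 < ε) : ∃ n0 : ℕ, ∀ n : ℕ, n ≥ n0 →
    (1 + Real.log n) / n < ε := by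
  have h1 : Filter.Tendsto (fun n : ℕ => (1 + Real.log n) / (n : ℝ)) Filter.atTop
      (nhds 0) := by
    have h2 : Filter.Tendsto (fun x : ℝ => Real.log x / x) Filter.atTop (nhds 0) := by
      simpa using Real.tendsto_pow_log_div_mul_add_atTop 1 0 1 one_ne_zero
    have h3 := h2.comp tendsto_natCast_atTop_atTop
    have h4 : Filter.Tendsto (fun n : ℕ => 1 / (n : ℝ)) Filter.atTop (nhds 0) :=
      tendsto_one_div_atTop_nhds_zero_nat
    have h5 := h4.add h3
    rw [add_zero] at h5
    refine h5.congr fun n => ?_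
    simp only [Function.comp_apply]
    ring
  obtain ⟨n0, h⟩ := Filter.eventually_atTop.1 (h1.eventually (gt_mem_nhds hε))
  exact ⟨n0, h⟩

/-- the integral of `1 / S` over a window `[a, 1]` -/
theorem u6r_int (hM1 : M1) (hA1 : A1) (hA2 : A2) : ∃ K : ℝ, 0 < K ∧ ∀ (n : ℕ) (a : ℝ)
    (P : ℝ[X]), 2 ≤ n → -1 ≤ a → a ≤ 0 → P.natDegree ≤ n → Bdd P →
    ND n (qq P) 0 (arccos a) →
    (∫ x in a..1, 1 / √(1 + P.derivative.eval x ^ 2)) ≤ K * ((1 + Real.log n) / n) := by
  obtain ⟨K1, hK1, hM⟩ := hM1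
  refine ⟨2 * π * K1, by positivity, fun n a P hn ha ha0 hdeg hbdd hND => ?_⟩
  have hn1 : 1 ≤ n := by omega
  have hnR : (1 : ℝ) ≤ n := by exact_mod_cast hn1
  have hnpos : (0 : ℝ) < n := by linarith
  have hlog : 0 ≤ Real.log n := Real.log_nonneg hnR
  have hTB : TB n (qq P) := hA2.2.1 n P hdeg hbdd
  have hc1 : Continuous (deriv (qq P)) := by
    have h := (hA1.1 n (qq P) hTB.1).1 1
    exact h.continuous_deriv (by norm_num)
  have hpos : ∀ y : ℝ, 0 < 1 + y ^ 2 := fun y => by positivity
  have hg : Continuous fun θ => 1 / √(1 + (deriv (qq P) θ) ^ 2) := by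
    apply continuous_const.div
    · exact (continuous_const.add (hc1.pow 2)).sqrt
    · intro θ
      exact (Real.sqrt_pos.mpr (hpos _)).ne'
  have hg0 : ∀ θ, 0 ≤ 1 / √(1 + (deriv (qq P) θ) ^ 2) := fun θ => by positivity
  have hα : 1 ≤ arccos a := by
    have h1 : arccos 0 ≤ arccos a := arccos_le_arccos ha0
    rw [arccos_zero] at h1
    linarith [Real.pi_gt_three]
  have hαπ : arccos a ≤ π := arccos_le_pi a
  have hinv : (1 : ℝ) / n ≤ 1 := by
    rw [div_le_one hnpos]
    exact hnR
  have hM0 : 0 ≤ K1 * (1 + Real.log n) / (n : ℝ) ^ 2 := by positivity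
  have hmain := m3 n (fun θ => 1 / √(1 + (deriv (qq P) θ) ^ 2)) (fun _ => 1) 0 (arccos a) 1
    (K1 * (1 + Real.log n) / (n : ℝ) ^ 2) hn1 hg continuousOn_const hg0
    (fun _ _ => zero_le_one) (by linarith) hM0 le_rfl
    (fun x y hx hxy hy hyx => (hM n (qq P) x y hn hTB hxy hyx
      (fun θ hθ => hND θ ⟨hx.trans hθ.1, hθ.2.trans hy⟩)).2)
    (fun _ _ _ _ _ => by norm_num)
  have h1 := g0u a 1 P (fun _ => 1) ha (by linarith) le_rfl continuousOn_const
  rw [arccos_one] at h1
  rw [h1]
  have h2 : (∫ θ in (0 : ℝ)..(arccos a),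
      (1 : ℝ) * (sin θ ^ 2 / √(sin θ ^ 2 + deriv (qq P) θ ^ 2))) ≤
      ∫ θ in (0 : ℝ)..(arccos a), (1 : ℝ) * (1 / √(1 + (deriv (qq P) θ) ^ 2)) := by
    have hgi : IntervalIntegrable (fun θ => (1 : ℝ) * (1 / √(1 + (deriv (qq P) θ) ^ 2)))
        volume 0 (arccos a) := (continuous_const.mul hg).intervalIntegrable _ _
    by_cases hint : IntervalIntegrable
        (fun θ => (1 : ℝ) * (sin θ ^ 2 / √(sin θ ^ 2 + deriv (qq P) θ ^ 2))) volume
        0 (arccos a)
    · apply intervalIntegral.integral_mono_on (by linarith) hint hgi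
      intro θ hθ
      have hs : 0 ≤ sin θ := sin_nonneg_of_nonneg_of_le_pi hθ.1 (hθ.2.trans hαπ)
      have h3 := g2au_pt (sin θ) (deriv (qq P) θ) hs (sin_le_one θ)
      have h4 : sin θ * (1 / √(1 + deriv (qq P) θ ^ 2)) ≤
          1 * (1 / √(1 + deriv (qq P) θ ^ 2)) :=
        mul_le_mul_of_nonneg_right (sin_le_one θ) (hg0 θ)
      rw [one_mul]
      exact h3.trans h4
    · rw [intervalIntegral.integral_undef hint]
      apply intervalIntegral.integral_nonneg (by linarith)
      intro θ _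
      rw [one_mul]
      exact hg0 θ
  have h5 : (∫ _θ in (0 : ℝ)..(arccos a), (1 : ℝ)) = arccos a := by simp
  rw [h5] at hmain
  refine h2.trans (hmain.trans ?_)
  have e : 2 * π * K1 * ((1 + Real.log n) / n) =
      2 * (n : ℝ) * 1 * (K1 * (1 + Real.log n) / (n : ℝ) ^ 2) * π := by
    field_simp
  rw [e]
  exact mul_le_mul_of_nonneg_left hαπ (by positivity)

theorem u6r (hM1 : M1) (hA1 : A1) (hA2 : A2) (hX1 : X1) : U6r := by
  intro c hc
  obtain ⟨K, hK, hint⟩ := u6r_int hM1 hA1 hA2
  obtain ⟨n0, hn0⟩ := u6r_lim (1 / (K * (1 + c))) (by positivity)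
  refine ⟨max n0 2, fun n hn a y P ha ha0 h hND hy hyC hPy => ?_⟩
  have hn2 : 2 ≤ n := le_trans (le_max_right _ _) hn
  have hlim := hn0 n (le_trans (le_max_left _ _) hn)
  have hnd : P.natDegree ≤ n := natDegree_le_of_degree_le h.deg
  have hI := hint n a P hn2 ha.le ha0 hnd h.bdd hND
  obtain ⟨R, hR⟩ := dvd_iff_isRoot.2 hPy
  have hW : (1 - X ^ 2 : ℝ[X]).natDegree ≤ 2 := by
    refine (natDegree_sub_le _ _).trans ?_
    rw [natDegree_one, natDegree_X_pow]
    norm_num
  have key := hX1 n a 1 P (X - C y) R (1 - X ^ 2) (by omega) ha.le (by linarith) le_rfl h hR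
    (by rw [natDegree_X_sub_C]; omega)
    (fun x hx hx1 => by
      have h1 := AS.contact_int h.bdd hx hx1
      rw [hR, eval_mul, eval_sub, eval_C, eval_X] at h1
      rcases mul_eq_zero.1 h1 with h2 | h2
      · exfalso
        linarith [hx.1]
      · exact h2)
    (fun _ => by simp) (fun _ => by simp)
    (fun x hx => by
      rw [eval_sub, eval_C, eval_X]
      have := hx.1
      intro h0
      linarith)
  simp only [eval_sub, eval_one, eval_pow, eval_X, eval_C, derivative_sub, derivative_one,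
    derivative_X_pow, derivative_C, derivative_X, zero_sub, eval_neg, eval_mul,
    eval_zero, sub_zero] at key
  have hay : 0 < a - y := by linarith
  have h1y : 0 < 1 - y := by linarith
  have hSa := AS.one_le_s P a
  have hle : (1 - a ^ 2) / (a - y) * √(1 + P.derivative.eval a ^ 2) ≤
      ∫ x in a..1, 1 / √(1 + P.derivative.eval x ^ 2) := by
    have e : (1 - a ^ 2) / (a - y) * √(1 + P.derivative.eval a ^ 2) =
        ∫ x in a..1, (1 + (1 - y ^ 2) / (x - y) ^ 2) / √(1 + P.derivative.eval x ^ 2) := by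
      have e1 : (1 - a ^ 2) / (a - y) * √(1 + P.derivative.eval a ^ 2) =
          -((1 - 1 ^ 2) / (1 - y) * √(1 + P.derivative.eval 1 ^ 2) -
            (1 - a ^ 2) / (a - y) * √(1 + P.derivative.eval a ^ 2)) := by
        ring
      rw [e1, key, ← intervalIntegral.integral_neg]
      refine intervalIntegral.integral_congr fun x hx => ?_
      rw [uIcc_of_le (by linarith)] at hx
      have hxy : x - y ≠ 0 := by
        have := hx.1
        intro h0
        linarith
      rw [← neg_div]
      congr 1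
      field_simp
      push_cast
      ring
    rw [e]
    have hc : Continuous fun x => √(1 + P.derivative.eval x ^ 2) := by fun_prop
    have hs0 : ∀ x : ℝ, √(1 + P.derivative.eval x ^ 2) ≠ 0 := fun x =>
      (Real.sqrt_pos.2 (by positivity)).ne'
    apply intervalIntegral.integral_mono_on (by linarith)
    · apply ContinuousOn.intervalIntegrable
      rw [uIcc_of_le (by linarith)]
      refine ContinuousOn.div ?_ hc.continuousOn (fun x _ => hs0 x)
      refine continuousOn_const.add (continuousOn_const.div (by fun_prop) fun x hx => ?_)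
      have : 0 < x - y := by linarith [hx.1]
      positivity
    · exact (continuous_const.div hc hs0).intervalIntegrable _ _
    · intro x hx
      apply div_le_div_of_nonneg_right _ (Real.sqrt_nonneg _)
      have : (1 - y ^ 2) / (x - y) ^ 2 ≤ 0 :=
        div_nonpos_of_nonpos_of_nonneg (by nlinarith) (sq_nonneg _)
      linarith
  have hlow : 1 / (1 + c) ≤ (1 - a ^ 2) / (a - y) * √(1 + P.derivative.eval a ^ 2) := by
    have h1 : 1 / (1 + c) ≤ (1 - a ^ 2) / (a - y) := by
      rw [div_le_div_iff₀ (by linarith) hay]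
      have h2 : a - y ≤ (1 + a) * (1 + c) := by nlinarith
      nlinarith [mul_nonneg (show 0 ≤ 1 + a by linarith) (show 0 ≤ 1 + c by linarith)]
    have h3 : 0 ≤ (1 - a ^ 2) / (a - y) := le_trans (by positivity) h1
    nlinarith
  have hfin : 1 / (1 + c) ≤ K * ((1 + Real.log n) / n) := hlow.trans (hle.trans hI)
  have h4 : K * ((1 + Real.log n) / n) < K * (1 / (K * (1 + c))) :=
    mul_lt_mul_of_pos_left hlim hK
  have h5 : K * (1 / (K * (1 + c))) = 1 / (1 + c) := by
    have : 1 + c ≠ 0 := by positivity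
    field_simp
  linarith

end Pool.Agent.Helper10.AL
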