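import Pool.Agent.Helper10.AL.St6

/-!
Arc length of polynomials over windows `[a, 1]`, large degree: piece UZ2, real critical points
outside the interval and the degree.
-/

set_option autoImplicit false

namespace Pool.Agent.Helper10.AL

open Polynomial Set Real MeasureTheory intervalIntegral
open Pool.Agent.Helper40.AS (arc Bdd Ext quad)
open Pool.Agent.Helper40

theorem uZ2_lim (ε : ℝ) (hε : 0 < ε) : ∃ n0 : ℕ, ∀ n : ℕ, n ≥ n0 →
    √((1 + Real.log n) / n) < ε := by
  have h1 : Filter.Tendsto (fun n : ℕ => (1 + Real.log n) / (n : ℝ)) Filter.atTop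
      (nhds 0) := by
    have h2 : Filter.Tendsto (fun x : ℝ => Real.log x / x) Filter.atTop (nhds 0) := by
      simpa using Real.tendsto_pow_log_div_mul_add_atTop 1 0 1 one_ne_zero
    have h3 := h2.comp tendsto_natCast_atTop_atTop
    have h4 : Filter.Tendsto (fun n : ℕ => 1 / (n : ℝ)) Filter.atTop (nhds 0) :=
      tendsto_one_div_atTop_nhds_zero_nat
    have h5 := h4.add h3
    rw [add_zero] at h5
    refine h5.congr fun n => ?_
    simp only [Function.comp_apply]
    ring
  have h2 : Filter.Tendsto (fun n : ℕ => √((1 + Real.log n) / (n : ℝ))) Filter.atTop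
      (nhds 0) := by
    have h3 := (Real.continuous_sqrt.tendsto 0).comp h1
    rw [Real.sqrt_zero] at h3
    exact h3
  obtain ⟨n0, h⟩ := Filter.eventually_atTop.1 (h2.eventually (gt_mem_nhds hε))
  exact ⟨n0, h⟩

theorem uZ2_deriv (P : ℝ[X]) :
    deriv (qq P) = fun θ => -(sin θ * P.derivative.eval (cos θ)) := by
  funext θ
  exact (AS.eval_cos_deriv P θ).deriv

theorem uZ2_deriv2 (P : ℝ[X]) : deriv (deriv (qq P)) 0 = -(P.derivative.eval 1) := by
  rw [uZ2_deriv]
  have h : HasDerivAt (fun θ => -(sin θ * P.derivative.eval (cos θ))) _ 0 :=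
    ((hasDerivAt_sin 0).mul (AS.eval_cos_deriv P.derivative 0)).neg
  rw [h.deriv]
  simp

/-- a real root is a complex root -/
theorem uZ2_root {P : ℝ[X]} {y : ℝ} (h : P.derivative.eval y = 0) :
    aeval (y : ℂ) P.derivative = 0 := by
  have h1 := aeval_algebraMap_apply_eq_algebraMap_eval (A := ℂ) y P.derivative
  rw [h, map_zero] at h1
  exact h1

theorem uZ2_cosh {η : ℝ} (h0 : 0 ≤ η) (h1 : η ≤ 1) : cosh η - 1 ≤ η ^ 2 := by
  have h2 : η ^ 2 ≤ 1 := by nlinarith
  have h3 := Real.cosh_le_exp_half_sq η
  have h4 := Real.exp_bound_div_one_sub_of_interval (x := η ^ 2 / 2) (by positivity)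
    (by linarith)
  have h5 : 1 / (1 - η ^ 2 / 2) ≤ 1 + η ^ 2 := by
    rw [div_le_iff₀ (by linarith)]
    nlinarith [sq_nonneg η]
  linarith

theorem uZ2_n1 {z : ℝ} (h0 : 0 < z) (h : z ≤ 1 / 40) : z ^ 2 ≤ 1 := by nlinarith

theorem uZ2_n2 : 1 / 5 ≤ 2 / π ^ 2 := by
  have h1 := Real.pi_pos
  rw [div_le_div_iff₀ (by norm_num) (by positivity)]
  have := Real.pi_lt_d2
  nlinarith

/-- many critical points in the interval -/
theorem uZ2_A {n : ℕ} {a : ℝ} {P : ℝ[X]} (hn : 1 ≤ n) (ha0 : a ≤ 0)
    (hE : Ext n a 1 P) {N : ℕ} {t : ℕ → ℝ} (hC : Chain (qq P) N t) (h0 : 0 < t 0)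
    (hN : t N < arccos a) (hNn : n ≤ N + 2) :
    n ≤ P.natDegree ∧ ∀ y : ℝ, 1 ≤ |y| → P.derivative.eval y ≠ 0 := by
  have hP : P.derivative ≠ 0 := AS.ext_ne hE hn (by linarith)
  have hdeg : P.natDegree ≤ n := natDegree_le_of_degree_le hE.deg
  have hlt : ∀ d i : ℕ, i + d + 1 ≤ N → t i < t (i + d + 1) := by
    intro d
    induction d with
    | zero => intro i hi; exact hC.inc i (by omega)
    | succ d ih =>
      intro i hi
      have h1 := ih i (by omega)
      have h2 := hC.inc (i + d + 1) (by omega)
      have h3 : i + (d + 1) + 1 = i + d + 1 + 1 := by omega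
      rw [h3]
      exact h1.trans h2
  have hlt2 : ∀ i j : ℕ, i < j → j ≤ N → t i < t j := by
    intro i j hij hj
    have h1 := hlt (j - i - 1) i (by omega)
    have h2 : i + (j - i - 1) + 1 = j := by omega
    rwa [h2] at h1
  have hpos : ∀ i ≤ N, 0 < t i := by
    intro i hi
    rcases Nat.eq_zero_or_pos i with h | h
    · rw [h]; exact h0
    · exact h0.trans (hlt2 0 i h hi)
  have hltα : ∀ i ≤ N, t i < π := by
    intro i hi
    have h1 : t i ≤ t N := by
      rcases eq_or_lt_of_le hi with h | h
      · rw [h]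
      · exact (hlt2 i N h le_rfl).le
    linarith [arccos_le_pi a]
  have hcos : ∀ i ≤ N, cos (t i) ∈ Ioo (-1 : ℝ) 1 := by
    intro i hi
    have h1 := hpos i hi
    have h2 := hltα i hi
    constructor
    · rw [← cos_pi]
      exact cos_lt_cos_of_nonneg_of_le_pi h1.le le_rfl h2
    · rw [← cos_zero]
      exact cos_lt_cos_of_nonneg_of_le_pi le_rfl h2.le h1
  have hroot : ∀ i ≤ N, P.derivative.eval (cos (t i)) = 0 := by
    intro i hi
    exact AS.contact_int hE.bdd (hcos i hi) (hC.con i hi)
  have hinj : Set.InjOn (fun i : ℕ => cos (t i)) (Finset.range (N + 1)) := by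
    intro i hi j hj hij
    have hi' : i ≤ N := by have := Finset.mem_range.1 hi; omega
    have hj' : j ≤ N := by have := Finset.mem_range.1 hj; omega
    have h1 : t i = t j :=
      Real.injOn_cos ⟨(hpos i hi').le, (hltα i hi').le⟩ ⟨(hpos j hj').le, (hltα j hj').le⟩ hij
    rcases lt_trichotomy i j with h | h | h
    · exact absurd h1 (hlt2 i j h hj').ne
    · exact h
    · exact absurd h1 (hlt2 j i h hi').ne'
  set S : Finset ℝ := (Finset.range (N + 1)).image (fun i : ℕ => cos (t i)) with hS
  have hScard : S.card = N + 1 := by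
    rw [hS, Finset.card_image_of_injOn hinj, Finset.card_range]
  have hSsub : ∀ x ∈ S, P.derivative.eval x = 0 ∧ |x| < 1 := by
    intro x hx
    rw [hS, Finset.mem_image] at hx
    obtain ⟨i, hi, rfl⟩ := hx
    have hi' : i ≤ N := by have := Finset.mem_range.1 hi; omega
    exact ⟨hroot i hi', abs_lt.2 (hcos i hi')⟩
  have hcard : ∀ T : Finset ℝ, (∀ x ∈ T, P.derivative.eval x = 0) →
      T.card ≤ P.natDegree - 1 := by
    intro T hT
    have h1 : T ⊆ P.derivative.roots.toFinset := by
      intro x hx
      rw [Multiset.mem_toFinset, mem_roots hP]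
      exact hT x hx
    calc T.card ≤ P.derivative.roots.toFinset.card := Finset.card_le_card h1
      _ ≤ Multiset.card P.derivative.roots := Multiset.toFinset_card_le _
      _ ≤ P.derivative.natDegree := card_roots' _
      _ ≤ P.natDegree - 1 := natDegree_derivative_le _
  have h1 := hcard S (fun x hx => (hSsub x hx).1)
  rw [hScard] at h1
  refine ⟨by omega, fun y hy h2 => ?_⟩
  have hyS : y ∉ S := fun h => absurd (hSsub y h).2 (not_lt.2 hy)
  have h3 := hcard (insert y S) (by
    intro x hx
    rcases Finset.mem_insert.1 hx with h | h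
    · rw [h]; exact h2
    · exact (hSsub x h).1)
  rw [Finset.card_insert_of_notMem hyS, hScard] at h3
  omega

/-- the number of critical points when the gap is short -/
theorem uZ2_num {n N : ℕ} {α tN e : ℝ} (hζ : n * (π - α) ≤ 1.5)
    (h1 : |n * tN - ((N : ℝ) + 1) * π| ≤ e) (h2 : n * (α - tN) ≤ π + e) (he : e ≤ 1 / 10) :
    n ≤ N + 2 := by
  have h3 := (abs_le.1 h1).2
  have hpi := Real.pi_gt_three
  by_contra h
  have h4 : N + 3 ≤ n := by omega
  have h5 : ((N : ℝ) + 3) ≤ n := by exact_mod_cast h4
  have h6 : ((N : ℝ) + 3) * π ≤ n * π := by nlinarith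
  nlinarith

/-- distance of a positive real number from the left half of the circle -/
theorem uZ2_dist {η θ : ℝ} (hθ : cos θ ≤ 0) :
    1 ≤ ‖Complex.exp ((η : ℂ) * Complex.I * Complex.I) - Complex.exp (θ * Complex.I)‖ := by
  have h1 : (η : ℂ) * Complex.I * Complex.I = ((-η : ℝ) : ℂ) := by
    rw [mul_assoc, Complex.I_mul_I]; push_cast; ring
  have h2 : 1 ≤ ‖Complex.exp ((η : ℂ) * Complex.I * Complex.I) -
      Complex.exp (θ * Complex.I)‖ ^ 2 := by
    rw [h1, ← Complex.ofReal_exp, Complex.sq_norm, Complex.normSq_apply]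
    simp only [Complex.sub_re, Complex.sub_im, Complex.ofReal_re, Complex.ofReal_im,
      Complex.exp_ofReal_mul_I_re, Complex.exp_ofReal_mul_I_im]
    have h3 := Real.exp_pos (-η)
    nlinarith [Real.sin_sq_add_cos_sq θ, mul_nonneg h3.le (neg_nonneg.2 hθ)]
  have h3 := norm_nonneg (Complex.exp ((η : ℂ) * Complex.I * Complex.I) -
      Complex.exp (θ * Complex.I))
  nlinarith

theorem uZ2_cosneg {θ τ : ℝ} (h3 : 3 ≤ τ) (hθ : θ ∈ Icc τ (2 * π - τ)) : cos θ ≤ 0 := by
  apply Real.cos_nonpos_of_pi_div_two_le_of_le
  · have := Real.pi_lt_four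
    linarith [hθ.1]
  · have := Real.pi_lt_four
    linarith [hθ.2]

theorem uZ2 (hU1 : U1) (hU3 : U3) (hU4 : U4) (hU5 : U5) (hU5e : U5e) (hU6r : U6r)
    (hG1u : G1u) (hX3u : X3u) : UZ2 := by
  obtain ⟨c, hc, hG⟩ := hG1u
  obtain ⟨d, hd, hD⟩ := hU5e
  obtain ⟨n1, hU1⟩ := hU1
  obtain ⟨K, hK, n2, hU3⟩ := hU3
  have hpi := Real.pi_gt_d2
  have hpi4 := Real.pi_lt_four
  set c1 : ℝ := min 1 (√c) with hc1def
  have hc1 : 0 < c1 := lt_min one_pos (Real.sqrt_pos.2 hc)
  set κ : ℝ := 1 - Real.exp (-(2 * c1)) with hκdef
  have hκ : 0 < κ := by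
    have : Real.exp (-(2 * c1)) < 1 := Real.exp_lt_one_iff.2 (by linarith)
    linarith
  have hκ1 : κ < 1 := by
    have := Real.exp_pos (-(2 * c1))
    linarith
  set M : ℝ := 40 / (π * d ^ 2) with hMdef
  have hM : 0 < M := by positivity
  set C : ℝ := 10 + 4 * M with hCdef
  have hC : 10 < C := by linarith
  set ζ0 : ℝ := min (1 / C) (κ / 40) with hζ0def
  have hζ0 : 0 < ζ0 := lt_min (by positivity) (by positivity)
  have hζ0C : C * ζ0 ≤ 1 := by
    have h1 : ζ0 ≤ 1 / C := min_le_left _ _
    rw [le_div_iff₀ (by linarith)] at h1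
    linarith
  have hζ0κ : ζ0 ≤ κ / 40 := min_le_right _ _
  obtain ⟨n3, hU4⟩ := hU4 (κ / 16) (by positivity)
  obtain ⟨n4, hU6r⟩ := hU6r (5 * C ^ 2) (by positivity)
  obtain ⟨n5, hlim⟩ := uZ2_lim (1 / (10 * K)) (by positivity)
  refine ⟨ζ0 ^ 2 / 5, by positivity, max 1 (max n1 (max n2 (max n3 (max n4 n5)))), ?_⟩
  intro n hn a P ha haδ hE
  simp only [ge_iff_le, max_le_iff] at hn
  obtain ⟨hn1, hn1', hn2, hn3, hn4, hn5⟩ := hn
  have hnR : (1 : ℝ) ≤ n := by exact_mod_cast hn1
  have hn0 : (0 : ℝ) < n := by linarith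
  have hζ1 : ζ0 ≤ 1 / 40 := by linarith
  have ha0 : a ≤ 0 := by linarith [uZ2_n1 hζ0 hζ1]
  have hdeg : P.natDegree ≤ n := natDegree_le_of_degree_le hE.deg
  have hND : ND n (qq P) 0 (arccos a) := hU1 n hn1' a P ha.le ha0 hE
  have hα0 : π / 2 ≤ arccos a := by
    rw [← arccos_zero]
    exact arccos_le_arccos ha0
  have hαπ : arccos a < π := by
    rcases lt_or_eq_of_le (arccos_le_pi a) with h | h
    · exact h
    · rw [arccos_eq_pi] at h; linarith
  have hcosα : cos (arccos a) = a := cos_arccos ha.le (by linarith)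
  set α : ℝ := arccos a with hαdef
  set ζ : ℝ := π - α with hζdef
  have hζpos : 0 < ζ := by linarith
  have hcosζ : cos ζ = -a := by rw [hζdef, cos_pi_sub, hcosα]
  have hζsq : ζ ^ 2 ≤ 5 * (1 + a) := by
    have h1 := Real.cos_le_one_sub_mul_cos_sq (x := ζ) (by rw [abs_of_pos hζpos]; linarith)
    rw [hcosζ] at h1
    have h2 : 2 / π ^ 2 * ζ ^ 2 ≤ 1 + a := by linarith
    have h3 := mul_le_mul_of_nonneg_right uZ2_n2 (sq_nonneg ζ)
    linarith
  have hζζ0 : ζ ≤ ζ0 := by
    have h1 : ζ ^ 2 ≤ ζ0 ^ 2 := by linarith
    exact (pow_le_pow_iff_left₀ hζpos.le hζ0.le two_ne_zero).1 h1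
  rcases le_or_gt ((n : ℝ) * ζ) 1.5 with hcase | hcase
  · obtain ⟨N, t, hN1, hCh, ht0, htN, -, hti, hgap, -⟩ := hU3 n hn2 a P ha.le ha0 hE
    refine uZ2_A hn1 ha0 hE hCh ht0 htN ?_
    have h1 := hlim n hn5
    have h2 : K * √((1 + Real.log n) / n) ≤ 1 / 10 := by
      have h3 : K * √((1 + Real.log n) / n) ≤ K * (1 / (10 * K)) :=
        mul_le_mul_of_nonneg_left h1.le hK.le
      have h4 : K * (1 / (10 * K)) = 1 / 10 := by field_simp
      linarith
    exact uZ2_num hcase (hti N le_rfl) hgap h2
  · obtain ⟨σ, τ, hσ, hτ1, hτα, hτ4, hclose⟩ := hU4 n hn3 a P ha.le ha0 hE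
    have hτπ : τ ≤ π := by linarith
    have hgap : π - τ ≤ 5 * ζ := by
      have h1 : (n : ℝ) * (α - τ) ≤ 4 * ζ * n := by linarith
      have h2 : α - τ ≤ 4 * ζ := by
        have h3 : (n : ℝ) * (α - τ) ≤ n * (4 * ζ) := by linarith
        exact le_of_mul_le_mul_left h3 hn0
      linarith
    have hτ3 : 3 ≤ τ := by linarith
    obtain ⟨hroot, hdegc⟩ := hU5 n P σ τ (κ / 16) hn1 hdeg hE.bdd hσ (by linarith) hτπ
      (by positivity) hclose
    refine ⟨?_, ?_⟩
    · by_contra hlt
      have h1 := hdegc (by omega)
      have h2 : 4 * (π - τ) / π ≤ 1 / 2 := by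
        rw [div_le_iff₀ (by linarith)]
        linarith
      linarith
    · intro y hy hy0
      rcases le_abs.1 hy with hy1 | hy1
      · rcases eq_or_lt_of_le hy1 with hy2 | hy2
        · have h1 := hND 0 ⟨le_rfl, by linarith⟩ (by
            rw [uZ2_deriv]
            simp only [sin_zero, zero_mul, neg_zero, abs_zero]
            positivity)
          rw [uZ2_deriv2, hy2, hy0, neg_zero, abs_zero] at h1
          have h2 : 0 < (n : ℝ) ^ 2 / 1000 := by positivity
          linarith
        · set η : ℝ := arcosh y with hηdef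
          have hη : 0 < η := arcosh_pos hy2
          have hcosh : cosh η = y := cosh_arcosh hy1
          have hη1 : c1 ≤ n * η := by
            rcases le_or_gt η 1 with h1 | h1
            · have h2 := hG n a 1 P hn1 ha.le (by linarith) le_rfl hdeg hE.bdd
                (by rw [arccos_one]; exact hND) y (uZ2_root hy0)
                (Or.inr (by rw [Complex.ofReal_re, abs_of_pos (by linarith)]; exact hy2)) 0
                ⟨by rw [arccos_one], by linarith⟩
              rw [sin_zero, cos_zero, zero_add, ← Complex.ofReal_sub, Complex.norm_real,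
                Real.norm_eq_abs, abs_of_pos (by linarith), ← hcosh] at h2
              have h3 := uZ2_cosh hη.le h1
              have h4 : c ≤ (n * η) ^ 2 := by
                have h5 : c * (1 / n) / n = c / (n : ℝ) ^ 2 := by field_simp
                rw [h5, div_le_iff₀ (by positivity)] at h2
                have h6 := mul_le_mul_of_nonneg_right h3 (sq_nonneg (n : ℝ))
                have h7 : ((n : ℝ) * η) ^ 2 = η ^ 2 * (n : ℝ) ^ 2 := by ring
                rw [h7]
                exact h2.trans h6
              have h5 : √c ≤ n * η := by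
                rw [Real.sqrt_le_left (by positivity)]
                exact h4
              exact (min_le_right _ _).trans h5
            · have h2 : c1 ≤ 1 := min_le_left _ _
              exact h2.trans (one_le_mul_of_one_le_of_one_le hnR h1.le)
          have h1 := hroot ((η : ℂ) * Complex.I) 1 (by simpa using hη)
            (by rw [Complex.cos_mul_I, ← Complex.ofReal_cosh, hcosh]; exact uZ2_root hy0)
            one_pos (fun θ hθ => uZ2_dist (uZ2_cosneg hτ3 hθ))
          have him : ((η : ℂ) * Complex.I).im = η := by simp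
          rw [him] at h1
          have h2 : Real.exp (-(2 * n * η)) ≤ Real.exp (-(2 * c1)) := by
            apply Real.exp_le_exp.2
            linarith
          have h3 : 8 * (π - τ) * (1 - Real.exp (-η)) / (π * 1 ^ 2) ≤ 14 * ζ := by
            rw [div_le_iff₀ (by positivity)]
            have h4 := Real.exp_pos (-η)
            have h5 : (π - τ) * (1 - Real.exp (-η)) ≤ 5 * ζ * 1 := by
              apply mul_le_mul hgap (by linarith) _ (by linarith)
              have : Real.exp (-η) < 1 := Real.exp_lt_one_iff.2 (by linarith)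
              linarith
            have h6 : 3 * ζ ≤ π * ζ := mul_le_mul_of_nonneg_right (by linarith) hζpos.le
            linarith
          linarith
      · have hy3 : y ≤ -1 := by linarith
        rcases eq_or_lt_of_le hy3 with hy2 | hy2
        · have h1 := (hX3u n a P hn1 ha (by linarith) hE).2
          rw [hy2] at hy0
          exact h1 hy0
        · set η : ℝ := arcosh (-y) with hηdef
          have hη : 0 < η := arcosh_pos (by linarith)
          have hcosh : cosh η = -y := cosh_arcosh (by linarith)
          rcases le_or_gt (C * ζ) η with hcase2 | hcase2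
          · have hnorm : ‖((π : ℂ) + (η : ℂ) * Complex.I) - (π : ℂ)‖ = η := by
              rw [add_sub_cancel_left, norm_mul, Complex.norm_I, mul_one, Complex.norm_real,
                Real.norm_eq_abs, abs_of_pos hη]
            have hre : ((π : ℂ) + (η : ℂ) * Complex.I).re = π := by simp
            have him : ((π : ℂ) + (η : ℂ) * Complex.I).im = η := by simp
            have hm : 0 < min 1 η := lt_min one_pos hη
            have hcos : Complex.cos ((π : ℂ) + (η : ℂ) * Complex.I) = (y : ℂ) := by
              rw [add_comm, Complex.cos_add_pi, Complex.cos_mul_I, ← Complex.ofReal_cosh, hcosh]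
              push_cast
              ring
            have h1 := hroot ((π : ℂ) + (η : ℂ) * Complex.I) (d * min 1 η)
              (by rw [him]; exact hη) (by rw [hcos]; exact uZ2_root hy0) (by positivity)
              (fun θ hθ => by
                have h2 := (hD ((π : ℂ) + (η : ℂ) * Complex.I) τ θ (by rw [hre]; linarith)
                  (by rw [hre]) (by rw [him]; exact hη) hθ hτ3 hτπ).1
                rw [hnorm] at h2
                exact h2 (by linarith [mul_le_mul_of_nonneg_right hC.le hζpos.le]))
            rw [him] at h1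
            have h2 : Real.exp (-(2 * n * η)) ≤ 1 / 4 := by
              have h3 : 1.5 * C ≤ n * η := by
                have h4 := mul_le_mul_of_nonneg_left hcase2 hn0.le
                have h5 := mul_le_mul_of_nonneg_right hcase.le (by linarith : (0 : ℝ) ≤ C)
                linarith
              have h4 : Real.exp (-(2 * n * η)) ≤ Real.exp (-3) := by
                apply Real.exp_le_exp.2
                linarith
              have h5 : Real.exp (-3) ≤ 1 / 4 := by
                rw [Real.exp_neg, ← one_div]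
                apply one_div_le_one_div_of_le (by norm_num)
                have := Real.add_one_le_exp (3 : ℝ)
                linarith
              linarith
            have h3 : 1 - Real.exp (-η) ≤ min 1 η := by
              apply le_min
              · have := Real.exp_pos (-η)
                linarith
              · have := Real.add_one_le_exp (-η)
                linarith
            have h3' : 0 ≤ 1 - Real.exp (-η) := by
              have : Real.exp (-η) < 1 := Real.exp_lt_one_iff.2 (by linarith)
              linarith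
            have h4 : 8 * (π - τ) * (1 - Real.exp (-η)) / (π * (d * min 1 η) ^ 2) ≤ 1 / 4 := by
              have h5 : 8 * (π - τ) * (1 - Real.exp (-η)) ≤ 40 * ζ * min 1 η := by
                have h6 : (π - τ) * (1 - Real.exp (-η)) ≤ 5 * ζ * min 1 η :=
                  mul_le_mul hgap h3 h3' (by linarith)
                linarith
              have h6 : 8 * (π - τ) * (1 - Real.exp (-η)) / (π * (d * min 1 η) ^ 2) ≤
                  (40 * ζ * min 1 η) / (π * (d * min 1 η) ^ 2) :=
                div_le_div_of_nonneg_right h5 (by positivity)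
              have h7 : (40 * ζ * min 1 η) / (π * (d * min 1 η) ^ 2) = M * (ζ / min 1 η) := by
                rw [hMdef]
                field_simp
              have h8 : ζ / min 1 η ≤ 1 / C := by
                rw [div_le_div_iff₀ hm (by linarith), one_mul]
                apply le_min
                · have h9 := mul_le_mul_of_nonneg_left hζζ0 (by linarith : (0 : ℝ) ≤ C)
                  linarith
                · linarith
              have h9 : M * (1 / C) ≤ 1 / 4 := by
                rw [mul_one_div, div_le_div_iff₀ (by linarith) (by norm_num)]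
                linarith
              calc _ ≤ _ := h6
                _ = M * (ζ / min 1 η) := h7
                _ ≤ M * (1 / C) := mul_le_mul_of_nonneg_left h8 hM.le
                _ ≤ 1 / 4 := h9
            linarith
          · have hη1 : η ≤ 1 := by
              have h9 := mul_le_mul_of_nonneg_left hζζ0 (by linarith : (0 : ℝ) ≤ C)
              linarith
            have h1 := uZ2_cosh hη.le hη1
            refine hU6r n hn4 a y P ha ha0 hE hND hy2 ?_ hy0
            rw [hcosh] at h1
            have h2 : η ^ 2 ≤ (C * ζ) ^ 2 := pow_le_pow_left₀ hη.le hcase2.le 2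
            have h3 := mul_le_mul_of_nonneg_left hζsq (sq_nonneg C)
            rw [mul_pow] at h2
            linarith

end Pool.Agent.Helper10.AL
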