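import Pool.Agent.Helper10.AL.St6
import Pool.Agent.Helper10.AL.P.X3

/-!
Arc length of polynomials over windows `[a, 1]`, piece X3u: the left end point, for every degree.
-/

set_option autoImplicit false

namespace Pool.Agent.Helper10.AL

open Polynomial Set Real MeasureTheory intervalIntegral
open Pool.Agent.Helper40.AS (arc Bdd Ext quad)

theorem x3u (hX1 : X1) : X3u := by
  intro n a P hn ha ha1 hE
  by_contra hcon
  refine x3_left hX1 hn ha.le ha1 hE fun h1 => ?_
  by_contra h2
  exact hcon ⟨h1, h2⟩

end Pool.Agent.Helper10.AL
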