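import Pool.Agent.Helper10.AL.St6

/-! Project AL, piece X4u: the remaining family. -/

set_option autoImplicit false

namespace Pool.Agent.Helper10.AL

open Polynomial Set Real MeasureTheory intervalIntegral Filter Topology
open Pool.Agent.Helper40.AS (arc Bdd Ext quad)

noncomputable section

/-- the relative loss of speed -/
def x4u_g (s t : ℝ) : ℝ := 1 - 1 / √(1 + s / (1 - cos t))

lemma x4u_lo (r : ℝ) (hr : 0 ≤ r) : min r 1 / 4 ≤ 1 - 1 / √(1 + r) := by
  rcases le_total r 1 with h | h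
  · rw [min_eq_left h]
    have h1 : 0 < √(1 + r) := Real.sqrt_pos.2 (by linarith)
    have h2 : 1 / √(1 + r) ≤ 1 - r / 4 := by
      rw [div_le_iff₀ h1]
      have h3 : 0 < 1 - r / 4 := by linarith
      have h4 : 1 / (1 - r / 4) ≤ √(1 + r) := by
        apply Real.le_sqrt_of_sq_le
        rw [div_pow, one_pow, div_le_iff₀ (by positivity)]
        nlinarith [mul_nonneg hr hr, mul_nonneg hr (sub_nonneg.2 h), mul_nonneg (mul_nonneg hr hr) hr]
      rw [div_le_iff₀ h3] at h4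
      linarith
    linarith
  · rw [min_eq_right h]
    have h2 : 1 / √(1 + r) ≤ 3 / 4 := by
      have h1 : (4 / 3 : ℝ) ≤ √(1 + r) := by
        apply Real.le_sqrt_of_sq_le
        linarith
      rw [div_le_iff₀ (by linarith)]
      linarith
    linarith

lemma x4u_hi (r : ℝ) (hr : 0 ≤ r) : 1 - 1 / √(1 + r) ≤ r / 2 := by
  have h1 : 0 < √(1 + r) := Real.sqrt_pos.2 (by linarith)
  have h2 : √(1 + r) ≤ 1 + r / 2 := by
    rw [Real.sqrt_le_left (by linarith)]
    nlinarith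
  have h3 : 1 / (1 + r / 2) ≤ 1 / √(1 + r) := one_div_le_one_div_of_le h1 h2
  have h4 : 1 - r / 2 ≤ 1 / (1 + r / 2) := by
    rw [le_div_iff₀ (by linarith)]
    nlinarith
  linarith

lemma x4u_nn (r : ℝ) (hr : 0 ≤ r) : 0 ≤ 1 - 1 / √(1 + r) := by
  have h1 : (1 : ℝ) ≤ √(1 + r) := by
    apply Real.le_sqrt_of_sq_le
    linarith
  have h2 : 1 / √(1 + r) ≤ 1 := by
    rw [div_le_iff₀ (by linarith)]
    linarith
  linarith

lemma x4u_two (r : ℝ) (hr : 2 ≤ r) : 0.4 ≤ 1 - 1 / √(1 + r) := by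
  have h2 : 1 / √(1 + r) ≤ 0.6 := by
    have h1 : (5 / 3 : ℝ) ≤ √(1 + r) := by
      apply Real.le_sqrt_of_sq_le
      linarith
    rw [div_le_iff₀ (by linarith)]
    linarith
  linarith

lemma x4u_om (n : ℕ) (s t : ℝ) : om n 1 s 0 t = n * (1 - x4u_g s t) := by
  unfold om x4u_g
  rw [zero_div, add_zero]
  ring

lemma x4u_r0 {s : ℝ} (hs : 0 ≤ s) (t : ℝ) : 0 ≤ s / (1 - cos t) := by
  have h : 0 ≤ 1 - cos t := by linarith [cos_le_one t]
  positivity

lemma x4u_g0 {s : ℝ} (hs : 0 ≤ s) (t : ℝ) : 0 ≤ x4u_g s t := x4u_nn _ (x4u_r0 hs t)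

lemma x4u_g1 (s t : ℝ) : x4u_g s t ≤ 1 := by
  unfold x4u_g
  have : 0 ≤ 1 / √(1 + s / (1 - cos t)) := by positivity
  linarith

lemma x4u_gi {s : ℝ} (hs : 0 ≤ s) (a b : ℝ) : IntervalIntegrable (x4u_g s) volume a b := by
  have hm : Measurable (x4u_g s) := by
    unfold x4u_g
    fun_prop
  have hb : ∀ t, ‖x4u_g s t‖ ≤ 1 := by
    intro t
    rw [Real.norm_eq_abs, abs_of_nonneg (x4u_g0 hs t)]
    exact x4u_g1 s t
  rw [intervalIntegrable_iff]
  exact Measure.integrableOn_of_bounded (M := 1) (by simp) hm.aestronglyMeasurable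
    (Filter.Eventually.of_forall hb)

lemma x4u_omi {n : ℕ} {s : ℝ} (hs : 0 ≤ s) (a b : ℝ) :
    IntervalIntegrable (om n 1 s 0) volume a b := by
  have h := ((intervalIntegrable_const (c := (1 : ℝ)) (a := a) (b := b)
    (μ := volume)).sub (x4u_gi hs a b)).const_mul (n : ℝ)
  refine h.congr ?_
  intro t _
  exact (x4u_om n s t).symm

lemma x4u_int {n : ℕ} {s : ℝ} (hs : 0 ≤ s) (a b : ℝ) :
    (∫ t in a..b, om n 1 s 0 t) = n * (b - a) - n * ∫ t in a..b, x4u_g s t := by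
  have h : (∫ t in a..b, om n 1 s 0 t) = ∫ t in a..b, (n : ℝ) * (1 - x4u_g s t) :=
    intervalIntegral.integral_congr fun t _ => x4u_om n s t
  rw [h, intervalIntegral.integral_const_mul,
    intervalIntegral.integral_sub intervalIntegrable_const (x4u_gi hs a b),
    intervalIntegral.integral_const]
  simp only [smul_eq_mul, mul_one]
  ring

/-- lower bound for the speed loss -/
lemma x4u_glo {s t1 t : ℝ} (hs : 0 ≤ s) (h0 : 0 < t) (ht : t ≤ t1) (hc : cos t < 1) :
    min (2 * s / t1 ^ 2) 1 / 4 ≤ x4u_g s t := by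
  have h1 := x4u_lo _ (x4u_r0 hs t)
  have ht1 : 0 < t1 := lt_of_lt_of_le h0 ht
  have h2 : 2 * s / t1 ^ 2 ≤ s / (1 - cos t) := by
    have h3 : 0 < 1 - cos t := by linarith
    have h4 : 1 - t ^ 2 / 2 ≤ cos t := Real.one_sub_sq_div_two_le_cos
    have h5 : t ^ 2 ≤ t1 ^ 2 := by nlinarith
    rw [div_le_div_iff₀ (by positivity) h3]
    nlinarith
  have h6 : min (2 * s / t1 ^ 2) 1 ≤ min (s / (1 - cos t)) 1 := min_le_min h2 le_rfl
  unfold x4u_g
  linarith

/-- total loss, lower bound -/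
lemma x4u_Jlo {s : ℝ} (hs : 0 < s) (hs1 : √s ≤ 1) :
    0.4 * √s ≤ ∫ t in (0 : ℝ)..π, x4u_g s t := by
  have hq : 0 < √s := Real.sqrt_pos.2 hs
  have hsq : √s ^ 2 = s := Real.sq_sqrt hs.le
  have hpi := Real.pi_gt_three
  have h1 : (∫ t in (0 : ℝ)..√s, (0.4 : ℝ)) ≤ ∫ t in (0 : ℝ)..√s, x4u_g s t := by
    refine intervalIntegral.integral_mono_on_of_le_Ioo hq.le intervalIntegrable_const
      (x4u_gi hs.le _ _) fun t ht => ?_
    apply x4u_two
    have hc : cos t < 1 := by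
      have := Real.cos_lt_cos_of_nonneg_of_le_pi (x := 0) (y := t) le_rfl
        (by linarith [ht.2]) ht.1
      rwa [Real.cos_zero] at this
    have h4 : 1 - t ^ 2 / 2 ≤ cos t := Real.one_sub_sq_div_two_le_cos
    rw [le_div_iff₀ (by linarith)]
    nlinarith [ht.1, ht.2]
  rw [intervalIntegral.integral_const, smul_eq_mul] at h1
  have h2 : (∫ t in (0 : ℝ)..π, x4u_g s t) = (∫ t in (0 : ℝ)..√s, x4u_g s t) +
      ∫ t in √s..π, x4u_g s t :=
    (intervalIntegral.integral_add_adjacent_intervals (x4u_gi hs.le _ _)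
      (x4u_gi hs.le _ _)).symm
  have h3 : 0 ≤ ∫ t in √s..π, x4u_g s t :=
    intervalIntegral.integral_nonneg (by linarith) fun t _ => x4u_g0 hs.le t
  linarith

/-- total loss, upper bound -/
lemma x4u_Jhi {s : ℝ} (hs : 0 < s) (hs1 : √s ≤ 1) :
    (∫ t in (0 : ℝ)..π, x4u_g s t) ≤ 4 * √s := by
  have hq : 0 < √s := Real.sqrt_pos.2 hs
  have hsq : √s ^ 2 = s := Real.sq_sqrt hs.le
  have hpi := Real.pi_gt_three
  have hpi2 := Real.pi_lt_d2
  have h1 : (∫ t in (0 : ℝ)..√s, x4u_g s t) ≤ ∫ t in (0 : ℝ)..√s, (1 : ℝ) :=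
    intervalIntegral.integral_mono_on hq.le (x4u_gi hs.le _ _) intervalIntegrable_const
      fun t _ => x4u_g1 s t
  rw [intervalIntegral.integral_const, smul_eq_mul] at h1
  have h2 : (∫ t in (0 : ℝ)..π, x4u_g s t) = (∫ t in (0 : ℝ)..√s, x4u_g s t) +
      ∫ t in √s..π, x4u_g s t :=
    (intervalIntegral.integral_add_adjacent_intervals (x4u_gi hs.le _ _)
      (x4u_gi hs.le _ _)).symm
  have hle : √s ≤ π := by linarith
  have hd : ∀ t ∈ uIcc (√s) π, HasDerivAt (fun t => -(π ^ 2 * s / 4) * t⁻¹)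
      ((π ^ 2 * s / 4) * (t ^ 2)⁻¹) t := by
    intro t ht
    rw [uIcc_of_le hle] at ht
    have ht0 : t ≠ 0 := (lt_of_lt_of_le hq ht.1).ne'
    refine ((hasDerivAt_inv ht0).const_mul (-(π ^ 2 * s / 4))).congr_deriv ?_
    ring
  have hci : IntervalIntegrable (fun t => (π ^ 2 * s / 4) * (t ^ 2)⁻¹) volume (√s) π := by
    apply ContinuousOn.intervalIntegrable
    rw [uIcc_of_le hle]
    refine ContinuousOn.mul continuousOn_const (ContinuousOn.inv₀ (by fun_prop) ?_)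
    intro t ht
    exact pow_ne_zero 2 (lt_of_lt_of_le hq ht.1).ne'
  have h3 : (∫ t in √s..π, x4u_g s t) ≤ ∫ t in √s..π, (π ^ 2 * s / 4) * (t ^ 2)⁻¹ := by
    refine intervalIntegral.integral_mono_on hle (x4u_gi hs.le _ _) hci fun t ht => ?_
    have ht0 : 0 < t := lt_of_lt_of_le hq ht.1
    have h4 : 2 / π ^ 2 * t ^ 2 ≤ 1 - cos t := by
      have := Real.cos_le_one_sub_mul_cos_sq (x := t)
        (abs_le.2 ⟨by linarith, ht.2⟩)
      linarith
    have h5 : s / (1 - cos t) ≤ π ^ 2 * s / 2 * (t ^ 2)⁻¹ := by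
      have h6 : 0 < 2 / π ^ 2 * t ^ 2 := by positivity
      calc s / (1 - cos t) ≤ s / (2 / π ^ 2 * t ^ 2) :=
            div_le_div_of_nonneg_left hs.le h6 h4
        _ = π ^ 2 * s / 2 * (t ^ 2)⁻¹ := by
            field_simp
    have h7 := x4u_hi _ (x4u_r0 hs.le t)
    unfold x4u_g
    linarith
  rw [intervalIntegral.integral_eq_sub_of_hasDerivAt hd hci] at h3
  have h8 : -(π ^ 2 * s / 4) * π⁻¹ - -(π ^ 2 * s / 4) * (√s)⁻¹ ≤ π ^ 2 * √s / 4 := by
    have e0 : s * (√s)⁻¹ = √s := by rw [← div_eq_mul_inv, Real.div_sqrt]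
    have e1 : (π ^ 2 * s / 4) * (√s)⁻¹ = π ^ 2 * √s / 4 := by
      calc (π ^ 2 * s / 4) * (√s)⁻¹ = π ^ 2 / 4 * (s * (√s)⁻¹) := by ring
        _ = π ^ 2 * √s / 4 := by rw [e0]; ring
    have e2 : 0 ≤ (π ^ 2 * s / 4) * π⁻¹ := by positivity
    linarith
  have h9 : π ^ 2 ≤ 10 := by nlinarith
  nlinarith

/-- smallness of the error -/
lemma x4u_small (K : ℝ) : ∃ n0 : ℕ, ∀ n ≥ n0, K * √((1 + Real.log n) / n) ≤ 1 / 10000 := by
  have h1 : Tendsto (fun x : ℝ => Real.log x / x) atTop (𝓝 0) := by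
    have := Real.isLittleO_log_id_atTop.tendsto_div_nhds_zero
    simpa using this
  have h2 : Tendsto (fun n : ℕ => (1 + Real.log n) / (n : ℝ)) atTop (𝓝 0) := by
    have h3 := h1.comp tendsto_natCast_atTop_atTop
    have h4 : Tendsto (fun n : ℕ => 1 / (n : ℝ)) atTop (𝓝 0) :=
      tendsto_const_div_atTop_nhds_zero_nat 1
    have h5 := h4.add h3
    rw [add_zero] at h5
    refine h5.congr fun n => ?_
    simp only [Function.comp]
    ring
  have h3 : Tendsto (fun n : ℕ => K * √((1 + Real.log n) / (n : ℝ))) atTop (𝓝 0) := by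
    have h4 := (Real.continuous_sqrt.tendsto 0).comp h2
    rw [Real.sqrt_zero] at h4
    have h5 := h4.const_mul K
    rw [mul_zero] at h5
    exact h5
  obtain ⟨n0, hn0⟩ := eventually_atTop.1 (h3.eventually (ge_mem_nhds
    (show (0 : ℝ) < 1 / 10000 by norm_num)))
  exact ⟨n0, hn0⟩

/-- the parameter is small -/
lemma x4u_s {n : ℕ} {a s η : ℝ} {P : ℝ[X]} {N : ℕ} {t : ℕ → ℝ} (hn : 3 ≤ n) (hs : 0 < s)
    (hη : η ≤ 1 / 10000) (ha : -1 < a) (hN : 1 ≤ N) (hch : Chain (qq P) N t) (ht0 : 0 < t 0)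
    (htN : t N < arccos a) (hti : ∀ i ≤ N, |n * t i - ((i : ℝ) + 1) * π| ≤ η)
    (hm : |P.eval (-1)| = 1)
    (hph : ∀ θ : ℝ, 0 < θ → θ ≤ π → qq P θ =
      P.eval (-1) * cos (∫ t in θ..π, om n 1 s 0 t)) :
    (n : ℝ) * √s ≤ 1 / 10 := by
  have hpi := Real.pi_gt_three
  have hpi2 := Real.pi_lt_d2
  have hn' : (3 : ℝ) ≤ n := by exact_mod_cast hn
  have h01 : t 0 < t 1 := hch.inc 0 hN
  have htNpi : t N < π := lt_of_lt_of_le htN (arccos_le_pi a)
  have hinc : ∀ i, i ≤ N → t i ≤ t N := by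
    intro i hi
    induction hd : N - i generalizing i with
    | zero =>
      have : i = N := by omega
      rw [this]
    | succ k ih =>
      have h1 := hch.inc i (by omega)
      have h2 := ih (i + 1) (by omega) (by omega)
      linarith
  have ht1pi : t 1 < π := lt_of_le_of_lt (hinc 1 hN) htNpi
  have ht0pi : t 0 < π := by linarith
  have ht1 : 0 < t 1 := by linarith
  have hsin : ∀ i ≤ N, 0 < t i → t i < π → sin (∫ x in (t i)..π, om n 1 s 0 x) = 0 := by
    intro i hi hi0 hi1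
    have h1 := hch.con i hi
    rw [hph (t i) hi0 hi1.le, abs_mul, hm, one_mul] at h1
    have h2 := Real.sin_sq_add_cos_sq (∫ x in (t i)..π, om n 1 s 0 x)
    have h3 : cos (∫ x in (t i)..π, om n 1 s 0 x) ^ 2 = 1 := by
      rw [← sq_abs, h1, one_pow]
    have h4 : sin (∫ x in (t i)..π, om n 1 s 0 x) ^ 2 = 0 := by linarith
    exact pow_eq_zero_iff (two_ne_zero) |>.1 h4
  obtain ⟨k0, hk0⟩ := Real.sin_eq_zero_iff.1 (hsin 0 (by omega) ht0 ht0pi)
  obtain ⟨k1, hk1⟩ := Real.sin_eq_zero_iff.1 (hsin 1 hN ht1 ht1pi)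
  have hadd : (∫ x in (t 0)..(t 1), om n 1 s 0 x) + (∫ x in (t 1)..π, om n 1 s 0 x) =
      ∫ x in (t 0)..π, om n 1 s 0 x :=
    intervalIntegral.integral_add_adjacent_intervals (x4u_omi hs.le _ _) (x4u_omi hs.le _ _)
  have hpos : 0 < ∫ x in (t 0)..(t 1), om n 1 s 0 x := by
    refine intervalIntegral.intervalIntegral_pos_of_pos (x4u_omi hs.le _ _) (fun x => ?_) h01
    unfold om
    rw [zero_div, add_zero]
    have := x4u_r0 hs.le x
    have h2 : 0 < √(1 + s / (1 - cos x)) := Real.sqrt_pos.2 (by linarith)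
    positivity
  have hge : π ≤ ∫ x in (t 0)..(t 1), om n 1 s 0 x := by
    have h1 : (∫ x in (t 0)..(t 1), om n 1 s 0 x) = ((k0 - k1 : ℤ) : ℝ) * π := by
      push_cast
      linarith
    rw [h1] at hpos ⊢
    have h2 : (0 : ℝ) < ((k0 - k1 : ℤ) : ℝ) := by
      by_contra h3
      push Not at h3
      nlinarith
    have h3 : (1 : ℤ) ≤ k0 - k1 := by
      have : (0 : ℤ) < k0 - k1 := by exact_mod_cast h2
      omega
    have h4 : (1 : ℝ) ≤ ((k0 - k1 : ℤ) : ℝ) := by exact_mod_cast h3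
    nlinarith
  rw [x4u_int hs.le] at hge
  have hu0 := abs_le.1 (hti 0 (by omega))
  have hu1 := abs_le.1 (hti 1 hN)
  norm_num at hu0 hu1
  set ρ : ℝ := min (2 * s / t 1 ^ 2) 1 with hρ
  have hρ0 : 0 ≤ ρ := le_min (by positivity) zero_le_one
  have hJ : ρ / 4 * (t 1 - t 0) ≤ ∫ x in (t 0)..(t 1), x4u_g s x := by
    have h1 : (∫ x in (t 0)..(t 1), ρ / 4) ≤ ∫ x in (t 0)..(t 1), x4u_g s x := by
      refine intervalIntegral.integral_mono_on h01.le intervalIntegrable_const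
        (x4u_gi hs.le _ _) fun x hx => ?_
      refine x4u_glo hs.le (lt_of_lt_of_le ht0 hx.1) hx.2 ?_
      have := Real.cos_lt_cos_of_nonneg_of_le_pi (x := 0) (y := x) le_rfl
        (by linarith [hx.2]) (lt_of_lt_of_le ht0 hx.1)
      rwa [Real.cos_zero] at this
    rw [intervalIntegral.integral_const, smul_eq_mul] at h1
    linarith
  have hJ0 : 0 ≤ ∫ x in (t 0)..(t 1), x4u_g s x :=
    intervalIntegral.integral_nonneg h01.le fun x _ => x4u_g0 hs.le x
  have hlen : π ≤ n * (t 1 - t 0) := by nlinarith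
  have hρle : ρ / 4 * π ≤ 2 * η := by
    have h1 : ρ / 4 * π ≤ ρ / 4 * (n * (t 1 - t 0)) :=
      mul_le_mul_of_nonneg_left hlen (by positivity)
    have h2 : (n : ℝ) * (ρ / 4 * (t 1 - t 0)) ≤ n * ∫ x in (t 0)..(t 1), x4u_g s x :=
      mul_le_mul_of_nonneg_left hJ (by positivity)
    nlinarith
  have hρ1 : ρ < 1 := by nlinarith
  have hρ2 : ρ = 2 * s / t 1 ^ 2 := by
    rcases min_choice (2 * s / t 1 ^ 2) 1 with h | h
    · exact h
    · exfalso
      rw [← hρ] at h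
      linarith
  have hs1 : 2 * s / t 1 ^ 2 ≤ 1 / 3000 := by
    rw [← hρ2]
    nlinarith
  rw [div_le_iff₀ (by positivity)] at hs1
  have ht7 : (n : ℝ) * t 1 ≤ 7 := by linarith
  have h7 : ((n : ℝ) * √s) ^ 2 ≤ (1 / 10) ^ 2 := by
    rw [mul_pow, Real.sq_sqrt hs.le]
    have h8 : ((n : ℝ) * t 1) ^ 2 ≤ 7 ^ 2 := by
      have : 0 ≤ (n : ℝ) * t 1 := by positivity
      nlinarith
    have h9 : (n : ℝ) ^ 2 * s ≤ (n : ℝ) ^ 2 * (1 / 6000 * t 1 ^ 2) :=
      mul_le_mul_of_nonneg_left (by linarith) (by positivity)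
    nlinarith
  exact (pow_le_pow_iff_left₀ (by positivity) (by norm_num) two_ne_zero).1 h7


/-- the square of the derivative at the right end point -/
lemma x4u_der {n : ℕ} {s : ℝ} {P : ℝ[X]} (hode : Ode n 1 s 0 P) :
    (n : ℝ) ^ 2 * (1 - P.eval 1 ^ 2) = 2 * s * P.derivative.eval 1 ^ 2 := by
  set G : ℝ → ℝ := fun x => (n : ℝ) ^ 2 * (1 - P.eval x ^ 2) -
    (1 - x + s) * ((1 + x) * P.derivative.eval x ^ 2) with hG
  have hGc : Continuous G := by
    simp only [hG]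
    fun_prop
  have h1 : Ioo (-1 : ℝ) 1 ⊆ {x | G x = 0} := by
    intro x hx
    have h2 := hode x hx
    rw [zero_div, add_zero] at h2
    have h3 : (1 : ℝ) - x ≠ 0 := by linarith [hx.2]
    simp only [mem_setOf_eq, hG]
    rw [h2]
    field_simp
    ring
  have h2 : IsClosed {x | G x = 0} := isClosed_eq hGc continuous_const
  have h3 := closure_minimal h1 h2
  rw [closure_Ioo (by norm_num)] at h3
  have h4 : G 1 = 0 := h3 ⟨by norm_num, le_rfl⟩
  simp only [hG] at h4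
  linarith

/-- the value at the right end point -/
lemma x4u_val {n : ℕ} {s : ℝ} {P : ℝ[X]} (hs : 0 ≤ s)
    (hph : ∀ θ : ℝ, 0 < θ → θ ≤ π → qq P θ =
      P.eval (-1) * cos (∫ t in θ..π, om n 1 s 0 t)) :
    P.eval 1 = P.eval (-1) * cos (∫ t in (0 : ℝ)..π, om n 1 s 0 t) := by
  set G : ℝ → ℝ := fun θ => qq P θ - P.eval (-1) * cos (∫ t in θ..π, om n 1 s 0 t) with hG
  have h0 : Continuous fun θ => ∫ t in θ..π, om n 1 s 0 t := by
    have h1 : Continuous fun θ => ∫ t in π..θ, om n 1 s 0 t :=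
      intervalIntegral.continuous_primitive (fun a b => x4u_omi hs a b) π
    have h2 : (fun θ => ∫ t in θ..π, om n 1 s 0 t) = fun θ => -∫ t in π..θ, om n 1 s 0 t := by
      funext θ
      exact intervalIntegral.integral_symm π θ
    rw [h2]
    exact h1.neg
  have hGc : Continuous G := by
    simp only [hG, qq]
    fun_prop
  have h1 : Ioc (0 : ℝ) π ⊆ {x | G x = 0} := by
    intro x hx
    simp only [mem_setOf_eq, hG]
    rw [hph x hx.1 hx.2, sub_self]
  have h2 : IsClosed {x | G x = 0} := isClosed_eq hGc continuous_const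
  have h3 := closure_minimal h1 h2
  rw [closure_Ioc Real.pi_pos.ne] at h3
  have h4 : G 0 = 0 := h3 ⟨le_rfl, Real.pi_pos.le⟩
  simp only [hG, qq, Real.cos_zero] at h4
  linarith

theorem x4u (_hP1z : P1z) (hP2 : P2) (hX1 : X1) (hU3 : U3) (hA2 : A2) : X4u := by
  obtain ⟨K, hK, n1, hU3⟩ := hU3
  obtain ⟨n2, hn2⟩ := x4u_small K
  refine ⟨max (max n1 n2) 100, ?_⟩
  intro n hn a s P ha ha0 hE hAlt hPar
  have hnn1 : n1 ≤ n := (le_max_left n1 n2).trans ((le_max_left _ _).trans hn)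
  have hnn2 : n2 ≤ n := (le_max_right n1 n2).trans ((le_max_left _ _).trans hn)
  have hn100 : 100 ≤ n := (le_max_right _ _).trans hn
  have hn' : (100 : ℝ) ≤ n := by exact_mod_cast hn100
  by_contra hs0
  have hs : 0 < s := lt_of_le_of_ne hPar.hs (Ne.symm hs0)
  have hdeg : P.natDegree ≤ n := natDegree_le_of_degree_le hE.deg
  obtain ⟨hph, _, _, _, _, _⟩ := hP2 n 1 s 0 P (by omega) hdeg hE.bdd hAlt hPar
  obtain ⟨N, t, hN, hch, ht0, htN, _, hti, _, _⟩ := hU3 n hnn1 a P ha.le ha0 hE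
  have hpi := Real.pi_gt_three
  have hpi2 := Real.pi_lt_d2
  have hsm := x4u_s (by omega) hs (hn2 n hnn2) ha hN hch ht0 htN hti hPar.hm hph
  have hq : 0 < √s := Real.sqrt_pos.2 hs
  have hq1 : √s ≤ 1 := by nlinarith
  have hsq : √s ^ 2 = s := Real.sq_sqrt hs.le
  set x : ℝ := n * ∫ t in (0 : ℝ)..π, x4u_g s t with hx
  have hxlo : 0.4 * ((n : ℝ) * √s) ≤ x := by
    have := mul_le_mul_of_nonneg_left (x4u_Jlo hs hq1) (show (0 : ℝ) ≤ n by positivity)
    rw [hx]
    linarith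
  have hxhi : x ≤ 4 * ((n : ℝ) * √s) := by
    have := mul_le_mul_of_nonneg_left (x4u_Jhi hs hq1) (show (0 : ℝ) ≤ n by positivity)
    rw [hx]
    linarith
  have hnq : 0 < (n : ℝ) * √s := by positivity
  have hx0 : 0 < x := by linarith
  have hx1 : x ≤ π / 2 := by linarith
  have hint : (∫ t in (0 : ℝ)..π, om n 1 s 0 t) = n * π - x := by
    rw [x4u_int hs.le, hx, sub_zero]
  have hval := x4u_val hs.le hph
  rw [hint, Real.cos_nat_mul_pi_sub] at hval
  have hv2 : P.eval 1 ^ 2 = cos x ^ 2 := by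
    rw [hval, mul_pow, mul_pow, ← sq_abs (P.eval (-1)), hPar.hm, one_pow, one_mul, ← pow_mul,
      mul_comm n 2, pow_mul, neg_one_sq, one_pow, one_mul]
  have hder := x4u_der hPar.ode
  rw [hv2] at hder
  have hsc := Real.sin_sq_add_cos_sq x
  have hsin : 2 / π * x ≤ sin x := Real.mul_le_sin hx0.le hx1
  have hsin0 : 0 < 2 / π * x := by positivity
  have hsin2 : 0.16 * ((n : ℝ) ^ 2 * s) * (2 / π) ^ 2 ≤ sin x ^ 2 := by
    have h1 : (2 / π * (0.4 * ((n : ℝ) * √s))) ^ 2 ≤ sin x ^ 2 := by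
      apply pow_le_pow_left₀ (by positivity)
      refine le_trans ?_ hsin
      exact mul_le_mul_of_nonneg_left hxlo (by positivity)
    calc 0.16 * ((n : ℝ) ^ 2 * s) * (2 / π) ^ 2 = (2 / π * (0.4 * ((n : ℝ) * √s))) ^ 2 := by
          rw [mul_pow, mul_pow, mul_pow, hsq]
          ring
      _ ≤ _ := h1
  have hcoef : (0.4 : ℝ) ≤ (2 / π) ^ 2 := by
    rw [div_pow, le_div_iff₀ (by positivity)]
    nlinarith
  have hP1 : |P.eval 1| ≠ 1 := by
    intro h
    have h1 : P.eval 1 ^ 2 = 1 := by rw [← sq_abs, h, one_pow]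
    have h2 : 0 < sin x := by linarith
    nlinarith [pow_pos h2 2]
  -- size of the derivative at one
  have hD : (0.03 : ℝ) * n ^ 4 ≤ P.derivative.eval 1 ^ 2 := by
    have h1 : (n : ℝ) ^ 2 * sin x ^ 2 = 2 * s * P.derivative.eval 1 ^ 2 := by
      rw [← hder]
      congr 1
      linarith
    have h2 : (n : ℝ) ^ 2 * (0.16 * ((n : ℝ) ^ 2 * s) * 0.4) ≤ (n : ℝ) ^ 2 * sin x ^ 2 := by
      apply mul_le_mul_of_nonneg_left _ (by positivity)
      refine le_trans ?_ hsin2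
      exact mul_le_mul_of_nonneg_left hcoef (by positivity)
    rw [h1] at h2
    have h3 : s * (0.032 * (n : ℝ) ^ 4) ≤ s * P.derivative.eval 1 ^ 2 := by nlinarith
    have h4 := le_of_mul_le_mul_left h3 hs
    have : (0 : ℝ) < (n : ℝ) ^ 4 := by positivity
    linarith
  have hS1 : 0.1 * (n : ℝ) ^ 2 ≤ √(1 + P.derivative.eval 1 ^ 2) := by
    apply Real.le_sqrt_of_sq_le
    have : (0.1 * (n : ℝ) ^ 2) ^ 2 = 0.01 * (n : ℝ) ^ 4 := by ring
    rw [this]
    have h3 : (0 : ℝ) < (n : ℝ) ^ 4 := by positivity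
    linarith
  -- the first order condition
  have hfo := hX1 n a 1 P 1 P.derivative (1 + X) (by omega) ha.le (by linarith) le_rfl hE
    (by rw [one_mul]) (by
      have h1 : (1 + X : ℝ[X]).natDegree ≤ 1 := by
        compute_degree
      rw [natDegree_one]
      omega)
    (fun y hy hy1 => Pool.Agent.Helper40.AS.contact_int hE.bdd hy hy1)
    (fun h => absurd h hP1)
    (fun _ => by simp) (fun y _ => by simp)
  have hrhs : (∫ y in a..1, (((1 + X : ℝ[X]).derivative.eval y * (1 : ℝ[X]).eval y -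
      (1 + X : ℝ[X]).eval y * (1 : ℝ[X]).derivative.eval y) / (1 : ℝ[X]).eval y ^ 2) /
        √(1 + P.derivative.eval y ^ 2)) ≤ ∫ y in a..1, (1 : ℝ) := by
    have hc : Continuous fun y => (((1 + X : ℝ[X]).derivative.eval y * (1 : ℝ[X]).eval y -
      (1 + X : ℝ[X]).eval y * (1 : ℝ[X]).derivative.eval y) / (1 : ℝ[X]).eval y ^ 2) /
        √(1 + P.derivative.eval y ^ 2) := by
      refine Continuous.div ?_ (Pool.Agent.Helper40.AS.cont_s P)
        fun y => (Pool.Agent.Helper40.AS.s_pos P y).ne'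
      refine Continuous.div (by fun_prop) (by fun_prop) fun y => by simp
    refine intervalIntegral.integral_mono_on (by linarith) (hc.intervalIntegrable _ _)
      intervalIntegrable_const fun y _ => ?_
    have := Pool.Agent.Helper40.AS.one_le_s P y
    simp only [derivative_add, derivative_one, derivative_X, zero_add, eval_one, mul_one,
      eval_zero, mul_zero, sub_zero, one_pow, div_one]
    rw [div_le_one (by linarith)]
    exact this
  rw [intervalIntegral.integral_const, smul_eq_mul, mul_one] at hrhs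
  rw [← hfo] at hrhs
  simp only [eval_add, eval_one, eval_X, div_one] at hrhs
  -- the left end point
  obtain ⟨hB1, hB2, hB3⟩ := hA2
  have hB := ((hB1 n (qq P) (by omega) (hB2 n P hdeg hE.bdd)).2 (arccos a)).2.2.1
  rw [(hB3 P (arccos a)).1, Real.cos_arccos ha.le (by linarith), Real.sin_arccos, abs_neg,
    abs_mul] at hB
  have hSa : (1 + a) * √(1 + P.derivative.eval a ^ 2) ≤ 1 + n := by
    have h1 : √(1 + P.derivative.eval a ^ 2) ≤ 1 + |P.derivative.eval a| := by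
      rw [Real.sqrt_le_left (by positivity)]
      nlinarith [abs_nonneg (P.derivative.eval a), sq_abs (P.derivative.eval a)]
    have h2 : 1 + a ≤ |√(1 - a ^ 2)| := by
      rw [abs_of_nonneg (Real.sqrt_nonneg _)]
      apply Real.le_sqrt_of_sq_le
      nlinarith
    have h3 : (1 + a) * |P.derivative.eval a| ≤ n :=
      le_trans (mul_le_mul_of_nonneg_right h2 (abs_nonneg _)) hB
    have h4 : (1 + a) * √(1 + P.derivative.eval a ^ 2) ≤ (1 + a) * (1 + |P.derivative.eval a|) :=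
      mul_le_mul_of_nonneg_left h1 (by linarith)
    nlinarith
  nlinarith


end

end Pool.Agent.Helper10.AL
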