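import Pool.Agent.Helper10.AL.St4

/-!
Piece Asym: the largest arc length up to a bounded error.
-/

set_option autoImplicit false

namespace Pool.Agent.Helper10.AL

open Polynomial Set Real MeasureTheory intervalIntegral
open Pool.Agent.Helper40.AS (arc Bdd Ext quad)

noncomputable section

theorem asym_er (ε : ℝ) (hε : 0 < ε) : ∃ n0 : ℕ, ∀ n ≥ n0, er n ≤ ε := by
  have h1 : Filter.Tendsto (fun n : ℕ => (1 : ℝ) / (n : ℝ)) Filter.atTop (nhds 0) :=
    tendsto_one_div_atTop_nhds_zero_nat
  have h2 : Filter.Tendsto (fun n : ℕ => Real.log (n : ℝ) / (n : ℝ)) Filter.atTop (nhds 0) := by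
    have h3 := (isLittleO_log_id_atTop.tendsto_div_nhds_zero).comp
      (tendsto_natCast_atTop_atTop (R := ℝ))
    simpa [Function.comp_def] using h3
  have h4 : Filter.Tendsto (fun n : ℕ => er n) Filter.atTop (nhds 0) := by
    have h5 := (h1.add h2).const_mul 60
    simp only [add_zero, mul_zero] at h5
    refine h5.congr (fun n => ?_)
    unfold er
    ring
  have h6 := (h4.eventually (gt_mem_nhds hε))
  obtain ⟨n0, h⟩ := Filter.eventually_atTop.1 h6
  exact ⟨n0, fun n hn => (h n hn).le⟩

theorem asym (hA2 : A2) (hB3 : B3) (hC1 : C1) (hC2 : C2) (hVF1 : VF1) (hVF3 : VF3) : Asym := by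
  obtain ⟨n0, hn0⟩ := asym_er (0.4212 - cs) (by linarith [hVF1.2])
  refine ⟨max n0 4, fun n hn a b P ha hab hb hE => ?_⟩
  have hn4 : 4 ≤ n := le_trans (le_max_right _ _) hn
  have hnn0 : n0 ≤ n := le_trans (le_max_left _ _) hn
  have her := hn0 n hnn0
  have hcc : arccos b ≤ arccos a := by
    apply Real.antitone_arccos hab.le
  have htb := hA2.2.1 n P (natDegree_le_of_degree_le hE.deg) hE.bdd
  have hup := (hC1 P a b ha hab.le hb).2
  have hpi : arccos a ≤ arccos b + 2 * π := by
    have h1 := Real.arccos_le_pi a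
    have h2 := Real.arccos_nonneg b
    have h3 := Real.pi_pos
    linarith
  have hb3 := (hB3 n (qq P) (arccos b) (arccos a) hn4 htb hcc hpi).1
  have hlo := hC2 n a b P (by omega) ha hab.le hb hE
  have hl : 0 ≤ (n : ℝ) * (arccos a - arccos b) := by
    apply mul_nonneg (Nat.cast_nonneg _)
    linarith
  have hv := hVF3 (n * arccos b) (n * (arccos a - arccos b)) hl
  have he : (n : ℝ) * arccos b + n * (arccos a - arccos b) = n * arccos a := by ring
  rw [he] at hv
  rw [abs_le]
  constructor
  · have := hVF1.2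
    linarith
  · linarith

end

end Pool.Agent.Helper10.AL
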