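import Pool.Agent.Helper10.AL.St2

/-!
Arc length of polynomials over compact windows, large degree: piece E3.
-/

set_option autoImplicit false

namespace Pool.Agent.Helper10.AL

open Polynomial Set Real MeasureTheory intervalIntegral
open Pool.Agent.Helper40.AS (arc Bdd Ext)

/-- the sine on a compact window -/
theorem e3_sin (δ x : ℝ) (hδ : 0 < δ) (hδ1 : δ ≤ 1) (h0 : 0 ≤ x) (hπ : x ≤ π)
    (h1 : -1 + δ ≤ cos x) (h2 : cos x ≤ 1 - δ) : δ ≤ sin x := by
  have hs : 0 ≤ sin x := sin_nonneg_of_nonneg_of_le_pi h0 hπ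
  have h3 : sin x ^ 2 = 1 - cos x ^ 2 := by
    have := sin_sq_add_cos_sq x
    linarith
  have h4 : cos x ^ 2 ≤ (1 - δ) ^ 2 := by
    apply sq_le_sq'
    · linarith
    · exact h2
  by_contra hlt
  push Not at hlt
  have h5 : sin x ^ 2 < δ ^ 2 := by
    apply sq_lt_sq' _ hlt
    linarith
  nlinarith

/-- lower bound for a difference of cosines -/
theorem e3_cos (δ x y : ℝ) (hδ : 0 < δ) (hδ1 : δ ≤ 1) (h0 : 0 ≤ x) (hxy : x ≤ y) (hπ : y ≤ π)
    (h1 : -1 + δ ≤ cos y) (h2 : cos x ≤ 1 - δ) : δ * (y - x) ≤ cos x - cos y := by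
  rcases hxy.eq_or_lt with h | h
  · subst h
    simp
  · obtain ⟨ξ, hξ, he⟩ := exists_deriv_eq_slope cos h continuous_cos.continuousOn
      (differentiable_cos.differentiableOn)
    have hyx : 0 < y - x := by linarith
    rw [Real.deriv_cos, eq_div_iff hyx.ne'] at he
    have hs : δ ≤ sin ξ := by
      apply e3_sin δ ξ hδ hδ1 (by linarith [hξ.1]) (by linarith [hξ.2])
      · exact h1.trans (cos_le_cos_of_nonneg_of_le_pi (by linarith [hξ.1]) hπ hξ.2.le)
      · exact (cos_le_cos_of_nonneg_of_le_pi h0 (by linarith [hξ.2]) hξ.1.le).trans h2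
    nlinarith

/-- logarithm against the square root -/
theorem e3_log (x : ℝ) (hx : 0 < x) : 1 + Real.log x ≤ 2 * √x := by
  have h1 : Real.log (√x) ≤ √x - 1 := Real.log_le_sub_one_of_pos (Real.sqrt_pos.mpr hx)
  have h2 : Real.log (√x) = Real.log x / 2 := Real.log_sqrt hx.le
  rw [h2] at h1
  have h3 : 0 ≤ √x := Real.sqrt_nonneg x
  linarith

theorem e3 (hA2 : A2) (hE1 : E1) (hK3 : K3) : E3 := by
  intro δ hδ hδ4
  obtain ⟨K, hK, n1, hK3'⟩ := hK3 δ hδ hδ4
  obtain ⟨n2, hE1'⟩ := hE1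
  have hRpos : 0 < 8000 / δ + 12800 * K := by positivity
  refine ⟨8000 / δ + 12800 * K, hRpos, max (max n1 n2) (max 1 (⌈(8000 * K) ^ 2⌉₊)), ?_⟩
  intro n hn a b θ P hM hE hθ1 hθ2 hq
  have hn1 : n1 ≤ n := (le_max_left _ _).trans ((le_max_left _ _).trans hn)
  have hn2 : n2 ≤ n := (le_max_right _ _).trans ((le_max_left _ _).trans hn)
  have hn3 : 1 ≤ n := (le_max_left _ _).trans ((le_max_right _ _).trans hn)
  have hn4 : ⌈(8000 * K) ^ 2⌉₊ ≤ n := (le_max_right _ _).trans ((le_max_right _ _).trans hn)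
  by_contra hne
  set R : ℝ := 8000 / δ + 12800 * K with hRdef
  have hnR : (1 : ℝ) ≤ n := by exact_mod_cast hn3
  have hnpos : (0 : ℝ) < n := by linarith
  have hRδ : 8000 / δ ≤ R := by rw [hRdef]; nlinarith
  have hδR : 8000 ≤ δ * R := by
    rw [div_le_iff₀ hδ] at hRδ
    linarith
  have hRK : 12800 * K ≤ R := by
    have : 0 < 8000 / δ := by positivity
    rw [hRdef]
    linarith
  have hR2 : 1.6 ≤ R := by nlinarith
  obtain ⟨ha, hab, hb⟩ := hM
  have ha1 : -1 ≤ a := by linarith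
  have hb1 : b ≤ 1 := by linarith
  have hab' : a < b := by linarith
  have hca : cos (arccos a) = a := cos_arccos ha1 (by linarith)
  have hcb : cos (arccos b) = b := cos_arccos (by linarith) hb1
  have hRn : 0 < R / n := by positivity
  have hb0 : 0 ≤ arccos b := arccos_nonneg b
  have haπ : arccos a ≤ π := arccos_le_pi a
  have hθ0 : 0 ≤ θ := by linarith
  have hθπ : θ ≤ π := by linarith
  have hcθa : -1 + δ ≤ cos (arccos a) := by rw [hca]; exact ha
  have hcθb : cos (arccos b) ≤ 1 - δ := by rw [hcb]; exact hb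
  have hθu : cos θ ≤ 1 - δ :=
    (cos_le_cos_of_nonneg_of_le_pi hb0 hθπ (by linarith)).trans hcθb
  have hθl : -1 + δ ≤ cos θ :=
    hcθa.trans (cos_le_cos_of_nonneg_of_le_pi hθ0 haπ (by linarith))
  -- differences of cosines
  have hda : δ * (R / n) ≤ cos θ - a := by
    have h := e3_cos δ θ (arccos a) hδ (by linarith) hθ0 (by linarith) haπ hcθa hθu
    rw [hca] at h
    have h' : δ * (R / n) ≤ δ * (arccos a - θ) := by
      apply mul_le_mul_of_nonneg_left _ hδ.le
      linarith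
    linarith
  have hdb : δ * (R / n) ≤ b - cos θ := by
    have h := e3_cos δ (arccos b) θ hδ (by linarith) hb0 (by linarith) hθπ hθl hcθb
    rw [hcb] at h
    have h' : δ * (R / n) ≤ δ * (θ - arccos b) := by
      apply mul_le_mul_of_nonneg_left _ hδ.le
      linarith
    linarith
  -- Bernstein
  have hTB : TB n (qq P) := hA2.2.1 n P (Polynomial.natDegree_le_iff_degree_le.mpr hE.deg) hE.bdd
  have hdn : ∀ t, |deriv (qq P) t| ≤ n := fun t => ((hA2.1 n (qq P) hn3 hTB).2 t).2.2.1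
  have hND := hE1' n a b P hn2 ha1 hab' hb1 hE
  have h16 : (1.6 : ℝ) / n ≤ R / n := by gcongr
  have hθI : θ ∈ Icc (arccos b + 1.6 / n) (arccos a - 1.6 / n) :=
    ⟨by linarith, by linarith⟩
  have hlow : (n : ℝ) ^ 2 / 1000 ≤ |deriv (deriv (qq P)) θ| := by
    apply hND θ hθI
    rw [hq, abs_zero]
    positivity
  have hup := hK3' n hn1 a b θ 1.6 P ⟨ha, hab, hb⟩ hE ⟨by linarith, by linarith⟩ hq hne
    (by norm_num) (by norm_num) hND
  -- the boundary terms
  have hterm : ∀ s q d : ℝ, 0 ≤ s → s ≤ 1 → |q| ≤ n → δ * (R / n) ≤ d →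
      s * |q| / d ≤ (n : ℝ) ^ 2 / 8000 := by
    intro s q d hs0 hs1 hq hd
    have hd0 : 0 < δ * (R / n) := by positivity
    have hd' : 0 < d := lt_of_lt_of_le hd0 hd
    rw [div_le_iff₀ hd']
    have h1 : s * |q| ≤ n := by
      have := mul_le_mul hs1 hq (abs_nonneg q) (by norm_num : (0 : ℝ) ≤ 1)
      linarith
    have h2 : (8000 : ℝ) / n ≤ d := by
      refine le_trans ?_ hd
      rw [← mul_div_assoc]
      gcongr
    have h3 : (n : ℝ) ^ 2 / 8000 * (8000 / n) ≤ (n : ℝ) ^ 2 / 8000 * d :=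
      mul_le_mul_of_nonneg_left h2 (by positivity)
    have h4 : (n : ℝ) ^ 2 / 8000 * (8000 / n) = n := by
      field_simp
    linarith
  have ht1 := hterm (sin (arccos a)) (deriv (qq P) (arccos a)) (cos θ - a)
    (sin_nonneg_of_nonneg_of_le_pi (arccos_nonneg a) haπ) (sin_le_one _) (hdn _) hda
  have ht2 := hterm (sin (arccos b)) (deriv (qq P) (arccos b)) (b - cos θ)
    (sin_nonneg_of_nonneg_of_le_pi hb0 (arccos_le_pi b)) (sin_le_one _) (hdn _) hdb
  -- the logarithmic term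
  have ht3 : K * n * (1 + Real.log n) ≤ (n : ℝ) ^ 2 / 4000 := by
    have h1 := e3_log n hnpos
    have h2 : 8000 * K ≤ √(n : ℝ) := by
      apply Real.le_sqrt_of_sq_le
      exact (Nat.le_ceil _).trans (by exact_mod_cast hn4)
    have h3 : √(n : ℝ) * √(n : ℝ) = n := Real.mul_self_sqrt hnpos.le
    have h4 : 0 ≤ √(n : ℝ) := Real.sqrt_nonneg _
    have h5 : K * n * (1 + Real.log n) ≤ K * n * (2 * √(n : ℝ)) :=
      mul_le_mul_of_nonneg_left h1 (by positivity)
    have h6 : 8000 * K * √(n : ℝ) ≤ n := by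
      calc 8000 * K * √(n : ℝ) ≤ √(n : ℝ) * √(n : ℝ) := mul_le_mul_of_nonneg_right h2 h4
        _ = n := h3
    nlinarith
  -- the tail term
  have ht4 : K * 1.6 * (n : ℝ) ^ 2 *
      (1 / (1 + n * (arccos a - θ)) + 1 / (1 + n * (θ - arccos b))) ≤ (n : ℝ) ^ 2 / 4000 := by
    have hx : ∀ x : ℝ, R / n ≤ x → 1 / (1 + n * x) ≤ 1 / R := by
      intro x hx
      apply one_div_le_one_div_of_le hRpos
      rw [div_le_iff₀ hnpos] at hx
      linarith
    have h1 := hx (arccos a - θ) (by linarith)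
    have h2 := hx (θ - arccos b) (by linarith)
    have h3 : K * 1.6 * (n : ℝ) ^ 2 *
        (1 / (1 + n * (arccos a - θ)) + 1 / (1 + n * (θ - arccos b))) ≤
        K * 1.6 * (n : ℝ) ^ 2 * (1 / R + 1 / R) :=
      mul_le_mul_of_nonneg_left (by linarith) (by positivity)
    refine h3.trans ?_
    have h4 : K * (1 / R) ≤ 1 / 12800 := by
      rw [mul_one_div, div_le_div_iff₀ hRpos (by norm_num)]
      linarith
    have h5 : K * 1.6 * (n : ℝ) ^ 2 * (1 / R + 1 / R) = 3.2 * (n : ℝ) ^ 2 * (K * (1 / R)) := by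
      ring
    rw [h5]
    have h6 : 3.2 * (n : ℝ) ^ 2 * (K * (1 / R)) ≤ 3.2 * (n : ℝ) ^ 2 * (1 / 12800) :=
      mul_le_mul_of_nonneg_left h4 (by positivity)
    refine h6.trans (le_of_eq ?_)
    ring
  have hn2pos : 0 < (n : ℝ) ^ 2 := by positivity
  linarith

end Pool.Agent.Helper10.AL
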