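import Pool.Agent.Helper10.AL.St2

/-!
Localisation of the non-real critical points, piece G2.
-/

set_option autoImplicit false

namespace Pool.Agent.Helper10.AL

open Polynomial Set Real MeasureTheory intervalIntegral
open Pool.Agent.Helper40.AS (arc Bdd Ext quad quad_eval quad_der quad_deg quad_dvd contact_int)

noncomputable section

/-- distance of the real point `x` to the point `u + i v` -/
def g2_q (u v x : ℝ) : ℝ := √((x - u) ^ 2 + v ^ 2)

theorem g2_q_sq (u v x : ℝ) : g2_q u v x ^ 2 = (x - u) ^ 2 + v ^ 2 :=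
  sq_sqrt (by positivity)

theorem g2_q_pos {v : ℝ} (hv : 0 < v) (u x : ℝ) : 0 < g2_q u v x :=
  sqrt_pos.2 (by positivity)

theorem g2_abs_le (u v x : ℝ) : |x - u| ≤ g2_q u v x := by
  rw [g2_q]
  exact abs_le_sqrt (by nlinarith [sq_nonneg v])

theorem g2_v_le (v u x : ℝ) : v ≤ g2_q u v x := by
  rw [g2_q]
  exact le_sqrt_of_sq_le (by nlinarith [sq_nonneg (x - u)])

theorem g2_tri {v : ℝ} (hv : 0 < v) (u x y : ℝ) : g2_q u v x ≤ g2_q u v y + |x - y| := by
  have h0 := g2_q_pos hv u y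
  have h1 := g2_abs_le u v y
  have h2 := g2_q_sq u v x
  have h3 := g2_q_sq u v y
  refine abs_le_of_sq_le_sq' ?_ (by positivity) |>.2
  rw [h2, add_sq, h3]
  have h4 : (x - u) ^ 2 = (y - u) ^ 2 + 2 * ((y - u) * (x - y)) + (x - y) ^ 2 := by ring
  have h5 : (y - u) * (x - y) ≤ g2_q u v y * |x - y| := by
    calc (y - u) * (x - y) ≤ |(y - u) * (x - y)| := le_abs_self _
      _ = |y - u| * |x - y| := abs_mul _ _
      _ ≤ g2_q u v y * |x - y| := mul_le_mul_of_nonneg_right h1 (abs_nonneg _)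
  rw [sq_abs]
  nlinarith

theorem g2_norm (z : ℂ) (x : ℝ) : ‖z - (x : ℂ)‖ = g2_q z.re z.im x := by
  rw [g2_q, Complex.norm_eq_sqrt_sq_add_sq]
  congr 1
  simp
  ring

theorem g2_cont (u v : ℝ) : Continuous (g2_q u v) := by
  unfold g2_q
  fun_prop

theorem g2_Phi_pos (P : ℝ[X]) (x : ℝ) : 0 < √(1 + P.derivative.eval x ^ 2) :=
  sqrt_pos.2 (by positivity)

theorem g2_Phi_one (P : ℝ[X]) (x : ℝ) : 1 ≤ √(1 + P.derivative.eval x ^ 2) := by
  rw [one_le_sqrt]
  nlinarith [sq_nonneg (P.derivative.eval x)]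

theorem g2_Phi_abs (P : ℝ[X]) (x : ℝ) : |P.derivative.eval x| ≤ √(1 + P.derivative.eval x ^ 2) :=
  abs_le_sqrt (by linarith)

theorem g2_Phi_cont (P : ℝ[X]) : Continuous fun x => √(1 + P.derivative.eval x ^ 2) := by
  fun_prop

/-- the weights -/
def g2_w (u v α β γ x : ℝ) : ℝ := α / g2_q u v x ^ 2 + β / g2_q u v x ^ 3 + γ / g2_q u v x

theorem g2_w_cont {v : ℝ} (hv : 0 < v) (u α β γ : ℝ) : Continuous (g2_w u v α β γ) := by
  have h := g2_cont u v
  have h0 : ∀ x, g2_q u v x ≠ 0 := fun x => (g2_q_pos hv u x).ne'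
  unfold g2_w
  exact ((continuous_const.div (h.pow 2) fun x => pow_ne_zero _ (h0 x)).add
    (continuous_const.div (h.pow 3) fun x => pow_ne_zero _ (h0 x))).add
    (continuous_const.div h h0)

theorem g2_w_nonneg {v α β γ : ℝ} (hv : 0 < v) (u : ℝ) (hα : 0 ≤ α) (hβ : 0 ≤ β) (hγ : 0 ≤ γ)
    (x : ℝ) : 0 ≤ g2_w u v α β γ x := by
  have h := g2_q_pos hv u x
  unfold g2_w
  positivity

theorem g2_w_slow {v α β γ c : ℝ} {n : ℕ} (hv : 0 < v) (u : ℝ) (hα : 0 ≤ α) (hβ : 0 ≤ β)
    (hγ : 0 ≤ γ) (hc : 0 < c) (hn : 1 ≤ n) {x y : ℝ} (hx : c / n ≤ g2_q u v x)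
    (hxy : |x - y| ≤ 1 / n) :
    g2_w u v α β γ x ≤ (1 + 1 / c) ^ 3 * g2_w u v α β γ y := by
  have hn' : (0 : ℝ) < n := by exact_mod_cast hn
  have hqx := g2_q_pos hv u x
  have hqy := g2_q_pos hv u y
  set B : ℝ := 1 + 1 / c with hB
  have hB1 : 1 ≤ B := by
    have : 0 < 1 / c := by positivity
    linarith
  have h1 : g2_q u v y ≤ B * g2_q u v x := by
    have h := g2_tri hv u y x
    rw [abs_sub_comm] at h
    have h2 : 1 / (n : ℝ) ≤ 1 / c * g2_q u v x := by
      calc 1 / (n : ℝ) = 1 / c * (c / n) := by field_simp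
        _ ≤ 1 / c * g2_q u v x := mul_le_mul_of_nonneg_left hx (by positivity)
    rw [hB]
    linarith
  have h2 : 1 / g2_q u v x ≤ B * (1 / g2_q u v y) := by
    rw [div_le_iff₀ hqx, mul_assoc, div_mul_eq_mul_div, one_mul, ← mul_div_assoc, le_div_iff₀ hqy]
    linarith
  have hx0 : 0 ≤ 1 / g2_q u v x := by positivity
  have hy0 : 0 ≤ 1 / g2_q u v y := by positivity
  have h3 : (1 / g2_q u v x) ^ 2 ≤ B ^ 3 * (1 / g2_q u v y) ^ 2 := by
    have := pow_le_pow_left₀ hx0 h2 2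
    have h5 : B ^ 2 ≤ B ^ 3 := pow_le_pow_right₀ hB1 (by norm_num)
    have h6 : 0 ≤ (1 / g2_q u v y) ^ 2 := by positivity
    calc _ ≤ (B * (1 / g2_q u v y)) ^ 2 := this
      _ = B ^ 2 * (1 / g2_q u v y) ^ 2 := by ring
      _ ≤ _ := mul_le_mul_of_nonneg_right h5 h6
  have h4 : (1 / g2_q u v x) ^ 3 ≤ B ^ 3 * (1 / g2_q u v y) ^ 3 := by
    have := pow_le_pow_left₀ hx0 h2 3
    calc _ ≤ (B * (1 / g2_q u v y)) ^ 3 := this
      _ = B ^ 3 * (1 / g2_q u v y) ^ 3 := by ring
  have h5 : 1 / g2_q u v x ≤ B ^ 3 * (1 / g2_q u v y) := by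
    have h5 : B ≤ B ^ 3 := by
      calc B = B ^ 1 := (pow_one B).symm
        _ ≤ B ^ 3 := pow_le_pow_right₀ hB1 (by norm_num)
    exact h2.trans (mul_le_mul_of_nonneg_right h5 hy0)
  have e : ∀ t, g2_w u v α β γ t = α * (1 / g2_q u v t) ^ 2 + β * (1 / g2_q u v t) ^ 3 +
      γ * (1 / g2_q u v t) := by
    intro t
    unfold g2_w
    rw [one_div_pow, one_div_pow]
    ring
  rw [e, e]
  nlinarith [mul_le_mul_of_nonneg_left h3 hα, mul_le_mul_of_nonneg_left h4 hβ,
    mul_le_mul_of_nonneg_left h5 hγ]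

/-- the integral of the inverse cube -/
theorem g2_cube {v : ℝ} (hv : 0 < v) (u a b : ℝ) :
    (∫ x in a..b, 1 / g2_q u v x ^ 3) =
      ((b - u) / g2_q u v b - (a - u) / g2_q u v a) / v ^ 2 := by
  have h0 : ∀ x, g2_q u v x ≠ 0 := fun x => (g2_q_pos hv u x).ne'
  have hd : ∀ x, HasDerivAt (fun x => (x - u) / g2_q u v x / v ^ 2) (1 / g2_q u v x ^ 3) x := by
    intro x
    have h1 : HasDerivAt (fun x : ℝ => (x - u) ^ 2 + v ^ 2) (2 * (x - u)) x := by
      have := ((hasDerivAt_id x).sub_const u).pow 2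
      simpa using this.add_const (v ^ 2)
    have hne : (x - u) ^ 2 + v ^ 2 ≠ 0 := by positivity
    have h2 : HasDerivAt (g2_q u v) (2 * (x - u) / (2 * g2_q u v x)) x := by
      exact h1.sqrt hne
    have h3 : HasDerivAt (fun x => (x - u) / g2_q u v x / v ^ 2)
        ((1 * g2_q u v x - (x - u) * (2 * (x - u) / (2 * g2_q u v x))) / g2_q u v x ^ 2 / v ^ 2) x :=
      ((((hasDerivAt_id x).sub_const u).div h2 (h0 x))).div_const (v ^ 2)
    convert h3 using 1
    have h4 := g2_q_sq u v x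
    have h5 := h0 x
    have h6 : v ≠ 0 := hv.ne'
    have h7 : (x - u) ^ 2 = g2_q u v x ^ 2 - v ^ 2 := by linarith
    field_simp
    rw [h7]
    ring
  rw [integral_eq_sub_of_hasDerivAt (fun x _ => hd x)]
  · ring
  · apply Continuous.intervalIntegrable
    exact continuous_const.div ((g2_cont u v).pow 3) fun x => pow_ne_zero _ (h0 x)

/-- the integral of the inverse -/
theorem g2_inv {v : ℝ} (hv : 0 < v) (u a b : ℝ) :
    (∫ x in a..b, 1 / g2_q u v x) =
      Real.log ((b - u) + g2_q u v b) - Real.log ((a - u) + g2_q u v a) := by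
  have h0 : ∀ x, g2_q u v x ≠ 0 := fun x => (g2_q_pos hv u x).ne'
  have hpos : ∀ x, 0 < (x - u) + g2_q u v x := by
    intro x
    have h1 : |x - u| < g2_q u v x := by
      rw [g2_q]
      exact lt_sqrt_of_sq_lt (by rw [sq_abs]; nlinarith [sq_nonneg (x - u), pow_pos hv 2])
    have := neg_abs_le (x - u)
    linarith
  have hd : ∀ x, HasDerivAt (fun x => Real.log ((x - u) + g2_q u v x)) (1 / g2_q u v x) x := by
    intro x
    have h1 : HasDerivAt (fun x : ℝ => (x - u) ^ 2 + v ^ 2) (2 * (x - u)) x := by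
      have := ((hasDerivAt_id x).sub_const u).pow 2
      simpa using this.add_const (v ^ 2)
    have hne : (x - u) ^ 2 + v ^ 2 ≠ 0 := by positivity
    have h2 : HasDerivAt (g2_q u v) (2 * (x - u) / (2 * g2_q u v x)) x := by
      exact h1.sqrt hne
    have h3 : HasDerivAt (fun x => Real.log ((x - u) + g2_q u v x))
        ((1 + 2 * (x - u) / (2 * g2_q u v x)) / ((x - u) + g2_q u v x)) x :=
      (((hasDerivAt_id x).sub_const u).add h2).log (hpos x).ne'
    convert h3 using 1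
    have h5 := h0 x
    have h6 := (hpos x).ne'
    field_simp
    ring
  rw [integral_eq_sub_of_hasDerivAt (fun x _ => hd x)]
  apply Continuous.intervalIntegrable
  exact continuous_const.div (g2_cont u v) h0

/-- the identity with the weights -/
theorem g2_id (hG0 : G0) {δ a b u v : ℝ} {n : ℕ} {P : ℝ[X]} (hn : 1 ≤ n) (hδ : 0 < δ)
    (hm : Mid δ a b) (hE : Ext n a b P) (hv : 0 < v) (hdvd : quad u v ∣ P.derivative) (l : ℝ[X])
    (hl : l.natDegree ≤ 1) :
    ((1 - b ^ 2) * l.eval b / g2_q u v b ^ 2) * √(1 + P.derivative.eval b ^ 2) -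
      ((1 - a ^ 2) * l.eval a / g2_q u v a ^ 2) * √(1 + P.derivative.eval a ^ 2) =
    ∫ x in a..b, (((-2 * x * l.eval x + (1 - x ^ 2) * l.derivative.eval x) * g2_q u v x ^ 2 -
      (1 - x ^ 2) * l.eval x * (2 * (x - u))) / (g2_q u v x ^ 2) ^ 2) /
        √(1 + P.derivative.eval x ^ 2) := by
  obtain ⟨R, hR⟩ := hdvd
  obtain ⟨h1, h2, h3⟩ := hm
  have hD : ∀ x : ℝ, (quad u v).eval x ≠ 0 := by
    intro x
    rw [quad_eval]
    positivity
  have hdeg : P.natDegree ≤ n := natDegree_le_of_degree_le hE.deg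
  have key := hG0 n a b P (quad u v) R l hn (by linarith) (by linarith) (by linarith) hE hR
    (by
      intro x hx hc
      have h4 := contact_int hE.bdd hx hc
      rw [hR, eval_mul] at h4
      exact (mul_eq_zero.1 h4).resolve_left (hD x))
    (by rw [quad_deg]; omega) (fun x _ => hD x)
  simp only [g2_q_sq, ← quad_eval]
  rw [key]
  congr 1
  ext x
  have e1 : eval x (derivative ((1 - X ^ 2) * l)) =
      -2 * x * eval x l + (1 - x ^ 2) * eval x (derivative l) := by
    rw [derivative_mul]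
    simp
    left
    left
    norm_num
  rw [e1, quad_der]

theorem g2_num {A B q : ℝ} (hq : 0 < q) (hA : |A| ≤ 5) (hB : |B| ≤ 4 * q) :
    |(A * q ^ 2 - B) / (q ^ 2) ^ 2| ≤ 5 / q ^ 2 + 4 / q ^ 3 + 0 / q := by
  rw [abs_div, abs_of_pos (by positivity : (0 : ℝ) < (q ^ 2) ^ 2), div_le_iff₀ (by positivity)]
  have e : (5 / q ^ 2 + 4 / q ^ 3 + 0 / q) * (q ^ 2) ^ 2 = 5 * q ^ 2 + 4 * q := by
    field_simp
    ring
  rw [e]
  calc |A * q ^ 2 - B| ≤ |A * q ^ 2| + |B| := abs_sub _ _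
    _ = |A| * q ^ 2 + |B| := by rw [abs_mul, abs_of_pos (by positivity : (0 : ℝ) < q ^ 2)]
    _ ≤ 5 * q ^ 2 + 4 * q := add_le_add (mul_le_mul_of_nonneg_right hA (by positivity)) hB

theorem g2_integrable_w {v : ℝ} (hv : 0 < v) (u a b α β γ : ℝ) (P : ℝ[X]) :
    IntervalIntegrable (fun x => g2_w u v α β γ x / √(1 + P.derivative.eval x ^ 2)) volume a b := by
  apply Continuous.intervalIntegrable
  exact (g2_w_cont hv u α β γ).div (g2_Phi_cont P) fun x => (g2_Phi_pos P x).ne'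

theorem g2_cont_N {v : ℝ} (hv : 0 < v) (u : ℝ) (l P : ℝ[X]) :
    Continuous fun x : ℝ => (((-2 * x * l.eval x + (1 - x ^ 2) * l.derivative.eval x) *
      g2_q u v x ^ 2 - (1 - x ^ 2) * l.eval x * (2 * (x - u))) / (g2_q u v x ^ 2) ^ 2) /
        √(1 + P.derivative.eval x ^ 2) := by
  refine Continuous.div (Continuous.div ?_ ?_ fun x => ?_) (g2_Phi_cont P)
    fun x => (g2_Phi_pos P x).ne'
  · have := g2_cont u v
    fun_prop
  · exact ((g2_cont u v).pow 2).pow 2
  · exact pow_ne_zero _ (pow_ne_zero _ (g2_q_pos hv u x).ne')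

theorem g2_abs_int {δ a b u v : ℝ} {P : ℝ[X]} (hδ : 0 < δ) (hm : Mid δ a b) (hv : 0 < v)
    (l : ℝ[X]) (hl : ∀ x ∈ Icc a b, |l.eval x| ≤ 2) (hl' : ∀ x : ℝ, |l.derivative.eval x| ≤ 1) :
    |∫ x in a..b, (((-2 * x * l.eval x + (1 - x ^ 2) * l.derivative.eval x) * g2_q u v x ^ 2 -
      (1 - x ^ 2) * l.eval x * (2 * (x - u))) / (g2_q u v x ^ 2) ^ 2) /
        √(1 + P.derivative.eval x ^ 2)| ≤
      ∫ x in a..b, g2_w u v 5 4 0 x / √(1 + P.derivative.eval x ^ 2) := by
  obtain ⟨h1, h2, h3⟩ := hm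
  have hab : a ≤ b := by linarith
  refine (abs_integral_le_integral_abs hab).trans ?_
  refine integral_mono_on hab ((g2_cont_N hv u l P).abs.intervalIntegrable _ _)
    (g2_integrable_w hv u a b 5 4 0 P) fun x hx => ?_
  rw [abs_div, abs_of_pos (g2_Phi_pos P x)]
  refine div_le_div_of_nonneg_right ?_ (g2_Phi_pos P x).le
  have hx1 : |x| ≤ 1 := abs_le.2 ⟨by linarith [hx.1], by linarith [hx.2]⟩
  have hx2 : 0 ≤ 1 - x ^ 2 := by
    have := abs_le.1 hx1
    nlinarith
  have hx3 : 1 - x ^ 2 ≤ 1 := by nlinarith [sq_nonneg x]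
  have hq := g2_q_pos hv u x
  have hlx := hl x hx
  refine g2_num hq ?_ ?_
  · calc |-2 * x * l.eval x + (1 - x ^ 2) * l.derivative.eval x|
        ≤ |-2 * x * l.eval x| + |(1 - x ^ 2) * l.derivative.eval x| := abs_add_le _ _
      _ = 2 * |x| * |l.eval x| + (1 - x ^ 2) * |l.derivative.eval x| := by
          rw [abs_mul, abs_mul, abs_mul, abs_of_nonneg hx2]
          norm_num
      _ ≤ 2 * 1 * 2 + 1 * 1 := by
          refine add_le_add ?_ ?_
          · exact mul_le_mul (by linarith) hlx (abs_nonneg _) (by norm_num)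
          · exact mul_le_mul hx3 (hl' x) (abs_nonneg _) (by norm_num)
      _ = 5 := by norm_num
  · have h5 := g2_abs_le u v x
    calc |(1 - x ^ 2) * l.eval x * (2 * (x - u))|
        = (1 - x ^ 2) * |l.eval x| * (2 * |x - u|) := by
          rw [abs_mul, abs_mul, abs_mul, abs_of_nonneg hx2]
          norm_num
      _ ≤ 1 * 2 * (2 * g2_q u v x) := by
          refine mul_le_mul (mul_le_mul hx3 hlx (abs_nonneg _) (by norm_num)) (by linarith)
            (by positivity) (by norm_num)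
      _ = 4 * g2_q u v x := by ring

theorem g2_one_sub {δ x : ℝ} (hδ : 0 < δ) (_hδ1 : δ ≤ 1 / 4) (h1 : -1 + δ ≤ x) (h2 : x ≤ 1 - δ) :
    δ ≤ 1 - x ^ 2 := by
  rcases le_total 0 x with h | h
  · nlinarith
  · nlinarith

/-- the inequality at the right end -/
theorem g2_right (hG0 : G0) {δ a b u v : ℝ} {n : ℕ} {P : ℝ[X]} (hn : 1 ≤ n) (hδ : 0 < δ)
    (hδ1 : δ ≤ 1 / 4) (hm : Mid δ a b) (hE : Ext n a b P) (hv : 0 < v)
    (hdvd : quad u v ∣ P.derivative) :
    δ ^ 2 / g2_q u v b ^ 2 ≤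
      ∫ x in a..b, g2_w u v 5 4 0 x / √(1 + P.derivative.eval x ^ 2) := by
  have hid := g2_id hG0 hn hδ hm hE hv hdvd (X - C a) (natDegree_X_sub_C_le a)
  have hab := g2_abs_int (u := u) (v := v) (P := P) hδ hm hv (X - C a)
    (by
      intro x hx
      obtain ⟨h1, h2, h3⟩ := hm
      simp only [eval_sub, eval_X, eval_C]
      rw [abs_of_nonneg (by linarith [hx.1])]
      linarith [hx.2])
    (by intro x; simp)
  rw [← hid] at hab
  obtain ⟨h1, h2, h3⟩ := hm
  have h4 := (le_abs_self _).trans hab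
  simp only [eval_sub, eval_X, eval_C, sub_self, mul_zero, zero_div, zero_mul, sub_zero] at h4
  refine le_trans ?_ h4
  have hq := g2_q_pos hv u b
  have h5 := g2_one_sub hδ hδ1 (by linarith : -1 + δ ≤ b) h3
  have h6 : δ * δ ≤ (1 - b ^ 2) * (b - a) := mul_le_mul h5 (by linarith) hδ.le (by linarith)
  calc δ ^ 2 / g2_q u v b ^ 2 ≤ ((1 - b ^ 2) * (b - a)) / g2_q u v b ^ 2 :=
        div_le_div_of_nonneg_right (by linarith) (by positivity)
    _ = ((1 - b ^ 2) * (b - a)) / g2_q u v b ^ 2 * 1 := (mul_one _).symm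
    _ ≤ _ := mul_le_mul_of_nonneg_left (g2_Phi_one P b)
        (div_nonneg (by nlinarith) (by positivity))

/-- the inequality at the left end -/
theorem g2_left (hG0 : G0) {δ a b u v : ℝ} {n : ℕ} {P : ℝ[X]} (hn : 1 ≤ n) (hδ : 0 < δ)
    (hδ1 : δ ≤ 1 / 4) (hm : Mid δ a b) (hE : Ext n a b P) (hv : 0 < v)
    (hdvd : quad u v ∣ P.derivative) :
    δ ^ 2 / g2_q u v a ^ 2 ≤
      ∫ x in a..b, g2_w u v 5 4 0 x / √(1 + P.derivative.eval x ^ 2) := by
  have hid := g2_id hG0 hn hδ hm hE hv hdvd (C b - X)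
    ((natDegree_sub_le _ _).trans (by simp))
  have hab := g2_abs_int (u := u) (v := v) (P := P) hδ hm hv (C b - X)
    (by
      intro x hx
      obtain ⟨h1, h2, h3⟩ := hm
      simp only [eval_sub, eval_X, eval_C]
      rw [abs_of_nonneg (by linarith [hx.2])]
      linarith [hx.1])
    (by intro x; simp)
  rw [← hid] at hab
  obtain ⟨h1, h2, h3⟩ := hm
  have h4 := (neg_le_abs _).trans hab
  simp only [eval_sub, eval_X, eval_C, sub_self, mul_zero, zero_div, zero_mul, zero_sub,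
    neg_neg] at h4
  refine le_trans ?_ h4
  have hq := g2_q_pos hv u a
  have h5 := g2_one_sub hδ hδ1 h1 (by linarith : a ≤ 1 - δ)
  have h6 : δ * δ ≤ (1 - a ^ 2) * (b - a) := mul_le_mul h5 (by linarith) hδ.le (by linarith)
  calc δ ^ 2 / g2_q u v a ^ 2 ≤ ((1 - a ^ 2) * (b - a)) / g2_q u v a ^ 2 :=
        div_le_div_of_nonneg_right (by linarith) (by positivity)
    _ = ((1 - a ^ 2) * (b - a)) / g2_q u v a ^ 2 * 1 := (mul_one _).symm
    _ ≤ _ := mul_le_mul_of_nonneg_left (g2_Phi_one P a)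
        (div_nonneg (by nlinarith) (by positivity))

/-- the linear inequality -/
theorem g2_lin (hG0 : G0) {δ a b u v : ℝ} {n : ℕ} {P : ℝ[X]} (hn : 1 ≤ n) (hδ : 0 < δ)
    (hδ1 : δ ≤ 1 / 4) (hm : Mid δ a b) (hE : Ext n a b P) (hv : 0 < v)
    (hdvd : quad u v ∣ P.derivative) (hau : a ≤ u) (hub : u ≤ b) :
    δ * ((b - u) / g2_q u v b ^ 2 * √(1 + P.derivative.eval b ^ 2) +
      (u - a) / g2_q u v a ^ 2 * √(1 + P.derivative.eval a ^ 2)) ≤
      ∫ x in a..b, g2_w u v 0 v 2 x / √(1 + P.derivative.eval x ^ 2) := by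
  have hid := g2_id hG0 hn hδ hm hE hv hdvd (X - C u) (natDegree_X_sub_C_le u)
  obtain ⟨h1, h2, h3⟩ := hm
  have hab : a ≤ b := by linarith
  have hmono : (∫ x in a..b, (((-2 * x * (X - C u).eval x +
      (1 - x ^ 2) * (X - C u).derivative.eval x) * g2_q u v x ^ 2 -
      (1 - x ^ 2) * (X - C u).eval x * (2 * (x - u))) / (g2_q u v x ^ 2) ^ 2) /
        √(1 + P.derivative.eval x ^ 2)) ≤
      ∫ x in a..b, g2_w u v 0 v 2 x / √(1 + P.derivative.eval x ^ 2) := by
    refine integral_mono_on hab ((g2_cont_N hv u (X - C u) P).intervalIntegrable _ _)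
      (g2_integrable_w hv u a b 0 v 2 P) fun x hx => ?_
    refine div_le_div_of_nonneg_right ?_ (g2_Phi_pos P x).le
    have hx1 : |x| ≤ 1 := abs_le.2 ⟨by linarith [hx.1], by linarith [hx.2]⟩
    have hx2 : 0 ≤ 1 - x ^ 2 := by
      have := abs_le.1 hx1
      nlinarith
    have hx3 : 1 - x ^ 2 ≤ 1 := by nlinarith [sq_nonneg x]
    have hq := g2_q_pos hv u x
    have hqs := g2_q_sq u v x
    have h5 := g2_abs_le u v x
    have h6 := g2_v_le v u x
    simp only [eval_sub, eval_X, eval_C, derivative_sub, derivative_X, derivative_C, sub_zero,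
      eval_one, mul_one, g2_w]
    rw [div_le_iff₀ (by positivity)]
    set q := g2_q u v x with hqdef
    have e : (0 / q ^ 2 + v / q ^ 3 + 2 / q) * (q ^ 2) ^ 2 = v * q + 2 * q ^ 3 := by
      field_simp
      ring
    rw [e]
    have h7 : -(2 * x * (x - u)) ≤ 2 * q := by
      calc -(2 * x * (x - u)) ≤ |2 * x * (x - u)| := neg_le_abs _
        _ = 2 * |x| * |x - u| := by rw [abs_mul, abs_mul]; norm_num
        _ ≤ 2 * 1 * q := mul_le_mul (by linarith) h5 (abs_nonneg _) (by norm_num)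
        _ = 2 * q := by ring
    have h8 : -(2 * x * (x - u)) * q ^ 2 ≤ 2 * q * q ^ 2 :=
      mul_le_mul_of_nonneg_right h7 (by positivity)
    have h9 : (1 - x ^ 2) * (q ^ 2 - 2 * (x - u) ^ 2) ≤ v * q := by
      have h10 : q ^ 2 - 2 * (x - u) ^ 2 ≤ v ^ 2 := by nlinarith [sq_nonneg (x - u)]
      have h11 : v ^ 2 ≤ v * q := by nlinarith
      calc (1 - x ^ 2) * (q ^ 2 - 2 * (x - u) ^ 2) ≤ (1 - x ^ 2) * v ^ 2 :=
            mul_le_mul_of_nonneg_left h10 hx2
        _ ≤ 1 * v ^ 2 := mul_le_mul_of_nonneg_right hx3 (by positivity)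
        _ ≤ v * q := by linarith
    nlinarith
  rw [← hid] at hmono
  refine le_trans ?_ hmono
  simp only [eval_sub, eval_X, eval_C]
  have hqb := g2_q_pos hv u b
  have hqa := g2_q_pos hv u a
  have h5 := g2_one_sub hδ hδ1 (by linarith : -1 + δ ≤ b) h3
  have h6 := g2_one_sub hδ hδ1 h1 (by linarith : a ≤ 1 - δ)
  have h7 : 0 ≤ (b - u) / g2_q u v b ^ 2 * √(1 + P.derivative.eval b ^ 2) :=
    mul_nonneg (div_nonneg (by linarith) (by positivity)) (sqrt_nonneg _)
  have h8 : 0 ≤ (u - a) / g2_q u v a ^ 2 * √(1 + P.derivative.eval a ^ 2) :=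
    mul_nonneg (div_nonneg (by linarith) (by positivity)) (sqrt_nonneg _)
  have e1 : (1 - b ^ 2) * (b - u) / g2_q u v b ^ 2 * √(1 + P.derivative.eval b ^ 2) =
      (1 - b ^ 2) * ((b - u) / g2_q u v b ^ 2 * √(1 + P.derivative.eval b ^ 2)) := by ring
  have e2 : (1 - a ^ 2) * (a - u) / g2_q u v a ^ 2 * √(1 + P.derivative.eval a ^ 2) =
      -((1 - a ^ 2) * ((u - a) / g2_q u v a ^ 2 * √(1 + P.derivative.eval a ^ 2))) := by ring
  rw [e1, e2, mul_add]
  nlinarith [mul_le_mul_of_nonneg_right h5 h7, mul_le_mul_of_nonneg_right h6 h8]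

/-- crude bound for the integral of the inverse cube -/
theorem g2_cube_le {v : ℝ} (hv : 0 < v) (u a b : ℝ) :
    (∫ x in a..b, 1 / g2_q u v x ^ 3) ≤ 2 / v ^ 2 := by
  rw [g2_cube hv]
  refine div_le_div_of_nonneg_right ?_ (by positivity)
  have h1 : (b - u) / g2_q u v b ≤ 1 := by
    rw [div_le_one (g2_q_pos hv u b)]
    exact (le_abs_self _).trans (g2_abs_le u v b)
  have h2 : -1 ≤ (a - u) / g2_q u v a := by
    rw [le_div_iff₀ (g2_q_pos hv u a)]
    linarith [neg_abs_le (a - u), g2_abs_le u v a]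
  linarith

theorem g2_cube_right {v : ℝ} (hv : 0 < v) {u b : ℝ} (a : ℝ) (hub : b ≤ u) :
    (∫ x in a..b, 1 / g2_q u v x ^ 3) ≤ 1 / g2_q u v b ^ 2 := by
  rw [g2_cube hv]
  have hq := g2_q_pos hv u b
  have h2 : -1 ≤ (a - u) / g2_q u v a := by
    rw [le_div_iff₀ (g2_q_pos hv u a)]
    linarith [neg_abs_le (a - u), g2_abs_le u v a]
  have h3 : (b - u) / g2_q u v b ≤ -(1 - v ^ 2 / g2_q u v b ^ 2) := by
    have h4 : 1 - v ^ 2 / g2_q u v b ^ 2 = ((u - b) / g2_q u v b) ^ 2 := by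
      rw [div_pow]
      rw [eq_div_iff (by positivity), sub_mul, div_mul_cancel₀ _ (by positivity)]
      rw [g2_q_sq]
      ring
    have h5 : (u - b) / g2_q u v b ≤ 1 := by
      rw [div_le_one hq]
      have := g2_abs_le u v b
      rw [abs_sub_comm] at this
      exact (le_abs_self _).trans this
    have h6 : 0 ≤ (u - b) / g2_q u v b := div_nonneg (by linarith) hq.le
    have h7 : (b - u) / g2_q u v b = -((u - b) / g2_q u v b) := by ring
    rw [h4, h7]
    nlinarith
  have h8 : (b - u) / g2_q u v b - (a - u) / g2_q u v a ≤ v ^ 2 / g2_q u v b ^ 2 := by linarith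
  calc _ ≤ (v ^ 2 / g2_q u v b ^ 2) / v ^ 2 := div_le_div_of_nonneg_right h8 (by positivity)
    _ = 1 / g2_q u v b ^ 2 := by
      have : v ≠ 0 := hv.ne'
      field_simp

theorem g2_cube_left {v : ℝ} (hv : 0 < v) {u a : ℝ} (b : ℝ) (hua : u ≤ a) :
    (∫ x in a..b, 1 / g2_q u v x ^ 3) ≤ 1 / g2_q u v a ^ 2 := by
  rw [g2_cube hv]
  have hq := g2_q_pos hv u a
  have h2 : (b - u) / g2_q u v b ≤ 1 := by
    rw [div_le_one (g2_q_pos hv u b)]
    exact (le_abs_self _).trans (g2_abs_le u v b)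
  have h3 : 1 - v ^ 2 / g2_q u v a ^ 2 ≤ (a - u) / g2_q u v a := by
    have h4 : 1 - v ^ 2 / g2_q u v a ^ 2 = ((a - u) / g2_q u v a) ^ 2 := by
      rw [div_pow]
      rw [eq_div_iff (by positivity), sub_mul, div_mul_cancel₀ _ (by positivity)]
      rw [g2_q_sq]
      ring
    have h5 : (a - u) / g2_q u v a ≤ 1 := by
      rw [div_le_one hq]
      exact (le_abs_self _).trans (g2_abs_le u v a)
    have h6 : 0 ≤ (a - u) / g2_q u v a := div_nonneg (by linarith) hq.le
    rw [h4]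
    nlinarith
  have h8 : (b - u) / g2_q u v b - (a - u) / g2_q u v a ≤ v ^ 2 / g2_q u v a ^ 2 := by linarith
  calc _ ≤ (v ^ 2 / g2_q u v a ^ 2) / v ^ 2 := div_le_div_of_nonneg_right h8 (by positivity)
    _ = 1 / g2_q u v a ^ 2 := by
      have : v ≠ 0 := hv.ne'
      field_simp

/-- the integral of the weight under a comparison with the value `E` at an end -/
theorem g2_int_w {v a b E : ℝ} (hv : 0 < v) (u : ℝ) (hab : a ≤ b) (hab2 : b - a ≤ 2) (hE : 0 < E)
    (h1 : ∀ x ∈ Icc a b, E ≤ 5 * g2_q u v x ^ 2)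
    (h2 : (∫ x in a..b, 1 / g2_q u v x ^ 3) ≤ 10 / E) :
    (∫ x in a..b, g2_w u v 5 4 0 x) ≤ 90 / E := by
  have h0 : ∀ x, g2_q u v x ≠ 0 := fun x => (g2_q_pos hv u x).ne'
  have hc3 : Continuous fun x => 1 / g2_q u v x ^ 3 :=
    continuous_const.div ((g2_cont u v).pow 3) fun x => pow_ne_zero _ (h0 x)
  have h3 : (∫ x in a..b, g2_w u v 5 4 0 x) ≤ ∫ x in a..b, (25 / E + 4 * (1 / g2_q u v x ^ 3)) := by
    refine integral_mono_on hab ((g2_w_cont hv u 5 4 0).intervalIntegrable _ _)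
      ((continuous_const.add (continuous_const.mul hc3)).intervalIntegrable _ _) fun x hx => ?_
    have hq := g2_q_pos hv u x
    have h4 : 5 / g2_q u v x ^ 2 ≤ 25 / E := by
      rw [div_le_div_iff₀ (by positivity) hE]
      linarith [h1 x hx]
    unfold g2_w
    rw [zero_div, add_zero]
    have : 4 / g2_q u v x ^ 3 = 4 * (1 / g2_q u v x ^ 3) := by ring
    linarith
  have h4 : (∫ x in a..b, (25 / E + 4 * (1 / g2_q u v x ^ 3))) =
      (b - a) * (25 / E) + 4 * ∫ x in a..b, 1 / g2_q u v x ^ 3 := by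
    have i1 : IntervalIntegrable (fun _ : ℝ => 25 / E) volume a b :=
      continuous_const.intervalIntegrable _ _
    have i2 : IntervalIntegrable (fun x => 4 * (1 / g2_q u v x ^ 3)) volume a b :=
      (continuous_const.mul hc3).intervalIntegrable _ _
    rw [integral_add i1 i2, intervalIntegral.integral_const_mul, intervalIntegral.integral_const,
      smul_eq_mul]
  rw [h4] at h3
  have h5 : (b - a) * (25 / E) ≤ 2 * (25 / E) := mul_le_mul_of_nonneg_right hab2 (by positivity)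
  have h6 : (90 : ℝ) / E = 2 * (25 / E) + 4 * (10 / E) := by ring
  linarith

/-- the integral of the second weight -/
theorem g2_int_w2 {v a b u : ℝ} (hv : 0 < v) (hv1 : v ≤ 1) (hau : a ≤ u) (hub : u ≤ b)
    (hab2 : b - a ≤ 2) :
    (∫ x in a..b, g2_w u v 0 v 2 x) ≤ 2 / v + 4 * Real.log 5 - 4 * Real.log v := by
  have h0 : ∀ x, g2_q u v x ≠ 0 := fun x => (g2_q_pos hv u x).ne'
  have hc3 : Continuous fun x => 1 / g2_q u v x ^ 3 :=
    continuous_const.div ((g2_cont u v).pow 3) fun x => pow_ne_zero _ (h0 x)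
  have hc1 : Continuous fun x => 1 / g2_q u v x := continuous_const.div (g2_cont u v) h0
  have e : (fun x => g2_w u v 0 v 2 x) =
      fun x => v * (1 / g2_q u v x ^ 3) + 2 * (1 / g2_q u v x) := by
    ext x
    unfold g2_w
    ring
  have i1 : IntervalIntegrable (fun x => v * (1 / g2_q u v x ^ 3)) volume a b :=
    (continuous_const.mul hc3).intervalIntegrable _ _
  have i2 : IntervalIntegrable (fun x => 2 * (1 / g2_q u v x)) volume a b :=
    (continuous_const.mul hc1).intervalIntegrable _ _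
  rw [e, integral_add i1 i2, intervalIntegral.integral_const_mul,
    intervalIntegral.integral_const_mul, g2_inv hv]
  have h1 := g2_cube_le hv u a b
  have h2 : v * (∫ x in a..b, 1 / g2_q u v x ^ 3) ≤ 2 / v := by
    calc _ ≤ v * (2 / v ^ 2) := mul_le_mul_of_nonneg_left h1 hv.le
      _ = 2 / v := by field_simp
  have hqb : g2_q u v b ≤ 3 := by
    rw [g2_q]
    have t1 : (b - u) ^ 2 ≤ 2 ^ 2 := pow_le_pow_left₀ (by linarith) (by linarith) 2
    have t2 : v ^ 2 ≤ 1 ^ 2 := pow_le_pow_left₀ hv.le hv1 2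
    exact sqrt_le_iff.2 ⟨by norm_num, by linarith⟩
  have hqa : g2_q u v a ≤ 3 := by
    rw [g2_q]
    have t1 : (u - a) ^ 2 ≤ 2 ^ 2 := pow_le_pow_left₀ (by linarith) (by linarith) 2
    have t2 : v ^ 2 ≤ 1 ^ 2 := pow_le_pow_left₀ hv.le hv1 2
    have t3 : (a - u) ^ 2 = (u - a) ^ 2 := by ring
    exact sqrt_le_iff.2 ⟨by norm_num, by linarith⟩
  have h3 : Real.log ((b - u) + g2_q u v b) ≤ Real.log 5 := by
    apply Real.log_le_log
    · have := g2_q_pos hv u b
      linarith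
    · linarith
  have h4 : 2 * Real.log v - Real.log 5 ≤ Real.log ((a - u) + g2_q u v a) := by
    have h5 : v ^ 2 / 5 ≤ (a - u) + g2_q u v a := by
      have h6 := g2_q_sq u v a
      have h7 := g2_q_pos hv u a
      have h8 : v ^ 2 = ((a - u) + g2_q u v a) * ((u - a) + g2_q u v a) := by
        have t : ((a - u) + g2_q u v a) * ((u - a) + g2_q u v a) =
          g2_q u v a ^ 2 - (a - u) ^ 2 := by ring
        rw [t, h6]
        ring
      have h9 : 0 < (a - u) + g2_q u v a := by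
        have h10 : 0 < (u - a) + g2_q u v a := by linarith
        have h11 : 0 < ((a - u) + g2_q u v a) * ((u - a) + g2_q u v a) := by
          rw [← h8]; positivity
        exact (pos_iff_pos_of_mul_pos h11).2 h10
      rw [div_le_iff₀ (by norm_num), h8]
      exact mul_le_mul_of_nonneg_left (by linarith) h9.le
    have h6 : Real.log (v ^ 2 / 5) = 2 * Real.log v - Real.log 5 := by
      rw [Real.log_div (by positivity) (by norm_num), Real.log_pow]
      norm_num
    rw [← h6]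
    exact Real.log_le_log (by positivity) h5
  linarith

/-- growth -/
theorem g2_small (η : ℝ) (hη : 0 < η) :
    ∃ n1 : ℕ, ∀ n : ℕ, n1 ≤ n → (1 + Real.log n) ^ 2 / n ≤ η := by
  have h : Filter.Tendsto (fun x : ℝ => (1 + Real.log x) ^ 2 / x) Filter.atTop (nhds 0) := by
    have h1 : (fun x : ℝ => 1 + Real.log x) =O[Filter.atTop] Real.log := by
      refine (Asymptotics.IsBigO.add ?_ (Asymptotics.isBigO_refl _ _))
      exact (isLittleO_const_log_atTop (c := (1 : ℝ))).isBigO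
    have h2 : (fun x : ℝ => (1 + Real.log x) ^ 2) =o[Filter.atTop] fun x : ℝ => x :=
      (h1.pow 2).trans_isLittleO (isLittleO_pow_log_id_atTop (n := 2))
    exact h2.tendsto_div_nhds_zero
  have h2 := (h.comp tendsto_natCast_atTop_atTop).eventually (gt_mem_nhds hη)
  obtain ⟨n1, hn1⟩ := Filter.eventually_atTop.1 h2
  exact ⟨n1, fun n hn => (hn1 n hn).le⟩

theorem g2 (_hA2 : A2) (hG0 : G0) (hG1 : G1) (hG2a : G2a) : G2 := by
  intro δ hδ hδ1
  obtain ⟨c1, hc1, hG1⟩ := hG1 δ hδ hδ1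
  obtain ⟨Ka, hKa, na, hG2a⟩ := hG2a δ hδ hδ1
  set c : ℝ := min c1 1 with hc
  have hc0 : 0 < c := lt_min hc1 one_pos
  have hc1' : c ≤ 1 := min_le_right _ _
  have hcc1 : c ≤ c1 := min_le_left _ _
  set A : ℝ := (1 + 1 / c) ^ 3 with hA
  have hA1 : 1 ≤ A := by
    have : (0 : ℝ) < 1 / c := by positivity
    exact one_le_pow₀ (by linarith)
  set M : ℝ := Ka * A with hM
  have hM0 : 0 < M := by positivity
  set C3 : ℝ := 4 + 4 * Real.log 5 + 4 * Real.log (1 / c) with hC3
  have hlog5 : 0 < Real.log 5 := Real.log_pos (by norm_num)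
  have hlogc : 0 ≤ Real.log (1 / c) := Real.log_nonneg (by rw [le_div_iff₀ hc0]; linarith)
  have hC30 : 0 < C3 := by positivity
  set C2 : ℝ := M * (2 / c + C3) / δ with hC2
  have hC20 : 0 < C2 := by positivity
  set K : ℝ := 40 * M / δ ^ 2 + 4 * C2 + 1 with hK
  have hK0 : 0 < K := by positivity
  obtain ⟨n1, hn1⟩ := g2_small (min (min 1 (δ ^ 2 / (100 * M))) (δ ^ 2 / (20 * (M * C3))))
    (by positivity)
  refine ⟨K, hK0, max (max na n1) 1, fun n hn a b P z hm hE hND hz hzv => ?_⟩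
  have hn0 : 1 ≤ n := (le_max_right _ _).trans hn
  have hna : na ≤ n := (le_max_left _ _).trans ((le_max_left _ _).trans hn)
  have hnn : (0 : ℝ) < n := by exact_mod_cast hn0
  have hsm := hn1 n ((le_max_right _ _).trans ((le_max_left _ _).trans hn))
  have hs1 := hsm.trans ((min_le_left _ _).trans (min_le_left _ _))
  have hs2 := hsm.trans ((min_le_left _ _).trans (min_le_right _ _))
  have hs3 := hsm.trans (min_le_right _ _)
  clear hsm
  set L : ℝ := 1 + Real.log n with hL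
  have hL1 : 1 ≤ L := by
    have : 0 ≤ Real.log (n : ℝ) := Real.log_natCast_nonneg n
    linarith
  set ε : ℝ := L / n with hε
  have hε0 : 0 < ε := by positivity
  have hεL : L ^ 2 / n = ε * L := by rw [hε]; ring
  rw [hεL] at hs1 hs2 hs3
  have hεs : ε ≤ ε * L := le_mul_of_one_le_right hε0.le hL1
  set u : ℝ := z.re with hu
  set v : ℝ := z.im with hv
  have hdeg : P.natDegree ≤ n := natDegree_le_of_degree_le hE.deg
  have hdvd : quad u v ∣ P.derivative := quad_dvd hz hzv.ne'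
  have hq : ∀ x ∈ Icc a b, c / n ≤ g2_q u v x := by
    intro x hx
    have h := hG1 n a b P hn0 hm hdeg hE.bdd hND z hz hzv.ne' x hx
    rw [g2_norm] at h
    exact (div_le_div_of_nonneg_right hcc1 hnn.le).trans h
  obtain ⟨h1, h2, h3⟩ := hm
  have hab : a ≤ b := by linarith
  have hab2 : b - a ≤ 2 := by linarith
  have hw : ∀ α β γ : ℝ, 0 ≤ α → 0 ≤ β → 0 ≤ γ →
      (∫ x in a..b, g2_w u v α β γ x / √(1 + P.derivative.eval x ^ 2)) ≤
        M * ε * ∫ x in a..b, g2_w u v α β γ x := by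
    intro α β γ hα hβ hγ
    have h := hG2a n hna a b A P (g2_w u v α β γ) ⟨h1, h2, h3⟩ hdeg hE.bdd hND
      (g2_w_cont hzv u α β γ).continuousOn (fun x _ => g2_w_nonneg hzv u hα hβ hγ x) hA1
      (fun x hx y _ hxy => g2_w_slow hzv u hα hβ hγ hc0 hn0 (hq x hx) hxy)
    refine h.trans (le_of_eq ?_)
    rw [hM, hε]
    ring
  have hqb := g2_q_pos hzv u b
  have hqa := g2_q_pos hzv u a
  have hMε : 90 * (M * ε) < δ ^ 2 := by
    have h4 : ε ≤ δ ^ 2 / (100 * M) := hεs.trans hs2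
    rw [le_div_iff₀ (by positivity)] at h4
    have h5 := mul_pos hM0 hε0
    linarith
  -- comparison at an end is impossible
  have hcon : ∀ E : ℝ, 0 < E →
      δ ^ 2 / E ≤ (∫ x in a..b, g2_w u v 5 4 0 x / √(1 + P.derivative.eval x ^ 2)) →
      (∀ x ∈ Icc a b, E ≤ 5 * g2_q u v x ^ 2) →
      (∫ x in a..b, 1 / g2_q u v x ^ 3) ≤ 10 / E → False := by
    intro E hE0 hE1 hE2 hE3
    have h4 := g2_int_w hzv u hab hab2 hE0 hE2 hE3
    have h5 := hE1.trans (hw 5 4 0 (by norm_num) (by norm_num) le_rfl)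
    have h6 : δ ^ 2 / E ≤ M * ε * (90 / E) :=
      h5.trans (mul_le_mul_of_nonneg_left h4 (by positivity))
    have h7 : M * ε * (90 / E) = (90 * (M * ε)) / E := by ring
    rw [h7, div_le_div_iff_of_pos_right hE0] at h6
    linarith
  have hbu : v ≤ b - u := by
    by_contra hlt
    push Not at hlt
    refine hcon (g2_q u v b ^ 2) (by positivity)
      (g2_right hG0 hn0 hδ hδ1 ⟨h1, h2, h3⟩ hE hzv hdvd) ?_ ?_
    · intro x hx
      rw [g2_q_sq, g2_q_sq]
      have t0 := sq_nonneg v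
      rcases le_total b u with h | h
      · have t1 : (u - b) ^ 2 ≤ (u - x) ^ 2 :=
          pow_le_pow_left₀ (by linarith) (by linarith [hx.2]) 2
        have t2 : (b - u) ^ 2 = (u - b) ^ 2 := by ring
        have t3 : (x - u) ^ 2 = (u - x) ^ 2 := by ring
        have t4 := sq_nonneg (u - x)
        linarith
      · have t1 : (b - u) ^ 2 ≤ v ^ 2 := pow_le_pow_left₀ (by linarith) hlt.le 2
        have t4 := sq_nonneg (x - u)
        linarith
    · rcases le_total b u with h | h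
      · refine (g2_cube_right hzv a h).trans ?_
        exact div_le_div_of_nonneg_right (by norm_num) (by positivity)
      · refine (g2_cube_le hzv u a b).trans ?_
        rw [div_le_div_iff₀ (by positivity) (by positivity), g2_q_sq]
        have t1 : (b - u) ^ 2 ≤ v ^ 2 := pow_le_pow_left₀ (by linarith) hlt.le 2
        have t0 := sq_nonneg v
        linarith
  have hau : v ≤ u - a := by
    by_contra hlt
    push Not at hlt
    refine hcon (g2_q u v a ^ 2) (by positivity)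
      (g2_left hG0 hn0 hδ hδ1 ⟨h1, h2, h3⟩ hE hzv hdvd) ?_ ?_
    · intro x hx
      rw [g2_q_sq, g2_q_sq]
      have t0 := sq_nonneg v
      rcases le_total u a with h | h
      · have t1 : (a - u) ^ 2 ≤ (x - u) ^ 2 :=
          pow_le_pow_left₀ (by linarith) (by linarith [hx.1]) 2
        have t4 := sq_nonneg (x - u)
        linarith
      · have t1 : (u - a) ^ 2 ≤ v ^ 2 := pow_le_pow_left₀ (by linarith) hlt.le 2
        have t2 : (a - u) ^ 2 = (u - a) ^ 2 := by ring
        have t4 := sq_nonneg (x - u)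
        linarith
    · rcases le_total u a with h | h
      · refine (g2_cube_left hzv b h).trans ?_
        exact div_le_div_of_nonneg_right (by norm_num) (by positivity)
      · refine (g2_cube_le hzv u a b).trans ?_
        rw [div_le_div_iff₀ (by positivity) (by positivity), g2_q_sq]
        have t1 : (u - a) ^ 2 ≤ v ^ 2 := pow_le_pow_left₀ (by linarith) hlt.le 2
        have t2 : (a - u) ^ 2 = (u - a) ^ 2 := by ring
        have t0 := sq_nonneg v
        linarith
  have hv1 : v ≤ 1 := by linarith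
  have hau' : a ≤ u := by linarith
  have hub' : u ≤ b := by linarith
  have hvc : c / n ≤ v := by
    have h := hq u ⟨hau', hub'⟩
    rwa [g2_q, sub_self, zero_pow (by norm_num), zero_add, sqrt_sq hzv.le] at h
  have hlv : -Real.log v ≤ Real.log n + Real.log (1 / c) := by
    have h4 : Real.log (c / n) ≤ Real.log v := Real.log_le_log (by positivity) hvc
    rw [Real.log_div hc0.ne' hnn.ne'] at h4
    rw [one_div, Real.log_inv]
    linarith
  -- the linear inequality
  set Sb : ℝ := (b - u) / g2_q u v b ^ 2 * √(1 + P.derivative.eval b ^ 2) with hSb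
  set Sa : ℝ := (u - a) / g2_q u v a ^ 2 * √(1 + P.derivative.eval a ^ 2) with hSa
  have hSb0 : 0 ≤ Sb := mul_nonneg (div_nonneg (by linarith) (by positivity)) (sqrt_nonneg _)
  have hSa0 : 0 ≤ Sa := mul_nonneg (div_nonneg (by linarith) (by positivity)) (sqrt_nonneg _)
  have hlin : δ * (Sb + Sa) ≤ M * ε * (2 / v + C3 * L) := by
    have h4 := (g2_lin hG0 hn0 hδ hδ1 ⟨h1, h2, h3⟩ hE hzv hdvd hau' hub').trans
      (hw 0 v 2 le_rfl hzv.le (by norm_num))
    refine h4.trans (mul_le_mul_of_nonneg_left ?_ (by positivity))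
    refine (g2_int_w2 hzv hv1 hau' hub' hab2).trans ?_
    have h5 : C3 * L = 4 * L + 4 * Real.log 5 * L + 4 * Real.log (1 / c) * L := by rw [hC3]; ring
    have h6 : 4 * Real.log 5 ≤ 4 * Real.log 5 * L := le_mul_of_one_le_right (by positivity) hL1
    have h7 : 4 * Real.log (1 / c) ≤ 4 * Real.log (1 / c) * L :=
      le_mul_of_one_le_right (by positivity) hL1
    rw [h5]
    linarith
  have hD5 : ∀ e : ℝ, |e - u| ≤ 2 → g2_q u v e ^ 2 ≤ 5 := by
    intro e he
    rw [g2_q_sq]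
    have t1 : |e - u| ^ 2 ≤ 2 ^ 2 := pow_le_pow_left₀ (abs_nonneg _) he 2
    have t2 : v ^ 2 ≤ 1 ^ 2 := pow_le_pow_left₀ hzv.le hv1 2
    rw [sq_abs] at t1
    linarith
  have hSlow : δ / 10 ≤ Sb + Sa := by
    rcases le_total (δ / 2) (b - u) with h | h
    · have h4 : δ / 10 ≤ Sb := by
        have h5 := hD5 b (abs_le.2 ⟨by linarith, by linarith⟩)
        have h6 : δ / 10 ≤ (b - u) / g2_q u v b ^ 2 := by
          rw [le_div_iff₀ (by positivity)]
          have t1 := mul_le_mul_of_nonneg_left h5 (by positivity : 0 ≤ δ / 10)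
          linarith
        calc δ / 10 ≤ (b - u) / g2_q u v b ^ 2 * 1 := by linarith
          _ ≤ Sb := mul_le_mul_of_nonneg_left (g2_Phi_one P b)
            (div_nonneg (by linarith) (by positivity))
      linarith
    · have h4 : δ / 10 ≤ Sa := by
        have h5 := hD5 a (abs_le.2 ⟨by linarith, by linarith⟩)
        have h6 : δ / 10 ≤ (u - a) / g2_q u v a ^ 2 := by
          rw [le_div_iff₀ (by positivity)]
          have t1 := mul_le_mul_of_nonneg_left h5 (by positivity : 0 ≤ δ / 10)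
          linarith
        calc δ / 10 ≤ (u - a) / g2_q u v a ^ 2 * 1 := by linarith
          _ ≤ Sa := mul_le_mul_of_nonneg_left (g2_Phi_one P a)
            (div_nonneg (by linarith) (by positivity))
      linarith
  have hMC : M * ε * (C3 * L) ≤ δ ^ 2 / 20 := by
    rw [le_div_iff₀ (by positivity)] at hs3
    have t1 : M * ε * (C3 * L) = ε * L * (20 * (M * C3)) / 20 := by ring
    linarith
  have hvK : v ≤ K * L / n := by
    have h4 : δ * (δ / 10) ≤ δ * (Sb + Sa) := mul_le_mul_of_nonneg_left hSlow hδ.le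
    have h5 : δ ^ 2 / 20 ≤ M * ε * (2 / v) := by
      have t1 : M * ε * (2 / v + C3 * L) = M * ε * (2 / v) + M * ε * (C3 * L) := by ring
      have t2 : δ * (δ / 10) = δ ^ 2 / 10 := by ring
      linarith
    have h6 : δ ^ 2 / 20 * v ≤ 2 * (M * ε) := by
      calc δ ^ 2 / 20 * v ≤ M * ε * (2 / v) * v := mul_le_mul_of_nonneg_right h5 hzv.le
        _ = 2 * (M * ε) := by field_simp
    have h7 : v ≤ 40 * M / δ ^ 2 * ε := by
      rw [div_mul_eq_mul_div, le_div_iff₀ (by positivity)]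
      linarith
    have h8 : 40 * M / δ ^ 2 * ε ≤ K * ε := by
      refine mul_le_mul_of_nonneg_right ?_ hε0.le
      rw [hK]
      linarith
    calc v ≤ K * ε := h7.trans h8
      _ = K * L / n := by rw [hε]; ring
  have hS : Sb + Sa ≤ C2 * L := by
    have h4 : ε * (2 / v) ≤ L * (2 / c) := by
      have h5 : 2 / v ≤ 2 / (c / n) := div_le_div_of_nonneg_left (by norm_num) (by positivity) hvc
      calc ε * (2 / v) ≤ ε * (2 / (c / n)) := mul_le_mul_of_nonneg_left h5 hε0.le
        _ = L * (2 / c) := by rw [hε]; field_simp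
    have h5 : ε * (C3 * L) ≤ C3 * L := by
      have h6 : ε ≤ 1 := hεs.trans hs1
      exact mul_le_of_le_one_left (by positivity) h6
    have h6 : δ * (Sb + Sa) ≤ M * ((2 / c + C3) * L) := by
      calc δ * (Sb + Sa) ≤ M * (ε * (2 / v) + ε * (C3 * L)) := by
            refine hlin.trans (le_of_eq ?_)
            ring
        _ ≤ M * (L * (2 / c) + C3 * L) := mul_le_mul_of_nonneg_left (add_le_add h4 h5) hM0.le
        _ = M * ((2 / c + C3) * L) := by ring
    rw [hC2, div_mul_eq_mul_div, le_div_iff₀ hδ]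
    linarith
  have h2CK : 2 * C2 ≤ K := by
    have : 0 < 40 * M / δ ^ 2 := by positivity
    rw [hK]
    linarith
  have h4CK : 4 * C2 ≤ K := by
    have : 0 < 40 * M / δ ^ 2 := by positivity
    rw [hK]
    linarith
  have hend : ∀ d q Φ p : ℝ, v ≤ d → d ≤ 2 → 0 < q → q ^ 2 = d ^ 2 + v ^ 2 → 1 ≤ Φ → |p| ≤ Φ →
      d / q ^ 2 * Φ ≤ C2 * L → 1 / (K * L) ≤ d ∧ |p| ≤ K * L := by
    intro d q Φ p hd1 hd2 hq0 hqd hΦ hp hS'
    have hd0 : 0 < d := hzv.trans_le hd1
    have h5 : q ^ 2 ≤ 2 * d ^ 2 := by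
      have t1 : v ^ 2 ≤ d ^ 2 := pow_le_pow_left₀ hzv.le hd1 2
      linarith
    have h6 : Φ ≤ 2 * (C2 * L) * d := by
      have h7 : Φ = d / q ^ 2 * Φ * (q ^ 2 / d) := by field_simp
      have h8 : q ^ 2 / d ≤ 2 * d := by
        rw [div_le_iff₀ hd0]
        have t1 : 2 * d * d = 2 * d ^ 2 := by ring
        linarith
      calc Φ = d / q ^ 2 * Φ * (q ^ 2 / d) := h7
        _ ≤ C2 * L * (q ^ 2 / d) := mul_le_mul_of_nonneg_right hS' (by positivity)
        _ ≤ C2 * L * (2 * d) := mul_le_mul_of_nonneg_left h8 (by positivity)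
        _ = 2 * (C2 * L) * d := by ring
    have hCL : 0 < C2 * L := by positivity
    constructor
    · rw [div_le_iff₀ (by positivity)]
      have h7 : 2 * (C2 * L) * d ≤ d * (K * L) := by
        have : 2 * C2 * (L * d) ≤ K * (L * d) := mul_le_mul_of_nonneg_right h2CK (by positivity)
        linarith
      linarith
    · have h7 : 2 * (C2 * L) * d ≤ 4 * C2 * L := by
        have t1 := mul_le_mul_of_nonneg_left hd2 (by positivity : 0 ≤ 2 * (C2 * L))
        linarith
      have h8 : 4 * C2 * L ≤ K * L := mul_le_mul_of_nonneg_right h4CK (by linarith)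
      linarith
  have hB := hend (b - u) (g2_q u v b) _ (P.derivative.eval b) hbu (by linarith) hqb
    (g2_q_sq u v b) (g2_Phi_one P b) (g2_Phi_abs P b) (by linarith)
  have hA' := hend (u - a) (g2_q u v a) _ (P.derivative.eval a) hau (by linarith) hqa
    (by rw [g2_q_sq]; ring) (g2_Phi_one P a) (g2_Phi_abs P a) (by linarith)
  exact ⟨hvK, by linarith [hA'.1], by linarith [hB.1], hA'.2, hB.2⟩

end

end Pool.Agent.Helper10.AL
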