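import Pool.Agent.Helper10.AL.St2

/-!
Piece G2a: weighted integrals of the reciprocal of the arc length density.
-/

set_option autoImplicit false

namespace Pool.Agent.Helper10.AL

open Polynomial Set Real MeasureTheory intervalIntegral
open Pool.Agent.Helper40.AS (arc Bdd Ext quad)

noncomputable section

/-- substitution by the cosine -/
theorem g2a_subst (a b : ℝ) (h : ℝ → ℝ) (ha : -1 ≤ a) (hab : a ≤ b) (hb : b ≤ 1)
    (hc : ContinuousOn h (Icc a b)) :
    (∫ x in a..b, h x) = ∫ θ in (arccos b)..(arccos a), h (cos θ) * sin θ := by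
  have hle : arccos b ≤ arccos a := arccos_le_arccos hab
  have hca : cos (arccos a) = a := Real.cos_arccos ha (hab.trans hb)
  have hcb : cos (arccos b) = b := Real.cos_arccos (ha.trans hab) hb
  have himg : cos '' uIcc (arccos b) (arccos a) ⊆ Icc a b := by
    rintro _ ⟨θ, hθ, rfl⟩
    rw [uIcc_of_le hle] at hθ
    constructor
    · rw [← hca]
      exact Real.cos_le_cos_of_nonneg_of_le_pi ((arccos_nonneg _).trans hθ.1) (arccos_le_pi _) hθ.2
    · conv_rhs => rw [← hcb]
      exact Real.cos_le_cos_of_nonneg_of_le_pi (arccos_nonneg _) (hθ.2.trans (arccos_le_pi _)) hθ.1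
  have e := intervalIntegral.integral_comp_mul_deriv' (a := arccos b) (b := arccos a)
    (f := cos) (f' := fun θ => -sin θ) (g := h) (fun x _ => Real.hasDerivAt_cos x)
    (Real.continuous_sin.neg.continuousOn) (hc.mono himg)
  rw [hca, hcb] at e
  rw [intervalIntegral.integral_symm, ← e, ← intervalIntegral.integral_neg]
  congr 1
  ext θ
  simp

theorem g2a (hA1 : A1) (hA2 : A2) (hM1 : M1) (hM3 : M3) : G2a := by
  obtain ⟨K1, hK1, hM⟩ := hM1
  intro δ hδ hδ4
  have hsδ : 0 < √δ := Real.sqrt_pos.2 hδ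
  refine ⟨2 * K1 / √δ, by positivity, max 2 ⌈1 / δ⌉₊, ?_⟩
  intro n hn a b A P w hmid hdeg hbdd hND hwc hw0 hA hsl
  obtain ⟨h1, h2, h3⟩ := hmid
  have hn2 : 2 ≤ n := le_trans (le_max_left _ _) hn
  have hnR : (0 : ℝ) < n := by
    have : 0 < n := by omega
    exact_mod_cast this
  have hnδ : 1 / δ ≤ n := by
    have := le_trans (le_max_right _ _) hn
    exact (Nat.ceil_le.1 this)
  have hnδ2 : 1 / (n : ℝ) ≤ δ := by
    rw [div_le_iff₀ hnR]
    rw [div_le_iff₀ hδ] at hnδ
    linarith
  have ha1 : -1 ≤ a := by linarith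
  have hb1 : b ≤ 1 := by linarith
  have hab : a ≤ b := by linarith
  have hle : arccos b ≤ arccos a := arccos_le_arccos hab
  have hca : cos (arccos a) = a := Real.cos_arccos ha1 (hab.trans hb1)
  have hcb : cos (arccos b) = b := Real.cos_arccos (ha1.trans hab) hb1
  have hTB : TB n (qq P) := hA2.2.1 n P hdeg hbdd
  have hlog : 0 ≤ Real.log n := Real.log_nonneg (by exact_mod_cast (by omega : 1 ≤ n))
  -- the cosine maps the window in the window
  have hmem : ∀ θ ∈ Icc (arccos b) (arccos a), cos θ ∈ Icc a b := by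
    intro θ hθ
    constructor
    · rw [← hca]
      exact Real.cos_le_cos_of_nonneg_of_le_pi ((arccos_nonneg _).trans hθ.1) (arccos_le_pi _) hθ.2
    · conv_rhs => rw [← hcb]
      exact Real.cos_le_cos_of_nonneg_of_le_pi (arccos_nonneg _) (hθ.2.trans (arccos_le_pi _)) hθ.1
  have hsin0 : ∀ θ ∈ Icc (arccos b) (arccos a), 0 ≤ sin θ := fun θ hθ =>
    Real.sin_nonneg_of_nonneg_of_le_pi ((arccos_nonneg _).trans hθ.1) (hθ.2.trans (arccos_le_pi _))
  have hsin : ∀ θ ∈ Icc (arccos b) (arccos a), √δ ≤ sin θ := by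
    intro θ hθ
    obtain ⟨c1, c2⟩ := hmem θ hθ
    apply Real.sqrt_le_iff.2 ⟨hsin0 θ hθ, ?_⟩
    have := Real.sin_sq_add_cos_sq θ
    nlinarith
  -- the function g
  set g : ℝ → ℝ := fun θ => 1 / √(1 + (deriv (qq P) θ) ^ 2) with hg
  have hderc : Continuous (deriv (qq P)) := by
    have := (hA1.1 n (qq P) hTB.1).2.1
    exact ((hA1.1 n _ this).1 0).continuous
  have hgc : Continuous g := by
    rw [hg]
    refine Continuous.div continuous_const ?_ ?_
    · exact Real.continuous_sqrt.comp (continuous_const.add (hderc.pow 2))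
    · intro θ
      exact (Real.sqrt_pos.2 (by positivity)).ne'
  have hg0 : ∀ θ, 0 ≤ g θ := fun θ => by rw [hg]; positivity
  have hw'c : ContinuousOn (fun θ => w (cos θ)) (Icc (arccos b) (arccos a)) :=
    hwc.comp Real.continuous_cos.continuousOn hmem
  -- cells
  have hcell : ∀ x y, arccos b ≤ x → x ≤ y → y ≤ arccos a → y - x ≤ 1 / n →
      (∫ θ in x..y, g θ) ≤ K1 * (1 + Real.log n) / (n : ℝ) ^ 2 := by
    intro x y hx hxy hy hd
    exact (hM n (qq P) x y hn2 hTB hxy hd
      (fun θ hθ => hND θ ⟨hx.trans hθ.1, hθ.2.trans hy⟩)).2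
  have hlen : arccos b + 1 / n ≤ arccos a := by
    have := abs_cos_sub_cos_le (arccos b) (arccos a)
    rw [hca, hcb, abs_of_nonneg (by linarith : 0 ≤ b - a),
      abs_of_nonpos (by linarith : arccos b - arccos a ≤ 0)] at this
    linarith
  have key := hM3 n g (fun θ => w (cos θ)) (arccos b) (arccos a) A
    (K1 * (1 + Real.log n) / (n : ℝ) ^ 2) (by omega) hgc hw'c hg0
    (fun θ hθ => hw0 _ (hmem θ hθ)) hlen (by positivity) hA hcell
    (fun x hx y hy hxy => hsl _ (hmem x hx) _ (hmem y hy)
      (le_trans (abs_cos_sub_cos_le x y) hxy))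
  -- substitution on the left
  have hPc : ContinuousOn (fun x => w x / √(1 + P.derivative.eval x ^ 2)) (Icc a b) := by
    apply hwc.div
    · exact (Real.continuous_sqrt.comp (continuous_const.add
        ((Polynomial.continuous _).pow 2))).continuousOn
    · intro x _
      exact (Real.sqrt_pos.2 (by positivity)).ne'
  have hL : (∫ x in a..b, w x / √(1 + P.derivative.eval x ^ 2)) ≤
      ∫ θ in (arccos b)..(arccos a), w (cos θ) * g θ := by
    rw [g2a_subst a b _ ha1 hab hb1 hPc]
    apply intervalIntegral.integral_mono_on hle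
    · apply ContinuousOn.intervalIntegrable
      rw [uIcc_of_le hle]
      exact (hPc.comp Real.continuous_cos.continuousOn hmem).mul Real.continuous_sin.continuousOn
    · apply ContinuousOn.intervalIntegrable
      rw [uIcc_of_le hle]
      exact hw'c.mul hgc.continuousOn
    · intro θ hθ
      have w0 := hw0 _ (hmem θ hθ)
      have s0 := hsin0 θ hθ
      have s1 : sin θ ≤ 1 := Real.sin_le_one θ
      have e1 : √(1 + (deriv (qq P) θ) ^ 2) ≤ √(1 + P.derivative.eval (cos θ) ^ 2) := by
        apply Real.sqrt_le_sqrt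
        rw [(hA2.2.2 P θ).1, neg_sq, mul_pow]
        have : sin θ ^ 2 ≤ 1 := by nlinarith
        nlinarith [sq_nonneg (P.derivative.eval (cos θ))]
      have p1 : 0 < √(1 + (deriv (qq P) θ) ^ 2) := Real.sqrt_pos.2 (by positivity)
      have p2 : 0 < √(1 + P.derivative.eval (cos θ) ^ 2) := Real.sqrt_pos.2 (by positivity)
      have e2 : 1 / √(1 + P.derivative.eval (cos θ) ^ 2) ≤ g θ :=
        one_div_le_one_div_of_le p1 e1
      calc w (cos θ) / √(1 + P.derivative.eval (cos θ) ^ 2) * sin θ
          ≤ w (cos θ) / √(1 + P.derivative.eval (cos θ) ^ 2) * 1 :=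
            mul_le_mul_of_nonneg_left s1 (by positivity)
        _ = w (cos θ) * (1 / √(1 + P.derivative.eval (cos θ) ^ 2)) := by ring
        _ ≤ w (cos θ) * g θ := mul_le_mul_of_nonneg_left e2 w0
  -- substitution on the right
  have hR : √δ * (∫ θ in (arccos b)..(arccos a), w (cos θ)) ≤ ∫ x in a..b, w x := by
    rw [g2a_subst a b _ ha1 hab hb1 hwc, ← intervalIntegral.integral_const_mul]
    apply intervalIntegral.integral_mono_on hle
    · apply ContinuousOn.intervalIntegrable
      rw [uIcc_of_le hle]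
      exact continuousOn_const.mul hw'c
    · apply ContinuousOn.intervalIntegrable
      rw [uIcc_of_le hle]
      exact hw'c.mul Real.continuous_sin.continuousOn
    · intro θ hθ
      rw [mul_comm]
      exact mul_le_mul_of_nonneg_left (hsin θ hθ) (hw0 _ (hmem θ hθ))
  have hR2 : (∫ θ in (arccos b)..(arccos a), w (cos θ)) ≤ (∫ x in a..b, w x) / √δ := by
    rw [le_div_iff₀ hsδ, mul_comm]
    exact hR
  refine le_trans hL (le_trans key ?_)
  calc 2 * n * A * (K1 * (1 + Real.log n) / (n : ℝ) ^ 2) *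
        (∫ θ in (arccos b)..(arccos a), w (cos θ))
      ≤ 2 * n * A * (K1 * (1 + Real.log n) / (n : ℝ) ^ 2) * ((∫ x in a..b, w x) / √δ) :=
        mul_le_mul_of_nonneg_left hR2 (by positivity)
    _ = 2 * K1 / √δ * A * (1 + Real.log n) / n * ∫ x in a..b, w x := by
        field_simp

end

end Pool.Agent.Helper10.AL
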