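import Pool.Agent.Helper10.AL.St2

/-!
Arc length of polynomials over compact windows, large degree: piece G3 (real critical points
outside the interval and the degree).
-/

set_option autoImplicit false

namespace Pool.Agent.Helper10.AL

open Polynomial Set Real MeasureTheory intervalIntegral
open Pool.Agent.Helper40.AS (arc Bdd Ext quad)

theorem g3_tend (K : ℝ) :
    Filter.Tendsto (fun n : ℕ => K * (1 + Real.log n) / n) Filter.atTop (nhds 0) := by
  have h1 : Filter.Tendsto (fun n : ℕ => Real.log n / n) Filter.atTop (nhds 0) := by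
    have h := Real.isLittleO_log_id_atTop.tendsto_div_nhds_zero
    exact h.comp tendsto_natCast_atTop_atTop
  have h2 : Filter.Tendsto (fun n : ℕ => (1 : ℝ) / n) Filter.atTop (nhds 0) :=
    tendsto_one_div_atTop_nhds_zero_nat
  have h3 := (h1.add h2).const_mul K
  rw [add_zero, mul_zero] at h3
  refine h3.congr fun n => ?_
  ring

theorem g3_key (hG0 : G0) (hG2a : G2a) (δ : ℝ) (hδ : 0 < δ) (hδ4 : δ ≤ 1 / 4) :
    ∃ n0 : ℕ, 1 ≤ n0 ∧ ∀ n ≥ n0, ∀ (a b : ℝ) (P D : ℝ[X]), Mid δ a b → Ext n a b P →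
      ND n (qq P) (arccos b) (arccos a) → D ∣ P.derivative →
      (∀ x ∈ Ioo (-1 : ℝ) 1, D.eval x ≠ 0) →
      (∀ x ∈ Icc a b, |D.derivative.eval x| ≤ 2 / δ * |D.eval x| ∧
        |D.eval b| ≤ (1 + 2 / δ) ^ 2 * |D.eval x|) →
      P.natDegree + 2 ≤ D.natDegree + n → False := by
  obtain ⟨K, hK, n1, hn1⟩ := hG2a δ hδ hδ4
  set C0 : ℝ := (5 + 4 / δ) * (1 + 2 / δ) ^ 2 with hC0
  have hC0p : 0 < C0 := by positivity
  obtain ⟨n2, hn2⟩ := Filter.eventually_atTop.1
    ((g3_tend (K * C0)).eventually (gt_mem_nhds (show (0 : ℝ) < δ ^ 2 by positivity)))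
  refine ⟨max 1 (max n1 n2), le_max_left _ _, ?_⟩
  intro n hn a b P D hM hE hND hDd hD0 hDb hdeg
  have hn1' : 1 ≤ n := le_trans (le_max_left _ _) hn
  have hnn1 : n1 ≤ n := le_trans (le_trans (le_max_left _ _) (le_max_right _ _)) hn
  have hnn2 : n2 ≤ n := le_trans (le_trans (le_max_right _ _) (le_max_right _ _)) hn
  have hsmall := hn2 n hnn2
  obtain ⟨hMa, hMab, hMb⟩ := hM
  have hab : a < b := by linarith
  have hxin : ∀ x ∈ Icc a b, x ∈ Ioo (-1 : ℝ) 1 := fun x hx =>
    ⟨by linarith [hx.1], by linarith [hx.2]⟩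
  have hDx : ∀ x ∈ Icc a b, D.eval x ≠ 0 := fun x hx => hD0 x (hxin x hx)
  obtain ⟨R, hR⟩ := hDd
  have hPn : P.natDegree ≤ n := natDegree_le_of_degree_le hE.deg
  have hid := hG0 n a b P D R (X - C a) hn1' (by linarith) hab (by linarith) hE hR (by
    intro x hx hx1
    have h1 := Pool.Agent.Helper40.AS.contact_int hE.bdd hx hx1
    rw [hR, eval_mul] at h1
    exact (mul_eq_zero.1 h1).resolve_left (hD0 x hx)) (by
    rw [natDegree_X_sub_C]
    omega) hDx
  have hbD : (0 : ℝ) < |D.eval b| := abs_pos.2 (hDx b ⟨hab.le, le_rfl⟩)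
  set w : ℝ := C0 / |D.eval b| with hw
  have hwp : 0 < w := by positivity
  -- the bound for the derivative
  set g : ℝ → ℝ := fun x => (((((1 - X ^ 2) * (X - C a)).derivative.eval x * D.eval x -
    ((1 - x ^ 2) * (X - C a).eval x) * D.derivative.eval x) / D.eval x ^ 2) /
      √(1 + P.derivative.eval x ^ 2)) with hg
  have hgb : ∀ x ∈ Icc a b, |g x| ≤ w / √(1 + P.derivative.eval x ^ 2) := by
    intro x hx
    have hs : 0 < √(1 + P.derivative.eval x ^ 2) := Real.sqrt_pos.2 (by positivity)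
    rw [hg]
    simp only
    rw [abs_div, abs_of_pos hs]
    refine div_le_div_of_nonneg_right ?_ hs.le
    have hDp : 0 < |D.eval x| := abs_pos.2 (hDx x hx)
    obtain ⟨h1, h2⟩ := hDb x hx
    have hx1 := hx.1
    have hx2 := hx.2
    have hxx := hxin x hx
    have h3 : |((1 - X ^ 2) * (X - C a)).derivative.eval x| ≤ 5 := by
      simp only [derivative_mul, derivative_sub, derivative_one, derivative_X_pow, derivative_X,
        derivative_C, eval_add, eval_mul, eval_sub, eval_one, eval_pow, eval_X, eval_C,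
        eval_zero, eval_natCast]
      rw [abs_le]
      push_cast
      constructor <;> nlinarith [hxx.1, hxx.2]
    have h4 : |(1 - x ^ 2) * (X - C a).eval x| ≤ 2 := by
      simp only [eval_sub, eval_X, eval_C]
      have h5 : 0 ≤ 1 - x ^ 2 := by nlinarith [hxx.1, hxx.2]
      rw [abs_of_nonneg (mul_nonneg h5 (by linarith))]
      nlinarith [hxx.1, hxx.2]
    rw [abs_div, abs_pow, hw, div_le_div_iff₀ (by positivity) hbD]
    have h6 : |((1 - X ^ 2) * (X - C a)).derivative.eval x * D.eval x -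
        ((1 - x ^ 2) * (X - C a).eval x) * D.derivative.eval x| ≤
        (5 + 4 / δ) * |D.eval x| := by
      refine (abs_sub _ _).trans ?_
      rw [abs_mul, abs_mul ((1 - x ^ 2) * (X - C a : ℝ[X]).eval x) (D.derivative.eval x)]
      have h7 := mul_le_mul h3 le_rfl (abs_nonneg (D.eval x)) (by norm_num)
      have h8 := mul_le_mul h4 h1 (abs_nonneg _) (by norm_num)
      have h9 : 2 * (2 / δ * |D.eval x|) = 4 / δ * |D.eval x| := by ring
      linarith
    calc |((1 - X ^ 2) * (X - C a)).derivative.eval x * D.eval x -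
          ((1 - x ^ 2) * (X - C a).eval x) * D.derivative.eval x| * |D.eval b|
        ≤ ((5 + 4 / δ) * |D.eval x|) * ((1 + 2 / δ) ^ 2 * |D.eval x|) :=
          mul_le_mul h6 h2 (abs_nonneg _) (by positivity)
      _ = C0 * |D.eval x| ^ 2 := by rw [hC0]; ring
  have hcs : Continuous fun x => √(1 + P.derivative.eval x ^ 2) := by fun_prop
  have hspos : ∀ x, √(1 + P.derivative.eval x ^ 2) ≠ 0 := fun x =>
    (Real.sqrt_pos.2 (by positivity)).ne'
  have hgc : ContinuousOn g (Icc a b) := by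
    rw [hg]
    refine ContinuousOn.div (ContinuousOn.div ?_ ?_ ?_) hcs.continuousOn fun x _ => hspos x
    · fun_prop
    · fun_prop
    · intro x hx
      exact pow_ne_zero _ (hDx x hx)
  have h1 : |∫ x in a..b, g x| ≤ ∫ x in a..b, w / √(1 + P.derivative.eval x ^ 2) := by
    refine (abs_integral_le_integral_abs hab.le).trans ?_
    refine integral_mono_on hab.le ?_ ?_ hgb
    · exact (ContinuousOn.intervalIntegrable (by rw [uIcc_of_le hab.le]; exact hgc.abs))
    · exact (Continuous.div continuous_const hcs hspos).intervalIntegrable _ _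
  have h2 := hn1 n hnn1 a b 1 P (fun _ => w) ⟨hMa, hMab, hMb⟩ hPn hE.bdd hND continuousOn_const
    (fun x _ => hwp.le) le_rfl (fun x _ y _ _ => by rw [one_mul])
  rw [intervalIntegral.integral_const, smul_eq_mul, mul_one] at h2
  have h3 : |((1 - b ^ 2) * (X - C a).eval b / D.eval b) * √(1 + P.derivative.eval b ^ 2)| ≤
      K * (1 + Real.log n) / n * ((b - a) * w) := by
    have h4 : ((1 - b ^ 2) * (X - C a).eval b / D.eval b) * √(1 + P.derivative.eval b ^ 2) =
        ∫ x in a..b, g x := by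
      rw [← hid]
      simp
    rw [h4]
    exact h1.trans h2
  have hsb : 1 ≤ √(1 + P.derivative.eval b ^ 2) := by
    rw [Real.one_le_sqrt]
    nlinarith [sq_nonneg (P.derivative.eval b)]
  have hb2 : δ ^ 2 ≤ 1 - b ^ 2 := by
    have e1 : δ ≤ 1 - b := by linarith
    have e2 : δ ≤ 1 + b := by linarith
    calc δ ^ 2 = δ * δ := by ring
      _ ≤ (1 - b) * (1 + b) := mul_le_mul e1 e2 hδ.le (by linarith)
      _ = 1 - b ^ 2 := by ring
  have hb3 : 0 ≤ 1 - b ^ 2 := le_trans (by positivity) hb2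
  have h5 : (1 - b ^ 2) * (b - a) / |D.eval b| ≤
      |((1 - b ^ 2) * (X - C a).eval b / D.eval b) * √(1 + P.derivative.eval b ^ 2)| := by
    simp only [eval_sub, eval_X, eval_C]
    rw [abs_mul, abs_div, abs_of_nonneg (show (0 : ℝ) ≤ √(1 + P.derivative.eval b ^ 2) by
      positivity), abs_of_nonneg (show (0 : ℝ) ≤ (1 - b ^ 2) * (b - a) from
      mul_nonneg hb3 (by linarith))]
    exact le_mul_of_one_le_right (div_nonneg (mul_nonneg hb3 (by linarith))
      hbD.le) hsb
  have h6 := h5.trans h3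
  rw [hw] at h6
  have h7 : (1 - b ^ 2) * ((b - a) / |D.eval b|) ≤
      (K * C0 * (1 + Real.log n) / n) * ((b - a) / |D.eval b|) := by
    calc (1 - b ^ 2) * ((b - a) / |D.eval b|) = (1 - b ^ 2) * (b - a) / |D.eval b| := by ring
      _ ≤ _ := h6
      _ = _ := by ring
  have h8 := le_of_mul_le_mul_right h7 (div_pos (by linarith) hbD)
  linarith

theorem g3_lin {δ a b x y : ℝ} (hδ : 0 < δ) (ha : -1 + δ ≤ a) (hb : b ≤ 1 - δ)
    (hx : x ∈ Icc a b) (hy : 1 ≤ |y|) :
    δ ≤ |x - y| ∧ |b - y| ≤ (1 + 2 / δ) * |x - y| := by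
  have h1 : δ ≤ |x - y| := by
    rcases le_abs'.1 hy with h | h
    · rw [abs_of_nonneg (by linarith [hx.1])]
      linarith [hx.1]
    · rw [abs_of_nonpos (by linarith [hx.2])]
      linarith [hx.2]
  refine ⟨h1, ?_⟩
  have h2 : |b - y| ≤ |b - x| + |x - y| := by
    have := abs_add_le (b - x) (x - y)
    rwa [sub_add_sub_cancel] at this
  have h3 : |b - x| ≤ 2 := by
    rw [abs_of_nonneg (by linarith [hx.2])]
    linarith [hx.1, hx.2]
  have h4 : 2 ≤ 2 / δ * |x - y| := by
    rw [div_mul_eq_mul_div, le_div_iff₀ hδ]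
    linarith
  linarith

theorem g3 (hA2 : A2) (hG0 : G0) (hG2a : G2a) : G3 := by
  intro δ hδ hδ4
  obtain ⟨n0, hn0, hkey⟩ := g3_key hG0 hG2a δ hδ hδ4
  refine ⟨n0, fun n hn a b P hM hE hND => ?_⟩
  have hPn : P.natDegree ≤ n := natDegree_le_of_degree_le hE.deg
  obtain ⟨hMa, hMab, hMb⟩ := hM
  have hd0 : 0 ≤ 2 / δ := by positivity
  have hd1 : (1 : ℝ) ≤ 1 + 2 / δ := by linarith
  have hd2 : (1 + 2 / δ) ≤ (1 + 2 / δ) ^ 2 := by nlinarith
  have hne : ∀ y : ℝ, 1 ≤ |y| → ∀ x ∈ Ioo (-1 : ℝ) 1, x - y ≠ 0 := by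
    intro y hy x hx h
    have : x = y := by linarith
    subst this
    rcases le_abs'.1 hy with h | h
    · linarith [hx.1]
    · linarith [hx.2]
  refine ⟨?_, ?_, ?_⟩
  · intro y1 y2 hy1 hy2 hdv
    refine hkey n hn a b P ((X - C y1) * (X - C y2)) ⟨hMa, hMab, hMb⟩ hE hND hdv ?_ ?_ ?_
    · intro x hx
      simp only [eval_mul, eval_sub, eval_X, eval_C]
      exact mul_ne_zero (hne y1 hy1 x hx) (hne y2 hy2 x hx)
    · intro x hx
      obtain ⟨h1, h2⟩ := g3_lin hδ hMa hMb hx hy1
      obtain ⟨h3, h4⟩ := g3_lin hδ hMa hMb hx hy2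
      constructor
      · simp only [derivative_mul, derivative_sub, derivative_X, derivative_C, eval_add,
          eval_mul, eval_sub, eval_X, eval_C, eval_one, eval_zero, sub_zero, one_mul, mul_one]
        rw [abs_mul]
        have h5 : |x - y2 + (x - y1)| ≤ |x - y2| + |x - y1| := abs_add_le _ _
        have h6 : |x - y2| ≤ 1 / δ * (|x - y1| * |x - y2|) := by
          rw [one_div, inv_mul_eq_div, le_div_iff₀ hδ]
          nlinarith [abs_nonneg (x - y2)]
        have h7 : |x - y1| ≤ 1 / δ * (|x - y1| * |x - y2|) := by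
          rw [one_div, inv_mul_eq_div, le_div_iff₀ hδ]
          nlinarith [abs_nonneg (x - y1)]
        have h8 : 2 / δ * (|x - y1| * |x - y2|) = 1 / δ * (|x - y1| * |x - y2|) +
            1 / δ * (|x - y1| * |x - y2|) := by ring
        linarith
      · simp only [eval_mul, eval_sub, eval_X, eval_C]
        rw [abs_mul, abs_mul]
        calc |b - y1| * |b - y2| ≤ ((1 + 2 / δ) * |x - y1|) * ((1 + 2 / δ) * |x - y2|) :=
              mul_le_mul h2 h4 (abs_nonneg _) (by positivity)
          _ = (1 + 2 / δ) ^ 2 * (|x - y1| * |x - y2|) := by ring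
    · rw [natDegree_mul (X_sub_C_ne_zero _) (X_sub_C_ne_zero _), natDegree_X_sub_C,
        natDegree_X_sub_C]
      omega
  · intro hdeg y hy hr
    refine hkey n hn a b P (X - C y) ⟨hMa, hMab, hMb⟩ hE hND (dvd_iff_isRoot.2 hr) ?_ ?_ ?_
    · intro x hx
      simp only [eval_sub, eval_X, eval_C]
      exact hne y hy x hx
    · intro x hx
      obtain ⟨h1, h2⟩ := g3_lin hδ hMa hMb hx hy
      constructor
      · simp only [derivative_sub, derivative_X, derivative_C, eval_sub, eval_X, eval_C,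
          eval_one, eval_zero, sub_zero, abs_one]
        rw [div_mul_eq_mul_div, le_div_iff₀ hδ]
        linarith
      · simp only [eval_sub, eval_X, eval_C]
        exact h2.trans (mul_le_mul_of_nonneg_right hd2 (abs_nonneg _))
    · rw [natDegree_X_sub_C]
      omega
  · by_contra hdeg
    push Not at hdeg
    refine hkey n hn a b P 1 ⟨hMa, hMab, hMb⟩ hE hND (one_dvd _) ?_ ?_ ?_
    · intro x hx
      simp
    · intro x hx
      constructor
      · simp only [derivative_one, eval_zero, abs_zero, eval_one, abs_one, mul_one]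
        exact hd0
      · simp only [eval_one, abs_one, mul_one]
        linarith
    · rw [natDegree_one]
      omega

end Pool.Agent.Helper10.AL
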