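import Pool.Agent.Helper10.AL.St2

/-!
Project AL, piece H4: no non-real critical point in the middle of a nearly perfect chain.
-/

set_option autoImplicit false

namespace Pool.Agent.Helper10.AL

open Polynomial Set Real MeasureTheory intervalIntegral

noncomputable section

/-! ### the function `g` -/

/-- the entire function `sin w P'(cos w) / n` -/
def h4_g (n : ℕ) (P : ℝ[X]) (w : ℂ) : ℂ :=
  Complex.sin w * aeval (Complex.cos w) P.derivative / n

theorem h4_g_diff (n : ℕ) (P : ℝ[X]) : Differentiable ℂ (h4_g n P) := by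
  unfold h4_g
  have h : Differentiable ℂ fun w : ℂ => aeval (Complex.cos w) P.derivative := by
    have h1 : (fun w : ℂ => aeval (Complex.cos w) P.derivative) =
        fun w : ℂ => (P.derivative.map (algebraMap ℝ ℂ)).eval (Complex.cos w) := by
      funext w
      rw [aeval_def, eval₂_eq_eval_map]
    rw [h1]
    exact (Polynomial.differentiable _).comp Complex.differentiable_cos
  exact (Complex.differentiable_sin.mul h).div_const _

theorem h4_g_real (hA2 : A2) (n : ℕ) (P : ℝ[X]) (θ : ℝ) :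
    h4_g n P (θ : ℂ) = ((-(deriv (qq P) θ) / n : ℝ) : ℂ) := by
  have h1 := (hA2.2.2 P θ).1
  have h2 : aeval (Complex.cos (θ : ℂ)) P.derivative = ((P.derivative.eval (cos θ) : ℝ) : ℂ) := by
    have h3 := aeval_algebraMap_apply_eq_algebraMap_eval (A := ℂ) (cos θ) P.derivative
    rw [Complex.coe_algebraMap, Complex.ofReal_cos] at h3
    exact h3
  unfold h4_g
  rw [h2, h1, neg_neg]
  push_cast
  ring

theorem h4_g_conj (n : ℕ) (P : ℝ[X]) (w : ℂ) (h : aeval (Complex.cos w) P.derivative = 0) :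
    h4_g n P w = 0 ∧ h4_g n P ((starRingEnd ℂ) w) = 0 := by
  unfold h4_g
  constructor
  · rw [h, mul_zero, zero_div]
  · rw [Complex.cos_conj, aeval_conj, h, map_zero, mul_zero, zero_div]

theorem h4_g_norm (hH4d : H4d) (n : ℕ) (P : ℝ[X]) (hn : 1 ≤ n) (hd : P.natDegree ≤ n)
    (hb : Pool.Agent.Helper40.AS.Bdd P) (w : ℂ) :
    ‖h4_g n P w‖ ≤ Real.exp (n * |w.im|) := by
  have h := hH4d n P hn hd hb w
  have hn' : (0 : ℝ) < n := by exact_mod_cast hn
  unfold h4_g
  rw [norm_div, Complex.norm_natCast, div_le_iff₀ hn']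
  linarith

/-! ### chains -/

theorem h4_sub (hB6 : B6) {n N : ℕ} {f : ℝ → ℝ} {t : ℕ → ℝ} (hn : 1 ≤ n) (hf : TB n f)
    (hc : Chain f N t) {j k : ℕ} (hjk : j ≤ k) (hk : k ≤ N) :
    ((k : ℝ) - j) * π ≤ n * (t k - t j) := by
  have h := (hB6 n (k - j) f (fun i => t (j + i)) hn hf (fun i hi => by
      have := hc.inc (j + i) (by omega)
      simpa [add_assoc] using this) (fun i hi => hc.con _ (by omega)) (fun i hi θ hθ => by
      refine hc.mon (j + i) (by omega) θ ?_
      simpa [add_assoc] using hθ)).1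
  have e1 : j + (k - j) = k := by omega
  simp only [e1, add_zero] at h
  rw [Nat.cast_sub hjk] at h
  exact h

theorem h4_sup (hB6 : B6) {n N : ℕ} {f : ℝ → ℝ} {t : ℕ → ℝ} {L : ℝ} (hn : 1 ≤ n) (hf : TB n f)
    (hc : Chain f N t) (hL : n * (t N - t 0) - N * π ≤ L) {j k : ℕ} (hjk : j ≤ k) (hk : k ≤ N) :
    n * (t k - t j) ≤ ((k : ℝ) - j) * π + L := by
  have h1 := h4_sub hB6 hn hf hc (Nat.zero_le j) (hjk.trans hk)
  have h2 := h4_sub hB6 hn hf hc hk le_rfl
  push_cast at h1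
  nlinarith

theorem h4_lt (hB6 : B6) {n N : ℕ} {f : ℝ → ℝ} {t : ℕ → ℝ} (hn : 1 ≤ n) (hf : TB n f)
    (hc : Chain f N t) {j k : ℕ} (hjk : j < k) (hk : k ≤ N) : t j < t k := by
  have h := h4_sub hB6 hn hf hc hjk.le hk
  have hn' : (0 : ℝ) < n := by exact_mod_cast hn
  have h1 : (0 : ℝ) < ((k : ℝ) - j) * π := by
    have : (j : ℝ) < k := by exact_mod_cast hjk
    exact mul_pos (by linarith) pi_pos
  by_contra h2
  push Not at h2
  nlinarith

theorem h4_crit (hA2 : A2) {n : ℕ} {f : ℝ → ℝ} (hn : 1 ≤ n) (hf : TB n f) {θ : ℝ}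
    (h : |f θ| = 1) : deriv f θ = 0 := by
  have h1 := ((hA2.1 n f hn hf).2 θ).1
  have h2 : f θ ^ 2 = 1 := by rw [← sq_abs, h, one_pow]
  rw [h2] at h1
  have h3 : deriv f θ ^ 2 ≤ 0 := by linarith
  exact pow_eq_zero_iff two_ne_zero |>.1 (le_antisymm h3 (sq_nonneg _))

theorem h4_find {N : ℕ} {t : ℕ → ℝ} {x : ℝ} (h0 : t 0 ≤ x) (h1 : x < t N) :
    ∃ i, i < N ∧ t i ≤ x ∧ x < t (i + 1) := by
  classical
  have hex : ∃ j, x < t j := ⟨N, h1⟩
  have h2 : Nat.find hex ≠ 0 := by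
    intro h
    have := Nat.find_spec hex
    rw [h] at this
    linarith
  obtain ⟨i, hi⟩ := Nat.exists_eq_succ_of_ne_zero h2
  have h3 : i < Nat.find hex := by omega
  have h4 := Nat.find_min hex h3
  have h5 := Nat.find_spec hex
  rw [hi] at h5
  have h6 : Nat.find hex ≤ N := Nat.find_min' hex h1
  exact ⟨i, by omega, not_lt.1 h4, h5⟩

/-! ### logarithms -/

theorem h4_log {n M k : ℕ} {d L : ℝ} (hn : 1 ≤ n) (hM : 1 ≤ M) (hd : 0 < d) (hL : 0 ≤ L)
    (h : n * d ≤ ((k : ℝ) + 1 / 2) * π + L) :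
    Real.log ((M : ℝ) / (k + 1 / 2)) - L ≤ Real.log (M * π / n / d) := by
  have hn' : (0 : ℝ) < n := by exact_mod_cast hn
  have hM' : (0 : ℝ) < M := by exact_mod_cast hM
  have hk' : (0 : ℝ) ≤ k := Nat.cast_nonneg k
  have hk : (0 : ℝ) < (k : ℝ) + 1 / 2 := by linarith
  have hpi := pi_gt_three
  have h1 : n * d ≤ ((k : ℝ) + 1 / 2) * π * (1 + L) := by
    have : (1 : ℝ) ≤ ((k : ℝ) + 1 / 2) * π := by nlinarith
    nlinarith
  have h2 : (M : ℝ) / (k + 1 / 2) / (1 + L) ≤ M * π / n / d := by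
    rw [div_div, div_div, div_le_div_iff₀ (by positivity) (by positivity)]
    nlinarith [mul_le_mul_of_nonneg_left h1 hM'.le]
  have h3 : Real.log ((M : ℝ) / (k + 1 / 2) / (1 + L)) ≤ Real.log (M * π / n / d) :=
    Real.log_le_log (by positivity) h2
  rw [Real.log_div (by positivity) (by positivity)] at h3
  have h4 : Real.log (1 + L) ≤ L := by
    have := Real.log_le_sub_one_of_pos (show (0 : ℝ) < 1 + L by linarith)
    linarith
  linarith

theorem h4_large (A : ℝ) : ∃ n0 : ℕ, ∀ n : ℕ, n0 ≤ n → 1 ≤ n ∧ A * (1 + Real.log n) ^ 3 ≤ n := by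
  have h := (Real.isLittleO_pow_log_id_atTop (n := 3)).def
    (show (0 : ℝ) < 1 / (8 * (|A| + 1)) by positivity)
  have h2 := tendsto_natCast_atTop_atTop (R := ℝ) |>.eventually h
  obtain ⟨n1, hn1⟩ := Filter.eventually_atTop.1 h2
  refine ⟨max n1 3, fun n hn => ?_⟩
  have h3 : n1 ≤ n := le_of_max_le_left hn
  have h4 : 3 ≤ n := le_of_max_le_right hn
  have h5 := hn1 n h3
  have h4' : (3 : ℝ) ≤ n := by exact_mod_cast h4
  have h6 : 1 ≤ Real.log n := by
    rw [Real.le_log_iff_exp_le (by linarith)]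
    have := Real.exp_one_lt_d9
    linarith
  simp only [id, Real.norm_eq_abs] at h5
  rw [abs_of_nonneg (by positivity : (0 : ℝ) ≤ Real.log n ^ 3),
    abs_of_nonneg (by positivity : (0 : ℝ) ≤ n)] at h5
  have h7 : (1 + Real.log n) ^ 3 ≤ 8 * Real.log n ^ 3 := by
    have : (1 + Real.log n) ^ 3 ≤ (2 * Real.log n) ^ 3 :=
      pow_le_pow_left₀ (by linarith) (by linarith) 3
    calc (1 + Real.log n) ^ 3 ≤ (2 * Real.log n) ^ 3 := this
      _ = 8 * Real.log n ^ 3 := by ring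
  have h8 : 8 * (|A| + 1) * Real.log n ^ 3 ≤ n := by
    have : 8 * (|A| + 1) * Real.log n ^ 3 ≤ 8 * (|A| + 1) * (1 / (8 * (|A| + 1)) * n) :=
      mul_le_mul_of_nonneg_left h5 (by positivity)
    calc 8 * (|A| + 1) * Real.log n ^ 3 ≤ 8 * (|A| + 1) * (1 / (8 * (|A| + 1)) * n) := this
      _ = n := by field_simp
  refine ⟨by omega, ?_⟩
  have h9 : (0 : ℝ) ≤ Real.log n ^ 3 := by positivity
  have h10 : 0 ≤ (1 + Real.log n) ^ 3 := by positivity
  calc A * (1 + Real.log n) ^ 3 ≤ |A| * (1 + Real.log n) ^ 3 :=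
        mul_le_mul_of_nonneg_right (le_abs_self A) h10
    _ ≤ |A| * (8 * Real.log n ^ 3) := mul_le_mul_of_nonneg_left h7 (abs_nonneg A)
    _ ≤ 8 * (|A| + 1) * Real.log n ^ 3 := by nlinarith
    _ ≤ n := h8

/-! ### the core argument -/

theorem h4_core (hA2 : A2) (hB6 : B6) (hH4a : H4a) (hH4b : H4b) (hH4c : H4c) (hH4d : H4d)
    {n : ℕ} {P : ℝ[X]} {N : ℕ} {t : ℕ → ℝ} {w0 : ℂ} {L : ℝ} {M i : ℕ} (hn : 1 ≤ n)
    (hdeg : P.natDegree ≤ n) (hbd : Pool.Agent.Helper40.AS.Bdd P) (hch : Chain (qq P) N t)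
    (hL0 : 0 ≤ L) (hL1 : L ≤ 1 / 100) (hlag : n * (t N - t 0) - N * π ≤ L) (hM : 1 ≤ M)
    (hi : i + M ≤ N) (hi2 : M ≤ i + 1) (hw : aeval (Complex.cos w0) P.derivative = 0)
    (him : w0.im ≠ 0) (hr : 3 * ‖w0 - (((t i + t (i + 1)) / 2 : ℝ) : ℂ)‖ ≤ M * π / n)
    (hML : M * L ≤ 1 / 5) : False := by
  classical
  have hf : TB n (qq P) := hA2.2.1 n P hdeg hbd
  have hn' : (0 : ℝ) < n := by exact_mod_cast hn
  have hM' : (1 : ℝ) ≤ M := by exact_mod_cast hM
  have hpi := pi_gt_three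
  set m : ℝ := (t i + t (i + 1)) / 2 with hm
  set r : ℝ := M * π / n with hrdef
  have hr0 : 0 < r := by positivity
  have hiN : i + 1 ≤ N := by omega
  have hlt : ∀ {j k : ℕ}, j < k → k ≤ N → t j < t k := fun h1 h2 => h4_lt hB6 hn hf hch h1 h2
  have hti : t i < t (i + 1) := hlt (Nat.lt_succ_self i) hiN
  -- the value at m
  have hgap : n * (t (i + 1) - t i) ≤ π + L := by
    have h := h4_sup hB6 hn hf hch hlag (Nat.le_succ i) hiN
    push_cast at h
    have e : ((i : ℝ) + 1 - i) * π + L = π + L := by ring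
    rw [e] at h
    exact h
  have hder : (n : ℝ) / 2 ≤ |deriv (qq P) m| :=
    hH4c n (qq P) (t i) (t (i + 1)) hn hf hti (hch.con i (by omega)) (hch.con (i + 1) hiN)
      (hch.mon i (by omega)) (by linarith)
  have hgm : h4_g n P (m : ℂ) = ((-(deriv (qq P) m) / n : ℝ) : ℂ) := h4_g_real hA2 n P m
  have hgn : (1 : ℝ) / 2 ≤ ‖h4_g n P (m : ℂ)‖ := by
    rw [hgm, Complex.norm_real, Real.norm_eq_abs, abs_div, abs_neg, abs_of_pos hn',
      le_div_iff₀ hn']
    linarith
  have hg0 : h4_g n P (m : ℂ) ≠ 0 := by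
    intro h
    rw [h, norm_zero] at hgn
    linarith
  -- distances
  have hleft : ∀ k < M, 0 < m - t (i - k) ∧ n * (m - t (i - k)) ≤ ((k : ℝ) + 1 / 2) * π + L := by
    intro k hk
    have h1 : t (i - k) ≤ t i := by
      rcases Nat.eq_zero_or_pos k with h0 | h0
      · rw [h0, Nat.sub_zero]
      · exact (hlt (by omega) (by omega)).le
    have h2 := h4_sup hB6 hn hf hch hlag (show i - k ≤ i + 1 by omega) hiN
    have h3 := h4_sub hB6 hn hf hch (show i - k ≤ i by omega) (by omega)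
    have h4 := h4_sub hB6 hn hf hch (Nat.le_succ i) hiN
    rw [Nat.cast_sub (show k ≤ i by omega)] at h2 h3
    push_cast at h2 h4
    constructor
    · rw [hm]
      linarith
    · rw [hm]
      have e1 : ((i : ℝ) + 1 - (i - k)) * π = (k + 1) * π := by ring
      have e2 : ((i : ℝ) - (i - k)) * π = k * π := by ring
      have e3 : ((i : ℝ) + 1 - i) * π = π := by ring
      rw [e1] at h2
      rw [e2] at h3
      rw [e3] at h4
      nlinarith
  have hright : ∀ k < M, 0 < t (i + 1 + k) - m ∧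
      n * (t (i + 1 + k) - m) ≤ ((k : ℝ) + 1 / 2) * π + L := by
    intro k hk
    have h1 : t (i + 1) ≤ t (i + 1 + k) := by
      rcases Nat.eq_zero_or_pos k with h0 | h0
      · rw [h0, Nat.add_zero]
      · exact (hlt (by omega) (by omega)).le
    have h2 := h4_sup hB6 hn hf hch hlag (show i ≤ i + 1 + k by omega) (by omega)
    have h3 := h4_sub hB6 hn hf hch (show i + 1 ≤ i + 1 + k by omega) (by omega)
    have h4 := h4_sub hB6 hn hf hch (Nat.le_succ i) hiN
    push_cast at h2 h3 h4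
    constructor
    · rw [hm]
      linarith
    · rw [hm]
      have e1 : ((i : ℝ) + 1 + k - i) * π = (k + 1) * π := by ring
      have e2 : ((i : ℝ) + 1 + k - (i + 1)) * π = k * π := by ring
      have e3 : ((i : ℝ) + 1 - i) * π = π := by ring
      rw [e1] at h2
      rw [e2] at h3
      rw [e3] at h4
      nlinarith
  have hnorm : ∀ x : ℝ, ‖((x : ℝ) : ℂ) - (m : ℂ)‖ = |x - m| := by
    intro x
    rw [← Complex.ofReal_sub, Complex.norm_real, Real.norm_eq_abs]
  have hin : ∀ (k : ℕ) (d : ℝ), k < M → n * d ≤ ((k : ℝ) + 1 / 2) * π + L → d < r := by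
    intro k d hk hd
    have hk' : (k : ℝ) + 1 ≤ M := by exact_mod_cast hk
    rw [hrdef, lt_div_iff₀ hn']
    nlinarith
  -- the finite set of zeros
  set S1 : Finset ℂ := (Finset.range M).image (fun k => ((t (i - k) : ℝ) : ℂ)) with hS1
  set S2 : Finset ℂ := (Finset.range M).image (fun k => ((t (i + 1 + k) : ℝ) : ℂ)) with hS2
  set S3 : Finset ℂ := {w0, (starRingEnd ℂ) w0} with hS3
  have hzero : ∀ j ≤ N, h4_g n P ((t j : ℝ) : ℂ) = 0 := by
    intro j hj
    rw [h4_g_real hA2, h4_crit hA2 hn hf (hch.con j hj), neg_zero, zero_div, Complex.ofReal_zero]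
  have hconj := h4_g_conj n P w0 hw
  have hcn : ‖(starRingEnd ℂ) w0 - (m : ℂ)‖ = ‖w0 - (m : ℂ)‖ := by
    have h : (starRingEnd ℂ) w0 - (m : ℂ) = (starRingEnd ℂ) (w0 - (m : ℂ)) := by
      rw [map_sub, Complex.conj_ofReal]
    rw [h, Complex.norm_conj]
  have hwpos : 0 < ‖w0 - (m : ℂ)‖ := by
    rw [norm_pos_iff]
    intro h
    apply him
    have := congrArg Complex.im h
    simpa using this
  have hwr : ‖w0 - (m : ℂ)‖ < r := by linarith
  have hS : ∀ ζ ∈ S1 ∪ S2 ∪ S3, h4_g n P ζ = 0 ∧ ‖ζ - (m : ℂ)‖ < r := by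
    intro ζ hζ
    rw [Finset.mem_union, Finset.mem_union] at hζ
    rcases hζ with (hζ | hζ) | hζ
    · rw [hS1, Finset.mem_image] at hζ
      obtain ⟨k, hk, rfl⟩ := hζ
      rw [Finset.mem_range] at hk
      refine ⟨hzero _ (by omega), ?_⟩
      have h := hleft k hk
      rw [hnorm, abs_sub_comm, abs_of_pos h.1]
      exact hin k _ hk h.2
    · rw [hS2, Finset.mem_image] at hζ
      obtain ⟨k, hk, rfl⟩ := hζ
      rw [Finset.mem_range] at hk
      refine ⟨hzero _ (by omega), ?_⟩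
      have h := hright k hk
      rw [hnorm, abs_of_pos h.1]
      exact hin k _ hk h.2
    · rw [hS3, Finset.mem_insert, Finset.mem_singleton] at hζ
      rcases hζ with rfl | rfl
      · exact ⟨hconj.1, hwr⟩
      · exact ⟨hconj.2, by rw [hcn]; exact hwr⟩
  have key := hH4a (h4_g n P) m r n (S1 ∪ S2 ∪ S3) (h4_g_diff n P) hr0 hn'.le hg0 hS
    (fun w => h4_g_norm hH4d n P hn hdeg hbd w)
  -- splitting the sum
  have hre : ∀ x : ℝ, ((x : ℝ) : ℂ) ∉ S3 := by
    intro x hx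
    rw [hS3, Finset.mem_insert, Finset.mem_singleton] at hx
    rcases hx with hx | hx
    · apply him
      rw [← hx, Complex.ofReal_im]
    · apply him
      have h := congrArg Complex.im hx
      rw [Complex.ofReal_im, Complex.conj_im] at h
      linarith
  have hd3 : Disjoint (S1 ∪ S2) S3 := by
    rw [Finset.disjoint_left]
    intro ζ hζ h3
    rw [Finset.mem_union] at hζ
    rcases hζ with hζ | hζ
    · rw [hS1, Finset.mem_image] at hζ
      obtain ⟨k, -, rfl⟩ := hζ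
      exact hre _ h3
    · rw [hS2, Finset.mem_image] at hζ
      obtain ⟨k, -, rfl⟩ := hζ
      exact hre _ h3
  have hd2 : Disjoint S1 S2 := by
    rw [Finset.disjoint_left]
    intro ζ h1 h2
    rw [hS1, Finset.mem_image] at h1
    rw [hS2, Finset.mem_image] at h2
    obtain ⟨k, hk, rfl⟩ := h1
    obtain ⟨l, hl, h⟩ := h2
    rw [Finset.mem_range] at hk hl
    have h3 : t (i + 1 + l) = t (i - k) := by exact_mod_cast h
    have h4 := (hleft k hk).1
    have h5 := (hright l hl).1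
    linarith
  have hinj1 : Set.InjOn (fun k => ((t (i - k) : ℝ) : ℂ)) ((Finset.range M : Finset ℕ) : Set ℕ) := by
    intro k hk l hl h
    rw [Finset.mem_coe, Finset.mem_range] at hk hl
    have h3 : t (i - k) = t (i - l) := Complex.ofReal_injective h
    by_contra hne
    rcases Nat.lt_or_gt_of_ne hne with h4 | h4
    · have := hlt (show i - l < i - k by omega) (by omega)
      linarith
    · have := hlt (show i - k < i - l by omega) (by omega)
      linarith
  have hinj2 : Set.InjOn (fun k => ((t (i + 1 + k) : ℝ) : ℂ))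
      ((Finset.range M : Finset ℕ) : Set ℕ) := by
    intro k hk l hl h
    rw [Finset.mem_coe, Finset.mem_range] at hk hl
    have h3 : t (i + 1 + k) = t (i + 1 + l) := Complex.ofReal_injective h
    by_contra hne
    rcases Nat.lt_or_gt_of_ne hne with h4 | h4
    · have := hlt (show i + 1 + k < i + 1 + l by omega) (by omega)
      linarith
    · have := hlt (show i + 1 + l < i + 1 + k by omega) (by omega)
      linarith
  have hne : w0 ≠ (starRingEnd ℂ) w0 := by
    intro h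
    apply him
    have h1 := congrArg Complex.im h
    rw [Complex.conj_im] at h1
    linarith
  rw [Finset.sum_union hd3, Finset.sum_union hd2, hS1, hS2, hS3, Finset.sum_image hinj1,
    Finset.sum_image hinj2, Finset.sum_pair hne, hcn] at key
  -- estimates
  have hs1 : ∑ k ∈ Finset.range M, (Real.log ((M : ℝ) / (k + 1 / 2)) - L) ≤
      ∑ k ∈ Finset.range M, Real.log (r / ‖((t (i - k) : ℝ) : ℂ) - (m : ℂ)‖) := by
    refine Finset.sum_le_sum fun k hk => ?_
    rw [Finset.mem_range] at hk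
    have h := hleft k hk
    rw [hnorm, abs_sub_comm, abs_of_pos h.1]
    exact h4_log hn hM h.1 hL0 h.2
  have hs2 : ∑ k ∈ Finset.range M, (Real.log ((M : ℝ) / (k + 1 / 2)) - L) ≤
      ∑ k ∈ Finset.range M, Real.log (r / ‖((t (i + 1 + k) : ℝ) : ℂ) - (m : ℂ)‖) := by
    refine Finset.sum_le_sum fun k hk => ?_
    rw [Finset.mem_range] at hk
    have h := hright k hk
    rw [hnorm, abs_of_pos h.1]
    exact h4_log hn hM h.1 hL0 h.2
  rw [Finset.sum_sub_distrib, Finset.sum_const, Finset.card_range, nsmul_eq_mul] at hs1 hs2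
  have hb := hH4b M hM
  have hlog3 : Real.log 3 ≤ Real.log (r / ‖w0 - (m : ℂ)‖) := by
    apply Real.log_le_log (by norm_num)
    rw [le_div_iff₀ hwpos]
    exact hr
  have hlog2 : -Real.log 2 ≤ Real.log ‖h4_g n P (m : ℂ)‖ := by
    rw [← Real.log_inv]
    apply Real.log_le_log (by norm_num)
    linarith
  have hrhs : 2 / π * n * r = 2 * M := by
    rw [hrdef]
    field_simp
  rw [hrhs] at key
  have hl3 : Real.log 2 * 3 ≤ Real.log 3 * 2 := by
    have h1 : Real.log ((2 : ℝ) ^ 3) ≤ Real.log ((3 : ℝ) ^ 2) :=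
      Real.log_le_log (by norm_num) (by norm_num)
    rw [Real.log_pow, Real.log_pow] at h1
    push_cast at h1
    linarith
  have hl2 := Real.log_two_gt_d9
  linarith

/-! ### the theorem -/

theorem h4_arccos {x y : ℝ} (hx : -1 ≤ x) (hxy : x ≤ y) (hy : y ≤ 1) :
    y - x ≤ arccos x - arccos y := by
  have h1 : cos (arccos x) = x := cos_arccos hx (hxy.trans hy)
  have h2 : cos (arccos y) = y := cos_arccos (hx.trans hxy) hy
  have h3 : arccos y ≤ arccos x := arccos_le_arccos hxy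
  have h4 : |cos (arccos y) - cos (arccos x)| ≤ |arccos y - arccos x| := by
    have h := Real.cos_sub_cos (arccos y) (arccos x)
    rw [h, abs_mul, abs_mul]
    have h5 := abs_sin_le_one ((arccos y + arccos x) / 2)
    have h6 : |sin ((arccos y - arccos x) / 2)| ≤ |(arccos y - arccos x) / 2| := abs_sin_le_abs
    have h7 : |(-2 : ℝ)| = 2 := by norm_num
    rw [abs_div, abs_two] at h6
    rw [h7]
    have h8 := abs_nonneg (sin ((arccos y - arccos x) / 2))
    have h9 := abs_nonneg (sin ((arccos y + arccos x) / 2))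
    nlinarith
  rw [h1, h2] at h4
  have h5 : |arccos y - arccos x| = arccos x - arccos y := by
    rw [abs_sub_comm, abs_of_nonneg (by linarith)]
  rw [h5] at h4
  exact (le_abs_self _).trans h4

theorem h4 (hA2 : A2) (hB6 : B6) (hCA : CA) (hH4a : H4a) (hH4b : H4b) (hH4c : H4c)
    (hH4d : H4d) : H4 := by
  intro δ K hδ hδ4 hK
  set C1 : ℝ := 3 / √δ * K with hC1
  have hC1pos : 0 < C1 := by positivity
  set C2 : ℝ := 7 + 3 * C1 with hC2
  have hC2pos : 0 < C2 := by positivity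
  obtain ⟨n0, hn0⟩ := h4_large (10000 * K ^ 2 + 25 * C2 ^ 2 * K ^ 2 + 2 * K * (K + C1) +
    2 * K * (C2 * 4 + 1))
  refine ⟨n0, fun n hn a b P N t z hmid hdeg hbd hN hch htN ht0 hlag hz him0 him hre1 hre2 => ?_⟩
  obtain ⟨hn1, hA⟩ := hn0 n hn
  set Ln : ℝ := 1 + Real.log n with hLn
  have hn' : (0 : ℝ) < n := by exact_mod_cast hn1
  have hn1' : (1 : ℝ) ≤ n := by exact_mod_cast hn1
  have hLn1 : 1 ≤ Ln := by
    have := Real.log_nonneg hn1'
    rw [hLn]
    linarith
  have hLn2 : Ln ^ 2 ≤ Ln ^ 3 := pow_le_pow_right₀ hLn1 (by norm_num)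
  have hLn13 : Ln ≤ Ln ^ 3 := by
    calc Ln = Ln ^ 1 := (pow_one _).symm
      _ ≤ Ln ^ 3 := pow_le_pow_right₀ hLn1 (by norm_num)
  have hLn12 : Ln ≤ Ln ^ 2 := by
    calc Ln = Ln ^ 1 := (pow_one _).symm
      _ ≤ Ln ^ 2 := pow_le_pow_right₀ hLn1 (by norm_num)
  have hL3 : 0 ≤ Ln ^ 3 := by positivity
  have q1 : 0 ≤ K ^ 2 * Ln ^ 3 := by positivity
  have q2 : 0 ≤ C2 ^ 2 * K ^ 2 * Ln ^ 3 := by positivity
  have q3 : 0 ≤ K * (K + C1) * Ln ^ 3 := by positivity
  have q4 : 0 ≤ K * (C2 * 4 + 1) * Ln ^ 3 := by positivity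
  have hA' : 10000 * (K ^ 2 * Ln ^ 3) + 25 * (C2 ^ 2 * K ^ 2 * Ln ^ 3) +
      2 * (K * (K + C1) * Ln ^ 3) + 2 * (K * (C2 * 4 + 1) * Ln ^ 3) ≤ n := by
    have e : 10000 * (K ^ 2 * Ln ^ 3) + 25 * (C2 ^ 2 * K ^ 2 * Ln ^ 3) +
      2 * (K * (K + C1) * Ln ^ 3) + 2 * (K * (C2 * 4 + 1) * Ln ^ 3) =
      (10000 * K ^ 2 + 25 * C2 ^ 2 * K ^ 2 + 2 * K * (K + C1) + 2 * K * (C2 * 4 + 1)) *
        Ln ^ 3 := by ring
    rw [e]
    exact hA
  have hb1 : 10000 * (K ^ 2 * Ln ^ 3) ≤ n := by linarith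
  have hb2 : 25 * (C2 ^ 2 * K ^ 2 * Ln ^ 3) ≤ n := by linarith
  have hb3 : 2 * (K * (K + C1) * Ln ^ 3) ≤ n := by linarith
  have hb4 : 2 * (K * (C2 * 4 + 1) * Ln ^ 3) ≤ n := by linarith
  obtain ⟨hma, hmb, hmc⟩ := hmid
  -- the lag
  set L : ℝ := K * √(Ln / n) with hL
  have hL0 : 0 ≤ L := by positivity
  have hsq : √(Ln / n) ^ 2 = Ln / n := Real.sq_sqrt (by positivity)
  have hL1 : L ≤ 1 / 100 := by
    have h1 : L ^ 2 ≤ (1 / 100) ^ 2 := by
      rw [hL, mul_pow, hsq]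
      rw [← mul_div_assoc, div_le_iff₀ hn']
      have h2 := mul_le_mul_of_nonneg_left hLn13 (sq_nonneg K)
      linarith
    exact (sq_le_sq₀ hL0 (by norm_num)).1 h1
  have hCL : C2 * Ln * L ≤ 1 / 5 := by
    have h1 : (C2 * Ln * L) ^ 2 ≤ (1 / 5) ^ 2 := by
      have e : (C2 * Ln * L) ^ 2 = C2 ^ 2 * K ^ 2 * Ln ^ 3 / n := by
        rw [hL, mul_pow, mul_pow, mul_pow, hsq]
        ring
      rw [e, div_le_iff₀ hn']
      linarith
    exact (sq_le_sq₀ (by positivity) (by norm_num)).1 h1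
  -- the point w0
  obtain ⟨w0, hw0, -, -, hdist⟩ := hCA δ hδ (by linarith) z
  have hKLn : 0 < K * Ln := by positivity
  have hinv : 0 < 1 / (K * Ln) := by positivity
  have hz1 : -1 ≤ z.re := by linarith
  have hz2 : z.re ≤ 1 := by linarith
  set θ : ℝ := arccos z.re with hθ
  have hcosθ : cos θ = z.re := cos_arccos hz1 hz2
  have hd1 := hdist θ ⟨arccos_nonneg _, arccos_le_pi _⟩ (by
    rw [hcosθ]
    exact ⟨by linarith, by linarith⟩)
  have hzim : ‖z - ((cos θ : ℝ) : ℂ)‖ = z.im := by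
    rw [hcosθ]
    have h : z - ((z.re : ℝ) : ℂ) = z.im * Complex.I := by
      apply Complex.ext
      · simp
      · simp
    rw [h, norm_mul, Complex.norm_I, mul_one, Complex.norm_real, Real.norm_eq_abs,
      abs_of_pos him0]
  rw [hzim] at hd1
  have hd2 : ‖w0 - (θ : ℂ)‖ ≤ C1 * Ln / n := by
    calc ‖w0 - (θ : ℂ)‖ ≤ 3 / √δ * z.im := hd1
      _ ≤ 3 / √δ * (K * Ln / n) := mul_le_mul_of_nonneg_left him (by positivity)
      _ = C1 * Ln / n := by
        rw [hC1]
        ring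
  have hwim : w0.im ≠ 0 := by
    intro h
    have h1 : w0 = ((w0.re : ℝ) : ℂ) := by
      apply Complex.ext
      · simp
      · simp [h]
    have h2 : z.im = 0 := by
      rw [← hw0, h1, ← Complex.ofReal_cos, Complex.ofReal_im]
    linarith
  have hre : |w0.re - θ| ≤ C1 * Ln / n := by
    have h := Complex.abs_re_le_norm (w0 - (θ : ℂ))
    rw [Complex.sub_re, Complex.ofReal_re] at h
    exact h.trans hd2
  have himb : |w0.im| ≤ C1 * Ln / n := by
    have h := Complex.abs_im_le_norm (w0 - (θ : ℂ))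
    rw [Complex.sub_im, Complex.ofReal_im, sub_zero] at h
    exact h.trans hd2
  have hab := h4_arccos (x := a) (y := z.re) (by linarith) (by linarith) hz2
  have hbb := h4_arccos (x := z.re) (y := b) hz1 (by linarith) (by linarith)
  have htN' := abs_le.1 htN
  have ht0' := abs_le.1 ht0
  have hre' := abs_le.1 hre
  -- distance to the ends
  have hend : K * Ln / (n : ℝ) ^ 2 + C1 * Ln / n ≤ 1 / (K * Ln) / 2 := by
    have h1 : K * Ln / (n : ℝ) ^ 2 ≤ K * Ln / n := by
      apply div_le_div_of_nonneg_left hKLn.le hn'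
      rw [sq]
      exact le_mul_of_one_le_left hn'.le hn1'
    have h2 : K * Ln / n + C1 * Ln / n ≤ 1 / (K * Ln) / 2 := by
      rw [← add_div, div_div, div_le_div_iff₀ hn' (by positivity)]
      have h3 := mul_le_mul_of_nonneg_left hLn2 (show 0 ≤ 2 * K * (K + C1) by positivity)
      have e1 : (K * Ln + C1 * Ln) * (K * Ln * 2) = 2 * K * (K + C1) * Ln ^ 2 := by ring
      rw [e1]
      linarith
    linarith
  have hR : 1 / (K * Ln) / 2 ≤ t N - w0.re := by linarith [htN'.1, hre'.2]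
  have hLft : 1 / (K * Ln) / 2 ≤ w0.re - t 0 := by linarith [ht0'.2, hre'.1]
  have hhalf : 0 < 1 / (K * Ln) / 2 := by positivity
  obtain ⟨i, hiN, hi1, hi2⟩ := h4_find (t := t) (x := w0.re) (by linarith)
    (show w0.re < t N by linarith)
  -- the number M
  have hf : TB n (qq P) := hA2.2.1 n P hdeg hbd
  set M : ℕ := ⌈3 * (2 + C1) * Ln⌉₊ with hMdef
  have hM1 : 3 * (2 + C1) * Ln ≤ M := Nat.le_ceil _
  have hM2 : (M : ℝ) ≤ C2 * Ln := by
    have h := Nat.ceil_lt_add_one (show 0 ≤ 3 * (2 + C1) * Ln by positivity)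
    rw [← hMdef] at h
    have e1 : C2 * Ln = 3 * (2 + C1) * Ln + Ln := by
      rw [hC2]
      ring
    rw [e1]
    linarith
  have hMpos : 1 ≤ M := by
    have : (0 : ℝ) < M := by
      have : 0 < 3 * (2 + C1) * Ln := by positivity
      linarith
    exact_mod_cast this
  have hpi := pi_gt_three
  have hpi4 : π ≤ 4 := pi_le_four
  have hnh : M * π + L ≤ n * (1 / (K * Ln) / 2) := by
    have h1 : M * π + L ≤ (C2 * 4 + 1) * Ln := by
      have h3 : (M : ℝ) * π ≤ C2 * Ln * 4 :=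
        mul_le_mul hM2 hpi4 pi_pos.le (by positivity)
      have e1 : (C2 * 4 + 1) * Ln = C2 * Ln * 4 + Ln := by ring
      rw [e1]
      linarith
    have h2 : (C2 * 4 + 1) * Ln ≤ n * (1 / (K * Ln) / 2) := by
      have e : n * (1 / (K * Ln) / 2) = n / (2 * (K * Ln)) := by
        field_simp
      rw [e, le_div_iff₀ (by positivity)]
      have h3 := mul_le_mul_of_nonneg_left hLn2 (show 0 ≤ 2 * K * (C2 * 4 + 1) by positivity)
      have e1 : (C2 * 4 + 1) * Ln * (2 * (K * Ln)) = 2 * K * (C2 * 4 + 1) * Ln ^ 2 := by ring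
      rw [e1]
      linarith
    linarith
  have hiM : M ≤ i + 1 := by
    have h1 := h4_sup hB6 hn1 hf hch hlag (Nat.zero_le (i + 1)) hiN
    have h2 : n * (1 / (K * Ln) / 2) ≤ n * (t (i + 1) - t 0) :=
      mul_le_mul_of_nonneg_left (by linarith) hn'.le
    have h3 : (M : ℝ) * π ≤ ((i + 1 : ℕ) : ℝ) * π := by
      push_cast at h1 ⊢
      linarith
    have h4 := le_of_mul_le_mul_right h3 pi_pos
    exact_mod_cast h4
  have hiM2 : i + M ≤ N := by
    have h1 := h4_sup hB6 hn1 hf hch hlag hiN.le le_rfl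
    have h2 : n * (1 / (K * Ln) / 2) ≤ n * (t N - t i) :=
      mul_le_mul_of_nonneg_left (by linarith) hn'.le
    have h3 : ((i + M : ℕ) : ℝ) * π ≤ (N : ℝ) * π := by
      push_cast
      linarith
    have h4 := le_of_mul_le_mul_right h3 pi_pos
    exact_mod_cast h4
  refine h4_core (w0 := w0) (L := L) (M := M) (i := i) hA2 hB6 hH4a hH4b hH4c hH4d hn1 hdeg hbd
    hch hL0 hL1 hlag hMpos hiM2 hiM (by rw [hw0]; exact hz) hwim ?_ ?_
  · -- the radius
    have h1 := h4_sup hB6 hn1 hf hch hlag (Nat.le_succ i) hiN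
    push_cast at h1
    have e3 : ((i : ℝ) + 1 - i) * π = π := by ring
    rw [e3] at h1
    have h2 : ‖w0 - (((t i + t (i + 1)) / 2 : ℝ) : ℂ)‖ ≤
        |w0.re - (t i + t (i + 1)) / 2| + |w0.im| := by
      have h := Complex.norm_le_abs_re_add_abs_im (w0 - (((t i + t (i + 1)) / 2 : ℝ) : ℂ))
      rw [Complex.sub_re, Complex.sub_im, Complex.ofReal_re, Complex.ofReal_im, sub_zero] at h
      exact h
    have h3 : |w0.re - (t i + t (i + 1)) / 2| ≤ (t (i + 1) - t i) / 2 := by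
      rw [abs_le]
      constructor <;> linarith
    have h4 : (t (i + 1) - t i) / 2 ≤ 2 * Ln / n := by
      have h1' : (n : ℝ) * (t (i + 1) - t i) ≤ π + L := h1
      have h6 := pi_lt_d2
      rw [le_div_iff₀ hn']
      have e : (t (i + 1) - t i) / 2 * n = n * (t (i + 1) - t i) / 2 := by ring
      rw [e]
      linarith
    have h5 : 3 * (2 * Ln / n + C1 * Ln / n) ≤ M * π / n := by
      have e : 3 * (2 * Ln / n + C1 * Ln / n) = 3 * (2 + C1) * Ln / n := by ring
      rw [e]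
      apply div_le_div_of_nonneg_right _ hn'.le
      have h6 : (M : ℝ) * 1 ≤ M * π :=
        mul_le_mul_of_nonneg_left (by linarith) (Nat.cast_nonneg M)
      linarith
    linarith
  · calc (M : ℝ) * L ≤ C2 * Ln * L := mul_le_mul_of_nonneg_right hM2 hL0
      _ ≤ 1 / 5 := hCL

end

end Pool.Agent.Helper10.AL
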