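import Pool.Agent.Helper10.AL.St

/-!
Arc length of polynomials over compact windows, large degree: piece K2.
-/

set_option autoImplicit false

namespace Pool.Agent.Helper10.AL

open Polynomial Set Real MeasureTheory intervalIntegral
open Pool.Agent.Helper40.AS (arc Bdd Ext)

noncomputable section

/-- third derivative of the trigonometric form -/
theorem k2_third (hA2 : A2) (P : ℝ[X]) (θ : ℝ) :
    deriv (deriv (deriv (qq P))) θ =
      -(sin θ ^ 3 * P.derivative.derivative.derivative.eval (cos θ)) +
        3 * (sin θ * cos θ * P.derivative.derivative.eval (cos θ)) +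
        sin θ * P.derivative.eval (cos θ) := by
  have h2 : deriv (deriv (qq P)) = fun θ => sin θ ^ 2 * P.derivative.derivative.eval (cos θ) -
      cos θ * P.derivative.eval (cos θ) := by
    funext t; exact ((hA2.2.2 P t).2)
  rw [h2]
  have hs : HasDerivAt (fun t : ℝ => sin t) (cos θ) θ := Real.hasDerivAt_sin θ
  have hc : HasDerivAt (fun t : ℝ => cos t) (-sin θ) θ := Real.hasDerivAt_cos θ
  have hp2 : HasDerivAt (fun t : ℝ => P.derivative.derivative.eval (cos t))
      (P.derivative.derivative.derivative.eval (cos θ) * -sin θ) θ :=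
    (P.derivative.derivative.hasDerivAt (cos θ)).comp θ hc
  have hp1 : HasDerivAt (fun t : ℝ => P.derivative.eval (cos t))
      (P.derivative.derivative.eval (cos θ) * -sin θ) θ :=
    (P.derivative.hasDerivAt (cos θ)).comp θ hc
  have h := ((hs.pow 2).mul hp2).sub (hc.mul hp1)
  refine (h.congr_deriv ?_).deriv
  simp only [Nat.cast_ofNat, Pi.pow_apply]
  ring

/-- derivative bounds on compact windows -/
theorem k2_bounds (hA2 : A2) (δ : ℝ) (hδ : 0 < δ) (hδ1 : δ ≤ 1) :
    ∃ K : ℝ, 0 < K ∧ ∀ (n : ℕ) (P : ℝ[X]) (x : ℝ), 1 ≤ n → P.natDegree ≤ n → Bdd P →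
      x ∈ Icc (-1 + δ) (1 - δ) → |P.derivative.eval x| ≤ K * n ∧
        |P.derivative.derivative.eval x| ≤ K * (n : ℝ) ^ 2 ∧
        |P.derivative.derivative.derivative.eval x| ≤ K * (n : ℝ) ^ 3 := by
  set s0 : ℝ := √δ with hs0
  have hs0p : 0 < s0 := Real.sqrt_pos.2 hδ
  have hs0sq : s0 ^ 2 = δ := Real.sq_sqrt hδ.le
  have hs01 : s0 ≤ 1 := by rw [hs0]; exact Real.sqrt_le_one.2 hδ1
  set K1 : ℝ := 1 / s0 with hK1
  set K2 : ℝ := (1 + K1) / s0 ^ 2 with hK2
  set K3 : ℝ := (1 + 3 * K2 + K1) / s0 ^ 3 with hK3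
  have hK1p : 0 < K1 := by positivity
  have hK2p : 0 < K2 := by positivity
  have hK3p : 0 < K3 := by positivity
  refine ⟨K1 + K2 + K3, by positivity, ?_⟩
  intro n P x hn hdeg hb hx
  have hn1 : (1 : ℝ) ≤ n := by exact_mod_cast hn
  have hx1 : -1 ≤ x := by linarith [hx.1]
  have hx2 : x ≤ 1 := by linarith [hx.2]
  set θ := arccos x with hθ
  have hcos : cos θ = x := Real.cos_arccos hx1 hx2
  have hsin0 : 0 ≤ sin θ := Real.sin_nonneg_of_nonneg_of_le_pi (arccos_nonneg x) (arccos_le_pi x)
  have hsq : sin θ ^ 2 = 1 - x ^ 2 := by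
    have := Real.sin_sq_add_cos_sq θ; rw [hcos] at this; linarith
  have hsinl : s0 ≤ sin θ := by
    have h1 : s0 ^ 2 ≤ sin θ ^ 2 := by
      rw [hs0sq, hsq]
      nlinarith [hx.1, hx.2, mul_nonneg (sub_nonneg.2 hx.2) (by linarith [hx.1] : (0:ℝ) ≤ x - (-1 + δ))]
    exact (pow_le_pow_iff_left₀ hs0p.le hsin0 (by norm_num)).1 h1
  have hsin1 : sin θ ≤ 1 := Real.sin_le_one θ
  have hTB : TB n (qq P) := hA2.2.1 n P hdeg hb
  obtain ⟨-, h0⟩ := hA2.1 n (qq P) hn hTB
  obtain ⟨-, -, h1, h2, h3⟩ := h0 θ
  have e1 := (hA2.2.2 P θ).1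
  have e2 := (hA2.2.2 P θ).2
  have e3 := k2_third hA2 P θ
  rw [hcos] at e1 e2 e3
  have hxabs : |x| ≤ 1 := abs_le.2 ⟨hx1, hx2⟩
  -- first derivative
  have b1 : |P.derivative.eval x| ≤ K1 * n := by
    rw [e1, abs_neg, abs_mul, abs_of_nonneg hsin0] at h1
    rw [hK1, div_mul_eq_mul_div, one_mul, le_div_iff₀ hs0p]
    calc |P.derivative.eval x| * s0 ≤ |P.derivative.eval x| * sin θ :=
          mul_le_mul_of_nonneg_left hsinl (abs_nonneg _)
      _ = sin θ * |P.derivative.eval x| := by ring
      _ ≤ n := h1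
  have hnn : (n : ℝ) ≤ (n : ℝ) ^ 2 := by nlinarith
  have hnn2 : (n : ℝ) ^ 2 ≤ (n : ℝ) ^ 3 := by nlinarith [mul_nonneg (by positivity : (0:ℝ) ≤ (n:ℝ)^2) (by linarith : (0:ℝ) ≤ (n:ℝ) - 1)]
  have b2 : |P.derivative.derivative.eval x| ≤ K2 * (n : ℝ) ^ 2 := by
    have h4 : sin θ ^ 2 * |P.derivative.derivative.eval x| ≤ (1 + K1) * (n : ℝ) ^ 2 := by
      have h5 : sin θ ^ 2 * P.derivative.derivative.eval x =
          deriv (deriv (qq P)) θ + x * P.derivative.eval x := by rw [e2]; ring
      have h6 : |sin θ ^ 2 * P.derivative.derivative.eval x| ≤ (n : ℝ) ^ 2 + K1 * n := by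
        rw [h5]
        refine (abs_add_le _ _).trans (add_le_add h2 ?_)
        rw [abs_mul]
        calc |x| * |P.derivative.eval x| ≤ 1 * (K1 * n) :=
              mul_le_mul hxabs b1 (abs_nonneg _) (by norm_num)
          _ = K1 * n := one_mul _
      rw [abs_mul, abs_of_nonneg (by positivity : (0:ℝ) ≤ sin θ ^ 2)] at h6
      nlinarith [mul_le_mul_of_nonneg_left hnn hK1p.le]
    rw [hK2, div_mul_eq_mul_div, le_div_iff₀ (by positivity)]
    calc |P.derivative.derivative.eval x| * s0 ^ 2 ≤ |P.derivative.derivative.eval x| * sin θ ^ 2 :=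
          mul_le_mul_of_nonneg_left (pow_le_pow_left₀ hs0p.le hsinl 2) (abs_nonneg _)
      _ = sin θ ^ 2 * |P.derivative.derivative.eval x| := by ring
      _ ≤ _ := h4
  have b3 : |P.derivative.derivative.derivative.eval x| ≤ K3 * (n : ℝ) ^ 3 := by
    have h4 : sin θ ^ 3 * |P.derivative.derivative.derivative.eval x| ≤
        (1 + 3 * K2 + K1) * (n : ℝ) ^ 3 := by
      have h5 : sin θ ^ 3 * P.derivative.derivative.derivative.eval x =
          -deriv (deriv (deriv (qq P))) θ + (3 * (sin θ * x * P.derivative.derivative.eval x) +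
            sin θ * P.derivative.eval x) := by rw [e3]; ring
      have h6 : |sin θ ^ 3 * P.derivative.derivative.derivative.eval x| ≤
          (n : ℝ) ^ 3 + (3 * (K2 * (n : ℝ) ^ 2) + K1 * n) := by
        rw [h5]
        refine (abs_add_le _ _).trans (add_le_add (by rw [abs_neg]; exact h3) ?_)
        refine (abs_add_le _ _).trans (add_le_add ?_ ?_)
        · rw [abs_mul, abs_mul, abs_mul, abs_of_nonneg hsin0,
            abs_of_nonneg (by norm_num : (0:ℝ) ≤ 3)]
          refine mul_le_mul_of_nonneg_left ?_ (by norm_num)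
          calc sin θ * |x| * |P.derivative.derivative.eval x| ≤ 1 * (K2 * (n : ℝ) ^ 2) := by
                refine mul_le_mul ?_ b2 (abs_nonneg _) (by norm_num)
                calc sin θ * |x| ≤ 1 * 1 := mul_le_mul hsin1 hxabs (abs_nonneg _) (by norm_num)
                  _ = 1 := one_mul _
            _ = _ := one_mul _
        · rw [abs_mul, abs_of_nonneg hsin0]
          calc sin θ * |P.derivative.eval x| ≤ 1 * (K1 * n) :=
                mul_le_mul hsin1 b1 (abs_nonneg _) (by norm_num)
            _ = _ := one_mul _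
      rw [abs_mul, abs_of_nonneg (by positivity : (0:ℝ) ≤ sin θ ^ 3)] at h6
      nlinarith [mul_le_mul_of_nonneg_left (hnn.trans hnn2) hK1p.le,
        mul_le_mul_of_nonneg_left hnn2 hK2p.le]
    rw [hK3, div_mul_eq_mul_div, le_div_iff₀ (by positivity)]
    calc |P.derivative.derivative.derivative.eval x| * s0 ^ 3 ≤
          |P.derivative.derivative.derivative.eval x| * sin θ ^ 3 :=
          mul_le_mul_of_nonneg_left (pow_le_pow_left₀ hs0p.le hsinl 3) (abs_nonneg _)
      _ = sin θ ^ 3 * |P.derivative.derivative.derivative.eval x| := by ring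
      _ ≤ _ := h4
  refine ⟨b1.trans ?_, b2.trans ?_, b3.trans ?_⟩
  · exact mul_le_mul_of_nonneg_right (by linarith) (by positivity)
  · exact mul_le_mul_of_nonneg_right (by linarith) (by positivity)
  · exact mul_le_mul_of_nonneg_right (by linarith) (by positivity)

theorem k2 (hA2 : A2) : K2 := by
  intro δ hδ hδ1
  obtain ⟨K, hK, hbd⟩ := k2_bounds hA2 δ hδ hδ1
  refine ⟨8 * K, by positivity, ?_⟩
  intro n P R c x hn hdeg hb hc hx hR
  have hn1 : (1 : ℝ) ≤ n := by exact_mod_cast hn
  have hn0 : (0 : ℝ) < n := by linarith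
  obtain ⟨b1, b2, b3⟩ := hbd n P x hn hdeg hb hx
  -- algebra
  have e1 : P.derivative.eval x = (x - c) * R.eval x := by rw [hR]; simp
  have e2 : P.derivative.derivative.eval x = R.eval x + (x - c) * R.derivative.eval x := by
    rw [hR]; simp
  have e3 : P.derivative.derivative.derivative.eval x =
      2 * R.derivative.eval x + (x - c) * R.derivative.derivative.eval x := by
    rw [hR]; simp; ring
  have e0 : P.derivative.eval c = 0 := by rw [hR]; simp
  have eG : ((1 - X ^ 2) * R).derivative.eval x =
      -(2 * x * R.eval x) + (1 - x ^ 2) * R.derivative.eval x := by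
    have h1 : (derivative (1 - X ^ 2 : ℝ[X])).eval x = -(2 * x) := by
      rw [derivative_sub, derivative_one, derivative_X_pow]
      simp
    have h2 : (1 - X ^ 2 : ℝ[X]).eval x = 1 - x ^ 2 := by simp
    rw [derivative_mul, eval_add, eval_mul, eval_mul, h1, h2]; ring
  have hxabs : |x| ≤ 1 := abs_le.2 ⟨by linarith [hx.1], by linarith [hx.2]⟩
  have hx2 : |1 - x ^ 2| ≤ 1 := by
    rw [abs_le]; constructor <;> nlinarith [sq_abs x, abs_nonneg x, sq_nonneg x]
  have hG : |((1 - X ^ 2) * R).derivative.eval x| ≤ 2 * |R.eval x| + |R.derivative.eval x| := by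
    rw [eG]
    refine (abs_add_le _ _).trans (add_le_add ?_ ?_)
    · rw [abs_neg, abs_mul, abs_mul, abs_of_nonneg (by norm_num : (0:ℝ) ≤ 2)]
      nlinarith [abs_nonneg (R.eval x), mul_le_mul_of_nonneg_right hxabs (abs_nonneg (R.eval x))]
    · rw [abs_mul]
      calc |1 - x ^ 2| * |R.derivative.eval x| ≤ 1 * |R.derivative.eval x| :=
            mul_le_mul_of_nonneg_right hx2 (abs_nonneg _)
        _ = _ := one_mul _
  have hden : 0 < 1 + n * |x - c| := by positivity
  have hnn2 : (n : ℝ) ^ 2 ≤ (n : ℝ) ^ 3 := by nlinarith [mul_nonneg (by positivity : (0:ℝ) ≤ (n:ℝ)^2) (by linarith : (0:ℝ) ≤ (n:ℝ) - 1)]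
  have hnn : (n : ℝ) ≤ (n : ℝ) ^ 2 := by nlinarith
  rw [le_div_iff₀ hden]
  rcases le_total 1 (n * |x - c|) with h | h
  · -- far
    have hpos : 0 < |x - c| := by
      by_contra h0
      have : |x - c| = 0 := le_antisymm (not_lt.1 h0) (abs_nonneg _)
      rw [this, mul_zero] at h; linarith
    have r1 : |x - c| * |R.eval x| ≤ K * n := by rw [← abs_mul, ← e1]; exact b1
    have r2 : |x - c| * |R.derivative.eval x| ≤ K * (n : ℝ) ^ 2 + |R.eval x| := by
      rw [← abs_mul]
      have : (x - c) * R.derivative.eval x = P.derivative.derivative.eval x - R.eval x := by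
        rw [e2]; ring
      rw [this]
      exact (abs_sub _ _).trans (add_le_add b2 le_rfl)
    -- |R| ≤ K n / |x-c| ≤ K n^2
    have r3 : |R.eval x| ≤ K * (n : ℝ) ^ 2 := by
      have h1 : |R.eval x| ≤ n * |x - c| * |R.eval x| := by
        nlinarith [abs_nonneg (R.eval x)]
      calc |R.eval x| ≤ n * (|x - c| * |R.eval x|) := by linarith [h1, mul_assoc (n:ℝ) |x - c| |R.eval x|]
        _ ≤ n * (K * n) := mul_le_mul_of_nonneg_left r1 hn0.le
        _ = K * (n : ℝ) ^ 2 := by ring
    have r4 : |x - c| * |R.derivative.eval x| ≤ 2 * K * (n : ℝ) ^ 2 := by linarith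
    calc |((1 - X ^ 2) * R).derivative.eval x| * (1 + n * |x - c|)
        ≤ (2 * |R.eval x| + |R.derivative.eval x|) * (2 * (n * |x - c|)) := by
          refine mul_le_mul hG (by linarith) hden.le (by positivity)
      _ = 2 * n * (2 * (|x - c| * |R.eval x|) + |x - c| * |R.derivative.eval x|) := by ring
      _ ≤ 2 * n * (2 * (K * n) + 2 * K * (n : ℝ) ^ 2) := by
          refine mul_le_mul_of_nonneg_left (by linarith) (by positivity)
      _ ≤ 8 * K * (n : ℝ) ^ 3 := by nlinarith [mul_le_mul_of_nonneg_left hnn2 hK.le]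
  · -- near
    have r1 : |R.eval x| ≤ K * (n : ℝ) ^ 2 ∧ |R.derivative.eval x| ≤ K * (n : ℝ) ^ 3 := by
      have hseg : Convex ℝ (Icc (-1 + δ) (1 - δ)) := convex_Icc _ _
      rcases eq_or_ne x c with hxc | hxc
      · subst hxc
        simp only [sub_self, zero_mul, add_zero] at e2 e3
        refine ⟨by rw [← e2]; exact b2, ?_⟩
        rw [e3, abs_mul, abs_of_nonneg (by norm_num : (0:ℝ) ≤ 2)] at b3
        linarith [abs_nonneg (R.derivative.eval x)]
      · have hpos : 0 < |x - c| := abs_pos.2 (sub_ne_zero.2 hxc)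
        constructor
        · have h1 : ‖P.derivative.eval x - P.derivative.eval c‖ ≤ K * (n : ℝ) ^ 2 * ‖x - c‖ := by
            refine hseg.norm_image_sub_le_of_norm_hasDerivWithin_le
              (f := fun t => P.derivative.eval t) (f' := fun t => P.derivative.derivative.eval t)
              (fun t _ => (P.derivative.hasDerivAt t).hasDerivWithinAt)
              (fun t ht => (hbd n P t hn hdeg hb ht).2.1) hc hx
          rw [e0, sub_zero, e1, norm_mul, Real.norm_eq_abs, Real.norm_eq_abs] at h1
          have := mul_comm |x - c| |R.eval x|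
          rw [this] at h1
          exact le_of_mul_le_mul_right h1 hpos
        · set C0 : ℝ := K * (n : ℝ) ^ 3 * |x - c| with hC0
          -- segment between x and c
          have hsub : uIcc x c ⊆ Icc (-1 + δ) (1 - δ) := by
            rw [← uIcc_of_le (by linarith [hx.1, hx.2] : (-1 + δ) ≤ 1 - δ)]
            refine uIcc_subset_uIcc ?_ ?_
            · rw [uIcc_of_le (by linarith [hx.1, hx.2])]; exact hx
            · rw [uIcc_of_le (by linarith [hx.1, hx.2])]; exact hc
          have h2 : ∀ t ∈ uIcc x c, |P.derivative.derivative.eval t -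
              P.derivative.derivative.eval x| ≤ C0 := by
            intro t ht
            have h3 : ‖P.derivative.derivative.eval t - P.derivative.derivative.eval x‖ ≤
                K * (n : ℝ) ^ 3 * ‖t - x‖ := by
              refine hseg.norm_image_sub_le_of_norm_hasDerivWithin_le
                (f := fun t => P.derivative.derivative.eval t)
                (f' := fun t => P.derivative.derivative.derivative.eval t)
                (fun t _ => (P.derivative.derivative.hasDerivAt t).hasDerivWithinAt)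
                (fun t ht => (hbd n P t hn hdeg hb ht).2.2) hx (hsub ht)
            rw [Real.norm_eq_abs, Real.norm_eq_abs] at h3
            refine h3.trans (mul_le_mul_of_nonneg_left ?_ (by positivity))
            have := abs_sub_left_of_mem_uIcc ht
            rw [abs_sub_comm x c]; exact this
          have h4 : ‖(P.derivative.eval c - P.derivative.derivative.eval x * c) -
              (P.derivative.eval x - P.derivative.derivative.eval x * x)‖ ≤ C0 * ‖c - x‖ := by
            refine (convex_uIcc x c).norm_image_sub_le_of_norm_hasDerivWithin_le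
              (f := fun t => P.derivative.eval t - P.derivative.derivative.eval x * t)
              (f' := fun t => P.derivative.derivative.eval t -
                P.derivative.derivative.eval x * 1)
              (fun t _ => ((P.derivative.hasDerivAt t).sub
                ((hasDerivAt_id t).const_mul _)).hasDerivWithinAt)
              (fun t ht => by rw [mul_one]; exact h2 t ht) left_mem_uIcc right_mem_uIcc
          have h5 : (P.derivative.eval c - P.derivative.derivative.eval x * c) -
              (P.derivative.eval x - P.derivative.derivative.eval x * x) =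
              (x - c) ^ 2 * R.derivative.eval x := by
            rw [e0, e2, e1]; ring
          rw [h5, norm_mul, Real.norm_eq_abs, Real.norm_eq_abs, Real.norm_eq_abs, abs_pow,
            abs_sub_comm c x, hC0] at h4
          have h6 : |x - c| ^ 2 * |R.derivative.eval x| ≤ |x - c| ^ 2 * (K * (n : ℝ) ^ 3) := by
            calc _ ≤ _ := h4
              _ = _ := by ring
          exact le_of_mul_le_mul_left h6 (by positivity)
    calc |((1 - X ^ 2) * R).derivative.eval x| * (1 + n * |x - c|)
        ≤ (2 * |R.eval x| + |R.derivative.eval x|) * 2 := by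
          refine mul_le_mul hG (by linarith) hden.le (by positivity)
      _ ≤ (2 * (K * (n : ℝ) ^ 2) + K * (n : ℝ) ^ 3) * 2 := by linarith [r1.1, r1.2]
      _ ≤ 8 * K * (n : ℝ) ^ 3 := by nlinarith [mul_le_mul_of_nonneg_left hnn2 hK.le]

end

end Pool.Agent.Helper10.AL
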