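import Pool.Agent.Helper10.AL.St9

/-!
Critical points in windows near `1` are nearly contact points.
-/

set_option autoImplicit false

namespace Pool.Agent.Helper10.AL

open Polynomial Set Real MeasureTheory intervalIntegral
open Pool.Agent.Helper40.AS (arc Bdd Ext quad)

/-- monotonicity -/
lemma nc_mono (G : ℝ[X]) {t x : ℝ} (htx : t ≤ x) (h : ∀ y ∈ Icc t x, 0 ≤ G.derivative.eval y) :
    G.eval t ≤ G.eval x := by
  have hm : MonotoneOn (fun y => G.eval y) (Icc t x) := by
    apply monotoneOn_of_deriv_nonneg (convex_Icc t x) G.continuous.continuousOn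
      G.differentiable.differentiableOn
    intro y hy
    rw [interior_Icc] at hy
    rw [Polynomial.deriv]
    exact h y (Ioo_subset_Icc_self hy)
  exact hm (left_mem_Icc.2 htx) (right_mem_Icc.2 htx) htx

/-- Taylor's formula with a bound for the third derivative -/
lemma nc_taylor (P : ℝ[X]) {t x B : ℝ} (htx : t ≤ x)
    (hB : ∀ y ∈ Icc t x, -B ≤ P.derivative.derivative.derivative.eval y) :
    P.eval t + P.derivative.eval t * (x - t) + P.derivative.derivative.eval t * (x - t) ^ 2 / 2 -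
      B * (x - t) ^ 3 / 6 ≤ P.eval x := by
  have h2 : ∀ y ∈ Icc t x, P.derivative.derivative.eval t - B * (y - t) ≤
      P.derivative.derivative.eval y := by
    intro y hy
    have := nc_mono (P.derivative.derivative + C B * (X - C t)) hy.1 (fun z hz => by
      have h := hB z ⟨hz.1, hz.2.trans hy.2⟩
      simp only [derivative_add, derivative_C_mul, derivative_sub, derivative_X, derivative_C,
        eval_add, eval_mul, eval_C, eval_sub, eval_one, eval_zero, sub_zero, mul_one]
      linarith)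
    simp only [eval_add, eval_mul, eval_C, eval_sub, eval_X, sub_self, mul_zero, add_zero] at this
    linarith
  have h1 : ∀ y ∈ Icc t x, P.derivative.eval t + P.derivative.derivative.eval t * (y - t) -
      B * (y - t) ^ 2 / 2 ≤ P.derivative.eval y := by
    intro y hy
    have := nc_mono (P.derivative - C (P.derivative.derivative.eval t) * (X - C t) +
        C (B / 2) * (X - C t) ^ 2) hy.1 (fun z hz => by
      have h := h2 z ⟨hz.1, hz.2.trans hy.2⟩
      simp only [derivative_add, derivative_C_mul, derivative_sub, derivative_X, derivative_C,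
        derivative_pow, eval_add, eval_mul, eval_C, eval_sub, eval_one, eval_zero, sub_zero,
        mul_one, eval_pow, eval_X]
      norm_num
      linarith)
    simp only [eval_add, eval_mul, eval_C, eval_sub, eval_X, sub_self, mul_zero, add_zero,
      eval_pow, sub_zero, ne_eq, OfNat.ofNat_ne_zero, not_false_eq_true, zero_pow] at this
    linarith
  have := nc_mono (P - C (P.derivative.eval t) * (X - C t) -
      C (P.derivative.derivative.eval t / 2) * (X - C t) ^ 2 + C (B / 6) * (X - C t) ^ 3) htx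
      (fun z hz => by
      have h := h1 z hz
      simp only [derivative_add, derivative_C_mul, derivative_sub, derivative_X, derivative_C,
        derivative_pow, eval_add, eval_mul, eval_C, eval_sub, eval_one, eval_zero, sub_zero,
        mul_one, eval_pow, eval_X]
      norm_num
      linarith)
  simp only [eval_add, eval_mul, eval_C, eval_sub, eval_X, sub_self, mul_zero, add_zero,
    eval_pow, sub_zero, ne_eq, OfNat.ofNat_ne_zero, not_false_eq_true, zero_pow] at this
  linarith

/-- conversion of the window to angles -/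
lemma nc_win {n : ℕ} {K e a b : ℝ} (hK : 0 < K) (hW : Wh n K a b)
    (he : e ≤ (n : ℝ) ^ 2 * (b - a)) :
    n * arccos a ≤ √(5 * K) ∧ e / √(5 * K) ≤ n * (arccos a - arccos b) := by
  obtain ⟨hn, ha, hab, hb, hna⟩ := hW
  have hn' : (1 : ℝ) ≤ n := by exact_mod_cast hn
  have hn0 : (0 : ℝ) < (n : ℝ) := by linarith
  set α := arccos a with hα
  set β := arccos b with hβ
  have hα0 : 0 ≤ α := arccos_nonneg a
  have hαπ : α ≤ π := arccos_le_pi a
  have hβ0 : 0 ≤ β := arccos_nonneg b
  have hcα : cos α = a := cos_arccos (by linarith) (by linarith)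
  have hcβ : cos β = b := cos_arccos (by linarith) (by linarith)
  have hβα : β < α := by
    have := strictAntiOn_arccos (⟨by linarith, by linarith⟩ : a ∈ Icc (-1 : ℝ) 1)
      (⟨by linarith, by linarith⟩ : b ∈ Icc (-1 : ℝ) 1) hab
    exact this
  have hq := Real.cos_le_one_sub_mul_cos_sq (x := α) (by rw [abs_of_nonneg hα0]; exact hαπ)
  rw [hcα] at hq
  have hπ2 : π ^ 2 < 10 := by
    have := Real.pi_lt_d2
    nlinarith [Real.pi_pos]
  have h1 : (n * α) ^ 2 ≤ 5 * K := by
    have h3 : 2 / π ^ 2 * α ^ 2 ≤ 1 - a := by linarith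
    have h4 : α ^ 2 ≤ 5 * (1 - a) := by
      rw [div_mul_eq_mul_div, div_le_iff₀ (by positivity)] at h3
      nlinarith
    calc (n * α) ^ 2 = (n : ℝ) ^ 2 * α ^ 2 := by ring
      _ ≤ (n : ℝ) ^ 2 * (5 * (1 - a)) := mul_le_mul_of_nonneg_left h4 (by positivity)
      _ = 5 * ((n : ℝ) ^ 2 * (1 - a)) := by ring
      _ ≤ 5 * K := by linarith
  have h2 : n * α ≤ √(5 * K) := Real.le_sqrt_of_sq_le h1
  refine ⟨h2, ?_⟩
  have hs : 0 < √(5 * K) := Real.sqrt_pos.2 (by positivity)
  rw [div_le_iff₀ hs]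
  have h5 : b - a ≤ α * (α - β) := by
    rw [← hcα, ← hcβ, Real.cos_sub_cos]
    have h6 : sin ((β + α) / 2) ≤ α := by
      have := Real.sin_le (x := (β + α) / 2) (by linarith)
      linarith
    have h7 : sin ((α - β) / 2) ≤ (α - β) / 2 := Real.sin_le (by linarith)
    have h8 : 0 ≤ sin ((α - β) / 2) :=
      Real.sin_nonneg_of_nonneg_of_le_pi (by linarith) (by linarith)
    have h9 : sin ((β - α) / 2) = -sin ((α - β) / 2) := by
      rw [← Real.sin_neg]; congr 1; ring
    rw [h9]
    calc -2 * sin ((β + α) / 2) * -sin ((α - β) / 2)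
        = 2 * (sin ((β + α) / 2) * sin ((α - β) / 2)) := by ring
      _ ≤ 2 * (α * ((α - β) / 2)) := by
          apply mul_le_mul_of_nonneg_left _ (by norm_num)
          exact mul_le_mul h6 h7 h8 hα0
      _ = α * (α - β) := by ring
  calc e ≤ (n : ℝ) ^ 2 * (b - a) := he
    _ ≤ (n : ℝ) ^ 2 * (α * (α - β)) := mul_le_mul_of_nonneg_left h5 (by positivity)
    _ = (n * (α - β)) * (n * α) := by ring
    _ ≤ (n * (α - β)) * √(5 * K) :=
        mul_le_mul_of_nonneg_left h2 (mul_nonneg hn0.le (by linarith))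

/-- variation and arc length -/
lemma nc_var {a b : ℝ} (hab : a ≤ b) (P : ℝ[X]) :
    Vp P a b ≤ arc a b P ∧ arc a b P ≤ Vp P a b + (b - a) := by
  have hi1 : IntervalIntegrable (fun x => |P.derivative.eval x|) volume a b :=
    (by fun_prop : Continuous fun x => |P.derivative.eval x|).intervalIntegrable _ _
  have hi2 : IntervalIntegrable (fun x => √(1 + (P.derivative.eval x) ^ 2)) volume a b :=
    (by fun_prop : Continuous fun x => √(1 + (P.derivative.eval x) ^ 2)).intervalIntegrable _ _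
  constructor
  · apply intervalIntegral.integral_mono_on hab hi1 hi2
    intro x _
    apply Real.le_sqrt_of_sq_le
    rw [sq_abs]
    linarith
  · have h1 : Vp P a b + (b - a) = ∫ x in a..b, (|P.derivative.eval x| + 1) := by
      rw [intervalIntegral.integral_add hi1 (by simp)]
      simp [Vp]
    rw [h1]
    apply intervalIntegral.integral_mono_on hab hi2
      ((by fun_prop : Continuous fun x => |P.derivative.eval x| + 1).intervalIntegrable _ _)
    intro x _
    rw [Real.sqrt_le_left (by positivity)]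
    have := abs_nonneg (P.derivative.eval x)
    nlinarith [sq_abs (P.derivative.eval x)]

/-- the sign of the second derivative -/
lemma nc_sign {n : ℕ} {M c lam t : ℝ} {P : ℝ[X]} (hMk : Mk) (hn : 1 ≤ n) (hd : P.natDegree ≤ n)
    (hB : Bdd P) (ht0 : 0 ≤ t) (ht1 : t ≤ 1) (hc : 0 < c) (hlam : 0 < lam)
    (hlc : 8 * lam ≤ c) (hle : lam ≤ (n : ℝ) ^ 2 * (1 - t)) (hP1 : P.derivative.eval t = 0)
    (hP2 : c * (n : ℝ) ^ 4 ≤ |P.derivative.derivative.eval t|)
    (hP0 : 1 - M / (n : ℝ) ^ 2 ≤ |P.eval t|) (hnM : 3 * M / (n : ℝ) ^ 2 < c * lam ^ 2)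
    (hnM2 : M / (n : ℝ) ^ 2 < 1) :
    P.eval t * P.derivative.derivative.eval t < 0 := by
  have hn' : (1 : ℝ) ≤ n := by exact_mod_cast hn
  have hn0 : (0 : ℝ) < (n : ℝ) := by linarith
  have hn2 : (0 : ℝ) < (n : ℝ) ^ 2 := by positivity
  by_contra hcon
  rw [not_lt] at hcon
  have hmain : ∀ Q : ℝ[X], Q.natDegree ≤ n → Bdd Q → Q.derivative.eval t = 0 →
      c * (n : ℝ) ^ 4 ≤ Q.derivative.derivative.eval t → 1 - M / (n : ℝ) ^ 2 ≤ Q.eval t →
      False := by
    intro Q hQd hQB hQ1 hQ2 hQ0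
    obtain ⟨hM, -⟩ := hMk n Q hn hQd hQB
    set x := t + lam / (n : ℝ) ^ 2 with hx
    have hx1 : x ≤ 1 := by
      have : lam / (n : ℝ) ^ 2 ≤ 1 - t := by
        rw [div_le_iff₀ hn2]
        linarith
      linarith
    have htx : t ≤ x := by
      have : 0 < lam / (n : ℝ) ^ 2 := by positivity
      linarith
    have hT := nc_taylor Q (t := t) (x := x) (B := 8 * (n : ℝ) ^ 6) htx (fun y hy => by
      have h := hM 3 y ⟨by linarith [hy.1], by linarith [hy.2]⟩
      have h' : (2 * (n : ℝ) ^ 2) ^ 3 = 8 * (n : ℝ) ^ 6 := by ring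
      rw [h'] at h
      exact (abs_le.1 h).1)
    have hxt : x - t = lam / (n : ℝ) ^ 2 := by rw [hx]; ring
    rw [hQ1, hxt] at hT
    have h1 := (abs_le.1 (hQB x ⟨by linarith, hx1⟩)).2
    have e2 : (lam / (n : ℝ) ^ 2) ^ 2 = lam ^ 2 / (n : ℝ) ^ 4 := by
      rw [div_pow]; congr 1; ring
    have e3 : 8 * (n : ℝ) ^ 6 * (lam / (n : ℝ) ^ 2) ^ 3 / 6 = 4 / 3 * lam ^ 3 := by
      field_simp
      ring
    have e4 : c * lam ^ 2 / 2 ≤
        Q.derivative.derivative.eval t * (lam / (n : ℝ) ^ 2) ^ 2 / 2 := by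
      rw [e2]
      have h5 : c * lam ^ 2 = (c * (n : ℝ) ^ 4) * (lam ^ 2 / (n : ℝ) ^ 4) := by
        field_simp
      rw [h5]
      have := mul_le_mul_of_nonneg_right hQ2 (show 0 ≤ lam ^ 2 / (n : ℝ) ^ 4 by positivity)
      linarith
    rw [e3] at hT
    have e5 : 4 / 3 * lam ^ 3 ≤ c * lam ^ 2 / 6 := by
      have := mul_le_mul_of_nonneg_right hlc (show 0 ≤ lam ^ 2 by positivity)
      nlinarith
    have e6 : 3 * M / (n : ℝ) ^ 2 = 3 * (M / (n : ℝ) ^ 2) := by ring
    rw [e6] at hnM
    nlinarith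
  have hPt : 0 < |P.eval t| := by linarith
  have hPd : 0 < |P.derivative.derivative.eval t| :=
    lt_of_lt_of_le (by positivity) hP2
  rcases lt_or_ge 0 (P.eval t) with h0 | h0
  · have h2 : 0 ≤ P.derivative.derivative.eval t := by
      by_contra h
      rw [not_le] at h
      nlinarith
    rw [abs_of_nonneg h2] at hP2
    rw [abs_of_pos h0] at hP0
    exact hmain P hd hB hP1 hP2 hP0
  · have h0' : P.eval t < 0 := lt_of_le_of_ne h0 (fun h => by rw [h] at hPt; simp at hPt)
    have h2 : P.derivative.derivative.eval t ≤ 0 := by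
      by_contra h
      rw [not_le] at h
      nlinarith
    rw [abs_of_nonpos h2] at hP2
    rw [abs_of_neg h0'] at hP0
    refine hmain (-P) (by rw [natDegree_neg]; exact hd) ?_ (by simp [hP1]) (by simpa using hP2)
      (by simpa using hP0)
    intro x hx
    rw [eval_neg, abs_neg]
    exact hB x hx

theorem nc (hMk : Mk) (hNh : Nh) (hTV1 : TV1) : Nc := by
  intro K hK
  obtain ⟨h, c, e, hh, hc, he, n1, hN⟩ := hNh K hK
  have hs : 0 < √(5 * K) := Real.sqrt_pos.2 (by positivity)
  obtain ⟨c', hc', n2, hV⟩ := hTV1 (√(5 * K)) (e / √(5 * K)) h c hs (by positivity) hh hc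
  set lam : ℝ := min e (c / 8) with hlam
  have hlam0 : 0 < lam := lt_min he (by positivity)
  set M : ℝ := K / c' with hM
  have hM0 : 0 < M := by positivity
  obtain ⟨n3, hn3⟩ := exists_nat_gt (max M (3 * M / (c * lam ^ 2)))
  refine ⟨M, hM0, max (max n1 n2) (max n3 1), fun n hn a b t P hW hE ht hP1 => ?_⟩
  have hnn1 : n1 ≤ n := le_trans (le_trans (le_max_left _ _) (le_max_left _ _)) hn
  have hnn2 : n2 ≤ n := le_trans (le_trans (le_max_right _ _) (le_max_left _ _)) hn
  have hnn3 : n3 ≤ n := le_trans (le_trans (le_max_left _ _) (le_max_right _ _)) hn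
  have hn1 : 1 ≤ n := hW.1
  have hn' : (1 : ℝ) ≤ n := by exact_mod_cast hn1
  have hn0 : (0 : ℝ) < (n : ℝ) := by linarith
  have hn2 : (0 : ℝ) < (n : ℝ) ^ 2 := by positivity
  have hnn3' : (n3 : ℝ) ≤ n := by exact_mod_cast hnn3
  have hnsq : (n : ℝ) ≤ (n : ℝ) ^ 2 := by nlinarith
  obtain ⟨hN1, hN2⟩ := hN n hnn1 a b P hW hE
  have hd : P.natDegree ≤ n := natDegree_le_iff_degree_le.2 hE.deg
  have htI : t ∈ Icc a b := Ioo_subset_Icc_self ht
  have ha := hW.2.1
  have hab := hW.2.2.1
  have hb := hW.2.2.2.1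
  have hna := hW.2.2.2.2
  have hbig : e ≤ (n : ℝ) ^ 2 * (b - a) := by
    by_contra hcon
    rw [not_le] at hcon
    have := hN1 hcon.le t htI
    rw [hP1, abs_zero] at this
    have : 0 < h * (n : ℝ) ^ 2 := by positivity
    linarith
  obtain ⟨hw1, hw2⟩ := nc_win hK hW hbig
  obtain ⟨Q, hQd, hQB, hQ⟩ := hV n hnn2 a b t P (by linarith) hab hb hw1 hw2 hd hE.bdd
    (fun x hx hx2 => (hN2 x hx hx2).1) htI hP1
  have hQm : arc a b Q ≤ arc a b P := hE.max Q (natDegree_le_iff_degree_le.1 hQd) hQB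
  have h3 := (nc_var hab.le Q).1
  have h4 := (nc_var hab.le P).2
  have h5 : c' * (1 - |P.eval t|) ≤ 1 - a := by linarith
  have hP0 : 1 - M / (n : ℝ) ^ 2 ≤ |P.eval t| := by
    have h6 : 1 - |P.eval t| ≤ M / (n : ℝ) ^ 2 := by
      rw [le_div_iff₀ hn2, hM, le_div_iff₀ hc']
      calc (1 - |P.eval t|) * (n : ℝ) ^ 2 * c' = (c' * (1 - |P.eval t|)) * (n : ℝ) ^ 2 := by ring
        _ ≤ (1 - a) * (n : ℝ) ^ 2 := mul_le_mul_of_nonneg_right h5 hn2.le
        _ ≤ K := by linarith
    linarith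
  refine ⟨hP0, ?_⟩
  have hPz : |P.derivative.eval t| ≤ h * (n : ℝ) ^ 2 := by
    rw [hP1, abs_zero]; positivity
  obtain ⟨hP2, hte⟩ := hN2 t htI hPz
  have hgt1 : M < n := lt_of_lt_of_le (lt_of_le_of_lt (le_max_left _ _) hn3) hnn3'
  have hgt2 : 3 * M / (c * lam ^ 2) < n :=
    lt_of_lt_of_le (lt_of_le_of_lt (le_max_right _ _) hn3) hnn3'
  refine nc_sign (M := M) (lam := lam) (c := c) hMk hn1 hd hE.bdd (by linarith [ht.1])
    (by linarith [ht.2]) hc hlam0 ?_ ((min_le_left _ _).trans hte) hP1 hP2 hP0 ?_ ?_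
  · have := min_le_right e (c / 8)
    rw [← hlam] at this
    linarith
  · rw [div_lt_iff₀ hn2]
    rw [div_lt_iff₀ (by positivity)] at hgt2
    have : (n : ℝ) * (c * lam ^ 2) ≤ (n : ℝ) ^ 2 * (c * lam ^ 2) :=
      mul_le_mul_of_nonneg_right hnsq (by positivity)
    linarith
  · rw [div_lt_one hn2]
    linarith

end Pool.Agent.Helper10.AL
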