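import Pool.Agent.Helper10.AL.St9

/-!
Arc length of polynomials over windows, large degree: piece Oz.
-/

set_option autoImplicit false

namespace Pool.Agent.Helper10.AL

open Polynomial Set Real MeasureTheory intervalIntegral
open Pool.Agent.Helper40.AS (arc Bdd Ext quad)
open Pool.Agent.Helper40

/-- upper bound for the integrand `g / S` integrated -/
theorem oz_le {a b C : ℝ} (hab : a ≤ b) (hC : 0 ≤ C) (P : ℝ[X]) {g : ℝ → ℝ}
    (hg : ∀ x ∈ Icc a b, g x ≤ C) (hgc : ContinuousOn g (Icc a b)) :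
    (∫ x in a..b, g x / √(1 + P.derivative.eval x ^ 2)) ≤ C * (b - a) := by
  have hi : IntervalIntegrable (fun x => g x / √(1 + P.derivative.eval x ^ 2)) volume a b := by
    apply ContinuousOn.intervalIntegrable
    rw [uIcc_of_le hab]
    exact hgc.div (AS.cont_s P).continuousOn (fun x _ => (AS.s_pos P x).ne')
  have h1 : (∫ x in a..b, g x / √(1 + P.derivative.eval x ^ 2)) ≤ ∫ _ in a..b, C := by
    refine integral_mono_on hab hi (by simp) ?_
    intro x hx
    have h1 := hg x hx
    have h2 := AS.one_le_s P x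
    rw [div_le_iff₀ (by linarith)]
    nlinarith
  rw [intervalIntegral.integral_const, smul_eq_mul] at h1
  linarith

theorem oz_S {P : ℝ[X]} {x : ℝ} :
    |P.derivative.eval x| ≤ √(1 + P.derivative.eval x ^ 2) ∧
      √(1 + P.derivative.eval x ^ 2) ≤ 1 + |P.derivative.eval x| := by
  constructor
  · apply Real.le_sqrt_of_sq_le
    rw [sq_abs]
    linarith
  · rw [Real.sqrt_le_left (by positivity)]
    nlinarith [abs_nonneg (P.derivative.eval x), sq_abs (P.derivative.eval x)]

/-- the total variation of `(1 - x ^ 2) / (x - y)` -/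
theorem oz_q {a b y : ℝ} (ha : 1 / 2 ≤ a) (hab : a < b) (hb : b < 1) (hy : 1 ≤ |y|) (P : ℝ[X]) :
    |∫ x in a..b, ((-2 * x * (x - y) - (1 - x ^ 2)) / (x - y) ^ 2) /
      √(1 + P.derivative.eval x ^ 2)| ≤ 3 * ((1 - a) / |a - y|) := by
  obtain ⟨σ, hσ, hσy⟩ : ∃ σ : ℝ, (σ = 1 ∨ σ = -1) ∧ ∀ x ∈ Icc a b, 0 < σ * (y - x) ∧
      0 ≤ σ * (y - 1) := by
    rcases le_abs.1 hy with h | h
    · exact ⟨1, Or.inl rfl, fun x hx => ⟨by linarith [hx.2], by linarith⟩⟩
    · exact ⟨-1, Or.inr rfl, fun x hx => ⟨by linarith [hx.1], by linarith⟩⟩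
  have hσ2 : σ * σ = 1 := by rcases hσ with h | h <;> rw [h] <;> norm_num
  have hne : ∀ x ∈ Icc a b, y - x ≠ 0 := fun x hx h0 => by
    have := (hσy x hx).1
    rw [h0, mul_zero] at this
    exact lt_irrefl _ this
  have habs : |a - y| = σ * (y - a) := by
    have h1 := (hσy a ⟨le_refl _, hab.le⟩).1
    rcases hσ with h | h
    · rw [h] at h1 ⊢
      rw [abs_of_neg (by linarith)]
      ring
    · rw [h] at h1 ⊢
      rw [abs_of_pos (by linarith)]
      ring
  -- the function `r`
  have hr : ∀ x ∈ Icc a b, HasDerivAt (fun x => σ * ((1 - x) / (y - x)))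
      (-(σ * ((y - 1) / (y - x) ^ 2))) x := by
    intro x hx
    have h1 : HasDerivAt (fun x : ℝ => 1 - x) (-1) x := by
      simpa using (hasDerivAt_id x).const_sub 1
    have h2 : HasDerivAt (fun x : ℝ => y - x) (-1) x := by
      simpa using (hasDerivAt_id x).const_sub y
    have h3 := (h1.div h2 (hne x hx)).const_mul σ
    have h4 : σ * ((-1 * (y - x) - (1 - x) * -1) / (y - x) ^ 2) =
        -(σ * ((y - 1) / (y - x) ^ 2)) := by
      ring
    rw [h4] at h3
    exact h3
  have hc2 : ContinuousOn (fun x : ℝ => (y - x) ^ 2) (Icc a b) := by fun_prop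
  have hcont : ContinuousOn (fun x => -(σ * ((y - 1) / (y - x) ^ 2))) (Icc a b) :=
    (continuousOn_const.mul (continuousOn_const.div hc2
      (fun x hx => pow_ne_zero 2 (hne x hx)))).neg
  have hint : IntervalIntegrable (fun x => -(σ * ((y - 1) / (y - x) ^ 2))) volume a b := by
    apply ContinuousOn.intervalIntegrable
    rw [uIcc_of_le hab.le]
    exact hcont
  have hftc := integral_eq_sub_of_hasDerivAt (a := a) (b := b)
    (f := fun x => σ * ((1 - x) / (y - x))) (f' := fun x => -(σ * ((y - 1) / (y - x) ^ 2)))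
    (by rw [uIcc_of_le hab.le]; exact hr) hint
  -- the constant
  set A : ℝ := σ * ((1 - a) / (y - a)) with hA
  have hAeq : (1 - a) / |a - y| = A := by
    rw [habs, hA]
    have h1 := (hσy a ⟨le_refl _, hab.le⟩).1
    have h2 := hne a ⟨le_refl _, hab.le⟩
    rw [div_eq_iff h1.ne']
    have : σ * ((1 - a) / (y - a)) * (σ * (y - a)) = (σ * σ) * ((1 - a) / (y - a) * (y - a)) := by
      ring
    rw [this, hσ2, div_mul_cancel₀ _ h2, one_mul]
  have hA0 : 0 ≤ A := by
    rw [← hAeq]
    exact div_nonneg (by linarith) (abs_nonneg _)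
  have hB0 : 0 ≤ σ * ((1 - b) / (y - b)) := by
    have h1 := (hσy b ⟨hab.le, le_refl _⟩).1
    have h2 : σ * ((1 - b) / (y - b)) = (1 - b) * (σ * (y - b)) / (y - b) ^ 2 := by
      have := hne b ⟨hab.le, le_refl _⟩
      field_simp
    rw [h2]
    exact div_nonneg (mul_nonneg (by linarith) h1.le) (sq_nonneg _)
  -- pointwise bound
  have hpt : ∀ x ∈ Icc a b, |(-2 * x * (x - y) - (1 - x ^ 2)) / (x - y) ^ 2| ≤
      A + -2 * (-(σ * ((y - 1) / (y - x) ^ 2))) := by
    intro x hx
    have hx1 := (hσy x hx).1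
    have hx2 := (hσy x hx).2
    have hxne := hne x hx
    have ha1 := (hσy a ⟨le_refl _, hab.le⟩).1
    have hane := hne a ⟨le_refl _, hab.le⟩
    have e1 : (-2 * x * (x - y) - (1 - x ^ 2)) / (x - y) ^ 2 =
        -((1 - x) / (y - x)) + (1 + x) * ((y - 1) / (y - x) ^ 2) := by
      rw [show (x - y) ^ 2 = (y - x) ^ 2 by ring]
      field_simp
      ring
    have hpos2 : 0 ≤ σ * ((y - 1) / (y - x) ^ 2) := by
      rw [← mul_div_assoc]
      exact div_nonneg hx2 (sq_nonneg _)
    have hr0 : 0 ≤ σ * ((1 - x) / (y - x)) := by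
      have h2 : σ * ((1 - x) / (y - x)) = (1 - x) * (σ * (y - x)) / (y - x) ^ 2 := by
        field_simp
      rw [h2]
      exact div_nonneg (mul_nonneg (by linarith [hx.2]) hx1.le) (sq_nonneg _)
    have hrA : σ * ((1 - x) / (y - x)) ≤ A := by
      have h2 : A - σ * ((1 - x) / (y - x)) =
          (x - a) * (σ * (y - 1)) / ((y - a) * (y - x)) := by
        rw [hA]
        field_simp
        ring
      have h3 : 0 < (y - a) * (y - x) := by
        have := mul_pos ha1 hx1
        have h4 : σ * (y - a) * (σ * (y - x)) = (σ * σ) * ((y - a) * (y - x)) := by ring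
        rw [h4, hσ2, one_mul] at this
        exact this
      have h4 : 0 ≤ A - σ * ((1 - x) / (y - x)) := by
        rw [h2]
        exact div_nonneg (mul_nonneg (by linarith [hx.1]) hx2) h3.le
      linarith
    have habs2 : ∀ z : ℝ, 0 ≤ σ * z → |z| = σ * z := by
      intro z hz
      rcases hσ with h | h
      · rw [h] at hz ⊢
        rw [abs_of_nonneg (by linarith)]
        ring
      · rw [h] at hz ⊢
        rw [abs_of_nonpos (by linarith)]
        ring
    rw [e1]
    refine (abs_add_le _ _).trans ?_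
    rw [abs_neg, abs_mul, habs2 _ hr0, habs2 _ hpos2,
      abs_of_nonneg (show (0 : ℝ) ≤ 1 + x by linarith [hx.1])]
    nlinarith [hx.2]
  have hmain : ∀ x ∈ Ioc a b, ‖((-2 * x * (x - y) - (1 - x ^ 2)) / (x - y) ^ 2) /
      √(1 + P.derivative.eval x ^ 2)‖ ≤ A + -2 * (-(σ * ((y - 1) / (y - x) ^ 2))) := by
    intro x hx
    have h1 := hpt x ⟨hx.1.le, hx.2⟩
    have h2 := AS.one_le_s P x
    rw [norm_div, Real.norm_eq_abs, Real.norm_eq_abs,
      abs_of_pos (show 0 < √(1 + P.derivative.eval x ^ 2) by linarith)]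
    exact (div_le_self (abs_nonneg _) h2).trans h1
  have h5 := intervalIntegral.norm_integral_le_of_norm_le (a := a) (b := b) hab.le
    (MeasureTheory.ae_of_all volume hmain)
    (IntervalIntegrable.add (by simp) (hint.const_mul (-2)))
  rw [intervalIntegral.integral_add (by simp) (hint.const_mul (-2)),
    intervalIntegral.integral_const, intervalIntegral.integral_const_mul, hftc,
    Real.norm_eq_abs, smul_eq_mul] at h5
  rw [hAeq]
  refine h5.trans ?_
  nlinarith

theorem oz (hG0 : G0) (hX1 : X1) : Oz := by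
  intro K c hK hc
  refine ⟨c / (16 * K), by positivity, ⌈40 * K / c⌉₊ + 1, fun n hn a b P hW h hPa hPb => ?_⟩
  obtain ⟨hn1, ha, hab, hb, hKa⟩ := hW
  have hnd : P.natDegree ≤ n := natDegree_le_of_degree_le h.deg
  have hnr : (1 : ℝ) ≤ n := by exact_mod_cast hn1
  have hn0 : 40 * K / c + 1 ≤ (n : ℝ) := by
    have h1 := Nat.le_ceil (40 * K / c)
    have h2 : ((⌈40 * K / c⌉₊ + 1 : ℕ) : ℝ) ≤ n := by exact_mod_cast hn
    push_cast at h2
    linarith
  have hnsq : 40 * K ≤ c * (n : ℝ) ^ 2 := by
    have h1 : 40 * K / c ≤ (n : ℝ) ^ 2 := by nlinarith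
    rw [div_le_iff₀ hc] at h1
    linarith
  have hn2 : (0 : ℝ) < (n : ℝ) ^ 2 := by positivity
  set Sa : ℝ := √(1 + P.derivative.eval a ^ 2) with hSa
  set Sb : ℝ := √(1 + P.derivative.eval b ^ 2) with hSb
  have hSa1 : 1 ≤ Sa := AS.one_le_s P a
  have hSb1 : 1 ≤ Sb := AS.one_le_s P b
  have hSa2 : Sa ≤ 1 + c / (16 * K) * (n : ℝ) ^ 2 := by
    have := (oz_S (P := P) (x := a)).2
    linarith
  have hb2 : 0 < 1 - b ^ 2 := by nlinarith
  have hcb : c ≤ (1 - b ^ 2) * Sb := by
    have h1 := (oz_S (P := P) (x := b)).1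
    have h2 := mul_le_mul_of_nonneg_left h1 hb2.le
    linarith
  -- the main quantity: `(1 - a) Sa` is small
  have h1a : (1 - a) ≤ c / 40 := by
    have : (n : ℝ) ^ 2 * (1 - a) ≤ (n : ℝ) ^ 2 * (c / 40) := by linarith
    exact le_of_mul_le_mul_left this hn2
  have haS : (1 - a) * Sa ≤ c / 40 + c / 16 := by
    have h2 : (1 - a) * Sa ≤ (1 - a) * (1 + c / (16 * K) * (n : ℝ) ^ 2) :=
      mul_le_mul_of_nonneg_left hSa2 (by linarith)
    have h3 : (1 - a) * (c / (16 * K) * (n : ℝ) ^ 2) ≤ c / 16 := by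
      have h4 : (1 - a) * (c / (16 * K) * (n : ℝ) ^ 2) =
          c / (16 * K) * ((n : ℝ) ^ 2 * (1 - a)) := by ring
      rw [h4]
      calc c / (16 * K) * ((n : ℝ) ^ 2 * (1 - a)) ≤ c / (16 * K) * K :=
            mul_le_mul_of_nonneg_left hKa (by positivity)
        _ = c / 16 := by field_simp
    linarith
  have hint : ∀ x ∈ Ioo (-1 : ℝ) 1, |P.eval x| = 1 → P.derivative.eval x = 0 :=
    fun x hx h1 => AS.contact_int h.bdd hx h1
  have h1one : ∀ x ∈ Icc a b, (1 : ℝ[X]).eval x ≠ 0 := fun x _ => by simp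
  refine ⟨?_, ?_, ?_, ?_⟩
  · -- the degree
    by_contra hlt
    have key := hG0 n a b P 1 P.derivative 1 hn1 (by linarith) hab hb.le h (by rw [one_mul])
      hint (by simp; omega) h1one
    simp only [eval_one, mul_one, div_one, one_pow, derivative_one, eval_zero, mul_zero,
      sub_zero] at key
    have h2 : (∫ x in a..b, (1 - X ^ 2 : ℝ[X]).derivative.eval x /
        √(1 + P.derivative.eval x ^ 2)) ≤ 0 * (b - a) := by
      refine oz_le hab.le (le_refl _) P ?_ (by fun_prop)
      intro x hx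
      simp
      linarith [hx.1]
    rw [key.symm] at h2
    rw [← hSa, ← hSb] at h2
    nlinarith
  · -- the value at `1`
    by_contra hne
    have key := hX1 n a b P 1 P.derivative (1 + X) hn1 (by linarith) hab hb.le h (by rw [one_mul])
      (by
        have : (1 + X : ℝ[X]).natDegree ≤ 1 := by
          refine (natDegree_add_le _ _).trans ?_
          simp
        rw [natDegree_one]
        omega) hint (fun h1 => absurd h1 hne) (fun _ => by simp) h1one
    simp only [eval_one, mul_one, div_one, one_pow, derivative_one, eval_zero, mul_zero,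
      sub_zero] at key
    have h2 : (∫ x in a..b, (1 + X : ℝ[X]).derivative.eval x /
        √(1 + P.derivative.eval x ^ 2)) ≤ 1 * (b - a) := by
      refine oz_le hab.le (by norm_num) P ?_ (by fun_prop)
      intro x hx
      simp
    rw [key.symm] at h2
    rw [← hSa, ← hSb] at h2
    simp only [eval_add, eval_one, eval_X] at h2
    have h3 : (1 - b ^ 2) * Sb ≤ (1 - a) * ((1 + a) * Sa + (b - a)) := by
      have h4 : (1 + b) * Sb ≤ (1 + a) * Sa + (b - a) := by linarith
      have h5 : (1 - b ^ 2) * Sb = (1 - b) * ((1 + b) * Sb) := by ring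
      rw [h5]
      have h6 : 0 ≤ (1 + b) * Sb := by
        apply mul_nonneg <;> linarith
      calc (1 - b) * ((1 + b) * Sb) ≤ (1 - a) * ((1 + b) * Sb) :=
            mul_le_mul_of_nonneg_right (by linarith) h6
        _ ≤ (1 - a) * ((1 + a) * Sa + (b - a)) :=
            mul_le_mul_of_nonneg_left h4 (by linarith)
    nlinarith
  · -- the value at `-1`
    by_contra hne
    have key := hX1 n a b P 1 P.derivative (1 - X) hn1 (by linarith) hab hb.le h (by rw [one_mul])
      (by
        have : (1 - X : ℝ[X]).natDegree ≤ 1 := by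
          refine (natDegree_sub_le _ _).trans ?_
          simp
        rw [natDegree_one]
        omega) hint (fun _ => by simp) (fun h1 => absurd h1 hne) h1one
    simp only [eval_one, mul_one, div_one, one_pow, derivative_one, eval_zero, mul_zero,
      sub_zero] at key
    have h2 : (∫ x in a..b, (1 - X : ℝ[X]).derivative.eval x /
        √(1 + P.derivative.eval x ^ 2)) ≤ 0 * (b - a) := by
      refine oz_le hab.le (le_refl _) P ?_ (by fun_prop)
      intro x hx
      simp
    rw [key.symm] at h2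
    rw [← hSa, ← hSb] at h2
    simp only [eval_sub, eval_one, eval_X] at h2
    have h3 : (1 - b ^ 2) * Sb ≤ 2 * ((1 - a) * Sa) := by
      have h4 : (1 - b) * Sb ≤ (1 - a) * Sa := by linarith
      have h5 : (1 - b ^ 2) * Sb = (1 + b) * ((1 - b) * Sb) := by ring
      rw [h5]
      have h6 : 0 ≤ (1 - b) * Sb := by
        apply mul_nonneg <;> linarith
      nlinarith
    linarith
  · -- no critical points outside
    intro y hy hPy
    obtain ⟨R, hR⟩ := dvd_iff_isRoot.2 hPy
    have hxy : ∀ x : ℝ, -1 < x → x < 1 → x - y ≠ 0 := by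
      intro x hx1 hx2 h0
      have h1 : |y| < 1 := by
        rw [← sub_eq_zero.1 h0]
        exact abs_lt.2 ⟨hx1, hx2⟩
      linarith
    have key := hG0 n a b P (X - C y) R 1 hn1 (by linarith) hab hb.le h hR
      (fun x hx hx1 => by
        have h1 := hint x hx hx1
        rw [hR, eval_mul, eval_sub, eval_X, eval_C] at h1
        exact (mul_eq_zero.1 h1).resolve_left (hxy x hx.1 hx.2))
      (by rw [natDegree_one, natDegree_X_sub_C]; omega)
      (fun x hx => by
        rw [eval_sub, eval_X, eval_C]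
        exact hxy x (by linarith [hx.1]) (by linarith [hx.2]))
    have hq := oz_q ha hab hb hy P
    have heq : (∫ x in a..b, ((((1 - X ^ 2) * (1 : ℝ[X])).derivative.eval x * (X - C y).eval x -
        ((1 - x ^ 2) * (1 : ℝ[X]).eval x) * (X - C y).derivative.eval x) / (X - C y).eval x ^ 2) /
        √(1 + P.derivative.eval x ^ 2)) =
        ∫ x in a..b, ((-2 * x * (x - y) - (1 - x ^ 2)) / (x - y) ^ 2) /
          √(1 + P.derivative.eval x ^ 2) := by
      refine integral_congr fun x _ => ?_
      simp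
      norm_num
    rw [heq] at key
    rw [← hSa, ← hSb] at key
    simp only [eval_one, mul_one, eval_sub, eval_X, eval_C] at key
    rw [← key] at hq
    have hay : 0 < |a - y| := abs_pos.2 (hxy a (by linarith) (by linarith))
    have hby : 0 < |b - y| := abs_pos.2 (hxy b (by linarith) hb)
    have hba : |b - y| ≤ 2 * |a - y| := by
      rcases le_abs.1 hy with h1 | h1
      · rw [abs_of_neg (by linarith), abs_of_neg (by linarith)]
        linarith
      · rw [abs_of_pos (by linarith), abs_of_pos (by linarith)]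
        linarith
    have h5 : |(1 - b ^ 2) / (b - y) * Sb| ≤
        |(1 - a ^ 2) / (a - y) * Sa| + 3 * ((1 - a) / |a - y|) := by
      have := abs_sub_abs_le_abs_sub ((1 - b ^ 2) / (b - y) * Sb) ((1 - a ^ 2) / (a - y) * Sa)
      linarith
    have ha2 : 0 < 1 - a ^ 2 := by nlinarith
    rw [abs_mul, abs_mul, abs_div, abs_div, abs_of_pos hb2, abs_of_pos ha2,
      abs_of_pos (show 0 < Sa by linarith), abs_of_pos (show 0 < Sb by linarith)] at h5
    have h6 : (1 - b ^ 2) * Sb ≤ |b - y| * (((1 - a ^ 2) * Sa + 3 * (1 - a)) / |a - y|) := by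
      have h7 : (1 - b ^ 2) / |b - y| * Sb ≤ ((1 - a ^ 2) * Sa + 3 * (1 - a)) / |a - y| := by
        refine h5.trans (le_of_eq ?_)
        ring
      have h8 := mul_le_mul_of_nonneg_left h7 hby.le
      have h9 : |b - y| * ((1 - b ^ 2) / |b - y| * Sb) = (1 - b ^ 2) * Sb := by
        field_simp
      rw [h9] at h8
      exact h8
    have h7 : |b - y| * (((1 - a ^ 2) * Sa + 3 * (1 - a)) / |a - y|) ≤
        2 * ((1 - a ^ 2) * Sa + 3 * (1 - a)) := by
      have h8 : 0 ≤ ((1 - a ^ 2) * Sa + 3 * (1 - a)) / |a - y| := by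
        apply div_nonneg _ hay.le
        have : 0 ≤ (1 - a ^ 2) * Sa := mul_nonneg ha2.le (by linarith)
        linarith
      calc |b - y| * (((1 - a ^ 2) * Sa + 3 * (1 - a)) / |a - y|)
          ≤ (2 * |a - y|) * (((1 - a ^ 2) * Sa + 3 * (1 - a)) / |a - y|) :=
            mul_le_mul_of_nonneg_right hba h8
        _ = 2 * ((1 - a ^ 2) * Sa + 3 * (1 - a)) := by
            field_simp
    have h8 : (1 - a ^ 2) * Sa ≤ 2 * ((1 - a) * Sa) := by
      have h9 : (1 - a ^ 2) * Sa = (1 + a) * ((1 - a) * Sa) := by ring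
      rw [h9]
      have h10 : 0 ≤ (1 - a) * Sa := mul_nonneg (by linarith) (by linarith)
      nlinarith
    linarith

end Pool.Agent.Helper10.AL
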