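import Pool.Agent.Helper10.AL.St4

/-!
Arc length of polynomials over windows of arbitrary length, large degree: piece S4.
-/

set_option autoImplicit false

namespace Pool.Agent.Helper10.AL

open Polynomial Set Real MeasureTheory intervalIntegral
open Pool.Agent.Helper40.AS (arc Bdd Ext)

noncomputable section

/-- `x cos x ≤ sin x` on `(0, π)` -/
theorem s4_cos {x : ℝ} (h0 : 0 < x) (h1 : x < π) : cos x ≤ sin x / x := by
  rw [le_div_iff₀ h0]
  have hs : 0 < sin x := Real.sin_pos_of_pos_of_lt_pi h0 h1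
  rcases le_or_gt (π / 2) x with h | h
  · have hc : cos x ≤ 0 := Real.cos_nonpos_of_pi_div_two_le_of_le h (by linarith)
    nlinarith
  · have hc : 0 < cos x := Real.cos_pos_of_mem_Ioo ⟨by linarith, h⟩
    have ht := Real.lt_tan h0 h
    rw [Real.tan_eq_sin_div_cos, lt_div_iff₀ hc] at ht
    linarith

/-- the kernel of the first order condition -/
theorem s4_ker {x y : ℝ} (hx : 0 < x) (hxy : x < y) (hy : y < π) :
    sin y / (cos x - cos y) ≤ 1 / (y - x) + 1 / y := by
  set A : ℝ := (y - x) / 2 with hA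
  set B : ℝ := (y + x) / 2 with hB
  have hA0 : 0 < A := by rw [hA]; linarith
  have hB0 : 0 < B := by rw [hB]; linarith
  have hAp : A < π := by rw [hA]; linarith
  have hBp : B < π := by rw [hB]; linarith
  have hsA : 0 < sin A := Real.sin_pos_of_pos_of_lt_pi hA0 hAp
  have hsB : 0 < sin B := Real.sin_pos_of_pos_of_lt_pi hB0 hBp
  have ey : y = A + B := by rw [hA, hB]; ring
  have ex : x = B - A := by rw [hA, hB]; ring
  have hd : cos x - cos y = 2 * (sin A * sin B) := by
    rw [ex, ey, Real.cos_sub, Real.cos_add]; ring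
  have hs : sin y = sin A * cos B + cos A * sin B := by rw [ey, Real.sin_add]
  rw [hd, div_le_iff₀ (by positivity), hs]
  have h1 := s4_cos hA0 hAp
  have h2 := s4_cos hB0 hBp
  have h3 : sin A * cos B + cos A * sin B ≤ sin A * (sin B / B) + sin A / A * sin B :=
    add_le_add (mul_le_mul_of_nonneg_left h2 hsA.le) (mul_le_mul_of_nonneg_right h1 hsB.le)
  refine h3.trans ?_
  have h4 : y - x = 2 * A := by rw [hA]; ring
  have h5 : 1 / (2 * B) ≤ 1 / y := by
    apply one_div_le_one_div_of_le (by linarith) (by rw [hB]; linarith)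
  have h6 : sin A * (sin B / B) + sin A / A * sin B =
      (1 / (2 * A) + 1 / (2 * B)) * (2 * (sin A * sin B)) := by field_simp; ring
  rw [h6, h4]
  exact mul_le_mul_of_nonneg_right (by linarith) (by positivity)

/-- the weights -/
theorem s4_m {τ v : ℝ} (hτ : 0 < τ) (h1 : v ≤ 1) (h2 : τ ≤ π / 2 → v ≤ sin τ) :
    v / τ ≤ 1 ∧ (1 / 4 ≤ τ → v / τ ≤ 0.991) := by
  have hpi : 3.14 < π := Real.pi_gt_d2
  rcases le_or_gt τ (π / 2) with h | h
  · have h3 := h2 h
    constructor
    · rw [div_le_one hτ]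
      exact h3.trans (Real.sin_le hτ.le)
    · intro h4
      rw [div_le_iff₀ hτ]
      refine h3.trans ?_
      -- concavity
      have hm0 : (0 : ℝ) ∈ Icc 0 π := ⟨le_refl _, Real.pi_pos.le⟩
      have hmt : τ ∈ Icc 0 π := ⟨hτ.le, by linarith⟩
      have hw0 : 0 ≤ 1 - 1 / 4 / τ := by rw [sub_nonneg, div_le_one hτ]; exact h4
      have hw1 : 0 ≤ 1 / 4 / τ := by positivity
      have hc := strictConcaveOn_sin_Icc.concaveOn.2 hm0 hmt hw0 hw1 (by ring)
      simp only [smul_eq_mul, mul_zero, zero_add, Real.sin_zero] at hc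
      have e : 1 / 4 / τ * τ = 1 / 4 := by field_simp
      rw [e] at hc
      have hs : sin (1 / 4) ≤ 0.2477 := by
        have hb := Real.sin_bound (x := 1 / 4) (by rw [abs_of_pos (by norm_num)]; norm_num)
        rw [abs_of_pos (by norm_num : (0 : ℝ) < 1 / 4)] at hb
        have := (abs_le.1 hb).2
        norm_num at this ⊢
        linarith
      have h5 : 1 / 4 / τ * sin τ * τ ≤ 0.2477 * τ := mul_le_mul_of_nonneg_right (hc.trans hs) hτ.le
      have h6 : 1 / 4 / τ * sin τ * τ = 1 / 4 * sin τ := by field_simp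
      rw [h6] at h5
      linarith
  · constructor
    · rw [div_le_one hτ]; linarith
    · intro _
      rw [div_le_iff₀ hτ]; linarith

/-- logarithms are small -/
theorem s4_log (K : ℝ) (hK : 0 < K) : ∃ n0 : ℕ, ∀ n ≥ n0, K * (1 + Real.log n) ≤ 0.001 * n := by
  have h1 : Filter.Tendsto (fun x : ℝ => Real.log x / x) Filter.atTop (nhds 0) := by
    have := Real.isLittleO_log_id_atTop.tendsto_div_nhds_zero
    exact this
  have h2 : Filter.Tendsto (fun n : ℕ => K * (1 / (n : ℝ) + Real.log n / n)) Filter.atTop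
      (nhds (K * (0 + 0))) := by
    refine Filter.Tendsto.const_mul _ (Filter.Tendsto.add ?_ ?_)
    · exact tendsto_one_div_atTop_nhds_zero_nat
    · exact h1.comp tendsto_natCast_atTop_atTop
  rw [add_zero, mul_zero] at h2
  have h3 := (h2.eventually (gt_mem_nhds (by norm_num : (0 : ℝ) < 0.001))).and
    (Filter.eventually_ge_atTop 1)
  obtain ⟨n0, hn0⟩ := Filter.eventually_atTop.1 h3
  refine ⟨n0, fun n hn => ?_⟩
  obtain ⟨h4, h5⟩ := hn0 n hn
  have h6 : (0 : ℝ) < n := by exact_mod_cast h5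
  have h7 : K * (1 + Real.log n) = K * (1 / (n : ℝ) + Real.log n / n) * n := by field_simp
  rw [h7]
  exact mul_le_mul_of_nonneg_right h4.le h6.le

theorem s4 (hA1 : A1) (hA2 : A2) (hA3 : A3) (hB5 : B5) (hC1 : C1) (hK3u : K3u) (hS2 : S2)
    (hS3 : S3) (hVF6 : VF6) (hVMf : VMf) : S4 := by
  clear hA1 hB5 hC1 hS2 hVF6 hVMf
  intro δ K1 hδ hδ4 hK1
  obtain ⟨n1, hn1⟩ := hS3 δ K1 (1 / 10 ^ 7) hδ hδ4 hK1 (by norm_num)
  obtain ⟨K, hK, hK3⟩ := hK3u
  obtain ⟨n2, hn2⟩ := s4_log K hK
  refine ⟨max (max n1 n2) (max 2 ⌈2000 / √δ⌉₊), ?_⟩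
  intro n hn a b θ P hM hE hl hθ hq
  have hna : n1 ≤ n := le_trans (le_trans (le_max_left _ _) (le_max_left _ _)) hn
  have hnb : n2 ≤ n := le_trans (le_trans (le_max_right _ _) (le_max_left _ _)) hn
  have hnc : 2 ≤ n := le_trans (le_trans (le_max_left _ _) (le_max_right _ _)) hn
  have hnd : 2000 / √δ ≤ n := by
    refine (Nat.le_ceil _).trans ?_
    exact_mod_cast le_trans (le_trans (le_max_right _ _) (le_max_right _ _)) hn
  have hn0 : (0 : ℝ) < n := by
    have : 0 < n := by omega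
    exact_mod_cast this
  have hlog := hn2 n hnb
  obtain ⟨hs3, hs3'⟩ := hn1 n hna a b P hM hE hl
  obtain ⟨hMa, hMab, hMb⟩ := hM
  have hsd : 0 < √δ := Real.sqrt_pos.2 hδ
  have ha1 : -1 < a := by linarith
  have ha2 : a < 1 := by linarith
  have hb1 : -1 < b := by linarith
  have hb2 : b < 1 := by linarith
  set α := arccos a with hα
  set β := arccos b with hβ
  have hca : cos α = a := Real.cos_arccos ha1.le ha2.le
  have hcb : cos β = b := Real.cos_arccos hb1.le hb2.le
  have hαπ : α < π := by rw [hα]; exact Real.arccos_lt_pi.2 ha1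
  have hβ0 : 0 < β := by rw [hβ]; exact Real.arccos_pos.2 hb2
  by_contra hne
  -- short windows
  rcases le_or_gt (n * (α - β)) (1 / 2) with hsh | hlg
  · have := hs3' hsh θ ⟨hθ.1.le, hθ.2.le⟩
    rw [hq, abs_zero] at this
    linarith
  -- non-degeneracy
  have hND : ND n (qq P) (β + 0 / n) (α - 0 / n) := by
    intro t ht h1
    rw [zero_div, add_zero, sub_zero] at ht
    have h2 := hs3 t ht
    have h3 : deriv (qq P) t ^ 2 ≤ ((n : ℝ) / 1000) ^ 2 := by
      rw [← sq_abs]; exact pow_le_pow_left₀ (abs_nonneg _) h1 2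
    have h4 : ((n : ℝ) ^ 2 / 1000) ^ 2 ≤ |deriv (deriv (qq P)) t| ^ 2 := by
      rw [sq_abs]
      have h5 : (n : ℝ) ^ 2 * deriv (qq P) t ^ 2 ≤ (n : ℝ) ^ 2 * ((n : ℝ) / 1000) ^ 2 :=
        mul_le_mul_of_nonneg_left h3 (by positivity)
      have h6 : (0 : ℝ) < (n : ℝ) ^ 4 := by positivity
      nlinarith
    exact (pow_le_pow_iff_left₀ (by positivity) (abs_nonneg _) (by norm_num)).1 h4
  have hk := hK3 n a b θ 0 P hnc ha1.le hMab hb2.le hE hθ hq hne le_rfl (by norm_num) hND
  rw [mul_zero, zero_mul, zero_mul, add_zero] at hk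
  have hTB : TB n (qq P) := hA2.2.1 n P (natDegree_le_of_degree_le hE.deg) hE.bdd
  obtain ⟨-, hB⟩ := hA2.1 n (qq P) (by omega) hTB
  -- second derivative
  have hq2 : (1 - 1 / 10 ^ 7) * (n : ℝ) ^ 2 ≤ |deriv (deriv (qq P)) θ| := by
    have h1 := hs3 θ ⟨hθ.1.le, hθ.2.le⟩
    rw [hq] at h1
    have h2 : ((1 - 1 / 10 ^ 7) * (n : ℝ) ^ 2) ^ 2 ≤ |deriv (deriv (qq P)) θ| ^ 2 := by
      rw [sq_abs]
      have h6 : (0 : ℝ) < (n : ℝ) ^ 4 := by positivity
      nlinarith
    exact (pow_le_pow_iff_left₀ (by positivity) (abs_nonneg _) (by norm_num)).1 h2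
  -- the end points
  set τa : ℝ := n * (α - θ) with hτa
  set τb : ℝ := n * (θ - β) with hτb
  have hτa0 : 0 < τa := mul_pos hn0 (by linarith [hθ.2])
  have hτb0 : 0 < τb := mul_pos hn0 (by linarith [hθ.1])
  have hab : τa + τb = n * (α - β) := by rw [hτa, hτb]; ring
  have eα : θ + τa / n = α := by rw [hτa]; field_simp; ring
  have eβ : θ + -τb / n = β := by rw [hτb]; field_simp; ring
  have ha := s4_m (v := |deriv (qq P) α| / n) hτa0
    (by rw [div_le_one hn0]; exact (hB α).2.2.1) (by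
      intro h
      have h1 := hA3 n (qq P) θ τa (by omega) hTB hq (by rw [abs_of_pos hτa0]; exact h)
      rw [eα, abs_of_pos hτa0] at h1
      rw [div_le_iff₀ hn0]; linarith)
  have hb := s4_m (v := |deriv (qq P) β| / n) hτb0
    (by rw [div_le_one hn0]; exact (hB β).2.2.1) (by
      intro h
      have h1 := hA3 n (qq P) θ (-τb) (by omega) hTB hq
        (by rw [abs_neg, abs_of_pos hτb0]; exact h)
      rw [eβ, abs_neg, abs_of_pos hτb0] at h1
      rw [div_le_iff₀ hn0]; linarith)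
  have hsum : |deriv (qq P) α| / n / τa + |deriv (qq P) β| / n / τb ≤ 1.991 := by
    rcases le_total (1 / 4) τa with h | h
    · linarith [ha.2 h, hb.1]
    · linarith [hb.2 (by linarith), ha.1]
  -- lower bounds for the sines
  have hδa : √δ ≤ α := by
    have h1 : 0 ≤ α := arccos_nonneg a
    have h2 : sin α ≤ α := Real.sin_le h1
    have h3 : 0 ≤ sin α := Real.sin_nonneg_of_nonneg_of_le_pi h1 hαπ.le
    refine le_trans ?_ h2
    rw [Real.sqrt_le_left h3]
    have := Real.sin_sq_add_cos_sq α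
    rw [hca] at this
    nlinarith
  have hδb : √δ ≤ π - β := by
    have h1 : 0 ≤ π - β := by linarith [arccos_le_pi b]
    have h2 : sin (π - β) ≤ π - β := Real.sin_le h1
    rw [Real.sin_pi_sub] at h2
    have h3 : 0 ≤ sin β := Real.sin_nonneg_of_nonneg_of_le_pi hβ0.le (arccos_le_pi b)
    refine le_trans ?_ h2
    rw [Real.sqrt_le_left h3]
    have := Real.sin_sq_add_cos_sq β
    rw [hcb] at this
    nlinarith
  -- kernels
  have ka : sin α * |deriv (qq P) α| / (cos θ - a) ≤
      (n : ℝ) ^ 2 * (|deriv (qq P) α| / n / τa) + n / √δ := by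
    have h1 := s4_ker (x := θ) (y := α) (by linarith [hθ.1]) hθ.2 hαπ
    rw [hca] at h1
    have h2 : 1 / α ≤ 1 / √δ := one_div_le_one_div_of_le hsd hδa
    calc sin α * |deriv (qq P) α| / (cos θ - a) = |deriv (qq P) α| * (sin α / (cos θ - a)) := by
          ring
      _ ≤ |deriv (qq P) α| * (1 / (α - θ) + 1 / √δ) :=
          mul_le_mul_of_nonneg_left (by linarith) (abs_nonneg _)
      _ = |deriv (qq P) α| * (1 / (α - θ)) + |deriv (qq P) α| / √δ := by ring
      _ ≤ (n : ℝ) ^ 2 * (|deriv (qq P) α| / n / τa) + n / √δ := by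
          refine add_le_add (le_of_eq ?_) ?_
          · have h3 : α - θ ≠ 0 := by linarith [hθ.2]
            rw [hτa]; field_simp
          · exact div_le_div_of_nonneg_right (hB α).2.2.1 hsd.le
  have kb : sin β * |deriv (qq P) β| / (b - cos θ) ≤
      (n : ℝ) ^ 2 * (|deriv (qq P) β| / n / τb) + n / √δ := by
    have h1 := s4_ker (x := π - θ) (y := π - β) (by linarith [hθ.2]) (by linarith [hθ.1])
      (by linarith)
    rw [Real.sin_pi_sub, Real.cos_pi_sub, Real.cos_pi_sub, hcb] at h1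
    have e1 : -cos θ - -b = b - cos θ := by ring
    have e2 : π - β - (π - θ) = θ - β := by ring
    rw [e1, e2] at h1
    have h2 : 1 / (π - β) ≤ 1 / √δ := one_div_le_one_div_of_le hsd hδb
    calc sin β * |deriv (qq P) β| / (b - cos θ) = |deriv (qq P) β| * (sin β / (b - cos θ)) := by
          ring
      _ ≤ |deriv (qq P) β| * (1 / (θ - β) + 1 / √δ) :=
          mul_le_mul_of_nonneg_left (by linarith) (abs_nonneg _)
      _ = |deriv (qq P) β| * (1 / (θ - β)) + |deriv (qq P) β| / √δ := by ring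
      _ ≤ (n : ℝ) ^ 2 * (|deriv (qq P) β| / n / τb) + n / √δ := by
          refine add_le_add (le_of_eq ?_) ?_
          · have h3 : θ - β ≠ 0 := by linarith [hθ.1]
            rw [hτb]; field_simp
          · exact div_le_div_of_nonneg_right (hB β).2.2.1 hsd.le
  have hc : n / √δ ≤ 0.0005 * (n : ℝ) ^ 2 := by
    have h1 : 1 / √δ ≤ 0.0005 * n := by
      have : 2000 / √δ = 2000 * (1 / √δ) := by ring
      rw [this] at hnd
      linarith
    calc n / √δ = n * (1 / √δ) := by ring
      _ ≤ n * (0.0005 * n) := mul_le_mul_of_nonneg_left h1 hn0.le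
      _ = _ := by ring
  have hd : K * n * (1 + Real.log n) ≤ 0.001 * (n : ℝ) ^ 2 := by
    calc K * n * (1 + Real.log n) = n * (K * (1 + Real.log n)) := by ring
      _ ≤ n * (0.001 * n) := mul_le_mul_of_nonneg_left hlog hn0.le
      _ = _ := by ring
  have hf : (n : ℝ) ^ 2 * (|deriv (qq P) α| / n / τa) + (n : ℝ) ^ 2 * (|deriv (qq P) β| / n / τb) ≤
      1.991 * (n : ℝ) ^ 2 := by
    rw [← mul_add, mul_comm]
    exact mul_le_mul_of_nonneg_right hsum (by positivity)
  have hn2' : (0 : ℝ) < (n : ℝ) ^ 2 := by positivity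
  linarith

end

end Pool.Agent.Helper10.AL
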