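import Pool.Agent.Helper10.AL.St5

/-!
Arc length of polynomials: slopes of the limit functional at the Chebyshev polynomial.
-/

set_option autoImplicit false

namespace Pool.Agent.Helper10.AL

open Polynomial Set Real MeasureTheory intervalIntegral Filter Topology
open Pool.Agent.Helper40.AS (arc Bdd Ext quad)

theorem t1_vc (x : ℝ) : HasDerivAt VC |sin x| x := by
  have h : Continuous fun s : ℝ => |sin s| := continuous_abs.comp continuous_sin
  exact (h.integral_hasStrictDerivAt 0 x).hasDerivAt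

/-- a one-sided maximum -/
theorem t1_max {F : ℝ → ℝ} {F' : ℝ} (h : HasDerivAt F F' 0)
    (hm : ∀ t : ℝ, 0 < t → t < 1 → F t ≤ F 0) : F' ≤ 0 := by
  have h1 := h.tendsto_slope_zero_right
  refine le_of_tendsto h1 ?_
  filter_upwards [Ioo_mem_nhdsGT (zero_lt_one)] with t ht
  have h2 := hm t ht.1 ht.2
  rw [zero_add, smul_eq_mul]
  have h3 : 0 < t⁻¹ := inv_pos.2 ht.1
  nlinarith

theorem t1_arctan (k : ℝ) : HasDerivAt (fun h : ℝ => 2 * arctan (h / (2 - h) * k)) k 0 := by
  have h1 : HasDerivAt (fun h : ℝ => 2 - h) (-1) 0 := by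
    simpa using (hasDerivAt_id (0 : ℝ)).const_sub 2
  have h2 : HasDerivAt (fun h : ℝ => h / (2 - h)) (1 / 2) 0 := by
    have := (hasDerivAt_id (0 : ℝ)).div h1 (by norm_num)
    have e : (1 * (2 - (0 : ℝ)) - id (0 : ℝ) * -1) / (2 - 0) ^ 2 = 1 / 2 := by
      simp only [id]
      norm_num
    rw [e] at this
    exact this
  have h3 := ((h2.mul_const k).arctan).const_mul 2
  have e : 2 * (1 / (1 + (0 / (2 - 0) * k) ^ 2) * (1 / 2 * k)) = k := by
    norm_num
    ring
  rw [e] at h3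
  exact h3

theorem t1_tan {θ : ℝ} (h0 : 0 < θ) (h1 : θ < π) :
    0 < sin θ ∧ tan (θ / 2) = (1 - cos θ) / sin θ ∧
      (1 + cos θ) / sin θ * tan (θ / 2) = 1 ∧ 0 < tan (θ / 2) := by
  have hs : 0 < sin θ := sin_pos_of_pos_of_lt_pi h0 h1
  have hc : 0 < cos (θ / 2) := cos_pos_of_mem_Ioo ⟨by linarith, by linarith⟩
  have e1 : sin θ = 2 * sin (θ / 2) * cos (θ / 2) := by
    rw [← sin_two_mul]
    congr 1
    ring
  have e2 : cos θ = 1 - 2 * sin (θ / 2) ^ 2 := by
    have := cos_two_mul (θ / 2)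
    rw [show 2 * (θ / 2) = θ by ring] at this
    have h2 := sin_sq_add_cos_sq (θ / 2)
    linarith
  have hs2 : 0 < sin (θ / 2) := sin_pos_of_pos_of_lt_pi (by linarith) (by linarith)
  have e3 : tan (θ / 2) = (1 - cos θ) / sin θ := by
    rw [tan_eq_sin_div_cos, e1, e2]
    field_simp
    ring
  refine ⟨hs, e3, ?_, ?_⟩
  · rw [e3, div_mul_div_comm, div_eq_one_iff_eq (by positivity)]
    nlinarith [sin_sq_add_cos_sq θ]
  · rw [tan_eq_sin_div_cos]
    positivity

/-- the phase shift near `ρ = 1` -/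
theorem t1_mu1 {θ h : ℝ} (h0 : 0 < θ) (h1 : θ < π) (hh : 0 < h) (hh1 : h < 1) :
    mu (1 - h) θ = π - 2 * arctan (h / (2 - h) * ((1 + cos θ) / sin θ)) := by
  obtain ⟨hs, e1, e2, ht⟩ := t1_tan h0 h1
  have hne : (1 - h : ℝ) ≠ 1 := by linarith
  rw [mu, if_neg hne]
  have hk : 0 < (1 + cos θ) / sin θ := by
    by_contra hcon
    push Not at hcon
    have := mul_nonpos_of_nonpos_of_nonneg hcon ht.le
    linarith
  have hr : 0 < h / (2 - h) := div_pos hh (by linarith)
  have e3 : (1 + (1 - h)) / (1 - (1 - h)) * tan (θ / 2) =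
      (h / (2 - h) * ((1 + cos θ) / sin θ))⁻¹ := by
    rw [mul_inv, inv_div, eq_comm]
    have e4 : ((1 + cos θ) / sin θ)⁻¹ = tan (θ / 2) := inv_eq_of_mul_eq_one_right e2
    rw [e4]
    congr 1
    ring
  rw [e3, arctan_inv_of_pos (by positivity)]
  ring

/-- the phase shift near `ρ = -1` -/
theorem t1_mu2 {θ h : ℝ} (hh1 : h < 1) :
    mu (-1 + h) θ = 2 * arctan (h / (2 - h) * tan (θ / 2)) := by
  have hne : (-1 + h : ℝ) ≠ 1 := by linarith
  rw [mu, if_neg hne]
  congr 3
  ring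

theorem t1_abs_sin (x : ℝ) : |sin (x - π)| = |sin x| := by
  rw [sin_sub_pi, abs_neg]

theorem t1 (hP0 : P0) (hVF6 : VF6) : T1 := by
  intro n α β ε hβ hβα hα hε H
  have hα0 : 0 < α := by linarith
  have hβ1 : β < π := by linarith
  constructor
  · -- near `ρ = 1`
    have hd : ∀ θ : ℝ, HasDerivAt (fun h : ℝ => VC (n * θ - (π - 2 * arctan (h / (2 - h) *
        ((1 + cos θ) / sin θ))))) (|sin (n * θ)| * ((1 + cos θ) / sin θ)) 0 := by
      intro θ
      have h1 := ((t1_arctan ((1 + cos θ) / sin θ)).const_sub π).const_sub (n * θ)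
      rw [neg_neg] at h1
      have h2 := t1_vc (n * θ - (π - 2 * arctan ((0 : ℝ) / (2 - 0) * ((1 + cos θ) / sin θ))))
      have h3 := h2.comp (0 : ℝ) h1
      have e : |sin (n * θ - (π - 2 * arctan ((0 : ℝ) / (2 - 0) * ((1 + cos θ) / sin θ))))| =
          |sin (n * θ)| := by
        rw [zero_div, zero_mul, arctan_zero, mul_zero, sub_zero, t1_abs_sin]
      rw [e] at h3
      exact h3
    have hF := ((hd α).sub (hd β)).add ((hasDerivAt_id (0 : ℝ)).const_mul ε)
    have h4 := t1_max hF (fun t ht0 ht1 => by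
      have h5 := H (1 - t) (by linarith) (by linarith)
      rw [t1_mu1 hα0 hα ht0 ht1, t1_mu1 hβ hβ1 ht0 ht1, abs_of_pos (by linarith)] at h5
      simp only [Pi.add_apply, Pi.sub_apply, id, zero_div, zero_mul, arctan_zero, mul_zero,
        sub_zero, add_zero]
      linarith)
    linarith
  · -- near `ρ = -1`
    have hd : ∀ θ : ℝ, HasDerivAt (fun h : ℝ => VC (n * θ - 2 * arctan (h / (2 - h) *
        tan (θ / 2)))) (|sin (n * θ)| * -tan (θ / 2)) 0 := by
      intro θ
      have h1 := (t1_arctan (tan (θ / 2))).const_sub (n * θ)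
      have h2 := t1_vc (n * θ - 2 * arctan ((0 : ℝ) / (2 - 0) * tan (θ / 2)))
      have h3 := h2.comp (0 : ℝ) h1
      have e : |sin (n * θ - 2 * arctan ((0 : ℝ) / (2 - 0) * tan (θ / 2)))| =
          |sin (n * θ)| := by
        rw [zero_div, zero_mul, arctan_zero, mul_zero, sub_zero]
      rw [e] at h3
      exact h3
    have hF := ((hd α).sub (hd β)).add ((hasDerivAt_id (0 : ℝ)).const_mul ε)
    have h4 := t1_max hF (fun t ht0 ht1 => by
      have h5 := H (-1 + t) (by linarith) (by linarith)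
      rw [t1_mu2 ht1, t1_mu2 ht1, abs_of_neg (by linarith)] at h5
      have h6 := hVF6.2.1 (n * α - π)
      have h7 := hVF6.2.1 (n * β - π)
      rw [sub_add_cancel] at h6 h7
      simp only [Pi.add_apply, Pi.sub_apply, id, zero_div, zero_mul, arctan_zero, mul_zero,
        sub_zero, add_zero]
      linarith)
    rw [← (t1_tan hα0 hα).2.1, ← (t1_tan hβ hβ1).2.1]
    linarith

end Pool.Agent.Helper10.AL
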