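import Pool.Agent.Helper10.AL.St6

/-!
Arc length of polynomials: no complex critical point over a nearly perfect chain (owner helper85).
-/

set_option autoImplicit false

namespace Pool.Agent.Helper10.AL

open Polynomial Set Real MeasureTheory intervalIntegral
open Pool.Agent.Helper40.AS (arc Bdd Ext quad)
open Pool.Agent.Helper40.Arc (FF FF_eval deriv_rel)

lemma u5_eval {n : ℕ} {P : ℝ[X]} (hP : P.natDegree ≤ n) (w : ℂ) :
    (FF n P).eval (Complex.exp (w * Complex.I)) =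
      Complex.exp (n * w * Complex.I) * aeval (Complex.cos w) P := by
  set z : ℂ := Complex.exp (w * Complex.I) with hz
  have hz0 : z ≠ 0 := Complex.exp_ne_zero _
  have h1 : z ^ 2 + 1 = 2 * z * Complex.cos w := by
    rw [Complex.cos, ← hz]
    have h2 : Complex.exp (-w * Complex.I) = z⁻¹ := by
      rw [hz, ← Complex.exp_neg]; congr 1; ring
    rw [h2]
    field_simp
  have h3 : Complex.exp (n * w * Complex.I) = z ^ n := by
    rw [hz, ← Complex.exp_nat_mul]; congr 1; ring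
  rw [h3, aeval_eq_sum_range' (Nat.lt_succ_of_le hP), FF, eval_finsetSum, Finset.mul_sum]
  refine Finset.sum_congr rfl (fun k hk => ?_)
  have hkn : k ≤ n := Nat.lt_succ_iff.1 (Finset.mem_range.1 hk)
  simp only [eval_mul, eval_C, eval_pow, eval_X, eval_add, eval_one]
  rw [h1, show (1 / 2 : ℂ) * (2 * z * Complex.cos w) = z * Complex.cos w by ring, mul_pow]
  have h4 : z ^ n = z ^ (n - k) * z ^ k := by rw [← pow_add]; congr 1; omega
  rw [h4, Complex.real_smul]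
  ring

lemma u5_crit {n : ℕ} {P : ℝ[X]} (hP : P.natDegree ≤ n) {w : ℂ}
    (hw : aeval (Complex.cos w) P.derivative = 0) :
    Complex.exp (w * Complex.I) * (FF n P).derivative.eval (Complex.exp (w * Complex.I)) =
      n * (FF n P).eval (Complex.exp (w * Complex.I)) := by
  set z : ℂ := Complex.exp (w * Complex.I) with hz
  have h1 : HasDerivAt (fun t : ℂ => (FF n P).eval (Complex.exp (t * Complex.I)))
      ((FF n P).derivative.eval z * (z * Complex.I)) w := by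
    have h0 : HasDerivAt (fun t : ℂ => Complex.exp (t * Complex.I))
        (Complex.exp (w * Complex.I) * (1 * Complex.I)) w :=
      ((hasDerivAt_id w).mul_const Complex.I).cexp
    have h2 := ((FF n P).hasDerivAt z).comp w h0
    simpa [one_mul, Function.comp_def] using h2
  have h2 : HasDerivAt (fun t : ℂ => Complex.exp (n * t * Complex.I) * aeval (Complex.cos t) P)
      (Complex.exp (n * w * Complex.I) * (n * 1 * Complex.I) * aeval (Complex.cos w) P +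
        Complex.exp (n * w * Complex.I) * (aeval (Complex.cos w) P.derivative *
          -Complex.sin w)) w := by
    have h0 : HasDerivAt (fun t : ℂ => Complex.exp ((n : ℂ) * t * Complex.I))
        (Complex.exp (n * w * Complex.I) * (n * 1 * Complex.I)) w :=
      (((hasDerivAt_id w).const_mul (n : ℂ)).mul_const Complex.I).cexp
    have h3 : HasDerivAt (fun t : ℂ => aeval (Complex.cos t) P)
        (aeval (Complex.cos w) P.derivative * -Complex.sin w) w :=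
      (P.hasDerivAt_aeval (Complex.cos w)).comp w (Complex.hasDerivAt_cos w)
    exact h0.mul h3
  have h3 := h1.unique (h2.congr_of_eventuallyEq (Filter.Eventually.of_forall (u5_eval hP)))
  rw [hw] at h3
  have h4 := u5_eval hP w
  rw [← hz] at h4
  rw [h4]
  refine mul_right_cancel₀ Complex.I_ne_zero ?_
  linear_combination h3

/-- the first polynomial -/
noncomputable def u5_G (n : ℕ) (P : ℝ[X]) (σ : ℝ) : ℂ[X] :=
  C 2 * FF n P - C (1 / n : ℂ) * (X * (FF n P).derivative) - C (σ : ℂ)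

/-- the second polynomial -/
noncomputable def u5_H (n : ℕ) (P : ℝ[X]) (σ : ℝ) : ℂ[X] :=
  C (1 / n : ℂ) * (X * (FF n P).derivative) - C (σ : ℂ) * X ^ (2 * n)

lemma u5_G_eval (n : ℕ) (P : ℝ[X]) (σ : ℝ) (z : ℂ) : (u5_G n P σ).eval z =
    2 * (FF n P).eval z - 1 / n * (z * (FF n P).derivative.eval z) - σ := by
  simp [u5_G]

lemma u5_H_eval (n : ℕ) (P : ℝ[X]) (σ : ℝ) (z : ℂ) : (u5_H n P σ).eval z =
    1 / n * (z * (FF n P).derivative.eval z) - σ * z ^ (2 * n) := by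
  simp [u5_H]

/-- the first component -/
noncomputable def u5_a (n : ℕ) (P : ℝ[X]) (σ θ : ℝ) : ℝ := qq P θ - σ * cos (n * θ)

/-- the second component -/
noncomputable def u5_b (n : ℕ) (P : ℝ[X]) (σ θ : ℝ) : ℝ := deriv (qq P) θ / n + σ * sin (n * θ)

lemma u5_hd (P : ℝ[X]) (θ : ℝ) : HasDerivAt (qq P) (deriv (qq P) θ) θ := by
  have : Differentiable ℝ (qq P) := P.differentiable.comp Real.differentiable_cos
  exact (this θ).hasDerivAt

lemma u5_exp (n : ℕ) (θ : ℝ) : Complex.exp (n * θ * Complex.I) =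
    (cos (n * θ) : ℂ) + (sin (n * θ) : ℂ) * Complex.I := by
  rw [Complex.exp_mul_I]
  push_cast
  ring_nf

lemma u5_G_circle {n : ℕ} (hn : 1 ≤ n) {P : ℝ[X]} (hP : P.natDegree ≤ n) (σ θ : ℝ) :
    (u5_G n P σ).eval (Complex.exp (θ * Complex.I)) = Complex.exp (n * θ * Complex.I) *
      ((u5_a n P σ θ : ℂ) + (u5_b n P σ θ : ℂ) * Complex.I) := by
  have hn0 : (n : ℂ) ≠ 0 := by exact_mod_cast (by omega : n ≠ 0)
  have h1 : (FF n P).eval (Complex.exp (θ * Complex.I)) =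
      Complex.exp (n * θ * Complex.I) * (qq P θ : ℂ) := FF_eval hP θ
  have h2 := deriv_rel (f := qq P) (FF_eval hP) (u5_hd P) θ
  have h3 : ((cos (n * θ) : ℝ) : ℂ) ^ 2 + ((sin (n * θ) : ℝ) : ℂ) ^ 2 = 1 := by
    rw [← Complex.ofReal_pow, ← Complex.ofReal_pow, ← Complex.ofReal_add,
      Real.cos_sq_add_sin_sq, Complex.ofReal_one]
  have hI : Complex.I * Complex.I = -1 := Complex.I_mul_I
  rw [u5_G_eval, h2, h1, u5_exp]
  have e1 : 1 / (n : ℂ) * (((cos (n * θ) : ℂ) + (sin (n * θ) : ℂ) * Complex.I) *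
      (n * (qq P θ : ℂ) - Complex.I * ((deriv (qq P) θ : ℝ) : ℂ))) =
      ((cos (n * θ) : ℂ) + (sin (n * θ) : ℂ) * Complex.I) *
        ((qq P θ : ℂ) - Complex.I * (((deriv (qq P) θ : ℝ) : ℂ) / n)) := by
    field_simp
  rw [e1]
  unfold u5_a u5_b
  rw [Complex.ofReal_sub, Complex.ofReal_add, Complex.ofReal_mul, Complex.ofReal_mul,
    Complex.ofReal_div, Complex.ofReal_natCast]
  linear_combination (σ : ℂ) * h3 - (σ : ℂ) * ((sin (n * θ) : ℝ) : ℂ) ^ 2 * hI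

lemma u5_H_circle {n : ℕ} (hn : 1 ≤ n) {P : ℝ[X]} (hP : P.natDegree ≤ n) (σ θ : ℝ) :
    (u5_H n P σ).eval (Complex.exp (θ * Complex.I)) = Complex.exp (n * θ * Complex.I) *
      ((u5_a n P σ θ : ℂ) + ((-u5_b n P σ θ : ℝ) : ℂ) * Complex.I) := by
  have hn0 : (n : ℂ) ≠ 0 := by exact_mod_cast (by omega : n ≠ 0)
  have h2 := deriv_rel (f := qq P) (FF_eval hP) (u5_hd P) θ
  have h4 : Complex.exp (θ * Complex.I) ^ (2 * n) = Complex.exp (n * θ * Complex.I) ^ 2 := by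
    rw [← Complex.exp_nat_mul, ← Complex.exp_nat_mul]
    congr 1
    push_cast
    ring
  rw [u5_H_eval, h2, h4, u5_exp]
  have e1 : 1 / (n : ℂ) * (((cos (n * θ) : ℂ) + (sin (n * θ) : ℂ) * Complex.I) *
      (n * (qq P θ : ℂ) - Complex.I * ((deriv (qq P) θ : ℝ) : ℂ))) =
      ((cos (n * θ) : ℂ) + (sin (n * θ) : ℂ) * Complex.I) *
        ((qq P θ : ℂ) - Complex.I * (((deriv (qq P) θ : ℝ) : ℂ) / n)) := by
    field_simp
  rw [e1]
  unfold u5_a u5_b
  rw [Complex.ofReal_neg, Complex.ofReal_sub, Complex.ofReal_add, Complex.ofReal_mul,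
    Complex.ofReal_mul, Complex.ofReal_div, Complex.ofReal_natCast]
  ring

lemma u5_norm (n : ℕ) (θ : ℝ) (z : ℂ) : ‖Complex.exp (n * θ * Complex.I) * z‖ = ‖z‖ := by
  rw [norm_mul]
  have : ‖Complex.exp (n * θ * Complex.I)‖ = 1 := by
    have h := Complex.norm_exp_ofReal_mul_I (n * θ)
    push_cast at h
    exact h
  rw [this, one_mul]

lemma u5_two {n : ℕ} (hn : 1 ≤ n) {P : ℝ[X]} {σ : ℝ} (hσ : σ = 1 ∨ σ = -1)
    (hb : ∀ θ, (deriv (qq P) θ) ^ 2 + (n : ℝ) ^ 2 * (qq P θ) ^ 2 ≤ (n : ℝ) ^ 2) (θ : ℝ) :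
    u5_a n P σ θ ^ 2 + u5_b n P σ θ ^ 2 ≤ 4 := by
  have hn0 : (0 : ℝ) < n := by exact_mod_cast hn
  have h1 : (qq P θ) ^ 2 + (deriv (qq P) θ / n) ^ 2 ≤ 1 := by
    have h2 : (qq P θ) ^ 2 + (deriv (qq P) θ / n) ^ 2 =
        ((deriv (qq P) θ) ^ 2 + (n : ℝ) ^ 2 * (qq P θ) ^ 2) / n ^ 2 := by
      field_simp
      ring
    rw [h2, div_le_one (by positivity)]
    exact hb θ
  have h2 : σ ^ 2 = 1 := by rcases hσ with h | h <;> rw [h] <;> norm_num
  have h3 := Real.cos_sq_add_sin_sq (n * θ)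
  unfold u5_a u5_b
  nlinarith [sq_nonneg (qq P θ + σ * cos (n * θ)),
    sq_nonneg (deriv (qq P) θ / n - σ * sin (n * θ))]

lemma u5_sq {a b : ℝ} (h : a ^ 2 + b ^ 2 ≤ 4) : ‖(a : ℂ) + (b : ℂ) * Complex.I‖ ≤ 2 := by
  rw [Complex.norm_add_mul_I]
  calc √(a ^ 2 + b ^ 2) ≤ √(2 ^ 2) := Real.sqrt_le_sqrt (by linarith)
    _ = 2 := Real.sqrt_sq (by norm_num)

lemma u5_le {a b ε : ℝ} (ha : |a| ≤ ε) (hb : |b| ≤ ε) :
    ‖(a : ℂ) + (b : ℂ) * Complex.I‖ ≤ 2 * ε := by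
  refine (norm_add_le _ _).trans ?_
  rw [norm_mul, Complex.norm_I, mul_one, Complex.norm_real, Complex.norm_real, Real.norm_eq_abs,
    Real.norm_eq_abs]
  linarith

lemma u5_even (hA2 : A2) {n : ℕ} {P : ℝ[X]} {σ τ ε : ℝ}
    (h : ∀ θ ∈ Icc 0 τ, |qq P θ - σ * cos (n * θ)| ≤ ε ∧
      |deriv (qq P) θ / n + σ * sin (n * θ)| ≤ ε) {θ : ℝ} (hθ : |θ| ≤ τ) :
    |u5_a n P σ θ| ≤ ε ∧ |u5_b n P σ θ| ≤ ε := by
  rcases le_total 0 θ with h0 | h0
  · rw [abs_of_nonneg h0] at hθ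
    exact h θ ⟨h0, hθ⟩
  · rw [abs_of_nonpos h0] at hθ
    obtain ⟨h1, h2⟩ := h (-θ) ⟨by linarith, hθ⟩
    have e1 : qq P (-θ) = qq P θ := by unfold qq; rw [Real.cos_neg]
    have e2 : deriv (qq P) (-θ) = -deriv (qq P) θ := by
      rw [(hA2.2.2 P (-θ)).1, (hA2.2.2 P θ).1, Real.cos_neg, Real.sin_neg]
      ring
    rw [e1, mul_neg, Real.cos_neg] at h1
    rw [e2, mul_neg, Real.sin_neg] at h2
    refine ⟨h1, ?_⟩
    have e3 : -deriv (qq P) θ / n + σ * -sin (n * θ) = -u5_b n P σ θ := by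
      unfold u5_b; ring
    rw [e3, abs_neg] at h2
    exact h2

theorem u5 (hA2 : A2) (hPo : Po) : U5 := by
  intro n P σ τ ε hn hP hB hσ hτ0 hτ hε h
  have hpi := Real.pi_pos
  have hTB := hA2.2.1 n P hP hB
  have hb : ∀ θ, (deriv (qq P) θ) ^ 2 + (n : ℝ) ^ 2 * (qq P θ) ^ 2 ≤ (n : ℝ) ^ 2 :=
    fun θ => ((hA2.1 n (qq P) hn hTB).2 θ).1
  have hσ1 : ‖(σ : ℂ)‖ = 1 := by
    rw [Complex.norm_real, Real.norm_eq_abs]
    rcases hσ with h | h <;> rw [h] <;> norm_num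
  have hG : ∀ (ξ : ℂ) (d : ℝ), 0 < d → ‖ξ‖ < 1 →
      (∀ θ ∈ Icc τ (2 * π - τ), d ≤ ‖ξ - Complex.exp (θ * Complex.I)‖) →
      ‖(u5_G n P σ).eval ξ‖ ≤ 2 * ε + 4 * (π - τ) * (1 - ‖ξ‖) / (π * d ^ 2) := by
    intro ξ d hd hξ hg
    refine hPo _ ξ τ (2 * ε) d hτ0 hτ (by linarith) hd hξ (fun θ => ?_) (fun θ hθ => ?_) hg
    · rw [u5_G_circle hn hP, u5_norm]
      exact u5_sq (u5_two hn hσ hb θ)
    · rw [u5_G_circle hn hP, u5_norm]
      obtain ⟨h1, h2⟩ := u5_even hA2 h hθ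
      exact u5_le h1 h2
  have hH : ∀ (ξ : ℂ) (d : ℝ), 0 < d → ‖ξ‖ < 1 →
      (∀ θ ∈ Icc τ (2 * π - τ), d ≤ ‖ξ - Complex.exp (θ * Complex.I)‖) →
      ‖(u5_H n P σ).eval ξ‖ ≤ 2 * ε + 4 * (π - τ) * (1 - ‖ξ‖) / (π * d ^ 2) := by
    intro ξ d hd hξ hg
    refine hPo _ ξ τ (2 * ε) d hτ0 hτ (by linarith) hd hξ (fun θ => ?_) (fun θ hθ => ?_) hg
    · rw [u5_H_circle hn hP, u5_norm]
      exact u5_sq (by rw [neg_sq]; exact u5_two hn hσ hb θ)
    · rw [u5_H_circle hn hP, u5_norm]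
      obtain ⟨h1, h2⟩ := u5_even hA2 h hθ
      exact u5_le h1 (by rw [abs_neg]; exact h2)
  refine ⟨?_, ?_⟩
  · intro w d hw hc hd hg
    set ξ : ℂ := Complex.exp (w * Complex.I) with hξ
    have hnξ : ‖ξ‖ = Real.exp (-w.im) := by
      rw [hξ, Complex.norm_exp]
      simp
    have hlt : ‖ξ‖ < 1 := by
      rw [hnξ, Real.exp_lt_one_iff]
      linarith
    have h1 := hG ξ d hd hlt hg
    have h2 := hH ξ d hd hlt hg
    have h3 := u5_crit hP hc
    rw [← hξ] at h3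
    have hn0 : (n : ℂ) ≠ 0 := by exact_mod_cast (by omega : n ≠ 0)
    have h4 : (u5_H n P σ).eval ξ - (u5_G n P σ).eval ξ = (σ : ℂ) * (1 - ξ ^ (2 * n)) := by
      rw [u5_G_eval, u5_H_eval, h3]
      field_simp
      ring
    have h5 : ‖(σ : ℂ) * (1 - ξ ^ (2 * n))‖ ≤
        (2 * ε + 4 * (π - τ) * (1 - ‖ξ‖) / (π * d ^ 2)) +
        (2 * ε + 4 * (π - τ) * (1 - ‖ξ‖) / (π * d ^ 2)) := by
      rw [← h4]
      exact (norm_sub_le _ _).trans (add_le_add h2 h1)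
    rw [norm_mul, hσ1, one_mul] at h5
    have h6 : 1 - Real.exp (-(2 * n * w.im)) ≤ ‖1 - ξ ^ (2 * n)‖ := by
      have h7 : ‖ξ ^ (2 * n)‖ = Real.exp (-(2 * n * w.im)) := by
        rw [norm_pow, hnξ, ← Real.exp_nat_mul]
        congr 1
        push_cast
        ring
      have h8 := norm_sub_norm_le (1 : ℂ) (ξ ^ (2 * n))
      rw [norm_one, h7] at h8
      exact h8
    rw [hnξ] at h5
    have h9 : 8 * (π - τ) * (1 - Real.exp (-w.im)) / (π * d ^ 2) =
        2 * (4 * (π - τ) * (1 - Real.exp (-w.im)) / (π * d ^ 2)) := by ring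
    rw [h9]
    linarith
  · intro hdeg
    have h0 : ‖(0 : ℂ)‖ < 1 := by rw [norm_zero]; norm_num
    have h1 := hG 0 1 one_pos h0 (fun θ _ => by
      rw [zero_sub, norm_neg, Complex.norm_exp_ofReal_mul_I])
    have h2 : (FF n P).eval 0 = 0 := by
      rw [FF, eval_finsetSum]
      refine Finset.sum_eq_zero (fun k hk => ?_)
      have hkn : k ≤ n := Nat.lt_succ_iff.1 (Finset.mem_range.1 hk)
      rcases Nat.lt_or_ge k n with h3 | h3
      · simp only [eval_mul, eval_C, eval_pow, eval_X]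
        rw [zero_pow (by omega)]
        ring
      · rw [coeff_eq_zero_of_natDegree_lt (by omega)]
        simp
    rw [u5_G_eval, h2, mul_zero, zero_mul, mul_zero, sub_zero, zero_sub, norm_neg, hσ1,
      norm_zero] at h1
    have h3 : 4 * (π - τ) * (1 - 0) / (π * 1 ^ 2) = 4 * (π - τ) / π := by ring
    rw [h3] at h1
    exact h1

end Pool.Agent.Helper10.AL
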