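import Pool.Agent.Helper10.AL.St5

/-!
Arc length of polynomials over windows with an end point of `[-1,1]`, large degree: piece X2.
-/

set_option autoImplicit false

namespace Pool.Agent.Helper10.AL

open Polynomial Set Real MeasureTheory intervalIntegral
open Pool.Agent.Helper40.AS (arc Bdd Ext)

noncomputable section

theorem x2_meas (hA2 : A2) (P : ℝ[X]) :
    Measurable fun θ : ℝ => sin θ ^ 2 / √(sin θ ^ 2 + deriv (qq P) θ ^ 2) := by
  have h : deriv (qq P) = fun θ => -(sin θ * P.derivative.eval (cos θ)) := by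
    funext t; exact (hA2.2.2 P t).1
  rw [h]
  have h1 : Continuous fun θ : ℝ => sin θ ^ 2 := by fun_prop
  have h2 : Continuous fun θ : ℝ => √(sin θ ^ 2 + (-(sin θ * P.derivative.eval (cos θ))) ^ 2) := by
    have h3 : Continuous fun θ : ℝ => P.derivative.eval (cos θ) :=
      P.derivative.continuous.comp Real.continuous_cos
    fun_prop
  exact h1.measurable.div h2.measurable

theorem x2_le_one (P : ℝ[X]) (θ : ℝ) :
    0 ≤ sin θ ^ 2 / √(sin θ ^ 2 + deriv (qq P) θ ^ 2) ∧
      sin θ ^ 2 / √(sin θ ^ 2 + deriv (qq P) θ ^ 2) ≤ 1 := by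
  constructor
  · positivity
  · have h1 : √(sin θ ^ 2) ≤ √(sin θ ^ 2 + deriv (qq P) θ ^ 2) :=
      Real.sqrt_le_sqrt (by nlinarith [sq_nonneg (deriv (qq P) θ)])
    rw [Real.sqrt_sq_eq_abs] at h1
    rcases eq_or_lt_of_le (Real.sqrt_nonneg (sin θ ^ 2 + deriv (qq P) θ ^ 2)) with h2 | h2
    · rw [← h2, div_zero]; norm_num
    · rw [div_le_one h2]
      have h3 : sin θ ^ 2 = |sin θ| * |sin θ| := by rw [← sq, sq_abs]
      have h4 : |sin θ| ≤ 1 := Real.abs_sin_le_one θ
      calc sin θ ^ 2 = |sin θ| * |sin θ| := h3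
        _ ≤ |sin θ| * 1 := mul_le_mul_of_nonneg_left h4 (abs_nonneg _)
        _ = |sin θ| := mul_one _
        _ ≤ _ := h1

/-- the derivative near the end point -/
theorem x2_near (hA2 : A2) {n : ℕ} {P : ℝ[X]} {α : ℝ} (hn : 1 ≤ n) (hdeg : P.natDegree ≤ n)
    (hb : Bdd P) (hα : 0 ≤ α) (hND : ND n (qq P) 0 α) {θ : ℝ} (h0 : 0 ≤ θ)
    (h1 : θ ≤ 1 / 2000 / n) : (n : ℝ) ^ 2 * θ / 2000 ≤ |deriv (qq P) θ| := by
  have hn1 : (1 : ℝ) ≤ n := by exact_mod_cast hn
  have hn0 : (0 : ℝ) < n := by linarith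
  have hTB : TB n (qq P) := hA2.2.1 n P hdeg hb
  obtain ⟨-, hB⟩ := hA2.1 n (qq P) hn hTB
  have hq0 : deriv (qq P) 0 = 0 := by rw [(hA2.2.2 P 0).1, Real.sin_zero]; ring
  have hq2 : (n : ℝ) ^ 2 / 1000 ≤ |deriv (deriv (qq P)) 0| := by
    refine hND 0 ⟨le_rfl, hα⟩ ?_
    rw [hq0, abs_zero]; positivity
  have hp : ∀ Q : ℝ[X], Differentiable ℝ fun θ : ℝ => Q.eval (cos θ) := fun Q =>
    Q.differentiable.comp Real.differentiable_cos
  have hD1 : Differentiable ℝ (deriv (qq P)) := by
    have h : deriv (qq P) = fun θ => -(sin θ * P.derivative.eval (cos θ)) := by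
      funext t; exact (hA2.2.2 P t).1
    rw [h]
    exact (Real.differentiable_sin.mul (hp _)).neg
  have hD2 : Differentiable ℝ (deriv (deriv (qq P))) := by
    have h : deriv (deriv (qq P)) = fun θ => sin θ ^ 2 * P.derivative.derivative.eval (cos θ) -
        cos θ * P.derivative.eval (cos θ) := by
      funext t; exact (hA2.2.2 P t).2
    rw [h]
    exact ((Real.differentiable_sin.pow 2).mul (hp _)).sub (Real.differentiable_cos.mul (hp _))
  have hL : ∀ t ∈ Icc 0 θ, ‖deriv (deriv (qq P)) t - deriv (deriv (qq P)) 0‖ ≤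
      (n : ℝ) ^ 2 / 2000 := by
    intro t ht
    have h := Convex.norm_image_sub_le_of_norm_deriv_le (𝕜 := ℝ) (f := deriv (deriv (qq P)))
      (C := (n : ℝ) ^ 3) (s := univ) (x := 0) (y := t) (fun x _ => hD2 x)
      (fun x _ => by rw [Real.norm_eq_abs]; exact (hB x).2.2.2.2) convex_univ trivial trivial
    refine h.trans ?_
    rw [sub_zero, Real.norm_eq_abs, abs_of_nonneg ht.1]
    have h2 : t ≤ 1 / 2000 / n := ht.2.trans h1
    calc (n : ℝ) ^ 3 * t ≤ (n : ℝ) ^ 3 * (1 / 2000 / n) :=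
          mul_le_mul_of_nonneg_left h2 (by positivity)
      _ = (n : ℝ) ^ 2 / 2000 := by field_simp
  have hM : ‖(deriv (qq P) θ - deriv (deriv (qq P)) 0 * θ) -
      (deriv (qq P) 0 - deriv (deriv (qq P)) 0 * 0)‖ ≤ (n : ℝ) ^ 2 / 2000 * ‖θ - 0‖ := by
    refine (convex_Icc 0 θ).norm_image_sub_le_of_norm_hasDerivWithin_le
      (f := fun t => deriv (qq P) t - deriv (deriv (qq P)) 0 * t)
      (f' := fun t => deriv (deriv (qq P)) t - deriv (deriv (qq P)) 0 * 1)
      (fun t _ => (((hD1 t).hasDerivAt).sub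
        ((hasDerivAt_id t).const_mul _)).hasDerivWithinAt)
      (fun t ht => by rw [mul_one]; exact hL t ht) ⟨le_rfl, h0⟩ ⟨h0, le_rfl⟩
  rw [hq0, mul_zero, sub_zero, sub_zero, sub_zero, Real.norm_eq_abs, Real.norm_eq_abs,
    abs_of_nonneg h0] at hM
  have h5 : |deriv (deriv (qq P)) 0 * θ| ≤ |deriv (qq P) θ| +
      |deriv (qq P) θ - deriv (deriv (qq P)) 0 * θ| := by
    have h6 := abs_sub_abs_le_abs_sub (deriv (deriv (qq P)) 0 * θ) (deriv (qq P) θ)
    rw [abs_sub_comm] at h6
    linarith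
  rw [abs_mul, abs_of_nonneg h0] at h5
  have h6 : (n : ℝ) ^ 2 / 1000 * θ ≤ |deriv (deriv (qq P)) 0| * θ :=
    mul_le_mul_of_nonneg_right hq2 h0
  have h7 : (n : ℝ) ^ 2 / 1000 * θ = (n : ℝ) ^ 2 * θ / 2000 + (n : ℝ) ^ 2 / 2000 * θ := by ring
  linarith

/-- the integral of the weight -/
theorem x2_int {c u v : ℝ} (hc : 1 < c) (hc2 : c ≤ 2) :
    (∫ θ in u..v, (c ^ 2 - 1) / (c - cos θ) ^ 2 * sin θ) ≤ 3 := by
  have hpos : ∀ θ : ℝ, 0 < c - cos θ := fun θ => by linarith [Real.cos_le_one θ]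
  have hd : ∀ θ ∈ uIcc u v, HasDerivAt (fun θ : ℝ => -((c ^ 2 - 1) * (c - cos θ)⁻¹))
      ((c ^ 2 - 1) / (c - cos θ) ^ 2 * sin θ) θ := by
    intro θ _
    have h1 : HasDerivAt (fun θ : ℝ => c - cos θ) (sin θ) θ := by
      have := (Real.hasDerivAt_cos θ).const_sub c
      simpa using this
    have h2 := ((h1.inv (hpos θ).ne').const_mul (c ^ 2 - 1)).neg
    refine h2.congr_deriv ?_
    have := (hpos θ).ne'
    field_simp
  have hcont : Continuous fun θ : ℝ => (c ^ 2 - 1) / (c - cos θ) ^ 2 * sin θ := by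
    refine Continuous.mul (Continuous.div continuous_const (by fun_prop) fun θ => ?_) (by fun_prop)
    exact pow_ne_zero 2 (hpos θ).ne'
  rw [integral_eq_sub_of_hasDerivAt hd (hcont.intervalIntegrable _ _)]
  have h1 : 0 ≤ (c ^ 2 - 1) * (c - cos v)⁻¹ :=
    mul_nonneg (by nlinarith) (inv_nonneg.2 (hpos v).le)
  have h2 : (c ^ 2 - 1) * (c - cos u)⁻¹ ≤ c + 1 := by
    have h3 : (c - cos u)⁻¹ ≤ (c - 1)⁻¹ :=
      inv_anti₀ (by linarith) (by linarith [Real.cos_le_one u])
    calc (c ^ 2 - 1) * (c - cos u)⁻¹ ≤ (c ^ 2 - 1) * (c - 1)⁻¹ :=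
          mul_le_mul_of_nonneg_left h3 (by nlinarith)
      _ = c + 1 := by
          have : c - 1 ≠ 0 := by linarith
          field_simp
          ring
  linarith

/-- slow variation of the weight -/
theorem x2_slow {c x y : ℝ} (hc : 1 < c) (hx0 : 0 ≤ x) (hx : x ≤ π) (hy0 : 0 ≤ y)
    (hxy : y ≤ 2001 * x) : c - cos y ≤ 4002 ^ 2 * (c - cos x) := by
  have hpi := Real.pi_pos
  have hpi4 := Real.pi_le_four
  have h1 : x / π ≤ sin (x / 2) := by
    have := Real.mul_le_sin (x := x / 2) (by linarith) (by linarith)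
    calc x / π = 2 / π * (x / 2) := by field_simp
      _ ≤ _ := this
  have h2 : |sin (y / 2)| ≤ y / 2 := by
    have := Real.abs_sin_le_abs (x := y / 2)
    rwa [abs_of_nonneg (by linarith : 0 ≤ y / 2)] at this
  have h3 : x ≤ 4 * sin (x / 2) := by
    have h4 : x / π * π ≤ sin (x / 2) * π := mul_le_mul_of_nonneg_right h1 hpi.le
    rw [div_mul_cancel₀ x hpi.ne'] at h4
    have h5 : 0 ≤ sin (x / 2) := le_trans (by positivity) h1
    nlinarith
  have h4 : |sin (y / 2)| ≤ 4002 * sin (x / 2) := by linarith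
  have h5 : sin (y / 2) ^ 2 ≤ 4002 ^ 2 * sin (x / 2) ^ 2 := by
    rw [← mul_pow, ← sq_abs (sin (y / 2))]
    exact pow_le_pow_left₀ (abs_nonneg _) h4 2
  have e1 : cos x = 1 - 2 * sin (x / 2) ^ 2 := by
    have := Real.cos_sq' (x / 2)
    have h6 := Real.cos_two_mul (x / 2)
    rw [show 2 * (x / 2) = x by ring] at h6
    rw [h6, this]; ring
  have e2 : cos y = 1 - 2 * sin (y / 2) ^ 2 := by
    have := Real.cos_sq' (y / 2)
    have h6 := Real.cos_two_mul (y / 2)
    rw [show 2 * (y / 2) = y by ring] at h6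
    rw [h6, this]; ring
  rw [e1, e2]
  nlinarith

theorem x2 (hA2 : A2) (hG0u : G0u) (hG2au : G2au) (hM1 : M1) : X2 := by
  clear hM1
  intro δ hδ hδ4
  obtain ⟨K0, hK0, hG⟩ := hG2au
  have hsd : 0 < √δ := Real.sqrt_pos.2 hδ
  have hpi := Real.pi_pos
  have hpi4 := Real.pi_le_four
  set AA : ℝ := (4002 ^ 2) ^ 2 with hAA
  refine ⟨8 * K0 + 12000 + 3 * K0 * AA * (1 + 8000 / √δ), by positivity,
    max 2 ⌈2 / √δ⌉₊, ?_⟩
  intro n hn a P ha1 ha2 hdeg hb hND
  have hn2 : 2 ≤ n := le_trans (le_max_left _ _) hn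
  have hnd : 2 / √δ ≤ n := by
    refine (Nat.le_ceil _).trans ?_
    exact_mod_cast le_trans (le_max_right _ _) hn
  have hn1 : (1 : ℝ) ≤ n := by exact_mod_cast (by omega : 1 ≤ n)
  have hn0 : (0 : ℝ) < n := by linarith
  have hlog : 0 ≤ Real.log n := Real.log_nonneg hn1
  set α := arccos a with hα
  have hca : cos α = a := Real.cos_arccos (by linarith) (by linarith)
  have hα0 : 0 ≤ α := arccos_nonneg a
  have hαπ : α ≤ π := arccos_le_pi a
  have hsα : √δ ≤ sin α := by
    have h3 : 0 ≤ sin α := Real.sin_nonneg_of_nonneg_of_le_pi hα0 hαπ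
    rw [Real.sqrt_le_left h3]
    have := Real.sin_sq_add_cos_sq α
    rw [hca] at this
    nlinarith
  have hδα : √δ ≤ α := hsα.trans (Real.sin_le hα0)
  have h2n : 2 / n ≤ α := by
    refine le_trans ?_ hδα
    rw [div_le_iff₀ hsd] at hnd
    rw [div_le_iff₀ hn0]
    linarith
  have h1n : 1 / (n : ℝ) ≤ 2 / n := div_le_div_of_nonneg_right (by norm_num) hn0.le
  have hin : 0 < 1 / (n : ℝ) := by positivity
  constructor
  · -- constant weight
    have h1 := hG0u a 1 P (fun _ => 1) (by linarith) (by linarith) le_rfl continuousOn_const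
    rw [Real.arccos_one, ← hα] at h1
    rw [h1]
    have h2 := hG n a 1 1 P (fun _ => 1) hn2 (by linarith) (by linarith) le_rfl
      (by rw [Real.arccos_one, ← hα]; linarith) hdeg hb (by rw [Real.arccos_one]; exact hND)
      continuousOn_const (fun _ _ => zero_le_one) le_rfl (fun _ _ _ _ _ => by norm_num)
    rw [Real.arccos_one, ← hα] at h2
    refine h2.trans ?_
    have h3 : (∫ θ in (0 : ℝ)..α, (1 : ℝ) * (sin θ + 1 / n)) ≤ ∫ θ in (0 : ℝ)..α, (2 : ℝ) := by
      refine integral_mono_on hα0 (Continuous.intervalIntegrable (by fun_prop) _ _)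
        (Continuous.intervalIntegrable (by fun_prop) _ _) ?_
      intro θ _
      have h4 : 1 / (n : ℝ) ≤ 1 := by rw [div_le_one hn0]; exact hn1
      linarith [Real.sin_le_one θ]
    rw [intervalIntegral.integral_const, sub_zero, smul_eq_mul] at h3
    have h5 : K0 * 1 * (1 + Real.log n) / n * (∫ θ in (0 : ℝ)..α, (1 : ℝ) * (sin θ + 1 / n)) ≤
        K0 * 1 * (1 + Real.log n) / n * 8 :=
      mul_le_mul_of_nonneg_left (by linarith) (by positivity)
    refine h5.trans ?_
    have h6 : 0 ≤ (12000 + 3 * K0 * AA * (1 + 8000 / √δ)) * (1 + Real.log n) / n := by positivity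
    have h7 : (8 * K0 + 12000 + 3 * K0 * AA * (1 + 8000 / √δ)) * (1 + Real.log n) / n =
        K0 * 1 * (1 + Real.log n) / n * 8 +
          (12000 + 3 * K0 * AA * (1 + 8000 / √δ)) * (1 + Real.log n) / n := by ring
    linarith
  · intro c hc hc2
    have hpos : ∀ θ : ℝ, 0 < c - cos θ := fun θ => by linarith [Real.cos_le_one θ]
    have hc1 : 0 ≤ c ^ 2 - 1 := by nlinarith
    have h1 := hG0u a 1 P (fun x => (c ^ 2 - 1) / (c - x) ^ 2) (by linarith) (by linarith) le_rfl
      (by
        refine ContinuousOn.div continuousOn_const (by fun_prop) fun x hx => ?_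
        have : 0 < c - x := by linarith [hx.2]
        positivity)
    rw [Real.arccos_one, ← hα] at h1
    rw [h1]
    set W : ℝ → ℝ := fun θ => (c ^ 2 - 1) / (c - cos θ) ^ 2 with hW
    have hWc : Continuous W := by
      refine Continuous.div continuous_const (by fun_prop) fun θ => ?_
      exact pow_ne_zero 2 (hpos θ).ne'
    have hW0 : ∀ θ, 0 ≤ W θ := fun θ => div_nonneg hc1 (sq_nonneg _)
    set g : ℝ → ℝ := fun θ => sin θ ^ 2 / √(sin θ ^ 2 + deriv (qq P) θ ^ 2) with hg
    have hgm : Measurable g := x2_meas hA2 P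
    have hg1 : ∀ θ, 0 ≤ g θ ∧ g θ ≤ 1 := x2_le_one P
    have hint : ∀ u v : ℝ, IntervalIntegrable (fun θ => W θ * g θ) volume u v := by
      intro u v
      refine (hWc.intervalIntegrable u v).mono_fun
        (hWc.measurable.mul hgm).aestronglyMeasurable ?_
      refine Filter.Eventually.of_forall fun θ => ?_
      change ‖W θ * g θ‖ ≤ ‖W θ‖
      rw [norm_mul, Real.norm_eq_abs (g θ), abs_of_nonneg (hg1 θ).1]
      calc ‖W θ‖ * g θ ≤ ‖W θ‖ * 1 := mul_le_mul_of_nonneg_left (hg1 θ).2 (norm_nonneg _)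
        _ = _ := mul_one _
    set τ : ℝ := 1 / 2000 / n with hτ
    have hτ0 : 0 < τ := by positivity
    have hτn : τ ≤ 1 / n := by
      rw [hτ, div_div]
      exact one_div_le_one_div_of_le hn0 (by linarith)
    have h2e : 2 / (n : ℝ) = 1 / n + 1 / n := by ring
    have hτα : τ < α := by linarith
    change (∫ θ in (0 : ℝ)..α, W θ * g θ) ≤ _
    rw [← integral_add_adjacent_intervals (hint 0 τ) (hint τ α)]
    -- near the end point
    have hA : (∫ θ in (0 : ℝ)..τ, W θ * g θ) ≤ 12000 / (n : ℝ) ^ 2 := by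
      have hA1 : (∫ θ in (0 : ℝ)..τ, W θ * g θ) ≤
          ∫ θ in (0 : ℝ)..τ, 4000 / (n : ℝ) ^ 2 * (W θ * sin θ) := by
        refine integral_mono_on hτ0.le (hint 0 τ)
          (Continuous.intervalIntegrable (by fun_prop) _ _) ?_
        intro θ hθ
        have hθ1 : θ ≤ 1 := by
          have : 1 / (n : ℝ) ≤ 1 := by rw [div_le_one hn0]; exact hn1
          linarith [hθ.2]
        have hsθ : 0 ≤ sin θ := Real.sin_nonneg_of_nonneg_of_le_pi hθ.1
          (by linarith [Real.pi_gt_three])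
        have h5 : g θ ≤ 4000 / (n : ℝ) ^ 2 * sin θ := by
          rcases eq_or_lt_of_le hθ.1 with h0 | h0
          · rw [hg, ← h0]; simp
          · have h6 := x2_near hA2 (by omega) hdeg hb hα0 hND hθ.1 hθ.2
            have h7 : (n : ℝ) ^ 2 * θ / 2000 ≤ √(sin θ ^ 2 + deriv (qq P) θ ^ 2) := by
              refine h6.trans ?_
              rw [← Real.sqrt_sq_eq_abs]
              exact Real.sqrt_le_sqrt (by nlinarith [sq_nonneg (sin θ)])
            have h8 : 0 < (n : ℝ) ^ 2 * θ / 2000 := by positivity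
            have h9 : sin θ ≤ θ := Real.sin_le hθ.1
            calc g θ ≤ sin θ ^ 2 / ((n : ℝ) ^ 2 * θ / 2000) :=
                  div_le_div_of_nonneg_left (sq_nonneg _) h8 h7
              _ = 2000 / (n : ℝ) ^ 2 * (sin θ * (sin θ / θ)) := by field_simp
              _ ≤ 2000 / (n : ℝ) ^ 2 * (sin θ * 1) := by
                  refine mul_le_mul_of_nonneg_left (mul_le_mul_of_nonneg_left ?_ hsθ)
                    (by positivity)
                  rw [div_le_one h0]; exact h9
              _ ≤ 4000 / (n : ℝ) ^ 2 * sin θ := by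
                  rw [mul_one]
                  refine mul_le_mul_of_nonneg_right ?_ hsθ
                  exact div_le_div_of_nonneg_right (by norm_num) (by positivity)
        calc W θ * g θ ≤ W θ * (4000 / (n : ℝ) ^ 2 * sin θ) :=
              mul_le_mul_of_nonneg_left h5 (hW0 θ)
          _ = _ := by ring
      rw [intervalIntegral.integral_const_mul] at hA1
      have hA2' := x2_int (u := 0) (v := τ) hc hc2
      calc _ ≤ _ := hA1
        _ ≤ 4000 / (n : ℝ) ^ 2 * 3 := mul_le_mul_of_nonneg_left hA2' (by positivity)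
        _ = _ := by ring
    -- the rest
    have hτπ : τ ≤ π := by linarith
    have hac : arccos (cos τ) = τ := Real.arccos_cos hτ0.le hτπ
    have hB : (∫ θ in τ..α, W θ * g θ) ≤
        K0 * AA * (1 + Real.log n) / n * ((1 + 8000 / √δ) * 3) := by
      have h2 := hG n a (cos τ) AA P W hn2 (by linarith)
        (by rw [← hca]; exact Real.cos_lt_cos_of_nonneg_of_le_pi hτ0.le hαπ hτα)
        (Real.cos_le_one τ) (by rw [hac, ← hα]; have : 2 / (n : ℝ) = 1 / n + 1 / n := by ring
                                linarith) hdeg hb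
        (by rw [hac]; exact fun t ht => hND t ⟨hτ0.le.trans ht.1, ht.2⟩)
        hWc.continuousOn (fun θ _ => hW0 θ) (by rw [hAA]; norm_num) (by
          intro x hx y hy hxy
          rw [hac] at hx hy
          have hx0 : 0 < x := lt_of_lt_of_le hτ0 hx.1
          have hy0 : 0 < y := lt_of_lt_of_le hτ0 hy.1
          have h3 : y ≤ 2001 * x := by
            have h4 := (abs_le.1 hxy).1
            have h5 : 1 / (n : ℝ) = 2000 * τ := by rw [hτ]; ring
            linarith [hx.1]
          have h6 := x2_slow hc hx0.le (hx.2.trans hαπ) hy0.le h3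
          have h7 : (c - cos y) ^ 2 ≤ AA * (c - cos x) ^ 2 := by
            rw [hAA, ← mul_pow]
            exact pow_le_pow_left₀ (hpos y).le h6 2
          rw [hW]
          change (c ^ 2 - 1) / (c - cos x) ^ 2 ≤ AA * ((c ^ 2 - 1) / (c - cos y) ^ 2)
          rw [← mul_div_assoc, div_le_div_iff₀ (pow_pos (hpos x) 2) (pow_pos (hpos y) 2)]
          calc (c ^ 2 - 1) * (c - cos y) ^ 2 ≤ (c ^ 2 - 1) * (AA * (c - cos x) ^ 2) :=
                mul_le_mul_of_nonneg_left h7 hc1
            _ = _ := by ring)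
      rw [hac, ← hα] at h2
      refine h2.trans (mul_le_mul_of_nonneg_left ?_ (by positivity))
      have h3 : (∫ θ in τ..α, W θ * (sin θ + 1 / n)) ≤
          ∫ θ in τ..α, (1 + 8000 / √δ) * (W θ * sin θ) := by
        refine integral_mono_on hτα.le (Continuous.intervalIntegrable (by fun_prop) _ _)
          (Continuous.intervalIntegrable (by fun_prop) _ _) ?_
        intro θ hθ
        have hθ0 : 0 < θ := lt_of_lt_of_le hτ0 hθ.1
        have h4 : √δ * θ ≤ 4 * sin θ := by
          have hm0 : (0 : ℝ) ∈ Icc 0 π := ⟨le_refl _, hpi.le⟩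
          have hmα : α ∈ Icc 0 π := ⟨hα0, hαπ⟩
          have hαp : 0 < α := by linarith
          have hw0 : 0 ≤ 1 - θ / α := by rw [sub_nonneg, div_le_one hαp]; exact hθ.2
          have hw1 : 0 ≤ θ / α := by positivity
          have hcv := strictConcaveOn_sin_Icc.concaveOn.2 hm0 hmα hw0 hw1 (by ring)
          simp only [smul_eq_mul, mul_zero, zero_add, Real.sin_zero] at hcv
          rw [div_mul_cancel₀ θ hαp.ne'] at hcv
          have h5 : θ / α * √δ ≤ sin θ :=
            (mul_le_mul_of_nonneg_left hsα hw1).trans hcv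
          have h6 : θ * √δ ≤ sin θ * α := by
            have := mul_le_mul_of_nonneg_right h5 hα0
            have e : θ / α * √δ * α = θ * √δ := by field_simp
            rwa [e] at this
          have hsθ : 0 ≤ sin θ := Real.sin_nonneg_of_nonneg_of_le_pi hθ0.le (hθ.2.trans hαπ)
          nlinarith
        have h7 : 1 / (n : ℝ) ≤ 8000 / √δ * sin θ := by
          have h8 : 1 / (n : ℝ) = 2000 * τ := by rw [hτ]; ring
          have h9 : θ ≤ 4 / √δ * sin θ := by
            have e : 4 / √δ * sin θ = (4 * sin θ) / √δ := by ring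
            rw [e, le_div_iff₀ hsd]
            linarith
          rw [h8]
          calc 2000 * τ ≤ 2000 * θ := by linarith [hθ.1]
            _ ≤ 2000 * (4 / √δ * sin θ) := by linarith
            _ = _ := by ring
        calc W θ * (sin θ + 1 / n) ≤ W θ * (sin θ + 8000 / √δ * sin θ) :=
              mul_le_mul_of_nonneg_left (by linarith) (hW0 θ)
          _ = _ := by ring
      rw [intervalIntegral.integral_const_mul] at h3
      exact h3.trans (mul_le_mul_of_nonneg_left (x2_int hc hc2) (by positivity))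
    have hC : 12000 / (n : ℝ) ^ 2 ≤ 12000 * (1 + Real.log n) / n := by
      rw [div_le_div_iff₀ (by positivity) hn0]
      have : (n : ℝ) ≤ (1 + Real.log n) * (n : ℝ) ^ 2 := by nlinarith
      nlinarith
    have h6 : 0 ≤ 8 * K0 * (1 + Real.log n) / n := by positivity
    have h7 : (8 * K0 + 12000 + 3 * K0 * AA * (1 + 8000 / √δ)) * (1 + Real.log n) / n =
        8 * K0 * (1 + Real.log n) / n + 12000 * (1 + Real.log n) / n +
        K0 * AA * (1 + Real.log n) / n * ((1 + 8000 / √δ) * 3) := by ring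
    rw [h7]
    linarith

end

end Pool.Agent.Helper10.AL
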